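import Pool.Agent.Work.MP_392c8e_co_t1.Inst.Split

/-!
# Reducers with gain: four pentagons in a zigzag (two free terminals).
-/

namespace Pool.Agent.T1Red

/-- four pentagons in a zigzag (two free terminals). Labels `0, …, 7` are the terminals; all terminals have different values, except possibly 0 and 1, 0 and 2, 0 and 3, 0 and 4, 0 and 5, 0 and 7, 1 and 3, 1 and 4, 1 and 5, 1 and 6, 1 and 7, 2 and 4, 2 and 5, 2 and 6, 2 and 7, 3 and 4, 3 and 5, 3 and 6, 3 and 7, 4 and 5, 4 and 6, 4 and 7, 5 and 7. -/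
def Z4 : Red where
  t := 8
  m := 14
  ed :=
    [(8, 9), (8, 12), (8, 13), (9, 10), (9, 15), (10, 11), (10, 16), (11, 12), (11, 18), (13, 14),
    (13, 19), (14, 15), (14, 21), (16, 17), (17, 18), (19, 20), (20, 21), (15, 0), (16, 1), (17, 2),
    (18, 3), (12, 4), (19, 5), (20, 6), (21, 7)]
  nw := [(0, 4), (1, 3), (5, 7)]
  ne := [64, 4, 10, 4, 0, 64, 161, 64]

end Pool.Agent.T1Red
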