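import Pool.Agent.Work.MP_392c8e_co_uni.PtsWalk
import Pool.Agent.Work.MP_392c8e_co_uni.Inst.G1cQ1

/-!
# The extension property of the reducer G1c
-/

namespace Pool.Agent.T1Red

/-- All patterns. -/
def G1cC : List (Nat × List Nat) :=
  G1cC1_1 ++ (G1cC1_2 ++ (G1cC1_3 ++ (G1cC1_4 ++ (G1cC1_5 ++ (G1cC1_6 ++ (G1cC1_7 ++ (G1cC1_8 ++
  (G1cC1_9 ++ (G1cC1_10 ++ (G1cC1_11 ++ (G1cC1_12 ++ (G1cC1_13 ++ (G1cC1_14 ++ (G1cC1_15 ++
  (G1cC1_16 ++ (G1cC1_17 ++ (G1cC1_18 ++ (G1cC1_19 ++ (G1cC1_20)))))))))))))))))))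

theorem G1cC_ok : qcheckL (G1c) G1cne G1cte G1cT G1cC = true :=
  qcheckL_append G1cC1_1_ok ( qcheckL_append G1cC1_2_ok ( qcheckL_append G1cC1_3_ok ( qcheckL_append
  G1cC1_4_ok ( qcheckL_append G1cC1_5_ok ( qcheckL_append G1cC1_6_ok ( qcheckL_append G1cC1_7_ok (
  qcheckL_append G1cC1_8_ok ( qcheckL_append G1cC1_9_ok ( qcheckL_append G1cC1_10_ok (
  qcheckL_append G1cC1_11_ok ( qcheckL_append G1cC1_12_ok ( qcheckL_append G1cC1_13_ok (
  qcheckL_append G1cC1_14_ok ( qcheckL_append G1cC1_15_ok ( qcheckL_append G1cC1_16_ok (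
  qcheckL_append G1cC1_17_ok ( qcheckL_append G1cC1_18_ok ( qcheckL_append G1cC1_19_ok
  (G1cC1_20_ok)))))))))))))))))))

theorem G1cC_pts : Red.pts (G1c) = G1cC.map Prod.fst :=
  pts_of_walk [[], [], [2], [], [1], [], [1], []] [1] (by decide +kernel)
    (by decide +kernel) (by decide +kernel)

/-- The extension property of G1c. -/
theorem G1c_ext (co : List (Nat × Nat)) (h : neOK (G1c) co = true) : Red.Ext (G1c) co :=
  Red.ext_of_quick (by decide +kernel) (by decide +kernel : Red.ie (G1c) = G1cie)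
    (by decide +kernel : Red.te (G1c) = G1cte)
    (by decide +kernel : neP (Red.ne (G1c)) G1cne = true) G1cT_ok G1cC_ok G1cC_pts h

end Pool.Agent.T1Red
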