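import Pool.Agent.Work.MP_392c8e_co_uni.Inst.G2Ext

/-!
# G2: the extension property `G2_ext`
-/
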