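import Pool.Agent.Work.MP_392c8e_co_uni.Inst.P1Ext

/-!
# P1: the extension property `P1_ext`
-/
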