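import Pool.Agent.Work.MP_392c8e_co_uni.Inst.R2qQ1

/-!
# The extension property of the reducer R2q
-/

namespace Pool.Agent.T1Red

/-- All patterns. -/
def R2qC : List (Nat × List Nat) :=
  R2qC1_1 ++ (R2qC1_2 ++ (R2qC1_3 ++ (R2qC1_4 ++ (R2qC1_5 ++ (R2qC1_6)))))

theorem R2qC_ok : qcheckL (R2) R2qne R2qte R2qT R2qC = true :=
  qcheckL_append R2qC1_1_ok ( qcheckL_append R2qC1_2_ok ( qcheckL_append R2qC1_3_ok ( qcheckL_append
  R2qC1_4_ok ( qcheckL_append R2qC1_5_ok (R2qC1_6_ok)))))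

theorem R2qC_pts : Red.pts (R2) = R2qC.map Prod.fst := by
  decide +kernel

/-- The extension property of R2q. -/
theorem R2q_ext (co : List (Nat × Nat)) (h : neOK (R2) co = true) : Red.Ext (R2) co :=
  Red.ext_of_quick (by decide +kernel) (by decide +kernel : Red.ie (R2) = R2qie)
    (by decide +kernel : Red.te (R2) = R2qte)
    (by decide +kernel : neP (Red.ne (R2)) R2qne = true) R2qT_ok R2qC_ok R2qC_pts h

end Pool.Agent.T1Red
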