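import Pool.Agent.Work.MP_392c8e_co_uni.PtsWalk
import Pool.Agent.Work.MP_392c8e_co_uni.Inst.G2RQ1
import Pool.Agent.Work.MP_392c8e_co_uni.Inst.G2RQ2
import Pool.Agent.Work.MP_392c8e_co_uni.Inst.G2RQ3
import Pool.Agent.Work.MP_392c8e_co_uni.Inst.G2RQ4

/-!
# The extension property of the reducer G2R
-/

namespace Pool.Agent.T1Red

/-- All patterns. -/
def G2RC : List (Nat × List Nat) :=
  G2RC1_1 ++ (G2RC1_2 ++ (G2RC1_3 ++ (G2RC1_4 ++ (G2RC1_5 ++ (G2RC1_6 ++ (G2RC1_7 ++ (G2RC1_8 ++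
  (G2RC1_9 ++ (G2RC1_10 ++ (G2RC1_11 ++ (G2RC1_12 ++ (G2RC1_13 ++ (G2RC1_14 ++ (G2RC1_15 ++ (G2RC2_1
  ++ (G2RC2_2 ++ (G2RC2_3 ++ (G2RC2_4 ++ (G2RC2_5 ++ (G2RC2_6 ++ (G2RC2_7 ++ (G2RC2_8 ++ (G2RC2_9 ++
  (G2RC2_10 ++ (G2RC2_11 ++ (G2RC2_12 ++ (G2RC2_13 ++ (G2RC2_14 ++ (G2RC2_15 ++ (G2RC3_1 ++ (G2RC3_2
  ++ (G2RC3_3 ++ (G2RC3_4 ++ (G2RC3_5 ++ (G2RC3_6 ++ (G2RC3_7 ++ (G2RC3_8 ++ (G2RC3_9 ++ (G2RC3_10
  ++ (G2RC3_11 ++ (G2RC3_12 ++ (G2RC3_13 ++ (G2RC3_14 ++ (G2RC3_15 ++ (G2RC4_1 ++ (G2RC4_2 ++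
  (G2RC4_3 ++ (G2RC4_4 ++ (G2RC4_5 ++ (G2RC4_6 ++ (G2RC4_7 ++ (G2RC4_8 ++ (G2RC4_9 ++ (G2RC4_10 ++
  (G2RC4_11 ++ (G2RC4_12 ++ (G2RC4_13 ++ (G2RC4_14 ++
  (G2RC4_15)))))))))))))))))))))))))))))))))))))))))))))))))))))))))))

theorem G2RC_ok : qcheckL (G2R) G2Rne G2Rte G2RT G2RC = true :=
  qcheckL_append G2RC1_1_ok ( qcheckL_append G2RC1_2_ok ( qcheckL_append G2RC1_3_ok ( qcheckL_append
  G2RC1_4_ok ( qcheckL_append G2RC1_5_ok ( qcheckL_append G2RC1_6_ok ( qcheckL_append G2RC1_7_ok (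
  qcheckL_append G2RC1_8_ok ( qcheckL_append G2RC1_9_ok ( qcheckL_append G2RC1_10_ok (
  qcheckL_append G2RC1_11_ok ( qcheckL_append G2RC1_12_ok ( qcheckL_append G2RC1_13_ok (
  qcheckL_append G2RC1_14_ok ( qcheckL_append G2RC1_15_ok ( qcheckL_append G2RC2_1_ok (
  qcheckL_append G2RC2_2_ok ( qcheckL_append G2RC2_3_ok ( qcheckL_append G2RC2_4_ok ( qcheckL_append
  G2RC2_5_ok ( qcheckL_append G2RC2_6_ok ( qcheckL_append G2RC2_7_ok ( qcheckL_append G2RC2_8_ok (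
  qcheckL_append G2RC2_9_ok ( qcheckL_append G2RC2_10_ok ( qcheckL_append G2RC2_11_ok (
  qcheckL_append G2RC2_12_ok ( qcheckL_append G2RC2_13_ok ( qcheckL_append G2RC2_14_ok (
  qcheckL_append G2RC2_15_ok ( qcheckL_append G2RC3_1_ok ( qcheckL_append G2RC3_2_ok (
  qcheckL_append G2RC3_3_ok ( qcheckL_append G2RC3_4_ok ( qcheckL_append G2RC3_5_ok ( qcheckL_append
  G2RC3_6_ok ( qcheckL_append G2RC3_7_ok ( qcheckL_append G2RC3_8_ok ( qcheckL_append G2RC3_9_ok (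
  qcheckL_append G2RC3_10_ok ( qcheckL_append G2RC3_11_ok ( qcheckL_append G2RC3_12_ok (
  qcheckL_append G2RC3_13_ok ( qcheckL_append G2RC3_14_ok ( qcheckL_append G2RC3_15_ok (
  qcheckL_append G2RC4_1_ok ( qcheckL_append G2RC4_2_ok ( qcheckL_append G2RC4_3_ok ( qcheckL_append
  G2RC4_4_ok ( qcheckL_append G2RC4_5_ok ( qcheckL_append G2RC4_6_ok ( qcheckL_append G2RC4_7_ok (
  qcheckL_append G2RC4_8_ok ( qcheckL_append G2RC4_9_ok ( qcheckL_append G2RC4_10_ok (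
  qcheckL_append G2RC4_11_ok ( qcheckL_append G2RC4_12_ok ( qcheckL_append G2RC4_13_ok (
  qcheckL_append G2RC4_14_ok (G2RC4_15_ok)))))))))))))))))))))))))))))))))))))))))))))))))))))))))))

theorem G2RC_pts : Red.pts (G2R) = G2RC.map Prod.fst :=
  pts_of_walk [[], [], [1], [], [], [1], [], [1], []] [6] (by decide +kernel)
    (by decide +kernel) (by decide +kernel)

/-- The extension property of G2R. -/
theorem G2R_ext (co : List (Nat × Nat)) (h : neOK (G2R) co = true) : Red.Ext (G2R) co :=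
  Red.ext_of_quick (by decide +kernel) (by decide +kernel : Red.ie (G2R) = G2Rie)
    (by decide +kernel : Red.te (G2R) = G2Rte)
    (by decide +kernel : neP (Red.ne (G2R)) G2Rne = true) G2RT_ok G2RC_ok G2RC_pts h

end Pool.Agent.T1Red
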