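import Pool.Agent.Work.MP_392c8e_co_uni.PtsWalk
import Pool.Agent.Work.MP_392c8e_co_uni.Inst.G3XQ1

/-!
# The extension property of the reducer G3X
-/

namespace Pool.Agent.T1Red

/-- All patterns. -/
def G3XC : List (Nat × List Nat) :=
  G3XC1_1 ++ (G3XC1_2 ++ (G3XC1_3 ++ (G3XC1_4 ++ (G3XC1_5 ++ (G3XC1_6 ++ (G3XC1_7 ++ (G3XC1_8 ++
  (G3XC1_9 ++ (G3XC1_10 ++ (G3XC1_11 ++ (G3XC1_12 ++ (G3XC1_13 ++ (G3XC1_14 ++ (G3XC1_15 ++
  (G3XC1_16 ++ (G3XC1_17 ++ (G3XC1_18)))))))))))))))))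

theorem G3XC_ok : qcheckL (G3X) G3Xne G3Xte G3XT G3XC = true :=
  qcheckL_append G3XC1_1_ok ( qcheckL_append G3XC1_2_ok ( qcheckL_append G3XC1_3_ok ( qcheckL_append
  G3XC1_4_ok ( qcheckL_append G3XC1_5_ok ( qcheckL_append G3XC1_6_ok ( qcheckL_append G3XC1_7_ok (
  qcheckL_append G3XC1_8_ok ( qcheckL_append G3XC1_9_ok ( qcheckL_append G3XC1_10_ok (
  qcheckL_append G3XC1_11_ok ( qcheckL_append G3XC1_12_ok ( qcheckL_append G3XC1_13_ok (
  qcheckL_append G3XC1_14_ok ( qcheckL_append G3XC1_15_ok ( qcheckL_append G3XC1_16_ok (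
  qcheckL_append G3XC1_17_ok (G3XC1_18_ok)))))))))))))))))

theorem G3XC_pts : Red.pts (G3X) = G3XC.map Prod.fst :=
  pts_of_walk [[], [], [], [], [1], [], [5], [2]] [6] (by decide +kernel)
    (by decide +kernel) (by decide +kernel)

/-- The extension property of G3X. -/
theorem G3X_ext (co : List (Nat × Nat)) (h : neOK (G3X) co = true) : Red.Ext (G3X) co :=
  Red.ext_of_quick (by decide +kernel) (by decide +kernel : Red.ie (G3X) = G3Xie)
    (by decide +kernel : Red.te (G3X) = G3Xte)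
    (by decide +kernel : neP (Red.ne (G3X)) G3Xne = true) G3XT_ok G3XC_ok G3XC_pts h

/-- The extension property used in the line g3. -/
theorem ext_G3X : G3X.Ext [(3, 4), (6, 7)] := G3X_ext _ (by decide +kernel)

end Pool.Agent.T1Red
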