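import Pool.Agent.Work.MP_392c8e_co_uni.PtsFast
import Pool.Agent.Work.MP_392c8e_co_uni.Inst.G3cQ1
import Pool.Agent.Work.MP_392c8e_co_uni.Inst.G3cQ2
import Pool.Agent.Work.MP_392c8e_co_uni.Inst.G3cQ3
import Pool.Agent.Work.MP_392c8e_co_uni.Inst.G3cQ4
import Pool.Agent.Work.MP_392c8e_co_uni.Inst.G3cQ5
import Pool.Agent.Work.MP_392c8e_co_uni.Inst.G3cQ6

/-!
# The extension property of the reducer G3c
-/

namespace Pool.Agent.T1Red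

/-- All patterns. -/
def G3cC : List (Nat × List Nat) :=
  G3cC1_1 ++ (G3cC1_2 ++ (G3cC1_3 ++ (G3cC1_4 ++ (G3cC1_5 ++ (G3cC1_6 ++ (G3cC1_7 ++ (G3cC1_8 ++
  (G3cC1_9 ++ (G3cC1_10 ++ (G3cC1_11 ++ (G3cC1_12 ++ (G3cC1_13 ++ (G3cC1_14 ++ (G3cC1_15 ++
  (G3cC1_16 ++ (G3cC1_17 ++ (G3cC1_18 ++ (G3cC1_19 ++ (G3cC1_20 ++ (G3cC2_1 ++ (G3cC2_2 ++ (G3cC2_3
  ++ (G3cC2_4 ++ (G3cC2_5 ++ (G3cC2_6 ++ (G3cC2_7 ++ (G3cC2_8 ++ (G3cC2_9 ++ (G3cC2_10 ++ (G3cC2_11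
  ++ (G3cC2_12 ++ (G3cC2_13 ++ (G3cC2_14 ++ (G3cC2_15 ++ (G3cC2_16 ++ (G3cC2_17 ++ (G3cC2_18 ++
  (G3cC2_19 ++ (G3cC2_20 ++ (G3cC3_1 ++ (G3cC3_2 ++ (G3cC3_3 ++ (G3cC3_4 ++ (G3cC3_5 ++ (G3cC3_6 ++
  (G3cC3_7 ++ (G3cC3_8 ++ (G3cC3_9 ++ (G3cC3_10 ++ (G3cC3_11 ++ (G3cC3_12 ++ (G3cC3_13 ++ (G3cC3_14
  ++ (G3cC3_15 ++ (G3cC3_16 ++ (G3cC3_17 ++ (G3cC3_18 ++ (G3cC3_19 ++ (G3cC3_20 ++ (G3cC4_1 ++
  (G3cC4_2 ++ (G3cC4_3 ++ (G3cC4_4 ++ (G3cC4_5 ++ (G3cC4_6 ++ (G3cC4_7 ++ (G3cC4_8 ++ (G3cC4_9 ++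
  (G3cC4_10 ++ (G3cC4_11 ++ (G3cC4_12 ++ (G3cC4_13 ++ (G3cC4_14 ++ (G3cC4_15 ++ (G3cC4_16 ++
  (G3cC4_17 ++ (G3cC4_18 ++ (G3cC4_19 ++ (G3cC4_20 ++ (G3cC5_1 ++ (G3cC5_2 ++ (G3cC5_3 ++ (G3cC5_4
  ++ (G3cC5_5 ++ (G3cC5_6 ++ (G3cC5_7 ++ (G3cC5_8 ++ (G3cC5_9 ++ (G3cC5_10 ++ (G3cC5_11 ++ (G3cC5_12
  ++ (G3cC5_13 ++ (G3cC5_14 ++ (G3cC5_15 ++ (G3cC5_16 ++ (G3cC5_17 ++ (G3cC5_18 ++ (G3cC5_19 ++
  (G3cC5_20 ++ (G3cC6_1 ++ (G3cC6_2 ++ (G3cC6_3 ++ (G3cC6_4 ++ (G3cC6_5 ++ (G3cC6_6 ++ (G3cC6_7 ++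
  (G3cC6_8 ++ (G3cC6_9 ++ (G3cC6_10 ++ (G3cC6_11 ++ (G3cC6_12 ++ (G3cC6_13 ++ (G3cC6_14 ++ (G3cC6_15
  ++ (G3cC6_16 ++ (G3cC6_17 ++ (G3cC6_18 ++ (G3cC6_19 ++
  (G3cC6_20)))))))))))))))))))))))))))))))))))))))))))))))))))))))))))))))))))))))))))))))))))))))))))))))))))))))))))))))))))))))

theorem G3cC_ok : qcheckL (G3c) G3cne G3cte G3cT G3cC = true :=
  qcheckL_append G3cC1_1_ok ( qcheckL_append G3cC1_2_ok ( qcheckL_append G3cC1_3_ok ( qcheckL_append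
  G3cC1_4_ok ( qcheckL_append G3cC1_5_ok ( qcheckL_append G3cC1_6_ok ( qcheckL_append G3cC1_7_ok (
  qcheckL_append G3cC1_8_ok ( qcheckL_append G3cC1_9_ok ( qcheckL_append G3cC1_10_ok (
  qcheckL_append G3cC1_11_ok ( qcheckL_append G3cC1_12_ok ( qcheckL_append G3cC1_13_ok (
  qcheckL_append G3cC1_14_ok ( qcheckL_append G3cC1_15_ok ( qcheckL_append G3cC1_16_ok (
  qcheckL_append G3cC1_17_ok ( qcheckL_append G3cC1_18_ok ( qcheckL_append G3cC1_19_ok (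
  qcheckL_append G3cC1_20_ok ( qcheckL_append G3cC2_1_ok ( qcheckL_append G3cC2_2_ok (
  qcheckL_append G3cC2_3_ok ( qcheckL_append G3cC2_4_ok ( qcheckL_append G3cC2_5_ok ( qcheckL_append
  G3cC2_6_ok ( qcheckL_append G3cC2_7_ok ( qcheckL_append G3cC2_8_ok ( qcheckL_append G3cC2_9_ok (
  qcheckL_append G3cC2_10_ok ( qcheckL_append G3cC2_11_ok ( qcheckL_append G3cC2_12_ok (
  qcheckL_append G3cC2_13_ok ( qcheckL_append G3cC2_14_ok ( qcheckL_append G3cC2_15_ok (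
  qcheckL_append G3cC2_16_ok ( qcheckL_append G3cC2_17_ok ( qcheckL_append G3cC2_18_ok (
  qcheckL_append G3cC2_19_ok ( qcheckL_append G3cC2_20_ok ( qcheckL_append G3cC3_1_ok (
  qcheckL_append G3cC3_2_ok ( qcheckL_append G3cC3_3_ok ( qcheckL_append G3cC3_4_ok ( qcheckL_append
  G3cC3_5_ok ( qcheckL_append G3cC3_6_ok ( qcheckL_append G3cC3_7_ok ( qcheckL_append G3cC3_8_ok (
  qcheckL_append G3cC3_9_ok ( qcheckL_append G3cC3_10_ok ( qcheckL_append G3cC3_11_ok (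
  qcheckL_append G3cC3_12_ok ( qcheckL_append G3cC3_13_ok ( qcheckL_append G3cC3_14_ok (
  qcheckL_append G3cC3_15_ok ( qcheckL_append G3cC3_16_ok ( qcheckL_append G3cC3_17_ok (
  qcheckL_append G3cC3_18_ok ( qcheckL_append G3cC3_19_ok ( qcheckL_append G3cC3_20_ok (
  qcheckL_append G3cC4_1_ok ( qcheckL_append G3cC4_2_ok ( qcheckL_append G3cC4_3_ok ( qcheckL_append
  G3cC4_4_ok ( qcheckL_append G3cC4_5_ok ( qcheckL_append G3cC4_6_ok ( qcheckL_append G3cC4_7_ok (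
  qcheckL_append G3cC4_8_ok ( qcheckL_append G3cC4_9_ok ( qcheckL_append G3cC4_10_ok (
  qcheckL_append G3cC4_11_ok ( qcheckL_append G3cC4_12_ok ( qcheckL_append G3cC4_13_ok (
  qcheckL_append G3cC4_14_ok ( qcheckL_append G3cC4_15_ok ( qcheckL_append G3cC4_16_ok (
  qcheckL_append G3cC4_17_ok ( qcheckL_append G3cC4_18_ok ( qcheckL_append G3cC4_19_ok (
  qcheckL_append G3cC4_20_ok ( qcheckL_append G3cC5_1_ok ( qcheckL_append G3cC5_2_ok (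
  qcheckL_append G3cC5_3_ok ( qcheckL_append G3cC5_4_ok ( qcheckL_append G3cC5_5_ok ( qcheckL_append
  G3cC5_6_ok ( qcheckL_append G3cC5_7_ok ( qcheckL_append G3cC5_8_ok ( qcheckL_append G3cC5_9_ok (
  qcheckL_append G3cC5_10_ok ( qcheckL_append G3cC5_11_ok ( qcheckL_append G3cC5_12_ok (
  qcheckL_append G3cC5_13_ok ( qcheckL_append G3cC5_14_ok ( qcheckL_append G3cC5_15_ok (
  qcheckL_append G3cC5_16_ok ( qcheckL_append G3cC5_17_ok ( qcheckL_append G3cC5_18_ok (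
  qcheckL_append G3cC5_19_ok ( qcheckL_append G3cC5_20_ok ( qcheckL_append G3cC6_1_ok (
  qcheckL_append G3cC6_2_ok ( qcheckL_append G3cC6_3_ok ( qcheckL_append G3cC6_4_ok ( qcheckL_append
  G3cC6_5_ok ( qcheckL_append G3cC6_6_ok ( qcheckL_append G3cC6_7_ok ( qcheckL_append G3cC6_8_ok (
  qcheckL_append G3cC6_9_ok ( qcheckL_append G3cC6_10_ok ( qcheckL_append G3cC6_11_ok (
  qcheckL_append G3cC6_12_ok ( qcheckL_append G3cC6_13_ok ( qcheckL_append G3cC6_14_ok (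
  qcheckL_append G3cC6_15_ok ( qcheckL_append G3cC6_16_ok ( qcheckL_append G3cC6_17_ok (
  qcheckL_append G3cC6_18_ok ( qcheckL_append G3cC6_19_ok
  (G3cC6_20_ok)))))))))))))))))))))))))))))))))))))))))))))))))))))))))))))))))))))))))))))))))))))))))))))))))))))))))))))))))))))))

theorem G3cC_pts : Red.pts (G3c) = G3cC.map Prod.fst :=
  (Red.ptsF_eq _).trans (eqL_sound (by decide +kernel))

/-- The extension property of G3c. -/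
theorem G3c_ext (co : List (Nat × Nat)) (h : neOK (G3c) co = true) : Red.Ext (G3c) co :=
  Red.ext_of_quick (by decide +kernel) (by decide +kernel : Red.ie (G3c) = G3cie)
    (by decide +kernel : Red.te (G3c) = G3cte)
    (by decide +kernel : neP (Red.ne (G3c)) G3cne = true) G3cT_ok G3cC_ok G3cC_pts h

theorem extTab_G3c (co : List (Nat × Nat)) (h : neOK G3c co = true) : G3c.Ext co :=
  G3c_ext co h

end Pool.Agent.T1Red
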