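import Pool.Agent.Work.MP_392c8e_co_t1.Inst.Split

/-!
# Reducers with gain: a 7-face with 5-faces at the places 0, 1, 4 (free terminal 0).
-/

namespace Pool.Agent.T1Red

/-- a 7-face with 5-faces at the places 0, 1, 4 (free terminal 0). Labels `0, …, 8` are the terminals; only the pairs in `ne` have to have different values. -/
def G2 : Red where
  t := 9
  m := 15
  ed :=
    [(9, 10), (9, 15), (9, 16), (10, 11), (10, 18), (11, 12), (11, 20), (12, 13), (13, 14), (13,
    21), (14, 15), (14, 23), (16, 17), (17, 18), (18, 19), (19, 20), (21, 22), (22, 23), (15, 0),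
    (16, 1), (17, 2), (19, 3), (20, 4), (12, 5), (21, 6), (22, 7), (23, 8)]
  nw := [(1, 2), (3, 4), (6, 7), (5, 8)]
  ne := [0, 256, 0, 0, 0, 0, 0, 256, 130]

end Pool.Agent.T1Red
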