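import Pool.Agent.Work.MP_392c8e_co_t1.Inst.Split

/-!
# Reducers with gain: four pentagons, the central two of them adjacent (two free terminals).
-/

namespace Pool.Agent.T1Red

/-- four pentagons, the central two of them adjacent (two free terminals). Labels `0, …, 5` are the terminals; they may be identified in any way. -/
def Rho : Red where
  t := 6
  m := 12
  ed :=
    [(6, 7), (6, 10), (6, 11), (7, 8), (7, 13), (8, 9), (8, 15), (9, 10), (9, 17), (11, 12), (12,
    13), (13, 14), (14, 15), (15, 16), (16, 17), (10, 0), (11, 1), (12, 2), (14, 3), (16, 4), (17,
    5)]
  nw := [(1, 2), (4, 5)]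
  ne := [0, 0, 0, 0, 0, 0]

/-- The certificate of Rho. -/
def RhoCert : List (List Nat) :=
  [[6363428], [6366500], [6440216], [6366500], [6391076], [6392100], [6428964], [4597124],
  [4490532], [4490532], [4490532], [4475272], [4790660], [4793732], [4490532], [4490532], [4490628],
  [4491652], [4790660], [4793732], [9585944], [9585944], [4818308], [4819332], [4593956], [4597124],
  [4490532], [4490532], [4490532], [4475272], [4790660], [4793732], [4490532], [4490532], [4490628],
  [4491652], [9509156], [9512228], [9585944], [9512228], [9536804], [9537828], [9574692], [9577764],
  [9585944], [9577764], [9585944], [9586968], [1645124, 1644932, 1642886], [9512228], [9536804],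
  [9536804], [9536804], [9980184], [9509144], [9512228], [9585944], [9585944, 9512228], [9536804],
  [9509144, 9537828], [8788260], [8791332], [8684836], [8684836], [8684836], [8685860, 8788260,
  9574692], [8689956], [9512228], [8684836], [8684836], [8684836], [8685860], [1644932], [1648004],
  [6440216], [6440216], [1672580], [1673604], [6428952], [2499972, 2500164, 2495049], [6587684],
  [6587684], [6587684], [6441240], [1644932], [1648004], [6391076], [6391076], [1607044], [1608068],
  [6363416], [6366500], [6440216], [6440216, 6366500], [6391076], [6392100, 6363416], [6428952],
  [4597124], [4490532], [4490532], [4490532], [4475272], [4790660], [4793732], [4474248], [4490532,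
  6391076, 6366500], [4490628], [4491652]]

theorem piece1_Rho : piece Rho RhoCert 0 36 = true := by
  decide +kernel

theorem piece2_Rho : piece Rho RhoCert 36 36 = true := by
  decide +kernel

theorem piece3_Rho : piece Rho RhoCert 72 36 = true := by
  decide +kernel

theorem pts_Rho : Rho.pts.length = 108 := by
  decide +kernel

/-- The check of Rho. -/
theorem check_Rho : check Rho RhoCert = true := by
  refine check_of ?_ (by decide +kernel)
  refine piece_cons piece1_Rho ?_
  refine piece_cons piece2_Rho ?_
  exact piece_end piece3_Rho (by rw [pts_Rho])

end Pool.Agent.T1Red
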