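import Pool.Agent.Work.MP_392c8e_co_uni.Quick
import Pool.Agent.Work.MP_392c8e_co_uni.RedG

/-!
# The table of the reducer G1c
-/

namespace Pool.Agent.T1Red

/-- The edges between interior vertices. -/
def G1cie : List (Nat × Nat) :=
  [(9, 10), (9, 15), (9, 16), (10, 11), (10, 18), (11, 12), (11, 20), (12, 13), (12, 21), (13, 14),
  (13, 23), (14, 15), (16, 17), (17, 18), (18, 19), (19, 20), (21, 22), (22, 23)]

/-- The packed matrix of the pairs with different values. -/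
def G1cne : Nat := 43557809703312917804806543252561636360320

/-- The edges with a label. -/
def G1cte : List (Nat × Nat) :=
  [(14, 0), (15, 1), (16, 2), (17, 3), (19, 4), (20, 5), (21, 6), (22, 7), (23, 8)]

def G1cp0_1 : Nat × Nat × Nat × Nat := (3, 1, 0, 1)
def G1cp0_2 : Nat × Nat × Nat × Nat := (5, 1, 0, 2)
def G1cp0_3 : Nat × Nat × Nat × Nat := (9, 1, 0, 3)
def G1cp0_4 : Nat × Nat × Nat × Nat := (17, 1, 0, 4)
def G1cp0_5 : Nat × Nat × Nat × Nat := (33, 1, 0, 5)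
def G1cp0_6 : Nat × Nat × Nat × Nat := (65, 1, 0, 6)
def G1cp0_7 : Nat × Nat × Nat × Nat := (129, 1, 0, 7)
def G1cp0_8 : Nat × Nat × Nat × Nat := (257, 1, 0, 8)
def G1cp1_0 : Nat × Nat × Nat × Nat := (3, 2, 1, 0)
def G1cp1_2 : Nat × Nat × Nat × Nat := (6, 2, 1, 2)
def G1cp1_3 : Nat × Nat × Nat × Nat := (10, 2, 1, 3)
def G1cp1_4 : Nat × Nat × Nat × Nat := (18, 2, 1, 4)
def G1cp1_5 : Nat × Nat × Nat × Nat := (34, 2, 1, 5)
def G1cp1_6 : Nat × Nat × Nat × Nat := (66, 2, 1, 6)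
def G1cp1_7 : Nat × Nat × Nat × Nat := (130, 2, 1, 7)
def G1cp1_8 : Nat × Nat × Nat × Nat := (258, 2, 1, 8)
def G1cp2_0 : Nat × Nat × Nat × Nat := (5, 4, 2, 0)
def G1cp2_1 : Nat × Nat × Nat × Nat := (6, 4, 2, 1)
def G1cp2_3 : Nat × Nat × Nat × Nat := (12, 4, 2, 3)
def G1cp2_4 : Nat × Nat × Nat × Nat := (20, 4, 2, 4)
def G1cp2_5 : Nat × Nat × Nat × Nat := (36, 4, 2, 5)
def G1cp2_6 : Nat × Nat × Nat × Nat := (68, 4, 2, 6)
def G1cp2_7 : Nat × Nat × Nat × Nat := (132, 4, 2, 7)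
def G1cp2_8 : Nat × Nat × Nat × Nat := (260, 4, 2, 8)
def G1cp3_0 : Nat × Nat × Nat × Nat := (9, 8, 3, 0)
def G1cp3_1 : Nat × Nat × Nat × Nat := (10, 8, 3, 1)
def G1cp3_2 : Nat × Nat × Nat × Nat := (12, 8, 3, 2)
def G1cp3_4 : Nat × Nat × Nat × Nat := (24, 8, 3, 4)
def G1cp3_5 : Nat × Nat × Nat × Nat := (40, 8, 3, 5)
def G1cp3_6 : Nat × Nat × Nat × Nat := (72, 8, 3, 6)
def G1cp3_7 : Nat × Nat × Nat × Nat := (136, 8, 3, 7)
def G1cp3_8 : Nat × Nat × Nat × Nat := (264, 8, 3, 8)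
def G1cp4_0 : Nat × Nat × Nat × Nat := (17, 16, 4, 0)
def G1cp4_1 : Nat × Nat × Nat × Nat := (18, 16, 4, 1)
def G1cp4_2 : Nat × Nat × Nat × Nat := (20, 16, 4, 2)
def G1cp4_3 : Nat × Nat × Nat × Nat := (24, 16, 4, 3)
def G1cp4_5 : Nat × Nat × Nat × Nat := (48, 16, 4, 5)
def G1cp4_6 : Nat × Nat × Nat × Nat := (80, 16, 4, 6)
def G1cp4_7 : Nat × Nat × Nat × Nat := (144, 16, 4, 7)
def G1cp4_8 : Nat × Nat × Nat × Nat := (272, 16, 4, 8)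
def G1cp5_0 : Nat × Nat × Nat × Nat := (33, 32, 5, 0)
def G1cp5_1 : Nat × Nat × Nat × Nat := (34, 32, 5, 1)
def G1cp5_2 : Nat × Nat × Nat × Nat := (36, 32, 5, 2)
def G1cp5_3 : Nat × Nat × Nat × Nat := (40, 32, 5, 3)
def G1cp5_4 : Nat × Nat × Nat × Nat := (48, 32, 5, 4)
def G1cp5_6 : Nat × Nat × Nat × Nat := (96, 32, 5, 6)
def G1cp5_7 : Nat × Nat × Nat × Nat := (160, 32, 5, 7)
def G1cp5_8 : Nat × Nat × Nat × Nat := (288, 32, 5, 8)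
def G1cp6_0 : Nat × Nat × Nat × Nat := (65, 64, 6, 0)
def G1cp6_1 : Nat × Nat × Nat × Nat := (66, 64, 6, 1)
def G1cp6_2 : Nat × Nat × Nat × Nat := (68, 64, 6, 2)
def G1cp6_3 : Nat × Nat × Nat × Nat := (72, 64, 6, 3)
def G1cp6_4 : Nat × Nat × Nat × Nat := (80, 64, 6, 4)
def G1cp6_5 : Nat × Nat × Nat × Nat := (96, 64, 6, 5)
def G1cp6_7 : Nat × Nat × Nat × Nat := (192, 64, 6, 7)
def G1cp6_8 : Nat × Nat × Nat × Nat := (320, 64, 6, 8)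
def G1cp7_0 : Nat × Nat × Nat × Nat := (129, 128, 7, 0)
def G1cp7_1 : Nat × Nat × Nat × Nat := (130, 128, 7, 1)
def G1cp7_2 : Nat × Nat × Nat × Nat := (132, 128, 7, 2)
def G1cp7_3 : Nat × Nat × Nat × Nat := (136, 128, 7, 3)
def G1cp7_4 : Nat × Nat × Nat × Nat := (144, 128, 7, 4)
def G1cp7_5 : Nat × Nat × Nat × Nat := (160, 128, 7, 5)
def G1cp7_6 : Nat × Nat × Nat × Nat := (192, 128, 7, 6)
def G1cp7_8 : Nat × Nat × Nat × Nat := (384, 128, 7, 8)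
def G1cp8_0 : Nat × Nat × Nat × Nat := (257, 256, 8, 0)
def G1cp8_1 : Nat × Nat × Nat × Nat := (258, 256, 8, 1)
def G1cp8_2 : Nat × Nat × Nat × Nat := (260, 256, 8, 2)
def G1cp8_3 : Nat × Nat × Nat × Nat := (264, 256, 8, 3)
def G1cp8_4 : Nat × Nat × Nat × Nat := (272, 256, 8, 4)
def G1cp8_5 : Nat × Nat × Nat × Nat := (288, 256, 8, 5)
def G1cp8_6 : Nat × Nat × Nat × Nat := (320, 256, 8, 6)
def G1cp8_7 : Nat × Nat × Nat × Nat := (384, 256, 8, 7)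

def G1cT1 : Tr :=
  .node 32 (.node 16 (.node 8 (.node 4 (.node 2 (.node 1 (.leaf ⟨409011273, 1257987325016527735873,
  12078135091503977920735063014706677900673292600206271983370336682377272, 99905, [G1cp1_0, G1cp1_3,
  G1cp1_4, G1cp1_5, G1cp2_3, G1cp2_4, G1cp2_5, G1cp4_3, G1cp5_3, G1cp5_4, G1cp7_6, G1cp8_6,
  G1cp8_7]⟩) (.leaf ⟨610337865, 2398226693072803204161,
  6928864676089780636269069204425765762105415002697682164481585103503416, 149057, [G1cp1_0, G1cp1_3,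
  G1cp1_4, G1cp1_5, G1cp2_3, G1cp2_4, G1cp2_5, G1cp4_3, G1cp5_3, G1cp5_4, G1cp6_0, G1cp6_7, G1cp6_8,
  G1cp7_0, G1cp7_8, G1cp8_0]⟩)) (.node 3 (.leaf ⟨411337873, 4913827032033020412929,
  12078135091503977154475600390257639660675429165281850054722854999359500, 100385, [G1cp1_0,
  G1cp1_2, G1cp1_3, G1cp2_3, G1cp5_4, G1cp7_6, G1cp8_6, G1cp8_7]⟩) (.leaf ⟨612664465,
  6054066400089295881217, 6928864676089779870009606579976727522107551567773260235834103420485644,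
  149537, [G1cp1_0, G1cp1_2, G1cp1_3, G1cp2_3, G1cp5_4, G1cp6_0, G1cp6_7, G1cp6_8, G1cp7_0, G1cp7_8,
  G1cp8_0]⟩))) (.node 6 (.node 5 (.leaf ⟨608453730, 2398113004707583759554,
  6928864676089778337560833766484840007749053870730931854887990107045891, 148497, [G1cp1_0, G1cp2_0,
  G1cp2_1, G1cp3_0, G1cp3_1, G1cp3_2, G1cp4_5, G1cp6_0, G1cp6_7, G1cp6_8, G1cp7_0, G1cp7_8,
  G1cp8_0]⟩) (.leaf ⟨407127138, 1257873636651408954562,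
  12078135091503975622026827576765752146316931468239521673776741685919747, 99345, [G1cp1_0, G1cp2_0,
  G1cp2_1, G1cp3_0, G1cp3_1, G1cp3_2, G1cp4_5, G1cp7_6, G1cp8_6, G1cp8_7]⟩)) (.node 7 (.leaf
  ⟨608568417, 2398113013775333463242,
  7252388972684584348928798518275188844431245437160694627697794273247232, 148609, [G1cp1_0, G1cp3_2,
  G1cp4_2, G1cp4_3, G1cp4_5, G1cp5_2, G1cp5_3, G1cp6_0, G1cp6_2, G1cp6_3, G1cp6_7, G1cp6_8, G1cp7_0,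
  G1cp7_2, G1cp7_3, G1cp7_8, G1cp8_0, G1cp8_2, G1cp8_3]⟩) (.leaf ⟨407241825, 1257873645719057994954,
  12401659388098781633394792328556100982999123034669284446586545852121088, 99457, [G1cp1_0, G1cp3_2,
  G1cp4_2, G1cp4_3, G1cp4_5, G1cp5_2, G1cp5_3, G1cp6_2, G1cp6_3, G1cp7_2, G1cp7_3, G1cp7_6, G1cp8_2,
  G1cp8_3, G1cp8_6, G1cp8_7]⟩)))) (.node 12 (.node 10 (.node 9 (.leaf ⟨407438433,
  1257984925882155930823, 12078135091503975622026828647215473528022334241301861431919101918314496,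
  99393, [G1cp1_0, G1cp2_3, G1cp2_4, G1cp2_5, G1cp3_4, G1cp3_5, G1cp4_5, G1cp7_6, G1cp8_6,
  G1cp8_7]⟩) (.leaf ⟨608765025, 2398224293938431399111,
  6928864676089778337560834836934561389454456643793271613030350339440640, 148545, [G1cp1_0, G1cp2_3,
  G1cp2_4, G1cp2_5, G1cp3_4, G1cp3_5, G1cp4_5, G1cp6_0, G1cp6_7, G1cp6_8, G1cp7_0, G1cp7_8,
  G1cp8_0]⟩)) (.node 11 (.leaf ⟨403768473, 4913756066185309389889,
  12078135091504020926379486907426041368775048017352558937058669195952152, 98625, [G1cp1_0, G1cp1_3,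
  G1cp1_4, G1cp2_3, G1cp2_4, G1cp5_0, G1cp5_3, G1cp5_4, G1cp5_6, G1cp5_7, G1cp5_8, G1cp7_6, G1cp8_6,
  G1cp8_7]⟩) (.leaf ⟨605095065, 6053995434241584858177,
  6928864676089823641913493097145129230207170419843969118169917617078296, 147777, [G1cp1_0, G1cp1_3,
  G1cp1_4, G1cp2_3, G1cp2_4, G1cp5_0, G1cp5_3, G1cp5_4, G1cp5_6, G1cp5_7, G1cp5_8, G1cp6_0, G1cp6_7,
  G1cp6_8, G1cp7_0, G1cp7_8, G1cp8_0]⟩))) (.node 14 (.node 13 (.leaf ⟨606373009,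
  13366040949294016764929, 6928864676089821343873174634289607735220189847561759227648225604076029,
  148001, [G1cp1_0, G1cp1_2, G1cp1_3, G1cp1_4, G1cp1_5, G1cp1_6, G1cp1_7, G1cp1_8, G1cp2_0, G1cp2_3,
  G1cp2_4, G1cp2_5, G1cp2_6, G1cp2_7, G1cp2_8, G1cp3_0, G1cp3_4, G1cp3_5, G1cp3_6, G1cp3_7, G1cp3_8,
  G1cp4_0, G1cp4_5, G1cp4_6, G1cp4_7, G1cp4_8, G1cp5_0, G1cp5_6, G1cp5_7, G1cp5_8, G1cp6_0, G1cp6_7,
  G1cp6_8, G1cp7_0, G1cp7_8, G1cp8_0]⟩) (.leaf ⟨405046417, 12225801581237741296641,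
  12078135091504018628339168444570519873788067445070349046536977182949885, 98849, [G1cp1_0, G1cp1_2,
  G1cp1_3, G1cp1_4, G1cp1_5, G1cp1_6, G1cp1_7, G1cp1_8, G1cp2_0, G1cp2_3, G1cp2_4, G1cp2_5, G1cp2_6,
  G1cp2_7, G1cp2_8, G1cp3_0, G1cp3_4, G1cp3_5, G1cp3_6, G1cp3_7, G1cp3_8, G1cp4_0, G1cp4_5, G1cp4_6,
  G1cp4_7, G1cp4_8, G1cp5_0, G1cp5_6, G1cp5_7, G1cp5_8, G1cp7_6, G1cp8_6, G1cp8_7]⟩)) (.node 15
  (.leaf ⟨613565510, 2398224293947189171399,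
  6928864676089778624908133321103971498668658104576420217961785241829379, 149905, [G1cp1_0, G1cp2_0,
  G1cp2_1, G1cp2_3, G1cp2_4, G1cp2_5, G1cp3_0, G1cp3_1, G1cp3_4, G1cp3_5, G1cp4_0, G1cp4_1, G1cp4_5,
  G1cp5_0, G1cp5_1, G1cp6_0, G1cp6_7, G1cp6_8, G1cp7_0, G1cp7_8, G1cp8_0]⟩) (.leaf ⟨412238918,
  1257984925891014366407, 12078135091503975909374127131384883637236535702085010036850536820703235,
  100753, [G1cp1_0, G1cp2_0, G1cp2_1, G1cp2_3, G1cp2_4, G1cp2_5, G1cp3_0, G1cp3_1, G1cp3_4, G1cp3_5,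
  G1cp4_0, G1cp4_1, G1cp4_5, G1cp5_0, G1cp5_1, G1cp7_6, G1cp8_6, G1cp8_7]⟩))))) (.node 24 (.node 20
  (.node 18 (.node 17 (.leaf ⟨405144721, 8569775919420280049668,
  12078135091504018628339168712011700427113361014366325945455286943547392, 98945, [G1cp1_0, G1cp3_2,
  G1cp4_0, G1cp4_5, G1cp4_6, G1cp4_7, G1cp4_8, G1cp5_0, G1cp5_6, G1cp5_7, G1cp5_8, G1cp7_6, G1cp8_6,
  G1cp8_7]⟩) (.leaf ⟨606471313, 9710015287476555517956,
  6928864676089821343873174901730788288545483416857736126566535364673536, 148097, [G1cp1_0, G1cp3_2,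
  G1cp4_0, G1cp4_5, G1cp4_6, G1cp4_7, G1cp4_8, G1cp5_0, G1cp5_6, G1cp5_7, G1cp5_8, G1cp6_0, G1cp6_7,
  G1cp6_8, G1cp7_0, G1cp7_8, G1cp8_0]⟩)) (.node 19 (.leaf ⟨605127833, 6053995434413383550017,
  6928864676089824025037378402821685618769295835232185584496350714396700, 147809, [G1cp1_0, G1cp1_2,
  G1cp1_3, G1cp1_4, G1cp3_2, G1cp5_0, G1cp5_2, G1cp5_3, G1cp5_4, G1cp5_6, G1cp5_7, G1cp5_8, G1cp6_0,
  G1cp6_7, G1cp6_8, G1cp7_0, G1cp7_8, G1cp8_0]⟩) (.leaf ⟨403801241, 4913756066357108081729,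
  12078135091504021309503372213102597757337173432740775403385102293270556, 98657, [G1cp1_0, G1cp1_2,
  G1cp1_3, G1cp1_4, G1cp3_2, G1cp5_0, G1cp5_2, G1cp5_3, G1cp5_4, G1cp5_6, G1cp5_7, G1cp5_8, G1cp7_6,
  G1cp8_6, G1cp8_7]⟩))) (.node 22 (.node 21 (.leaf ⟨412632134, 1257873536773185996903,
  12078135091503977058763319997607698378999671817180899651364994736390147, 100625, [G1cp1_0,
  G1cp2_0, G1cp2_1, G1cp3_0, G1cp3_1, G1cp3_2, G1cp4_0, G1cp4_1, G1cp4_2, G1cp4_3, G1cp4_5, G1cp5_0,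
  G1cp5_1, G1cp5_2, G1cp5_3, G1cp7_6, G1cp8_6, G1cp8_7]⟩) (.leaf ⟨613958726, 2398112904829360801895,
  6928864676089779774297326187326786240431794219672309832476243157516291, 149777, [G1cp1_0, G1cp2_0,
  G1cp2_1, G1cp3_0, G1cp3_1, G1cp3_2, G1cp4_0, G1cp4_1, G1cp4_2, G1cp4_3, G1cp4_5, G1cp5_0, G1cp5_1,
  G1cp5_2, G1cp5_3, G1cp6_0, G1cp6_7, G1cp6_8, G1cp7_0, G1cp7_8, G1cp8_0]⟩)) (.node 23 (.leaf
  ⟨605619297, 2398301066238329230634,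
  8222961862468999317924689840447978374961211542909222538010731948802048, 147777, [G1cp1_0, G1cp2_3,
  G1cp5_4, G1cp6_0, G1cp6_4, G1cp6_5, G1cp6_7, G1cp6_8, G1cp7_0, G1cp7_4, G1cp7_5, G1cp7_8, G1cp8_0,
  G1cp8_4, G1cp8_5]⟩) (.leaf ⟨605619345, 9709906109167373029476,
  6928864676089822876321946377331773867832086127034330268518936651825152, 147777, [G1cp1_0, G1cp2_0,
  G1cp2_3, G1cp2_6, G1cp2_7, G1cp2_8, G1cp3_0, G1cp3_6, G1cp3_7, G1cp3_8, G1cp4_0, G1cp4_6, G1cp4_7,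
  G1cp4_8, G1cp5_0, G1cp5_4, G1cp5_6, G1cp5_7, G1cp5_8, G1cp6_0, G1cp6_7, G1cp6_8, G1cp7_0, G1cp7_8,
  G1cp8_0]⟩)))) (.node 28 (.node 26 (.node 25 (.leaf ⟨404292705, 1258061698182053762346,
  13372232277883196602390683650728890513529089140417812356899483527675904, 98625, [G1cp1_0, G1cp2_3,
  G1cp5_4, G1cp6_4, G1cp6_5, G1cp7_4, G1cp7_5, G1cp7_6, G1cp8_4, G1cp8_5, G1cp8_6, G1cp8_7]⟩) (.leaf
  ⟨404292753, 8569666741111097561188,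
  12078135091504020160787940187612686006399963724542920087407688230699008, 98625, [G1cp1_0, G1cp2_0,
  G1cp2_3, G1cp2_6, G1cp2_7, G1cp2_8, G1cp3_0, G1cp3_6, G1cp3_7, G1cp3_8, G1cp4_0, G1cp4_6, G1cp4_7,
  G1cp4_8, G1cp5_0, G1cp5_4, G1cp5_6, G1cp5_7, G1cp5_8, G1cp7_6, G1cp8_6, G1cp8_7]⟩)) (.node 27
  (.leaf ⟨613483590, 2398149920985606917253,
  6928864676089779774297327257760173819294742736816681439998054713196559, 149825, [G1cp1_0, G1cp2_3,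
  G1cp4_0, G1cp4_1, G1cp4_2, G1cp4_3, G1cp4_5, G1cp5_0, G1cp5_1, G1cp5_2, G1cp5_3, G1cp6_0, G1cp6_7,
  G1cp6_8, G1cp7_0, G1cp7_8, G1cp8_0]⟩) (.leaf ⟨613521476, 2398149914248886848643,
  6901904318040211265729270936838636455743840730958555248670157792346115, 149862, [G1cp1_0, G1cp2_0,
  G1cp2_1, G1cp3_0, G1cp3_1, G1cp3_2, G1cp4_5, G1cp6_7, G1cp6_8, G1cp7_8]⟩))) (.node 30 (.node 29
  (.leaf ⟨412156998, 1257910552929432112261,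
  12078135091503977058763321068041085957862620334325271258886806292070415, 100673, [G1cp1_0,
  G1cp2_3, G1cp4_0, G1cp4_1, G1cp4_2, G1cp4_3, G1cp4_5, G1cp5_0, G1cp5_1, G1cp5_2, G1cp5_3, G1cp7_6,
  G1cp8_6, G1cp8_7]⟩) (.leaf ⟨411632785, 8569852514595726594148,
  12078135091503977154475611473897126247325424878734288948457665366917120, 100417, [G1cp1_0,
  G1cp2_0, G1cp2_3, G1cp2_4, G1cp2_5, G1cp2_6, G1cp2_7, G1cp2_8, G1cp3_0, G1cp3_4, G1cp3_5, G1cp3_6,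
  G1cp3_7, G1cp3_8, G1cp5_4, G1cp7_6, G1cp8_6, G1cp8_7]⟩)) (.node 31 (.leaf ⟨612762769,
  6054066402425758090247, 6928864676089781019398800516651645596182101994551423916039339771756544,
  149633, [G1cp1_0, G1cp3_2, G1cp4_2, G1cp4_3, G1cp5_2, G1cp5_3, G1cp5_4, G1cp6_0, G1cp6_7, G1cp6_8,
  G1cp7_0, G1cp7_8, G1cp8_0]⟩) (.leaf ⟨411436177, 4913827034369482621959,
  12078135091503978303864794326932557734749979592060013734928091350630400, 100481, [G1cp1_0,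
  G1cp3_2, G1cp4_2, G1cp4_3, G1cp5_2, G1cp5_3, G1cp5_4, G1cp7_6, G1cp8_6, G1cp8_7]⟩)))))) (.node 48
  (.node 40 (.node 36 (.node 34 (.node 33 (.leaf ⟨612910150, 2398081343312618456134,
  6928864676089781306724176833073015338113218447415320511665389327810563, 149521, [G1cp1_0, G1cp2_0,
  G1cp2_1, G1cp3_0, G1cp3_1, G1cp3_2, G1cp5_0, G1cp5_1, G1cp5_2, G1cp5_3, G1cp5_4, G1cp6_0, G1cp6_7,
  G1cp6_8, G1cp7_0, G1cp7_8, G1cp8_0]⟩) (.leaf ⟨411583558, 1257841975256443651142,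
  12078135091503978591190170643353927476681096044923910330554140906684419, 100369, [G1cp1_0,
  G1cp2_0, G1cp2_1, G1cp3_0, G1cp3_1, G1cp3_2, G1cp5_0, G1cp5_1, G1cp5_2, G1cp5_3, G1cp5_4, G1cp7_6,
  G1cp8_6, G1cp8_7]⟩)) (.node 35 (.leaf ⟨612959377, 9710091882652002062436,
  6928864676089779870009617663616214108757547281225699129568913788043264, 149569, [G1cp1_0, G1cp2_0,
  G1cp2_3, G1cp2_4, G1cp2_5, G1cp2_6, G1cp2_7, G1cp2_8, G1cp3_0, G1cp3_4, G1cp3_5, G1cp3_6, G1cp3_7,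
  G1cp3_8, G1cp5_4, G1cp6_0, G1cp6_7, G1cp6_8, G1cp7_0, G1cp7_8, G1cp8_0]⟩) (.leaf ⟨610567241,
  2398338082465509513377, 6928864676089779870009607650428830854423719569206390035396301480263740,
  149025, [G1cp1_0, G1cp1_2, G1cp1_3, G1cp1_4, G1cp1_5, G1cp2_3, G1cp2_4, G1cp2_5, G1cp3_4, G1cp3_5,
  G1cp5_4, G1cp6_0, G1cp6_7, G1cp6_8, G1cp7_0, G1cp7_8, G1cp8_0]⟩))) (.node 38 (.node 37 (.leaf
  ⟨409240649, 1258098714409234045089,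
  12078135091503977154475601460709742992991597166714979854285053059137596, 99873, [G1cp1_0, G1cp1_2,
  G1cp1_3, G1cp1_4, G1cp1_5, G1cp2_3, G1cp2_4, G1cp2_5, G1cp3_4, G1cp3_5, G1cp5_4, G1cp7_6, G1cp8_6,
  G1cp8_7]⟩) (.leaf ⟨605176934, 2398300855137532515428,
  8222961862468999317924690977803338165543099408143695603111501726154755, 147857, [G1cp1_0, G1cp2_0,
  G1cp2_1, G1cp2_3, G1cp2_4, G1cp2_5, G1cp3_0, G1cp3_1, G1cp3_4, G1cp3_5, G1cp5_4, G1cp6_0, G1cp6_4,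
  G1cp6_5, G1cp6_7, G1cp6_8, G1cp7_0, G1cp7_4, G1cp7_5, G1cp7_8, G1cp8_0, G1cp8_4, G1cp8_5]⟩))
  (.node 39 (.leaf ⟨403850342, 1258061487081357710436,
  13372232277883196602390684788084250304110977005652285422000253305028611, 98705, [G1cp1_0, G1cp2_0,
  G1cp2_1, G1cp2_3, G1cp2_4, G1cp2_5, G1cp3_0, G1cp3_1, G1cp3_4, G1cp3_5, G1cp5_4, G1cp6_4, G1cp6_5,
  G1cp7_4, G1cp7_5, G1cp7_6, G1cp8_4, G1cp8_5, G1cp8_6, G1cp8_7]⟩) (.leaf ⟨606471265,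
  2398410251350739915978, 8546486159063802647454689180117594622977052363236822205141083966144512,
  148097, [G1cp1_0, G1cp3_2, G1cp4_5, G1cp6_0, G1cp6_2, G1cp6_3, G1cp6_4, G1cp6_5, G1cp6_7, G1cp6_8,
  G1cp7_0, G1cp7_2, G1cp7_3, G1cp7_4, G1cp7_5, G1cp7_8, G1cp8_0, G1cp8_2, G1cp8_3, G1cp8_4,
  G1cp8_5]⟩)))) (.node 44 (.node 42 (.node 41 (.leaf ⟨405144673, 1258170883294464447690,
  13695756574477999931920682990398506761544929960745412024029835545018368, 98945, [G1cp1_0, G1cp3_2,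
  G1cp4_5, G1cp6_2, G1cp6_3, G1cp6_4, G1cp6_5, G1cp7_2, G1cp7_3, G1cp7_4, G1cp7_5, G1cp7_6, G1cp8_2,
  G1cp8_3, G1cp8_4, G1cp8_5, G1cp8_6, G1cp8_7]⟩) (.leaf ⟨403833958, 1258061450933805651011,
  13372232277883196602390684877288591921355638672094181927724142978072583, 98689, [G1cp1_0, G1cp3_0,
  G1cp3_1, G1cp3_2, G1cp3_4, G1cp3_5, G1cp5_4, G1cp6_4, G1cp6_5, G1cp7_4, G1cp7_5, G1cp7_6, G1cp8_4,
  G1cp8_5, G1cp8_6, G1cp8_7]⟩)) (.node 43 (.leaf ⟨605160550, 2398300818989980456003,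
  8222961862468999317924691067007679782787761074585592108835391399198727, 147841, [G1cp1_0, G1cp3_0,
  G1cp3_1, G1cp3_2, G1cp3_4, G1cp3_5, G1cp5_4, G1cp6_0, G1cp6_4, G1cp6_5, G1cp6_7, G1cp6_8, G1cp7_0,
  G1cp7_4, G1cp7_5, G1cp7_8, G1cp8_0, G1cp8_4, G1cp8_5]⟩) (.leaf ⟨610370633, 2398226693347681111105,
  6928864676089781019398800516651645596186855684302279649910759395950652, 149089, [G1cp1_0, G1cp1_2,
  G1cp1_3, G1cp1_4, G1cp1_5, G1cp3_2, G1cp4_2, G1cp4_3, G1cp5_2, G1cp5_3, G1cp5_4, G1cp6_0, G1cp6_7,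
  G1cp6_8, G1cp7_0, G1cp7_8, G1cp8_0]⟩))) (.node 46 (.node 45 (.leaf ⟨409044041,
  1257987325291405642817, 12078135091503978303864794326932557734754733281810869468799510974824508,
  99937, [G1cp1_0, G1cp1_2, G1cp1_3, G1cp1_4, G1cp1_5, G1cp3_2, G1cp4_2, G1cp4_3, G1cp5_2, G1cp5_3,
  G1cp5_4, G1cp7_6, G1cp8_6, G1cp8_7]⟩) (.leaf ⟨404243554, 1258061707335031723403,
  13776637648626704116600639590470484588335857613768694117534436121640963, 98577, [G1cp1_0, G1cp2_0,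
  G1cp2_1, G1cp3_0, G1cp3_1, G1cp3_2, G1cp4_0, G1cp4_1, G1cp4_2, G1cp4_3, G1cp5_0, G1cp5_1, G1cp5_2,
  G1cp5_3, G1cp5_4, G1cp6_0, G1cp6_1, G1cp6_2, G1cp6_3, G1cp6_4, G1cp6_5, G1cp7_0, G1cp7_1, G1cp7_2,
  G1cp7_3, G1cp7_4, G1cp7_5, G1cp7_6, G1cp8_0, G1cp8_1, G1cp8_2, G1cp8_3, G1cp8_4, G1cp8_5, G1cp8_6,
  G1cp8_7]⟩)) (.node 47 (.leaf ⟨605570146, 2398301075391206528395,
  8600406875162939760303081545596421390333508959737494962325151060852739, 147729, [G1cp1_0, G1cp2_0,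
  G1cp2_1, G1cp3_0, G1cp3_1, G1cp3_2, G1cp4_0, G1cp4_1, G1cp4_2, G1cp4_3, G1cp5_0, G1cp5_1, G1cp5_2,
  G1cp5_3, G1cp5_4, G1cp6_0, G1cp6_1, G1cp6_2, G1cp6_3, G1cp6_4, G1cp6_5, G1cp6_7, G1cp6_8, G1cp7_0,
  G1cp7_1, G1cp7_2, G1cp7_3, G1cp7_4, G1cp7_5, G1cp7_8, G1cp8_0, G1cp8_1, G1cp8_2, G1cp8_3, G1cp8_4,
  G1cp8_5]⟩) (.leaf ⟨404816998, 1258053575132015891523,
  12940866549090121920658806656439191972325385925063008321019797547450383, 98881, [G1cp1_0, G1cp2_3,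
  G1cp4_0, G1cp4_1, G1cp4_2, G1cp4_3, G1cp4_5, G1cp6_5, G1cp7_5, G1cp7_6, G1cp8_5, G1cp8_6,
  G1cp8_7]⟩))))) (.node 56 (.node 52 (.node 50 (.node 49 (.leaf ⟨606143590, 2398292943188190696515,
  7791596133675924636192812846158279833757508327554418502131045968576527, 148033, [G1cp1_0, G1cp2_3,
  G1cp4_0, G1cp4_1, G1cp4_2, G1cp4_3, G1cp4_5, G1cp6_0, G1cp6_5, G1cp6_7, G1cp6_8, G1cp7_0, G1cp7_5,
  G1cp7_8, G1cp8_0, G1cp8_5]⟩) (.leaf ⟨404907108, 1258161837442651529443,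
  12940866549090121920636883797378939652491359900080761409619731446497324, 98969, [G1cp0_1, G1cp0_2,
  G1cp0_3, G1cp0_5, G1cp1_2, G1cp1_3, G1cp1_5, G1cp2_3, G1cp2_5, G1cp3_5, G1cp4_5, G1cp6_5, G1cp7_5,
  G1cp7_6, G1cp8_5, G1cp8_6, G1cp8_7]⟩)) (.node 51 (.leaf ⟨606143641, 7272665026092332058721,
  6928864676089822110132626175099159139293757501004085247779255660052488, 148033, [G1cp1_0, G1cp1_3,
  G1cp2_3, G1cp4_0, G1cp4_3, G1cp4_5, G1cp4_6, G1cp4_7, G1cp4_8, G1cp5_0, G1cp5_3, G1cp5_6, G1cp5_7,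
  G1cp5_8, G1cp6_0, G1cp6_7, G1cp6_8, G1cp7_0, G1cp7_8, G1cp8_0]⟩) (.leaf ⟨608470089,
  2398329075266254772385, 6928864676089778337560834480117193612020487666399750831303970059714604,
  148513, [G1cp1_0, G1cp1_2, G1cp1_3, G1cp1_5, G1cp2_3, G1cp2_5, G1cp3_5, G1cp4_5, G1cp6_0, G1cp6_7,
  G1cp6_8, G1cp7_0, G1cp7_8, G1cp8_0]⟩))) (.node 54 (.node 53 (.leaf ⟨407143497,
  1258089707209979304097, 12078135091503975622026828290398105750588365263908340650192721638588460,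
  99361, [G1cp1_0, G1cp1_2, G1cp1_3, G1cp1_5, G1cp2_3, G1cp2_5, G1cp3_5, G1cp4_5, G1cp7_6, G1cp8_6,
  G1cp8_7]⟩) (.leaf ⟨409232456, 1257987141537672334403,
  12078135091503977154475601549914084625808633410751711776509817020219396, 99865, [G1cp0_1, G1cp0_2,
  G1cp1_2, G1cp3_2, G1cp3_4, G1cp3_5, G1cp5_4, G1cp7_6, G1cp8_6, G1cp8_7]⟩)) (.node 55 (.leaf
  ⟨308347977, 8491416844919885663297,
  6901904318040213564437504969832617028855430786592505100513050422149624, 75329, [G1cp1_0, G1cp1_3,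
  G1cp1_4, G1cp1_5, G1cp1_6, G1cp1_7, G1cp1_8, G1cp2_3, G1cp2_4, G1cp2_5, G1cp2_6, G1cp2_7, G1cp2_8,
  G1cp4_3, G1cp5_3, G1cp5_4, G1cp6_7, G1cp6_8, G1cp7_8]⟩) (.leaf ⟨306775585, 2398224293938330801351,
  6901904318040211265729270602341410330019985587270643829965743147974656, 74817, [G1cp1_0, G1cp2_3,
  G1cp2_4, G1cp2_5, G1cp3_4, G1cp3_5, G1cp4_5, G1cp6_7, G1cp6_8, G1cp7_8]⟩)))) (.node 60 (.node 58
  (.node 57 (.leaf ⟨306578977, 2398112904820502431847,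
  6901904318040212415118463468564225071783121702366533444480201063661568, 74881, [G1cp1_0, G1cp3_2,
  G1cp4_2, G1cp4_3, G1cp4_5, G1cp5_2, G1cp5_3, G1cp6_7, G1cp6_8, G1cp7_8]⟩) (.leaf ⟨308347974,
  4835391184380482322565, 6901904318040214234914534766225522695354870122250121846114243035725839,
  75329, [G1cp1_0, G1cp2_3, G1cp4_0, G1cp4_1, G1cp4_2, G1cp4_3, G1cp5_0, G1cp5_1, G1cp5_2, G1cp5_3,
  G1cp5_4, G1cp6_7, G1cp6_8, G1cp7_8]⟩)) (.node 59 (.leaf ⟨306480201, 12147433318221648992417,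
  6901904318040211266384032969934584828225502094984846530736679995572716, 74785, [G1cp1_0, G1cp1_2,
  G1cp1_3, G1cp1_5, G1cp1_6, G1cp1_7, G1cp1_8, G1cp2_3, G1cp2_5, G1cp2_6, G1cp2_7, G1cp2_8, G1cp3_5,
  G1cp3_6, G1cp3_7, G1cp3_8, G1cp4_5, G1cp4_6, G1cp4_7, G1cp4_8, G1cp6_7, G1cp6_8, G1cp7_8]⟩) (.leaf
  ⟨306464290, 2398112899154469652578,
  6901904318040211265729269531891688948314582814208304071823382915579907, 74769, [G1cp1_0, G1cp2_0,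
  G1cp2_1, G1cp3_0, G1cp3_1, G1cp3_2, G1cp4_5, G1cp6_7, G1cp6_8, G1cp7_8]⟩))) (.node 62 (.node 61
  (.leaf ⟨306734148, 4835611930061319471235,
  6901904318040211265729270869935379997478992451907696245660953901531196, 74777, [G1cp0_1, G1cp0_2,
  G1cp0_3, G1cp0_4, G1cp0_5, G1cp1_2, G1cp1_3, G1cp1_4, G1cp1_5, G1cp3_2, G1cp4_5, G1cp6_7, G1cp6_8,
  G1cp7_8]⟩) (.leaf ⟨306480673, 2398113011438770587748,
  6901904318040212415118463200953921601487285856312852874565229080215564, 74785, [G1cp1_0, G1cp1_2,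
  G1cp1_3, G1cp2_3, G1cp4_2, G1cp4_3, G1cp4_5, G1cp5_2, G1cp5_3, G1cp6_7, G1cp6_8, G1cp7_8]⟩))
  (.node 63 (.leaf ⟨311526473, 12147365730245457188929,
  6901904318040254176259177839081507480305744243637878682967852241912316, 76129, [G1cp1_0, G1cp1_2,
  G1cp1_3, G1cp1_4, G1cp1_5, G1cp1_6, G1cp1_7, G1cp1_8, G1cp3_2, G1cp4_5, G1cp4_6, G1cp4_7, G1cp4_8,
  G1cp5_6, G1cp5_7, G1cp5_8, G1cp6_7, G1cp6_8, G1cp7_8]⟩) (.leaf ⟨303629841, 2398077926950441194596,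
  6901904318040212798178042345383576462672129773300461154333974526427136, 74049, [G1cp1_0, G1cp2_3,
  G1cp5_4, G1cp6_7, G1cp6_8, G1cp7_8]⟩))))))

def G1cT2 : Tr :=
  .node 96 (.node 80 (.node 72 (.node 68 (.node 66 (.node 65 (.leaf ⟨304383505,
  2398298675968669260801, 6901904318040211265729270602341410330024739277021499690221355788927036,
  74273, [G1cp1_0, G1cp1_2, G1cp1_3, G1cp1_4, G1cp1_5, G1cp2_3, G1cp2_4, G1cp2_5, G1cp3_4, G1cp3_5,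
  G1cp4_5, G1cp6_7, G1cp6_8, G1cp7_8]⟩) (.leaf ⟨303580690, 2398077929293552593093,
  6901904318040214234914534766227904645961832398811944611521703882784771, 74001, [G1cp1_0, G1cp2_0,
  G1cp2_1, G1cp3_0, G1cp3_1, G1cp3_2, G1cp4_0, G1cp4_1, G1cp4_2, G1cp4_3, G1cp5_0, G1cp5_1, G1cp5_2,
  G1cp5_3, G1cp5_4, G1cp6_7, G1cp6_8, G1cp7_8]⟩)) (.node 67 (.leaf ⟨303187494,
  2398263700440611033188, 6901904318040212798178043482738936253254017638534934219434950462210051,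
  74129, [G1cp1_0, G1cp2_0, G1cp2_1, G1cp2_3, G1cp2_4, G1cp2_5, G1cp3_0, G1cp3_1, G1cp3_4, G1cp3_5,
  G1cp5_4, G1cp6_7, G1cp6_8, G1cp7_8]⟩) (.leaf ⟨304481809, 2398187105259623683076,
  6901904318040211265729270869935379997474317915356527421311288986042368, 74369, [G1cp1_0, G1cp3_2,
  G1cp4_5, G1cp6_7, G1cp6_8, G1cp7_8]⟩))) (.node 70 (.node 69 (.leaf ⟨303597073,
  2398077932619798025316, 6901904318040213947567236282057133448819272790403734708455647954599948,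
  74017, [G1cp1_0, G1cp1_2, G1cp1_3, G1cp2_3, G1cp4_2, G1cp4_3, G1cp5_2, G1cp5_3, G1cp5_4, G1cp6_7,
  G1cp6_8, G1cp7_8]⟩) (.leaf ⟨310969873, 2398300855131996034148,
  8196001504419432246093126676306930647842908545848164022394716219768832, 75841, [G1cp0_4, G1cp0_5,
  G1cp1_0, G1cp1_4, G1cp1_5, G1cp2_3, G1cp2_4, G1cp2_5, G1cp3_4, G1cp3_5, G1cp5_4, G1cp6_4, G1cp6_5,
  G1cp6_7, G1cp6_8, G1cp7_4, G1cp7_5, G1cp7_8, G1cp8_4, G1cp8_5]⟩)) (.node 71 (.leaf ⟨310674961,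
  2398301068505971299329, 8196001504419432246093125605854827315531494234165889956703937784184844,
  75809, [G1cp0_4, G1cp0_5, G1cp1_0, G1cp1_2, G1cp1_3, G1cp1_4, G1cp1_5, G1cp2_3, G1cp5_4, G1cp6_4,
  G1cp6_5, G1cp6_7, G1cp6_8, G1cp7_4, G1cp7_5, G1cp7_8, G1cp8_4, G1cp8_5]⟩) (.leaf ⟨310658578,
  2398375444938996522082, 8196001504419432246093125605873543068979960028703792414872904664088627,
  75793, [G1cp0_4, G1cp0_5, G1cp1_0, G1cp1_4, G1cp1_5, G1cp2_0, G1cp2_1, G1cp2_4, G1cp2_5, G1cp3_0,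
  G1cp3_1, G1cp3_2, G1cp3_4, G1cp3_5, G1cp5_4, G1cp6_4, G1cp6_5, G1cp6_7, G1cp6_8, G1cp7_4, G1cp7_5,
  G1cp7_8, G1cp8_4, G1cp8_5]⟩)))) (.node 76 (.node 74 (.node 73 (.leaf ⟨310773265,
  2398301075377918972939, 8519525801014238257461090357647558102820648091672868044488832777453568,
  75905, [G1cp0_2, G1cp0_3, G1cp0_4, G1cp0_5, G1cp1_0, G1cp1_2, G1cp1_3, G1cp1_4, G1cp1_5, G1cp3_2,
  G1cp4_2, G1cp4_3, G1cp5_2, G1cp5_3, G1cp5_4, G1cp6_2, G1cp6_3, G1cp6_4, G1cp6_5, G1cp6_7, G1cp6_8,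
  G1cp7_2, G1cp7_3, G1cp7_4, G1cp7_5, G1cp7_8, G1cp8_2, G1cp8_3, G1cp8_4, G1cp8_5]⟩) (.leaf
  ⟨308380745, 8491416845194763570241,
  6901904318040213947567236282058494536787878844594325004279869223993852, 75361, [G1cp1_0, G1cp1_2,
  G1cp1_3, G1cp1_4, G1cp1_5, G1cp1_6, G1cp1_7, G1cp1_8, G1cp3_2, G1cp4_2, G1cp4_3, G1cp5_2, G1cp5_3,
  G1cp5_4, G1cp6_7, G1cp6_8, G1cp7_8]⟩)) (.node 75 (.leaf ⟨304154137, 2398113013465995154625,
  7117587182436748606641246033083553463948151010892809785324016239116296, 74305, [G1cp0_3, G1cp1_0,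
  G1cp1_3, G1cp2_3, G1cp4_3, G1cp4_5, G1cp5_3, G1cp6_3, G1cp6_7, G1cp6_8, G1cp7_3, G1cp7_8,
  G1cp8_3]⟩) (.leaf ⟨404243602, 12225580834562417892549,
  12078135091504021501741999780400544153284932529793354009618276914627011, 98577, [G1cp1_0, G1cp2_0,
  G1cp2_1, G1cp2_6, G1cp2_7, G1cp2_8, G1cp3_0, G1cp3_1, G1cp3_2, G1cp3_6, G1cp3_7, G1cp3_8, G1cp4_0,
  G1cp4_1, G1cp4_2, G1cp4_3, G1cp4_6, G1cp4_7, G1cp4_8, G1cp5_0, G1cp5_1, G1cp5_2, G1cp5_3, G1cp5_4,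
  G1cp5_6, G1cp5_7, G1cp5_8, G1cp7_6, G1cp8_6, G1cp8_7]⟩))) (.node 78 (.node 77 (.leaf ⟨411321490,
  8569852689455656374370, 12078135091503977154475600390428804240653468015054121918683609528599027,
  100369, [G1cp1_0, G1cp2_0, G1cp2_1, G1cp2_4, G1cp2_5, G1cp2_6, G1cp2_7, G1cp2_8, G1cp3_0, G1cp3_1,
  G1cp3_2, G1cp3_4, G1cp3_5, G1cp3_6, G1cp3_7, G1cp3_8, G1cp5_4, G1cp7_6, G1cp8_6, G1cp8_7]⟩) (.leaf
  ⟨404817049, 6132425658036056590433,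
  12078135091504019394598619985380071277861635098512675066668007238926344, 98881, [G1cp1_0, G1cp1_3,
  G1cp2_3, G1cp4_0, G1cp4_3, G1cp4_5, G1cp4_6, G1cp4_7, G1cp4_8, G1cp5_0, G1cp5_3, G1cp5_6, G1cp5_7,
  G1cp5_8, G1cp7_6, G1cp8_6, G1cp8_7]⟩)) (.node 79 (.leaf ⟨291570825, 4723669367864813489217,
  6901954094107398307707825823418046013475975358396463461979508822245432, 71233, [G1cp1_0, G1cp1_3,
  G1cp1_4, G1cp1_5, G1cp2_3, G1cp2_4, G1cp2_5, G1cp4_3, G1cp5_3, G1cp5_4, G1cp6_0, G1cp6_3, G1cp6_4,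
  G1cp6_5, G1cp6_8, G1cp7_0, G1cp7_3, G1cp7_4, G1cp7_5, G1cp7_6, G1cp7_8]⟩) (.leaf ⟨293897361,
  4723594983772890661889, 6901931056692077347382118906625647762871412845868190616178266440794124,
  71713, [G1cp1_0, G1cp1_2, G1cp1_3, G1cp2_3, G1cp5_4, G1cp6_0, G1cp6_8, G1cp7_0, G1cp7_6,
  G1cp7_8]⟩))))) (.node 88 (.node 84 (.node 82 (.node 81 (.leaf ⟨291652742, 4723669361277608725736,
  6901951625812899236574278366101629310126359173704606255102717407199235, 71313, [G1cp1_0, G1cp2_0,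
  G1cp2_1, G1cp2_3, G1cp3_0, G1cp3_1, G1cp4_0, G1cp4_1, G1cp5_0, G1cp5_1, G1cp5_4, G1cp6_0, G1cp6_1,
  G1cp6_4, G1cp6_5, G1cp6_8, G1cp7_0, G1cp7_1, G1cp7_4, G1cp7_5, G1cp7_6, G1cp7_8]⟩) (.leaf
  ⟨293995665, 4723594986109352870919,
  6901931056692078496771312843300565836945963272646354296383502792065024, 71809, [G1cp1_0, G1cp3_2,
  G1cp4_2, G1cp4_3, G1cp5_2, G1cp5_3, G1cp5_4, G1cp6_0, G1cp6_8, G1cp7_0, G1cp7_6, G1cp7_8]⟩))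
  (.node 83 (.leaf ⟨289691784, 8265438417040841968707,
  6901943809546985208461541407259696880236784708930878961173387121459463, 70678, [G1cp0_8, G1cp1_0,
  G1cp1_8, G1cp3_0, G1cp3_1, G1cp3_2, G1cp3_5, G1cp3_8, G1cp4_0, G1cp4_1, G1cp4_2, G1cp4_5, G1cp4_8,
  G1cp6_5, G1cp6_8, G1cp7_5, G1cp7_6, G1cp7_8]⟩) (.leaf ⟨294192273, 8265481237379518992484,
  6901931056692077347382125708456721020271948360790848558945472953253888, 71745, [G1cp1_0, G1cp2_0,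
  G1cp2_3, G1cp2_4, G1cp2_5, G1cp2_8, G1cp3_0, G1cp3_4, G1cp3_5, G1cp3_8, G1cp5_4, G1cp6_0, G1cp6_8,
  G1cp7_0, G1cp7_6, G1cp7_8]⟩))) (.node 86 (.node 85 (.leaf ⟨294716553, 4723704161910274463809,
  6901931056692075814933347341973109664855534785028505122693008187719736, 72001, [G1cp1_0, G1cp1_3,
  G1cp1_4, G1cp1_5, G1cp2_3, G1cp2_4, G1cp2_5, G1cp4_5, G1cp6_0, G1cp6_8, G1cp7_0, G1cp7_6,
  G1cp7_8]⟩) (.leaf ⟨294716550, 4723592595777617202309,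
  6901936816045907300186400657494934062710278784312574644417974800154639, 72001, [G1cp1_0, G1cp2_3,
  G1cp4_0, G1cp4_1, G1cp4_2, G1cp4_3, G1cp4_5, G1cp5_0, G1cp5_1, G1cp5_2, G1cp5_3, G1cp6_0, G1cp6_1,
  G1cp6_2, G1cp6_3, G1cp6_8, G1cp7_0, G1cp7_1, G1cp7_2, G1cp7_3, G1cp7_6, G1cp7_8]⟩)) (.node 87
  (.leaf ⟨293880978, 8265481412239448772706,
  6901931056692077347382118906731477131479634671968589877656826263175475, 71697, [G1cp1_0, G1cp2_0,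
  G1cp2_1, G1cp2_4, G1cp2_5, G1cp2_8, G1cp3_0, G1cp3_1, G1cp3_2, G1cp3_4, G1cp3_5, G1cp3_8, G1cp5_4,
  G1cp6_0, G1cp6_8, G1cp7_0, G1cp7_6, G1cp7_8]⟩) (.leaf ⟨289948806, 4723778544122276678792,
  6901956562401894601220975107460856339113875615780376913958388379877379, 70673, [G1cp1_0, G1cp2_0,
  G1cp2_1, G1cp3_0, G1cp3_1, G1cp3_2, G1cp4_5, G1cp6_0, G1cp6_1, G1cp6_2, G1cp6_3, G1cp6_4, G1cp6_5,
  G1cp6_8, G1cp7_0, G1cp7_1, G1cp7_2, G1cp7_3, G1cp7_4, G1cp7_5, G1cp7_6, G1cp7_8]⟩)))) (.node 92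
  (.node 90 (.node 89 (.leaf ⟨286852241, 8265295463894889959524,
  6901931056692101963467355717138447118887053915007749933252090565558272, 69953, [G1cp1_0, G1cp2_0,
  G1cp2_3, G1cp2_8, G1cp3_0, G1cp3_8, G1cp4_0, G1cp4_8, G1cp5_0, G1cp5_4, G1cp5_8, G1cp6_0, G1cp6_8,
  G1cp7_0, G1cp7_6, G1cp7_8]⟩) (.leaf ⟨287605905, 11807291075065455844353,
  6901931056692100431018583974096280986259945828332440139563419079344445, 70177, [G1cp1_0, G1cp1_2,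
  G1cp1_3, G1cp1_4, G1cp1_5, G1cp1_8, G1cp2_0, G1cp2_3, G1cp2_4, G1cp2_5, G1cp2_8, G1cp3_0, G1cp3_4,
  G1cp3_5, G1cp3_8, G1cp4_0, G1cp4_5, G1cp4_8, G1cp5_0, G1cp5_8, G1cp6_0, G1cp6_8, G1cp7_0, G1cp7_6,
  G1cp7_8]⟩)) (.node 91 (.leaf ⟨294798470, 4723666968739199390919,
  6901931879456908966354440086765154596954187206871488252930847148277763, 72081, [G1cp1_0, G1cp2_0,
  G1cp2_1, G1cp2_3, G1cp2_4, G1cp2_5, G1cp3_0, G1cp3_1, G1cp3_4, G1cp3_5, G1cp4_0, G1cp4_1, G1cp4_5,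
  G1cp5_0, G1cp5_1, G1cp6_0, G1cp6_1, G1cp6_8, G1cp7_0, G1cp7_1, G1cp7_6, G1cp7_8]⟩) (.leaf
  ⟨287704209, 8265404642204072448004,
  6901931056692100431018584241602796750970268228503028393781883985264640, 70273, [G1cp1_0, G1cp3_2,
  G1cp4_0, G1cp4_5, G1cp4_8, G1cp5_0, G1cp5_8, G1cp6_0, G1cp6_8, G1cp7_0, G1cp7_6, G1cp7_8]⟩)))
  (.node 94 (.node 93 (.leaf ⟨286360729, 4723524018096978330689,
  6901931056692103112463400338804305559368831309616912539971047544061980, 69985, [G1cp1_0, G1cp1_2,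
  G1cp1_3, G1cp1_4, G1cp3_2, G1cp5_0, G1cp5_2, G1cp5_3, G1cp5_4, G1cp5_8, G1cp6_0, G1cp6_8, G1cp7_0,
  G1cp7_6, G1cp7_8]⟩) (.leaf ⟨286803090, 11807070328390132440261,
  6901931056692103304421415309926305265772022720258183855462679249486083, 69905, [G1cp1_0, G1cp2_0,
  G1cp2_1, G1cp2_8, G1cp3_0, G1cp3_1, G1cp3_2, G1cp3_8, G1cp4_0, G1cp4_1, G1cp4_2, G1cp4_3, G1cp4_8,
  G1cp5_0, G1cp5_1, G1cp5_2, G1cp5_3, G1cp5_4, G1cp5_8, G1cp6_0, G1cp6_8, G1cp7_0, G1cp7_6,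
  G1cp7_8]⟩)) (.node 95 (.leaf ⟨613980228, 2398112904616559675489,
  6901904318040212031988732156338345004048639299344749732529066132111371, 149798, [G1cp1_0, G1cp2_0,
  G1cp2_1, G1cp2_3, G1cp4_3, G1cp4_5, G1cp5_3, G1cp6_7, G1cp6_8, G1cp7_8]⟩) (.leaf ⟨287589522,
  11807291071735782448226, 6901931056692100431018583974098322649282654208549747085345471824199987,
  70161, [G1cp1_0, G1cp2_0, G1cp2_1, G1cp2_4, G1cp2_5, G1cp2_8, G1cp3_0, G1cp3_1, G1cp3_2, G1cp3_4,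
  G1cp3_5, G1cp3_8, G1cp4_0, G1cp4_5, G1cp4_8, G1cp5_0, G1cp5_8, G1cp6_0, G1cp6_8, G1cp7_0, G1cp7_6,
  G1cp7_8]⟩)))))) (.node 112 (.node 104 (.node 100 (.node 98 (.node 97 (.leaf ⟨286819473,
  8265295469564246790244, 6901931056692103112856549653724550202315223103550235680926242953822220,
  69921, [G1cp1_0, G1cp1_2, G1cp1_3, G1cp2_3, G1cp4_0, G1cp4_2, G1cp4_3, G1cp4_8, G1cp5_0, G1cp5_2,
  G1cp5_3, G1cp5_4, G1cp5_8, G1cp6_0, G1cp6_8, G1cp7_0, G1cp7_6, G1cp7_8]⟩) (.leaf ⟨287376537,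
  5904147200123900889185, 6901931056692101197278039796714245719598185487507285863480013441466376,
  70209, [G1cp1_0, G1cp1_3, G1cp2_3, G1cp4_0, G1cp4_3, G1cp4_5, G1cp4_8, G1cp5_0, G1cp5_3, G1cp5_8,
  G1cp6_0, G1cp6_8, G1cp7_0, G1cp7_6, G1cp7_8]⟩)) (.node 99 (.leaf ⟨105253153, 39235506401471203431,
  12159016165652678274258012634483895099033482945393809960846941647273984, 25730, [G1cp0_1, G1cp3_2,
  G1cp4_0, G1cp4_1, G1cp4_2, G1cp4_3, G1cp4_5, G1cp5_0, G1cp5_1, G1cp5_2, G1cp5_3, G1cp6_0, G1cp6_1,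
  G1cp7_0, G1cp7_1, G1cp7_6, G1cp8_0, G1cp8_1, G1cp8_6, G1cp8_7]⟩) (.leaf ⟨105449761,
  39346895522624640202, 12159016165652677124868819835164336815539869645899948173691352541822976,
  25666, [G1cp0_1, G1cp2_0, G1cp2_1, G1cp2_3, G1cp2_4, G1cp2_5, G1cp3_0, G1cp3_1, G1cp3_4, G1cp3_5,
  G1cp4_0, G1cp4_1, G1cp4_5, G1cp5_0, G1cp5_1, G1cp6_0, G1cp6_1, G1cp7_0, G1cp7_1, G1cp7_6, G1cp8_0,
  G1cp8_1, G1cp8_6, G1cp8_7]⟩))) (.node 102 (.node 101 (.leaf ⟨109447441, 39386485943718481930,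
  13776637648626703829253341106301074479121576927231511941505221576622080, 26754, [G1cp0_1, G1cp3_2,
  G1cp4_2, G1cp4_3, G1cp5_2, G1cp5_3, G1cp5_4, G1cp6_0, G1cp6_1, G1cp6_2, G1cp6_3, G1cp6_4, G1cp6_5,
  G1cp7_0, G1cp7_1, G1cp7_2, G1cp7_3, G1cp7_4, G1cp7_5, G1cp7_6, G1cp8_0, G1cp8_1, G1cp8_2, G1cp8_3,
  G1cp8_4, G1cp8_5, G1cp8_6, G1cp8_7]⟩) (.leaf ⟨109644049, 39386302016038998119,
  13453113352031897817885377424960447024144788133864310287766662157434880, 26690, [G1cp0_1, G1cp2_3,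
  G1cp2_4, G1cp2_5, G1cp3_4, G1cp3_5, G1cp5_4, G1cp6_0, G1cp6_1, G1cp6_4, G1cp6_5, G1cp7_0, G1cp7_1,
  G1cp7_4, G1cp7_5, G1cp7_6, G1cp8_0, G1cp8_1, G1cp8_4, G1cp8_5, G1cp8_6, G1cp8_7]⟩)) (.node 103
  (.leaf ⟨107021897, 7351177476863719246913,
  12078135091503977920735063014706680226857779982214188854987110162629112, 26177, [G1cp0_6, G1cp0_7,
  G1cp0_8, G1cp1_0, G1cp1_3, G1cp1_4, G1cp1_5, G1cp1_6, G1cp1_7, G1cp1_8, G1cp2_3, G1cp2_4, G1cp2_5,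
  G1cp2_6, G1cp2_7, G1cp2_8, G1cp4_3, G1cp5_3, G1cp5_4, G1cp7_6, G1cp8_6, G1cp8_7]⟩) (.leaf
  ⟨157354377, 2398412647982219534566,
  8492565442964670802499794810828527209304657122965276871302299493335096, 38466, [G1cp0_1, G1cp0_3,
  G1cp0_4, G1cp0_5, G1cp1_3, G1cp1_4, G1cp1_5, G1cp2_3, G1cp2_4, G1cp2_5, G1cp4_3, G1cp5_3, G1cp5_4,
  G1cp6_0, G1cp6_1, G1cp6_3, G1cp6_4, G1cp6_5, G1cp6_7, G1cp6_8, G1cp7_0, G1cp7_1, G1cp7_3, G1cp7_4,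
  G1cp7_5, G1cp7_8, G1cp8_0, G1cp8_1, G1cp8_3, G1cp8_4, G1cp8_5]⟩)))) (.node 108 (.node 106 (.node
  105 (.leaf ⟨159778321, 7272816005840497643530,
  6901904318040213947567236282058494536787879458729729743298413266206720, 39041, [G1cp0_2, G1cp0_3,
  G1cp0_4, G1cp0_5, G1cp0_6, G1cp0_7, G1cp0_8, G1cp1_0, G1cp1_2, G1cp1_3, G1cp1_4, G1cp1_5, G1cp1_6,
  G1cp1_7, G1cp1_8, G1cp3_2, G1cp4_2, G1cp4_3, G1cp5_2, G1cp5_3, G1cp5_4, G1cp6_7, G1cp6_8,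
  G1cp7_8]⟩) (.leaf ⟨159974929, 7272815821912818159716,
  6901904318040212798178043415835679795023792591176337757050698491494400, 38977, [G1cp0_4, G1cp0_5,
  G1cp0_6, G1cp0_7, G1cp0_8, G1cp1_0, G1cp1_4, G1cp1_5, G1cp1_6, G1cp1_7, G1cp1_8, G1cp2_3, G1cp2_4,
  G1cp2_5, G1cp3_4, G1cp3_5, G1cp5_4, G1cp6_7, G1cp6_8, G1cp7_8]⟩)) (.node 107 (.leaf ⟨155584033,
  7272665026298250365031, 6901904318040255325648360446976503612890627474493991440024993532739584,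
  38017, [G1cp0_6, G1cp0_7, G1cp0_8, G1cp1_0, G1cp1_6, G1cp1_7, G1cp1_8, G1cp3_2, G1cp4_2, G1cp4_3,
  G1cp4_5, G1cp4_6, G1cp4_7, G1cp4_8, G1cp5_2, G1cp5_3, G1cp5_6, G1cp5_7, G1cp5_8, G1cp6_7, G1cp6_8,
  G1cp7_8]⟩) (.leaf ⟨155780641, 10928690506524390528199,
  6901904318040254176259177571639986639376231822634257377768277945614336, 37953, [G1cp0_6, G1cp0_7,
  G1cp0_8, G1cp1_0, G1cp1_6, G1cp1_7, G1cp1_8, G1cp2_3, G1cp2_4, G1cp2_5, G1cp2_6, G1cp2_7, G1cp2_8,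
  G1cp3_4, G1cp3_5, G1cp3_6, G1cp3_7, G1cp3_8, G1cp4_5, G1cp4_6, G1cp4_7, G1cp4_8, G1cp5_6, G1cp5_7,
  G1cp5_8, G1cp6_7, G1cp6_8, G1cp7_8]⟩))) (.node 110 (.node 109 (.leaf ⟨105448993,
  3695260986621032600775, 12078135091503975622026828647215473528057828999707000595770806166880256,
  25665, [G1cp0_6, G1cp0_7, G1cp0_8, G1cp1_0, G1cp1_6, G1cp1_7, G1cp1_8, G1cp2_3, G1cp2_4, G1cp2_5,
  G1cp3_4, G1cp3_5, G1cp4_5, G1cp7_6, G1cp8_6, G1cp8_7]⟩) (.leaf ⟨105252385, 3695149597503204296807,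
  12078135091503976771416021513438288269820965114802890210285264082567168, 25729, [G1cp0_6, G1cp0_7,
  G1cp0_8, G1cp1_0, G1cp1_6, G1cp1_7, G1cp1_8, G1cp3_2, G1cp4_2, G1cp4_3, G1cp4_5, G1cp5_2, G1cp5_3,
  G1cp7_6, G1cp8_6, G1cp8_7]⟩)) (.node 111 (.leaf ⟨159680785, 3616790557266255283207,
  7306309688783718875651505864280842354190067147852496426455339089264652, 38946, [G1cp0_1, G1cp0_2,
  G1cp0_3, G1cp1_2, G1cp1_3, G1cp2_3, G1cp5_4, G1cp6_0, G1cp6_1, G1cp6_2, G1cp6_3, G1cp6_7, G1cp6_8,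
  G1cp7_0, G1cp7_1, G1cp7_2, G1cp7_3, G1cp7_8, G1cp8_0, G1cp8_1, G1cp8_2, G1cp8_3]⟩) (.leaf
  ⟨159664402, 3616901905667793621090,
  6982785392188914013672735049181405106865662452613464645957841757143090, 38930, [G1cp0_1, G1cp2_1,
  G1cp2_4, G1cp2_5, G1cp3_1, G1cp3_2, G1cp3_4, G1cp3_5, G1cp5_4, G1cp6_0, G1cp6_1, G1cp6_7, G1cp6_8,
  G1cp7_0, G1cp7_1, G1cp7_8, G1cp8_0, G1cp8_1]⟩))))) (.node 120 (.node 116 (.node 114 (.node 113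
  (.leaf ⟨155470114, 7272665020638797334626,
  6982785392188955679101157631349234031075388619928390814791924851933186, 37906, [G1cp0_1, G1cp2_1,
  G1cp3_1, G1cp3_2, G1cp4_0, G1cp4_1, G1cp4_5, G1cp4_6, G1cp4_7, G1cp4_8, G1cp5_0, G1cp5_1, G1cp5_6,
  G1cp5_7, G1cp5_8, G1cp6_0, G1cp6_1, G1cp6_7, G1cp6_8, G1cp7_0, G1cp7_1, G1cp7_8, G1cp8_0,
  G1cp8_1]⟩) (.leaf ⟨159680017, 7272816000102421336065,
  6901904318040212798178042345383576462712378279494063691359920055910412, 38945, [G1cp0_4, G1cp0_5,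
  G1cp0_6, G1cp0_7, G1cp0_8, G1cp1_0, G1cp1_2, G1cp1_3, G1cp1_4, G1cp1_5, G1cp1_6, G1cp1_7, G1cp1_8,
  G1cp2_3, G1cp5_4, G1cp6_7, G1cp6_8, G1cp7_8]⟩)) (.node 115 (.leaf ⟨155485729,
  7272665132916518520932, 6901904318040255325648360179366200142594791628440310870110021549293580,
  37921, [G1cp0_6, G1cp0_7, G1cp0_8, G1cp1_0, G1cp1_2, G1cp1_3, G1cp1_6, G1cp1_7, G1cp1_8, G1cp2_3,
  G1cp4_2, G1cp4_3, G1cp4_5, G1cp4_6, G1cp4_7, G1cp4_8, G1cp5_2, G1cp5_3, G1cp5_6, G1cp5_7, G1cp5_8,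
  G1cp6_7, G1cp6_8, G1cp7_8]⟩) (.leaf ⟨155469346, 10928579111740530428002,
  6901904318040254176259166510456416315951661641570131473159963033993667, 37905, [G1cp0_6, G1cp0_7,
  G1cp0_8, G1cp1_0, G1cp1_6, G1cp1_7, G1cp1_8, G1cp2_0, G1cp2_1, G1cp2_6, G1cp2_7, G1cp2_8, G1cp3_0,
  G1cp3_1, G1cp3_2, G1cp3_6, G1cp3_7, G1cp3_8, G1cp4_5, G1cp4_6, G1cp4_7, G1cp4_8, G1cp5_6, G1cp5_7,
  G1cp5_8, G1cp6_7, G1cp6_8, G1cp7_8]⟩))) (.node 118 (.node 117 (.leaf ⟨105138466,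
  39235500732114372706, 12159016165652677124868818697811018688005726260237289585052195401760770,
  25618, [G1cp0_1, G1cp2_1, G1cp3_1, G1cp3_2, G1cp4_0, G1cp4_1, G1cp4_5, G1cp5_0, G1cp5_1, G1cp6_0,
  G1cp6_1, G1cp7_0, G1cp7_1, G1cp7_6, G1cp8_0, G1cp8_1, G1cp8_6, G1cp8_7]⟩) (.leaf ⟨105154849,
  39235721974469724263, 12482540462247483136236783181991404341951299792118772626460505778421772,
  25634, [G1cp0_1, G1cp0_2, G1cp0_3, G1cp1_2, G1cp1_3, G1cp2_3, G1cp4_0, G1cp4_1, G1cp4_2, G1cp4_3,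
  G1cp4_5, G1cp5_0, G1cp5_1, G1cp5_2, G1cp5_3, G1cp6_0, G1cp6_1, G1cp6_2, G1cp6_3, G1cp7_0, G1cp7_1,
  G1cp7_2, G1cp7_3, G1cp7_6, G1cp8_0, G1cp8_1, G1cp8_2, G1cp8_3, G1cp8_6, G1cp8_7]⟩)) (.node 119
  (.leaf ⟨109349137, 39386592561986637831,
  13776637648626702679864147169626156405047026514960679457604419836444684, 26658, [G1cp0_1, G1cp0_2,
  G1cp0_3, G1cp1_2, G1cp1_3, G1cp2_3, G1cp5_4, G1cp6_0, G1cp6_1, G1cp6_2, G1cp6_3, G1cp6_4, G1cp6_5,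
  G1cp7_0, G1cp7_1, G1cp7_2, G1cp7_3, G1cp7_4, G1cp7_5, G1cp7_6, G1cp8_0, G1cp8_1, G1cp8_2, G1cp8_3,
  G1cp8_4, G1cp8_5, G1cp8_6, G1cp8_7]⟩) (.leaf ⟨109332754, 39386476872747552866,
  13453113352031897817885376354526719157722621819721647677106922504323122, 26642, [G1cp0_1, G1cp2_1,
  G1cp2_4, G1cp2_5, G1cp3_1, G1cp3_2, G1cp3_4, G1cp3_5, G1cp5_4, G1cp6_0, G1cp6_1, G1cp6_4, G1cp6_5,
  G1cp7_0, G1cp7_1, G1cp7_4, G1cp7_5, G1cp7_6, G1cp8_0, G1cp8_1, G1cp8_4, G1cp8_5, G1cp8_6,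
  G1cp8_7]⟩)))) (.node 124 (.node 122 (.node 121 (.leaf ⟨105154121, 11007193950165485721761,
  12078135091503975622681591014808648026227851290606530285210739736052204, 25633, [G1cp0_6, G1cp0_7,
  G1cp0_8, G1cp1_0, G1cp1_2, G1cp1_3, G1cp1_5, G1cp1_6, G1cp1_7, G1cp1_8, G1cp2_3, G1cp2_5, G1cp2_6,
  G1cp2_7, G1cp2_8, G1cp3_5, G1cp3_6, G1cp3_7, G1cp3_8, G1cp4_5, G1cp4_6, G1cp4_7, G1cp4_8, G1cp7_6,
  G1cp8_6, G1cp8_7]⟩) (.leaf ⟨105137698, 7351063682945484359778,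
  12078135091503975622026827576918200972881999281879030243420233583821251, 25617, [G1cp0_6, G1cp0_7,
  G1cp0_8, G1cp1_0, G1cp1_6, G1cp1_7, G1cp1_8, G1cp2_0, G1cp2_1, G1cp2_6, G1cp2_7, G1cp2_8, G1cp3_0,
  G1cp3_1, G1cp3_2, G1cp3_6, G1cp3_7, G1cp3_8, G1cp4_5, G1cp7_6, G1cp8_6, G1cp8_7]⟩)) (.node 123
  (.leaf ⟨157436294, 2398301066250140390698,
  8276882578568133653152683965747220566639542070731914549548851025543170, 38546, [G1cp0_1, G1cp2_1,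
  G1cp2_3, G1cp3_1, G1cp4_1, G1cp5_1, G1cp5_4, G1cp6_0, G1cp6_1, G1cp6_4, G1cp6_5, G1cp6_7, G1cp6_8,
  G1cp7_0, G1cp7_1, G1cp7_4, G1cp7_5, G1cp7_8, G1cp8_0, G1cp8_1, G1cp8_4, G1cp8_5]⟩) (.leaf
  ⟨159663634, 10928841657525057297506,
  6901904318040212798178042345554741042690417129266335555320674585149939, 38929, [G1cp0_4, G1cp0_5,
  G1cp0_6, G1cp0_7, G1cp0_8, G1cp1_0, G1cp1_4, G1cp1_5, G1cp1_6, G1cp1_7, G1cp1_8, G1cp2_0, G1cp2_1,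
  G1cp2_4, G1cp2_5, G1cp2_6, G1cp2_7, G1cp2_8, G1cp3_0, G1cp3_1, G1cp3_2, G1cp3_4, G1cp3_5, G1cp3_6,
  G1cp3_7, G1cp3_8, G1cp5_4, G1cp6_7, G1cp6_8, G1cp7_8]⟩))) (.node 126 (.node 125 (.leaf ⟨159779089,
  3616790341693256762375, 6982785392188915163061928985837947715050964881852016874509739046469632,
  39042, [G1cp0_1, G1cp3_2, G1cp4_2, G1cp4_3, G1cp5_2, G1cp5_3, G1cp5_4, G1cp6_0, G1cp6_1, G1cp6_7,
  G1cp6_8, G1cp7_0, G1cp7_1, G1cp7_8, G1cp8_0, G1cp8_1]⟩) (.leaf ⟨109348369, 3695412140951268957185,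
  13372232277883196602390683650728890513569337646602246722509000803090444, 26657, [G1cp0_4, G1cp0_5,
  G1cp0_6, G1cp0_7, G1cp0_8, G1cp1_0, G1cp1_2, G1cp1_3, G1cp1_4, G1cp1_5, G1cp1_6, G1cp1_7, G1cp1_8,
  G1cp2_3, G1cp5_4, G1cp6_4, G1cp6_5, G1cp7_4, G1cp7_5, G1cp7_6, G1cp8_4, G1cp8_5, G1cp8_6,
  G1cp8_7]⟩)) (.node 127 (.leaf ⟨155732358, 2398410251362551076042,
  8600406875162936791117817693906067714025597127605433698297500904849410, 37906, [G1cp0_1, G1cp2_1,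
  G1cp3_1, G1cp3_2, G1cp4_5, G1cp6_0, G1cp6_1, G1cp6_2, G1cp6_3, G1cp6_4, G1cp6_5, G1cp6_7, G1cp6_8,
  G1cp7_0, G1cp7_1, G1cp7_2, G1cp7_3, G1cp7_4, G1cp7_5, G1cp7_8, G1cp8_0, G1cp8_1, G1cp8_2, G1cp8_3,
  G1cp8_4, G1cp8_5]⟩) (.leaf ⟨105154081, 3695149704121472452708,
  12078135091503976771416021245827984799525129268749209640370292099121164, 25633, [G1cp0_6, G1cp0_7,
  G1cp0_8, G1cp1_0, G1cp1_2, G1cp1_3, G1cp1_6, G1cp1_7, G1cp1_8, G1cp2_3, G1cp4_2, G1cp4_3, G1cp4_5,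
  G1cp5_2, G1cp5_3, G1cp7_6, G1cp8_6, G1cp8_7]⟩))))))

def G1cT3 : Tr :=
  .node 160 (.node 144 (.node 136 (.node 132 (.node 130 (.node 129 (.leaf ⟨159975697,
  3616901730811085066343, 6982785392188914013672736119615132973287828766756127256617581410254848,
  38978, [G1cp0_1, G1cp2_3, G1cp2_4, G1cp2_5, G1cp3_4, G1cp3_5, G1cp5_4, G1cp6_0, G1cp6_1, G1cp6_7,
  G1cp6_8, G1cp7_0, G1cp7_1, G1cp7_8, G1cp8_0, G1cp8_1]⟩) (.leaf ⟨160500102, 2398149923255396472007,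
  7306309688783718684156793714008158902531742279126049249895653003100174, 39234, [G1cp0_1, G1cp2_3,
  G1cp4_1, G1cp4_2, G1cp4_3, G1cp4_5, G1cp5_1, G1cp5_2, G1cp5_3, G1cp6_0, G1cp6_1, G1cp6_2, G1cp6_3,
  G1cp6_7, G1cp6_8, G1cp7_0, G1cp7_1, G1cp7_2, G1cp7_3, G1cp7_8, G1cp8_0, G1cp8_1, G1cp8_2,
  G1cp8_3]⟩)) (.node 131 (.leaf ⟨110200393, 11007126362189293918273,
  12078135091504018532556735883955570678308093439259562437441911982391804, 26977, [G1cp0_6, G1cp0_7,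
  G1cp0_8, G1cp1_0, G1cp1_2, G1cp1_3, G1cp1_4, G1cp1_5, G1cp1_6, G1cp1_7, G1cp1_8, G1cp3_2, G1cp4_5,
  G1cp4_6, G1cp4_7, G1cp4_8, G1cp5_6, G1cp5_7, G1cp5_8, G1cp7_6, G1cp8_6, G1cp8_7]⟩) (.leaf
  ⟨152635665, 3616715957326456033383,
  6982785392188914013672735049163029640975463717123682005364675402792960, 37186, [G1cp0_1, G1cp2_3,
  G1cp5_4, G1cp6_0, G1cp6_1, G1cp6_7, G1cp6_8, G1cp7_0, G1cp7_1, G1cp7_8, G1cp8_0, G1cp8_1]⟩)))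
  (.node 134 (.node 133 (.leaf ⟨152634897, 7272630048428189126756,
  6901904318040212798178042345383576462707624531713883032375563930042368, 37185, [G1cp0_6, G1cp0_7,
  G1cp0_8, G1cp1_0, G1cp1_6, G1cp1_7, G1cp1_8, G1cp2_3, G1cp5_4, G1cp6_7, G1cp6_8, G1cp7_8]⟩) (.leaf
  ⟨102304017, 39200528531409965159,
  12159016165652678369970293094037092838977812371146616893128149018083328, 24898, [G1cp0_1, G1cp2_3,
  G1cp5_4, G1cp6_0, G1cp6_1, G1cp7_0, G1cp7_1, G1cp7_6, G1cp8_0, G1cp8_1, G1cp8_6, G1cp8_7]⟩))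
  (.node 135 (.leaf ⟨102303249, 3695114619633143061604,
  12078135091503977154475600390257639660709973185736817920139037545332736, 24897, [G1cp0_6, G1cp0_7,
  G1cp0_8, G1cp1_0, G1cp1_6, G1cp1_7, G1cp1_8, G1cp2_3, G1cp5_4, G1cp7_6, G1cp8_6, G1cp8_7]⟩) (.leaf
  ⟨153372946, 3616936703011789479010,
  6982785392188912481223963306122905171371064010665679157458056661434418, 37394, [G1cp0_1, G1cp2_1,
  G1cp2_4, G1cp2_5, G1cp3_1, G1cp3_2, G1cp3_4, G1cp3_5, G1cp4_5, G1cp6_0, G1cp6_1, G1cp6_7, G1cp6_8,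
  G1cp7_0, G1cp7_1, G1cp7_8, G1cp8_0, G1cp8_1]⟩)))) (.node 140 (.node 138 (.node 137 (.leaf
  ⟨152586514, 3616715959662918245573,
  6982785392188915354626794641950887787860432522374115927575264086720514, 37138, [G1cp0_1, G1cp2_1,
  G1cp3_1, G1cp3_2, G1cp4_1, G1cp4_2, G1cp4_3, G1cp5_1, G1cp5_2, G1cp5_3, G1cp5_4, G1cp6_0, G1cp6_1,
  G1cp6_7, G1cp6_8, G1cp7_0, G1cp7_1, G1cp7_8, G1cp8_0, G1cp8_1]⟩) (.leaf ⟨153389329,
  3617159852435699676167, 8600406875162936791117817381709927074396336684737936718894737238261820,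
  37410, [G1cp0_1, G1cp0_2, G1cp0_3, G1cp0_4, G1cp0_5, G1cp1_2, G1cp1_3, G1cp1_4, G1cp1_5, G1cp2_3,
  G1cp2_4, G1cp2_5, G1cp3_4, G1cp3_5, G1cp4_5, G1cp6_0, G1cp6_1, G1cp6_2, G1cp6_3, G1cp6_4, G1cp6_5,
  G1cp6_7, G1cp6_8, G1cp7_0, G1cp7_1, G1cp7_2, G1cp7_3, G1cp7_4, G1cp7_5, G1cp7_8, G1cp8_0, G1cp8_1,
  G1cp8_2, G1cp8_3, G1cp8_4, G1cp8_5]⟩)) (.node 139 (.leaf ⟨152602897, 3616715966397426962535,
  7306309688783720025040699800954399340336259427005598795014884945559564, 37154, [G1cp0_1, G1cp0_2,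
  G1cp0_3, G1cp1_2, G1cp1_3, G1cp2_3, G1cp4_2, G1cp4_3, G1cp5_2, G1cp5_3, G1cp5_4, G1cp6_0, G1cp6_1,
  G1cp6_2, G1cp6_3, G1cp6_7, G1cp6_8, G1cp7_0, G1cp7_1, G1cp7_2, G1cp7_3, G1cp7_8, G1cp8_0, G1cp8_1,
  G1cp8_2, G1cp8_3]⟩) (.leaf ⟨153388561, 7272850797446417193985,
  6901904318040211265729270602341410330060234035434921568262945192542268, 37409, [G1cp0_6, G1cp0_7,
  G1cp0_8, G1cp1_0, G1cp1_2, G1cp1_3, G1cp1_4, G1cp1_5, G1cp1_6, G1cp1_7, G1cp1_8, G1cp2_3, G1cp2_4,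
  G1cp2_5, G1cp3_4, G1cp3_5, G1cp4_5, G1cp6_7, G1cp6_8, G1cp7_8]⟩))) (.node 142 (.node 141 (.leaf
  ⟨103057681, 39644423640653607943,
  13776637648626701147415375426583990272398685338760871606658210853552188, 25122, [G1cp0_1, G1cp0_2,
  G1cp0_3, G1cp0_4, G1cp0_5, G1cp1_2, G1cp1_3, G1cp1_4, G1cp1_5, G1cp2_3, G1cp2_4, G1cp2_5, G1cp3_4,
  G1cp3_5, G1cp4_5, G1cp6_0, G1cp6_1, G1cp6_2, G1cp6_3, G1cp6_4, G1cp6_5, G1cp7_0, G1cp7_1, G1cp7_2,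
  G1cp7_3, G1cp7_4, G1cp7_5, G1cp7_6, G1cp8_0, G1cp8_1, G1cp8_2, G1cp8_3, G1cp8_4, G1cp8_5, G1cp8_6,
  G1cp8_7]⟩) (.leaf ⟨102271249, 39200537602380894311,
  12482540462247484381338257845828462538338608081028533682778358560849932, 24866, [G1cp0_1, G1cp0_2,
  G1cp0_3, G1cp1_2, G1cp1_3, G1cp2_3, G1cp4_2, G1cp4_3, G1cp5_2, G1cp5_3, G1cp5_4, G1cp6_0, G1cp6_1,
  G1cp6_2, G1cp6_3, G1cp7_0, G1cp7_1, G1cp7_2, G1cp7_3, G1cp7_6, G1cp8_0, G1cp8_1, G1cp8_2, G1cp8_3,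
  G1cp8_6, G1cp8_7]⟩)) (.node 143 (.leaf ⟨103041298, 39421274216743410786,
  12159016165652676837521521350996968369373412664688614045221530276724786, 25106, [G1cp0_1, G1cp2_1,
  G1cp2_4, G1cp2_5, G1cp3_1, G1cp3_2, G1cp3_4, G1cp3_5, G1cp4_5, G1cp6_0, G1cp6_1, G1cp7_0, G1cp7_1,
  G1cp7_6, G1cp8_0, G1cp8_1, G1cp8_6, G1cp8_7]⟩) (.leaf ⟨102254866, 39200530867872177349,
  12159016165652679710924352686824950985862781176397050815338737702010882, 24850, [G1cp0_1, G1cp2_1,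
  G1cp3_1, G1cp3_2, G1cp4_1, G1cp4_2, G1cp4_3, G1cp5_1, G1cp5_2, G1cp5_3, G1cp5_4, G1cp6_0, G1cp6_1,
  G1cp7_0, G1cp7_1, G1cp7_6, G1cp8_0, G1cp8_1, G1cp8_6, G1cp8_7]⟩))))) (.node 152 (.node 148 (.node
  146 (.node 145 (.leaf ⟨103056913, 3695335368651371125761,
  12078135091503975622026828647215473528062582689457856456026418807832636, 25121, [G1cp0_6, G1cp0_7,
  G1cp0_8, G1cp1_0, G1cp1_2, G1cp1_3, G1cp1_4, G1cp1_5, G1cp1_6, G1cp1_7, G1cp1_8, G1cp2_3, G1cp2_4,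
  G1cp2_5, G1cp3_4, G1cp3_5, G1cp4_5, G1cp7_6, G1cp8_6, G1cp8_7]⟩) (.leaf ⟨102270481,
  3695114625302499892324, 12078135091503978303864794326931196646857116202840091474260710973505548,
  24865, [G1cp0_6, G1cp0_7, G1cp0_8, G1cp1_0, G1cp1_2, G1cp1_3, G1cp1_6, G1cp1_7, G1cp1_8, G1cp2_3,
  G1cp4_2, G1cp4_3, G1cp5_2, G1cp5_3, G1cp5_4, G1cp7_6, G1cp8_6, G1cp8_7]⟩)) (.node 147 (.leaf
  ⟨103040530, 7351249456430113400930,
  12078135091503975622026828647370304305194364331511475481162134550741491, 25105, [G1cp0_6, G1cp0_7,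
  G1cp0_8, G1cp1_0, G1cp1_6, G1cp1_7, G1cp1_8, G1cp2_0, G1cp2_1, G1cp2_4, G1cp2_5, G1cp2_6, G1cp2_7,
  G1cp2_8, G1cp3_0, G1cp3_1, G1cp3_2, G1cp3_4, G1cp3_5, G1cp3_6, G1cp3_7, G1cp3_8, G1cp4_5, G1cp7_6,
  G1cp8_6, G1cp8_7]⟩) (.leaf ⟨102254098, 11006942804192879064261,
  12078135091504021501741999780400544153320427288198493047085788150366659, 24849, [G1cp0_6, G1cp0_7,
  G1cp0_8, G1cp1_0, G1cp1_6, G1cp1_7, G1cp1_8, G1cp2_0, G1cp2_1, G1cp2_6, G1cp2_7, G1cp2_8, G1cp3_0,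
  G1cp3_1, G1cp3_2, G1cp3_6, G1cp3_7, G1cp3_8, G1cp4_0, G1cp4_1, G1cp4_2, G1cp4_3, G1cp4_6, G1cp4_7,
  G1cp4_8, G1cp5_0, G1cp5_1, G1cp5_2, G1cp5_3, G1cp5_4, G1cp5_6, G1cp5_7, G1cp5_8, G1cp7_6, G1cp8_6,
  G1cp8_7]⟩))) (.node 150 (.node 149 (.leaf ⟨160582022, 2398224293947021333703,
  6982785392188912672788828962233803581132787171615963624568469416181762, 39314, [G1cp0_1, G1cp2_1,
  G1cp2_3, G1cp2_4, G1cp2_5, G1cp3_1, G1cp3_4, G1cp3_5, G1cp4_1, G1cp4_5, G1cp5_1, G1cp6_0, G1cp6_1,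
  G1cp6_7, G1cp6_8, G1cp7_0, G1cp7_1, G1cp7_8, G1cp8_0, G1cp8_1]⟩) (.leaf ⟨152602129,
  7272630054097545957476, 6901904318040213947567236282057133448854767548817156586497237358215180,
  37153, [G1cp0_6, G1cp0_7, G1cp0_8, G1cp1_0, G1cp1_2, G1cp1_3, G1cp1_6, G1cp1_7, G1cp1_8, G1cp2_3,
  G1cp4_2, G1cp4_3, G1cp5_2, G1cp5_3, G1cp5_4, G1cp6_7, G1cp6_8, G1cp7_8]⟩)) (.node 151 (.leaf
  ⟨153372178, 10928764885225159466082,
  6901904318040211265729270602496241107192015677488540593398660935451123, 37393, [G1cp0_6, G1cp0_7,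
  G1cp0_8, G1cp1_0, G1cp1_6, G1cp1_7, G1cp1_8, G1cp2_0, G1cp2_1, G1cp2_4, G1cp2_5, G1cp2_6, G1cp2_7,
  G1cp2_8, G1cp3_0, G1cp3_1, G1cp3_2, G1cp3_4, G1cp3_5, G1cp3_6, G1cp3_7, G1cp3_8, G1cp4_5, G1cp6_7,
  G1cp6_8, G1cp7_8]⟩) (.leaf ⟨152585746, 14584458232987925129413,
  6901904318040257145444441735526480955318078634175558159322314535076291, 37137, [G1cp0_6, G1cp0_7,
  G1cp0_8, G1cp1_0, G1cp1_6, G1cp1_7, G1cp1_8, G1cp2_0, G1cp2_1, G1cp2_6, G1cp2_7, G1cp2_8, G1cp3_0,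
  G1cp3_1, G1cp3_2, G1cp3_6, G1cp3_7, G1cp3_8, G1cp4_0, G1cp4_1, G1cp4_2, G1cp4_3, G1cp4_6, G1cp4_7,
  G1cp4_8, G1cp5_0, G1cp5_1, G1cp5_2, G1cp5_3, G1cp5_4, G1cp5_6, G1cp5_7, G1cp5_8, G1cp6_7, G1cp6_8,
  G1cp7_8]⟩)))) (.node 156 (.node 154 (.node 153 (.leaf ⟨153487633, 3616825135635638521863,
  6982785392188912481223963573714833175777651859179748272341989862408192, 37506, [G1cp0_1, G1cp3_2,
  G1cp4_5, G1cp6_0, G1cp6_1, G1cp6_7, G1cp6_8, G1cp7_0, G1cp7_1, G1cp7_8, G1cp8_0, G1cp8_1]⟩) (.leaf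
  ⟨153486865, 7272739226737371615236,
  6901904318040211265729270869935379997509812673769949299352878389657600, 37505, [G1cp0_6, G1cp0_7,
  G1cp0_8, G1cp1_0, G1cp1_6, G1cp1_7, G1cp1_8, G1cp3_2, G1cp4_5, G1cp6_7, G1cp6_8, G1cp7_8]⟩))
  (.node 155 (.leaf ⟨103155985, 39309706840592453639,
  12159016165652676837521521618588896373780000513202683160105463477698560, 25218, [G1cp0_1, G1cp3_2,
  G1cp4_5, G1cp6_0, G1cp6_1, G1cp7_0, G1cp7_1, G1cp7_6, G1cp8_0, G1cp8_1, G1cp8_6, G1cp8_7]⟩) (.leaf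
  ⟨103155217, 3695223797942325550084,
  12078135091503975622026828914809443195512161327792884187116352004947968, 25217, [G1cp0_6, G1cp0_7,
  G1cp0_8, G1cp1_0, G1cp1_6, G1cp1_7, G1cp1_8, G1cp3_2, G1cp4_5, G1cp7_6, G1cp8_6, G1cp8_7]⟩)))
  (.node 158 (.node 157 (.leaf ⟨109643281, 3695411857208549514340,
  13372232277883196602390684721180993845880751958284520788199779238674432, 26689, [G1cp0_4, G1cp0_5,
  G1cp0_6, G1cp0_7, G1cp0_8, G1cp1_0, G1cp1_4, G1cp1_5, G1cp1_6, G1cp1_7, G1cp1_8, G1cp2_3, G1cp2_4,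
  G1cp2_5, G1cp3_4, G1cp3_5, G1cp5_4, G1cp6_4, G1cp6_5, G1cp7_4, G1cp7_5, G1cp7_6, G1cp8_4, G1cp8_5,
  G1cp8_6, G1cp8_7]⟩) (.leaf ⟨109331986, 7351437798373904918626,
  13372232277883196602390683650900055093547376496374518586469755332329971, 26641, [G1cp0_4, G1cp0_5,
  G1cp0_6, G1cp0_7, G1cp0_8, G1cp1_0, G1cp1_4, G1cp1_5, G1cp1_6, G1cp1_7, G1cp1_8, G1cp2_0, G1cp2_1,
  G1cp2_4, G1cp2_5, G1cp2_6, G1cp2_7, G1cp2_8, G1cp3_0, G1cp3_1, G1cp3_2, G1cp3_4, G1cp3_5, G1cp3_6,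
  G1cp3_7, G1cp3_8, G1cp5_4, G1cp6_4, G1cp6_5, G1cp7_4, G1cp7_5, G1cp7_6, G1cp8_4, G1cp8_5, G1cp8_6,
  G1cp8_7]⟩)) (.node 159 (.leaf ⟨109446673, 3695412150090959363085,
  13695756574478002613758648402521621300858491504109224810293895796359168, 26753, [G1cp0_2, G1cp0_3,
  G1cp0_4, G1cp0_5, G1cp0_6, G1cp0_7, G1cp0_8, G1cp1_0, G1cp1_2, G1cp1_3, G1cp1_4, G1cp1_5, G1cp1_6,
  G1cp1_7, G1cp1_8, G1cp3_2, G1cp4_2, G1cp4_3, G1cp5_2, G1cp5_3, G1cp5_4, G1cp6_2, G1cp6_3, G1cp6_4,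
  G1cp6_5, G1cp7_2, G1cp7_3, G1cp7_4, G1cp7_5, G1cp7_6, G1cp8_2, G1cp8_3, G1cp8_4, G1cp8_5, G1cp8_6,
  G1cp8_7]⟩) (.leaf ⟨107054665, 7351177477138597153857,
  12078135091503978303864794326932557734790228040216008758753928964473340, 26209, [G1cp0_6, G1cp0_7,
  G1cp0_8, G1cp1_0, G1cp1_2, G1cp1_3, G1cp1_4, G1cp1_5, G1cp1_6, G1cp1_7, G1cp1_8, G1cp3_2, G1cp4_2,
  G1cp4_3, G1cp5_2, G1cp5_3, G1cp5_4, G1cp7_6, G1cp8_6, G1cp8_7]⟩)))))) (.node 176 (.node 168 (.node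
  164 (.node 162 (.node 161 (.leaf ⟨102828313, 39235687614731358471,
  12374699030049214178433496781737069840253833608738965524118190730772488, 25154, [G1cp0_1, G1cp0_3,
  G1cp1_3, G1cp2_3, G1cp4_3, G1cp4_5, G1cp5_3, G1cp6_0, G1cp6_1, G1cp6_3, G1cp7_0, G1cp7_1, G1cp7_3,
  G1cp7_6, G1cp8_0, G1cp8_1, G1cp8_3, G1cp8_6, G1cp8_7]⟩) (.leaf ⟨102827545, 3695149778716464454913,
  12293817955900512962938804077957616661985994423329166551129079258021896, 25153, [G1cp0_3, G1cp0_6,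
  G1cp0_7, G1cp0_8, G1cp1_0, G1cp1_3, G1cp1_6, G1cp1_7, G1cp1_8, G1cp2_3, G1cp4_3, G1cp4_5, G1cp5_3,
  G1cp6_3, G1cp7_3, G1cp7_6, G1cp8_3, G1cp8_6, G1cp8_7]⟩)) (.node 163 (.leaf ⟨153159961,
  3616751116409777424647, 7198468256585449822135938736863006642251484954716030636354717115482120,
  37442, [G1cp0_1, G1cp0_3, G1cp1_3, G1cp2_3, G1cp4_3, G1cp4_5, G1cp5_3, G1cp6_0, G1cp6_1, G1cp6_3,
  G1cp6_7, G1cp6_8, G1cp7_0, G1cp7_1, G1cp7_3, G1cp7_8, G1cp8_0, G1cp8_1, G1cp8_3]⟩) (.leaf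
  ⟨153159193, 7272665098659859370145,
  6901904318040212031988732156338344988507877317125356972801337787416584, 37441, [G1cp0_3, G1cp0_6,
  G1cp0_7, G1cp0_8, G1cp1_0, G1cp1_3, G1cp1_6, G1cp1_7, G1cp1_8, G1cp2_3, G1cp4_3, G1cp4_5, G1cp5_3,
  G1cp6_7, G1cp6_8, G1cp7_8]⟩))) (.node 166 (.node 165 (.leaf ⟨155486497, 7272665350835883051114,
  7306309688783761690469122115529619685020962151809873856200235228594188, 37922, [G1cp0_1, G1cp0_2,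
  G1cp0_3, G1cp1_2, G1cp1_3, G1cp2_3, G1cp4_0, G1cp4_1, G1cp4_2, G1cp4_3, G1cp4_5, G1cp4_6, G1cp4_7,
  G1cp4_8, G1cp5_0, G1cp5_1, G1cp5_2, G1cp5_3, G1cp5_6, G1cp5_7, G1cp5_8, G1cp6_0, G1cp6_1, G1cp6_2,
  G1cp6_3, G1cp6_7, G1cp6_8, G1cp7_0, G1cp7_1, G1cp7_2, G1cp7_3, G1cp7_8, G1cp8_0, G1cp8_1, G1cp8_2,
  G1cp8_3]⟩) (.leaf ⟨155584801, 7272665026308154165354,
  6982785392188956828490351568022110442103145305084911190586671097446400, 38018, [G1cp0_1, G1cp3_2,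
  G1cp4_0, G1cp4_1, G1cp4_2, G1cp4_3, G1cp4_5, G1cp4_6, G1cp4_7, G1cp4_8, G1cp5_0, G1cp5_1, G1cp5_2,
  G1cp5_3, G1cp5_6, G1cp5_7, G1cp5_8, G1cp6_0, G1cp6_1, G1cp6_7, G1cp6_8, G1cp7_0, G1cp7_1, G1cp7_8,
  G1cp8_0, G1cp8_1]⟩)) (.node 167 (.leaf ⟨155781409, 10928690506537619363021,
  6982785392188955679101168759588849926858272468827204955688824320557056, 37954, [G1cp0_1, G1cp2_0,
  G1cp2_1, G1cp2_3, G1cp2_4, G1cp2_5, G1cp2_6, G1cp2_7, G1cp2_8, G1cp3_0, G1cp3_1, G1cp3_4, G1cp3_5,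
  G1cp3_6, G1cp3_7, G1cp3_8, G1cp4_0, G1cp4_1, G1cp4_5, G1cp4_6, G1cp4_7, G1cp4_8, G1cp5_0, G1cp5_1,
  G1cp5_6, G1cp5_7, G1cp5_8, G1cp6_0, G1cp6_1, G1cp6_7, G1cp6_8, G1cp7_0, G1cp7_1, G1cp7_8, G1cp8_0,
  G1cp8_1]⟩) (.leaf ⟨605570194, 13365820202618693360837,
  6928864676089824217276005970119632014717054932284764190729525335753155, 147729, [G1cp1_0, G1cp2_0,
  G1cp2_1, G1cp2_6, G1cp2_7, G1cp2_8, G1cp3_0, G1cp3_1, G1cp3_2, G1cp3_6, G1cp3_7, G1cp3_8, G1cp4_0,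
  G1cp4_1, G1cp4_2, G1cp4_3, G1cp4_6, G1cp4_7, G1cp4_8, G1cp5_0, G1cp5_1, G1cp5_2, G1cp5_3, G1cp5_4,
  G1cp5_6, G1cp5_7, G1cp5_8, G1cp6_0, G1cp6_7, G1cp6_8, G1cp7_0, G1cp7_8, G1cp8_0]⟩)))) (.node 172
  (.node 170 (.node 169 (.leaf ⟨612648082, 9710092057511931842658,
  6928864676089779870009606580147892102085590417545532099794857949725171, 149521, [G1cp1_0, G1cp2_0,
  G1cp2_1, G1cp2_4, G1cp2_5, G1cp2_6, G1cp2_7, G1cp2_8, G1cp3_0, G1cp3_1, G1cp3_2, G1cp3_4, G1cp3_5,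
  G1cp3_6, G1cp3_7, G1cp3_8, G1cp5_4, G1cp6_0, G1cp6_7, G1cp6_8, G1cp7_0, G1cp7_8, G1cp8_0]⟩) (.leaf
  ⟨560006281, 39386485628038385729,
  13614875500329301015134224386516288288438142821986740028339796944879672, 136769, [G1cp1_0,
  G1cp1_3, G1cp1_4, G1cp1_5, G1cp2_3, G1cp2_4, G1cp2_5, G1cp4_3, G1cp5_3, G1cp5_4, G1cp6_0, G1cp6_3,
  G1cp6_4, G1cp6_5, G1cp7_0, G1cp7_3, G1cp7_4, G1cp7_5, G1cp7_6, G1cp8_0, G1cp8_3, G1cp8_4, G1cp8_5,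
  G1cp8_6, G1cp8_7]⟩)) (.node 171 (.leaf ⟨562332817, 39274910555306034177,
  12105095449553544226307164624850790720109900221796195123595652861067276, 137249, [G1cp1_0,
  G1cp1_2, G1cp1_3, G1cp2_3, G1cp5_4, G1cp6_0, G1cp7_0, G1cp7_6, G1cp8_0, G1cp8_6, G1cp8_7]⟩) (.leaf
  ⟨560088198, 39386477942395736329,
  13453113352031898105232674838677753801046703770759639386576383868338179, 136849, [G1cp1_0,
  G1cp2_0, G1cp2_1, G1cp2_3, G1cp3_0, G1cp3_1, G1cp4_0, G1cp4_1, G1cp5_0, G1cp5_1, G1cp5_4, G1cp6_0,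
  G1cp6_1, G1cp6_4, G1cp6_5, G1cp7_0, G1cp7_1, G1cp7_4, G1cp7_5, G1cp7_6, G1cp8_0, G1cp8_1, G1cp8_4,
  G1cp8_5, G1cp8_6, G1cp8_7]⟩))) (.node 174 (.node 173 (.leaf ⟨562431121, 39274912891768243207,
  12105095449553545375696358561525708794184450648574358803800889212338176, 137345, [G1cp1_0,
  G1cp3_2, G1cp4_2, G1cp4_3, G1cp5_2, G1cp5_3, G1cp5_4, G1cp6_0, G1cp7_0, G1cp7_6, G1cp8_0, G1cp8_6,
  G1cp8_7]⟩) (.leaf ⟨558127240, 39379510468007792707,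
  12940866549090121920647114464947854131506313045903109573222072070897671, 136214, [G1cp1_0,
  G1cp3_0, G1cp3_1, G1cp3_2, G1cp3_5, G1cp4_0, G1cp4_1, G1cp4_2, G1cp4_5, G1cp6_5, G1cp7_5, G1cp7_6,
  G1cp8_5, G1cp8_6, G1cp8_7]⟩)) (.node 175 (.leaf ⟨562627729, 39386302009665818724,
  12105095449553544226307165717603979538511155472012478465072720900063232, 137281, [G1cp1_0,
  G1cp2_0, G1cp2_3, G1cp2_4, G1cp2_5, G1cp3_0, G1cp3_4, G1cp3_5, G1cp5_4, G1cp6_0, G1cp7_0, G1cp7_6,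
  G1cp8_0, G1cp8_6, G1cp8_7]⟩) (.leaf ⟨563152009, 39384088692689836097,
  12105095449553542693858393060198252622094022160956509630111494136397880, 137537, [G1cp1_0,
  G1cp1_3, G1cp1_4, G1cp1_5, G1cp2_3, G1cp2_4, G1cp2_5, G1cp4_5, G1cp6_0, G1cp7_0, G1cp7_6, G1cp8_0,
  G1cp8_6, G1cp8_7]⟩))))) (.node 184 (.node 180 (.node 178 (.node 177 (.leaf ⟨563152006,
  39272523694977683622, 12482540462247483136236784586938351849379686182156147166571911292321807,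
  137537, [G1cp1_0, G1cp2_3, G1cp4_0, G1cp4_1, G1cp4_2, G1cp4_3, G1cp4_5, G1cp5_0, G1cp5_1, G1cp5_2,
  G1cp5_3, G1cp6_0, G1cp6_1, G1cp6_2, G1cp6_3, G1cp7_0, G1cp7_1, G1cp7_2, G1cp7_3, G1cp7_6, G1cp8_0,
  G1cp8_1, G1cp8_2, G1cp8_3, G1cp8_6, G1cp8_7]⟩) (.leaf ⟨562316434, 39386476869595598946,
  12105095449553544226307164624869506473558366016334097581764619740971059, 137233, [G1cp1_0,
  G1cp2_0, G1cp2_1, G1cp2_4, G1cp2_5, G1cp3_0, G1cp3_1, G1cp3_2, G1cp3_4, G1cp3_5, G1cp5_4, G1cp6_0,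
  G1cp7_0, G1cp7_6, G1cp8_0, G1cp8_6, G1cp8_7]⟩)) (.node 179 (.leaf ⟨558384262,
  39495661920935055529, 13776637648626701147415375761081216398117865945905896915205298164006915,
  136209, [G1cp1_0, G1cp2_0, G1cp2_1, G1cp3_0, G1cp3_1, G1cp3_2, G1cp4_5, G1cp6_0, G1cp6_1, G1cp6_2,
  G1cp6_3, G1cp6_4, G1cp6_5, G1cp7_0, G1cp7_1, G1cp7_2, G1cp7_3, G1cp7_4, G1cp7_5, G1cp7_6, G1cp8_0,
  G1cp8_1, G1cp8_2, G1cp8_3, G1cp8_4, G1cp8_5, G1cp8_6, G1cp8_7]⟩) (.leaf ⟨555287697,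
  39200528525036785764, 12105095449553544322089597452907260756513683304107073486521464843730944,
  135489, [G1cp1_0, G1cp2_0, G1cp2_3, G1cp3_0, G1cp4_0, G1cp5_0, G1cp5_4, G1cp6_0, G1cp7_0, G1cp7_6,
  G1cp8_0, G1cp8_6, G1cp8_7]⟩))) (.node 182 (.node 181 (.leaf ⟨556041361, 39421277543368760321,
  12105095449553542789640825709865094623866292807828112022408846106230845, 135713, [G1cp1_0,
  G1cp1_2, G1cp1_3, G1cp1_4, G1cp1_5, G1cp2_0, G1cp2_3, G1cp2_4, G1cp2_5, G1cp3_0, G1cp3_4, G1cp3_5,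
  G1cp4_0, G1cp4_5, G1cp5_0, G1cp6_0, G1cp7_0, G1cp7_6, G1cp8_0, G1cp8_6, G1cp8_7]⟩) (.leaf
  ⟨563233926, 39346895521581208775,
  12159016165652677124868819835164336815539948871644573905311540317454339, 137617, [G1cp1_0,
  G1cp2_0, G1cp2_1, G1cp2_3, G1cp2_4, G1cp2_5, G1cp3_0, G1cp3_1, G1cp3_4, G1cp3_5, G1cp4_0, G1cp4_1,
  G1cp4_5, G1cp5_0, G1cp5_1, G1cp6_0, G1cp6_1, G1cp7_0, G1cp7_1, G1cp7_6, G1cp8_0, G1cp8_1, G1cp8_6,
  G1cp8_7]⟩)) (.node 183 (.leaf ⟨556139665, 39309706834219274244,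
  12105095449553542789640825977458724003756653649164848750360851205914624, 135809, [G1cp1_0,
  G1cp3_2, G1cp4_0, G1cp4_5, G1cp5_0, G1cp6_0, G1cp7_0, G1cp7_6, G1cp8_0, G1cp8_6, G1cp8_7]⟩) (.leaf
  ⟨554796185, 39203944879393702977,
  12105095449553545471459792202807714783054884280597979147562479043477532, 135521, [G1cp1_0,
  G1cp1_2, G1cp1_3, G1cp1_4, G1cp3_2, G1cp5_0, G1cp5_2, G1cp5_3, G1cp5_4, G1cp6_0, G1cp7_0, G1cp7_6,
  G1cp8_0, G1cp8_6, G1cp8_7]⟩)))) (.node 188 (.node 186 (.node 185 (.leaf ⟨555238546,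
  39200530868045356229, 12105095449553545663043657045695118903398652109357507408732053527658499,
  135441, [G1cp1_0, G1cp2_0, G1cp2_1, G1cp3_0, G1cp3_1, G1cp3_2, G1cp4_0, G1cp4_1, G1cp4_2, G1cp4_3,
  G1cp5_0, G1cp5_1, G1cp5_2, G1cp5_3, G1cp5_4, G1cp6_0, G1cp7_0, G1cp7_6, G1cp8_0, G1cp8_6,
  G1cp8_7]⟩) (.leaf ⟨556024978, 39421274213695364194,
  12105095449553542789640825709867136286909283597649070638614846102372403, 135697, [G1cp1_0,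
  G1cp2_0, G1cp2_1, G1cp2_4, G1cp2_5, G1cp3_0, G1cp3_1, G1cp3_2, G1cp3_4, G1cp3_5, G1cp4_0, G1cp4_5,
  G1cp5_0, G1cp6_0, G1cp7_0, G1cp7_6, G1cp8_0, G1cp8_6, G1cp8_7]⟩)) (.node 187 (.leaf ⟨555811993,
  39235506188870322273, 12105095449553543555900287241560943796224095141312984018039526209880072,
  135745, [G1cp1_0, G1cp1_3, G1cp2_3, G1cp4_0, G1cp4_3, G1cp4_5, G1cp5_0, G1cp5_3, G1cp6_0, G1cp7_0,
  G1cp7_6, G1cp8_0, G1cp8_6, G1cp8_7]⟩) (.leaf ⟨140577161, 1185502034153898613957,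
  10218028354954472819878858677525449775544517867449560795108292758601784, 34370, [G1cp0_1, G1cp0_3,
  G1cp0_4, G1cp0_5, G1cp1_3, G1cp1_4, G1cp1_5, G1cp2_3, G1cp2_4, G1cp2_5, G1cp4_3, G1cp5_3, G1cp5_4,
  G1cp7_0, G1cp7_1, G1cp7_3, G1cp7_4, G1cp7_5, G1cp7_6, G1cp7_8, G1cp8_0, G1cp8_1, G1cp8_3, G1cp8_4,
  G1cp8_5, G1cp8_6]⟩))) (.node 190 (.node 189 (.leaf ⟨140659078, 1185390453521331097865,
  10002345490608152484414841278554829448265064146545017316910556566913026, 34450, [G1cp0_1, G1cp2_1,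
  G1cp2_3, G1cp3_1, G1cp4_1, G1cp5_1, G1cp5_4, G1cp7_0, G1cp7_1, G1cp7_4, G1cp7_5, G1cp7_6, G1cp7_8,
  G1cp8_0, G1cp8_1, G1cp8_4, G1cp8_5, G1cp8_6]⟩) (.leaf ⟨138955142, 1185499637499870417065,
  10325869787127630401555334837547647122572627206425308200325638032064514, 33810, [G1cp0_1, G1cp2_1,
  G1cp3_1, G1cp3_2, G1cp4_5, G1cp7_0, G1cp7_1, G1cp7_2, G1cp7_3, G1cp7_4, G1cp7_5, G1cp7_6, G1cp7_8,
  G1cp8_0, G1cp8_1, G1cp8_2, G1cp8_3, G1cp8_4, G1cp8_5, G1cp8_6]⟩)) (.node 191 (.leaf ⟨143722886,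
  1185276499274013708454, 9031772601049713177892871534313856203392740345918836813258063786934286,
  35138, [G1cp0_1, G1cp2_3, G1cp4_1, G1cp4_2, G1cp4_3, G1cp4_5, G1cp5_1, G1cp5_2, G1cp5_3, G1cp7_0,
  G1cp7_1, G1cp7_2, G1cp7_3, G1cp7_6, G1cp7_8, G1cp8_0, G1cp8_1, G1cp8_2, G1cp8_3, G1cp8_6]⟩) (.leaf
  ⟨143804806, 1185350871100583679175,
  8708248304530232387349546951705530355072277235401979453264448614170626, 35218, [G1cp0_1, G1cp2_1,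
  G1cp2_3, G1cp2_4, G1cp2_5, G1cp3_1, G1cp3_4, G1cp3_5, G1cp4_1, G1cp4_5, G1cp5_1, G1cp7_0, G1cp7_1,
  G1cp7_6, G1cp7_8, G1cp8_0, G1cp8_1, G1cp8_6]⟩))))))

def G1cT4 : Tr :=
  .node 203 (.node 197 (.node 194 (.node 193 (.leaf ⟨101860902, 9788490544970500247652,
  12078135091503977154475611518499297219540601514207446537497755839037891, 24977, [G1cp0_6, G1cp0_7,
  G1cp0_8, G1cp1_0, G1cp1_6, G1cp1_7, G1cp1_8, G1cp2_0, G1cp2_1, G1cp2_3, G1cp2_4, G1cp2_5, G1cp2_6,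
  G1cp2_7, G1cp2_8, G1cp3_0, G1cp3_1, G1cp3_4, G1cp3_5, G1cp3_6, G1cp3_7, G1cp3_8, G1cp5_4, G1cp7_6,
  G1cp8_6, G1cp8_7]⟩) (.leaf ⟨289998369, 1188809635605747274951,
  8627367230400368415571849629718726802137133826784302336474646356951040, 70721, [G1cp0_6, G1cp1_0,
  G1cp1_6, G1cp2_3, G1cp2_4, G1cp2_5, G1cp2_6, G1cp3_4, G1cp3_5, G1cp3_6, G1cp4_5, G1cp4_6, G1cp5_6,
  G1cp7_6, G1cp7_8, G1cp8_6]⟩)) (.node 195 (.leaf ⟨289801761, 1185239481974098331751,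
  8627367230400369564961041068672070434150449875703598300666569654272000, 70785, [G1cp0_6, G1cp1_0,
  G1cp1_6, G1cp3_2, G1cp4_2, G1cp4_3, G1cp4_5, G1cp4_6, G1cp5_2, G1cp5_3, G1cp5_6, G1cp7_6, G1cp7_8,
  G1cp8_6]⟩) (.node 196 (.leaf ⟨289687074, 1188698240821887174754,
  8627367230400368415571847132021312714471849995435993128837149741809731, 70673, [G1cp0_6, G1cp1_0,
  G1cp1_6, G1cp2_0, G1cp2_1, G1cp2_6, G1cp3_0, G1cp3_1, G1cp3_2, G1cp3_6, G1cp4_5, G1cp4_6, G1cp5_6,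
  G1cp7_6, G1cp7_8, G1cp8_6]⟩) (.leaf ⟨289703457, 1185239588592366487652,
  8627367230400369564961040801061766963854614029649917730751597670825996, 70689, [G1cp0_6, G1cp1_0,
  G1cp1_2, G1cp1_3, G1cp1_6, G1cp2_3, G1cp4_2, G1cp4_3, G1cp4_5, G1cp4_6, G1cp5_2, G1cp5_3, G1cp5_6,
  G1cp7_6, G1cp7_8, G1cp8_6]⟩)))) (.node 200 (.node 198 (.leaf ⟨286852625, 1185204504104037093476,
  8627367230400363817944920377146810604886313516106949422305599821971456, 69953, [G1cp0_6, G1cp1_0,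
  G1cp1_6, G1cp2_3, G1cp5_4, G1cp7_6, G1cp7_8, G1cp8_6]⟩) (.node 199 (.leaf ⟨287606289,
  1185425253122265160705, 8627367230400362285496148634104644472238923019827987958192981084471356,
  70177, [G1cp0_6, G1cp1_0, G1cp1_2, G1cp1_3, G1cp1_4, G1cp1_5, G1cp1_6, G1cp2_3, G1cp2_4, G1cp2_5,
  G1cp3_4, G1cp3_5, G1cp4_5, G1cp7_6, G1cp7_8, G1cp8_6]⟩) (.leaf ⟨286803474, 1192122035474790656197,
  8627367230400371384757113793605221118078980638325603118030332213854275, 69905, [G1cp0_6, G1cp1_0,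
  G1cp1_6, G1cp2_0, G1cp2_1, G1cp2_6, G1cp3_0, G1cp3_1, G1cp3_2, G1cp3_6, G1cp4_0, G1cp4_1, G1cp4_2,
  G1cp4_3, G1cp4_6, G1cp5_0, G1cp5_1, G1cp5_2, G1cp5_3, G1cp5_4, G1cp5_6, G1cp7_6, G1cp7_8,
  G1cp8_6]⟩))) (.node 201 (.leaf ⟨286410278, 1191154885117242249316,
  8627367230400363817944922941771641505218021447518016137729385258221635, 70033, [G1cp0_6, G1cp1_0,
  G1cp1_6, G1cp2_0, G1cp2_1, G1cp2_3, G1cp2_4, G1cp2_5, G1cp2_6, G1cp3_0, G1cp3_1, G1cp3_4, G1cp3_5,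
  G1cp3_6, G1cp5_4, G1cp7_6, G1cp7_8, G1cp8_6]⟩) (.node 202 (.leaf ⟨287704593,
  1185313682413219581956, 8627367230400362285496148901698614139688501658163015689282914281586688,
  70273, [G1cp0_6, G1cp1_0, G1cp1_6, G1cp3_2, G1cp4_5, G1cp7_6, G1cp7_8, G1cp8_6]⟩) (.leaf
  ⟨286819857, 1185204509773393924196,
  8627367230400364967334114313820367591033456533210222976427273250144268, 69921, [G1cp0_6, G1cp1_0,
  G1cp1_2, G1cp1_3, G1cp1_6, G1cp2_3, G1cp4_2, G1cp4_3, G1cp5_2, G1cp5_3, G1cp5_4, G1cp7_6, G1cp7_8,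
  G1cp8_6]⟩))))) (.node 208 (.node 205 (.node 204 (.leaf ⟨294192657, 1185390277588666126436,
  9921464416478282382561444031406046897743124300681739229032067858694144, 71745, [G1cp0_4, G1cp0_5,
  G1cp0_6, G1cp1_0, G1cp1_4, G1cp1_5, G1cp1_6, G1cp2_3, G1cp2_4, G1cp2_5, G1cp3_4, G1cp3_5, G1cp5_4,
  G1cp7_4, G1cp7_5, G1cp7_6, G1cp7_8, G1cp8_4, G1cp8_5, G1cp8_6]⟩) (.leaf ⟨293897745,
  1185390455778269302785, 9921464416478282382561442960953943565431709988999465163341289423110156,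
  71713, [G1cp0_4, G1cp0_5, G1cp0_6, G1cp1_0, G1cp1_2, G1cp1_3, G1cp1_4, G1cp1_5, G1cp1_6, G1cp2_3,
  G1cp5_4, G1cp7_4, G1cp7_5, G1cp7_6, G1cp7_8, G1cp8_4, G1cp8_5, G1cp8_6]⟩)) (.node 206 (.leaf
  ⟨293881362, 1188960786606414044258,
  9921464416478282382561442960994437722670114791427991822337654538633331, 71697, [G1cp0_4, G1cp0_5,
  G1cp0_6, G1cp1_0, G1cp1_4, G1cp1_5, G1cp1_6, G1cp2_0, G1cp2_1, G1cp2_4, G1cp2_5, G1cp2_6, G1cp3_0,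
  G1cp3_1, G1cp3_2, G1cp3_4, G1cp3_5, G1cp3_6, G1cp5_4, G1cp7_4, G1cp7_5, G1cp7_6, G1cp7_8, G1cp8_4,
  G1cp8_5, G1cp8_6]⟩) (.node 207 (.leaf ⟨293996049, 1185390461516345610250,
  10244988712997763173104767543580644879642371849513214985792616002224128, 71809, [G1cp0_2, G1cp0_3,
  G1cp0_4, G1cp0_5, G1cp0_6, G1cp1_0, G1cp1_2, G1cp1_3, G1cp1_4, G1cp1_5, G1cp1_6, G1cp3_2, G1cp4_2,
  G1cp4_3, G1cp5_2, G1cp5_3, G1cp5_4, G1cp7_2, G1cp7_3, G1cp7_4, G1cp7_5, G1cp7_6, G1cp7_8, G1cp8_2,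
  G1cp8_3, G1cp8_4, G1cp8_5, G1cp8_6]⟩) (.leaf ⟨287376921, 1185239554335707336865,
  8843050094746682812525030618736101290776673422370479209739929258557448, 70209, [G1cp0_3, G1cp0_6,
  G1cp1_0, G1cp1_3, G1cp1_6, G1cp2_3, G1cp4_3, G1cp4_5, G1cp5_3, G1cp7_3, G1cp7_6, G1cp7_8, G1cp8_3,
  G1cp8_6]⟩)))) (.node 211 (.node 209 (.leaf ⟨304367122, 2398298672639098690658,
  6901904318040211265729270602343792280626947863840749309565283882500147, 74257, [G1cp1_0, G1cp2_0,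
  G1cp2_1, G1cp2_4, G1cp2_5, G1cp3_0, G1cp3_1, G1cp3_2, G1cp3_4, G1cp3_5, G1cp4_5, G1cp6_7, G1cp6_8,
  G1cp7_8]⟩) (.node 210 (.leaf ⟨287589906, 1188884014306516212834,
  8627367230400362285496148634128804826631070614537861778364307413663859, 70161, [G1cp0_6, G1cp1_0,
  G1cp1_6, G1cp2_0, G1cp2_1, G1cp2_4, G1cp2_5, G1cp2_6, G1cp3_0, G1cp3_1, G1cp3_2, G1cp3_4, G1cp3_5,
  G1cp3_6, G1cp4_5, G1cp7_6, G1cp7_8, G1cp8_6]⟩) (.leaf ⟨73467465, 7341954104826864471105,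
  10352672179143826900968184982943445752336597293178732361063444914897336, 17985, [G1cp0_7, G1cp0_8,
  G1cp1_0, G1cp1_3, G1cp1_4, G1cp1_5, G1cp1_7, G1cp1_8, G1cp2_3, G1cp2_4, G1cp2_5, G1cp2_7, G1cp2_8,
  G1cp4_3, G1cp5_3, G1cp5_4, G1cp6_7, G1cp6_8, G1cp8_7]⟩))) (.node 212 (.leaf ⟨71599689,
  10994511813614810405025, 10352672179143824602821175450986764987498811652329606253658325257290156,
  17441, [G1cp0_7, G1cp0_8, G1cp1_0, G1cp1_2, G1cp1_3, G1cp1_5, G1cp1_7, G1cp1_8, G1cp2_3, G1cp2_5,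
  G1cp2_7, G1cp2_8, G1cp3_5, G1cp3_7, G1cp3_8, G1cp4_5, G1cp4_7, G1cp4_8, G1cp6_7, G1cp6_8,
  G1cp8_7]⟩) (.node 213 (.leaf ⟨76645961, 10994444225638618601537,
  10352672179143861382714156856600032609980884207636528131760407004840380, 18785, [G1cp0_7, G1cp0_8,
  G1cp1_0, G1cp1_2, G1cp1_3, G1cp1_4, G1cp1_5, G1cp1_7, G1cp1_8, G1cp3_2, G1cp4_5, G1cp4_7, G1cp4_8,
  G1cp5_7, G1cp5_8, G1cp6_7, G1cp6_8, G1cp8_7]⟩) (.leaf ⟨73500233, 7341954105101742378049,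
  10352672179143827284097916295169323592576044297409520490782028786827708, 18017, [G1cp0_7, G1cp0_8,
  G1cp1_0, G1cp1_2, G1cp1_3, G1cp1_4, G1cp1_5, G1cp1_7, G1cp1_8, G1cp3_2, G1cp4_2, G1cp4_3, G1cp5_2,
  G1cp5_3, G1cp5_4, G1cp6_7, G1cp6_8, G1cp8_7]⟩)))))

/-- The table of G1c. -/
def G1cT : Tr :=
  (.node 128 (.node 64 G1cT1 G1cT2) (.node 192 G1cT3 G1cT4))

theorem G1cT1_ok : G1cT1.all (qEntry (G1c).t G1cie G1cte) = true := by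
  decide +kernel

theorem G1cT2_ok : G1cT2.all (qEntry (G1c).t G1cie G1cte) = true := by
  decide +kernel

theorem G1cT3_ok : G1cT3.all (qEntry (G1c).t G1cie G1cte) = true := by
  decide +kernel

theorem G1cT4_ok : G1cT4.all (qEntry (G1c).t G1cie G1cte) = true := by
  decide +kernel

theorem G1cT_ok : G1cT.all (qEntry (G1c).t G1cie G1cte) = true :=
  (Tr.all_node (Tr.all_node G1cT1_ok G1cT2_ok) (Tr.all_node G1cT3_ok G1cT4_ok))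

end Pool.Agent.T1Red
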