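import Pool.Agent.Work.MP_392c8e_co_uni.Inst.G2Q1

/-!
# The extension property of the reducer G2
-/

namespace Pool.Agent.T1Red

/-- All patterns. -/
def G2C : List (Nat × List Nat) :=
  G2C1_1 ++ (G2C1_2 ++ (G2C1_3 ++ (G2C1_4 ++ (G2C1_5 ++ (G2C1_6 ++ (G2C1_7 ++ (G2C1_8 ++ (G2C1_9 ++
  (G2C1_10 ++ (G2C1_11 ++ (G2C1_12 ++ (G2C1_13 ++ (G2C1_14 ++ (G2C1_15 ++ (G2C1_16 ++ (G2C1_17 ++
  (G2C1_18 ++ (G2C1_19))))))))))))))))))

theorem G2C_ok : qcheckL (G2) G2ne G2te G2T G2C = true :=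
  qcheckL_append G2C1_1_ok ( qcheckL_append G2C1_2_ok ( qcheckL_append G2C1_3_ok ( qcheckL_append
  G2C1_4_ok ( qcheckL_append G2C1_5_ok ( qcheckL_append G2C1_6_ok ( qcheckL_append G2C1_7_ok (
  qcheckL_append G2C1_8_ok ( qcheckL_append G2C1_9_ok ( qcheckL_append G2C1_10_ok ( qcheckL_append
  G2C1_11_ok ( qcheckL_append G2C1_12_ok ( qcheckL_append G2C1_13_ok ( qcheckL_append G2C1_14_ok (
  qcheckL_append G2C1_15_ok ( qcheckL_append G2C1_16_ok ( qcheckL_append G2C1_17_ok ( qcheckL_append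
  G2C1_18_ok (G2C1_19_ok))))))))))))))))))

theorem G2C_pts : Red.pts (G2) = G2C.map Prod.fst := by
  decide +kernel

/-- The extension property of G2. -/
theorem G2_ext (co : List (Nat × Nat)) (h : neOK (G2) co = true) : Red.Ext (G2) co :=
  Red.ext_of_quick (by decide +kernel) (by decide +kernel : Red.ie (G2) = G2ie)
    (by decide +kernel : Red.te (G2) = G2te)
    (by decide +kernel : neP (Red.ne (G2)) G2ne = true) G2T_ok G2C_ok G2C_pts h

end Pool.Agent.T1Red
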