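import Pool.Agent.Work.MP_392c8e_co_uni.Inst.G2RExt

/-!
# The reducer G2R

The extension property of G2R for every list `co` with `neOK G2R co` is `G2R_ext` in
`Inst.G2RExt`, checked with the quick checker of `Quick.lean`. This file only keeps the old
name of the case `[(3, 8)]`.
-/

namespace Pool.Agent.T1Red

theorem ext_G2R : G2R.Ext [(3, 8)] := G2R_ext _ (by decide +kernel)

end Pool.Agent.T1Red
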