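import Pool.Agent.Work.MP_392c8e_co_uni.Quick
import Pool.Agent.Work.MP_392c8e_co_uni.RedG2R

/-!
# The table of the reducer G2R
-/

namespace Pool.Agent.T1Red

/-- The edges between interior vertices. -/
def G2Rie : List (Nat × Nat) :=
  [(10, 11), (10, 16), (10, 17), (11, 12), (11, 19), (12, 13), (12, 21), (13, 14), (14, 15), (14,
  22), (15, 16), (15, 24), (17, 18), (18, 19), (19, 20), (20, 21), (22, 23), (22, 25), (23, 24),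
  (23, 27), (25, 26), (26, 27)]

/-- The packed matrix of the pairs with different values. -/
def G2Rne : Nat := 5776099898098539606962625425869013161131115008

/-- The edges with a label. -/
def G2Rte : List (Nat × Nat) :=
  [(24, 0), (16, 1), (17, 2), (18, 3), (20, 4), (21, 5), (13, 6), (25, 7), (26, 8), (27, 9)]

def G2Rp0_1 : Nat × Nat × Nat × Nat := (3, 1, 0, 1)
def G2Rp0_2 : Nat × Nat × Nat × Nat := (5, 1, 0, 2)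
def G2Rp0_3 : Nat × Nat × Nat × Nat := (9, 1, 0, 3)
def G2Rp0_4 : Nat × Nat × Nat × Nat := (17, 1, 0, 4)
def G2Rp0_5 : Nat × Nat × Nat × Nat := (33, 1, 0, 5)
def G2Rp0_6 : Nat × Nat × Nat × Nat := (65, 1, 0, 6)
def G2Rp0_7 : Nat × Nat × Nat × Nat := (129, 1, 0, 7)
def G2Rp0_8 : Nat × Nat × Nat × Nat := (257, 1, 0, 8)
def G2Rp0_9 : Nat × Nat × Nat × Nat := (513, 1, 0, 9)
def G2Rp1_0 : Nat × Nat × Nat × Nat := (3, 2, 1, 0)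
def G2Rp1_2 : Nat × Nat × Nat × Nat := (6, 2, 1, 2)
def G2Rp1_3 : Nat × Nat × Nat × Nat := (10, 2, 1, 3)
def G2Rp1_4 : Nat × Nat × Nat × Nat := (18, 2, 1, 4)
def G2Rp1_5 : Nat × Nat × Nat × Nat := (34, 2, 1, 5)
def G2Rp1_6 : Nat × Nat × Nat × Nat := (66, 2, 1, 6)
def G2Rp1_7 : Nat × Nat × Nat × Nat := (130, 2, 1, 7)
def G2Rp1_8 : Nat × Nat × Nat × Nat := (258, 2, 1, 8)
def G2Rp1_9 : Nat × Nat × Nat × Nat := (514, 2, 1, 9)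
def G2Rp2_0 : Nat × Nat × Nat × Nat := (5, 4, 2, 0)
def G2Rp2_1 : Nat × Nat × Nat × Nat := (6, 4, 2, 1)
def G2Rp2_3 : Nat × Nat × Nat × Nat := (12, 4, 2, 3)
def G2Rp2_4 : Nat × Nat × Nat × Nat := (20, 4, 2, 4)
def G2Rp2_5 : Nat × Nat × Nat × Nat := (36, 4, 2, 5)
def G2Rp2_6 : Nat × Nat × Nat × Nat := (68, 4, 2, 6)
def G2Rp2_7 : Nat × Nat × Nat × Nat := (132, 4, 2, 7)
def G2Rp2_8 : Nat × Nat × Nat × Nat := (260, 4, 2, 8)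
def G2Rp2_9 : Nat × Nat × Nat × Nat := (516, 4, 2, 9)
def G2Rp3_0 : Nat × Nat × Nat × Nat := (9, 8, 3, 0)
def G2Rp3_1 : Nat × Nat × Nat × Nat := (10, 8, 3, 1)
def G2Rp3_2 : Nat × Nat × Nat × Nat := (12, 8, 3, 2)
def G2Rp3_4 : Nat × Nat × Nat × Nat := (24, 8, 3, 4)
def G2Rp3_5 : Nat × Nat × Nat × Nat := (40, 8, 3, 5)
def G2Rp3_6 : Nat × Nat × Nat × Nat := (72, 8, 3, 6)
def G2Rp3_7 : Nat × Nat × Nat × Nat := (136, 8, 3, 7)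
def G2Rp3_8 : Nat × Nat × Nat × Nat := (264, 8, 3, 8)
def G2Rp3_9 : Nat × Nat × Nat × Nat := (520, 8, 3, 9)
def G2Rp4_0 : Nat × Nat × Nat × Nat := (17, 16, 4, 0)
def G2Rp4_1 : Nat × Nat × Nat × Nat := (18, 16, 4, 1)
def G2Rp4_2 : Nat × Nat × Nat × Nat := (20, 16, 4, 2)
def G2Rp4_3 : Nat × Nat × Nat × Nat := (24, 16, 4, 3)
def G2Rp4_5 : Nat × Nat × Nat × Nat := (48, 16, 4, 5)
def G2Rp4_6 : Nat × Nat × Nat × Nat := (80, 16, 4, 6)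
def G2Rp4_7 : Nat × Nat × Nat × Nat := (144, 16, 4, 7)
def G2Rp4_8 : Nat × Nat × Nat × Nat := (272, 16, 4, 8)
def G2Rp4_9 : Nat × Nat × Nat × Nat := (528, 16, 4, 9)
def G2Rp5_0 : Nat × Nat × Nat × Nat := (33, 32, 5, 0)
def G2Rp5_1 : Nat × Nat × Nat × Nat := (34, 32, 5, 1)
def G2Rp5_2 : Nat × Nat × Nat × Nat := (36, 32, 5, 2)
def G2Rp5_3 : Nat × Nat × Nat × Nat := (40, 32, 5, 3)
def G2Rp5_4 : Nat × Nat × Nat × Nat := (48, 32, 5, 4)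
def G2Rp5_6 : Nat × Nat × Nat × Nat := (96, 32, 5, 6)
def G2Rp5_7 : Nat × Nat × Nat × Nat := (160, 32, 5, 7)
def G2Rp5_8 : Nat × Nat × Nat × Nat := (288, 32, 5, 8)
def G2Rp5_9 : Nat × Nat × Nat × Nat := (544, 32, 5, 9)
def G2Rp6_0 : Nat × Nat × Nat × Nat := (65, 64, 6, 0)
def G2Rp6_1 : Nat × Nat × Nat × Nat := (66, 64, 6, 1)
def G2Rp6_2 : Nat × Nat × Nat × Nat := (68, 64, 6, 2)
def G2Rp6_3 : Nat × Nat × Nat × Nat := (72, 64, 6, 3)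
def G2Rp6_4 : Nat × Nat × Nat × Nat := (80, 64, 6, 4)
def G2Rp6_5 : Nat × Nat × Nat × Nat := (96, 64, 6, 5)
def G2Rp6_7 : Nat × Nat × Nat × Nat := (192, 64, 6, 7)
def G2Rp6_8 : Nat × Nat × Nat × Nat := (320, 64, 6, 8)
def G2Rp6_9 : Nat × Nat × Nat × Nat := (576, 64, 6, 9)
def G2Rp7_0 : Nat × Nat × Nat × Nat := (129, 128, 7, 0)
def G2Rp7_1 : Nat × Nat × Nat × Nat := (130, 128, 7, 1)
def G2Rp7_2 : Nat × Nat × Nat × Nat := (132, 128, 7, 2)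
def G2Rp7_3 : Nat × Nat × Nat × Nat := (136, 128, 7, 3)
def G2Rp7_4 : Nat × Nat × Nat × Nat := (144, 128, 7, 4)
def G2Rp7_5 : Nat × Nat × Nat × Nat := (160, 128, 7, 5)
def G2Rp7_6 : Nat × Nat × Nat × Nat := (192, 128, 7, 6)
def G2Rp7_8 : Nat × Nat × Nat × Nat := (384, 128, 7, 8)
def G2Rp7_9 : Nat × Nat × Nat × Nat := (640, 128, 7, 9)
def G2Rp8_0 : Nat × Nat × Nat × Nat := (257, 256, 8, 0)
def G2Rp8_1 : Nat × Nat × Nat × Nat := (258, 256, 8, 1)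
def G2Rp8_2 : Nat × Nat × Nat × Nat := (260, 256, 8, 2)
def G2Rp8_3 : Nat × Nat × Nat × Nat := (264, 256, 8, 3)
def G2Rp8_4 : Nat × Nat × Nat × Nat := (272, 256, 8, 4)
def G2Rp8_5 : Nat × Nat × Nat × Nat := (288, 256, 8, 5)
def G2Rp8_6 : Nat × Nat × Nat × Nat := (320, 256, 8, 6)
def G2Rp8_7 : Nat × Nat × Nat × Nat := (384, 256, 8, 7)
def G2Rp8_9 : Nat × Nat × Nat × Nat := (768, 256, 8, 9)
def G2Rp9_0 : Nat × Nat × Nat × Nat := (513, 512, 9, 0)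
def G2Rp9_1 : Nat × Nat × Nat × Nat := (514, 512, 9, 1)
def G2Rp9_2 : Nat × Nat × Nat × Nat := (516, 512, 9, 2)
def G2Rp9_3 : Nat × Nat × Nat × Nat := (520, 512, 9, 3)
def G2Rp9_4 : Nat × Nat × Nat × Nat := (528, 512, 9, 4)
def G2Rp9_5 : Nat × Nat × Nat × Nat := (544, 512, 9, 5)
def G2Rp9_6 : Nat × Nat × Nat × Nat := (576, 512, 9, 6)
def G2Rp9_7 : Nat × Nat × Nat × Nat := (640, 512, 9, 7)
def G2Rp9_8 : Nat × Nat × Nat × Nat := (768, 512, 9, 8)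

def G2RT1 : Tr :=
  .node 32 (.node 16 (.node 8 (.node 4 (.node 2 (.node 1 (.leaf ⟨38965485841,
  557787605650671519888573447,
  3893015380513200236243058105386338767524604951225815001842856922187920242485801976707, 592009,
  [G2Rp1_0, G2Rp1_7, G2Rp1_8, G2Rp1_9, G2Rp2_0, G2Rp2_1, G2Rp2_7, G2Rp2_8, G2Rp2_9, G2Rp3_0,
  G2Rp3_1, G2Rp3_2, G2Rp3_7, G2Rp3_8, G2Rp3_9, G2Rp4_0, G2Rp4_1, G2Rp4_2, G2Rp4_3, G2Rp4_7, G2Rp4_8,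
  G2Rp4_9, G2Rp5_0, G2Rp5_1, G2Rp5_2, G2Rp5_3, G2Rp5_4, G2Rp5_7, G2Rp5_8, G2Rp5_9, G2Rp6_0, G2Rp6_1,
  G2Rp6_2, G2Rp6_3, G2Rp6_4, G2Rp6_5, G2Rp6_7, G2Rp6_8, G2Rp6_9, G2Rp7_0, G2Rp7_8, G2Rp7_9, G2Rp8_0,
  G2Rp8_9, G2Rp9_0]⟩) (.leaf ⟨26080583953, 520420589582880292466590727,
  6799385587178475329257749214109253787286028557366391988517312308507297749470684316547, 395401,
  [G2Rp1_0, G2Rp1_7, G2Rp1_8, G2Rp1_9, G2Rp2_0, G2Rp2_1, G2Rp2_7, G2Rp2_8, G2Rp2_9, G2Rp3_0,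
  G2Rp3_1, G2Rp3_2, G2Rp3_7, G2Rp3_8, G2Rp3_9, G2Rp4_0, G2Rp4_1, G2Rp4_2, G2Rp4_3, G2Rp4_7, G2Rp4_8,
  G2Rp4_9, G2Rp5_0, G2Rp5_1, G2Rp5_2, G2Rp5_3, G2Rp5_4, G2Rp5_7, G2Rp5_8, G2Rp5_9, G2Rp6_0, G2Rp6_1,
  G2Rp6_2, G2Rp6_3, G2Rp6_4, G2Rp6_5, G2Rp6_7, G2Rp6_8, G2Rp6_9, G2Rp8_7, G2Rp9_7, G2Rp9_8]⟩))
  (.node 3 (.leaf ⟨26080577809, 161018643028295485897049095,
  6799385587178475383178465313157289043302074977105782930686266906327253510839032610816, 395393,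
  [G2Rp0_1, G2Rp3_2, G2Rp4_2, G2Rp4_3, G2Rp5_2, G2Rp5_3, G2Rp5_4, G2Rp6_0, G2Rp6_1, G2Rp6_2,
  G2Rp6_3, G2Rp6_4, G2Rp6_5, G2Rp6_7, G2Rp6_8, G2Rp6_9, G2Rp8_7, G2Rp9_7, G2Rp9_8]⟩) (.leaf
  ⟨39217137169, 78582655049070617881156621,
  4826421317469082722730152829731564791893976673001432058187890077303569829542793838592, 592002,
  [G2Rp0_2, G2Rp0_3, G2Rp0_4, G2Rp0_5, G2Rp0_6, G2Rp1_0, G2Rp1_2, G2Rp1_3, G2Rp1_4, G2Rp1_5,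
  G2Rp1_6, G2Rp3_2, G2Rp4_2, G2Rp4_3, G2Rp5_2, G2Rp5_3, G2Rp5_4, G2Rp6_2, G2Rp6_3, G2Rp6_4, G2Rp6_5,
  G2Rp7_2, G2Rp7_3, G2Rp7_4, G2Rp7_5, G2Rp7_6, G2Rp7_8, G2Rp7_9, G2Rp8_2, G2Rp8_3, G2Rp8_4, G2Rp8_5,
  G2Rp8_6, G2Rp8_9, G2Rp9_2, G2Rp9_3, G2Rp9_4, G2Rp9_5, G2Rp9_6]⟩))) (.node 6 (.node 5 (.leaf
  ⟨39217333777, 78582655048777735471307876,
  4735357323619728336434820763236381300917623250363662245940389644904569227684174888960, 591938,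
  [G2Rp0_4, G2Rp0_5, G2Rp0_6, G2Rp1_0, G2Rp1_4, G2Rp1_5, G2Rp1_6, G2Rp2_3, G2Rp2_4, G2Rp2_5,
  G2Rp3_4, G2Rp3_5, G2Rp5_4, G2Rp6_4, G2Rp6_5, G2Rp7_4, G2Rp7_5, G2Rp7_6, G2Rp7_8, G2Rp7_9, G2Rp8_4,
  G2Rp8_5, G2Rp8_6, G2Rp8_9, G2Rp9_4, G2Rp9_5, G2Rp9_6]⟩) (.leaf ⟨26332235281,
  161016287944380704063006736,
  7740380190288494810421310661401833510218640922231952264275594420932359805896880816128, 395394,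
  [G2Rp0_2, G2Rp0_3, G2Rp0_4, G2Rp0_5, G2Rp0_6, G2Rp0_7, G2Rp0_8, G2Rp0_9, G2Rp1_0, G2Rp1_2,
  G2Rp1_3, G2Rp1_4, G2Rp1_5, G2Rp1_6, G2Rp1_7, G2Rp1_8, G2Rp1_9, G2Rp3_2, G2Rp4_2, G2Rp4_3, G2Rp5_2,
  G2Rp5_3, G2Rp5_4, G2Rp6_2, G2Rp6_3, G2Rp6_4, G2Rp6_5, G2Rp7_2, G2Rp7_3, G2Rp7_4, G2Rp7_5, G2Rp7_6,
  G2Rp8_2, G2Rp8_3, G2Rp8_4, G2Rp8_5, G2Rp8_6, G2Rp8_7, G2Rp9_2, G2Rp9_3, G2Rp9_4, G2Rp9_5, G2Rp9_6,
  G2Rp9_7, G2Rp9_8]⟩)) (.node 7 (.leaf ⟨39212942881, 78582654786518030126090343,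
  4371101348222310791253492497265991909903295524228047001266158263070665496944068788224, 590978,
  [G2Rp0_6, G2Rp1_0, G2Rp1_6, G2Rp3_2, G2Rp4_2, G2Rp4_3, G2Rp4_5, G2Rp4_6, G2Rp5_2, G2Rp5_3,
  G2Rp5_6, G2Rp7_6, G2Rp7_8, G2Rp7_9, G2Rp8_6, G2Rp8_9, G2Rp9_6]⟩) (.leaf ⟨39213139489,
  78582654897907147954394311,
  4371101348222310791253492497264842520711856570884414987950109343774701305020771467264, 590914,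
  [G2Rp0_6, G2Rp1_0, G2Rp1_6, G2Rp2_3, G2Rp2_4, G2Rp2_5, G2Rp2_6, G2Rp3_4, G2Rp3_5, G2Rp3_6,
  G2Rp4_5, G2Rp4_6, G2Rp5_6, G2Rp7_6, G2Rp7_8, G2Rp7_9, G2Rp8_6, G2Rp8_9, G2Rp9_6]⟩)))) (.node 12
  (.node 10 (.node 9 (.leaf ⟨38965479697, 198385659096086716640920586,
  3908192712821425967292280116382569377376096717966925083096470621290372421811160481792, 592001,
  [G2Rp0_1, G2Rp3_2, G2Rp4_2, G2Rp4_3, G2Rp5_2, G2Rp5_3, G2Rp5_4, G2Rp6_0, G2Rp6_1, G2Rp6_2,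
  G2Rp6_3, G2Rp6_4, G2Rp6_5, G2Rp6_7, G2Rp6_8, G2Rp6_9, G2Rp7_0, G2Rp7_1, G2Rp7_8, G2Rp7_9, G2Rp8_0,
  G2Rp8_1, G2Rp8_9, G2Rp9_0, G2Rp9_1]⟩) (.leaf ⟨26328040993, 161016287570255070800152679,
  7285060221041722878944650328936260628227959773458567207353862606699455473298155765760, 394370,
  [G2Rp0_6, G2Rp0_7, G2Rp0_8, G2Rp0_9, G2Rp1_0, G2Rp1_6, G2Rp1_7, G2Rp1_8, G2Rp1_9, G2Rp3_2,
  G2Rp4_2, G2Rp4_3, G2Rp4_5, G2Rp4_6, G2Rp5_2, G2Rp5_3, G2Rp5_6, G2Rp7_6, G2Rp8_6, G2Rp8_7, G2Rp9_6,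
  G2Rp9_7, G2Rp9_8]⟩)) (.node 11 (.leaf ⟨26328237601, 161016287681644188628456647,
  7285060221041722878944650328935111239036520820114935194037813687403491281374858444800, 394306,
  [G2Rp0_6, G2Rp0_7, G2Rp0_8, G2Rp0_9, G2Rp1_0, G2Rp1_6, G2Rp1_7, G2Rp1_8, G2Rp1_9, G2Rp2_3,
  G2Rp2_4, G2Rp2_5, G2Rp2_6, G2Rp3_4, G2Rp3_5, G2Rp3_6, G2Rp4_5, G2Rp4_6, G2Rp5_6, G2Rp7_6, G2Rp8_6,
  G2Rp8_7, G2Rp9_6, G2Rp9_7, G2Rp9_8]⟩) (.leaf ⟨26332431889, 161016287943978866922793060,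
  7649316196439140424125978594906650019242287499594182452028093988533359204038261866496, 395330,
  [G2Rp0_4, G2Rp0_5, G2Rp0_6, G2Rp0_7, G2Rp0_8, G2Rp0_9, G2Rp1_0, G2Rp1_4, G2Rp1_5, G2Rp1_6,
  G2Rp1_7, G2Rp1_8, G2Rp1_9, G2Rp2_3, G2Rp2_4, G2Rp2_5, G2Rp3_4, G2Rp3_5, G2Rp5_4, G2Rp6_4, G2Rp6_5,
  G2Rp7_4, G2Rp7_5, G2Rp7_6, G2Rp8_4, G2Rp8_5, G2Rp8_6, G2Rp8_7, G2Rp9_4, G2Rp9_5, G2Rp9_6, G2Rp9_7,
  G2Rp9_8]⟩))) (.node 14 (.node 13 (.leaf ⟨38965498136, 198385659096090047119623334,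
  3893015380513200236243058105300421925277838295561496836793943831497097689686776610830, 592021,
  [G2Rp2_3, G2Rp4_1, G2Rp4_2, G2Rp4_3, G2Rp5_1, G2Rp5_2, G2Rp5_3, G2Rp5_4, G2Rp6_0, G2Rp6_1,
  G2Rp6_2, G2Rp6_3, G2Rp6_4, G2Rp6_5, G2Rp6_7, G2Rp6_8, G2Rp6_9, G2Rp7_0, G2Rp7_8, G2Rp7_9, G2Rp8_0,
  G2Rp8_9, G2Rp9_0]⟩) (.leaf ⟨26080596248, 161018643028298819697640614,
  6799385587178475329257749214023336945039261901702073823468399217816475196671658950670, 395413,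
  [G2Rp2_3, G2Rp4_1, G2Rp4_2, G2Rp4_3, G2Rp5_1, G2Rp5_2, G2Rp5_3, G2Rp5_4, G2Rp6_0, G2Rp6_1,
  G2Rp6_2, G2Rp6_3, G2Rp6_4, G2Rp6_5, G2Rp6_7, G2Rp6_8, G2Rp6_9, G2Rp8_7, G2Rp9_7, G2Rp9_8]⟩))
  (.node 15 (.leaf ⟨26080600344, 200952192645474901580317862,
  6799385587178475329257749214023145380173605789442576204454749999914054598561066909708, 395417,
  [G2Rp1_0, G2Rp1_2, G2Rp1_3, G2Rp1_7, G2Rp1_8, G2Rp1_9, G2Rp2_3, G2Rp4_2, G2Rp4_3, G2Rp5_2,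
  G2Rp5_3, G2Rp5_4, G2Rp6_0, G2Rp6_2, G2Rp6_3, G2Rp6_4, G2Rp6_5, G2Rp6_7, G2Rp6_8, G2Rp6_9, G2Rp8_7,
  G2Rp9_7, G2Rp9_8]⟩) (.leaf ⟨38965502232, 238319208713266129002300582,
  3893015380513200236243058105300230360412182183301999217780294613594677091576184569868, 592025,
  [G2Rp1_0, G2Rp1_2, G2Rp1_3, G2Rp1_7, G2Rp1_8, G2Rp1_9, G2Rp2_3, G2Rp4_2, G2Rp4_3, G2Rp5_2,
  G2Rp5_3, G2Rp5_4, G2Rp6_0, G2Rp6_2, G2Rp6_3, G2Rp6_4, G2Rp6_5, G2Rp6_7, G2Rp6_8, G2Rp6_9, G2Rp7_0,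
  G2Rp7_8, G2Rp7_9, G2Rp8_0, G2Rp8_9, G2Rp9_0]⟩))))) (.node 24 (.node 20 (.node 18 (.node 17 (.leaf
  ⟨26080485649, 280819291879821413168710657,
  6799385587178475329257749214021995990979669115885590057311732896640497099136441451407, 395305,
  [G2Rp1_0, G2Rp1_7, G2Rp1_8, G2Rp1_9, G2Rp2_3, G2Rp5_4, G2Rp6_0, G2Rp6_4, G2Rp6_5, G2Rp6_7,
  G2Rp6_8, G2Rp6_9, G2Rp8_7, G2Rp9_7, G2Rp9_8]⟩) (.leaf ⟨38965387537, 318186307947612640590693377,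
  3893015380513200236243058105299080971218245509745013070637277510321119592151559111567, 591913,
  [G2Rp1_0, G2Rp1_7, G2Rp1_8, G2Rp1_9, G2Rp2_3, G2Rp5_4, G2Rp6_0, G2Rp6_4, G2Rp6_5, G2Rp6_7,
  G2Rp6_8, G2Rp6_9, G2Rp7_0, G2Rp7_8, G2Rp7_9, G2Rp8_0, G2Rp8_9, G2Rp9_0]⟩)) (.node 19 (.leaf
  ⟨26080479505, 161018643028511058895569927,
  6799385587178475706702761907961001632878953420000422069788532906806805456439075405836, 395297,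
  [G2Rp0_1, G2Rp0_2, G2Rp0_3, G2Rp1_2, G2Rp1_3, G2Rp2_3, G2Rp5_4, G2Rp6_0, G2Rp6_1, G2Rp6_2,
  G2Rp6_3, G2Rp6_4, G2Rp6_5, G2Rp6_7, G2Rp6_8, G2Rp6_9, G2Rp8_7, G2Rp9_7, G2Rp9_8]⟩) (.leaf
  ⟨26080463122, 161018643139859460433907810,
  6799385587178475383178465313156139654108138320563174745383837667775024958941743284274, 395281,
  [G2Rp0_1, G2Rp2_1, G2Rp2_4, G2Rp2_5, G2Rp3_1, G2Rp3_2, G2Rp3_4, G2Rp3_5, G2Rp5_4, G2Rp6_0,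
  G2Rp6_1, G2Rp6_4, G2Rp6_5, G2Rp6_7, G2Rp6_8, G2Rp6_9, G2Rp8_7, G2Rp9_7, G2Rp9_8]⟩))) (.node 22
  (.node 21 (.leaf ⟨26332136977, 161016287944368162758502401,
  7649316196439140424125978594906650019241217047490850140613782306259293513259826282508, 395298,
  [G2Rp0_4, G2Rp0_5, G2Rp0_6, G2Rp0_7, G2Rp0_8, G2Rp0_9, G2Rp1_0, G2Rp1_2, G2Rp1_3, G2Rp1_4,
  G2Rp1_5, G2Rp1_6, G2Rp1_7, G2Rp1_8, G2Rp1_9, G2Rp2_3, G2Rp5_4, G2Rp6_4, G2Rp6_5, G2Rp7_4, G2Rp7_5,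
  G2Rp7_6, G2Rp8_4, G2Rp8_5, G2Rp8_6, G2Rp8_7, G2Rp9_4, G2Rp9_5, G2Rp9_6, G2Rp9_7, G2Rp9_8]⟩) (.leaf
  ⟨26327942689, 161016287570361689068308580,
  7285060221041722878944650328936260628227692163155096911518016553018885558326172319756, 394274,
  [G2Rp0_6, G2Rp0_7, G2Rp0_8, G2Rp0_9, G2Rp1_0, G2Rp1_2, G2Rp1_3, G2Rp1_6, G2Rp1_7, G2Rp1_8,
  G2Rp1_9, G2Rp2_3, G2Rp4_2, G2Rp4_3, G2Rp4_5, G2Rp4_6, G2Rp5_2, G2Rp5_3, G2Rp5_6, G2Rp7_6, G2Rp8_6,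
  G2Rp8_7, G2Rp9_6, G2Rp9_7, G2Rp9_8]⟩)) (.node 23 (.leaf ⟨26076268834, 280819291840411591218661474,
  6799385587178475383178465313246845688127267245281860180265449227313899510971198603266, 394257,
  [G2Rp0_1, G2Rp2_1, G2Rp3_1, G2Rp3_2, G2Rp4_0, G2Rp4_1, G2Rp4_5, G2Rp4_6, G2Rp4_7, G2Rp4_8,
  G2Rp4_9, G2Rp5_0, G2Rp5_1, G2Rp5_6, G2Rp5_7, G2Rp5_8, G2Rp5_9, G2Rp6_0, G2Rp6_1, G2Rp6_7, G2Rp6_8,
  G2Rp6_9, G2Rp8_7, G2Rp9_7, G2Rp9_8]⟩) (.leaf ⟨26327926306, 280816936421777672861255778,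
  7285060221041722878944650328935111239034023427598500587900092807833095227453541974979, 394258,
  [G2Rp0_6, G2Rp0_7, G2Rp0_8, G2Rp0_9, G2Rp1_0, G2Rp1_6, G2Rp1_7, G2Rp1_8, G2Rp1_9, G2Rp2_0,
  G2Rp2_1, G2Rp2_6, G2Rp2_7, G2Rp2_8, G2Rp2_9, G2Rp3_0, G2Rp3_1, G2Rp3_2, G2Rp3_6, G2Rp3_7, G2Rp3_8,
  G2Rp3_9, G2Rp4_5, G2Rp4_6, G2Rp5_6, G2Rp7_6, G2Rp8_6, G2Rp8_7, G2Rp9_6, G2Rp9_7, G2Rp9_8]⟩))))
  (.node 28 (.node 26 (.node 25 (.leaf ⟨39217038865, 78582655049061478190750721,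
  4735357323619728336434820763236381300916552798260329934526077962630503536905739304972, 591906,
  [G2Rp0_4, G2Rp0_5, G2Rp0_6, G2Rp1_0, G2Rp1_2, G2Rp1_3, G2Rp1_4, G2Rp1_5, G2Rp1_6, G2Rp2_3,
  G2Rp5_4, G2Rp6_4, G2Rp6_5, G2Rp7_4, G2Rp7_5, G2Rp7_6, G2Rp7_8, G2Rp7_9, G2Rp8_4, G2Rp8_5, G2Rp8_6,
  G2Rp8_9, G2Rp9_4, G2Rp9_5, G2Rp9_6]⟩) (.leaf ⟨39212844577, 78582654786624648394246244,
  4371101348222310791253492497265991909903027913924576705430312209390095581972085342220, 590882,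
  [G2Rp0_6, G2Rp1_0, G2Rp1_2, G2Rp1_3, G2Rp1_6, G2Rp2_3, G2Rp4_2, G2Rp4_3, G2Rp4_5, G2Rp4_6,
  G2Rp5_2, G2Rp5_3, G2Rp5_6, G2Rp7_6, G2Rp7_8, G2Rp7_9, G2Rp8_6, G2Rp8_9, G2Rp9_6]⟩)) (.node 27
  (.leaf ⟨38961170722, 318186307908202821962532962,
  3908192712821425967292280116472126022201288986143002332675652942277018421943326474242, 590865,
  [G2Rp0_1, G2Rp2_1, G2Rp3_1, G2Rp3_2, G2Rp4_0, G2Rp4_1, G2Rp4_5, G2Rp4_6, G2Rp4_7, G2Rp4_8,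
  G2Rp4_9, G2Rp5_0, G2Rp5_1, G2Rp5_6, G2Rp5_7, G2Rp5_8, G2Rp5_9, G2Rp6_0, G2Rp6_1, G2Rp6_7, G2Rp6_8,
  G2Rp6_9, G2Rp7_0, G2Rp7_1, G2Rp7_8, G2Rp7_9, G2Rp8_0, G2Rp8_1, G2Rp8_9, G2Rp9_0, G2Rp9_1]⟩) (.leaf
  ⟨38944655494, 78585019577106455880270918,
  3908192712821425967292274473265427426784722508648666525773216924438918736920050532354, 599057,
  [G2Rp0_1, G2Rp2_1, G2Rp3_1, G2Rp3_2, G2Rp4_5, G2Rp6_1, G2Rp6_2, G2Rp6_3, G2Rp6_4, G2Rp6_5,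
  G2Rp7_0, G2Rp7_1, G2Rp7_8, G2Rp7_9, G2Rp8_0, G2Rp8_1, G2Rp8_9, G2Rp9_0, G2Rp9_1]⟩))) (.node 30
  (.node 29 (.leaf ⟨38965365010, 198385659207650691177779298,
  3908192712821425967292280116381419988182160061424316897794041382738143869913871155250, 591889,
  [G2Rp0_1, G2Rp2_1, G2Rp2_4, G2Rp2_5, G2Rp3_1, G2Rp3_2, G2Rp3_4, G2Rp3_5, G2Rp5_4, G2Rp6_0,
  G2Rp6_1, G2Rp6_4, G2Rp6_5, G2Rp6_7, G2Rp6_8, G2Rp6_9, G2Rp7_0, G2Rp7_1, G2Rp7_8, G2Rp7_9, G2Rp8_0,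
  G2Rp8_1, G2Rp8_9, G2Rp9_0, G2Rp9_1]⟩) (.leaf ⟨38965381393, 198385659096411244369806346,
  3999256706670780353587612182875454089965647242871879056706691229464902875153264541708, 591905,
  [G2Rp0_1, G2Rp0_2, G2Rp0_3, G2Rp1_2, G2Rp1_3, G2Rp2_3, G2Rp5_4, G2Rp6_0, G2Rp6_1, G2Rp6_2,
  G2Rp6_3, G2Rp6_4, G2Rp6_5, G2Rp6_7, G2Rp6_8, G2Rp6_9, G2Rp7_0, G2Rp7_1, G2Rp7_2, G2Rp7_3, G2Rp7_8,
  G2Rp7_9, G2Rp8_0, G2Rp8_1, G2Rp8_2, G2Rp8_3, G2Rp8_9, G2Rp9_0, G2Rp9_1, G2Rp9_2, G2Rp9_3]⟩))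
  (.node 31 (.leaf ⟨39212828194, 78586310700603472406153314,
  4371101348222310791253492497264842520709358873470327322666277995465493667524156325955, 590866,
  [G2Rp0_6, G2Rp1_0, G2Rp1_6, G2Rp2_0, G2Rp2_1, G2Rp2_6, G2Rp3_0, G2Rp3_1, G2Rp3_2, G2Rp3_6,
  G2Rp4_5, G2Rp4_6, G2Rp5_6, G2Rp7_6, G2Rp7_8, G2Rp7_9, G2Rp8_6, G2Rp8_9, G2Rp9_6]⟩) (.leaf
  ⟨38965367064, 198385659096081251026601126,
  3893015380513200236243058105299655665815213848565158735816520231588060124771978182662, 591893,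
  [G2Rp3_1, G2Rp3_2, G2Rp4_1, G2Rp4_2, G2Rp5_1, G2Rp5_2, G2Rp5_4, G2Rp6_0, G2Rp6_1, G2Rp6_2,
  G2Rp6_4, G2Rp6_5, G2Rp6_7, G2Rp6_8, G2Rp6_9, G2Rp7_0, G2Rp7_8, G2Rp7_9, G2Rp8_0, G2Rp8_9,
  G2Rp9_0]⟩)))))) (.node 48 (.node 40 (.node 36 (.node 34 (.node 33 (.leaf ⟨26080465176,
  161018643028290023604618406,
  6799385587178475329257749214022570685576637454705735722490975617907437631756860522502, 395285,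
  [G2Rp3_1, G2Rp3_2, G2Rp4_1, G2Rp4_2, G2Rp5_1, G2Rp5_2, G2Rp5_4, G2Rp6_0, G2Rp6_1, G2Rp6_2,
  G2Rp6_4, G2Rp6_5, G2Rp6_7, G2Rp6_8, G2Rp6_9, G2Rp8_7, G2Rp9_7, G2Rp9_8]⟩) (.leaf ⟨38965371160,
  238319208713257332909278374,
  3893015380513200236243058105299464100949557735625096382327168786644775611049498116100, 591897,
  [G2Rp1_0, G2Rp1_2, G2Rp1_7, G2Rp1_8, G2Rp1_9, G2Rp3_2, G2Rp4_2, G2Rp5_2, G2Rp5_4, G2Rp6_0,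
  G2Rp6_2, G2Rp6_4, G2Rp6_5, G2Rp6_7, G2Rp6_8, G2Rp6_9, G2Rp7_0, G2Rp7_8, G2Rp7_9, G2Rp8_0, G2Rp8_9,
  G2Rp9_0]⟩)) (.node 35 (.leaf ⟨39217022482, 78586311074718900826712162,
  4735357323619728336434820763236381300916552838754487172930880391157162533270854828147, 591890,
  [G2Rp0_4, G2Rp0_5, G2Rp0_6, G2Rp1_0, G2Rp1_4, G2Rp1_5, G2Rp1_6, G2Rp2_0, G2Rp2_1, G2Rp2_4,
  G2Rp2_5, G2Rp2_6, G2Rp3_0, G2Rp3_1, G2Rp3_2, G2Rp3_4, G2Rp3_5, G2Rp3_6, G2Rp5_4, G2Rp6_4, G2Rp6_5,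
  G2Rp7_4, G2Rp7_5, G2Rp7_6, G2Rp7_8, G2Rp7_9, G2Rp8_4, G2Rp8_5, G2Rp8_6, G2Rp8_9, G2Rp9_4, G2Rp9_5,
  G2Rp9_6]⟩) (.leaf ⟨26332120594, 280816936907462745175503970,
  7649316196439140424125978594906650019241217392882660438164695203524764093200240477171, 395282,
  [G2Rp0_4, G2Rp0_5, G2Rp0_6, G2Rp0_7, G2Rp0_8, G2Rp0_9, G2Rp1_0, G2Rp1_4, G2Rp1_5, G2Rp1_6,
  G2Rp1_7, G2Rp1_8, G2Rp1_9, G2Rp2_0, G2Rp2_1, G2Rp2_4, G2Rp2_5, G2Rp2_6, G2Rp2_7, G2Rp2_8, G2Rp2_9,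
  G2Rp3_0, G2Rp3_1, G2Rp3_2, G2Rp3_4, G2Rp3_5, G2Rp3_6, G2Rp3_7, G2Rp3_8, G2Rp3_9, G2Rp5_4, G2Rp6_4,
  G2Rp6_5, G2Rp7_4, G2Rp7_5, G2Rp7_6, G2Rp8_4, G2Rp8_5, G2Rp8_6, G2Rp8_7, G2Rp9_4, G2Rp9_5, G2Rp9_6,
  G2Rp9_7, G2Rp9_8]⟩))) (.node 38 (.node 37 (.leaf ⟨26080469272, 200952192645466105487295654,
  6799385587178475329257749214022379120710981341765673369001624172964153118034380455940, 395289,
  [G2Rp1_0, G2Rp1_2, G2Rp1_7, G2Rp1_8, G2Rp1_9, G2Rp3_2, G2Rp4_2, G2Rp5_2, G2Rp5_4, G2Rp6_0,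
  G2Rp6_2, G2Rp6_4, G2Rp6_5, G2Rp6_7, G2Rp6_8, G2Rp6_9, G2Rp8_7, G2Rp9_7, G2Rp9_8]⟩) (.leaf
  ⟨26059753606, 41218000050550714533938246,
  6799385587178475383178459670040147092710700767787524373363013209475799825947922661378, 402449,
  [G2Rp0_1, G2Rp2_1, G2Rp3_1, G2Rp3_2, G2Rp4_5, G2Rp6_1, G2Rp6_2, G2Rp6_3, G2Rp6_4, G2Rp6_5,
  G2Rp8_7, G2Rp9_7, G2Rp9_8]⟩)) (.node 39 (.leaf ⟨26059757700, 41218000050550708091487296,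
  6799385587178475329257743583460206900355548506986012171154353510591646709012928135230, 402453,
  [G2Rp3_2, G2Rp4_5, G2Rp6_2, G2Rp6_3, G2Rp6_4, G2Rp6_5, G2Rp8_7, G2Rp9_7, G2Rp9_8]⟩) (.leaf
  ⟨26059493922, 41225083451897986554202408,
  7307826219504035513089842879492497500144366099952999284492240439689648678531030319104, 394261,
  [G2Rp3_2, G2Rp4_5, G2Rp4_6, G2Rp5_6, G2Rp7_0, G2Rp7_1, G2Rp7_6, G2Rp8_0, G2Rp8_1, G2Rp8_6,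
  G2Rp8_7, G2Rp9_0, G2Rp9_1, G2Rp9_6, G2Rp9_7, G2Rp9_8]⟩)))) (.node 44 (.node 42 (.node 41 (.leaf
  ⟨38944659588, 78585019577106449437819968,
  3893015380513200236243052474737291880594124900845435184479898124272269202028045795390, 599061,
  [G2Rp3_2, G2Rp4_5, G2Rp6_2, G2Rp6_3, G2Rp6_4, G2Rp6_5, G2Rp7_0, G2Rp7_8, G2Rp7_9, G2Rp8_0,
  G2Rp8_9, G2Rp9_0]⟩) (.leaf ⟨38944395810, 78588557744827061742274856,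
  4393867346684647581510898814795484803465219820311562728275455502729022962567642873856, 590869,
  [G2Rp3_2, G2Rp4_5, G2Rp4_6, G2Rp5_6, G2Rp7_0, G2Rp7_1, G2Rp7_6, G2Rp7_8, G2Rp7_9, G2Rp8_0,
  G2Rp8_1, G2Rp8_6, G2Rp8_9, G2Rp9_0, G2Rp9_1, G2Rp9_6]⟩)) (.node 43 (.leaf ⟨38966206745,
  318186308056790777974490177,
  3893015380513200236243058105297548522446680857211582926149000330046046422121437463483, 592201,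
  [G2Rp1_0, G2Rp1_7, G2Rp1_8, G2Rp1_9, G2Rp2_0, G2Rp2_1, G2Rp2_3, G2Rp2_4, G2Rp2_5, G2Rp2_7,
  G2Rp2_8, G2Rp2_9, G2Rp4_5, G2Rp6_0, G2Rp6_3, G2Rp6_4, G2Rp6_5, G2Rp6_7, G2Rp6_8, G2Rp6_9, G2Rp7_0,
  G2Rp7_8, G2Rp7_9, G2Rp8_0, G2Rp8_9, G2Rp9_0]⟩) (.leaf ⟨26081304857, 280819291988999550552507457,
  6799385587178475329257749214020463542208104463352159912823455716365423929106319803323, 395593,
  [G2Rp1_0, G2Rp1_7, G2Rp1_8, G2Rp1_9, G2Rp2_0, G2Rp2_1, G2Rp2_3, G2Rp2_4, G2Rp2_5, G2Rp2_7,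
  G2Rp2_8, G2Rp2_9, G2Rp4_5, G2Rp6_0, G2Rp6_3, G2Rp6_4, G2Rp6_5, G2Rp6_7, G2Rp6_8, G2Rp6_9, G2Rp8_7,
  G2Rp9_7, G2Rp9_8]⟩))) (.node 46 (.node 45 (.leaf ⟨38965676305, 198385659207475834469224554,
  3908192712821425967292280116381419988183230495152183319960355525400754529653524267008, 591937,
  [G2Rp0_1, G2Rp2_3, G2Rp2_4, G2Rp2_5, G2Rp3_4, G2Rp3_5, G2Rp5_4, G2Rp6_0, G2Rp6_1, G2Rp6_4,
  G2Rp6_5, G2Rp6_7, G2Rp6_8, G2Rp6_9, G2Rp7_0, G2Rp7_1, G2Rp7_8, G2Rp7_9, G2Rp8_0, G2Rp8_1, G2Rp8_9,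
  G2Rp9_0, G2Rp9_1]⟩) (.leaf ⟨26080774417, 161018643139684603725353063,
  6799385587178475383178465313156139654109208754291041167550151810437635618681396396032, 395329,
  [G2Rp0_1, G2Rp2_3, G2Rp2_4, G2Rp2_5, G2Rp3_4, G2Rp3_5, G2Rp5_4, G2Rp6_0, G2Rp6_1, G2Rp6_4,
  G2Rp6_5, G2Rp6_7, G2Rp6_8, G2Rp6_9, G2Rp8_7, G2Rp9_7, G2Rp9_8]⟩)) (.node 47 (.leaf ⟨38966284568,
  198385659316833392769631299,
  3893015380513200236243058105297548522446502467578880347425432123060327572479351324734, 592277,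
  [G2Rp2_3, G2Rp2_4, G2Rp2_5, G2Rp3_4, G2Rp3_5, G2Rp4_5, G2Rp6_0, G2Rp6_1, G2Rp6_2, G2Rp6_3,
  G2Rp6_4, G2Rp6_5, G2Rp6_7, G2Rp6_8, G2Rp6_9, G2Rp7_0, G2Rp7_8, G2Rp7_9, G2Rp8_0, G2Rp8_9,
  G2Rp9_0]⟩) (.leaf ⟨26081382680, 161018643249042165347648579,
  6799385587178475329257749214020463542207926073719457334099887509379705079464233664574, 395669,
  [G2Rp2_3, G2Rp2_4, G2Rp2_5, G2Rp3_4, G2Rp3_5, G2Rp4_5, G2Rp6_0, G2Rp6_1, G2Rp6_2, G2Rp6_3,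
  G2Rp6_4, G2Rp6_5, G2Rp6_7, G2Rp6_8, G2Rp6_9, G2Rp8_7, G2Rp9_7, G2Rp9_8]⟩))))) (.node 56 (.node 52
  (.node 50 (.node 49 (.leaf ⟨38966288664, 238319208934009477873534019,
  3893015380513200236243058105297548522446502467578880423246781231359658857284018896956, 592281,
  [G2Rp1_0, G2Rp1_2, G2Rp1_3, G2Rp1_4, G2Rp1_5, G2Rp1_7, G2Rp1_8, G2Rp1_9, G2Rp2_3, G2Rp2_4,
  G2Rp2_5, G2Rp3_4, G2Rp3_5, G2Rp4_5, G2Rp6_0, G2Rp6_2, G2Rp6_3, G2Rp6_4, G2Rp6_5, G2Rp6_7, G2Rp6_8,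
  G2Rp6_9, G2Rp7_0, G2Rp7_8, G2Rp7_9, G2Rp8_0, G2Rp8_9, G2Rp9_0]⟩) (.leaf ⟨38944704646,
  78585019688677163852104771,
  3908192712821425967292274473265427426784410312508026891759011770536775818795009572926, 599105,
  [G2Rp0_1, G2Rp2_3, G2Rp2_4, G2Rp2_5, G2Rp3_4, G2Rp3_5, G2Rp4_5, G2Rp6_1, G2Rp6_2, G2Rp6_3,
  G2Rp6_4, G2Rp6_5, G2Rp7_0, G2Rp7_1, G2Rp7_8, G2Rp7_9, G2Rp8_0, G2Rp8_1, G2Rp8_9, G2Rp9_0,
  G2Rp9_1]⟩)) (.node 51 (.leaf ⟨26081386776, 200952192866218250451551299,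
  6799385587178475329257749214020463542207926073719457409921236617679036364268901236796, 395673,
  [G2Rp1_0, G2Rp1_2, G2Rp1_3, G2Rp1_4, G2Rp1_5, G2Rp1_7, G2Rp1_8, G2Rp1_9, G2Rp2_3, G2Rp2_4,
  G2Rp2_5, G2Rp3_4, G2Rp3_5, G2Rp4_5, G2Rp6_0, G2Rp6_2, G2Rp6_3, G2Rp6_4, G2Rp6_5, G2Rp6_7, G2Rp6_8,
  G2Rp6_9, G2Rp8_7, G2Rp9_7, G2Rp9_8]⟩) (.leaf ⟨26059802758, 41218000162121420358288451,
  6799385587178475383178459670040147092710388571646884739348808055573656907822881701950, 402497,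
  [G2Rp0_1, G2Rp2_3, G2Rp2_4, G2Rp2_5, G2Rp3_4, G2Rp3_5, G2Rp4_5, G2Rp6_1, G2Rp6_2, G2Rp6_3,
  G2Rp6_4, G2Rp6_5, G2Rp8_7, G2Rp9_7, G2Rp9_8]⟩))) (.node 54 (.node 53 (.leaf ⟨38944662052,
  78588557893204086810187841,
  4378690014376421904381570138014425375838100753451603874696040526769316744364864307324, 590873,
  [G2Rp1_0, G2Rp1_2, G2Rp1_3, G2Rp1_4, G2Rp1_5, G2Rp1_6, G2Rp3_2, G2Rp4_5, G2Rp4_6, G2Rp5_6,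
  G2Rp7_0, G2Rp7_6, G2Rp7_8, G2Rp7_9, G2Rp8_0, G2Rp8_6, G2Rp8_9, G2Rp9_0, G2Rp9_6]⟩) (.leaf
  ⟨38966272281, 358119857711152386058224738,
  3893015380513200236243058105297548522446502774858484084601478519348086407036151006131, 592265,
  [G2Rp1_0, G2Rp1_7, G2Rp1_8, G2Rp1_9, G2Rp2_0, G2Rp2_1, G2Rp2_4, G2Rp2_5, G2Rp2_7, G2Rp2_8,
  G2Rp2_9, G2Rp3_0, G2Rp3_1, G2Rp3_2, G2Rp3_4, G2Rp3_5, G2Rp3_7, G2Rp3_8, G2Rp3_9, G2Rp4_5, G2Rp6_0,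
  G2Rp6_4, G2Rp6_5, G2Rp6_7, G2Rp6_8, G2Rp6_9, G2Rp7_0, G2Rp7_8, G2Rp7_9, G2Rp8_0, G2Rp8_9,
  G2Rp9_0]⟩)) (.node 55 (.leaf ⟨26081370393, 320752841643361158636242018,
  6799385587178475329257749214020463542207926380999061071275933905667463914021033345971, 395657,
  [G2Rp1_0, G2Rp1_7, G2Rp1_8, G2Rp1_9, G2Rp2_0, G2Rp2_1, G2Rp2_4, G2Rp2_5, G2Rp2_7, G2Rp2_8,
  G2Rp2_9, G2Rp3_0, G2Rp3_1, G2Rp3_2, G2Rp3_4, G2Rp3_5, G2Rp3_7, G2Rp3_8, G2Rp3_9, G2Rp4_5, G2Rp6_0,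
  G2Rp6_4, G2Rp6_5, G2Rp6_7, G2Rp6_8, G2Rp6_9, G2Rp8_7, G2Rp9_7, G2Rp9_8]⟩) (.leaf ⟨26059760164,
  41225083600275011622115393,
  7292648887195809835960514202711438072517247033093040430912825463729942460328251752572, 394265,
  [G2Rp1_0, G2Rp1_2, G2Rp1_3, G2Rp1_4, G2Rp1_5, G2Rp1_6, G2Rp3_2, G2Rp4_5, G2Rp4_6, G2Rp5_6,
  G2Rp7_0, G2Rp7_6, G2Rp8_0, G2Rp8_6, G2Rp8_7, G2Rp9_0, G2Rp9_6, G2Rp9_7, G2Rp9_8]⟩)))) (.node 60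
  (.node 58 (.node 57 (.leaf ⟨38966235416, 198385659205262686945281094,
  3893015380513200236243058105297548522446814663719519981439637276962470490604392284162, 592229,
  [G2Rp2_1, G2Rp3_1, G2Rp3_2, G2Rp4_5, G2Rp6_0, G2Rp6_1, G2Rp6_2, G2Rp6_3, G2Rp6_4, G2Rp6_5,
  G2Rp6_7, G2Rp6_8, G2Rp6_9, G2Rp7_0, G2Rp7_8, G2Rp7_9, G2Rp8_0, G2Rp8_9, G2Rp9_0]⟩) (.leaf
  ⟨26081333528, 161018643137471459523298374,
  6799385587178475329257749214020463542208238269860096968114092663281847997589274624002, 395621,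
  [G2Rp2_1, G2Rp3_1, G2Rp3_2, G2Rp4_5, G2Rp6_0, G2Rp6_1, G2Rp6_2, G2Rp6_3, G2Rp6_4, G2Rp6_5,
  G2Rp6_7, G2Rp6_8, G2Rp6_9, G2Rp8_7, G2Rp9_7, G2Rp9_8]⟩)) (.node 59 (.leaf ⟨38957818137,
  318186307876646792879670337,
  3893015380513200236243058105299847218989213672063707930731808889431571171027449283483, 590153,
  [G2Rp1_0, G2Rp1_7, G2Rp1_8, G2Rp1_9, G2Rp2_0, G2Rp2_1, G2Rp2_3, G2Rp2_4, G2Rp2_7, G2Rp2_8,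
  G2Rp2_9, G2Rp5_3, G2Rp5_4, G2Rp6_0, G2Rp6_3, G2Rp6_4, G2Rp6_7, G2Rp6_8, G2Rp6_9, G2Rp7_0, G2Rp7_8,
  G2Rp7_9, G2Rp8_0, G2Rp8_9, G2Rp9_0]⟩) (.leaf ⟨26072916249, 280819291808855565457687617,
  6799385587178475329257749214022762238750637278204284917406264275750948678012331623323, 393545,
  [G2Rp1_0, G2Rp1_7, G2Rp1_8, G2Rp1_9, G2Rp2_0, G2Rp2_1, G2Rp2_3, G2Rp2_4, G2Rp2_7, G2Rp2_8,
  G2Rp2_9, G2Rp5_3, G2Rp5_4, G2Rp6_0, G2Rp6_3, G2Rp6_4, G2Rp6_7, G2Rp6_8, G2Rp6_9, G2Rp8_7, G2Rp9_7,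
  G2Rp9_8]⟩))) (.node 62 (.node 61 (.leaf ⟨26325091857, 161016287535277200738920548,
  7285060221041722878944650328930513612107268248198737943217503010050577112328323465216, 393538,
  [G2Rp0_6, G2Rp0_7, G2Rp0_8, G2Rp0_9, G2Rp1_0, G2Rp1_6, G2Rp1_7, G2Rp1_8, G2Rp1_9, G2Rp2_3,
  G2Rp5_4, G2Rp7_6, G2Rp8_6, G2Rp8_7, G2Rp9_6, G2Rp9_7, G2Rp9_8]⟩) (.leaf ⟨26073434385,
  161018642953911119096320103,
  6799385587178475383178465313156139654108138302187708855185102177992384365775388934144, 393537,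
  [G2Rp0_1, G2Rp2_3, G2Rp5_4, G2Rp6_0, G2Rp6_1, G2Rp6_7, G2Rp6_8, G2Rp6_9, G2Rp8_7, G2Rp9_7,
  G2Rp9_8]⟩)) (.node 63 (.leaf ⟨39209993745, 78582654751540160064855140,
  4371101348222310791253492497260244893782603998968217737129798666421787135974236487680, 590146,
  [G2Rp0_6, G2Rp1_0, G2Rp1_6, G2Rp2_3, G2Rp5_4, G2Rp7_6, G2Rp7_8, G2Rp7_9, G2Rp8_6, G2Rp8_9,
  G2Rp9_6]⟩) (.leaf ⟨38958336273, 198385659021702349840191594,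
  3908192712821425967292280116381419988182160043048851007595305892955503276747516805120, 590145,
  [G2Rp0_1, G2Rp2_3, G2Rp5_4, G2Rp6_0, G2Rp6_1, G2Rp6_7, G2Rp6_8, G2Rp6_9, G2Rp7_0, G2Rp7_1,
  G2Rp7_8, G2Rp7_9, G2Rp8_0, G2Rp8_1, G2Rp8_9, G2Rp9_0, G2Rp9_1]⟩))))))

def G2RT2 : Tr :=
  .node 96 (.node 80 (.node 72 (.node 68 (.node 66 (.node 65 (.leaf ⟨38958338322,
  198385659021811295712189634,
  3893015380513200236243058105299080971218245509745013000520370610158641915668505559052, 590149,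
  [G2Rp1_2, G2Rp1_3, G2Rp2_3, G2Rp5_4, G2Rp6_0, G2Rp6_7, G2Rp6_8, G2Rp6_9, G2Rp7_0, G2Rp7_8,
  G2Rp7_9, G2Rp8_0, G2Rp8_9, G2Rp9_0]⟩) (.leaf ⟨26073436434, 161018642954020068290206914,
  6799385587178475329257749214021995990979669115885589987194825996478019422653387898892, 393541,
  [G2Rp1_2, G2Rp1_3, G2Rp2_3, G2Rp5_4, G2Rp6_0, G2Rp6_7, G2Rp6_8, G2Rp6_9, G2Rp8_7, G2Rp9_7,
  G2Rp9_8]⟩)) (.node 67 (.leaf ⟨26072998168, 200952192577987874299839555,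
  6799385587178475329257749214023145362635675349897136257255500723076019557145469779996, 393625,
  [G2Rp1_0, G2Rp1_2, G2Rp1_3, G2Rp1_4, G2Rp1_7, G2Rp1_8, G2Rp1_9, G2Rp2_3, G2Rp2_4, G2Rp3_4,
  G2Rp5_2, G2Rp5_3, G2Rp5_4, G2Rp6_0, G2Rp6_2, G2Rp6_3, G2Rp6_4, G2Rp6_7, G2Rp6_8, G2Rp6_9, G2Rp8_7,
  G2Rp9_7, G2Rp9_8]⟩) (.leaf ⟨38957900056, 238319208645779101721822275,
  3893015380513200236243058105300230342874251743756559270581045336756642050160587440156, 590233,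
  [G2Rp1_0, G2Rp1_2, G2Rp1_3, G2Rp1_4, G2Rp1_7, G2Rp1_8, G2Rp1_9, G2Rp2_3, G2Rp2_4, G2Rp3_4,
  G2Rp5_2, G2Rp5_3, G2Rp5_4, G2Rp6_0, G2Rp6_2, G2Rp6_3, G2Rp6_4, G2Rp6_7, G2Rp6_8, G2Rp6_9, G2Rp7_0,
  G2Rp7_8, G2Rp7_9, G2Rp8_0, G2Rp8_9, G2Rp9_0]⟩))) (.node 70 (.node 69 (.leaf ⟨38957895960,
  198385659028603016617919555,
  3893015380513200236243058105300421904816859979863853990673391217561721910739599228958, 590229,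
  [G2Rp2_3, G2Rp2_4, G2Rp3_4, G2Rp5_1, G2Rp5_2, G2Rp5_3, G2Rp5_4, G2Rp6_0, G2Rp6_1, G2Rp6_2,
  G2Rp6_3, G2Rp6_4, G2Rp6_7, G2Rp6_8, G2Rp6_9, G2Rp7_0, G2Rp7_8, G2Rp7_9, G2Rp8_0, G2Rp8_9,
  G2Rp9_0]⟩) (.leaf ⟨26072994072, 161018642960811789195936835,
  6799385587178475329257749214023336924578283586004430977347846603881099417724481568798, 393621,
  [G2Rp2_3, G2Rp2_4, G2Rp3_4, G2Rp5_1, G2Rp5_2, G2Rp5_3, G2Rp5_4, G2Rp6_0, G2Rp6_1, G2Rp6_2,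
  G2Rp6_3, G2Rp6_4, G2Rp6_7, G2Rp6_8, G2Rp6_9, G2Rp8_7, G2Rp9_7, G2Rp9_8]⟩)) (.node 71 (.leaf
  ⟨38941123096, 78588557723517728605805833,
  4591172666691581384192171612945809107382967873059762400136651549220616354083821584412, 590233,
  [G2Rp1_0, G2Rp1_2, G2Rp1_3, G2Rp1_4, G2Rp2_3, G2Rp2_4, G2Rp3_4, G2Rp5_2, G2Rp5_3, G2Rp5_4,
  G2Rp6_2, G2Rp6_3, G2Rp6_4, G2Rp7_0, G2Rp7_2, G2Rp7_3, G2Rp7_4, G2Rp7_6, G2Rp7_8, G2Rp7_9, G2Rp8_0,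
  G2Rp8_2, G2Rp8_3, G2Rp8_4, G2Rp8_6, G2Rp8_9, G2Rp9_0, G2Rp9_2, G2Rp9_3, G2Rp9_4, G2Rp9_6]⟩) (.leaf
  ⟨26056221208, 41225083430588653417733385,
  7505131539510969315771115677642821804062114152701198956353436486181242070047209029660, 393625,
  [G2Rp1_0, G2Rp1_2, G2Rp1_3, G2Rp1_4, G2Rp2_3, G2Rp2_4, G2Rp3_4, G2Rp5_2, G2Rp5_3, G2Rp5_4,
  G2Rp6_2, G2Rp6_3, G2Rp6_4, G2Rp7_0, G2Rp7_2, G2Rp7_3, G2Rp7_4, G2Rp7_6, G2Rp8_0, G2Rp8_2, G2Rp8_3,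
  G2Rp8_4, G2Rp8_6, G2Rp8_7, G2Rp9_0, G2Rp9_2, G2Rp9_3, G2Rp9_4, G2Rp9_6, G2Rp9_7, G2Rp9_8]⟩))))
  (.node 76 (.node 74 (.node 73 (.leaf ⟨26074171666, 161018643174656804429765730,
  6799385587178475383178465313154607205336395262063239250785395719989536459156647575602, 393745,
  [G2Rp0_1, G2Rp2_1, G2Rp2_4, G2Rp2_5, G2Rp3_1, G2Rp3_2, G2Rp3_4, G2Rp3_5, G2Rp4_5, G2Rp6_0,
  G2Rp6_1, G2Rp6_7, G2Rp6_8, G2Rp6_9, G2Rp8_7, G2Rp9_7, G2Rp9_8]⟩) (.leaf ⟨26073385234,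
  161018642953913455558532293,
  6799385587178475383178465313157480608167731090045855740153907428426306576364072861698, 393489,
  [G2Rp0_1, G2Rp2_1, G2Rp3_1, G2Rp3_2, G2Rp4_1, G2Rp4_2, G2Rp4_3, G2Rp5_1, G2Rp5_2, G2Rp5_3,
  G2Rp5_4, G2Rp6_0, G2Rp6_1, G2Rp6_7, G2Rp6_8, G2Rp6_9, G2Rp8_7, G2Rp9_7, G2Rp9_8]⟩)) (.node 75
  (.leaf ⟨26074188049, 161018643397806228339962887,
  6799385587178477000799948287178917099190470849085142276058069792247097895837224403004, 393761,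
  [G2Rp0_1, G2Rp0_2, G2Rp0_3, G2Rp0_4, G2Rp0_5, G2Rp1_2, G2Rp1_3, G2Rp1_4, G2Rp1_5, G2Rp2_3,
  G2Rp2_4, G2Rp2_5, G2Rp3_4, G2Rp3_5, G2Rp4_5, G2Rp6_0, G2Rp6_1, G2Rp6_2, G2Rp6_3, G2Rp6_4, G2Rp6_5,
  G2Rp6_7, G2Rp6_8, G2Rp6_9, G2Rp8_7, G2Rp9_7, G2Rp9_8]⟩) (.leaf ⟨26073401617,
  161018642953920190067249255,
  6799385587178475706702761907962151022072890093557408215980812059909174015984931700748, 393505,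
  [G2Rp0_1, G2Rp0_2, G2Rp0_3, G2Rp1_2, G2Rp1_3, G2Rp2_3, G2Rp4_2, G2Rp4_3, G2Rp5_2, G2Rp5_3,
  G2Rp5_4, G2Rp6_0, G2Rp6_1, G2Rp6_2, G2Rp6_3, G2Rp6_7, G2Rp6_8, G2Rp6_9, G2Rp8_7, G2Rp9_7,
  G2Rp9_8]⟩))) (.node 78 (.node 77 (.leaf ⟨38959073554, 198385659242448035173637218,
  3908192712821425967292280116379887539410417002924381403195599434952655370128775446578, 590353,
  [G2Rp0_1, G2Rp2_1, G2Rp2_4, G2Rp2_5, G2Rp3_1, G2Rp3_2, G2Rp3_4, G2Rp3_5, G2Rp4_5, G2Rp6_0,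
  G2Rp6_1, G2Rp6_7, G2Rp6_8, G2Rp6_9, G2Rp7_0, G2Rp7_1, G2Rp7_8, G2Rp7_9, G2Rp8_0, G2Rp8_1, G2Rp8_9,
  G2Rp9_0, G2Rp9_1]⟩) (.leaf ⟨38958287122, 198385659021704686302403781,
  3908192712821425967292280116382760942241752830906997892564111143389425487336200732674, 590097,
  [G2Rp0_1, G2Rp2_1, G2Rp3_1, G2Rp3_2, G2Rp4_1, G2Rp4_2, G2Rp4_3, G2Rp5_1, G2Rp5_2, G2Rp5_3,
  G2Rp5_4, G2Rp6_0, G2Rp6_1, G2Rp6_7, G2Rp6_8, G2Rp6_9, G2Rp7_0, G2Rp7_1, G2Rp7_8, G2Rp7_9, G2Rp8_0,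
  G2Rp8_1, G2Rp8_9, G2Rp9_0, G2Rp9_1]⟩)) (.node 79 (.leaf ⟨38958303505, 198385659021714822425219178,
  3999256706670780353587612182876603479159583916428865202898970382567271434699120836620, 590113,
  [G2Rp0_1, G2Rp0_2, G2Rp0_3, G2Rp1_2, G2Rp1_3, G2Rp2_3, G2Rp4_2, G2Rp4_3, G2Rp5_2, G2Rp5_3,
  G2Rp5_4, G2Rp6_0, G2Rp6_1, G2Rp6_2, G2Rp6_3, G2Rp6_7, G2Rp6_8, G2Rp6_9, G2Rp7_0, G2Rp7_1, G2Rp7_2,
  G2Rp7_3, G2Rp7_8, G2Rp7_9, G2Rp8_0, G2Rp8_1, G2Rp8_2, G2Rp8_3, G2Rp8_9, G2Rp9_0, G2Rp9_1, G2Rp9_2,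
  G2Rp9_3]⟩) (.leaf ⟨38959089937, 198385659577170504591622154,
  4363512682068197898768940448850058048327852999997858601008046545685109345519658598460, 590369,
  [G2Rp0_1, G2Rp0_2, G2Rp0_3, G2Rp0_4, G2Rp0_5, G2Rp1_2, G2Rp1_3, G2Rp1_4, G2Rp1_5, G2Rp2_3,
  G2Rp2_4, G2Rp2_5, G2Rp3_4, G2Rp3_5, G2Rp4_5, G2Rp6_0, G2Rp6_1, G2Rp6_2, G2Rp6_3, G2Rp6_4, G2Rp6_5,
  G2Rp6_7, G2Rp6_8, G2Rp6_9, G2Rp7_0, G2Rp7_1, G2Rp7_2, G2Rp7_3, G2Rp7_4, G2Rp7_5, G2Rp7_8, G2Rp7_9,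
  G2Rp8_0, G2Rp8_1, G2Rp8_2, G2Rp8_3, G2Rp8_4, G2Rp8_5, G2Rp8_9, G2Rp9_0, G2Rp9_1, G2Rp9_2, G2Rp9_3,
  G2Rp9_4, G2Rp9_5]⟩))))) (.node 88 (.node 84 (.node 82 (.node 81 (.leaf ⟨26072975641,
  161018642964289443710633223,
  6799385587178475814544194106229288959136248611333525174753578602459143905112392466448, 393601,
  [G2Rp0_1, G2Rp0_4, G2Rp1_4, G2Rp2_4, G2Rp3_2, G2Rp3_4, G2Rp5_4, G2Rp6_0, G2Rp6_1, G2Rp6_4,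
  G2Rp6_7, G2Rp6_8, G2Rp6_9, G2Rp8_7, G2Rp9_7, G2Rp9_8]⟩) (.leaf ⟨26324633113,
  161016287549138778190031202,
  7406478879507528727338426417589225747818941333358307375463252244777307995321408684048, 393602,
  [G2Rp0_4, G2Rp0_6, G2Rp0_7, G2Rp0_8, G2Rp0_9, G2Rp1_0, G2Rp1_4, G2Rp1_6, G2Rp1_7, G2Rp1_8,
  G2Rp1_9, G2Rp2_4, G2Rp3_2, G2Rp3_4, G2Rp5_4, G2Rp6_4, G2Rp7_4, G2Rp7_6, G2Rp8_4, G2Rp8_6, G2Rp8_7,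
  G2Rp9_4, G2Rp9_6, G2Rp9_7, G2Rp9_8]⟩)) (.node 83 (.leaf ⟨26072981785, 320752841427188376522458210,
  6799385587178475329257749214021995990980026240532971160875136479633191855549370598291, 393609,
  [G2Rp1_0, G2Rp1_7, G2Rp1_8, G2Rp1_9, G2Rp2_0, G2Rp2_1, G2Rp2_4, G2Rp2_7, G2Rp2_8, G2Rp2_9,
  G2Rp3_0, G2Rp3_1, G2Rp3_2, G2Rp3_4, G2Rp3_7, G2Rp3_8, G2Rp3_9, G2Rp5_4, G2Rp6_0, G2Rp6_4, G2Rp6_7,
  G2Rp6_8, G2Rp6_9, G2Rp8_7, G2Rp9_7, G2Rp9_8]⟩) (.leaf ⟨39209535001, 78582654761918484679171330,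
  4492520006688116639647268585918957029494277084127787169375547901148518018967321706512, 590210,
  [G2Rp0_4, G2Rp0_6, G2Rp1_0, G2Rp1_4, G2Rp1_6, G2Rp2_4, G2Rp3_2, G2Rp3_4, G2Rp5_4, G2Rp6_4,
  G2Rp7_4, G2Rp7_6, G2Rp7_8, G2Rp7_9, G2Rp8_4, G2Rp8_6, G2Rp8_9, G2Rp9_4, G2Rp9_6]⟩))) (.node 86
  (.node 85 (.leaf ⟨38957883673, 358119857494979603944440930,
  3893015380513200236243058105299080971218602634392394174200681093313814348564488258451, 590217,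
  [G2Rp1_0, G2Rp1_7, G2Rp1_8, G2Rp1_9, G2Rp2_0, G2Rp2_1, G2Rp2_4, G2Rp2_7, G2Rp2_8, G2Rp2_9,
  G2Rp3_0, G2Rp3_1, G2Rp3_2, G2Rp3_4, G2Rp3_7, G2Rp3_8, G2Rp3_9, G2Rp5_4, G2Rp6_0, G2Rp6_4, G2Rp6_7,
  G2Rp6_8, G2Rp6_9, G2Rp7_0, G2Rp7_8, G2Rp7_9, G2Rp8_0, G2Rp8_9, G2Rp9_0]⟩) (.leaf ⟨38957877529,
  198385659035563927291299178,
  4029611371287231815686056205040132123893833128208420439841055127682234159740602023952, 590209,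
  [G2Rp0_1, G2Rp0_4, G2Rp1_4, G2Rp2_4, G2Rp3_2, G2Rp3_4, G2Rp5_4, G2Rp6_0, G2Rp6_1, G2Rp6_4,
  G2Rp6_7, G2Rp6_8, G2Rp6_9, G2Rp7_0, G2Rp7_1, G2Rp7_4, G2Rp7_8, G2Rp7_9, G2Rp8_0, G2Rp8_1, G2Rp8_4,
  G2Rp8_9, G2Rp9_0, G2Rp9_1, G2Rp9_4]⟩)) (.node 87 (.leaf ⟨26073387282, 161018642953913450022051013,
  6799385587178475329257749214023145380173605790803664061745238267531864252288103088128, 393493,
  [G2Rp3_2, G2Rp4_2, G2Rp4_3, G2Rp5_2, G2Rp5_3, G2Rp5_4, G2Rp6_0, G2Rp6_7, G2Rp6_8, G2Rp6_9,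
  G2Rp8_7, G2Rp9_7, G2Rp9_8]⟩) (.leaf ⟨38958289170, 198385659021704677444033733,
  3893015380513200236243058105300230360412182184663087075070782881212486745303220748288, 590101,
  [G2Rp3_2, G2Rp4_2, G2Rp4_3, G2Rp5_2, G2Rp5_3, G2Rp5_4, G2Rp6_0, G2Rp6_7, G2Rp6_8, G2Rp6_9,
  G2Rp7_0, G2Rp7_8, G2Rp7_9, G2Rp8_0, G2Rp8_9, G2Rp9_0]⟩)))) (.node 92 (.node 90 (.node 89 (.leaf
  ⟨26325845521, 161016287756026218966984705,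
  7285060221041722878944650328928981163335525206032605295827006731089112999709585965116, 393762,
  [G2Rp0_6, G2Rp0_7, G2Rp0_8, G2Rp0_9, G2Rp1_0, G2Rp1_2, G2Rp1_3, G2Rp1_4, G2Rp1_5, G2Rp1_6,
  G2Rp1_7, G2Rp1_8, G2Rp1_9, G2Rp2_3, G2Rp2_4, G2Rp2_5, G2Rp3_4, G2Rp3_5, G2Rp4_5, G2Rp7_6, G2Rp8_6,
  G2Rp8_7, G2Rp9_6, G2Rp9_7, G2Rp9_8]⟩) (.leaf ⟨26325059089, 161016287535282870095751268,
  7285060221041722878944650328931663001301204921755724090360520113324131234001751638028, 393506,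
  [G2Rp0_6, G2Rp0_7, G2Rp0_8, G2Rp0_9, G2Rp1_0, G2Rp1_2, G2Rp1_3, G2Rp1_6, G2Rp1_7, G2Rp1_8,
  G2Rp1_9, G2Rp2_3, G2Rp4_2, G2Rp4_3, G2Rp5_2, G2Rp5_3, G2Rp5_4, G2Rp7_6, G2Rp8_6, G2Rp8_7, G2Rp9_6,
  G2Rp9_7, G2Rp9_8]⟩)) (.node 91 (.leaf ⟨39210747409, 78582654972289178292919297,
  4371101348222310791253492497258712445010860956802085089739302387460323023355498987580, 590370,
  [G2Rp0_6, G2Rp1_0, G2Rp1_2, G2Rp1_3, G2Rp1_4, G2Rp1_5, G2Rp1_6, G2Rp2_3, G2Rp2_4, G2Rp2_5,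
  G2Rp3_4, G2Rp3_5, G2Rp4_5, G2Rp7_6, G2Rp7_8, G2Rp7_9, G2Rp8_6, G2Rp8_9, G2Rp9_6]⟩) (.leaf
  ⟨26072949016, 200952192574503556311155782,
  6799385587178475329257749214023145362635942954756005604338944203872309863771191115776, 393577,
  [G2Rp1_0, G2Rp1_7, G2Rp1_8, G2Rp1_9, G2Rp3_2, G2Rp5_2, G2Rp5_3, G2Rp5_4, G2Rp6_0, G2Rp6_2,
  G2Rp6_3, G2Rp6_4, G2Rp6_7, G2Rp6_8, G2Rp6_9, G2Rp8_7, G2Rp9_7, G2Rp9_8]⟩))) (.node 94 (.node 93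
  (.leaf ⟨39209960977, 78582654751545829421685860,
  4371101348222310791253492497261394282976540672525203884272815769695341257647664660492, 590114,
  [G2Rp0_6, G2Rp1_0, G2Rp1_2, G2Rp1_3, G2Rp1_6, G2Rp2_3, G2Rp4_2, G2Rp4_3, G2Rp5_2, G2Rp5_3,
  G2Rp5_4, G2Rp7_6, G2Rp7_8, G2Rp7_9, G2Rp8_6, G2Rp8_9, G2Rp9_6]⟩) (.leaf ⟨38957850904,
  238319208642294783733138502,
  3893015380513200236243058105300230342874519348615428617664488817552932356786308775936, 590185,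
  [G2Rp1_0, G2Rp1_7, G2Rp1_8, G2Rp1_9, G2Rp3_2, G2Rp5_2, G2Rp5_3, G2Rp5_4, G2Rp6_0, G2Rp6_2,
  G2Rp6_3, G2Rp6_4, G2Rp6_7, G2Rp6_8, G2Rp6_9, G2Rp7_0, G2Rp7_8, G2Rp7_9, G2Rp8_0, G2Rp8_9,
  G2Rp9_0]⟩)) (.node 95 (.leaf ⟨26073407761, 400619940656973323604856932,
  6799385587178475329257749214109253787286028250086788322408925269662989110787221422991, 393513,
  [G2Rp1_0, G2Rp1_7, G2Rp1_8, G2Rp1_9, G2Rp2_3, G2Rp4_0, G2Rp4_1, G2Rp4_2, G2Rp4_3, G2Rp4_7,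
  G2Rp4_8, G2Rp4_9, G2Rp5_0, G2Rp5_1, G2Rp5_2, G2Rp5_3, G2Rp5_4, G2Rp5_7, G2Rp5_8, G2Rp5_9, G2Rp6_0,
  G2Rp6_7, G2Rp6_8, G2Rp6_9, G2Rp8_7, G2Rp9_7, G2Rp9_8]⟩) (.leaf ⟨38958309649,
  437986956724764551026839652,
  3893015380513200236243058105386338767524604643946211335734469883343611603802339083151, 590121,
  [G2Rp1_0, G2Rp1_7, G2Rp1_8, G2Rp1_9, G2Rp2_3, G2Rp4_0, G2Rp4_1, G2Rp4_2, G2Rp4_3, G2Rp4_7,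
  G2Rp4_8, G2Rp4_9, G2Rp5_0, G2Rp5_1, G2Rp5_2, G2Rp5_3, G2Rp5_4, G2Rp5_7, G2Rp5_8, G2Rp5_9, G2Rp6_0,
  G2Rp6_7, G2Rp6_8, G2Rp6_9, G2Rp7_0, G2Rp7_8, G2Rp7_9, G2Rp8_0, G2Rp8_9, G2Rp9_0]⟩)))))) (.node 112
  (.node 104 (.node 100 (.node 98 (.node 97 (.leaf ⟨26325042706, 400617585238336080037003461,
  7285060221041722878944650329023901484114623303761869777387579129087612355103212700611, 393490,
  [G2Rp0_6, G2Rp0_7, G2Rp0_8, G2Rp0_9, G2Rp1_0, G2Rp1_6, G2Rp1_7, G2Rp1_8, G2Rp1_9, G2Rp2_0,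
  G2Rp2_1, G2Rp2_6, G2Rp2_7, G2Rp2_8, G2Rp2_9, G2Rp3_0, G2Rp3_1, G2Rp3_2, G2Rp3_6, G2Rp3_7, G2Rp3_8,
  G2Rp3_9, G2Rp4_0, G2Rp4_1, G2Rp4_2, G2Rp4_3, G2Rp4_6, G2Rp4_7, G2Rp4_8, G2Rp4_9, G2Rp5_0, G2Rp5_1,
  G2Rp5_2, G2Rp5_3, G2Rp5_4, G2Rp5_6, G2Rp5_7, G2Rp5_8, G2Rp5_9, G2Rp7_6, G2Rp8_6, G2Rp8_7, G2Rp9_6,
  G2Rp9_7, G2Rp9_8]⟩) (.leaf ⟨39209944594, 78589966579724719800857797,
  4371101348222310791253492497267811705976020457378730929796920885075482860706628370499, 590098,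
  [G2Rp0_6, G2Rp1_0, G2Rp1_6, G2Rp2_0, G2Rp2_1, G2Rp2_6, G2Rp3_0, G2Rp3_1, G2Rp3_2, G2Rp3_6,
  G2Rp4_0, G2Rp4_1, G2Rp4_2, G2Rp4_3, G2Rp4_6, G2Rp5_0, G2Rp5_1, G2Rp5_2, G2Rp5_3, G2Rp5_4, G2Rp5_6,
  G2Rp7_6, G2Rp7_8, G2Rp7_9, G2Rp8_6, G2Rp8_9, G2Rp9_6]⟩)) (.node 99 (.leaf ⟨26072998180,
  440553490534299253044648097,
  6799385587178475329257749214021995991002170911141054716643005863768529820274318705661, 393625,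
  [G2Rp1_0, G2Rp1_2, G2Rp1_3, G2Rp1_4, G2Rp1_5, G2Rp1_6, G2Rp1_7, G2Rp1_8, G2Rp1_9, G2Rp2_0,
  G2Rp2_3, G2Rp2_4, G2Rp2_5, G2Rp2_6, G2Rp2_7, G2Rp2_8, G2Rp2_9, G2Rp3_0, G2Rp3_4, G2Rp3_5, G2Rp3_6,
  G2Rp3_7, G2Rp3_8, G2Rp3_9, G2Rp5_4, G2Rp6_0, G2Rp6_7, G2Rp6_8, G2Rp6_9, G2Rp8_7, G2Rp9_7,
  G2Rp9_8]⟩) (.leaf ⟨38963143044, 238319208824830103539257601,
  3893015380513200236243058105299080971218245509745013080461705063847477145419873517580, 599705,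
  [G2Rp1_0, G2Rp1_2, G2Rp1_3, G2Rp1_4, G2Rp1_5, G2Rp1_6, G2Rp1_7, G2Rp1_8, G2Rp1_9, G2Rp2_3,
  G2Rp5_4, G2Rp6_4, G2Rp6_5, G2Rp7_0, G2Rp7_8, G2Rp7_9, G2Rp8_0, G2Rp8_9, G2Rp9_0]⟩))) (.node 102
  (.node 101 (.leaf ⟨38959075602, 198385659242448026315267170,
  3893015380513200236243058105297548522446502468939968280537327527416810013211440971824, 590357,
  [G2Rp1_4, G2Rp1_5, G2Rp2_4, G2Rp2_5, G2Rp3_2, G2Rp3_4, G2Rp3_5, G2Rp4_5, G2Rp6_0, G2Rp6_7,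
  G2Rp6_8, G2Rp6_9, G2Rp7_0, G2Rp7_8, G2Rp7_9, G2Rp8_0, G2Rp8_9, G2Rp9_0]⟩) (.leaf ⟨26061445254,
  41217999941369271099065510,
  6799385587178475329257743583462122478858336181062560680656102730849032372845210238980, 403077,
  [G2Rp1_2, G2Rp3_2, G2Rp4_2, G2Rp5_2, G2Rp5_4, G2Rp6_2, G2Rp6_4, G2Rp6_5, G2Rp8_7, G2Rp9_7,
  G2Rp9_8]⟩)) (.node 103 (.leaf ⟨26056200742, 41225083565297492674415688,
  7338180884120486867348500233050018728479966892695052065108455711267376795513074745348, 393605,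
  [G2Rp1_2, G2Rp3_2, G2Rp3_4, G2Rp3_5, G2Rp3_6, G2Rp5_4, G2Rp7_0, G2Rp7_1, G2Rp7_2, G2Rp7_6,
  G2Rp8_0, G2Rp8_1, G2Rp8_2, G2Rp8_6, G2Rp8_7, G2Rp9_0, G2Rp9_1, G2Rp9_2, G2Rp9_6, G2Rp9_7,
  G2Rp9_8]⟩) (.leaf ⟨26072977702, 320752841571198112279694403,
  6799385587178475329257749214021995991002260115477697660339161917344989683821449641988, 393605,
  [G2Rp1_2, G2Rp3_0, G2Rp3_2, G2Rp3_4, G2Rp3_5, G2Rp3_6, G2Rp3_7, G2Rp3_8, G2Rp3_9, G2Rp5_4,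
  G2Rp6_0, G2Rp6_7, G2Rp6_8, G2Rp6_9, G2Rp8_7, G2Rp9_7, G2Rp9_8]⟩)))) (.node 108 (.node 106 (.node
  105 (.leaf ⟨38941106713, 78588557720022075124686082,
  4500108672842227321416199552258303169948012303210484280095277028297471559127387865107, 590217,
  [G2Rp1_0, G2Rp2_0, G2Rp2_1, G2Rp2_4, G2Rp3_0, G2Rp3_1, G2Rp3_2, G2Rp3_4, G2Rp5_4, G2Rp6_4,
  G2Rp7_0, G2Rp7_4, G2Rp7_6, G2Rp7_8, G2Rp7_9, G2Rp8_0, G2Rp8_4, G2Rp8_6, G2Rp8_9, G2Rp9_0, G2Rp9_4,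
  G2Rp9_6]⟩) (.leaf ⟨38946347142, 78585019467925012445398182,
  3893015380513200236243052474739207459096912574921983693981647344529654865860327899140, 599685,
  [G2Rp1_2, G2Rp3_2, G2Rp4_2, G2Rp5_2, G2Rp5_4, G2Rp6_2, G2Rp6_4, G2Rp6_5, G2Rp7_0, G2Rp7_8,
  G2Rp7_9, G2Rp8_0, G2Rp8_9, G2Rp9_0]⟩)) (.node 107 (.leaf ⟨38957879590,
  358119857638989339701677123,
  3893015380513200236243058105299080971240836509337120673664706531025612176836567302148, 590213,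
  [G2Rp1_2, G2Rp3_0, G2Rp3_2, G2Rp3_4, G2Rp3_5, G2Rp3_6, G2Rp3_7, G2Rp3_8, G2Rp3_9, G2Rp5_4,
  G2Rp6_0, G2Rp6_7, G2Rp6_8, G2Rp6_9, G2Rp7_0, G2Rp7_8, G2Rp7_9, G2Rp8_0, G2Rp8_9, G2Rp9_0]⟩) (.leaf
  ⟨26078241156, 200952192757038876117274881,
  6799385587178475329257749214021995990979669115885590067136160450166854652404755857420, 403097,
  [G2Rp1_0, G2Rp1_2, G2Rp1_3, G2Rp1_4, G2Rp1_5, G2Rp1_6, G2Rp1_7, G2Rp1_8, G2Rp1_9, G2Rp2_3,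
  G2Rp5_4, G2Rp6_4, G2Rp6_5, G2Rp8_7, G2Rp9_7, G2Rp9_8]⟩))) (.node 110 (.node 109 (.leaf
  ⟨26056172068, 41225083639572553631208579,
  7292648887195809835960514202706840445590492220863491873720156453837095753022719393904, 393577,
  [G2Rp1_0, G2Rp1_4, G2Rp1_5, G2Rp1_6, G2Rp2_4, G2Rp2_5, G2Rp2_6, G2Rp3_2, G2Rp3_4, G2Rp3_5,
  G2Rp3_6, G2Rp5_4, G2Rp7_0, G2Rp7_6, G2Rp8_0, G2Rp8_6, G2Rp8_7, G2Rp9_0, G2Rp9_6, G2Rp9_7,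
  G2Rp9_8]⟩) (.leaf ⟨26072949028, 400619940879825530241881219,
  6799385587178475329257749214021995991002438521444525012478851917449099735246302151665, 393577,
  [G2Rp1_0, G2Rp1_4, G2Rp1_5, G2Rp1_6, G2Rp1_7, G2Rp1_8, G2Rp1_9, G2Rp2_0, G2Rp2_4, G2Rp2_5,
  G2Rp2_6, G2Rp2_7, G2Rp2_8, G2Rp2_9, G2Rp3_0, G2Rp3_2, G2Rp3_4, G2Rp3_5, G2Rp3_6, G2Rp3_7, G2Rp3_8,
  G2Rp3_9, G2Rp5_4, G2Rp6_0, G2Rp6_7, G2Rp6_8, G2Rp6_9, G2Rp8_7, G2Rp9_7, G2Rp9_8]⟩)) (.node 111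
  (.leaf ⟨38959096081, 318186308093979628480240641,
  3893015380513200236243058105297548522446502467578880418493091480503781712915140117439, 590377,
  [G2Rp1_0, G2Rp1_7, G2Rp1_8, G2Rp1_9, G2Rp2_3, G2Rp2_4, G2Rp2_5, G2Rp3_4, G2Rp3_5, G2Rp4_5,
  G2Rp6_0, G2Rp6_7, G2Rp6_8, G2Rp6_9, G2Rp7_0, G2Rp7_8, G2Rp7_9, G2Rp8_0, G2Rp8_9, G2Rp9_0]⟩) (.leaf
  ⟨38941073956, 78588557932501628819281027,
  4378690014376421904381570138009827748911345941222055317503371516876470037059331948656, 590185,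
  [G2Rp1_0, G2Rp1_4, G2Rp1_5, G2Rp1_6, G2Rp2_4, G2Rp2_5, G2Rp2_6, G2Rp3_2, G2Rp3_4, G2Rp3_5,
  G2Rp3_6, G2Rp5_4, G2Rp7_0, G2Rp7_6, G2Rp7_8, G2Rp7_9, G2Rp8_0, G2Rp8_6, G2Rp8_9, G2Rp9_0,
  G2Rp9_6]⟩))))) (.node 120 (.node 116 (.node 114 (.node 113 (.leaf ⟨26074194193,
  280819292026188401058257921,
  6799385587178475329257749214020463542207926073719457405167546866823159219900022457279, 393769,
  [G2Rp1_0, G2Rp1_7, G2Rp1_8, G2Rp1_9, G2Rp2_3, G2Rp2_4, G2Rp2_5, G2Rp3_4, G2Rp3_5, G2Rp4_5,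
  G2Rp6_0, G2Rp6_7, G2Rp6_8, G2Rp6_9, G2Rp8_7, G2Rp9_7, G2Rp9_8]⟩) (.leaf ⟨38959194385,
  437986956833937190852497412,
  3893015380513200236243058105297548522466818737400542639829161640726304932814441612163, 590473,
  [G2Rp1_0, G2Rp1_7, G2Rp1_8, G2Rp1_9, G2Rp2_0, G2Rp2_1, G2Rp2_7, G2Rp2_8, G2Rp2_9, G2Rp3_0,
  G2Rp3_1, G2Rp3_2, G2Rp3_7, G2Rp3_8, G2Rp3_9, G2Rp4_5, G2Rp6_0, G2Rp6_7, G2Rp6_8, G2Rp6_9, G2Rp7_0,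
  G2Rp7_8, G2Rp7_9, G2Rp8_0, G2Rp8_9, G2Rp9_0]⟩)) (.node 115 (.leaf ⟨26074292497,
  400619940766145963430514692,
  6799385587178475329257749214020463542228242343541119626503617027045682439799323952003, 393865,
  [G2Rp1_0, G2Rp1_7, G2Rp1_8, G2Rp1_9, G2Rp2_0, G2Rp2_1, G2Rp2_7, G2Rp2_8, G2Rp2_9, G2Rp3_0,
  G2Rp3_1, G2Rp3_2, G2Rp3_7, G2Rp3_8, G2Rp3_9, G2Rp4_5, G2Rp6_0, G2Rp6_7, G2Rp6_8, G2Rp6_9, G2Rp8_7,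
  G2Rp9_7, G2Rp9_8]⟩) (.leaf ⟨26325943825, 161016287644455509921409028,
  7285060221041722878944650328928981163335792800002272745405645066116844089642783080448, 393858,
  [G2Rp0_6, G2Rp0_7, G2Rp0_8, G2Rp0_9, G2Rp1_0, G2Rp1_6, G2Rp1_7, G2Rp1_8, G2Rp1_9, G2Rp3_2,
  G2Rp4_5, G2Rp7_6, G2Rp8_6, G2Rp8_7, G2Rp9_6, G2Rp9_7, G2Rp9_8]⟩))) (.node 118 (.node 117 (.leaf
  ⟨26074286353, 161018643063089428278808583,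
  6799385587178475383178465313154607205336662853991243657373244234058651343089848549376, 393857,
  [G2Rp0_1, G2Rp3_2, G2Rp4_5, G2Rp6_0, G2Rp6_1, G2Rp6_7, G2Rp6_8, G2Rp6_9, G2Rp8_7, G2Rp9_7,
  G2Rp9_8]⟩) (.leaf ⟨39210845713, 78582654860718469247343620,
  4371101348222310791253492497258712445011128550771752539317940722488054113288696102912, 590466,
  [G2Rp0_6, G2Rp1_0, G2Rp1_6, G2Rp3_2, G2Rp4_5, G2Rp7_6, G2Rp7_8, G2Rp7_9, G2Rp8_6, G2Rp8_9,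
  G2Rp9_6]⟩)) (.node 119 (.leaf ⟨38959188241, 198385659130880659022680074,
  3908192712821425967292280116379887539410684594852385809783447949021770254061976420352, 590465,
  [G2Rp0_1, G2Rp3_2, G2Rp4_5, G2Rp6_0, G2Rp6_1, G2Rp6_7, G2Rp6_8, G2Rp6_9, G2Rp7_0, G2Rp7_1,
  G2Rp7_8, G2Rp7_9, G2Rp8_0, G2Rp8_1, G2Rp8_9, G2Rp9_0, G2Rp9_1]⟩) (.leaf ⟨38944528520,
  78585019536504752420424771,
  3893015380513200236243052474737291901054835611684208681298618707011936332973970685966, 599189,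
  [G2Rp2_3, G2Rp4_1, G2Rp4_2, G2Rp4_3, G2Rp4_5, G2Rp6_5, G2Rp7_0, G2Rp7_8, G2Rp7_9, G2Rp8_0,
  G2Rp8_9, G2Rp9_0]⟩)))) (.node 124 (.node 122 (.node 121 (.leaf ⟨38942085670,
  78588557852608063444552776,
  4484931340534001644286870875475711404621490547556777702067124806953433015831411556364, 590405,
  [G2Rp1_2, G2Rp1_3, G2Rp2_3, G2Rp4_2, G2Rp4_3, G2Rp4_5, G2Rp4_6, G2Rp7_0, G2Rp7_1, G2Rp7_2,
  G2Rp7_3, G2Rp7_6, G2Rp7_8, G2Rp7_9, G2Rp8_0, G2Rp8_1, G2Rp8_2, G2Rp8_3, G2Rp8_6, G2Rp8_9, G2Rp9_0,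
  G2Rp9_1, G2Rp9_2, G2Rp9_3, G2Rp9_6]⟩) (.leaf ⟨38958862630, 358119857633365337725602883,
  3893015380513200236243058105297549944508937387368610724453720577703469538337006354444, 590405,
  [G2Rp1_2, G2Rp1_3, G2Rp2_3, G2Rp4_0, G2Rp4_2, G2Rp4_3, G2Rp4_5, G2Rp4_6, G2Rp4_7, G2Rp4_8,
  G2Rp4_9, G2Rp6_0, G2Rp6_7, G2Rp6_8, G2Rp6_9, G2Rp7_0, G2Rp7_8, G2Rp7_9, G2Rp8_0, G2Rp8_9,
  G2Rp9_0]⟩)) (.node 123 (.leaf ⟨26059626632, 41218003468713524998442051,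
  6799385587178475329257743583460206920816259217824785667973074093331313839958853025806, 402581,
  [G2Rp2_3, G2Rp4_1, G2Rp4_2, G2Rp4_3, G2Rp4_5, G2Rp6_5, G2Rp8_7, G2Rp9_7, G2Rp9_8]⟩) (.leaf
  ⟨26057183782, 41225083559678988256480328,
  7398890213353389575865814940172724101300636827198214258283909743914058731794799001612, 393797,
  [G2Rp1_2, G2Rp1_3, G2Rp2_3, G2Rp4_2, G2Rp4_3, G2Rp4_5, G2Rp4_6, G2Rp7_0, G2Rp7_1, G2Rp7_2,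
  G2Rp7_3, G2Rp7_6, G2Rp8_0, G2Rp8_1, G2Rp8_2, G2Rp8_3, G2Rp8_6, G2Rp8_7, G2Rp9_0, G2Rp9_1, G2Rp9_2,
  G2Rp9_3, G2Rp9_6, G2Rp9_7, G2Rp9_8]⟩))) (.node 126 (.node 125 (.leaf ⟨26073960742,
  320752841565574110303620163,
  6799385587178475329257749214020464964270360993509187711128175964022847045321888694284, 393797,
  [G2Rp1_2, G2Rp1_3, G2Rp2_3, G2Rp4_0, G2Rp4_2, G2Rp4_3, G2Rp4_5, G2Rp4_6, G2Rp4_7, G2Rp4_8,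
  G2Rp4_9, G2Rp6_0, G2Rp6_7, G2Rp6_8, G2Rp6_9, G2Rp8_7, G2Rp9_7, G2Rp9_8]⟩) (.leaf ⟨26074046756,
  440553490525292053789907105,
  6799385587178475329257749214020464946732074074501516707152227297477307617294071956461, 393881,
  [G2Rp1_0, G2Rp1_2, G2Rp1_3, G2Rp1_5, G2Rp1_6, G2Rp1_7, G2Rp1_8, G2Rp1_9, G2Rp2_0, G2Rp2_3,
  G2Rp2_5, G2Rp2_6, G2Rp2_7, G2Rp2_8, G2Rp2_9, G2Rp3_0, G2Rp3_5, G2Rp3_6, G2Rp3_7, G2Rp3_8, G2Rp3_9,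
  G2Rp4_0, G2Rp4_5, G2Rp4_6, G2Rp4_7, G2Rp4_8, G2Rp4_9, G2Rp6_0, G2Rp6_7, G2Rp6_8, G2Rp6_9, G2Rp8_7,
  G2Rp9_7, G2Rp9_8]⟩)) (.node 127 (.leaf ⟨38958948632, 238319208673962917636343908,
  3893015380513200236243058105298697911639101080090151885793360522712829690100730036236, 590489,
  [G2Rp1_0, G2Rp1_2, G2Rp1_3, G2Rp1_7, G2Rp1_8, G2Rp1_9, G2Rp2_3, G2Rp4_2, G2Rp4_3, G2Rp4_5,
  G2Rp5_2, G2Rp5_3, G2Rp6_0, G2Rp6_2, G2Rp6_3, G2Rp6_7, G2Rp6_8, G2Rp6_9, G2Rp7_0, G2Rp7_8, G2Rp7_9,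
  G2Rp8_0, G2Rp8_9, G2Rp9_0]⟩) (.leaf ⟨26076406152, 200952192750074638186418243,
  6799385587178475329257749214020463559745856502375695467221700408767189661638671990796, 402585,
  [G2Rp1_0, G2Rp1_2, G2Rp1_3, G2Rp1_5, G2Rp1_6, G2Rp1_7, G2Rp1_8, G2Rp1_9, G2Rp2_3, G2Rp4_2,
  G2Rp4_3, G2Rp4_5, G2Rp6_5, G2Rp8_7, G2Rp9_7, G2Rp9_8]⟩))))))

def G2RT3 : Tr :=
  .node 160 (.node 144 (.node 136 (.node 132 (.node 130 (.node 129 (.leaf ⟨38961308040,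
  238319208817865865608400963,
  3893015380513200236243058105297548539984432896235118480547245022447812154653789650956, 599193,
  [G2Rp1_0, G2Rp1_2, G2Rp1_3, G2Rp1_5, G2Rp1_6, G2Rp1_7, G2Rp1_8, G2Rp1_9, G2Rp2_3, G2Rp4_2,
  G2Rp4_3, G2Rp4_5, G2Rp6_5, G2Rp7_0, G2Rp7_8, G2Rp7_9, G2Rp8_0, G2Rp8_9, G2Rp9_0]⟩) (.leaf
  ⟨26074173714, 161018643174656798893284450,
  6799385587178475329257749214020463542207926075080545267211782913736187520196323311664, 393749,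
  [G2Rp1_4, G2Rp1_5, G2Rp2_4, G2Rp2_5, G2Rp3_2, G2Rp3_4, G2Rp3_5, G2Rp4_5, G2Rp6_0, G2Rp6_7,
  G2Rp6_8, G2Rp6_9, G2Rp8_7, G2Rp9_7, G2Rp9_8]⟩)) (.node 131 (.leaf ⟨39210731026,
  78586310886376957035194466,
  4371101348222310791253492497258712445010860980962439481886897097334143194681828180083, 590354,
  [G2Rp0_6, G2Rp1_0, G2Rp1_6, G2Rp2_0, G2Rp2_1, G2Rp2_4, G2Rp2_5, G2Rp2_6, G2Rp3_0, G2Rp3_1,
  G2Rp3_2, G2Rp3_4, G2Rp3_5, G2Rp3_6, G2Rp4_5, G2Rp7_6, G2Rp7_8, G2Rp7_9, G2Rp8_6, G2Rp8_9,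
  G2Rp9_6]⟩) (.leaf ⟨26325829138, 280816936607551157490300002,
  7285060221041722878944650328928981163335525535090612747120711909701744754611213829107, 393746,
  [G2Rp0_6, G2Rp0_7, G2Rp0_8, G2Rp0_9, G2Rp1_0, G2Rp1_6, G2Rp1_7, G2Rp1_8, G2Rp1_9, G2Rp2_0,
  G2Rp2_1, G2Rp2_4, G2Rp2_5, G2Rp2_6, G2Rp2_7, G2Rp2_8, G2Rp2_9, G2Rp3_0, G2Rp3_1, G2Rp3_2, G2Rp3_4,
  G2Rp3_5, G2Rp3_6, G2Rp3_7, G2Rp3_8, G2Rp3_9, G2Rp4_5, G2Rp7_6, G2Rp8_6, G2Rp8_7, G2Rp9_6, G2Rp9_7,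
  G2Rp9_8]⟩))) (.node 134 (.node 133 (.leaf ⟨26074046744, 200952192606171690214361188,
  6799385587178475329257749214021612931400524686230728872467815909032207197085612376076, 393881,
  [G2Rp1_0, G2Rp1_2, G2Rp1_3, G2Rp1_7, G2Rp1_8, G2Rp1_9, G2Rp2_3, G2Rp4_2, G2Rp4_3, G2Rp4_5,
  G2Rp5_2, G2Rp5_3, G2Rp6_0, G2Rp6_2, G2Rp6_3, G2Rp6_7, G2Rp6_8, G2Rp6_9, G2Rp8_7, G2Rp9_7,
  G2Rp9_8]⟩) (.leaf ⟨26076275080, 200952192750069140628279363,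
  6799385587178475329257749214020463548053665010017007546752180567237087240323833528324, 402457,
  [G2Rp1_0, G2Rp1_2, G2Rp1_5, G2Rp1_6, G2Rp1_7, G2Rp1_8, G2Rp1_9, G2Rp3_2, G2Rp3_5, G2Rp4_2,
  G2Rp4_5, G2Rp6_5, G2Rp8_7, G2Rp9_7, G2Rp9_8]⟩)) (.node 135 (.leaf ⟨38961176968,
  238319208817860368050262083,
  3893015380513200236243058105297548528292241403876430560077725180917709733338951188484, 599065,
  [G2Rp1_0, G2Rp1_2, G2Rp1_5, G2Rp1_6, G2Rp1_7, G2Rp1_8, G2Rp1_9, G2Rp3_2, G2Rp3_5, G2Rp4_2,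
  G2Rp4_5, G2Rp6_5, G2Rp7_0, G2Rp7_8, G2Rp7_9, G2Rp8_0, G2Rp8_9, G2Rp9_0]⟩) (.leaf ⟨38946312740,
  78588557709646091267611845,
  4393867346684647581510898814798358206299053370549196398264677016786687420066852503618, 591461,
  [G2Rp2_1, G2Rp2_6, G2Rp3_1, G2Rp3_2, G2Rp3_6, G2Rp4_1, G2Rp4_2, G2Rp4_3, G2Rp4_6, G2Rp5_1,
  G2Rp5_2, G2Rp5_3, G2Rp5_4, G2Rp5_6, G2Rp7_0, G2Rp7_1, G2Rp7_6, G2Rp7_8, G2Rp7_9, G2Rp8_0, G2Rp8_1,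
  G2Rp8_6, G2Rp8_9, G2Rp9_0, G2Rp9_1, G2Rp9_6]⟩)))) (.node 140 (.node 138 (.node 137 (.leaf
  ⟨26061410852, 41225083416717016079539397,
  7307826219504035513089842879495370902978199650190632954481461953747313136030239948866, 394853,
  [G2Rp2_1, G2Rp2_6, G2Rp3_1, G2Rp3_2, G2Rp3_6, G2Rp4_1, G2Rp4_2, G2Rp4_3, G2Rp4_6, G2Rp5_1,
  G2Rp5_2, G2Rp5_3, G2Rp5_4, G2Rp5_6, G2Rp7_0, G2Rp7_1, G2Rp7_6, G2Rp8_0, G2Rp8_1, G2Rp8_6, G2Rp8_7,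
  G2Rp9_0, G2Rp9_1, G2Rp9_6, G2Rp9_7, G2Rp9_8]⟩) (.leaf ⟨38946316836, 78588557709646083751419077,
  4378690014376421904381570138017107213803512898344546933194381338806242595143342358592, 591465,
  [G2Rp1_0, G2Rp1_6, G2Rp2_6, G2Rp3_2, G2Rp3_6, G2Rp4_2, G2Rp4_3, G2Rp4_6, G2Rp5_2, G2Rp5_3,
  G2Rp5_4, G2Rp5_6, G2Rp7_0, G2Rp7_6, G2Rp7_8, G2Rp7_9, G2Rp8_0, G2Rp8_6, G2Rp8_9, G2Rp9_0,
  G2Rp9_6]⟩)) (.node 139 (.leaf ⟨26061414948, 41225083416717008563346629,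
  7292648887195809835960514202714119910482659177985983489411166275766868311106729803840, 394857,
  [G2Rp1_0, G2Rp1_6, G2Rp2_6, G2Rp3_2, G2Rp3_6, G2Rp4_2, G2Rp4_3, G2Rp4_6, G2Rp5_2, G2Rp5_3,
  G2Rp5_4, G2Rp5_6, G2Rp7_0, G2Rp7_6, G2Rp8_0, G2Rp8_6, G2Rp8_7, G2Rp9_0, G2Rp9_6, G2Rp9_7,
  G2Rp9_8]⟩) (.leaf ⟨26059837988, 41225083637460364950772834,
  7307826219504035513089842879492497500146863822208016465112950245310543018822814662770, 394341,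
  [G2Rp2_1, G2Rp2_4, G2Rp2_5, G2Rp2_6, G2Rp3_1, G2Rp3_2, G2Rp3_4, G2Rp3_5, G2Rp3_6, G2Rp4_5,
  G2Rp4_6, G2Rp5_6, G2Rp7_0, G2Rp7_1, G2Rp7_6, G2Rp8_0, G2Rp8_1, G2Rp8_6, G2Rp8_7, G2Rp9_0, G2Rp9_1,
  G2Rp9_6, G2Rp9_7, G2Rp9_8]⟩))) (.node 142 (.node 141 (.leaf ⟨26061378086,
  41225083416724884459556968,
  7398890213353389575865814940181535903891849669698528391231580231814085105051880914956, 394821,
  [G2Rp1_2, G2Rp1_3, G2Rp2_3, G2Rp4_2, G2Rp4_3, G2Rp4_6, G2Rp5_2, G2Rp5_3, G2Rp5_4, G2Rp5_6,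
  G2Rp7_0, G2Rp7_1, G2Rp7_2, G2Rp7_3, G2Rp7_6, G2Rp8_0, G2Rp8_1, G2Rp8_2, G2Rp8_3, G2Rp8_6, G2Rp8_7,
  G2Rp9_0, G2Rp9_1, G2Rp9_2, G2Rp9_3, G2Rp9_6, G2Rp9_7, G2Rp9_8]⟩) (.leaf ⟨38944739876,
  78588557930389440138845282,
  4393867346684647581510898814795484803467717542566579908896165308349917302859427217522, 590949,
  [G2Rp2_1, G2Rp2_4, G2Rp2_5, G2Rp2_6, G2Rp3_1, G2Rp3_2, G2Rp3_4, G2Rp3_5, G2Rp3_6, G2Rp4_5,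
  G2Rp4_6, G2Rp5_6, G2Rp7_0, G2Rp7_1, G2Rp7_6, G2Rp7_8, G2Rp7_9, G2Rp8_0, G2Rp8_1, G2Rp8_6, G2Rp8_9,
  G2Rp9_0, G2Rp9_1, G2Rp9_6]⟩)) (.node 143 (.leaf ⟨26059805218, 41225083897800804030462440,
  7763146188750805826969703182924280329043394598103653249767411775774004181752466112636, 394309,
  [G2Rp1_2, G2Rp1_3, G2Rp1_4, G2Rp1_5, G2Rp1_6, G2Rp2_3, G2Rp2_4, G2Rp2_5, G2Rp2_6, G2Rp3_4,
  G2Rp3_5, G2Rp3_6, G2Rp4_5, G2Rp4_6, G2Rp5_6, G2Rp7_0, G2Rp7_1, G2Rp7_2, G2Rp7_3, G2Rp7_4, G2Rp7_5,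
  G2Rp7_6, G2Rp8_0, G2Rp8_1, G2Rp8_2, G2Rp8_3, G2Rp8_4, G2Rp8_5, G2Rp8_6, G2Rp8_7, G2Rp9_0, G2Rp9_1,
  G2Rp9_2, G2Rp9_3, G2Rp9_4, G2Rp9_5, G2Rp9_6, G2Rp9_7, G2Rp9_8]⟩) (.leaf ⟨38944707106,
  78588558190729879218534888,
  4849187315931417895390759118227267632364248318462216693550626838813378465789078667388, 590917,
  [G2Rp1_2, G2Rp1_3, G2Rp1_4, G2Rp1_5, G2Rp1_6, G2Rp2_3, G2Rp2_4, G2Rp2_5, G2Rp2_6, G2Rp3_4,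
  G2Rp3_5, G2Rp3_6, G2Rp4_5, G2Rp4_6, G2Rp5_6, G2Rp7_0, G2Rp7_1, G2Rp7_2, G2Rp7_3, G2Rp7_4, G2Rp7_5,
  G2Rp7_6, G2Rp7_8, G2Rp7_9, G2Rp8_0, G2Rp8_1, G2Rp8_2, G2Rp8_3, G2Rp8_4, G2Rp8_5, G2Rp8_6, G2Rp8_9,
  G2Rp9_0, G2Rp9_1, G2Rp9_2, G2Rp9_3, G2Rp9_4, G2Rp9_5, G2Rp9_6]⟩))))) (.node 152 (.node 148 (.node
  146 (.node 145 (.leaf ⟨38946279974, 78588557709653959647629416,
  4484931340534001644286870875484523207212703390057091835014795294853459389088493469708, 591429,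
  [G2Rp1_2, G2Rp1_3, G2Rp2_3, G2Rp4_2, G2Rp4_3, G2Rp4_6, G2Rp5_2, G2Rp5_3, G2Rp5_4, G2Rp5_6,
  G2Rp7_0, G2Rp7_1, G2Rp7_2, G2Rp7_3, G2Rp7_6, G2Rp7_8, G2Rp7_9, G2Rp8_0, G2Rp8_1, G2Rp8_2, G2Rp8_3,
  G2Rp8_6, G2Rp8_9, G2Rp9_0, G2Rp9_1, G2Rp9_2, G2Rp9_3, G2Rp9_6]⟩) (.leaf ⟨26076383521,
  280819291840417260575492202,
  6799385587178475383178465313247995077321203918158271208022134383834275305717444116480, 394369,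
  [G2Rp0_1, G2Rp3_2, G2Rp4_0, G2Rp4_1, G2Rp4_2, G2Rp4_3, G2Rp4_5, G2Rp4_6, G2Rp4_7, G2Rp4_8,
  G2Rp4_9, G2Rp5_0, G2Rp5_1, G2Rp5_2, G2Rp5_3, G2Rp5_6, G2Rp5_7, G2Rp5_8, G2Rp5_9, G2Rp6_0, G2Rp6_1,
  G2Rp6_7, G2Rp6_8, G2Rp6_9, G2Rp8_7, G2Rp9_7, G2Rp9_8]⟩)) (.node 147 (.leaf ⟨26076580129,
  400619940803334649821729997,
  6799385587178475383178465313246845688149813640666633961709827538877242988147614154752, 394305,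
  [G2Rp0_1, G2Rp2_0, G2Rp2_1, G2Rp2_3, G2Rp2_4, G2Rp2_5, G2Rp2_6, G2Rp2_7, G2Rp2_8, G2Rp2_9,
  G2Rp3_0, G2Rp3_1, G2Rp3_4, G2Rp3_5, G2Rp3_6, G2Rp3_7, G2Rp3_8, G2Rp3_9, G2Rp4_0, G2Rp4_1, G2Rp4_5,
  G2Rp4_6, G2Rp4_7, G2Rp4_8, G2Rp4_9, G2Rp5_0, G2Rp5_1, G2Rp5_6, G2Rp5_7, G2Rp5_8, G2Rp5_9, G2Rp6_0,
  G2Rp6_1, G2Rp6_7, G2Rp6_8, G2Rp6_9, G2Rp8_7, G2Rp9_7, G2Rp9_8]⟩) (.leaf ⟨38961285409,
  318186307908208491319363693,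
  3908192712821425967292280116473275411395225659019413360432338098797394216689571987456, 590977,
  [G2Rp0_1, G2Rp3_2, G2Rp4_0, G2Rp4_1, G2Rp4_2, G2Rp4_3, G2Rp4_5, G2Rp4_6, G2Rp4_7, G2Rp4_8,
  G2Rp4_9, G2Rp5_0, G2Rp5_1, G2Rp5_2, G2Rp5_3, G2Rp5_6, G2Rp5_7, G2Rp5_8, G2Rp5_9, G2Rp6_0, G2Rp6_1,
  G2Rp6_7, G2Rp6_8, G2Rp6_9, G2Rp7_0, G2Rp7_1, G2Rp7_8, G2Rp7_9, G2Rp8_0, G2Rp8_1, G2Rp8_9, G2Rp9_0,
  G2Rp9_1]⟩))) (.node 150 (.node 149 (.leaf ⟨38961482017, 437986956871125880565601488,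
  3908192712821425967292280116472126022223835381527776114120031253840361899119742025728, 590913,
  [G2Rp0_1, G2Rp2_0, G2Rp2_1, G2Rp2_3, G2Rp2_4, G2Rp2_5, G2Rp2_6, G2Rp2_7, G2Rp2_8, G2Rp2_9,
  G2Rp3_0, G2Rp3_1, G2Rp3_4, G2Rp3_5, G2Rp3_6, G2Rp3_7, G2Rp3_8, G2Rp3_9, G2Rp4_0, G2Rp4_1, G2Rp4_5,
  G2Rp4_6, G2Rp4_7, G2Rp4_8, G2Rp4_9, G2Rp5_0, G2Rp5_1, G2Rp5_6, G2Rp5_7, G2Rp5_8, G2Rp5_9, G2Rp6_0,
  G2Rp6_1, G2Rp6_7, G2Rp6_8, G2Rp6_9, G2Rp7_0, G2Rp7_1, G2Rp7_8, G2Rp7_9, G2Rp8_0, G2Rp8_1, G2Rp8_9,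
  G2Rp9_0, G2Rp9_1]⟩) (.leaf ⟨39212942409, 78582655002581857504303268,
  3885426714359087397678388142623864013241058390634693223295808700523992292034294579296, 595074,
  [G2Rp1_0, G2Rp1_5, G2Rp1_6, G2Rp2_5, G2Rp2_6, G2Rp3_2, G2Rp3_5, G2Rp3_6, G2Rp4_2, G2Rp4_3,
  G2Rp4_5, G2Rp4_6, G2Rp7_8, G2Rp7_9, G2Rp8_9]⟩)) (.node 151 (.leaf ⟨26328040521,
  161016287786318898175121572,
  6799385587178499485369545974294132731565722639865213429383513060681064958432139804768, 398466,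
  [G2Rp0_7, G2Rp0_8, G2Rp0_9, G2Rp1_0, G2Rp1_5, G2Rp1_6, G2Rp1_7, G2Rp1_8, G2Rp1_9, G2Rp2_5,
  G2Rp2_6, G2Rp3_2, G2Rp3_5, G2Rp3_6, G2Rp4_2, G2Rp4_3, G2Rp4_5, G2Rp4_6, G2Rp8_7, G2Rp9_7,
  G2Rp9_8]⟩) (.leaf ⟨38946365988, 78588557709716383776086177,
  4378690014376421904381570138015957824609576223426472858643954560642562389958530695244, 591513,
  [G2Rp1_0, G2Rp1_2, G2Rp1_3, G2Rp1_6, G2Rp2_3, G2Rp2_6, G2Rp3_6, G2Rp4_6, G2Rp5_4, G2Rp5_6,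
  G2Rp7_0, G2Rp7_6, G2Rp7_8, G2Rp7_9, G2Rp8_0, G2Rp8_6, G2Rp8_9, G2Rp9_0, G2Rp9_6]⟩)))) (.node 156
  (.node 154 (.node 153 (.leaf ⟨26061464100, 41225083416787308588013729,
  7292648887195809835960514202712970521288722503067909414860739497603188105921918140492, 394905,
  [G2Rp1_0, G2Rp1_2, G2Rp1_3, G2Rp1_6, G2Rp2_3, G2Rp2_6, G2Rp3_6, G2Rp4_6, G2Rp5_4, G2Rp5_6,
  G2Rp7_0, G2Rp7_6, G2Rp8_0, G2Rp8_6, G2Rp8_7, G2Rp9_0, G2Rp9_6, G2Rp9_7, G2Rp9_8]⟩) (.leaf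
  ⟨39212844105, 78582655002688475772459169,
  3885426714359087397678388142623863995702771132360387909015744654248026141191120617580, 594978,
  [G2Rp1_0, G2Rp1_2, G2Rp1_3, G2Rp1_5, G2Rp1_6, G2Rp2_3, G2Rp2_5, G2Rp2_6, G2Rp3_5, G2Rp3_6,
  G2Rp4_5, G2Rp4_6, G2Rp7_8, G2Rp7_9, G2Rp8_9]⟩)) (.node 155 (.leaf ⟨26327942217,
  161016287786425516443277473,
  6799385587178499485369545974294132714027435381590908115103449014405098807588965843052, 398370,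
  [G2Rp0_7, G2Rp0_8, G2Rp0_9, G2Rp1_0, G2Rp1_2, G2Rp1_3, G2Rp1_5, G2Rp1_6, G2Rp1_7, G2Rp1_8,
  G2Rp1_9, G2Rp2_3, G2Rp2_5, G2Rp2_6, G2Rp3_5, G2Rp3_6, G2Rp4_5, G2Rp4_6, G2Rp8_7, G2Rp9_7,
  G2Rp9_8]⟩) (.leaf ⟨26327934024, 161016287678230344602094659,
  6799385587178499485369545974294132719873531135255903299913837296810448958847365414916, 398362,
  [G2Rp0_7, G2Rp0_8, G2Rp0_9, G2Rp1_2, G2Rp3_2, G2Rp3_5, G2Rp3_6, G2Rp4_2, G2Rp4_5, G2Rp4_6,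
  G2Rp8_7, G2Rp9_7, G2Rp9_8]⟩))) (.node 158 (.node 157 (.leaf ⟨26059772452,
  41225083600274847339616321,
  7307826219504035513089842879492497500147042188016326951802212120999548772736847839354, 394277,
  [G2Rp2_1, G2Rp2_3, G2Rp2_4, G2Rp2_5, G2Rp2_6, G2Rp4_5, G2Rp4_6, G2Rp5_6, G2Rp7_0, G2Rp7_1,
  G2Rp7_6, G2Rp8_0, G2Rp8_1, G2Rp8_6, G2Rp8_7, G2Rp9_0, G2Rp9_1, G2Rp9_6, G2Rp9_7, G2Rp9_8]⟩) (.leaf
  ⟨38944674340, 78588557893203922527688769,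
  4393867346684647581510898814795484803467895908374890395585427184038923056773460394106, 590885,
  [G2Rp2_1, G2Rp2_3, G2Rp2_4, G2Rp2_5, G2Rp2_6, G2Rp4_5, G2Rp4_6, G2Rp5_6, G2Rp7_0, G2Rp7_1,
  G2Rp7_6, G2Rp7_8, G2Rp7_9, G2Rp8_0, G2Rp8_1, G2Rp8_6, G2Rp8_9, G2Rp9_0, G2Rp9_1, G2Rp9_6]⟩))
  (.node 159 (.leaf ⟨38961187105, 318186307908641973778614381,
  3999256706670780353587612182967309513178445248538971112757139431455038337995764400140, 590881,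
  [G2Rp0_1, G2Rp0_2, G2Rp0_3, G2Rp1_2, G2Rp1_3, G2Rp2_3, G2Rp4_0, G2Rp4_1, G2Rp4_2, G2Rp4_3,
  G2Rp4_5, G2Rp4_6, G2Rp4_7, G2Rp4_8, G2Rp4_9, G2Rp5_0, G2Rp5_1, G2Rp5_2, G2Rp5_3, G2Rp5_6, G2Rp5_7,
  G2Rp5_8, G2Rp5_9, G2Rp6_0, G2Rp6_1, G2Rp6_2, G2Rp6_3, G2Rp6_7, G2Rp6_8, G2Rp6_9, G2Rp7_0, G2Rp7_1,
  G2Rp7_2, G2Rp7_3, G2Rp7_8, G2Rp7_9, G2Rp8_0, G2Rp8_1, G2Rp8_2, G2Rp8_3, G2Rp8_9, G2Rp9_0, G2Rp9_1,
  G2Rp9_2, G2Rp9_3]⟩) (.leaf ⟨26076285217, 280819291840741788304377962,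
  6799385587178475706702761908052857056091751425667514125838981108796940919281575264268, 394273,
  [G2Rp0_1, G2Rp0_2, G2Rp0_3, G2Rp1_2, G2Rp1_3, G2Rp2_3, G2Rp4_0, G2Rp4_1, G2Rp4_2, G2Rp4_3,
  G2Rp4_5, G2Rp4_6, G2Rp4_7, G2Rp4_8, G2Rp4_9, G2Rp5_0, G2Rp5_1, G2Rp5_2, G2Rp5_3, G2Rp5_6, G2Rp5_7,
  G2Rp5_8, G2Rp5_9, G2Rp6_0, G2Rp6_1, G2Rp6_2, G2Rp6_3, G2Rp6_7, G2Rp6_8, G2Rp6_9, G2Rp8_7, G2Rp9_7,
  G2Rp9_8]⟩)))))) (.node 176 (.node 168 (.node 164 (.node 162 (.node 161 (.leaf ⟨39212835912,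
  78582654894493303931276355,
  3885426714359087397678388142623864001548866886025383164814566549434222776264899690500, 594970,
  [G2Rp1_2, G2Rp3_2, G2Rp3_5, G2Rp3_6, G2Rp4_2, G2Rp4_5, G2Rp4_6, G2Rp7_8, G2Rp7_9, G2Rp8_9]⟩)
  (.leaf ⟨26056139289, 41225083427103959619411201,
  7474776874894517961512458324080319824917307362474541997013986230387172696274744377371, 393545,
  [G2Rp1_0, G2Rp2_0, G2Rp2_1, G2Rp2_3, G2Rp2_4, G2Rp5_3, G2Rp5_4, G2Rp6_3, G2Rp6_4, G2Rp7_0,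
  G2Rp7_3, G2Rp7_4, G2Rp7_6, G2Rp8_0, G2Rp8_3, G2Rp8_4, G2Rp8_6, G2Rp8_7, G2Rp9_0, G2Rp9_3, G2Rp9_4,
  G2Rp9_6, G2Rp9_7, G2Rp9_8]⟩)) (.node 163 (.leaf ⟨38941041177, 78588557720033034807483649,
  4560818002075130029933514259383307128238161082833105440797201293426546980311356932123, 590153,
  [G2Rp1_0, G2Rp2_0, G2Rp2_1, G2Rp2_3, G2Rp2_4, G2Rp5_3, G2Rp5_4, G2Rp6_3, G2Rp6_4, G2Rp7_0,
  G2Rp7_3, G2Rp7_4, G2Rp7_6, G2Rp7_8, G2Rp7_9, G2Rp8_0, G2Rp8_3, G2Rp8_4, G2Rp8_6, G2Rp8_9, G2Rp9_0,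
  G2Rp9_3, G2Rp9_4, G2Rp9_6]⟩) (.leaf ⟨26056659474, 41225083417041543808365960,
  7398890213353389575865814940174256438996917403837616132013812262165665324621298139148, 393541,
  [G2Rp1_2, G2Rp1_3, G2Rp2_3, G2Rp5_4, G2Rp7_0, G2Rp7_1, G2Rp7_2, G2Rp7_3, G2Rp7_6, G2Rp8_0,
  G2Rp8_1, G2Rp8_2, G2Rp8_3, G2Rp8_6, G2Rp8_7, G2Rp9_0, G2Rp9_1, G2Rp9_2, G2Rp9_3, G2Rp9_6, G2Rp9_7,
  G2Rp9_8]⟩))) (.node 166 (.node 165 (.leaf ⟨26056167972, 41225083639572561147401347,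
  7307826219504035513089842879487899873220421182299040705201736877052333991753981886578, 393573,
  [G2Rp2_1, G2Rp2_4, G2Rp2_5, G2Rp2_6, G2Rp3_1, G2Rp3_2, G2Rp3_4, G2Rp3_5, G2Rp3_6, G2Rp5_4,
  G2Rp7_0, G2Rp7_1, G2Rp7_6, G2Rp8_0, G2Rp8_1, G2Rp8_6, G2Rp8_7, G2Rp9_0, G2Rp9_1, G2Rp9_6, G2Rp9_7,
  G2Rp9_8]⟩) (.leaf ⟨26064556612, 41225083488701973630422147,
  6822151585640813844951325222498883163289316064960985592665989006991696994435982163970, 399717,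
  [G2Rp2_1, G2Rp3_1, G2Rp3_2, G2Rp4_0, G2Rp4_1, G2Rp4_5, G2Rp4_6, G2Rp5_0, G2Rp5_1, G2Rp5_6,
  G2Rp6_0, G2Rp6_1, G2Rp7_0, G2Rp7_1, G2Rp8_0, G2Rp8_1, G2Rp8_7, G2Rp9_0, G2Rp9_1, G2Rp9_7,
  G2Rp9_8]⟩)) (.node 167 (.leaf ⟨38941561362, 78588557709970618996438408,
  4484931340534001644286870875477243742317771124196179575797027325205039608657910693900, 590149,
  [G2Rp1_2, G2Rp1_3, G2Rp2_3, G2Rp5_4, G2Rp7_0, G2Rp7_1, G2Rp7_2, G2Rp7_3, G2Rp7_6, G2Rp7_8,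
  G2Rp7_9, G2Rp8_0, G2Rp8_1, G2Rp8_2, G2Rp8_3, G2Rp8_6, G2Rp8_9, G2Rp9_0, G2Rp9_1, G2Rp9_2, G2Rp9_3,
  G2Rp9_6]⟩) (.leaf ⟨38941069848, 78588557720033424575765772,
  4606349998999807061321500289727060096955772675461475380953623443477703615266544287746, 590181,
  [G2Rp2_1, G2Rp3_1, G2Rp3_2, G2Rp5_1, G2Rp5_2, G2Rp5_3, G2Rp5_4, G2Rp6_1, G2Rp6_2, G2Rp6_3,
  G2Rp6_4, G2Rp7_0, G2Rp7_1, G2Rp7_2, G2Rp7_3, G2Rp7_4, G2Rp7_6, G2Rp7_8, G2Rp7_9, G2Rp8_0, G2Rp8_1,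
  G2Rp8_2, G2Rp8_3, G2Rp8_4, G2Rp8_6, G2Rp8_9, G2Rp9_0, G2Rp9_1, G2Rp9_2, G2Rp9_3, G2Rp9_4,
  G2Rp9_6]⟩)))) (.node 172 (.node 170 (.node 169 (.leaf ⟨38941119000, 78588557723517739343224073,
  4606349998999807061321500289727060096955460468431633851969914344263460283442385518622, 590229,
  [G2Rp2_3, G2Rp2_4, G2Rp3_4, G2Rp5_1, G2Rp5_2, G2Rp5_3, G2Rp5_4, G2Rp6_1, G2Rp6_2, G2Rp6_3,
  G2Rp6_4, G2Rp7_0, G2Rp7_1, G2Rp7_2, G2Rp7_3, G2Rp7_4, G2Rp7_6, G2Rp7_8, G2Rp7_9, G2Rp8_0, G2Rp8_1,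
  G2Rp8_2, G2Rp8_3, G2Rp8_4, G2Rp8_6, G2Rp8_9, G2Rp9_0, G2Rp9_1, G2Rp9_2, G2Rp9_3, G2Rp9_4,
  G2Rp9_6]⟩) (.leaf ⟨26056217112, 41225083430588664155151625,
  7520308871819194992900444354424072793634606748073070408186699281224085999405772963870, 393621,
  [G2Rp2_3, G2Rp2_4, G2Rp3_4, G2Rp5_1, G2Rp5_2, G2Rp5_3, G2Rp5_4, G2Rp6_1, G2Rp6_2, G2Rp6_3,
  G2Rp6_4, G2Rp7_0, G2Rp7_1, G2Rp7_2, G2Rp7_3, G2Rp7_4, G2Rp7_6, G2Rp8_0, G2Rp8_1, G2Rp8_2, G2Rp8_3,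
  G2Rp8_4, G2Rp8_6, G2Rp8_7, G2Rp9_0, G2Rp9_1, G2Rp9_2, G2Rp9_3, G2Rp9_4, G2Rp9_6, G2Rp9_7,
  G2Rp9_8]⟩)) (.node 171 (.leaf ⟨38941512210, 78588557709646091267549480,
  4393867346684647581510898814792036565732401643526793685832539787517378928507590017024, 590101,
  [G2Rp3_2, G2Rp4_2, G2Rp4_3, G2Rp5_2, G2Rp5_3, G2Rp5_4, G2Rp7_0, G2Rp7_1, G2Rp7_6, G2Rp7_8,
  G2Rp7_9, G2Rp8_0, G2Rp8_1, G2Rp8_6, G2Rp8_9, G2Rp9_0, G2Rp9_1, G2Rp9_6]⟩) (.leaf ⟨26056610322,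
  41225083416717016079477032,
  7307826219504035513089842879489049262411547923168230242049324724478004644470977462272, 393493,
  [G2Rp3_2, G2Rp4_2, G2Rp4_3, G2Rp5_2, G2Rp5_3, G2Rp5_4, G2Rp7_0, G2Rp7_1, G2Rp7_6, G2Rp8_0,
  G2Rp8_1, G2Rp8_6, G2Rp8_7, G2Rp9_0, G2Rp9_1, G2Rp9_6, G2Rp9_7, G2Rp9_8]⟩))) (.node 174 (.node 173
  (.leaf ⟨26056217124, 41225083639679179415557248,
  7307826219504035513089842879487899873220108969824598228733275805182040453080264212606, 393621,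
  [G2Rp2_3, G2Rp2_4, G2Rp2_5, G2Rp2_6, G2Rp3_4, G2Rp3_5, G2Rp3_6, G2Rp5_4, G2Rp7_0, G2Rp7_1,
  G2Rp7_6, G2Rp8_0, G2Rp8_1, G2Rp8_6, G2Rp8_7, G2Rp9_0, G2Rp9_1, G2Rp9_6, G2Rp9_7, G2Rp9_8]⟩) (.leaf
  ⟨38941119012, 78588557932608254603629696,
  4393867346684647581510898814790887176540962690183161672516490868221414737116876767358, 590229,
  [G2Rp2_3, G2Rp2_4, G2Rp2_5, G2Rp2_6, G2Rp3_4, G2Rp3_5, G2Rp3_6, G2Rp5_4, G2Rp7_0, G2Rp7_1,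
  G2Rp7_6, G2Rp7_8, G2Rp7_9, G2Rp8_0, G2Rp8_1, G2Rp8_6, G2Rp8_9, G2Rp9_0, G2Rp9_1, G2Rp9_6]⟩))
  (.node 175 (.leaf ⟨38941102630, 78588557858226567862488136,
  4424222011301098935769556168353006031800820613053615508891670774306751079549687300100, 590213,
  [G2Rp1_2, G2Rp3_2, G2Rp3_4, G2Rp3_5, G2Rp3_6, G2Rp5_4, G2Rp7_0, G2Rp7_1, G2Rp7_2, G2Rp7_6,
  G2Rp7_8, G2Rp7_9, G2Rp8_0, G2Rp8_1, G2Rp8_2, G2Rp8_6, G2Rp8_9, G2Rp9_0, G2Rp9_1, G2Rp9_2,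
  G2Rp9_6]⟩) (.leaf ⟨38941069860, 78588557932501636335473795,
  4393867346684647581510898814790887176541274902657604148984951940091708275790594441330, 590181,
  [G2Rp2_1, G2Rp2_4, G2Rp2_5, G2Rp2_6, G2Rp3_1, G2Rp3_2, G2Rp3_4, G2Rp3_5, G2Rp3_6, G2Rp5_4,
  G2Rp7_0, G2Rp7_1, G2Rp7_6, G2Rp7_8, G2Rp7_9, G2Rp8_0, G2Rp8_1, G2Rp8_6, G2Rp8_9, G2Rp9_0, G2Rp9_1,
  G2Rp9_6]⟩))))) (.node 184 (.node 180 (.node 178 (.node 177 (.leaf ⟨38949458500,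
  78588557781631048818494595,
  3908192712821425913372381157801870466610169785319549036449204070031071278472594718722, 596325,
  [G2Rp2_1, G2Rp3_1, G2Rp3_2, G2Rp4_0, G2Rp4_1, G2Rp4_5, G2Rp4_6, G2Rp5_0, G2Rp5_1, G2Rp5_6,
  G2Rp6_0, G2Rp6_1, G2Rp7_0, G2Rp7_1, G2Rp7_8, G2Rp7_9, G2Rp8_0, G2Rp8_1, G2Rp8_9, G2Rp9_0,
  G2Rp9_1]⟩) (.leaf ⟨38948934212, 78588557714216658024858722,
  3908192712821425913372381157803402817459898201146082529627597448230457310448572170258, 596069,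
  [G2Rp2_1, G2Rp2_4, G2Rp3_1, G2Rp3_2, G2Rp3_4, G2Rp5_0, G2Rp5_1, G2Rp5_4, G2Rp5_6, G2Rp6_0,
  G2Rp6_1, G2Rp7_0, G2Rp7_1, G2Rp7_8, G2Rp7_9, G2Rp8_0, G2Rp8_1, G2Rp8_9, G2Rp9_0, G2Rp9_1]⟩))
  (.node 179 (.leaf ⟨26064032324, 41225083421287582836786274,
  6822151585640813844951325222500415514139044480787519085844382385191083026411959615506, 399461,
  [G2Rp2_1, G2Rp2_4, G2Rp3_1, G2Rp3_2, G2Rp3_4, G2Rp5_0, G2Rp5_1, G2Rp5_4, G2Rp5_6, G2Rp6_0,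
  G2Rp6_1, G2Rp7_0, G2Rp7_1, G2Rp8_0, G2Rp8_1, G2Rp8_7, G2Rp9_0, G2Rp9_1, G2Rp9_7, G2Rp9_8]⟩) (.leaf
  ⟨38941532689, 78588557709649422014684260,
  4378690014376421904381570138011264485401001451290375632398466443766211783759898804239, 590121,
  [G2Rp1_0, G2Rp2_3, G2Rp4_0, G2Rp4_1, G2Rp4_2, G2Rp4_3, G2Rp5_0, G2Rp5_1, G2Rp5_2, G2Rp5_3,
  G2Rp5_4, G2Rp7_0, G2Rp7_6, G2Rp7_8, G2Rp7_9, G2Rp8_0, G2Rp8_6, G2Rp8_9, G2Rp9_0, G2Rp9_6]⟩)))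
  (.node 182 (.node 181 (.leaf ⟨26056630801, 41225083416720346826611812,
  7292648887195809835960514202708277182080147730931812188615251380726837499723286249487, 393513,
  [G2Rp1_0, G2Rp2_3, G2Rp4_0, G2Rp4_1, G2Rp4_2, G2Rp4_3, G2Rp5_0, G2Rp5_1, G2Rp5_2, G2Rp5_3,
  G2Rp5_4, G2Rp7_0, G2Rp7_6, G2Rp8_0, G2Rp8_6, G2Rp8_7, G2Rp9_0, G2Rp9_6, G2Rp9_7, G2Rp9_8]⟩) (.leaf
  ⟨26063966788, 41225083420130862244627521,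
  6822151585640813844951325222501181761909655823692115970457311907955860463371192631322, 399397,
  [G2Rp2_1, G2Rp2_3, G2Rp2_4, G2Rp5_0, G2Rp5_1, G2Rp5_3, G2Rp5_4, G2Rp5_6, G2Rp6_0, G2Rp6_1,
  G2Rp7_0, G2Rp7_1, G2Rp8_0, G2Rp8_1, G2Rp8_7, G2Rp9_0, G2Rp9_1, G2Rp9_7, G2Rp9_8]⟩)) (.node 183
  (.leaf ⟨38948868676, 78588557713059937432699969,
  3908192712821425913372381157804169065230509544050679414240526970995234747407805186074, 596005,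
  [G2Rp2_1, G2Rp2_3, G2Rp2_4, G2Rp5_0, G2Rp5_1, G2Rp5_3, G2Rp5_4, G2Rp5_6, G2Rp6_0, G2Rp6_1,
  G2Rp7_0, G2Rp7_1, G2Rp7_8, G2Rp7_9, G2Rp8_0, G2Rp8_1, G2Rp8_9, G2Rp9_0, G2Rp9_1]⟩) (.leaf
  ⟨38942417425, 78588557818822061840342020,
  4378690014376421904381570138008295300137172064404136021369075160482328531754542891011, 590473,
  [G2Rp1_0, G2Rp2_0, G2Rp2_1, G2Rp3_0, G2Rp3_1, G2Rp3_2, G2Rp4_5, G2Rp7_0, G2Rp7_6, G2Rp7_8,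
  G2Rp7_9, G2Rp8_0, G2Rp8_6, G2Rp8_9, G2Rp9_0, G2Rp9_6]⟩)))) (.node 188 (.node 186 (.node 185 (.leaf
  ⟨26057515537, 41225083525892986652269572,
  7292648887195809835960514202705307996816318344045572577585860097442954247717930336259, 393865,
  [G2Rp1_0, G2Rp2_0, G2Rp2_1, G2Rp3_0, G2Rp3_1, G2Rp3_2, G2Rp4_5, G2Rp7_0, G2Rp7_6, G2Rp8_0,
  G2Rp8_6, G2Rp8_7, G2Rp9_0, G2Rp9_6, G2Rp9_7, G2Rp9_8]⟩) (.leaf ⟨26057216548,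
  41225083667756377061955748,
  7307826219504035513089842879486367538444378582472225923124901622511434834082002894946, 393829,
  [G2Rp2_1, G2Rp2_5, G2Rp2_6, G2Rp3_1, G2Rp3_2, G2Rp3_5, G2Rp3_6, G2Rp4_1, G2Rp4_2, G2Rp4_3,
  G2Rp4_5, G2Rp4_6, G2Rp7_0, G2Rp7_1, G2Rp7_6, G2Rp8_0, G2Rp8_1, G2Rp8_6, G2Rp8_7, G2Rp9_0, G2Rp9_1,
  G2Rp9_6, G2Rp9_7, G2Rp9_8]⟩)) (.node 187 (.leaf ⟨38942118436, 78588557960685452250028196,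
  4393867346684647581510898814789354841765232302830789366908116685550809118118615449698, 590437,
  [G2Rp2_1, G2Rp2_5, G2Rp2_6, G2Rp3_1, G2Rp3_2, G2Rp3_5, G2Rp3_6, G2Rp4_1, G2Rp4_2, G2Rp4_3,
  G2Rp4_5, G2Rp4_6, G2Rp7_0, G2Rp7_1, G2Rp7_6, G2Rp7_8, G2Rp7_9, G2Rp8_0, G2Rp8_1, G2Rp8_6, G2Rp8_9,
  G2Rp9_0, G2Rp9_1, G2Rp9_6]⟩) (.leaf ⟨38942298642, 78588558153528727926158632,
  4758123322082063832614787057534780990883946550153514749358683668687724235555953705008, 590357,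
  [G2Rp1_4, G2Rp1_5, G2Rp2_4, G2Rp2_5, G2Rp3_2, G2Rp3_4, G2Rp3_5, G2Rp4_5, G2Rp7_0, G2Rp7_1,
  G2Rp7_4, G2Rp7_5, G2Rp7_6, G2Rp7_8, G2Rp7_9, G2Rp8_0, G2Rp8_1, G2Rp8_4, G2Rp8_5, G2Rp8_6, G2Rp8_9,
  G2Rp9_0, G2Rp9_1, G2Rp9_4, G2Rp9_5, G2Rp9_6]⟩))) (.node 190 (.node 189 (.leaf ⟨26057396754,
  41225083860599652738086184,
  7672082194901451764193731122231793687563092829794951305575468605648349951519341150256, 393749,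
  [G2Rp1_4, G2Rp1_5, G2Rp2_4, G2Rp2_5, G2Rp3_2, G2Rp3_4, G2Rp3_5, G2Rp4_5, G2Rp7_0, G2Rp7_1,
  G2Rp7_4, G2Rp7_5, G2Rp7_6, G2Rp8_0, G2Rp8_1, G2Rp8_4, G2Rp8_5, G2Rp8_6, G2Rp8_7, G2Rp9_0, G2Rp9_1,
  G2Rp9_4, G2Rp9_5, G2Rp9_6, G2Rp9_7, G2Rp9_8]⟩) (.leaf ⟨38942319121, 78588557930392767664692225,
  4378690014376421904381570138008295300136837567178010297513931472570909827339898519615, 590377,
  [G2Rp1_0, G2Rp2_3, G2Rp2_4, G2Rp2_5, G2Rp3_4, G2Rp3_5, G2Rp4_5, G2Rp7_0, G2Rp7_6, G2Rp7_8,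
  G2Rp7_9, G2Rp8_0, G2Rp8_6, G2Rp8_9, G2Rp9_0, G2Rp9_6]⟩)) (.node 191 (.leaf ⟨26057417233,
  41225083637463692476619777,
  7292648887195809835960514202705307996815983846819446853730716409531535543303285964863, 393769,
  [G2Rp1_0, G2Rp2_3, G2Rp2_4, G2Rp2_5, G2Rp3_4, G2Rp3_5, G2Rp4_5, G2Rp7_0, G2Rp7_6, G2Rp8_0,
  G2Rp8_6, G2Rp8_7, G2Rp9_0, G2Rp9_6, G2Rp9_7, G2Rp9_8]⟩) (.leaf ⟨18665054481,
  39188977997103171567092743,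
  4856775980502439214787164492602155763856626147002451523088251464791007214196131561603, 280713,
  [G2Rp0_7, G2Rp1_0, G2Rp1_7, G2Rp2_0, G2Rp2_1, G2Rp2_7, G2Rp3_0, G2Rp3_1, G2Rp3_2, G2Rp3_7,
  G2Rp4_0, G2Rp4_1, G2Rp4_2, G2Rp4_3, G2Rp4_7, G2Rp5_0, G2Rp5_1, G2Rp5_2, G2Rp5_3, G2Rp5_4, G2Rp5_7,
  G2Rp6_0, G2Rp6_1, G2Rp6_2, G2Rp6_3, G2Rp6_4, G2Rp6_5, G2Rp6_7, G2Rp8_7, G2Rp8_9, G2Rp9_7]⟩))))))

def G2RT4 : Tr :=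
  .node 224 (.node 208 (.node 200 (.node 196 (.node 194 (.node 193 (.leaf ⟨36046243345,
  200952192757044614193582090,
  6799385587178475329257749214023145380173605790803664142637339685832906590897970085888, 542850,
  [G2Rp1_0, G2Rp1_2, G2Rp1_3, G2Rp1_4, G2Rp1_5, G2Rp1_6, G2Rp1_7, G2Rp1_8, G2Rp1_9, G2Rp3_2,
  G2Rp4_2, G2Rp4_3, G2Rp5_2, G2Rp5_3, G2Rp5_4, G2Rp6_2, G2Rp6_3, G2Rp6_4, G2Rp6_5, G2Rp8_7, G2Rp9_7,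
  G2Rp9_8]⟩) (.leaf ⟨18665048337, 38836819276442512473981959,
  4871953312807131251706829735012780687118579445699865532970231678004517625229848870912, 280705,
  [G2Rp0_1, G2Rp0_7, G2Rp3_2, G2Rp4_2, G2Rp4_3, G2Rp5_2, G2Rp5_3, G2Rp5_4, G2Rp6_1, G2Rp6_2,
  G2Rp6_3, G2Rp6_4, G2Rp6_5, G2Rp8_1, G2Rp8_7, G2Rp8_9, G2Rp9_1, G2Rp9_7]⟩)) (.node 195 (.leaf
  ⟨18665066776, 38837999868066563685876902,
  4856775980502439214787164492589799830021806860326092254460527671098022070301875896334, 280725,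
  [G2Rp0_7, G2Rp2_3, G2Rp4_1, G2Rp4_2, G2Rp4_3, G2Rp5_1, G2Rp5_2, G2Rp5_3, G2Rp5_4, G2Rp6_1,
  G2Rp6_2, G2Rp6_3, G2Rp6_4, G2Rp6_5, G2Rp8_7, G2Rp8_9, G2Rp9_7]⟩) (.leaf ⟨18664956177,
  38954992577740868861035521,
  4856775980502439214787164492588458875962214074509608427456632538967032700924854206607, 280617,
  [G2Rp0_7, G2Rp1_0, G2Rp1_7, G2Rp2_3, G2Rp5_4, G2Rp6_4, G2Rp6_5, G2Rp8_7, G2Rp8_9, G2Rp9_7]⟩)))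
  (.node 198 (.node 197 (.leaf ⟨36046145041, 200952192757038876117274625,
  6799385587178475329257749214021995990979669115885590067136160450166854652404759789580, 542754,
  [G2Rp1_0, G2Rp1_2, G2Rp1_3, G2Rp1_4, G2Rp1_5, G2Rp1_6, G2Rp1_7, G2Rp1_8, G2Rp1_9, G2Rp2_3,
  G2Rp5_4, G2Rp6_4, G2Rp6_5, G2Rp8_7, G2Rp9_7, G2Rp9_8]⟩) (.leaf ⟨18664935704,
  38837999868057767592854694,
  4856775980502439214787164492589033570559182413329754153483104071188984505387077468166, 280597,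
  [G2Rp0_7, G2Rp3_1, G2Rp3_2, G2Rp4_1, G2Rp4_2, G2Rp5_1, G2Rp5_2, G2Rp5_4, G2Rp6_1, G2Rp6_2,
  G2Rp6_4, G2Rp6_5, G2Rp8_7, G2Rp8_9, G2Rp9_7]⟩)) (.node 199 (.leaf ⟨36046128658,
  320752841720133458534276194,
  6799385587178475329257749214021995990979669461277400364687073347432325232345173984243, 542738,
  [G2Rp1_0, G2Rp1_4, G2Rp1_5, G2Rp1_6, G2Rp1_7, G2Rp1_8, G2Rp1_9, G2Rp2_0, G2Rp2_1, G2Rp2_4,
  G2Rp2_5, G2Rp2_6, G2Rp2_7, G2Rp2_8, G2Rp2_9, G2Rp3_0, G2Rp3_1, G2Rp3_2, G2Rp3_4, G2Rp3_5, G2Rp3_6,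
  G2Rp3_7, G2Rp3_8, G2Rp3_9, G2Rp5_4, G2Rp6_4, G2Rp6_5, G2Rp8_7, G2Rp9_7, G2Rp9_8]⟩) (.leaf
  ⟨18664933650, 38836819388006487010840674,
  4871953312807131251706829735011631297924642789157257347667802439452289073332559544370, 280593,
  [G2Rp0_1, G2Rp0_7, G2Rp2_1, G2Rp2_4, G2Rp2_5, G2Rp3_1, G2Rp3_2, G2Rp3_4, G2Rp3_5, G2Rp5_4,
  G2Rp6_1, G2Rp6_4, G2Rp6_5, G2Rp8_1, G2Rp8_7, G2Rp8_9, G2Rp9_1, G2Rp9_7]⟩)))) (.node 204 (.node 202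
  (.node 201 (.leaf ⟨18560342148, 154785119380083521571783744,
  3885441651088053010160148958866824088490138980763904059037708480647789665071973269566, 287765,
  [G2Rp3_2, G2Rp4_5, G2Rp6_2, G2Rp6_3, G2Rp6_4, G2Rp6_5, G2Rp7_0, G2Rp7_9, G2Rp8_0, G2Rp8_7,
  G2Rp8_9]⟩) (.leaf ⟨18660739362, 38836819237030346377758818,
  4871953312807131251706829735016420489717009133934310323634504843878669428100519952386, 279569,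
  [G2Rp0_1, G2Rp0_7, G2Rp2_1, G2Rp3_1, G2Rp3_2, G2Rp4_1, G2Rp4_5, G2Rp4_6, G2Rp5_1, G2Rp5_6,
  G2Rp6_1, G2Rp8_1, G2Rp8_7, G2Rp8_9, G2Rp9_1, G2Rp9_7]⟩)) (.node 203 (.leaf ⟨18664950033,
  38836819276658085472502791,
  4963017306635283473224821189550665829699214948414889699817944858681588804156441493516, 280609,
  [G2Rp0_1, G2Rp0_2, G2Rp0_3, G2Rp0_7, G2Rp1_2, G2Rp1_3, G2Rp2_3, G2Rp5_4, G2Rp6_1, G2Rp6_2,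
  G2Rp6_3, G2Rp6_4, G2Rp6_5, G2Rp8_1, G2Rp8_2, G2Rp8_3, G2Rp8_7, G2Rp8_9, G2Rp9_1, G2Rp9_2, G2Rp9_3,
  G2Rp9_7]⟩) (.leaf ⟨18665775385, 38954992686919006244832321,
  4856775980502439214787164492586926427190649421972190598981000611073248109713941856443, 280905,
  [G2Rp0_7, G2Rp1_0, G2Rp1_7, G2Rp2_0, G2Rp2_1, G2Rp2_3, G2Rp2_4, G2Rp2_5, G2Rp2_7, G2Rp4_5,
  G2Rp6_3, G2Rp6_4, G2Rp6_5, G2Rp8_7, G2Rp8_9, G2Rp9_7]⟩))) (.node 206 (.node 205 (.leaf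
  ⟨36046964249, 200952192866220312035954849,
  6799385587178475329257749214020463542208104463347492047455157481350806085423626453048, 543042,
  [G2Rp1_0, G2Rp1_3, G2Rp1_4, G2Rp1_5, G2Rp1_6, G2Rp1_7, G2Rp1_8, G2Rp1_9, G2Rp2_3, G2Rp2_4,
  G2Rp2_5, G2Rp4_5, G2Rp6_3, G2Rp6_4, G2Rp6_5, G2Rp8_7, G2Rp9_7, G2Rp9_8]⟩) (.leaf ⟨18665244945,
  38836819387831630302285927,
  4871953312807131251706829735011631297925713222885123769834116582114899733072212656128, 280641,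
  [G2Rp0_1, G2Rp0_7, G2Rp2_3, G2Rp2_4, G2Rp2_5, G2Rp3_4, G2Rp3_5, G2Rp5_4, G2Rp6_1, G2Rp6_4,
  G2Rp6_5, G2Rp8_1, G2Rp8_7, G2Rp8_9, G2Rp9_1, G2Rp9_7]⟩)) (.node 207 (.leaf ⟨18665853208,
  38838000088809909335884867,
  4856775980502439214787164492586926427190471032343475765092015962661251953094450610238, 280981,
  [G2Rp0_7, G2Rp2_3, G2Rp2_4, G2Rp2_5, G2Rp3_4, G2Rp3_5, G2Rp4_5, G2Rp6_1, G2Rp6_2, G2Rp6_3,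
  G2Rp6_4, G2Rp6_5, G2Rp8_7, G2Rp8_9, G2Rp9_7]⟩) (.leaf ⟨36046439953, 200952192756860686514098276,
  6799385587178475329257749214021995990980739567988922378550472132440920343183195373568, 542786,
  [G2Rp1_0, G2Rp1_4, G2Rp1_5, G2Rp1_6, G2Rp1_7, G2Rp1_8, G2Rp1_9, G2Rp2_3, G2Rp2_4, G2Rp2_5,
  G2Rp3_4, G2Rp3_5, G2Rp5_4, G2Rp6_4, G2Rp6_5, G2Rp8_7, G2Rp9_7, G2Rp9_8]⟩))))) (.node 216 (.node
  212 (.node 210 (.node 209 (.leaf ⟨18665804056, 38837999977239203511534662,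
  4856775980502439214787164492586926427190783228484115399106221116563394871219491569666, 280933,
  [G2Rp0_7, G2Rp2_1, G2Rp3_1, G2Rp3_2, G2Rp4_5, G2Rp6_1, G2Rp6_2, G2Rp6_3, G2Rp6_4, G2Rp6_5,
  G2Rp8_7, G2Rp8_9, G2Rp9_7]⟩) (.leaf ⟨18657386777, 38954992506775021150012481,
  4856775980502439214787164492589225123733182236824315603563809170458772858619953676443, 278857,
  [G2Rp0_7, G2Rp1_0, G2Rp1_7, G2Rp2_0, G2Rp2_1, G2Rp2_3, G2Rp2_4, G2Rp2_7, G2Rp5_3, G2Rp5_4,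
  G2Rp6_3, G2Rp6_4, G2Rp8_7, G2Rp8_9, G2Rp9_7]⟩)) (.node 211 (.leaf ⟨36039099921,
  200952192571087201885065316,
  6799385587178475329257749214021995990979669115885590062382412669986195668048633921536, 540994,
  [G2Rp1_0, G2Rp1_6, G2Rp1_7, G2Rp1_8, G2Rp1_9, G2Rp2_3, G2Rp5_4, G2Rp8_7, G2Rp9_7, G2Rp9_8]⟩)
  (.leaf ⟨18657904913, 38836819202058145673252967,
  4871953312807131251706829735011631297924642770781791457469066949669648480166205194240, 278849,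
  [G2Rp0_1, G2Rp0_7, G2Rp2_3, G2Rp5_4, G2Rp6_1, G2Rp8_1, G2Rp8_7, G2Rp8_9, G2Rp9_1, G2Rp9_7]⟩)))
  (.node 214 (.node 213 (.leaf ⟨18657906962, 38837999793787812278443202,
  4856775980502439214787164492588458875962214074509608418186954449759566296283604844556, 278853,
  [G2Rp0_7, G2Rp1_2, G2Rp1_3, G2Rp2_3, G2Rp5_4, G2Rp8_7, G2Rp8_9, G2Rp9_7]⟩) (.leaf ⟨18657464600,
  38837999800579533184173123,
  4856775980502439214787164492589799809560828544628449408339975057162646291354698514462, 278933,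
  [G2Rp0_7, G2Rp2_3, G2Rp2_4, G2Rp3_4, G2Rp5_1, G2Rp5_2, G2Rp5_3, G2Rp5_4, G2Rp6_1, G2Rp6_2,
  G2Rp6_3, G2Rp6_4, G2Rp8_7, G2Rp8_9, G2Rp9_7]⟩)) (.node 215 (.leaf ⟨18657468696,
  38876997370472855522772035,
  4856775980502439214787164492589608247618220308521154627400400365402555158933932867612, 278937,
  [G2Rp0_7, G2Rp1_0, G2Rp1_2, G2Rp1_3, G2Rp1_4, G2Rp1_7, G2Rp2_3, G2Rp2_4, G2Rp3_4, G2Rp5_2,
  G2Rp5_3, G2Rp5_4, G2Rp6_2, G2Rp6_3, G2Rp6_4, G2Rp8_7, G2Rp8_9, G2Rp9_7]⟩) (.leaf ⟨36038641177,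
  200952192577982273662587042,
  6799385587178475329257749214021995990980025934614455430413984732703574078849926823952, 541058,
  [G2Rp1_0, G2Rp1_4, G2Rp1_6, G2Rp1_7, G2Rp1_8, G2Rp1_9, G2Rp2_4, G2Rp3_2, G2Rp3_4, G2Rp5_4,
  G2Rp6_4, G2Rp8_7, G2Rp9_7, G2Rp9_8]⟩)))) (.node 220 (.node 218 (.node 217 (.leaf ⟨18657446169,
  38836819212436470287566087,
  4993371971244667547064151674397010673624429159688121147364806281066433663938608496656, 278913,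
  [G2Rp0_1, G2Rp0_4, G2Rp0_7, G2Rp1_4, G2Rp2_4, G2Rp3_2, G2Rp3_4, G2Rp5_4, G2Rp6_1, G2Rp6_4,
  G2Rp8_1, G2Rp8_4, G2Rp8_7, G2Rp8_9, G2Rp9_1, G2Rp9_4, G2Rp9_7]⟩) (.leaf ⟨18657857810,
  38837999793681194010287301,
  4856775980502439214787164492589608265156150749427682492737366720813411125918320033792, 278805,
  [G2Rp0_7, G2Rp3_2, G2Rp4_2, G2Rp4_3, G2Rp5_2, G2Rp5_3, G2Rp5_4, G2Rp8_7, G2Rp8_9, G2Rp9_7]⟩))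
  (.node 219 (.leaf ⟨18657419544, 38876997366988537534088262,
  4856775980502439214787164492589608247618487913380023974483843846198845465559654203392, 278889,
  [G2Rp0_7, G2Rp1_0, G2Rp1_7, G2Rp3_2, G2Rp5_2, G2Rp5_3, G2Rp5_4, G2Rp6_2, G2Rp6_3, G2Rp6_4,
  G2Rp8_7, G2Rp8_9, G2Rp9_7]⟩) (.leaf ⟨18657855762, 38836819202060482135465157,
  4871953312807131251706829735012972251984235558639938342437872200103570690754889121794, 278801,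
  [G2Rp0_1, G2Rp0_7, G2Rp2_1, G2Rp3_1, G2Rp3_2, G2Rp4_1, G2Rp4_2, G2Rp4_3, G2Rp5_1, G2Rp5_2,
  G2Rp5_3, G2Rp5_4, G2Rp6_1, G2Rp8_1, G2Rp8_7, G2Rp8_9, G2Rp9_1, G2Rp9_7]⟩))) (.node 222 (.node 221
  (.leaf ⟨36039067153, 200952192571092871241896036,
  6799385587178475329257749214023145380173605789442576209525429773259749789722062094348, 540962,
  [G2Rp1_0, G2Rp1_2, G2Rp1_3, G2Rp1_6, G2Rp1_7, G2Rp1_8, G2Rp1_9, G2Rp2_3, G2Rp4_2, G2Rp4_3,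
  G2Rp5_2, G2Rp5_3, G2Rp5_4, G2Rp8_7, G2Rp9_7, G2Rp9_8]⟩) (.leaf ⟨18657872145,
  38836819202067216644182119,
  4963017306635283473224821189551815218893151621971875846010224011783957363702297788428, 278817,
  [G2Rp0_1, G2Rp0_2, G2Rp0_3, G2Rp0_7, G2Rp1_2, G2Rp1_3, G2Rp2_3, G2Rp4_2, G2Rp4_3, G2Rp5_2,
  G2Rp5_3, G2Rp5_4, G2Rp6_1, G2Rp6_2, G2Rp6_3, G2Rp8_1, G2Rp8_2, G2Rp8_3, G2Rp8_7, G2Rp8_9, G2Rp9_1,
  G2Rp9_2, G2Rp9_3, G2Rp9_7]⟩)) (.node 223 (.leaf ⟨36039050770, 440553490274146081183148229,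
  6799385587178475329257749214115383862987024171448721896552488789023230910823523156931, 540946,
  [G2Rp1_0, G2Rp1_6, G2Rp1_7, G2Rp1_8, G2Rp1_9, G2Rp2_0, G2Rp2_1, G2Rp2_6, G2Rp2_7, G2Rp2_8,
  G2Rp2_9, G2Rp3_0, G2Rp3_1, G2Rp3_2, G2Rp3_6, G2Rp3_7, G2Rp3_8, G2Rp3_9, G2Rp4_0, G2Rp4_1, G2Rp4_2,
  G2Rp4_3, G2Rp4_6, G2Rp4_7, G2Rp4_8, G2Rp4_9, G2Rp5_0, G2Rp5_1, G2Rp5_2, G2Rp5_3, G2Rp5_4, G2Rp5_6,
  G2Rp5_7, G2Rp5_8, G2Rp5_9, G2Rp8_7, G2Rp9_7, G2Rp9_8]⟩) (.leaf ⟨18657878289,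
  39071985213044491001270372,
  4856775980502439214787164492602155763856626101063693336247959113437072197318035308687, 278825,
  [G2Rp0_7, G2Rp1_0, G2Rp1_7, G2Rp2_3, G2Rp4_0, G2Rp4_1, G2Rp4_2, G2Rp4_3, G2Rp4_7, G2Rp5_0,
  G2Rp5_1, G2Rp5_2, G2Rp5_3, G2Rp5_4, G2Rp5_7, G2Rp8_7, G2Rp8_9, G2Rp9_7]⟩)))))) (.node 240 (.node
  232 (.node 228 (.node 226 (.node 225 (.leaf ⟨18658642194, 38836819422803831006698594,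
  4871953312807131251706829735010098849152899730657321853069360491666800573547463835698, 279057,
  [G2Rp0_1, G2Rp0_7, G2Rp2_1, G2Rp2_4, G2Rp2_5, G2Rp3_1, G2Rp3_2, G2Rp3_4, G2Rp3_5, G2Rp4_5,
  G2Rp6_1, G2Rp8_1, G2Rp8_7, G2Rp8_9, G2Rp9_1, G2Rp9_7]⟩) (.leaf ⟨18658644242,
  38838000014424542881520738,
  4856775980502439214787164492586926427190471033704563698203911367017734393826540257328, 279061,
  [G2Rp0_7, G2Rp1_4, G2Rp1_5, G2Rp2_4, G2Rp2_5, G2Rp3_2, G2Rp3_4, G2Rp3_5, G2Rp4_5, G2Rp8_7,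
  G2Rp8_9, G2Rp9_7]⟩)) (.node 227 (.leaf ⟨18657452313, 38993990077825069449479266,
  4856775980502439214787164492588458875962570937816144051751941434469317528559006253203, 278921,
  [G2Rp0_7, G2Rp1_0, G2Rp1_7, G2Rp2_0, G2Rp2_1, G2Rp2_4, G2Rp2_7, G2Rp3_0, G2Rp3_1, G2Rp3_2,
  G2Rp3_4, G2Rp3_7, G2Rp5_4, G2Rp6_4, G2Rp8_7, G2Rp8_9, G2Rp9_7]⟩) (.leaf ⟨36039853585,
  200952192791836220113132545,
  6799385587178475329257749214020463542207926073719457414991916391024731555429896421436, 541218,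
  [G2Rp1_0, G2Rp1_2, G2Rp1_3, G2Rp1_4, G2Rp1_5, G2Rp1_6, G2Rp1_7, G2Rp1_8, G2Rp1_9, G2Rp2_3,
  G2Rp2_4, G2Rp2_5, G2Rp3_4, G2Rp3_5, G2Rp4_5, G2Rp8_7, G2Rp9_7, G2Rp9_8]⟩))) (.node 230 (.node 229
  (.leaf ⟨18658664721, 38954992724107856750582785,
  4856775980502439214787164492586926427190471032343475775312446509149694821688435212479, 279081,
  [G2Rp0_7, G2Rp1_0, G2Rp1_7, G2Rp2_3, G2Rp2_4, G2Rp2_5, G2Rp3_4, G2Rp3_5, G2Rp4_5, G2Rp8_7,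
  G2Rp8_9, G2Rp9_7]⟩) (.leaf ⟨18658763025, 39071985322217130826928132,
  4856775980502439214787164492586926427193660068511820998807722550248414171172316315779, 279177,
  [G2Rp0_7, G2Rp1_0, G2Rp1_7, G2Rp2_0, G2Rp2_1, G2Rp2_7, G2Rp3_0, G2Rp3_1, G2Rp3_2, G2Rp3_7,
  G2Rp4_5, G2Rp8_7, G2Rp8_9, G2Rp9_7]⟩)) (.node 231 (.leaf ⟨36039951889,
  200952192680265511067553796,
  6799385587178475329257749214020463542208193667689124864570554726052462645363093536768, 541314,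
  [G2Rp1_0, G2Rp1_6, G2Rp1_7, G2Rp1_8, G2Rp1_9, G2Rp3_2, G2Rp4_5, G2Rp8_7, G2Rp9_7, G2Rp9_8]⟩)
  (.leaf ⟨18658756881, 38836819311236454855741447,
  4871953312807131251706829735010098849153167322585326259657209005735915457480664809472, 279169,
  [G2Rp0_1, G2Rp0_7, G2Rp3_2, G2Rp4_5, G2Rp6_1, G2Rp8_1, G2Rp8_7, G2Rp8_9, G2Rp9_1, G2Rp9_7]⟩))))
  (.node 236 (.node 234 (.node 233 (.leaf ⟨18658431270, 38837999936637496831642691,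
  4856775980502439214787164492586926538265933497870206544457051931507959703457105707020, 279109,
  [G2Rp0_7, G2Rp1_2, G2Rp1_3, G2Rp2_3, G2Rp4_2, G2Rp4_3, G2Rp4_5, G2Rp4_6, G2Rp8_7, G2Rp8_9,
  G2Rp9_7]⟩) (.leaf ⟨18560211080, 154785119339481824554388547,
  3885441651088053010160148958866824108950849691602677555856429063387456796017898160142, 287893,
  [G2Rp2_3, G2Rp4_1, G2Rp4_2, G2Rp4_3, G2Rp4_5, G2Rp6_5, G2Rp7_0, G2Rp7_9, G2Rp8_0, G2Rp8_7,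
  G2Rp8_9]⟩)) (.node 235 (.leaf ⟨36039837202, 320752841643361158636444770,
  6799385587178475329257749214020463542207926402777464866285621569637363310331524285427, 541202,
  [G2Rp1_0, G2Rp1_6, G2Rp1_7, G2Rp1_8, G2Rp1_9, G2Rp2_0, G2Rp2_1, G2Rp2_4, G2Rp2_5, G2Rp2_6,
  G2Rp2_7, G2Rp2_8, G2Rp2_9, G2Rp3_0, G2Rp3_1, G2Rp3_2, G2Rp3_4, G2Rp3_5, G2Rp3_6, G2Rp3_7, G2Rp3_8,
  G2Rp3_9, G2Rp4_5, G2Rp8_7, G2Rp9_7, G2Rp9_8]⟩) (.leaf ⟨18658658577, 38836819645953254916895751,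
  5327273281947892359296787007705271508025760616781150017069270464911958176860789801020, 279073,
  [G2Rp0_1, G2Rp0_2, G2Rp0_3, G2Rp0_4, G2Rp0_5, G2Rp0_7, G2Rp1_2, G2Rp1_3, G2Rp1_4, G2Rp1_5,
  G2Rp2_3, G2Rp2_4, G2Rp2_5, G2Rp3_4, G2Rp3_5, G2Rp4_5, G2Rp6_1, G2Rp6_2, G2Rp6_3, G2Rp6_4, G2Rp6_5,
  G2Rp8_1, G2Rp8_2, G2Rp8_3, G2Rp8_4, G2Rp8_5, G2Rp8_7, G2Rp8_9, G2Rp9_1, G2Rp9_2, G2Rp9_3, G2Rp9_4,
  G2Rp9_5, G2Rp9_7]⟩))) (.node 238 (.node 237 (.leaf ⟨18662658340, 38837999793681199384501445,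
  4856775980502439214787164492595929905722802476450085205169503950082719617477582520386, 280165,
  [G2Rp0_7, G2Rp2_1, G2Rp2_6, G2Rp3_1, G2Rp3_2, G2Rp3_6, G2Rp4_1, G2Rp4_2, G2Rp4_3, G2Rp4_6,
  G2Rp5_1, G2Rp5_2, G2Rp5_3, G2Rp5_4, G2Rp5_6, G2Rp8_7, G2Rp8_9, G2Rp9_7]⟩) (.leaf ⟨18662662436,
  38876997363574519574568133,
  4856775980502439214787164492595738340857146363510012410992896375385027589491870662720, 280169,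
  [G2Rp0_7, G2Rp1_0, G2Rp1_6, G2Rp1_7, G2Rp2_6, G2Rp3_2, G2Rp3_6, G2Rp4_2, G2Rp4_3, G2Rp4_6,
  G2Rp5_2, G2Rp5_3, G2Rp5_4, G2Rp5_6, G2Rp8_7, G2Rp8_9, G2Rp9_7]⟩)) (.node 239 (.leaf ⟨18661050657,
  38836819348425136888026314,
  4871953312807131251706829735016420489719551455638061517757018149121632603502674968576, 279617,
  [G2Rp0_1, G2Rp0_7, G2Rp2_1, G2Rp2_3, G2Rp2_4, G2Rp2_5, G2Rp2_6, G2Rp3_1, G2Rp3_4, G2Rp3_5,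
  G2Rp3_6, G2Rp4_1, G2Rp4_5, G2Rp4_6, G2Rp5_1, G2Rp5_6, G2Rp6_1, G2Rp8_1, G2Rp8_7, G2Rp8_9, G2Rp9_1,
  G2Rp9_7]⟩) (.leaf ⟨18662623526, 38836819202063817246937188,
  4871953312807131251706829735019102327685231148902201407718881444835131939030528032782, 280129,
  [G2Rp0_1, G2Rp0_7, G2Rp2_3, G2Rp4_1, G2Rp4_2, G2Rp4_3, G2Rp4_6, G2Rp5_1, G2Rp5_2, G2Rp5_3,
  G2Rp5_4, G2Rp5_6, G2Rp6_1, G2Rp8_1, G2Rp8_7, G2Rp8_9, G2Rp9_1, G2Rp9_7]⟩))))) (.node 248 (.node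
  244 (.node 242 (.node 241 (.leaf ⟨18662625574, 38837999793684526907166820,
  4856775980502439214787164492595738340857146340370520677404722419407986076714187620364, 280133,
  [G2Rp0_7, G2Rp1_2, G2Rp1_3, G2Rp2_3, G2Rp4_2, G2Rp4_3, G2Rp4_6, G2Rp5_2, G2Rp5_3, G2Rp5_4,
  G2Rp5_6, G2Rp8_7, G2Rp8_9, G2Rp9_7]⟩) (.leaf ⟨36042049057, 200952192606065071946303591,
  6799385587178475329257749214027743007100360641145419326518772266635074029018466222080, 541826,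
  [G2Rp1_0, G2Rp1_6, G2Rp1_7, G2Rp1_8, G2Rp1_9, G2Rp3_2, G2Rp4_2, G2Rp4_3, G2Rp4_5, G2Rp4_6,
  G2Rp5_2, G2Rp5_3, G2Rp5_6, G2Rp8_7, G2Rp9_7, G2Rp9_8]⟩)) (.node 243 (.leaf ⟨36042245665,
  200952192717454189774705863,
  6799385587178475329257749214026593617908921687801787313202723347339109837095168901120, 541762,
  [G2Rp1_0, G2Rp1_6, G2Rp1_7, G2Rp1_8, G2Rp1_9, G2Rp2_3, G2Rp2_4, G2Rp2_5, G2Rp2_6, G2Rp3_4,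
  G2Rp3_5, G2Rp3_6, G2Rp4_5, G2Rp4_6, G2Rp5_6, G2Rp8_7, G2Rp9_7, G2Rp9_8]⟩) (.leaf ⟨18660741410,
  38837999828651058252580962,
  4856775980502439214787164492593056502888968926212451535180282436025055159978372890624, 279573,
  [G2Rp0_7, G2Rp3_2, G2Rp4_5, G2Rp4_6, G2Rp5_6, G2Rp8_7, G2Rp8_9, G2Rp9_7]⟩))) (.node 246 (.node 245
  (.leaf ⟨18662711588, 38876997363644819598186657,
  4856775980502439214787164492594588951663209688591938336442469597221347384307058999372, 280217,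
  [G2Rp0_7, G2Rp1_0, G2Rp1_2, G2Rp1_3, G2Rp1_6, G2Rp1_7, G2Rp2_3, G2Rp2_6, G2Rp3_6, G2Rp4_6,
  G2Rp5_4, G2Rp5_6, G2Rp8_7, G2Rp8_9, G2Rp9_7]⟩) (.leaf ⟨36041934370, 320752841457587674007406690,
  6799385587178475329257749214026593617906424295285352707065002467768713783173852431299, 541714,
  [G2Rp1_0, G2Rp1_6, G2Rp1_7, G2Rp1_8, G2Rp1_9, G2Rp2_0, G2Rp2_1, G2Rp2_6, G2Rp2_7, G2Rp2_8,
  G2Rp2_9, G2Rp3_0, G2Rp3_1, G2Rp3_2, G2Rp3_6, G2Rp3_7, G2Rp3_8, G2Rp3_9, G2Rp4_5, G2Rp4_6, G2Rp5_6,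
  G2Rp8_7, G2Rp9_7, G2Rp9_8]⟩)) (.node 247 (.leaf ⟨36041950753, 200952192606171690214459492,
  6799385587178475329257749214027743007100093030841949030682926212954504114046482776076, 541730,
  [G2Rp1_0, G2Rp1_2, G2Rp1_3, G2Rp1_6, G2Rp1_7, G2Rp1_8, G2Rp1_9, G2Rp2_3, G2Rp4_2, G2Rp4_3,
  G2Rp4_5, G2Rp4_6, G2Rp5_2, G2Rp5_3, G2Rp5_6, G2Rp8_7, G2Rp9_7, G2Rp9_8]⟩) (.leaf ⟨19885483080,
  278244309790221903566343235,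
  3885426714359111554159200554720225083103062349374636450882294021462223372048989945860, 300058,
  [G2Rp0_7, G2Rp0_8, G2Rp0_9, G2Rp1_2, G2Rp3_2, G2Rp3_5, G2Rp3_6, G2Rp4_2, G2Rp4_5, G2Rp4_6,
  G2Rp7_8, G2Rp7_9, G2Rp8_9]⟩)))) (.node 252 (.node 250 (.node 249 (.leaf ⟨18661019940,
  38837999977239026348562497,
  4856775980502439214787164492593056502891645014275779202490254117334955254184190410874, 279589,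
  [G2Rp0_7, G2Rp2_1, G2Rp2_3, G2Rp2_4, G2Rp2_5, G2Rp2_6, G2Rp4_5, G2Rp4_6, G2Rp5_6, G2Rp8_7,
  G2Rp8_9, G2Rp9_7]⟩) (.leaf ⟨18660755745, 38836819237251588733110375,
  4963017306635283473224821189556604410685250374140349296953483905559230069737446440972, 279585,
  [G2Rp0_1, G2Rp0_2, G2Rp0_3, G2Rp0_7, G2Rp1_2, G2Rp1_3, G2Rp2_3, G2Rp4_1, G2Rp4_2, G2Rp4_3,
  G2Rp4_5, G2Rp4_6, G2Rp5_1, G2Rp5_2, G2Rp5_3, G2Rp5_6, G2Rp6_1, G2Rp6_2, G2Rp6_3, G2Rp8_1, G2Rp8_2,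
  G2Rp8_3, G2Rp8_7, G2Rp8_9, G2Rp9_1, G2Rp9_2, G2Rp9_3, G2Rp9_7]⟩)) (.node 251 (.leaf ⟨18661085476,
  38838000014424545034509410,
  4856775980502439214787164492593056502891466648467468715800992241645949500270157234290, 279653,
  [G2Rp0_7, G2Rp2_1, G2Rp2_4, G2Rp2_5, G2Rp2_6, G2Rp3_1, G2Rp3_2, G2Rp3_4, G2Rp3_5, G2Rp3_6,
  G2Rp4_5, G2Rp4_6, G2Rp5_6, G2Rp8_7, G2Rp8_9, G2Rp9_7]⟩) (.leaf ⟨18661052706,
  38838000051618890951991586,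
  4856775980502439214787164492593056502891466646425805677880954728401883114274629353596, 279621,
  [G2Rp0_7, G2Rp1_2, G2Rp1_3, G2Rp1_4, G2Rp1_5, G2Rp1_6, G2Rp2_3, G2Rp2_4, G2Rp2_5, G2Rp2_6,
  G2Rp3_4, G2Rp3_5, G2Rp3_6, G2Rp4_5, G2Rp4_6, G2Rp5_6, G2Rp8_7, G2Rp8_9, G2Rp9_7]⟩))) (.node 254
  (.node 253 (.leaf ⟨18661007652, 38876997547132522632288321,
  4856775980502439214787164492593056502891734218617069352494555563348101738713392611452, 279577,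
  [G2Rp0_7, G2Rp1_0, G2Rp1_2, G2Rp1_3, G2Rp1_4, G2Rp1_5, G2Rp1_6, G2Rp1_7, G2Rp3_2, G2Rp4_5,
  G2Rp4_6, G2Rp5_6, G2Rp8_7, G2Rp8_9, G2Rp9_7]⟩) (.leaf ⟨18657464612, 38838000016643357349713024,
  4856775980502439214787164492588458875964711796084050479421317801517446934527606784126, 278933,
  [G2Rp0_7, G2Rp2_3, G2Rp2_4, G2Rp2_5, G2Rp2_6, G2Rp3_4, G2Rp3_5, G2Rp3_6, G2Rp5_4, G2Rp8_7,
  G2Rp8_9, G2Rp9_7]⟩)) (.node 255 (.leaf ⟨18657448230, 38837999942261498807716931,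
  4856775980502439214787164492588458875964801000425350994291531104688948107032072028164, 278917,
  [G2Rp0_7, G2Rp1_2, G2Rp3_2, G2Rp3_4, G2Rp3_5, G2Rp3_6, G2Rp5_4, G2Rp8_7, G2Rp8_9, G2Rp9_7]⟩)
  (.leaf ⟨18657415460, 38838000016536742302782595,
  4856775980502439214787164492588458875965024008558492955889778873387740473201324458098, 278885,
  [G2Rp0_7, G2Rp2_1, G2Rp2_4, G2Rp2_5, G2Rp2_6, G2Rp3_1, G2Rp3_2, G2Rp3_4, G2Rp3_5, G2Rp3_6,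
  G2Rp5_4, G2Rp8_7, G2Rp8_9, G2Rp9_7]⟩))))))

def G2RT5 : Tr :=
  .node 288 (.node 272 (.node 264 (.node 260 (.node 258 (.node 257 (.leaf ⟨18665804356,
  39071985285026117800037507,
  4856775980502439214787164492605604001592209572294743213484474285457101116949175205890, 285029,
  [G2Rp0_7, G2Rp2_1, G2Rp3_1, G2Rp3_2, G2Rp4_0, G2Rp4_1, G2Rp4_5, G2Rp4_6, G2Rp4_7, G2Rp5_0,
  G2Rp5_1, G2Rp5_6, G2Rp5_7, G2Rp6_0, G2Rp6_1, G2Rp6_7, G2Rp8_7, G2Rp8_9, G2Rp9_7]⟩) (.leaf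
  ⟨18665280068, 38993990077825071591785570,
  4856775980502439214787164492607136165366873914380291256829092504033361642693021663250, 284773,
  [G2Rp0_7, G2Rp2_1, G2Rp2_4, G2Rp3_1, G2Rp3_2, G2Rp3_4, G2Rp5_0, G2Rp5_1, G2Rp5_4, G2Rp5_6,
  G2Rp5_7, G2Rp6_0, G2Rp6_1, G2Rp6_7, G2Rp8_7, G2Rp8_9, G2Rp9_7]⟩)) (.node 259 (.leaf ⟨18657419556,
  38876997586430064640332931,
  4856775980502439214787164492588458875964979406387520795301886553455255031407860252784, 278889,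
  [G2Rp0_7, G2Rp1_0, G2Rp1_4, G2Rp1_5, G2Rp1_6, G2Rp1_7, G2Rp2_4, G2Rp2_5, G2Rp2_6, G2Rp3_2,
  G2Rp3_4, G2Rp3_5, G2Rp3_6, G2Rp5_4, G2Rp8_7, G2Rp8_9, G2Rp9_7]⟩) (.leaf ⟨26074288402,
  161018643174662468250115170,
  6799385587178475329257749214020463542208193667689124793185977881668316106658343026748, 393861,
  [G2Rp1_2, G2Rp1_3, G2Rp1_4, G2Rp1_5, G2Rp3_2, G2Rp4_5, G2Rp6_0, G2Rp6_7, G2Rp6_8, G2Rp6_9,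
  G2Rp8_7, G2Rp9_7, G2Rp9_8]⟩))) (.node 262 (.node 261 (.leaf ⟨26078187812,
  480487039891322170313546949,
  6799385587178475329257749214115383862987024171448721820414149658234047242883179807683, 394853,
  [G2Rp2_0, G2Rp2_1, G2Rp2_6, G2Rp2_7, G2Rp2_8, G2Rp2_9, G2Rp3_0, G2Rp3_1, G2Rp3_2, G2Rp3_6,
  G2Rp3_7, G2Rp3_8, G2Rp3_9, G2Rp4_0, G2Rp4_1, G2Rp4_2, G2Rp4_3, G2Rp4_6, G2Rp4_7, G2Rp4_8, G2Rp4_9,
  G2Rp5_0, G2Rp5_1, G2Rp5_2, G2Rp5_3, G2Rp5_4, G2Rp5_6, G2Rp5_7, G2Rp5_8, G2Rp5_9, G2Rp6_0, G2Rp6_7,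
  G2Rp6_8, G2Rp6_9, G2Rp8_7, G2Rp9_7, G2Rp9_8]⟩) (.leaf ⟨26078191908, 480487039891322163904650437,
  6799385587178475329257749214115192298121368058508649087084770894491366486739221808065, 394857,
  [G2Rp1_0, G2Rp1_6, G2Rp1_7, G2Rp1_8, G2Rp1_9, G2Rp2_0, G2Rp2_6, G2Rp2_7, G2Rp2_8, G2Rp2_9,
  G2Rp3_0, G2Rp3_2, G2Rp3_6, G2Rp3_7, G2Rp3_8, G2Rp3_9, G2Rp4_0, G2Rp4_2, G2Rp4_3, G2Rp4_6, G2Rp4_7,
  G2Rp4_8, G2Rp4_9, G2Rp5_0, G2Rp5_2, G2Rp5_3, G2Rp5_4, G2Rp5_6, G2Rp5_7, G2Rp5_8, G2Rp5_9, G2Rp6_0,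
  G2Rp6_7, G2Rp6_8, G2Rp6_9, G2Rp8_7, G2Rp9_7, G2Rp9_8]⟩)) (.node 263 (.leaf ⟨26078152998,
  360686391039797240816373860,
  6799385587178475383178465313249527526115493028692833233307783367560927602172129902606, 394817,
  [G2Rp0_1, G2Rp2_3, G2Rp4_0, G2Rp4_1, G2Rp4_2, G2Rp4_3, G2Rp4_6, G2Rp4_7, G2Rp4_8, G2Rp4_9,
  G2Rp5_0, G2Rp5_1, G2Rp5_2, G2Rp5_3, G2Rp5_4, G2Rp5_6, G2Rp5_7, G2Rp5_8, G2Rp5_9, G2Rp6_0, G2Rp6_1,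
  G2Rp6_7, G2Rp6_8, G2Rp6_9, G2Rp8_7, G2Rp9_7, G2Rp9_8]⟩) (.leaf ⟨26078155046,
  360686391039797229743411300,
  6799385587178475329257749214115192298121367730131216674285460660529498980616388804620, 394821,
  [G2Rp1_2, G2Rp1_3, G2Rp2_3, G2Rp4_0, G2Rp4_2, G2Rp4_3, G2Rp4_6, G2Rp4_7, G2Rp4_8, G2Rp4_9,
  G2Rp5_0, G2Rp5_2, G2Rp5_3, G2Rp5_4, G2Rp5_6, G2Rp5_7, G2Rp5_8, G2Rp5_9, G2Rp6_0, G2Rp6_7, G2Rp6_8,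
  G2Rp6_9, G2Rp8_7, G2Rp9_7, G2Rp9_8]⟩)))) (.node 268 (.node 266 (.node 265 (.leaf ⟨26076270882,
  280819291840411582360291426,
  6799385587178475329257749214112510460133186547530065563103063137856002483609650855936, 394261,
  [G2Rp3_2, G2Rp4_0, G2Rp4_5, G2Rp4_6, G2Rp4_7, G2Rp4_8, G2Rp4_9, G2Rp5_0, G2Rp5_6, G2Rp5_7,
  G2Rp5_8, G2Rp5_9, G2Rp6_0, G2Rp6_7, G2Rp6_8, G2Rp6_9, G2Rp8_7, G2Rp9_7, G2Rp9_8]⟩) (.leaf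
  ⟨26078241060, 440553490274216374564001953,
  6799385587178475329257749214114042908927431383590575012534344116327686281554410144717, 394905,
  [G2Rp1_0, G2Rp1_2, G2Rp1_3, G2Rp1_6, G2Rp1_7, G2Rp1_8, G2Rp1_9, G2Rp2_0, G2Rp2_3, G2Rp2_6,
  G2Rp2_7, G2Rp2_8, G2Rp2_9, G2Rp3_0, G2Rp3_6, G2Rp3_7, G2Rp3_8, G2Rp3_9, G2Rp4_0, G2Rp4_6, G2Rp4_7,
  G2Rp4_8, G2Rp4_9, G2Rp5_0, G2Rp5_4, G2Rp5_6, G2Rp5_7, G2Rp5_8, G2Rp5_9, G2Rp6_0, G2Rp6_7, G2Rp6_8,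
  G2Rp6_9, G2Rp8_7, G2Rp9_7, G2Rp9_8]⟩)) (.node 267 (.leaf ⟨26076549412,
  440553490457703907913340993,
  6799385587178475329257749214112510460155866404041132689653098098839260013293702022139, 394277,
  [G2Rp2_0, G2Rp2_1, G2Rp2_3, G2Rp2_4, G2Rp2_5, G2Rp2_6, G2Rp2_7, G2Rp2_8, G2Rp2_9, G2Rp4_0,
  G2Rp4_5, G2Rp4_6, G2Rp4_7, G2Rp4_8, G2Rp4_9, G2Rp5_0, G2Rp5_6, G2Rp5_7, G2Rp5_8, G2Rp5_9, G2Rp6_0,
  G2Rp6_7, G2Rp6_8, G2Rp6_9, G2Rp8_7, G2Rp9_7, G2Rp9_8]⟩) (.leaf ⟨26076614948,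
  480487040112065515963554914,
  6799385587178475329257749214112510460155688343466105331045637949797277125675754521587, 394341,
  [G2Rp2_0, G2Rp2_1, G2Rp2_4, G2Rp2_5, G2Rp2_6, G2Rp2_7, G2Rp2_8, G2Rp2_9, G2Rp3_0, G2Rp3_1,
  G2Rp3_2, G2Rp3_4, G2Rp3_5, G2Rp3_6, G2Rp3_7, G2Rp3_8, G2Rp3_9, G2Rp4_0, G2Rp4_5, G2Rp4_6, G2Rp4_7,
  G2Rp4_8, G2Rp4_9, G2Rp5_0, G2Rp5_6, G2Rp5_7, G2Rp5_8, G2Rp5_9, G2Rp6_0, G2Rp6_7, G2Rp6_8, G2Rp6_9,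
  G2Rp8_7, G2Rp9_7, G2Rp9_8]⟩))) (.node 270 (.node 269 (.leaf ⟨26076582178,
  520420589766435951245304098,
  6799385587178475329257749214112510460155688341424442364193262211848321561089091306493, 394309,
  [G2Rp1_0, G2Rp1_2, G2Rp1_3, G2Rp1_4, G2Rp1_5, G2Rp1_6, G2Rp1_7, G2Rp1_8, G2Rp1_9, G2Rp2_0,
  G2Rp2_3, G2Rp2_4, G2Rp2_5, G2Rp2_6, G2Rp2_7, G2Rp2_8, G2Rp2_9, G2Rp3_0, G2Rp3_4, G2Rp3_5, G2Rp3_6,
  G2Rp3_7, G2Rp3_8, G2Rp3_9, G2Rp4_0, G2Rp4_5, G2Rp4_6, G2Rp4_7, G2Rp4_8, G2Rp4_9, G2Rp5_0, G2Rp5_6,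
  G2Rp5_7, G2Rp5_8, G2Rp5_9, G2Rp6_0, G2Rp6_7, G2Rp6_8, G2Rp6_9, G2Rp8_7, G2Rp9_7, G2Rp9_8]⟩) (.leaf
  ⟨26076537124, 440553490457704077598103617,
  6799385587178475329257749214112510460155955608377765410222522615424625914457347654653, 394265,
  [G2Rp1_0, G2Rp1_2, G2Rp1_3, G2Rp1_4, G2Rp1_5, G2Rp1_6, G2Rp1_7, G2Rp1_8, G2Rp1_9, G2Rp3_2,
  G2Rp4_0, G2Rp4_5, G2Rp4_6, G2Rp4_7, G2Rp4_8, G2Rp4_9, G2Rp5_0, G2Rp5_6, G2Rp5_7, G2Rp5_8, G2Rp5_9,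
  G2Rp6_0, G2Rp6_7, G2Rp6_8, G2Rp6_9, G2Rp8_7, G2Rp9_7, G2Rp9_8]⟩)) (.node 271 (.leaf ⟨26072944932,
  400619940879825534503294083,
  6799385587178475329257749214021995991002483123615497112219515426426573905198012498931, 393573,
  [G2Rp2_0, G2Rp2_1, G2Rp2_4, G2Rp2_5, G2Rp2_6, G2Rp2_7, G2Rp2_8, G2Rp2_9, G2Rp3_0, G2Rp3_1,
  G2Rp3_2, G2Rp3_4, G2Rp3_5, G2Rp3_6, G2Rp3_7, G2Rp3_8, G2Rp3_9, G2Rp5_4, G2Rp6_0, G2Rp6_7, G2Rp6_8,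
  G2Rp6_9, G2Rp8_7, G2Rp9_7, G2Rp9_8]⟩) (.leaf ⟨26072994084, 400619940879932149550224512,
  6799385587178475329257749214021995991002170911141054635751054354556280366524294824959, 393621,
  [G2Rp2_0, G2Rp2_3, G2Rp2_4, G2Rp2_5, G2Rp2_6, G2Rp2_7, G2Rp2_8, G2Rp2_9, G2Rp3_0, G2Rp3_4,
  G2Rp3_5, G2Rp3_6, G2Rp3_7, G2Rp3_8, G2Rp3_9, G2Rp5_4, G2Rp6_0, G2Rp6_7, G2Rp6_8, G2Rp6_9, G2Rp8_7,
  G2Rp9_7, G2Rp9_8]⟩))))) (.node 280 (.node 276 (.node 274 (.node 273 (.leaf ⟨18562029702,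
  154785119270902084579361958,
  3885441651088053010160148958868739666992926654840452568539457700905175328904255373316, 288389,
  [G2Rp1_2, G2Rp3_2, G2Rp4_2, G2Rp5_2, G2Rp5_4, G2Rp6_2, G2Rp6_4, G2Rp6_5, G2Rp7_0, G2Rp7_9,
  G2Rp8_0, G2Rp8_7, G2Rp8_9]⟩) (.leaf ⟨18657911057, 39071985213038821644439652,
  4856775980502439214787164492601006374662689472084377447587086736456101195347898073219, 278857,
  [G2Rp0_7, G2Rp1_0, G2Rp1_7, G2Rp2_0, G2Rp2_1, G2Rp2_3, G2Rp2_7, G2Rp3_0, G2Rp3_1, G2Rp3_7,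
  G2Rp4_0, G2Rp4_1, G2Rp4_7, G2Rp5_0, G2Rp5_1, G2Rp5_4, G2Rp5_7, G2Rp8_7, G2Rp8_9, G2Rp9_7]⟩))
  (.node 275 (.leaf ⟨19738796305, 78592403930167491230172167,
  3885426714359087397678388142626833087429759777573584764905035716521887605159138099203, 297097,
  [G2Rp1_0, G2Rp2_0, G2Rp2_1, G2Rp3_0, G2Rp3_1, G2Rp3_2, G2Rp4_0, G2Rp4_1, G2Rp4_2, G2Rp4_3,
  G2Rp5_0, G2Rp5_1, G2Rp5_2, G2Rp5_3, G2Rp5_4, G2Rp6_0, G2Rp6_1, G2Rp6_2, G2Rp6_3, G2Rp6_4, G2Rp6_5,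
  G2Rp7_8, G2Rp7_9, G2Rp8_9]⟩) (.leaf ⟨19738790161, 78580293642683099726742536,
  3900604046667313128727610153708884757095190141467313558651120126322900216456282898432, 297089,
  [G2Rp0_1, G2Rp3_2, G2Rp4_2, G2Rp4_3, G2Rp5_2, G2Rp5_3, G2Rp5_4, G2Rp6_1, G2Rp6_2, G2Rp6_3,
  G2Rp6_4, G2Rp6_5, G2Rp7_1, G2Rp7_8, G2Rp7_9, G2Rp8_1, G2Rp8_9, G2Rp9_1]⟩))) (.node 278 (.node 277
  (.leaf ⟨19738808600, 78581474234307149831341222,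
  3885426714359087397678388142626737304996931719061885312347510138995250776591362293774, 297109,
  [G2Rp2_3, G2Rp4_1, G2Rp4_2, G2Rp4_3, G2Rp5_1, G2Rp5_2, G2Rp5_3, G2Rp5_4, G2Rp6_1, G2Rp6_2,
  G2Rp6_3, G2Rp6_4, G2Rp6_5, G2Rp7_8, G2Rp7_9, G2Rp8_9]⟩) (.leaf ⟨19738698001,
  78585092101982931494372353,
  3885426714359087397678388142625396350937338933245401475202410205038426195240706572303, 297001,
  [G2Rp1_0, G2Rp2_3, G2Rp5_4, G2Rp6_4, G2Rp6_5, G2Rp7_8, G2Rp7_9, G2Rp8_9]⟩)) (.node 279 (.leaf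
  ⟨19738677528, 78581474234298353738319014,
  3885426714359087397678388142625971045534307272065547211370086539086213211676563865606, 296981,
  [G2Rp3_1, G2Rp3_2, G2Rp4_1, G2Rp4_2, G2Rp5_1, G2Rp5_2, G2Rp5_4, G2Rp6_1, G2Rp6_2, G2Rp6_4,
  G2Rp6_5, G2Rp7_8, G2Rp7_9, G2Rp8_9]⟩) (.leaf ⟨19738675474, 78580293754247074263601250,
  3900604046667313128727610153707735367901253484924705373348690887770671664558993571890, 296977,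
  [G2Rp0_1, G2Rp2_1, G2Rp2_4, G2Rp2_5, G2Rp3_1, G2Rp3_2, G2Rp3_4, G2Rp3_5, G2Rp5_4, G2Rp6_1,
  G2Rp6_4, G2Rp6_5, G2Rp7_1, G2Rp7_8, G2Rp7_9, G2Rp8_1, G2Rp8_9, G2Rp9_1]⟩)))) (.node 284 (.node 282
  (.node 281 (.leaf ⟨19734481186, 78580293603270933630519394,
  3900604046667313128727610153712524559693619829701758349315393292197052019326953979906, 295953,
  [G2Rp0_1, G2Rp2_1, G2Rp3_1, G2Rp3_2, G2Rp4_1, G2Rp4_5, G2Rp4_6, G2Rp5_1, G2Rp5_6, G2Rp6_1,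
  G2Rp7_1, G2Rp7_8, G2Rp7_9, G2Rp8_1, G2Rp8_9, G2Rp9_1]⟩) (.leaf ⟨19738691857,
  78580293642934990968718344,
  3991668040516667515022942220201769469684740666372267532261340734497430669798386958348, 296993,
  [G2Rp0_1, G2Rp0_2, G2Rp0_3, G2Rp1_2, G2Rp1_3, G2Rp2_3, G2Rp5_4, G2Rp6_1, G2Rp6_2, G2Rp6_3,
  G2Rp6_4, G2Rp6_5, G2Rp7_1, G2Rp7_2, G2Rp7_3, G2Rp7_8, G2Rp7_9, G2Rp8_1, G2Rp8_2, G2Rp8_3, G2Rp8_9,
  G2Rp9_1, G2Rp9_2, G2Rp9_3]⟩)) (.node 283 (.leaf ⟨19739517209, 78585092211161068878169153,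
  3885426714359087397678388142623863902165774280707319032728885819208189700499662438459, 297289,
  [G2Rp1_0, G2Rp2_0, G2Rp2_1, G2Rp2_3, G2Rp2_4, G2Rp2_5, G2Rp4_5, G2Rp6_3, G2Rp6_4, G2Rp6_5,
  G2Rp7_8, G2Rp7_9, G2Rp8_9]⟩) (.leaf ⟨39217858073, 78582655158246212644314369,
  4796066652852631260631708807564204920000646278937583946952163579819131206020502126648, 592194,
  [G2Rp0_3, G2Rp0_4, G2Rp0_5, G2Rp0_6, G2Rp1_0, G2Rp1_3, G2Rp1_4, G2Rp1_5, G2Rp1_6, G2Rp2_3,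
  G2Rp2_4, G2Rp2_5, G2Rp4_5, G2Rp6_3, G2Rp6_4, G2Rp6_5, G2Rp7_3, G2Rp7_4, G2Rp7_5, G2Rp7_6, G2Rp7_8,
  G2Rp7_9, G2Rp8_3, G2Rp8_4, G2Rp8_5, G2Rp8_6, G2Rp8_9, G2Rp9_3, G2Rp9_4, G2Rp9_5, G2Rp9_6]⟩)))
  (.node 286 (.node 285 (.leaf ⟨19738986769, 78580293754072217555046504,
  3900604046667313128727610153707735367902323918652571795515005030433282324298646683648, 297025,
  [G2Rp0_1, G2Rp2_3, G2Rp2_4, G2Rp2_5, G2Rp3_4, G2Rp3_5, G2Rp5_4, G2Rp6_1, G2Rp6_4, G2Rp6_5,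
  G2Rp7_1, G2Rp7_8, G2Rp7_9, G2Rp8_1, G2Rp8_9, G2Rp9_1]⟩) (.leaf ⟨19739595032,
  78581474455050495481349187,
  3885426714359087397678388142623863902165595891079268822978998430558480659383937007678, 297365,
  [G2Rp2_3, G2Rp2_4, G2Rp2_5, G2Rp3_4, G2Rp3_5, G2Rp4_5, G2Rp6_1, G2Rp6_2, G2Rp6_3, G2Rp6_4,
  G2Rp6_5, G2Rp7_8, G2Rp7_9, G2Rp8_9]⟩)) (.node 287 (.leaf ⟨19739545880, 78581474343479789656998982,
  3885426714359087397678388142623863902165908087219908456993203584460623577508977967106, 297317,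
  [G2Rp2_1, G2Rp3_1, G2Rp3_2, G2Rp4_5, G2Rp6_1, G2Rp6_2, G2Rp6_3, G2Rp6_4, G2Rp6_5, G2Rp7_8,
  G2Rp7_9, G2Rp8_9]⟩) (.leaf ⟨19731128601, 78585092031017083783349313,
  3885426714359087397678388142626162598708307095559444037311694378593714449405674258459, 295241,
  [G2Rp1_0, G2Rp2_0, G2Rp2_1, G2Rp2_3, G2Rp2_4, G2Rp5_3, G2Rp5_4, G2Rp6_3, G2Rp6_4, G2Rp7_8,
  G2Rp7_9, G2Rp8_9]⟩)))))) (.node 304 (.node 296 (.node 292 (.node 290 (.node 289 (.leaf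
  ⟨19731646737, 78580293568298732926013544,
  3900604046667313128727610153707735367901253466549239483149955397988031071392639221760, 295233,
  [G2Rp0_1, G2Rp2_3, G2Rp5_4, G2Rp6_1, G2Rp7_1, G2Rp7_8, G2Rp7_9, G2Rp8_1, G2Rp8_9, G2Rp9_1]⟩)
  (.leaf ⟨19731648786, 78581474160028398423907522,
  3885426714359087397678388142625396350937338933245401476073936917656795002573091241996, 295237,
  [G2Rp1_2, G2Rp1_3, G2Rp2_3, G2Rp5_4, G2Rp7_8, G2Rp7_9, G2Rp8_9]⟩)) (.node 291 (.leaf ⟨19731206424,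
  78581474166820119329637443,
  3885426714359087397678388142626737284535953403364242466226957525059874997644184911902, 295317,
  [G2Rp2_3, G2Rp2_4, G2Rp3_4, G2Rp5_1, G2Rp5_2, G2Rp5_3, G2Rp5_4, G2Rp6_1, G2Rp6_2, G2Rp6_3,
  G2Rp6_4, G2Rp7_8, G2Rp7_9, G2Rp8_9]⟩) (.leaf ⟨19731210520, 78582654758440832479528003,
  3885426714359087397678388142626545722593345167256947675146178031473948653249793622044, 295321,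
  [G2Rp1_0, G2Rp1_2, G2Rp1_3, G2Rp1_4, G2Rp2_3, G2Rp2_4, G2Rp3_4, G2Rp5_2, G2Rp5_3, G2Rp5_4,
  G2Rp6_2, G2Rp6_3, G2Rp6_4, G2Rp7_8, G2Rp7_9, G2Rp8_9]⟩))) (.node 294 (.node 293 (.leaf
  ⟨19731187993, 78580293579838141819258152,
  4022022705133118977121386242366447503612926551708808915395704632714761954385724440592, 295297,
  [G2Rp0_1, G2Rp0_4, G2Rp1_4, G2Rp2_4, G2Rp3_2, G2Rp3_4, G2Rp5_4, G2Rp6_1, G2Rp6_4, G2Rp7_1,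
  G2Rp7_4, G2Rp7_8, G2Rp7_9, G2Rp8_1, G2Rp8_4, G2Rp8_9, G2Rp9_1, G2Rp9_4]⟩) (.leaf ⟨19731599634,
  78581474159921780155751621,
  3885426714359087397678388142626545740131275608163475550624349188710639832207806431232, 295189,
  [G2Rp3_2, G2Rp4_2, G2Rp4_3, G2Rp5_2, G2Rp5_3, G2Rp5_4, G2Rp7_8, G2Rp7_9, G2Rp8_9]⟩)) (.node 295
  (.leaf ⟨19731161368, 78582654754956514490844230,
  3885426714359087397678388142626545722593612772115817022229621512270238959875514957824, 295273,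
  [G2Rp1_0, G2Rp3_2, G2Rp5_2, G2Rp5_3, G2Rp5_4, G2Rp6_2, G2Rp6_3, G2Rp6_4, G2Rp7_8, G2Rp7_9,
  G2Rp8_9]⟩) (.leaf ⟨19731597586, 78580293568301069388225733,
  3900604046667313128727610153709076321960846254407386368118760648421953281981323149314, 295185,
  [G2Rp0_1, G2Rp2_1, G2Rp3_1, G2Rp3_2, G2Rp4_1, G2Rp4_2, G2Rp4_3, G2Rp5_1, G2Rp5_2, G2Rp5_3,
  G2Rp5_4, G2Rp6_1, G2Rp7_1, G2Rp7_8, G2Rp7_9, G2Rp8_1, G2Rp8_9, G2Rp9_1]⟩)))) (.node 300 (.node 298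
  (.node 297 (.leaf ⟨19731613969, 78580293568308937768308840,
  3991668040516667515022942220202918858878677339929253678453619887599799229344243253260, 295201,
  [G2Rp0_1, G2Rp0_2, G2Rp0_3, G2Rp1_2, G2Rp1_3, G2Rp2_3, G2Rp4_2, G2Rp4_3, G2Rp5_2, G2Rp5_3,
  G2Rp5_4, G2Rp6_1, G2Rp6_2, G2Rp6_3, G2Rp7_1, G2Rp7_2, G2Rp7_3, G2Rp7_8, G2Rp7_9, G2Rp8_1, G2Rp8_2,
  G2Rp8_3, G2Rp8_9, G2Rp9_1, G2Rp9_2, G2Rp9_3]⟩) (.leaf ⟨19731620113, 78588747941697682149478500,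
  3885426714359087397678388142626833087429759775191634157942759146416390272424287862799, 295209,
  [G2Rp1_0, G2Rp2_3, G2Rp4_0, G2Rp4_1, G2Rp4_2, G2Rp4_3, G2Rp5_0, G2Rp5_1, G2Rp5_2, G2Rp5_3,
  G2Rp5_4, G2Rp7_8, G2Rp7_9, G2Rp8_9]⟩)) (.node 299 (.leaf ⟨19732384018, 78580293789044418259459170,
  3900604046667313128727610153706202919129510426424769878750248939985183164773897863218, 295441,
  [G2Rp0_1, G2Rp2_1, G2Rp2_4, G2Rp2_5, G2Rp3_1, G2Rp3_2, G2Rp3_4, G2Rp3_5, G2Rp4_5, G2Rp6_1,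
  G2Rp7_1, G2Rp7_8, G2Rp7_9, G2Rp8_1, G2Rp8_9, G2Rp9_1]⟩) (.leaf ⟨19732386066,
  78581474380665129026985058,
  3885426714359087397678388142623863902165595892440356756090893834914963100116026654768, 295445,
  [G2Rp1_4, G2Rp1_5, G2Rp2_4, G2Rp2_5, G2Rp3_2, G2Rp3_4, G2Rp3_5, G2Rp4_5, G2Rp7_8, G2Rp7_9,
  G2Rp8_9]⟩))) (.node 302 (.node 301 (.leaf ⟨19731194137, 78586310670204174921106530,
  3885426714359087397678388142625396350937695752995129519619703319292309368078395768851, 295305,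
  [G2Rp1_0, G2Rp2_0, G2Rp2_1, G2Rp2_4, G2Rp3_0, G2Rp3_1, G2Rp3_2, G2Rp3_4, G2Rp5_4, G2Rp6_4,
  G2Rp7_8, G2Rp7_9, G2Rp8_9]⟩) (.leaf ⟨19732406545, 78585092248349919383919617,
  3885426714359087397678388142623863902165595891079268823058224175221088316004287578175, 295465,
  [G2Rp1_0, G2Rp2_3, G2Rp2_4, G2Rp2_5, G2Rp3_4, G2Rp3_5, G2Rp4_5, G2Rp7_8, G2Rp7_9, G2Rp8_9]⟩))
  (.node 303 (.leaf ⟨19732504849, 78588748050870321975136260,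
  3885426714359087397678388142623863902165930388305394546913367863132507020418931949571, 295561,
  [G2Rp1_0, G2Rp2_0, G2Rp2_1, G2Rp3_0, G2Rp3_1, G2Rp3_2, G2Rp4_5, G2Rp7_8, G2Rp7_9, G2Rp8_9]⟩)
  (.leaf ⟨19732498705, 78580293677477042108502024,
  3900604046667313128727610153706202919129778018352774285338097454054298048707098836992, 295553,
  [G2Rp0_1, G2Rp3_2, G2Rp4_5, G2Rp6_1, G2Rp7_1, G2Rp7_8, G2Rp7_9, G2Rp8_1, G2Rp8_9, G2Rp9_1]⟩)))))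
  (.node 312 (.node 308 (.node 306 (.node 305 (.leaf ⟨19732173094, 78581474302878082976058435,
  3885426714359087397678388142623864013241058356605999602344034399405188409746592104460, 295493,
  [G2Rp1_2, G2Rp1_3, G2Rp2_3, G2Rp4_2, G2Rp4_3, G2Rp4_5, G2Rp4_6, G2Rp7_8, G2Rp7_9, G2Rp8_9]⟩)
  (.leaf ⟨19732400401, 78580294049384857338918920,
  4355924015914085060204270486176373428046946423498247076562696050717637140164781015100, 295457,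
  [G2Rp0_1, G2Rp0_2, G2Rp0_3, G2Rp0_4, G2Rp0_5, G2Rp1_2, G2Rp1_3, G2Rp1_4, G2Rp1_5, G2Rp2_3,
  G2Rp2_4, G2Rp2_5, G2Rp3_4, G2Rp3_5, G2Rp4_5, G2Rp6_1, G2Rp6_2, G2Rp6_3, G2Rp6_4, G2Rp6_5, G2Rp7_1,
  G2Rp7_2, G2Rp7_3, G2Rp7_4, G2Rp7_5, G2Rp7_8, G2Rp7_9, G2Rp8_1, G2Rp8_2, G2Rp8_3, G2Rp8_4, G2Rp8_5,
  G2Rp8_9, G2Rp9_1, G2Rp9_2, G2Rp9_3, G2Rp9_4, G2Rp9_5]⟩)) (.node 307 (.leaf ⟨19736400164,
  78581474159921785528917189,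
  3885426714359087397678388142632867380697927335185878263056486417979948323767068917826, 296549,
  [G2Rp2_1, G2Rp2_6, G2Rp3_1, G2Rp3_2, G2Rp3_6, G2Rp4_1, G2Rp4_2, G2Rp4_3, G2Rp4_6, G2Rp5_1,
  G2Rp5_2, G2Rp5_3, G2Rp5_4, G2Rp5_6, G2Rp7_8, G2Rp7_9, G2Rp8_9]⟩) (.leaf ⟨19736404260,
  78582654751542496531324101,
  3885426714359087397678388142632675815832271222245805458738674041456421083807731417152, 296553,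
  [G2Rp1_0, G2Rp1_6, G2Rp2_6, G2Rp3_2, G2Rp3_6, G2Rp4_2, G2Rp4_3, G2Rp4_6, G2Rp5_2, G2Rp5_3,
  G2Rp5_4, G2Rp5_6, G2Rp7_8, G2Rp7_9, G2Rp8_9]⟩))) (.node 310 (.node 309 (.leaf ⟨19734792481,
  78580293714665723032442058,
  3900604046667313128727610153712524559696162151405509543437906597440015194729108996096, 296001,
  [G2Rp0_1, G2Rp2_1, G2Rp2_3, G2Rp2_4, G2Rp2_5, G2Rp2_6, G2Rp3_1, G2Rp3_4, G2Rp3_5, G2Rp3_6,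
  G2Rp4_1, G2Rp4_5, G2Rp4_6, G2Rp5_1, G2Rp5_6, G2Rp6_1, G2Rp7_1, G2Rp7_8, G2Rp7_9, G2Rp8_1, G2Rp8_9,
  G2Rp9_1]⟩) (.leaf ⟨19736365350, 78580293568304403391352932,
  3900604046667313128727610153715206397661841844669649433399769893153514530256962060302, 296513,
  [G2Rp0_1, G2Rp2_3, G2Rp4_1, G2Rp4_2, G2Rp4_3, G2Rp4_6, G2Rp5_1, G2Rp5_2, G2Rp5_3, G2Rp5_4,
  G2Rp5_6, G2Rp6_1, G2Rp7_1, G2Rp7_8, G2Rp7_9, G2Rp8_1, G2Rp8_9, G2Rp9_1]⟩)) (.node 311 (.leaf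
  ⟨19736367398, 78581474159925113051582564,
  3885426714359087397678388142632675815832271199106313735291704887305214783003674017804, 296517,
  [G2Rp1_2, G2Rp1_3, G2Rp2_3, G2Rp4_2, G2Rp4_3, G2Rp4_6, G2Rp5_2, G2Rp5_3, G2Rp5_4, G2Rp5_6,
  G2Rp7_8, G2Rp7_9, G2Rp8_9]⟩) (.leaf ⟨19734483234, 78581474194891644398045282,
  3885426714359087397678388142629993977864093784948244593067264903922283866267859288064, 295957,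
  [G2Rp3_2, G2Rp4_5, G2Rp4_6, G2Rp5_6, G2Rp7_8, G2Rp7_9, G2Rp8_9]⟩)))) (.node 316 (.node 314 (.node
  313 (.leaf ⟨19736453412, 78582654751612796554942625,
  3885426714359087397678388142631526426638334547327731384188247263292740878622919753804, 296601,
  [G2Rp1_0, G2Rp1_2, G2Rp1_3, G2Rp1_6, G2Rp2_3, G2Rp2_6, G2Rp3_6, G2Rp4_6, G2Rp5_4, G2Rp5_6,
  G2Rp7_8, G2Rp7_9, G2Rp8_9]⟩) (.leaf ⟨19734761764, 78581474343479612492978241,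
  3885426714359087397678388142629993977866769873011572260377236585232183960473676808314, 295973,
  [G2Rp2_1, G2Rp2_3, G2Rp2_4, G2Rp2_5, G2Rp2_6, G2Rp4_5, G2Rp4_6, G2Rp5_6, G2Rp7_8, G2Rp7_9,
  G2Rp8_9]⟩)) (.node 315 (.leaf ⟨19734497569, 78580293603528494229325928,
  3991668040516667515022942220207708050670776092097727129396879781375071935379391905804, 295969,
  [G2Rp0_1, G2Rp0_2, G2Rp0_3, G2Rp1_2, G2Rp1_3, G2Rp2_3, G2Rp4_1, G2Rp4_2, G2Rp4_3, G2Rp4_5,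
  G2Rp4_6, G2Rp5_1, G2Rp5_2, G2Rp5_3, G2Rp5_6, G2Rp6_1, G2Rp6_2, G2Rp6_3, G2Rp7_1, G2Rp7_2, G2Rp7_3,
  G2Rp7_8, G2Rp7_9, G2Rp8_1, G2Rp8_2, G2Rp8_3, G2Rp8_9, G2Rp9_1, G2Rp9_2, G2Rp9_3]⟩) (.leaf
  ⟨19734827300, 78581474380665131178925154,
  3885426714359087397678388142629993977866591507203261773687974709543178206559643631730, 296037,
  [G2Rp2_1, G2Rp2_4, G2Rp2_5, G2Rp2_6, G2Rp3_1, G2Rp3_2, G2Rp3_4, G2Rp3_5, G2Rp3_6, G2Rp4_5,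
  G2Rp4_6, G2Rp5_6, G2Rp7_8, G2Rp7_9, G2Rp8_9]⟩))) (.node 318 (.node 317 (.leaf ⟨19734794530,
  78581474417859477096407330,
  3885426714359087397678388142629993977866591505161598735767937196299111820564115751036, 296005,
  [G2Rp1_2, G2Rp1_3, G2Rp1_4, G2Rp1_5, G2Rp1_6, G2Rp2_3, G2Rp2_4, G2Rp2_5, G2Rp2_6, G2Rp3_4,
  G2Rp3_5, G2Rp3_6, G2Rp4_5, G2Rp4_6, G2Rp5_6, G2Rp7_8, G2Rp7_9, G2Rp8_9]⟩) (.leaf ⟨19734749476,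
  78582654935100499589044289,
  3885426714359087397678388142629993977866859077352862400240333229419495233029253365884, 295961,
  [G2Rp1_0, G2Rp1_2, G2Rp1_3, G2Rp1_4, G2Rp1_5, G2Rp1_6, G2Rp3_2, G2Rp4_5, G2Rp4_6, G2Rp5_6,
  G2Rp7_8, G2Rp7_9, G2Rp8_9]⟩)) (.node 319 (.leaf ⟨19731190054, 78581474308502084952132675,
  3885426714359087397678388142625396350939925859161144052178513572586176813321558425604, 295301,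
  [G2Rp1_2, G2Rp3_2, G2Rp3_4, G2Rp3_5, G2Rp3_6, G2Rp5_4, G2Rp7_8, G2Rp7_9, G2Rp8_9]⟩) (.leaf
  ⟨19731157284, 78581474382777328447198339,
  3885426714359087397678388142625396350940148867294286013776761341284969179490810855538, 295269,
  [G2Rp2_1, G2Rp2_4, G2Rp2_5, G2Rp2_6, G2Rp3_1, G2Rp3_2, G2Rp3_4, G2Rp3_5, G2Rp3_6, G2Rp5_4,
  G2Rp7_8, G2Rp7_9, G2Rp8_9]⟩))))))

def G2RT6 : Tr :=
  .node 352 (.node 336 (.node 328 (.node 324 (.node 322 (.node 321 (.leaf ⟨19739021892,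
  78586310670204177063412834,
  3885426714359087397678388142631813676015071662249217538498872496100421165223441858578, 301157,
  [G2Rp2_1, G2Rp2_4, G2Rp3_1, G2Rp3_2, G2Rp3_4, G2Rp5_0, G2Rp5_1, G2Rp5_4, G2Rp5_6, G2Rp6_0,
  G2Rp6_1, G2Rp7_8, G2Rp7_9, G2Rp8_9]⟩) (.leaf ⟨19731206436, 78581474382883943494128768,
  3885426714359087397678388142625396350939836654819843537308300269414675640817093181566, 295317,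
  [G2Rp2_3, G2Rp2_4, G2Rp2_5, G2Rp2_6, G2Rp3_4, G2Rp3_5, G2Rp3_6, G2Rp5_4, G2Rp7_8, G2Rp7_9,
  G2Rp8_9]⟩)) (.node 323 (.leaf ⟨19731161380, 78582654974398041597088899,
  3885426714359087397678388142625396350940104265123313843047664219526648525723721007216, 295273,
  [G2Rp1_0, G2Rp1_4, G2Rp1_5, G2Rp1_6, G2Rp2_4, G2Rp2_5, G2Rp2_6, G2Rp3_2, G2Rp3_4, G2Rp3_5,
  G2Rp3_6, G2Rp5_4, G2Rp7_8, G2Rp7_9, G2Rp8_9]⟩) (.leaf ⟨6853894417, 480484684547070291320243207,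
  6799385587178499485369545974382922865568362623956723612495693960534269304983204594563, 100489,
  [G2Rp0_7, G2Rp0_8, G2Rp0_9, G2Rp1_0, G2Rp1_7, G2Rp1_8, G2Rp1_9, G2Rp2_0, G2Rp2_1, G2Rp2_7,
  G2Rp2_8, G2Rp2_9, G2Rp3_0, G2Rp3_1, G2Rp3_2, G2Rp3_7, G2Rp3_8, G2Rp3_9, G2Rp4_0, G2Rp4_1, G2Rp4_2,
  G2Rp4_3, G2Rp4_7, G2Rp4_8, G2Rp4_9, G2Rp5_0, G2Rp5_1, G2Rp5_2, G2Rp5_3, G2Rp5_4, G2Rp5_7, G2Rp5_8,
  G2Rp5_9, G2Rp6_0, G2Rp6_1, G2Rp6_2, G2Rp6_3, G2Rp6_4, G2Rp6_5, G2Rp6_7, G2Rp6_8, G2Rp6_9, G2Rp8_7,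
  G2Rp9_7, G2Rp9_8]⟩))) (.node 326 (.node 325 (.leaf ⟨6853910808, 161016287609664900433970342,
  6799385587178499485369545974296814458455939856032907828433131651940773671019477729292, 100505,
  [G2Rp0_7, G2Rp0_8, G2Rp0_9, G2Rp1_0, G2Rp1_2, G2Rp1_3, G2Rp1_7, G2Rp1_8, G2Rp1_9, G2Rp2_3,
  G2Rp4_2, G2Rp4_3, G2Rp5_2, G2Rp5_3, G2Rp5_4, G2Rp6_2, G2Rp6_3, G2Rp6_4, G2Rp6_5, G2Rp8_7, G2Rp9_7,
  G2Rp9_8]⟩) (.leaf ⟨7055115793, 1290537861310276482207745,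
  6806974253332588167453403524872988607988714295626279858503731512352198850618578436108, 100386,
  [G2Rp1_0, G2Rp1_2, G2Rp1_3, G2Rp1_4, G2Rp1_5, G2Rp1_6, G2Rp2_3, G2Rp5_4, G2Rp6_4, G2Rp6_5,
  G2Rp7_0, G2Rp8_0, G2Rp8_7, G2Rp9_0, G2Rp9_7, G2Rp9_8]⟩)) (.node 327 (.leaf ⟨6853796113,
  240883386844011412022363137,
  6799385587178499485369545974295665069262003182475921681290114548667216171594852270991, 100393,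
  [G2Rp0_7, G2Rp0_8, G2Rp0_9, G2Rp1_0, G2Rp1_7, G2Rp1_8, G2Rp1_9, G2Rp2_3, G2Rp5_4, G2Rp6_4,
  G2Rp6_5, G2Rp8_7, G2Rp9_7, G2Rp9_8]⟩) (.leaf ⟨6849579298, 81149188335897231503755362,
  6814562919486725216418767985382793278018284078932278484413580825510620804125124722690, 99345,
  [G2Rp0_1, G2Rp0_7, G2Rp0_8, G2Rp0_9, G2Rp2_1, G2Rp3_1, G2Rp3_2, G2Rp4_1, G2Rp4_5, G2Rp4_6,
  G2Rp5_1, G2Rp5_6, G2Rp6_1, G2Rp7_1, G2Rp8_1, G2Rp8_7, G2Rp9_1, G2Rp9_7, G2Rp9_8]⟩)))) (.node 332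
  (.node 330 (.node 329 (.leaf ⟨6853779736, 161016287609656104340948134,
  6799385587178499485369545974296048198993315408356004992980005824990872190492791275524, 100377,
  [G2Rp0_7, G2Rp0_8, G2Rp0_9, G2Rp1_0, G2Rp1_2, G2Rp1_7, G2Rp1_8, G2Rp1_9, G2Rp3_2, G2Rp4_2,
  G2Rp5_2, G2Rp5_4, G2Rp6_2, G2Rp6_4, G2Rp6_5, G2Rp8_7, G2Rp9_7, G2Rp9_8]⟩) (.leaf ⟨6854615321,
  240883386953189549406159937,
  6799385587178499485369545974294132620490438529942491536801837368392143001564730622907, 100681,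
  [G2Rp0_7, G2Rp0_8, G2Rp0_9, G2Rp1_0, G2Rp1_7, G2Rp1_8, G2Rp1_9, G2Rp2_0, G2Rp2_1, G2Rp2_3,
  G2Rp2_4, G2Rp2_5, G2Rp2_7, G2Rp2_8, G2Rp2_9, G2Rp4_5, G2Rp6_3, G2Rp6_4, G2Rp6_5, G2Rp8_7, G2Rp9_7,
  G2Rp9_8]⟩)) (.node 331 (.leaf ⟨6854697240, 161016287830408249305203779,
  6799385587178499485369545974294132620490260140309789033899618269705755436727312056380, 100761,
  [G2Rp0_7, G2Rp0_8, G2Rp0_9, G2Rp1_0, G2Rp1_2, G2Rp1_3, G2Rp1_4, G2Rp1_5, G2Rp1_7, G2Rp1_8,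
  G2Rp1_9, G2Rp2_3, G2Rp2_4, G2Rp2_5, G2Rp3_4, G2Rp3_5, G2Rp4_5, G2Rp6_2, G2Rp6_3, G2Rp6_4, G2Rp6_5,
  G2Rp8_7, G2Rp9_7, G2Rp9_8]⟩) (.leaf ⟨6854680857, 280816936607551157489894498,
  6799385587178499485369545974294132620490260447589392695254315557694182986479444165555, 100745,
  [G2Rp0_7, G2Rp0_8, G2Rp0_9, G2Rp1_0, G2Rp1_7, G2Rp1_8, G2Rp1_9, G2Rp2_0, G2Rp2_1, G2Rp2_4,
  G2Rp2_5, G2Rp2_7, G2Rp2_8, G2Rp2_9, G2Rp3_0, G2Rp3_1, G2Rp3_2, G2Rp3_4, G2Rp3_5, G2Rp3_7, G2Rp3_8,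
  G2Rp3_9, G2Rp4_5, G2Rp6_4, G2Rp6_5, G2Rp8_7, G2Rp9_7, G2Rp9_8]⟩))) (.node 334 (.node 333 (.leaf
  ⟨6846226713, 240883386773045564311340097,
  6799385587178499485369545974296431317032971344794616541384645927777667750470742442907, 98633,
  [G2Rp0_7, G2Rp0_8, G2Rp0_9, G2Rp1_0, G2Rp1_7, G2Rp1_8, G2Rp1_9, G2Rp2_0, G2Rp2_1, G2Rp2_3,
  G2Rp2_4, G2Rp2_7, G2Rp2_8, G2Rp2_9, G2Rp5_3, G2Rp5_4, G2Rp6_3, G2Rp6_4, G2Rp8_7, G2Rp9_7,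
  G2Rp9_8]⟩) (.leaf ⟨6846308632, 161016287542177873153492035,
  6799385587178499485369545974296814440918009416487467881233882375102738629603880599580, 98713,
  [G2Rp0_7, G2Rp0_8, G2Rp0_9, G2Rp1_0, G2Rp1_2, G2Rp1_3, G2Rp1_4, G2Rp1_7, G2Rp1_8, G2Rp1_9,
  G2Rp2_3, G2Rp2_4, G2Rp3_4, G2Rp5_2, G2Rp5_3, G2Rp5_4, G2Rp6_2, G2Rp6_3, G2Rp6_4, G2Rp8_7, G2Rp9_7,
  G2Rp9_8]⟩)) (.node 335 (.leaf ⟨6846292249, 280816936391378375376110690,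
  6799385587178499485369545974295665069262360307123302784853518131659910928007781417875, 98697,
  [G2Rp0_7, G2Rp0_8, G2Rp0_9, G2Rp1_0, G2Rp1_7, G2Rp1_8, G2Rp1_9, G2Rp2_0, G2Rp2_1, G2Rp2_4,
  G2Rp2_7, G2Rp2_8, G2Rp2_9, G2Rp3_0, G2Rp3_1, G2Rp3_2, G2Rp3_4, G2Rp3_7, G2Rp3_8, G2Rp3_9, G2Rp5_4,
  G2Rp6_4, G2Rp8_7, G2Rp9_7, G2Rp9_8]⟩) (.leaf ⟨6846259480, 161016287538693555164808262,
  6799385587178499485369545974296814440918277021346337228317325855899028936229601935360, 98665,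
  [G2Rp0_7, G2Rp0_8, G2Rp0_9, G2Rp1_0, G2Rp1_7, G2Rp1_8, G2Rp1_9, G2Rp3_2, G2Rp5_2, G2Rp5_3,
  G2Rp5_4, G2Rp6_2, G2Rp6_3, G2Rp6_4, G2Rp8_7, G2Rp9_7, G2Rp9_8]⟩))))) (.node 344 (.node 340 (.node
  338 (.node 337 (.leaf ⟨6846718225, 360684035621163322458509412,
  6799385587178499485369545974382922865568362316677119946387306921689708183245632242575, 98601,
  [G2Rp0_7, G2Rp0_8, G2Rp0_9, G2Rp1_0, G2Rp1_7, G2Rp1_8, G2Rp1_9, G2Rp2_3, G2Rp4_0, G2Rp4_1,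
  G2Rp4_2, G2Rp4_3, G2Rp4_7, G2Rp4_8, G2Rp4_9, G2Rp5_0, G2Rp5_1, G2Rp5_2, G2Rp5_3, G2Rp5_4, G2Rp5_7,
  G2Rp5_8, G2Rp5_9, G2Rp8_7, G2Rp9_7, G2Rp9_8]⟩) (.leaf ⟨6846308644, 161016287795432715706407073,
  6799385587178499485369545974295665069264500904050363753299522509474868587105824538748, 98713,
  [G2Rp0_7, G2Rp0_8, G2Rp0_9, G2Rp1_0, G2Rp1_2, G2Rp1_3, G2Rp1_4, G2Rp1_5, G2Rp1_6, G2Rp1_7,
  G2Rp1_8, G2Rp1_9, G2Rp2_3, G2Rp2_4, G2Rp2_5, G2Rp2_6, G2Rp3_4, G2Rp3_5, G2Rp3_6, G2Rp5_4, G2Rp8_7,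
  G2Rp9_7, G2Rp9_8]⟩)) (.node 339 (.leaf ⟨4715514009, 240576427189375881844950147,
  5828036321035148369219388594612848127941479083538096409276329839310417239513117491224, 74049,
  [G2Rp0_1, G2Rp0_3, G2Rp0_4, G2Rp0_8, G2Rp0_9, G2Rp1_3, G2Rp1_4, G2Rp2_3, G2Rp2_4, G2Rp5_3,
  G2Rp5_4, G2Rp5_6, G2Rp5_8, G2Rp5_9, G2Rp6_8, G2Rp6_9, G2Rp7_8, G2Rp7_9, G2Rp9_8]⟩) (.leaf
  ⟨6851551620, 161016287944368162758502849,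
  7649316196439140424125978594906650019241217047490850140613782306259293513259822350348, 108185,
  [G2Rp0_4, G2Rp0_5, G2Rp0_6, G2Rp0_7, G2Rp0_8, G2Rp0_9, G2Rp1_0, G2Rp1_2, G2Rp1_3, G2Rp1_4,
  G2Rp1_5, G2Rp1_6, G2Rp1_7, G2Rp1_8, G2Rp1_9, G2Rp2_3, G2Rp5_4, G2Rp6_4, G2Rp6_5, G2Rp7_4, G2Rp7_5,
  G2Rp7_6, G2Rp8_4, G2Rp8_5, G2Rp8_6, G2Rp8_7, G2Rp9_4, G2Rp9_5, G2Rp9_6, G2Rp9_7, G2Rp9_8]⟩)))
  (.node 342 (.node 341 (.leaf ⟨6846288166, 121082738066683753672084547,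
  6799385587178499485369545974295665069264590108391664187277784303434120305860265902084, 98693,
  [G2Rp0_7, G2Rp0_8, G2Rp0_9, G2Rp1_2, G2Rp3_2, G2Rp3_4, G2Rp3_5, G2Rp3_6, G2Rp5_4, G2Rp8_7,
  G2Rp9_7, G2Rp9_8]⟩) (.leaf ⟨6847504657, 240883386990378399911910401,
  6799385587178499485369545974294132620490260140309789029145928518849878292358433276863, 98857,
  [G2Rp0_7, G2Rp0_8, G2Rp0_9, G2Rp1_0, G2Rp1_7, G2Rp1_8, G2Rp1_9, G2Rp2_3, G2Rp2_4, G2Rp2_5,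
  G2Rp3_4, G2Rp3_5, G2Rp4_5, G2Rp8_7, G2Rp9_7, G2Rp9_8]⟩)) (.node 343 (.leaf ⟨6847602961,
  360684035730335962284167172,
  6799385587178499485369545974294132620510576410131451250481998679072401512257734771587, 98953,
  [G2Rp0_7, G2Rp0_8, G2Rp0_9, G2Rp1_0, G2Rp1_7, G2Rp1_8, G2Rp1_9, G2Rp2_0, G2Rp2_1, G2Rp2_7,
  G2Rp2_8, G2Rp2_9, G2Rp3_0, G2Rp3_1, G2Rp3_2, G2Rp3_7, G2Rp3_8, G2Rp3_9, G2Rp4_5, G2Rp8_7, G2Rp9_7,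
  G2Rp9_8]⟩) (.leaf ⟨6847271206, 121082738061059751696010307,
  6799385587178499485369545974294132731565722605836519737443305130253131902285299580940, 98885,
  [G2Rp0_7, G2Rp0_8, G2Rp0_9, G2Rp1_2, G2Rp1_3, G2Rp2_3, G2Rp4_2, G2Rp4_3, G2Rp4_5, G2Rp4_6,
  G2Rp8_7, G2Rp9_7, G2Rp9_8]⟩)))) (.node 348 (.node 346 (.node 345 (.leaf ⟨6847357220,
  161016287786425516451666081,
  6799385587178499485369545974294132714027435381590908115103448996677777752754086740076, 98969,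
  [G2Rp0_7, G2Rp0_8, G2Rp0_9, G2Rp1_0, G2Rp1_2, G2Rp1_3, G2Rp1_5, G2Rp1_6, G2Rp1_7, G2Rp1_8,
  G2Rp1_9, G2Rp2_3, G2Rp2_5, G2Rp2_6, G2Rp3_5, G2Rp3_6, G2Rp4_5, G2Rp4_6, G2Rp8_7, G2Rp9_7,
  G2Rp9_8]⟩) (.leaf ⟨4716890257, 360260197573890885195829252,
  5828036321035147722180668582995195575378589863872873480972330808318836189223005716480, 74369,
  [G2Rp0_1, G2Rp0_8, G2Rp0_9, G2Rp3_2, G2Rp4_5, G2Rp4_6, G2Rp4_8, G2Rp4_9, G2Rp5_6, G2Rp5_8,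
  G2Rp5_9, G2Rp6_8, G2Rp6_9, G2Rp7_8, G2Rp7_9, G2Rp9_8]⟩)) (.node 347 (.leaf ⟨6849716616,
  161016287930437419154057283,
  7527897537973334575732202506246405452296088167550251476485145092850276050301946167308, 107673,
  [G2Rp0_5, G2Rp0_6, G2Rp0_7, G2Rp0_8, G2Rp0_9, G2Rp1_0, G2Rp1_2, G2Rp1_3, G2Rp1_5, G2Rp1_6,
  G2Rp1_7, G2Rp1_8, G2Rp1_9, G2Rp2_3, G2Rp4_2, G2Rp4_3, G2Rp4_5, G2Rp6_5, G2Rp7_5, G2Rp7_6, G2Rp8_5,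
  G2Rp8_6, G2Rp8_7, G2Rp9_5, G2Rp9_6, G2Rp9_7, G2Rp9_8]⟩) (.leaf ⟨6847357208,
  161016287570361689068013668,
  6799385587178499485369545974295282009682858752821060496446197561058926269544023195660, 98969,
  [G2Rp0_7, G2Rp0_8, G2Rp0_9, G2Rp1_0, G2Rp1_2, G2Rp1_3, G2Rp1_7, G2Rp1_8, G2Rp1_9, G2Rp2_3,
  G2Rp4_2, G2Rp4_3, G2Rp4_5, G2Rp5_2, G2Rp5_3, G2Rp6_2, G2Rp6_3, G2Rp8_7, G2Rp9_7, G2Rp9_8]⟩)))
  (.node 350 (.node 349 (.leaf ⟨6849585544, 161016287930431921595918403,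
  7527897537973334575732202506246405440603896675191563556015625251320173628987107704836, 107545,
  [G2Rp0_5, G2Rp0_6, G2Rp0_7, G2Rp0_8, G2Rp0_9, G2Rp1_0, G2Rp1_2, G2Rp1_5, G2Rp1_6, G2Rp1_7,
  G2Rp1_8, G2Rp1_9, G2Rp3_2, G2Rp3_5, G2Rp4_2, G2Rp4_5, G2Rp6_5, G2Rp7_5, G2Rp7_6, G2Rp8_5, G2Rp8_6,
  G2Rp8_7, G2Rp9_5, G2Rp9_6, G2Rp9_7, G2Rp9_8]⟩) (.leaf ⟨6849890593, 81149188447292019797333194,
  6814562919486725216418767985382793278020826400636029678536094130753583979527279738880, 99393,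
  [G2Rp0_1, G2Rp0_7, G2Rp0_8, G2Rp0_9, G2Rp2_1, G2Rp2_3, G2Rp2_4, G2Rp2_5, G2Rp2_6, G2Rp3_1,
  G2Rp3_4, G2Rp3_5, G2Rp3_6, G2Rp4_1, G2Rp4_5, G2Rp4_6, G2Rp5_1, G2Rp5_6, G2Rp6_1, G2Rp7_1, G2Rp8_1,
  G2Rp8_7, G2Rp9_1, G2Rp9_7, G2Rp9_8]⟩)) (.node 351 (.leaf ⟨6849693985, 81149188335902900860586089,
  6814562919486725216418767985383942667212220751808689512170265982030996598871370235904, 99457,
  [G2Rp0_1, G2Rp0_7, G2Rp0_8, G2Rp0_9, G2Rp3_2, G2Rp4_1, G2Rp4_2, G2Rp4_3, G2Rp4_5, G2Rp4_6,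
  G2Rp5_1, G2Rp5_2, G2Rp5_3, G2Rp5_6, G2Rp6_1, G2Rp7_1, G2Rp8_1, G2Rp8_7, G2Rp9_1, G2Rp9_7,
  G2Rp9_8]⟩) (.leaf ⟨6851463462, 81149188300930700156244068,
  6814562919486725216418767985385475115986506093900169568497957426467083315055132803086, 99905,
  [G2Rp0_1, G2Rp0_7, G2Rp0_8, G2Rp0_9, G2Rp2_3, G2Rp4_1, G2Rp4_2, G2Rp4_3, G2Rp4_6, G2Rp5_1,
  G2Rp5_2, G2Rp5_3, G2Rp5_4, G2Rp5_6, G2Rp6_1, G2Rp7_1, G2Rp8_1, G2Rp8_7, G2Rp9_1, G2Rp9_7,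
  G2Rp9_8]⟩)))))) (.node 368 (.node 360 (.node 356 (.node 354 (.node 353 (.leaf ⟨7050907938,
  1290537710541916876146984,
  6822151585640813898502625535959925251879383680632960974570929595266349185644334415872, 99350,
  [G2Rp0_1, G2Rp3_2, G2Rp4_5, G2Rp4_6, G2Rp5_6, G2Rp7_0, G2Rp7_1, G2Rp8_0, G2Rp8_1, G2Rp8_7,
  G2Rp9_0, G2Rp9_1, G2Rp9_7, G2Rp9_8]⟩) (.leaf ⟨6849595681, 81149188336191110346016873,
  6905626913336079602714100051877976768995440341328247264495067314688640720177562648588, 99361,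
  [G2Rp0_1, G2Rp0_2, G2Rp0_3, G2Rp0_7, G2Rp0_8, G2Rp0_9, G2Rp1_2, G2Rp1_3, G2Rp2_3, G2Rp4_1,
  G2Rp4_2, G2Rp4_3, G2Rp4_5, G2Rp4_6, G2Rp5_1, G2Rp5_2, G2Rp5_3, G2Rp5_6, G2Rp6_1, G2Rp6_2, G2Rp6_3,
  G2Rp7_1, G2Rp7_2, G2Rp7_3, G2Rp8_1, G2Rp8_2, G2Rp8_3, G2Rp8_7, G2Rp9_1, G2Rp9_2, G2Rp9_3, G2Rp9_7,
  G2Rp9_8]⟩)) (.node 355 (.leaf ⟨7052824868, 1290537675360946403679429,
  6822151585640813898502625535962798654713217230870594644560151109324013643143544045634, 99942,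
  [G2Rp0_1, G2Rp2_1, G2Rp2_6, G2Rp3_1, G2Rp3_2, G2Rp3_6, G2Rp4_1, G2Rp4_2, G2Rp4_3, G2Rp4_6,
  G2Rp5_1, G2Rp5_2, G2Rp5_3, G2Rp5_4, G2Rp5_6, G2Rp7_0, G2Rp7_1, G2Rp8_0, G2Rp8_1, G2Rp8_7, G2Rp9_0,
  G2Rp9_1, G2Rp9_7, G2Rp9_8]⟩) (.leaf ⟨7051219234, 1290538156444734361942504,
  7763146188750809223554390223064944303644582465684271614931474970715658799426981331068, 99398,
  [G2Rp0_1, G2Rp0_2, G2Rp0_3, G2Rp0_4, G2Rp0_5, G2Rp0_6, G2Rp1_2, G2Rp1_3, G2Rp1_4, G2Rp1_5,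
  G2Rp1_6, G2Rp2_3, G2Rp2_4, G2Rp2_5, G2Rp2_6, G2Rp3_4, G2Rp3_5, G2Rp3_6, G2Rp4_5, G2Rp4_6, G2Rp5_6,
  G2Rp7_0, G2Rp7_1, G2Rp7_2, G2Rp7_3, G2Rp7_4, G2Rp7_5, G2Rp7_6, G2Rp8_0, G2Rp8_1, G2Rp8_2, G2Rp8_3,
  G2Rp8_4, G2Rp8_5, G2Rp8_6, G2Rp8_7, G2Rp9_0, G2Rp9_1, G2Rp9_2, G2Rp9_3, G2Rp9_4, G2Rp9_5, G2Rp9_6,
  G2Rp9_7, G2Rp9_8]⟩))) (.node 358 (.node 357 (.leaf ⟨7051186468, 1290537858918777662707777,
  6822151585640813898502625535959925251882059768696288641880901276576249279850151936122, 99366,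
  [G2Rp0_1, G2Rp2_1, G2Rp2_3, G2Rp2_4, G2Rp2_5, G2Rp2_6, G2Rp4_5, G2Rp4_6, G2Rp5_6, G2Rp7_0,
  G2Rp7_1, G2Rp8_0, G2Rp8_1, G2Rp8_7, G2Rp9_0, G2Rp9_1, G2Rp9_7, G2Rp9_8]⟩) (.leaf ⟨7048073490,
  1290537675685474130212232,
  6913215579490168284797957602449361726736116028753145905738234488007874676093410607116, 98630,
  [G2Rp0_1, G2Rp0_2, G2Rp0_3, G2Rp1_2, G2Rp1_3, G2Rp2_3, G2Rp5_4, G2Rp7_0, G2Rp7_1, G2Rp7_2,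
  G2Rp7_3, G2Rp8_0, G2Rp8_1, G2Rp8_2, G2Rp8_3, G2Rp8_7, G2Rp9_0, G2Rp9_1, G2Rp9_2, G2Rp9_3, G2Rp9_7,
  G2Rp9_8]⟩)) (.node 359 (.leaf ⟨7047581976, 1290537678774964365296710,
  6822151585640813898502625535956668558551555506078800376714331315618183648844818808834, 98662,
  [G2Rp0_1, G2Rp2_1, G2Rp3_1, G2Rp3_2, G2Rp5_1, G2Rp5_2, G2Rp5_3, G2Rp5_4, G2Rp6_1, G2Rp6_2,
  G2Rp6_3, G2Rp6_4, G2Rp7_0, G2Rp7_1, G2Rp8_0, G2Rp8_1, G2Rp8_7, G2Rp9_0, G2Rp9_1, G2Rp9_7,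
  G2Rp9_8]⟩) (.leaf ⟨7047631128, 1290537682259282353980483,
  6822151585640813898502625535956668558551243299048958847730622216403940317020660039710, 98710,
  [G2Rp0_1, G2Rp2_3, G2Rp2_4, G2Rp3_4, G2Rp5_1, G2Rp5_2, G2Rp5_3, G2Rp5_4, G2Rp6_1, G2Rp6_2,
  G2Rp6_3, G2Rp6_4, G2Rp7_0, G2Rp7_1, G2Rp8_0, G2Rp8_1, G2Rp8_7, G2Rp9_0, G2Rp9_1, G2Rp9_7,
  G2Rp9_8]⟩)))) (.node 364 (.node 362 (.node 361 (.leaf ⟨7047614758, 1290537823941422996393032,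
  6852506250257265360601069558120005658883044821453536449735722556932580250745981632516, 98694,
  [G2Rp0_1, G2Rp0_2, G2Rp1_2, G2Rp3_2, G2Rp3_4, G2Rp3_5, G2Rp3_6, G2Rp5_4, G2Rp7_0, G2Rp7_1,
  G2Rp7_2, G2Rp8_0, G2Rp8_1, G2Rp8_2, G2Rp8_7, G2Rp9_0, G2Rp9_1, G2Rp9_2, G2Rp9_7, G2Rp9_8]⟩) (.leaf
  ⟨7048024338, 1290537675360946401323304,
  6822151585640813898502625535956477014146565503848191932128013880054705151584281559040, 98582,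
  [G2Rp0_1, G2Rp3_2, G2Rp4_2, G2Rp4_3, G2Rp5_2, G2Rp5_3, G2Rp5_4, G2Rp7_0, G2Rp7_1, G2Rp8_0,
  G2Rp8_1, G2Rp8_7, G2Rp9_0, G2Rp9_1, G2Rp9_7, G2Rp9_8]⟩)) (.node 363 (.leaf ⟨7047553305,
  1290537678774787197895745,
  6806974253332588167453403524873754855759682457940317218412500226094717841668302176282, 98634,
  [G2Rp2_1, G2Rp2_3, G2Rp2_4, G2Rp5_3, G2Rp5_4, G2Rp6_3, G2Rp6_4, G2Rp7_0, G2Rp8_0, G2Rp8_7,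
  G2Rp9_0, G2Rp9_7, G2Rp9_8]⟩) (.leaf ⟨7047581988, 1290537898216491469444227,
  6822151585640813898502625535955327624955438762979002395280426032629034498867285983346, 98662,
  [G2Rp0_1, G2Rp2_1, G2Rp2_4, G2Rp2_5, G2Rp2_6, G2Rp3_1, G2Rp3_2, G2Rp3_4, G2Rp3_5, G2Rp3_6,
  G2Rp5_4, G2Rp7_0, G2Rp7_1, G2Rp8_0, G2Rp8_1, G2Rp8_7, G2Rp9_0, G2Rp9_1, G2Rp9_7, G2Rp9_8]⟩)))
  (.node 366 (.node 365 (.leaf ⟨7055970884, 1294193661437015584017539,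
  6822151585640813898502625535960212599180633142107400426824143809245100452623939534850, 104806,
  [G2Rp0_1, G2Rp2_1, G2Rp3_1, G2Rp3_2, G2Rp4_0, G2Rp4_1, G2Rp4_5, G2Rp4_6, G2Rp5_0, G2Rp5_1,
  G2Rp5_6, G2Rp6_0, G2Rp6_1, G2Rp7_0, G2Rp7_1, G2Rp8_0, G2Rp8_1, G2Rp8_7, G2Rp9_0, G2Rp9_1, G2Rp9_7,
  G2Rp9_8]⟩) (.leaf ⟨6846744849, 81149188300925030799249513,
  6814562919486725216418767985378004086225917715779759618248142931301599856190809964544, 98625,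
  [G2Rp0_1, G2Rp0_7, G2Rp0_8, G2Rp0_9, G2Rp2_3, G2Rp5_4, G2Rp6_1, G2Rp7_1, G2Rp8_1, G2Rp8_7,
  G2Rp9_1, G2Rp9_7, G2Rp9_8]⟩)) (.node 367 (.leaf ⟨6846712081, 81149188300936369512910953,
  6905626913336079602714100051873187577203341589159773813551807420913368014142413996044, 98593,
  [G2Rp0_1, G2Rp0_2, G2Rp0_3, G2Rp0_7, G2Rp0_8, G2Rp0_9, G2Rp1_2, G2Rp1_3, G2Rp2_3, G2Rp4_2,
  G2Rp4_3, G2Rp5_2, G2Rp5_3, G2Rp5_4, G2Rp6_1, G2Rp6_2, G2Rp6_3, G2Rp7_1, G2Rp7_2, G2Rp7_3, G2Rp8_1,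
  G2Rp8_2, G2Rp8_3, G2Rp8_7, G2Rp9_1, G2Rp9_2, G2Rp9_3, G2Rp9_7, G2Rp9_8]⟩) (.leaf ⟨6846304548,
  121082738141065612211983488,
  6799385587178499485369545974295665069264500904050363672407571000262619133355800658046, 98709,
  [G2Rp0_7, G2Rp0_8, G2Rp0_9, G2Rp2_3, G2Rp2_4, G2Rp2_5, G2Rp2_6, G2Rp3_4, G2Rp3_5, G2Rp3_6,
  G2Rp5_4, G2Rp8_7, G2Rp9_7, G2Rp9_8]⟩))))) (.node 376 (.node 372 (.node 370 (.node 369 (.leaf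
  ⟨6847596817, 81149188410103339981737993,
  6814562919486725216418767985376471637454442267583294420436284987367866833505269579776, 98945,
  [G2Rp0_1, G2Rp0_7, G2Rp0_8, G2Rp0_9, G2Rp3_2, G2Rp4_5, G2Rp6_1, G2Rp7_1, G2Rp8_1, G2Rp8_7,
  G2Rp9_1, G2Rp9_7, G2Rp9_8]⟩) (.leaf ⟨7048597798, 1290537818322918578457672,
  6913215579490168284797957602447829389039835452113744032008331969756268083266911469580, 98886,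
  [G2Rp0_1, G2Rp0_2, G2Rp0_3, G2Rp1_2, G2Rp1_3, G2Rp2_3, G2Rp4_2, G2Rp4_3, G2Rp4_5, G2Rp4_6,
  G2Rp7_0, G2Rp7_1, G2Rp7_2, G2Rp7_3, G2Rp8_0, G2Rp8_1, G2Rp8_2, G2Rp8_3, G2Rp8_7, G2Rp9_0, G2Rp9_1,
  G2Rp9_2, G2Rp9_3, G2Rp9_7, G2Rp9_8]⟩)) (.node 371 (.leaf ⟨7048810770, 1290538119243583059932456,
  7186407561038231443683953801929931583314834587417185330237090042287085836067878731824, 98838,
  [G2Rp0_1, G2Rp0_4, G2Rp0_5, G2Rp1_4, G2Rp1_5, G2Rp2_4, G2Rp2_5, G2Rp3_2, G2Rp3_4, G2Rp3_5,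
  G2Rp4_5, G2Rp7_0, G2Rp7_1, G2Rp7_4, G2Rp7_5, G2Rp8_0, G2Rp8_1, G2Rp8_4, G2Rp8_5, G2Rp8_7, G2Rp9_0,
  G2Rp9_1, G2Rp9_4, G2Rp9_5, G2Rp9_7, G2Rp9_8]⟩) (.leaf ⟨6847498513, 81149188819202170381417481,
  7269882888733497147895428317846642146371610672728767211660883584031205924962951757884, 98849,
  [G2Rp0_1, G2Rp0_2, G2Rp0_3, G2Rp0_4, G2Rp0_5, G2Rp0_7, G2Rp0_8, G2Rp0_9, G2Rp1_2, G2Rp1_3,
  G2Rp1_4, G2Rp1_5, G2Rp2_3, G2Rp2_4, G2Rp2_5, G2Rp3_4, G2Rp3_5, G2Rp4_5, G2Rp6_1, G2Rp6_2, G2Rp6_3,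
  G2Rp6_4, G2Rp6_5, G2Rp7_1, G2Rp7_2, G2Rp7_3, G2Rp7_4, G2Rp7_5, G2Rp8_1, G2Rp8_2, G2Rp8_3, G2Rp8_4,
  G2Rp8_5, G2Rp8_7, G2Rp9_1, G2Rp9_2, G2Rp9_3, G2Rp9_4, G2Rp9_5, G2Rp9_7, G2Rp9_8]⟩))) (.node 374
  (.node 373 (.leaf ⟨10276439569, 238319208824835841615564810,
  3893015380513200236243058105300230360412182184663087155962884299513529083913087746048, 149634,
  [G2Rp1_0, G2Rp1_2, G2Rp1_3, G2Rp1_4, G2Rp1_5, G2Rp1_6, G2Rp1_7, G2Rp1_8, G2Rp1_9, G2Rp3_2,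
  G2Rp4_2, G2Rp4_3, G2Rp5_2, G2Rp5_3, G2Rp5_4, G2Rp6_2, G2Rp6_3, G2Rp6_4, G2Rp6_5, G2Rp7_0, G2Rp7_8,
  G2Rp7_9, G2Rp8_0, G2Rp8_9, G2Rp9_0]⟩) (.leaf ⟨10276341265, 238319208824830103539257345,
  3893015380513200236243058105299080971218245509745013080461705063847477145419877449740, 149538,
  [G2Rp1_0, G2Rp1_2, G2Rp1_3, G2Rp1_4, G2Rp1_5, G2Rp1_6, G2Rp1_7, G2Rp1_8, G2Rp1_9, G2Rp2_3,
  G2Rp5_4, G2Rp6_4, G2Rp6_5, G2Rp7_0, G2Rp7_8, G2Rp7_9, G2Rp8_0, G2Rp8_9, G2Rp9_0]⟩)) (.node 375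
  (.leaf ⟨10276324882, 358119857787924685956258914,
  3893015380513200236243058105299080971218245855136823378012617961112947725360291644403, 149522,
  [G2Rp1_0, G2Rp1_4, G2Rp1_5, G2Rp1_6, G2Rp1_7, G2Rp1_8, G2Rp1_9, G2Rp2_0, G2Rp2_1, G2Rp2_4,
  G2Rp2_5, G2Rp2_6, G2Rp2_7, G2Rp2_8, G2Rp2_9, G2Rp3_0, G2Rp3_1, G2Rp3_2, G2Rp3_4, G2Rp3_5, G2Rp3_6,
  G2Rp3_7, G2Rp3_8, G2Rp3_9, G2Rp5_4, G2Rp6_4, G2Rp6_5, G2Rp7_0, G2Rp7_8, G2Rp7_9, G2Rp8_0, G2Rp8_9,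
  G2Rp9_0]⟩) (.leaf ⟨10277160473, 238319208934011539457937569,
  3893015380513200236243058105297548522446680857206915060780702095031428578438744113208, 149826,
  [G2Rp1_0, G2Rp1_3, G2Rp1_4, G2Rp1_5, G2Rp1_6, G2Rp1_7, G2Rp1_8, G2Rp1_9, G2Rp2_3, G2Rp2_4,
  G2Rp2_5, G2Rp4_5, G2Rp6_3, G2Rp6_4, G2Rp6_5, G2Rp7_0, G2Rp7_8, G2Rp7_9, G2Rp8_0, G2Rp8_9,
  G2Rp9_0]⟩)))) (.node 380 (.node 378 (.node 377 (.leaf ⟨10276636177, 238319208824651913936080996,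
  3893015380513200236243058105299080971219315961848345391876016746121542836198313033728, 149570,
  [G2Rp1_0, G2Rp1_4, G2Rp1_5, G2Rp1_6, G2Rp1_7, G2Rp1_8, G2Rp1_9, G2Rp2_3, G2Rp2_4, G2Rp2_5,
  G2Rp3_4, G2Rp3_5, G2Rp5_4, G2Rp6_4, G2Rp6_5, G2Rp7_0, G2Rp7_8, G2Rp7_9, G2Rp8_0, G2Rp8_9,
  G2Rp9_0]⟩) (.leaf ⟨10269296145, 238319208638878429307048036,
  3893015380513200236243058105299080971218245509745013075707957283666818161063751581696, 147778,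
  [G2Rp1_0, G2Rp1_6, G2Rp1_7, G2Rp1_8, G2Rp1_9, G2Rp2_3, G2Rp5_4, G2Rp7_0, G2Rp7_8, G2Rp7_9,
  G2Rp8_0, G2Rp8_9, G2Rp9_0]⟩)) (.node 379 (.leaf ⟨10268837401, 238319208645773501084569762,
  3893015380513200236243058105299080971218602328473878443739529346384196571865044484112, 147842,
  [G2Rp1_0, G2Rp1_4, G2Rp1_6, G2Rp1_7, G2Rp1_8, G2Rp1_9, G2Rp2_4, G2Rp3_2, G2Rp3_4, G2Rp5_4,
  G2Rp6_4, G2Rp7_0, G2Rp7_8, G2Rp7_9, G2Rp8_0, G2Rp8_9, G2Rp9_0]⟩) (.leaf ⟨10269263377,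
  238319208638884098663878756,
  3893015380513200236243058105300230360412182183301999222850974386940372282737179754508, 147746,
  [G2Rp1_0, G2Rp1_2, G2Rp1_3, G2Rp1_6, G2Rp1_7, G2Rp1_8, G2Rp1_9, G2Rp2_3, G2Rp4_2, G2Rp4_3,
  G2Rp5_2, G2Rp5_3, G2Rp5_4, G2Rp7_0, G2Rp7_8, G2Rp7_9, G2Rp8_0, G2Rp8_9, G2Rp9_0]⟩))) (.node 382
  (.node 381 (.leaf ⟨10269246994, 477920506341937308605130949,
  3893015380513200236243058105392468843225600565308144909878033402703853403838640817091, 147730,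
  [G2Rp1_0, G2Rp1_6, G2Rp1_7, G2Rp1_8, G2Rp1_9, G2Rp2_0, G2Rp2_1, G2Rp2_6, G2Rp2_7, G2Rp2_8,
  G2Rp2_9, G2Rp3_0, G2Rp3_1, G2Rp3_2, G2Rp3_6, G2Rp3_7, G2Rp3_8, G2Rp3_9, G2Rp4_0, G2Rp4_1, G2Rp4_2,
  G2Rp4_3, G2Rp4_6, G2Rp4_7, G2Rp4_8, G2Rp4_9, G2Rp5_0, G2Rp5_1, G2Rp5_2, G2Rp5_3, G2Rp5_4, G2Rp5_6,
  G2Rp5_7, G2Rp5_8, G2Rp5_9, G2Rp7_0, G2Rp7_8, G2Rp7_9, G2Rp8_0, G2Rp8_9, G2Rp9_0]⟩) (.leaf
  ⟨10270049809, 238319208859627447535115265,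
  3893015380513200236243058105297548522446502467578880428317461004705354048445014081596, 148002,
  [G2Rp1_0, G2Rp1_2, G2Rp1_3, G2Rp1_4, G2Rp1_5, G2Rp1_6, G2Rp1_7, G2Rp1_8, G2Rp1_9, G2Rp2_3,
  G2Rp2_4, G2Rp2_5, G2Rp3_4, G2Rp3_5, G2Rp4_5, G2Rp7_0, G2Rp7_8, G2Rp7_9, G2Rp8_0, G2Rp8_9,
  G2Rp9_0]⟩)) (.node 383 (.leaf ⟨10270148113, 238319208748056738489536516,
  3893015380513200236243058105297548522446770061548547877896099339733085138378211196928, 148098,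
  [G2Rp1_0, G2Rp1_6, G2Rp1_7, G2Rp1_8, G2Rp1_9, G2Rp3_2, G2Rp4_5, G2Rp7_0, G2Rp7_8, G2Rp7_9,
  G2Rp8_0, G2Rp8_9, G2Rp9_0]⟩) (.leaf ⟨38959190290, 198385659242453695672097890,
  3893015380513200236243058105297548522446770061548547806511522495348938599673460686908, 590469,
  [G2Rp1_2, G2Rp1_3, G2Rp1_4, G2Rp1_5, G2Rp3_2, G2Rp4_5, G2Rp6_0, G2Rp6_7, G2Rp6_8, G2Rp6_9,
  G2Rp7_0, G2Rp7_8, G2Rp7_9, G2Rp8_0, G2Rp8_9, G2Rp9_0]⟩))))))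

def G2RT7 : Tr :=
  .node 416 (.node 400 (.node 392 (.node 388 (.node 386 (.node 385 (.leaf ⟨10270033426,
  358119857711152386058427490,
  3893015380513200236243058105297548522446502796636887879611166183317985803346641945587, 147986,
  [G2Rp1_0, G2Rp1_6, G2Rp1_7, G2Rp1_8, G2Rp1_9, G2Rp2_0, G2Rp2_1, G2Rp2_4, G2Rp2_5, G2Rp2_6,
  G2Rp2_7, G2Rp2_8, G2Rp2_9, G2Rp3_0, G2Rp3_1, G2Rp3_2, G2Rp3_4, G2Rp3_5, G2Rp3_6, G2Rp3_7, G2Rp3_8,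
  G2Rp3_9, G2Rp4_5, G2Rp7_0, G2Rp7_8, G2Rp7_9, G2Rp8_0, G2Rp8_9, G2Rp9_0]⟩) (.leaf ⟨38963089700,
  517854055959113397735529669,
  3893015380513200236243058105392468843225600565308144833739694271914669735898297467843, 591461,
  [G2Rp2_0, G2Rp2_1, G2Rp2_6, G2Rp2_7, G2Rp2_8, G2Rp2_9, G2Rp3_0, G2Rp3_1, G2Rp3_2, G2Rp3_6,
  G2Rp3_7, G2Rp3_8, G2Rp3_9, G2Rp4_0, G2Rp4_1, G2Rp4_2, G2Rp4_3, G2Rp4_6, G2Rp4_7, G2Rp4_8, G2Rp4_9,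
  G2Rp5_0, G2Rp5_1, G2Rp5_2, G2Rp5_3, G2Rp5_4, G2Rp5_6, G2Rp5_7, G2Rp5_8, G2Rp5_9, G2Rp6_0, G2Rp6_7,
  G2Rp6_8, G2Rp6_9, G2Rp7_0, G2Rp7_8, G2Rp7_9, G2Rp8_0, G2Rp8_9, G2Rp9_0]⟩)) (.node 387 (.leaf
  ⟨38963093796, 517854055959113391326633157,
  3893015380513200236243058105392277278359944452368072100410315508171988979754339468225, 591465,
  [G2Rp1_0, G2Rp1_6, G2Rp1_7, G2Rp1_8, G2Rp1_9, G2Rp2_0, G2Rp2_6, G2Rp2_7, G2Rp2_8, G2Rp2_9,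
  G2Rp3_0, G2Rp3_2, G2Rp3_6, G2Rp3_7, G2Rp3_8, G2Rp3_9, G2Rp4_0, G2Rp4_2, G2Rp4_3, G2Rp4_6, G2Rp4_7,
  G2Rp4_8, G2Rp4_9, G2Rp5_0, G2Rp5_2, G2Rp5_3, G2Rp5_4, G2Rp5_6, G2Rp5_7, G2Rp5_8, G2Rp5_9, G2Rp6_0,
  G2Rp6_7, G2Rp6_8, G2Rp6_9, G2Rp7_0, G2Rp7_8, G2Rp7_9, G2Rp8_0, G2Rp8_9, G2Rp9_0]⟩) (.leaf
  ⟨38963054886, 398053407107588471560245348,
  3908192712821425967292280116474807860189514769553975385717987082524046513144257773582, 591425,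
  [G2Rp0_1, G2Rp2_3, G2Rp4_0, G2Rp4_1, G2Rp4_2, G2Rp4_3, G2Rp4_6, G2Rp4_7, G2Rp4_8, G2Rp4_9,
  G2Rp5_0, G2Rp5_1, G2Rp5_2, G2Rp5_3, G2Rp5_4, G2Rp5_6, G2Rp5_7, G2Rp5_8, G2Rp5_9, G2Rp6_0, G2Rp6_1,
  G2Rp6_7, G2Rp6_8, G2Rp6_9, G2Rp7_0, G2Rp7_1, G2Rp7_8, G2Rp7_9, G2Rp8_0, G2Rp8_1, G2Rp8_9, G2Rp9_0,
  G2Rp9_1]⟩))) (.node 390 (.node 389 (.leaf ⟨38963056934, 398053407107588457165394020,
  3893015380513200236243058105392277278359944123990639687611005274210121473631506464780, 591429,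
  [G2Rp1_2, G2Rp1_3, G2Rp2_3, G2Rp4_0, G2Rp4_2, G2Rp4_3, G2Rp4_6, G2Rp4_7, G2Rp4_8, G2Rp4_9,
  G2Rp5_0, G2Rp5_2, G2Rp5_3, G2Rp5_4, G2Rp5_6, G2Rp5_7, G2Rp5_8, G2Rp5_9, G2Rp6_0, G2Rp6_7, G2Rp6_8,
  G2Rp6_9, G2Rp7_0, G2Rp7_8, G2Rp7_9, G2Rp8_0, G2Rp8_9, G2Rp9_0]⟩) (.leaf ⟨10272245281,
  238319208673856299368286311,
  3893015380513200236243058105304827987338937035004842339844316880315696522033583882240, 148610,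
  [G2Rp1_0, G2Rp1_6, G2Rp1_7, G2Rp1_8, G2Rp1_9, G2Rp3_2, G2Rp4_2, G2Rp4_3, G2Rp4_5, G2Rp4_6,
  G2Rp5_2, G2Rp5_3, G2Rp5_6, G2Rp7_0, G2Rp7_8, G2Rp7_9, G2Rp8_0, G2Rp8_9, G2Rp9_0]⟩)) (.node 391
  (.leaf ⟨10272441889, 238319208785245417196688583,
  3893015380513200236243058105303678598147498081661210326528267961019732330110286561280, 148546,
  [G2Rp1_0, G2Rp1_6, G2Rp1_7, G2Rp1_8, G2Rp1_9, G2Rp2_3, G2Rp2_4, G2Rp2_5, G2Rp2_6, G2Rp3_4,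
  G2Rp3_5, G2Rp3_6, G2Rp4_5, G2Rp4_6, G2Rp5_6, G2Rp7_0, G2Rp7_8, G2Rp7_9, G2Rp8_0, G2Rp8_9,
  G2Rp9_0]⟩) (.leaf ⟨38961172770, 318186307908202809782274146,
  3893015380513200236243058105389595440371762941389488576428607751536624976624768516096, 590869,
  [G2Rp3_2, G2Rp4_0, G2Rp4_5, G2Rp4_6, G2Rp4_7, G2Rp4_8, G2Rp4_9, G2Rp5_0, G2Rp5_6, G2Rp5_7,
  G2Rp5_8, G2Rp5_9, G2Rp6_0, G2Rp6_7, G2Rp6_8, G2Rp6_9, G2Rp7_0, G2Rp7_8, G2Rp7_9, G2Rp8_0, G2Rp8_9,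
  G2Rp9_0]⟩)))) (.node 396 (.node 394 (.node 393 (.leaf ⟨38963142948, 477920506342007601985984673,
  3893015380513200236243058105391127889166007777449998025859888730008308774569527804877, 591513,
  [G2Rp1_0, G2Rp1_2, G2Rp1_3, G2Rp1_6, G2Rp1_7, G2Rp1_8, G2Rp1_9, G2Rp2_0, G2Rp2_3, G2Rp2_6,
  G2Rp2_7, G2Rp2_8, G2Rp2_9, G2Rp3_0, G2Rp3_6, G2Rp3_7, G2Rp3_8, G2Rp3_9, G2Rp4_0, G2Rp4_6, G2Rp4_7,
  G2Rp4_8, G2Rp4_9, G2Rp5_0, G2Rp5_4, G2Rp5_6, G2Rp5_7, G2Rp5_8, G2Rp5_9, G2Rp6_0, G2Rp6_7, G2Rp6_8,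
  G2Rp6_9, G2Rp7_0, G2Rp7_8, G2Rp7_9, G2Rp8_0, G2Rp8_9, G2Rp9_0]⟩) (.leaf ⟨10272130594,
  358119857525378901429389410,
  3893015380513200236243058105303678598145000689144775720390547081449336276188970091459, 148498,
  [G2Rp1_0, G2Rp1_6, G2Rp1_7, G2Rp1_8, G2Rp1_9, G2Rp2_0, G2Rp2_1, G2Rp2_6, G2Rp2_7, G2Rp2_8,
  G2Rp2_9, G2Rp3_0, G2Rp3_1, G2Rp3_2, G2Rp3_6, G2Rp3_7, G2Rp3_8, G2Rp3_9, G2Rp4_5, G2Rp4_6, G2Rp5_6,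
  G2Rp7_0, G2Rp7_8, G2Rp7_9, G2Rp8_0, G2Rp8_9, G2Rp9_0]⟩)) (.node 395 (.leaf ⟨10272146977,
  238319208673962917636442212,
  3893015380513200236243058105304827987338669424701372044008470826635126607061600436236, 148514,
  [G2Rp1_0, G2Rp1_2, G2Rp1_3, G2Rp1_6, G2Rp1_7, G2Rp1_8, G2Rp1_9, G2Rp2_3, G2Rp4_2, G2Rp4_3,
  G2Rp4_5, G2Rp4_6, G2Rp5_2, G2Rp5_3, G2Rp5_6, G2Rp7_0, G2Rp7_8, G2Rp7_9, G2Rp8_0, G2Rp8_9,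
  G2Rp9_0]⟩) (.leaf ⟨38961451300, 477920506525495135335323713,
  3893015380513200236243058105389595440394442797900555702978642712519882506308819682299, 590885,
  [G2Rp2_0, G2Rp2_1, G2Rp2_3, G2Rp2_4, G2Rp2_5, G2Rp2_6, G2Rp2_7, G2Rp2_8, G2Rp2_9, G2Rp4_0,
  G2Rp4_5, G2Rp4_6, G2Rp4_7, G2Rp4_8, G2Rp4_9, G2Rp5_0, G2Rp5_6, G2Rp5_7, G2Rp5_8, G2Rp5_9, G2Rp6_0,
  G2Rp6_7, G2Rp6_8, G2Rp6_9, G2Rp7_0, G2Rp7_8, G2Rp7_9, G2Rp8_0, G2Rp8_9, G2Rp9_0]⟩))) (.node 398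
  (.node 397 (.leaf ⟨38961516836, 517854056179856743385537634,
  3893015380513200236243058105389595440394264737325528344371182563477899618690872181747, 590949,
  [G2Rp2_0, G2Rp2_1, G2Rp2_4, G2Rp2_5, G2Rp2_6, G2Rp2_7, G2Rp2_8, G2Rp2_9, G2Rp3_0, G2Rp3_1,
  G2Rp3_2, G2Rp3_4, G2Rp3_5, G2Rp3_6, G2Rp3_7, G2Rp3_8, G2Rp3_9, G2Rp4_0, G2Rp4_5, G2Rp4_6, G2Rp4_7,
  G2Rp4_8, G2Rp4_9, G2Rp5_0, G2Rp5_6, G2Rp5_7, G2Rp5_8, G2Rp5_9, G2Rp6_0, G2Rp6_7, G2Rp6_8, G2Rp6_9,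
  G2Rp7_0, G2Rp7_8, G2Rp7_9, G2Rp8_0, G2Rp8_9, G2Rp9_0]⟩) (.leaf ⟨38961484066,
  557787605834227178667286818,
  3893015380513200236243058105389595440394264735283865377518806825528944054104208966653, 590917,
  [G2Rp1_0, G2Rp1_2, G2Rp1_3, G2Rp1_4, G2Rp1_5, G2Rp1_6, G2Rp1_7, G2Rp1_8, G2Rp1_9, G2Rp2_0,
  G2Rp2_3, G2Rp2_4, G2Rp2_5, G2Rp2_6, G2Rp2_7, G2Rp2_8, G2Rp2_9, G2Rp3_0, G2Rp3_4, G2Rp3_5, G2Rp3_6,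
  G2Rp3_7, G2Rp3_8, G2Rp3_9, G2Rp4_0, G2Rp4_5, G2Rp4_6, G2Rp4_7, G2Rp4_8, G2Rp4_9, G2Rp5_0, G2Rp5_6,
  G2Rp5_7, G2Rp5_8, G2Rp5_9, G2Rp6_0, G2Rp6_7, G2Rp6_8, G2Rp6_9, G2Rp7_0, G2Rp7_8, G2Rp7_9, G2Rp8_0,
  G2Rp8_9, G2Rp9_0]⟩)) (.node 399 (.leaf ⟨38961439012, 477920506525495305020086337,
  3893015380513200236243058105389595440394532002237188423548067229105248407472465314813, 590873,
  [G2Rp1_0, G2Rp1_2, G2Rp1_3, G2Rp1_4, G2Rp1_5, G2Rp1_6, G2Rp1_7, G2Rp1_8, G2Rp1_9, G2Rp3_2,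
  G2Rp4_0, G2Rp4_5, G2Rp4_6, G2Rp4_7, G2Rp4_8, G2Rp4_9, G2Rp5_0, G2Rp5_6, G2Rp5_7, G2Rp5_8, G2Rp5_9,
  G2Rp6_0, G2Rp6_7, G2Rp6_8, G2Rp6_9, G2Rp7_0, G2Rp7_8, G2Rp7_9, G2Rp8_0, G2Rp8_9, G2Rp9_0]⟩) (.leaf
  ⟨38957846820, 437986956947616761925276803,
  3893015380513200236243058105299080971241059517474920125545060040107196398213130159091, 590181,
  [G2Rp2_0, G2Rp2_1, G2Rp2_4, G2Rp2_5, G2Rp2_6, G2Rp2_7, G2Rp2_8, G2Rp2_9, G2Rp3_0, G2Rp3_1,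
  G2Rp3_2, G2Rp3_4, G2Rp3_5, G2Rp3_6, G2Rp3_7, G2Rp3_8, G2Rp3_9, G2Rp5_4, G2Rp6_0, G2Rp6_7, G2Rp6_8,
  G2Rp6_9, G2Rp7_0, G2Rp7_8, G2Rp7_9, G2Rp8_0, G2Rp8_9, G2Rp9_0]⟩))))) (.node 408 (.node 404 (.node
  402 (.node 401 (.leaf ⟨38957895972, 437986956947723376972207232,
  3893015380513200236243058105299080971240747305000477649076598968236902859539412485119, 590229,
  [G2Rp2_0, G2Rp2_3, G2Rp2_4, G2Rp2_5, G2Rp2_6, G2Rp2_7, G2Rp2_8, G2Rp2_9, G2Rp3_0, G2Rp3_4,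
  G2Rp3_5, G2Rp3_6, G2Rp3_7, G2Rp3_8, G2Rp3_9, G2Rp5_4, G2Rp6_0, G2Rp6_7, G2Rp6_8, G2Rp6_9, G2Rp7_0,
  G2Rp7_8, G2Rp7_9, G2Rp8_0, G2Rp8_9, G2Rp9_0]⟩) (.leaf ⟨38957850916, 437986956947616757663863939,
  3893015380513200236243058105299080971241014915303948025804396531129722228261419811825, 590185,
  [G2Rp1_0, G2Rp1_4, G2Rp1_5, G2Rp1_6, G2Rp1_7, G2Rp1_8, G2Rp1_9, G2Rp2_0, G2Rp2_4, G2Rp2_5,
  G2Rp2_6, G2Rp2_7, G2Rp2_8, G2Rp2_9, G2Rp3_0, G2Rp3_2, G2Rp3_4, G2Rp3_5, G2Rp3_6, G2Rp3_7, G2Rp3_8,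
  G2Rp3_9, G2Rp5_4, G2Rp6_0, G2Rp6_7, G2Rp6_8, G2Rp6_9, G2Rp7_0, G2Rp7_8, G2Rp7_9, G2Rp8_0, G2Rp8_9,
  G2Rp9_0]⟩)) (.node 403 (.leaf ⟨35744260369, 1300286853985933415416839,
  6806974253332588167453403524874425344481135139954463138381929470309050224214523445251, 542857,
  [G2Rp1_0, G2Rp2_0, G2Rp2_1, G2Rp3_0, G2Rp3_1, G2Rp3_2, G2Rp4_0, G2Rp4_1, G2Rp4_2, G2Rp4_3,
  G2Rp5_0, G2Rp5_1, G2Rp5_2, G2Rp5_3, G2Rp5_4, G2Rp6_0, G2Rp6_1, G2Rp6_2, G2Rp6_3, G2Rp6_4, G2Rp6_5,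
  G2Rp7_0, G2Rp8_0, G2Rp8_7, G2Rp9_0, G2Rp9_7, G2Rp9_8]⟩) (.leaf ⟨10075119889,
  597712706659061850281346055,
  3885426714359111554159200554809015228797893838075456763464150685186043718184829125507, 149641,
  [G2Rp0_7, G2Rp0_8, G2Rp0_9, G2Rp1_0, G2Rp1_7, G2Rp1_8, G2Rp1_9, G2Rp2_0, G2Rp2_1, G2Rp2_7,
  G2Rp2_8, G2Rp2_9, G2Rp3_0, G2Rp3_1, G2Rp3_2, G2Rp3_7, G2Rp3_8, G2Rp3_9, G2Rp4_0, G2Rp4_1, G2Rp4_2,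
  G2Rp4_3, G2Rp4_7, G2Rp4_8, G2Rp4_9, G2Rp5_0, G2Rp5_1, G2Rp5_2, G2Rp5_3, G2Rp5_4, G2Rp5_7, G2Rp5_8,
  G2Rp5_9, G2Rp6_0, G2Rp6_1, G2Rp6_2, G2Rp6_3, G2Rp6_4, G2Rp6_5, G2Rp6_7, G2Rp6_8, G2Rp6_9, G2Rp7_8,
  G2Rp7_9, G2Rp8_9]⟩))) (.node 406 (.node 405 (.leaf ⟨10276446481, 118518559861734536881636359,
  3893015380513200236243058105300421925277838297603159884537336562452758682499775594498, 149642,
  [G2Rp2_1, G2Rp3_1, G2Rp3_2, G2Rp4_1, G2Rp4_2, G2Rp4_3, G2Rp5_1, G2Rp5_2, G2Rp5_3, G2Rp5_4,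
  G2Rp6_1, G2Rp6_2, G2Rp6_3, G2Rp6_4, G2Rp6_5, G2Rp7_0, G2Rp7_8, G2Rp7_9, G2Rp8_0, G2Rp8_9,
  G2Rp9_0]⟩) (.leaf ⟨10075113745, 198377210487300953239192583,
  3885426714359111608079916653857050484813940257814847705633105283005746996499067961344, 149633,
  [G2Rp0_1, G2Rp0_7, G2Rp0_8, G2Rp0_9, G2Rp3_2, G2Rp4_2, G2Rp4_3, G2Rp5_2, G2Rp5_3, G2Rp5_4,
  G2Rp6_1, G2Rp6_2, G2Rp6_3, G2Rp6_4, G2Rp6_5, G2Rp7_8, G2Rp7_9, G2Rp8_9]⟩)) (.node 407 (.leaf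
  ⟨35744254225, 1290537749742976733545480,
  6822151585640813898502625535956477014146565503848191932128013880110063116986644955136, 542849,
  [G2Rp0_1, G2Rp3_2, G2Rp4_2, G2Rp4_3, G2Rp5_2, G2Rp5_3, G2Rp5_4, G2Rp6_0, G2Rp6_1, G2Rp6_2,
  G2Rp6_3, G2Rp6_4, G2Rp6_5, G2Rp7_0, G2Rp7_1, G2Rp8_0, G2Rp8_1, G2Rp8_7, G2Rp9_0, G2Rp9_1, G2Rp9_7,
  G2Rp9_8]⟩) (.leaf ⟨10272248098, 118518559822545948425423144,
  3999256706670780353587612182881201106086338768131708320843050809308527450264867438604, 148614,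
  [G2Rp0_1, G2Rp0_2, G2Rp0_3, G2Rp1_2, G2Rp1_3, G2Rp3_2, G2Rp4_2, G2Rp4_3, G2Rp4_5, G2Rp4_6,
  G2Rp5_2, G2Rp5_3, G2Rp5_6, G2Rp7_0, G2Rp7_1, G2Rp7_2, G2Rp7_3, G2Rp7_8, G2Rp7_9, G2Rp8_0, G2Rp8_1,
  G2Rp8_2, G2Rp8_3, G2Rp8_9, G2Rp9_0, G2Rp9_1, G2Rp9_2, G2Rp9_3]⟩)))) (.node 412 (.node 410 (.node
  409 (.leaf ⟨10272444706, 118518560268436293326191080,
  4849187315931421292344044803491036666874113679803004765899931695367433212628605862012, 148550,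
  [G2Rp0_1, G2Rp0_2, G2Rp0_3, G2Rp0_4, G2Rp0_5, G2Rp0_6, G2Rp1_2, G2Rp1_3, G2Rp1_4, G2Rp1_5,
  G2Rp1_6, G2Rp2_3, G2Rp2_4, G2Rp2_5, G2Rp2_6, G2Rp3_4, G2Rp3_5, G2Rp3_6, G2Rp4_5, G2Rp4_6, G2Rp5_6,
  G2Rp7_0, G2Rp7_1, G2Rp7_2, G2Rp7_3, G2Rp7_4, G2Rp7_5, G2Rp7_6, G2Rp7_8, G2Rp7_9, G2Rp8_0, G2Rp8_1,
  G2Rp8_2, G2Rp8_3, G2Rp8_4, G2Rp8_5, G2Rp8_6, G2Rp8_9, G2Rp9_0, G2Rp9_1, G2Rp9_2, G2Rp9_3, G2Rp9_4,
  G2Rp9_5, G2Rp9_6]⟩) (.leaf ⟨10274017574, 118518559787360373745815656,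
  3999256706670780353587612182882733554860579508732791315924459182308068869725617913868, 149062,
  [G2Rp0_1, G2Rp0_2, G2Rp0_3, G2Rp1_2, G2Rp1_3, G2Rp2_3, G2Rp4_2, G2Rp4_3, G2Rp4_6, G2Rp5_2,
  G2Rp5_3, G2Rp5_4, G2Rp5_6, G2Rp7_0, G2Rp7_1, G2Rp7_2, G2Rp7_3, G2Rp7_8, G2Rp7_9, G2Rp8_0, G2Rp8_1,
  G2Rp8_2, G2Rp8_3, G2Rp8_9, G2Rp9_0, G2Rp9_1, G2Rp9_2, G2Rp9_3]⟩)) (.node 411 (.leaf ⟨10272477476,
  118518560008095854239161442,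
  3908192712821425967292280116386017615111412617006711306160096125539017939137743290482, 148582,
  [G2Rp0_1, G2Rp2_1, G2Rp2_4, G2Rp2_5, G2Rp2_6, G2Rp3_1, G2Rp3_2, G2Rp3_4, G2Rp3_5, G2Rp3_6,
  G2Rp4_5, G2Rp4_6, G2Rp5_6, G2Rp7_0, G2Rp7_1, G2Rp7_8, G2Rp7_9, G2Rp8_0, G2Rp8_1, G2Rp8_9, G2Rp9_0,
  G2Rp9_1]⟩) (.leaf ⟨10276442386, 118518560196453672227449128,
  4363512682068197898768940448852739886293532717082065328653397286146605357624551276604, 149638,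
  [G2Rp0_1, G2Rp0_2, G2Rp0_3, G2Rp0_4, G2Rp0_5, G2Rp1_2, G2Rp1_3, G2Rp1_4, G2Rp1_5, G2Rp3_2,
  G2Rp4_2, G2Rp4_3, G2Rp5_2, G2Rp5_3, G2Rp5_4, G2Rp6_2, G2Rp6_3, G2Rp6_4, G2Rp6_5, G2Rp7_0, G2Rp7_1,
  G2Rp7_2, G2Rp7_3, G2Rp7_4, G2Rp7_5, G2Rp7_8, G2Rp7_9, G2Rp8_0, G2Rp8_1, G2Rp8_2, G2Rp8_3, G2Rp8_4,
  G2Rp8_5, G2Rp8_9, G2Rp9_0, G2Rp9_1, G2Rp9_2, G2Rp9_3, G2Rp9_4, G2Rp9_5]⟩))) (.node 414 (.node 413
  (.leaf ⟨10276638994, 118518560307842790055753096,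
  4363512682068197898768940448851590497100666494267323565517282190256987465466915061820, 149574,
  [G2Rp0_1, G2Rp0_2, G2Rp0_3, G2Rp0_4, G2Rp0_5, G2Rp1_2, G2Rp1_3, G2Rp1_4, G2Rp1_5, G2Rp2_3,
  G2Rp2_4, G2Rp2_5, G2Rp3_4, G2Rp3_5, G2Rp5_4, G2Rp6_4, G2Rp6_5, G2Rp7_0, G2Rp7_1, G2Rp7_2, G2Rp7_3,
  G2Rp7_4, G2Rp7_5, G2Rp7_8, G2Rp7_9, G2Rp8_0, G2Rp8_1, G2Rp8_2, G2Rp8_3, G2Rp8_4, G2Rp8_5, G2Rp8_9,
  G2Rp9_0, G2Rp9_1, G2Rp9_2, G2Rp9_3, G2Rp9_4, G2Rp9_5]⟩) (.leaf ⟨10274050340,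
  118518559787352505367928005,
  3908192712821425967292280116388891017942748444989327795528607833975788056345168576578, 149094,
  [G2Rp0_1, G2Rp2_1, G2Rp2_6, G2Rp3_1, G2Rp3_2, G2Rp3_6, G2Rp4_1, G2Rp4_2, G2Rp4_3, G2Rp4_6,
  G2Rp5_1, G2Rp5_2, G2Rp5_3, G2Rp5_4, G2Rp5_6, G2Rp7_0, G2Rp7_1, G2Rp7_8, G2Rp7_9, G2Rp8_0, G2Rp8_1,
  G2Rp8_9, G2Rp9_0, G2Rp9_1]⟩)) (.node 415 (.leaf ⟨10272477572, 118518560268425023322334530,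
  4758123322082066906048712736990872489389630867939309852694975024192092392930449293362, 156774,
  [G2Rp0_1, G2Rp0_4, G2Rp0_5, G2Rp0_6, G2Rp2_1, G2Rp2_4, G2Rp2_5, G2Rp3_1, G2Rp3_2, G2Rp3_4,
  G2Rp3_5, G2Rp4_5, G2Rp6_4, G2Rp6_5, G2Rp7_0, G2Rp7_1, G2Rp7_4, G2Rp7_5, G2Rp7_6, G2Rp7_8, G2Rp7_9,
  G2Rp8_0, G2Rp8_1, G2Rp8_4, G2Rp8_5, G2Rp8_6, G2Rp8_9, G2Rp9_0, G2Rp9_1, G2Rp9_4, G2Rp9_5,
  G2Rp9_6]⟩) (.leaf ⟨35744272664, 1290537749746309426840742,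
  6806974253332588167453403524874329562048307081442763685824403892782413677121724350478, 542869,
  [G2Rp2_3, G2Rp4_1, G2Rp4_2, G2Rp4_3, G2Rp5_1, G2Rp5_2, G2Rp5_3, G2Rp5_4, G2Rp6_0, G2Rp6_1,
  G2Rp6_2, G2Rp6_3, G2Rp6_4, G2Rp6_5, G2Rp7_0, G2Rp8_0, G2Rp8_7, G2Rp9_0, G2Rp9_7, G2Rp9_8]⟩))))))
  (.node 432 (.node 424 (.node 420 (.node 418 (.node 417 (.leaf ⟨10276458776,
  118518559861737868598707366,
  3908192712821425967292280116382760942241752828865334844819631554991090509169461952526, 149654,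
  [G2Rp0_1, G2Rp2_3, G2Rp4_1, G2Rp4_2, G2Rp4_3, G2Rp5_1, G2Rp5_2, G2Rp5_3, G2Rp5_4, G2Rp6_1,
  G2Rp6_2, G2Rp6_3, G2Rp6_4, G2Rp6_5, G2Rp7_0, G2Rp7_1, G2Rp7_8, G2Rp7_9, G2Rp8_0, G2Rp8_1, G2Rp8_9,
  G2Rp9_0, G2Rp9_1]⟩) (.leaf ⟨10075132184, 238310760104480377512395942,
  3885426714359111554159200554723098386551127182411138598415237594494968682331694301198, 149653,
  [G2Rp0_7, G2Rp0_8, G2Rp0_9, G2Rp2_3, G2Rp4_1, G2Rp4_2, G2Rp4_3, G2Rp5_1, G2Rp5_2, G2Rp5_3,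
  G2Rp5_4, G2Rp6_1, G2Rp6_2, G2Rp6_3, G2Rp6_4, G2Rp6_5, G2Rp7_8, G2Rp7_9, G2Rp8_9]⟩)) (.node 419
  (.leaf ⟨10075136280, 278244309721656459395073190,
  3885426714359111554159200554722906821685471070151640979401588376592548084221102260236, 149657,
  [G2Rp0_7, G2Rp0_8, G2Rp0_9, G2Rp1_0, G2Rp1_2, G2Rp1_3, G2Rp1_7, G2Rp1_8, G2Rp1_9, G2Rp2_3,
  G2Rp4_2, G2Rp4_3, G2Rp5_2, G2Rp5_3, G2Rp5_4, G2Rp6_2, G2Rp6_3, G2Rp6_4, G2Rp6_5, G2Rp7_8, G2Rp7_9,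
  G2Rp8_9]⟩) (.leaf ⟨35744162065, 1292975025801373679617025,
  6806974253332588167453403524872988607988714295626279848679303958825589095771068629007, 542761,
  [G2Rp1_0, G2Rp2_3, G2Rp5_4, G2Rp6_0, G2Rp6_4, G2Rp6_5, G2Rp7_0, G2Rp8_0, G2Rp8_7, G2Rp9_0,
  G2Rp9_7, G2Rp9_8]⟩))) (.node 422 (.node 421 (.leaf ⟨10075021585, 358111408956002970983465985,
  3885426714359111554159200554721757432491534396594654832258571273318990584796476801935, 149545,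
  [G2Rp0_7, G2Rp0_8, G2Rp0_9, G2Rp1_0, G2Rp1_7, G2Rp1_8, G2Rp1_9, G2Rp2_3, G2Rp5_4, G2Rp6_4,
  G2Rp6_5, G2Rp7_8, G2Rp7_9, G2Rp8_9]⟩) (.leaf ⟨10276348177, 118518559861732193873167361,
  3893015380513200236243058105299080971218245509745012999568531312018832531201288175630, 149546,
  [G2Rp2_3, G2Rp5_4, G2Rp6_4, G2Rp6_5, G2Rp7_0, G2Rp7_8, G2Rp7_9, G2Rp8_0, G2Rp8_9, G2Rp9_0]⟩))
  (.node 423 (.leaf ⟨10075015441, 198377210487480207994258438,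
  3885426714359111931604213248660763074390818700709486844735371283485298942099110756364, 149537,
  [G2Rp0_1, G2Rp0_2, G2Rp0_3, G2Rp0_7, G2Rp0_8, G2Rp0_9, G2Rp1_2, G2Rp1_3, G2Rp2_3, G2Rp5_4,
  G2Rp6_1, G2Rp6_2, G2Rp6_3, G2Rp6_4, G2Rp6_5, G2Rp7_8, G2Rp7_9, G2Rp8_9]⟩) (.leaf ⟨10074999058,
  198377210598864927776051298,
  3885426714359111608079916653855901095620003601272239520330676044453518444601778634802, 149521,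
  [G2Rp0_1, G2Rp0_7, G2Rp0_8, G2Rp0_9, G2Rp2_1, G2Rp2_4, G2Rp2_5, G2Rp3_1, G2Rp3_2, G2Rp3_4,
  G2Rp3_5, G2Rp5_4, G2Rp6_1, G2Rp6_4, G2Rp6_5, G2Rp7_8, G2Rp7_9, G2Rp8_9]⟩)))) (.node 428 (.node 426
  (.node 425 (.leaf ⟨10070804770, 198377210447888788251314274,
  3885426714359111608079916653860690287412369946049292496297378448879898799369739042818, 148497,
  [G2Rp0_1, G2Rp0_7, G2Rp0_8, G2Rp0_9, G2Rp2_1, G2Rp3_1, G2Rp3_2, G2Rp4_1, G2Rp4_5, G2Rp4_6,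
  G2Rp5_1, G2Rp5_6, G2Rp6_1, G2Rp7_8, G2Rp7_9, G2Rp8_9]⟩) (.leaf ⟨35744141592,
  1290537749737513333818534,
  6806974253332588167453403524873563302585682634446425584846980292873376112206925922310, 542741,
  [G2Rp3_1, G2Rp3_2, G2Rp4_1, G2Rp4_2, G2Rp5_1, G2Rp5_2, G2Rp5_4, G2Rp6_0, G2Rp6_1, G2Rp6_2,
  G2Rp6_4, G2Rp6_5, G2Rp7_0, G2Rp8_0, G2Rp8_7, G2Rp9_0, G2Rp9_7, G2Rp9_8]⟩)) (.node 427 (.leaf
  ⟨10075001112, 238310760104471581419373734,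
  3885426714359111554159200554722332127088502735414800497437813994585931117416895873030, 149525,
  [G2Rp0_7, G2Rp0_8, G2Rp0_9, G2Rp3_1, G2Rp3_2, G2Rp4_1, G2Rp4_2, G2Rp5_1, G2Rp5_2, G2Rp5_4,
  G2Rp6_1, G2Rp6_2, G2Rp6_4, G2Rp6_5, G2Rp7_8, G2Rp7_9, G2Rp8_9]⟩) (.leaf ⟨10276327704,
  118518559861729072505685158,
  3908192712821425967292280116381994682779128381868996743842207955082052944254663524358, 149526,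
  [G2Rp0_1, G2Rp3_1, G2Rp3_2, G2Rp4_1, G2Rp4_2, G2Rp5_1, G2Rp5_2, G2Rp5_4, G2Rp6_1, G2Rp6_2,
  G2Rp6_4, G2Rp6_5, G2Rp7_0, G2Rp7_1, G2Rp7_8, G2Rp7_9, G2Rp8_0, G2Rp8_1, G2Rp8_9, G2Rp9_0,
  G2Rp9_1]⟩))) (.node 430 (.node 429 (.leaf ⟨10075005208, 278244309721647663302050982,
  3885426714359111554159200554722140562222846622474738143948462549642646603694415806468, 149529,
  [G2Rp0_7, G2Rp0_8, G2Rp0_9, G2Rp1_0, G2Rp1_2, G2Rp1_7, G2Rp1_8, G2Rp1_9, G2Rp3_2, G2Rp4_2,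
  G2Rp5_2, G2Rp5_4, G2Rp6_2, G2Rp6_4, G2Rp6_5, G2Rp7_8, G2Rp7_9, G2Rp8_9]⟩) (.leaf ⟨35744139538,
  1290537861306951270404194,
  6822151585640813898502625535955327624952628847305583746825584641557834565089355628594, 542737,
  [G2Rp0_1, G2Rp2_1, G2Rp2_4, G2Rp2_5, G2Rp3_1, G2Rp3_2, G2Rp3_4, G2Rp3_5, G2Rp5_4, G2Rp6_0,
  G2Rp6_1, G2Rp6_4, G2Rp6_5, G2Rp7_0, G2Rp7_1, G2Rp8_0, G2Rp8_1, G2Rp8_7, G2Rp9_0, G2Rp9_1, G2Rp9_7,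
  G2Rp9_8]⟩)) (.node 431 (.leaf ⟨35740211332, 1290537858918943017665600,
  6806974253332588167453403524871456159217238847429814650788216643433328473065379332158, 549909,
  [G2Rp3_2, G2Rp4_5, G2Rp6_2, G2Rp6_3, G2Rp6_4, G2Rp6_5, G2Rp7_0, G2Rp8_0, G2Rp8_7, G2Rp9_0,
  G2Rp9_7, G2Rp9_8]⟩) (.leaf ⟨35739945250, 1292974986391551729567842,
  6822151585640813898502625535960212599177800947467187037685168773024474110712680022018, 541713,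
  [G2Rp0_1, G2Rp2_1, G2Rp3_1, G2Rp3_2, G2Rp4_0, G2Rp4_1, G2Rp4_5, G2Rp4_6, G2Rp5_0, G2Rp5_1,
  G2Rp5_6, G2Rp6_0, G2Rp6_1, G2Rp7_0, G2Rp7_1, G2Rp8_0, G2Rp8_1, G2Rp8_7, G2Rp9_0, G2Rp9_1, G2Rp9_7,
  G2Rp9_8]⟩))))) (.node 440 (.node 436 (.node 434 (.node 433 (.leaf ⟨10272395652,
  118518560268438629778728256,
  4849187315931421292344044803484906591173385659690342307443470924599421313193365733438, 156694,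
  [G2Rp0_1, G2Rp0_2, G2Rp0_3, G2Rp0_4, G2Rp0_5, G2Rp0_6, G2Rp3_2, G2Rp4_5, G2Rp6_2, G2Rp6_3,
  G2Rp6_4, G2Rp6_5, G2Rp7_0, G2Rp7_1, G2Rp7_2, G2Rp7_3, G2Rp7_4, G2Rp7_5, G2Rp7_6, G2Rp7_8, G2Rp7_9,
  G2Rp8_0, G2Rp8_1, G2Rp8_2, G2Rp8_3, G2Rp8_4, G2Rp8_5, G2Rp8_6, G2Rp8_9, G2Rp9_0, G2Rp9_1, G2Rp9_2,
  G2Rp9_3, G2Rp9_4, G2Rp9_5, G2Rp9_6]⟩) (.leaf ⟨10272133410, 118518559822533475840395560,
  3908192712821425967292280116386017615108914894751694125539386319918123598845958946816, 148502,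
  [G2Rp0_1, G2Rp3_2, G2Rp4_5, G2Rp4_6, G2Rp5_6, G2Rp7_0, G2Rp7_1, G2Rp7_8, G2Rp7_9, G2Rp8_0,
  G2Rp8_1, G2Rp8_9, G2Rp9_0, G2Rp9_1]⟩)) (.node 435 (.leaf ⟨10071069060,
  238310760399608086742079712,
  3885426714359114897243598701037132097685148499129559437790212684588521573020965011518, 156693,
  [G2Rp0_2, G2Rp0_3, G2Rp0_4, G2Rp0_5, G2Rp0_6, G2Rp0_7, G2Rp0_8, G2Rp0_9, G2Rp3_2, G2Rp4_5,
  G2Rp6_2, G2Rp6_3, G2Rp6_4, G2Rp6_5, G2Rp7_8, G2Rp7_9, G2Rp8_9]⟩) (.leaf ⟨35744155921,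
  1290537749994867975521288,
  6913215579490168284797957602449361726736116028753145905738234488284593570328749015052, 542753,
  [G2Rp0_1, G2Rp0_2, G2Rp0_3, G2Rp1_2, G2Rp1_3, G2Rp2_3, G2Rp5_4, G2Rp6_0, G2Rp6_1, G2Rp6_2,
  G2Rp6_3, G2Rp6_4, G2Rp6_5, G2Rp7_0, G2Rp7_1, G2Rp7_2, G2Rp7_3, G2Rp8_0, G2Rp8_1, G2Rp8_2, G2Rp8_3,
  G2Rp8_7, G2Rp9_0, G2Rp9_1, G2Rp9_2, G2Rp9_3, G2Rp9_7, G2Rp9_8]⟩))) (.node 438 (.node 437 (.leaf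
  ⟨10272412036, 118518560268438183102129473,
  4818832651314969830245600781320228557245467388741043854431396819095882380030791647290, 156710,
  [G2Rp0_1, G2Rp0_3, G2Rp0_4, G2Rp0_5, G2Rp0_6, G2Rp2_1, G2Rp2_3, G2Rp2_4, G2Rp2_5, G2Rp4_5,
  G2Rp6_3, G2Rp6_4, G2Rp6_5, G2Rp7_0, G2Rp7_1, G2Rp7_3, G2Rp7_4, G2Rp7_5, G2Rp7_6, G2Rp7_8, G2Rp7_9,
  G2Rp8_0, G2Rp8_1, G2Rp8_3, G2Rp8_4, G2Rp8_5, G2Rp8_6, G2Rp8_9, G2Rp9_0, G2Rp9_1, G2Rp9_3, G2Rp9_4,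
  G2Rp9_5, G2Rp9_6]⟩) (.leaf ⟨10272411940, 118518559970910336626956353,
  3908192712821425967292280116386017615111590982815021792849358001228023693051776467066, 148518,
  [G2Rp0_1, G2Rp2_1, G2Rp2_3, G2Rp2_4, G2Rp2_5, G2Rp2_6, G2Rp4_5, G2Rp4_6, G2Rp5_6, G2Rp7_0,
  G2Rp7_1, G2Rp7_8, G2Rp7_9, G2Rp8_0, G2Rp8_1, G2Rp8_9, G2Rp9_0, G2Rp9_1]⟩)) (.node 439 (.leaf
  ⟨35744981273, 1292975134979511063413825,
  6806974253332588167453403524871456159217149643088197406205779572995352601030024495163, 543049,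
  [G2Rp1_0, G2Rp2_0, G2Rp2_1, G2Rp2_3, G2Rp2_4, G2Rp2_5, G2Rp4_5, G2Rp6_0, G2Rp6_3, G2Rp6_4,
  G2Rp6_5, G2Rp7_0, G2Rp8_0, G2Rp8_7, G2Rp9_0, G2Rp9_7, G2Rp9_8]⟩) (.leaf ⟨10075840793,
  358111409065181108367262785,
  3885426714359111554159200554720224983719969744061224687770294093043917414766355153851, 149833,
  [G2Rp0_7, G2Rp0_8, G2Rp0_9, G2Rp1_0, G2Rp1_7, G2Rp1_8, G2Rp1_9, G2Rp2_0, G2Rp2_1, G2Rp2_3,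
  G2Rp2_4, G2Rp2_5, G2Rp2_7, G2Rp2_8, G2Rp2_9, G2Rp4_5, G2Rp6_3, G2Rp6_4, G2Rp6_5, G2Rp7_8, G2Rp7_9,
  G2Rp8_9]⟩)))) (.node 444 (.node 442 (.node 441 (.leaf ⟨10277167385, 118518559970910331256964161,
  3893015380513200236243058105297548522446680857206925364798148391360967505963914887226, 149834,
  [G2Rp2_1, G2Rp2_3, G2Rp2_4, G2Rp2_5, G2Rp4_5, G2Rp6_3, G2Rp6_4, G2Rp6_5, G2Rp7_0, G2Rp7_8,
  G2Rp7_9, G2Rp8_0, G2Rp8_9, G2Rp9_0]⟩) (.leaf ⟨10075310353, 198377210598690071067496550,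
  3885426714359111608079916653855901095621074035000105942496990187116129104341431746560, 149569,
  [G2Rp0_1, G2Rp0_7, G2Rp0_8, G2Rp0_9, G2Rp2_3, G2Rp2_4, G2Rp2_5, G2Rp3_4, G2Rp3_5, G2Rp5_4,
  G2Rp6_1, G2Rp6_4, G2Rp6_5, G2Rp7_8, G2Rp7_9, G2Rp8_9]⟩)) (.node 443 (.leaf ⟨10277196056,
  118518559970910508424365126,
  3908192712821425967292280116379887539410729197023357989465325000456463310087077625858, 149862,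
  [G2Rp0_1, G2Rp2_1, G2Rp3_1, G2Rp3_2, G2Rp4_5, G2Rp6_1, G2Rp6_2, G2Rp6_3, G2Rp6_4, G2Rp6_5,
  G2Rp7_0, G2Rp7_1, G2Rp7_8, G2Rp7_9, G2Rp8_0, G2Rp8_1, G2Rp8_9, G2Rp9_0, G2Rp9_1]⟩) (.leaf
  ⟨10272444806, 118518560380009338824303947,
  4849187315931421292344044803484906591173118065720674857864832589571690223260168618044, 156742,
  [G2Rp0_1, G2Rp0_2, G2Rp0_3, G2Rp0_4, G2Rp0_5, G2Rp0_6, G2Rp1_2, G2Rp1_3, G2Rp1_4, G2Rp1_5,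
  G2Rp2_3, G2Rp2_4, G2Rp2_5, G2Rp3_4, G2Rp3_5, G2Rp4_5, G2Rp6_2, G2Rp6_3, G2Rp6_4, G2Rp6_5, G2Rp7_0,
  G2Rp7_1, G2Rp7_2, G2Rp7_3, G2Rp7_4, G2Rp7_5, G2Rp7_6, G2Rp7_8, G2Rp7_9, G2Rp8_0, G2Rp8_1, G2Rp8_2,
  G2Rp8_3, G2Rp8_4, G2Rp8_5, G2Rp8_6, G2Rp8_9, G2Rp9_0, G2Rp9_1, G2Rp9_2, G2Rp9_3, G2Rp9_4, G2Rp9_5,
  G2Rp9_6]⟩))) (.node 446 (.node 445 (.leaf ⟨35744450833, 1290537861132094561849448,
  6822151585640813898502625535955327624953699281033450168991898784220445224829008740352, 542785,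
  [G2Rp0_1, G2Rp2_3, G2Rp2_4, G2Rp2_5, G2Rp3_4, G2Rp3_5, G2Rp5_4, G2Rp6_0, G2Rp6_1, G2Rp6_4,
  G2Rp6_5, G2Rp7_0, G2Rp7_1, G2Rp8_0, G2Rp8_1, G2Rp8_7, G2Rp9_0, G2Rp9_1, G2Rp9_7, G2Rp9_8]⟩) (.leaf
  ⟨35745059096, 1290537970489655076848707,
  6806974253332588167453403524871456159216971253460147196455892184345643559914299064382, 543125,
  [G2Rp2_3, G2Rp2_4, G2Rp2_5, G2Rp3_4, G2Rp3_5, G2Rp4_5, G2Rp6_0, G2Rp6_1, G2Rp6_2, G2Rp6_3,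
  G2Rp6_4, G2Rp6_5, G2Rp7_0, G2Rp8_0, G2Rp8_7, G2Rp9_0, G2Rp9_7, G2Rp9_8]⟩)) (.node 447 (.leaf
  ⟨10277245208, 118518560082481217469940803,
  3908192712821425967292280116379887539410417000882718355451119846554320391962036666430, 149910,
  [G2Rp0_1, G2Rp2_3, G2Rp2_4, G2Rp2_5, G2Rp3_4, G2Rp3_5, G2Rp4_5, G2Rp6_1, G2Rp6_2, G2Rp6_3,
  G2Rp6_4, G2Rp6_5, G2Rp7_0, G2Rp7_1, G2Rp7_8, G2Rp7_9, G2Rp8_0, G2Rp8_1, G2Rp8_9, G2Rp9_0,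
  G2Rp9_1]⟩) (.leaf ⟨10075918616, 238310760325223723162403907,
  3885426714359111554159200554720224983719791354428522109046725886058198565124269015102, 149909,
  [G2Rp0_7, G2Rp0_8, G2Rp0_9, G2Rp2_3, G2Rp2_4, G2Rp2_5, G2Rp3_4, G2Rp3_5, G2Rp4_5, G2Rp6_1,
  G2Rp6_2, G2Rp6_3, G2Rp6_4, G2Rp6_5, G2Rp7_8, G2Rp7_9, G2Rp8_9]⟩))))))

def G2RT8 : Tr :=
  .node 480 (.node 464 (.node 456 (.node 452 (.node 450 (.node 449 (.leaf ⟨10075922712,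
  278244309942399808266306627,
  3885426714359111554159200554720224983719791354428522184868074994357529849928936587324, 149913,
  [G2Rp0_7, G2Rp0_8, G2Rp0_9, G2Rp1_0, G2Rp1_2, G2Rp1_3, G2Rp1_4, G2Rp1_5, G2Rp1_7, G2Rp1_8,
  G2Rp1_9, G2Rp2_3, G2Rp2_4, G2Rp2_5, G2Rp3_4, G2Rp3_5, G2Rp4_5, G2Rp6_2, G2Rp6_3, G2Rp6_4, G2Rp6_5,
  G2Rp7_8, G2Rp7_9, G2Rp8_9]⟩) (.leaf ⟨10276327698, 118518560196437798028323112,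
  4272448688218843512473608382357556395316108860035853975803988714724348749054598971440, 149526,
  [G2Rp0_1, G2Rp0_4, G2Rp0_5, G2Rp1_4, G2Rp1_5, G2Rp2_4, G2Rp2_5, G2Rp3_2, G2Rp3_4, G2Rp3_5,
  G2Rp5_4, G2Rp6_4, G2Rp6_5, G2Rp7_0, G2Rp7_1, G2Rp7_4, G2Rp7_5, G2Rp7_8, G2Rp7_9, G2Rp8_0, G2Rp8_1,
  G2Rp8_4, G2Rp8_5, G2Rp8_9, G2Rp9_0, G2Rp9_1, G2Rp9_4, G2Rp9_5]⟩)) (.node 451 (.leaf ⟨10075906329,
  398044958719542716450997346,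
  3885426714359111554159200554720224983719791661708125846222772282345957399681068696499, 149897,
  [G2Rp0_7, G2Rp0_8, G2Rp0_9, G2Rp1_0, G2Rp1_7, G2Rp1_8, G2Rp1_9, G2Rp2_0, G2Rp2_1, G2Rp2_4,
  G2Rp2_5, G2Rp2_7, G2Rp2_8, G2Rp2_9, G2Rp3_0, G2Rp3_1, G2Rp3_2, G2Rp3_4, G2Rp3_5, G2Rp3_7, G2Rp3_8,
  G2Rp3_9, G2Rp4_5, G2Rp6_4, G2Rp6_5, G2Rp7_8, G2Rp7_9, G2Rp8_9]⟩) (.leaf ⟨35745009944,
  1290537858918949252498502,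
  6806974253332588167453403524871456159217283449600786830470097338247786478039340023810, 543077,
  [G2Rp2_1, G2Rp3_1, G2Rp3_2, G2Rp4_5, G2Rp6_0, G2Rp6_1, G2Rp6_2, G2Rp6_3, G2Rp6_4, G2Rp6_5,
  G2Rp7_0, G2Rp8_0, G2Rp8_7, G2Rp9_0, G2Rp9_7, G2Rp9_8]⟩))) (.node 454 (.node 453 (.leaf
  ⟨10075869464, 238310760213653017338053702,
  3885426714359111554159200554720224983720103550569161743060931039960341483249309974530, 149861,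
  [G2Rp0_7, G2Rp0_8, G2Rp0_9, G2Rp2_1, G2Rp3_1, G2Rp3_2, G2Rp4_5, G2Rp6_1, G2Rp6_2, G2Rp6_3,
  G2Rp6_4, G2Rp6_5, G2Rp7_8, G2Rp7_9, G2Rp8_9]⟩) (.leaf ⟨35736592665, 1292974954835525968593985,
  6806974253332588167453403524873754855759682457940322410788588132380877349936036315163, 541001,
  [G2Rp1_0, G2Rp2_0, G2Rp2_1, G2Rp2_3, G2Rp2_4, G2Rp5_3, G2Rp5_4, G2Rp6_0, G2Rp6_3, G2Rp6_4,
  G2Rp7_0, G2Rp8_0, G2Rp8_7, G2Rp9_0, G2Rp9_7, G2Rp9_8]⟩)) (.node 455 (.leaf ⟨10268778777,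
  118518559790766346162144321,
  3893015380513200236243058105299847218989213672059050369380956950746492254869926707226, 147786,
  [G2Rp2_1, G2Rp2_3, G2Rp2_4, G2Rp5_3, G2Rp5_4, G2Rp6_3, G2Rp6_4, G2Rp7_0, G2Rp7_8, G2Rp7_9,
  G2Rp8_0, G2Rp8_9, G2Rp9_0]⟩) (.leaf ⟨10067452185, 358111408885037123272442945,
  3885426714359111554159200554722523680262502558913349692353102652429442163672366973851, 147785,
  [G2Rp0_7, G2Rp0_8, G2Rp0_9, G2Rp1_0, G2Rp1_7, G2Rp1_8, G2Rp1_9, G2Rp2_0, G2Rp2_1, G2Rp2_3,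
  G2Rp2_4, G2Rp2_7, G2Rp2_8, G2Rp2_9, G2Rp5_3, G2Rp5_4, G2Rp6_3, G2Rp6_4, G2Rp7_8, G2Rp7_9,
  G2Rp8_9]⟩)))) (.node 460 (.node 458 (.node 457 (.leaf ⟨10067970321, 198377210412916586438463590,
  3885426714359111608079916653855901095620003582896773630131940554670877851435424284672, 147777,
  [G2Rp0_1, G2Rp0_7, G2Rp0_8, G2Rp0_9, G2Rp2_3, G2Rp5_4, G2Rp6_1, G2Rp7_8, G2Rp7_9, G2Rp8_9]⟩)
  (.leaf ⟨35737110801, 1290537675358609932816488,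
  6822151585640813898502625535955327624952628828930117856626849151775193971923001278464, 540993,
  [G2Rp0_1, G2Rp2_3, G2Rp5_4, G2Rp6_0, G2Rp6_1, G2Rp7_0, G2Rp7_1, G2Rp8_0, G2Rp8_1, G2Rp8_7,
  G2Rp9_0, G2Rp9_1, G2Rp9_7, G2Rp9_8]⟩)) (.node 459 (.leaf ⟨10269298962,
  118518559787677033094460808,
  3999256706670780353587612182875454089965647242871879056706691212659649089295035138060, 147782,
  [G2Rp0_1, G2Rp0_2, G2Rp0_3, G2Rp1_2, G2Rp1_3, G2Rp2_3, G2Rp5_4, G2Rp7_0, G2Rp7_1, G2Rp7_2,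
  G2Rp7_3, G2Rp7_8, G2Rp7_9, G2Rp8_0, G2Rp8_1, G2Rp8_2, G2Rp8_3, G2Rp8_9, G2Rp9_0, G2Rp9_1, G2Rp9_2,
  G2Rp9_3]⟩) (.leaf ⟨10268807448, 118518559790766523329545286,
  3908192712821425967292280116382760921781086720197533527682788040269958062046443339778, 147814,
  [G2Rp0_1, G2Rp2_1, G2Rp3_1, G2Rp3_2, G2Rp5_1, G2Rp5_2, G2Rp5_3, G2Rp5_4, G2Rp6_1, G2Rp6_2,
  G2Rp6_3, G2Rp6_4, G2Rp7_0, G2Rp7_1, G2Rp7_8, G2Rp7_9, G2Rp8_0, G2Rp8_1, G2Rp8_9, G2Rp9_0,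
  G2Rp9_1]⟩))) (.node 462 (.node 461 (.leaf ⟨35737112850, 1290537675467558019407042,
  6806974253332588167453403524872988607988714295626279849550830671443957903103453298700, 540997,
  [G2Rp1_2, G2Rp1_3, G2Rp2_3, G2Rp5_4, G2Rp6_0, G2Rp7_0, G2Rp8_0, G2Rp8_7, G2Rp9_0, G2Rp9_7,
  G2Rp9_8]⟩) (.leaf ⟨10067972370, 238310760030201626104962242,
  3885426714359111554159200554721757432491534396594654762141664373156512908313423249420, 147781,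
  [G2Rp0_7, G2Rp0_8, G2Rp0_9, G2Rp1_2, G2Rp1_3, G2Rp2_3, G2Rp5_4, G2Rp7_8, G2Rp7_9, G2Rp8_9]⟩))
  (.node 463 (.leaf ⟨10067534104, 278244309654169432114594883,
  3885426714359111554159200554722906804147540630606201032202339099754513042805505130524, 147865,
  [G2Rp0_7, G2Rp0_8, G2Rp0_9, G2Rp1_0, G2Rp1_2, G2Rp1_3, G2Rp1_4, G2Rp1_7, G2Rp1_8, G2Rp1_9,
  G2Rp2_3, G2Rp2_4, G2Rp3_4, G2Rp5_2, G2Rp5_3, G2Rp5_4, G2Rp6_2, G2Rp6_3, G2Rp6_4, G2Rp7_8, G2Rp7_9,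
  G2Rp8_9]⟩) (.leaf ⟨35736670488, 1290537682259278925136963,
  6806974253332588167453403524874329541587328765745120839703851278847037898174546968606, 541077,
  [G2Rp2_3, G2Rp2_4, G2Rp3_4, G2Rp5_1, G2Rp5_2, G2Rp5_3, G2Rp5_4, G2Rp6_0, G2Rp6_1, G2Rp6_2,
  G2Rp6_3, G2Rp6_4, G2Rp7_0, G2Rp8_0, G2Rp8_7, G2Rp9_0, G2Rp9_7, G2Rp9_8]⟩))))) (.node 472 (.node
  468 (.node 466 (.node 465 (.leaf ⟨10268856600, 118518559794250841318229059,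
  3908192712821425967292280116382760921780774513167691998699078941055714730222284570654, 147862,
  [G2Rp0_1, G2Rp2_3, G2Rp2_4, G2Rp3_4, G2Rp5_1, G2Rp5_2, G2Rp5_3, G2Rp5_4, G2Rp6_1, G2Rp6_2,
  G2Rp6_3, G2Rp6_4, G2Rp7_0, G2Rp7_1, G2Rp7_8, G2Rp7_9, G2Rp8_0, G2Rp8_1, G2Rp8_9, G2Rp9_0,
  G2Rp9_1]⟩) (.leaf ⟨10067530008, 238310760036993347010692163,
  3885426714359111554159200554723098366090148866713495752294684980559592903384516919326, 147861,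
  [G2Rp0_7, G2Rp0_8, G2Rp0_9, G2Rp2_3, G2Rp2_4, G2Rp3_4, G2Rp5_1, G2Rp5_2, G2Rp5_3, G2Rp5_4,
  G2Rp6_1, G2Rp6_2, G2Rp6_3, G2Rp6_4, G2Rp7_8, G2Rp7_9, G2Rp8_9]⟩)) (.node 467 (.leaf ⟨35736674584,
  1290537682259274664772675,
  6806974253332588167453403524874137979644720529637826048623071785261111553780155678748, 541081,
  [G2Rp1_0, G2Rp1_2, G2Rp1_3, G2Rp1_4, G2Rp2_3, G2Rp2_4, G2Rp3_4, G2Rp5_2, G2Rp5_3, G2Rp5_4,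
  G2Rp6_0, G2Rp6_2, G2Rp6_3, G2Rp6_4, G2Rp7_0, G2Rp8_0, G2Rp8_7, G2Rp9_0, G2Rp9_7, G2Rp9_8]⟩) (.leaf
  ⟨10268860696, 118518559794250833802036291,
  3893015380513200236243058105300230342874251743756559199512299138454354989210375290908, 147866,
  [G2Rp1_2, G2Rp1_3, G2Rp1_4, G2Rp2_3, G2Rp2_4, G2Rp3_4, G2Rp5_2, G2Rp5_3, G2Rp5_4, G2Rp6_2,
  G2Rp6_3, G2Rp6_4, G2Rp7_0, G2Rp7_8, G2Rp7_9, G2Rp8_0, G2Rp8_9, G2Rp9_0]⟩))) (.node 470 (.node 469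
  (.leaf ⟨10068723985, 198377210819620680512843782,
  3885426714359113225701399627878678540702336129794207051004908168925591381497259753532, 148001,
  [G2Rp0_1, G2Rp0_2, G2Rp0_3, G2Rp0_4, G2Rp0_5, G2Rp0_7, G2Rp0_8, G2Rp0_9, G2Rp1_2, G2Rp1_3,
  G2Rp1_4, G2Rp1_5, G2Rp2_3, G2Rp2_4, G2Rp2_5, G2Rp3_4, G2Rp3_5, G2Rp4_5, G2Rp6_1, G2Rp6_2, G2Rp6_3,
  G2Rp6_4, G2Rp6_5, G2Rp7_8, G2Rp7_9, G2Rp8_9]⟩) (.leaf ⟨10067937553, 198377210412924523538026598,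
  3885426714359111931604213248661912463584755374266472990927650436587667501644967051276, 147745,
  [G2Rp0_1, G2Rp0_2, G2Rp0_3, G2Rp0_7, G2Rp0_8, G2Rp0_9, G2Rp1_2, G2Rp1_3, G2Rp2_3, G2Rp4_2,
  G2Rp4_3, G2Rp5_2, G2Rp5_3, G2Rp5_4, G2Rp6_1, G2Rp6_2, G2Rp6_3, G2Rp7_8, G2Rp7_9, G2Rp8_9]⟩))
  (.node 471 (.leaf ⟨10068707602, 198377210633662271771909218,
  3885426714359111608079916653854368646848260542772304025732234096668029944816682926130, 147985,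
  [G2Rp0_1, G2Rp0_7, G2Rp0_8, G2Rp0_9, G2Rp2_1, G2Rp2_4, G2Rp2_5, G2Rp3_1, G2Rp3_2, G2Rp3_4,
  G2Rp3_5, G2Rp4_5, G2Rp6_1, G2Rp7_8, G2Rp7_9, G2Rp8_9]⟩) (.leaf ⟨10067921170,
  198377210412918923974417605,
  3885426714359111608079916653857242049679596370754920515100745805104800062024108212226, 147729,
  [G2Rp0_1, G2Rp0_7, G2Rp0_8, G2Rp0_9, G2Rp2_1, G2Rp3_1, G2Rp3_2, G2Rp4_1, G2Rp4_2, G2Rp4_3,
  G2Rp5_1, G2Rp5_2, G2Rp5_3, G2Rp5_4, G2Rp6_1, G2Rp7_8, G2Rp7_9, G2Rp8_9]⟩)))) (.node 476 (.node 474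
  (.node 473 (.leaf ⟨10067511577, 198377210422133826773845222,
  3885426714359112039445645446929050400648113892042589949700416979137637390772427816976, 147841,
  [G2Rp0_1, G2Rp0_4, G2Rp0_7, G2Rp0_8, G2Rp0_9, G2Rp1_4, G2Rp2_4, G2Rp3_2, G2Rp3_4, G2Rp5_4,
  G2Rp6_1, G2Rp6_4, G2Rp7_8, G2Rp7_9, G2Rp8_9]⟩) (.leaf ⟨10067517721, 398044958503369934337213538,
  3885426714359111554159200554721757432491891521242035935821974856311685341209405948819, 147849,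
  [G2Rp0_7, G2Rp0_8, G2Rp0_9, G2Rp1_0, G2Rp1_7, G2Rp1_8, G2Rp1_9, G2Rp2_0, G2Rp2_1, G2Rp2_4,
  G2Rp2_7, G2Rp2_8, G2Rp2_9, G2Rp3_0, G2Rp3_1, G2Rp3_2, G2Rp3_4, G2Rp3_7, G2Rp3_8, G2Rp3_9, G2Rp5_4,
  G2Rp6_4, G2Rp7_8, G2Rp7_9, G2Rp8_9]⟩)) (.node 475 (.leaf ⟨35736652057, 1290537686898018826061096,
  6943570244106619746896401624614039760664301914089687288872598386501924854916086497296, 541057,
  [G2Rp0_1, G2Rp0_4, G2Rp1_4, G2Rp2_4, G2Rp3_2, G2Rp3_4, G2Rp5_4, G2Rp6_0, G2Rp6_1, G2Rp6_4,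
  G2Rp7_0, G2Rp7_1, G2Rp7_4, G2Rp8_0, G2Rp8_1, G2Rp8_4, G2Rp8_7, G2Rp9_0, G2Rp9_1, G2Rp9_4, G2Rp9_7,
  G2Rp9_8]⟩) (.leaf ⟨35737063698, 1290537675360939751251141,
  6806974253332588167453403524874137997182650970544353924101242942497802732738168487936, 540949,
  [G2Rp3_2, G2Rp4_2, G2Rp4_3, G2Rp5_2, G2Rp5_3, G2Rp5_4, G2Rp6_0, G2Rp7_0, G2Rp8_0, G2Rp8_7,
  G2Rp9_0, G2Rp9_7, G2Rp9_8]⟩))) (.node 478 (.node 477 (.leaf ⟨10269249810,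
  118518559787352505365571880,
  3908192712821425967292280116382569377376096717966925083096470604706479564785906089984, 147734,
  [G2Rp0_1, G2Rp3_2, G2Rp4_2, G2Rp4_3, G2Rp5_2, G2Rp5_3, G2Rp5_4, G2Rp7_0, G2Rp7_1, G2Rp7_8,
  G2Rp7_9, G2Rp8_0, G2Rp8_1, G2Rp8_9, G2Rp9_0, G2Rp9_1]⟩) (.leaf ⟨10067923218,
  238310760030095007836806341,
  3885426714359111554159200554722906821685471071512728836692076644210357737948138438656, 147733,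
  [G2Rp0_7, G2Rp0_8, G2Rp0_9, G2Rp3_2, G2Rp4_2, G2Rp4_3, G2Rp5_2, G2Rp5_3, G2Rp5_4, G2Rp7_8,
  G2Rp7_9, G2Rp8_9]⟩)) (.node 479 (.leaf ⟨35736625432, 1290537678774956676088902,
  6806974253332588167453403524874137979644988134496695395706515266057401860405877014528, 541033,
  [G2Rp1_0, G2Rp3_2, G2Rp5_2, G2Rp5_3, G2Rp5_4, G2Rp6_0, G2Rp6_2, G2Rp6_3, G2Rp6_4, G2Rp7_0,
  G2Rp8_0, G2Rp8_7, G2Rp9_0, G2Rp9_7, G2Rp9_8]⟩) (.leaf ⟨10268811544, 118518559790766515813352518,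
  3893015380513200236243058105300230342874519348615428546595742619250645295836096626688, 147818,
  [G2Rp3_2, G2Rp5_2, G2Rp5_3, G2Rp5_4, G2Rp6_2, G2Rp6_3, G2Rp6_4, G2Rp7_0, G2Rp7_8, G2Rp7_9,
  G2Rp8_0, G2Rp8_9, G2Rp9_0]⟩)))))) (.node 496 (.node 488 (.node 484 (.node 482 (.node 481 (.leaf
  ⟨10067484952, 278244309650685114125911110,
  3885426714359111554159200554722906804147808235465070379285782580550803349431226466304, 147817,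
  [G2Rp0_7, G2Rp0_8, G2Rp0_9, G2Rp1_0, G2Rp1_7, G2Rp1_8, G2Rp1_9, G2Rp3_2, G2Rp5_2, G2Rp5_3,
  G2Rp5_4, G2Rp6_2, G2Rp6_3, G2Rp6_4, G2Rp7_8, G2Rp7_9, G2Rp8_9]⟩) (.leaf ⟨35737061650,
  1290537675360946395028677,
  6822151585640813898502625535956668579012221616788264741595654402209116182511685206018, 540945,
  [G2Rp0_1, G2Rp2_1, G2Rp3_1, G2Rp3_2, G2Rp4_1, G2Rp4_2, G2Rp4_3, G2Rp5_1, G2Rp5_2, G2Rp5_3,
  G2Rp5_4, G2Rp6_0, G2Rp6_1, G2Rp7_0, G2Rp7_1, G2Rp8_0, G2Rp8_1, G2Rp8_7, G2Rp9_0, G2Rp9_1, G2Rp9_7,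
  G2Rp9_8]⟩)) (.node 483 (.leaf ⟨35737078033, 1290537675368814775111784,
  6913215579490168284797957602450511115930052702310132051930513641386962129874605309964, 540961,
  [G2Rp0_1, G2Rp0_2, G2Rp0_3, G2Rp1_2, G2Rp1_3, G2Rp2_3, G2Rp4_2, G2Rp4_3, G2Rp5_2, G2Rp5_3,
  G2Rp5_4, G2Rp6_0, G2Rp6_1, G2Rp6_2, G2Rp6_3, G2Rp7_0, G2Rp7_1, G2Rp7_2, G2Rp7_3, G2Rp8_0, G2Rp8_1,
  G2Rp8_2, G2Rp8_3, G2Rp8_7, G2Rp9_0, G2Rp9_1, G2Rp9_2, G2Rp9_3, G2Rp9_7, G2Rp9_8]⟩) (.leaf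
  ⟨10067943697, 477912057733154881419612260,
  3885426714359111554159200554809015228797893530795853097355763646341482596447256773519, 147753,
  [G2Rp0_7, G2Rp0_8, G2Rp0_9, G2Rp1_0, G2Rp1_7, G2Rp1_8, G2Rp1_9, G2Rp2_3, G2Rp4_0, G2Rp4_1,
  G2Rp4_2, G2Rp4_3, G2Rp4_7, G2Rp4_8, G2Rp4_9, G2Rp5_0, G2Rp5_1, G2Rp5_2, G2Rp5_3, G2Rp5_4, G2Rp5_7,
  G2Rp5_8, G2Rp5_9, G2Rp7_8, G2Rp7_9, G2Rp8_9]⟩))) (.node 486 (.node 485 (.leaf ⟨35737084177,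
  1296630865516124334723172,
  6806974253332588167453403524874425344481135137572512531419652900203553172954649919503, 540969,
  [G2Rp1_0, G2Rp2_3, G2Rp4_0, G2Rp4_1, G2Rp4_2, G2Rp4_3, G2Rp5_0, G2Rp5_1, G2Rp5_2, G2Rp5_3,
  G2Rp5_4, G2Rp6_0, G2Rp7_0, G2Rp8_0, G2Rp8_7, G2Rp9_0, G2Rp9_7, G2Rp9_8]⟩) (.leaf ⟨10269270289,
  118518559787355836112703588,
  3893015380513200236243058105300421925277838295561496836792856990638264769172294467598, 147754,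
  [G2Rp2_3, G2Rp4_1, G2Rp4_2, G2Rp4_3, G2Rp5_1, G2Rp5_2, G2Rp5_3, G2Rp5_4, G2Rp7_0, G2Rp7_8,
  G2Rp7_9, G2Rp8_0, G2Rp8_9, G2Rp9_0]⟩)) (.node 487 (.leaf ⟨10268807460,
  118518560010208050433692803,
  3908192712821425967292280116381419988184969977097735546248882757280808912068910514290, 147814,
  [G2Rp0_1, G2Rp2_1, G2Rp2_4, G2Rp2_5, G2Rp2_6, G2Rp3_1, G2Rp3_2, G2Rp3_4, G2Rp3_5, G2Rp3_6,
  G2Rp5_4, G2Rp7_0, G2Rp7_1, G2Rp7_8, G2Rp7_9, G2Rp8_0, G2Rp8_1, G2Rp8_9, G2Rp9_0, G2Rp9_1]⟩) (.leaf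
  ⟨10067534116, 278244309907424274670655649,
  3885426714359111554159200554721757432494032118169096904267979234126643000307449069692, 147865,
  [G2Rp0_7, G2Rp0_8, G2Rp0_9, G2Rp1_0, G2Rp1_2, G2Rp1_3, G2Rp1_4, G2Rp1_5, G2Rp1_6, G2Rp1_7,
  G2Rp1_8, G2Rp1_9, G2Rp2_3, G2Rp2_4, G2Rp2_5, G2Rp2_6, G2Rp3_4, G2Rp3_5, G2Rp3_6, G2Rp5_4, G2Rp7_8,
  G2Rp7_9, G2Rp8_9]⟩)))) (.node 492 (.node 490 (.node 489 (.leaf ⟨10270036242,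
  118518560231235142024181032,
  4272448688218843512473608382356023946544365801535918481205546766938860249269503262768, 147990,
  [G2Rp0_1, G2Rp0_4, G2Rp0_5, G2Rp1_4, G2Rp1_5, G2Rp2_4, G2Rp2_5, G2Rp3_2, G2Rp3_4, G2Rp3_5,
  G2Rp4_5, G2Rp7_0, G2Rp7_1, G2Rp7_4, G2Rp7_5, G2Rp7_8, G2Rp7_9, G2Rp8_0, G2Rp8_1, G2Rp8_4, G2Rp8_5,
  G2Rp8_9, G2Rp9_0, G2Rp9_1, G2Rp9_4, G2Rp9_5]⟩) (.leaf ⟨35737848082, 1290537896104295266262114,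
  6822151585640813898502625535953795176180885788805648252227142693772346065304259919922, 541201,
  [G2Rp0_1, G2Rp2_1, G2Rp2_4, G2Rp2_5, G2Rp3_1, G2Rp3_2, G2Rp3_4, G2Rp3_5, G2Rp4_5, G2Rp6_0,
  G2Rp6_1, G2Rp7_0, G2Rp7_1, G2Rp8_0, G2Rp8_1, G2Rp8_7, G2Rp9_0, G2Rp9_1, G2Rp9_7, G2Rp9_8]⟩))
  (.node 491 (.leaf ⟨35737850130, 1290537896104288622484578,
  6806974253332588167453403524871456159216971254821235129567787588702126000646388711472, 541205,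
  [G2Rp1_4, G2Rp1_5, G2Rp2_4, G2Rp2_5, G2Rp3_2, G2Rp3_4, G2Rp3_5, G2Rp4_5, G2Rp6_0, G2Rp7_0,
  G2Rp8_0, G2Rp8_7, G2Rp9_0, G2Rp9_7, G2Rp9_8]⟩) (.leaf ⟨35736658201, 1294193594022617106351202,
  6806974253332588167453403524872988607989071115376007893096597073079472268608757825555, 541065,
  [G2Rp1_0, G2Rp2_0, G2Rp2_1, G2Rp2_4, G2Rp3_0, G2Rp3_1, G2Rp3_2, G2Rp3_4, G2Rp5_4, G2Rp6_0,
  G2Rp6_4, G2Rp7_0, G2Rp8_0, G2Rp8_7, G2Rp9_0, G2Rp9_7, G2Rp9_8]⟩))) (.node 494 (.node 493 (.leaf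
  ⟨10072756614, 238310760290421153265260875,
  3885426714359114681560734304502473023674059427997632471523500052417085802962317737988, 157317,
  [G2Rp0_2, G2Rp0_4, G2Rp0_5, G2Rp0_6, G2Rp0_7, G2Rp0_8, G2Rp0_9, G2Rp1_2, G2Rp3_2, G2Rp4_2,
  G2Rp5_2, G2Rp5_4, G2Rp6_2, G2Rp6_4, G2Rp6_5, G2Rp7_8, G2Rp7_9, G2Rp8_9]⟩) (.leaf ⟨10067513638,
  238310760178675312634235971,
  3885426714359111554159200554721757432494121322510397338246241028085894719061890433028, 147845,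
  [G2Rp0_7, G2Rp0_8, G2Rp0_9, G2Rp1_2, G2Rp3_2, G2Rp3_4, G2Rp3_5, G2Rp3_6, G2Rp5_4, G2Rp7_8,
  G2Rp7_9, G2Rp8_9]⟩)) (.node 495 (.leaf ⟨10268840230, 118518559935932981960641608,
  3938547377437877429390724138546098022112576035572269600704179281584354663947606163460, 147846,
  [G2Rp0_1, G2Rp0_2, G2Rp1_2, G2Rp3_2, G2Rp3_4, G2Rp3_5, G2Rp3_6, G2Rp5_4, G2Rp7_0, G2Rp7_1,
  G2Rp7_2, G2Rp7_8, G2Rp7_9, G2Rp8_0, G2Rp8_1, G2Rp8_2, G2Rp8_9, G2Rp9_0, G2Rp9_1, G2Rp9_2]⟩) (.leaf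
  ⟨10274083206, 118518560159248397767026094,
  4788477986698518368147156759157466101820515200551538784838121887297999871306677616644, 157318,
  [G2Rp0_1, G2Rp0_2, G2Rp0_4, G2Rp0_5, G2Rp0_6, G2Rp1_2, G2Rp3_2, G2Rp4_2, G2Rp5_2, G2Rp5_4,
  G2Rp6_2, G2Rp6_4, G2Rp6_5, G2Rp7_0, G2Rp7_1, G2Rp7_2, G2Rp7_4, G2Rp7_5, G2Rp7_6, G2Rp7_8, G2Rp7_9,
  G2Rp8_0, G2Rp8_1, G2Rp8_2, G2Rp8_4, G2Rp8_5, G2Rp8_6, G2Rp8_9, G2Rp9_0, G2Rp9_1, G2Rp9_2, G2Rp9_4,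
  G2Rp9_5, G2Rp9_6]⟩))))) (.node 504 (.node 500 (.node 498 (.node 497 (.leaf ⟨10072777092,
  278244309944790077825817953,
  3885426714359114573719302106233802567685808829513311502841329359091268520868875075596, 157337,
  [G2Rp0_4, G2Rp0_5, G2Rp0_6, G2Rp0_7, G2Rp0_8, G2Rp0_9, G2Rp1_0, G2Rp1_2, G2Rp1_3, G2Rp1_4,
  G2Rp1_5, G2Rp1_6, G2Rp1_7, G2Rp1_8, G2Rp1_9, G2Rp2_3, G2Rp5_4, G2Rp6_4, G2Rp6_5, G2Rp7_8, G2Rp7_9,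
  G2Rp8_9]⟩) (.leaf ⟨10067484964, 278244309870126641232155779,
  3885426714359111554159200554721757432494299728472567200103825287807212915279432515696, 147817,
  [G2Rp0_7, G2Rp0_8, G2Rp0_9, G2Rp1_0, G2Rp1_4, G2Rp1_5, G2Rp1_6, G2Rp1_7, G2Rp1_8, G2Rp1_9,
  G2Rp2_4, G2Rp2_5, G2Rp2_6, G2Rp3_2, G2Rp3_4, G2Rp3_5, G2Rp3_6, G2Rp5_4, G2Rp7_8, G2Rp7_9,
  G2Rp8_9]⟩)) (.node 499 (.leaf ⟨35737870609, 1292975172168361569164289,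
  6806974253332588167453403524871456159216971253460147196535117929008251216534649634879, 541225,
  [G2Rp1_0, G2Rp2_3, G2Rp2_4, G2Rp2_5, G2Rp3_4, G2Rp3_5, G2Rp4_5, G2Rp6_0, G2Rp7_0, G2Rp8_0,
  G2Rp8_7, G2Rp9_0, G2Rp9_7, G2Rp9_8]⟩) (.leaf ⟨10270056721, 118518560008099181762714625,
  3893015380513200236243058105297548522446502467578880347424345282201494651964869181502, 148010,
  [G2Rp2_3, G2Rp2_4, G2Rp2_5, G2Rp3_4, G2Rp3_5, G2Rp4_5, G2Rp7_0, G2Rp7_8, G2Rp7_9, G2Rp8_0,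
  G2Rp8_9, G2Rp9_0]⟩))) (.node 502 (.node 501 (.leaf ⟨10068730129, 358111409102369958873013249,
  3885426714359111554159200554720224983719791354428522180114385243501652705560057807807, 148009,
  [G2Rp0_7, G2Rp0_8, G2Rp0_9, G2Rp1_0, G2Rp1_7, G2Rp1_8, G2Rp1_9, G2Rp2_3, G2Rp2_4, G2Rp2_5,
  G2Rp3_4, G2Rp3_5, G2Rp4_5, G2Rp7_8, G2Rp7_9, G2Rp8_9]⟩) (.leaf ⟨35737968913,
  1296630974688764160380932,
  6806974253332588167453403524871456159217305750686272920390261616919669920949294006275, 541321,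
  [G2Rp1_0, G2Rp2_0, G2Rp2_1, G2Rp3_0, G2Rp3_1, G2Rp3_2, G2Rp4_5, G2Rp6_0, G2Rp7_0, G2Rp8_0,
  G2Rp8_7, G2Rp9_0, G2Rp9_7, G2Rp9_8]⟩)) (.node 503 (.leaf ⟨10068828433,
  477912057842327521245270020,
  3885426714359111554159200554720224983740107624250184401450455403724175925459359302531, 148105,
  [G2Rp0_7, G2Rp0_8, G2Rp0_9, G2Rp1_0, G2Rp1_7, G2Rp1_8, G2Rp1_9, G2Rp2_0, G2Rp2_1, G2Rp2_7,
  G2Rp2_8, G2Rp2_9, G2Rp3_0, G2Rp3_1, G2Rp3_2, G2Rp3_7, G2Rp3_8, G2Rp3_9, G2Rp4_5, G2Rp7_8, G2Rp7_9,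
  G2Rp8_9]⟩) (.leaf ⟨10270155025, 118518559896528475938361348,
  3893015380513200236243058105297548522446814663719519981438550436103637570089910140930, 148106,
  [G2Rp2_1, G2Rp3_1, G2Rp3_2, G2Rp4_5, G2Rp7_0, G2Rp7_8, G2Rp7_9, G2Rp8_0, G2Rp8_9, G2Rp9_0]⟩))))
  (.node 508 (.node 506 (.node 505 (.leaf ⟨10068822289, 198377210522094895620952070,
  3885426714359111608079916653854368646848528134700308432320082610737144828749883899904, 148097,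
  [G2Rp0_1, G2Rp0_7, G2Rp0_8, G2Rp0_9, G2Rp3_2, G2Rp4_5, G2Rp6_1, G2Rp7_8, G2Rp7_9, G2Rp8_9]⟩)
  (.leaf ⟨35737962769, 1290537784536919115304968,
  6822151585640813898502625535953795176181153380733652658814991207841460949237460893696, 541313,
  [G2Rp0_1, G2Rp3_2, G2Rp4_5, G2Rp6_0, G2Rp6_1, G2Rp7_0, G2Rp7_1, G2Rp8_0, G2Rp8_1, G2Rp8_7,
  G2Rp9_0, G2Rp9_1, G2Rp9_7, G2Rp9_8]⟩)) (.node 507 (.leaf ⟨10270150930,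
  118518560231247614609208616,
  4363512682068197898768940448850058048328120593967526055340374613878003189875367215164, 148102,
  [G2Rp0_1, G2Rp0_2, G2Rp0_3, G2Rp0_4, G2Rp0_5, G2Rp1_2, G2Rp1_3, G2Rp1_4, G2Rp1_5, G2Rp3_2,
  G2Rp4_5, G2Rp7_0, G2Rp7_1, G2Rp7_2, G2Rp7_3, G2Rp7_4, G2Rp7_5, G2Rp7_8, G2Rp7_9, G2Rp8_0, G2Rp8_1,
  G2Rp8_2, G2Rp8_3, G2Rp8_4, G2Rp8_5, G2Rp8_9, G2Rp9_0, G2Rp9_1, G2Rp9_2, G2Rp9_3, G2Rp9_4,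
  G2Rp9_5]⟩) (.leaf ⟨10269823270, 118518559930314477542706248,
  3999256706670780353587612182873921752269366666232477182976788694408042496468536000524, 148038,
  [G2Rp0_1, G2Rp0_2, G2Rp0_3, G2Rp1_2, G2Rp1_3, G2Rp2_3, G2Rp4_2, G2Rp4_3, G2Rp4_5, G2Rp4_6,
  G2Rp7_0, G2Rp7_1, G2Rp7_2, G2Rp7_3, G2Rp7_8, G2Rp7_9, G2Rp8_0, G2Rp8_1, G2Rp8_2, G2Rp8_3, G2Rp8_9,
  G2Rp9_0, G2Rp9_1, G2Rp9_2, G2Rp9_3]⟩))) (.node 510 (.node 509 (.leaf ⟨10269856036,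
  118518560038391866349295780,
  3908192712821425967292280116379887653408927377270920764172047502739909754396931522658, 148070,
  [G2Rp0_1, G2Rp2_1, G2Rp2_5, G2Rp2_6, G2Rp3_1, G2Rp3_2, G2Rp3_5, G2Rp3_6, G2Rp4_1, G2Rp4_2,
  G2Rp4_3, G2Rp4_5, G2Rp4_6, G2Rp7_0, G2Rp7_1, G2Rp7_8, G2Rp7_9, G2Rp8_0, G2Rp8_1, G2Rp8_9, G2Rp9_0,
  G2Rp9_1]⟩) (.leaf ⟨35737964818, 1290537896109957979315298,
  6806974253332588167453403524871456159217238847429814655541982556634254587108408426556, 541317,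
  [G2Rp1_2, G2Rp1_3, G2Rp1_4, G2Rp1_5, G2Rp3_2, G2Rp4_5, G2Rp6_0, G2Rp7_0, G2Rp8_0, G2Rp8_7,
  G2Rp9_0, G2Rp9_7, G2Rp9_8]⟩)) (.node 511 (.leaf ⟨10272264584, 118518560146481590299796547,
  4636704663616261057654936648332160374139292904275383691887347605883263574122894852110, 156822,
  [G2Rp0_1, G2Rp0_5, G2Rp0_6, G2Rp2_3, G2Rp4_1, G2Rp4_2, G2Rp4_3, G2Rp4_5, G2Rp6_5, G2Rp7_0,
  G2Rp7_1, G2Rp7_5, G2Rp7_6, G2Rp7_8, G2Rp7_9, G2Rp8_0, G2Rp8_1, G2Rp8_5, G2Rp8_6, G2Rp8_9, G2Rp9_0,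
  G2Rp9_1, G2Rp9_5, G2Rp9_6]⟩) (.leaf ⟨10068496678, 238310760173051310658161731,
  3885426714359111554159200554720225094795253819955252888411761854904906315486924111884, 148037,
  [G2Rp0_7, G2Rp0_8, G2Rp0_9, G2Rp1_2, G2Rp1_3, G2Rp2_3, G2Rp4_2, G2Rp4_3, G2Rp4_5, G2Rp4_6,
  G2Rp7_8, G2Rp7_9, G2Rp8_9]⟩))))))

def G2RT9 : Tr :=
  .node 544 (.node 528 (.node 520 (.node 516 (.node 514 (.node 513 (.leaf ⟨10070937992,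
  238310760281137704935266371,
  3885426714359114142353573313159120834347290601738668769419316783827313685348637081614, 156821,
  [G2Rp0_5, G2Rp0_6, G2Rp0_7, G2Rp0_8, G2Rp0_9, G2Rp2_3, G2Rp4_1, G2Rp4_2, G2Rp4_3, G2Rp4_5,
  G2Rp6_5, G2Rp7_8, G2Rp7_9, G2Rp8_9]⟩) (.leaf ⟨10068582692, 278244309898417075415914657,
  3885426714359111554159200554720225077256966595709641266071905721329552165955711271020, 148121,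
  [G2Rp0_7, G2Rp0_8, G2Rp0_9, G2Rp1_0, G2Rp1_2, G2Rp1_3, G2Rp1_5, G2Rp1_6, G2Rp1_7, G2Rp1_8,
  G2Rp1_9, G2Rp2_3, G2Rp2_5, G2Rp2_6, G2Rp3_5, G2Rp3_6, G2Rp4_5, G2Rp4_6, G2Rp7_8, G2Rp7_9,
  G2Rp8_9]⟩)) (.node 515 (.leaf ⟨10070942088, 278244309934342587058166851,
  3885426714359114142353573313159120831424242725586465951389964955942222401567080579084, 156825,
  [G2Rp0_5, G2Rp0_6, G2Rp0_7, G2Rp0_8, G2Rp0_9, G2Rp1_0, G2Rp1_2, G2Rp1_3, G2Rp1_5, G2Rp1_6,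
  G2Rp1_7, G2Rp1_8, G2Rp1_9, G2Rp2_3, G2Rp4_2, G2Rp4_3, G2Rp4_5, G2Rp6_5, G2Rp7_8, G2Rp7_9,
  G2Rp8_9]⟩) (.leaf ⟨10068709650, 238310760250838356708039778,
  3885426714359111554159200554720224983719791355789610042158621290414681005856358662192, 147989,
  [G2Rp0_7, G2Rp0_8, G2Rp0_9, G2Rp1_4, G2Rp1_5, G2Rp2_4, G2Rp2_5, G2Rp3_2, G2Rp3_4, G2Rp3_5,
  G2Rp4_5, G2Rp7_8, G2Rp7_9, G2Rp8_9]⟩))) (.node 518 (.node 517 (.leaf ⟨10068582680,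
  278244309682353248029116516,
  3885426714359111554159200554721374372912389966939793647414654285710700682745647726604, 148121,
  [G2Rp0_7, G2Rp0_8, G2Rp0_9, G2Rp1_0, G2Rp1_2, G2Rp1_3, G2Rp1_7, G2Rp1_8, G2Rp1_9, G2Rp2_3,
  G2Rp4_2, G2Rp4_3, G2Rp4_5, G2Rp5_2, G2Rp5_3, G2Rp6_2, G2Rp6_3, G2Rp7_8, G2Rp7_9, G2Rp8_9]⟩) (.leaf
  ⟨10070811016, 278244309934337089500027971,
  3885426714359114142353573313159120819732051233227778030920445114412119980252242116612, 156697,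
  [G2Rp0_5, G2Rp0_6, G2Rp0_7, G2Rp0_8, G2Rp0_9, G2Rp1_0, G2Rp1_2, G2Rp1_5, G2Rp1_6, G2Rp1_7,
  G2Rp1_8, G2Rp1_9, G2Rp3_2, G2Rp3_5, G2Rp4_2, G2Rp4_5, G2Rp6_5, G2Rp7_8, G2Rp7_9, G2Rp8_9]⟩))
  (.node 519 (.leaf ⟨35737864465, 1290538156444734345721864,
  7277471554887585829979285868423965685098321785879125450039589804504800040695143071804, 541217,
  [G2Rp0_1, G2Rp0_2, G2Rp0_3, G2Rp0_4, G2Rp0_5, G2Rp1_2, G2Rp1_3, G2Rp1_4, G2Rp1_5, G2Rp2_3,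
  G2Rp2_4, G2Rp2_5, G2Rp3_4, G2Rp3_5, G2Rp4_5, G2Rp6_0, G2Rp6_1, G2Rp6_2, G2Rp6_3, G2Rp6_4, G2Rp6_5,
  G2Rp7_0, G2Rp7_1, G2Rp7_2, G2Rp7_3, G2Rp7_4, G2Rp7_5, G2Rp8_0, G2Rp8_1, G2Rp8_2, G2Rp8_3, G2Rp8_4,
  G2Rp8_5, G2Rp8_7, G2Rp9_0, G2Rp9_1, G2Rp9_2, G2Rp9_3, G2Rp9_4, G2Rp9_5, G2Rp9_7, G2Rp9_8]⟩) (.leaf
  ⟨35741864228, 1299068141573531189386437,
  6806974253332588167453403524880555420182130754036793041267200432816646201442398437443, 542309,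
  [G2Rp2_0, G2Rp2_1, G2Rp2_6, G2Rp3_0, G2Rp3_1, G2Rp3_2, G2Rp3_6, G2Rp4_0, G2Rp4_1, G2Rp4_2,
  G2Rp4_3, G2Rp4_6, G2Rp5_0, G2Rp5_1, G2Rp5_2, G2Rp5_3, G2Rp5_4, G2Rp5_6, G2Rp6_0, G2Rp7_0, G2Rp8_0,
  G2Rp8_7, G2Rp9_0, G2Rp9_7, G2Rp9_8]⟩)))) (.node 524 (.node 522 (.node 521 (.leaf ⟨10072723748,
  238310760030095013211020485,
  3885426714359111554159200554729228462252122798535131549124213873479666229507400925250, 149093,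
  [G2Rp0_7, G2Rp0_8, G2Rp0_9, G2Rp2_1, G2Rp2_6, G2Rp3_1, G2Rp3_2, G2Rp3_6, G2Rp4_1, G2Rp4_2,
  G2Rp4_3, G2Rp4_6, G2Rp5_1, G2Rp5_2, G2Rp5_3, G2Rp5_4, G2Rp5_6, G2Rp7_8, G2Rp7_9, G2Rp8_9]⟩) (.leaf
  ⟨35741868324, 1299068141573524780489925,
  6806974253332588167453403524880363855316474641096720236949388056293118961483060936769, 542313,
  [G2Rp1_0, G2Rp1_6, G2Rp2_0, G2Rp2_6, G2Rp3_0, G2Rp3_2, G2Rp3_6, G2Rp4_0, G2Rp4_2, G2Rp4_3,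
  G2Rp4_6, G2Rp5_0, G2Rp5_2, G2Rp5_3, G2Rp5_4, G2Rp5_6, G2Rp6_0, G2Rp7_0, G2Rp8_0, G2Rp8_7, G2Rp9_0,
  G2Rp9_7, G2Rp9_8]⟩)) (.node 523 (.leaf ⟨10274054436, 118518559787352497851735237,
  3893015380513200236243058105306360436113177798745416983104795148436827419768313086016, 149098,
  [G2Rp1_6, G2Rp2_6, G2Rp3_2, G2Rp3_6, G2Rp4_2, G2Rp4_3, G2Rp4_6, G2Rp5_2, G2Rp5_3, G2Rp5_4,
  G2Rp5_6, G2Rp7_0, G2Rp7_8, G2Rp7_9, G2Rp8_0, G2Rp8_9, G2Rp9_0]⟩) (.leaf ⟨10072727844,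
  278244309647271096166390981,
  3885426714359111554159200554729036897386466685595058815794835109736985473363442925632, 149097,
  [G2Rp0_7, G2Rp0_8, G2Rp0_9, G2Rp1_0, G2Rp1_6, G2Rp1_7, G2Rp1_8, G2Rp1_9, G2Rp2_6, G2Rp3_2,
  G2Rp3_6, G2Rp4_2, G2Rp4_3, G2Rp4_6, G2Rp5_2, G2Rp5_3, G2Rp5_4, G2Rp5_6, G2Rp7_8, G2Rp7_9,
  G2Rp8_9]⟩))) (.node 526 (.node 525 (.leaf ⟨10070919457, 198377210447894457608144999,
  3885426714359111608079916653861839676606306618925703524054063605400274594115984556032, 148609,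
  [G2Rp0_1, G2Rp0_7, G2Rp0_8, G2Rp0_9, G2Rp3_2, G2Rp4_1, G2Rp4_2, G2Rp4_3, G2Rp4_5, G2Rp4_6,
  G2Rp5_1, G2Rp5_2, G2Rp5_3, G2Rp5_6, G2Rp6_1, G2Rp7_8, G2Rp7_9, G2Rp8_9]⟩) (.leaf ⟨10071116065,
  198377210559283578761581770,
  3885426714359111608079916653860690287414912267753043690419891754122861974771894059008, 148545,
  [G2Rp0_1, G2Rp0_7, G2Rp0_8, G2Rp0_9, G2Rp2_1, G2Rp2_3, G2Rp2_4, G2Rp2_5, G2Rp2_6, G2Rp3_1,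
  G2Rp3_4, G2Rp3_5, G2Rp3_6, G2Rp4_1, G2Rp4_5, G2Rp4_6, G2Rp5_1, G2Rp5_6, G2Rp6_1, G2Rp7_8, G2Rp7_9,
  G2Rp8_9]⟩)) (.node 527 (.leaf ⟨35740256545, 1296631011877450551596237,
  6822151585640813898502625535960212599180365570256424321648620612276713072404438450176, 541761,
  [G2Rp0_1, G2Rp2_0, G2Rp2_1, G2Rp2_3, G2Rp2_4, G2Rp2_5, G2Rp2_6, G2Rp3_0, G2Rp3_1, G2Rp3_4,
  G2Rp3_5, G2Rp3_6, G2Rp4_0, G2Rp4_1, G2Rp4_5, G2Rp4_6, G2Rp5_0, G2Rp5_1, G2Rp5_6, G2Rp6_0, G2Rp6_1,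
  G2Rp7_0, G2Rp7_1, G2Rp8_0, G2Rp8_1, G2Rp8_7, G2Rp9_0, G2Rp9_1, G2Rp9_7, G2Rp9_8]⟩) (.leaf
  ⟨35741829414, 1295412227485761473253476,
  6822151585640813898502625535962894437146045263180276652392686909699209270004194148366, 542273,
  [G2Rp0_1, G2Rp2_3, G2Rp4_0, G2Rp4_1, G2Rp4_2, G2Rp4_3, G2Rp4_6, G2Rp5_0, G2Rp5_1, G2Rp5_2,
  G2Rp5_3, G2Rp5_4, G2Rp5_6, G2Rp6_0, G2Rp6_1, G2Rp7_0, G2Rp7_1, G2Rp8_0, G2Rp8_1, G2Rp8_7, G2Rp9_0,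
  G2Rp9_1, G2Rp9_7, G2Rp9_8]⟩))))) (.node 536 (.node 532 (.node 530 (.node 529 (.leaf ⟨10072688934,
  198377210412922259120492644,
  3885426714359111608079916653863372125380591961017183580381755049836361310299747123214, 149057,
  [G2Rp0_1, G2Rp0_7, G2Rp0_8, G2Rp0_9, G2Rp2_3, G2Rp4_1, G2Rp4_2, G2Rp4_3, G2Rp4_6, G2Rp5_1,
  G2Rp5_2, G2Rp5_3, G2Rp5_4, G2Rp5_6, G2Rp6_1, G2Rp7_8, G2Rp7_9, G2Rp8_9]⟩) (.leaf ⟨35741831462,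
  1295412227485750400290916,
  6806974253332588167453403524880363855316474617616940954284621903850909522750906105868, 542277,
  [G2Rp1_2, G2Rp1_3, G2Rp2_3, G2Rp4_0, G2Rp4_2, G2Rp4_3, G2Rp4_6, G2Rp5_0, G2Rp5_2, G2Rp5_3,
  G2Rp5_4, G2Rp5_6, G2Rp6_0, G2Rp7_0, G2Rp8_0, G2Rp8_7, G2Rp9_0, G2Rp9_7, G2Rp9_8]⟩)) (.node 531
  (.leaf ⟨10072690982, 238310760030098340733685860,
  3885426714359111554159200554729036897386466662455567021359432342804932688744006025228, 149061,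
  [G2Rp0_7, G2Rp0_8, G2Rp0_9, G2Rp1_2, G2Rp1_3, G2Rp2_3, G2Rp4_2, G2Rp4_3, G2Rp4_6, G2Rp5_2,
  G2Rp5_3, G2Rp5_4, G2Rp5_6, G2Rp7_8, G2Rp7_9, G2Rp8_9]⟩) (.leaf ⟨10072776996,
  278244309647341396190009505,
  3885426714359111554159200554727887508192530010676984741244408331573305268178631262284, 149145,
  [G2Rp0_7, G2Rp0_8, G2Rp0_9, G2Rp1_0, G2Rp1_2, G2Rp1_3, G2Rp1_6, G2Rp1_7, G2Rp1_8, G2Rp1_9,
  G2Rp2_3, G2Rp2_6, G2Rp3_6, G2Rp4_6, G2Rp5_4, G2Rp5_6, G2Rp7_8, G2Rp7_9, G2Rp8_9]⟩))) (.node 534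
  (.node 533 (.leaf ⟨10070925601, 597712706619655353541953639,
  3885426714359111554159200554813612855724648688417211952099345553499799888086954869635, 148617,
  [G2Rp0_7, G2Rp0_8, G2Rp0_9, G2Rp1_0, G2Rp1_7, G2Rp1_8, G2Rp1_9, G2Rp2_0, G2Rp2_1, G2Rp2_7,
  G2Rp2_8, G2Rp2_9, G2Rp3_0, G2Rp3_1, G2Rp3_2, G2Rp3_7, G2Rp3_8, G2Rp3_9, G2Rp4_0, G2Rp4_1, G2Rp4_2,
  G2Rp4_3, G2Rp4_5, G2Rp4_6, G2Rp4_7, G2Rp4_8, G2Rp4_9, G2Rp5_0, G2Rp5_1, G2Rp5_2, G2Rp5_3, G2Rp5_6,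
  G2Rp5_7, G2Rp5_8, G2Rp5_9, G2Rp7_8, G2Rp7_9, G2Rp8_9]⟩) (.leaf ⟨10070925897,
  597712706835719177699039396,
  3885426714359111554159200554720226408705274490317664804862472869060490373879711204323, 152713,
  [G2Rp0_7, G2Rp0_8, G2Rp0_9, G2Rp1_0, G2Rp1_7, G2Rp1_8, G2Rp1_9, G2Rp2_0, G2Rp2_1, G2Rp2_5,
  G2Rp2_6, G2Rp2_7, G2Rp2_8, G2Rp2_9, G2Rp3_0, G2Rp3_1, G2Rp3_2, G2Rp3_5, G2Rp3_6, G2Rp3_7, G2Rp3_8,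
  G2Rp3_9, G2Rp4_0, G2Rp4_1, G2Rp4_2, G2Rp4_3, G2Rp4_5, G2Rp4_6, G2Rp4_7, G2Rp4_8, G2Rp4_9, G2Rp6_0,
  G2Rp6_7, G2Rp6_8, G2Rp6_9, G2Rp7_8, G2Rp7_9, G2Rp8_9]⟩)) (.node 535 (.leaf ⟨35739947298,
  1292974986391542871197794,
  6806974253332588167453403524877682017348274902713673281437040384749705957653585330176, 541717,
  [G2Rp3_2, G2Rp4_0, G2Rp4_5, G2Rp4_6, G2Rp5_0, G2Rp5_6, G2Rp6_0, G2Rp7_0, G2Rp8_0, G2Rp8_7,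
  G2Rp9_0, G2Rp9_7, G2Rp9_8]⟩) (.leaf ⟨10070806818, 238310760065064872079100002,
  3885426714359111554159200554726355059418289248297497879134992359422001772008191295488, 148501,
  [G2Rp0_7, G2Rp0_8, G2Rp0_9, G2Rp3_2, G2Rp4_5, G2Rp4_6, G2Rp5_6, G2Rp7_8, G2Rp7_9, G2Rp8_9]⟩))))
  (.node 540 (.node 538 (.node 537 (.leaf ⟨35741917476, 1297849503613455366854817,
  6806974253332588167453403524879214466122537966178646162398961278129438756298249273421, 542361,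
  [G2Rp1_0, G2Rp1_2, G2Rp1_3, G2Rp1_6, G2Rp2_0, G2Rp2_3, G2Rp2_6, G2Rp3_0, G2Rp3_6, G2Rp4_0,
  G2Rp4_6, G2Rp5_0, G2Rp5_4, G2Rp5_6, G2Rp6_0, G2Rp7_0, G2Rp8_0, G2Rp8_7, G2Rp9_0, G2Rp9_7,
  G2Rp9_8]⟩) (.leaf ⟨10274103588, 118518559787422797875353761,
  3893015380513200236243058105305211046919241123827342908554368370273147214583501422668, 149146,
  [G2Rp1_2, G2Rp1_3, G2Rp1_6, G2Rp2_3, G2Rp2_6, G2Rp3_6, G2Rp4_6, G2Rp5_4, G2Rp5_6, G2Rp7_0,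
  G2Rp7_8, G2Rp7_9, G2Rp8_0, G2Rp8_9, G2Rp9_0]⟩)) (.node 539 (.leaf ⟨10070821153,
  198377210448110030606665831,
  3885426714359111931604213248666701655376854126434946441870910330362940207680115703820, 148513,
  [G2Rp0_1, G2Rp0_2, G2Rp0_3, G2Rp0_7, G2Rp0_8, G2Rp0_9, G2Rp1_2, G2Rp1_3, G2Rp2_3, G2Rp4_1,
  G2Rp4_2, G2Rp4_3, G2Rp4_5, G2Rp4_6, G2Rp5_1, G2Rp5_2, G2Rp5_3, G2Rp5_6, G2Rp6_1, G2Rp6_2, G2Rp6_3,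
  G2Rp7_8, G2Rp7_9, G2Rp8_9]⟩) (.leaf ⟨10305946694, 78589738447633795528196133,
  4378690014376421904381570138008295300137172064404136021369075160482328532300003737603, 152594,
  [G2Rp1_0, G2Rp2_0, G2Rp2_1, G2Rp3_0, G2Rp3_1, G2Rp3_2, G2Rp4_5, G2Rp7_0, G2Rp7_6, G2Rp7_8,
  G2Rp7_9, G2Rp8_0, G2Rp8_6, G2Rp8_9, G2Rp9_0, G2Rp9_6]⟩))) (.node 542 (.node 541 (.leaf
  ⟨10070811208, 477912057876102348413209667,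
  3885426714359111554159200554720226394090035108870919247695002754354853985368391614468, 152601,
  [G2Rp0_7, G2Rp0_8, G2Rp0_9, G2Rp1_0, G2Rp1_2, G2Rp1_7, G2Rp1_8, G2Rp1_9, G2Rp3_0, G2Rp3_2,
  G2Rp3_5, G2Rp3_6, G2Rp3_7, G2Rp3_8, G2Rp3_9, G2Rp4_0, G2Rp4_2, G2Rp4_5, G2Rp4_6, G2Rp4_7, G2Rp4_8,
  G2Rp4_9, G2Rp6_0, G2Rp6_7, G2Rp6_8, G2Rp6_9, G2Rp7_8, G2Rp7_9, G2Rp8_9]⟩) (.leaf ⟨10272137800,
  358119857633359839496375363,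
  3893015380513200236243058105297549932816746222021277415004962793054695931773261774852, 152602,
  [G2Rp1_2, G2Rp3_0, G2Rp3_2, G2Rp3_5, G2Rp3_6, G2Rp3_7, G2Rp3_8, G2Rp3_9, G2Rp4_0, G2Rp4_2,
  G2Rp4_5, G2Rp4_6, G2Rp4_7, G2Rp4_8, G2Rp4_9, G2Rp6_0, G2Rp6_7, G2Rp6_8, G2Rp6_9, G2Rp7_0, G2Rp7_8,
  G2Rp7_9, G2Rp8_0, G2Rp8_9, G2Rp9_0]⟩)) (.node 543 (.leaf ⟨10305692744, 78588557852597068328275016,
  4424222011301098935769556168351473682409761639917854621527723749845078213259650400260, 152602,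
  [G2Rp1_2, G2Rp3_2, G2Rp3_5, G2Rp3_6, G2Rp4_2, G2Rp4_5, G2Rp4_6, G2Rp7_0, G2Rp7_1, G2Rp7_2,
  G2Rp7_6, G2Rp7_8, G2Rp7_9, G2Rp8_0, G2Rp8_1, G2Rp8_2, G2Rp8_6, G2Rp8_9, G2Rp9_0, G2Rp9_1, G2Rp9_2,
  G2Rp9_6]⟩) (.leaf ⟨10070827297, 477912057768233700392274020,
  3885426714359111554159200554813612855704332402261746888309019475309126047638976660367, 148521,
  [G2Rp0_7, G2Rp0_8, G2Rp0_9, G2Rp1_0, G2Rp1_7, G2Rp1_8, G2Rp1_9, G2Rp2_3, G2Rp4_0, G2Rp4_1,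
  G2Rp4_2, G2Rp4_3, G2Rp4_5, G2Rp4_6, G2Rp4_7, G2Rp4_8, G2Rp4_9, G2Rp5_0, G2Rp5_1, G2Rp5_2, G2Rp5_3,
  G2Rp5_6, G2Rp5_7, G2Rp5_8, G2Rp5_9, G2Rp7_8, G2Rp7_9, G2Rp8_9]⟩)))))) (.node 560 (.node 552 (.node
  548 (.node 546 (.node 545 (.leaf ⟨36041941576, 320752841565568611973729347,
  6799385587178475329257749214020464952578169828161854401679418179374073438758144114692, 545818,
  [G2Rp1_2, G2Rp3_0, G2Rp3_2, G2Rp3_5, G2Rp3_6, G2Rp3_7, G2Rp3_8, G2Rp3_9, G2Rp4_0, G2Rp4_2,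
  G2Rp4_5, G2Rp4_6, G2Rp4_7, G2Rp4_8, G2Rp4_9, G2Rp6_0, G2Rp6_7, G2Rp6_8, G2Rp6_9, G2Rp8_7, G2Rp9_7,
  G2Rp9_8]⟩) (.leaf ⟨36008387656, 1291829090397047660645447,
  7338180884120486866950699506316084818397944119676051693164932291288785997258511613956, 545818,
  [G2Rp1_2, G2Rp3_2, G2Rp3_5, G2Rp3_6, G2Rp4_2, G2Rp4_5, G2Rp4_6, G2Rp7_0, G2Rp7_1, G2Rp7_2,
  G2Rp7_6, G2Rp8_0, G2Rp8_1, G2Rp8_2, G2Rp8_6, G2Rp8_7, G2Rp9_0, G2Rp9_1, G2Rp9_2, G2Rp9_6, G2Rp9_7,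
  G2Rp9_8]⟩)) (.node 547 (.leaf ⟨10071085348, 238310760213652840175081537,
  3885426714359111554159200554726355059420965336360825546444964040731901866214008815738, 148517,
  [G2Rp0_7, G2Rp0_8, G2Rp0_9, G2Rp2_1, G2Rp2_3, G2Rp2_4, G2Rp2_5, G2Rp2_6, G2Rp4_5, G2Rp4_6,
  G2Rp5_6, G2Rp7_8, G2Rp7_9, G2Rp8_9]⟩) (.leaf ⟨35740225828, 1297849687100988716193857,
  6806974253332588167453403524877682017350973291522204671667012136605507230717238116475, 541733,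
  [G2Rp2_0, G2Rp2_1, G2Rp2_3, G2Rp2_4, G2Rp2_5, G2Rp2_6, G2Rp4_0, G2Rp4_5, G2Rp4_6, G2Rp5_0,
  G2Rp5_6, G2Rp6_0, G2Rp7_0, G2Rp8_0, G2Rp8_7, G2Rp9_0, G2Rp9_7, G2Rp9_8]⟩))) (.node 550 (.node 549
  (.leaf ⟨35739961633, 1292974986721748815284330,
  6913215579490168284797957602455396090154957209863155817766655262202494026765117947916, 541729,
  [G2Rp0_1, G2Rp0_2, G2Rp0_3, G2Rp1_2, G2Rp1_3, G2Rp2_3, G2Rp4_0, G2Rp4_1, G2Rp4_2, G2Rp4_3,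
  G2Rp4_5, G2Rp4_6, G2Rp5_0, G2Rp5_1, G2Rp5_2, G2Rp5_3, G2Rp5_6, G2Rp6_0, G2Rp6_1, G2Rp6_2, G2Rp6_3,
  G2Rp7_0, G2Rp7_1, G2Rp7_2, G2Rp7_3, G2Rp8_0, G2Rp8_1, G2Rp8_2, G2Rp8_3, G2Rp8_7, G2Rp9_0, G2Rp9_1,
  G2Rp9_2, G2Rp9_3, G2Rp9_7, G2Rp9_8]⟩) (.leaf ⟨35740291364, 1299068362316876839394402,
  6806974253332588167453403524877682017350794926054176551898688724379876084234973151347, 541797,
  [G2Rp2_0, G2Rp2_1, G2Rp2_4, G2Rp2_5, G2Rp2_6, G2Rp3_0, G2Rp3_1, G2Rp3_2, G2Rp3_4, G2Rp3_5,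
  G2Rp3_6, G2Rp4_0, G2Rp4_5, G2Rp4_6, G2Rp5_0, G2Rp5_6, G2Rp6_0, G2Rp7_0, G2Rp8_0, G2Rp8_7, G2Rp9_0,
  G2Rp9_7, G2Rp9_8]⟩)) (.node 551 (.leaf ⟨10071150884, 238310760250838358861028450,
  3885426714359111554159200554726355059420786970552515059755702165042896112299975639154, 148581,
  [G2Rp0_7, G2Rp0_8, G2Rp0_9, G2Rp2_1, G2Rp2_4, G2Rp2_5, G2Rp2_6, G2Rp3_1, G2Rp3_2, G2Rp3_4,
  G2Rp3_5, G2Rp3_6, G2Rp4_5, G2Rp4_6, G2Rp5_6, G2Rp7_8, G2Rp7_9, G2Rp8_9]⟩) (.leaf ⟨10071154980,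
  278244309868014445037624418,
  3885426714359111554159200554726355059420786969871940021261321727501967239071277252720, 148585,
  [G2Rp0_7, G2Rp0_8, G2Rp0_9, G2Rp1_0, G2Rp1_4, G2Rp1_5, G2Rp1_6, G2Rp1_7, G2Rp1_8, G2Rp1_9,
  G2Rp2_4, G2Rp2_5, G2Rp2_6, G2Rp3_2, G2Rp3_4, G2Rp3_5, G2Rp3_6, G2Rp4_5, G2Rp4_6, G2Rp5_6, G2Rp7_8,
  G2Rp7_9, G2Rp8_9]⟩)))) (.node 556 (.node 554 (.node 553 (.leaf ⟨35740258594,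
  1300287037541592194130210,
  6806974253332588167453403524877682017350794924012513514057879373650074035832989155453, 541765,
  [G2Rp1_0, G2Rp1_2, G2Rp1_3, G2Rp1_4, G2Rp1_5, G2Rp1_6, G2Rp2_0, G2Rp2_3, G2Rp2_4, G2Rp2_5,
  G2Rp2_6, G2Rp3_0, G2Rp3_4, G2Rp3_5, G2Rp3_6, G2Rp4_0, G2Rp4_5, G2Rp4_6, G2Rp5_0, G2Rp5_6, G2Rp6_0,
  G2Rp7_0, G2Rp8_0, G2Rp8_7, G2Rp9_0, G2Rp9_7, G2Rp9_8]⟩) (.leaf ⟨10071118114,
  238310760288032704778510626,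
  3885426714359111554159200554726355059420786968510852021835664651798829726304447758460, 148549,
  [G2Rp0_7, G2Rp0_8, G2Rp0_9, G2Rp1_2, G2Rp1_3, G2Rp1_4, G2Rp1_5, G2Rp1_6, G2Rp2_3, G2Rp2_4,
  G2Rp2_5, G2Rp2_6, G2Rp3_4, G2Rp3_5, G2Rp3_6, G2Rp4_5, G2Rp4_6, G2Rp5_6, G2Rp7_8, G2Rp7_9,
  G2Rp8_9]⟩)) (.node 555 (.leaf ⟨10075841097, 597712706768237644755474497,
  3885426714359111554159200554812271901667731684750197535667595849508207008275888669691, 153929,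
  [G2Rp0_7, G2Rp0_8, G2Rp0_9, G2Rp1_0, G2Rp1_7, G2Rp1_8, G2Rp1_9, G2Rp2_0, G2Rp2_1, G2Rp2_3,
  G2Rp2_4, G2Rp2_5, G2Rp2_6, G2Rp2_7, G2Rp2_8, G2Rp2_9, G2Rp4_0, G2Rp4_5, G2Rp4_6, G2Rp4_7, G2Rp4_8,
  G2Rp4_9, G2Rp5_0, G2Rp5_6, G2Rp5_7, G2Rp5_8, G2Rp5_9, G2Rp6_0, G2Rp6_7, G2Rp6_8, G2Rp6_9, G2Rp7_8,
  G2Rp7_9, G2Rp8_9]⟩) (.leaf ⟨10070942280, 477912057876107845971348547,
  3885426714359111554159200554720226405782226274218252557142659207581958664753978867724, 152729,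
  [G2Rp0_7, G2Rp0_8, G2Rp0_9, G2Rp1_0, G2Rp1_2, G2Rp1_3, G2Rp1_7, G2Rp1_8, G2Rp1_9, G2Rp2_3,
  G2Rp4_0, G2Rp4_2, G2Rp4_3, G2Rp4_5, G2Rp4_6, G2Rp4_7, G2Rp4_8, G2Rp4_9, G2Rp6_0, G2Rp6_7, G2Rp6_8,
  G2Rp6_9, G2Rp7_8, G2Rp7_9, G2Rp8_9]⟩))) (.node 558 (.node 557 (.leaf ⟨35740213540,
  1297849687101158400956481,
  6806974253332588167453403524877682017351062495863489619233250245965189972776485453949, 541721,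
  [G2Rp1_0, G2Rp1_2, G2Rp1_3, G2Rp1_4, G2Rp1_5, G2Rp1_6, G2Rp3_2, G2Rp4_0, G2Rp4_5, G2Rp4_6,
  G2Rp5_0, G2Rp5_6, G2Rp6_0, G2Rp7_0, G2Rp8_0, G2Rp8_7, G2Rp9_0, G2Rp9_7, G2Rp9_8]⟩) (.leaf
  ⟨10272399652, 118518559970910500909455425,
  3893015380513200236243058105303678598147765653852473924606454336399901568989835034748, 148506,
  [G2Rp1_2, G2Rp1_3, G2Rp1_4, G2Rp1_5, G2Rp1_6, G2Rp3_2, G2Rp4_5, G2Rp4_6, G2Rp5_6, G2Rp7_0,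
  G2Rp7_8, G2Rp7_9, G2Rp8_0, G2Rp8_9, G2Rp9_0]⟩)) (.node 559 (.leaf ⟨10071073060,
  278244309830829099224111169,
  3885426714359111554159200554726355059421054540702115757296494297700059622584964874364, 148505,
  [G2Rp0_7, G2Rp0_8, G2Rp0_9, G2Rp1_0, G2Rp1_2, G2Rp1_3, G2Rp1_4, G2Rp1_5, G2Rp1_6, G2Rp1_7,
  G2Rp1_8, G2Rp1_9, G2Rp3_2, G2Rp4_5, G2Rp4_6, G2Rp5_6, G2Rp7_8, G2Rp7_9, G2Rp8_9]⟩) (.leaf
  ⟨10071089444, 278244309830828927425419329,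
  3885426714359111554159200554726355059420965336360815242426285830231836908597198454904, 148521,
  [G2Rp0_7, G2Rp0_8, G2Rp0_9, G2Rp1_0, G2Rp1_3, G2Rp1_4, G2Rp1_5, G2Rp1_6, G2Rp1_7, G2Rp1_8,
  G2Rp1_9, G2Rp2_3, G2Rp2_4, G2Rp2_5, G2Rp2_6, G2Rp4_5, G2Rp4_6, G2Rp5_6, G2Rp7_8, G2Rp7_9,
  G2Rp8_9]⟩))))) (.node 568 (.node 564 (.node 562 (.node 561 (.leaf ⟨10277196356,
  358119857562394005743996035,
  3908192712821425967292280116472126022224102648481099160149443982069937695763944439810, 153958,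
  [G2Rp0_1, G2Rp2_1, G2Rp3_1, G2Rp3_2, G2Rp4_0, G2Rp4_1, G2Rp4_5, G2Rp4_6, G2Rp4_7, G2Rp4_8,
  G2Rp4_9, G2Rp5_0, G2Rp5_1, G2Rp5_6, G2Rp5_7, G2Rp5_8, G2Rp5_9, G2Rp6_0, G2Rp6_1, G2Rp6_7, G2Rp6_8,
  G2Rp6_9, G2Rp7_0, G2Rp7_1, G2Rp7_8, G2Rp7_9, G2Rp8_0, G2Rp8_1, G2Rp8_9, G2Rp9_0, G2Rp9_1]⟩) (.leaf
  ⟨10268856612, 118518560010314668701848704,
  3908192712821425967292280116381419988184657764623293069780421685410515373395192840318, 147862,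
  [G2Rp0_1, G2Rp2_3, G2Rp2_4, G2Rp2_5, G2Rp2_6, G2Rp3_4, G2Rp3_5, G2Rp3_6, G2Rp5_4, G2Rp7_0,
  G2Rp7_1, G2Rp7_8, G2Rp7_9, G2Rp8_0, G2Rp8_1, G2Rp8_9, G2Rp9_0, G2Rp9_1]⟩)) (.node 563 (.leaf
  ⟨35736654118, 1294193738032352863587395,
  6806974253332588167453403524872988607991323522627503323199487325554986969649489707012, 541061,
  [G2Rp1_2, G2Rp3_0, G2Rp3_2, G2Rp3_4, G2Rp3_5, G2Rp3_6, G2Rp5_4, G2Rp6_0, G2Rp7_0, G2Rp8_0,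
  G2Rp8_7, G2Rp9_0, G2Rp9_7, G2Rp9_8]⟩) (.leaf ⟨10075869764, 477912057805136508218379395,
  3885426714359111554159200554812463466533477002026902913745050021573815868926176788482, 153957,
  [G2Rp0_7, G2Rp0_8, G2Rp0_9, G2Rp2_1, G2Rp3_1, G2Rp3_2, G2Rp4_0, G2Rp4_1, G2Rp4_5, G2Rp4_6,
  G2Rp4_7, G2Rp4_8, G2Rp4_9, G2Rp5_0, G2Rp5_1, G2Rp5_6, G2Rp5_7, G2Rp5_8, G2Rp5_9, G2Rp6_0, G2Rp6_1,
  G2Rp6_7, G2Rp6_8, G2Rp6_9, G2Rp7_8, G2Rp7_9, G2Rp8_9]⟩))) (.node 566 (.node 565 (.leaf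
  ⟨10067480868, 238310760252950556129301635,
  3885426714359111554159200554721757432494344330643539299844488796784687085231142862962, 147813,
  [G2Rp0_7, G2Rp0_8, G2Rp0_9, G2Rp2_1, G2Rp2_4, G2Rp2_5, G2Rp2_6, G2Rp3_1, G2Rp3_2, G2Rp3_4,
  G2Rp3_5, G2Rp3_6, G2Rp5_4, G2Rp7_8, G2Rp7_9, G2Rp8_9]⟩) (.leaf ⟨35736621348,
  1296631088368335233160323,
  6806974253332588167453403524872988607991546530760650477094593629081407866315071357043, 541029,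
  [G2Rp2_0, G2Rp2_1, G2Rp2_4, G2Rp2_5, G2Rp2_6, G2Rp3_0, G2Rp3_1, G2Rp3_2, G2Rp3_4, G2Rp3_5,
  G2Rp3_6, G2Rp5_4, G2Rp6_0, G2Rp7_0, G2Rp8_0, G2Rp8_7, G2Rp9_0, G2Rp9_7, G2Rp9_8]⟩)) (.node 567
  (.leaf ⟨35737116945, 1296630865510454977892452,
  6806974253332588167453403524873275955287198465036389062880764741974180516188041445379, 541001,
  [G2Rp1_0, G2Rp2_0, G2Rp2_1, G2Rp2_3, G2Rp3_0, G2Rp3_1, G2Rp4_0, G2Rp4_1, G2Rp5_0, G2Rp5_1,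
  G2Rp5_4, G2Rp6_0, G2Rp7_0, G2Rp8_0, G2Rp8_7, G2Rp9_0, G2Rp9_7, G2Rp9_8]⟩) (.leaf ⟨10075345476,
  398044958503369936479519842,
  3885426714359111554159200554813994507857756901666538258087017282411323357277237280786, 153701,
  [G2Rp0_7, G2Rp0_8, G2Rp0_9, G2Rp2_1, G2Rp2_4, G2Rp3_1, G2Rp3_2, G2Rp3_4, G2Rp5_0, G2Rp5_1,
  G2Rp5_4, G2Rp5_6, G2Rp5_7, G2Rp5_8, G2Rp5_9, G2Rp6_0, G2Rp6_1, G2Rp6_7, G2Rp6_8, G2Rp6_9, G2Rp7_8,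
  G2Rp7_9, G2Rp8_9]⟩)))) (.node 572 (.node 570 (.node 569 (.leaf ⟨10269303057,
  118518559787350166755872868,
  3893015380513200236243058105299272536083901622685085809036171834117888974477588561922, 147786,
  [G2Rp2_1, G2Rp2_3, G2Rp3_1, G2Rp4_1, G2Rp5_1, G2Rp5_4, G2Rp7_0, G2Rp7_8, G2Rp7_9, G2Rp8_0,
  G2Rp8_9, G2Rp9_0]⟩) (.leaf ⟨10276672068, 278252758260627434005136482,
  3908192712821425967292280116473657063548382548120734504491411242907445184115004932114, 153702,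
  [G2Rp0_1, G2Rp2_1, G2Rp2_4, G2Rp3_1, G2Rp3_2, G2Rp3_4, G2Rp5_0, G2Rp5_1, G2Rp5_4, G2Rp5_6,
  G2Rp5_7, G2Rp5_8, G2Rp5_9, G2Rp6_0, G2Rp6_1, G2Rp6_7, G2Rp6_8, G2Rp6_9, G2Rp7_0, G2Rp7_1, G2Rp7_8,
  G2Rp7_9, G2Rp8_0, G2Rp8_1, G2Rp8_9, G2Rp9_0, G2Rp9_1]⟩)) (.node 571 (.leaf ⟨10075349572,
  398044958503369931110810722,
  3885426714359111554159200554813802945915148664878668418608339454816171681572084252688, 153705,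
  [G2Rp0_7, G2Rp0_8, G2Rp0_9, G2Rp1_0, G2Rp1_4, G2Rp1_7, G2Rp1_8, G2Rp1_9, G2Rp2_4, G2Rp3_2,
  G2Rp3_4, G2Rp5_0, G2Rp5_4, G2Rp5_6, G2Rp5_7, G2Rp5_8, G2Rp5_9, G2Rp6_0, G2Rp6_7, G2Rp6_8, G2Rp6_9,
  G2Rp7_8, G2Rp7_9, G2Rp8_9]⟩) (.leaf ⟨10067976465, 477912057733149212062781540,
  3885426714359111554159200554807865839603957163157382687962985956850921523255946969987, 147785,
  [G2Rp0_7, G2Rp0_8, G2Rp0_9, G2Rp1_0, G2Rp1_7, G2Rp1_8, G2Rp1_9, G2Rp2_0, G2Rp2_1, G2Rp2_3,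
  G2Rp2_7, G2Rp2_8, G2Rp2_9, G2Rp3_0, G2Rp3_1, G2Rp3_7, G2Rp3_8, G2Rp3_9, G2Rp4_0, G2Rp4_1, G2Rp4_7,
  G2Rp4_8, G2Rp4_9, G2Rp5_0, G2Rp5_1, G2Rp5_4, G2Rp5_7, G2Rp5_8, G2Rp5_9, G2Rp7_8, G2Rp7_9,
  G2Rp8_9]⟩))) (.node 574 (.node 573 (.leaf ⟨10276606532, 278252758259470713412977729,
  3908192712821425967292280116474423311318993891025331389104340765672222621074237947930, 153638,
  [G2Rp0_1, G2Rp2_1, G2Rp2_3, G2Rp2_4, G2Rp5_0, G2Rp5_1, G2Rp5_3, G2Rp5_4, G2Rp5_6, G2Rp5_7,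
  G2Rp5_8, G2Rp5_9, G2Rp6_0, G2Rp6_1, G2Rp6_7, G2Rp6_8, G2Rp6_9, G2Rp7_0, G2Rp7_1, G2Rp7_8, G2Rp7_9,
  G2Rp8_0, G2Rp8_1, G2Rp8_9, G2Rp9_0, G2Rp9_1]⟩) (.leaf ⟨10067530020, 238310760253057171176232064,
  3885426714359111554159200554721757432494032118169096823376027724914393546557425188990, 147861,
  [G2Rp0_7, G2Rp0_8, G2Rp0_9, G2Rp2_3, G2Rp2_4, G2Rp2_5, G2Rp2_6, G2Rp3_4, G2Rp3_5, G2Rp3_6,
  G2Rp5_4, G2Rp7_8, G2Rp7_9, G2Rp8_9]⟩)) (.node 575 (.leaf ⟨35736670500, 1296631088474950280090752,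
  6806974253332588167453403524872988607991234318286208000626132557211114327641353683071, 541077,
  [G2Rp2_0, G2Rp2_3, G2Rp2_4, G2Rp2_5, G2Rp2_6, G2Rp3_0, G2Rp3_4, G2Rp3_5, G2Rp3_6, G2Rp5_4,
  G2Rp6_0, G2Rp7_0, G2Rp8_0, G2Rp8_7, G2Rp9_0, G2Rp9_7, G2Rp9_8]⟩) (.leaf ⟨35736625444,
  1296631088368330971747459,
  6806974253332588167453403524872988607991501928589678306365496507323087212547981508721, 541033,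
  [G2Rp1_0, G2Rp1_4, G2Rp1_5, G2Rp1_6, G2Rp2_0, G2Rp2_4, G2Rp2_5, G2Rp2_6, G2Rp3_0, G2Rp3_2,
  G2Rp3_4, G2Rp3_5, G2Rp3_6, G2Rp5_4, G2Rp6_0, G2Rp7_0, G2Rp8_0, G2Rp8_7, G2Rp9_0, G2Rp9_7,
  G2Rp9_8]⟩))))))

def G2RT10 : Tr :=
  .node 608 (.node 592 (.node 584 (.node 580 (.node 578 (.node 577 (.leaf ⟨10268811556,
  118518560010208042917500035,
  3893015380513200236243058105299080971221010841622925367413785326507054861684302676080, 147818,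
  [G2Rp1_4, G2Rp1_5, G2Rp1_6, G2Rp2_4, G2Rp2_5, G2Rp2_6, G2Rp3_2, G2Rp3_4, G2Rp3_5, G2Rp3_6,
  G2Rp5_4, G2Rp7_0, G2Rp7_8, G2Rp7_9, G2Rp8_0, G2Rp8_9, G2Rp9_0]⟩) (.leaf ⟨35737637158,
  1294193732408350887513155,
  6806974253332588167453403524871456271753957657062979424647754521626906978298687717388, 541253,
  [G2Rp1_2, G2Rp1_3, G2Rp2_3, G2Rp4_0, G2Rp4_2, G2Rp4_3, G2Rp4_5, G2Rp4_6, G2Rp6_0, G2Rp7_0,
  G2Rp8_0, G2Rp8_7, G2Rp9_0, G2Rp9_7, G2Rp9_8]⟩)) (.node 579 (.leaf ⟨35741898886,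
  1290537749737506025243814,
  6806974253332588167453403524873371737720026521506363160289965863690714136897661435908, 550533,
  [G2Rp1_2, G2Rp3_2, G2Rp4_2, G2Rp5_2, G2Rp5_4, G2Rp6_2, G2Rp6_4, G2Rp6_5, G2Rp7_0, G2Rp8_0,
  G2Rp8_7, G2Rp9_0, G2Rp9_7, G2Rp9_8]⟩) (.leaf ⟨35740059937, 1292974986397221086398570,
  6822151585640813898502625535961361988371737620343598065441853929544849905458925535232, 541825,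
  [G2Rp0_1, G2Rp3_2, G2Rp4_0, G2Rp4_1, G2Rp4_2, G2Rp4_3, G2Rp4_5, G2Rp4_6, G2Rp5_0, G2Rp5_1,
  G2Rp5_2, G2Rp5_3, G2Rp5_6, G2Rp6_0, G2Rp6_1, G2Rp7_0, G2Rp7_1, G2Rp8_0, G2Rp8_1, G2Rp8_7, G2Rp9_0,
  G2Rp9_1, G2Rp9_7, G2Rp9_8]⟩))) (.node 582 (.node 581 (.leaf ⟨9232204870,
  38846264081393209382699045,
  5350039280404925211406578111266549770235826363626830284630536632609007169130022764547, 136210,
  [G2Rp1_0, G2Rp2_0, G2Rp2_1, G2Rp3_0, G2Rp3_1, G2Rp3_2, G2Rp4_5, G2Rp8_0, G2Rp8_6, G2Rp8_7,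
  G2Rp8_9, G2Rp9_0, G2Rp9_6, G2Rp9_7]⟩) (.leaf ⟨9231950920, 38843902894735729304439879,
  5395571277319001160405893835632228367503958428045583981407931508223027212881913708548, 136218,
  [G2Rp1_2, G2Rp3_2, G2Rp3_5, G2Rp3_6, G2Rp4_2, G2Rp4_5, G2Rp4_6, G2Rp8_0, G2Rp8_1, G2Rp8_2,
  G2Rp8_6, G2Rp8_7, G2Rp8_9, G2Rp9_0, G2Rp9_1, G2Rp9_2, G2Rp9_6, G2Rp9_7]⟩)) (.node 583 (.leaf
  ⟨10075923012, 637646256422602582512639233,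
  3885426714359111554159200554812271901667553622133507139139948280420525520644690936829, 154009,
  [G2Rp0_7, G2Rp0_8, G2Rp0_9, G2Rp1_0, G2Rp1_2, G2Rp1_3, G2Rp1_4, G2Rp1_5, G2Rp1_6, G2Rp1_7,
  G2Rp1_8, G2Rp1_9, G2Rp2_0, G2Rp2_3, G2Rp2_4, G2Rp2_5, G2Rp2_6, G2Rp2_7, G2Rp2_8, G2Rp2_9, G2Rp3_0,
  G2Rp3_4, G2Rp3_5, G2Rp3_6, G2Rp3_7, G2Rp3_8, G2Rp3_9, G2Rp4_0, G2Rp4_5, G2Rp4_6, G2Rp4_7, G2Rp4_8,
  G2Rp4_9, G2Rp5_0, G2Rp5_6, G2Rp5_7, G2Rp5_8, G2Rp5_9, G2Rp6_0, G2Rp6_7, G2Rp6_8, G2Rp6_9, G2Rp7_8,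
  G2Rp7_9, G2Rp8_9]⟩) (.leaf ⟨9229108321, 38843903012111612784056651,
  5714295255717532803401103906193510202088799442156957843929148499491111284884430127104, 135490,
  [G2Rp1_0, G2Rp2_3, G2Rp5_4, G2Rp6_4, G2Rp6_5, G2Rp8_0, G2Rp8_4, G2Rp8_5, G2Rp8_6, G2Rp8_7,
  G2Rp8_9, G2Rp9_0, G2Rp9_4, G2Rp9_5, G2Rp9_6, G2Rp9_7]⟩)))) (.node 588 (.node 586 (.node 585 (.leaf
  ⟨37119985169, 200687740234003914061615114,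
  5828036321036893810086924643671559870027404706568010899834479053694516031242412752896, 559234,
  [G2Rp1_0, G2Rp1_2, G2Rp1_3, G2Rp1_4, G2Rp1_5, G2Rp1_6, G2Rp1_8, G2Rp1_9, G2Rp3_2, G2Rp4_2,
  G2Rp4_3, G2Rp5_2, G2Rp5_3, G2Rp5_4, G2Rp6_2, G2Rp6_3, G2Rp6_4, G2Rp6_5, G2Rp7_0, G2Rp7_8, G2Rp7_9,
  G2Rp9_8]⟩) (.leaf ⟨6853888273, 81149188375309397599978505,
  6814562919486725216418767985379153475419854390697833693749307659636469001254453641216, 100481,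
  [G2Rp0_1, G2Rp0_7, G2Rp0_8, G2Rp0_9, G2Rp3_2, G2Rp4_2, G2Rp4_3, G2Rp5_2, G2Rp5_3, G2Rp5_4,
  G2Rp6_1, G2Rp6_2, G2Rp6_3, G2Rp6_4, G2Rp6_5, G2Rp7_1, G2Rp8_1, G2Rp8_7, G2Rp9_1, G2Rp9_7,
  G2Rp9_8]⟩)) (.node 587 (.leaf ⟨37119886865, 200687740233998175985307649,
  5828036321036893810086924643670410480833468031649936824333299818028464092749202456588, 559138,
  [G2Rp1_0, G2Rp1_2, G2Rp1_3, G2Rp1_4, G2Rp1_5, G2Rp1_6, G2Rp1_8, G2Rp1_9, G2Rp2_3, G2Rp5_4,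
  G2Rp6_4, G2Rp6_5, G2Rp7_0, G2Rp7_8, G2Rp7_9, G2Rp9_8]⟩) (.leaf ⟨6853773586,
  81149188486873372136837218,
  6814562919486725216418767985378004086225917734155225508446878421084240449357164314674, 100369,
  [G2Rp0_1, G2Rp0_7, G2Rp0_8, G2Rp0_9, G2Rp2_1, G2Rp2_4, G2Rp2_5, G2Rp3_1, G2Rp3_2, G2Rp3_4,
  G2Rp3_5, G2Rp5_4, G2Rp6_1, G2Rp6_4, G2Rp6_5, G2Rp7_1, G2Rp8_1, G2Rp8_7, G2Rp9_1, G2Rp9_7,
  G2Rp9_8]⟩))) (.node 590 (.node 589 (.leaf ⟨6853789969, 81149188375597607085409289,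
  6905626913336079602714100051872038188009404915602787667359528267810999454596557701132, 100385,
  [G2Rp0_1, G2Rp0_2, G2Rp0_3, G2Rp0_7, G2Rp0_8, G2Rp0_9, G2Rp1_2, G2Rp1_3, G2Rp2_3, G2Rp5_4,
  G2Rp6_1, G2Rp6_2, G2Rp6_3, G2Rp6_4, G2Rp6_5, G2Rp7_1, G2Rp7_2, G2Rp7_3, G2Rp8_1, G2Rp8_2, G2Rp8_3,
  G2Rp8_7, G2Rp9_1, G2Rp9_2, G2Rp9_3, G2Rp9_7, G2Rp9_8]⟩) (.leaf ⟨4718889097,
  200681837413221463081623779,
  5828036321035148908418321937543655556613686581448138763374078498337234108302814609452, 74785,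
  [G2Rp0_1, G2Rp0_2, G2Rp0_3, G2Rp0_5, G2Rp0_8, G2Rp0_9, G2Rp1_2, G2Rp1_3, G2Rp1_5, G2Rp2_3,
  G2Rp2_5, G2Rp3_5, G2Rp4_5, G2Rp6_5, G2Rp6_8, G2Rp6_9, G2Rp7_8, G2Rp7_9, G2Rp9_8]⟩)) (.node 591
  (.leaf ⟨37119870482, 320375052401503886917180514,
  5828036321036893810086924643670410480833468333484939542006196934045533017893145412467, 559122,
  [G2Rp1_0, G2Rp1_4, G2Rp1_5, G2Rp1_6, G2Rp1_8, G2Rp1_9, G2Rp2_0, G2Rp2_1, G2Rp2_4, G2Rp2_5,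
  G2Rp2_6, G2Rp2_8, G2Rp2_9, G2Rp3_0, G2Rp3_1, G2Rp3_2, G2Rp3_4, G2Rp3_5, G2Rp3_6, G2Rp3_8, G2Rp3_9,
  G2Rp5_4, G2Rp6_4, G2Rp6_5, G2Rp7_0, G2Rp7_8, G2Rp7_9, G2Rp9_8]⟩) (.leaf ⟨37115692577,
  200687740083130990082492516,
  5828036321036893810086924643676157496953891946606295787880065580816113554390925443084, 558114,
  [G2Rp1_0, G2Rp1_2, G2Rp1_3, G2Rp1_6, G2Rp1_8, G2Rp1_9, G2Rp2_3, G2Rp4_2, G2Rp4_3, G2Rp4_5,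
  G2Rp4_6, G2Rp5_2, G2Rp5_3, G2Rp5_6, G2Rp7_0, G2Rp7_8, G2Rp7_9, G2Rp9_8]⟩))))) (.node 600 (.node
  596 (.node 594 (.node 593 (.leaf ⟨37115679010, 120896198712533181013264614,
  5828036321040427558137197511468318365890177906686553708261432757424786466563669622784, 558102,
  [G2Rp0_1, G2Rp3_2, G2Rp4_5, G2Rp4_6, G2Rp5_6, G2Rp7_0, G2Rp7_1, G2Rp7_8, G2Rp7_9, G2Rp9_8]⟩)
  (.leaf ⟨37120706073, 200687740343179611903987873,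
  5828036321036893810086924643668878032061903379111838804652296849212415525768069120056, 559426,
  [G2Rp1_0, G2Rp1_3, G2Rp1_4, G2Rp1_5, G2Rp1_6, G2Rp1_8, G2Rp1_9, G2Rp2_3, G2Rp2_4, G2Rp2_5,
  G2Rp4_5, G2Rp6_3, G2Rp6_4, G2Rp6_5, G2Rp7_0, G2Rp7_8, G2Rp7_9, G2Rp9_8]⟩)) (.node 595 (.leaf
  ⟨6854084881, 81149188486698515428282473,
  6814562919486725216418767985378004086226988167883091930613192563746851109096817426432, 100417,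
  [G2Rp0_1, G2Rp0_7, G2Rp0_8, G2Rp0_9, G2Rp2_3, G2Rp2_4, G2Rp2_5, G2Rp3_4, G2Rp3_5, G2Rp5_4,
  G2Rp6_1, G2Rp6_4, G2Rp6_5, G2Rp7_1, G2Rp8_1, G2Rp8_7, G2Rp9_1, G2Rp9_7, G2Rp9_8]⟩) (.leaf
  ⟨6849841542, 81149188744822482947776813,
  7755557522596720541470532672481490689217187934592223097778035140746313219475741999106, 107537,
  [G2Rp0_1, G2Rp0_2, G2Rp0_3, G2Rp0_4, G2Rp0_5, G2Rp0_6, G2Rp0_7, G2Rp0_8, G2Rp0_9, G2Rp2_1,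
  G2Rp3_1, G2Rp3_2, G2Rp4_5, G2Rp6_1, G2Rp6_2, G2Rp6_3, G2Rp6_4, G2Rp6_5, G2Rp7_1, G2Rp7_2, G2Rp7_3,
  G2Rp7_4, G2Rp7_5, G2Rp7_6, G2Rp8_1, G2Rp8_2, G2Rp8_3, G2Rp8_4, G2Rp8_5, G2Rp8_6, G2Rp8_7, G2Rp9_1,
  G2Rp9_2, G2Rp9_3, G2Rp9_4, G2Rp9_5, G2Rp9_6, G2Rp9_7, G2Rp9_8]⟩))) (.node 598 (.node 597 (.leaf
  ⟨37112841745, 200687740048046501753098340,
  5828036321036893810086924643670410480833468031649936819579552037847805108393076588544, 557378,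
  [G2Rp1_0, G2Rp1_6, G2Rp1_8, G2Rp1_9, G2Rp2_3, G2Rp5_4, G2Rp7_0, G2Rp7_8, G2Rp7_9, G2Rp9_8]⟩)
  (.leaf ⟨37112406296, 120896198684320909866566723,
  5828036321036893810086924643671559852489474265661482953525253439327271062482510938140, 557466,
  [G2Rp1_2, G2Rp1_3, G2Rp1_4, G2Rp2_3, G2Rp2_4, G2Rp3_4, G2Rp5_2, G2Rp5_3, G2Rp5_4, G2Rp6_2,
  G2Rp6_3, G2Rp6_4, G2Rp7_0, G2Rp7_8, G2Rp7_9, G2Rp9_8]⟩)) (.node 599 (.leaf ⟨6846695698,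
  81149188300927367261461701,
  6814562919486725216418767985379345040285510503637906503216948181735522066779493892098, 98577,
  [G2Rp0_1, G2Rp0_7, G2Rp0_8, G2Rp0_9, G2Rp2_1, G2Rp3_1, G2Rp3_2, G2Rp4_1, G2Rp4_2, G2Rp4_3,
  G2Rp5_1, G2Rp5_2, G2Rp5_3, G2Rp5_4, G2Rp6_1, G2Rp7_1, G2Rp8_1, G2Rp8_7, G2Rp9_1, G2Rp9_7,
  G2Rp9_8]⟩) (.leaf ⟨6847482130, 81149188521670716132695138,
  6814562919486725216418767985376471637454174675655290013848436473298751949572068606002, 98833,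
  [G2Rp0_1, G2Rp0_7, G2Rp0_8, G2Rp0_9, G2Rp2_1, G2Rp2_4, G2Rp2_5, G2Rp3_1, G2Rp3_2, G2Rp3_4,
  G2Rp3_5, G2Rp4_5, G2Rp6_1, G2Rp7_1, G2Rp8_1, G2Rp8_7, G2Rp9_1, G2Rp9_7, G2Rp9_8]⟩)))) (.node 604
  (.node 602 (.node 601 (.leaf ⟨37112383001, 200687740054941573530620066,
  5828036321036893810086924643670410480833824850378802187611124100565183519194369490960, 557442,
  [G2Rp1_0, G2Rp1_4, G2Rp1_6, G2Rp1_8, G2Rp1_9, G2Rp2_4, G2Rp3_2, G2Rp3_4, G2Rp5_4, G2Rp6_4,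
  G2Rp7_0, G2Rp7_8, G2Rp7_9, G2Rp9_8]⟩) (.leaf ⟨6846286105, 81149188313625523971425609,
  6935981577952531064812544074036716221937590800939329050493892166028330739183895183376, 98689,
  [G2Rp0_1, G2Rp0_4, G2Rp0_7, G2Rp0_8, G2Rp0_9, G2Rp1_4, G2Rp2_4, G2Rp3_2, G2Rp3_4, G2Rp5_4,
  G2Rp6_1, G2Rp6_4, G2Rp7_1, G2Rp7_4, G2Rp8_1, G2Rp8_4, G2Rp8_7, G2Rp9_1, G2Rp9_4, G2Rp9_7,
  G2Rp9_8]⟩)) (.node 603 (.leaf ⟨37112357144, 120896198680836591877882950,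
  5828036321036893810086924643671559852489741870520352300608696920123561369108232273920, 557418,
  [G2Rp3_2, G2Rp5_2, G2Rp5_3, G2Rp5_4, G2Rp6_2, G2Rp6_3, G2Rp6_4, G2Rp7_0, G2Rp7_8, G2Rp7_9,
  G2Rp9_8]⟩) (.leaf ⟨37112808977, 200687740048052171109929060,
  5828036321036893810086924643671559870027404705206922966722569141121359230066504761356, 557346,
  [G2Rp1_0, G2Rp1_2, G2Rp1_3, G2Rp1_6, G2Rp1_8, G2Rp1_9, G2Rp2_3, G2Rp4_2, G2Rp4_3, G2Rp5_2,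
  G2Rp5_3, G2Rp5_4, G2Rp7_0, G2Rp7_8, G2Rp7_9, G2Rp9_8]⟩))) (.node 606 (.node 605 (.leaf
  ⟨37112792594, 440062364159927638080923845,
  5828036321036893810086924643751538201438831859048408847820634742544363277161894773571, 557330,
  [G2Rp1_0, G2Rp1_6, G2Rp1_8, G2Rp1_9, G2Rp2_0, G2Rp2_1, G2Rp2_6, G2Rp2_8, G2Rp2_9, G2Rp3_0,
  G2Rp3_1, G2Rp3_2, G2Rp3_6, G2Rp3_8, G2Rp3_9, G2Rp4_0, G2Rp4_1, G2Rp4_2, G2Rp4_3, G2Rp4_6, G2Rp4_8,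
  G2Rp4_9, G2Rp5_0, G2Rp5_1, G2Rp5_2, G2Rp5_3, G2Rp5_4, G2Rp5_6, G2Rp5_8, G2Rp5_9, G2Rp7_0, G2Rp7_8,
  G2Rp7_9, G2Rp9_8]⟩) (.leaf ⟨37112385830, 120896198826002987158211654,
  5828036321047495054237743247050341255225920027567000840844409992358511120556466896900, 557446,
  [G2Rp0_1, G2Rp0_2, G2Rp1_2, G2Rp3_2, G2Rp3_4, G2Rp3_5, G2Rp3_6, G2Rp5_4, G2Rp7_0, G2Rp7_1,
  G2Rp7_2, G2Rp7_8, G2Rp7_9, G2Rp9_8]⟩)) (.node 607 (.leaf ⟨37113595409,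
  200687740268795519981165569,
  5828036321036893810086924643668878032061724989483804172189055758886340995774339088444, 557602,
  [G2Rp1_0, G2Rp1_2, G2Rp1_3, G2Rp1_4, G2Rp1_5, G2Rp1_6, G2Rp1_8, G2Rp1_9, G2Rp2_3, G2Rp2_4,
  G2Rp2_5, G2Rp3_4, G2Rp3_5, G2Rp4_5, G2Rp7_0, G2Rp7_8, G2Rp7_9, G2Rp9_8]⟩) (.leaf ⟨37113693713,
  200687740157224810935586820,
  5828036321036893810086924643668878032061992583453471621767694093914072085707536203776, 557698,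
  [G2Rp1_0, G2Rp1_6, G2Rp1_8, G2Rp1_9, G2Rp3_2, G2Rp4_5, G2Rp7_0, G2Rp7_8, G2Rp7_9, G2Rp9_8]⟩))))))
  (.node 624 (.node 616 (.node 612 (.node 610 (.node 609 (.leaf ⟨37113368870,
  120896198820382283717020742,
  5828036321061630046438834718222049950046872618346951737953387951717186130859696848908, 557638,
  [G2Rp0_1, G2Rp0_2, G2Rp0_3, G2Rp1_2, G2Rp1_3, G2Rp2_3, G2Rp4_2, G2Rp4_3, G2Rp4_5, G2Rp4_6,
  G2Rp7_0, G2Rp7_1, G2Rp7_2, G2Rp7_3, G2Rp7_8, G2Rp7_9, G2Rp9_8]⟩) (.leaf ⟨37113579026,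
  320375052324731587019349090,
  5828036321036893810086924643668878032061725274985004043604745156250571095879495713651, 557586,
  [G2Rp1_0, G2Rp1_6, G2Rp1_8, G2Rp1_9, G2Rp2_0, G2Rp2_1, G2Rp2_4, G2Rp2_5, G2Rp2_6, G2Rp2_8,
  G2Rp2_9, G2Rp3_0, G2Rp3_1, G2Rp3_2, G2Rp3_4, G2Rp3_5, G2Rp3_6, G2Rp3_8, G2Rp3_9, G2Rp4_5, G2Rp7_0,
  G2Rp7_8, G2Rp7_9, G2Rp9_8]⟩)) (.node 611 (.leaf ⟨37116023076, 120896198898165928158305378,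
  5828036321040427558137197511468318365892675628941570888882142563045680806855453966450, 558182,
  [G2Rp0_1, G2Rp2_1, G2Rp2_4, G2Rp2_5, G2Rp2_6, G2Rp3_1, G2Rp3_2, G2Rp3_4, G2Rp3_5, G2Rp3_6,
  G2Rp4_5, G2Rp4_6, G2Rp5_6, G2Rp7_0, G2Rp7_1, G2Rp7_8, G2Rp7_9, G2Rp9_8]⟩) (.leaf ⟨37117595940,
  120896198677422580360813765,
  5828036321040427558137197511471191768724011456924187378250654271482450924062879252546, 558694,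
  [G2Rp0_1, G2Rp2_1, G2Rp2_6, G2Rp3_1, G2Rp3_2, G2Rp3_6, G2Rp4_1, G2Rp4_2, G2Rp4_3, G2Rp4_6,
  G2Rp5_1, G2Rp5_2, G2Rp5_3, G2Rp5_4, G2Rp5_6, G2Rp7_0, G2Rp7_1, G2Rp7_8, G2Rp7_9, G2Rp9_8]⟩)))
  (.node 614 (.node 613 (.leaf ⟨37117563174, 120896198677428179921178726,
  5828036321061630046438834718230861752638085460847265870901058439617212504116778762252, 558662,
  [G2Rp0_1, G2Rp0_2, G2Rp0_3, G2Rp1_2, G2Rp1_3, G2Rp2_3, G2Rp4_2, G2Rp4_3, G2Rp4_6, G2Rp5_2,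
  G2Rp5_3, G2Rp5_4, G2Rp5_6, G2Rp7_0, G2Rp7_1, G2Rp7_2, G2Rp7_3, G2Rp7_8, G2Rp7_9, G2Rp9_8]⟩) (.leaf
  ⟨37115990306, 120896199084124336904647078,
  5828036321259519937254115314653554369949887073593885728585690604166397335971968319612, 558150,
  [G2Rp0_1, G2Rp0_2, G2Rp0_3, G2Rp0_4, G2Rp0_5, G2Rp0_6, G2Rp1_2, G2Rp1_3, G2Rp1_4, G2Rp1_5,
  G2Rp1_6, G2Rp2_3, G2Rp2_4, G2Rp2_5, G2Rp2_6, G2Rp3_4, G2Rp3_5, G2Rp3_6, G2Rp4_5, G2Rp4_6, G2Rp5_6,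
  G2Rp7_0, G2Rp7_1, G2Rp7_2, G2Rp7_3, G2Rp7_4, G2Rp7_5, G2Rp7_6, G2Rp7_8, G2Rp7_9, G2Rp9_8]⟩))
  (.node 615 (.leaf ⟨37115957540, 120896198860980410546100289,
  5828036321040427558137197511468318365892853994749881375571404438734686560769487143034, 558118,
  [G2Rp0_1, G2Rp2_1, G2Rp2_3, G2Rp2_4, G2Rp2_5, G2Rp2_6, G2Rp4_5, G2Rp4_6, G2Rp5_6, G2Rp7_0,
  G2Rp7_1, G2Rp7_8, G2Rp7_9, G2Rp9_8]⟩) (.leaf ⟨37112844562, 120896198677674470524595526,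
  5828036321061630046438834718223582287743153194986353611683290469968792723686195986444, 557382,
  [G2Rp0_1, G2Rp0_2, G2Rp0_3, G2Rp1_2, G2Rp1_3, G2Rp2_3, G2Rp5_4, G2Rp7_0, G2Rp7_1, G2Rp7_2,
  G2Rp7_3, G2Rp7_8, G2Rp7_9, G2Rp9_8]⟩)))) (.node 620 (.node 618 (.node 617 (.leaf ⟨37112353048,
  120896198680836599394075718,
  5828036321040427558137197511465061672562349732132393110404834477776620929764154015746, 557414,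
  [G2Rp0_1, G2Rp2_1, G2Rp3_1, G2Rp3_2, G2Rp5_1, G2Rp5_2, G2Rp5_3, G2Rp5_4, G2Rp6_1, G2Rp6_2,
  G2Rp6_3, G2Rp6_4, G2Rp7_0, G2Rp7_1, G2Rp7_8, G2Rp7_9, G2Rp9_8]⟩) (.leaf ⟨37112402200,
  120896198684320915235275843,
  5828036321040427558137197511465061672562037525102551581421125378562377597939995246622, 557462,
  [G2Rp0_1, G2Rp2_3, G2Rp2_4, G2Rp3_4, G2Rp5_1, G2Rp5_2, G2Rp5_3, G2Rp5_4, G2Rp6_1, G2Rp6_2,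
  G2Rp6_3, G2Rp6_4, G2Rp7_0, G2Rp7_1, G2Rp7_8, G2Rp7_9, G2Rp9_8]⟩)) (.node 619 (.leaf ⟨37112795410,
  120896198677422579282616550,
  5828036321040427558137197511464870128157359729901784665818517042213142432503616765952, 557334,
  [G2Rp0_1, G2Rp3_2, G2Rp4_2, G2Rp4_3, G2Rp5_2, G2Rp5_3, G2Rp5_4, G2Rp7_0, G2Rp7_1, G2Rp7_8,
  G2Rp7_9, G2Rp9_8]⟩) (.leaf ⟨37112324377, 120896198680836422226674753,
  5828036321036893810086924643671176728604436193963974123393911251619408328142062354458, 557386,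
  [G2Rp2_1, G2Rp2_3, G2Rp2_4, G2Rp5_3, G2Rp5_4, G2Rp6_3, G2Rp6_4, G2Rp7_0, G2Rp7_8, G2Rp7_9,
  G2Rp9_8]⟩))) (.node 622 (.node 621 (.leaf ⟨37120741956, 320375052175973203383028867,
  5828036321040427558137197511542166621603374475808106516820512784123305873490457919490, 563558,
  [G2Rp0_1, G2Rp2_1, G2Rp3_1, G2Rp3_2, G2Rp4_0, G2Rp4_1, G2Rp4_5, G2Rp4_6, G2Rp4_8, G2Rp4_9,
  G2Rp5_0, G2Rp5_1, G2Rp5_6, G2Rp5_8, G2Rp5_9, G2Rp6_0, G2Rp6_1, G2Rp6_8, G2Rp6_9, G2Rp7_0, G2Rp7_1,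
  G2Rp7_8, G2Rp7_9, G2Rp9_8]⟩) (.leaf ⟨37112353060, 120896198900278124352836739,
  5828036321040427558137197511463720738966232989032595128970929194787471779786621190258, 557414,
  [G2Rp0_1, G2Rp2_1, G2Rp2_4, G2Rp2_5, G2Rp2_6, G2Rp3_1, G2Rp3_2, G2Rp3_4, G2Rp3_5, G2Rp3_6,
  G2Rp5_4, G2Rp7_0, G2Rp7_1, G2Rp7_8, G2Rp7_9, G2Rp9_8]⟩)) (.node 623 (.leaf ⟨37120217668,
  240583510737932545967588450,
  5828036321040427558137197511543697850002718449188727310996255204583938868073649405970, 563302,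
  [G2Rp0_1, G2Rp2_1, G2Rp2_4, G2Rp3_1, G2Rp3_2, G2Rp3_4, G2Rp5_0, G2Rp5_1, G2Rp5_4, G2Rp5_6,
  G2Rp5_8, G2Rp5_9, G2Rp6_0, G2Rp6_1, G2Rp6_8, G2Rp6_9, G2Rp7_0, G2Rp7_1, G2Rp7_8, G2Rp7_9,
  G2Rp9_8]⟩) (.leaf ⟨37120152132, 240583510736775825375429697,
  5828036321040427558137197511544464097773329792093324195609184727348716305032882421786, 563238,
  [G2Rp0_1, G2Rp2_1, G2Rp2_3, G2Rp2_4, G2Rp5_0, G2Rp5_1, G2Rp5_3, G2Rp5_4, G2Rp5_6, G2Rp5_8,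
  G2Rp5_9, G2Rp6_0, G2Rp6_1, G2Rp6_8, G2Rp6_9, G2Rp7_0, G2Rp7_1, G2Rp7_8, G2Rp7_9, G2Rp9_8]⟩)))))
  (.node 632 (.node 628 (.node 626 (.node 625 (.leaf ⟨37112402212, 120896198900384742620992640,
  5828036321040427558137197511463720738965920776558152652502468122917178241112903516286, 557462,
  [G2Rp0_1, G2Rp2_3, G2Rp2_4, G2Rp2_5, G2Rp2_6, G2Rp3_4, G2Rp3_5, G2Rp3_6, G2Rp5_4, G2Rp7_0,
  G2Rp7_1, G2Rp7_8, G2Rp7_9, G2Rp9_8]⟩) (.leaf ⟨37113401636, 120896198928461940268439716,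
  5828036321040427558137197511462188404190190389205780346894093940246572622114642198626, 557670,
  [G2Rp0_1, G2Rp2_1, G2Rp2_5, G2Rp2_6, G2Rp3_1, G2Rp3_2, G2Rp3_5, G2Rp3_6, G2Rp4_1, G2Rp4_2,
  G2Rp4_3, G2Rp4_5, G2Rp4_6, G2Rp7_0, G2Rp7_1, G2Rp7_8, G2Rp7_9, G2Rp9_8]⟩)) (.node 627 (.leaf
  ⟨37113581842, 120896199046925453345434854,
  5828036321125237511343746338501634485310600574189237952945804483655446183681014628400, 557590,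
  [G2Rp0_1, G2Rp0_4, G2Rp0_5, G2Rp1_4, G2Rp1_5, G2Rp2_4, G2Rp2_5, G2Rp3_2, G2Rp3_4, G2Rp3_5,
  G2Rp4_5, G2Rp7_0, G2Rp7_1, G2Rp7_4, G2Rp7_5, G2Rp7_8, G2Rp7_9, G2Rp9_8]⟩) (.leaf ⟨6853906712,
  121082737992488818551293094,
  6799385587178499485369545974297006023321595968292405447446780869843194269130069770254, 100501,
  [G2Rp0_7, G2Rp0_8, G2Rp0_9, G2Rp2_3, G2Rp4_1, G2Rp4_2, G2Rp4_3, G2Rp5_1, G2Rp5_2, G2Rp5_3,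
  G2Rp5_4, G2Rp6_1, G2Rp6_2, G2Rp6_3, G2Rp6_4, G2Rp6_5, G2Rp8_7, G2Rp9_7, G2Rp9_8]⟩))) (.node 630
  (.node 629 (.leaf ⟨6853775640, 121082737992480022458270886,
  6799385587178499485369545974296239763858971521296067346469357269934156704215271342086, 100373,
  [G2Rp0_7, G2Rp0_8, G2Rp0_9, G2Rp3_1, G2Rp3_2, G2Rp4_1, G2Rp4_2, G2Rp5_1, G2Rp5_2, G2Rp5_4,
  G2Rp6_1, G2Rp6_2, G2Rp6_4, G2Rp6_5, G2Rp8_7, G2Rp9_7, G2Rp9_8]⟩) (.leaf ⟨26332956185,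
  161016288053556195746949473,
  7710025525672043348322866639234473638325310528168104153039867923447921182374589104184, 395586,
  [G2Rp0_3, G2Rp0_4, G2Rp0_5, G2Rp0_6, G2Rp0_7, G2Rp0_8, G2Rp0_9, G2Rp1_0, G2Rp1_3, G2Rp1_4,
  G2Rp1_5, G2Rp1_6, G2Rp1_7, G2Rp1_8, G2Rp1_9, G2Rp2_3, G2Rp2_4, G2Rp2_5, G2Rp4_5, G2Rp6_3, G2Rp6_4,
  G2Rp6_5, G2Rp7_3, G2Rp7_4, G2Rp7_5, G2Rp7_6, G2Rp8_3, G2Rp8_4, G2Rp8_5, G2Rp8_6, G2Rp8_7, G2Rp9_3,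
  G2Rp9_4, G2Rp9_5, G2Rp9_6, G2Rp9_7, G2Rp9_8]⟩)) (.node 631 (.leaf ⟨6854693144,
  121082738213232164201301059,
  6799385587178499485369545974294132620490260140309788958078269161406424151922644484158, 100757,
  [G2Rp0_7, G2Rp0_8, G2Rp0_9, G2Rp2_3, G2Rp2_4, G2Rp2_5, G2Rp3_4, G2Rp3_5, G2Rp4_5, G2Rp6_1,
  G2Rp6_2, G2Rp6_3, G2Rp6_4, G2Rp6_5, G2Rp8_7, G2Rp9_7, G2Rp9_8]⟩) (.leaf ⟨6854643992,
  121082738101661458376950854,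
  6799385587178499485369545974294132620490572336450428592092474315308567070047685443586, 100709,
  [G2Rp0_7, G2Rp0_8, G2Rp0_9, G2Rp2_1, G2Rp3_1, G2Rp3_2, G2Rp4_5, G2Rp6_1, G2Rp6_2, G2Rp6_3,
  G2Rp6_4, G2Rp6_5, G2Rp8_7, G2Rp9_7, G2Rp9_8]⟩)))) (.node 636 (.node 634 (.node 633 (.leaf
  ⟨6846746898, 121082737918210067143859394,
  6799385587178499485369545974295665069262003182475921611173207648504738495111798718476, 98629,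
  [G2Rp0_7, G2Rp0_8, G2Rp0_9, G2Rp1_2, G2Rp1_3, G2Rp2_3, G2Rp5_4, G2Rp8_7, G2Rp9_7, G2Rp9_8]⟩)
  (.leaf ⟨6846304536, 121082737925001788049589315,
  6799385587178499485369545974297006002860617652594762601326228255907818490182892388382, 98709,
  [G2Rp0_7, G2Rp0_8, G2Rp0_9, G2Rp2_3, G2Rp2_4, G2Rp3_4, G2Rp5_1, G2Rp5_2, G2Rp5_3, G2Rp5_4,
  G2Rp6_1, G2Rp6_2, G2Rp6_3, G2Rp6_4, G2Rp8_7, G2Rp9_7, G2Rp9_8]⟩)) (.node 635 (.leaf ⟨6846697746,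
  121082737918103448875703493,
  6799385587178499485369545974296814458455939857393995685723619919558583324746513907712, 98581,
  [G2Rp0_7, G2Rp0_8, G2Rp0_9, G2Rp3_2, G2Rp4_2, G2Rp4_3, G2Rp5_2, G2Rp5_3, G2Rp5_4, G2Rp8_7,
  G2Rp9_7, G2Rp9_8]⟩) (.leaf ⟨6847484178, 121082738138846797746936930,
  6799385587178499485369545974294132620490260141670876891190164565762906592654734131248, 98837,
  [G2Rp0_7, G2Rp0_8, G2Rp0_9, G2Rp1_4, G2Rp1_5, G2Rp2_4, G2Rp2_5, G2Rp3_2, G2Rp3_4, G2Rp3_5,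
  G2Rp4_5, G2Rp8_7, G2Rp9_7, G2Rp9_8]⟩))) (.node 638 (.node 637 (.leaf ⟨6847598866,
  121082738138852467103767650,
  6799385587178499485369545974294132620490527734279456417164359533695035179116753846332, 98949,
  [G2Rp0_7, G2Rp0_8, G2Rp0_9, G2Rp1_2, G2Rp1_3, G2Rp1_4, G2Rp1_5, G2Rp3_2, G2Rp4_5, G2Rp8_7,
  G2Rp9_7, G2Rp9_8]⟩) (.leaf ⟨6851498276, 121082737918103454246771909,
  6799385587178499485369545974303136099022591584416398398155757148827891816305776394306, 99941,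
  [G2Rp0_7, G2Rp0_8, G2Rp0_9, G2Rp2_1, G2Rp2_6, G2Rp3_1, G2Rp3_2, G2Rp3_6, G2Rp4_1, G2Rp4_2,
  G2Rp4_3, G2Rp4_6, G2Rp5_1, G2Rp5_2, G2Rp5_3, G2Rp5_4, G2Rp5_6, G2Rp8_7, G2Rp9_7, G2Rp9_8]⟩))
  (.node 639 (.leaf ⟨6851502372, 161016287535279537202142405,
  6799385587178499485369545974302944534156935471476325664826378385085211060161818394688, 99945,
  [G2Rp0_7, G2Rp0_8, G2Rp0_9, G2Rp1_0, G2Rp1_6, G2Rp1_7, G2Rp1_8, G2Rp1_9, G2Rp2_6, G2Rp3_2,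
  G2Rp3_6, G2Rp4_2, G2Rp4_3, G2Rp4_6, G2Rp5_2, G2Rp5_3, G2Rp5_4, G2Rp5_6, G2Rp8_7, G2Rp9_7,
  G2Rp9_8]⟩) (.leaf ⟨6851465510, 121082737918106781770485860,
  6799385587178499485369545974302944534156935448336833870390975618153158275542381494284, 99909,
  [G2Rp0_7, G2Rp0_8, G2Rp0_9, G2Rp1_2, G2Rp1_3, G2Rp2_3, G2Rp4_2, G2Rp4_3, G2Rp4_6, G2Rp5_2,
  G2Rp5_3, G2Rp5_4, G2Rp5_6, G2Rp8_7, G2Rp9_7, G2Rp9_8]⟩))))))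

def G2RT11 : Tr :=
  .node 672 (.node 656 (.node 648 (.node 644 (.node 642 (.node 641 (.leaf ⟨6849581346,
  121082737953073313117997154,
  6799385587178499485369545974300262696188758034178764728166535634770227358806566764544, 99349,
  [G2Rp0_7, G2Rp0_8, G2Rp0_9, G2Rp3_2, G2Rp4_5, G2Rp4_6, G2Rp5_6, G2Rp8_7, G2Rp9_7, G2Rp9_8]⟩)
  (.leaf ⟨6851551524, 161016287535349837225760929,
  6799385587178499485369545974301795144962998796558251590275951606921530854977006731340, 99993,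
  [G2Rp0_7, G2Rp0_8, G2Rp0_9, G2Rp1_0, G2Rp1_2, G2Rp1_3, G2Rp1_6, G2Rp1_7, G2Rp1_8, G2Rp1_9,
  G2Rp2_3, G2Rp2_6, G2Rp3_6, G2Rp4_6, G2Rp5_4, G2Rp5_6, G2Rp8_7, G2Rp9_7, G2Rp9_8]⟩)) (.node 643
  (.leaf ⟨6849859876, 121082738101661281210832961,
  6799385587178499485369545974300262696191434122242092395476507316080127453012384284794, 99365,
  [G2Rp0_7, G2Rp0_8, G2Rp0_9, G2Rp2_1, G2Rp2_3, G2Rp2_4, G2Rp2_5, G2Rp2_6, G2Rp4_5, G2Rp4_6,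
  G2Rp5_6, G2Rp8_7, G2Rp9_7, G2Rp9_8]⟩) (.leaf ⟨6849925412, 121082738138846799896779874,
  6799385587178499485369545974300262696191255756433781908787245440391121699098351108210, 99429,
  [G2Rp0_7, G2Rp0_8, G2Rp0_9, G2Rp2_1, G2Rp2_4, G2Rp2_5, G2Rp2_6, G2Rp3_1, G2Rp3_2, G2Rp3_4,
  G2Rp3_5, G2Rp3_6, G2Rp4_5, G2Rp4_6, G2Rp5_6, G2Rp8_7, G2Rp9_7, G2Rp9_8]⟩))) (.node 646 (.node 645
  (.leaf ⟨6849892642, 121082738176041145814262050,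
  6799385587178499485369545974300262696191255754392118870867207927147055313102823227516, 99397,
  [G2Rp0_7, G2Rp0_8, G2Rp0_9, G2Rp1_2, G2Rp1_3, G2Rp1_4, G2Rp1_5, G2Rp1_6, G2Rp2_3, G2Rp2_4,
  G2Rp2_5, G2Rp2_6, G2Rp3_4, G2Rp3_5, G2Rp3_6, G2Rp4_5, G2Rp4_6, G2Rp5_6, G2Rp8_7, G2Rp9_7,
  G2Rp9_8]⟩) (.leaf ⟨6849847588, 161016287718837540259862593,
  6799385587178499485369545974300262696191523326583382606328037573048285209383340343420, 99353,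
  [G2Rp0_7, G2Rp0_8, G2Rp0_9, G2Rp1_0, G2Rp1_2, G2Rp1_3, G2Rp1_4, G2Rp1_5, G2Rp1_6, G2Rp1_7,
  G2Rp1_8, G2Rp1_9, G2Rp3_2, G2Rp4_5, G2Rp4_6, G2Rp5_6, G2Rp8_7, G2Rp9_7, G2Rp9_8]⟩)) (.node 647
  (.leaf ⟨6846255396, 121082738140958997165053059,
  6799385587178499485369545974295665069264813116524806148876032072132912672029518332018, 98661,
  [G2Rp0_7, G2Rp0_8, G2Rp0_9, G2Rp2_1, G2Rp2_4, G2Rp2_5, G2Rp2_6, G2Rp3_1, G2Rp3_2, G2Rp3_4,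
  G2Rp3_5, G2Rp3_6, G2Rp5_4, G2Rp8_7, G2Rp9_7, G2Rp9_8]⟩) (.leaf ⟨6854644292,
  360684035693144949254130819,
  6799385587178499485369545974386371103303945787908169762776593296922041455724552257538, 104805,
  [G2Rp0_7, G2Rp0_8, G2Rp0_9, G2Rp2_1, G2Rp3_1, G2Rp3_2, G2Rp4_0, G2Rp4_1, G2Rp4_5, G2Rp4_6,
  G2Rp4_7, G2Rp4_8, G2Rp4_9, G2Rp5_0, G2Rp5_1, G2Rp5_6, G2Rp5_7, G2Rp5_8, G2Rp5_9, G2Rp6_0, G2Rp6_1,
  G2Rp6_7, G2Rp6_8, G2Rp6_9, G2Rp8_7, G2Rp9_7, G2Rp9_8]⟩)))) (.node 652 (.node 650 (.node 649 (.leaf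
  ⟨6846750993, 360684035621157653101678692,
  6799385587178499485369545974381773476374425949038649536994529232199147110054322439043, 98633,
  [G2Rp0_7, G2Rp0_8, G2Rp0_9, G2Rp1_0, G2Rp1_7, G2Rp1_8, G2Rp1_9, G2Rp2_0, G2Rp2_1, G2Rp2_3,
  G2Rp2_7, G2Rp2_8, G2Rp2_9, G2Rp3_0, G2Rp3_1, G2Rp3_7, G2Rp3_8, G2Rp3_9, G2Rp4_0, G2Rp4_1, G2Rp4_7,
  G2Rp4_8, G2Rp4_9, G2Rp5_0, G2Rp5_1, G2Rp5_4, G2Rp5_7, G2Rp5_8, G2Rp5_9, G2Rp8_7, G2Rp9_7,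
  G2Rp9_8]⟩) (.leaf ⟨6846259492, 161016287758135082268955779,
  6799385587178499485369545974295665069264768514353834049135368563155438502077807984752, 98665,
  [G2Rp0_7, G2Rp0_8, G2Rp0_9, G2Rp1_0, G2Rp1_4, G2Rp1_5, G2Rp1_6, G2Rp1_7, G2Rp1_8, G2Rp1_9,
  G2Rp2_4, G2Rp2_5, G2Rp2_6, G2Rp3_2, G2Rp3_4, G2Rp3_5, G2Rp3_6, G2Rp5_4, G2Rp8_7, G2Rp9_7,
  G2Rp9_8]⟩)) (.node 651 (.leaf ⟨4934141025, 4954982455818787960788266,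
  7656876956952379023913992151045243172614973478608242788917895268551931693081076695040, 69954,
  [G2Rp1_0, G2Rp2_3, G2Rp5_4, G2Rp6_4, G2Rp6_5, G2Rp7_8, G2Rp9_0, G2Rp9_4, G2Rp9_5, G2Rp9_6,
  G2Rp9_7, G2Rp9_8]⟩) (.leaf ⟨19889784337, 278244309944799217516223501,
  3885426714359114897243598701039813935650560622244098791995186866069356305763872276480, 297090,
  [G2Rp0_2, G2Rp0_3, G2Rp0_4, G2Rp0_5, G2Rp0_6, G2Rp0_7, G2Rp0_8, G2Rp0_9, G2Rp1_0, G2Rp1_2,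
  G2Rp1_3, G2Rp1_4, G2Rp1_5, G2Rp1_6, G2Rp1_7, G2Rp1_8, G2Rp1_9, G2Rp3_2, G2Rp4_2, G2Rp4_3, G2Rp5_2,
  G2Rp5_3, G2Rp5_4, G2Rp6_2, G2Rp6_3, G2Rp6_4, G2Rp6_5, G2Rp7_8, G2Rp7_9, G2Rp8_9]⟩))) (.node 654
  (.node 653 (.leaf ⟨19889686033, 278244309944790077825817601,
  3885426714359114573719302106233802567685808829513311502841329359091268520868879007756, 296994,
  [G2Rp0_4, G2Rp0_5, G2Rp0_6, G2Rp0_7, G2Rp0_8, G2Rp0_9, G2Rp1_0, G2Rp1_2, G2Rp1_3, G2Rp1_4,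
  G2Rp1_5, G2Rp1_6, G2Rp1_7, G2Rp1_8, G2Rp1_9, G2Rp2_3, G2Rp5_4, G2Rp6_4, G2Rp6_5, G2Rp7_8, G2Rp7_9,
  G2Rp8_9]⟩) (.leaf ⟨19889669650, 398044958907884660242819170,
  3885426714359114573719302106233802567685809174905121800392242256356739100809293202419, 296978,
  [G2Rp0_4, G2Rp0_5, G2Rp0_6, G2Rp0_7, G2Rp0_8, G2Rp0_9, G2Rp1_0, G2Rp1_4, G2Rp1_5, G2Rp1_6,
  G2Rp1_7, G2Rp1_8, G2Rp1_9, G2Rp2_0, G2Rp2_1, G2Rp2_4, G2Rp2_5, G2Rp2_6, G2Rp2_7, G2Rp2_8, G2Rp2_9,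
  G2Rp3_0, G2Rp3_1, G2Rp3_2, G2Rp3_4, G2Rp3_5, G2Rp3_6, G2Rp3_7, G2Rp3_8, G2Rp3_9, G2Rp5_4, G2Rp6_4,
  G2Rp6_5, G2Rp7_8, G2Rp7_9, G2Rp8_9]⟩)) (.node 655 (.leaf ⟨18661003652, 38838000163194272915560672,
  5797770583393345503806409522823616588861317795188491713871790289899273705365494825022, 287765,
  [G2Rp0_2, G2Rp0_3, G2Rp0_4, G2Rp0_5, G2Rp0_6, G2Rp0_7, G2Rp3_2, G2Rp4_5, G2Rp6_2, G2Rp6_3,
  G2Rp6_4, G2Rp6_5, G2Rp8_2, G2Rp8_3, G2Rp8_4, G2Rp8_5, G2Rp8_6, G2Rp8_7, G2Rp8_9, G2Rp9_2, G2Rp9_3,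
  G2Rp9_4, G2Rp9_5, G2Rp9_6, G2Rp9_7]⟩) (.leaf ⟨19890505241, 278244310053974812279381249,
  3885426714359114789402166502768844771428120922183688958928778571149910518155600986168, 297282,
  [G2Rp0_3, G2Rp0_4, G2Rp0_5, G2Rp0_6, G2Rp0_7, G2Rp0_8, G2Rp0_9, G2Rp1_0, G2Rp1_3, G2Rp1_4,
  G2Rp1_5, G2Rp1_6, G2Rp1_7, G2Rp1_8, G2Rp1_9, G2Rp2_3, G2Rp2_4, G2Rp2_5, G2Rp4_5, G2Rp6_3, G2Rp6_4,
  G2Rp6_5, G2Rp7_8, G2Rp7_9, G2Rp8_9]⟩))))) (.node 664 (.node 660 (.node 658 (.node 657 (.leaf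
  ⟨19882640913, 278244309647268759699922020,
  3885426714359113279622115727014354652602548358262458643476868493662466150905621250048, 295234,
  [G2Rp0_6, G2Rp0_7, G2Rp0_8, G2Rp0_9, G2Rp1_0, G2Rp1_6, G2Rp1_7, G2Rp1_8, G2Rp1_9, G2Rp2_3,
  G2Rp5_4, G2Rp7_8, G2Rp7_9, G2Rp8_9]⟩) (.leaf ⟨19882182169, 278244309657647084314238210,
  3885426714359113710987844520087503957630658667408274963045344918129225690242624782352, 295298,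
  [G2Rp0_4, G2Rp0_6, G2Rp0_7, G2Rp0_8, G2Rp0_9, G2Rp1_0, G2Rp1_4, G2Rp1_6, G2Rp1_7, G2Rp1_8,
  G2Rp1_9, G2Rp2_4, G2Rp3_2, G2Rp3_4, G2Rp5_4, G2Rp6_4, G2Rp7_8, G2Rp7_9, G2Rp8_9]⟩)) (.node 659
  (.leaf ⟨19882608145, 278244309647274429056752740,
  3885426714359113279622115727015504041796485031819444790619885596936020272579049422860, 295202,
  [G2Rp0_6, G2Rp0_7, G2Rp0_8, G2Rp0_9, G2Rp1_0, G2Rp1_2, G2Rp1_3, G2Rp1_6, G2Rp1_7, G2Rp1_8,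
  G2Rp1_9, G2Rp2_3, G2Rp4_2, G2Rp4_3, G2Rp5_2, G2Rp5_3, G2Rp5_4, G2Rp7_8, G2Rp7_9, G2Rp8_9]⟩) (.leaf
  ⟨19882591762, 517845607350327638998004933,
  3885426714359113279622115727107742524609903413825590477646944612699501393680510485443, 295186,
  [G2Rp0_6, G2Rp0_7, G2Rp0_8, G2Rp0_9, G2Rp1_0, G2Rp1_6, G2Rp1_7, G2Rp1_8, G2Rp1_9, G2Rp2_0,
  G2Rp2_1, G2Rp2_6, G2Rp2_7, G2Rp2_8, G2Rp2_9, G2Rp3_0, G2Rp3_1, G2Rp3_2, G2Rp3_6, G2Rp3_7, G2Rp3_8,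
  G2Rp3_9, G2Rp4_0, G2Rp4_1, G2Rp4_2, G2Rp4_3, G2Rp4_6, G2Rp4_7, G2Rp4_8, G2Rp4_9, G2Rp5_0, G2Rp5_1,
  G2Rp5_2, G2Rp5_3, G2Rp5_4, G2Rp5_6, G2Rp5_7, G2Rp5_8, G2Rp5_9, G2Rp7_8, G2Rp7_9, G2Rp8_9]⟩)))
  (.node 662 (.node 661 (.leaf ⟨19883394577, 278244309868017777927986177,
  3885426714359113279622115727012822203830805316096325996086372214701002038286883749948, 295458,
  [G2Rp0_6, G2Rp0_7, G2Rp0_8, G2Rp0_9, G2Rp1_0, G2Rp1_2, G2Rp1_3, G2Rp1_4, G2Rp1_5, G2Rp1_6,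
  G2Rp1_7, G2Rp1_8, G2Rp1_9, G2Rp2_3, G2Rp2_4, G2Rp2_5, G2Rp3_4, G2Rp3_5, G2Rp4_5, G2Rp7_8, G2Rp7_9,
  G2Rp8_9]⟩) (.leaf ⟨19883492881, 278244309756447068882410500,
  3885426714359113279622115727012822203831072910065993445665010549728733128220080865280, 295554,
  [G2Rp0_6, G2Rp0_7, G2Rp0_8, G2Rp0_9, G2Rp1_0, G2Rp1_6, G2Rp1_7, G2Rp1_8, G2Rp1_9, G2Rp3_2,
  G2Rp4_5, G2Rp7_8, G2Rp7_9, G2Rp8_9]⟩)) (.node 663 (.leaf ⟨18658758930, 38838000014430212238351458,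
  4856775980502439214787164492586926427190738626313143224178106334949862980288559972412, 279173,
  [G2Rp0_7, G2Rp1_2, G2Rp1_3, G2Rp1_4, G2Rp1_5, G2Rp3_2, G2Rp4_5, G2Rp8_7, G2Rp8_9, G2Rp9_7]⟩)
  (.leaf ⟨19883378194, 398044958719542716451301474,
  3885426714359113279622115727012822203830805645154333447380077393313633793188511613939, 295442,
  [G2Rp0_6, G2Rp0_7, G2Rp0_8, G2Rp0_9, G2Rp1_0, G2Rp1_6, G2Rp1_7, G2Rp1_8, G2Rp1_9, G2Rp2_0,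
  G2Rp2_1, G2Rp2_4, G2Rp2_5, G2Rp2_6, G2Rp2_7, G2Rp2_8, G2Rp2_9, G2Rp3_0, G2Rp3_1, G2Rp3_2, G2Rp3_4,
  G2Rp3_5, G2Rp3_6, G2Rp3_7, G2Rp3_8, G2Rp3_9, G2Rp4_5, G2Rp7_8, G2Rp7_9, G2Rp8_9]⟩)))) (.node 668
  (.node 666 (.node 665 (.leaf ⟨19885590049, 278244309682246629761157223,
  3885426714359113279622115727020101668723239883522287907613228090311344511875453550592, 296066,
  [G2Rp0_6, G2Rp0_7, G2Rp0_8, G2Rp0_9, G2Rp1_0, G2Rp1_6, G2Rp1_7, G2Rp1_8, G2Rp1_9, G2Rp3_2,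
  G2Rp4_2, G2Rp4_3, G2Rp4_5, G2Rp4_6, G2Rp5_2, G2Rp5_3, G2Rp5_6, G2Rp7_8, G2Rp7_9, G2Rp8_9]⟩) (.leaf
  ⟨19885786657, 278244309793635747589461191,
  3885426714359113279622115727018952279531800930178655894297179171015380319952156229632, 296002,
  [G2Rp0_6, G2Rp0_7, G2Rp0_8, G2Rp0_9, G2Rp1_0, G2Rp1_6, G2Rp1_7, G2Rp1_8, G2Rp1_9, G2Rp2_3,
  G2Rp2_4, G2Rp2_5, G2Rp2_6, G2Rp3_4, G2Rp3_5, G2Rp3_6, G2Rp4_5, G2Rp4_6, G2Rp5_6, G2Rp7_8, G2Rp7_9,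
  G2Rp8_9]⟩)) (.node 667 (.leaf ⟨19885475362, 398044958533769231822260322,
  3885426714359113279622115727018952279529303537662221288159458291444984266030839759811, 295954,
  [G2Rp0_6, G2Rp0_7, G2Rp0_8, G2Rp0_9, G2Rp1_0, G2Rp1_6, G2Rp1_7, G2Rp1_8, G2Rp1_9, G2Rp2_0,
  G2Rp2_1, G2Rp2_6, G2Rp2_7, G2Rp2_8, G2Rp2_9, G2Rp3_0, G2Rp3_1, G2Rp3_2, G2Rp3_6, G2Rp3_7, G2Rp3_8,
  G2Rp3_9, G2Rp4_5, G2Rp4_6, G2Rp5_6, G2Rp7_8, G2Rp7_9, G2Rp8_9]⟩) (.leaf ⟨19885491745,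
  278244309682353248029313124,
  3885426714359113279622115727020101668722972273218817611777382036630774596903470104588, 295970,
  [G2Rp0_6, G2Rp0_7, G2Rp0_8, G2Rp0_9, G2Rp1_0, G2Rp1_2, G2Rp1_3, G2Rp1_6, G2Rp1_7, G2Rp1_8,
  G2Rp1_9, G2Rp2_3, G2Rp4_2, G2Rp4_3, G2Rp4_5, G2Rp4_6, G2Rp5_2, G2Rp5_3, G2Rp5_6, G2Rp7_8, G2Rp7_9,
  G2Rp8_9]⟩))) (.node 670 (.node 669 (.leaf ⟨18665070872, 38876997437959882803250342,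
  4856775980502439214787164492589608265156150748066594574599649642240590200349529997324, 280729,
  [G2Rp0_7, G2Rp1_0, G2Rp1_2, G2Rp1_3, G2Rp1_7, G2Rp2_3, G2Rp4_2, G2Rp4_3, G2Rp5_2, G2Rp5_3,
  G2Rp5_4, G2Rp6_2, G2Rp6_3, G2Rp6_4, G2Rp6_5, G2Rp8_7, G2Rp8_9, G2Rp9_7]⟩) (.leaf ⟨18664939800,
  38876997437951086710228134,
  4856775980502439214787164492588842005693526300389691739146523815290688719822843543556, 280601,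
  [G2Rp0_7, G2Rp1_0, G2Rp1_2, G2Rp1_7, G2Rp3_2, G2Rp4_2, G2Rp5_2, G2Rp5_4, G2Rp6_2, G2Rp6_4,
  G2Rp6_5, G2Rp8_7, G2Rp8_9, G2Rp9_7]⟩)) (.node 671 (.leaf ⟨18665857304, 38876997658703231674483779,
  4856775980502439214787164492586926427190471032343475780066136260005571966057364324412, 280985,
  [G2Rp0_7, G2Rp1_0, G2Rp1_2, G2Rp1_3, G2Rp1_4, G2Rp1_5, G2Rp1_7, G2Rp2_3, G2Rp2_4, G2Rp2_5,
  G2Rp3_4, G2Rp3_5, G2Rp4_5, G2Rp6_2, G2Rp6_3, G2Rp6_4, G2Rp6_5, G2Rp8_7, G2Rp8_9, G2Rp9_7]⟩) (.leaf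
  ⟨18665840921, 38993990293997851563263074,
  4856775980502439214787164492586926427190471078282233962152738860503589587030669000883, 280969,
  [G2Rp0_7, G2Rp1_0, G2Rp1_7, G2Rp2_0, G2Rp2_1, G2Rp2_4, G2Rp2_5, G2Rp2_7, G2Rp3_0, G2Rp3_1,
  G2Rp3_2, G2Rp3_4, G2Rp3_5, G2Rp3_7, G2Rp4_5, G2Rp6_4, G2Rp6_5, G2Rp8_7, G2Rp8_9, G2Rp9_7]⟩))))))
  (.node 688 (.node 680 (.node 676 (.node 674 (.node 673 (.leaf ⟨18657468708,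
  38876997623727698078832801,
  4856775980502439214787164492588458875964711796084050499466040499774685116435876806780, 278937,
  [G2Rp0_7, G2Rp1_0, G2Rp1_2, G2Rp1_3, G2Rp1_4, G2Rp1_5, G2Rp1_6, G2Rp1_7, G2Rp2_3, G2Rp2_4,
  G2Rp2_5, G2Rp2_6, G2Rp3_4, G2Rp3_5, G2Rp3_6, G2Rp5_4, G2Rp8_7, G2Rp8_9, G2Rp9_7]⟩) (.leaf
  ⟨18662711684, 38876997661093501233995105,
  5706706589565193282288418068286114505858221065751858690330230973249490148045101203468, 288409,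
  [G2Rp0_4, G2Rp0_5, G2Rp0_6, G2Rp0_7, G2Rp1_0, G2Rp1_2, G2Rp1_3, G2Rp1_4, G2Rp1_5, G2Rp1_6,
  G2Rp1_7, G2Rp2_3, G2Rp5_4, G2Rp6_4, G2Rp6_5, G2Rp8_4, G2Rp8_5, G2Rp8_6, G2Rp8_7, G2Rp8_9, G2Rp9_4,
  G2Rp9_5, G2Rp9_6, G2Rp9_7]⟩)) (.node 675 (.leaf ⟨18658517284, 38876997614720498824091809,
  4856775980502439214787164492586926520727646273624594861269966986977594282084139008108, 279193,
  [G2Rp0_7, G2Rp1_0, G2Rp1_2, G2Rp1_3, G2Rp1_5, G2Rp1_6, G2Rp1_7, G2Rp2_3, G2Rp2_5, G2Rp2_6,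
  G2Rp3_5, G2Rp3_6, G2Rp4_5, G2Rp4_6, G2Rp8_7, G2Rp8_9, G2Rp9_7]⟩) (.leaf ⟨18660876680,
  38876997650646010466344003,
  5585287931127656986931096128899202698924978882064499768551603663170418384307906936844, 287897,
  [G2Rp0_5, G2Rp0_6, G2Rp0_7, G2Rp1_0, G2Rp1_2, G2Rp1_3, G2Rp1_5, G2Rp1_6, G2Rp1_7, G2Rp2_3,
  G2Rp4_2, G2Rp4_3, G2Rp4_5, G2Rp6_5, G2Rp8_5, G2Rp8_6, G2Rp8_7, G2Rp8_9, G2Rp9_5, G2Rp9_6,
  G2Rp9_7]⟩))) (.node 678 (.node 677 (.leaf ⟨18658517272, 38876997398656671437293668,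
  4856775980502439214787164492588075816383069644854747242612715551358742798874075463692, 279193,
  [G2Rp0_7, G2Rp1_0, G2Rp1_2, G2Rp1_3, G2Rp1_7, G2Rp2_3, G2Rp4_2, G2Rp4_3, G2Rp4_5, G2Rp5_2,
  G2Rp5_3, G2Rp6_2, G2Rp6_3, G2Rp8_7, G2Rp8_9, G2Rp9_7]⟩) (.leaf ⟨18660745608,
  38876997650640512908205123,
  5585287931127656986931096128899202687232787389705811848082083821640315962993068474372, 287769,
  [G2Rp0_5, G2Rp0_6, G2Rp0_7, G2Rp1_0, G2Rp1_2, G2Rp1_5, G2Rp1_6, G2Rp1_7, G2Rp3_2, G2Rp3_5,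
  G2Rp4_2, G2Rp4_5, G2Rp6_5, G2Rp8_5, G2Rp8_6, G2Rp8_7, G2Rp8_9, G2Rp9_5, G2Rp9_6, G2Rp9_7]⟩))
  (.node 679 (.leaf ⟨18660854049, 38836819237036015734589543,
  4871953312807131251706829735017569878910945806810721351391190000399045222846765465600, 279681,
  [G2Rp0_1, G2Rp0_7, G2Rp3_2, G2Rp4_1, G2Rp4_2, G2Rp4_3, G2Rp4_5, G2Rp4_6, G2Rp5_1, G2Rp5_2,
  G2Rp5_3, G2Rp5_6, G2Rp6_1, G2Rp8_1, G2Rp8_7, G2Rp8_9, G2Rp9_1, G2Rp9_7]⟩) (.leaf ⟨9231959113,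
  38843903002930759411669153,
  5350039280404925211406578111266549863772667107681823646732913422525487924565629730924, 136226,
  [G2Rp1_0, G2Rp1_2, G2Rp1_3, G2Rp1_5, G2Rp1_6, G2Rp2_3, G2Rp2_5, G2Rp2_6, G2Rp3_5, G2Rp3_6,
  G2Rp4_5, G2Rp4_6, G2Rp8_0, G2Rp8_6, G2Rp8_7, G2Rp8_9, G2Rp9_0, G2Rp9_6, G2Rp9_7]⟩)))) (.node 684
  (.node 682 (.node 681 (.leaf ⟨7055221009, 1290537749742977917387783,
  6806974253332588167453403524874329562048307083484426733568879837800984269298151063554, 100490,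
  [G2Rp2_1, G2Rp3_1, G2Rp3_2, G2Rp4_1, G2Rp4_2, G2Rp4_3, G2Rp5_1, G2Rp5_2, G2Rp5_3, G2Rp5_4,
  G2Rp6_1, G2Rp6_2, G2Rp6_3, G2Rp6_4, G2Rp6_5, G2Rp7_0, G2Rp8_0, G2Rp8_7, G2Rp9_0, G2Rp9_7,
  G2Rp9_8]⟩) (.leaf ⟨7055214097, 1290537861316014558515210,
  6806974253332588167453403524874137997182650970544353934004910748018250789111788732416, 100482,
  [G2Rp1_0, G2Rp1_2, G2Rp1_3, G2Rp1_4, G2Rp1_5, G2Rp1_6, G2Rp3_2, G2Rp4_2, G2Rp4_3, G2Rp5_2,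
  G2Rp5_3, G2Rp5_4, G2Rp6_2, G2Rp6_3, G2Rp6_4, G2Rp6_5, G2Rp7_0, G2Rp8_0, G2Rp8_7, G2Rp9_0, G2Rp9_7,
  G2Rp9_8]⟩)) (.node 683 (.leaf ⟨7051019809, 1290537710336472311236711,
  6806974253332588167453403524878735624109405820886109117886343328820418227232284868608, 99458,
  [G2Rp1_0, G2Rp1_6, G2Rp3_2, G2Rp4_2, G2Rp4_3, G2Rp4_5, G2Rp4_6, G2Rp5_2, G2Rp5_3, G2Rp5_6,
  G2Rp7_0, G2Rp8_0, G2Rp8_7, G2Rp9_0, G2Rp9_7, G2Rp9_8]⟩) (.leaf ⟨7051216417,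
  1290537821725590139638983,
  6806974253332588167453403524877586234917966867542477104570294409524454035308987547648, 99394,
  [G2Rp1_0, G2Rp1_6, G2Rp2_3, G2Rp2_4, G2Rp2_5, G2Rp2_6, G2Rp3_4, G2Rp3_5, G2Rp3_6, G2Rp4_5,
  G2Rp4_6, G2Rp5_6, G2Rp7_0, G2Rp8_0, G2Rp8_7, G2Rp9_0, G2Rp9_7, G2Rp9_8]⟩))) (.node 686 (.node 685
  (.leaf ⟨7055410705, 1290537861132086879031396,
  6806974253332588167453403524872988607989784747729612169918043194626264541397014020096, 100418,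
  [G2Rp1_0, G2Rp1_4, G2Rp1_5, G2Rp1_6, G2Rp2_3, G2Rp2_4, G2Rp2_5, G2Rp3_4, G2Rp3_5, G2Rp5_4,
  G2Rp6_4, G2Rp6_5, G2Rp7_0, G2Rp8_0, G2Rp8_7, G2Rp9_0, G2Rp9_7, G2Rp9_8]⟩) (.leaf ⟨7051252100,
  1290538156433464358085954,
  7672082194901454837259058156564780126160099653820576701726518299540317979728824762418, 107622,
  [G2Rp0_1, G2Rp0_4, G2Rp0_5, G2Rp0_6, G2Rp2_1, G2Rp2_4, G2Rp2_5, G2Rp3_1, G2Rp3_2, G2Rp3_4,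
  G2Rp3_5, G2Rp4_5, G2Rp6_4, G2Rp6_5, G2Rp7_0, G2Rp7_1, G2Rp7_4, G2Rp7_5, G2Rp7_6, G2Rp8_0, G2Rp8_1,
  G2Rp8_4, G2Rp8_5, G2Rp8_6, G2Rp8_7, G2Rp9_0, G2Rp9_1, G2Rp9_4, G2Rp9_5, G2Rp9_6, G2Rp9_7,
  G2Rp9_8]⟩)) (.node 687 (.leaf ⟨7051219334, 1290538268017779860055371,
  7763146188750809223554390223058814227943586851601941706896375864919915810058544087100, 107590,
  [G2Rp0_1, G2Rp0_2, G2Rp0_3, G2Rp0_4, G2Rp0_5, G2Rp0_6, G2Rp1_2, G2Rp1_3, G2Rp1_4, G2Rp1_5,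
  G2Rp2_3, G2Rp2_4, G2Rp2_5, G2Rp3_4, G2Rp3_5, G2Rp4_5, G2Rp6_2, G2Rp6_3, G2Rp6_4, G2Rp6_5, G2Rp7_0,
  G2Rp7_1, G2Rp7_2, G2Rp7_3, G2Rp7_4, G2Rp7_5, G2Rp7_6, G2Rp8_0, G2Rp8_1, G2Rp8_2, G2Rp8_3, G2Rp8_4,
  G2Rp8_5, G2Rp8_6, G2Rp8_7, G2Rp9_0, G2Rp9_1, G2Rp9_2, G2Rp9_3, G2Rp9_4, G2Rp9_5, G2Rp9_6, G2Rp9_7,
  G2Rp9_8]⟩) (.leaf ⟨7052792198, 1290538047274430988821934,
  7763146188750809223554390223061496065909266567325060501429889247154934044350709760012, 108102,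
  [G2Rp0_1, G2Rp0_2, G2Rp0_3, G2Rp0_4, G2Rp0_5, G2Rp0_6, G2Rp1_2, G2Rp1_3, G2Rp2_3, G2Rp4_2,
  G2Rp4_3, G2Rp5_2, G2Rp5_3, G2Rp5_4, G2Rp6_2, G2Rp6_3, G2Rp6_4, G2Rp6_5, G2Rp7_0, G2Rp7_1, G2Rp7_2,
  G2Rp7_3, G2Rp7_4, G2Rp7_5, G2Rp7_6, G2Rp8_0, G2Rp8_1, G2Rp8_2, G2Rp8_3, G2Rp8_4, G2Rp8_5, G2Rp8_6,
  G2Rp8_7, G2Rp9_0, G2Rp9_1, G2Rp9_2, G2Rp9_3, G2Rp9_4, G2Rp9_5, G2Rp9_6, G2Rp9_7, G2Rp9_8]⟩)))))
  (.node 696 (.node 692 (.node 690 (.node 689 (.leaf ⟨7052792102, 1290537675368814781567080,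
  6913215579490168284797957602456641191631048294614058164956002457656294456523993382924, 99910,
  [G2Rp0_1, G2Rp0_2, G2Rp0_3, G2Rp1_2, G2Rp1_3, G2Rp2_3, G2Rp4_2, G2Rp4_3, G2Rp4_6, G2Rp5_2,
  G2Rp5_3, G2Rp5_4, G2Rp5_6, G2Rp7_0, G2Rp7_1, G2Rp7_2, G2Rp7_3, G2Rp8_0, G2Rp8_1, G2Rp8_2, G2Rp8_3,
  G2Rp8_7, G2Rp9_0, G2Rp9_1, G2Rp9_2, G2Rp9_3, G2Rp9_7, G2Rp9_8]⟩) (.leaf ⟨7051252004,
  1290537896104295274912866,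
  6822151585640813898502625535959925251881881402887978155191639400887243525936118759538, 99430,
  [G2Rp0_1, G2Rp2_1, G2Rp2_4, G2Rp2_5, G2Rp2_6, G2Rp3_1, G2Rp3_2, G2Rp3_4, G2Rp3_5, G2Rp3_6,
  G2Rp4_5, G2Rp4_6, G2Rp5_6, G2Rp7_0, G2Rp7_1, G2Rp8_0, G2Rp8_1, G2Rp8_7, G2Rp9_0, G2Rp9_1, G2Rp9_7,
  G2Rp9_8]⟩)) (.node 691 (.leaf ⟨7055413522, 1290538195851231091504520,
  7277471554887585829979285868425498133871135280148590414548825465605213052265290530876, 100422,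
  [G2Rp0_1, G2Rp0_2, G2Rp0_3, G2Rp0_4, G2Rp0_5, G2Rp1_2, G2Rp1_3, G2Rp1_4, G2Rp1_5, G2Rp2_3,
  G2Rp2_4, G2Rp2_5, G2Rp3_4, G2Rp3_5, G2Rp5_4, G2Rp6_4, G2Rp6_5, G2Rp7_0, G2Rp7_1, G2Rp7_2, G2Rp7_3,
  G2Rp7_4, G2Rp7_5, G2Rp8_0, G2Rp8_1, G2Rp8_2, G2Rp8_3, G2Rp8_4, G2Rp8_5, G2Rp8_7, G2Rp9_0, G2Rp9_1,
  G2Rp9_2, G2Rp9_3, G2Rp9_4, G2Rp9_5, G2Rp9_7, G2Rp9_8]⟩) (.leaf ⟨7055233304,
  1290537749746309634458790,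
  6822151585640813898502625535956668579012221614746601693851174830339316095967837421582, 100502,
  [G2Rp0_1, G2Rp2_3, G2Rp4_1, G2Rp4_2, G2Rp4_3, G2Rp5_1, G2Rp5_2, G2Rp5_3, G2Rp5_4, G2Rp6_1,
  G2Rp6_2, G2Rp6_3, G2Rp6_4, G2Rp6_5, G2Rp7_0, G2Rp7_1, G2Rp8_0, G2Rp8_1, G2Rp8_7, G2Rp9_0, G2Rp9_1,
  G2Rp9_7, G2Rp9_8]⟩))) (.node 694 (.node 693 (.leaf ⟨7055122705, 1290537749740634908918785,
  6806974253332588167453403524872988607988714295626279848600074587367058117999663644686, 100394,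
  [G2Rp2_3, G2Rp5_4, G2Rp6_4, G2Rp6_5, G2Rp7_0, G2Rp8_0, G2Rp8_7, G2Rp9_0, G2Rp9_7, G2Rp9_8]⟩)
  (.leaf ⟨6866618502, 200946289796543961865651270,
  6799385587178499539289444932878567116290566907357013133435870795702905549023545786370, 107537,
  [G2Rp0_1, G2Rp0_7, G2Rp0_8, G2Rp0_9, G2Rp2_1, G2Rp3_1, G2Rp3_2, G2Rp4_5, G2Rp6_1, G2Rp6_2,
  G2Rp6_3, G2Rp6_4, G2Rp6_5, G2Rp6_7, G2Rp6_8, G2Rp6_9, G2Rp8_7, G2Rp9_7, G2Rp9_8]⟩)) (.node 695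
  (.leaf ⟨7055102232, 1290537749737513541436582,
  6822151585640813898502625535955902319549597167750263592873751230430278531053038993414, 100374,
  [G2Rp0_1, G2Rp3_1, G2Rp3_2, G2Rp4_1, G2Rp4_2, G2Rp5_1, G2Rp5_2, G2Rp5_4, G2Rp6_1, G2Rp6_2,
  G2Rp6_4, G2Rp6_5, G2Rp7_0, G2Rp7_1, G2Rp8_0, G2Rp8_1, G2Rp8_7, G2Rp9_0, G2Rp9_1, G2Rp9_7,
  G2Rp9_8]⟩) (.leaf ⟨7055099410, 1294193886967699118169186,
  6806974253332588167453403524872988607988714336120437096908533940878857846983693959283, 100370,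
  [G2Rp1_0, G2Rp1_4, G2Rp1_5, G2Rp1_6, G2Rp2_0, G2Rp2_1, G2Rp2_4, G2Rp2_5, G2Rp2_6, G2Rp3_0,
  G2Rp3_1, G2Rp3_2, G2Rp3_4, G2Rp3_5, G2Rp3_6, G2Rp5_4, G2Rp6_4, G2Rp6_5, G2Rp7_0, G2Rp8_0, G2Rp8_7,
  G2Rp9_0, G2Rp9_7, G2Rp9_8]⟩)))) (.node 700 (.node 698 (.node 697 (.leaf ⟨7050905122,
  1294193624421914591299682,
  6806974253332588167453403524877586234915469170128389439286463061215246397812372406339, 99346,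
  [G2Rp1_0, G2Rp1_6, G2Rp2_0, G2Rp2_1, G2Rp2_6, G2Rp3_0, G2Rp3_1, G2Rp3_2, G2Rp3_6, G2Rp4_5,
  G2Rp4_6, G2Rp5_6, G2Rp7_0, G2Rp8_0, G2Rp8_7, G2Rp9_0, G2Rp9_7, G2Rp9_8]⟩) (.leaf ⟨7050921505,
  1290537710443090579392612,
  6806974253332588167453403524878735624109138210582638822050497275139848312260301422604, 99362,
  [G2Rp1_0, G2Rp1_2, G2Rp1_3, G2Rp1_6, G2Rp2_3, G2Rp4_2, G2Rp4_3, G2Rp4_5, G2Rp4_6, G2Rp5_2,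
  G2Rp5_3, G2Rp5_6, G2Rp7_0, G2Rp8_0, G2Rp8_7, G2Rp9_0, G2Rp9_7, G2Rp9_8]⟩)) (.node 699 (.leaf
  ⟨6866372745, 200946289936262163213590755,
  6799385587178500725527098287506718081638561722712345705487096032801224672245169782828, 107553,
  [G2Rp0_1, G2Rp0_2, G2Rp0_3, G2Rp0_5, G2Rp0_7, G2Rp0_8, G2Rp0_9, G2Rp1_2, G2Rp1_3, G2Rp1_5,
  G2Rp2_3, G2Rp2_5, G2Rp3_5, G2Rp4_5, G2Rp6_5, G2Rp6_7, G2Rp6_8, G2Rp6_9, G2Rp8_7, G2Rp9_7,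
  G2Rp9_8]⟩) (.leaf ⟨7051170180, 1290538156447070814479680,
  7763146188750809223554390223058814227943854445571609156475014199947646899991741202494, 107542,
  [G2Rp0_1, G2Rp0_2, G2Rp0_3, G2Rp0_4, G2Rp0_5, G2Rp0_6, G2Rp3_2, G2Rp4_5, G2Rp6_2, G2Rp6_3,
  G2Rp6_4, G2Rp6_5, G2Rp7_0, G2Rp7_1, G2Rp7_2, G2Rp7_3, G2Rp7_4, G2Rp7_5, G2Rp7_6, G2Rp8_0, G2Rp8_1,
  G2Rp8_2, G2Rp8_3, G2Rp8_4, G2Rp8_5, G2Rp8_6, G2Rp8_7, G2Rp9_0, G2Rp9_1, G2Rp9_2, G2Rp9_3, G2Rp9_4,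
  G2Rp9_5, G2Rp9_6, G2Rp9_7, G2Rp9_8]⟩))) (.node 702 (.node 701 (.leaf ⟨19617306756,
  278243018558743940657316928,
  3885426714359111554159611930859555285230597690693828971993729658440120274228143195070, 304149,
  [G2Rp0_7, G2Rp0_8, G2Rp0_9, G2Rp1_7, G2Rp1_8, G2Rp1_9, G2Rp3_2, G2Rp4_5, G2Rp6_2, G2Rp6_3,
  G2Rp6_4, G2Rp6_5, G2Rp6_7, G2Rp6_8, G2Rp6_9, G2Rp7_8, G2Rp7_9, G2Rp8_9]⟩) (.leaf ⟨6849843588,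
  121082738399189573288863040,
  7740380190288494810421310661399151672253228799117412910070620239451525073153973551166, 107541,
  [G2Rp0_2, G2Rp0_3, G2Rp0_4, G2Rp0_5, G2Rp0_6, G2Rp0_7, G2Rp0_8, G2Rp0_9, G2Rp3_2, G2Rp4_5,
  G2Rp6_2, G2Rp6_3, G2Rp6_4, G2Rp6_5, G2Rp7_2, G2Rp7_3, G2Rp7_4, G2Rp7_5, G2Rp7_6, G2Rp8_2, G2Rp8_3,
  G2Rp8_4, G2Rp8_5, G2Rp8_6, G2Rp8_7, G2Rp9_2, G2Rp9_3, G2Rp9_4, G2Rp9_5, G2Rp9_6, G2Rp9_7,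
  G2Rp9_8]⟩)) (.node 703 (.leaf ⟨6866622596, 240878658822099327410766912,
  6799385587178499485369551598577287526956492131146779677468136077532415705835605066686, 107541,
  [G2Rp0_7, G2Rp0_8, G2Rp0_9, G2Rp1_7, G2Rp1_8, G2Rp1_9, G2Rp3_2, G2Rp4_5, G2Rp6_2, G2Rp6_3,
  G2Rp6_4, G2Rp6_5, G2Rp6_7, G2Rp6_8, G2Rp6_9, G2Rp8_7, G2Rp9_7, G2Rp9_8]⟩) (.leaf ⟨7051186564,
  1290538156446624137880897,
  7732791524134357761455946200894136194015936174622310703462940094444107966829167116346, 107558,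
  [G2Rp0_1, G2Rp0_3, G2Rp0_4, G2Rp0_5, G2Rp0_6, G2Rp2_1, G2Rp2_3, G2Rp2_4, G2Rp2_5, G2Rp4_5,
  G2Rp6_3, G2Rp6_4, G2Rp6_5, G2Rp7_0, G2Rp7_1, G2Rp7_3, G2Rp7_4, G2Rp7_5, G2Rp7_6, G2Rp8_0, G2Rp8_1,
  G2Rp8_3, G2Rp8_4, G2Rp8_5, G2Rp8_6, G2Rp8_7, G2Rp9_0, G2Rp9_1, G2Rp9_3, G2Rp9_4, G2Rp9_5, G2Rp9_6,
  G2Rp9_7, G2Rp9_8]⟩))))))

def G2RT12 : Tr :=
  .node 730 (.node 717 (.node 710 (.node 707 (.node 705 (.leaf ⟨7055941913,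
  1290537858918772292715585,
  6806974253332588167453403524871456159217149643088192213829691666709193092762290356282, 100682,
  [G2Rp2_1, G2Rp2_3, G2Rp2_4, G2Rp2_5, G2Rp4_5, G2Rp6_3, G2Rp6_4, G2Rp6_5, G2Rp7_0, G2Rp8_0,
  G2Rp8_7, G2Rp9_0, G2Rp9_7, G2Rp9_8]⟩) (.node 706 (.leaf ⟨7055935001, 1290537970491712400887969,
  6806974253332588167453403524871456159217149643088181838822728543536150283637445099576, 100674,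
  [G2Rp1_0, G2Rp1_3, G2Rp1_4, G2Rp1_5, G2Rp1_6, G2Rp2_3, G2Rp2_4, G2Rp2_5, G2Rp4_5, G2Rp6_3,
  G2Rp6_4, G2Rp6_5, G2Rp7_0, G2Rp8_0, G2Rp8_7, G2Rp9_0, G2Rp9_7, G2Rp9_8]⟩) (.leaf ⟨7055970584,
  1290537858918949460116550,
  6822151585640813898502625535953795176181197982904624838496868275804688896885453094914, 100710,
  [G2Rp0_1, G2Rp2_1, G2Rp3_1, G2Rp3_2, G2Rp4_5, G2Rp6_1, G2Rp6_2, G2Rp6_3, G2Rp6_4, G2Rp6_5,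
  G2Rp7_0, G2Rp7_1, G2Rp8_0, G2Rp8_1, G2Rp8_7, G2Rp9_0, G2Rp9_1, G2Rp9_7, G2Rp9_8]⟩))) (.node 708
  (.leaf ⟨7056019736, 1290537970489658505692227,
  6822151585640813898502625535953795176180885786763985204482663121902545978760412135486, 100758,
  [G2Rp0_1, G2Rp2_3, G2Rp2_4, G2Rp2_5, G2Rp3_4, G2Rp3_5, G2Rp4_5, G2Rp6_1, G2Rp6_2, G2Rp6_3,
  G2Rp6_4, G2Rp6_5, G2Rp7_0, G2Rp7_1, G2Rp8_0, G2Rp8_1, G2Rp8_7, G2Rp9_0, G2Rp9_1, G2Rp9_7,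
  G2Rp9_8]⟩) (.node 709 (.leaf ⟨19889980945, 278244309944506335106374756,
  3885426714359114573719302106233802567686879281616643814255641041365334211647314591744, 297026,
  [G2Rp0_4, G2Rp0_5, G2Rp0_6, G2Rp0_7, G2Rp0_8, G2Rp0_9, G2Rp1_0, G2Rp1_4, G2Rp1_5, G2Rp1_6,
  G2Rp1_7, G2Rp1_8, G2Rp1_9, G2Rp2_3, G2Rp2_4, G2Rp2_5, G2Rp3_4, G2Rp3_5, G2Rp5_4, G2Rp6_4, G2Rp6_5,
  G2Rp7_8, G2Rp7_9, G2Rp8_9]⟩) (.leaf ⟨7055102226, 1290538084446239064074536,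
  7186407561038231443683953801931464032086577645917120824835531990072574335852974440496, 100374,
  [G2Rp0_1, G2Rp0_4, G2Rp0_5, G2Rp1_4, G2Rp1_5, G2Rp2_4, G2Rp2_5, G2Rp3_2, G2Rp3_4, G2Rp3_5,
  G2Rp5_4, G2Rp6_4, G2Rp6_5, G2Rp7_0, G2Rp7_1, G2Rp7_4, G2Rp7_5, G2Rp8_0, G2Rp8_1, G2Rp8_4, G2Rp8_5,
  G2Rp8_7, G2Rp9_0, G2Rp9_1, G2Rp9_4, G2Rp9_5, G2Rp9_7, G2Rp9_8]⟩)))) (.node 713 (.node 711 (.leaf
  ⟨19617056905, 278243018734527264783869188,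
  3885426714359112794336081922198179709397449427858804530819991076163715409066216914988, 304161,
  [G2Rp0_1, G2Rp0_2, G2Rp0_3, G2Rp0_5, G2Rp0_7, G2Rp0_8, G2Rp0_9, G2Rp1_2, G2Rp1_3, G2Rp1_5,
  G2Rp2_3, G2Rp2_5, G2Rp3_5, G2Rp4_5, G2Rp6_5, G2Rp6_7, G2Rp6_8, G2Rp6_9, G2Rp7_8, G2Rp7_9,
  G2Rp8_9]⟩) (.node 712 (.leaf ⟨7048070673, 1290537675358602249998436,
  6806974253332588167453403524872988607988714295626279853749983732171539866262452568064, 98626,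
  [G2Rp1_0, G2Rp1_6, G2Rp2_3, G2Rp5_4, G2Rp7_0, G2Rp8_0, G2Rp8_7, G2Rp9_0, G2Rp9_7, G2Rp9_8]⟩)
  (.leaf ⟨7047635224, 1290537682259274837787715,
  6806974253332588167453403524874137979644720529637826048543842413802580576008750759964, 98714,
  [G2Rp1_2, G2Rp1_3, G2Rp1_4, G2Rp2_3, G2Rp2_4, G2Rp3_4, G2Rp5_2, G2Rp5_3, G2Rp5_4, G2Rp6_2,
  G2Rp6_3, G2Rp6_4, G2Rp7_0, G2Rp8_0, G2Rp8_7, G2Rp9_0, G2Rp9_7, G2Rp9_8]⟩))) (.node 715 (.node 714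
  (.leaf ⟨7048824337, 1290537896107620478065665,
  6806974253332588167453403524871456159216971253460147206359487453210075753643715067964, 98850,
  [G2Rp1_0, G2Rp1_2, G2Rp1_3, G2Rp1_4, G2Rp1_5, G2Rp1_6, G2Rp2_3, G2Rp2_4, G2Rp2_5, G2Rp3_4,
  G2Rp3_5, G2Rp4_5, G2Rp7_0, G2Rp8_0, G2Rp8_7, G2Rp9_0, G2Rp9_7, G2Rp9_8]⟩) (.leaf ⟨7048037905,
  1290537675364271606829156,
  6806974253332588167453403524874137997182650969183266000893000835445093987935880740876, 98594,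
  [G2Rp1_0, G2Rp1_2, G2Rp1_3, G2Rp1_6, G2Rp2_3, G2Rp4_2, G2Rp4_3, G2Rp5_2, G2Rp5_3, G2Rp5_4,
  G2Rp7_0, G2Rp8_0, G2Rp8_7, G2Rp9_0, G2Rp9_7, G2Rp9_8]⟩)) (.node 716 (.leaf ⟨7048807954,
  1294193810195399220337762,
  6806974253332588167453403524871456159216971277620501598507082163083895924970044260467, 98834,
  [G2Rp1_0, G2Rp1_6, G2Rp2_0, G2Rp2_1, G2Rp2_4, G2Rp2_5, G2Rp2_6, G2Rp3_0, G2Rp3_1, G2Rp3_2,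
  G2Rp3_4, G2Rp3_5, G2Rp3_6, G2Rp4_5, G2Rp7_0, G2Rp8_0, G2Rp8_7, G2Rp9_0, G2Rp9_7, G2Rp9_8]⟩) (.leaf
  ⟨7048021522, 1297849503543161986001093,
  6806974253332588167453403524880555420182130754036793046417105950825235590994844450883, 98578,
  [G2Rp1_0, G2Rp1_6, G2Rp2_0, G2Rp2_1, G2Rp2_6, G2Rp3_0, G2Rp3_1, G2Rp3_2, G2Rp3_6, G2Rp4_0,
  G2Rp4_1, G2Rp4_2, G2Rp4_3, G2Rp4_6, G2Rp5_0, G2Rp5_1, G2Rp5_2, G2Rp5_3, G2Rp5_4, G2Rp5_6, G2Rp7_0,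
  G2Rp8_0, G2Rp8_7, G2Rp9_0, G2Rp9_7, G2Rp9_8]⟩))))) (.node 723 (.node 720 (.node 718 (.leaf
  ⟨7047611929, 1290537682253674027520162,
  6806974253332588167453403524872988607989071114355145221781555794888918277063745470480, 98690,
  [G2Rp1_0, G2Rp1_4, G2Rp1_6, G2Rp2_4, G2Rp3_2, G2Rp3_4, G2Rp5_4, G2Rp6_4, G2Rp7_0, G2Rp8_0,
  G2Rp8_7, G2Rp9_0, G2Rp9_7, G2Rp9_8]⟩) (.node 719 (.leaf ⟨7047586072, 1290537678774956849103942,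
  6806974253332588167453403524874137979644988134496695395627285894598870882634472095744, 98666,
  [G2Rp3_2, G2Rp5_2, G2Rp5_3, G2Rp5_4, G2Rp6_2, G2Rp6_3, G2Rp6_4, G2Rp7_0, G2Rp8_0, G2Rp8_7,
  G2Rp9_0, G2Rp9_7, G2Rp9_8]⟩) (.leaf ⟨7048044817, 1290537675364277148455012,
  6806974253332588167453403524874329562048307081442763685824400265986490355970669936654, 98602,
  [G2Rp2_3, G2Rp4_1, G2Rp4_2, G2Rp4_3, G2Rp5_1, G2Rp5_2, G2Rp5_3, G2Rp5_4, G2Rp7_0, G2Rp8_0,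
  G2Rp8_7, G2Rp9_0, G2Rp9_7, G2Rp9_8]⟩))) (.node 721 (.leaf ⟨6851531142,
  121082738289999341277160878,
  7679670861055591886224422617071711182900358339978609387465271202150103631267285434372, 108165,
  [G2Rp0_2, G2Rp0_4, G2Rp0_5, G2Rp0_6, G2Rp0_7, G2Rp0_8, G2Rp0_9, G2Rp1_2, G2Rp3_2, G2Rp4_2,
  G2Rp5_2, G2Rp5_4, G2Rp6_2, G2Rp6_4, G2Rp6_5, G2Rp7_2, G2Rp7_4, G2Rp7_5, G2Rp7_6, G2Rp8_2, G2Rp8_4,
  G2Rp8_5, G2Rp8_6, G2Rp8_7, G2Rp9_2, G2Rp9_4, G2Rp9_5, G2Rp9_6, G2Rp9_7, G2Rp9_8]⟩) (.node 722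
  (.leaf ⟨7052857734, 1290538047256838802777518,
  7702436859517906299357502178731373738590983986432805633869665162646225458105053085700, 108166,
  [G2Rp0_1, G2Rp0_2, G2Rp0_4, G2Rp0_5, G2Rp0_6, G2Rp1_2, G2Rp3_2, G2Rp4_2, G2Rp5_2, G2Rp5_4,
  G2Rp6_2, G2Rp6_4, G2Rp6_5, G2Rp7_0, G2Rp7_1, G2Rp7_2, G2Rp7_4, G2Rp7_5, G2Rp7_6, G2Rp8_0, G2Rp8_1,
  G2Rp8_2, G2Rp8_4, G2Rp8_5, G2Rp8_6, G2Rp8_7, G2Rp9_0, G2Rp9_1, G2Rp9_2, G2Rp9_4, G2Rp9_5, G2Rp9_6,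
  G2Rp9_7, G2Rp9_8]⟩) (.leaf ⟨7048831249, 1290537896107622798466049,
  6806974253332588167453403524871456159216971253460147196455888557549720238763244650558, 98858,
  [G2Rp2_3, G2Rp2_4, G2Rp2_5, G2Rp3_4, G2Rp3_5, G2Rp4_5, G2Rp7_0, G2Rp8_0, G2Rp8_7, G2Rp9_0,
  G2Rp9_7, G2Rp9_8]⟩)))) (.node 726 (.node 724 (.leaf ⟨7048929553, 1290537784536916974112772,
  6806974253332588167453403524871456159217283449600786830470093711451863156888285609986, 98954,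
  [G2Rp2_1, G2Rp3_1, G2Rp3_2, G2Rp4_5, G2Rp7_0, G2Rp8_0, G2Rp8_7, G2Rp9_0, G2Rp9_7, G2Rp9_8]⟩)
  (.node 725 (.leaf ⟨7048922641, 1290537784536911432486916,
  6806974253332588167453403524871456159217238847429814655938125788237806843576912183296, 98946,
  [G2Rp1_0, G2Rp1_6, G2Rp3_2, G2Rp4_5, G2Rp7_0, G2Rp8_0, G2Rp8_7, G2Rp9_0, G2Rp9_7, G2Rp9_8]⟩)
  (.leaf ⟨7048925458, 1290538119256055644960040,
  7277471554887585829979285868423965685098589379848792904371917889226228776673742684220, 98950,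
  [G2Rp0_1, G2Rp0_2, G2Rp0_3, G2Rp0_4, G2Rp0_5, G2Rp1_2, G2Rp1_3, G2Rp1_4, G2Rp1_5, G2Rp3_2,
  G2Rp4_5, G2Rp7_0, G2Rp7_1, G2Rp7_2, G2Rp7_3, G2Rp7_4, G2Rp7_5, G2Rp8_0, G2Rp8_1, G2Rp8_2, G2Rp8_3,
  G2Rp8_4, G2Rp8_5, G2Rp8_7, G2Rp9_0, G2Rp9_1, G2Rp9_2, G2Rp9_3, G2Rp9_4, G2Rp9_5, G2Rp9_7,
  G2Rp9_8]⟩))) (.node 728 (.node 727 (.leaf ⟨7048630564, 1290537926400307385047204,
  6822151585640813898502625535953795290179396163152187613203590778088135341195306991714, 98918,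
  [G2Rp0_1, G2Rp2_1, G2Rp2_5, G2Rp2_6, G2Rp3_1, G2Rp3_2, G2Rp3_5, G2Rp3_6, G2Rp4_1, G2Rp4_2,
  G2Rp4_3, G2Rp4_5, G2Rp4_6, G2Rp7_0, G2Rp7_1, G2Rp8_0, G2Rp8_1, G2Rp8_7, G2Rp9_0, G2Rp9_1, G2Rp9_7,
  G2Rp9_8]⟩) (.leaf ⟨7051039112, 1290538034490031335547971,
  7550663536435648988865282067906068010909761690156650540918890881231489160921270321166, 107670,
  [G2Rp0_1, G2Rp0_5, G2Rp0_6, G2Rp2_3, G2Rp4_1, G2Rp4_2, G2Rp4_3, G2Rp4_5, G2Rp6_5, G2Rp7_0,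
  G2Rp7_1, G2Rp7_5, G2Rp7_6, G2Rp8_0, G2Rp8_1, G2Rp8_5, G2Rp8_6, G2Rp8_7, G2Rp9_0, G2Rp9_1, G2Rp9_5,
  G2Rp9_6, G2Rp9_7, G2Rp9_8]⟩)) (.node 729 (.leaf ⟨6849712520, 121082738277232537031156803,
  7527897537973334575732202506246405455219136043702454294514496920735367334083502669838, 107669,
  [G2Rp0_5, G2Rp0_6, G2Rp0_7, G2Rp0_8, G2Rp0_9, G2Rp2_3, G2Rp4_1, G2Rp4_2, G2Rp4_3, G2Rp4_5,
  G2Rp6_5, G2Rp7_5, G2Rp7_6, G2Rp8_5, G2Rp8_6, G2Rp8_7, G2Rp9_5, G2Rp9_6, G2Rp9_7, G2Rp9_8]⟩) (.leaf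
  ⟨6847353112, 121082737953185605037852772,
  6799385587178499485369545974295473574548470263590161054213563707524801570931603275790, 98965,
  [G2Rp0_7, G2Rp0_8, G2Rp0_9, G2Rp2_3, G2Rp4_1, G2Rp4_2, G2Rp4_3, G2Rp4_5, G2Rp5_1, G2Rp5_2,
  G2Rp5_3, G2Rp6_1, G2Rp6_2, G2Rp6_3, G2Rp8_7, G2Rp9_7, G2Rp9_8]⟩)))))) (.node 743 (.node 736 (.node
  733 (.node 731 (.leaf ⟨7052828964, 1290537675360938887486661,
  6806974253332588167453403524880268072883646584626683832136338423785053006566688555072, 99946,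
  [G2Rp1_6, G2Rp2_6, G2Rp3_2, G2Rp3_6, G2Rp4_2, G2Rp4_3, G2Rp4_6, G2Rp5_2, G2Rp5_3, G2Rp5_4,
  G2Rp5_6, G2Rp7_0, G2Rp8_0, G2Rp8_7, G2Rp9_0, G2Rp9_7, G2Rp9_8]⟩) (.node 732 (.leaf ⟨6849700425,
  480484684723727618734790820,
  6799385587178499485369545974294134045475743276198931653894016144408715960678086673379, 103561,
  [G2Rp0_7, G2Rp0_8, G2Rp0_9, G2Rp1_0, G2Rp1_7, G2Rp1_8, G2Rp1_9, G2Rp2_0, G2Rp2_1, G2Rp2_5,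
  G2Rp2_6, G2Rp2_7, G2Rp2_8, G2Rp2_9, G2Rp3_0, G2Rp3_1, G2Rp3_2, G2Rp3_5, G2Rp3_6, G2Rp3_7, G2Rp3_8,
  G2Rp3_9, G2Rp4_0, G2Rp4_1, G2Rp4_2, G2Rp4_3, G2Rp4_5, G2Rp4_6, G2Rp4_7, G2Rp4_8, G2Rp4_9, G2Rp6_0,
  G2Rp6_7, G2Rp6_8, G2Rp6_9, G2Rp8_7, G2Rp9_7, G2Rp9_8]⟩) (.leaf ⟨6849700129,
  480484684507663794580850791,
  6799385587178499485369545974387520492495117474298478801130888828848025474885330338691, 99465,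
  [G2Rp0_7, G2Rp0_8, G2Rp0_9, G2Rp1_0, G2Rp1_7, G2Rp1_8, G2Rp1_9, G2Rp2_0, G2Rp2_1, G2Rp2_7,
  G2Rp2_8, G2Rp2_9, G2Rp3_0, G2Rp3_1, G2Rp3_2, G2Rp3_7, G2Rp3_8, G2Rp3_9, G2Rp4_0, G2Rp4_1, G2Rp4_2,
  G2Rp4_3, G2Rp4_5, G2Rp4_6, G2Rp4_7, G2Rp4_8, G2Rp4_9, G2Rp5_0, G2Rp5_1, G2Rp5_2, G2Rp5_3, G2Rp5_6,
  G2Rp5_7, G2Rp5_8, G2Rp5_9, G2Rp8_7, G2Rp9_7, G2Rp9_8]⟩))) (.node 734 (.leaf ⟨7052878116,
  1290537675431238911105185,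
  6806974253332588167453403524879118683689709909708609757585911645621372801381876891724, 99994,
  [G2Rp1_2, G2Rp1_3, G2Rp1_6, G2Rp2_3, G2Rp2_6, G2Rp3_6, G2Rp4_6, G2Rp5_4, G2Rp5_6, G2Rp7_0,
  G2Rp8_0, G2Rp8_7, G2Rp9_0, G2Rp9_7, G2Rp9_8]⟩) (.node 735 (.leaf ⟨7050912328,
  1294193732402852557622339,
  6806974253332588167453403524871456260061766186822645354039216671328859820611162406916, 103450,
  [G2Rp1_2, G2Rp3_0, G2Rp3_2, G2Rp3_5, G2Rp3_6, G2Rp4_0, G2Rp4_2, G2Rp4_5, G2Rp4_6, G2Rp6_0,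
  G2Rp7_0, G2Rp8_0, G2Rp8_7, G2Rp9_0, G2Rp9_7, G2Rp9_8]⟩) (.leaf ⟨6849601825,
  360684035656242141431171172,
  6799385587178499485369545974387520492474801188143013737340562750657351634437352129423, 99369,
  [G2Rp0_7, G2Rp0_8, G2Rp0_9, G2Rp1_0, G2Rp1_7, G2Rp1_8, G2Rp1_9, G2Rp2_3, G2Rp4_0, G2Rp4_1,
  G2Rp4_2, G2Rp4_3, G2Rp4_5, G2Rp4_6, G2Rp4_7, G2Rp4_8, G2Rp4_9, G2Rp5_0, G2Rp5_1, G2Rp5_2, G2Rp5_3,
  G2Rp5_6, G2Rp5_7, G2Rp5_8, G2Rp5_9, G2Rp8_7, G2Rp9_7, G2Rp9_8]⟩)))) (.node 739 (.node 737 (.leaf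
  ⟨6849585736, 360684035764110789448961091,
  6799385587178499485369545974294134030860503894752186096726546029703079572166767083524, 103449,
  [G2Rp0_7, G2Rp0_8, G2Rp0_9, G2Rp1_0, G2Rp1_2, G2Rp1_7, G2Rp1_8, G2Rp1_9, G2Rp3_0, G2Rp3_2,
  G2Rp3_5, G2Rp3_6, G2Rp3_7, G2Rp3_8, G2Rp3_9, G2Rp4_0, G2Rp4_2, G2Rp4_5, G2Rp4_6, G2Rp4_7, G2Rp4_8,
  G2Rp4_9, G2Rp6_0, G2Rp6_7, G2Rp6_8, G2Rp6_9, G2Rp8_7, G2Rp9_7, G2Rp9_8]⟩) (.node 738 (.leaf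
  ⟨6849929508, 161016287756022886073375842,
  6799385587178499485369545974300262696191255755753206870292865002850192825869652721776, 99433,
  [G2Rp0_7, G2Rp0_8, G2Rp0_9, G2Rp1_0, G2Rp1_4, G2Rp1_5, G2Rp1_6, G2Rp1_7, G2Rp1_8, G2Rp1_9,
  G2Rp2_4, G2Rp2_5, G2Rp2_6, G2Rp3_2, G2Rp3_4, G2Rp3_5, G2Rp3_6, G2Rp4_5, G2Rp4_6, G2Rp5_6, G2Rp8_7,
  G2Rp9_7, G2Rp9_8]⟩) (.leaf ⟨6849716808, 360684035764116287007099971,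
  6799385587178499485369545974294134042552695060099519406174202482930184251552354336780, 103577,
  [G2Rp0_7, G2Rp0_8, G2Rp0_9, G2Rp1_0, G2Rp1_2, G2Rp1_3, G2Rp1_7, G2Rp1_8, G2Rp1_9, G2Rp2_3,
  G2Rp4_0, G2Rp4_2, G2Rp4_3, G2Rp4_5, G2Rp4_6, G2Rp4_7, G2Rp4_8, G2Rp4_9, G2Rp6_0, G2Rp6_7, G2Rp6_8,
  G2Rp6_9, G2Rp8_7, G2Rp9_7, G2Rp9_8]⟩))) (.node 741 (.node 740 (.leaf ⟨6854615625,
  480484684656246085791225921,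
  6799385587178499485369545974386179538438200470631464384699139124856432595074264138747, 104777,
  [G2Rp0_7, G2Rp0_8, G2Rp0_9, G2Rp1_0, G2Rp1_7, G2Rp1_8, G2Rp1_9, G2Rp2_0, G2Rp2_1, G2Rp2_3,
  G2Rp2_4, G2Rp2_5, G2Rp2_6, G2Rp2_7, G2Rp2_8, G2Rp2_9, G2Rp4_0, G2Rp4_5, G2Rp4_6, G2Rp4_7, G2Rp4_8,
  G2Rp4_9, G2Rp5_0, G2Rp5_6, G2Rp5_7, G2Rp5_8, G2Rp5_9, G2Rp6_0, G2Rp6_7, G2Rp6_8, G2Rp6_9, G2Rp8_7,
  G2Rp9_7, G2Rp9_8]⟩) (.leaf ⟨7051174180, 1290537858918941945206849,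
  6806974253332588167453403524877586234918234439733740773637997611748127155788210503804, 99354,
  [G2Rp1_2, G2Rp1_3, G2Rp1_4, G2Rp1_5, G2Rp1_6, G2Rp3_2, G2Rp4_5, G2Rp4_6, G2Rp5_6, G2Rp7_0,
  G2Rp8_0, G2Rp8_7, G2Rp9_0, G2Rp9_7, G2Rp9_8]⟩)) (.node 742 (.leaf ⟨6849863972,
  161016287718837368461170753,
  6799385587178499485369545974300262696191434122242082091457829105580062495395573923960, 99369,
  [G2Rp0_7, G2Rp0_8, G2Rp0_9, G2Rp1_0, G2Rp1_3, G2Rp1_4, G2Rp1_5, G2Rp1_6, G2Rp1_7, G2Rp1_8,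
  G2Rp1_9, G2Rp2_3, G2Rp2_4, G2Rp2_5, G2Rp2_6, G2Rp4_5, G2Rp4_6, G2Rp5_6, G2Rp8_7, G2Rp9_7,
  G2Rp9_8]⟩) (.leaf ⟨6854120004, 280816936391378377515271266,
  6799385587178499485369545974387902144628225687547805107118560557759548944075612749842, 104549,
  [G2Rp0_7, G2Rp0_8, G2Rp0_9, G2Rp2_1, G2Rp2_4, G2Rp3_1, G2Rp3_2, G2Rp3_4, G2Rp5_0, G2Rp5_1,
  G2Rp5_4, G2Rp5_6, G2Rp5_7, G2Rp5_8, G2Rp5_9, G2Rp6_0, G2Rp6_1, G2Rp6_7, G2Rp6_8, G2Rp6_9, G2Rp8_7,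
  G2Rp9_7, G2Rp9_8]⟩))))) (.node 749 (.node 746 (.node 744 (.leaf ⟨7055446596,
  1291756317961883699184738,
  6822151585640813898502625535961744950030361557933933920002537187444486484599916986386, 104550,
  [G2Rp0_1, G2Rp2_1, G2Rp2_4, G2Rp3_1, G2Rp3_2, G2Rp3_4, G2Rp5_0, G2Rp5_1, G2Rp5_4, G2Rp5_6,
  G2Rp6_0, G2Rp6_1, G2Rp7_0, G2Rp7_1, G2Rp8_0, G2Rp8_1, G2Rp8_7, G2Rp9_0, G2Rp9_1, G2Rp9_7,
  G2Rp9_8]⟩) (.node 745 (.leaf ⟨6854124100, 280816936391378372146562146,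
  6799385587178499485369545974387710582685617450759935267639882730164397268370459721744, 104553,
  [G2Rp0_7, G2Rp0_8, G2Rp0_9, G2Rp1_0, G2Rp1_4, G2Rp1_7, G2Rp1_8, G2Rp1_9, G2Rp2_4, G2Rp3_2,
  G2Rp3_4, G2Rp5_0, G2Rp5_4, G2Rp5_6, G2Rp5_7, G2Rp5_8, G2Rp5_9, G2Rp6_0, G2Rp6_7, G2Rp6_8, G2Rp6_9,
  G2Rp8_7, G2Rp9_7, G2Rp9_8]⟩) (.leaf ⟨7055381060, 1291756316805163107025985,
  6822151585640813898502625535962511197800972900838530804615466710209263921559150002202, 104486,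
  [G2Rp0_1, G2Rp2_1, G2Rp2_3, G2Rp2_4, G2Rp5_0, G2Rp5_1, G2Rp5_3, G2Rp5_4, G2Rp5_6, G2Rp6_0,
  G2Rp6_1, G2Rp7_0, G2Rp7_1, G2Rp8_0, G2Rp8_1, G2Rp8_7, G2Rp9_0, G2Rp9_1, G2Rp9_7, G2Rp9_8]⟩)))
  (.node 747 (.leaf ⟨7047631140, 1290537898323109737600128,
  6822151585640813898502625535955327624955126550504559918811964960758740960193568309374, 98710,
  [G2Rp0_1, G2Rp2_3, G2Rp2_4, G2Rp2_5, G2Rp2_6, G2Rp3_4, G2Rp3_5, G2Rp3_6, G2Rp5_4, G2Rp7_0,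
  G2Rp7_1, G2Rp8_0, G2Rp8_1, G2Rp8_7, G2Rp9_0, G2Rp9_1, G2Rp9_7, G2Rp9_8]⟩) (.node 748 (.leaf
  ⟨7047586084, 1290537898216483953251459,
  6806974253332588167453403524872988607991479627504192216445328601855280448482678145136, 98666,
  [G2Rp1_4, G2Rp1_5, G2Rp1_6, G2Rp2_4, G2Rp2_5, G2Rp2_6, G2Rp3_2, G2Rp3_4, G2Rp3_5, G2Rp3_6,
  G2Rp5_4, G2Rp7_0, G2Rp8_0, G2Rp8_7, G2Rp9_0, G2Rp9_7, G2Rp9_8]⟩) (.leaf ⟨19734745476,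
  78581474566625874230320384,
  4826421317469082722730152829728882953928564549886892774971349508603581580615266074686, 304149,
  [G2Rp0_2, G2Rp0_3, G2Rp0_4, G2Rp0_5, G2Rp0_6, G2Rp3_2, G2Rp4_5, G2Rp6_2, G2Rp6_3, G2Rp6_4,
  G2Rp6_5, G2Rp7_2, G2Rp7_3, G2Rp7_4, G2Rp7_5, G2Rp7_6, G2Rp7_8, G2Rp7_9, G2Rp8_2, G2Rp8_3, G2Rp8_4,
  G2Rp8_5, G2Rp8_6, G2Rp8_9, G2Rp9_2, G2Rp9_3, G2Rp9_4, G2Rp9_5, G2Rp9_6]⟩)))) (.node 752 (.node 750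
  (.leaf ⟨4719138948, 240576427367195670117090368,
  5828036321035147668260775248614225001931616989882572725213913741242589929919624250174, 74773,
  [G2Rp0_8, G2Rp0_9, G2Rp1_8, G2Rp1_9, G2Rp3_2, G2Rp4_5, G2Rp6_2, G2Rp6_3, G2Rp6_4, G2Rp6_5,
  G2Rp6_8, G2Rp6_9, G2Rp7_8, G2Rp7_9, G2Rp9_8]⟩) (.node 751 (.leaf ⟨19732500754,
  78581474380670798383815778,
  3885426714359087397678388142623863902165863485048936282065088802847091686578046369852, 295557,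
  [G2Rp1_2, G2Rp1_3, G2Rp1_4, G2Rp1_5, G2Rp3_2, G2Rp4_5, G2Rp7_8, G2Rp7_9, G2Rp8_9]⟩) (.leaf
  ⟨19734595873, 78580293603276602987350120,
  3900604046667313128727610153713673948887556502578169377072078448717427814073199493120, 296065,
  [G2Rp0_1, G2Rp3_2, G2Rp4_1, G2Rp4_2, G2Rp4_3, G2Rp4_5, G2Rp4_6, G2Rp5_1, G2Rp5_2, G2Rp5_3,
  G2Rp5_6, G2Rp6_1, G2Rp7_1, G2Rp7_8, G2Rp7_9, G2Rp8_1, G2Rp8_9, G2Rp9_1]⟩))) (.node 754 (.node 753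
  (.leaf ⟨6854091025, 360684035806931137730711652,
  6799385587178499485369545974295665069283122310431248760658906255451385787849282618243, 100425,
  [G2Rp0_7, G2Rp0_8, G2Rp0_9, G2Rp1_0, G2Rp1_7, G2Rp1_8, G2Rp1_9, G2Rp2_0, G2Rp2_1, G2Rp2_3,
  G2Rp2_4, G2Rp2_5, G2Rp2_7, G2Rp2_8, G2Rp2_9, G2Rp3_0, G2Rp3_1, G2Rp3_4, G2Rp3_5, G2Rp3_7, G2Rp3_8,
  G2Rp3_9, G2Rp5_4, G2Rp6_4, G2Rp6_5, G2Rp8_7, G2Rp9_7, G2Rp9_8]⟩) (.leaf ⟨6849896737,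
  480484684619052912409253063,
  6799385587178499485369545974386371103303678520954846787814839909552061282962033017731, 99401,
  [G2Rp0_7, G2Rp0_8, G2Rp0_9, G2Rp1_0, G2Rp1_7, G2Rp1_8, G2Rp1_9, G2Rp2_0, G2Rp2_1, G2Rp2_3,
  G2Rp2_4, G2Rp2_5, G2Rp2_6, G2Rp2_7, G2Rp2_8, G2Rp2_9, G2Rp3_0, G2Rp3_1, G2Rp3_4, G2Rp3_5, G2Rp3_6,
  G2Rp3_7, G2Rp3_8, G2Rp3_9, G2Rp4_0, G2Rp4_1, G2Rp4_5, G2Rp4_6, G2Rp4_7, G2Rp4_8, G2Rp4_9, G2Rp5_0,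
  G2Rp5_1, G2Rp5_6, G2Rp5_7, G2Rp5_8, G2Rp5_9, G2Rp8_7, G2Rp9_7, G2Rp9_8]⟩)) (.node 755 (.leaf
  ⟨19739546180, 78588748013679308948245635,
  3885426714359087397678388142630281325165343246422684045320479117901035133247464407042, 301413,
  [G2Rp2_1, G2Rp3_1, G2Rp3_2, G2Rp4_0, G2Rp4_1, G2Rp4_5, G2Rp4_6, G2Rp5_0, G2Rp5_1, G2Rp5_6,
  G2Rp6_0, G2Rp6_1, G2Rp7_8, G2Rp7_9, G2Rp8_9]⟩) (.leaf ⟨19731652881, 78588747941692012792647780,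
  3885426714359087397678388142625683698235823102655510689403870988187017615657679388675, 295241,
  [G2Rp1_0, G2Rp2_0, G2Rp2_1, G2Rp2_3, G2Rp3_0, G2Rp3_1, G2Rp4_0, G2Rp4_1, G2Rp5_0, G2Rp5_1,
  G2Rp5_4, G2Rp7_8, G2Rp7_9, G2Rp8_9]⟩))))))

/-- The table of G2R. -/
def G2RT : Tr :=
  (.node 384 (.node 192 (.node 64 G2RT1 (.node 128 G2RT2 G2RT3)) (.node 256 G2RT4 (.node 320 G2RT5
  G2RT6))) (.node 576 (.node 448 G2RT7 (.node 512 G2RT8 G2RT9)) (.node 640 G2RT10 (.node 704 G2RT11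
  G2RT12))))

theorem G2RT1_ok : G2RT1.all (qEntry (G2R).t G2Rie G2Rte) = true := by
  decide +kernel

theorem G2RT2_ok : G2RT2.all (qEntry (G2R).t G2Rie G2Rte) = true := by
  decide +kernel

theorem G2RT3_ok : G2RT3.all (qEntry (G2R).t G2Rie G2Rte) = true := by
  decide +kernel

theorem G2RT4_ok : G2RT4.all (qEntry (G2R).t G2Rie G2Rte) = true := by
  decide +kernel

theorem G2RT5_ok : G2RT5.all (qEntry (G2R).t G2Rie G2Rte) = true := by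
  decide +kernel

theorem G2RT6_ok : G2RT6.all (qEntry (G2R).t G2Rie G2Rte) = true := by
  decide +kernel

theorem G2RT7_ok : G2RT7.all (qEntry (G2R).t G2Rie G2Rte) = true := by
  decide +kernel

theorem G2RT8_ok : G2RT8.all (qEntry (G2R).t G2Rie G2Rte) = true := by
  decide +kernel

theorem G2RT9_ok : G2RT9.all (qEntry (G2R).t G2Rie G2Rte) = true := by
  decide +kernel

theorem G2RT10_ok : G2RT10.all (qEntry (G2R).t G2Rie G2Rte) = true := by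
  decide +kernel

theorem G2RT11_ok : G2RT11.all (qEntry (G2R).t G2Rie G2Rte) = true := by
  decide +kernel

theorem G2RT12_ok : G2RT12.all (qEntry (G2R).t G2Rie G2Rte) = true := by
  decide +kernel

theorem G2RT_ok : G2RT.all (qEntry (G2R).t G2Rie G2Rte) = true :=
  (Tr.all_node (Tr.all_node (Tr.all_node G2RT1_ok (Tr.all_node G2RT2_ok G2RT3_ok)) (Tr.all_node
  G2RT4_ok (Tr.all_node G2RT5_ok G2RT6_ok))) (Tr.all_node (Tr.all_node G2RT7_ok (Tr.all_node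
  G2RT8_ok G2RT9_ok)) (Tr.all_node G2RT10_ok (Tr.all_node G2RT11_ok G2RT12_ok))))

end Pool.Agent.T1Red
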