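import Pool.Agent.Work.MP_392c8e_co_uni.Quick
import Pool.Agent.Work.MP_392c8e_co_uni.Inst.G2Def

/-!
# The table of the reducer G2
-/

namespace Pool.Agent.T1Red

/-- The edges between interior vertices. -/
def G2ie : List (Nat × Nat) :=
  [(9, 10), (9, 15), (9, 16), (10, 11), (10, 18), (11, 12), (11, 20), (12, 13), (13, 14), (13, 21),
  (14, 15), (14, 23), (16, 17), (17, 18), (18, 19), (19, 20), (21, 22), (22, 23)]

/-- The packed matrix of the pairs with different values. -/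
def G2ne : Nat := 44238036927717785166111602773190164611072

/-- The edges with a label. -/
def G2te : List (Nat × Nat) :=
  [(15, 0), (16, 1), (17, 2), (19, 3), (20, 4), (12, 5), (21, 6), (22, 7), (23, 8)]

def G2p0_1 : Nat × Nat × Nat × Nat := (3, 1, 0, 1)
def G2p0_2 : Nat × Nat × Nat × Nat := (5, 1, 0, 2)
def G2p0_3 : Nat × Nat × Nat × Nat := (9, 1, 0, 3)
def G2p0_4 : Nat × Nat × Nat × Nat := (17, 1, 0, 4)
def G2p0_5 : Nat × Nat × Nat × Nat := (33, 1, 0, 5)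
def G2p0_6 : Nat × Nat × Nat × Nat := (65, 1, 0, 6)
def G2p0_7 : Nat × Nat × Nat × Nat := (129, 1, 0, 7)
def G2p0_8 : Nat × Nat × Nat × Nat := (257, 1, 0, 8)
def G2p1_0 : Nat × Nat × Nat × Nat := (3, 2, 1, 0)
def G2p1_2 : Nat × Nat × Nat × Nat := (6, 2, 1, 2)
def G2p1_3 : Nat × Nat × Nat × Nat := (10, 2, 1, 3)
def G2p1_4 : Nat × Nat × Nat × Nat := (18, 2, 1, 4)
def G2p1_5 : Nat × Nat × Nat × Nat := (34, 2, 1, 5)
def G2p1_6 : Nat × Nat × Nat × Nat := (66, 2, 1, 6)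
def G2p1_7 : Nat × Nat × Nat × Nat := (130, 2, 1, 7)
def G2p1_8 : Nat × Nat × Nat × Nat := (258, 2, 1, 8)
def G2p2_0 : Nat × Nat × Nat × Nat := (5, 4, 2, 0)
def G2p2_1 : Nat × Nat × Nat × Nat := (6, 4, 2, 1)
def G2p2_3 : Nat × Nat × Nat × Nat := (12, 4, 2, 3)
def G2p2_4 : Nat × Nat × Nat × Nat := (20, 4, 2, 4)
def G2p2_5 : Nat × Nat × Nat × Nat := (36, 4, 2, 5)
def G2p2_6 : Nat × Nat × Nat × Nat := (68, 4, 2, 6)
def G2p2_7 : Nat × Nat × Nat × Nat := (132, 4, 2, 7)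
def G2p2_8 : Nat × Nat × Nat × Nat := (260, 4, 2, 8)
def G2p3_0 : Nat × Nat × Nat × Nat := (9, 8, 3, 0)
def G2p3_1 : Nat × Nat × Nat × Nat := (10, 8, 3, 1)
def G2p3_2 : Nat × Nat × Nat × Nat := (12, 8, 3, 2)
def G2p3_4 : Nat × Nat × Nat × Nat := (24, 8, 3, 4)
def G2p3_5 : Nat × Nat × Nat × Nat := (40, 8, 3, 5)
def G2p3_6 : Nat × Nat × Nat × Nat := (72, 8, 3, 6)
def G2p3_7 : Nat × Nat × Nat × Nat := (136, 8, 3, 7)
def G2p3_8 : Nat × Nat × Nat × Nat := (264, 8, 3, 8)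
def G2p4_0 : Nat × Nat × Nat × Nat := (17, 16, 4, 0)
def G2p4_1 : Nat × Nat × Nat × Nat := (18, 16, 4, 1)
def G2p4_2 : Nat × Nat × Nat × Nat := (20, 16, 4, 2)
def G2p4_3 : Nat × Nat × Nat × Nat := (24, 16, 4, 3)
def G2p4_5 : Nat × Nat × Nat × Nat := (48, 16, 4, 5)
def G2p4_6 : Nat × Nat × Nat × Nat := (80, 16, 4, 6)
def G2p4_7 : Nat × Nat × Nat × Nat := (144, 16, 4, 7)
def G2p4_8 : Nat × Nat × Nat × Nat := (272, 16, 4, 8)
def G2p5_0 : Nat × Nat × Nat × Nat := (33, 32, 5, 0)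
def G2p5_1 : Nat × Nat × Nat × Nat := (34, 32, 5, 1)
def G2p5_2 : Nat × Nat × Nat × Nat := (36, 32, 5, 2)
def G2p5_3 : Nat × Nat × Nat × Nat := (40, 32, 5, 3)
def G2p5_4 : Nat × Nat × Nat × Nat := (48, 32, 5, 4)
def G2p5_6 : Nat × Nat × Nat × Nat := (96, 32, 5, 6)
def G2p5_7 : Nat × Nat × Nat × Nat := (160, 32, 5, 7)
def G2p5_8 : Nat × Nat × Nat × Nat := (288, 32, 5, 8)
def G2p6_0 : Nat × Nat × Nat × Nat := (65, 64, 6, 0)
def G2p6_1 : Nat × Nat × Nat × Nat := (66, 64, 6, 1)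
def G2p6_2 : Nat × Nat × Nat × Nat := (68, 64, 6, 2)
def G2p6_3 : Nat × Nat × Nat × Nat := (72, 64, 6, 3)
def G2p6_4 : Nat × Nat × Nat × Nat := (80, 64, 6, 4)
def G2p6_5 : Nat × Nat × Nat × Nat := (96, 64, 6, 5)
def G2p6_7 : Nat × Nat × Nat × Nat := (192, 64, 6, 7)
def G2p6_8 : Nat × Nat × Nat × Nat := (320, 64, 6, 8)
def G2p7_0 : Nat × Nat × Nat × Nat := (129, 128, 7, 0)
def G2p7_1 : Nat × Nat × Nat × Nat := (130, 128, 7, 1)
def G2p7_2 : Nat × Nat × Nat × Nat := (132, 128, 7, 2)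
def G2p7_3 : Nat × Nat × Nat × Nat := (136, 128, 7, 3)
def G2p7_4 : Nat × Nat × Nat × Nat := (144, 128, 7, 4)
def G2p7_5 : Nat × Nat × Nat × Nat := (160, 128, 7, 5)
def G2p7_6 : Nat × Nat × Nat × Nat := (192, 128, 7, 6)
def G2p7_8 : Nat × Nat × Nat × Nat := (384, 128, 7, 8)
def G2p8_0 : Nat × Nat × Nat × Nat := (257, 256, 8, 0)
def G2p8_1 : Nat × Nat × Nat × Nat := (258, 256, 8, 1)
def G2p8_2 : Nat × Nat × Nat × Nat := (260, 256, 8, 2)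
def G2p8_3 : Nat × Nat × Nat × Nat := (264, 256, 8, 3)
def G2p8_4 : Nat × Nat × Nat × Nat := (272, 256, 8, 4)
def G2p8_5 : Nat × Nat × Nat × Nat := (288, 256, 8, 5)
def G2p8_6 : Nat × Nat × Nat × Nat := (320, 256, 8, 6)
def G2p8_7 : Nat × Nat × Nat × Nat := (384, 256, 8, 7)

def G2T1 : Tr :=
  .node 32 (.node 16 (.node 8 (.node 4 (.node 2 (.node 1 (.leaf ⟨612770065, 2398152311326107501575,
  6901904318040211169900068829844209614626820609203398823003873500659713, 148002, [G2p1_0, G2p2_0,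
  G2p2_1, G2p3_0, G2p3_1, G2p3_2, G2p4_0, G2p4_1, G2p4_2, G2p4_3, G2p5_0, G2p5_1, G2p5_2, G2p5_3,
  G2p5_4, G2p6_7, G2p6_8, G2p7_8]⟩) (.leaf ⟨411443473, 12225655216594874270727,
  12078135091504018436727533844016849121985415498581683243325649630200257, 98850, [G2p0_6, G2p0_7,
  G2p0_8, G2p1_0, G2p1_6, G2p1_7, G2p1_8, G2p2_0, G2p2_1, G2p2_6, G2p2_7, G2p2_8, G2p3_0, G2p3_1,
  G2p3_2, G2p3_6, G2p3_7, G2p3_8, G2p4_0, G2p4_1, G2p4_2, G2p4_3, G2p4_6, G2p4_7, G2p4_8, G2p5_0,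
  G2p5_1, G2p5_2, G2p5_3, G2p5_4, G2p5_6, G2p5_7, G2p5_8, G2p7_6, G2p8_6, G2p8_7]⟩)) (.node 3 (.leaf
  ⟨612782360, 2398152314657720763558,
  6928864676089778241731633064436339842537419427149026740708229838733319, 148005, [G2p1_2, G2p3_0,
  G2p3_1, G2p3_2, G2p4_0, G2p4_1, G2p4_2, G2p4_3, G2p5_0, G2p5_1, G2p5_2, G2p5_3, G2p5_4, G2p6_0,
  G2p6_7, G2p6_8, G2p7_0, G2p7_8, G2p8_0]⟩) (.leaf ⟨411455768, 1257912946601448440998,
  12078135091503975526197626874717251981105297566248119605605829806850055, 98853, [G2p1_2, G2p3_0,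
  G2p3_1, G2p3_2, G2p4_0, G2p4_1, G2p4_2, G2p4_3, G2p5_0, G2p5_1, G2p5_2, G2p5_3, G2p5_4, G2p7_6,
  G2p8_6, G2p8_7]⟩))) (.node 6 (.node 5 (.leaf ⟨612671761, 2398152308982995223553,
  6901904318040210499423039033450280541184336206578181859928224256950279, 147978, [G2p1_2, G2p4_3,
  G2p5_3, G2p5_4, G2p6_7, G2p6_8, G2p7_8]⟩) (.leaf ⟨411345169, 4913827032035138470913,
  12078135091503974855720597078324343739222179619006274484388265426092487, 98826, [G2p0_6, G2p0_7,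
  G2p0_8, G2p1_2, G2p4_3, G2p5_3, G2p5_4, G2p7_6, G2p8_6, G2p8_7]⟩)) (.node 7 (.leaf ⟨612651288,
  2398152305861627741350, 6928864676089777858601901752212841673486930715349072221925772439519235,
  147973, [G2p2_0, G2p2_1, G2p3_0, G2p3_1, G2p4_0, G2p4_1, G2p4_3, G2p5_0, G2p5_1, G2p5_3, G2p5_4,
  G2p6_0, G2p6_7, G2p6_8, G2p7_0, G2p7_8, G2p8_0]⟩) (.leaf ⟨411324696, 1257912937805355418790,
  12078135091503975143067895562493753812054808854448165086823372407635971, 98821, [G2p2_0, G2p2_1,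
  G2p3_0, G2p3_1, G2p4_0, G2p4_1, G2p4_3, G2p5_0, G2p5_1, G2p5_3, G2p5_4, G2p7_6, G2p8_6,
  G2p8_7]⟩)))) (.node 12 (.node 10 (.node 9 (.leaf ⟨613490969, 2398261487120379020353,
  6901904318040209733198653251124011497366951015117852927415605570306077, 148050, [G2p1_0, G2p1_2,
  G2p1_3, G2p1_4, G2p3_4, G2p5_2, G2p5_3, G2p5_4, G2p6_7, G2p6_8, G2p7_8]⟩) (.leaf ⟨412164377,
  4913936210172522267713, 12078135091503974089496211295998077021553787051148723133538002200691165,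
  98898, [G2p0_6, G2p0_7, G2p0_8, G2p1_0, G2p1_2, G2p1_3, G2p1_4, G2p1_6, G2p1_7, G2p1_8, G2p3_4,
  G2p5_2, G2p5_3, G2p5_4, G2p7_6, G2p8_6, G2p8_7]⟩)) (.node 11 (.leaf ⟨613568792,
  2398373058003370771523, 6928864676089776805030217396522348534292735171294808355649626126090271,
  148069, [G2p1_2, G2p1_3, G2p1_4, G2p2_3, G2p2_4, G2p3_4, G2p5_0, G2p5_1, G2p5_2, G2p5_3, G2p5_4,
  G2p6_0, G2p6_7, G2p6_8, G2p7_0, G2p7_8, G2p8_0]⟩) (.leaf ⟨412242200, 1258133689947098448963,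
  12078135091503974089496211206803260672860613310393901220547226094207007, 98917, [G2p1_2, G2p1_3,
  G2p1_4, G2p2_3, G2p2_4, G2p3_4, G2p5_0, G2p5_1, G2p5_2, G2p5_3, G2p5_4, G2p7_6, G2p8_6,
  G2p8_7]⟩))) (.node 14 (.node 13 (.leaf ⟨403775769, 4913756066187427447873,
  12078135091503975238844482562405503084056078455428415895912455206601165, 98386, [G2p0_6, G2p0_7,
  G2p0_8, G2p1_0, G2p1_2, G2p1_3, G2p1_6, G2p1_7, G2p1_8, G2p4_2, G2p4_3, G2p5_2, G2p5_3, G2p7_6,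
  G2p8_6, G2p8_7]⟩) (.leaf ⟨605102361, 2398081343135284200513,
  6901904318040210882546924517531437559869242419397545689790058576216077, 147538, [G2p1_0, G2p1_2,
  G2p1_3, G2p4_2, G2p4_3, G2p5_2, G2p5_3, G2p6_7, G2p6_8, G2p7_8]⟩)) (.node 15 (.leaf ⟨605622546,
  2398078144864264923429, 7090626824387180002243988675602337957226108979674013530744421594693638,
  147537, [G2p0_1, G2p0_2, G2p1_2, G2p4_3, G2p6_0, G2p6_1, G2p6_2, G2p6_7, G2p6_8, G2p7_0, G2p7_1,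
  G2p7_2, G2p7_8, G2p8_0, G2p8_1, G2p8_2]⟩) (.leaf ⟨404295954, 1257838667850041007298,
  12078135091503974855720597078324343739187160779637450377718820671324166, 98385, [G2p0_1, G2p0_2,
  G2p1_2, G2p4_3, G2p7_6, G2p8_6, G2p8_7]⟩))))) (.node 24 (.node 20 (.node 18 (.node 17 (.leaf
  ⟨605180184, 2398084827627219059779,
  6928864676089778241721402575278491021114359150842059052818756250042383, 147557, [G2p1_2, G2p1_3,
  G2p2_3, G2p4_0, G2p4_1, G2p4_2, G2p4_3, G2p5_0, G2p5_1, G2p5_2, G2p5_3, G2p6_0, G2p6_7, G2p6_8,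
  G2p7_0, G2p7_8, G2p8_0]⟩) (.leaf ⟨403853592, 1257845459570946737219,
  12078135091503975526187396385559403159682237289941151917716356218159119, 98405, [G2p1_2, G2p1_3,
  G2p2_3, G2p4_0, G2p4_1, G2p4_2, G2p4_3, G2p5_0, G2p5_1, G2p5_2, G2p5_3, G2p7_6, G2p8_6, G2p8_7]⟩))
  (.node 19 (.leaf ⟨605573394, 2398077929291266399429,
  6928864676089778145949200236380890637656557846673884435236038060802048, 147525, [G2p2_1, G2p3_1,
  G2p3_2, G2p4_1, G2p4_2, G2p4_3, G2p6_0, G2p6_7, G2p6_8, G2p7_0, G2p7_8, G2p8_0]⟩) (.leaf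
  ⟨404246802, 1257838561231772851397,
  12078135091503975430415194046661802776224435985772977300133638028918784, 98373, [G2p2_1, G2p3_1,
  G2p3_2, G2p4_1, G2p4_2, G2p4_3, G2p7_6, G2p8_6, G2p8_7]⟩))) (.node 22 (.node 21 (.leaf ⟨605593873,
  2398077932625338568804, 6901904318040211169900068829843188783102948369417491576047209760096263,
  147530, [G2p1_2, G2p3_0, G2p3_1, G2p3_2, G2p4_0, G2p4_1, G2p4_2, G2p4_3, G2p6_7, G2p6_8, G2p7_8]⟩)
  (.leaf ⟨404267281, 8569666746785793577060,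
  12078135091504018436727533843863379463931970203561406464474484528579015, 98378, [G2p0_6, G2p0_7,
  G2p0_8, G2p1_2, G2p3_0, G2p3_1, G2p3_2, G2p3_6, G2p3_7, G2p3_8, G2p4_0, G2p4_1, G2p4_2, G2p4_3,
  G2p4_6, G2p4_7, G2p4_8, G2p7_6, G2p8_6, G2p8_7]⟩)) (.node 23 (.leaf ⟨403837222,
  1257987141536570281027, 12078135091503974855720598371787301610475213067964915068624194904915970,
  98401, [G2p0_1, G2p2_1, G2p2_3, G2p2_4, G2p2_5, G2p4_3, G2p7_6, G2p8_6, G2p8_7]⟩) (.leaf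
  ⟨409080198, 1258098887377201305931,
  13641835858378865213516188340840045228041851697477080664166145118568450, 100769, [G2p0_1, G2p2_1,
  G2p3_1, G2p4_1, G2p4_3, G2p5_1, G2p5_3, G2p5_4, G2p6_1, G2p6_3, G2p6_4, G2p6_5, G2p7_1, G2p7_3,
  G2p7_4, G2p7_5, G2p7_6, G2p8_1, G2p8_3, G2p8_4, G2p8_5, G2p8_6, G2p8_7]⟩)))) (.node 28 (.node 26
  (.node 25 (.leaf ⟨605163814, 2398226509664783305797,
  6982785392188911714917733030692691590776277041911040876367661900627970, 147553, [G2p0_1, G2p2_1,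
  G2p2_3, G2p2_4, G2p2_5, G2p4_3, G2p6_0, G2p6_1, G2p6_7, G2p6_8, G2p7_0, G2p7_1, G2p7_8, G2p8_0,
  G2p8_1]⟩) (.leaf ⟨610406790, 2398338255436694853963,
  8492565442964667929050194530559133089473973558377987799268545150451714, 149921, [G2p0_1, G2p2_1,
  G2p3_1, G2p4_1, G2p4_3, G2p5_1, G2p5_3, G2p5_4, G2p6_0, G2p6_1, G2p6_3, G2p6_4, G2p6_5, G2p6_7,
  G2p6_8, G2p7_0, G2p7_1, G2p7_3, G2p7_4, G2p7_5, G2p7_8, G2p8_0, G2p8_1, G2p8_3, G2p8_4, G2p8_5]⟩))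
  (.node 27 (.leaf ⟨606380305, 2398298675970884770817,
  6901904318040209733198653161929197474858264113563273190988606047453215, 147594, [G2p1_2, G2p1_3,
  G2p1_4, G2p2_3, G2p2_4, G2p3_4, G2p6_7, G2p6_8, G2p7_8]⟩) (.leaf ⟨405053713,
  4913973399023028018177, 12078135091503974089496211206803260672896107525991365815448647216595423,
  98442, [G2p0_6, G2p0_7, G2p0_8, G2p1_2, G2p1_3, G2p1_4, G2p2_3, G2p2_4, G2p3_4, G2p7_6, G2p8_6,
  G2p8_7]⟩))) (.node 30 (.node 29 (.leaf ⟨606478609, 2398187105265164226564,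
  6901904318040209733198653318027267794675271216140224262447668567932929, 147618, [G2p1_0, G2p2_0,
  G2p2_1, G2p3_4, G2p6_7, G2p6_8, G2p7_8]⟩) (.leaf ⟨405152017, 8569775919425619234820,
  12078135091503974089496221353787628760961855091804472439165452065636801, 98466, [G2p0_6, G2p0_7,
  G2p0_8, G2p1_0, G2p1_6, G2p1_7, G2p1_8, G2p2_0, G2p2_1, G2p2_6, G2p2_7, G2p2_8, G2p3_4, G2p7_6,
  G2p8_6, G2p8_7]⟩)) (.node 31 (.leaf ⟨404820262, 1257981517534594206787,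
  12078135091503974089551748938036024038250295828378324574422407421755398, 98449, [G2p0_1, G2p0_2,
  G2p1_2, G2p3_1, G2p3_2, G2p3_4, G2p3_5, G2p7_6, G2p8_6, G2p8_7]⟩) (.leaf ⟨407261576,
  1258089603928871311427, 13372232277883193537421524956426915746190799605842785778107338278240263,
  100645, [G2p1_2, G2p3_0, G2p3_1, G2p3_2, G2p3_4, G2p5_4, G2p6_4, G2p6_5, G2p7_4, G2p7_5, G2p7_6,
  G2p8_4, G2p8_5, G2p8_6, G2p8_7]⟩)))))) (.node 48 (.node 40 (.node 36 (.node 34 (.node 33 (.leaf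
  ⟨606146854, 2398220887861830487109,
  7090626824387179236075140535314018256289244028414887727448008345124870, 147601, [G2p0_1, G2p0_2,
  G2p1_2, G2p3_1, G2p3_2, G2p3_4, G2p3_5, G2p6_0, G2p6_1, G2p6_2, G2p6_7, G2p6_8, G2p7_0, G2p7_1,
  G2p7_2, G2p7_8, G2p8_0, G2p8_1, G2p8_2]⟩) (.leaf ⟨608588168, 2398328971985143633987,
  8222961862468996252955531146146003607622921466743692913209738310123527, 149797, [G2p1_2, G2p3_0,
  G2p3_1, G2p3_2, G2p3_4, G2p5_4, G2p6_0, G2p6_4, G2p6_5, G2p6_7, G2p6_8, G2p7_0, G2p7_4, G2p7_5,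
  G2p7_8, G2p8_0, G2p8_4, G2p8_5]⟩)) (.node 35 (.leaf ⟨606359826, 2398410242284031322309,
  7575913269279386528987759026758654504686596475539610668562795736858648, 147589, [G2p0_3, G2p0_4,
  G2p1_3, G2p1_4, G2p2_1, G2p2_3, G2p2_4, G2p3_4, G2p6_0, G2p6_3, G2p6_4, G2p6_7, G2p6_8, G2p7_0,
  G2p7_3, G2p7_4, G2p7_8, G2p8_0, G2p8_3, G2p8_4]⟩) (.leaf ⟨405033234, 1258059304580644084834,
  12078135091503974089496211206803941216827169258096079461767592139030552, 98437, [G2p0_3, G2p0_4,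
  G2p1_3, G2p1_4, G2p2_1, G2p2_3, G2p2_4, G2p3_4, G2p7_6, G2p8_6, G2p8_7]⟩))) (.node 38 (.node 37
  (.leaf ⟨610373924, 2398077929293419388101,
  6928864676089781306769483562244401839012773915288519089481817692045345, 147865, [G2p1_0, G2p1_5,
  G2p2_0, G2p2_1, G2p2_5, G2p3_0, G2p3_1, G2p3_2, G2p3_5, G2p4_0, G2p4_1, G2p4_2, G2p4_3, G2p4_5,
  G2p6_0, G2p6_7, G2p6_8, G2p7_0, G2p7_8, G2p8_0]⟩) (.leaf ⟨409047332, 1257838561237147065541,
  12078135091503978591235477372525313977580652054387611954379417660162081, 98713, [G2p1_0, G2p1_5,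
  G2p2_0, G2p2_1, G2p2_5, G2p3_0, G2p3_1, G2p3_2, G2p3_5, G2p4_0, G2p4_1, G2p4_2, G2p4_3, G2p4_5,
  G2p7_6, G2p8_6, G2p8_7]⟩)) (.node 39 (.leaf ⟨610341158, 2398077933758034645093,
  7090626824387183641976436141735268413355717863658837740634636886081542, 147857, [G2p0_1, G2p0_2,
  G2p1_2, G2p3_1, G2p3_2, G2p3_5, G2p4_1, G2p4_2, G2p4_3, G2p4_5, G2p6_0, G2p6_1, G2p6_2, G2p6_7,
  G2p6_8, G2p7_0, G2p7_1, G2p7_2, G2p7_8, G2p8_0, G2p8_1, G2p8_2]⟩) (.leaf ⟨409014566,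
  1257838564564669730916, 12078135091503978495453044544457274195316769663622274587609035962712070,
  98705, [G2p0_1, G2p0_2, G2p1_2, G2p3_1, G2p3_2, G2p3_5, G2p4_1, G2p4_2, G2p4_3, G2p4_5, G2p7_6,
  G2p8_6, G2p8_7]⟩)))) (.node 44 (.node 42 (.node 41 (.leaf ⟨608456994, 2398113004708624959685,
  6928864676089779870068066645469283022177779304531490257253068087230464, 147717, [G2p2_1, G2p3_4,
  G2p3_5, G2p4_5, G2p6_0, G2p6_7, G2p6_8, G2p7_0, G2p7_8, G2p8_0]⟩) (.leaf ⟨407130402,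
  1257873531096015145058, 12078135091503977154534060455750195160745657443630583122150668055347200,
  98565, [G2p2_1, G2p3_4, G2p3_5, G2p4_5, G2p7_6, G2p8_6, G2p8_7]⟩)) (.node 43 (.leaf ⟨407408932,
  1258022119064111126593, 12078135091503977154534061793794226824579312429471238072197770964107325,
  98569, [G2p1_0, G2p1_2, G2p1_3, G2p1_4, G2p1_5, G2p3_4, G2p3_5, G2p4_5, G2p7_6, G2p8_6, G2p8_7]⟩)
  (.leaf ⟨608735524, 2398261487122530932801,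
  6928864676089779870068067983513314686011434290372145207300170995990589, 147721, [G2p1_0, G2p1_2,
  G2p1_3, G2p1_4, G2p1_5, G2p3_4, G2p3_5, G2p4_5, G2p6_0, G2p6_7, G2p6_8, G2p7_0, G2p7_8,
  G2p8_0]⟩))) (.node 46 (.node 45 (.leaf ⟨608801060, 2398298672640143137890,
  6928864676089779870068067894330410530768089659434300704423213979402297, 147737, [G2p1_0, G2p1_3,
  G2p1_4, G2p1_5, G2p2_0, G2p2_1, G2p2_3, G2p2_4, G2p2_5, G2p3_4, G2p3_5, G2p4_5, G2p6_0, G2p6_7,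
  G2p6_8, G2p7_0, G2p7_8, G2p8_0]⟩) (.leaf ⟨407474468, 1258059304582797073506,
  12078135091503977154534061704611322669335967798533393569320813947519033, 98585, [G2p1_0, G2p1_3,
  G2p1_4, G2p1_5, G2p2_0, G2p2_1, G2p2_3, G2p2_4, G2p2_5, G2p3_4, G2p3_5, G2p4_5, G2p7_6, G2p8_6,
  G2p8_7]⟩)) (.node 47 (.leaf ⟨608768290, 2398447440033719135621,
  8600406875162938323625050439104755384186335145079457523103292094152766, 147729, [G2p0_1, G2p0_2,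
  G2p0_3, G2p0_4, G2p0_5, G2p1_2, G2p1_3, G2p1_4, G2p1_5, G2p2_3, G2p2_4, G2p2_5, G2p3_4, G2p3_5,
  G2p4_5, G2p6_0, G2p6_1, G2p6_2, G2p6_3, G2p6_4, G2p6_5, G2p6_7, G2p6_8, G2p7_0, G2p7_1, G2p7_2,
  G2p7_3, G2p7_4, G2p7_5, G2p7_8, G2p8_0, G2p8_1, G2p8_2, G2p8_3, G2p8_4, G2p8_5]⟩) (.leaf
  ⟨407441698, 1258096498928714555682,
  12078135091503977154534061704610301837817007779776771536127816183578686, 98577, [G2p0_1, G2p0_2,
  G2p0_3, G2p0_4, G2p0_5, G2p1_2, G2p1_3, G2p1_4, G2p1_5, G2p2_3, G2p2_4, G2p2_5, G2p3_4, G2p3_5,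
  G2p4_5, G2p7_6, G2p8_6, G2p8_7]⟩))))) (.node 56 (.node 52 (.node 50 (.node 49 (.leaf ⟨403804452,
  1258061416780065346691, 12078135091503974855720598483291368181456012191849264464807279531130937,
  98393, [G2p1_0, G2p1_3, G2p1_4, G2p1_5, G2p2_0, G2p2_1, G2p2_3, G2p2_4, G2p2_5, G2p4_3, G2p7_6,
  G2p8_6, G2p8_7]⟩) (.leaf ⟨412193348, 8569738728412592344195,
  12078135091504020160846401635598994988840204460830270539766744269979649, 99929, [G2p1_0, G2p2_0,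
  G2p2_1, G2p3_0, G2p3_4, G2p3_5, G2p3_6, G2p3_7, G2p3_8, G2p4_0, G2p4_5, G2p4_6, G2p4_7, G2p4_8,
  G2p5_0, G2p5_6, G2p5_7, G2p5_8, G2p7_6, G2p8_6, G2p8_7]⟩)) (.node 51 (.leaf ⟨605131044,
  2398300784836337669251, 6928864676089777571254604673010456042888134052750171599909679563014201,
  147545, [G2p1_0, G2p1_3, G2p1_4, G2p1_5, G2p2_0, G2p2_1, G2p2_3, G2p2_4, G2p2_5, G2p4_3, G2p6_0,
  G2p6_7, G2p6_8, G2p7_0, G2p7_8, G2p8_0]⟩) (.leaf ⟨613519940, 9709978096472085892227,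
  6928864676089822876380407825318082850272326321731177674869144301862913, 149081, [G2p1_0, G2p2_0,
  G2p2_1, G2p3_0, G2p3_4, G2p3_5, G2p3_6, G2p3_7, G2p3_8, G2p4_0, G2p4_5, G2p4_6, G2p4_7, G2p4_8,
  G2p5_0, G2p5_6, G2p5_7, G2p5_8, G2p6_0, G2p6_7, G2p6_8, G2p7_0, G2p7_8, G2p8_0]⟩))) (.node 54
  (.node 53 (.leaf ⟨411669060, 6132395253280707511394,
  12078135091504020926367794537517852857236788857644906571344928519487497, 99865, [G2p1_0, G2p1_3,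
  G2p2_0, G2p2_1, G2p2_3, G2p4_0, G2p4_3, G2p4_5, G2p4_6, G2p4_7, G2p4_8, G2p5_0, G2p5_6, G2p5_7,
  G2p5_8, G2p7_6, G2p8_6, G2p8_7]⟩) (.leaf ⟨605626641, 2398077926955981738084,
  6901904318040210595205471861506750577589070026839231388149862407143425, 147538, [G2p1_0, G2p1_2,
  G2p2_0, G2p3_0, G2p4_0, G2p4_3, G2p6_7, G2p6_8, G2p7_8]⟩)) (.node 55 (.leaf ⟨612995652,
  7272634621340201059426, 6928864676089823641901800727236940718668910718545813706447328551370761,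
  149017, [G2p1_0, G2p1_3, G2p2_0, G2p2_1, G2p2_3, G2p4_0, G2p4_3, G2p4_5, G2p4_6, G2p4_7, G2p4_8,
  G2p5_0, G2p5_6, G2p5_7, G2p5_8, G2p6_0, G2p6_7, G2p6_8, G2p7_0, G2p7_8, G2p8_0]⟩) (.leaf
  ⟨403841305, 6132395253278565205090,
  12078135091503974855720597256886497285994352422298625330197507841982921, 98402, [G2p0_6, G2p0_7,
  G2p0_8, G2p1_0, G2p1_3, G2p1_6, G2p1_7, G2p1_8, G2p2_0, G2p2_1, G2p2_3, G2p2_6, G2p2_7, G2p2_8,
  G2p4_3, G2p5_3, G2p7_6, G2p8_6, G2p8_7]⟩)))) (.node 60 (.node 58 (.node 57 (.leaf ⟨405147922,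
  1258059310250000915554, 12078135091503974089496211340600245506590156355580045526060823148888094,
  98465, [G2p0_1, G2p0_2, G2p0_3, G2p0_4, G2p2_1, G2p3_4, G2p7_6, G2p8_6, G2p8_7]⟩) (.leaf
  ⟨404902168, 1257873643387935000676,
  12078135091503974759973240311864900858908680957666960409256730573602823, 98469, [G2p1_2, G2p3_0,
  G2p3_1, G2p3_2, G2p3_4, G2p4_0, G2p4_1, G2p4_2, G2p5_0, G2p5_1, G2p5_2, G2p7_6, G2p8_6, G2p8_7]⟩))
  (.node 59 (.leaf ⟨310780177, 15803170645389917291527,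
  6901904318040254080429975799142785923983066844567012370806408327659969, 74274, [G2p0_6, G2p0_7,
  G2p0_8, G2p1_0, G2p1_6, G2p1_7, G2p1_8, G2p2_0, G2p2_1, G2p2_6, G2p2_7, G2p2_8, G2p3_0, G2p3_1,
  G2p3_2, G2p3_6, G2p3_7, G2p3_8, G2p4_0, G2p4_1, G2p4_2, G2p4_3, G2p4_6, G2p4_7, G2p4_8, G2p5_0,
  G2p5_1, G2p5_2, G2p5_3, G2p5_4, G2p5_6, G2p5_7, G2p5_8, G2p6_7, G2p6_8, G2p7_8]⟩) (.leaf
  ⟨310792472, 4835428375396491461798,
  6901904318040211169900068829843188783102948912233448859187378070683655, 74277, [G2p1_2, G2p3_0,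
  G2p3_1, G2p3_2, G2p4_0, G2p4_1, G2p4_2, G2p4_3, G2p5_0, G2p5_1, G2p5_2, G2p5_3, G2p5_4, G2p5_6,
  G2p5_7, G2p5_8, G2p6_7, G2p6_8, G2p7_8]⟩))) (.node 62 (.node 61 (.leaf ⟨310681873,
  8491342460830181491713, 6901904318040210499423039033450280541219830964991603737969813689926087,
  74250, [G2p0_6, G2p0_7, G2p0_8, G2p1_2, G2p4_3, G2p5_3, G2p5_4, G2p5_6, G2p5_7, G2p5_8, G2p6_7,
  G2p6_8, G2p7_8]⟩) (.leaf ⟨310661400, 4835428366600398439590,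
  6901904318040210786770337517619690614052460200433494340404920671469571, 74245, [G2p2_0, G2p2_1,
  G2p3_0, G2p3_1, G2p4_0, G2p4_1, G2p4_3, G2p5_0, G2p5_1, G2p5_3, G2p5_4, G2p5_6, G2p5_7, G2p5_8,
  G2p6_7, G2p6_8, G2p7_8]⟩)) (.node 63 (.leaf ⟨311501081, 8491451638967565288513,
  6901904318040209733198653251124013823551438397134052387119550464524765, 74322, [G2p0_6, G2p0_7,
  G2p0_8, G2p1_0, G2p1_2, G2p1_3, G2p1_4, G2p1_6, G2p1_7, G2p1_8, G2p3_4, G2p5_2, G2p5_3, G2p5_4,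
  G2p5_6, G2p5_7, G2p5_8, G2p6_7, G2p6_8, G2p7_8]⟩) (.leaf ⟨311578904, 4835649118742141469763,
  6901904318040209733198653161929197474858264656379230474128774358040607, 74341, [G2p1_2, G2p1_3,
  G2p1_4, G2p2_3, G2p2_4, G2p3_4, G2p5_0, G2p5_1, G2p5_2, G2p5_3, G2p5_4, G2p5_6, G2p5_7, G2p5_8,
  G2p6_7, G2p6_8, G2p7_8]⟩))))))

def G2T2 : Tr :=
  .node 96 (.node 80 (.node 72 (.node 68 (.node 66 (.node 65 (.leaf ⟨303112473,
  8491271494982470468673, 6901904318040210882546924517531439886053729801413745149494003470434765,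
  73810, [G2p0_6, G2p0_7, G2p0_8, G2p1_0, G2p1_2, G2p1_3, G2p1_6, G2p1_7, G2p1_8, G2p4_2, G2p4_3,
  G2p5_2, G2p5_3, G2p5_6, G2p5_7, G2p5_8, G2p6_7, G2p6_8, G2p7_8]⟩) (.leaf ⟨303632658,
  4835354096645084028098, 6901904318040210499423039033450280541184812125622779631300368935157766,
  73809, [G2p0_1, G2p0_2, G2p1_2, G2p4_3, G2p5_6, G2p5_7, G2p5_8, G2p6_7, G2p6_8, G2p7_8]⟩)) (.node
  67 (.leaf ⟨303190296, 4835360888365989758019,
  6901904318040211169889838340685339961679888635926481171297904481992719, 73829, [G2p1_2, G2p1_3,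
  G2p2_3, G2p4_0, G2p4_1, G2p4_2, G2p4_3, G2p5_0, G2p5_1, G2p5_2, G2p5_3, G2p5_6, G2p5_7, G2p5_8,
  G2p6_7, G2p6_8, G2p7_8]⟩) (.leaf ⟨303583506, 4835353990026815872197,
  6901904318040211074117636001787739578222087331758306553715186292752384, 73797, [G2p2_1, G2p3_1,
  G2p3_2, G2p4_1, G2p4_2, G2p4_3, G2p5_6, G2p5_7, G2p5_8, G2p6_7, G2p6_8, G2p7_8]⟩))) (.node 70
  (.node 69 (.leaf ⟨303603985, 12147182175580836597860,
  6901904318040254080429975798989316265929621549546735718056032792412615, 73802, [G2p0_6, G2p0_7,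
  G2p0_8, G2p1_2, G2p3_0, G2p3_1, G2p3_2, G2p3_6, G2p3_7, G2p3_8, G2p4_0, G2p4_1, G2p4_2, G2p4_3,
  G2p4_6, G2p4_7, G2p4_8, G2p5_6, G2p5_7, G2p5_8, G2p6_7, G2p6_8, G2p7_8]⟩) (.leaf ⟨291641478,
  1185278883007673926822, 8627367230400361710754782721326454725054364895022831955909298551390210,
  72097, [G2p0_1, G2p0_6, G2p2_1, G2p3_1, G2p4_1, G2p4_3, G2p5_1, G2p5_3, G2p5_4, G2p5_6, G2p7_6,
  G2p7_8, G2p8_6]⟩)) (.node 71 (.leaf ⟨303173926, 9710054691809365462083,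
  6901904318040210499423050317799533854572612253583622292803054181416962, 73825, [G2p0_1, G2p2_1,
  G2p2_3, G2p2_4, G2p2_5, G2p2_6, G2p2_7, G2p2_8, G2p4_3, G2p5_6, G2p5_7, G2p5_8, G2p6_7, G2p6_8,
  G2p7_8]⟩) (.leaf ⟨286396966, 4723669184456790510661,
  6901945043694233737881622351363778290539549527848746066043042327560194, 69729, [G2p0_1, G2p2_1,
  G2p2_3, G2p2_4, G2p2_5, G2p4_3, G2p6_0, G2p6_1, G2p6_5, G2p6_8, G2p7_0, G2p7_1, G2p7_5, G2p7_6,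
  G2p7_8]⟩)))) (.node 76 (.node 74 (.node 73 (.leaf ⟨304390417, 8491488827818071038977,
  6901904318040209733198653161929197474893758871976695069030195480429023, 73866, [G2p0_6, G2p0_7,
  G2p0_8, G2p1_2, G2p1_3, G2p1_4, G2p2_3, G2p2_4, G2p3_4, G2p5_6, G2p5_7, G2p5_8, G2p6_7, G2p6_8,
  G2p7_8]⟩) (.leaf ⟨304488721, 12147291348220662255620,
  6901904318040209733198663308913565562959506437789801692747000329470401, 73890, [G2p0_6, G2p0_7,
  G2p0_8, G2p1_0, G2p1_6, G2p1_7, G2p1_8, G2p2_0, G2p2_1, G2p2_6, G2p2_7, G2p2_8, G2p3_4, G2p5_6,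
  G2p5_7, G2p5_8, G2p6_7, G2p6_8, G2p7_8]⟩)) (.node 75 (.leaf ⟨289822856, 1188806227261573303363,
  8627367230400360753069299214881706330272940268283884659395971442475079, 71973, [G2p0_6, G2p1_2,
  G2p3_0, G2p3_1, G2p3_2, G2p3_4, G2p3_6, G2p5_4, G2p5_6, G2p7_6, G2p7_8, G2p8_6]⟩) (.leaf
  ⟨287380006, 4723663562653837691973,
  6901946689223898699860361795637026433357967936662504414175269169266694, 69777, [G2p0_1, G2p0_2,
  G2p1_2, G2p3_1, G2p3_2, G2p3_4, G2p3_5, G2p6_0, G2p6_1, G2p6_2, G2p6_5, G2p6_8, G2p7_0, G2p7_1,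
  G2p7_2, G2p7_5, G2p7_6, G2p7_8]⟩))) (.node 78 (.node 77 (.leaf ⟨304156966, 9710049067807389387843,
  6901904318040209733908953617420054289322365387422334767277692318777350, 73873, [G2p0_1, G2p0_2,
  G2p1_2, G2p3_1, G2p3_2, G2p3_4, G2p3_5, G2p3_6, G2p3_7, G2p3_8, G2p5_6, G2p5_7, G2p5_8, G2p6_7,
  G2p6_8, G2p7_8]⟩) (.leaf ⟨304369938, 4835574733375687105634,
  6901904318040209733198653161929878018824820604081408715349140402864152, 73861, [G2p0_3, G2p0_4,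
  G2p1_3, G2p1_4, G2p2_1, G2p2_3, G2p2_4, G2p3_4, G2p5_6, G2p5_7, G2p5_8, G2p6_7, G2p6_8, G2p7_8]⟩))
  (.node 79 (.leaf ⟨291607076, 4723520604085422398661,
  6901944220929404609322706913089527800123320690071268530631257920372769, 70041, [G2p1_0, G2p1_5,
  G2p2_0, G2p2_1, G2p2_5, G2p3_0, G2p3_1, G2p3_2, G2p3_5, G2p4_0, G2p4_1, G2p4_2, G2p4_3, G2p4_5,
  G2p6_0, G2p6_5, G2p6_8, G2p7_0, G2p7_5, G2p7_6, G2p7_8]⟩) (.leaf ⟨291574310,
  4723520608550040801381, 6901946689223903105761657402058276590424441771906454427361897710223366,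
  70033, [G2p0_1, G2p0_2, G2p1_2, G2p3_1, G2p3_2, G2p3_5, G2p4_1, G2p4_2, G2p4_3, G2p4_5, G2p6_0,
  G2p6_1, G2p6_2, G2p6_5, G2p6_8, G2p7_0, G2p7_1, G2p7_2, G2p7_5, G2p7_6, G2p7_8]⟩))))) (.node 88
  (.node 84 (.node 82 (.node 81 (.leaf ⟨289690146, 4723555679500633213125,
  6901944220929403172621289996314408983288326079314239698402508315557888, 69893, [G2p2_1, G2p3_4,
  G2p3_5, G2p4_5, G2p6_0, G2p6_5, G2p6_8, G2p7_0, G2p7_5, G2p7_6, G2p7_8]⟩) (.leaf ⟨289968676,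
  4723704161914534991937, 6901944220929403172621291334358440647121981065154894648449611224318013,
  69897, [G2p1_0, G2p1_2, G2p1_3, G2p1_4, G2p1_5, G2p3_4, G2p3_5, G2p4_5, G2p6_0, G2p6_5, G2p6_8,
  G2p7_0, G2p7_5, G2p7_6, G2p7_8]⟩)) (.node 83 (.leaf ⟨290034212, 4723741347432146148450,
  6901944220929403172621291245175536491878636434217050145572654207729721, 69913, [G2p1_0, G2p1_3,
  G2p1_4, G2p1_5, G2p2_0, G2p2_1, G2p2_3, G2p2_4, G2p2_5, G2p3_4, G2p3_5, G2p4_5, G2p6_0, G2p6_5,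
  G2p6_8, G2p7_0, G2p7_5, G2p7_6, G2p7_8]⟩) (.leaf ⟨290001442, 4723890114825717951877,
  6901956562401896133728207830358458523184693778463044429884763880292414, 69905, [G2p0_1, G2p0_2,
  G2p0_3, G2p0_4, G2p0_5, G2p1_2, G2p1_3, G2p1_4, G2p1_5, G2p2_3, G2p2_4, G2p2_5, G2p3_4, G2p3_5,
  G2p4_5, G2p6_0, G2p6_1, G2p6_2, G2p6_3, G2p6_4, G2p6_5, G2p6_8, G2p7_0, G2p7_1, G2p7_2, G2p7_3,
  G2p7_4, G2p7_5, G2p7_6, G2p7_8]⟩))) (.node 86 (.node 85 (.leaf ⟨286335513, 4723527504478664233121,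
  6901948746135982009337581517537161626031711478323388357909579211473165, 69714, [G2p0_8, G2p1_0,
  G2p1_2, G2p1_3, G2p1_8, G2p4_2, G2p4_3, G2p5_2, G2p5_3, G2p6_2, G2p6_3, G2p6_5, G2p6_8, G2p7_2,
  G2p7_3, G2p7_5, G2p7_6, G2p7_8]⟩) (.leaf ⟨286855698, 4723520819656273275173,
  6901946689223899466029209935925346134294832887921630217471682418835462, 69713, [G2p0_1, G2p0_2,
  G2p1_2, G2p4_3, G2p6_0, G2p6_1, G2p6_2, G2p6_5, G2p6_8, G2p7_0, G2p7_1, G2p7_2, G2p7_5, G2p7_6,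
  G2p7_8]⟩)) (.node 87 (.leaf ⟨286413336, 4723530989076899532966,
  6901949980283231592791186999209456984876580695026029442137246615404559, 69733, [G2p1_2, G2p1_3,
  G2p2_3, G2p4_0, G2p4_1, G2p4_2, G2p4_3, G2p5_0, G2p5_1, G2p5_2, G2p5_3, G2p6_0, G2p6_1, G2p6_2,
  G2p6_3, G2p6_5, G2p6_8, G2p7_0, G2p7_1, G2p7_2, G2p7_3, G2p7_5, G2p7_6, G2p7_8]⟩) (.leaf
  ⟨286806546, 4723520604083274751173,
  6901944220929401448502423587226016598767104621456633876385478289129472, 69701, [G2p2_1, G2p3_1,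
  G2p3_2, G2p4_1, G2p4_2, G2p4_3, G2p6_0, G2p6_5, G2p6_8, G2p7_0, G2p7_5, G2p7_6, G2p7_8]⟩))))
  (.node 92 (.node 90 (.node 89 (.leaf ⟨286364196, 4723743459628342776963,
  6901944220929400873807828023855582003998680827532921041059119791341625, 69721, [G2p1_0, G2p1_3,
  G2p1_4, G2p1_5, G2p2_0, G2p2_1, G2p2_3, G2p2_4, G2p2_5, G2p4_3, G2p6_0, G2p6_5, G2p6_8, G2p7_0,
  G2p7_5, G2p7_6, G2p7_8]⟩) (.leaf ⟨294752836, 8265367451196384742531,
  6901931056692101963525817165190091312697111442853215622084539780694017, 71257, [G2p1_0, G2p2_0,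
  G2p2_1, G2p3_0, G2p3_4, G2p3_5, G2p3_8, G2p4_0, G2p4_5, G2p4_8, G2p5_0, G2p5_8, G2p6_0, G2p6_8,
  G2p7_0, G2p7_6, G2p7_8]⟩)) (.node 91 (.leaf ⟨294228548, 5904116795368551810146,
  6901931056692102729327822663219560659268446502407286341922072226693129, 71193, [G2p1_0, G2p1_3,
  G2p2_0, G2p2_1, G2p2_3, G2p4_0, G2p4_3, G2p4_5, G2p4_8, G2p5_0, G2p5_8, G2p6_0, G2p6_8, G2p7_0,
  G2p7_6, G2p7_8]⟩) (.leaf ⟨286827025, 8265295469569577685092,
  6901943809547009632550763178144550079359516653492598964196046356807943, 69706, [G2p0_8, G2p1_2,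
  G2p3_0, G2p3_1, G2p3_2, G2p3_8, G2p4_0, G2p4_1, G2p4_2, G2p4_3, G2p4_8, G2p6_5, G2p6_8, G2p7_5,
  G2p7_6, G2p7_8]⟩))) (.node 94 (.node 93 (.leaf ⟨287711761, 8265404642209403342852,
  6901943809546983675546549393037297825479017809655522101048224438485249, 69794, [G2p0_8, G2p1_0,
  G2p1_8, G2p2_0, G2p2_1, G2p2_8, G2p3_4, G2p6_5, G2p6_8, G2p7_5, G2p7_6, G2p7_8]⟩) (.leaf
  ⟨287592978, 4723852917076039674053,
  6901954094107394476468974015515309329629851784181829092023518348443672, 69765, [G2p0_3, G2p0_4,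
  G2p1_3, G2p1_4, G2p2_1, G2p2_3, G2p2_4, G2p3_4, G2p6_0, G2p6_3, G2p6_4, G2p6_5, G2p6_8, G2p7_0,
  G2p7_3, G2p7_4, G2p7_5, G2p7_6, G2p7_8]⟩)) (.node 95 (.leaf ⟨287613457, 4723741350762893122561,
  6901943809546983675546543527861343066662730442372196428299023444541727, 69770, [G2p0_8, G2p1_2,
  G2p1_3, G2p1_4, G2p2_3, G2p2_4, G2p3_4, G2p6_5, G2p6_8, G2p7_5, G2p7_6, G2p7_8]⟩) (.leaf
  ⟨404300049, 8569666741116436746340,
  12078135091504017862032936875679390084947664916217515682368924824961473, 98386, [G2p0_6, G2p0_7,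
  G2p0_8, G2p1_0, G2p1_2, G2p1_6, G2p1_7, G2p1_8, G2p2_0, G2p2_6, G2p2_7, G2p2_8, G2p3_0, G2p3_6,
  G2p3_7, G2p3_8, G2p4_0, G2p4_3, G2p4_6, G2p4_7, G2p4_8, G2p7_6, G2p8_6, G2p8_7]⟩)))))) (.node 112
  (.node 104 (.node 100 (.node 98 (.node 97 (.leaf ⟨605167897, 2398082499856984704098,
  6901904318040210499423039211859985261426935954636163299945679052865545, 147554, [G2p1_0, G2p1_3,
  G2p2_0, G2p2_1, G2p2_3, G2p4_3, G2p5_3, G2p6_7, G2p6_8, G2p7_8]⟩) (.leaf ⟨306600072,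
  2398220885594155781187, 6901904318040209733208883651081601695333839637897584828671230077239303,
  76069, [G2p1_2, G2p3_0, G2p3_1, G2p3_2, G2p3_4, G2p5_4, G2p6_7, G2p6_8, G2p7_8]⟩)) (.node 99
  (.leaf ⟨608576073, 13366071241978564286628,
  6901904318040209733910415141527933851666615845692680606907016644919793, 148770, [G2p1_0, G2p1_4,
  G2p1_5, G2p1_6, G2p1_7, G2p1_8, G2p2_0, G2p2_1, G2p2_4, G2p2_5, G2p2_6, G2p2_7, G2p2_8, G2p3_0,
  G2p3_1, G2p3_2, G2p3_4, G2p3_5, G2p3_6, G2p3_7, G2p3_8, G2p5_6, G2p5_7, G2p5_8, G2p6_7, G2p6_8,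
  G2p7_8]⟩) (.leaf ⟨105260105, 39451570227746412708,
  12967826907139687459994830203565439735402518097869943669006610591645745, 25890, [G2p1_0, G2p1_4,
  G2p1_5, G2p2_0, G2p2_1, G2p2_4, G2p2_5, G2p3_0, G2p3_1, G2p3_2, G2p3_4, G2p3_5, G2p6_0, G2p6_5,
  G2p7_0, G2p7_5, G2p7_6, G2p8_0, G2p8_5, G2p8_6, G2p8_7]⟩))) (.node 102 (.node 101 (.leaf
  ⟨107026502, 2476513785948235038853,
  12940866549090121729025249553641956134201360276168082999232423000408070, 26001, [G2p0_1, G2p0_2,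
  G2p0_5, G2p0_6, G2p0_7, G2p0_8, G2p1_2, G2p3_1, G2p3_2, G2p4_1, G2p4_2, G2p4_3, G2p6_5, G2p7_5,
  G2p7_6, G2p8_5, G2p8_6, G2p8_7]⟩) (.leaf ⟨105453638, 2476734529297106272290,
  12940866549090120388106266713784094574804093519476965490115276917571614, 25873, [G2p0_1, G2p0_2,
  G2p0_3, G2p0_4, G2p0_5, G2p0_6, G2p0_7, G2p0_8, G2p1_2, G2p1_3, G2p1_4, G2p2_3, G2p2_4, G2p3_4,
  G2p6_5, G2p7_5, G2p7_6, G2p8_5, G2p8_6, G2p8_7]⟩)) (.node 103 (.leaf ⟨107059268,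
  11006979995209159835878, 12940866549090167800375439848804724188842506895545439972306331835040225,
  26009, [G2p0_5, G2p0_6, G2p0_7, G2p0_8, G2p1_0, G2p1_5, G2p1_6, G2p1_7, G2p1_8, G2p2_0, G2p2_1,
  G2p2_5, G2p2_6, G2p2_7, G2p2_8, G2p3_0, G2p3_1, G2p3_2, G2p3_5, G2p3_6, G2p3_7, G2p3_8, G2p4_0,
  G2p4_1, G2p4_2, G2p4_3, G2p4_5, G2p4_6, G2p4_7, G2p4_8, G2p6_5, G2p7_5, G2p7_6, G2p8_5, G2p8_6,
  G2p8_7]⟩) (.leaf ⟨105486404, 6132611426060679282786,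
  12940866549090120388106266713948453434750131473567126304423737912984057, 25881, [G2p0_5, G2p0_6,
  G2p0_7, G2p0_8, G2p1_0, G2p1_3, G2p1_4, G2p1_5, G2p1_6, G2p1_7, G2p1_8, G2p2_0, G2p2_1, G2p2_3,
  G2p2_4, G2p2_5, G2p2_6, G2p2_7, G2p2_8, G2p3_4, G2p6_5, G2p7_5, G2p7_6, G2p8_5, G2p8_6,
  G2p8_7]⟩)))) (.node 108 (.node 106 (.node 105 (.leaf ⟨105273416, 7351171669385173863491,
  12940866549090120388818028693213027490714168855784435913814736675209703, 25893, [G2p0_5, G2p0_6,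
  G2p0_7, G2p0_8, G2p1_2, G2p3_0, G2p3_1, G2p3_2, G2p3_4, G2p3_5, G2p3_6, G2p3_7, G2p3_8, G2p6_5,
  G2p7_5, G2p7_6, G2p8_5, G2p8_6, G2p8_7]⟩) (.leaf ⟨608588360, 9710049067817355054147,
  6928864676089776805741979375951281450205187352485989415224589640204295, 148773, [G2p1_2, G2p3_0,
  G2p3_1, G2p3_2, G2p3_4, G2p3_5, G2p3_6, G2p3_7, G2p3_8, G2p5_0, G2p5_6, G2p5_7, G2p5_8, G2p6_0,
  G2p6_7, G2p6_8, G2p7_0, G2p7_8, G2p8_0]⟩)) (.node 107 (.leaf ⟨105276488, 39343490571198139462,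
  13129589055437089890982754087168915356194666491162040926588217620561926, 25894, [G2p0_1, G2p0_2,
  G2p1_2, G2p3_1, G2p3_2, G2p3_4, G2p3_5, G2p6_0, G2p6_1, G2p6_2, G2p6_5, G2p7_0, G2p7_1, G2p7_2,
  G2p7_5, G2p7_6, G2p8_0, G2p8_1, G2p8_2, G2p8_5, G2p8_6, G2p8_7]⟩) (.leaf ⟨105404484,
  3695260988958606327840, 12940866549090120388106266847581079408528882838644479355660243516129791,
  25861, [G2p0_5, G2p0_6, G2p0_7, G2p0_8, G2p2_1, G2p3_4, G2p6_5, G2p7_5, G2p7_6, G2p8_5, G2p8_6,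
  G2p8_7]⟩))) (.node 110 (.node 109 (.leaf ⟨608719428, 6054138387390787518496,
  6928864676089776805030217530319333368019901335346032857070096481124383, 148741, [G2p2_1, G2p3_4,
  G2p5_0, G2p5_6, G2p5_7, G2p5_8, G2p6_0, G2p6_7, G2p6_8, G2p7_0, G2p7_8, G2p8_0]⟩) (.leaf
  ⟨105145416, 39343481775105117254,
  13021747623238821603650651053061020810238017531145889452098431319408642, 25862, [G2p0_1, G2p2_1,
  G2p2_4, G2p2_5, G2p3_1, G2p3_4, G2p3_5, G2p6_0, G2p6_1, G2p6_5, G2p7_0, G2p7_1, G2p7_5, G2p7_6,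
  G2p8_0, G2p8_1, G2p8_5, G2p8_6, G2p8_7]⟩)) (.node 111 (.leaf ⟨105161800, 39379546615489663078,
  12967826907139687459984599535997886193736858073504994541099682205007872, 25866, [G2p1_2, G2p1_4,
  G2p1_5, G2p2_4, G2p2_5, G2p3_4, G2p3_5, G2p6_0, G2p6_5, G2p7_0, G2p7_5, G2p7_6, G2p8_0, G2p8_5,
  G2p8_6, G2p8_7]⟩) (.leaf ⟨610374212, 6054029211418067239142,
  6928864676089778241731633064437360674061291666943216684686733593280513, 148889, [G2p1_0, G2p2_0,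
  G2p2_1, G2p3_0, G2p3_1, G2p3_2, G2p4_0, G2p4_1, G2p4_2, G2p4_3, G2p5_0, G2p5_6, G2p5_7, G2p5_8,
  G2p6_0, G2p6_7, G2p6_8, G2p7_0, G2p7_8, G2p8_0]⟩))))) (.node 120 (.node 116 (.node 114 (.node 113
  (.leaf ⟨608735812, 6054175578234158088257,
  6928864676089776805030217485717162556801422072857670789942894890057757, 148745, [G2p1_0, G2p1_2,
  G2p1_3, G2p1_4, G2p3_4, G2p5_0, G2p5_6, G2p5_7, G2p5_8, G2p6_0, G2p6_7, G2p6_8, G2p7_0, G2p7_8,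
  G2p8_0]⟩) (.leaf ⟨105420868, 4913936210172522528833,
  12940866549090120388106266802978911089612895672873378983171279950709245, 25865, [G2p0_5, G2p0_6,
  G2p0_7, G2p0_8, G2p1_0, G2p1_2, G2p1_3, G2p1_4, G2p1_5, G2p1_6, G2p1_7, G2p1_8, G2p3_4, G2p6_5,
  G2p7_5, G2p7_6, G2p8_5, G2p8_6, G2p8_7]⟩)) (.node 115 (.leaf ⟨608801348, 6054212763751769210978,
  6928864676089776805030217396523369365816607411088998299628104110833689, 148761, [G2p1_0, G2p1_3,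
  G2p1_4, G2p2_0, G2p2_1, G2p2_3, G2p2_4, G2p3_4, G2p5_0, G2p5_6, G2p5_7, G2p5_8, G2p6_0, G2p6_7,
  G2p6_8, G2p7_0, G2p7_8, G2p8_0]⟩) (.leaf ⟨105489476, 39570033740826673382,
  13614875500329297183895372578613551604592018938287095909096572302393368, 25882, [G2p0_3, G2p0_4,
  G2p1_3, G2p1_4, G2p2_1, G2p2_3, G2p2_4, G2p3_4, G2p6_0, G2p6_3, G2p6_4, G2p6_5, G2p7_0, G2p7_3,
  G2p7_4, G2p7_5, G2p7_6, G2p8_0, G2p8_3, G2p8_4, G2p8_5, G2p8_6, G2p8_7]⟩))) (.node 118 (.node 117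
  (.leaf ⟨608768582, 6054473104190848663592,
  7737675417576788959977144434316880317329243748125127080346470169051166, 148753, [G2p0_1, G2p0_2,
  G2p0_3, G2p0_4, G2p1_2, G2p1_3, G2p1_4, G2p2_3, G2p2_4, G2p3_4, G2p5_0, G2p5_1, G2p5_2, G2p5_3,
  G2p5_4, G2p5_6, G2p5_7, G2p5_8, G2p6_0, G2p6_1, G2p6_2, G2p6_3, G2p6_4, G2p6_7, G2p6_8, G2p7_0,
  G2p7_1, G2p7_2, G2p7_3, G2p7_4, G2p7_8, G2p8_0, G2p8_1, G2p8_2, G2p8_3, G2p8_4]⟩) (.leaf
  ⟨110257220, 39607232624376328614,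
  13776637648626702679922608483978818582188683799103554681844198977568830, 26214, [G2p0_1, G2p0_2,
  G2p0_3, G2p0_4, G2p0_5, G2p1_2, G2p1_3, G2p1_4, G2p1_5, G2p2_3, G2p2_4, G2p2_5, G2p3_4, G2p3_5,
  G2p4_5, G2p6_0, G2p6_1, G2p6_2, G2p6_3, G2p6_4, G2p6_5, G2p7_0, G2p7_1, G2p7_2, G2p7_3, G2p7_4,
  G2p7_5, G2p7_6, G2p8_0, G2p8_1, G2p8_2, G2p8_3, G2p8_4, G2p8_5, G2p8_6, G2p8_7]⟩)) (.node 119
  (.leaf ⟨110175305, 39384088698024073281,
  12967826907139690524975681535368211785916856753119187725975938014117949, 26194, [G2p1_0, G2p1_2,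
  G2p1_3, G2p1_4, G2p1_5, G2p3_4, G2p3_5, G2p4_5, G2p6_0, G2p6_5, G2p7_0, G2p7_5, G2p7_6, G2p8_0,
  G2p8_5, G2p8_6, G2p8_7]⟩) (.leaf ⟨110240841, 39421274215635229794,
  12967826907139690524975681446185307630673512122181343223098980997529657, 26210, [G2p1_0, G2p1_3,
  G2p1_4, G2p1_5, G2p2_0, G2p2_1, G2p2_3, G2p2_4, G2p2_5, G2p3_4, G2p3_5, G2p4_5, G2p6_0, G2p6_5,
  G2p7_0, G2p7_5, G2p7_6, G2p8_0, G2p8_5, G2p8_6, G2p8_7]⟩)))) (.node 124 (.node 122 (.node 121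
  (.leaf ⟨105407556, 39570043945668968678,
  13776637648626699614884758119968762250961832374906828671777472230850590, 25862, [G2p0_1, G2p0_2,
  G2p0_3, G2p0_4, G2p2_1, G2p3_4, G2p6_0, G2p6_1, G2p6_2, G2p6_3, G2p6_4, G2p6_5, G2p7_0, G2p7_1,
  G2p7_2, G2p7_3, G2p7_4, G2p7_5, G2p7_6, G2p8_0, G2p8_1, G2p8_2, G2p8_3, G2p8_4, G2p8_5, G2p8_6,
  G2p8_7]⟩) (.leaf ⟨105423940, 39570043602071584998,
  13722716932527565471221629606180289315681955682095503242086114490318876, 25866, [G2p0_2, G2p0_3,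
  G2p0_4, G2p1_2, G2p1_3, G2p1_4, G2p3_4, G2p6_0, G2p6_2, G2p6_3, G2p6_4, G2p6_5, G2p7_0, G2p7_2,
  G2p7_3, G2p7_4, G2p7_5, G2p7_6, G2p8_0, G2p8_2, G2p8_3, G2p8_4, G2p8_5, G2p8_6, G2p8_7]⟩)) (.node
  123 (.leaf ⟨110208068, 39272515824314879206,
  12967826907139690524975681579970382430981836542493065680127248476143616, 26202, [G2p2_1, G2p3_4,
  G2p3_5, G2p4_5, G2p6_0, G2p6_5, G2p7_0, G2p7_5, G2p7_6, G2p8_0, G2p8_5, G2p8_6, G2p8_7]⟩) (.leaf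
  ⟨605131364, 4835576845577420280963,
  6928864676089777571254603959375720488013224019670157495975034385596441, 148569, [G2p1_0, G2p1_3,
  G2p1_4, G2p2_0, G2p2_1, G2p2_3, G2p2_4, G2p4_3, G2p5_0, G2p5_3, G2p5_4, G2p5_6, G2p5_7, G2p5_8,
  G2p6_0, G2p6_7, G2p6_8, G2p7_0, G2p7_8, G2p8_0]⟩))) (.node 126 (.node 125 (.leaf ⟨605622882,
  4835428587635689391463, 7090626824387180002243988675602337957226108979682406934124576364298246,
  148561, [G2p0_1, G2p0_2, G2p1_2, G2p4_3, G2p5_0, G2p5_1, G2p5_2, G2p5_3, G2p5_4, G2p5_6, G2p5_7,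
  G2p5_8, G2p6_0, G2p6_1, G2p6_2, G2p6_7, G2p6_8, G2p7_0, G2p7_1, G2p7_2, G2p7_8, G2p8_0, G2p8_1,
  G2p8_2]⟩) (.leaf ⟨110204996, 7351100698039904701571,
  12940866549090123453144127358575503827818946488768229302972648114880993, 26201, [G2p0_5, G2p0_6,
  G2p0_7, G2p0_8, G2p1_0, G2p1_5, G2p1_6, G2p1_7, G2p1_8, G2p2_0, G2p2_1, G2p2_5, G2p2_6, G2p2_7,
  G2p2_8, G2p3_4, G2p3_5, G2p4_5, G2p6_5, G2p7_5, G2p7_6, G2p8_5, G2p8_6, G2p8_7]⟩)) (.node 127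
  (.leaf ⟨605626977, 4835428367459660334246,
  6901904318040210595205471861506750577589070026847495662632655644590081, 148562, [G2p1_0, G2p1_2,
  G2p2_0, G2p3_0, G2p4_0, G2p4_3, G2p5_0, G2p5_3, G2p5_4, G2p5_6, G2p5_7, G2p5_8, G2p6_7, G2p6_8,
  G2p7_8]⟩) (.leaf ⟨110172230, 2476548583292230896773,
  12940866549090124027838714179908858129510573799602463280592732293562374, 26193, [G2p0_1, G2p0_2,
  G2p0_5, G2p0_6, G2p0_7, G2p0_8, G2p1_2, G2p3_1, G2p3_2, G2p3_4, G2p3_5, G2p4_1, G2p4_2, G2p4_5,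
  G2p6_5, G2p7_5, G2p7_6, G2p8_5, G2p8_6, G2p8_7]⟩))))))

def G2T3 : Tr :=
  .node 160 (.node 144 (.node 136 (.node 132 (.node 130 (.node 129 (.leaf ⟨102307938,
  2476774110581834849633, 13587915142279730878288194215540803067557470998049160623356301625262086,
  25681, [G2p0_1, G2p0_2, G2p0_3, G2p0_4, G2p0_5, G2p0_6, G2p0_7, G2p0_8, G2p1_2, G2p4_3, G2p5_3,
  G2p5_4, G2p6_3, G2p6_4, G2p6_5, G2p7_3, G2p7_4, G2p7_5, G2p7_6, G2p8_3, G2p8_4, G2p8_5, G2p8_6,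
  G2p8_7]⟩) (.leaf ⟨613487174, 9709978110009822809227,
  7090626824387225882064390067408275677245113087671919195573299490193414, 149073, [G2p0_1, G2p0_2,
  G2p1_2, G2p3_0, G2p3_1, G2p3_2, G2p3_4, G2p3_5, G2p3_6, G2p3_7, G2p3_8, G2p4_0, G2p4_1, G2p4_2,
  G2p4_5, G2p4_6, G2p4_7, G2p4_8, G2p5_0, G2p5_1, G2p5_2, G2p5_6, G2p5_7, G2p5_8, G2p6_0, G2p6_1,
  G2p6_2, G2p6_7, G2p6_8, G2p7_0, G2p7_1, G2p7_2, G2p7_8, G2p8_0, G2p8_1, G2p8_2]⟩)) (.node 131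
  (.leaf ⟨110254148, 3695298177637313386720,
  12940866549090123453144117211591135739753198922955122679255843265839615, 26213, [G2p0_5, G2p0_6,
  G2p0_7, G2p0_8, G2p1_2, G2p1_3, G2p1_4, G2p1_5, G2p2_3, G2p2_4, G2p2_5, G2p3_4, G2p3_5, G2p4_5,
  G2p6_5, G2p7_5, G2p7_6, G2p8_5, G2p8_6, G2p8_7]⟩) (.leaf ⟨613569092, 13366003758292768364768,
  6928864676089822876380407691684436044969702716867917385401858151940607, 149093, [G2p1_0, G2p1_2,
  G2p1_3, G2p1_4, G2p1_5, G2p1_6, G2p1_7, G2p1_8, G2p2_0, G2p2_3, G2p2_4, G2p2_5, G2p2_6, G2p2_7,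
  G2p2_8, G2p3_0, G2p3_4, G2p3_5, G2p3_6, G2p3_7, G2p3_8, G2p4_0, G2p4_5, G2p4_6, G2p4_7, G2p4_8,
  G2p5_0, G2p5_6, G2p5_7, G2p5_8, G2p6_0, G2p6_7, G2p6_8, G2p7_0, G2p7_8, G2p8_0]⟩))) (.node 134
  (.node 133 (.leaf ⟨613962308, 8491303056677588273248,
  6928864676089823451074993397973724606637779339557400539453787868626951, 149061, [G2p2_1, G2p3_0,
  G2p3_1, G2p3_2, G2p3_4, G2p3_5, G2p3_6, G2p3_7, G2p3_8, G2p4_0, G2p4_1, G2p4_2, G2p4_5, G2p4_6,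
  G2p4_7, G2p4_8, G2p5_0, G2p5_6, G2p5_7, G2p5_8, G2p6_0, G2p6_7, G2p6_8, G2p7_0, G2p7_8, G2p8_0]⟩)
  (.leaf ⟨605180516, 4835576952195688436864,
  6928864676089777571254603803269483266774989789134222349205697526759455, 148581, [G2p1_2, G2p1_3,
  G2p1_4, G2p2_3, G2p2_4, G2p4_3, G2p5_0, G2p5_3, G2p5_4, G2p5_6, G2p5_7, G2p5_8, G2p6_0, G2p6_7,
  G2p6_8, G2p7_0, G2p7_8, G2p8_0]⟩)) (.node 135 (.leaf ⟨605573730, 4835428372062690870535,
  6928864676089778145949200236380890637656557846682167158151776342900736, 148549, [G2p2_1, G2p3_1,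
  G2p3_2, G2p4_1, G2p4_2, G2p4_3, G2p5_0, G2p5_1, G2p5_2, G2p5_3, G2p5_4, G2p5_6, G2p5_7, G2p5_8,
  G2p6_0, G2p6_7, G2p6_8, G2p7_0, G2p7_8, G2p8_0]⟩) (.leaf ⟨110237766, 2476585765511307137190,
  12940866549090123644708982867704075490640419790642937308994547877019650, 26209, [G2p0_1, G2p0_5,
  G2p0_6, G2p0_7, G2p0_8, G2p2_1, G2p2_3, G2p2_4, G2p2_5, G2p3_1, G2p3_4, G2p3_5, G2p4_1, G2p4_5,
  G2p6_5, G2p7_5, G2p7_6, G2p8_5, G2p8_6, G2p8_7]⟩)))) (.node 140 (.node 138 (.node 137 (.leaf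
  ⟨605164134, 4835502570474587556935,
  6982785392188911714917732317057956202054866481945547779459996630777858, 148577, [G2p0_1, G2p2_1,
  G2p2_3, G2p2_4, G2p4_3, G2p5_0, G2p5_1, G2p5_3, G2p5_4, G2p5_6, G2p5_7, G2p5_8, G2p6_0, G2p6_1,
  G2p6_7, G2p6_8, G2p7_0, G2p7_1, G2p7_8, G2p8_0, G2p8_1]⟩) (.leaf ⟨613552710,
  10928653316002374914220, 6982785392188957211608401816983675583384576217881234010869133629063170,
  149089, [G2p0_1, G2p2_0, G2p2_1, G2p2_3, G2p2_4, G2p2_5, G2p2_6, G2p2_7, G2p2_8, G2p3_0, G2p3_1,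
  G2p3_4, G2p3_5, G2p3_6, G2p3_7, G2p3_8, G2p4_0, G2p4_1, G2p4_5, G2p4_6, G2p4_7, G2p4_8, G2p5_0,
  G2p5_1, G2p5_6, G2p5_7, G2p5_8, G2p6_0, G2p6_1, G2p6_7, G2p6_8, G2p7_0, G2p7_1, G2p7_8, G2p8_0,
  G2p8_1]⟩)) (.node 139 (.leaf ⟨605594209, 4835428375396759897254,
  6901904318040211169900068829843188783102948369425755852218878627610631, 148554, [G2p1_2, G2p3_0,
  G2p3_1, G2p3_2, G2p4_0, G2p4_1, G2p4_2, G2p4_3, G2p5_0, G2p5_1, G2p5_2, G2p5_3, G2p5_4, G2p5_6,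
  G2p5_7, G2p5_8, G2p6_7, G2p6_8, G2p7_8]⟩) (.leaf ⟨109683780, 39209745770637034726,
  13183509771536227865805812606830618325378068265887360142779901903634440, 26138, [G2p0_3, G2p1_3,
  G2p2_1, G2p2_3, G2p4_3, G2p4_5, G2p6_0, G2p6_3, G2p6_5, G2p7_0, G2p7_3, G2p7_5, G2p7_6, G2p8_0,
  G2p8_3, G2p8_5, G2p8_6, G2p8_7]⟩))) (.node 142 (.node 141 (.leaf ⟨109680708,
  6132395253278565500002, 12940866549090124219321734495655937106488985375472476410376346076185065,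
  26137, [G2p0_5, G2p0_6, G2p0_7, G2p0_8, G2p1_0, G2p1_3, G2p1_5, G2p1_6, G2p1_7, G2p1_8, G2p2_0,
  G2p2_1, G2p2_3, G2p2_5, G2p2_6, G2p2_7, G2p2_8, G2p4_3, G2p4_5, G2p6_5, G2p7_5, G2p7_6, G2p8_5,
  G2p8_6, G2p8_7]⟩) (.leaf ⟨109647942, 2476483489936123823171,
  12940866549090124794007562320199900130921814952148031223693559196418062, 26129, [G2p0_1, G2p0_2,
  G2p0_3, G2p0_5, G2p0_6, G2p0_7, G2p0_8, G2p1_2, G2p1_3, G2p2_3, G2p4_1, G2p4_2, G2p4_3, G2p4_5,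
  G2p6_5, G2p7_5, G2p7_6, G2p8_5, G2p8_6, G2p8_7]⟩)) (.node 143 (.leaf ⟨109454409,
  39200530867837738181, 12967826907139691961677097114099298938918196378035561608157584710172705,
  26146, [G2p1_0, G2p1_5, G2p2_0, G2p2_1, G2p2_5, G2p3_0, G2p3_1, G2p3_2, G2p3_5, G2p4_0, G2p4_1,
  G2p4_2, G2p4_3, G2p4_5, G2p6_0, G2p6_5, G2p7_0, G2p7_5, G2p7_6, G2p8_0, G2p8_5, G2p8_6, G2p8_7]⟩)
  (.leaf ⟨109470792, 39200536467401248870,
  13129589055437094296884049693590165513261140326405990939774846161518598, 26150, [G2p0_1, G2p0_2,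
  G2p1_2, G2p3_1, G2p3_2, G2p3_5, G2p4_1, G2p4_2, G2p4_3, G2p4_5, G2p6_0, G2p6_1, G2p6_2, G2p6_5,
  G2p7_0, G2p7_1, G2p7_2, G2p7_5, G2p7_6, G2p8_0, G2p8_1, G2p8_2, G2p8_5, G2p8_6, G2p8_7]⟩)))))
  (.node 152 (.node 148 (.node 146 (.node 145 (.leaf ⟨612962886, 7272643922418298061897,
  7306309688783763222229527836248356603608877662642800467419987239108622, 149009, [G2p0_1, G2p0_2,
  G2p0_3, G2p1_2, G2p1_3, G2p2_3, G2p4_0, G2p4_1, G2p4_2, G2p4_3, G2p4_5, G2p4_6, G2p4_7, G2p4_8,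
  G2p5_0, G2p5_1, G2p5_2, G2p5_3, G2p5_6, G2p5_7, G2p5_8, G2p6_0, G2p6_1, G2p6_2, G2p6_3, G2p6_7,
  G2p6_8, G2p7_0, G2p7_1, G2p7_2, G2p7_3, G2p7_8, G2p8_0, G2p8_1, G2p8_2, G2p8_3]⟩) (.leaf
  ⟨109339720, 39200527671308226662,
  13021747623238825626428061443004611859846999563397129566881371023081474, 26118, [G2p0_1, G2p2_1,
  G2p2_5, G2p3_1, G2p3_5, G2p4_1, G2p4_3, G2p4_5, G2p6_0, G2p6_1, G2p6_5, G2p7_0, G2p7_1, G2p7_5,
  G2p7_6, G2p8_0, G2p8_1, G2p8_5, G2p8_6, G2p8_7]⟩)) (.node 147 (.leaf ⟨109598788,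
  3695118035988680770624, 12940866549090124794007562454002329565595356673888429368846872057086447,
  26117, [G2p0_5, G2p0_6, G2p0_7, G2p0_8, G2p2_1, G2p4_1, G2p4_2, G2p4_3, G2p4_5, G2p6_5, G2p7_5,
  G2p7_6, G2p8_5, G2p8_6, G2p8_7]⟩) (.leaf ⟨612913732, 7272633464791407592512,
  6928864676089824216587628685746671206199824576141448171123341299417103, 148997, [G2p2_1, G2p4_0,
  G2p4_1, G2p4_2, G2p4_3, G2p4_5, G2p4_6, G2p4_7, G2p4_8, G2p5_0, G2p5_6, G2p5_7, G2p5_8, G2p6_0,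
  G2p6_7, G2p6_8, G2p7_0, G2p7_8, G2p8_0]⟩))) (.node 150 (.node 149 (.leaf ⟨109601860,
  39209755975479330022, 13345271919833630871481025972899595457075501635845692812694822209847310,
  26118, [G2p0_1, G2p0_2, G2p0_3, G2p2_1, G2p4_1, G2p4_2, G2p4_3, G2p4_5, G2p6_0, G2p6_1, G2p6_2,
  G2p6_3, G2p6_5, G2p7_0, G2p7_1, G2p7_2, G2p7_3, G2p7_5, G2p7_6, G2p8_0, G2p8_1, G2p8_2, G2p8_3,
  G2p8_5, G2p8_6, G2p8_7]⟩) (.leaf ⟨109618244, 39209755631881946342,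
  13291351203734496536255954850875015143925496812688477374173132928843788, 26122, [G2p0_2, G2p0_3,
  G2p1_2, G2p1_3, G2p4_2, G2p4_3, G2p4_5, G2p6_0, G2p6_2, G2p6_3, G2p6_5, G2p7_0, G2p7_2, G2p7_3,
  G2p7_5, G2p7_6, G2p8_0, G2p8_2, G2p8_3, G2p8_5, G2p8_6, G2p8_7]⟩)) (.node 151 (.leaf ⟨109615172,
  4913756066187427710017, 12940866549090124602445619801164053868809241377771438987527576951194093,
  26121, [G2p0_5, G2p0_6, G2p0_7, G2p0_8, G2p1_0, G2p1_2, G2p1_3, G2p1_5, G2p1_6, G2p1_7, G2p1_8,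
  G2p4_2, G2p4_3, G2p4_5, G2p6_5, G2p7_5, G2p7_6, G2p8_5, G2p8_6, G2p8_7]⟩) (.leaf ⟨612930116,
  7272633464619608900673, 6928864676089824025025686032908393017111217183307196095165808167878669,
  149001, [G2p1_0, G2p1_2, G2p1_3, G2p4_0, G2p4_2, G2p4_3, G2p4_5, G2p4_6, G2p4_7, G2p4_8, G2p5_0,
  G2p5_6, G2p5_7, G2p5_8, G2p6_0, G2p6_7, G2p6_8, G2p7_0, G2p7_8, G2p8_0]⟩)))) (.node 156 (.node 154
  (.node 153 (.leaf ⟨107062340, 39237721881933119718,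
  12967826907139688800856813788235787737561980309420926953912071366901760, 26010, [G2p2_1, G2p3_1,
  G2p3_2, G2p4_1, G2p4_2, G2p4_3, G2p6_0, G2p6_5, G2p7_0, G2p7_5, G2p7_6, G2p8_0, G2p8_5, G2p8_6,
  G2p8_7]⟩) (.leaf ⟨610341446, 6054029218152575959176,
  7090626824387180576938585643939116450299205119258958118406544022700038, 148881, [G2p0_1, G2p0_2,
  G2p1_2, G2p3_1, G2p3_2, G2p4_1, G2p4_2, G2p4_3, G2p5_0, G2p5_1, G2p5_2, G2p5_6, G2p5_7, G2p5_8,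
  G2p6_0, G2p6_1, G2p6_2, G2p6_7, G2p6_8, G2p7_0, G2p7_1, G2p7_2, G2p7_8, G2p8_0, G2p8_1, G2p8_2]⟩))
  (.node 155 (.leaf ⟨107111492, 39237937454931640646,
  13129589055437090657151602227457235057131531442421166729884871388299270, 26022, [G2p0_1, G2p0_2,
  G2p1_2, G2p4_3, G2p6_0, G2p6_1, G2p6_2, G2p6_5, G2p7_0, G2p7_1, G2p7_2, G2p7_5, G2p7_6, G2p8_0,
  G2p8_1, G2p8_2, G2p8_5, G2p8_6, G2p8_7]⟩) (.leaf ⟨107029577, 39349294652563000385,
  12967826907139688609291948132122847991867214756592968481379050176905277, 26002, [G2p1_0, G2p1_2,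
  G2p1_3, G2p1_4, G2p1_5, G2p3_2, G2p4_2, G2p4_3, G2p6_0, G2p6_5, G2p7_0, G2p7_5, G2p7_6, G2p8_0,
  G2p8_5, G2p8_6, G2p8_7]⟩))) (.node 158 (.node 157 (.leaf ⟨101786777, 39203944712929084481,
  12105095449553545471448099832894422181396805628664725516886914617835533, 26706, [G2p1_0, G2p1_2,
  G2p1_3, G2p4_0, G2p4_2, G2p4_3, G2p4_5, G2p5_0, G2p6_0, G2p7_0, G2p7_6, G2p8_0, G2p8_6, G2p8_7]⟩)
  (.leaf ⟨103162977, 39532852936942163146,
  13776637648626699614884758142269847737049296432297635437722671408676865, 25762, [G2p1_0, G2p2_0,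
  G2p2_1, G2p3_4, G2p5_0, G2p5_1, G2p5_2, G2p5_3, G2p5_4, G2p6_0, G2p6_1, G2p6_2, G2p6_3, G2p6_4,
  G2p6_5, G2p7_0, G2p7_1, G2p7_2, G2p7_3, G2p7_4, G2p7_5, G2p7_6, G2p8_0, G2p8_1, G2p8_2, G2p8_3,
  G2p8_4, G2p8_5, G2p8_6, G2p8_7]⟩)) (.node 159 (.leaf ⟨107108420, 3695151810649423839360,
  12940866549090121154330652585305177641127788767616446222171560516518375, 26021, [G2p0_5, G2p0_6,
  G2p0_7, G2p0_8, G2p1_2, G2p4_3, G2p6_5, G2p7_5, G2p7_6, G2p8_5, G2p8_6, G2p8_7]⟩) (.leaf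
  ⟨610423364, 6054029209081605030016,
  6928864676089777571254603268043431600618807264317999723581413481512967, 148901, [G2p1_2, G2p4_3,
  G2p5_0, G2p5_6, G2p5_7, G2p5_8, G2p6_0, G2p6_7, G2p6_8, G2p7_0, G2p7_8, G2p8_0]⟩)))))) (.node 176
  (.node 168 (.node 164 (.node 162 (.node 161 (.leaf ⟨610406982, 6054029207157459681416,
  6982785392188911906482597393342673761143594325419268756949335214784514, 148897, [G2p0_1, G2p2_1,
  G2p3_1, G2p4_1, G2p4_3, G2p5_0, G2p5_1, G2p5_6, G2p5_7, G2p5_8, G2p6_0, G2p6_1, G2p6_7, G2p6_8,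
  G2p7_0, G2p7_1, G2p7_8, G2p8_0, G2p8_1]⟩) (.leaf ⟨107092038, 2476513778251653644421,
  12940866549090121345895518241418117682783633713254608049618059564023810, 26017, [G2p0_1, G2p0_5,
  G2p0_6, G2p0_7, G2p0_8, G2p2_1, G2p3_1, G2p4_1, G2p4_3, G2p6_5, G2p7_5, G2p7_6, G2p8_5, G2p8_6,
  G2p8_7]⟩)) (.node 163 (.leaf ⟨101852313, 39205101433521243234,
  12105095449553545088324214527222969882954499163903343128168435001327625, 26722, [G2p1_0, G2p1_3,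
  G2p2_0, G2p2_1, G2p2_3, G2p4_0, G2p4_3, G2p4_5, G2p5_0, G2p6_0, G2p7_0, G2p7_6, G2p8_0, G2p8_6,
  G2p8_7]⟩) (.leaf ⟨103163025, 39309706842809208836,
  12105095449553544322148058901046018565483496554030026157318438297468929, 26786, [G2p1_0, G2p2_0,
  G2p2_1, G2p3_0, G2p3_4, G2p3_5, G2p4_0, G2p4_5, G2p5_0, G2p6_0, G2p7_0, G2p7_6, G2p8_0, G2p8_6,
  G2p8_7]⟩))) (.node 166 (.node 165 (.leaf ⟨103064673, 39644423642766513351,
  13776637648626699614884757986171777417232289329720684366263608888197151, 25738, [G2p1_2, G2p1_3,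
  G2p1_4, G2p2_3, G2p2_4, G2p3_4, G2p5_0, G2p5_1, G2p5_2, G2p5_3, G2p5_4, G2p6_0, G2p6_1, G2p6_2,
  G2p6_3, G2p6_4, G2p6_5, G2p7_0, G2p7_1, G2p7_2, G2p7_3, G2p7_4, G2p7_5, G2p7_6, G2p8_0, G2p8_1,
  G2p8_2, G2p8_3, G2p8_4, G2p8_5, G2p8_6, G2p8_7]⟩) (.leaf ⟨606380641, 4835649118742309241923,
  6901904318040209733198653161929197474858264113571537467160274914967583, 148618, [G2p1_2, G2p1_3,
  G2p1_4, G2p2_3, G2p2_4, G2p3_4, G2p5_0, G2p5_1, G2p5_2, G2p5_3, G2p5_4, G2p5_6, G2p5_7, G2p5_8,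
  G2p6_7, G2p6_8, G2p7_8]⟩)) (.node 167 (.leaf ⟨155591753, 3616966999022789433508,
  6928864676089776805087216651710542635497095635131774034230297867845681, 38178, [G2p1_0, G2p1_4,
  G2p1_5, G2p2_0, G2p2_1, G2p2_4, G2p2_5, G2p3_0, G2p3_1, G2p3_2, G2p3_4, G2p3_5, G2p6_0, G2p6_7,
  G2p6_8, G2p7_0, G2p7_8, G2p8_0]⟩) (.leaf ⟨608473672, 10928723157633806274660,
  6928864676089776805733210232491947758443471502426010640766749432152065, 148745, [G2p1_0, G2p1_2,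
  G2p1_4, G2p1_5, G2p1_6, G2p1_7, G2p1_8, G2p2_0, G2p2_4, G2p2_5, G2p2_6, G2p2_7, G2p2_8, G2p3_0,
  G2p3_4, G2p3_5, G2p3_6, G2p3_7, G2p3_8, G2p5_0, G2p5_6, G2p5_7, G2p5_8, G2p6_0, G2p6_7, G2p6_8,
  G2p7_0, G2p7_8, G2p8_0]⟩)))) (.node 172 (.node 170 (.node 169 (.leaf ⟨612651592,
  10928544138620905361508, 6928864676089823834169659219318456655456672343943870023188542887493635,
  148997, [G2p2_0, G2p2_1, G2p2_5, G2p2_6, G2p2_7, G2p2_8, G2p3_0, G2p3_1, G2p3_5, G2p3_6, G2p3_7,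
  G2p3_8, G2p4_0, G2p4_1, G2p4_3, G2p4_5, G2p4_6, G2p4_7, G2p4_8, G2p5_0, G2p5_6, G2p5_7, G2p5_8,
  G2p6_0, G2p6_7, G2p6_8, G2p7_0, G2p7_8, G2p8_0]⟩) (.leaf ⟨558244937, 2476727630966517110948,
  12078135091503974089553210461991454774064973774230866899127897835962417, 136482, [G2p1_0, G2p1_4,
  G2p1_5, G2p2_0, G2p2_1, G2p2_4, G2p2_5, G2p3_0, G2p3_1, G2p3_2, G2p3_4, G2p3_5, G2p7_6, G2p8_6,
  G2p8_7]⟩)) (.node 171 (.leaf ⟨157358150, 6054029214743277961349,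
  6901904318040211074117636001787059034295937813429913364456110276608006, 38289, [G2p0_1, G2p0_2,
  G2p0_5, G2p0_6, G2p0_7, G2p0_8, G2p1_2, G2p3_1, G2p3_2, G2p4_1, G2p4_2, G2p4_3, G2p6_7, G2p6_8,
  G2p7_8]⟩) (.leaf ⟨155785286, 6054249958092149194786,
  6901904318040209733198653161929197474898671056738795855338964193771550, 38161, [G2p0_1, G2p0_2,
  G2p0_3, G2p0_4, G2p0_5, G2p0_6, G2p0_7, G2p0_8, G2p1_2, G2p1_3, G2p1_4, G2p2_3, G2p2_4, G2p3_4,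
  G2p6_7, G2p6_8, G2p7_8]⟩))) (.node 174 (.node 173 (.leaf ⟨157390916, 14584495424004202758374,
  6901904318040257145467826296949827088937084432807270337530019111240161, 38297, [G2p0_5, G2p0_6,
  G2p0_7, G2p0_8, G2p1_0, G2p1_5, G2p1_6, G2p1_7, G2p1_8, G2p2_0, G2p2_1, G2p2_5, G2p2_6, G2p2_7,
  G2p2_8, G2p3_0, G2p3_1, G2p3_2, G2p3_5, G2p3_6, G2p3_7, G2p3_8, G2p4_0, G2p4_1, G2p4_2, G2p4_3,
  G2p4_5, G2p4_6, G2p4_7, G2p4_8, G2p6_7, G2p6_8, G2p7_8]⟩) (.leaf ⟨155818052,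
  9710126854855722205282, 6901904318040209733198653162093556334844709010828956669647425189183993,
  38169, [G2p0_5, G2p0_6, G2p0_7, G2p0_8, G2p1_0, G2p1_3, G2p1_4, G2p1_5, G2p1_6, G2p1_7, G2p1_8,
  G2p2_0, G2p2_1, G2p2_3, G2p2_4, G2p2_5, G2p2_6, G2p2_7, G2p2_8, G2p3_4, G2p6_7, G2p6_8, G2p7_8]⟩))
  (.node 175 (.leaf ⟨558256712, 39343487171800730691,
  12105095449553541161384774696567251199133117793441979222369304743182343, 136485, [G2p1_2, G2p3_0,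
  G2p3_1, G2p3_2, G2p3_4, G2p3_5, G2p5_0, G2p6_0, G2p7_0, G2p7_6, G2p8_0, G2p8_6, G2p8_7]⟩) (.leaf
  ⟨155605064, 10928687098180216785987,
  6901904318040209733910415141358130390808746393046266279038423951409639, 38181, [G2p0_5, G2p0_6,
  G2p0_7, G2p0_8, G2p1_2, G2p3_0, G2p3_1, G2p3_2, G2p3_4, G2p3_5, G2p3_6, G2p3_7, G2p3_8, G2p6_7,
  G2p6_8, G2p7_8]⟩))))) (.node 184 (.node 180 (.node 178 (.node 177 (.leaf ⟨155608136,
  3616858919366241160262, 7090626824387179236075140535314018256289244028423871291811904896761862,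
  38182, [G2p0_1, G2p0_2, G2p1_2, G2p3_1, G2p3_2, G2p3_4, G2p3_5, G2p6_0, G2p6_1, G2p6_2, G2p6_7,
  G2p6_8, G2p7_0, G2p7_1, G2p7_2, G2p7_8, G2p8_0, G2p8_1, G2p8_2]⟩) (.leaf ⟨558387780,
  39346897854653300768, 12105095449553541161327775575193396566022249989360703603486624071942175,
  136453, [G2p2_1, G2p3_4, G2p5_0, G2p6_0, G2p7_0, G2p7_6, G2p8_0, G2p8_6, G2p8_7]⟩)) (.node 179
  (.leaf ⟨155736132, 7272776417753649250336,
  6901904318040209733198653295726182308623460375906309720883930792329727, 38149, [G2p0_5, G2p0_6,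
  G2p0_7, G2p0_8, G2p2_1, G2p3_4, G2p6_7, G2p6_8, G2p7_8]⟩) (.leaf ⟨155477064,
  3616858910570148138054, 6982785392188910948743037501206123710332595068407719817322118595608578,
  38150, [G2p0_1, G2p2_1, G2p2_4, G2p2_5, G2p3_1, G2p3_4, G2p3_5, G2p6_0, G2p6_1, G2p6_7, G2p6_8,
  G2p7_0, G2p7_1, G2p7_8, G2p8_0, G2p8_1]⟩))) (.node 182 (.node 181 (.leaf ⟨558142024,
  39379546618814697572, 12105095449553541161376005552955468680841828888147631042119676885794817,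
  136457, [G2p1_0, G2p1_2, G2p1_4, G2p1_5, G2p2_0, G2p2_4, G2p2_5, G2p3_0, G2p3_4, G2p3_5, G2p5_0,
  G2p6_0, G2p7_0, G2p7_6, G2p8_0, G2p8_6, G2p8_7]⟩) (.leaf ⟨155493448, 3616894975410532683878,
  6928864676089776805076985984142989093831435610766824906323369481207808, 38154, [G2p1_2, G2p1_4,
  G2p1_5, G2p2_4, G2p2_5, G2p3_4, G2p3_5, G2p6_0, G2p6_7, G2p6_8, G2p7_0, G2p7_8, G2p8_0]⟩)) (.node
  183 (.leaf ⟨155752516, 8491451638967565451329,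
  6901904318040209733198653251124013989707473210135209348394967226909181, 38153, [G2p0_5, G2p0_6,
  G2p0_7, G2p0_8, G2p1_0, G2p1_2, G2p1_3, G2p1_4, G2p1_5, G2p1_6, G2p1_7, G2p1_8, G2p3_4, G2p6_7,
  G2p6_8, G2p7_8]⟩) (.leaf ⟨558469700, 39421274215634993250,
  12105095449553541161327775441397432563818956065103669046044631701651481, 136473, [G2p1_0, G2p1_3,
  G2p1_4, G2p2_0, G2p2_1, G2p2_3, G2p2_4, G2p3_4, G2p5_0, G2p6_0, G2p7_0, G2p7_6, G2p8_0, G2p8_6,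
  G2p8_7]⟩)))) (.node 188 (.node 186 (.node 185 (.leaf ⟨155821124, 3617085462535869595878,
  7575913269279386528987759026758654504686596475548926274320259578593304, 38170, [G2p0_3, G2p0_4,
  G2p1_3, G2p1_4, G2p2_1, G2p2_3, G2p2_4, G2p3_4, G2p6_0, G2p6_3, G2p6_4, G2p6_7, G2p6_8, G2p7_0,
  G2p7_3, G2p7_4, G2p7_8, G2p8_0, G2p8_3, G2p8_4]⟩) (.leaf ⟨558436934, 39607232624375922726,
  12913906191040553316274702479190943515331592402139797826762997759868958, 136465, [G2p0_1, G2p0_2,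
  G2p0_3, G2p0_4, G2p1_2, G2p1_3, G2p1_4, G2p2_3, G2p2_4, G2p3_4, G2p5_0, G2p5_1, G2p5_2, G2p5_3,
  G2p5_4, G2p6_0, G2p6_1, G2p6_2, G2p6_3, G2p6_4, G2p7_0, G2p7_1, G2p7_2, G2p7_3, G2p7_4, G2p7_6,
  G2p8_0, G2p8_1, G2p8_2, G2p8_3, G2p8_4, G2p8_6, G2p8_7]⟩)) (.node 187 (.leaf ⟨160506953,
  3616899517493067094081, 6928864676089779870068067983513314686011434290381018091199625290317885,
  38482, [G2p1_0, G2p1_2, G2p1_3, G2p1_4, G2p1_5, G2p3_4, G2p3_5, G2p4_5, G2p6_0, G2p6_7, G2p6_8,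
  G2p7_0, G2p7_8, G2p8_0]⟩) (.leaf ⟨160588868, 3617122661419419349414,
  8600406875162938323625050439104755384186335145088883809324957675028542, 38502, [G2p0_1, G2p0_2,
  G2p0_3, G2p0_4, G2p0_5, G2p1_2, G2p1_3, G2p1_4, G2p1_5, G2p2_3, G2p2_4, G2p2_5, G2p3_4, G2p3_5,
  G2p4_5, G2p6_0, G2p6_1, G2p6_2, G2p6_3, G2p6_4, G2p6_5, G2p6_7, G2p6_8, G2p7_0, G2p7_1, G2p7_2,
  G2p7_3, G2p7_4, G2p7_5, G2p7_8, G2p8_0, G2p8_1, G2p8_2, G2p8_3, G2p8_4, G2p8_5]⟩))) (.node 190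
  (.node 189 (.leaf ⟨160572489, 3616936703010678250594,
  6928864676089779870068067894330410530768089659443173588322668273729593, 38498, [G2p1_0, G2p1_3,
  G2p1_4, G2p1_5, G2p2_0, G2p2_1, G2p2_3, G2p2_4, G2p2_5, G2p3_4, G2p3_5, G2p4_5, G2p6_0, G2p6_7,
  G2p6_8, G2p7_0, G2p7_8, G2p8_0]⟩) (.leaf ⟨155739204, 3617085472740711891174,
  7737675417576788959977144568113865151056409912168659037001159507050526, 38150, [G2p0_1, G2p0_2,
  G2p0_3, G2p0_4, G2p2_1, G2p3_4, G2p6_0, G2p6_1, G2p6_2, G2p6_3, G2p6_4, G2p6_7, G2p6_8, G2p7_0,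
  G2p7_1, G2p7_2, G2p7_3, G2p7_4, G2p7_8, G2p8_0, G2p8_1, G2p8_2, G2p8_3, G2p8_4]⟩)) (.node 191
  (.leaf ⟨558404164, 39384088698023870529,
  12105095449553541161327775530591225754803770726872341536359422480875549, 136457, [G2p1_0, G2p1_2,
  G2p1_3, G2p1_4, G2p3_4, G2p5_0, G2p6_0, G2p7_0, G2p7_6, G2p8_0, G2p8_6, G2p8_7]⟩) (.leaf
  ⟨155755588, 3617085472397114507494,
  7683754701477654816314016054325392215776533219357333607309801766518812, 38154, [G2p0_2, G2p0_3,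
  G2p0_4, G2p1_2, G2p1_3, G2p1_4, G2p3_4, G2p6_0, G2p6_2, G2p6_3, G2p6_4, G2p6_7, G2p6_8, G2p7_0,
  G2p7_2, G2p7_3, G2p7_4, G2p7_8, G2p8_0, G2p8_2, G2p8_3, G2p8_4]⟩))))))

def G2T4 : Tr :=
  .node 224 (.node 208 (.node 200 (.node 196 (.node 194 (.node 193 (.leaf ⟨563188292,
  39272515826531568771, 12105095449553544322148058901046018565483496554030026157318438293340161,
  136793, [G2p1_0, G2p2_0, G2p2_1, G2p3_0, G2p3_4, G2p3_5, G2p4_0, G2p4_5, G2p5_0, G2p6_0, G2p7_0,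
  G2p7_6, G2p8_0, G2p8_6, G2p8_7]⟩) (.leaf ⟨160539716, 3616787944619357900006,
  6928864676089779870068068028115485331076414079754896045350935752343552, 38490, [G2p2_1, G2p3_4,
  G2p3_5, G2p4_5, G2p6_0, G2p6_7, G2p6_8, G2p7_0, G2p7_8, G2p8_0]⟩)) (.node 195 (.leaf ⟨160536644,
  10928616126834947624067, 6901904318040212798236513806720606727913524026030059668196335391080929,
  38489, [G2p0_5, G2p0_6, G2p0_7, G2p0_8, G2p1_0, G2p1_5, G2p1_6, G2p1_7, G2p1_8, G2p2_0, G2p2_1,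
  G2p2_5, G2p2_6, G2p2_7, G2p2_8, G2p3_4, G2p3_5, G2p4_5, G2p6_7, G2p6_8, G2p7_8]⟩) (.leaf
  ⟨160503878, 6054064012087273852037,
  6901904318040213372931100628053961029605151336864293645816419569762310, 38481, [G2p0_1, G2p0_2,
  G2p0_5, G2p0_6, G2p0_7, G2p0_8, G2p1_2, G2p3_1, G2p3_2, G2p3_4, G2p3_5, G2p4_1, G2p4_2, G2p4_5,
  G2p6_7, G2p6_8, G2p7_8]⟩))) (.node 198 (.node 197 (.leaf ⟨152639586, 6054177969732984082689,
  6901904318040210499423039033450280541224743178768366916887185335517190, 37969, [G2p0_1, G2p0_2,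
  G2p0_3, G2p0_4, G2p0_5, G2p0_6, G2p0_7, G2p0_8, G2p1_2, G2p4_3, G2p5_3, G2p5_4, G2p6_7, G2p6_8,
  G2p7_8]⟩) (.leaf ⟨563155526, 39272525962654387336,
  12266857597850947327832041143136211392456283319970767678022593481670662, 136785, [G2p0_1, G2p0_2,
  G2p1_2, G2p3_0, G2p3_1, G2p3_2, G2p3_4, G2p3_5, G2p4_0, G2p4_1, G2p4_2, G2p4_5, G2p5_0, G2p5_1,
  G2p5_2, G2p6_0, G2p6_1, G2p6_2, G2p7_0, G2p7_1, G2p7_2, G2p7_6, G2p8_0, G2p8_1, G2p8_2, G2p8_6,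
  G2p8_7]⟩)) (.node 199 (.leaf ⟨563237444, 39384086538902280416,
  12105095449553544322148058767259922933651299893932396462059364494082111, 136805, [G2p1_0, G2p1_2,
  G2p1_3, G2p1_4, G2p1_5, G2p2_0, G2p2_3, G2p2_4, G2p2_5, G2p3_0, G2p3_4, G2p3_5, G2p4_0, G2p4_5,
  G2p5_0, G2p6_0, G2p7_0, G2p7_6, G2p8_0, G2p8_6, G2p8_7]⟩) (.leaf ⟨160585796,
  7272813606432356407520, 6901904318040212798236503659736238639847776460216953044479530542039551,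
  38501, [G2p0_5, G2p0_6, G2p0_7, G2p0_8, G2p1_2, G2p1_3, G2p1_4, G2p1_5, G2p2_3, G2p2_4, G2p2_5,
  G2p3_4, G2p3_5, G2p4_5, G2p6_7, G2p6_8, G2p7_8]⟩)))) (.node 204 (.node 202 (.node 201 (.leaf
  ⟨563221062, 39309704884304122025,
  12159016165652678657376052892559164798215166018548490669188995461808130, 136801, [G2p0_1, G2p2_0,
  G2p2_1, G2p2_3, G2p2_4, G2p2_5, G2p3_0, G2p3_1, G2p3_4, G2p3_5, G2p4_0, G2p4_1, G2p4_5, G2p5_0,
  G2p5_1, G2p6_0, G2p6_1, G2p7_0, G2p7_1, G2p7_6, G2p8_0, G2p8_1, G2p8_6, G2p8_7]⟩) (.leaf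
  ⟨160569414, 6054101194306350125222,
  6901904318040212989801369315849178390734997327904767674218235153219586, 38497, [G2p0_1, G2p0_5,
  G2p0_6, G2p0_7, G2p0_8, G2p2_1, G2p2_3, G2p2_4, G2p2_5, G2p3_1, G2p3_4, G2p3_5, G2p4_1, G2p4_5,
  G2p6_7, G2p6_8, G2p7_8]⟩)) (.node 203 (.leaf ⟨562664004, 39205101433521243234,
  12105095449553545088324214527222969882954499163903343128168435001327625, 136729, [G2p1_0, G2p1_3,
  G2p2_0, G2p2_1, G2p2_3, G2p4_0, G2p4_3, G2p4_5, G2p5_0, G2p6_0, G2p7_0, G2p7_6, G2p8_0, G2p8_6,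
  G2p8_7]⟩) (.leaf ⟨160015428, 3616725174565679989990,
  7144547540486317210898199054975721225472645803149190508003589179834376, 38426, [G2p0_3, G2p1_3,
  G2p2_1, G2p2_3, G2p4_3, G2p4_5, G2p6_0, G2p6_3, G2p6_7, G2p6_8, G2p7_0, G2p7_3, G2p7_8, G2p8_0,
  G2p8_3]⟩))) (.node 206 (.node 205 (.leaf ⟨160012356, 9709910682073608422498,
  6901904318040213564414120943801040006583562912734306775600033352385001, 38425, [G2p0_5, G2p0_6,
  G2p0_7, G2p0_8, G2p1_0, G2p1_3, G2p1_5, G2p1_6, G2p1_7, G2p1_8, G2p2_0, G2p2_1, G2p2_3, G2p2_5,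
  G2p2_6, G2p2_7, G2p2_8, G2p4_3, G2p4_5, G2p6_7, G2p6_8, G2p7_8]⟩) (.leaf ⟨159979590,
  6053998918731166745667, 6901904318040214139099948768345003031016392489409861588917246472617998,
  38417, [G2p0_1, G2p0_2, G2p0_3, G2p0_5, G2p0_6, G2p0_7, G2p0_8, G2p1_2, G2p1_3, G2p2_3, G2p4_1,
  G2p4_2, G2p4_3, G2p4_5, G2p6_7, G2p6_8, G2p7_8]⟩)) (.node 207 (.leaf ⟨562631238,
  39210915857167352902, 12482540462247484668651941636234385767894466108000329889141093689065486,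
  136721, [G2p0_1, G2p0_2, G2p0_3, G2p1_2, G2p1_3, G2p2_3, G2p4_0, G2p4_1, G2p4_2, G2p4_3, G2p4_5,
  G2p5_0, G2p5_1, G2p5_2, G2p5_3, G2p6_0, G2p6_1, G2p6_2, G2p6_3, G2p7_0, G2p7_1, G2p7_2, G2p7_3,
  G2p7_6, G2p8_0, G2p8_1, G2p8_2, G2p8_3, G2p8_6, G2p8_7]⟩) (.leaf ⟨159802440,
  3616715965262444269670, 7090626824387183641976436141735268413355717863667821304998533437718534,
  38438, [G2p0_1, G2p0_2, G2p1_2, G2p3_1, G2p3_2, G2p3_5, G2p4_1, G2p4_2, G2p4_3, G2p4_5, G2p6_0,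
  G2p6_1, G2p6_2, G2p6_7, G2p6_8, G2p7_0, G2p7_1, G2p7_2, G2p7_8, G2p8_0, G2p8_1, G2p8_2]⟩)))))
  (.node 216 (.node 212 (.node 210 (.node 209 (.leaf ⟨159786057, 3616715959662880758981,
  6928864676089781306769483562244401839012773915297391973381271986372641, 38434, [G2p1_0, G2p1_5,
  G2p2_0, G2p2_1, G2p2_5, G2p3_0, G2p3_1, G2p3_2, G2p3_5, G2p4_0, G2p4_1, G2p4_2, G2p4_3, G2p4_5,
  G2p6_0, G2p6_7, G2p6_8, G2p7_0, G2p7_8, G2p8_0]⟩) (.leaf ⟨562319944, 39200527605913784420,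
  12105095449553545279937310294893945870287262144611126681508404690878467, 136709, [G2p2_0, G2p2_1,
  G2p2_5, G2p3_0, G2p3_1, G2p3_5, G2p4_0, G2p4_1, G2p4_3, G2p4_5, G2p5_0, G2p6_0, G2p7_0, G2p7_6,
  G2p8_0, G2p8_6, G2p8_7]⟩)) (.node 211 (.leaf ⟨159671368, 3616715956466351247462,
  6982785392188914971520447891149714759941577100658959932105058299281410, 38406, [G2p0_1, G2p2_1,
  G2p2_5, G2p3_1, G2p3_5, G2p4_1, G2p4_3, G2p4_5, G2p6_0, G2p6_1, G2p6_7, G2p6_8, G2p7_0, G2p7_1,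
  G2p7_8, G2p8_0, G2p8_1]⟩) (.leaf ⟨159930436, 7272633464783723693120,
  6901904318040214139099948902147432465689934211150259734070559333286383, 38405, [G2p0_5, G2p0_6,
  G2p0_7, G2p0_8, G2p2_1, G2p4_1, G2p4_2, G2p4_3, G2p4_5, G2p6_7, G2p6_8, G2p7_8]⟩))) (.node 214
  (.node 213 (.leaf ⟨562582084, 39203944884727776320,
  12105095449553545663010042485732700370485413021498977592844447749373967, 136709, [G2p2_1, G2p4_0,
  G2p4_1, G2p4_2, G2p4_3, G2p4_5, G2p5_0, G2p6_0, G2p7_0, G2p7_6, G2p8_0, G2p8_6, G2p8_7]⟩) (.leaf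
  ⟨159933508, 3616725184770522285286,
  7306309688783720216573412421044698357170079173107523177918509486047246, 38406, [G2p0_1, G2p0_2,
  G2p0_3, G2p2_1, G2p4_1, G2p4_2, G2p4_3, G2p4_5, G2p6_0, G2p6_1, G2p6_2, G2p6_3, G2p6_7, G2p6_8,
  G2p7_0, G2p7_1, G2p7_2, G2p7_3, G2p7_8, G2p8_0, G2p8_1, G2p8_2, G2p8_3]⟩)) (.node 215 (.leaf
  ⟨562598468, 39203944712929084481,
  12105095449553545471448099832894422181396805628664725516886914617835533, 136713, [G2p1_0, G2p1_2,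
  G2p1_3, G2p4_0, G2p4_2, G2p4_3, G2p4_5, G2p5_0, G2p6_0, G2p7_0, G2p7_6, G2p8_0, G2p8_6, G2p8_7]⟩)
  (.leaf ⟨159949892, 3616725184426924901606,
  7252388972684585881348341299020118044020074349950307739396820205043724, 38410, [G2p0_2, G2p0_3,
  G2p1_2, G2p1_3, G2p4_2, G2p4_3, G2p4_5, G2p6_0, G2p6_2, G2p6_3, G2p6_7, G2p6_8, G2p7_0, G2p7_2,
  G2p7_3, G2p7_8, G2p8_0, G2p8_2, G2p8_3]⟩)))) (.node 220 (.node 218 (.node 217 (.leaf ⟨159946820,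
  8491271494982470632513, 6901904318040213947538006249309156768903818915033269352751264227394029,
  38409, [G2p0_5, G2p0_6, G2p0_7, G2p0_8, G2p1_0, G2p1_2, G2p1_3, G2p1_5, G2p1_6, G2p1_7, G2p1_8,
  G2p4_2, G2p4_3, G2p4_5, G2p6_7, G2p6_8, G2p7_8]⟩) (.leaf ⟨560042564, 39237721884080505062,
  12105095449553542598029191109311423872063640320957887431103261184098305, 136601, [G2p1_0, G2p2_0,
  G2p2_1, G2p3_0, G2p3_1, G2p3_2, G2p4_0, G2p4_1, G2p4_2, G2p4_3, G2p5_0, G2p6_0, G2p7_0, G2p7_6,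
  G2p8_0, G2p8_6, G2p8_7]⟩)) (.node 219 (.leaf ⟨157393988, 3616753150676976042214,
  6928864676089778145949200236380890637656557846682757319135758643101696, 38298, [G2p2_1, G2p3_1,
  G2p3_2, G2p4_1, G2p4_2, G2p4_3, G2p6_0, G2p6_7, G2p6_8, G2p7_0, G2p7_8, G2p8_0]⟩) (.leaf
  ⟨560009798, 39237726348699009158,
  12266857597850944933236143688813179648301553773273628864823071613517830, 136593, [G2p0_1, G2p0_2,
  G2p1_2, G2p3_1, G2p3_2, G2p4_1, G2p4_2, G2p4_3, G2p5_0, G2p5_1, G2p5_2, G2p6_0, G2p6_1, G2p6_2,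
  G2p7_0, G2p7_1, G2p7_2, G2p7_6, G2p8_0, G2p8_1, G2p8_2, G2p8_6, G2p8_7]⟩))) (.node 222 (.node 221
  (.leaf ⟨157443140, 3616753366249974563142,
  7090626824387180002243988675602337957226108979682997095108558664499206, 38310, [G2p0_1, G2p0_2,
  G2p1_2, G2p4_3, G2p6_0, G2p6_1, G2p6_2, G2p6_7, G2p6_8, G2p7_0, G2p7_1, G2p7_2, G2p7_8, G2p8_0,
  G2p8_1, G2p8_2]⟩) (.leaf ⟨152118425, 7272633464619608900673,
  6928864676089824025025686032908393017111217183307196095165808167878669, 38994, [G2p1_0, G2p1_2,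
  G2p1_3, G2p4_0, G2p4_2, G2p4_3, G2p4_5, G2p4_6, G2p4_7, G2p4_8, G2p5_0, G2p5_6, G2p5_7, G2p5_8,
  G2p6_0, G2p6_7, G2p6_8, G2p7_0, G2p7_8, G2p8_0]⟩)) (.node 223 (.leaf ⟨153494625,
  3616936708683256072295, 6928864676089776805030217552620418854109742273881185713330354227445761,
  38050, [G2p1_0, G2p2_0, G2p2_1, G2p3_4, G2p5_0, G2p5_1, G2p5_2, G2p5_3, G2p5_4, G2p6_0, G2p6_7,
  G2p6_8, G2p7_0, G2p7_8, G2p8_0]⟩) (.leaf ⟨157361225, 3616864723447606021185,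
  6928864676089777954384334580267950891961792293854798846602737453105213, 38290, [G2p1_0, G2p1_2,
  G2p1_3, G2p1_4, G2p1_5, G2p3_2, G2p4_2, G2p4_3, G2p6_0, G2p6_7, G2p6_8, G2p7_0, G2p7_8,
  G2p8_0]⟩)))))) (.node 240 (.node 232 (.node 228 (.node 226 (.node 225 (.leaf ⟨560091716,
  39237719545470812288, 12105095449553541927552161312917494798621155918332670469997941072330759,
  136613, [G2p1_2, G2p4_3, G2p5_0, G2p6_0, G2p7_0, G2p7_6, G2p8_0, G2p8_6, G2p8_7]⟩) (.leaf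
  ⟨157440068, 7272667239444466761856,
  6901904318040210499423039033450280541222366304878276587395247792718311, 38309, [G2p0_5, G2p0_6,
  G2p0_7, G2p0_8, G2p1_2, G2p4_3, G2p6_7, G2p6_8, G2p7_8]⟩)) (.node 227 (.leaf ⟨560075334,
  39237717552605986950, 12159016165652676262780155438216736959145942979433939503365862805602306,
  136609, [G2p0_1, G2p2_1, G2p3_1, G2p4_1, G2p4_3, G2p5_0, G2p5_1, G2p6_0, G2p6_1, G2p7_0, G2p7_1,
  G2p7_6, G2p8_0, G2p8_1, G2p8_6, G2p8_7]⟩) (.leaf ⟨157423686, 6054029207046696566917,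
  6901904318040210690987904689563220582878211250516438414841746840223746, 38305, [G2p0_1, G2p0_5,
  G2p0_6, G2p0_7, G2p0_8, G2p2_1, G2p3_1, G2p4_1, G2p4_3, G2p6_7, G2p6_8, G2p7_8]⟩))) (.node 230
  (.node 229 (.leaf ⟨152183961, 7272634621340201059426,
  6928864676089823641901800727236940718668910718545813706447328551370761, 39010, [G2p1_0, G2p1_3,
  G2p2_0, G2p2_1, G2p2_3, G2p4_0, G2p4_3, G2p4_5, G2p4_6, G2p4_7, G2p4_8, G2p5_0, G2p5_6, G2p5_7,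
  G2p5_8, G2p6_0, G2p6_7, G2p6_8, G2p7_0, G2p7_8, G2p8_0]⟩) (.leaf ⟨153494673,
  10928653317857800785924, 6928864676089822876380407825318082850272326321731177674869144335351809,
  39074, [G2p1_0, G2p2_0, G2p2_1, G2p3_0, G2p3_4, G2p3_5, G2p3_6, G2p3_7, G2p3_8, G2p4_0, G2p4_5,
  G2p4_6, G2p4_7, G2p4_8, G2p5_0, G2p5_6, G2p5_7, G2p5_8, G2p6_0, G2p6_7, G2p6_8, G2p7_0, G2p7_8,
  G2p8_0]⟩)) (.node 231 (.leaf ⟨153396321, 3617048279389080422500,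
  6928864676089776805030217396522348534292735171304234641871291706966047, 38026, [G2p1_2, G2p1_3,
  G2p1_4, G2p2_3, G2p2_4, G2p3_4, G2p5_0, G2p5_1, G2p5_2, G2p5_3, G2p5_4, G2p6_0, G2p6_7, G2p6_8,
  G2p7_0, G2p7_8, G2p8_0]⟩) (.leaf ⟨560042532, 39200530867837738181,
  12967826907139691961677097114099298938918196378035561608157584710172705, 135577, [G2p1_0, G2p1_5,
  G2p2_0, G2p2_1, G2p2_5, G2p3_0, G2p3_1, G2p3_2, G2p3_5, G2p4_0, G2p4_1, G2p4_2, G2p4_3, G2p4_5,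
  G2p6_0, G2p6_5, G2p7_0, G2p7_5, G2p7_6, G2p8_0, G2p8_5, G2p8_6, G2p8_7]⟩)))) (.node 236 (.node 234
  (.node 233 (.leaf ⟨157394468, 2398077929291266661573,
  7791596133675927509597106241168765704513649243637641299043234143535136, 37274, [G2p0_5, G2p1_5,
  G2p2_1, G2p2_5, G2p3_1, G2p3_2, G2p3_5, G2p4_1, G2p4_2, G2p4_3, G2p4_5, G2p6_0, G2p6_5, G2p6_7,
  G2p6_8, G2p7_0, G2p7_5, G2p7_8, G2p8_0, G2p8_5]⟩) (.leaf ⟨560009766, 39200536467401248870,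
  13129589055437094296884049693590165513261140326405990939774846161518598, 135569, [G2p0_1, G2p0_2,
  G2p1_2, G2p3_1, G2p3_2, G2p3_5, G2p4_1, G2p4_2, G2p4_3, G2p4_5, G2p6_0, G2p6_1, G2p6_2, G2p6_5,
  G2p7_0, G2p7_1, G2p7_2, G2p7_5, G2p7_6, G2p8_0, G2p8_1, G2p8_2, G2p8_5, G2p8_6, G2p8_7]⟩)) (.node
  235 (.leaf ⟨157443620, 2398078144864265283877,
  7953358281973329365891894680390213024083200376637770394551617677426726, 37286, [G2p0_1, G2p0_2,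
  G2p0_5, G2p1_2, G2p1_5, G2p2_5, G2p3_5, G2p4_3, G2p4_5, G2p6_0, G2p6_1, G2p6_2, G2p6_5, G2p6_7,
  G2p6_8, G2p7_0, G2p7_1, G2p7_2, G2p7_5, G2p7_8, G2p8_0, G2p8_1, G2p8_2, G2p8_5]⟩) (.leaf
  ⟨558125602, 39235641468494416102,
  12967826907139690524975680197324180122083201767278532775928835105357824, 135429, [G2p2_1, G2p3_4,
  G2p3_5, G2p4_5, G2p6_0, G2p6_5, G2p7_0, G2p7_5, G2p7_6, G2p8_0, G2p8_5, G2p8_6, G2p8_7]⟩))) (.node
  238 (.node 237 (.leaf ⟨155739684, 2398410251355002611909,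
  8600406875162938323625050572890851016018531805177677514172724603125822, 37126, [G2p0_1, G2p0_2,
  G2p0_3, G2p0_4, G2p0_5, G2p2_1, G2p3_4, G2p3_5, G2p4_5, G2p6_0, G2p6_1, G2p6_2, G2p6_3, G2p6_4,
  G2p6_5, G2p6_7, G2p6_8, G2p7_0, G2p7_1, G2p7_2, G2p7_3, G2p7_4, G2p7_5, G2p7_8, G2p8_0, G2p8_1,
  G2p8_2, G2p8_3, G2p8_4, G2p8_5]⟩) (.leaf ⟨155493921, 2398113011444207487076,
  7791596133675926839155151792737128232320448881242871122231741133553671, 37130, [G2p1_2, G2p3_0,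
  G2p3_1, G2p3_2, G2p3_4, G2p3_5, G2p4_0, G2p4_1, G2p4_2, G2p4_5, G2p6_0, G2p6_5, G2p6_7, G2p6_8,
  G2p7_0, G2p7_5, G2p7_8, G2p8_0, G2p8_5]⟩)) (.node 239 (.leaf ⟨558404132, 39384088698024073281,
  12967826907139690524975681535368211785916856753119187725975938014117949, 135433, [G2p1_0, G2p1_2,
  G2p1_3, G2p1_4, G2p1_5, G2p3_4, G2p3_5, G2p4_5, G2p6_0, G2p6_5, G2p7_0, G2p7_5, G2p7_6, G2p8_0,
  G2p8_5, G2p8_6, G2p8_7]⟩) (.leaf ⟨155756068, 2398410251045764966597,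
  8546486159063804179961922059102378246892154585480873090945405406675004, 37130, [G2p0_2, G2p0_3,
  G2p0_4, G2p0_5, G2p1_2, G2p1_3, G2p1_4, G2p1_5, G2p3_4, G2p3_5, G2p4_5, G2p6_0, G2p6_2, G2p6_3,
  G2p6_4, G2p6_5, G2p6_7, G2p6_8, G2p7_0, G2p7_2, G2p7_3, G2p7_4, G2p7_5, G2p7_8, G2p8_0, G2p8_2,
  G2p8_3, G2p8_4, G2p8_5]⟩))))) (.node 248 (.node 244 (.node 242 (.node 241 (.leaf ⟨558469668,
  39421274215635229794, 12967826907139690524975681446185307630673512122181343223098980997529657,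
  135449, [G2p1_0, G2p1_3, G2p1_4, G2p1_5, G2p2_0, G2p2_1, G2p2_3, G2p2_4, G2p2_5, G2p3_4, G2p3_5,
  G2p4_5, G2p6_0, G2p6_5, G2p7_0, G2p7_5, G2p7_6, G2p8_0, G2p8_5, G2p8_6, G2p8_7]⟩) (.leaf
  ⟨155821604, 2398410242284031682757,
  8438644726865535892635665031546529571543687872503367532369991819591736, 37146, [G2p0_3, G2p0_4,
  G2p0_5, G2p1_3, G2p1_4, G2p1_5, G2p2_1, G2p2_3, G2p2_4, G2p2_5, G2p3_4, G2p3_5, G2p4_5, G2p6_0,
  G2p6_3, G2p6_4, G2p6_5, G2p6_7, G2p6_8, G2p7_0, G2p7_3, G2p7_4, G2p7_5, G2p7_8, G2p8_0, G2p8_3,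
  G2p8_4, G2p8_5]⟩)) (.node 243 (.leaf ⟨558436898, 39607232624376328614,
  13776637648626702679922608483978818582188683799103554681844198977568830, 135441, [G2p0_1, G2p0_2,
  G2p0_3, G2p0_4, G2p0_5, G2p1_2, G2p1_3, G2p1_4, G2p1_5, G2p2_3, G2p2_4, G2p2_5, G2p3_4, G2p3_5,
  G2p4_5, G2p6_0, G2p6_1, G2p6_2, G2p6_3, G2p6_4, G2p6_5, G2p7_0, G2p7_1, G2p7_2, G2p7_3, G2p7_4,
  G2p7_5, G2p7_6, G2p8_0, G2p8_1, G2p8_2, G2p8_3, G2p8_4, G2p8_5, G2p8_6, G2p8_7]⟩) (.leaf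
  ⟨159688209, 2398338258391632353281,
  8438644726865533593822200405259890928949186497276718765900623419211783, 37386, [G2p1_2, G2p4_3,
  G2p5_3, G2p5_4, G2p6_0, G2p6_3, G2p6_4, G2p6_5, G2p6_7, G2p6_8, G2p7_0, G2p7_3, G2p7_4, G2p7_5,
  G2p7_8, G2p8_0, G2p8_3, G2p8_4, G2p8_5]⟩))) (.node 246 (.node 245 (.leaf ⟨554770969,
  39208593444870165697, 13264390845684926399433308884504147372988317560416103158497038182383629,
  135250, [G2p1_0, G2p1_2, G2p1_3, G2p4_2, G2p4_3, G2p5_2, G2p5_3, G2p6_2, G2p6_3, G2p6_5, G2p7_2,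
  G2p7_3, G2p7_5, G2p7_6, G2p8_2, G2p8_3, G2p8_5, G2p8_6, G2p8_7]⟩) (.leaf ⟨152118809,
  2398087154056384649441, 8115120430270729114967315074223235234420440017317439363611621344411661,
  36946, [G2p1_0, G2p1_2, G2p1_3, G2p4_2, G2p4_3, G2p5_2, G2p5_3, G2p6_0, G2p6_2, G2p6_3, G2p6_5,
  G2p6_7, G2p6_8, G2p7_0, G2p7_2, G2p7_3, G2p7_5, G2p7_8, G2p8_0, G2p8_2, G2p8_3, G2p8_5]⟩)) (.node
  247 (.leaf ⟨152148068, 10928878461513241960579,
  6901904318040210499423050429303602751742335061469891473920921051857401, 37977, [G2p0_3, G2p0_4,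
  G2p0_5, G2p0_6, G2p0_7, G2p0_8, G2p1_0, G2p1_3, G2p1_4, G2p1_5, G2p1_6, G2p1_7, G2p1_8, G2p2_0,
  G2p2_1, G2p2_3, G2p2_4, G2p2_5, G2p2_6, G2p2_7, G2p2_8, G2p4_3, G2p5_3, G2p5_4, G2p6_7, G2p6_8,
  G2p7_8]⟩) (.leaf ⟨555291154, 39200782758005845318,
  13129589055437090657151602227457235057131531442421166729884630870130694, 135249, [G2p0_1, G2p0_2,
  G2p1_2, G2p4_3, G2p6_0, G2p6_1, G2p6_2, G2p6_5, G2p7_0, G2p7_1, G2p7_2, G2p7_5, G2p7_6, G2p8_0,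
  G2p8_1, G2p8_2, G2p8_5, G2p8_6, G2p8_7]⟩)))) (.node 252 (.node 250 (.node 249 (.leaf ⟨152200740,
  2398486846530449156389, 8600406875162936024811587061679584506592017547645890805861585845223486,
  36966, [G2p0_1, G2p0_2, G2p0_3, G2p0_4, G2p0_5, G2p1_2, G2p1_3, G2p1_4, G2p1_5, G2p2_3, G2p2_4,
  G2p2_5, G2p4_3, G2p6_0, G2p6_1, G2p6_2, G2p6_3, G2p6_4, G2p6_5, G2p6_7, G2p6_8, G2p7_0, G2p7_1,
  G2p7_2, G2p7_3, G2p7_4, G2p7_5, G2p7_8, G2p8_0, G2p8_1, G2p8_2, G2p8_3, G2p8_4, G2p8_5]⟩) (.leaf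
  ⟨554848792, 39212078078538945735,
  13345271919833627902270915411437502953102376404905890534399023948693519, 135269, [G2p1_2, G2p1_3,
  G2p2_3, G2p4_0, G2p4_1, G2p4_2, G2p4_3, G2p5_0, G2p5_1, G2p5_2, G2p5_3, G2p6_0, G2p6_1, G2p6_2,
  G2p6_3, G2p6_5, G2p7_0, G2p7_1, G2p7_2, G2p7_3, G2p7_5, G2p7_6, G2p8_0, G2p8_1, G2p8_2, G2p8_3,
  G2p8_5, G2p8_6, G2p8_7]⟩)) (.node 251 (.leaf ⟨152200728, 2398090638717970716904,
  8169041146369863450192386062445386107704447803874400500337264301047822, 36966, [G2p0_1, G2p0_2,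
  G2p0_3, G2p1_2, G2p1_3, G2p2_3, G2p4_1, G2p4_2, G2p4_3, G2p5_1, G2p5_2, G2p5_3, G2p6_0, G2p6_1,
  G2p6_2, G2p6_3, G2p6_5, G2p6_7, G2p6_8, G2p7_0, G2p7_1, G2p7_2, G2p7_3, G2p7_5, G2p7_8, G2p8_0,
  G2p8_1, G2p8_2, G2p8_3, G2p8_5]⟩) (.leaf ⟨160979012, 7272665026299358742624,
  6901904318040213372931099379212910455854434484676601026575492190700007, 38469, [G2p0_5, G2p0_6,
  G2p0_7, G2p0_8, G2p2_1, G2p3_1, G2p3_2, G2p3_4, G2p3_5, G2p4_1, G2p4_2, G2p4_5, G2p6_7, G2p6_8,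
  G2p7_8]⟩))) (.node 254 (.node 253 (.leaf ⟨152197220, 7272853012929095799936,
  6901904318040210499423039568676332207380450334609503949732574555275775, 37989, [G2p0_3, G2p0_4,
  G2p0_5, G2p0_6, G2p0_7, G2p0_8, G2p1_2, G2p1_3, G2p1_4, G2p2_3, G2p2_4, G2p4_3, G2p5_3, G2p5_4,
  G2p6_7, G2p6_8, G2p7_8]⟩) (.leaf ⟨152590434, 6054177975471060390250,
  6901904318040211074117636001787739578262493768386199942856431940665344, 37957, [G2p0_1, G2p0_2,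
  G2p0_3, G2p0_4, G2p0_5, G2p0_6, G2p0_7, G2p0_8, G2p2_1, G2p3_1, G2p3_2, G2p4_1, G2p4_2, G2p4_3,
  G2p5_1, G2p5_2, G2p5_3, G2p5_4, G2p6_7, G2p6_8, G2p7_8]⟩)) (.node 255 (.leaf ⟨554832422,
  39349111274639330374, 13021747623238822369825346582547588690681699504658120288531576337858562,
  135265, [G2p0_1, G2p2_1, G2p2_3, G2p2_4, G2p2_5, G2p4_3, G2p6_0, G2p6_1, G2p6_5, G2p7_0, G2p7_1,
  G2p7_5, G2p7_6, G2p8_0, G2p8_1, G2p8_5, G2p8_6, G2p8_7]⟩) (.leaf ⟨555242002, 39200530866763866342,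
  12967826907139688800856813788235787737561980309420926953911805078929408, 135237, [G2p2_1, G2p3_1,
  G2p3_2, G2p4_1, G2p4_2, G2p4_3, G2p6_0, G2p6_5, G2p7_0, G2p7_5, G2p7_6, G2p8_0, G2p8_5, G2p8_6,
  G2p8_7]⟩))))))

def G2T5 : Tr :=
  .node 288 (.node 272 (.node 264 (.node 260 (.node 258 (.node 257 (.leaf ⟨152184345,
  2398087144195139737826, 8007278998072460444517172830179178698240249321629842563050296356372489,
  36962, [G2p1_0, G2p1_3, G2p2_0, G2p2_1, G2p2_3, G2p4_3, G2p5_3, G2p6_0, G2p6_3, G2p6_5, G2p6_7,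
  G2p6_8, G2p7_0, G2p7_3, G2p7_5, G2p7_8, G2p8_0, G2p8_3, G2p8_5]⟩) (.leaf ⟨152180838,
  6054177755396936142915, 6901904318040210499423039613278503023791384911957722174065450973528066,
  37985, [G2p0_1, G2p0_3, G2p0_4, G2p0_5, G2p0_6, G2p0_7, G2p0_8, G2p2_1, G2p2_3, G2p2_4, G2p4_3,
  G2p5_3, G2p5_4, G2p6_7, G2p6_8, G2p7_8]⟩)) (.node 259 (.leaf ⟨152151588, 2398375094230186204357,
  8438644726865533593822201787925829885133109124283520155208095897223224, 36954, [G2p0_3, G2p0_4,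
  G2p0_5, G2p1_3, G2p1_4, G2p1_5, G2p2_1, G2p2_3, G2p2_4, G2p2_5, G2p4_3, G2p6_0, G2p6_3, G2p6_4,
  G2p6_5, G2p6_7, G2p6_8, G2p7_0, G2p7_3, G2p7_4, G2p7_5, G2p7_8, G2p8_0, G2p8_3, G2p8_4, G2p8_5]⟩)
  (.leaf ⟨571547929, 227130149960591344705,
  12078108764234527121677303220669561883370301528914674688855309552451789, 139346, [G2p0_6, G2p0_7,
  G2p1_0, G2p1_2, G2p1_3, G2p1_6, G2p1_7, G2p4_2, G2p4_3, G2p5_2, G2p5_3, G2p5_6, G2p5_7, G2p6_7,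
  G2p8_6, G2p8_7]⟩))) (.node 262 (.node 261 (.leaf ⟨554799652, 39423386411831858307,
  12967826907139688226162218224865353142793556515497214118585446581141561, 135257, [G2p1_0, G2p1_3,
  G2p1_4, G2p1_5, G2p2_0, G2p2_1, G2p2_3, G2p2_4, G2p2_5, G2p4_3, G2p6_0, G2p6_5, G2p7_0, G2p7_5,
  G2p7_6, G2p8_0, G2p8_5, G2p8_6, G2p8_7]⟩) (.leaf ⟨152610321, 2398077932625234925668,
  7791596133675924540341688571417173744440493274558742017717936134225927, 36938, [G2p1_2, G2p3_0,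
  G2p3_1, G2p3_2, G2p4_0, G2p4_1, G2p4_2, G2p4_3, G2p6_0, G2p6_5, G2p6_7, G2p6_8, G2p7_0, G2p7_5,
  G2p7_8, G2p8_0, G2p8_5]⟩)) (.node 263 (.leaf ⟨159671832, 2398338255436694853963,
  8492565442964667929050194530559133089473973558377987799268545150451714, 37382, [G2p0_1, G2p2_1,
  G2p3_1, G2p4_1, G2p4_3, G2p5_1, G2p5_3, G2p5_4, G2p6_0, G2p6_1, G2p6_3, G2p6_4, G2p6_5, G2p6_7,
  G2p6_8, G2p7_0, G2p7_1, G2p7_3, G2p7_4, G2p7_5, G2p7_8, G2p8_0, G2p8_1, G2p8_3, G2p8_4, G2p8_5]⟩)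
  (.leaf ⟨555262481, 39200534199725593700,
  12940866549090121824807682381698085883008370832164515647978903068672007, 135242, [G2p1_2, G2p3_0,
  G2p3_1, G2p3_2, G2p4_0, G2p4_1, G2p4_2, G2p4_3, G2p6_5, G2p7_5, G2p7_6, G2p8_5, G2p8_6,
  G2p8_7]⟩)))) (.node 268 (.node 266 (.node 265 (.leaf ⟨556147217, 39309706839551251460,
  12940866549090120388106266869882164894580693678887248334379361876508673, 135330, [G2p1_0, G2p2_0,
  G2p2_1, G2p3_4, G2p6_5, G2p7_5, G2p7_6, G2p8_5, G2p8_6, G2p8_7]⟩) (.leaf ⟨153495057,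
  2398187105265060583428, 7791596133675923103640273059601252756012816121281474704118394942062593,
  37026, [G2p1_0, G2p2_0, G2p2_1, G2p3_4, G2p6_0, G2p6_5, G2p6_7, G2p6_8, G2p7_0, G2p7_5, G2p7_8,
  G2p8_0, G2p8_5]⟩)) (.node 267 (.leaf ⟨555815462, 39343490571198139462,
  13129589055437089890982754087168915356194666491162040926588217620561926, 135313, [G2p0_1, G2p0_2,
  G2p1_2, G2p3_1, G2p3_2, G2p3_4, G2p3_5, G2p6_0, G2p6_1, G2p6_2, G2p6_5, G2p7_0, G2p7_1, G2p7_2,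
  G2p7_5, G2p7_6, G2p8_0, G2p8_1, G2p8_2, G2p8_5, G2p8_6, G2p8_7]⟩) (.leaf ⟨153249316,
  2398473335731567044901, 8384724010766398683981454652173146303297151049037211012963108723359798,
  37030, [G2p0_1, G2p0_2, G2p0_4, G2p0_5, G2p1_2, G2p1_4, G2p1_5, G2p2_4, G2p2_5, G2p3_4, G2p3_5,
  G2p6_0, G2p6_1, G2p6_2, G2p6_4, G2p6_5, G2p6_7, G2p6_8, G2p7_0, G2p7_1, G2p7_2, G2p7_4, G2p7_5,
  G2p7_8, G2p8_0, G2p8_1, G2p8_2, G2p8_4, G2p8_5]⟩))) (.node 270 (.node 269 (.leaf ⟨556028434,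
  39570033740826684646, 13614875500329297183895372578613551604592018938287095909096331784224792,
  135301, [G2p0_3, G2p0_4, G2p1_3, G2p1_4, G2p2_1, G2p2_3, G2p2_4, G2p3_4, G2p6_0, G2p6_3, G2p6_4,
  G2p6_5, G2p7_0, G2p7_3, G2p7_4, G2p7_5, G2p7_6, G2p8_0, G2p8_3, G2p8_4, G2p8_5, G2p8_6, G2p8_7]⟩)
  (.leaf ⟨153396753, 2398298675973032418305,
  7791596133675923103640272903503182436195809018704523632659332421582879, 37002, [G2p1_2, G2p1_3,
  G2p1_4, G2p2_3, G2p2_4, G2p3_4, G2p6_0, G2p6_5, G2p6_7, G2p6_8, G2p7_0, G2p7_5, G2p7_8, G2p8_0,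
  G2p8_5]⟩)) (.node 271 (.leaf ⟨556048913, 39421277545308494849,
  12940866549090120388106266713784094574763686576310297262920299356028959, 135306, [G2p1_2, G2p1_3,
  G2p1_4, G2p2_3, G2p2_4, G2p3_4, G2p6_5, G2p7_5, G2p7_6, G2p8_5, G2p8_6, G2p8_7]⟩) (.leaf
  ⟨143759748, 7084775830475715481763,
  6901943809546983675546549393037297825479017809655522101048224419676417, 35417, [G2p0_8, G2p1_0,
  G2p1_8, G2p2_0, G2p2_1, G2p2_8, G2p3_4, G2p6_5, G2p6_8, G2p7_5, G2p7_6, G2p7_8]⟩))))) (.node 280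
  (.node 276 (.node 274 (.node 273 (.leaf ⟨152639634, 13365820272911868729505,
  6901904318040256474990796500555898015495075360470922565072450190574054, 38993, [G2p0_1, G2p0_2,
  G2p0_5, G2p0_6, G2p0_7, G2p0_8, G2p1_2, G2p1_5, G2p1_6, G2p1_7, G2p1_8, G2p2_5, G2p2_6, G2p2_7,
  G2p2_8, G2p3_5, G2p3_6, G2p3_7, G2p3_8, G2p4_3, G2p4_5, G2p4_6, G2p4_7, G2p4_8, G2p5_6, G2p5_7,
  G2p5_8, G2p6_7, G2p6_8, G2p7_8]⟩) (.leaf ⟨143235460, 5904119117534961176738,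
  6901947100606315898066107333928295898477829611808281025233718025388297, 35353, [G2p0_8, G2p1_0,
  G2p1_3, G2p1_8, G2p2_0, G2p2_1, G2p2_3, G2p2_8, G2p4_3, G2p5_3, G2p6_3, G2p6_5, G2p6_8, G2p7_3,
  G2p7_5, G2p7_6, G2p7_8]⟩)) (.node 275 (.leaf ⟨157426761, 3616901905666682294370,
  6928864676089777571254603268063508535458876136008793306962358980575289, 38306, [G2p1_0, G2p1_3,
  G2p1_4, G2p1_5, G2p2_0, G2p2_1, G2p2_3, G2p2_4, G2p2_5, G2p4_3, G2p6_0, G2p6_7, G2p6_8, G2p7_0,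
  G2p7_8, G2p8_0]⟩) (.leaf ⟨140617252, 1185204506443755297989,
  9517059045828934172096223807725418795756909392311838901727160977850400, 33178, [G2p0_5, G2p1_5,
  G2p2_1, G2p2_5, G2p3_1, G2p3_2, G2p3_5, G2p4_1, G2p4_2, G2p4_3, G2p4_5, G2p7_0, G2p7_5, G2p7_6,
  G2p7_8, G2p8_0, G2p8_5, G2p8_6]⟩))) (.node 278 (.node 277 (.leaf ⟨140666404,
  1185204685698510431492, 9678821194088673417978692162363851378787214526815353864568760304664614,
  33190, [G2p0_1, G2p0_2, G2p0_5, G2p1_2, G2p1_5, G2p2_5, G2p3_5, G2p4_3, G2p4_5, G2p7_0, G2p7_1,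
  G2p7_2, G2p7_5, G2p7_6, G2p7_8, G2p8_0, G2p8_1, G2p8_2, G2p8_5, G2p8_6]⟩) (.leaf ⟨138962468,
  1185499637492321952932, 10325869787127631934062567716532430424565561961368804453522730402054206,
  33030, [G2p0_1, G2p0_2, G2p0_3, G2p0_4, G2p0_5, G2p2_1, G2p3_4, G2p3_5, G2p4_5, G2p7_0, G2p7_1,
  G2p7_2, G2p7_3, G2p7_4, G2p7_5, G2p7_6, G2p7_8, G2p8_0, G2p8_1, G2p8_2, G2p8_3, G2p8_4, G2p8_5,
  G2p8_6]⟩)) (.node 279 (.leaf ⟨138716705, 1185239588597769832548,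
  9517059045828933501654269359293781323563709029917068724915667967868935, 33034, [G2p1_2, G2p3_0,
  G2p3_1, G2p3_2, G2p3_4, G2p3_5, G2p4_0, G2p4_1, G2p4_2, G2p4_5, G2p7_0, G2p7_5, G2p7_6, G2p7_8,
  G2p8_0, G2p8_5, G2p8_6]⟩) (.leaf ⟨138978852, 1185499637217444045988,
  10271949071041051993870212564271629234285600074504204741184339274629180, 33034, [G2p0_2, G2p0_3,
  G2p0_4, G2p0_5, G2p1_2, G2p1_3, G2p1_4, G2p1_5, G2p3_4, G2p3_5, G2p4_5, G2p7_0, G2p7_2, G2p7_3,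
  G2p7_4, G2p7_5, G2p7_6, G2p7_8, G2p8_0, G2p8_2, G2p8_3, G2p8_4, G2p8_5, G2p8_6]⟩)))) (.node 284
  (.node 282 (.node 281 (.leaf ⟨139044388, 1185499629555222389924,
  10164107638867892113485502259771123716629964027191108604386781825597496, 33050, [G2p0_3, G2p0_4,
  G2p0_5, G2p1_3, G2p1_4, G2p1_5, G2p2_1, G2p2_3, G2p2_4, G2p2_5, G2p3_4, G2p3_5, G2p4_5, G2p7_0,
  G2p7_3, G2p7_4, G2p7_5, G2p7_6, G2p7_8, G2p8_0, G2p8_3, G2p8_4, G2p8_5, G2p8_6]⟩) (.leaf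
  ⟨142910993, 1185427645662823060481,
  10164107638867889814672037633484485074035462651964459837917413425217543, 33290, [G2p1_2, G2p4_3,
  G2p5_3, G2p5_4, G2p7_0, G2p7_3, G2p7_4, G2p7_5, G2p7_6, G2p7_8, G2p8_0, G2p8_3, G2p8_4, G2p8_5,
  G2p8_6]⟩)) (.node 283 (.leaf ⟨135341593, 1185212569025082692801,
  9840583342348410556641792471613858852585208168998408700961979764572173, 32850, [G2p1_0, G2p1_2,
  G2p1_3, G2p4_2, G2p4_3, G2p5_2, G2p5_3, G2p7_0, G2p7_2, G2p7_3, G2p7_5, G2p7_6, G2p7_8, G2p8_0,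
  G2p8_2, G2p8_3, G2p8_5, G2p8_6]⟩) (.leaf ⟨135423524, 1185576232667768497412,
  10325869787127629635249104205321163915139047703837017745211591644151870, 32870, [G2p0_1, G2p0_2,
  G2p0_3, G2p0_4, G2p0_5, G2p1_2, G2p1_3, G2p1_4, G2p1_5, G2p2_3, G2p2_4, G2p2_5, G2p4_3, G2p7_0,
  G2p7_1, G2p7_2, G2p7_3, G2p7_4, G2p7_5, G2p7_6, G2p7_8, G2p8_0, G2p8_1, G2p8_2, G2p8_3, G2p8_4,
  G2p8_5, G2p8_6]⟩))) (.node 286 (.node 285 (.leaf ⟨135423512, 1185216053652309021895,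
  9894504058434990688396090098308338147022800622723165126798694652182542, 32870, [G2p0_1, G2p0_2,
  G2p0_3, G2p1_2, G2p1_3, G2p2_3, G2p4_1, G2p4_2, G2p4_3, G2p5_1, G2p5_2, G2p5_3, G2p7_0, G2p7_1,
  G2p7_2, G2p7_3, G2p7_5, G2p7_6, G2p7_8, G2p8_0, G2p8_1, G2p8_2, G2p8_3, G2p8_5, G2p8_6]⟩) (.leaf
  ⟨135407129, 1185212560263349408962,
  9732741910175250293133196950625145474097848138975221322178510914584585, 32866, [G2p1_0, G2p1_3,
  G2p2_0, G2p2_1, G2p2_3, G2p4_3, G2p5_3, G2p7_0, G2p7_3, G2p7_5, G2p7_6, G2p7_8, G2p8_0, G2p8_3,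
  G2p8_5, G2p8_6]⟩)) (.node 287 (.leaf ⟨135374372, 1185464516685749000356,
  10164107638867889814672039016150424030219385278971261227224885903228984, 32858, [G2p0_3, G2p0_4,
  G2p0_5, G2p1_3, G2p1_4, G2p1_5, G2p2_1, G2p2_3, G2p2_4, G2p2_5, G2p4_3, G2p7_0, G2p7_3, G2p7_4,
  G2p7_5, G2p7_6, G2p7_8, G2p8_0, G2p8_3, G2p8_4, G2p8_5, G2p8_6]⟩) (.leaf ⟨135833105,
  1185204509778797270116, 9517059045828931202840806137973826835683753423232939620401862968541191,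
  32842, [G2p1_2, G2p3_0, G2p3_1, G2p3_2, G2p4_0, G2p4_1, G2p4_2, G2p4_3, G2p7_0, G2p7_5, G2p7_6,
  G2p7_8, G2p8_0, G2p8_5, G2p8_6]⟩)))))) (.node 304 (.node 296 (.node 292 (.node 290 (.node 289
  (.leaf ⟨142894616, 1185427642673525822762,
  10218028354954469946429258397256055655713834380233524160396407087431682, 33286, [G2p0_1, G2p2_1,
  G2p3_1, G2p4_1, G2p4_3, G2p5_1, G2p5_3, G2p5_4, G2p7_0, G2p7_1, G2p7_3, G2p7_4, G2p7_5, G2p7_6,
  G2p7_8, G2p8_0, G2p8_1, G2p8_3, G2p8_4, G2p8_5, G2p8_6]⟩) (.leaf ⟨136717841,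
  1185313682418622927876, 9517059045828929766139390626157905847256076269955672306802321776377857,
  32930, [G2p1_0, G2p2_0, G2p2_1, G2p3_4, G2p7_0, G2p7_5, G2p7_6, G2p7_8, G2p8_0, G2p8_5, G2p8_6]⟩))
  (.node 291 (.leaf ⟨136472100, 1185563847768793228548,
  10110186922781309108302065241925412027229842536557156795868826798391350, 32934, [G2p0_1, G2p0_2,
  G2p0_4, G2p0_5, G2p1_2, G2p1_4, G2p1_5, G2p2_4, G2p2_5, G2p3_4, G2p3_5, G2p7_0, G2p7_1, G2p7_2,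
  G2p7_4, G2p7_5, G2p7_6, G2p7_8, G2p8_0, G2p8_1, G2p8_2, G2p8_4, G2p8_5, G2p8_6]⟩) (.leaf
  ⟨136619537, 1185425253125521021953,
  9517059045828929766139390470059835527439069167378721235343259255898143, 32906, [G2p1_2, G2p1_3,
  G2p1_4, G2p2_3, G2p2_4, G2p3_4, G2p7_0, G2p7_5, G2p7_6, G2p7_8, G2p8_0, G2p8_5, G2p8_6]⟩))) (.node
  294 (.node 293 (.leaf ⟨575022153, 3689601053812954732708,
  10352672179350967427054092895434801682821713625556669296443971001647153, 140578, [G2p1_0, G2p1_4,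
  G2p1_5, G2p2_0, G2p2_1, G2p2_4, G2p2_5, G2p3_0, G2p3_1, G2p3_2, G2p3_4, G2p3_5, G2p6_0, G2p6_5,
  G2p6_7, G2p6_8, G2p8_7]⟩) (.leaf ⟨575038536, 3689492971886516243524,
  10352672179388630037464951456062385683546281678209724668769161346154502, 140582, [G2p0_1, G2p0_2,
  G2p1_2, G2p3_1, G2p3_2, G2p3_4, G2p3_5, G2p6_0, G2p6_1, G2p6_2, G2p6_5, G2p6_7, G2p6_8, G2p8_7]⟩))
  (.node 295 (.leaf ⟨574907464, 3689492965289446476868,
  10352672179363521630517558637271752217634686278619601117783652834607106, 140550, [G2p0_1, G2p2_1,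
  G2p2_4, G2p2_5, G2p3_1, G2p3_4, G2p3_5, G2p6_0, G2p6_1, G2p6_5, G2p6_7, G2p6_8, G2p8_7]⟩) (.leaf
  ⟨574923848, 3689529030198550499428,
  10352672179350967427043862227867248141156053601191720168537042615009280, 140554, [G2p1_2, G2p1_4,
  G2p1_5, G2p2_4, G2p2_5, G2p3_4, G2p3_5, G2p6_0, G2p6_5, G2p6_7, G2p6_8, G2p8_7]⟩)))) (.node 300
  (.node 298 (.node 297 (.leaf ⟨575251524, 3689645137561291653284,
  10352672179501617868646373978579347071740893103417653995508265974759448, 140570, [G2p0_3, G2p0_4,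
  G2p1_3, G2p1_4, G2p2_1, G2p2_3, G2p2_4, G2p3_4, G2p6_0, G2p6_3, G2p6_4, G2p6_5, G2p6_7, G2p6_8,
  G2p8_7]⟩) (.leaf ⟨580019268, 3689682334177098574180,
  10352672179539283544096544560968722429269977623595070882999475965526078, 140902, [G2p0_1, G2p0_2,
  G2p0_3, G2p0_4, G2p0_5, G2p1_2, G2p1_3, G2p1_4, G2p1_5, G2p2_3, G2p2_4, G2p2_5, G2p3_4, G2p3_5,
  G2p4_5, G2p6_0, G2p6_1, G2p6_2, G2p6_3, G2p6_4, G2p6_5, G2p6_7, G2p6_8, G2p8_7]⟩)) (.node 299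
  (.leaf ⟨579937353, 3689533572281084909633,
  10352672179350970492034944227237573733336052280805913353413298424119357, 140882, [G2p1_0, G2p1_2,
  G2p1_3, G2p1_4, G2p1_5, G2p3_4, G2p3_5, G2p4_5, G2p6_0, G2p6_5, G2p6_7, G2p6_8, G2p8_7]⟩) (.leaf
  ⟨580002889, 3689570757798696066146,
  10352672179350970492034944138054669578092707649868068850536341407531065, 140898, [G2p1_0, G2p1_3,
  G2p1_4, G2p1_5, G2p2_0, G2p2_1, G2p2_3, G2p2_4, G2p2_5, G2p3_4, G2p3_5, G2p4_5, G2p6_0, G2p6_5,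
  G2p6_7, G2p6_8, G2p8_7]⟩))) (.node 302 (.node 301 (.leaf ⟨575169604, 3689645145498391216292,
  10352672179539280479058694196958666098043126199398344872932749218807838, 140550, [G2p0_1, G2p0_2,
  G2p0_3, G2p0_4, G2p2_1, G2p3_4, G2p6_0, G2p6_1, G2p6_2, G2p6_3, G2p6_4, G2p6_5, G2p6_7, G2p6_8,
  G2p8_7]⟩) (.leaf ⟨575185988, 3689645145223513309348,
  10352672179526726275587920790828823702785776286800033404993530373079068, 140554, [G2p0_2, G2p0_3,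
  G2p0_4, G2p1_2, G2p1_3, G2p1_4, G2p3_4, G2p6_0, G2p6_2, G2p6_3, G2p6_4, G2p6_5, G2p6_7, G2p6_8,
  G2p8_7]⟩)) (.node 303 (.leaf ⟨579970116, 3689421999407375715492,
  10352672179350970492034944271839744378401032070179791307564608886145024, 140890, [G2p2_1, G2p3_4,
  G2p3_5, G2p4_5, G2p6_0, G2p6_5, G2p6_7, G2p6_8, G2p8_7]⟩) (.leaf ⟨102307986,
  2476476661900199041185, 12078135091503977920758447576131384904176672537535401641729956503355430,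
  26705, [G2p0_1, G2p0_2, G2p0_5, G2p0_6, G2p0_7, G2p0_8, G2p1_2, G2p1_5, G2p2_5, G2p3_5, G2p4_3,
  G2p4_5, G2p7_6, G2p8_6, G2p8_7]⟩))))) (.node 312 (.node 308 (.node 306 (.node 305 (.leaf
  ⟨579445828, 3689356907185139942564,
  10352672179401188072095654868065458112707156672722029923208706734424072, 140826, [G2p0_3, G2p1_3,
  G2p2_1, G2p2_3, G2p4_3, G2p4_5, G2p6_0, G2p6_3, G2p6_5, G2p6_7, G2p6_8, G2p8_7]⟩) (.leaf
  ⟨579216457, 3689350014453046058181,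
  10352672179350971928736359805968660886337391905722287235594945120174113, 140834, [G2p1_0, G2p1_5,
  G2p2_0, G2p2_1, G2p2_5, G2p3_0, G2p3_1, G2p3_2, G2p3_5, G2p4_0, G2p4_1, G2p4_2, G2p4_3, G2p4_5,
  G2p6_0, G2p6_5, G2p6_7, G2p6_8, G2p8_7]⟩)) (.node 307 (.leaf ⟨579232840, 3689350017782719352932,
  10352672179388634443366247062483635840612755513453674681955789887111174, 140838, [G2p0_1, G2p0_2,
  G2p1_2, G2p3_1, G2p3_2, G2p3_5, G2p4_1, G2p4_2, G2p4_3, G2p4_5, G2p6_0, G2p6_1, G2p6_2, G2p6_5,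
  G2p6_7, G2p6_8, G2p8_7]⟩) (.leaf ⟨579101768, 3689350011185649586276,
  10352672179363525653294969027215343267243668310870841232566592538279938, 140806, [G2p0_1, G2p2_1,
  G2p2_5, G2p3_1, G2p3_5, G2p4_1, G2p4_3, G2p4_5, G2p6_0, G2p6_1, G2p6_5, G2p6_7, G2p6_8,
  G2p8_7]⟩))) (.node 310 (.node 309 (.leaf ⟨579363908, 3689356915122239505572,
  10352672179438851257193802911158543624337009702041320707867210356228110, 140806, [G2p0_1, G2p0_2,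
  G2p0_3, G2p2_1, G2p4_1, G2p4_2, G2p4_3, G2p4_5, G2p6_0, G2p6_1, G2p6_2, G2p6_3, G2p6_5, G2p6_7,
  G2p6_8, G2p8_7]⟩) (.leaf ⟨579380292, 3689356914847361598628,
  10352672179426296862161086896792593851209531659097119231097659970027532, 140810, [G2p0_2, G2p0_3,
  G2p1_2, G2p1_3, G2p4_2, G2p4_3, G2p4_5, G2p6_0, G2p6_2, G2p6_3, G2p6_5, G2p6_7, G2p6_8, G2p8_7]⟩))
  (.node 311 (.leaf ⟨576824388, 3689387205464993890534,
  10352672179350968767916076480105149684981175837107652581349431776903168, 140698, [G2p2_1, G2p3_1,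
  G2p3_2, G2p4_1, G2p4_2, G2p4_3, G2p6_0, G2p6_5, G2p6_7, G2p6_8, G2p8_7]⟩) (.leaf ⟨576873540,
  3689387348401505501444, 10352672179388630803633799596350705384483146629468850472065815113891846,
  140710, [G2p0_1, G2p0_2, G2p1_2, G2p4_3, G2p6_0, G2p6_1, G2p6_2, G2p6_5, G2p6_7, G2p6_8,
  G2p8_7]⟩)))) (.node 316 (.node 314 (.node 313 (.leaf ⟨576791625, 3689498778235623836737,
  10352672179350968576351210823992209939286410284279694108816410586906685, 140690, [G2p1_0, G2p1_2,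
  G2p1_3, G2p1_4, G2p1_5, G2p3_2, G2p4_2, G2p4_3, G2p6_0, G2p6_5, G2p6_7, G2p6_8, G2p8_7]⟩) (.leaf
  ⟨571548825, 6124323646027867423809,
  10352672179150141261478025028634473369505081247180081490185470075469837, 141394, [G2p1_0, G2p1_2,
  G2p1_3, G2p4_0, G2p4_2, G2p4_3, G2p4_5, G2p4_7, G2p4_8, G2p5_0, G2p5_7, G2p5_8, G2p6_0, G2p6_7,
  G2p6_8, G2p8_7]⟩)) (.node 315 (.leaf ⟨572925025, 3689607954489664408712,
  10352672179539280479058694219259751584130590256789151638877948396634113, 140450, [G2p1_0, G2p2_0,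
  G2p2_1, G2p3_4, G2p5_0, G2p5_1, G2p5_2, G2p5_3, G2p5_4, G2p6_0, G2p6_1, G2p6_2, G2p6_3, G2p6_4,
  G2p6_5, G2p6_7, G2p6_8, G2p8_7]⟩) (.leaf ⟨576857161, 3689535960454700109922,
  10352672179350968193221479511787767582783494126433688569176032114376761, 140706, [G2p1_0, G2p1_3,
  G2p1_4, G2p1_5, G2p2_0, G2p2_1, G2p2_3, G2p2_4, G2p2_5, G2p4_3, G2p6_0, G2p6_5, G2p6_7, G2p6_8,
  G2p8_7]⟩))) (.node 318 (.node 317 (.leaf ⟨571614361, 6124324802748459582562,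
  10352672179150140878354139722963021071062774782418699101466990458961929, 141410, [G2p1_0, G2p1_3,
  G2p2_0, G2p2_1, G2p2_3, G2p4_0, G2p4_3, G2p4_5, G2p4_7, G2p4_8, G2p5_0, G2p5_7, G2p5_8, G2p6_0,
  G2p6_7, G2p6_8, G2p8_7]⟩) (.leaf ⟨572925073, 9776884734752238768132,
  10352672179150140112739209289007292709941273498024251507135690173251585, 141474, [G2p1_0, G2p2_0,
  G2p2_1, G2p3_0, G2p3_4, G2p3_5, G2p3_7, G2p3_8, G2p4_0, G2p4_5, G2p4_7, G2p4_8, G2p5_0, G2p5_7,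
  G2p5_8, G2p6_0, G2p6_7, G2p6_8, G2p8_7]⟩)) (.node 319 (.leaf ⟨105158728, 8569845759201625084004,
  12940866549090120388809259549753693798952453005724457139356896467157473, 25865, [G2p0_5, G2p0_6,
  G2p0_7, G2p0_8, G2p1_0, G2p1_2, G2p1_4, G2p1_5, G2p1_6, G2p1_7, G2p1_8, G2p2_0, G2p2_4, G2p2_5,
  G2p2_6, G2p2_7, G2p2_8, G2p3_0, G2p3_4, G2p3_5, G2p3_6, G2p3_7, G2p3_8, G2p6_5, G2p7_5, G2p7_6,
  G2p8_5, G2p8_6, G2p8_7]⟩) (.leaf ⟨109336648, 8569666740188724170852,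
  12940866549090167417245708536580202695965653847242316521778689922499043, 26117, [G2p0_5, G2p0_6,
  G2p0_7, G2p0_8, G2p2_0, G2p2_1, G2p2_5, G2p2_6, G2p2_7, G2p2_8, G2p3_0, G2p3_1, G2p3_5, G2p3_6,
  G2p3_7, G2p3_8, G2p4_0, G2p4_1, G2p4_3, G2p4_5, G2p4_6, G2p4_7, G2p4_8, G2p6_5, G2p7_5, G2p7_6,
  G2p8_5, G2p8_6, G2p8_7]⟩))))))

def G2T6 : Tr :=
  .node 352 (.node 336 (.node 328 (.node 324 (.node 322 (.node 321 (.leaf ⟨107092102,
  2476550968167311082662, 12078135091503975047285462734437283780878024564644436312397714395627522,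
  27041, [G2p0_1, G2p0_6, G2p0_7, G2p0_8, G2p2_1, G2p3_1, G2p4_1, G2p4_3, G2p5_1, G2p5_3, G2p5_4,
  G2p7_6, G2p8_6, G2p8_7]⟩) (.leaf ⟨105273480, 7351171669385173535811,
  12078135091503974090161204420213758342446101263384358392403083704861127, 26917, [G2p0_6, G2p0_7,
  G2p0_8, G2p1_2, G2p3_0, G2p3_1, G2p3_2, G2p3_4, G2p3_6, G2p3_7, G2p3_8, G2p5_4, G2p7_6, G2p8_6,
  G2p8_7]⟩)) (.node 323 (.leaf ⟨407249289, 8570133955595995558052,
  13372232277883193538123056446873247902562872981027766585230620036694513, 100642, [G2p0_4, G2p0_5,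
  G2p0_6, G2p0_7, G2p0_8, G2p1_0, G2p1_4, G2p1_5, G2p1_6, G2p1_7, G2p1_8, G2p2_0, G2p2_1, G2p2_4,
  G2p2_5, G2p2_6, G2p2_7, G2p2_8, G2p3_0, G2p3_1, G2p3_2, G2p3_4, G2p3_5, G2p3_6, G2p3_7, G2p3_8,
  G2p5_4, G2p6_4, G2p6_5, G2p7_4, G2p7_5, G2p7_6, G2p8_4, G2p8_5, G2p8_6, G2p8_7]⟩) (.leaf
  ⟨407130504, 1258089598431313172547,
  13372232277883193537415678860681076684597802697035541158854486803021827, 100613, [G2p2_0, G2p2_1,
  G2p2_4, G2p3_0, G2p3_1, G2p3_4, G2p5_4, G2p6_4, G2p6_5, G2p7_4, G2p7_5, G2p7_6, G2p8_4, G2p8_5,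
  G2p8_6, G2p8_7]⟩))) (.node 326 (.node 325 (.leaf ⟨407146888, 1258089634578831677540,
  13372232277883193537412755812804244026004541196603125497444011303043073, 100617, [G2p1_0, G2p1_2,
  G2p1_4, G2p2_0, G2p2_4, G2p3_0, G2p3_4, G2p5_4, G2p6_4, G2p6_5, G2p7_4, G2p7_5, G2p7_6, G2p8_4,
  G2p8_5, G2p8_6, G2p8_7]⟩) (.leaf ⟨407474564, 1258208064107983313122,
  13587915142279730112063808344020740832714864783146810206844914014617625, 100633, [G2p1_0, G2p1_3,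
  G2p1_4, G2p2_0, G2p2_1, G2p2_3, G2p2_4, G2p3_4, G2p5_3, G2p5_4, G2p6_3, G2p6_4, G2p6_5, G2p7_3,
  G2p7_4, G2p7_5, G2p7_6, G2p8_3, G2p8_4, G2p8_5, G2p8_6, G2p8_7]⟩)) (.node 327 (.leaf ⟨407441798,
  1258319645019723700456, 13749677290577132543053193751578626357800195734625652516506207843647518,
  100625, [G2p0_1, G2p0_2, G2p0_3, G2p0_4, G2p1_2, G2p1_3, G2p1_4, G2p2_3, G2p2_4, G2p3_4, G2p5_1,
  G2p5_2, G2p5_3, G2p5_4, G2p6_1, G2p6_2, G2p6_3, G2p6_4, G2p6_5, G2p7_1, G2p7_2, G2p7_3, G2p7_4,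
  G2p7_5, G2p7_6, G2p8_1, G2p8_2, G2p8_3, G2p8_4, G2p8_5, G2p8_6, G2p8_7]⟩) (.leaf ⟨412225926,
  1257947735211628468456, 12994787265189254723334260839083336610673349614069022446192942219657218,
  100961, [G2p0_1, G2p2_1, G2p2_3, G2p2_4, G2p3_1, G2p3_4, G2p4_1, G2p5_1, G2p6_1, G2p6_5, G2p7_1,
  G2p7_5, G2p7_6, G2p8_1, G2p8_5, G2p8_6, G2p8_7]⟩)))) (.node 332 (.node 330 (.node 329 (.leaf
  ⟨407392644, 1258208074310678124768,
  13749677290577132543053193885375611191524985053793166382051174442205215, 100613, [G2p2_1, G2p3_4,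
  G2p5_1, G2p5_2, G2p5_3, G2p5_4, G2p6_1, G2p6_2, G2p6_3, G2p6_4, G2p6_5, G2p7_1, G2p7_2, G2p7_3,
  G2p7_4, G2p7_5, G2p7_6, G2p8_1, G2p8_2, G2p8_3, G2p8_4, G2p8_5, G2p8_6, G2p8_7]⟩) (.leaf
  ⟨407409028, 1258208073968154482913,
  13695756574477998399390065371587138261437563675841697109002550165372957, 100617, [G2p1_0, G2p1_2,
  G2p1_3, G2p1_4, G2p3_4, G2p5_2, G2p5_3, G2p5_4, G2p6_2, G2p6_3, G2p6_4, G2p6_5, G2p7_2, G2p7_3,
  G2p7_4, G2p7_5, G2p7_6, G2p8_2, G2p8_3, G2p8_4, G2p8_5, G2p8_6, G2p8_7]⟩)) (.node 331 (.leaf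
  ⟨412193156, 1257910546192545257699,
  12940866549090120388106266869882164894580694260380567569015994908147713, 100953, [G2p1_0, G2p2_0,
  G2p2_1, G2p3_4, G2p6_5, G2p7_5, G2p7_6, G2p8_5, G2p8_6, G2p8_7]⟩) (.leaf ⟨412160390,
  1257910556325446850792, 13102628697387523393790249089671612523022857884785590817071788590497798,
  100945, [G2p0_1, G2p0_2, G2p1_2, G2p3_1, G2p3_2, G2p3_4, G2p4_1, G2p4_2, G2p5_1, G2p5_2, G2p6_1,
  G2p6_2, G2p6_5, G2p7_1, G2p7_2, G2p7_5, G2p7_6, G2p8_1, G2p8_2, G2p8_5, G2p8_6, G2p8_7]⟩))) (.node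
  334 (.node 333 (.leaf ⟨412242308, 1258022116898369607904,
  12940866549090120388106266713784094574763687157803616497556932387667999, 100965, [G2p1_2, G2p1_3,
  G2p1_4, G2p2_3, G2p2_4, G2p3_4, G2p6_5, G2p7_5, G2p7_6, G2p8_5, G2p8_6, G2p8_7]⟩) (.leaf
  ⟨411668868, 1257847776137793673442,
  13156549413486657728983166640460090836808127460728935427947896324489225, 100889, [G2p1_0, G2p1_3,
  G2p2_0, G2p2_1, G2p2_3, G2p4_3, G2p5_3, G2p6_3, G2p6_5, G2p7_3, G2p7_5, G2p7_6, G2p8_3, G2p8_5,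
  G2p8_6, G2p8_7]⟩)) (.node 335 (.leaf ⟨411636102, 1257851270658477168872,
  13318311561784060734658379872726298246272325942973493365234864269164558, 100881, [G2p0_1, G2p0_2,
  G2p0_3, G2p1_2, G2p1_3, G2p2_3, G2p4_1, G2p4_2, G2p4_3, G2p5_1, G2p5_2, G2p5_3, G2p6_1, G2p6_2,
  G2p6_3, G2p6_5, G2p7_1, G2p7_2, G2p7_3, G2p7_5, G2p7_6, G2p8_1, G2p8_2, G2p8_3, G2p8_5, G2p8_6,
  G2p8_7]⟩) (.leaf ⟨411324808, 1257838557971892836452,
  12940866549090121441677951069474587713957882701857880364958995789840387, 100869, [G2p2_0, G2p2_1,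
  G2p3_0, G2p3_1, G2p4_0, G2p4_1, G2p4_3, G2p6_5, G2p7_5, G2p7_6, G2p8_5, G2p8_6, G2p8_7]⟩)))))
  (.node 344 (.node 340 (.node 338 (.node 337 (.leaf ⟨404246930, 1257838561231773113541,
  12940866549090124794063100051449677843081527382736734163940834111651872, 100421, [G2p0_5, G2p1_5,
  G2p2_1, G2p2_5, G2p3_1, G2p3_2, G2p3_5, G2p4_1, G2p4_2, G2p4_3, G2p4_5, G2p6_5, G2p7_5, G2p7_6,
  G2p8_5, G2p8_6, G2p8_7]⟩) (.leaf ⟨152590482, 14584458232981282364613,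
  6901904318040257049685393468893357052532350573860004405175042596405728, 38981, [G2p0_5, G2p0_6,
  G2p0_7, G2p0_8, G2p1_5, G2p1_6, G2p1_7, G2p1_8, G2p2_1, G2p2_5, G2p2_6, G2p2_7, G2p2_8, G2p3_1,
  G2p3_2, G2p3_5, G2p3_6, G2p3_7, G2p3_8, G2p4_1, G2p4_2, G2p4_3, G2p4_5, G2p4_6, G2p4_7, G2p4_8,
  G2p5_6, G2p5_7, G2p5_8, G2p6_7, G2p6_8, G2p7_8]⟩)) (.node 339 (.leaf ⟨411586948,
  1257847786340488485088, 13318311561784060734658380006528727680945867664713891510388177129832463,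
  100869, [G2p2_1, G2p4_1, G2p4_2, G2p4_3, G2p5_1, G2p5_2, G2p5_3, G2p6_1, G2p6_2, G2p6_3, G2p6_5,
  G2p7_1, G2p7_2, G2p7_3, G2p7_5, G2p7_6, G2p8_1, G2p8_2, G2p8_3, G2p8_5, G2p8_6, G2p8_7]⟩) (.leaf
  ⟨411603332, 1257847785997964843233,
  13264390845684926399433308884504147372988318156416532228509221312528397, 100873, [G2p1_0, G2p1_2,
  G2p1_3, G2p4_2, G2p4_3, G2p5_2, G2p5_3, G2p6_2, G2p6_3, G2p6_5, G2p7_2, G2p7_3, G2p7_5, G2p7_6,
  G2p8_2, G2p8_3, G2p8_5, G2p8_6, G2p8_7]⟩))) (.node 342 (.node 341 (.leaf ⟨409047428,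
  1258098898350842747308, 13776637648626701051586173654086789557000846441912977993013898017505281,
  100761, [G2p1_0, G2p2_0, G2p2_1, G2p3_0, G2p3_1, G2p3_2, G2p4_0, G2p4_1, G2p4_2, G2p4_3, G2p5_0,
  G2p5_1, G2p5_2, G2p5_3, G2p5_4, G2p6_0, G2p6_1, G2p6_2, G2p6_3, G2p6_4, G2p6_5, G2p7_0, G2p7_1,
  G2p7_2, G2p7_3, G2p7_4, G2p7_5, G2p7_6, G2p8_0, G2p8_1, G2p8_2, G2p8_3, G2p8_4, G2p8_5, G2p8_6,
  G2p8_7]⟩) (.leaf ⟨403775897, 4913756066187427710017,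
  12940866549090124602445619801164053868809241377771438987527576951194093, 100434, [G2p0_5, G2p0_6,
  G2p0_7, G2p0_8, G2p1_0, G2p1_2, G2p1_3, G2p1_5, G2p1_6, G2p1_7, G2p1_8, G2p4_2, G2p4_3, G2p4_5,
  G2p6_5, G2p7_5, G2p7_6, G2p8_5, G2p8_6, G2p8_7]⟩)) (.node 343 (.leaf ⟨409014662,
  1258098901670852467019, 13749677290577133883972176591436487917197462491316770025623353926483974,
  100753, [G2p0_1, G2p0_2, G2p1_2, G2p3_1, G2p3_2, G2p4_1, G2p4_2, G2p4_3, G2p5_1, G2p5_2, G2p5_3,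
  G2p5_4, G2p6_1, G2p6_2, G2p6_3, G2p6_4, G2p6_5, G2p7_1, G2p7_2, G2p7_3, G2p7_4, G2p7_5, G2p7_6,
  G2p8_1, G2p8_2, G2p8_3, G2p8_4, G2p8_5, G2p8_6, G2p8_7]⟩) (.leaf ⟨403853720,
  1257845459570946901059, 12940866549090124889788533624317953778279365437969234436708177091166223,
  100453, [G2p1_2, G2p1_3, G2p2_3, G2p4_0, G2p4_1, G2p4_2, G2p4_3, G2p4_5, G2p6_5, G2p7_5, G2p7_6,
  G2p8_5, G2p8_6, G2p8_7]⟩)))) (.node 348 (.node 346 (.node 345 (.leaf ⟨405148050,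
  1258059310250001177698, 12940866549090123453144117345377231371552278248598490289454320113811518,
  100513, [G2p0_1, G2p0_2, G2p0_3, G2p0_4, G2p0_5, G2p2_1, G2p3_4, G2p3_5, G2p4_5, G2p6_5, G2p7_5,
  G2p7_6, G2p8_5, G2p8_6, G2p8_7]⟩) (.leaf ⟨409096580, 1258098889198267439424,
  13587915142279730878288194215540803067517064636375811630798223385296903, 100773, [G2p1_2, G2p4_3,
  G2p5_3, G2p5_4, G2p6_3, G2p6_4, G2p6_5, G2p7_3, G2p7_4, G2p7_5, G2p7_6, G2p8_3, G2p8_4, G2p8_5,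
  G2p8_6, G2p8_7]⟩)) (.node 347 (.leaf ⟨403841433, 6132395253278565500002,
  12940866549090124219321734495655937106488985375472476410376346076185065, 100450, [G2p0_5, G2p0_6,
  G2p0_7, G2p0_8, G2p1_0, G2p1_3, G2p1_5, G2p1_6, G2p1_7, G2p1_8, G2p2_0, G2p2_1, G2p2_3, G2p2_5,
  G2p2_6, G2p2_7, G2p2_8, G2p4_3, G2p4_5, G2p6_5, G2p7_5, G2p7_6, G2p8_5, G2p8_6, G2p8_7]⟩) (.leaf
  ⟨405033362, 1258059304580644346978,
  12940866549090123453144117211591816283684260655059836325574788221763640, 100485, [G2p0_3, G2p0_4,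
  G2p0_5, G2p1_3, G2p1_4, G2p1_5, G2p2_1, G2p2_3, G2p2_4, G2p2_5, G2p3_4, G2p3_5, G2p4_5, G2p6_5,
  G2p7_5, G2p7_6, G2p8_5, G2p8_6, G2p8_7]⟩))) (.node 350 (.node 349 (.leaf ⟨403804568,
  1257841975256179442758, 12940866549090124889788533780421468699043857292518841558374089170550785,
  100441, [G2p1_0, G2p2_0, G2p2_1, G2p4_0, G2p4_1, G2p4_2, G2p4_3, G2p4_5, G2p6_5, G2p7_5, G2p7_6,
  G2p8_5, G2p8_6, G2p8_7]⟩) (.leaf ⟨405053841, 4913973399023028280321,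
  12940866549090123453144117211591135739753198922955122679255843299328511, 100490, [G2p0_5, G2p0_6,
  G2p0_7, G2p0_8, G2p1_2, G2p1_3, G2p1_4, G2p1_5, G2p2_3, G2p2_4, G2p2_5, G2p3_4, G2p3_5, G2p4_5,
  G2p6_5, G2p7_5, G2p7_6, G2p8_5, G2p8_6, G2p8_7]⟩)) (.node 351 (.leaf ⟨409227656,
  1258098605630567913539, 13587915142279730878288194817670111030981567362214405592582656473366531,
  100741, [G2p2_0, G2p2_1, G2p2_3, G2p2_4, G2p4_3, G2p5_3, G2p5_4, G2p6_3, G2p6_4, G2p6_5, G2p7_3,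
  G2p7_4, G2p7_5, G2p7_6, G2p8_3, G2p8_4, G2p8_5, G2p8_6, G2p8_7]⟩) (.leaf ⟨409244040,
  1258098641778086418532, 13587915142279730878288194773067940219763088099726043525455463472234497,
  100745, [G2p1_0, G2p1_2, G2p1_3, G2p1_4, G2p2_0, G2p2_3, G2p2_4, G2p4_3, G2p5_3, G2p5_4, G2p6_3,
  G2p6_4, G2p6_5, G2p7_3, G2p7_4, G2p7_5, G2p7_6, G2p8_3, G2p8_4, G2p8_5, G2p8_6, G2p8_7]⟩))))))
  (.node 368 (.node 360 (.node 356 (.node 354 (.node 353 (.leaf ⟨405152145, 8569775919425619595268,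
  12940866549090123453144127358575503827818946488768229302972648148369889, 100514, [G2p0_5, G2p0_6,
  G2p0_7, G2p0_8, G2p1_0, G2p1_5, G2p1_6, G2p1_7, G2p1_8, G2p2_0, G2p2_1, G2p2_5, G2p2_6, G2p2_7,
  G2p2_8, G2p3_4, G2p3_5, G2p4_5, G2p6_5, G2p7_5, G2p7_6, G2p8_5, G2p8_6, G2p8_7]⟩) (.leaf
  ⟨404902296, 1257873643387935164516,
  12940866549090124123621145603018040370888327020341963987129341101670407, 100517, [G2p1_2, G2p3_0,
  G2p3_1, G2p3_2, G2p3_4, G2p3_5, G2p4_0, G2p4_1, G2p4_2, G2p4_5, G2p6_5, G2p7_5, G2p7_6, G2p8_5,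
  G2p8_6, G2p8_7]⟩)) (.node 355 (.leaf ⟨404853144, 1257873536772888234087,
  12940866549090124123621145759124277592126561250877899133898677960507393, 100505, [G2p1_0, G2p2_0,
  G2p2_1, G2p3_0, G2p3_1, G2p3_2, G2p3_4, G2p3_5, G2p4_0, G2p4_1, G2p4_2, G2p4_5, G2p6_5, G2p7_5,
  G2p7_6, G2p8_5, G2p8_6, G2p8_7]⟩) (.leaf ⟨404824473, 4913787627668703021153,
  12940866549090123836273847274954870011598959413353726685749227309760997, 100498, [G2p0_5, G2p0_6,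
  G2p0_7, G2p0_8, G2p1_0, G2p1_2, G2p1_5, G2p1_6, G2p1_7, G2p1_8, G2p3_2, G2p3_4, G2p3_5, G2p4_2,
  G2p4_5, G2p6_5, G2p7_5, G2p7_6, G2p8_5, G2p8_6, G2p8_7]⟩))) (.node 358 (.node 357 (.leaf
  ⟨157443204, 4835428587635689391463,
  7090626824387180002243988675602337957226108979682406934124576364298246, 39334, [G2p0_1, G2p0_2,
  G2p1_2, G2p4_3, G2p5_0, G2p5_1, G2p5_2, G2p5_3, G2p5_4, G2p5_6, G2p5_7, G2p5_8, G2p6_0, G2p6_1,
  G2p6_2, G2p6_7, G2p6_8, G2p7_0, G2p7_1, G2p7_2, G2p7_8, G2p8_0, G2p8_1, G2p8_2]⟩) (.leaf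
  ⟨155608200, 4835496950870657993799,
  7090626824387179236028371769295583009926785584633375347199564748029958, 39206, [G2p0_1, G2p0_2,
  G2p1_2, G2p3_1, G2p3_2, G2p3_4, G2p5_0, G2p5_1, G2p5_2, G2p5_4, G2p5_6, G2p5_7, G2p5_8, G2p6_0,
  G2p6_1, G2p6_2, G2p6_7, G2p6_8, G2p7_0, G2p7_1, G2p7_2, G2p7_8, G2p8_0, G2p8_1, G2p8_2]⟩)) (.node
  359 (.leaf ⟨291608644, 1192159226491068285158,
  9490098687785650427858180077566655892058414920365538792357000896315489, 71065, [G2p0_5, G2p0_6,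
  G2p1_0, G2p1_5, G2p1_6, G2p2_0, G2p2_1, G2p2_5, G2p2_6, G2p3_0, G2p3_1, G2p3_2, G2p3_5, G2p3_6,
  G2p4_0, G2p4_1, G2p4_2, G2p4_3, G2p4_5, G2p4_6, G2p7_5, G2p7_6, G2p7_8, G2p8_5, G2p8_6]⟩) (.leaf
  ⟨289822792, 1188806227261573532739,
  9490098687785639796193749703438230216998362535368686788570376798928999, 70949, [G2p0_5, G2p0_6,
  G2p1_2, G2p3_0, G2p3_1, G2p3_2, G2p3_4, G2p3_5, G2p3_6, G2p7_5, G2p7_6, G2p7_8, G2p8_5,
  G2p8_6]⟩)))) (.node 364 (.node 362 (.node 361 (.leaf ⟨289953860, 1185350873429497217056,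
  9490098687785639796043213050027505091162577843707599606934580057997439, 70917, [G2p0_5, G2p0_6,
  G2p2_1, G2p3_4, G2p7_5, G2p7_6, G2p7_8, G2p8_5, G2p8_6]⟩) (.leaf ⟨289708104,
  1189995208213194346596, 9490098687785639796184980559848226102497012637964962809148147177160801,
  70921, [G2p0_5, G2p0_6, G2p1_0, G2p1_2, G2p1_4, G2p1_5, G2p1_6, G2p2_0, G2p2_4, G2p2_5, G2p2_6,
  G2p3_0, G2p3_4, G2p3_5, G2p3_6, G2p7_5, G2p7_6, G2p7_8, G2p8_5, G2p8_6]⟩)) (.node 363 (.leaf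
  ⟨290035780, 1187731092801909358690,
  9490098687785639796043212916264208694644192431286501350733685041135737, 70937, [G2p0_5, G2p0_6,
  G2p1_0, G2p1_3, G2p1_4, G2p1_5, G2p1_6, G2p2_0, G2p2_1, G2p2_3, G2p2_4, G2p2_5, G2p2_6, G2p3_4,
  G2p7_5, G2p7_6, G2p7_8, G2p8_5, G2p8_6]⟩) (.leaf ⟨290003014, 1185462444137469050914,
  9490098687785639796043212916230520257437788524540085741389613459439646, 70929, [G2p0_1, G2p0_2,
  G2p0_3, G2p0_4, G2p0_5, G2p0_6, G2p1_2, G2p1_3, G2p1_4, G2p2_3, G2p2_4, G2p3_4, G2p7_5, G2p7_6,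
  G2p7_8, G2p8_5, G2p8_6]⟩))) (.node 366 (.node 365 (.leaf ⟨289970244, 1186540985778583011393,
  9490098687785639796043213005425334778404597000562689878735026072060029, 70921, [G2p0_5, G2p0_6,
  G2p1_0, G2p1_2, G2p1_3, G2p1_4, G2p1_5, G2p1_6, G2p3_4, G2p7_5, G2p7_6, G2p7_8, G2p8_5, G2p8_6]⟩)
  (.leaf ⟨294754372, 1188735255916304370819,
  9490098687785642861081064997405102851953721096771787652311776946552929, 71257, [G2p0_5, G2p0_6,
  G2p1_0, G2p1_5, G2p1_6, G2p2_0, G2p2_1, G2p2_5, G2p2_6, G2p3_4, G2p3_5, G2p4_5, G2p7_5, G2p7_6,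
  G2p7_8, G2p8_5, G2p8_6]⟩)) (.node 367 (.leaf ⟨294721606, 1185276498132593675397,
  9490098687785643435775660382355283812144268804665583531867068835430406, 71249, [G2p0_1, G2p0_2,
  G2p0_5, G2p0_6, G2p1_2, G2p3_1, G2p3_2, G2p3_4, G2p3_5, G2p4_1, G2p4_2, G2p4_5, G2p7_5, G2p7_6,
  G2p7_8, G2p8_5, G2p8_6]⟩) (.leaf ⟨294803524, 1185388062108204374240,
  9490098687785642861081063414037561422386893928018242930530179807707263, 71269, [G2p0_5, G2p0_6,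
  G2p1_2, G2p1_3, G2p1_4, G2p1_5, G2p2_3, G2p2_4, G2p2_5, G2p3_4, G2p3_5, G2p4_5, G2p7_5, G2p7_6,
  G2p7_8, G2p8_5, G2p8_6]⟩))))) (.node 376 (.node 372 (.node 370 (.node 369 (.leaf ⟨294787142,
  1185313680351669948582, 9490098687785643052645929070150501173274114795706057560268884418887682,
  71265, [G2p0_1, G2p0_5, G2p0_6, G2p2_1, G2p2_3, G2p2_4, G2p2_5, G2p3_1, G2p3_4, G2p3_5, G2p4_1,
  G2p4_5, G2p7_5, G2p7_6, G2p7_8, G2p8_5, G2p8_6]⟩) (.leaf ⟨294230084, 1187514920019795575906,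
  9490098687785643627258680697971692366383046333191851456686293204336745, 71193, [G2p0_5, G2p0_6,
  G2p1_0, G2p1_3, G2p1_5, G2p1_6, G2p2_0, G2p2_1, G2p2_3, G2p2_5, G2p2_6, G2p4_3, G2p4_5, G2p7_5,
  G2p7_6, G2p7_8, G2p8_5, G2p8_6]⟩)) (.node 371 (.leaf ⟨294197318, 1185211404776486601795,
  9490098687785644201944508522646325813555509957211151474967895738286094, 71185, [G2p0_1, G2p0_2,
  G2p0_3, G2p0_5, G2p0_6, G2p1_2, G2p1_3, G2p2_3, G2p4_1, G2p4_2, G2p4_3, G2p4_5, G2p7_5, G2p7_6,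
  G2p7_8, G2p8_5, G2p8_6]⟩) (.leaf ⟨293886024, 1189816189200293433444,
  9490098687785650044728448765342136393023555549436224697541598646567011, 71173, [G2p0_5, G2p0_6,
  G2p2_0, G2p2_1, G2p2_5, G2p2_6, G2p3_0, G2p3_1, G2p3_5, G2p3_6, G2p4_0, G2p4_1, G2p4_3, G2p4_5,
  G2p4_6, G2p7_5, G2p7_6, G2p7_8, G2p8_5, G2p8_6]⟩))) (.node 374 (.node 373 (.leaf ⟨294148164,
  1185207920459571659840, 9490098687785644201944508656448755248229051678951549620121208598954095,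
  71173, [G2p0_5, G2p0_6, G2p2_1, G2p4_1, G2p4_2, G2p4_3, G2p4_5, G2p7_5, G2p7_6, G2p7_8, G2p8_5,
  G2p8_6]⟩) (.leaf ⟨294164548, 1186360841793488192577,
  9490098687785644010382566003610477557600942705460749883091323072544877, 71177, [G2p0_5, G2p0_6,
  G2p1_0, G2p1_2, G2p1_3, G2p1_5, G2p1_6, G2p4_2, G2p4_3, G2p4_5, G2p7_5, G2p7_6, G2p7_8, G2p8_5,
  G2p8_6]⟩)) (.node 375 (.leaf ⟨291575878, 1185241700788597817477,
  9490098687785641136962195756088381816835055281231203250506759542276102, 71057, [G2p0_1, G2p0_2,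
  G2p0_5, G2p0_6, G2p1_2, G2p3_1, G2p3_2, G2p4_1, G2p4_2, G2p4_3, G2p7_5, G2p7_6, G2p7_8, G2p8_5,
  G2p8_6]⟩) (.leaf ⟨291657796, 1185241695120314728576,
  9490098687785640562267598787751603323761483772679566473445897058386023, 71077, [G2p0_5, G2p0_6,
  G2p1_2, G2p4_3, G2p7_5, G2p7_6, G2p7_8, G2p8_5, G2p8_6]⟩)))) (.node 380 (.node 378 (.node 377
  (.leaf ⟨291641414, 1185241693092016423045,
  9490098687785640753832464443864543365417328718317728300892396105891842, 71073, [G2p0_1, G2p0_5,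
  G2p0_6, G2p2_1, G2p3_1, G2p4_1, G2p4_3, G2p7_5, G2p7_6, G2p7_8, G2p8_5, G2p8_6]⟩) (.leaf
  ⟨286857314, 1185427645659601835297,
  10137147280824599844575860079655169804034182009125824343963501338820614, 70737, [G2p0_1, G2p0_2,
  G2p0_3, G2p0_4, G2p0_5, G2p0_6, G2p1_2, G2p4_3, G2p5_3, G2p5_4, G2p7_3, G2p7_4, G2p7_5, G2p7_6,
  G2p7_8, G2p8_3, G2p8_4, G2p8_5, G2p8_6]⟩)) (.node 379 (.leaf ⟨286857362, 1190969184263598217377,
  8627367230400370714303468558634638178255977364620967523778818576744550, 71761, [G2p0_1, G2p0_2,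
  G2p0_5, G2p0_6, G2p1_2, G2p1_5, G2p1_6, G2p2_5, G2p2_6, G2p3_5, G2p3_6, G2p4_3, G2p4_5, G2p4_6,
  G2p5_6, G2p7_6, G2p7_8, G2p8_6]⟩) (.leaf ⟨157426825, 4835539936037227728994,
  6928864676089777571254603268052619333563906632062891043875827700203545, 39330, [G2p1_0, G2p1_3,
  G2p1_4, G2p2_0, G2p2_1, G2p2_3, G2p2_4, G2p4_3, G2p5_0, G2p5_3, G2p5_4, G2p5_6, G2p5_7, G2p5_8,
  G2p6_0, G2p6_7, G2p6_8, G2p7_0, G2p7_8, G2p8_0]⟩))) (.node 382 (.node 381 (.leaf ⟨155591817,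
  4835605029393334802596, 6928864676089776805040447885681218187239667687395965987515408741040145,
  39202, [G2p1_0, G2p1_4, G2p2_0, G2p2_1, G2p2_4, G2p3_0, G2p3_1, G2p3_2, G2p3_4, G2p5_0, G2p5_4,
  G2p5_6, G2p5_7, G2p5_8, G2p6_0, G2p6_7, G2p6_8, G2p7_0, G2p7_8, G2p8_0]⟩) (.leaf ⟨102258834,
  2476476591600175422661, 12078135091503978495453044544468843941213947750924483481832548909187104,
  26693, [G2p0_5, G2p0_6, G2p0_7, G2p0_8, G2p1_5, G2p2_1, G2p2_5, G2p3_1, G2p3_2, G2p3_5, G2p4_1,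
  G2p4_2, G2p4_3, G2p4_5, G2p7_6, G2p8_6, G2p8_7]⟩)) (.node 383 (.leaf ⟨107095113,
  39386476871639273570, 12967826907139688226162216819918405635364298598746962941738671704375353,
  26018, [G2p1_0, G2p1_3, G2p1_4, G2p1_5, G2p2_0, G2p2_1, G2p2_3, G2p2_4, G2p2_5, G2p4_3, G2p6_0,
  G2p6_5, G2p7_0, G2p7_5, G2p7_6, G2p8_0, G2p8_5, G2p8_6, G2p8_7]⟩) (.leaf ⟨105260169,
  39451570227746183332, 12105095449553541161338005930555281385242016341410636733933860477206545,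
  26914, [G2p1_0, G2p1_4, G2p2_0, G2p2_1, G2p2_4, G2p3_0, G2p3_1, G2p3_2, G2p3_4, G2p5_0, G2p5_4,
  G2p6_0, G2p7_0, G2p7_6, G2p8_0, G2p8_6, G2p8_7]⟩))))))

def G2T7 : Tr :=
  .node 416 (.node 400 (.node 392 (.node 388 (.node 386 (.node 385 (.leaf ⟨107059332,
  12225655216594874270983, 12078135091504018436727533844016849121985415498581683243325649598808513,
  27033, [G2p0_6, G2p0_7, G2p0_8, G2p1_0, G2p1_6, G2p1_7, G2p1_8, G2p2_0, G2p2_1, G2p2_6, G2p2_7,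
  G2p2_8, G2p3_0, G2p3_1, G2p3_2, G2p3_6, G2p3_7, G2p3_8, G2p4_0, G2p4_1, G2p4_2, G2p4_3, G2p4_6,
  G2p4_7, G2p4_8, G2p5_0, G2p5_1, G2p5_2, G2p5_3, G2p5_4, G2p5_6, G2p5_7, G2p5_8, G2p7_6, G2p8_6,
  G2p8_7]⟩) (.leaf ⟨107026566, 2476550976963404104870,
  12078135091503975430415194046661122232295751127557911263137977738854406, 27025, [G2p0_1, G2p0_2,
  G2p0_6, G2p0_7, G2p0_8, G2p1_2, G2p3_1, G2p3_2, G2p4_1, G2p4_2, G2p4_3, G2p5_1, G2p5_2, G2p5_3,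
  G2p5_4, G2p7_6, G2p8_6, G2p8_7]⟩)) (.node 387 (.leaf ⟨105486468, 6132611426060678988898,
  12078135091503974089496211206956730330949552821011642466226743673356761, 26905, [G2p0_6, G2p0_7,
  G2p0_8, G2p1_0, G2p1_3, G2p1_4, G2p1_6, G2p1_7, G2p1_8, G2p2_0, G2p2_1, G2p2_3, G2p2_4, G2p2_6,
  G2p2_7, G2p2_8, G2p3_4, G2p5_3, G2p5_4, G2p7_6, G2p8_6, G2p8_7]⟩) (.leaf ⟨105453702,
  2476771720312275338307, 12078135091503974089496211206803260672898484370866793754020831656017950,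
  26897, [G2p0_1, G2p0_2, G2p0_3, G2p0_4, G2p0_6, G2p0_7, G2p0_8, G2p1_2, G2p1_3, G2p1_4, G2p2_3,
  G2p2_4, G2p3_4, G2p5_1, G2p5_2, G2p5_3, G2p5_4, G2p7_6, G2p8_6, G2p8_7]⟩))) (.node 390 (.node 389
  (.leaf ⟨109467928, 11007017189557211759782,
  12078135091504018436727533843863379463931970203569670740648077541441991, 25125, [G2p0_6, G2p0_7,
  G2p0_8, G2p1_2, G2p3_0, G2p3_1, G2p3_2, G2p3_6, G2p3_7, G2p3_8, G2p4_0, G2p4_1, G2p4_2, G2p4_3,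
  G2p4_6, G2p4_7, G2p4_8, G2p5_0, G2p5_1, G2p5_2, G2p5_3, G2p5_4, G2p5_6, G2p5_7, G2p5_8, G2p7_6,
  G2p8_6, G2p8_7]⟩) (.leaf ⟨105276552, 39343490571198008390,
  12266857597850943592325929814169646207929134238648046093618016484196358, 26918, [G2p0_1, G2p0_2,
  G2p1_2, G2p3_1, G2p3_2, G2p3_4, G2p5_0, G2p5_1, G2p5_2, G2p5_4, G2p6_0, G2p6_1, G2p6_2, G2p7_0,
  G2p7_1, G2p7_2, G2p7_6, G2p8_0, G2p8_1, G2p8_2, G2p8_6, G2p8_7]⟩)) (.node 391 (.leaf ⟨109336856,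
  11007017180761118737574, 12078135091504018053597802531792327795262061923401308045995052300960195,
  25093, [G2p0_6, G2p0_7, G2p0_8, G2p2_0, G2p2_1, G2p2_6, G2p2_7, G2p2_8, G2p3_0, G2p3_1, G2p3_6,
  G2p3_7, G2p3_8, G2p4_0, G2p4_1, G2p4_3, G2p4_6, G2p4_7, G2p4_8, G2p5_0, G2p5_1, G2p5_3, G2p5_4,
  G2p5_6, G2p5_7, G2p5_8, G2p7_6, G2p8_6, G2p8_7]⟩) (.leaf ⟨105145480, 39343481775104986182,
  12159016165652675304993826780050862626231015247801066630564513693433858, 26886, [G2p0_1, G2p2_1,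
  G2p2_4, G2p3_1, G2p3_4, G2p5_0, G2p5_1, G2p5_4, G2p6_0, G2p6_1, G2p7_0, G2p7_1, G2p7_6, G2p8_0,
  G2p8_1, G2p8_6, G2p8_7]⟩)))) (.node 396 (.node 394 (.node 393 (.leaf ⟨105404548,
  3695298179973775361088, 12078135091503974089496211340600245506623273690034307619565798254576095,
  26885, [G2p0_6, G2p0_7, G2p0_8, G2p2_1, G2p3_4, G2p5_1, G2p5_2, G2p5_3, G2p5_4, G2p7_6, G2p8_6,
  G2p8_7]⟩) (.leaf ⟨105142562, 7351063682942295443554,
  12078135091504020065063957434162473701853162672950348110726961081352192, 24837, [G2p0_6, G2p0_7,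
  G2p0_8, G2p2_1, G2p3_4, G2p3_5, G2p3_6, G2p3_7, G2p3_8, G2p4_5, G2p4_6, G2p4_7, G2p4_8, G2p5_6,
  G2p5_7, G2p5_8, G2p7_6, G2p8_6, G2p8_7]⟩)) (.node 395 (.leaf ⟨105161864, 39379546615489499238,
  12105095449553541161327775262987727843576356317045687606026932090568704, 26890, [G2p1_2, G2p1_4,
  G2p2_4, G2p3_4, G2p5_0, G2p5_4, G2p6_0, G2p7_0, G2p7_6, G2p8_0, G2p8_6, G2p8_7]⟩) (.leaf
  ⟨109353240, 11007017181620112196774,
  12078135091504017862032936875679390084947664916225779956853642207756737, 25097, [G2p0_6, G2p0_7,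
  G2p0_8, G2p1_0, G2p1_2, G2p1_6, G2p1_7, G2p1_8, G2p2_0, G2p2_6, G2p2_7, G2p2_8, G2p3_0, G2p3_6,
  G2p3_7, G2p3_8, G2p4_0, G2p4_3, G2p4_6, G2p4_7, G2p4_8, G2p5_0, G2p5_3, G2p5_4, G2p5_6, G2p5_7,
  G2p5_8, G2p7_6, G2p8_6, G2p8_7]⟩))) (.node 398 (.node 397 (.leaf ⟨105420932,
  4913936210172522267713, 12078135091503974089496211295998077021553787051148723133538002200691165,
  26889, [G2p0_6, G2p0_7, G2p0_8, G2p1_0, G2p1_2, G2p1_3, G2p1_4, G2p1_6, G2p1_7, G2p1_8, G2p3_4,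
  G2p5_2, G2p5_3, G2p5_4, G2p7_6, G2p8_6, G2p8_7]⟩) (.leaf ⟨105489540, 39570033740826543334,
  12752144042743150885285317071632717702688945129563006858065879154294808, 26906, [G2p0_3, G2p0_4,
  G2p1_3, G2p1_4, G2p2_1, G2p2_3, G2p2_4, G2p3_4, G2p5_0, G2p5_3, G2p5_4, G2p6_0, G2p6_3, G2p6_4,
  G2p7_0, G2p7_3, G2p7_4, G2p7_6, G2p8_0, G2p8_3, G2p8_4, G2p8_6, G2p8_7]⟩)) (.node 399 (.leaf
  ⟨110205208, 11007126362197037417542,
  12078135091503974089496221353787628760961855091812736715339045078499777, 25177, [G2p0_6, G2p0_7,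
  G2p0_8, G2p1_0, G2p1_6, G2p1_7, G2p1_8, G2p2_0, G2p2_1, G2p2_6, G2p2_7, G2p2_8, G2p3_4, G2p5_0,
  G2p5_1, G2p5_2, G2p5_3, G2p5_4, G2p5_6, G2p5_7, G2p5_8, G2p7_6, G2p8_6, G2p8_7]⟩) (.leaf
  ⟨110254360, 7351323841794449343555,
  12078135091503974089496211206803260672896107525999630091622240229458399, 25189, [G2p0_6, G2p0_7,
  G2p0_8, G2p1_2, G2p1_3, G2p1_4, G2p2_3, G2p2_4, G2p3_4, G2p5_0, G2p5_1, G2p5_2, G2p5_3, G2p5_4,
  G2p5_6, G2p5_7, G2p5_8, G2p7_6, G2p8_6, G2p8_7]⟩))))) (.node 408 (.node 404 (.node 402 (.node 401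
  (.leaf ⟨110257284, 39607232624375902630,
  12913906191040553316274702479190943515331592402139797826762727174963230, 27238, [G2p0_1, G2p0_2,
  G2p0_3, G2p0_4, G2p1_2, G2p1_3, G2p1_4, G2p2_3, G2p2_4, G2p3_4, G2p5_0, G2p5_1, G2p5_2, G2p5_3,
  G2p5_4, G2p6_0, G2p6_1, G2p6_2, G2p6_3, G2p6_4, G2p7_0, G2p7_1, G2p7_2, G2p7_3, G2p7_4, G2p7_6,
  G2p8_0, G2p8_1, G2p8_2, G2p8_3, G2p8_4, G2p8_6, G2p8_7]⟩) (.leaf ⟨110175369, 39384088698023843905,
  12105095449553541161327775530591225754803770726872341536359160487870493, 27218, [G2p1_0, G2p1_2,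
  G2p1_3, G2p1_4, G2p3_4, G2p5_0, G2p6_0, G2p7_0, G2p7_6, G2p8_0, G2p8_6, G2p8_7]⟩)) (.node 403
  (.leaf ⟨109336850, 3695300567974512955490,
  12078135091503974855720597078333191184609962665661481406339474454478872, 25093, [G2p0_3, G2p0_4,
  G2p0_6, G2p0_7, G2p0_8, G2p1_3, G2p1_4, G2p2_1, G2p2_3, G2p2_4, G2p4_3, G2p5_3, G2p5_4, G2p5_6,
  G2p5_7, G2p5_8, G2p7_6, G2p8_6, G2p8_7]⟩) (.leaf ⟨110240905, 39421274215634967650,
  12105095449553541161327775441397432563818956065103669046044386888515609, 27234, [G2p1_0, G2p1_3,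
  G2p1_4, G2p2_0, G2p2_1, G2p2_3, G2p2_4, G2p3_4, G2p5_0, G2p6_0, G2p7_0, G2p7_6, G2p8_0, G2p8_6,
  G2p8_7]⟩))) (.node 406 (.node 405 (.leaf ⟨105407620, 39570043945668838630,
  12913906191040553316274702612987928349058758566182739622435628943015966, 26886, [G2p0_1, G2p0_2,
  G2p0_3, G2p0_4, G2p2_1, G2p3_4, G2p5_0, G2p5_1, G2p5_2, G2p5_3, G2p5_4, G2p6_0, G2p6_1, G2p6_2,
  G2p6_3, G2p6_4, G2p7_0, G2p7_1, G2p7_2, G2p7_3, G2p7_4, G2p7_6, G2p8_0, G2p8_1, G2p8_2, G2p8_3,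
  G2p8_4, G2p8_6, G2p8_7]⟩) (.leaf ⟨105424004, 39570043602071454950,
  12859985474941419172611574099199455413778881873371414192181321249062940, 26890, [G2p0_2, G2p0_3,
  G2p0_4, G2p1_2, G2p1_3, G2p1_4, G2p3_4, G2p5_0, G2p5_2, G2p5_3, G2p5_4, G2p6_0, G2p6_2, G2p6_3,
  G2p6_4, G2p7_0, G2p7_2, G2p7_3, G2p7_4, G2p7_6, G2p8_0, G2p8_2, G2p8_3, G2p8_4, G2p8_6, G2p8_7]⟩))
  (.node 407 (.leaf ⟨110208132, 39272515824314748134,
  12105095449553541161327775575193396566022249989360703603486353487036416, 27226, [G2p2_1, G2p3_4,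
  G2p5_0, G2p6_0, G2p7_0, G2p7_6, G2p8_0, G2p8_6, G2p8_7]⟩) (.leaf ⟨102308114,
  3695114692269662279841, 12078135091503974855720597078324343739222654987989624331104135583629318,
  24657, [G2p0_1, G2p0_2, G2p0_6, G2p0_7, G2p0_8, G2p1_2, G2p4_3, G2p5_6, G2p5_7, G2p5_8, G2p7_6,
  G2p8_6, G2p8_7]⟩)))) (.node 412 (.node 410 (.node 409 (.leaf ⟨101816600, 11006946218211942597702,
  12078135091504018436062550777437249882447724031989784787410445902217665, 24665, [G2p0_6, G2p0_7,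
  G2p0_8, G2p1_0, G2p1_6, G2p1_7, G2p1_8, G2p2_0, G2p2_1, G2p2_6, G2p2_7, G2p2_8, G2p4_0, G2p4_1,
  G2p4_2, G2p4_3, G2p4_6, G2p4_7, G2p4_8, G2p5_0, G2p5_1, G2p5_2, G2p5_3, G2p5_6, G2p5_7, G2p5_8,
  G2p7_6, G2p8_6, G2p8_7]⟩) (.leaf ⟨101865752, 7351035611418297631811,
  12078135091504018436062540630447437193434491714204022113486791494271439, 24677, [G2p0_6, G2p0_7,
  G2p0_8, G2p1_2, G2p1_3, G2p2_3, G2p4_0, G2p4_1, G2p4_2, G2p4_3, G2p4_6, G2p4_7, G2p4_8, G2p5_0,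
  G2p5_1, G2p5_2, G2p5_3, G2p5_6, G2p5_7, G2p5_8, G2p7_6, G2p8_6, G2p8_7]⟩)) (.node 411 (.leaf
  ⟨102258962, 3695114621969637579973,
  12078135091503975430415194046661802776259930201378706171206727989460992, 24645, [G2p0_6, G2p0_7,
  G2p0_8, G2p2_1, G2p3_1, G2p3_2, G2p4_1, G2p4_2, G2p4_3, G2p5_6, G2p5_7, G2p5_8, G2p7_6, G2p8_6,
  G2p8_7]⟩) (.leaf ⟨109683844, 39209745770636903654,
  12320778313950078502204675368072067706780940156544903849767364760961032, 27162, [G2p0_3, G2p1_3,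
  G2p2_1, G2p2_3, G2p4_3, G2p5_0, G2p5_3, G2p6_0, G2p6_3, G2p7_0, G2p7_3, G2p7_6, G2p8_0, G2p8_3,
  G2p8_6, G2p8_7]⟩))) (.node 414 (.node 413 (.leaf ⟨109470856, 39200536467401085030,
  12266857597850944933236143688813179648301553773273628864822801030578182, 27174, [G2p0_1, G2p0_2,
  G2p1_2, G2p3_1, G2p3_2, G2p4_1, G2p4_2, G2p4_3, G2p5_0, G2p5_1, G2p5_2, G2p6_0, G2p6_1, G2p6_2,
  G2p7_0, G2p7_1, G2p7_2, G2p7_6, G2p8_0, G2p8_1, G2p8_2, G2p8_6, G2p8_7]⟩) (.leaf ⟨109454473,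
  39200530867837476037, 12105095449553542598029191109311423872063640320957887431102990601158657,
  27170, [G2p1_0, G2p2_0, G2p2_1, G2p3_0, G2p3_1, G2p3_2, G2p4_0, G2p4_1, G2p4_2, G2p4_3, G2p5_0,
  G2p6_0, G2p7_0, G2p7_6, G2p8_0, G2p8_6, G2p8_7]⟩)) (.node 415 (.leaf ⟨109339784,
  39200527671308062822, 12159016165652676262780155438216736959145942979433939503365609402531842,
  27142, [G2p0_1, G2p2_1, G2p3_1, G2p4_1, G2p4_3, G2p5_0, G2p5_1, G2p6_0, G2p6_1, G2p7_0, G2p7_1,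
  G2p7_6, G2p8_0, G2p8_1, G2p8_6, G2p8_7]⟩) (.leaf ⟨109601924, 39209755975479198950,
  12482540462247481507879888734141044838478373526503236521371134927437838, 27142, [G2p0_1, G2p0_2,
  G2p0_3, G2p2_1, G2p4_1, G2p4_2, G2p4_3, G2p5_0, G2p5_1, G2p5_2, G2p5_3, G2p6_0, G2p6_1, G2p6_2,
  G2p6_3, G2p7_0, G2p7_1, G2p7_2, G2p7_3, G2p7_6, G2p8_0, G2p8_1, G2p8_2, G2p8_3, G2p8_6,
  G2p8_7]⟩)))))) (.node 432 (.node 424 (.node 420 (.node 418 (.node 417 (.leaf ⟨109618308,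
  39209755631881815270, 12428619746148347172654817612116464525328368703346021082286495693013004,
  27146, [G2p0_2, G2p0_3, G2p1_2, G2p1_3, G2p4_2, G2p4_3, G2p5_0, G2p5_2, G2p5_3, G2p6_0, G2p6_2,
  G2p6_3, G2p7_0, G2p7_2, G2p7_3, G2p7_6, G2p8_0, G2p8_2, G2p8_3, G2p8_6, G2p8_7]⟩) (.leaf
  ⟨107062404, 39274912897102251271,
  12105095449553542502246758281254953835658906500696837904570228079067136, 27034, [G2p2_1, G2p3_1,
  G2p3_2, G2p4_1, G2p4_2, G2p4_3, G2p5_0, G2p5_1, G2p5_2, G2p5_3, G2p5_4, G2p6_0, G2p7_0, G2p7_6,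
  G2p8_0, G2p8_6, G2p8_7]⟩)) (.node 419 (.leaf ⟨101868696, 39210915857167352902,
  12482540462247484668651941636234385767894466108000329889141093689065486, 26726, [G2p0_1, G2p0_2,
  G2p0_3, G2p1_2, G2p1_3, G2p2_3, G2p4_0, G2p4_1, G2p4_2, G2p4_3, G2p4_5, G2p5_0, G2p5_1, G2p5_2,
  G2p5_3, G2p6_0, G2p6_1, G2p6_2, G2p6_3, G2p7_0, G2p7_1, G2p7_2, G2p7_3, G2p7_6, G2p8_0, G2p8_1,
  G2p8_2, G2p8_3, G2p8_6, G2p8_7]⟩) (.leaf ⟨107029641, 39349294652562869313,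
  12105095449553542310681892625142013923810641474754395318498374398509085, 27026, [G2p1_0, G2p1_2,
  G2p1_3, G2p1_4, G2p3_2, G2p4_2, G2p4_3, G2p5_0, G2p5_2, G2p5_3, G2p5_4, G2p6_0, G2p7_0, G2p7_6,
  G2p8_0, G2p8_6, G2p8_7]⟩))) (.node 422 (.node 421 (.leaf ⟨107111556, 39275092151857317190,
  12266857597850944358541546720476401155228457633697077680543028100464646, 27046, [G2p0_1, G2p0_2,
  G2p1_2, G2p4_3, G2p5_0, G2p5_1, G2p5_2, G2p5_3, G2p5_4, G2p6_0, G2p6_1, G2p6_2, G2p7_0, G2p7_1,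
  G2p7_2, G2p7_6, G2p8_0, G2p8_1, G2p8_2, G2p8_6, G2p8_7]⟩) (.leaf ⟨107108484,
  3695189000530721506464, 12078135091503974855720597078324343739222179619006274484388265394700743,
  27045, [G2p0_6, G2p0_7, G2p0_8, G2p1_2, G2p4_3, G2p5_3, G2p5_4, G2p7_6, G2p8_6, G2p8_7]⟩)) (.node
  423 (.leaf ⟨101849382, 8569815323752321387587,
  12078135091503974855720608362673597052610455120786170271065337528713218, 24673, [G2p0_1, G2p0_6,
  G2p0_7, G2p0_8, G2p2_1, G2p2_3, G2p2_4, G2p2_5, G2p2_6, G2p2_7, G2p2_8, G2p4_3, G2p5_6, G2p5_7,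
  G2p5_8, G2p7_6, G2p8_6, G2p8_7]⟩) (.leaf ⟨107095177, 39386476871639109730,
  12105095449553541927552161312926682531566255286077561790294279436369945, 27042, [G2p1_0, G2p1_3,
  G2p1_4, G2p2_0, G2p2_1, G2p2_3, G2p2_4, G2p4_3, G2p5_0, G2p5_3, G2p5_4, G2p6_0, G2p7_0, G2p7_6,
  G2p8_0, G2p8_6, G2p8_7]⟩)))) (.node 428 (.node 426 (.node 425 (.leaf ⟨107242632,
  39349111274639199302, 12159016165652676071215290361932019400057215135960218525878448366944258,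
  27014, [G2p0_1, G2p2_1, G2p2_3, G2p2_4, G2p4_3, G2p5_0, G2p5_1, G2p5_3, G2p5_4, G2p6_0, G2p6_1,
  G2p7_0, G2p7_1, G2p7_6, G2p8_0, G2p8_1, G2p8_6, G2p8_7]⟩) (.leaf ⟨101819544, 39203944884727776326,
  12105095449553545663010042485732700370485413021498977592844447749373952, 26714, [G2p2_1, G2p4_0,
  G2p4_1, G2p4_2, G2p4_3, G2p4_5, G2p5_0, G2p6_0, G2p7_0, G2p7_6, G2p8_0, G2p8_6, G2p8_7]⟩)) (.node
  427 (.leaf ⟨103064721, 39421277555179920385,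
  12105095449553544322148058767259922933651299893932396462059364498210879, 26762, [G2p1_0, G2p1_2,
  G2p1_3, G2p1_4, G2p1_5, G2p2_0, G2p2_3, G2p2_4, G2p2_5, G2p3_0, G2p3_4, G2p3_5, G2p4_0, G2p4_5,
  G2p5_0, G2p6_0, G2p7_0, G2p7_6, G2p8_0, G2p8_6, G2p8_7]⟩) (.leaf ⟨107259016, 39386302014930554982,
  12105095449553541927552161848143546464777338443148893095624149262925824, 27018, [G2p1_2, G2p1_3,
  G2p1_4, G2p2_3, G2p2_4, G2p4_3, G2p5_0, G2p5_3, G2p5_4, G2p6_0, G2p7_0, G2p7_6, G2p8_0, G2p8_6,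
  G2p8_7]⟩))) (.node 430 (.node 429 (.leaf ⟨101816612, 11007165659735831811203,
  12078135091503974855720608474177665949740246870691148888140035994943993, 24665, [G2p0_6, G2p0_7,
  G2p0_8, G2p1_0, G2p1_3, G2p1_4, G2p1_5, G2p1_6, G2p1_7, G2p1_8, G2p2_0, G2p2_1, G2p2_3, G2p2_4,
  G2p2_5, G2p2_6, G2p2_7, G2p2_8, G2p4_3, G2p5_6, G2p5_7, G2p5_8, G2p7_6, G2p8_6, G2p8_7]⟩) (.leaf
  ⟨102865176, 12225615810098122197095,
  12078135091504017670503147437269714389503160880758816096860102816367041, 24729, [G2p0_6, G2p0_7,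
  G2p0_8, G2p1_0, G2p1_6, G2p1_7, G2p1_8, G2p2_0, G2p2_1, G2p2_6, G2p2_7, G2p2_8, G2p3_0, G2p3_1,
  G2p3_2, G2p3_4, G2p3_6, G2p3_7, G2p3_8, G2p4_0, G2p4_1, G2p4_2, G2p4_6, G2p4_7, G2p4_8, G2p5_0,
  G2p5_1, G2p5_2, G2p5_6, G2p5_7, G2p5_8, G2p7_6, G2p8_6, G2p8_7]⟩)) (.node 431 (.leaf ⟨102832422,
  8569809699750345313347, 12078135091503974090206511662294117487360208249789179467081458967248902,
  24721, [G2p0_1, G2p0_2, G2p0_6, G2p0_7, G2p0_8, G2p1_2, G2p3_1, G2p3_2, G2p3_4, G2p3_5, G2p3_6,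
  G2p3_7, G2p3_8, G2p5_6, G2p5_7, G2p5_8, G2p7_6, G2p8_6, G2p8_7]⟩) (.leaf ⟨102917272,
  39235721974469724263, 12266857597850947327832039738189263885027025403220516501175818604904454,
  26790, [G2p0_1, G2p0_2, G2p1_2, G2p3_0, G2p3_1, G2p3_2, G2p3_4, G2p3_5, G2p4_0, G2p4_1, G2p4_2,
  G2p4_5, G2p5_0, G2p5_1, G2p5_2, G2p6_0, G2p6_1, G2p6_2, G2p7_0, G2p7_1, G2p7_2, G2p7_6, G2p8_0,
  G2p8_1, G2p8_2, G2p8_6, G2p8_7]⟩))))) (.node 440 (.node 436 (.node 434 (.node 433 (.leaf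
  ⟨103045394, 3695335365318508813410,
  12078135091503974089496211206803941216862663444687588662089581906624536, 24709, [G2p0_3, G2p0_4,
  G2p0_6, G2p0_7, G2p0_8, G2p1_3, G2p1_4, G2p2_1, G2p2_3, G2p2_4, G2p3_4, G2p5_6, G2p5_7, G2p5_8,
  G2p7_6, G2p8_6, G2p8_7]⟩) (.leaf ⟨102868120, 39235506401471203431,
  12105095449553544896842654464435509263568116979858035168369036539330560, 26778, [G2p2_1, G2p3_0,
  G2p3_1, G2p3_2, G2p3_4, G2p3_5, G2p4_0, G2p4_1, G2p4_2, G2p4_5, G2p5_0, G2p6_0, G2p7_0, G2p7_6,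
  G2p8_0, G2p8_6, G2p8_7]⟩)) (.node 435 (.leaf ⟨102835353, 39235506195312773217,
  12105095449553544705277788808322569227104727349079729498128220908945413, 26770, [G2p1_0, G2p1_2,
  G2p3_0, G2p3_2, G2p3_4, G2p3_5, G2p4_0, G2p4_2, G2p4_5, G2p5_0, G2p6_0, G2p7_0, G2p7_6, G2p8_0,
  G2p8_6, G2p8_7]⟩) (.leaf ⟨102865188, 12225831873922291964068,
  12078135091503974090207973186401997049704459258120773231367057784701425, 24729, [G2p0_6, G2p0_7,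
  G2p0_8, G2p1_0, G2p1_4, G2p1_5, G2p1_6, G2p1_7, G2p1_8, G2p2_0, G2p2_1, G2p2_4, G2p2_5, G2p2_6,
  G2p2_7, G2p2_8, G2p3_0, G2p3_1, G2p3_2, G2p3_4, G2p3_5, G2p3_6, G2p3_7, G2p3_8, G2p5_6, G2p5_7,
  G2p5_8, G2p7_6, G2p8_6, G2p8_7]⟩))) (.node 438 (.node 437 (.leaf ⟨105421092,
  12225764392389348399169, 12078135091504020065063968762940356633554977690395566788902374189302269,
  24841, [G2p0_6, G2p0_7, G2p0_8, G2p1_0, G2p1_2, G2p1_3, G2p1_4, G2p1_5, G2p1_6, G2p1_7, G2p1_8,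
  G2p3_4, G2p3_5, G2p3_6, G2p3_7, G2p3_8, G2p4_5, G2p4_6, G2p4_7, G2p4_8, G2p5_6, G2p5_7, G2p5_8,
  G2p7_6, G2p8_6, G2p8_7]⟩) (.leaf ⟨308385860, 2398115120309830222054,
  7764635775626360533547974834632084681483912006167155678085345301233697, 75161, [G2p0_5, G2p1_0,
  G2p1_5, G2p2_0, G2p2_1, G2p2_5, G2p3_0, G2p3_1, G2p3_2, G2p3_5, G2p4_0, G2p4_1, G2p4_2, G2p4_3,
  G2p4_5, G2p6_5, G2p6_7, G2p6_8, G2p7_5, G2p7_8, G2p8_5]⟩)) (.node 439 (.leaf ⟨306600008,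
  2398220885594156010563, 7764635775626356031865707924080870843601907230297662350082883047587879,
  75045, [G2p0_5, G2p1_2, G2p3_0, G2p3_1, G2p3_2, G2p3_4, G2p3_5, G2p6_5, G2p6_7, G2p6_8, G2p7_5,
  G2p7_8, G2p8_5]⟩) (.leaf ⟨306731076, 2398224296275934871584,
  7764635775626356031808708802707016210491039426216386731200202376347711, 75013, [G2p0_5, G2p2_1,
  G2p3_4, G2p6_5, G2p6_7, G2p6_8, G2p7_5, G2p7_8, G2p8_5]⟩)))) (.node 444 (.node 442 (.node 441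
  (.leaf ⟨306485320, 2398256945041169977444,
  7764635775626356031856938780469088325310618325003314169833255190200353, 75017, [G2p0_5, G2p1_0,
  G2p1_2, G2p1_4, G2p1_5, G2p2_0, G2p2_4, G2p2_5, G2p3_0, G2p3_4, G2p3_5, G2p6_5, G2p6_7, G2p6_8,
  G2p7_5, G2p7_8, G2p8_5]⟩) (.leaf ⟨306812996, 2398298672639098683490,
  7764635775626356031808708668921941410182715005904664274171909123866681, 75033, [G2p0_5, G2p1_0,
  G2p1_3, G2p1_4, G2p1_5, G2p2_0, G2p2_1, G2p2_3, G2p2_4, G2p2_5, G2p3_4, G2p6_5, G2p6_7, G2p6_8,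
  G2p7_5, G2p7_8, G2p8_5]⟩)) (.node 443 (.leaf ⟨306780230, 2398335866983906705442,
  7764635775626356031808708668910031376766250107048872865655235777789982, 75025, [G2p0_1, G2p0_2,
  G2p0_3, G2p0_4, G2p0_5, G2p1_2, G2p1_3, G2p1_4, G2p2_3, G2p2_4, G2p3_4, G2p6_5, G2p6_7, G2p6_8,
  G2p7_5, G2p7_8, G2p8_5]⟩) (.leaf ⟨306747460, 2398261487120379183169,
  7764635775626356031808708758104845565426059636842508777048883320324157, 75017, [G2p0_5, G2p1_0,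
  G2p1_2, G2p1_3, G2p1_4, G2p1_5, G2p3_4, G2p6_5, G2p6_7, G2p6_8, G2p7_5, G2p7_8, G2p8_5]⟩))) (.node
  446 (.node 445 (.leaf ⟨311531588, 2398149914248886848643,
  7764635775626359096846559322815142861532362613103981126254864646537249, 75353, [G2p0_5, G2p1_0,
  G2p1_5, G2p2_0, G2p2_1, G2p2_5, G2p3_4, G2p3_5, G2p4_5, G2p6_5, G2p6_7, G2p6_8, G2p7_5, G2p7_8,
  G2p8_5]⟩) (.leaf ⟨311498822, 2398149920979031329925,
  7764635775626359671541156135034794931472730387174370656132691153780742, 75345, [G2p0_1, G2p0_2,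
  G2p0_5, G2p1_2, G2p3_1, G2p3_2, G2p3_4, G2p3_5, G2p4_1, G2p4_2, G2p4_5, G2p6_5, G2p6_7, G2p6_8,
  G2p7_5, G2p7_8, G2p8_5]⟩)) (.node 447 (.leaf ⟨311580740, 2398261484954641996000,
  7764635775626359096846559166717072541715355510527030054795802126057535, 75365, [G2p0_5, G2p1_2,
  G2p1_3, G2p1_4, G2p1_5, G2p2_3, G2p2_4, G2p2_5, G2p3_4, G2p3_5, G2p4_5, G2p6_5, G2p6_7, G2p6_8,
  G2p7_5, G2p7_8, G2p8_5]⟩) (.leaf ⟨311564358, 2398187103198107570342,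
  7764635775626359288411424822830012292602576378214844684534506737238018, 75361, [G2p0_1, G2p0_5,
  G2p2_1, G2p2_3, G2p2_4, G2p2_5, G2p3_1, G2p3_4, G2p3_5, G2p4_1, G2p4_5, G2p6_5, G2p6_7, G2p6_8,
  G2p7_5, G2p7_8, G2p8_5]⟩))))))

def G2T8 : Tr :=
  .node 462 (.node 455 (.node 451 (.node 449 (.leaf ⟨311007300, 2398082499856984900706,
  7764635775626359863024176450629425081921568907810014380124517287067689, 75289, [G2p0_5, G2p1_0,
  G2p1_3, G2p1_5, G2p2_0, G2p2_1, G2p2_3, G2p2_5, G2p4_3, G2p4_5, G2p6_5, G2p6_7, G2p6_8, G2p7_5,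
  G2p7_8, G2p8_5]⟩) (.node 450 (.leaf ⟨310974534, 2398084827622924256323,
  7764635775626360437710004275325836932883971539719938599233518056636430, 75281, [G2p0_1, G2p0_2,
  G2p0_3, G2p0_5, G2p1_2, G2p1_3, G2p2_3, G2p4_1, G2p4_2, G2p4_3, G2p4_5, G2p6_5, G2p6_7, G2p6_8,
  G2p7_5, G2p7_8, G2p8_5]⟩) (.leaf ⟨310663240, 2398077926028269064292,
  7764635775626360150418243522407565514756051581466809809221982995284003, 75269, [G2p0_5, G2p2_0,
  G2p2_1, G2p2_5, G2p3_0, G2p3_1, G2p3_5, G2p4_0, G2p4_1, G2p4_3, G2p4_5, G2p6_5, G2p6_7, G2p6_8,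
  G2p7_5, G2p7_8, G2p8_5]⟩))) (.node 453 (.node 452 (.leaf ⟨310925380, 2398081343306009314368,
  7764635775626360437710004409128266367557513261460336744386830917304367, 75269, [G2p0_5, G2p2_1,
  G2p4_1, G2p4_2, G2p4_3, G2p4_5, G2p6_5, G2p6_7, G2p6_8, G2p7_5, G2p7_8, G2p8_5]⟩) (.leaf
  ⟨310941764, 2398081343135284364353,
  7764635775626360246148061756289988344622405341740568781405180320809005, 75273, [G2p0_5, G2p1_0,
  G2p1_2, G2p1_3, G2p1_5, G2p4_2, G2p4_3, G2p4_5, G2p6_5, G2p6_7, G2p6_8, G2p7_5, G2p7_8, G2p8_5]⟩))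
  (.node 454 (.leaf ⟨308353094, 2398115123635035472005,
  7764635775626357372727691508767892936163516863739990374772381860626438, 75153, [G2p0_1, G2p0_2,
  G2p0_5, G2p1_2, G2p3_1, G2p3_2, G2p4_1, G2p4_2, G2p4_3, G2p6_5, G2p6_7, G2p6_8, G2p7_5, G2p7_8,
  G2p8_5]⟩) (.leaf ⟨73557572, 151071214443742396643,
  12266828390904581217116086842197541282465122058601017752261472972439558, 17830, [G2p0_1, G2p0_2,
  G2p1_2, G2p4_3, G2p5_6, G2p5_7, G2p6_7, G2p8_0, G2p8_1, G2p8_2, G2p8_6, G2p8_7]⟩)))) (.node 458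
  (.node 456 (.leaf ⟨308435012, 2398115117966752383104,
  7764635775626356798033094540431114443089945355188353597711519376736295, 75173, [G2p0_5, G2p1_2,
  G2p4_3, G2p6_5, G2p6_7, G2p6_8, G2p7_5, G2p7_8, G2p8_5]⟩) (.node 457 (.leaf ⟨308418630,
  2398115115938454077573, 7764635775626356989597960196544054484745790300826515425158018424242178,
  75169, [G2p0_1, G2p0_5, G2p2_1, G2p3_1, G2p4_1, G2p4_3, G2p6_5, G2p6_7, G2p6_8, G2p7_5, G2p7_8,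
  G2p8_5]⟩) (.leaf ⟨71722568, 265316102069206256707,
  12266828390904580451227851298019833059703007770081326637224167413776390, 17702, [G2p0_1, G2p0_2,
  G2p1_2, G2p3_1, G2p3_2, G2p3_4, G2p3_5, G2p3_6, G2p3_7, G2p5_6, G2p5_7, G2p6_7, G2p8_0, G2p8_1,
  G2p8_2, G2p8_6, G2p8_7]⟩))) (.node 460 (.node 459 (.leaf ⟨75913496, 10994335053006536443046,
  10352672179143861286884954816507841395604760971946636434966572563890567, 16933, [G2p0_7, G2p0_8,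
  G2p1_2, G2p3_0, G2p3_1, G2p3_2, G2p3_7, G2p3_8, G2p4_0, G2p4_1, G2p4_2, G2p4_3, G2p4_7, G2p4_8,
  G2p5_0, G2p5_1, G2p5_2, G2p5_3, G2p5_4, G2p5_7, G2p5_8, G2p6_7, G2p6_8, G2p8_7]⟩) (.leaf
  ⟨75782424, 10994335044210443420838,
  10352672179143860903755223504415011655451912630116617765437914157875587, 16901, [G2p0_7, G2p0_8,
  G2p2_0, G2p2_1, G2p2_7, G2p2_8, G2p3_0, G2p3_1, G2p3_7, G2p3_8, G2p4_0, G2p4_1, G2p4_3, G2p4_7,
  G2p4_8, G2p5_0, G2p5_1, G2p5_3, G2p5_4, G2p5_7, G2p5_8, G2p6_7, G2p6_8, G2p8_7]⟩)) (.node 461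
  (.leaf ⟨71588130, 7341840310905440667746,
  10352672179143862915221379834054628339485834499613283254540592490741760, 16645, [G2p0_7, G2p0_8,
  G2p2_1, G2p3_4, G2p3_5, G2p3_7, G2p3_8, G2p4_5, G2p4_7, G2p4_8, G2p5_7, G2p5_8, G2p6_7, G2p6_8,
  G2p8_7]⟩) (.leaf ⟨75798808, 10994335045069436880038,
  10352672179143860712190357848302073612830516676712121450344738994585985, 16905, [G2p0_7, G2p0_8,
  G2p1_0, G2p1_2, G2p1_7, G2p1_8, G2p2_0, G2p2_7, G2p2_8, G2p3_0, G2p3_7, G2p3_8, G2p4_0, G2p4_3,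
  G2p4_7, G2p4_8, G2p5_0, G2p5_3, G2p5_4, G2p5_7, G2p5_8, G2p6_7, G2p6_8, G2p8_7]⟩))))) (.node 469
  (.node 465 (.node 463 (.leaf ⟨76650776, 10994444225646362100806,
  10352672179143823069729341894754923508997851282829654797044610282488193, 16985, [G2p0_7, G2p0_8,
  G2p1_0, G2p1_7, G2p1_8, G2p2_0, G2p2_1, G2p2_7, G2p2_8, G2p3_4, G2p5_0, G2p5_1, G2p5_2, G2p5_3,
  G2p5_4, G2p5_7, G2p5_8, G2p6_7, G2p6_8, G2p8_7]⟩) (.node 464 (.leaf ⟨76699928,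
  7342100469757594567747, 10352672179143823069729333175040026530681923783193141823650340051812767,
  16997, [G2p0_7, G2p0_8, G2p1_2, G2p1_3, G2p1_4, G2p2_3, G2p2_4, G2p3_4, G2p5_0, G2p5_1, G2p5_2,
  G2p5_3, G2p5_4, G2p5_7, G2p5_8, G2p6_7, G2p6_8, G2p8_7]⟩) (.leaf ⟨75782418,
  3689535960451478720610, 10352672179143823835953719046569957042395778922854993138367849158934552,
  16901, [G2p0_3, G2p0_4, G2p0_7, G2p0_8, G2p1_3, G2p1_4, G2p2_1, G2p2_3, G2p2_4, G2p4_3, G2p5_3,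
  G2p5_4, G2p5_7, G2p5_8, G2p6_7, G2p6_8, G2p8_7]⟩))) (.node 467 (.node 466 (.leaf ⟨68753682,
  3689350084746628044961, 10352672179143823835953719046561109597008471245183136063132510288084998,
  16465, [G2p0_1, G2p0_2, G2p0_7, G2p0_8, G2p1_2, G2p4_3, G2p5_7, G2p5_8, G2p6_7, G2p6_8, G2p8_7]⟩)
  (.leaf ⟨68262168, 10994264081661267280966,
  10352672179143861286313507854849111197095611621769968394159522371797377, 16473, [G2p0_7, G2p0_8,
  G2p1_0, G2p1_7, G2p1_8, G2p2_0, G2p2_1, G2p2_7, G2p2_8, G2p4_0, G2p4_1, G2p4_2, G2p4_3, G2p4_7,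
  G2p4_8, G2p5_0, G2p5_1, G2p5_2, G2p5_3, G2p5_7, G2p5_8, G2p6_7, G2p6_8, G2p8_7]⟩)) (.node 468
  (.leaf ⟨68311320, 7341812239381442856003,
  10352672179143861286313499135128769617832199370160799370558402582217103, 16485, [G2p0_7, G2p0_8,
  G2p1_2, G2p1_3, G2p2_3, G2p4_0, G2p4_1, G2p4_2, G2p4_3, G2p4_7, G2p4_8, G2p5_0, G2p5_1, G2p5_2,
  G2p5_3, G2p5_7, G2p5_8, G2p6_7, G2p6_8, G2p8_7]⟩) (.leaf ⟨68704530, 3689350014446603345093,
  10352672179143824410648316014898568634045746458572217903235102693916672, 16453, [G2p0_7, G2p0_8,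
  G2p2_1, G2p3_1, G2p3_2, G2p4_1, G2p4_2, G2p4_3, G2p5_7, G2p5_8, G2p6_7, G2p6_8, G2p8_7]⟩))))
  (.node 473 (.node 471 (.node 470 (.leaf ⟨308418694, 2398152305854111548582,
  6901904318040210690987904689563220582840181152216343687937673255845890, 76193, [G2p0_1, G2p2_1,
  G2p3_1, G2p4_1, G2p4_3, G2p5_1, G2p5_3, G2p5_4, G2p6_7, G2p6_8, G2p7_8]⟩) (.leaf ⟨68294950,
  8559439030210859764803, 10352672179143823835953728903640892132953450258032056578722667802787842,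
  16481, [G2p0_1, G2p0_7, G2p0_8, G2p2_1, G2p2_3, G2p2_4, G2p2_5, G2p2_7, G2p2_8, G2p4_3, G2p5_7,
  G2p5_8, G2p6_7, G2p6_8, G2p8_7]⟩)) (.node 472 (.leaf ⟨68262180, 10994483523185156494467,
  10352672179143823835953729015144960697776243061708066969845601198932409, 16473, [G2p0_7, G2p0_8,
  G2p1_0, G2p1_3, G2p1_4, G2p1_5, G2p1_7, G2p1_8, G2p2_0, G2p2_1, G2p2_3, G2p2_4, G2p2_5, G2p2_7,
  G2p2_8, G2p4_3, G2p5_7, G2p5_8, G2p6_7, G2p6_8, G2p8_7]⟩) (.leaf ⟨69310744,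
  12211780752042840033383, 10352672179143860520660568409892397917386012641245157590351199603196289,
  16537, [G2p0_7, G2p0_8, G2p1_0, G2p1_7, G2p1_8, G2p2_0, G2p2_1, G2p2_7, G2p2_8, G2p3_0, G2p3_1,
  G2p3_2, G2p3_4, G2p3_7, G2p3_8, G2p4_0, G2p4_1, G2p4_2, G2p4_7, G2p4_8, G2p5_0, G2p5_1, G2p5_2,
  G2p5_7, G2p5_8, G2p6_7, G2p6_8, G2p8_7]⟩))) (.node 475 (.node 474 (.leaf ⟨69277990,
  8559433406208883690563, 10352672179143823070346096098494012852421107619402879636356442724106246,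
  16529, [G2p0_1, G2p0_2, G2p0_7, G2p0_8, G2p1_2, G2p3_1, G2p3_2, G2p3_4, G2p3_5, G2p3_7, G2p3_8,
  G2p5_7, G2p5_8, G2p6_7, G2p6_8, G2p8_7]⟩) (.leaf ⟨69490962, 3689570757795474578530,
  10352672179143823069729333175040707074648479701881100394117956611080216, 16517, [G2p0_3, G2p0_4,
  G2p0_7, G2p0_8, G2p1_3, G2p1_4, G2p2_1, G2p2_3, G2p2_4, G2p3_4, G2p5_7, G2p5_8, G2p6_7, G2p6_8,
  G2p8_7]⟩)) (.node 476 (.leaf ⟨69310756, 12211996815867009800356,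
  10352672179143823070347557622580114010975419619843849199814643305939377, 16537, [G2p0_7, G2p0_8,
  G2p1_0, G2p1_4, G2p1_5, G2p1_7, G2p1_8, G2p2_0, G2p2_1, G2p2_4, G2p2_5, G2p2_7, G2p2_8, G2p3_0,
  G2p3_1, G2p3_2, G2p3_4, G2p3_5, G2p3_7, G2p3_8, G2p5_7, G2p5_8, G2p6_7, G2p6_8, G2p8_7]⟩) (.leaf
  ⟨71866660, 12211929334334066235457,
  10352672179143862915221389735584818232920769512543564257269104141664701, 16649, [G2p0_7, G2p0_8,
  G2p1_0, G2p1_2, G2p1_3, G2p1_4, G2p1_5, G2p1_7, G2p1_8, G2p3_4, G2p3_5, G2p3_7, G2p3_8, G2p4_5,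
  G2p4_7, G2p4_8, G2p5_7, G2p5_8, G2p6_7, G2p6_8, G2p8_7]⟩)))))

/-- The table of G2. -/
def G2T : Tr :=
  (.node 256 (.node 128 (.node 64 G2T1 G2T2) (.node 192 G2T3 G2T4)) (.node 384 (.node 320 G2T5 G2T6)
  (.node 448 G2T7 G2T8)))

theorem G2T1_ok : G2T1.all (qEntry (G2).t G2ie G2te) = true := by
  decide +kernel

theorem G2T2_ok : G2T2.all (qEntry (G2).t G2ie G2te) = true := by
  decide +kernel

theorem G2T3_ok : G2T3.all (qEntry (G2).t G2ie G2te) = true := by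
  decide +kernel

theorem G2T4_ok : G2T4.all (qEntry (G2).t G2ie G2te) = true := by
  decide +kernel

theorem G2T5_ok : G2T5.all (qEntry (G2).t G2ie G2te) = true := by
  decide +kernel

theorem G2T6_ok : G2T6.all (qEntry (G2).t G2ie G2te) = true := by
  decide +kernel

theorem G2T7_ok : G2T7.all (qEntry (G2).t G2ie G2te) = true := by
  decide +kernel

theorem G2T8_ok : G2T8.all (qEntry (G2).t G2ie G2te) = true := by
  decide +kernel

theorem G2T_ok : G2T.all (qEntry (G2).t G2ie G2te) = true :=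
  (Tr.all_node (Tr.all_node (Tr.all_node G2T1_ok G2T2_ok) (Tr.all_node G2T3_ok G2T4_ok))
  (Tr.all_node (Tr.all_node G2T5_ok G2T6_ok) (Tr.all_node G2T7_ok G2T8_ok)))

end Pool.Agent.T1Red
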