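import Pool.Agent.Work.MP_392c8e_co_uni.PtsFast
import Pool.Agent.Work.MP_392c8e_co_uni.Inst.G3Q1
import Pool.Agent.Work.MP_392c8e_co_uni.Inst.G3Q2
import Pool.Agent.Work.MP_392c8e_co_uni.Inst.G3Q3
import Pool.Agent.Work.MP_392c8e_co_uni.Inst.G3Q4
import Pool.Agent.Work.MP_392c8e_co_uni.Inst.G3Q5
import Pool.Agent.Work.MP_392c8e_co_uni.Inst.G3Q6

/-!
# The extension property of the reducer G3
-/

namespace Pool.Agent.T1Red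

/-- All patterns. -/
def G3C : List (Nat × List Nat) :=
  G3C1_1 ++ (G3C1_2 ++ (G3C1_3 ++ (G3C1_4 ++ (G3C1_5 ++ (G3C1_6 ++ (G3C1_7 ++ (G3C1_8 ++ (G3C1_9 ++
  (G3C1_10 ++ (G3C1_11 ++ (G3C1_12 ++ (G3C1_13 ++ (G3C1_14 ++ (G3C1_15 ++ (G3C1_16 ++ (G3C1_17 ++
  (G3C1_18 ++ (G3C1_19 ++ (G3C1_20 ++ (G3C1_21 ++ (G3C1_22 ++ (G3C1_23 ++ (G3C1_24 ++ (G3C1_25 ++
  (G3C1_26 ++ (G3C1_27 ++ (G3C1_28 ++ (G3C1_29 ++ (G3C1_30 ++ (G3C1_31 ++ (G3C1_32 ++ (G3C1_33 ++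
  (G3C1_34 ++ (G3C1_35 ++ (G3C1_36 ++ (G3C1_37 ++ (G3C1_38 ++ (G3C1_39 ++ (G3C1_40 ++ (G3C2_1 ++
  (G3C2_2 ++ (G3C2_3 ++ (G3C2_4 ++ (G3C2_5 ++ (G3C2_6 ++ (G3C2_7 ++ (G3C2_8 ++ (G3C2_9 ++ (G3C2_10
  ++ (G3C2_11 ++ (G3C2_12 ++ (G3C2_13 ++ (G3C2_14 ++ (G3C2_15 ++ (G3C2_16 ++ (G3C2_17 ++ (G3C2_18 ++
  (G3C2_19 ++ (G3C2_20 ++ (G3C2_21 ++ (G3C2_22 ++ (G3C2_23 ++ (G3C2_24 ++ (G3C2_25 ++ (G3C2_26 ++
  (G3C2_27 ++ (G3C2_28 ++ (G3C2_29 ++ (G3C2_30 ++ (G3C2_31 ++ (G3C2_32 ++ (G3C2_33 ++ (G3C2_34 ++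
  (G3C2_35 ++ (G3C2_36 ++ (G3C2_37 ++ (G3C2_38 ++ (G3C2_39 ++ (G3C2_40 ++ (G3C3_1 ++ (G3C3_2 ++
  (G3C3_3 ++ (G3C3_4 ++ (G3C3_5 ++ (G3C3_6 ++ (G3C3_7 ++ (G3C3_8 ++ (G3C3_9 ++ (G3C3_10 ++ (G3C3_11
  ++ (G3C3_12 ++ (G3C3_13 ++ (G3C3_14 ++ (G3C3_15 ++ (G3C3_16 ++ (G3C3_17 ++ (G3C3_18 ++ (G3C3_19 ++
  (G3C3_20 ++ (G3C3_21 ++ (G3C3_22 ++ (G3C3_23 ++ (G3C3_24 ++ (G3C3_25 ++ (G3C3_26 ++ (G3C3_27 ++
  (G3C3_28 ++ (G3C3_29 ++ (G3C3_30 ++ (G3C3_31 ++ (G3C3_32 ++ (G3C3_33 ++ (G3C3_34 ++ (G3C3_35 ++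
  (G3C3_36 ++ (G3C3_37 ++ (G3C3_38 ++ (G3C3_39 ++ (G3C3_40 ++ (G3C4_1 ++ (G3C4_2 ++ (G3C4_3 ++
  (G3C4_4 ++ (G3C4_5 ++ (G3C4_6 ++ (G3C4_7 ++ (G3C4_8 ++ (G3C4_9 ++ (G3C4_10 ++ (G3C4_11 ++ (G3C4_12
  ++ (G3C4_13 ++ (G3C4_14 ++ (G3C4_15 ++ (G3C4_16 ++ (G3C4_17 ++ (G3C4_18 ++ (G3C4_19 ++ (G3C4_20 ++
  (G3C4_21 ++ (G3C4_22 ++ (G3C4_23 ++ (G3C4_24 ++ (G3C4_25 ++ (G3C4_26 ++ (G3C4_27 ++ (G3C4_28 ++
  (G3C4_29 ++ (G3C4_30 ++ (G3C4_31 ++ (G3C4_32 ++ (G3C4_33 ++ (G3C4_34 ++ (G3C4_35 ++ (G3C4_36 ++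
  (G3C4_37 ++ (G3C4_38 ++ (G3C4_39 ++ (G3C4_40 ++ (G3C5_1 ++ (G3C5_2 ++ (G3C5_3 ++ (G3C5_4 ++
  (G3C5_5 ++ (G3C5_6 ++ (G3C5_7 ++ (G3C5_8 ++ (G3C5_9 ++ (G3C5_10 ++ (G3C5_11 ++ (G3C5_12 ++
  (G3C5_13 ++ (G3C5_14 ++ (G3C5_15 ++ (G3C5_16 ++ (G3C5_17 ++ (G3C5_18 ++ (G3C5_19 ++ (G3C5_20 ++
  (G3C5_21 ++ (G3C5_22 ++ (G3C5_23 ++ (G3C5_24 ++ (G3C5_25 ++ (G3C5_26 ++ (G3C5_27 ++ (G3C5_28 ++
  (G3C5_29 ++ (G3C5_30 ++ (G3C5_31 ++ (G3C5_32 ++ (G3C5_33 ++ (G3C5_34 ++ (G3C5_35 ++ (G3C5_36 ++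
  (G3C5_37 ++ (G3C5_38 ++ (G3C5_39 ++ (G3C5_40 ++ (G3C6_1 ++ (G3C6_2 ++ (G3C6_3 ++ (G3C6_4 ++
  (G3C6_5 ++ (G3C6_6 ++ (G3C6_7 ++ (G3C6_8 ++ (G3C6_9 ++ (G3C6_10 ++ (G3C6_11 ++ (G3C6_12 ++
  (G3C6_13 ++ (G3C6_14 ++ (G3C6_15 ++ (G3C6_16 ++ (G3C6_17 ++ (G3C6_18 ++ (G3C6_19 ++ (G3C6_20 ++
  (G3C6_21 ++ (G3C6_22 ++ (G3C6_23 ++ (G3C6_24 ++ (G3C6_25 ++ (G3C6_26 ++ (G3C6_27 ++ (G3C6_28 ++
  (G3C6_29 ++ (G3C6_30 ++ (G3C6_31 ++ (G3C6_32 ++ (G3C6_33 ++ (G3C6_34 ++ (G3C6_35 ++ (G3C6_36 ++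
  (G3C6_37 ++ (G3C6_38 ++ (G3C6_39 ++
  (G3C6_40)))))))))))))))))))))))))))))))))))))))))))))))))))))))))))))))))))))))))))))))))))))))))))))))))))))))))))))))))))))))))))))))))))))))))))))))))))))))))))))))))))))))))))))))))))))))))))))))))))))))))))))))))))))))))))))))))))))))))))))))

theorem G3C_ok : qcheckL (G3) G3ne G3te G3T G3C = true :=
  qcheckL_append G3C1_1_ok ( qcheckL_append G3C1_2_ok ( qcheckL_append G3C1_3_ok ( qcheckL_append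
  G3C1_4_ok ( qcheckL_append G3C1_5_ok ( qcheckL_append G3C1_6_ok ( qcheckL_append G3C1_7_ok (
  qcheckL_append G3C1_8_ok ( qcheckL_append G3C1_9_ok ( qcheckL_append G3C1_10_ok ( qcheckL_append
  G3C1_11_ok ( qcheckL_append G3C1_12_ok ( qcheckL_append G3C1_13_ok ( qcheckL_append G3C1_14_ok (
  qcheckL_append G3C1_15_ok ( qcheckL_append G3C1_16_ok ( qcheckL_append G3C1_17_ok ( qcheckL_append
  G3C1_18_ok ( qcheckL_append G3C1_19_ok ( qcheckL_append G3C1_20_ok ( qcheckL_append G3C1_21_ok (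
  qcheckL_append G3C1_22_ok ( qcheckL_append G3C1_23_ok ( qcheckL_append G3C1_24_ok ( qcheckL_append
  G3C1_25_ok ( qcheckL_append G3C1_26_ok ( qcheckL_append G3C1_27_ok ( qcheckL_append G3C1_28_ok (
  qcheckL_append G3C1_29_ok ( qcheckL_append G3C1_30_ok ( qcheckL_append G3C1_31_ok ( qcheckL_append
  G3C1_32_ok ( qcheckL_append G3C1_33_ok ( qcheckL_append G3C1_34_ok ( qcheckL_append G3C1_35_ok (
  qcheckL_append G3C1_36_ok ( qcheckL_append G3C1_37_ok ( qcheckL_append G3C1_38_ok ( qcheckL_append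
  G3C1_39_ok ( qcheckL_append G3C1_40_ok ( qcheckL_append G3C2_1_ok ( qcheckL_append G3C2_2_ok (
  qcheckL_append G3C2_3_ok ( qcheckL_append G3C2_4_ok ( qcheckL_append G3C2_5_ok ( qcheckL_append
  G3C2_6_ok ( qcheckL_append G3C2_7_ok ( qcheckL_append G3C2_8_ok ( qcheckL_append G3C2_9_ok (
  qcheckL_append G3C2_10_ok ( qcheckL_append G3C2_11_ok ( qcheckL_append G3C2_12_ok ( qcheckL_append
  G3C2_13_ok ( qcheckL_append G3C2_14_ok ( qcheckL_append G3C2_15_ok ( qcheckL_append G3C2_16_ok (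
  qcheckL_append G3C2_17_ok ( qcheckL_append G3C2_18_ok ( qcheckL_append G3C2_19_ok ( qcheckL_append
  G3C2_20_ok ( qcheckL_append G3C2_21_ok ( qcheckL_append G3C2_22_ok ( qcheckL_append G3C2_23_ok (
  qcheckL_append G3C2_24_ok ( qcheckL_append G3C2_25_ok ( qcheckL_append G3C2_26_ok ( qcheckL_append
  G3C2_27_ok ( qcheckL_append G3C2_28_ok ( qcheckL_append G3C2_29_ok ( qcheckL_append G3C2_30_ok (
  qcheckL_append G3C2_31_ok ( qcheckL_append G3C2_32_ok ( qcheckL_append G3C2_33_ok ( qcheckL_append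
  G3C2_34_ok ( qcheckL_append G3C2_35_ok ( qcheckL_append G3C2_36_ok ( qcheckL_append G3C2_37_ok (
  qcheckL_append G3C2_38_ok ( qcheckL_append G3C2_39_ok ( qcheckL_append G3C2_40_ok ( qcheckL_append
  G3C3_1_ok ( qcheckL_append G3C3_2_ok ( qcheckL_append G3C3_3_ok ( qcheckL_append G3C3_4_ok (
  qcheckL_append G3C3_5_ok ( qcheckL_append G3C3_6_ok ( qcheckL_append G3C3_7_ok ( qcheckL_append
  G3C3_8_ok ( qcheckL_append G3C3_9_ok ( qcheckL_append G3C3_10_ok ( qcheckL_append G3C3_11_ok (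
  qcheckL_append G3C3_12_ok ( qcheckL_append G3C3_13_ok ( qcheckL_append G3C3_14_ok ( qcheckL_append
  G3C3_15_ok ( qcheckL_append G3C3_16_ok ( qcheckL_append G3C3_17_ok ( qcheckL_append G3C3_18_ok (
  qcheckL_append G3C3_19_ok ( qcheckL_append G3C3_20_ok ( qcheckL_append G3C3_21_ok ( qcheckL_append
  G3C3_22_ok ( qcheckL_append G3C3_23_ok ( qcheckL_append G3C3_24_ok ( qcheckL_append G3C3_25_ok (
  qcheckL_append G3C3_26_ok ( qcheckL_append G3C3_27_ok ( qcheckL_append G3C3_28_ok ( qcheckL_append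
  G3C3_29_ok ( qcheckL_append G3C3_30_ok ( qcheckL_append G3C3_31_ok ( qcheckL_append G3C3_32_ok (
  qcheckL_append G3C3_33_ok ( qcheckL_append G3C3_34_ok ( qcheckL_append G3C3_35_ok ( qcheckL_append
  G3C3_36_ok ( qcheckL_append G3C3_37_ok ( qcheckL_append G3C3_38_ok ( qcheckL_append G3C3_39_ok (
  qcheckL_append G3C3_40_ok ( qcheckL_append G3C4_1_ok ( qcheckL_append G3C4_2_ok ( qcheckL_append
  G3C4_3_ok ( qcheckL_append G3C4_4_ok ( qcheckL_append G3C4_5_ok ( qcheckL_append G3C4_6_ok (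
  qcheckL_append G3C4_7_ok ( qcheckL_append G3C4_8_ok ( qcheckL_append G3C4_9_ok ( qcheckL_append
  G3C4_10_ok ( qcheckL_append G3C4_11_ok ( qcheckL_append G3C4_12_ok ( qcheckL_append G3C4_13_ok (
  qcheckL_append G3C4_14_ok ( qcheckL_append G3C4_15_ok ( qcheckL_append G3C4_16_ok ( qcheckL_append
  G3C4_17_ok ( qcheckL_append G3C4_18_ok ( qcheckL_append G3C4_19_ok ( qcheckL_append G3C4_20_ok (
  qcheckL_append G3C4_21_ok ( qcheckL_append G3C4_22_ok ( qcheckL_append G3C4_23_ok ( qcheckL_append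
  G3C4_24_ok ( qcheckL_append G3C4_25_ok ( qcheckL_append G3C4_26_ok ( qcheckL_append G3C4_27_ok (
  qcheckL_append G3C4_28_ok ( qcheckL_append G3C4_29_ok ( qcheckL_append G3C4_30_ok ( qcheckL_append
  G3C4_31_ok ( qcheckL_append G3C4_32_ok ( qcheckL_append G3C4_33_ok ( qcheckL_append G3C4_34_ok (
  qcheckL_append G3C4_35_ok ( qcheckL_append G3C4_36_ok ( qcheckL_append G3C4_37_ok ( qcheckL_append
  G3C4_38_ok ( qcheckL_append G3C4_39_ok ( qcheckL_append G3C4_40_ok ( qcheckL_append G3C5_1_ok (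
  qcheckL_append G3C5_2_ok ( qcheckL_append G3C5_3_ok ( qcheckL_append G3C5_4_ok ( qcheckL_append
  G3C5_5_ok ( qcheckL_append G3C5_6_ok ( qcheckL_append G3C5_7_ok ( qcheckL_append G3C5_8_ok (
  qcheckL_append G3C5_9_ok ( qcheckL_append G3C5_10_ok ( qcheckL_append G3C5_11_ok ( qcheckL_append
  G3C5_12_ok ( qcheckL_append G3C5_13_ok ( qcheckL_append G3C5_14_ok ( qcheckL_append G3C5_15_ok (
  qcheckL_append G3C5_16_ok ( qcheckL_append G3C5_17_ok ( qcheckL_append G3C5_18_ok ( qcheckL_append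
  G3C5_19_ok ( qcheckL_append G3C5_20_ok ( qcheckL_append G3C5_21_ok ( qcheckL_append G3C5_22_ok (
  qcheckL_append G3C5_23_ok ( qcheckL_append G3C5_24_ok ( qcheckL_append G3C5_25_ok ( qcheckL_append
  G3C5_26_ok ( qcheckL_append G3C5_27_ok ( qcheckL_append G3C5_28_ok ( qcheckL_append G3C5_29_ok (
  qcheckL_append G3C5_30_ok ( qcheckL_append G3C5_31_ok ( qcheckL_append G3C5_32_ok ( qcheckL_append
  G3C5_33_ok ( qcheckL_append G3C5_34_ok ( qcheckL_append G3C5_35_ok ( qcheckL_append G3C5_36_ok (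
  qcheckL_append G3C5_37_ok ( qcheckL_append G3C5_38_ok ( qcheckL_append G3C5_39_ok ( qcheckL_append
  G3C5_40_ok ( qcheckL_append G3C6_1_ok ( qcheckL_append G3C6_2_ok ( qcheckL_append G3C6_3_ok (
  qcheckL_append G3C6_4_ok ( qcheckL_append G3C6_5_ok ( qcheckL_append G3C6_6_ok ( qcheckL_append
  G3C6_7_ok ( qcheckL_append G3C6_8_ok ( qcheckL_append G3C6_9_ok ( qcheckL_append G3C6_10_ok (
  qcheckL_append G3C6_11_ok ( qcheckL_append G3C6_12_ok ( qcheckL_append G3C6_13_ok ( qcheckL_append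
  G3C6_14_ok ( qcheckL_append G3C6_15_ok ( qcheckL_append G3C6_16_ok ( qcheckL_append G3C6_17_ok (
  qcheckL_append G3C6_18_ok ( qcheckL_append G3C6_19_ok ( qcheckL_append G3C6_20_ok ( qcheckL_append
  G3C6_21_ok ( qcheckL_append G3C6_22_ok ( qcheckL_append G3C6_23_ok ( qcheckL_append G3C6_24_ok (
  qcheckL_append G3C6_25_ok ( qcheckL_append G3C6_26_ok ( qcheckL_append G3C6_27_ok ( qcheckL_append
  G3C6_28_ok ( qcheckL_append G3C6_29_ok ( qcheckL_append G3C6_30_ok ( qcheckL_append G3C6_31_ok (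
  qcheckL_append G3C6_32_ok ( qcheckL_append G3C6_33_ok ( qcheckL_append G3C6_34_ok ( qcheckL_append
  G3C6_35_ok ( qcheckL_append G3C6_36_ok ( qcheckL_append G3C6_37_ok ( qcheckL_append G3C6_38_ok (
  qcheckL_append G3C6_39_ok
  (G3C6_40_ok)))))))))))))))))))))))))))))))))))))))))))))))))))))))))))))))))))))))))))))))))))))))))))))))))))))))))))))))))))))))))))))))))))))))))))))))))))))))))))))))))))))))))))))))))))))))))))))))))))))))))))))))))))))))))))))))))))))))))))))))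

theorem G3C_pts : Red.pts (G3) = G3C.map Prod.fst :=
  (Red.ptsF_eq _).trans (eqL_sound (by decide +kernel))

/-- The extension property of G3. -/
theorem G3_ext (co : List (Nat × Nat)) (h : neOK (G3) co = true) : Red.Ext (G3) co :=
  Red.ext_of_quick (by decide +kernel) (by decide +kernel : Red.ie (G3) = G3ie)
    (by decide +kernel : Red.te (G3) = G3te)
    (by decide +kernel : neP (Red.ne (G3)) G3ne = true) G3T_ok G3C_ok G3C_pts h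

end Pool.Agent.T1Red
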