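import Pool.Agent.Work.MP_392c8e_co_uni.Quick
import Pool.Agent.Work.MP_392c8e_co_uni.RedG

/-!
# The table of the reducer G3
-/

namespace Pool.Agent.T1Red

/-- The edges between interior vertices. -/
def G3ie : List (Nat × Nat) :=
  [(11, 12), (11, 17), (11, 18), (12, 13), (12, 20), (13, 14), (13, 21), (14, 15), (14, 23), (15,
  16), (15, 24), (16, 17), (16, 26), (18, 19), (19, 20), (21, 22), (22, 23), (24, 25), (25, 26)]

/-- The packed matrix of the pairs with different values. -/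
def G3ne : Nat := 5887570956983948029878066275331932125070098432

/-- The edges with a label. -/
def G3te : List (Nat × Nat) :=
  [(17, 0), (18, 1), (19, 2), (20, 3), (21, 4), (22, 5), (23, 6), (24, 7), (25, 8), (26, 9)]

def G3p0_1 : Nat × Nat × Nat × Nat := (3, 1, 0, 1)
def G3p0_2 : Nat × Nat × Nat × Nat := (5, 1, 0, 2)
def G3p0_3 : Nat × Nat × Nat × Nat := (9, 1, 0, 3)
def G3p0_4 : Nat × Nat × Nat × Nat := (17, 1, 0, 4)
def G3p0_5 : Nat × Nat × Nat × Nat := (33, 1, 0, 5)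
def G3p0_6 : Nat × Nat × Nat × Nat := (65, 1, 0, 6)
def G3p0_7 : Nat × Nat × Nat × Nat := (129, 1, 0, 7)
def G3p0_8 : Nat × Nat × Nat × Nat := (257, 1, 0, 8)
def G3p0_9 : Nat × Nat × Nat × Nat := (513, 1, 0, 9)
def G3p1_0 : Nat × Nat × Nat × Nat := (3, 2, 1, 0)
def G3p1_2 : Nat × Nat × Nat × Nat := (6, 2, 1, 2)
def G3p1_3 : Nat × Nat × Nat × Nat := (10, 2, 1, 3)
def G3p1_4 : Nat × Nat × Nat × Nat := (18, 2, 1, 4)
def G3p1_5 : Nat × Nat × Nat × Nat := (34, 2, 1, 5)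
def G3p1_6 : Nat × Nat × Nat × Nat := (66, 2, 1, 6)
def G3p1_7 : Nat × Nat × Nat × Nat := (130, 2, 1, 7)
def G3p1_8 : Nat × Nat × Nat × Nat := (258, 2, 1, 8)
def G3p1_9 : Nat × Nat × Nat × Nat := (514, 2, 1, 9)
def G3p2_0 : Nat × Nat × Nat × Nat := (5, 4, 2, 0)
def G3p2_1 : Nat × Nat × Nat × Nat := (6, 4, 2, 1)
def G3p2_3 : Nat × Nat × Nat × Nat := (12, 4, 2, 3)
def G3p2_4 : Nat × Nat × Nat × Nat := (20, 4, 2, 4)
def G3p2_5 : Nat × Nat × Nat × Nat := (36, 4, 2, 5)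
def G3p2_6 : Nat × Nat × Nat × Nat := (68, 4, 2, 6)
def G3p2_7 : Nat × Nat × Nat × Nat := (132, 4, 2, 7)
def G3p2_8 : Nat × Nat × Nat × Nat := (260, 4, 2, 8)
def G3p2_9 : Nat × Nat × Nat × Nat := (516, 4, 2, 9)
def G3p3_0 : Nat × Nat × Nat × Nat := (9, 8, 3, 0)
def G3p3_1 : Nat × Nat × Nat × Nat := (10, 8, 3, 1)
def G3p3_2 : Nat × Nat × Nat × Nat := (12, 8, 3, 2)
def G3p3_4 : Nat × Nat × Nat × Nat := (24, 8, 3, 4)
def G3p3_5 : Nat × Nat × Nat × Nat := (40, 8, 3, 5)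
def G3p3_6 : Nat × Nat × Nat × Nat := (72, 8, 3, 6)
def G3p3_7 : Nat × Nat × Nat × Nat := (136, 8, 3, 7)
def G3p3_8 : Nat × Nat × Nat × Nat := (264, 8, 3, 8)
def G3p3_9 : Nat × Nat × Nat × Nat := (520, 8, 3, 9)
def G3p4_0 : Nat × Nat × Nat × Nat := (17, 16, 4, 0)
def G3p4_1 : Nat × Nat × Nat × Nat := (18, 16, 4, 1)
def G3p4_2 : Nat × Nat × Nat × Nat := (20, 16, 4, 2)
def G3p4_3 : Nat × Nat × Nat × Nat := (24, 16, 4, 3)
def G3p4_5 : Nat × Nat × Nat × Nat := (48, 16, 4, 5)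
def G3p4_6 : Nat × Nat × Nat × Nat := (80, 16, 4, 6)
def G3p4_7 : Nat × Nat × Nat × Nat := (144, 16, 4, 7)
def G3p4_8 : Nat × Nat × Nat × Nat := (272, 16, 4, 8)
def G3p4_9 : Nat × Nat × Nat × Nat := (528, 16, 4, 9)
def G3p5_0 : Nat × Nat × Nat × Nat := (33, 32, 5, 0)
def G3p5_1 : Nat × Nat × Nat × Nat := (34, 32, 5, 1)
def G3p5_2 : Nat × Nat × Nat × Nat := (36, 32, 5, 2)
def G3p5_3 : Nat × Nat × Nat × Nat := (40, 32, 5, 3)
def G3p5_4 : Nat × Nat × Nat × Nat := (48, 32, 5, 4)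
def G3p5_6 : Nat × Nat × Nat × Nat := (96, 32, 5, 6)
def G3p5_7 : Nat × Nat × Nat × Nat := (160, 32, 5, 7)
def G3p5_8 : Nat × Nat × Nat × Nat := (288, 32, 5, 8)
def G3p5_9 : Nat × Nat × Nat × Nat := (544, 32, 5, 9)
def G3p6_0 : Nat × Nat × Nat × Nat := (65, 64, 6, 0)
def G3p6_1 : Nat × Nat × Nat × Nat := (66, 64, 6, 1)
def G3p6_2 : Nat × Nat × Nat × Nat := (68, 64, 6, 2)
def G3p6_3 : Nat × Nat × Nat × Nat := (72, 64, 6, 3)
def G3p6_4 : Nat × Nat × Nat × Nat := (80, 64, 6, 4)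
def G3p6_5 : Nat × Nat × Nat × Nat := (96, 64, 6, 5)
def G3p6_7 : Nat × Nat × Nat × Nat := (192, 64, 6, 7)
def G3p6_8 : Nat × Nat × Nat × Nat := (320, 64, 6, 8)
def G3p6_9 : Nat × Nat × Nat × Nat := (576, 64, 6, 9)
def G3p7_0 : Nat × Nat × Nat × Nat := (129, 128, 7, 0)
def G3p7_1 : Nat × Nat × Nat × Nat := (130, 128, 7, 1)
def G3p7_2 : Nat × Nat × Nat × Nat := (132, 128, 7, 2)
def G3p7_3 : Nat × Nat × Nat × Nat := (136, 128, 7, 3)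
def G3p7_4 : Nat × Nat × Nat × Nat := (144, 128, 7, 4)
def G3p7_5 : Nat × Nat × Nat × Nat := (160, 128, 7, 5)
def G3p7_6 : Nat × Nat × Nat × Nat := (192, 128, 7, 6)
def G3p7_8 : Nat × Nat × Nat × Nat := (384, 128, 7, 8)
def G3p7_9 : Nat × Nat × Nat × Nat := (640, 128, 7, 9)
def G3p8_0 : Nat × Nat × Nat × Nat := (257, 256, 8, 0)
def G3p8_1 : Nat × Nat × Nat × Nat := (258, 256, 8, 1)
def G3p8_2 : Nat × Nat × Nat × Nat := (260, 256, 8, 2)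
def G3p8_3 : Nat × Nat × Nat × Nat := (264, 256, 8, 3)
def G3p8_4 : Nat × Nat × Nat × Nat := (272, 256, 8, 4)
def G3p8_5 : Nat × Nat × Nat × Nat := (288, 256, 8, 5)
def G3p8_6 : Nat × Nat × Nat × Nat := (320, 256, 8, 6)
def G3p8_7 : Nat × Nat × Nat × Nat := (384, 256, 8, 7)
def G3p8_9 : Nat × Nat × Nat × Nat := (768, 256, 8, 9)
def G3p9_0 : Nat × Nat × Nat × Nat := (513, 512, 9, 0)
def G3p9_1 : Nat × Nat × Nat × Nat := (514, 512, 9, 1)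
def G3p9_2 : Nat × Nat × Nat × Nat := (516, 512, 9, 2)
def G3p9_3 : Nat × Nat × Nat × Nat := (520, 512, 9, 3)
def G3p9_4 : Nat × Nat × Nat × Nat := (528, 512, 9, 4)
def G3p9_5 : Nat × Nat × Nat × Nat := (544, 512, 9, 5)
def G3p9_6 : Nat × Nat × Nat × Nat := (576, 512, 9, 6)
def G3p9_7 : Nat × Nat × Nat × Nat := (640, 512, 9, 7)
def G3p9_8 : Nat × Nat × Nat × Nat := (768, 512, 9, 8)

def G3T1 : Tr :=
  .node 32 (.node 16 (.node 8 (.node 4 (.node 2 (.node 1 (.leaf ⟨2434027810,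
  76743068404879433238725,
  920548269000394419599946231111730486326013873564221474737051391910201524232, 594245, [G3p0_3,
  G3p1_3, G3p2_1, G3p2_3, G3p4_3, G3p4_6, G3p5_3, G3p5_4, G3p5_6, G3p7_0, G3p7_3, G3p7_8, G3p7_9,
  G3p8_0, G3p8_3, G3p8_9, G3p9_0, G3p9_3]⟩) (.leaf ⟨1628721442, 40255408521525501986914,
  1583105322713609092732599216064792967334700259903007281222720462961175429128, 397637, [G3p0_3,
  G3p1_3, G3p2_1, G3p2_3, G3p4_3, G3p4_6, G3p5_3, G3p5_4, G3p5_6, G3p8_7, G3p9_7, G3p9_8]⟩)) (.node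
  3 (.leaf ⟨2434339106, 76743068447932185413925,
  931149513151212985316500333719064929555652361203695452229861379149821640718, 594321, [G3p0_1,
  G3p0_2, G3p0_3, G3p1_2, G3p1_3, G3p2_3, G3p4_6, G3p5_4, G3p5_6, G3p7_0, G3p7_1, G3p7_2, G3p7_3,
  G3p7_8, G3p7_9, G3p8_0, G3p8_1, G3p8_2, G3p8_3, G3p8_9, G3p9_0, G3p9_1, G3p9_2, G3p9_3]⟩) (.leaf
  ⟨1629032738, 40255408561176640063682,
  1583105322713609092731832956602346923577753776580886905924915556576355418126, 397713, [G3p0_1,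
  G3p0_2, G3p0_3, G3p1_2, G3p1_3, G3p2_3, G3p4_6, G3p5_4, G3p5_6, G3p8_7, G3p9_7, G3p9_8]⟩))) (.node
  6 (.node 5 (.leaf ⟨2433847588, 76746526924236523771011,
  906413276799302998642752822224493832906317942162684821758023284688102096961, 594201, [G3p1_0,
  G3p1_6, G3p2_0, G3p2_1, G3p2_6, G3p3_0, G3p3_1, G3p3_2, G3p3_6, G3p4_6, G3p5_4, G3p5_6, G3p7_0,
  G3p7_8, G3p7_9, G3p8_0, G3p8_9, G3p9_0]⟩) (.leaf ⟨1628541220, 40258867146438930011267,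
  1583105322713609092731832956603930296563784289783596431964512213904996171841, 397593, [G3p1_0,
  G3p1_6, G3p2_0, G3p2_1, G3p2_6, G3p3_0, G3p3_1, G3p3_2, G3p3_6, G3p4_6, G3p5_4, G3p5_6, G3p8_7,
  G3p9_7, G3p9_8]⟩)) (.node 7 (.leaf ⟨2433896740, 76746527030854791926912,
  906413276799302998642752822224337729391397177670830272150901618776022712399, 594213, [G3p1_2,
  G3p1_3, G3p1_6, G3p2_3, G3p2_6, G3p3_6, G3p4_6, G3p5_4, G3p5_6, G3p7_0, G3p7_8, G3p7_9, G3p8_0,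
  G3p8_9, G3p9_0]⟩) (.leaf ⟨1628590372, 40258867253053976941696,
  1583105322713609092731832956603774193048863525291741882357390547992916787279, 397605, [G3p1_2,
  G3p1_3, G3p1_6, G3p2_3, G3p2_6, G3p3_6, G3p4_6, G3p5_4, G3p5_6, G3p8_7, G3p9_7, G3p9_8]⟩))))
  (.node 12 (.node 10 (.node 9 (.leaf ⟨2433814822, 76743068166457208703013,
  917014520950121564360073184294251996348469069165266190939430185082795982854, 594193, [G3p0_1,
  G3p0_2, G3p1_2, G3p3_1, G3p3_2, G3p3_6, G3p4_6, G3p5_4, G3p5_6, G3p7_0, G3p7_1, G3p7_2, G3p7_8,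
  G3p7_9, G3p8_0, G3p8_1, G3p8_2, G3p8_9, G3p9_0, G3p9_1, G3p9_2]⟩) (.leaf ⟨1628508454,
  40255408385254779619362,
  1583105322713609092731832956603907973019350445824583448355304220675249930246, 397585, [G3p0_1,
  G3p0_2, G3p1_2, G3p3_1, G3p3_2, G3p3_6, G3p4_6, G3p5_4, G3p5_6, G3p8_7, G3p9_7, G3p9_8]⟩)) (.node
  11 (.leaf ⟨2434289954, 76743068159722699983045,
  906413276799302998642752822223044262349722102501680111155097175863876124672, 594309, [G3p2_1,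
  G3p3_1, G3p3_2, G3p4_6, G3p5_4, G3p5_6, G3p7_0, G3p7_8, G3p7_9, G3p8_0, G3p8_9, G3p9_0]⟩) (.leaf
  ⟨1628983586, 40255408381921884997763,
  1583105322713609092731832956602480726007188450122591721361586105080770199552, 397701, [G3p2_1,
  G3p3_1, G3p3_2, G3p4_6, G3p5_4, G3p5_6, G3p8_7, G3p9_7, G3p9_8]⟩))) (.node 14 (.node 13 (.leaf
  ⟨2433880358, 76744221115449607326789,
  909947024849575853881859609580975827224159348676731817424800681628467855362, 594209, [G3p0_1,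
  G3p2_1, G3p2_3, G3p2_6, G3p3_1, G3p3_6, G3p4_6, G3p5_4, G3p5_6, G3p7_0, G3p7_1, G3p7_8, G3p7_9,
  G3p8_0, G3p8_1, G3p8_9, G3p9_0, G3p9_1]⟩) (.leaf ⟨1628573990, 40256561337580072864835,
  1583105322713609092731832956603818795219430705977111976701084646303881887746, 397601, [G3p0_1,
  G3p2_1, G3p2_3, G3p2_6, G3p3_1, G3p3_6, G3p4_6, G3p5_4, G3p5_6, G3p8_7, G3p9_7, G3p9_8]⟩)) (.node
  15 (.leaf ⟨2435076376, 76743177406167243555907,
  906413276799302998641220373450163868907202848411466012908102942975785631747, 594501, [G3p2_0,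
  G3p2_1, G3p2_3, G3p3_0, G3p3_1, G3p4_5, G3p4_6, G3p5_6, G3p7_0, G3p7_8, G3p7_9, G3p8_0, G3p8_9,
  G3p9_0]⟩) (.leaf ⟨1629770008, 40255517628369649796163,
  1583105322713609092730300507829600332564669196032377623114591872192679706627, 397893, [G3p2_0,
  G3p2_1, G3p2_3, G3p3_0, G3p3_1, G3p4_5, G3p4_6, G3p5_6, G3p8_7, G3p9_7, G3p9_8]⟩))))) (.node 24
  (.node 20 (.node 18 (.node 17 (.leaf ⟨2441367826, 76739683949759464217797,
  920548269000394720893933194510392762756283515244725100751464495396533305352, 596037, [G3p0_3,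
  G3p1_3, G3p2_1, G3p2_3, G3p5_4, G3p6_4, G3p6_5, G3p7_0, G3p7_3, G3p7_8, G3p7_9, G3p8_0, G3p8_3,
  G3p8_9, G3p9_0, G3p9_3]⟩) (.leaf ⟨1636061458, 40252024066405532962914,
  1583105322713609394026586179463455243764969901583510907237133566447507210248, 399429, [G3p0_3,
  G3p1_3, G3p2_1, G3p2_3, G3p5_4, G3p6_4, G3p6_5, G3p8_7, G3p9_7, G3p9_8]⟩)) (.node 19 (.leaf
  ⟨1629770002, 40259087962421063585890,
  1583105322713609092730300507829533468101039417517671212519852433882371063928, 397893, [G3p0_3,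
  G3p0_4, G3p0_5, G3p0_6, G3p1_3, G3p1_4, G3p1_5, G3p1_6, G3p2_1, G3p2_3, G3p2_4, G3p2_5, G3p2_6,
  G3p4_5, G3p4_6, G3p5_6, G3p8_7, G3p9_7, G3p9_8]⟩) (.leaf ⟨2435076370, 76750318074379592801477,
  1118438159815674312987627614845706744175272489128646658125661377154279538808, 594501, [G3p0_3,
  G3p0_4, G3p0_5, G3p0_6, G3p1_3, G3p1_4, G3p1_5, G3p1_6, G3p2_1, G3p2_3, G3p2_4, G3p2_5, G3p2_6,
  G3p4_5, G3p4_6, G3p5_6, G3p7_0, G3p7_3, G3p7_4, G3p7_5, G3p7_6, G3p7_8, G3p7_9, G3p8_0, G3p8_3,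
  G3p8_4, G3p8_5, G3p8_6, G3p8_9, G3p9_0, G3p9_3, G3p9_4, G3p9_5, G3p9_6]⟩))) (.node 22 (.node 21
  (.leaf ⟨2435338628, 76740797510156546119904,
  931149513151213073195733134419196506800378403643855534620289659810140258319, 594565, [G3p2_1,
  G3p3_1, G3p3_2, G3p4_1, G3p4_2, G3p4_3, G3p4_5, G3p4_6, G3p5_1, G3p5_2, G3p5_3, G3p5_6, G3p6_1,
  G3p6_2, G3p6_3, G3p7_0, G3p7_1, G3p7_2, G3p7_3, G3p7_8, G3p7_9, G3p8_0, G3p8_1, G3p8_2, G3p8_3,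
  G3p8_9, G3p9_0, G3p9_1, G3p9_2, G3p9_3]⟩) (.leaf ⟨1630032260, 40253137732355731134688,
  1607841559065519167284813268798632970457844751264767144826778589027034333199, 397957, [G3p2_1,
  G3p3_1, G3p3_2, G3p4_1, G3p4_2, G3p4_3, G3p4_5, G3p4_6, G3p5_1, G3p5_2, G3p5_3, G3p5_6, G3p6_1,
  G3p6_2, G3p6_3, G3p7_1, G3p7_2, G3p7_3, G3p8_1, G3p8_2, G3p8_3, G3p8_7, G3p9_1, G3p9_2, G3p9_3,
  G3p9_7, G3p9_8]⟩)) (.node 23 (.leaf ⟨2441679122, 76739683992812216396069,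
  931149513151213286611253556580173249062324522027252894566348009479065305102, 596113, [G3p0_1,
  G3p0_2, G3p0_3, G3p1_2, G3p1_3, G3p2_3, G3p5_4, G3p6_4, G3p6_5, G3p7_0, G3p7_1, G3p7_2, G3p7_3,
  G3p7_8, G3p7_9, G3p8_0, G3p8_1, G3p8_2, G3p8_3, G3p8_9, G3p9_0, G3p9_1, G3p9_2, G3p9_3]⟩) (.leaf
  ⟨1636372754, 40252024106056671042754,
  1583105322713609394026586179463455243084425937404444348261402186905599082510, 399505, [G3p0_1,
  G3p0_2, G3p0_3, G3p1_2, G3p1_3, G3p2_3, G3p5_4, G3p6_4, G3p6_5, G3p8_7, G3p9_7, G3p9_8]⟩))))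
  (.node 28 (.node 26 (.node 25 (.leaf ⟨1630081298, 40262658230676799626434,
  1583105322713609092730300507832031150882730883130456653990657670829132742782, 397969, [G3p0_1,
  G3p0_2, G3p0_3, G3p0_4, G3p0_5, G3p0_6, G3p1_2, G3p1_3, G3p1_4, G3p1_5, G3p1_6, G3p2_3, G3p2_4,
  G3p2_5, G3p2_6, G3p3_4, G3p3_5, G3p3_6, G3p4_5, G3p4_6, G3p5_6, G3p8_7, G3p9_7, G3p9_8]⟩) (.leaf
  ⟨2435387666, 76753888346036942940453,
  1129039403966492878704947976917984913943548925703026452387081507725481345150, 594577, [G3p0_1,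
  G3p0_2, G3p0_3, G3p0_4, G3p0_5, G3p0_6, G3p1_2, G3p1_3, G3p1_4, G3p1_5, G3p1_6, G3p2_3, G3p2_4,
  G3p2_5, G3p2_6, G3p3_4, G3p3_5, G3p3_6, G3p4_5, G3p4_6, G3p5_6, G3p7_0, G3p7_1, G3p7_2, G3p7_3,
  G3p7_4, G3p7_5, G3p7_6, G3p7_8, G3p7_9, G3p8_0, G3p8_1, G3p8_2, G3p8_3, G3p8_4, G3p8_5, G3p8_6,
  G3p8_9, G3p9_0, G3p9_1, G3p9_2, G3p9_3, G3p9_4, G3p9_5, G3p9_6]⟩)) (.node 27 (.leaf ⟨1630081414,
  40253137838973999290600,
  1607841559065519167284813268798499168028410077723045404428633435714173665294, 397969, [G3p0_1,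
  G3p0_2, G3p0_3, G3p1_2, G3p1_3, G3p2_3, G3p4_1, G3p4_2, G3p4_3, G3p4_5, G3p4_6, G3p5_1, G3p5_2,
  G3p5_3, G3p5_6, G3p6_1, G3p6_2, G3p6_3, G3p7_1, G3p7_2, G3p7_3, G3p8_1, G3p8_2, G3p8_3, G3p8_7,
  G3p9_1, G3p9_2, G3p9_3, G3p9_7, G3p9_8]⟩) (.leaf ⟨2435387782, 76740797616774814275816,
  931149513151213073195733134419062704370943730102133794222144506497279590414, 594577, [G3p0_1,
  G3p0_2, G3p0_3, G3p1_2, G3p1_3, G3p2_3, G3p4_1, G3p4_2, G3p4_3, G3p4_5, G3p4_6, G3p5_1, G3p5_2,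
  G3p5_3, G3p5_6, G3p6_1, G3p6_2, G3p6_3, G3p7_0, G3p7_1, G3p7_2, G3p7_3, G3p7_8, G3p7_9, G3p8_0,
  G3p8_1, G3p8_2, G3p8_3, G3p8_9, G3p9_0, G3p9_1, G3p9_2, G3p9_3]⟩))) (.node 30 (.node 29 (.leaf
  ⟨2434945304, 76743177587586662138947,
  906413276799302998641220373450096965650822463341528433294706919303174619151, 594469, [G3p1_2,
  G3p1_3, G3p2_3, G3p4_5, G3p4_6, G3p5_6, G3p7_0, G3p7_8, G3p7_9, G3p8_0, G3p8_9, G3p9_0]⟩) (.leaf
  ⟨1629638936, 40255517809789068379203,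
  1583105322713609092730300507829533429308288810962440043501195848520068694031, 397861, [G3p1_2,
  G3p1_3, G3p2_3, G3p4_5, G3p4_6, G3p5_6, G3p8_7, G3p9_7, G3p9_8]⟩)) (.node 31 (.leaf ⟨2441236760,
  76739684029133681070246,
  906413276799303394095468812376316567732055660182543685032961678486272933903, 596005, [G3p1_2,
  G3p1_3, G3p2_3, G3p4_0, G3p4_1, G3p4_2, G3p4_3, G3p5_0, G3p5_1, G3p5_2, G3p5_3, G3p5_4, G3p6_0,
  G3p6_1, G3p6_2, G3p6_3, G3p6_4, G3p6_5, G3p7_0, G3p7_8, G3p7_9, G3p8_0, G3p8_9, G3p9_0]⟩) (.leaf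
  ⟨1635930392, 40252024251336087310502,
  1583105322713609488184548946755753031389522007803455295239450607703167008783, 399397, [G3p1_2,
  G3p1_3, G3p2_3, G3p4_0, G3p4_1, G3p4_2, G3p4_3, G3p5_0, G3p5_1, G3p5_2, G3p5_3, G3p5_4, G3p6_0,
  G3p6_1, G3p6_2, G3p6_3, G3p6_4, G3p6_5, G3p8_7, G3p9_7, G3p9_8]⟩)))))) (.node 48 (.node 40 (.node
  36 (.node 34 (.node 33 (.leaf ⟨2441236772, 76746824268430198379648,
  906413276799303299937506045086516501001401650859437346932625991487269634175, 596005, [G3p1_2,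
  G3p1_3, G3p1_4, G3p1_5, G3p1_6, G3p2_3, G3p2_4, G3p2_5, G3p2_6, G3p3_4, G3p3_5, G3p3_6, G3p5_4,
  G3p6_4, G3p6_5, G3p7_0, G3p7_8, G3p7_9, G3p8_0, G3p8_9, G3p9_0]⟩) (.leaf ⟨1635930404,
  40259164490629383394432,
  1583105322713609394026586179465952964658867998480348957139114920704163709055, 399397, [G3p1_2,
  G3p1_3, G3p1_4, G3p1_5, G3p1_6, G3p2_3, G3p2_4, G3p2_5, G3p2_6, G3p3_4, G3p3_5, G3p3_6, G3p5_4,
  G3p6_4, G3p6_5, G3p8_7, G3p9_7, G3p9_8]⟩)) (.node 35 (.leaf ⟨2434896152, 76743177480971615208518,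
  906413276799302998641220373450253069165743227833382982901828585215254003713, 594457, [G3p1_0,
  G3p2_0, G3p2_1, G3p3_0, G3p3_1, G3p3_2, G3p4_5, G3p4_6, G3p5_6, G3p7_0, G3p7_8, G3p7_9, G3p8_0,
  G3p8_9, G3p9_0]⟩) (.leaf ⟨1629589784, 40255517703174021448774,
  1583105322713609092730300507829689532823209575454294593108317514432148078593, 397849, [G3p1_0,
  G3p2_0, G3p2_1, G3p3_0, G3p3_1, G3p3_2, G3p4_5, G3p4_6, G3p5_6, G3p8_7, G3p9_7, G3p9_8]⟩))) (.node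
  38 (.node 37 (.leaf ⟨2441187620, 76746824161811930223747,
  906413276799303299937506045086672604516322415351291896539747657399349018737, 595993, [G3p1_0,
  G3p1_4, G3p1_5, G3p1_6, G3p2_0, G3p2_1, G3p2_4, G3p2_5, G3p2_6, G3p3_0, G3p3_1, G3p3_2, G3p3_4,
  G3p3_5, G3p3_6, G3p5_4, G3p6_4, G3p6_5, G3p7_0, G3p7_8, G3p7_9, G3p8_0, G3p8_9, G3p9_0]⟩) (.leaf
  ⟨1635881252, 40259164384014336464003,
  1583105322713609394026586179466109068173788762972203506746236586616243093617, 399385, [G3p1_0,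
  G3p1_4, G3p1_5, G3p1_6, G3p2_0, G3p2_1, G3p2_4, G3p2_5, G3p2_6, G3p3_0, G3p3_1, G3p3_2, G3p3_4,
  G3p3_5, G3p3_6, G3p5_4, G3p6_4, G3p6_5, G3p8_7, G3p9_7, G3p9_8]⟩)) (.node 39 (.leaf ⟨2441187608,
  76739683922518634139817,
  906413276799303394095468812376472671246976424674398234640083344398352318465, 595993, [G3p1_0,
  G3p2_0, G3p2_1, G3p3_0, G3p3_1, G3p3_2, G3p4_0, G3p4_1, G3p4_2, G3p4_3, G3p5_0, G3p5_1, G3p5_2,
  G3p5_3, G3p5_4, G3p6_0, G3p6_1, G3p6_2, G3p6_3, G3p6_4, G3p6_5, G3p7_0, G3p7_8, G3p7_9, G3p8_0,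
  G3p8_9, G3p9_0]⟩) (.leaf ⟨1635881240, 40252024144721040380073,
  1583105322713609488184548946755909134904442772295309844846572273615246393345, 399385, [G3p1_0,
  G3p2_0, G3p2_1, G3p3_0, G3p3_1, G3p3_2, G3p4_0, G3p4_1, G3p4_2, G3p4_3, G3p5_0, G3p5_1, G3p5_2,
  G3p5_3, G3p5_4, G3p6_0, G3p6_1, G3p6_2, G3p6_3, G3p6_4, G3p6_5, G3p8_7, G3p9_7, G3p9_8]⟩))))
  (.node 44 (.node 42 (.node 41 (.leaf ⟨2434863494, 76740797229746721298664,
  917014520950121602021725842436930369708336573378261101673770530349187989510, 594449, [G3p0_1,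
  G3p0_2, G3p1_2, G3p3_1, G3p3_2, G3p4_1, G3p4_2, G3p4_5, G3p4_6, G3p5_1, G3p5_2, G3p5_6, G3p6_1,
  G3p6_2, G3p7_0, G3p7_1, G3p7_2, G3p7_8, G3p7_9, G3p8_0, G3p8_1, G3p8_2, G3p8_9, G3p9_0, G3p9_1,
  G3p9_2]⟩) (.leaf ⟨1629557126, 40253137451945906313448,
  1593706566864427696110805976816366833365802920999172711880259459566082064390, 397841, [G3p0_1,
  G3p0_2, G3p1_2, G3p3_1, G3p3_2, G3p4_1, G3p4_2, G3p4_5, G3p4_6, G3p5_1, G3p5_2, G3p5_6, G3p6_1,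
  G3p6_2, G3p7_1, G3p7_2, G3p8_1, G3p8_2, G3p8_7, G3p9_1, G3p9_2, G3p9_7, G3p9_8]⟩)) (.node 43
  (.leaf ⟨2441154854, 76743253939941837735973,
  917014520950121865654826407156430751624670699899617347753003937245366190086, 595985, [G3p0_1,
  G3p0_2, G3p1_2, G3p3_1, G3p3_2, G3p3_4, G3p3_5, G3p3_6, G3p5_4, G3p6_4, G3p6_5, G3p7_0, G3p7_1,
  G3p7_2, G3p7_8, G3p7_9, G3p8_0, G3p8_1, G3p8_2, G3p8_9, G3p9_0, G3p9_1, G3p9_2]⟩) (.leaf
  ⟨1635848486, 40255594158739408652322,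
  1583105322713609394026586179466086728295552076558934605168877972837820137478, 399377, [G3p0_1,
  G3p0_2, G3p1_2, G3p3_1, G3p3_2, G3p3_4, G3p3_5, G3p3_6, G3p5_4, G3p6_4, G3p6_5, G3p8_7, G3p9_7,
  G3p9_8]⟩))) (.node 46 (.node 45 (.leaf ⟨2441629970, 76739683704602730962117,
  906413276799303299937506045084152581856394263325237553491583806193119789056, 596101, [G3p2_1,
  G3p3_1, G3p3_2, G3p5_4, G3p6_4, G3p6_5, G3p7_0, G3p7_8, G3p7_9, G3p8_0, G3p8_9, G3p9_0]⟩) (.leaf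
  ⟨1636323602, 40252023926801915974787,
  1583105322713609394026586179463589045513860610946149163698072735410013863936, 399493, [G3p2_1,
  G3p3_1, G3p3_2, G3p5_4, G3p6_4, G3p6_5, G3p8_7, G3p9_7, G3p9_8]⟩)) (.node 47 (.leaf ⟨2435338514,
  76750317829222859545797,
  1104303167614582892031200465421964246737618667001011111312317304439535829104, 594565, [G3p0_4,
  G3p0_5, G3p0_6, G3p1_4, G3p1_5, G3p1_6, G3p2_1, G3p2_4, G3p2_5, G3p2_6, G3p3_1, G3p3_2, G3p3_4,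
  G3p3_5, G3p3_6, G3p4_5, G3p4_6, G3p5_6, G3p7_0, G3p7_4, G3p7_5, G3p7_6, G3p7_8, G3p7_9, G3p8_0,
  G3p8_4, G3p8_5, G3p8_6, G3p8_9, G3p9_0, G3p9_4, G3p9_5, G3p9_6]⟩) (.leaf ⟨1630032146,
  40260277899018979251331,
  1583105322713609092730300507832164953312165556672161469427328219333547524208, 397957, [G3p0_4,
  G3p0_5, G3p0_6, G3p1_4, G3p1_5, G3p1_6, G3p2_1, G3p2_4, G3p2_5, G3p2_6, G3p3_1, G3p3_2, G3p3_4,
  G3p3_5, G3p3_6, G3p4_5, G3p4_6, G3p5_6, G3p8_7, G3p9_7, G3p9_8]⟩))))) (.node 56 (.node 52 (.node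
  50 (.node 49 (.leaf ⟨1636176146, 40252024072074889793634,
  1583105322713609394026586179463589045513860612055360363859248066528075972622, 399457, [G3p0_1,
  G3p0_2, G3p0_3, G3p2_1, G3p3_1, G3p3_2, G3p5_4, G3p6_4, G3p6_5, G3p8_7, G3p9_7, G3p9_8]⟩) (.leaf
  ⟨2441482514, 76739683958830435146949,
  931149513151213286611253556580307051491759196678168910164193889101542195214, 596065, [G3p0_1,
  G3p0_2, G3p0_3, G3p2_1, G3p3_1, G3p3_2, G3p5_4, G3p6_4, G3p6_5, G3p7_0, G3p7_1, G3p7_2, G3p7_3,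
  G3p7_8, G3p7_9, G3p8_0, G3p8_1, G3p8_2, G3p8_3, G3p8_9, G3p9_0, G3p9_1, G3p9_2, G3p9_3]⟩)) (.node
  51 (.leaf ⟨2434929030, 76740797253935977109736,
  909947024849575866434722196445708101924596417547472493858919507789355286530, 594465, [G3p0_1,
  G3p2_1, G3p2_3, G3p3_1, G3p4_1, G3p4_5, G3p4_6, G3p5_1, G3p5_6, G3p6_1, G3p7_0, G3p7_1, G3p7_8,
  G3p7_9, G3p8_0, G3p8_1, G3p8_9, G3p9_0, G3p9_1]⟩) (.leaf ⟨1629622662, 40253137476135162124520,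
  1586639070763881960523802330825144565582062765168384104065408437006249361410, 397857, [G3p0_1,
  G3p2_1, G3p2_3, G3p3_1, G3p4_1, G3p4_5, G3p4_6, G3p5_1, G3p5_6, G3p6_1, G3p7_1, G3p8_1, G3p8_7,
  G3p9_1, G3p9_7, G3p9_8]⟩))) (.node 54 (.node 53 (.leaf ⟨2441220390, 76744444043631162166341,
  909947024849576155176612832443154598833914591616129220480355590515912212482, 596001, [G3p0_1,
  G3p2_1, G3p2_3, G3p2_4, G3p2_5, G3p2_6, G3p3_1, G3p3_4, G3p3_5, G3p3_6, G3p5_4, G3p6_4, G3p6_5,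
  G3p7_0, G3p7_1, G3p7_8, G3p7_9, G3p8_0, G3p8_1, G3p8_9, G3p9_0, G3p9_1]⟩) (.leaf ⟨1635914022,
  40256784265761627704387,
  1583105322713609394026586179465997566829185948916509379756639555191326244866, 399393, [G3p0_1,
  G3p2_1, G3p2_3, G3p2_4, G3p2_5, G3p2_6, G3p3_1, G3p3_4, G3p3_5, G3p3_6, G3p5_4, G3p6_4, G3p6_5,
  G3p8_7, G3p9_7, G3p9_8]⟩)) (.node 55 (.leaf ⟨2453950738, 76740797464767331671237,
  920548269000394419597647522876470948980146389911931996152397740261560025096, 599109, [G3p0_3,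
  G3p1_3, G3p2_1, G3p2_3, G3p4_5, G3p4_6, G3p5_6, G3p7_0, G3p7_3, G3p7_8, G3p7_9, G3p8_0, G3p8_3,
  G3p8_9, G3p9_0, G3p9_3]⟩) (.leaf ⟨1648644370, 40253137581413400416354,
  1583105322713609092730300507829533429988832776250717802638066811312533929992, 402501, [G3p0_3,
  G3p1_3, G3p2_1, G3p2_3, G3p4_5, G3p4_6, G3p5_6, G3p8_7, G3p9_7, G3p9_8]⟩)))) (.node 60 (.node 58
  (.node 57 (.leaf ⟨2454262034, 76740797507820083849509,
  931149513151212985314967884946251435286187396694459789967281254344092024846, 599185, [G3p0_1,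
  G3p0_2, G3p0_3, G3p1_2, G3p1_3, G3p2_3, G3p4_5, G3p4_6, G3p5_6, G3p7_0, G3p7_1, G3p7_2, G3p7_3,
  G3p7_8, G3p7_9, G3p8_0, G3p8_1, G3p8_2, G3p8_3, G3p8_9, G3p9_0, G3p9_1, G3p9_2, G3p9_3]⟩) (.leaf
  ⟨1648955666, 40253137621064538496194,
  1583105322713609092730300507829533429308288812071651243662335431770625802254, 402577, [G3p0_1,
  G3p0_2, G3p0_3, G3p1_2, G3p1_3, G3p2_3, G3p4_5, G3p4_6, G3p5_6, G3p8_7, G3p9_7, G3p9_8]⟩)) (.node
  59 (.leaf ⟨2453770532, 76747937676819800822915,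
  906413276799302998641220373452750790740185290018498791940680902264375738481, 599065, [G3p1_0,
  G3p1_4, G3p1_5, G3p1_6, G3p2_0, G3p2_1, G3p2_4, G3p2_5, G3p2_6, G3p3_0, G3p3_1, G3p3_2, G3p3_4,
  G3p3_5, G3p3_6, G3p4_5, G3p4_6, G3p5_6, G3p7_0, G3p7_8, G3p7_9, G3p8_0, G3p8_9, G3p9_0]⟩) (.leaf
  ⟨1648464164, 40260277899022207063171,
  1583105322713609092730300507832187254397651637639410402147169831481269813361, 402457, [G3p1_0,
  G3p1_4, G3p1_5, G3p1_6, G3p2_0, G3p2_1, G3p2_4, G3p2_5, G3p2_6, G3p3_0, G3p3_1, G3p3_2, G3p3_4,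
  G3p3_5, G3p3_6, G3p4_5, G3p4_6, G3p5_6, G3p8_7, G3p9_7, G3p9_8]⟩))) (.node 62 (.node 61 (.leaf
  ⟨2453770520, 76740797437526501593257,
  906413276799303092799183140742550857470839299341605130041016589263379038209, 599065, [G3p1_0,
  G3p2_0, G3p2_1, G3p3_0, G3p3_1, G3p3_2, G3p4_0, G3p4_1, G3p4_2, G3p4_3, G3p4_5, G3p4_6, G3p5_0,
  G3p5_1, G3p5_2, G3p5_3, G3p5_6, G3p6_0, G3p6_1, G3p6_2, G3p6_3, G3p7_0, G3p7_8, G3p7_9, G3p8_0,
  G3p8_9, G3p9_0]⟩) (.leaf ⟨1648464152, 40253137659728907833513,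
  1583105322713609186888263275121987321128305646962516740247505518480273113089, 402457, [G3p1_0,
  G3p2_0, G3p2_1, G3p3_0, G3p3_1, G3p3_2, G3p4_0, G3p4_1, G3p4_2, G3p4_3, G3p4_5, G3p4_6, G3p5_0,
  G3p5_1, G3p5_2, G3p5_3, G3p5_6, G3p6_0, G3p6_1, G3p6_2, G3p6_3, G3p8_7, G3p9_7, G3p9_8]⟩)) (.node
  63 (.leaf ⟨2453819672, 76740797544141548523686,
  906413276799303092799183140742394753955918534849750580433894923351299653647, 599077, [G3p1_2,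
  G3p1_3, G3p2_3, G3p4_0, G3p4_1, G3p4_2, G3p4_3, G3p4_5, G3p4_6, G3p5_0, G3p5_1, G3p5_2, G3p5_3,
  G3p5_6, G3p6_0, G3p6_1, G3p6_2, G3p6_3, G3p7_0, G3p7_8, G3p7_9, G3p8_0, G3p8_9, G3p9_0]⟩) (.leaf
  ⟨1648513304, 40253137766343954763942,
  1583105322713609186888263275121831217613384882470662190640383852568193728527, 402469, [G3p1_2,
  G3p1_3, G3p2_3, G3p4_0, G3p4_1, G3p4_2, G3p4_3, G3p4_5, G3p4_6, G3p5_0, G3p5_1, G3p5_2, G3p5_3,
  G3p5_6, G3p6_0, G3p6_1, G3p6_2, G3p6_3, G3p8_7, G3p9_7, G3p9_8]⟩))))))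

def G3T2 : Tr :=
  .node 96 (.node 80 (.node 72 (.node 68 (.node 66 (.node 65 (.leaf ⟨2453819684,
  76747937783438068978816,
  906413276799302998641220373452594687225264525526644242333559236352296353919, 599077, [G3p1_2,
  G3p1_3, G3p1_4, G3p1_5, G3p1_6, G3p2_3, G3p2_4, G3p2_5, G3p2_6, G3p3_4, G3p3_5, G3p3_6, G3p4_5,
  G3p4_6, G3p5_6, G3p7_0, G3p7_8, G3p7_9, G3p8_0, G3p8_9, G3p9_0]⟩) (.leaf ⟨1648513316,
  40260278005637253993600,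
  1583105322713609092730300507832031150882730873147555852540048165569190428799, 402469, [G3p1_2,
  G3p1_3, G3p1_4, G3p1_5, G3p1_6, G3p2_3, G3p2_4, G3p2_5, G3p2_6, G3p3_4, G3p3_5, G3p3_6, G3p4_5,
  G3p4_6, G3p5_6, G3p8_7, G3p9_7, G3p9_8]⟩)) (.node 67 (.leaf ⟨2453737766, 76744367454949708335141,
  917014520950121564358540735522508937848533574566824243153937182110392909830, 599057, [G3p0_1,
  G3p0_2, G3p1_2, G3p3_1, G3p3_2, G3p3_4, G3p3_5, G3p3_6, G3p4_5, G3p4_6, G3p5_6, G3p7_0, G3p7_1,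
  G3p7_2, G3p7_8, G3p7_9, G3p8_0, G3p8_1, G3p8_2, G3p8_9, G3p9_0, G3p9_1, G3p9_2]⟩) (.leaf
  ⟨1648431398, 40256707673747279251490,
  1583105322713609092730300507832164914519414951226141500569811217702846857222, 402449, [G3p0_1,
  G3p0_2, G3p1_2, G3p3_1, G3p3_2, G3p3_4, G3p3_5, G3p3_6, G3p4_5, G3p4_6, G3p5_6, G3p8_7, G3p9_7,
  G3p9_8]⟩))) (.node 70 (.node 69 (.leaf ⟨2454212882, 76740797219610598415557,
  906413276799302998641220373450230768080257137992444448892517051058146508800, 599173, [G3p2_1,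
  G3p3_1, G3p3_2, G3p4_5, G3p4_6, G3p5_6, G3p7_0, G3p7_8, G3p7_9, G3p8_0, G3p8_9, G3p9_0]⟩) (.leaf
  ⟨1648906514, 40253137441809783428227,
  1583105322713609092730300507829667231737723485613356059099005980275040583680, 402565, [G3p2_1,
  G3p3_1, G3p3_2, G3p4_5, G3p4_6, G3p5_6, G3p8_7, G3p9_7, G3p9_8]⟩)) (.node 71 (.leaf ⟨1648759058,
  40253137587082757247074,
  1583105322713609092730300507829667231737723486722567259260181311393102692366, 402529, [G3p0_1,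
  G3p0_2, G3p0_3, G3p2_1, G3p3_1, G3p3_2, G3p4_5, G3p4_6, G3p5_6, G3p8_7, G3p9_7, G3p9_8]⟩) (.leaf
  ⟨2454065426, 76740797473838302600389,
  931149513151212985314967884946385237715622071345375805565127133966568914958, 599137, [G3p0_1,
  G3p0_2, G3p0_3, G3p2_1, G3p3_1, G3p3_2, G3p4_5, G3p4_6, G3p5_6, G3p7_0, G3p7_1, G3p7_2, G3p7_3,
  G3p7_8, G3p7_9, G3p8_0, G3p8_1, G3p8_2, G3p8_3, G3p8_9, G3p9_0, G3p9_1, G3p9_2, G3p9_3]⟩))))
  (.node 76 (.node 74 (.node 73 (.leaf ⟨2453803302, 76745557558639032765509,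
  909947024849575853880327160809232785057777466283336115881288835380938932226, 599073, [G3p0_1,
  G3p2_1, G3p2_3, G3p2_4, G3p2_5, G3p2_6, G3p3_1, G3p3_4, G3p3_5, G3p3_6, G3p4_5, G3p4_6, G3p5_6,
  G3p7_0, G3p7_1, G3p7_8, G3p7_9, G3p8_0, G3p8_1, G3p8_9, G3p9_0, G3p9_1]⟩) (.leaf ⟨1648496934,
  40257897780769498303555,
  1583105322713609092730300507832075753053048823583716275157572800056352964610, 402465, [G3p0_1,
  G3p2_1, G3p2_3, G3p2_4, G3p2_5, G3p2_6, G3p3_1, G3p3_4, G3p3_5, G3p3_6, G3p4_5, G3p4_6, G3p5_6,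
  G3p8_7, G3p9_7, G3p9_8]⟩)) (.node 75 (.leaf ⟨2425639522, 271722882499804689174890,
  920548269000400100461401149511770843387609370908001556913200822025682681864, 592197, [G3p0_3,
  G3p1_3, G3p2_1, G3p2_3, G3p4_0, G3p4_3, G3p4_5, G3p4_6, G3p4_7, G3p4_8, G3p4_9, G3p5_0, G3p5_3,
  G3p5_6, G3p5_7, G3p5_8, G3p5_9, G3p6_0, G3p6_3, G3p6_7, G3p6_8, G3p6_9, G3p7_0, G3p7_3, G3p7_8,
  G3p7_9, G3p8_0, G3p8_3, G3p8_9, G3p9_0, G3p9_3]⟩) (.leaf ⟨1620333154, 235235222616450757923079,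
  1583105322713614773594054134464833324396295757246787363398869893076656586760, 395589, [G3p0_3,
  G3p1_3, G3p2_1, G3p2_3, G3p4_0, G3p4_3, G3p4_5, G3p4_6, G3p4_7, G3p4_8, G3p4_9, G3p5_0, G3p5_3,
  G3p5_6, G3p5_7, G3p5_8, G3p5_9, G3p6_0, G3p6_3, G3p6_7, G3p6_8, G3p6_9, G3p8_7, G3p9_7,
  G3p9_8]⟩))) (.node 78 (.node 77 (.leaf ⟨2456047896, 76739612807133046836357,
  906413276799303117907973043947719441039822278898124970245206731520429195267, 599621, [G3p2_0,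
  G3p2_1, G3p2_3, G3p3_0, G3p3_1, G3p5_0, G3p5_1, G3p5_4, G3p5_6, G3p6_0, G3p6_1, G3p6_4, G3p7_0,
  G3p7_8, G3p7_9, G3p8_0, G3p8_9, G3p9_0]⟩) (.leaf ⟨1650741528, 40251953029335453076613,
  1583105322713609211997053178327155904697288626519036580451695660737323270147, 403013, [G3p2_0,
  G3p2_1, G3p2_3, G3p3_0, G3p3_1, G3p5_0, G3p5_1, G3p5_4, G3p5_6, G3p6_0, G3p6_1, G3p6_4, G3p8_7,
  G3p9_7, G3p9_8]⟩)) (.node 79 (.leaf ⟨2422493576, 76745634119763974333507,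
  1104303167614583193327486137053321439766259431694155771356447517040435200003, 591429, [G3p2_0,
  G3p2_1, G3p2_3, G3p3_0, G3p3_1, G3p5_4, G3p6_4, G3p6_5, G3p7_0, G3p7_4, G3p7_5, G3p7_6, G3p7_8,
  G3p7_9, G3p8_0, G3p8_4, G3p8_5, G3p8_6, G3p8_9, G3p9_0, G3p9_4, G3p9_5, G3p9_6]⟩) (.leaf
  ⟨1617187208, 40257974341966380573763,
  1780995213528889287416566271432757903423725779315067381562936446257329274883, 394821, [G3p2_0,
  G3p2_1, G3p2_3, G3p3_0, G3p3_1, G3p5_4, G3p6_4, G3p6_5, G3p7_4, G3p7_5, G3p7_6, G3p8_4, G3p8_5,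
  G3p8_6, G3p8_7, G3p9_4, G3p9_5, G3p9_6, G3p9_7, G3p9_8]⟩))))) (.node 88 (.node 84 (.node 82 (.node
  81 (.leaf ⟨2425639304, 76749127787174906992707,
  1104303167614582892031200465421897347563982831298322575101904936430606680067, 592197, [G3p2_0,
  G3p2_1, G3p2_3, G3p2_4, G3p2_5, G3p2_6, G3p3_0, G3p3_1, G3p3_4, G3p3_5, G3p3_6, G3p4_5, G3p4_6,
  G3p5_6, G3p7_0, G3p7_4, G3p7_5, G3p7_6, G3p7_8, G3p7_9, G3p8_0, G3p8_4, G3p8_5, G3p8_6, G3p8_9,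
  G3p9_0, G3p9_4, G3p9_5, G3p9_6]⟩) (.leaf ⟨1620332936, 40261468009377313232963,
  1780995213528888986120280599801333811221449178919234185308393865647500754947, 395589, [G3p2_0,
  G3p2_1, G3p2_3, G3p2_4, G3p2_5, G3p2_6, G3p3_0, G3p3_1, G3p3_4, G3p3_5, G3p3_6, G3p4_5, G3p4_6,
  G3p5_6, G3p7_4, G3p7_5, G3p7_6, G3p8_4, G3p8_5, G3p8_6, G3p8_7, G3p9_4, G3p9_5, G3p9_6, G3p9_7,
  G3p9_8]⟩)) (.node 83 (.leaf ⟨2425901444, 76749128043567274694880,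
  1129039403966492878704947976915620994798541528186078184473026480123038007311, 592261, [G3p2_1,
  G3p3_1, G3p3_2, G3p4_5, G3p4_6, G3p5_6, G3p7_0, G3p7_1, G3p7_2, G3p7_3, G3p7_4, G3p7_5, G3p7_6,
  G3p7_8, G3p7_9, G3p8_0, G3p8_1, G3p8_2, G3p8_3, G3p8_4, G3p8_5, G3p8_6, G3p8_9, G3p9_0, G3p9_1,
  G3p9_2, G3p9_3, G3p9_4, G3p9_5, G3p9_6]⟩) (.leaf ⟨1620595076, 40261468265766459709664,
  1805731449880798972794028111295057458456007875806989794679515409339932082191, 395653, [G3p2_1,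
  G3p3_1, G3p3_2, G3p4_5, G3p4_6, G3p5_6, G3p7_1, G3p7_2, G3p7_3, G3p7_4, G3p7_5, G3p7_6, G3p8_1,
  G3p8_2, G3p8_3, G3p8_4, G3p8_5, G3p8_6, G3p8_7, G3p9_1, G3p9_2, G3p9_3, G3p9_4, G3p9_5, G3p9_6,
  G3p9_7, G3p9_8]⟩))) (.node 86 (.node 85 (.leaf ⟨2422755908, 310716995640931013233792,
  906413276799309018464444778636371591585895672924595972960466974139338326031, 591493, [G3p2_1,
  G3p3_1, G3p3_2, G3p4_0, G3p4_1, G3p4_2, G3p4_3, G3p4_7, G3p4_8, G3p4_9, G3p5_0, G3p5_1, G3p5_2,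
  G3p5_3, G3p5_4, G3p5_7, G3p5_8, G3p5_9, G3p6_0, G3p6_1, G3p6_2, G3p6_3, G3p6_4, G3p6_5, G3p6_7,
  G3p6_8, G3p6_9, G3p7_0, G3p7_8, G3p7_9, G3p8_0, G3p8_9, G3p9_0]⟩) (.leaf ⟨1617449540,
  274229335863130198248576,
  1583105322713615112553524913015808055243362020545507583166955903356232400911, 394885, [G3p2_1,
  G3p3_1, G3p3_2, G3p4_0, G3p4_1, G3p4_2, G3p4_3, G3p4_7, G3p4_8, G3p4_9, G3p5_0, G3p5_1, G3p5_2,
  G3p5_3, G3p5_4, G3p5_7, G3p5_8, G3p5_9, G3p6_0, G3p6_1, G3p6_2, G3p6_3, G3p6_4, G3p6_5, G3p6_7,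
  G3p6_8, G3p6_9, G3p8_7, G3p9_7, G3p9_8]⟩)) (.node 87 (.leaf ⟨2422493768, 310716995493493375896643,
  906413276799308930583679529183475195918969249431622799735356792242889228291, 591429, [G3p2_0,
  G3p2_1, G3p2_3, G3p2_7, G3p2_8, G3p2_9, G3p3_0, G3p3_1, G3p3_7, G3p3_8, G3p3_9, G3p4_0, G3p4_7,
  G3p4_8, G3p4_9, G3p5_0, G3p5_4, G3p5_7, G3p5_8, G3p5_9, G3p6_0, G3p6_4, G3p6_5, G3p6_7, G3p6_8,
  G3p6_9, G3p7_0, G3p7_8, G3p7_9, G3p8_0, G3p8_9, G3p9_0]⟩) (.leaf ⟨1617187400,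
  274229335715692560911427,
  1583105322713615024672759663562911659576435597052534409941845721459783303171, 394821, [G3p2_0,
  G3p2_1, G3p2_3, G3p2_7, G3p2_8, G3p2_9, G3p3_0, G3p3_1, G3p3_7, G3p3_8, G3p3_9, G3p4_0, G3p4_7,
  G3p4_8, G3p4_9, G3p5_0, G3p5_4, G3p5_7, G3p5_8, G3p5_9, G3p6_0, G3p6_4, G3p6_5, G3p6_7, G3p6_8,
  G3p6_9, G3p8_7, G3p9_7, G3p9_8]⟩)))) (.node 92 (.node 90 (.node 89 (.leaf ⟨2422755716,
  76745634485111072400704,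
  1129039403966493267881998898022354077659434986926545293068666603991032791055, 591493, [G3p2_1,
  G3p3_1, G3p3_2, G3p4_1, G3p4_2, G3p4_3, G3p5_1, G3p5_2, G3p5_3, G3p5_4, G3p6_1, G3p6_2, G3p6_3,
  G3p6_4, G3p6_5, G3p7_0, G3p7_1, G3p7_2, G3p7_3, G3p7_4, G3p7_5, G3p7_6, G3p7_8, G3p7_9, G3p8_0,
  G3p8_1, G3p8_2, G3p8_3, G3p8_4, G3p8_5, G3p8_6, G3p8_9, G3p9_0, G3p9_1, G3p9_2, G3p9_3, G3p9_4,
  G3p9_5, G3p9_6]⟩) (.leaf ⟨1617449348, 40257974707310257415488,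
  1805731449880799361971079032401790541316901334547456903275155533207926865935, 394885, [G3p2_1,
  G3p3_1, G3p3_2, G3p4_1, G3p4_2, G3p4_3, G3p5_1, G3p5_2, G3p5_3, G3p5_4, G3p6_1, G3p6_2, G3p6_3,
  G3p6_4, G3p6_5, G3p7_1, G3p7_2, G3p7_3, G3p7_4, G3p7_5, G3p7_6, G3p8_1, G3p8_2, G3p8_3, G3p8_4,
  G3p8_5, G3p8_6, G3p8_7, G3p9_1, G3p9_2, G3p9_3, G3p9_4, G3p9_5, G3p9_6, G3p9_7, G3p9_8]⟩)) (.node
  91 (.leaf ⟨1617187218, 40257974447413196394594,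
  1780995213528889287416566271432691038960096000800225571276401014398304911480, 394821, [G3p0_3,
  G3p0_4, G3p0_5, G3p0_6, G3p1_3, G3p1_4, G3p1_5, G3p1_6, G3p2_1, G3p2_3, G3p2_4, G3p2_5, G3p2_6,
  G3p5_4, G3p6_4, G3p6_5, G3p7_4, G3p7_5, G3p7_6, G3p8_4, G3p8_5, G3p8_6, G3p8_7, G3p9_4, G3p9_5,
  G3p9_6, G3p9_7, G3p9_8]⟩) (.leaf ⟨2422493586, 76749204559371725708485,
  1118438159815674614283913286479628557951409614461439764790731943347331006584, 591429, [G3p0_3,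
  G3p0_4, G3p0_5, G3p0_6, G3p1_3, G3p1_4, G3p1_5, G3p1_6, G3p2_1, G3p2_3, G3p2_4, G3p2_5, G3p2_6,
  G3p5_4, G3p6_4, G3p6_5, G3p7_0, G3p7_3, G3p7_4, G3p7_5, G3p7_6, G3p7_8, G3p7_9, G3p8_0, G3p8_3,
  G3p8_4, G3p8_5, G3p8_6, G3p8_9, G3p9_0, G3p9_3, G3p9_4, G3p9_5, G3p9_6]⟩))) (.node 94 (.node 93
  (.leaf ⟨2422805062, 310716995965458742119563,
  931149513151219005138192290132392258791825931626611314293489535106891513870, 591505, [G3p0_1,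
  G3p0_2, G3p0_3, G3p1_2, G3p1_3, G3p2_3, G3p4_0, G3p4_1, G3p4_2, G3p4_3, G3p4_7, G3p4_8, G3p4_9,
  G3p5_0, G3p5_1, G3p5_2, G3p5_3, G3p5_4, G3p5_7, G3p5_8, G3p5_9, G3p6_0, G3p6_1, G3p6_2, G3p6_3,
  G3p6_4, G3p6_5, G3p6_7, G3p6_8, G3p6_9, G3p7_0, G3p7_1, G3p7_2, G3p7_3, G3p7_8, G3p7_9, G3p8_0,
  G3p8_1, G3p8_2, G3p8_3, G3p8_9, G3p9_0, G3p9_1, G3p9_2, G3p9_3]⟩) (.leaf ⟨1617498694,
  274229336078703196769416,
  1583105322713615112553524913015674252813927347003802767988543712533425291278, 394897, [G3p0_1,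
  G3p0_2, G3p0_3, G3p1_2, G3p1_3, G3p2_3, G3p4_0, G3p4_1, G3p4_2, G3p4_3, G3p4_7, G3p4_8, G3p4_9,
  G3p5_0, G3p5_1, G3p5_2, G3p5_3, G3p5_4, G3p5_7, G3p5_8, G3p5_9, G3p6_0, G3p6_1, G3p6_2, G3p6_3,
  G3p6_4, G3p6_5, G3p6_7, G3p6_8, G3p6_9, G3p8_7, G3p9_7, G3p9_8]⟩)) (.node 95 (.leaf ⟨2422804870,
  76745634591729340556619,
  1129039403966493267881998898022220275230000313384823552670521450678172123150, 591505, [G3p0_1,
  G3p0_2, G3p0_3, G3p1_2, G3p1_3, G3p2_3, G3p4_1, G3p4_2, G3p4_3, G3p5_1, G3p5_2, G3p5_3, G3p5_4,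
  G3p6_1, G3p6_2, G3p6_3, G3p6_4, G3p6_5, G3p7_0, G3p7_1, G3p7_2, G3p7_3, G3p7_4, G3p7_5, G3p7_6,
  G3p7_8, G3p7_9, G3p8_0, G3p8_1, G3p8_2, G3p8_3, G3p8_4, G3p8_5, G3p8_6, G3p8_9, G3p9_0, G3p9_1,
  G3p9_2, G3p9_3, G3p9_4, G3p9_5, G3p9_6]⟩) (.leaf ⟨1617498502, 40257974813928525571403,
  1805731449880799361971079032401656738887466661005735162877010379895066198030, 394897, [G3p0_1,
  G3p0_2, G3p0_3, G3p1_2, G3p1_3, G3p2_3, G3p4_1, G3p4_2, G3p4_3, G3p5_1, G3p5_2, G3p5_3, G3p5_4,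
  G3p6_1, G3p6_2, G3p6_3, G3p6_4, G3p6_5, G3p7_1, G3p7_2, G3p7_3, G3p7_4, G3p7_5, G3p7_6, G3p8_1,
  G3p8_2, G3p8_3, G3p8_4, G3p8_5, G3p8_6, G3p8_7, G3p9_1, G3p9_2, G3p9_3, G3p9_4, G3p9_5, G3p9_6,
  G3p9_7, G3p9_8]⟩)))))) (.node 112 (.node 104 (.node 100 (.node 98 (.node 97 (.leaf ⟨1620644230,
  40261468372384727865576,
  1805731449880798972794028111294923656026573202265268054281370256027071414286, 395665, [G3p0_1,
  G3p0_2, G3p0_3, G3p1_2, G3p1_3, G3p2_3, G3p4_5, G3p4_6, G3p5_6, G3p7_1, G3p7_2, G3p7_3, G3p7_4,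
  G3p7_5, G3p7_6, G3p8_1, G3p8_2, G3p8_3, G3p8_4, G3p8_5, G3p8_6, G3p8_7, G3p9_1, G3p9_2, G3p9_3,
  G3p9_4, G3p9_5, G3p9_6, G3p9_7, G3p9_8]⟩) (.leaf ⟨2425950598, 76749128150185542850792,
  1129039403966492878704947976915487192369106854644356444074881326810177339406, 592273, [G3p0_1,
  G3p0_2, G3p0_3, G3p1_2, G3p1_3, G3p2_3, G3p4_5, G3p4_6, G3p5_6, G3p7_0, G3p7_1, G3p7_2, G3p7_3,
  G3p7_4, G3p7_5, G3p7_6, G3p7_8, G3p7_9, G3p8_0, G3p8_1, G3p8_2, G3p8_3, G3p8_4, G3p8_5, G3p8_6,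
  G3p8_9, G3p9_0, G3p9_1, G3p9_2, G3p9_3, G3p9_4, G3p9_5, G3p9_6]⟩)) (.node 99 (.leaf ⟨2425950790,
  310720489632869674778667,
  931149513151218703841906618498470445015688806293818209694454305650346164238, 592273, [G3p0_1,
  G3p0_2, G3p0_3, G3p1_2, G3p1_3, G3p2_3, G3p4_0, G3p4_1, G3p4_2, G3p4_3, G3p4_5, G3p4_6, G3p4_7,
  G3p4_8, G3p4_9, G3p5_0, G3p5_1, G3p5_2, G3p5_3, G3p5_6, G3p5_7, G3p5_8, G3p5_9, G3p6_0, G3p6_1,
  G3p6_2, G3p6_3, G3p6_7, G3p6_8, G3p6_9, G3p7_0, G3p7_1, G3p7_2, G3p7_3, G3p7_8, G3p7_9, G3p8_0,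
  G3p8_1, G3p8_2, G3p8_3, G3p8_9, G3p9_0, G3p9_1, G3p9_2, G3p9_3]⟩) (.leaf ⟨1620644422,
  274232829746114129428520,
  1583105322713614811257239241381752439037790221671009663389508483076879941646, 395665, [G3p0_1,
  G3p0_2, G3p0_3, G3p1_2, G3p1_3, G3p2_3, G3p4_0, G3p4_1, G3p4_2, G3p4_3, G3p4_5, G3p4_6, G3p4_7,
  G3p4_8, G3p4_9, G3p5_0, G3p5_1, G3p5_2, G3p5_3, G3p5_6, G3p5_7, G3p5_8, G3p5_9, G3p6_0, G3p6_1,
  G3p6_2, G3p6_3, G3p6_7, G3p6_8, G3p6_9, G3p8_7, G3p9_7, G3p9_8]⟩))) (.node 102 (.node 101 (.leaf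
  ⟨1617498514, 40261544715668932533442,
  1780995213528889287416566271435188721741787466413011012747206251345066590334, 394897, [G3p0_1,
  G3p0_2, G3p0_3, G3p0_4, G3p0_5, G3p0_6, G3p1_2, G3p1_3, G3p1_4, G3p1_5, G3p1_6, G3p2_3, G3p2_4,
  G3p2_5, G3p2_6, G3p3_4, G3p3_5, G3p3_6, G3p5_4, G3p6_4, G3p6_5, G3p7_4, G3p7_5, G3p7_6, G3p8_4,
  G3p8_5, G3p8_6, G3p8_7, G3p9_4, G3p9_5, G3p9_6, G3p9_7, G3p9_8]⟩) (.leaf ⟨2422804882,
  76752774831029075945765,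
  1129039403966493180001233648551906727719686051035819559052152073918532812926, 591505, [G3p0_1,
  G3p0_2, G3p0_3, G3p0_4, G3p0_5, G3p0_6, G3p1_2, G3p1_3, G3p1_4, G3p1_5, G3p1_6, G3p2_3, G3p2_4,
  G3p2_5, G3p2_6, G3p3_4, G3p3_5, G3p3_6, G3p5_4, G3p6_4, G3p6_5, G3p7_0, G3p7_1, G3p7_2, G3p7_3,
  G3p7_4, G3p7_5, G3p7_6, G3p7_8, G3p7_9, G3p8_0, G3p8_1, G3p8_2, G3p8_3, G3p8_4, G3p8_5, G3p8_6,
  G3p8_9, G3p9_0, G3p9_1, G3p9_2, G3p9_3, G3p9_4, G3p9_5, G3p9_6]⟩)) (.node 103 (.leaf ⟨2425508228,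
  76749127859639595210976,
  1104303167614582892031200465419332722733741921291425087144012886160017719311, 592165, [G3p1_2,
  G3p1_3, G3p2_3, G3p4_5, G3p4_6, G3p5_6, G3p7_0, G3p7_4, G3p7_5, G3p7_6, G3p7_8, G3p7_9, G3p8_0,
  G3p8_4, G3p8_5, G3p8_6, G3p8_9, G3p9_0, G3p9_4, G3p9_5, G3p9_6]⟩) (.leaf ⟨1620201860,
  40261468081838780225760,
  1780995213528888986120280599798769186391208268912336697350501815376911794191, 395557, [G3p1_2,
  G3p1_3, G3p2_3, G3p4_5, G3p4_6, G3p5_6, G3p7_4, G3p7_5, G3p7_6, G3p8_4, G3p8_5, G3p8_6, G3p8_7,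
  G3p9_4, G3p9_5, G3p9_6, G3p9_7, G3p9_8]⟩)))) (.node 108 (.node 106 (.node 105 (.leaf ⟨2425508420,
  310720489233368996774016,
  906413276799308629287393857529504706295567539533212848766980970588737110031, 592165, [G3p1_2,
  G3p1_3, G3p2_3, G3p4_0, G3p4_5, G3p4_6, G3p4_7, G3p4_8, G3p4_9, G3p5_0, G3p5_6, G3p5_7, G3p5_8,
  G3p5_9, G3p6_0, G3p6_7, G3p6_8, G3p6_9, G3p7_0, G3p7_8, G3p7_9, G3p8_0, G3p8_9, G3p9_0]⟩) (.leaf
  ⟨1620202052, 274232829455568181788800,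
  1583105322713614723376473991908941169953033887154124458973469899805631184911, 395557, [G3p1_2,
  G3p1_3, G3p2_3, G3p4_0, G3p4_5, G3p4_6, G3p4_7, G3p4_8, G3p4_9, G3p5_0, G3p5_6, G3p5_7, G3p5_8,
  G3p5_9, G3p6_0, G3p6_7, G3p6_8, G3p6_9, G3p8_7, G3p9_7, G3p9_8]⟩)) (.node 107 (.leaf ⟨2425459076,
  76749127753021327055075,
  1104303167614582892031200465419488826248662685783279636751134552072097103873, 592153, [G3p1_0,
  G3p2_0, G3p2_1, G3p3_0, G3p3_1, G3p3_2, G3p4_5, G3p4_6, G3p5_6, G3p7_0, G3p7_4, G3p7_5, G3p7_6,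
  G3p7_8, G3p7_9, G3p8_0, G3p8_4, G3p8_5, G3p8_6, G3p8_9, G3p9_0, G3p9_4, G3p9_5, G3p9_6]⟩) (.leaf
  ⟨1620152708, 40261467975223733295331,
  1780995213528888986120280599798925289906129033404191246957623481288991178753, 395545, [G3p1_0,
  G3p2_0, G3p2_1, G3p3_0, G3p3_1, G3p3_2, G3p4_5, G3p4_6, G3p5_6, G3p7_4, G3p7_5, G3p7_6, G3p8_4,
  G3p8_5, G3p8_6, G3p8_7, G3p9_4, G3p9_5, G3p9_6, G3p9_7, G3p9_8]⟩))) (.node 110 (.node 109 (.leaf
  ⟨2425459268, 310720489126750728618115,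
  906413276799308629287393857529660809810488304025067398374102636500816494593, 592153, [G3p1_0,
  G3p2_0, G3p2_1, G3p3_0, G3p3_1, G3p3_2, G3p4_0, G3p4_5, G3p4_6, G3p4_7, G3p4_8, G3p4_9, G3p5_0,
  G3p5_6, G3p5_7, G3p5_8, G3p5_9, G3p6_0, G3p6_7, G3p6_8, G3p6_9, G3p7_0, G3p7_8, G3p7_9, G3p8_0,
  G3p8_9, G3p9_0]⟩) (.leaf ⟨1620152900, 274232829348949913632899,
  1583105322713614723376473991909097273467954651645979008580591565717710569473, 395545, [G3p1_0,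
  G3p2_0, G3p2_1, G3p3_0, G3p3_1, G3p3_2, G3p4_0, G3p4_5, G3p4_6, G3p4_7, G3p4_8, G3p4_9, G3p5_0,
  G3p5_6, G3p5_7, G3p5_8, G3p5_9, G3p6_0, G3p6_7, G3p6_8, G3p6_9, G3p8_7, G3p9_7, G3p9_8]⟩)) (.node
  111 (.leaf ⟨2422313540, 310716995459339795958915,
  906413276799308930583679529163582623586625429357860502973137865957361844225, 591385, [G3p1_0,
  G3p2_0, G3p2_1, G3p3_0, G3p3_1, G3p3_2, G3p4_0, G3p4_7, G3p4_8, G3p4_9, G3p5_0, G3p5_4, G3p5_7,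
  G3p5_8, G3p5_9, G3p6_0, G3p6_4, G3p6_5, G3p6_7, G3p6_8, G3p6_9, G3p7_0, G3p7_8, G3p7_9, G3p8_0,
  G3p8_9, G3p9_0]⟩) (.leaf ⟨1617007172, 274229335681538980973699,
  1583105322713615024672759663543019087244091776978772113179626795174255919105, 394777, [G3p1_0,
  G3p2_0, G3p2_1, G3p3_0, G3p3_1, G3p3_2, G3p4_0, G3p4_7, G3p4_8, G3p4_9, G3p5_0, G3p5_4, G3p5_7,
  G3p5_8, G3p5_9, G3p6_0, G3p6_4, G3p6_5, G3p6_7, G3p6_8, G3p6_9, G3p8_7, G3p9_7, G3p9_8]⟩)))))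
  (.node 120 (.node 116 (.node 114 (.node 113 (.leaf ⟨2422313348, 76745634085610394395971,
  1104303167614583193327486137053410640024799811116072741350169781528642453505, 591385, [G3p1_0,
  G3p2_0, G3p2_1, G3p3_0, G3p3_1, G3p3_2, G3p5_4, G3p6_4, G3p6_5, G3p7_0, G3p7_4, G3p7_5, G3p7_6,
  G3p7_8, G3p7_9, G3p8_0, G3p8_4, G3p8_5, G3p8_6, G3p8_9, G3p9_0, G3p9_4, G3p9_5, G3p9_6]⟩) (.leaf
  ⟨1617006980, 40257974307812800636227,
  1780995213528889287416566271432847103682266158736984351556658710745536528385, 394777, [G3p1_0,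
  G3p2_0, G3p2_1, G3p3_0, G3p3_1, G3p3_2, G3p5_4, G3p6_4, G3p6_5, G3p7_4, G3p7_5, G3p7_6, G3p8_4,
  G3p8_5, G3p8_6, G3p8_7, G3p9_4, G3p9_5, G3p9_6, G3p9_7, G3p9_8]⟩)) (.node 115 (.leaf ⟨2422362692,
  310716995565958064114816,
  906413276799308930583679529163426520071704664866005953366016200045282459663, 591397, [G3p1_2,
  G3p1_3, G3p2_3, G3p4_0, G3p4_7, G3p4_8, G3p4_9, G3p5_0, G3p5_4, G3p5_7, G3p5_8, G3p5_9, G3p6_0,
  G3p6_4, G3p6_5, G3p6_7, G3p6_8, G3p6_9, G3p7_0, G3p7_8, G3p7_9, G3p8_0, G3p8_9, G3p9_0]⟩) (.leaf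
  ⟨1617056324, 274229335788157249129600,
  1583105322713615024672759663542862983729171012486917563572505129262176534543, 394789, [G3p1_2,
  G3p1_3, G3p2_3, G3p4_0, G3p4_7, G3p4_8, G3p4_9, G3p5_0, G3p5_4, G3p5_7, G3p5_8, G3p5_9, G3p6_0,
  G3p6_4, G3p6_5, G3p6_7, G3p6_8, G3p6_9, G3p8_7, G3p9_7, G3p9_8]⟩))) (.node 118 (.node 117 (.leaf
  ⟨2422362500, 76745634192228662551872,
  1104303167614583193327486137053254536509879046624218191743048115616563068943, 591397, [G3p1_2,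
  G3p1_3, G3p2_3, G3p5_4, G3p6_4, G3p6_5, G3p7_0, G3p7_4, G3p7_5, G3p7_6, G3p7_8, G3p7_9, G3p8_0,
  G3p8_4, G3p8_5, G3p8_6, G3p8_9, G3p9_0, G3p9_4, G3p9_5, G3p9_6]⟩) (.leaf ⟨1617056132,
  40257974414427847566656,
  1780995213528889287416566271432691000167345394245129801949537044833457143823, 394789, [G3p1_2,
  G3p1_3, G3p2_3, G3p5_4, G3p6_4, G3p6_5, G3p7_4, G3p7_5, G3p7_6, G3p8_4, G3p8_5, G3p8_6, G3p8_7,
  G3p9_4, G3p9_5, G3p9_6, G3p9_7, G3p9_8]⟩)) (.node 119 (.leaf ⟨2425426310, 76749127763157449873640,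
  1114904411765401457748520827489247011469217602724868896667424433182913986566, 592145, [G3p0_1,
  G3p0_2, G3p1_2, G3p3_1, G3p3_2, G3p4_5, G3p4_6, G3p5_6, G3p7_0, G3p7_1, G3p7_2, G3p7_4, G3p7_5,
  G3p7_6, G3p7_8, G3p7_9, G3p8_0, G3p8_1, G3p8_2, G3p8_4, G3p8_5, G3p8_6, G3p8_9, G3p9_0, G3p9_1,
  G3p9_2, G3p9_4, G3p9_5, G3p9_6]⟩) (.leaf ⟨1620119942, 40261467985356634888424,
  1791596457679707551837600961868683475126683950345780506873913362399808061446, 395537, [G3p0_1,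
  G3p0_2, G3p1_2, G3p3_1, G3p3_2, G3p4_5, G3p4_6, G3p5_6, G3p7_1, G3p7_2, G3p7_4, G3p7_5, G3p7_6,
  G3p8_1, G3p8_2, G3p8_4, G3p8_5, G3p8_6, G3p8_7, G3p9_1, G3p9_2, G3p9_4, G3p9_5, G3p9_6, G3p9_7,
  G3p9_8]⟩)))) (.node 124 (.node 122 (.node 121 (.leaf ⟨2422280774, 310716995472877532875915,
  917014520950127533964184998150259924129218774902738621745115558958799912966, 591377, [G3p0_1,
  G3p0_2, G3p1_2, G3p3_1, G3p3_2, G3p4_0, G3p4_1, G3p4_2, G3p4_7, G3p4_8, G3p4_9, G3p5_0, G3p5_1,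
  G3p5_2, G3p5_4, G3p5_7, G3p5_8, G3p5_9, G3p6_0, G3p6_1, G3p6_2, G3p6_4, G3p6_5, G3p6_7, G3p6_8,
  G3p6_9, G3p7_0, G3p7_1, G3p7_2, G3p7_8, G3p7_9, G3p8_0, G3p8_1, G3p8_2, G3p8_9, G3p9_0, G3p9_1,
  G3p9_2]⟩) (.leaf ⟨1616974406, 274229335691675103792264,
  1583105322713615062335944770459915900800100151562055879160989594551253860358, 394769, [G3p0_1,
  G3p0_2, G3p1_2, G3p3_1, G3p3_2, G3p4_0, G3p4_1, G3p4_2, G3p4_7, G3p4_8, G3p4_9, G3p5_0, G3p5_1,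
  G3p5_2, G3p5_4, G3p5_7, G3p5_8, G3p5_9, G3p6_0, G3p6_1, G3p6_2, G3p6_4, G3p6_5, G3p6_7, G3p6_8,
  G3p6_9, G3p8_7, G3p9_7, G3p9_8]⟩)) (.node 123 (.leaf ⟨2425426502, 310720489140288465535019,
  917014520950127232667899326516338110353081649569945517146080329502254563334, 592145, [G3p0_1,
  G3p0_2, G3p1_2, G3p3_1, G3p3_2, G3p4_0, G3p4_1, G3p4_2, G3p4_5, G3p4_6, G3p4_7, G3p4_8, G3p4_9,
  G3p5_0, G3p5_1, G3p5_2, G3p5_6, G3p5_7, G3p5_8, G3p5_9, G3p6_0, G3p6_1, G3p6_2, G3p6_7, G3p6_8,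
  G3p6_9, G3p7_0, G3p7_1, G3p7_2, G3p7_8, G3p7_9, G3p8_0, G3p8_1, G3p8_2, G3p8_9, G3p9_0, G3p9_1,
  G3p9_2]⟩) (.leaf ⟨1620120134, 274232829359086036451368,
  1583105322713614761039659098825994087023963026229262774561954365094708510726, 395537, [G3p0_1,
  G3p0_2, G3p1_2, G3p3_1, G3p3_2, G3p4_0, G3p4_1, G3p4_2, G3p4_5, G3p4_6, G3p4_7, G3p4_8, G3p4_9,
  G3p5_0, G3p5_1, G3p5_2, G3p5_6, G3p5_7, G3p5_8, G3p5_9, G3p6_0, G3p6_1, G3p6_2, G3p6_7, G3p6_8,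
  G3p6_9, G3p8_7, G3p9_7, G3p9_8]⟩))) (.node 126 (.node 125 (.leaf ⟨2422280582,
  76745634099148131312971,
  1114904411765401796707991606040087940567393156660950860122147474530080522246, 591377, [G3p0_1,
  G3p0_2, G3p1_2, G3p3_1, G3p3_2, G3p4_1, G3p4_2, G3p5_1, G3p5_2, G3p5_4, G3p6_1, G3p6_2, G3p6_4,
  G3p6_5, G3p7_0, G3p7_1, G3p7_2, G3p7_4, G3p7_5, G3p7_6, G3p7_8, G3p7_9, G3p8_0, G3p8_1, G3p8_2,
  G3p8_4, G3p8_5, G3p8_6, G3p8_9, G3p9_0, G3p9_1, G3p9_2, G3p9_4, G3p9_5, G3p9_6]⟩) (.leaf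
  ⟨1616974214, 40257974321347316327755,
  1791596457679707890797071740419524404224859504281862470328636403746974597126, 394769, [G3p0_1,
  G3p0_2, G3p1_2, G3p3_1, G3p3_2, G3p4_1, G3p4_2, G3p5_1, G3p5_2, G3p5_4, G3p6_1, G3p6_2, G3p6_4,
  G3p6_5, G3p7_1, G3p7_2, G3p7_4, G3p7_5, G3p7_6, G3p8_1, G3p8_2, G3p8_4, G3p8_5, G3p8_6, G3p8_7,
  G3p9_1, G3p9_2, G3p9_4, G3p9_5, G3p9_6, G3p9_7, G3p9_8]⟩)) (.node 127 (.leaf ⟨2425901636,
  310720489199387215527968,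
  906413276799308629287393857529638508725002214184128864364826850271343542287, 592261, [G3p2_1,
  G3p3_1, G3p3_2, G3p4_0, G3p4_5, G3p4_6, G3p4_7, G3p4_8, G3p4_9, G3p5_0, G3p5_6, G3p5_7, G3p5_8,
  G3p5_9, G3p6_0, G3p6_7, G3p6_8, G3p6_9, G3p7_0, G3p7_8, G3p7_9, G3p8_0, G3p8_9, G3p9_0]⟩) (.leaf
  ⟨1620595268, 274232829421586400542752,
  1583105322713614723376473991909074972382468561805040474571315779488237617167, 395653, [G3p2_1,
  G3p3_1, G3p3_2, G3p4_0, G3p4_5, G3p4_6, G3p4_7, G3p4_8, G3p4_9, G3p5_0, G3p5_6, G3p5_7, G3p5_8,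
  G3p5_9, G3p6_0, G3p6_7, G3p6_8, G3p6_9, G3p8_7, G3p9_7, G3p9_8]⟩))))))

def G3T3 : Tr :=
  .node 160 (.node 144 (.node 136 (.node 132 (.node 130 (.node 129 (.leaf ⟨1617449362,
  40259164384011112092803,
  1780995213528889287416566271435322524171222139954715828183876799849481371760, 394885, [G3p0_4,
  G3p0_5, G3p0_6, G3p1_4, G3p1_5, G3p1_6, G3p2_1, G3p2_4, G3p2_5, G3p2_6, G3p3_1, G3p3_2, G3p3_4,
  G3p3_5, G3p3_6, G3p5_4, G3p6_4, G3p6_5, G3p7_4, G3p7_5, G3p7_6, G3p8_4, G3p8_5, G3p8_6, G3p8_7,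
  G3p9_4, G3p9_5, G3p9_6, G3p9_7, G3p9_8]⟩) (.leaf ⟨2422755730, 76749204314214992452805,
  1104303167614583193327486137055886060513755792333804217977387870632587296880, 591493, [G3p0_4,
  G3p0_5, G3p0_6, G3p1_4, G3p1_5, G3p1_6, G3p2_1, G3p2_4, G3p2_5, G3p2_6, G3p3_1, G3p3_2, G3p3_4,
  G3p3_5, G3p3_6, G3p5_4, G3p6_4, G3p6_5, G3p7_0, G3p7_4, G3p7_5, G3p7_6, G3p7_8, G3p7_9, G3p8_0,
  G3p8_4, G3p8_5, G3p8_6, G3p8_9, G3p9_0, G3p9_4, G3p9_5, G3p9_6]⟩)) (.node 131 (.leaf ⟨2425491846,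
  76749127787346705684712,
  1107836915664855747270307252775970820566836399296272861423031951883495407618, 592161, [G3p0_1,
  G3p2_1, G3p2_3, G3p3_1, G3p4_5, G3p4_6, G3p5_6, G3p7_0, G3p7_1, G3p7_4, G3p7_5, G3p7_6, G3p7_8,
  G3p7_9, G3p8_0, G3p8_1, G3p8_4, G3p8_5, G3p8_6, G3p8_9, G3p9_0, G3p9_1, G3p9_4, G3p9_5, G3p9_6]⟩)
  (.leaf ⟨2422346310, 310716995493768253803659,
  909947024849581798377181352159037656345478619071950013930264536398967209986, 591393, [G3p0_1,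
  G3p2_1, G3p2_3, G3p3_1, G3p4_0, G3p4_1, G3p4_7, G3p4_8, G3p4_9, G3p5_0, G3p5_1, G3p5_4, G3p5_7,
  G3p5_8, G3p5_9, G3p6_0, G3p6_1, G3p6_4, G3p6_5, G3p6_7, G3p6_8, G3p6_9, G3p7_0, G3p7_1, G3p7_8,
  G3p7_9, G3p8_0, G3p8_1, G3p8_9, G3p9_0, G3p9_1]⟩))) (.node 134 (.node 133 (.leaf ⟨1617039942,
  274229335715864359603336,
  1583105322713615037227154699181880624340749976372330173206548501074381242370, 394785, [G3p0_1,
  G3p2_1, G3p2_3, G3p3_1, G3p4_0, G3p4_1, G3p4_7, G3p4_8, G3p4_9, G3p5_0, G3p5_1, G3p5_4, G3p5_7,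
  G3p5_8, G3p5_9, G3p6_0, G3p6_1, G3p6_4, G3p6_5, G3p6_7, G3p6_8, G3p6_9, G3p8_7, G3p9_7, G3p9_8]⟩)
  (.leaf ⟨1620185478, 40261468009545890699496,
  1784528961579161841359387387155407284224302746917184471629520881100389482498, 395553, [G3p0_1,
  G3p2_1, G3p2_3, G3p3_1, G3p4_5, G3p4_6, G3p5_6, G3p7_1, G3p7_4, G3p7_5, G3p7_6, G3p8_1, G3p8_4,
  G3p8_5, G3p8_6, G3p8_7, G3p9_1, G3p9_4, G3p9_5, G3p9_6, G3p9_7, G3p9_8]⟩)) (.node 135 (.leaf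
  ⟨2422346118, 76745634120038852240715,
  1107836915664856061120987960048865672783653000830162252307296451970247819266, 591393, [G3p0_1,
  G3p2_1, G3p2_3, G3p3_1, G3p4_1, G3p5_1, G3p5_4, G3p6_1, G3p6_4, G3p6_5, G3p7_0, G3p7_1, G3p7_4,
  G3p7_5, G3p7_6, G3p7_8, G3p7_9, G3p8_0, G3p8_1, G3p8_4, G3p8_5, G3p8_6, G3p8_9, G3p9_0, G3p9_1,
  G3p9_4, G3p9_5, G3p9_6]⟩) (.leaf ⟨1617039750, 40257974342238037255499,
  1784528961579162155210068094428302136441119348451073862513785381187141894146, 394785, [G3p0_1,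
  G3p2_1, G3p2_3, G3p3_1, G3p4_1, G3p5_1, G3p5_4, G3p6_1, G3p6_4, G3p6_5, G3p7_1, G3p7_4, G3p7_5,
  G3p7_6, G3p8_1, G3p8_4, G3p8_5, G3p8_6, G3p8_7, G3p9_1, G3p9_4, G3p9_5, G3p9_6, G3p9_7,
  G3p9_8]⟩)))) (.node 140 (.node 138 (.node 137 (.leaf ⟨2425492038, 310720489161179186462795,
  909947024849581497080895680525115842569341493739156909331229306942421860354, 592161, [G3p0_1,
  G3p2_1, G3p2_3, G3p3_1, G3p4_0, G3p4_1, G3p4_5, G3p4_6, G3p4_7, G3p4_8, G3p4_9, G3p5_0, G3p5_1,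
  G3p5_6, G3p5_7, G3p5_8, G3p5_9, G3p6_0, G3p6_1, G3p6_7, G3p6_8, G3p6_9, G3p7_0, G3p7_1, G3p7_8,
  G3p7_9, G3p8_0, G3p8_1, G3p8_9, G3p9_0, G3p9_1]⟩) (.leaf ⟨1620185670, 274232829383275292262472,
  1583105322713614735930869027547958810564612851039537068607513271617835892738, 395553, [G3p0_1,
  G3p2_1, G3p2_3, G3p3_1, G3p4_0, G3p4_1, G3p4_5, G3p4_6, G3p4_7, G3p4_8, G3p4_9, G3p5_0, G3p5_1,
  G3p5_6, G3p5_7, G3p5_8, G3p5_9, G3p6_0, G3p6_1, G3p6_7, G3p6_8, G3p6_9, G3p8_7, G3p9_7, G3p9_8]⟩))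
  (.node 139 (.leaf ⟨2420396642, 193727854106871307733288,
  920548269000400401669471270683670539876246553673596027815119732618501292040, 590917, [G3p0_3,
  G3p1_3, G3p2_1, G3p2_3, G3p4_5, G3p6_0, G3p6_3, G3p6_4, G3p6_5, G3p6_7, G3p6_8, G3p6_9, G3p7_0,
  G3p7_3, G3p7_8, G3p7_9, G3p8_0, G3p8_3, G3p8_9, G3p9_0, G3p9_3]⟩) (.leaf ⟨1615090274,
  157240194223517376481477,
  1583105322713615074802124255636733020884932940012381834300788803669475196936, 394309, [G3p0_3,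
  G3p1_3, G3p2_1, G3p2_3, G3p4_5, G3p6_0, G3p6_3, G3p6_4, G3p6_5, G3p6_7, G3p6_8, G3p6_9, G3p8_7,
  G3p9_7, G3p9_8]⟩))) (.node 142 (.node 141 (.leaf ⟨2420707938, 193727854153325674006920,
  931149513151219005049402045073535609197024099702122318354818066742998204430, 590993, [G3p0_1,
  G3p0_2, G3p0_3, G3p1_2, G3p1_3, G3p2_3, G3p4_5, G3p6_0, G3p6_1, G3p6_2, G3p6_3, G3p6_4, G3p6_5,
  G3p6_7, G3p6_8, G3p6_9, G3p7_0, G3p7_1, G3p7_2, G3p7_3, G3p7_8, G3p7_9, G3p8_0, G3p8_1, G3p8_2,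
  G3p8_3, G3p8_9, G3p9_0, G3p9_1, G3p9_2, G3p9_3]⟩) (.leaf ⟨1615401570, 157240194266570128656677,
  1583105322713615112464734667956817603219125515079313772049872244169531981838, 394385, [G3p0_1,
  G3p0_2, G3p0_3, G3p1_2, G3p1_3, G3p2_3, G3p4_5, G3p6_0, G3p6_1, G3p6_2, G3p6_3, G3p6_4, G3p6_5,
  G3p6_7, G3p6_8, G3p6_9, G3p8_7, G3p9_7, G3p9_8]⟩)) (.node 143 (.leaf ⟨2420265572,
  193727965326870503789696,
  906413276799308930496230238164920897963939553806910768436211145557452783679, 590885, [G3p1_2,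
  G3p1_3, G3p1_4, G3p1_5, G3p2_3, G3p2_4, G3p2_5, G3p3_4, G3p3_5, G3p4_5, G3p6_0, G3p6_4, G3p6_5,
  G3p6_7, G3p6_8, G3p6_9, G3p7_0, G3p7_8, G3p7_9, G3p8_0, G3p8_9, G3p9_0]⟩) (.leaf ⟨1614959204,
  157240305549069688804480,
  1583105322713615024585310372544357361621405901427822378642700074774346858559, 394277, [G3p1_2,
  G3p1_3, G3p1_4, G3p1_5, G3p2_3, G3p2_4, G3p2_5, G3p3_4, G3p3_5, G3p4_5, G3p6_0, G3p6_4, G3p6_5,
  G3p6_7, G3p6_8, G3p6_9, G3p8_7, G3p9_7, G3p9_8]⟩))))) (.node 152 (.node 148 (.node 146 (.node 145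
  (.leaf ⟨2420265368, 76745625293984138167363,
  1076033183212400250979471738699430204711553926319150705879251488177466048527, 590885, [G3p1_2,
  G3p1_3, G3p2_3, G3p4_0, G3p4_1, G3p4_2, G3p4_3, G3p4_5, G3p4_6, G3p6_5, G3p7_0, G3p7_5, G3p7_6,
  G3p7_8, G3p7_9, G3p8_0, G3p8_5, G3p8_6, G3p8_9, G3p9_0, G3p9_5, G3p9_6]⟩) (.leaf ⟨1614959000,
  40257965516186544407619,
  1752725229126706345068551873078866668369020273940062316085740417394360123407, 394277, [G3p1_2,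
  G3p1_3, G3p2_3, G3p4_0, G3p4_1, G3p4_2, G3p4_3, G3p4_5, G3p4_6, G3p6_5, G3p7_5, G3p7_6, G3p8_5,
  G3p8_6, G3p8_7, G3p9_5, G3p9_6, G3p9_7, G3p9_8]⟩)) (.node 147 (.leaf ⟨2420216420,
  193727965220252235633795,
  906413276799308930496230238165077001478860318298765318043332811469532168241, 590873, [G3p1_0,
  G3p1_4, G3p1_5, G3p2_0, G3p2_1, G3p2_4, G3p2_5, G3p3_0, G3p3_1, G3p3_2, G3p3_4, G3p3_5, G3p4_5,
  G3p6_0, G3p6_4, G3p6_5, G3p6_7, G3p6_8, G3p6_9, G3p7_0, G3p7_8, G3p7_9, G3p8_0, G3p8_9, G3p9_0]⟩)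
  (.leaf ⟨1614910052, 157240305442451420648579,
  1583105322713615024585310372544513465136326665919676928249821740686426243121, 394265, [G3p1_0,
  G3p1_4, G3p1_5, G3p2_0, G3p2_1, G3p2_4, G3p2_5, G3p3_0, G3p3_1, G3p3_2, G3p3_4, G3p3_5, G3p4_5,
  G3p6_0, G3p6_4, G3p6_5, G3p6_7, G3p6_8, G3p6_9, G3p8_7, G3p9_7, G3p9_8]⟩))) (.node 150 (.node 149
  (.leaf ⟨2420216216, 76745625187369091236934,
  1076033183212400250979471738699586308226474690811005255486373154089545433089, 590873, [G3p1_0,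
  G3p2_0, G3p2_1, G3p3_0, G3p3_1, G3p3_2, G3p4_0, G3p4_1, G3p4_2, G3p4_3, G3p4_5, G3p4_6, G3p6_5,
  G3p7_0, G3p7_5, G3p7_6, G3p7_8, G3p7_9, G3p8_0, G3p8_5, G3p8_6, G3p8_9, G3p9_0, G3p9_5, G3p9_6]⟩)
  (.leaf ⟨1614909848, 40257965409571497477190,
  1752725229126706345068551873079022771883941038431916865692862083306439507969, 394265, [G3p1_0,
  G3p2_0, G3p2_1, G3p3_0, G3p3_1, G3p3_2, G3p4_0, G3p4_1, G3p4_2, G3p4_3, G3p4_5, G3p4_6, G3p6_5,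
  G3p7_5, G3p7_6, G3p8_5, G3p8_6, G3p8_7, G3p9_5, G3p9_6, G3p9_7, G3p9_8]⟩)) (.node 151 (.leaf
  ⟨2420183654, 193727853766297581029416,
  917014520950127533876161012554919753380348932032097156605604738790109609990, 590865, [G3p0_1,
  G3p0_2, G3p1_2, G3p3_1, G3p3_2, G3p3_4, G3p3_5, G3p4_5, G3p6_0, G3p6_1, G3p6_2, G3p6_4, G3p6_5,
  G3p6_7, G3p6_8, G3p6_9, G3p7_0, G3p7_1, G3p7_2, G3p7_8, G3p7_9, G3p8_0, G3p8_1, G3p8_2, G3p8_9,
  G3p9_0, G3p9_1, G3p9_2]⟩) (.leaf ⟨1614877286, 157240193985095151945765,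
  1583105322713615062247920784864575730051230308691414414021478774382563557382, 394257, [G3p0_1,
  G3p0_2, G3p1_2, G3p3_1, G3p3_2, G3p3_4, G3p3_5, G3p4_5, G3p6_0, G3p6_1, G3p6_2, G3p6_4, G3p6_5,
  G3p6_7, G3p6_8, G3p6_9, G3p8_7, G3p9_7, G3p9_8]⟩)))) (.node 156 (.node 154 (.node 153 (.leaf
  ⟨2420658786, 193727853756161458211112,
  906413276799308930496230238163984248290041916092777151588819283278961836032, 590981, [G3p2_1,
  G3p3_1, G3p3_2, G3p4_5, G3p6_0, G3p6_4, G3p6_5, G3p6_7, G3p6_8, G3p6_9, G3p7_0, G3p7_8, G3p7_9,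
  G3p8_0, G3p8_9, G3p9_0]⟩) (.leaf ⟨1615352418, 157240193978360643225797,
  1583105322713615024585310372543420711947508263713688761795308212495855910912, 394373, [G3p2_1,
  G3p3_1, G3p3_2, G3p4_5, G3p6_0, G3p6_4, G3p6_5, G3p6_7, G3p6_8, G3p6_9, G3p8_7, G3p9_7, G3p9_8]⟩))
  (.node 155 (.leaf ⟨2420417121, 193727854008050552703076,
  904646402774172590756101139899084391730561671188924027014584725893444206607, 590922, [G3p1_2,
  G3p1_3, G3p2_3, G3p4_5, G3p6_0, G3p6_1, G3p6_2, G3p6_3, G3p6_4, G3p6_5, G3p6_7, G3p6_8, G3p6_9,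
  G3p7_8, G3p7_9, G3p8_9]⟩) (.leaf ⟨1615110753, 274229445145719035955300,
  1583105322713615112464734667956817603219125584958534975467022625044807222159, 394314, [G3p0_7,
  G3p0_8, G3p0_9, G3p1_2, G3p1_3, G3p2_3, G3p4_5, G3p6_0, G3p6_1, G3p6_2, G3p6_3, G3p6_4, G3p6_5,
  G3p6_7, G3p6_8, G3p6_9, G3p8_7, G3p9_7, G3p9_8]⟩))) (.node 158 (.node 157 (.leaf ⟨2420249190,
  193727890945183762648136,
  909947024849581798289540496294920523468363647977881703193771636376606998530, 590881, [G3p0_1,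
  G3p2_1, G3p2_3, G3p2_4, G3p2_5, G3p3_1, G3p3_4, G3p3_5, G3p4_5, G3p6_0, G3p6_1, G3p6_4, G3p6_5,
  G3p6_7, G3p6_8, G3p6_9, G3p7_0, G3p7_1, G3p7_8, G3p7_9, G3p8_0, G3p8_1, G3p8_9, G3p9_0, G3p9_1]⟩)
  (.leaf ⟨1614942822, 157240231167279868447813,
  1583105322713615037139513843317763491463635005278261862470055601052021030914, 394273, [G3p0_1,
  G3p2_1, G3p2_3, G3p2_4, G3p2_5, G3p3_1, G3p3_4, G3p3_5, G3p4_5, G3p6_0, G3p6_1, G3p6_4, G3p6_5,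
  G3p6_7, G3p6_8, G3p6_9, G3p8_7, G3p9_7, G3p9_8]⟩)) (.node 159 (.leaf ⟨2451722520,
  76738603092584477788260,
  906413276799303394092499627111416742694335972280082117166493691395544383503, 598565, [G3p1_2,
  G3p1_3, G3p2_3, G3p4_5, G3p6_0, G3p6_1, G3p6_2, G3p6_3, G3p6_4, G3p6_5, G3p7_0, G3p7_8, G3p7_9,
  G3p8_0, G3p8_9, G3p9_0]⟩) (.leaf ⟨1646416152, 40250943314786884028516,
  1583105322713609488181579761490853206351802319900993727372982620612438458383, 401957, [G3p1_2,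
  G3p1_3, G3p2_3, G3p4_5, G3p6_0, G3p6_1, G3p6_2, G3p6_3, G3p6_4, G3p6_5, G3p8_7, G3p9_7,
  G3p9_8]⟩)))))) (.node 176 (.node 168 (.node 164 (.node 162 (.node 161 (.leaf ⟨2451673368,
  76738602985969430857831,
  906413276799303394092499627111572846209256736771936666773615357307623768065, 598553, [G3p1_0,
  G3p2_0, G3p2_1, G3p3_0, G3p3_1, G3p3_2, G3p4_5, G3p6_0, G3p6_1, G3p6_2, G3p6_3, G3p6_4, G3p6_5,
  G3p7_0, G3p7_8, G3p7_9, G3p8_0, G3p8_9, G3p9_0]⟩) (.leaf ⟨1646367000, 40250943208171837098087,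
  1583105322713609488181579761491009309866723084392848276980104286524517842945, 401945, [G3p1_0,
  G3p2_0, G3p2_1, G3p3_0, G3p3_1, G3p3_2, G3p4_5, G3p6_0, G3p6_1, G3p6_2, G3p6_3, G3p6_4, G3p6_5,
  G3p8_7, G3p9_7, G3p9_8]⟩)) (.node 163 (.leaf ⟨2450805026, 76738493873557932739781,
  920548269000394771111513337066284916519001420049110245892350052754329698312, 598341, [G3p0_3,
  G3p1_3, G3p2_1, G3p2_3, G3p4_3, G3p5_3, G3p5_4, G3p6_3, G3p6_4, G3p6_5, G3p7_0, G3p7_3, G3p7_8,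
  G3p7_9, G3p8_0, G3p8_3, G3p8_9, G3p9_0, G3p9_3]⟩) (.leaf ⟨1645498658, 40250834025388373576834,
  1583105322713609444244166322019347397527687806387896052378019123805303603208, 401733, [G3p0_3,
  G3p1_3, G3p2_1, G3p2_3, G3p4_3, G3p5_3, G3p5_4, G3p6_3, G3p6_4, G3p6_5, G3p8_7, G3p9_7,
  G3p9_8]⟩))) (.node 166 (.node 165 (.leaf ⟨2451116322, 76738493916610684914981,
  931149513151213286611253556580173249062324522027252894566316484281673711630, 598417, [G3p0_1,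
  G3p0_2, G3p0_3, G3p1_2, G3p1_3, G3p2_3, G3p5_4, G3p6_4, G3p6_5, G3p7_0, G3p7_1, G3p7_2, G3p7_3,
  G3p7_8, G3p7_9, G3p8_0, G3p8_1, G3p8_2, G3p8_3, G3p8_9, G3p9_0, G3p9_1, G3p9_2, G3p9_3]⟩) (.leaf
  ⟨1645809954, 40250834029855139564738,
  1583105322713609394026586179463455243084425937404444348261370661708207489038, 401809, [G3p0_1,
  G3p0_2, G3p0_3, G3p1_2, G3p1_3, G3p2_3, G3p5_4, G3p6_4, G3p6_5, G3p8_7, G3p9_7, G3p9_8]⟩)) (.node
  167 (.leaf ⟨2450624804, 76738493628401201648771,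
  906413276799303299937506045084174882941880353166176087500828067285331607553, 598297, [G3p1_0,
  G3p2_0, G3p2_1, G3p3_0, G3p3_1, G3p3_2, G3p5_4, G3p6_4, G3p6_5, G3p7_0, G3p7_8, G3p7_9, G3p8_0,
  G3p8_9, G3p9_0]⟩) (.leaf ⟨1645318436, 40250833850603607889027,
  1583105322713609394026586179463611346599346700787087697707316996502225682433, 401689, [G3p1_0,
  G3p2_0, G3p2_1, G3p3_0, G3p3_1, G3p3_2, G3p5_4, G3p6_4, G3p6_5, G3p8_7, G3p9_7, G3p9_8]⟩))))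
  (.node 172 (.node 170 (.node 169 (.leaf ⟨2450673956, 76738493735019469804672,
  906413276799303299937506045084018779426959588674321537893706401373252222991, 598309, [G3p1_2,
  G3p1_3, G3p2_3, G3p5_4, G3p6_4, G3p6_5, G3p7_0, G3p7_8, G3p7_9, G3p8_0, G3p8_9, G3p9_0]⟩) (.leaf
  ⟨1645367588, 40250833957218654819456,
  1583105322713609394026586179463455243084425936295233148100195330590146297871, 401701, [G3p1_2,
  G3p1_3, G3p2_3, G3p5_4, G3p6_4, G3p6_5, G3p8_7, G3p9_7, G3p9_8]⟩)) (.node 171 (.leaf ⟨2450592038,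
  76738493635135708204069,
  917014520950121865654826407153933068162435270107765347306435795078261112838, 598289, [G3p0_1,
  G3p0_2, G3p1_2, G3p3_1, G3p3_2, G3p5_4, G3p6_4, G3p6_5, G3p7_0, G3p7_1, G3p7_2, G3p7_8, G3p7_9,
  G3p8_0, G3p8_1, G3p8_2, G3p8_9, G3p9_0, G3p9_1, G3p9_2]⟩) (.leaf ⟨1645285670,
  40250833853933279120418,
  1583105322713609394026586179463589044833316646767082604722309830670715060230, 401681, [G3p0_1,
  G3p0_2, G3p1_2, G3p3_1, G3p3_2, G3p5_4, G3p6_4, G3p6_5, G3p8_7, G3p9_7, G3p9_8]⟩))) (.node 174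
  (.node 173 (.leaf ⟨2451067170, 76738493628401199484101,
  906413276799303299937506045084152581856394263325237553491552280995728195584, 598405, [G3p2_1,
  G3p3_1, G3p3_2, G3p5_4, G3p6_4, G3p6_5, G3p7_0, G3p7_8, G3p7_9, G3p8_0, G3p8_9, G3p9_0]⟩) (.leaf
  ⟨1645760802, 40250833850600384498819,
  1583105322713609394026586179463589045513860610946149163698041210212622270464, 401797, [G3p2_1,
  G3p3_1, G3p3_2, G3p5_4, G3p6_4, G3p6_5, G3p8_7, G3p9_7, G3p9_8]⟩)) (.node 175 (.leaf ⟨1615204962,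
  157240194232588347410629,
  1583105322713615112464734667956951405648560189730229787647718123852138414094, 394337, [G3p0_1,
  G3p0_2, G3p0_3, G3p2_1, G3p3_1, G3p3_2, G3p4_5, G3p6_0, G3p6_1, G3p6_2, G3p6_3, G3p6_4, G3p6_5,
  G3p6_7, G3p6_8, G3p6_9, G3p8_7, G3p9_7, G3p9_8]⟩) (.leaf ⟨2420511330, 193727854119343892760872,
  931149513151219005049402045073669411626458774353038333952663946425604636686, 590945, [G3p0_1,
  G3p0_2, G3p0_3, G3p2_1, G3p3_1, G3p3_2, G3p4_5, G3p6_0, G3p6_1, G3p6_2, G3p6_3, G3p6_4, G3p6_5,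
  G3p6_7, G3p6_8, G3p6_9, G3p7_0, G3p7_1, G3p7_2, G3p7_3, G3p7_8, G3p7_9, G3p8_0, G3p8_1, G3p8_2,
  G3p8_3, G3p8_9, G3p9_0, G3p9_1, G3p9_2, G3p9_3]⟩))))) (.node 184 (.node 180 (.node 178 (.node 177
  (.leaf ⟨2450657574, 76738493662623498898501,
  909947024849576155176612832440656877260054066679169312135831415990767452162, 598305, [G3p0_1,
  G3p2_1, G3p2_3, G3p3_1, G3p5_4, G3p6_4, G3p6_5, G3p7_0, G3p7_1, G3p7_8, G3p7_9, G3p8_0, G3p8_1,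
  G3p8_9, G3p9_0, G3p9_1]⟩) (.leaf ⟨1645351206, 40250833884753964436547,
  1583105322713609394026586179463499845255325423979549471412115380666181484546, 401697, [G3p0_1,
  G3p2_1, G3p2_3, G3p3_1, G3p5_4, G3p6_4, G3p6_5, G3p8_7, G3p9_7, G3p9_8]⟩)) (.node 179 (.leaf
  ⟨2420396434, 76749192174472750439621,
  1090168175413491671935898866203279660744939772348697215298410412177520853096, 590917, [G3p0_3,
  G3p0_5, G3p0_6, G3p1_3, G3p1_5, G3p1_6, G3p2_1, G3p2_3, G3p2_5, G3p2_6, G3p4_5, G3p4_6, G3p6_5,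
  G3p7_0, G3p7_3, G3p7_5, G3p7_6, G3p7_8, G3p7_9, G3p8_0, G3p8_3, G3p8_5, G3p8_6, G3p8_9, G3p9_0,
  G3p9_3, G3p9_5, G3p9_6]⟩) (.leaf ⟨1615090066, 40257965440213941653602,
  1752725229126706345068551851156342141753626158687483021784079483228494757992, 394309, [G3p0_3,
  G3p0_5, G3p0_6, G3p1_3, G3p1_5, G3p1_6, G3p2_1, G3p2_3, G3p2_5, G3p2_6, G3p4_5, G3p4_6, G3p6_5,
  G3p7_5, G3p7_6, G3p8_5, G3p8_6, G3p8_7, G3p9_5, G3p9_6, G3p9_7, G3p9_8]⟩))) (.node 182 (.node 181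
  (.leaf ⟨2420707730, 76752759068430380149029,
  1100769419564310237653219228275201018590039718952812438067468168964626972782, 590993, [G3p0_1,
  G3p0_2, G3p0_3, G3p0_5, G3p0_6, G3p1_2, G3p1_3, G3p1_5, G3p1_6, G3p2_3, G3p2_5, G3p2_6, G3p3_5,
  G3p3_6, G3p4_5, G3p4_6, G3p6_5, G3p7_0, G3p7_1, G3p7_2, G3p7_3, G3p7_5, G3p7_6, G3p7_8, G3p7_9,
  G3p8_0, G3p8_1, G3p8_2, G3p8_3, G3p8_5, G3p8_6, G3p8_9, G3p9_0, G3p9_1, G3p9_2, G3p9_3, G3p9_5,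
  G3p9_6]⟩) (.leaf ⟨1615401362, 40261532330769957264578,
  1752725229126706345068551851158483012612141134330003891762522346391160750190, 394385, [G3p0_1,
  G3p0_2, G3p0_3, G3p0_5, G3p0_6, G3p1_2, G3p1_3, G3p1_5, G3p1_6, G3p2_3, G3p2_5, G3p2_6, G3p3_5,
  G3p3_6, G3p4_5, G3p4_6, G3p6_5, G3p7_5, G3p7_6, G3p8_5, G3p8_6, G3p8_7, G3p9_5, G3p9_6, G3p9_7,
  G3p9_8]⟩)) (.node 183 (.leaf ⟨2420658578, 76749191929316017183941,
  1076033183212400250979471716779180351384109460250797096992703965678681456736, 590981, [G3p0_5,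
  G3p0_6, G3p1_5, G3p1_6, G3p2_1, G3p2_5, G3p2_6, G3p3_1, G3p3_2, G3p3_5, G3p3_6, G3p4_5, G3p4_6,
  G3p6_5, G3p7_0, G3p7_5, G3p7_6, G3p7_8, G3p7_9, G3p8_0, G3p8_5, G3p8_6, G3p8_9, G3p9_0, G3p9_5,
  G3p9_6]⟩) (.leaf ⟨1615352210, 40259154250911950509187,
  1752725229126706345068551851158616815041575807871708707199192894895575531616, 394373, [G3p0_5,
  G3p0_6, G3p1_5, G3p1_6, G3p2_1, G3p2_5, G3p2_6, G3p3_1, G3p3_2, G3p3_5, G3p3_6, G3p4_5, G3p4_6,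
  G3p6_5, G3p7_5, G3p7_6, G3p8_5, G3p8_6, G3p8_7, G3p9_5, G3p9_6, G3p9_7, G3p9_8]⟩)))) (.node 188
  (.node 186 (.node 185 (.leaf ⟨2424590738, 76748833012402467642565,
  1033628206609125787250597167060276326218254839687861752151702120764296134728, 591941, [G3p0_3,
  G3p0_6, G3p1_3, G3p1_6, G3p2_1, G3p2_3, G3p2_6, G3p4_6, G3p5_4, G3p5_6, G3p7_0, G3p7_3, G3p7_6,
  G3p7_8, G3p7_9, G3p8_0, G3p8_3, G3p8_6, G3p8_9, G3p9_0, G3p9_3, G3p9_6]⟩) (.leaf ⟨1619284370,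
  40257714364534715748450,
  1696185260322340460383250152013338807226941226026647558637371191815270039624, 395333, [G3p0_3,
  G3p0_6, G3p1_3, G3p1_6, G3p2_1, G3p2_3, G3p2_6, G3p4_6, G3p5_4, G3p5_6, G3p7_6, G3p8_6, G3p8_7,
  G3p9_6, G3p9_7, G3p9_8]⟩)) (.node 187 (.leaf ⟨2424902034, 76752291819969040460069,
  1044229450759944352967917529131484060217001806351447831936035129983210881102, 592017, [G3p0_1,
  G3p0_2, G3p0_3, G3p0_6, G3p1_2, G3p1_3, G3p1_6, G3p2_3, G3p2_6, G3p3_6, G3p4_6, G3p5_4, G3p5_6,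
  G3p7_0, G3p7_1, G3p7_2, G3p7_3, G3p7_6, G3p7_8, G3p7_9, G3p8_0, G3p8_1, G3p8_2, G3p8_3, G3p8_6,
  G3p8_9, G3p9_0, G3p9_1, G3p9_2, G3p9_3, G3p9_6]⟩) (.leaf ⟨1619595666, 40261173168699674467522,
  1696185260322340460383250152014766054239103221728639285631089307409744658510, 395409, [G3p0_1,
  G3p0_2, G3p0_3, G3p0_6, G3p1_2, G3p1_3, G3p1_6, G3p2_3, G3p2_6, G3p3_6, G3p4_6, G3p5_4, G3p5_6,
  G3p7_6, G3p8_6, G3p8_7, G3p9_6, G3p9_7, G3p9_8]⟩))) (.node 190 (.node 189 (.leaf ⟨2424459672,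
  76745374254624229460068,
  1019493214408034366295606754125988651878781841501073803360744981383814774799, 591909, [G3p1_2,
  G3p1_3, G3p2_3, G3p4_0, G3p4_1, G3p4_2, G3p4_3, G3p4_6, G3p5_0, G3p5_1, G3p5_2, G3p5_3, G3p5_4,
  G3p5_6, G3p7_0, G3p7_6, G3p7_8, G3p7_9, G3p8_0, G3p8_6, G3p8_9, G3p9_0, G3p9_6]⟩) (.leaf
  ⟨1619153304, 40257714476826635700324,
  1696185260322340460384686888505425115536248189121985413567233910600708849679, 395301, [G3p1_2,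
  G3p1_3, G3p2_3, G3p4_0, G3p4_1, G3p4_2, G3p4_3, G3p4_6, G3p5_0, G3p5_1, G3p5_2, G3p5_3, G3p5_4,
  G3p5_6, G3p7_6, G3p8_6, G3p8_7, G3p9_6, G3p9_7, G3p9_8]⟩)) (.node 191 (.leaf ⟨2424410520,
  76745374148009182529639,
  1019493214408034366295606754126144755393702605992928352967866647295894159361, 591897, [G3p1_0,
  G3p2_0, G3p2_1, G3p3_0, G3p3_1, G3p3_2, G3p4_0, G3p4_1, G3p4_2, G3p4_3, G3p4_6, G3p5_0, G3p5_1,
  G3p5_2, G3p5_3, G3p5_4, G3p5_6, G3p7_0, G3p7_6, G3p7_8, G3p7_9, G3p8_0, G3p8_6, G3p8_9, G3p9_0,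
  G3p9_6]⟩) (.leaf ⟨1619104152, 40257714370211588769895,
  1696185260322340460384686888505581219051168953613839963174355576512788234241, 395289, [G3p1_0,
  G3p2_0, G3p2_1, G3p3_0, G3p3_1, G3p3_2, G3p4_0, G3p4_1, G3p4_2, G3p4_3, G3p4_6, G3p5_0, G3p5_1,
  G3p5_2, G3p5_3, G3p5_4, G3p5_6, G3p7_6, G3p8_6, G3p8_7, G3p9_6, G3p9_7, G3p9_8]⟩))))))

def G3T4 : Tr :=
  .node 224 (.node 208 (.node 200 (.node 196 (.node 194 (.node 193 (.leaf ⟨2424852882,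
  76748832767245734386885,
  1019493214408034366294170017635463393011071547649432490861270926697265365056, 592005, [G3p0_6,
  G3p1_6, G3p2_1, G3p2_6, G3p3_1, G3p3_2, G3p3_6, G3p4_6, G3p5_4, G3p5_6, G3p7_0, G3p7_6, G3p7_8,
  G3p7_9, G3p8_0, G3p8_6, G3p8_9, G3p9_0, G3p9_6]⟩) (.leaf ⟨1619546514, 40258867146435705640067,
  1696185260322340460383250152014899856668537895270344101067759855914159439936, 395397, [G3p0_6,
  G3p1_6, G3p2_1, G3p2_6, G3p3_1, G3p3_2, G3p3_6, G3p4_6, G3p5_4, G3p5_6, G3p7_6, G3p8_6, G3p8_7,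
  G3p9_6, G3p9_7, G3p9_8]⟩)) (.node 195 (.leaf ⟨1619399058, 40257714370204072579170,
  1696185260322340460383250152013472587197428146559489124635284864497603182670, 395361, [G3p0_1,
  G3p0_2, G3p0_3, G3p0_6, G3p2_1, G3p3_1, G3p3_2, G3p4_6, G3p5_4, G3p5_6, G3p7_6, G3p8_6, G3p8_7,
  G3p9_6, G3p9_7, G3p9_8]⟩) (.leaf ⟨2424705426, 76748833021473438571717,
  1044229450759944352967917529130190593175326731182297670940230687071069405262, 591969, [G3p0_1,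
  G3p0_2, G3p0_3, G3p0_6, G3p2_1, G3p3_1, G3p3_2, G3p4_6, G3p5_4, G3p5_6, G3p7_0, G3p7_1, G3p7_2,
  G3p7_3, G3p7_6, G3p7_8, G3p7_9, G3p8_0, G3p8_1, G3p8_2, G3p8_3, G3p8_6, G3p8_9, G3p9_0, G3p9_1,
  G3p9_2, G3p9_3, G3p9_6]⟩))) (.node 198 (.node 197 (.leaf ⟨2424459876, 232725283018619078382720,
  906413276799308729722552667986493764307736319079003472467665382762838229023, 591909, [G3p1_2,
  G3p1_3, G3p1_4, G3p2_3, G3p2_4, G3p3_4, G3p5_0, G3p5_4, G3p5_6, G3p5_7, G3p5_8, G3p5_9, G3p6_0,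
  G3p6_4, G3p6_7, G3p6_8, G3p6_9, G3p7_0, G3p7_8, G3p7_9, G3p8_0, G3p8_9, G3p9_0]⟩) (.leaf
  ⟨1619153508, 196237623240818263397504,
  1583105322713614823811632802365930227965202666699915082674154311979732303903, 395301, [G3p1_2,
  G3p1_3, G3p1_4, G3p2_3, G3p2_4, G3p3_4, G3p5_0, G3p5_4, G3p5_6, G3p5_7, G3p5_8, G3p5_9, G3p6_0,
  G3p6_4, G3p6_7, G3p6_8, G3p6_9, G3p8_7, G3p9_7, G3p9_8]⟩)) (.node 199 (.leaf ⟨2424410724,
  232725282912000810226819,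
  906413276799308729722552667986649867822657083570858022074787048674917613585, 591897, [G3p1_0,
  G3p1_4, G3p2_0, G3p2_1, G3p2_4, G3p3_0, G3p3_1, G3p3_2, G3p3_4, G3p5_0, G3p5_4, G3p5_6, G3p5_7,
  G3p5_8, G3p5_9, G3p6_0, G3p6_4, G3p6_7, G3p6_8, G3p6_9, G3p7_0, G3p7_8, G3p7_9, G3p8_0, G3p8_9,
  G3p9_0]⟩) (.leaf ⟨1619104356, 196237623134199995241603,
  1583105322713614823811632802366086331480123431191769632281275977891811688465, 395289, [G3p1_0,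
  G3p1_4, G3p2_0, G3p2_1, G3p2_4, G3p3_0, G3p3_1, G3p3_2, G3p3_4, G3p5_0, G3p5_4, G3p5_6, G3p5_7,
  G3p5_8, G3p5_9, G3p6_0, G3p6_4, G3p6_7, G3p6_8, G3p6_9, G3p8_7, G3p9_7, G3p9_8]⟩)))) (.node 204
  (.node 202 (.node 201 (.leaf ⟨2424377958, 232725280671470990724137,
  917014520950127333103058128204317338935231972408875171893016416865431715846, 591889, [G3p0_1,
  G3p0_2, G3p1_2, G3p3_1, G3p3_2, G3p3_4, G3p5_0, G3p5_1, G3p5_2, G3p5_4, G3p5_6, G3p5_7, G3p5_8,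
  G3p5_9, G3p6_0, G3p6_1, G3p6_2, G3p6_4, G3p6_7, G3p6_8, G3p6_9, G3p7_0, G3p7_1, G3p7_2, G3p7_8,
  G3p7_9, G3p8_0, G3p8_1, G3p8_2, G3p8_9, G3p9_0, G3p9_1, G3p9_2]⟩) (.leaf ⟨1619071590,
  196237620890268561640486,
  1583105322713614861474817900513973315606113349068192429308890452457885663238, 395281, [G3p0_1,
  G3p0_2, G3p1_2, G3p3_1, G3p3_2, G3p3_4, G3p5_0, G3p5_1, G3p5_2, G3p5_4, G3p5_6, G3p5_7, G3p5_8,
  G3p5_9, G3p6_0, G3p6_1, G3p6_2, G3p6_4, G3p6_7, G3p6_8, G3p6_9, G3p8_7, G3p9_7, G3p9_8]⟩)) (.node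
  203 (.leaf ⟨1697142916, 7270359255926632976544,
  1583101871945750487441576069305288770603883486818920273682607448238026785167, 414341, [G3p0_7,
  G3p0_8, G3p2_1, G3p3_1, G3p3_2, G3p4_1, G3p4_2, G3p4_3, G3p4_5, G3p4_6, G3p4_7, G3p4_8, G3p5_1,
  G3p5_2, G3p5_3, G3p5_6, G3p5_7, G3p5_8, G3p6_1, G3p6_2, G3p6_3, G3p6_7, G3p6_8, G3p7_8, G3p9_7,
  G3p9_8]⟩) (.leaf ⟨1697192070, 7270359362543793836198,
  1583101871945750487441576069305154968174448813277198533284462294925166116878, 414353, [G3p0_1,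
  G3p0_2, G3p0_3, G3p0_7, G3p0_8, G3p1_2, G3p1_3, G3p2_3, G3p4_1, G3p4_2, G3p4_3, G3p4_5, G3p4_6,
  G3p4_7, G3p4_8, G3p5_1, G3p5_2, G3p5_3, G3p5_6, G3p5_7, G3p5_8, G3p6_1, G3p6_2, G3p6_3, G3p6_7,
  G3p6_8, G3p7_8, G3p9_7, G3p9_8]⟩))) (.node 206 (.node 205 (.leaf ⟨1696667782,
  7270359045884445036710,
  1583101871945750437223995926749396616160621617835461316011039046566068748294, 414225, [G3p0_1,
  G3p0_2, G3p0_7, G3p0_8, G3p1_2, G3p3_1, G3p3_2, G3p4_1, G3p4_2, G3p4_5, G3p4_6, G3p4_7, G3p4_8,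
  G3p5_1, G3p5_2, G3p5_6, G3p5_7, G3p5_8, G3p6_1, G3p6_2, G3p6_7, G3p6_8, G3p7_8, G3p9_7, G3p9_8]⟩)
  (.leaf ⟨1687443554, 4835389030258763206818,
  1597236648463975113971210499711355821049114789417511143414397533318472531976, 411973, [G3p0_3,
  G3p0_7, G3p0_8, G3p1_3, G3p2_1, G3p2_3, G3p4_3, G3p4_5, G3p4_6, G3p5_3, G3p5_6, G3p6_3, G3p7_8,
  G3p9_3, G3p9_7, G3p9_8]⟩)) (.node 207 (.leaf ⟨1684297874, 9710166261349140828258,
  1583101871945748290413249648783442301718543519671769833588711546199670784504, 411205, [G3p0_3,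
  G3p0_4, G3p0_5, G3p0_6, G3p0_7, G3p0_8, G3p1_3, G3p1_4, G3p1_5, G3p1_6, G3p1_7, G3p1_8, G3p2_1,
  G3p2_3, G3p2_4, G3p2_5, G3p2_6, G3p2_7, G3p2_8, G3p5_4, G3p6_4, G3p6_5, G3p7_8, G3p9_7, G3p9_8]⟩)
  (.leaf ⟨1687754822, 4836579075742689787938,
  1583101871945747989116963977149520318479233049259037562523725412954266271758, 412049, [G3p0_1,
  G3p0_2, G3p0_3, G3p0_7, G3p0_8, G3p1_2, G3p1_3, G3p2_3, G3p4_5, G3p4_6, G3p5_6, G3p7_8, G3p9_7,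
  G3p9_8]⟩))))) (.node 216 (.node 212 (.node 210 (.node 209 (.leaf ⟨1684609170,
  12147516634814763735201,
  1583101871945748290413249648794503470656470744570897737321296066189680706046, 411281, [G3p0_1,
  G3p0_2, G3p0_3, G3p0_4, G3p0_5, G3p0_6, G3p0_7, G3p0_8, G3p1_2, G3p1_3, G3p1_4, G3p1_5, G3p1_6,
  G3p1_7, G3p1_8, G3p2_3, G3p2_4, G3p2_5, G3p2_6, G3p2_7, G3p2_8, G3p3_4, G3p3_5, G3p3_6, G3p3_7,
  G3p3_8, G3p5_4, G3p6_4, G3p6_5, G3p7_8, G3p9_7, G3p9_8]⟩) (.leaf ⟨1687230534,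
  4836578899820829343778,
  1583101871945747989116963977149654120228123758621685490391221498915810836486, 411921, [G3p0_1,
  G3p0_2, G3p0_7, G3p0_8, G3p1_2, G3p3_1, G3p3_2, G3p4_5, G3p4_6, G3p5_6, G3p7_8, G3p9_7, G3p9_8]⟩))
  (.node 211 (.leaf ⟨1687705668, 6054064077990360383520,
  1583101871945747989116963977149654120908667722800759302921870566267126940047, 412037, [G3p0_7,
  G3p0_8, G3p2_1, G3p3_1, G3p3_2, G3p4_5, G3p4_6, G3p5_6, G3p7_8, G3p9_7, G3p9_8]⟩) (.leaf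
  ⟨1684560018, 10928841306811887981699,
  1583101871945748290413249648794637273085905418112619477719441219502541373936, 411269, [G3p0_4,
  G3p0_5, G3p0_6, G3p0_7, G3p0_8, G3p1_4, G3p1_5, G3p1_6, G3p1_7, G3p1_8, G3p2_1, G3p2_4, G3p2_5,
  G3p2_6, G3p2_7, G3p2_8, G3p3_1, G3p3_2, G3p3_4, G3p3_5, G3p3_6, G3p3_7, G3p3_8, G3p5_4, G3p6_4,
  G3p6_5, G3p7_8, G3p9_7, G3p9_8]⟩))) (.node 214 (.node 213 (.leaf ⟨1682069656,
  9706590479218819269699,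
  1583101871945748189978090110498994500821325565956815619661983905295794897295, 410661, [G3p0_7,
  G3p0_8, G3p1_2, G3p1_3, G3p2_3, G3p4_0, G3p4_1, G3p4_2, G3p4_3, G3p4_5, G3p4_6, G3p4_7, G3p4_8,
  G3p6_5, G3p7_8, G3p9_7, G3p9_8]⟩) (.leaf ⟨1637110050, 40254398589309064119394,
  1583105322713609293591426069731867415947884276416920542909257256964805099528, 399685, [G3p0_3,
  G3p1_3, G3p2_1, G3p2_3, G3p4_3, G3p4_5, G3p4_6, G3p6_5, G3p8_7, G3p9_7, G3p9_8]⟩)) (.node 215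
  (.leaf ⟨2442416418, 76742058472662995371205,
  920548269000394620458773084778804934939197890078134736423588185913831194632, 596293, [G3p0_3,
  G3p1_3, G3p2_1, G3p2_3, G3p4_3, G3p4_5, G3p4_6, G3p6_5, G3p7_0, G3p7_3, G3p7_8, G3p7_9, G3p8_0,
  G3p8_3, G3p8_9, G3p9_0, G3p9_3]⟩) (.leaf ⟨1637372194, 40254398449705447130243,
  1583105322713609293591426058039988119049551640150080137639932268645491671040, 399749, [G3p2_1,
  G3p3_1, G3p3_2, G3p4_5, G3p4_6, G3p6_5, G3p8_7, G3p9_7, G3p9_8]⟩)))) (.node 220 (.node 218 (.node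
  217 (.leaf ⟨1681987686, 4833268754094712000546,
  1667910531055110738231715480047492964264044620209076187204105770462174642182, 410641, [G3p0_1,
  G3p0_2, G3p0_4, G3p0_5, G3p0_7, G3p0_8, G3p1_2, G3p3_1, G3p3_2, G3p3_4, G3p3_5, G3p4_5, G3p6_4,
  G3p6_5, G3p7_8, G3p9_4, G3p9_5, G3p9_7, G3p9_8]⟩) (.leaf ⟨1682053222, 4833268784915397316675,
  1667910531055110738231715480047403781019607009626594135839170935699214041090, 410657, [G3p0_1,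
  G3p0_4, G3p0_5, G3p0_7, G3p0_8, G3p2_1, G3p2_3, G3p2_4, G3p2_5, G3p3_1, G3p3_4, G3p3_5, G3p4_5,
  G3p6_4, G3p6_5, G3p7_8, G3p9_4, G3p9_5, G3p9_7, G3p9_8]⟩)) (.node 219 (.leaf ⟨1686247526,
  4834205533637890379843,
  1611371424982202238825456858585409360735375610953186052415238906822649839618, 411681, [G3p0_1,
  G3p0_4, G3p0_7, G3p0_8, G3p2_1, G3p2_3, G3p2_4, G3p3_1, G3p3_4, G3p5_4, G3p5_6, G3p6_4, G3p7_8,
  G3p9_4, G3p9_7, G3p9_8]⟩) (.leaf ⟨1158959650, 151157233998223762360517,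
  904651821648164834805119239648502406689903032585517691164449447808539820040, 282949, [G3p0_3,
  G3p1_3, G3p2_1, G3p2_3, G3p4_3, G3p4_6, G3p5_3, G3p5_4, G3p5_6, G3p7_0, G3p7_3, G3p7_6, G3p7_9,
  G3p8_0, G3p8_3, G3p8_6, G3p8_7, G3p8_9]⟩))) (.node 222 (.node 221 (.leaf ⟨1159272582,
  37927663530028859198597,
  1130806277623037277281758661408524998071695242980354453023844628407478255630, 283025, [G3p0_1,
  G3p0_2, G3p0_3, G3p0_7, G3p1_2, G3p1_3, G3p2_3, G3p5_1, G3p5_2, G3p5_3, G3p5_4, G3p5_6, G3p5_7,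
  G3p6_1, G3p6_2, G3p6_3, G3p6_4, G3p6_7, G3p8_7, G3p8_9, G3p9_7]⟩) (.leaf ⟨1176049734,
  37932494657574390595618,
  1328696168392242352565823211573889277054808624846422702234817287078036766734, 287121, [G3p0_1,
  G3p0_2, G3p0_3, G3p0_4, G3p0_5, G3p0_6, G3p0_7, G3p1_2, G3p1_3, G3p2_3, G3p5_4, G3p6_4, G3p6_5,
  G3p8_4, G3p8_5, G3p8_6, G3p8_7, G3p8_9, G3p9_4, G3p9_5, G3p9_6, G3p9_7]⟩)) (.node 223 (.leaf
  ⟨1158779428, 151160692517580849747075,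
  904651605965300488484592210767209101396826972358985989702820237607104938049, 282905, [G3p1_0,
  G3p1_6, G3p2_0, G3p2_1, G3p2_6, G3p3_0, G3p3_1, G3p3_2, G3p3_6, G3p4_6, G3p5_4, G3p5_6, G3p7_0,
  G3p7_6, G3p7_9, G3p8_0, G3p8_6, G3p8_7, G3p8_9]⟩) (.leaf ⟨1158828580, 151160692624199117902976,
  904651605965300488484592210767052997881906207867131440095698571695025553487, 282917, [G3p1_2,
  G3p1_3, G3p1_6, G3p2_3, G3p2_6, G3p3_6, G3p4_6, G3p5_4, G3p5_6, G3p7_0, G3p7_6, G3p7_9, G3p8_0,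
  G3p8_6, G3p8_7, G3p8_9]⟩)))))) (.node 240 (.node 232 (.node 228 (.node 226 (.node 225 (.leaf
  ⟨1158746662, 151157233759801537824805,
  904651767727448748224412787832509753744013195980313645246177965236300414982, 282897, [G3p0_1,
  G3p0_2, G3p1_2, G3p3_1, G3p3_2, G3p3_6, G3p4_6, G3p5_4, G3p5_6, G3p7_0, G3p7_1, G3p7_2, G3p7_6,
  G3p7_9, G3p8_0, G3p8_1, G3p8_2, G3p8_6, G3p8_7, G3p8_9]⟩) (.leaf ⟨1159221794,
  151157233753067029104837,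
  904651605965300488484592210765759530840231132697981279099894128782878965760, 283013, [G3p2_1,
  G3p3_1, G3p3_2, G3p4_6, G3p5_4, G3p5_6, G3p7_0, G3p7_6, G3p7_9, G3p8_0, G3p8_6, G3p8_7, G3p8_9]⟩))
  (.node 227 (.leaf ⟨1158748294, 37927663248553882487941,
  1130806277623037227064178530544779744705091393168095897480685537295841230854, 282897, [G3p0_1,
  G3p0_2, G3p0_7, G3p1_2, G3p3_1, G3p3_2, G3p5_1, G3p5_2, G3p5_4, G3p5_6, G3p5_7, G3p6_1, G3p6_2,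
  G3p6_4, G3p6_7, G3p8_7, G3p8_9, G3p9_7]⟩) (.leaf ⟨1175525446, 37932494481652530151458,
  1328696168392242352565823211574023078803699334209070630102313373039581331462, 286993, [G3p0_1,
  G3p0_2, G3p0_4, G3p0_5, G3p0_6, G3p0_7, G3p1_2, G3p3_1, G3p3_2, G3p5_4, G3p6_4, G3p6_5, G3p8_4,
  G3p8_5, G3p8_6, G3p8_7, G3p8_9, G3p9_4, G3p9_5, G3p9_6, G3p9_7]⟩))) (.node 230 (.node 229 (.leaf
  ⟨1158812198, 151158386708793935400005,
  904651659886016575064532403122205258683013411079281747490247910292304560130, 282913, [G3p0_1,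
  G3p2_1, G3p2_3, G3p2_6, G3p3_1, G3p3_6, G3p4_6, G3p5_4, G3p5_6, G3p7_0, G3p7_1, G3p7_6, G3p7_9,
  G3p8_0, G3p8_1, G3p8_6, G3p8_7, G3p8_9]⟩) (.leaf ⟨1160009864, 38039528187121608265795,
  1130806277623037088965833498048266745708779593302840868345831533836448759939, 283205, [G3p0_7,
  G3p2_0, G3p2_1, G3p2_3, G3p2_7, G3p3_0, G3p3_1, G3p3_7, G3p4_5, G3p4_6, G3p4_7, G3p5_6, G3p5_7,
  G3p6_7, G3p8_7, G3p8_9, G3p9_7]⟩)) (.node 231 (.leaf ⟨1166301330, 38037224701357849743458,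
  1130806277623037390262119169679267161524332993089740367059370069783860478088, 284741, [G3p0_3,
  G3p0_7, G3p1_3, G3p1_7, G3p2_1, G3p2_3, G3p2_7, G3p4_7, G3p5_4, G3p5_7, G3p6_4, G3p6_5, G3p6_7,
  G3p8_7, G3p8_9, G3p9_7]⟩) (.leaf ⟨1160009874, 38156159138017173573730,
  1130806277623037088965833498045345385860402509023765272650292098751157240056, 283205, [G3p0_3,
  G3p0_4, G3p0_5, G3p0_6, G3p0_7, G3p1_3, G3p1_4, G3p1_5, G3p1_6, G3p1_7, G3p2_1, G3p2_3, G3p2_4,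
  G3p2_5, G3p2_6, G3p2_7, G3p4_5, G3p4_6, G3p4_7, G3p5_6, G3p5_7, G3p6_7, G3p8_7, G3p8_9,
  G3p9_7]⟩)))) (.node 236 (.node 234 (.node 233 (.leaf ⟨1160272004, 37965741394579326865568,
  1130806277623037176846598747518290375025035330649253413076038105617201496207, 283269, [G3p0_7,
  G3p2_1, G3p3_1, G3p3_2, G3p4_1, G3p4_2, G3p4_3, G3p4_5, G3p4_6, G3p4_7, G3p5_1, G3p5_2, G3p5_3,
  G3p5_6, G3p5_7, G3p6_1, G3p6_2, G3p6_3, G3p6_7, G3p8_7, G3p8_9, G3p9_7]⟩) (.leaf ⟨1166612626,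
  38111011680985584736417,
  1130806277623037390262119169682121656229200948672783126467619992739669606542, 284817, [G3p0_1,
  G3p0_2, G3p0_3, G3p0_7, G3p1_2, G3p1_3, G3p1_7, G3p2_3, G3p2_7, G3p3_7, G3p4_7, G3p5_4, G3p5_7,
  G3p6_4, G3p6_5, G3p6_7, G3p8_7, G3p8_9, G3p9_7]⟩)) (.node 235 (.leaf ⟨1160321170,
  38232326270047973873825,
  1130806277623037088965833498050697564027505894398660032505078638195636175102, 283281, [G3p0_1,
  G3p0_2, G3p0_3, G3p0_4, G3p0_5, G3p0_6, G3p0_7, G3p1_2, G3p1_3, G3p1_4, G3p1_5, G3p1_6, G3p1_7,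
  G3p2_3, G3p2_4, G3p2_5, G3p2_6, G3p2_7, G3p3_4, G3p3_5, G3p3_6, G3p3_7, G3p4_5, G3p4_6, G3p4_7,
  G3p5_6, G3p5_7, G3p6_7, G3p8_7, G3p8_9, G3p9_7]⟩) (.leaf ⟨1160321158, 37965741501196521279654,
  1130806277623037176846598747518156572595600657107531672677892952304340828174, 283281, [G3p0_1,
  G3p0_2, G3p0_3, G3p0_7, G3p1_2, G3p1_3, G3p2_3, G3p4_1, G3p4_2, G3p4_3, G3p4_5, G3p4_6, G3p4_7,
  G3p5_1, G3p5_2, G3p5_3, G3p5_6, G3p5_7, G3p6_1, G3p6_2, G3p6_3, G3p6_7, G3p8_7, G3p8_9,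
  G3p9_7]⟩))) (.node 238 (.node 237 (.leaf ⟨1159878788, 37965741283288134291616,
  1130806277623037088965833498045345303510844322590663393481583390873471680655, 283173, [G3p0_7,
  G3p1_2, G3p1_3, G3p2_3, G3p4_5, G3p4_6, G3p4_7, G3p5_6, G3p5_7, G3p6_7, G3p8_7, G3p8_9, G3p9_7]⟩)
  (.leaf ⟨1166170264, 38111011826265168678021,
  1130806277623037484420081936971564905592077519431678645219838151151796027535, 284709, [G3p0_7,
  G3p1_2, G3p1_3, G3p2_3, G3p4_0, G3p4_1, G3p4_2, G3p4_3, G3p4_7, G3p5_0, G3p5_1, G3p5_2, G3p5_3,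
  G3p5_4, G3p5_7, G3p6_0, G3p6_1, G3p6_2, G3p6_3, G3p6_4, G3p6_5, G3p6_7, G3p8_7, G3p8_9, G3p9_7]⟩))
  (.node 239 (.leaf ⟨1159829636, 38039528152968028328099,
  1130806277623037088965833498048355945967984586722650296276005701854787797121, 283161, [G3p0_7,
  G3p1_0, G3p1_7, G3p2_0, G3p2_1, G3p2_7, G3p3_0, G3p3_1, G3p3_2, G3p3_7, G3p4_5, G3p4_6, G3p4_7,
  G3p5_6, G3p5_7, G3p6_7, G3p8_7, G3p8_9, G3p9_7]⟩) (.leaf ⟨1166119460, 151160989755156256199811,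
  904652900062486867697910050151971680139791986190318177705070377189885608049, 284697, [G3p1_0,
  G3p1_4, G3p1_5, G3p1_6, G3p2_0, G3p2_1, G3p2_4, G3p2_5, G3p2_6, G3p3_0, G3p3_1, G3p3_2, G3p3_4,
  G3p3_5, G3p3_6, G3p5_4, G3p6_4, G3p6_5, G3p7_0, G3p7_4, G3p7_5, G3p7_6, G3p7_9, G3p8_0, G3p8_4,
  G3p8_5, G3p8_6, G3p8_7, G3p8_9]⟩))))) (.node 248 (.node 244 (.node 242 (.node 241 (.leaf
  ⟨1233228068, 388718159936387766490243,
  904646402774166872317952651428357629280761417673035857448659293825043268593, 301081, [G3p1_0,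
  G3p1_4, G3p1_5, G3p1_6, G3p1_7, G3p1_8, G3p1_9, G3p2_0, G3p2_1, G3p2_4, G3p2_5, G3p2_6, G3p2_7,
  G3p2_8, G3p2_9, G3p3_0, G3p3_1, G3p3_2, G3p3_4, G3p3_5, G3p3_6, G3p3_7, G3p3_8, G3p3_9, G3p5_4,
  G3p6_4, G3p6_5, G3p7_8, G3p7_9, G3p8_9]⟩) (.leaf ⟨1166121112, 38221692184092482866312,
  1130806277623037484420081936974575548049217783563665548014260462133112144001, 284697, [G3p0_7,
  G3p1_0, G3p1_7, G3p2_0, G3p2_1, G3p2_7, G3p3_0, G3p3_1, G3p3_2, G3p3_7, G3p4_0, G3p4_1, G3p4_2,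
  G3p4_3, G3p4_7, G3p5_0, G3p5_1, G3p5_2, G3p5_3, G3p5_4, G3p5_7, G3p6_0, G3p6_1, G3p6_2, G3p6_3,
  G3p6_4, G3p6_5, G3p6_7, G3p8_7, G3p8_9, G3p9_7]⟩)) (.node 243 (.leaf ⟨1166168612,
  151160989861774524355712,
  904652900062486867697910050151815576624871221698463628097948711277806223487, 284709, [G3p1_2,
  G3p1_3, G3p1_4, G3p1_5, G3p1_6, G3p2_3, G3p2_4, G3p2_5, G3p2_6, G3p3_4, G3p3_5, G3p3_6, G3p5_4,
  G3p6_4, G3p6_5, G3p7_0, G3p7_4, G3p7_5, G3p7_6, G3p7_9, G3p8_0, G3p8_4, G3p8_5, G3p8_6, G3p8_7,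
  G3p8_9]⟩) (.leaf ⟨1233277220, 388718160043002813420672,
  904646402774166872317952651428201525765840653181181307841537627912963884031, 301093, [G3p1_2,
  G3p1_3, G3p1_4, G3p1_5, G3p1_6, G3p1_7, G3p1_8, G3p1_9, G3p2_3, G3p2_4, G3p2_5, G3p2_6, G3p2_7,
  G3p2_8, G3p2_9, G3p3_4, G3p3_5, G3p3_6, G3p3_7, G3p3_8, G3p3_9, G3p5_4, G3p6_4, G3p6_5, G3p7_8,
  G3p7_9, G3p8_9]⟩))) (.node 246 (.node 245 (.leaf ⟨1159796870, 37965741184537172480166,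
  1130806277623037126629018604962398220581773461665794455404469703945243459590, 283153, [G3p0_1,
  G3p0_2, G3p0_7, G3p1_2, G3p3_1, G3p3_2, G3p4_1, G3p4_2, G3p4_5, G3p4_6, G3p4_7, G3p5_1, G3p5_2,
  G3p5_6, G3p5_7, G3p6_1, G3p6_2, G3p6_7, G3p8_7, G3p8_9, G3p9_7]⟩) (.leaf ⟨1166563474,
  38074118049901652939907,
  1130806277623037390262119169682255458658635622214504866865765146052530274432, 284805, [G3p0_7,
  G3p1_7, G3p2_1, G3p2_7, G3p3_1, G3p3_2, G3p3_7, G3p4_7, G3p5_4, G3p5_7, G3p6_4, G3p6_5, G3p6_7,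
  G3p8_7, G3p8_9, G3p9_7]⟩)) (.node 247 (.leaf ⟨1160272018, 38194242562762509423747,
  1130806277623037088965833498050831366456940567940381772903223791508496842992, 283269, [G3p0_4,
  G3p0_5, G3p0_6, G3p0_7, G3p1_4, G3p1_5, G3p1_6, G3p1_7, G3p2_1, G3p2_4, G3p2_5, G3p2_6, G3p2_7,
  G3p3_1, G3p3_2, G3p3_4, G3p3_5, G3p3_6, G3p3_7, G3p4_5, G3p4_6, G3p4_7, G3p5_6, G3p5_7, G3p6_7,
  G3p8_7, G3p8_9, G3p9_7]⟩) (.leaf ⟨1166086694, 151157419533286166857765,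
  904653061824635127437730627217272316153175367357389915280277484270404370438, 284689, [G3p0_1,
  G3p0_2, G3p1_2, G3p3_1, G3p3_2, G3p3_4, G3p3_5, G3p3_6, G3p5_4, G3p6_4, G3p6_5, G3p7_0, G3p7_1,
  G3p7_2, G3p7_4, G3p7_5, G3p7_6, G3p7_9, G3p8_0, G3p8_1, G3p8_2, G3p8_4, G3p8_5, G3p8_6, G3p8_7,
  G3p8_9]⟩)))) (.node 252 (.node 250 (.node 249 (.leaf ⟨1233195302, 271725338795646862329890,
  904646402774166872317952651428334984504871672113656487132489096471321640966, 301073, [G3p0_1,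
  G3p0_2, G3p1_2, G3p3_1, G3p3_2, G3p3_4, G3p3_5, G3p3_6, G3p3_7, G3p3_8, G3p3_9, G3p5_4, G3p6_4,
  G3p6_5, G3p7_8, G3p7_9, G3p8_9]⟩) (.leaf ⟨1166416018, 38000331182561542933569,
  1130806277623037390262119169679400919716416123683566788878165227292909764750, 284769, [G3p0_1,
  G3p0_2, G3p0_3, G3p0_7, G3p2_1, G3p3_1, G3p3_2, G3p4_7, G3p5_4, G3p5_7, G3p6_4, G3p6_5, G3p6_7,
  G3p8_7, G3p8_9, G3p9_7]⟩)) (.node 251 (.leaf ⟨1159862406, 37965741210925451546790,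
  1130806277623037101520228533684362944122423286476073585227094045279907872770, 283169, [G3p0_1,
  G3p0_7, G3p2_1, G3p2_3, G3p3_1, G3p4_1, G3p4_5, G3p4_6, G3p4_7, G3p5_1, G3p5_6, G3p5_7, G3p6_1,
  G3p6_7, G3p8_7, G3p8_9, G3p9_7]⟩) (.leaf ⟨1166152230, 151158609636975490239557,
  904652953983202954277850242506967837425729194661404263766328586051282665474, 284705, [G3p0_1,
  G3p2_1, G3p2_3, G3p2_4, G3p2_5, G3p2_6, G3p3_1, G3p3_4, G3p3_5, G3p3_6, G3p5_4, G3p6_4, G3p6_5,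
  G3p7_0, G3p7_1, G3p7_4, G3p7_5, G3p7_6, G3p7_9, G3p8_0, G3p8_1, G3p8_4, G3p8_5, G3p8_6, G3p8_7,
  G3p8_9]⟩))) (.node 254 (.node 253 (.leaf ⟨1233260838, 310722945874491073498179,
  904646402774166872317952651428246127931506305632094524903898937689145212930, 301089, [G3p0_1,
  G3p2_1, G3p2_3, G3p2_4, G3p2_5, G3p2_6, G3p2_7, G3p2_8, G3p2_9, G3p3_1, G3p3_4, G3p3_5, G3p3_6,
  G3p3_7, G3p3_8, G3p3_9, G3p5_4, G3p6_4, G3p6_5, G3p7_8, G3p7_9, G3p8_9]⟩) (.leaf ⟨1160008210,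
  151164483667723922021573,
  904653115745350912721385147935826714589202730842906735682107185601269203064, 283205, [G3p0_3,
  G3p0_4, G3p0_5, G3p0_6, G3p1_3, G3p1_4, G3p1_5, G3p1_6, G3p2_1, G3p2_3, G3p2_4, G3p2_5, G3p2_6,
  G3p4_5, G3p4_6, G3p5_6, G3p7_0, G3p7_3, G3p7_4, G3p7_5, G3p7_6, G3p7_9, G3p8_0, G3p8_3, G3p8_4,
  G3p8_5, G3p8_6, G3p8_7, G3p8_9]⟩)) (.node 255 (.leaf ⟨1160270354, 151164483422567188765893,
  904652900062486566401624378518027565278168779890276140386162009907190038640, 283269, [G3p0_4,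
  G3p0_5, G3p0_6, G3p1_4, G3p1_5, G3p1_6, G3p2_1, G3p2_4, G3p2_5, G3p2_6, G3p3_1, G3p3_2, G3p3_4,
  G3p3_5, G3p3_6, G3p4_5, G3p4_6, G3p5_6, G3p7_0, G3p7_4, G3p7_5, G3p7_6, G3p7_9, G3p8_0, G3p8_4,
  G3p8_5, G3p8_6, G3p8_7, G3p8_9]⟩) (.leaf ⟨1159877144, 151160913518493540913318,
  904653277507499172461205725001149651688072191868016205816016321097908551695, 283173, [G3p1_2,
  G3p1_3, G3p2_3, G3p4_5, G3p4_6, G3p5_6, G3p7_0, G3p7_1, G3p7_2, G3p7_3, G3p7_4, G3p7_5, G3p7_6,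
  G3p7_9, G3p8_0, G3p8_1, G3p8_2, G3p8_3, G3p8_4, G3p8_5, G3p8_6, G3p8_7, G3p8_9]⟩))))))

def G3T5 : Tr :=
  .node 288 (.node 272 (.node 264 (.node 260 (.node 258 (.node 257 (.leaf ⟨1178882578,
  151154963058111660793029,
  904650096185250064244734376049797793166754828076261394952428106997853323272, 287813, [G3p0_3,
  G3p1_3, G3p2_1, G3p2_3, G3p4_5, G3p4_6, G3p5_6, G3p7_0, G3p7_3, G3p7_9, G3p8_0, G3p8_3, G3p8_7,
  G3p8_9]⟩) (.leaf ⟨1159270946, 151157234041276514535717,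
  904651983410313094544173557251379338824576616843737955019210262282661527566, 283025, [G3p0_1,
  G3p0_2, G3p0_3, G3p1_2, G3p1_3, G3p2_3, G3p4_6, G3p5_4, G3p5_6, G3p7_0, G3p7_1, G3p7_2, G3p7_3,
  G3p7_6, G3p7_9, G3p8_0, G3p8_1, G3p8_2, G3p8_3, G3p8_6, G3p8_7, G3p8_9]⟩)) (.node 259 (.leaf
  ⟨1226379554, 271725153198084093741250,
  904646402774166571109020488338570536646272077822820212388468750858279976974, 299409, [G3p0_1,
  G3p0_2, G3p0_3, G3p1_2, G3p1_3, G3p2_3, G3p4_6, G3p4_7, G3p4_8, G3p4_9, G3p5_4, G3p5_6, G3p5_7,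
  G3p5_8, G3p5_9, G3p7_8, G3p7_9, G3p8_9]⟩) (.leaf ⟨1179193874, 151154963101164412971301,
  904650257947398323984554953115120768377830931477535475129262448314886914062, 287889, [G3p0_1,
  G3p0_2, G3p0_3, G3p1_2, G3p1_3, G3p2_3, G3p4_5, G3p4_6, G3p5_6, G3p7_0, G3p7_1, G3p7_2, G3p7_3,
  G3p7_9, G3p8_0, G3p8_1, G3p8_2, G3p8_3, G3p8_7, G3p8_9]⟩))) (.node 262 (.node 261 (.leaf
  ⟨1246302482, 271722882257971992173762,
  904646402774172195390642946031721439244130307382693377836366861979183218702, 304273, [G3p0_1,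
  G3p0_2, G3p0_3, G3p1_2, G3p1_3, G3p2_3, G3p4_5, G3p4_6, G3p4_7, G3p4_8, G3p4_9, G3p5_6, G3p5_7,
  G3p5_8, G3p5_9, G3p6_7, G3p6_8, G3p6_9, G3p7_8, G3p7_9, G3p8_9]⟩) (.leaf ⟨1179195490,
  37935988288667079808193,
  1328696168392242051269537539939967463278671499513629597635782057080324620302, 287889, [G3p0_1,
  G3p0_2, G3p0_3, G3p0_4, G3p0_5, G3p0_6, G3p0_7, G3p1_2, G3p1_3, G3p2_3, G3p4_5, G3p4_6, G3p5_6,
  G3p8_4, G3p8_5, G3p8_6, G3p8_7, G3p8_9, G3p9_4, G3p9_5, G3p9_6, G3p9_7]⟩)) (.node 263 (.leaf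
  ⟨1178702372, 151162103270164123653251,
  904649880502385717924973606632020983053413599357833142258110166021333581937, 287769, [G3p1_0,
  G3p1_4, G3p1_5, G3p1_6, G3p2_0, G3p2_1, G3p2_4, G3p2_5, G3p2_6, G3p3_0, G3p3_1, G3p3_2, G3p3_4,
  G3p3_5, G3p3_6, G3p4_5, G3p4_6, G3p5_6, G3p7_0, G3p7_9, G3p8_0, G3p8_7, G3p8_9]⟩) (.leaf
  ⟨1178751524, 151162103376782391809152,
  904649880502385717924973606631864879538492834865978592650988500109254197375, 287781, [G3p1_2,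
  G3p1_3, G3p1_4, G3p1_5, G3p1_6, G3p2_3, G3p2_4, G3p2_5, G3p2_6, G3p3_4, G3p3_5, G3p3_6, G3p4_5,
  G3p4_6, G3p5_6, G3p7_0, G3p7_9, G3p8_0, G3p8_7, G3p8_9]⟩)))) (.node 268 (.node 266 (.node 265
  (.leaf ⟨1178751512, 151154963137485877645478,
  904650257947398418142517720407418556682927001876546422107310869112454840335, 287781, [G3p1_2,
  G3p1_3, G3p2_3, G3p4_0, G3p4_1, G3p4_2, G3p4_3, G3p4_5, G3p4_6, G3p5_0, G3p5_1, G3p5_2, G3p5_3,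
  G3p5_6, G3p6_0, G3p6_1, G3p6_2, G3p6_3, G3p7_0, G3p7_1, G3p7_2, G3p7_3, G3p7_9, G3p8_0, G3p8_1,
  G3p8_2, G3p8_3, G3p8_7, G3p8_9]⟩) (.leaf ⟨1245810968, 271722882296636361511081,
  904646402774172289548605713324175331064147142273558874421536948688830529537, 304153, [G3p1_0,
  G3p2_0, G3p2_1, G3p3_0, G3p3_1, G3p3_2, G3p4_0, G3p4_1, G3p4_2, G3p4_3, G3p4_5, G3p4_6, G3p4_7,
  G3p4_8, G3p4_9, G3p5_0, G3p5_1, G3p5_2, G3p5_3, G3p5_6, G3p5_7, G3p5_8, G3p5_9, G3p6_0, G3p6_1,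
  G3p6_2, G3p6_3, G3p6_7, G3p6_8, G3p6_9, G3p7_8, G3p7_9, G3p8_9]⟩)) (.node 267 (.leaf ⟨1178702360,
  151154963030870830715049,
  904650257947398418142517720407574660197847766368400971714432535024534224897, 287769, [G3p1_0,
  G3p2_0, G3p2_1, G3p3_0, G3p3_1, G3p3_2, G3p4_0, G3p4_1, G3p4_2, G3p4_3, G3p4_5, G3p4_6, G3p5_0,
  G3p5_1, G3p5_2, G3p5_3, G3p5_6, G3p6_0, G3p6_1, G3p6_2, G3p6_3, G3p7_0, G3p7_1, G3p7_2, G3p7_3,
  G3p7_9, G3p8_0, G3p8_1, G3p8_2, G3p8_3, G3p8_7, G3p8_9]⟩) (.leaf ⟨1245860120,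
  271722882403251408441510,
  904646402774172289548605713324019227549226377781704324814415282776751144975, 304165, [G3p1_2,
  G3p1_3, G3p2_3, G3p4_0, G3p4_1, G3p4_2, G3p4_3, G3p4_5, G3p4_6, G3p4_7, G3p4_8, G3p4_9, G3p5_0,
  G3p5_1, G3p5_2, G3p5_3, G3p5_6, G3p5_7, G3p5_8, G3p5_9, G3p6_0, G3p6_1, G3p6_2, G3p6_3, G3p6_7,
  G3p6_8, G3p6_9, G3p7_8, G3p7_9, G3p8_9]⟩))) (.node 270 (.node 269 (.leaf ⟨1178669606,
  151158533048294034311205,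
  904650042264533977664794183697321619066796980524904879833317273101852344326, 287761, [G3p0_1,
  G3p0_2, G3p1_2, G3p3_1, G3p3_2, G3p3_4, G3p3_5, G3p3_6, G3p4_5, G3p4_6, G3p5_6, G3p7_0, G3p7_1,
  G3p7_2, G3p7_9, G3p8_0, G3p8_1, G3p8_2, G3p8_7, G3p8_9]⟩) (.leaf ⟨1179144722,
  151154962812954927537349,
  904649880502385717924973606629500960393485447331778799209946314815104352256, 287877, [G3p2_1,
  G3p3_1, G3p3_2, G3p4_5, G3p4_6, G3p5_6, G3p7_0, G3p7_9, G3p8_0, G3p8_7, G3p8_9]⟩)) (.node 271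
  (.leaf ⟨1225855270, 271725153022162233296930,
  904646402774166571109020488360113053785752185401332758391150346866591662086, 299281, [G3p0_1,
  G3p0_2, G3p1_2, G3p3_1, G3p3_2, G3p3_6, G3p3_7, G3p3_8, G3p3_9, G3p4_6, G3p4_7, G3p4_8, G3p4_9,
  G3p5_4, G3p5_6, G3p5_7, G3p5_8, G3p5_9, G3p7_8, G3p7_9, G3p8_9]⟩) (.leaf ⟨1245778214,
  388715703226120709277730,
  904646402774172195390642946054334392153139884871999638316135583669112143878, 304145, [G3p0_1,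
  G3p0_2, G3p1_2, G3p3_1, G3p3_2, G3p3_4, G3p3_5, G3p3_6, G3p3_7, G3p3_8, G3p3_9, G3p4_5, G3p4_6,
  G3p4_7, G3p4_8, G3p4_9, G3p5_6, G3p5_7, G3p5_8, G3p5_9, G3p6_7, G3p6_8, G3p6_9, G3p7_8, G3p7_9,
  G3p8_9]⟩))))) (.node 280 (.node 276 (.node 274 (.node 273 (.leaf ⟨1178671206,
  37935988149063462818850,
  1328696168392242051269537539942598948489797638668129525949814759564906987526, 287761, [G3p0_1,
  G3p0_2, G3p0_4, G3p0_5, G3p0_6, G3p0_7, G3p1_2, G3p3_1, G3p3_2, G3p3_4, G3p3_5, G3p3_6, G3p4_5,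
  G3p4_6, G3p5_6, G3p8_4, G3p8_5, G3p8_6, G3p8_7, G3p8_9, G3p9_4, G3p9_5, G3p9_6, G3p9_7]⟩) (.leaf
  ⟨1178998882, 37935988399958272382145,
  1353432404738392771992660830288713343204520379640843119435078121521624776718, 287841, [G3p0_1,
  G3p0_2, G3p0_3, G3p0_4, G3p0_5, G3p0_6, G3p0_7, G3p2_1, G3p3_1, G3p3_2, G3p4_5, G3p4_6, G3p5_6,
  G3p8_1, G3p8_2, G3p8_3, G3p8_4, G3p8_5, G3p8_6, G3p8_7, G3p8_9, G3p9_1, G3p9_2, G3p9_3, G3p9_4,
  G3p9_5, G3p9_6, G3p9_7]⟩)) (.node 275 (.leaf ⟨1178884194, 37935988390887301452994,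
  1342831160590042463111322277282031508242880723964873413710116944293751422984, 287813, [G3p0_3,
  G3p0_4, G3p0_5, G3p0_6, G3p0_7, G3p1_3, G3p2_1, G3p2_3, G3p4_5, G3p4_6, G3p5_6, G3p8_3, G3p8_4,
  G3p8_5, G3p8_6, G3p8_7, G3p8_9, G3p9_3, G3p9_4, G3p9_5, G3p9_6, G3p9_7]⟩) (.leaf ⟨1178735142,
  151159723151983357692997,
  904649934423101804504913798987017140339350807828919228319368374882730639362, 287777, [G3p0_1,
  G3p2_1, G3p2_3, G3p2_4, G3p2_5, G3p2_6, G3p3_1, G3p3_4, G3p3_5, G3p3_6, G3p4_5, G3p4_6, G3p5_6,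
  G3p7_0, G3p7_1, G3p7_9, G3p8_0, G3p8_1, G3p8_7, G3p8_9]⟩))) (.node 278 (.node 277 (.leaf
  ⟨1147425352, 264489454844773917658179,
  904649880502389239423585919671358390797073471233750480989382348224984186883, 280133, [G3p2_0,
  G3p2_1, G3p2_3, G3p2_9, G3p3_0, G3p3_1, G3p3_9, G3p4_0, G3p4_9, G3p5_0, G3p5_4, G3p5_9, G3p6_0,
  G3p6_4, G3p6_5, G3p6_9, G3p7_0, G3p7_9, G3p8_0, G3p8_7, G3p8_9]⟩) (.leaf ⟨1150571106,
  226712826854396945076487,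
  904650096185253334664641160002274306963758378461843972254799754664018968584, 280901, [G3p0_3,
  G3p1_3, G3p2_1, G3p2_3, G3p4_0, G3p4_3, G3p4_5, G3p4_6, G3p4_9, G3p5_0, G3p5_3, G3p5_6, G3p5_9,
  G3p6_0, G3p6_3, G3p6_9, G3p7_0, G3p7_3, G3p7_9, G3p8_0, G3p8_3, G3p8_7, G3p8_9]⟩)) (.node 279
  (.leaf ⟨1147687492, 264489454992211554995328,
  904649880502389327304351169132818403288664551653443339967038754738748129295, 280197, [G3p2_1,
  G3p3_1, G3p3_2, G3p4_0, G3p4_1, G3p4_2, G3p4_3, G3p4_9, G3p5_0, G3p5_1, G3p5_2, G3p5_3, G3p5_4,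
  G3p5_9, G3p6_0, G3p6_1, G3p6_2, G3p6_3, G3p6_4, G3p6_5, G3p6_9, G3p7_0, G3p7_9, G3p8_0, G3p8_7,
  G3p8_9]⟩) (.leaf ⟨1147426962, 38044365158567045664866,
  1130806277623036586780836888784992739433053157486396054994685533552878551288, 280133, [G3p0_3,
  G3p0_4, G3p0_5, G3p0_6, G3p0_7, G3p1_3, G3p1_4, G3p1_5, G3p1_6, G3p1_7, G3p2_1, G3p2_3, G3p2_4,
  G3p2_5, G3p2_6, G3p2_7, G3p5_4, G3p6_4, G3p6_5, G3p8_7, G3p8_9, G3p9_7]⟩)))) (.node 284 (.node 282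
  (.node 281 (.leaf ⟨1150883910, 37930037943977659990050,
  1130806277623036285484551217151070843307357846829695346426574768593982849038, 280977, [G3p0_1,
  G3p0_2, G3p0_3, G3p0_7, G3p1_2, G3p1_3, G3p2_3, G3p4_5, G3p4_6, G3p5_6, G3p8_7, G3p8_9, G3p9_7]⟩)
  (.leaf ⟨1147738182, 37926544385521457695877,
  1130806277623036674661602138257803926168251305570162455022214892461977632782, 280209, [G3p0_1,
  G3p0_2, G3p0_3, G3p0_7, G3p1_2, G3p1_3, G3p2_3, G3p4_1, G3p4_2, G3p4_3, G3p5_1, G3p5_2, G3p5_3,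
  G3p5_4, G3p6_1, G3p6_2, G3p6_3, G3p6_4, G3p6_5, G3p8_7, G3p8_9, G3p9_7]⟩)) (.node 283 (.leaf
  ⟨1147738258, 38120532290597845964961,
  1130806277623036586780836888790344917600156542861290814849472072997357486334, 280209, [G3p0_1,
  G3p0_2, G3p0_3, G3p0_4, G3p0_5, G3p0_6, G3p0_7, G3p1_2, G3p1_3, G3p1_4, G3p1_5, G3p1_6, G3p1_7,
  G3p2_3, G3p2_4, G3p2_5, G3p2_6, G3p2_7, G3p3_4, G3p3_5, G3p3_6, G3p3_7, G3p5_4, G3p6_4, G3p6_5,
  G3p8_7, G3p8_9, G3p9_7]⟩) (.leaf ⟨1147294276, 264489454917238605876352,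
  904649880502389239423585919659873331774473543594853320372587980644692262927, 280101, [G3p1_2,
  G3p1_3, G3p2_3, G3p4_0, G3p4_9, G3p5_0, G3p5_4, G3p5_9, G3p6_0, G3p6_4, G3p6_5, G3p6_9, G3p7_0,
  G3p7_9, G3p8_0, G3p8_7, G3p8_9]⟩))) (.node 286 (.node 285 (.leaf ⟨1150440004,
  264492948584649538535552,
  904649880502388938127300248025951517998336418262060215773552751188146913295, 280869, [G3p1_2,
  G3p1_3, G3p2_3, G3p4_0, G3p4_5, G3p4_6, G3p4_9, G3p5_0, G3p5_6, G3p5_9, G3p6_0, G3p6_9, G3p7_0,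
  G3p7_9, G3p8_0, G3p8_7, G3p8_9]⟩) (.leaf ⟨1150390852, 264492948478031270379651,
  904649880502388938127300248026107621513257182753914765380674417100226297857, 280857, [G3p1_0,
  G3p2_0, G3p2_1, G3p3_0, G3p3_1, G3p3_2, G3p4_0, G3p4_5, G3p4_6, G3p4_9, G3p5_0, G3p5_6, G3p5_9,
  G3p6_0, G3p6_9, G3p7_0, G3p7_9, G3p8_0, G3p8_7, G3p8_9]⟩)) (.node 287 (.leaf ⟨1147245124,
  264489454810620337720451,
  904649880502389239423585919660029435289394308086707869979709646556771647489, 280089, [G3p1_0,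
  G3p2_0, G3p2_1, G3p3_0, G3p3_1, G3p3_2, G3p4_0, G3p4_9, G3p5_0, G3p5_4, G3p5_9, G3p6_0, G3p6_4,
  G3p6_5, G3p6_9, G3p7_0, G3p7_9, G3p8_0, G3p8_7, G3p8_9]⟩) (.leaf ⟨1147212358,
  264489454820756460539016,
  904650042264537536826591603642249224737022750250332275002957702350453997574, 280081, [G3p0_1,
  G3p0_2, G3p1_2, G3p3_1, G3p3_2, G3p4_0, G3p4_1, G3p4_2, G3p4_9, G3p5_0, G3p5_1, G3p5_2, G3p5_4,
  G3p5_9, G3p6_0, G3p6_1, G3p6_2, G3p6_4, G3p6_5, G3p6_9, G3p7_0, G3p7_1, G3p7_2, G3p7_9, G3p8_0,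
  G3p8_1, G3p8_2, G3p8_7, G3p8_9]⟩)))))) (.node 304 (.node 296 (.node 292 (.node 290 (.node 289
  (.leaf ⟨1150358086, 264492948488167393198120,
  904650042264537235530305932008327410960885624917539170403922472893908647942, 280849, [G3p0_1,
  G3p0_2, G3p1_2, G3p3_1, G3p3_2, G3p4_0, G3p4_1, G3p4_2, G3p4_5, G3p4_6, G3p4_9, G3p5_0, G3p5_1,
  G3p5_2, G3p5_6, G3p5_9, G3p6_0, G3p6_1, G3p6_2, G3p6_9, G3p7_0, G3p7_1, G3p7_2, G3p7_9, G3p8_0,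
  G3p8_1, G3p8_2, G3p8_7, G3p8_9]⟩) (.leaf ⟨1150833220, 264492948550667757289504,
  904649880502388938127300248026085320427771092912976231371398630870753345551, 280965, [G3p2_1,
  G3p3_1, G3p3_2, G3p4_0, G3p4_5, G3p4_6, G3p4_9, G3p5_0, G3p5_6, G3p5_9, G3p6_0, G3p6_9, G3p7_0,
  G3p7_9, G3p8_0, G3p8_7, G3p8_9]⟩)) (.node 291 (.leaf ⟨1150359622, 37930037768055799545890,
  1130806277623036285484551217151204645056248556192343274294070854555527413766, 280849, [G3p0_1,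
  G3p0_2, G3p0_7, G3p1_2, G3p3_1, G3p3_2, G3p4_5, G3p4_6, G3p5_6, G3p8_7, G3p8_9, G3p9_7]⟩) (.leaf
  ⟨1147213894, 37926544104046480985221,
  1130806277623036624444021995702045574154424110128425237748793895902693949446, 280081, [G3p0_1,
  G3p0_2, G3p0_7, G3p1_2, G3p3_1, G3p3_2, G3p4_1, G3p4_2, G3p5_1, G3p5_2, G3p5_4, G3p6_1, G3p6_2,
  G3p6_4, G3p6_5, G3p8_7, G3p8_9, G3p9_7]⟩))) (.node 294 (.node 293 (.leaf ⟨1147689106,
  38082448583312381514883,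
  1130806277623036586780836888790478720029591216403012555247617226310218154224, 280197, [G3p0_4,
  G3p0_5, G3p0_6, G3p0_7, G3p1_4, G3p1_5, G3p1_6, G3p1_7, G3p2_1, G3p2_4, G3p2_5, G3p2_6, G3p2_7,
  G3p3_1, G3p3_2, G3p3_4, G3p3_5, G3p3_6, G3p3_7, G3p5_4, G3p6_4, G3p6_5, G3p8_7, G3p8_9, G3p9_7]⟩)
  (.leaf ⟨1147277894, 264489454844945716350088,
  904649934423105338557921147653998631016592530007046143020593104595791773698, 280097, [G3p0_1,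
  G3p2_1, G3p2_3, G3p3_1, G3p4_0, G3p4_1, G3p4_9, G3p5_0, G3p5_1, G3p5_4, G3p5_9, G3p6_0, G3p6_1,
  G3p6_4, G3p6_5, G3p6_9, G3p7_0, G3p7_1, G3p7_9, G3p8_0, G3p8_1, G3p8_7, G3p8_9]⟩)) (.node 295
  (.leaf ⟨1150423622, 264492948512356649009224,
  904649934423105037261635476020076817240455404674253038421557875139246424066, 280865, [G3p0_1,
  G3p2_1, G3p2_3, G3p3_1, G3p4_0, G3p4_1, G3p4_5, G3p4_6, G3p4_9, G3p5_0, G3p5_1, G3p5_6, G3p5_9,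
  G3p6_0, G3p6_1, G3p6_9, G3p7_0, G3p7_1, G3p7_9, G3p8_0, G3p8_1, G3p8_7, G3p8_9]⟩) (.leaf
  ⟨1145328226, 151152768679193224448197,
  904650096185253635909491735371584071119716480094021626616247952067340533768, 279621, [G3p0_3,
  G3p1_3, G3p2_1, G3p2_3, G3p4_5, G3p6_0, G3p6_3, G3p6_4, G3p6_5, G3p6_9, G3p7_0, G3p7_3, G3p7_9,
  G3p8_0, G3p8_3, G3p8_7, G3p8_9]⟩)))) (.node 300 (.node 298 (.node 297 (.leaf ⟨1145639522,
  151152768722245976623397,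
  904650257947401933311922724756991629345529122741294203407216648984081727502, 279697, [G3p0_1,
  G3p0_2, G3p0_3, G3p1_2, G3p1_3, G3p2_3, G3p4_5, G3p6_0, G3p6_1, G3p6_2, G3p6_3, G3p6_4, G3p6_5,
  G3p6_9, G3p7_0, G3p7_1, G3p7_2, G3p7_3, G3p7_9, G3p8_0, G3p8_1, G3p8_2, G3p8_3, G3p8_7, G3p8_9]⟩)
  (.leaf ⟨1145641106, 38120521031598777538721,
  1130806277623036486345676954438596752123643663414213232098916139580805611758, 279697, [G3p0_1,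
  G3p0_2, G3p0_3, G3p0_5, G3p0_6, G3p0_7, G3p1_2, G3p1_3, G3p1_5, G3p1_6, G3p1_7, G3p2_3, G3p2_5,
  G3p2_6, G3p2_7, G3p3_5, G3p3_6, G3p3_7, G3p4_5, G3p4_6, G3p4_7, G3p6_5, G3p8_7, G3p8_9, G3p9_7]⟩))
  (.node 299 (.leaf ⟨1145149592, 38151469734264004740166,
  1130806277623036486345676976359136511395443567516143130990730481304530256001, 279577, [G3p0_7,
  G3p1_0, G3p1_7, G3p2_0, G3p2_1, G3p2_7, G3p3_0, G3p3_1, G3p3_2, G3p3_7, G3p4_0, G3p4_1, G3p4_2,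
  G3p4_3, G3p4_5, G3p4_6, G3p4_7, G3p6_5, G3p8_7, G3p8_9, G3p9_7]⟩) (.leaf ⟨1145198744,
  38040789376436690551875,
  1130806277623036486345676976356125868938303303384156228196308170323214139535, 279589, [G3p0_7,
  G3p1_2, G3p1_3, G3p2_3, G3p4_0, G3p4_1, G3p4_2, G3p4_3, G3p4_5, G3p4_6, G3p4_7, G3p6_5, G3p8_7,
  G3p8_9, G3p9_7]⟩))) (.node 302 (.node 301 (.leaf ⟨1145115238, 151152768440770999912485,
  904650042264537536775348072244319121655473826246273993322976170641534091270, 279569, [G3p0_1,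
  G3p0_2, G3p1_2, G3p3_1, G3p3_2, G3p3_4, G3p3_5, G3p4_5, G3p6_0, G3p6_1, G3p6_2, G3p6_4, G3p6_5,
  G3p6_9, G3p7_0, G3p7_1, G3p7_2, G3p7_9, G3p8_0, G3p8_1, G3p8_2, G3p8_7, G3p8_9]⟩) (.leaf
  ⟨1145148004, 151152879898127268615299,
  904649880502389239372917082858933880848950115894195868509433880528712368177, 279577, [G3p1_0,
  G3p1_4, G3p1_5, G3p2_0, G3p2_1, G3p2_4, G3p2_5, G3p3_0, G3p3_1, G3p3_2, G3p3_4, G3p3_5, G3p4_5,
  G3p6_0, G3p6_4, G3p6_5, G3p6_9, G3p7_0, G3p7_9, G3p8_0, G3p8_7, G3p8_9]⟩)) (.node 303 (.leaf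
  ⟨1145590370, 151152768434036491192517,
  904649880502389239372917082857841127660131713688207702054920352338142035968, 279685, [G3p2_1,
  G3p3_1, G3p3_2, G3p4_5, G3p6_0, G3p6_4, G3p6_5, G3p6_9, G3p7_0, G3p7_9, G3p8_0, G3p8_7, G3p8_9]⟩)
  (.leaf ⟨1145641058, 37926764916630225032385,
  1215616230809839057830012864064563428516021573089224610709851011726987755534, 279697, [G3p0_1,
  G3p0_2, G3p0_3, G3p0_4, G3p0_5, G3p0_7, G3p1_2, G3p1_3, G3p2_3, G3p4_5, G3p6_4, G3p6_5, G3p8_4,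
  G3p8_5, G3p8_7, G3p8_9, G3p9_4, G3p9_5, G3p9_7]⟩))))) (.node 312 (.node 308 (.node 306 (.node 305
  (.leaf ⟨1145197156, 151152880004745536771200,
  904649880502389239372917082858777777334029351402341318902312214616632983615, 279589, [G3p1_2,
  G3p1_3, G3p1_4, G3p1_5, G3p2_3, G3p2_4, G3p2_5, G3p3_4, G3p3_5, G3p4_5, G3p6_0, G3p6_4, G3p6_5,
  G3p6_9, G3p7_0, G3p7_9, G3p8_0, G3p8_7, G3p8_9]⟩) (.leaf ⟨1145116774, 37926764777026608043042,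
  1215616230809839057830012864065767666034441752362666253054434219075183181830, 279569, [G3p0_1,
  G3p0_2, G3p0_4, G3p0_5, G3p0_7, G3p1_2, G3p3_1, G3p3_2, G3p3_4, G3p3_5, G3p4_5, G3p6_4, G3p6_5,
  G3p8_4, G3p8_5, G3p8_7, G3p8_9, G3p9_4, G3p9_5, G3p9_7]⟩)) (.node 307 (.leaf ⟨1145180774,
  151152805622955716414533,
  904649934423105338507060745987291565806798477779561015743629493033201958914, 279585, [G3p0_1,
  G3p2_1, G3p2_3, G3p2_4, G3p2_5, G3p3_1, G3p3_4, G3p3_5, G3p4_5, G3p6_0, G3p6_1, G3p6_4, G3p6_5,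
  G3p6_9, G3p7_0, G3p7_1, G3p7_9, G3p8_0, G3p8_1, G3p8_7, G3p8_9]⟩) (.leaf ⟨1244205330,
  193728039708894198537410,
  904646402774172496599575109099943386297052640352282853669885938823085424702, 303761, [G3p0_1,
  G3p0_2, G3p0_3, G3p0_4, G3p0_5, G3p1_2, G3p1_3, G3p1_4, G3p1_5, G3p2_3, G3p2_4, G3p2_5, G3p3_4,
  G3p3_5, G3p4_5, G3p6_4, G3p6_5, G3p6_7, G3p6_8, G3p6_9, G3p7_8, G3p7_9, G3p8_9]⟩))) (.node 310
  (.node 309 (.leaf ⟨1175736866, 151152659466902260812997,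
  904650096185250415758600190239611760705609858213439644692380419490622996488, 287045, [G3p0_3,
  G3p1_3, G3p2_1, G3p2_3, G3p4_3, G3p5_3, G3p5_4, G3p6_3, G3p6_4, G3p6_5, G3p7_0, G3p7_3, G3p7_9,
  G3p8_0, G3p8_3, G3p8_7, G3p8_9]⟩) (.leaf ⟨1176048162, 151152659509955012988197,
  904650257947398625280840624749042582153968056810328579728297678252468600846, 287121, [G3p0_1,
  G3p0_2, G3p0_3, G3p1_2, G3p1_3, G3p2_3, G3p5_4, G3p6_4, G3p6_5, G3p7_0, G3p7_1, G3p7_2, G3p7_3,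
  G3p7_9, G3p8_0, G3p8_1, G3p8_2, G3p8_3, G3p8_7, G3p8_9]⟩)) (.node 311 (.leaf ⟨1243156770,
  310716995638584585358530,
  904646402774172496686928617665643253020267432715486482435402095765055602702, 303505, [G3p0_1,
  G3p0_2, G3p0_3, G3p1_2, G3p1_3, G3p2_3, G3p4_7, G3p4_8, G3p4_9, G3p5_4, G3p5_7, G3p5_8, G3p5_9,
  G3p6_4, G3p6_5, G3p6_7, G3p6_8, G3p6_9, G3p7_8, G3p7_9, G3p8_9]⟩) (.leaf ⟨1175605796,
  151152659328363795780736,
  904649880502386019221259278263288971740187898013655888211135665130210066447, 287013, [G3p1_2,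
  G3p1_3, G3p2_3, G3p5_4, G3p6_4, G3p6_5, G3p7_0, G3p7_9, G3p8_0, G3p8_7, G3p8_9]⟩)))) (.node 316
  (.node 314 (.node 313 (.leaf ⟨1175556644, 151152659221745527624835,
  904649880502386019221259278263445075255108662505510437818257331042289451009, 287001, [G3p1_0,
  G3p2_0, G3p2_1, G3p3_0, G3p3_1, G3p3_2, G3p5_4, G3p6_4, G3p6_5, G3p7_0, G3p7_9, G3p8_0, G3p8_7,
  G3p8_9]⟩) (.leaf ⟨1175523878, 151152659228480036277285,
  904650042264534278961079855328745749380698676065845983985815886069720547334, 286993, [G3p0_1,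
  G3p0_2, G3p1_2, G3p3_1, G3p3_2, G3p5_4, G3p6_4, G3p6_5, G3p7_0, G3p7_1, G3p7_2, G3p7_9, G3p8_0,
  G3p8_1, G3p8_2, G3p8_7, G3p8_9]⟩)) (.node 315 (.leaf ⟨1175999010, 151152659221745527557317,
  904649880502386019221259278263422774169622572664571903808981544752686039040, 287109, [G3p2_1,
  G3p3_1, G3p3_2, G3p5_4, G3p6_4, G3p6_5, G3p7_0, G3p7_9, G3p8_0, G3p8_7, G3p8_9]⟩) (.leaf
  ⟨1242632486, 310716995462662724914210,
  904646402774172496686928617685758522467041580412940742468634196636980346886, 303377, [G3p0_1,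
  G3p0_2, G3p1_2, G3p3_1, G3p3_2, G3p3_7, G3p3_8, G3p3_9, G3p4_7, G3p4_8, G3p4_9, G3p5_4, G3p5_7,
  G3p5_8, G3p5_9, G3p6_4, G3p6_5, G3p6_7, G3p6_8, G3p6_9, G3p7_8, G3p7_9, G3p8_9]⟩))) (.node 318
  (.node 317 (.leaf ⟨1145444450, 37926765027921417606337,
  1240352467155989866432560449826840002142922378123767957942123298664771092494, 279649, [G3p0_1,
  G3p0_2, G3p0_3, G3p0_4, G3p0_5, G3p0_7, G3p2_1, G3p3_1, G3p3_2, G3p4_5, G3p6_1, G3p6_2, G3p6_3,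
  G3p6_4, G3p6_5, G3p8_1, G3p8_2, G3p8_3, G3p8_4, G3p8_5, G3p8_7, G3p8_9, G3p9_1, G3p9_2, G3p9_3,
  G3p9_4, G3p9_5, G3p9_7]⟩) (.leaf ⟨1145348705, 264489564274800392702052,
  904649853542031283962371282093684189616478993246049403742148251247476408847, 279626, [G3p0_9,
  G3p1_2, G3p1_3, G3p2_3, G3p4_5, G3p6_0, G3p6_1, G3p6_2, G3p6_3, G3p6_4, G3p6_5, G3p6_9, G3p7_9,
  G3p8_7, G3p8_9]⟩)) (.node 319 (.leaf ⟨1175589414, 151152659255967826971717,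
  904649934423102105801199470618441232541627408224752424573910955492559159298, 287009, [G3p0_1,
  G3p2_1, G3p2_3, G3p3_1, G3p5_4, G3p6_4, G3p6_5, G3p7_0, G3p7_1, G3p7_9, G3p8_0, G3p8_1, G3p8_7,
  G3p8_9]⟩) (.leaf ⟨1145329762, 37926765018850446677186,
  1229751223007639519888611484500073584166546183201799755603029454652690661384, 279621, [G3p0_3,
  G3p0_4, G3p0_5, G3p0_7, G3p1_3, G3p2_1, G3p2_3, G3p4_5, G3p6_3, G3p6_4, G3p6_5, G3p8_3, G3p8_4,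
  G3p8_5, G3p8_7, G3p8_9, G3p9_3, G3p9_4, G3p9_5, G3p9_7]⟩))))))

def G3T6 : Tr :=
  .node 352 (.node 336 (.node 328 (.node 324 (.node 322 (.node 321 (.leaf ⟨1145329810,
  38044356151367790923874,
  1130806277623036486345676954433601385879716768009583043736491973920422363368, 279621, [G3p0_3,
  G3p0_5, G3p0_6, G3p0_7, G3p1_3, G3p1_5, G3p1_6, G3p1_7, G3p2_1, G3p2_3, G3p2_5, G3p2_6, G3p2_7,
  G3p4_5, G3p4_6, G3p4_7, G3p6_5, G3p8_7, G3p8_9, G3p9_7]⟩) (.leaf ⟨1145591954,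
  38082438450213219931267,
  1130806277623036486345676954438730554553078336955934972497061292893666279648, 279685, [G3p0_5,
  G3p0_6, G3p0_7, G3p1_5, G3p1_6, G3p1_7, G3p2_1, G3p2_5, G3p2_6, G3p2_7, G3p3_1, G3p3_2, G3p3_5,
  G3p3_6, G3p3_7, G3p4_5, G3p4_6, G3p4_7, G3p6_5, G3p8_7, G3p8_9, G3p9_7]⟩)) (.node 323 (.leaf
  ⟨1150571080, 377833314329664258542659,
  904649880502388938127300248039934298594796870837917284734839767615155666947, 280901, [G3p2_0,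
  G3p2_1, G3p2_3, G3p2_4, G3p2_5, G3p2_6, G3p2_9, G3p3_0, G3p3_1, G3p3_4, G3p3_5, G3p3_6, G3p3_9,
  G3p4_0, G3p4_5, G3p4_6, G3p4_9, G3p5_0, G3p5_6, G3p5_9, G3p6_0, G3p6_9, G3p7_0, G3p7_9, G3p8_0,
  G3p8_7, G3p8_9]⟩) (.leaf ⟨1149524114, 38044105075688565018722,
  1130806277623036285498343817323021092815018456694491955158536506640643391688, 280645, [G3p0_3,
  G3p0_6, G3p0_7, G3p1_3, G3p1_6, G3p1_7, G3p2_1, G3p2_3, G3p2_6, G3p2_7, G3p4_6, G3p4_7, G3p5_4,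
  G3p5_6, G3p5_7, G3p8_7, G3p8_9, G3p9_7]⟩))) (.node 326 (.node 325 (.leaf ⟨1149835410,
  38120197898325513705633,
  1130806277623036285498343817327302835212592372158593000536235924732835266766, 280721, [G3p0_1,
  G3p0_2, G3p0_3, G3p0_6, G3p0_7, G3p1_2, G3p1_3, G3p1_6, G3p1_7, G3p2_3, G3p2_6, G3p2_7, G3p3_6,
  G3p3_7, G3p4_6, G3p4_7, G3p5_4, G3p5_6, G3p5_7, G3p8_7, G3p8_9, G3p9_7]⟩) (.leaf ⟨1149393048,
  38078692833119899322468,
  1130806277623036285499780553815107357567517839911823700246554487663008612495, 280613, [G3p0_7,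
  G3p1_2, G3p1_3, G3p2_3, G3p4_0, G3p4_1, G3p4_2, G3p4_3, G3p4_6, G3p4_7, G3p5_0, G3p5_1, G3p5_2,
  G3p5_3, G3p5_4, G3p5_6, G3p5_7, G3p8_7, G3p8_9, G3p9_7]⟩)) (.node 327 (.leaf ⟨1149343896,
  38189373190947213510759,
  1130806277623036285499780553818118000024658104043810603040976798644324728961, 280601, [G3p0_7,
  G3p1_0, G3p1_7, G3p2_0, G3p2_1, G3p2_7, G3p3_0, G3p3_1, G3p3_2, G3p3_7, G3p4_0, G3p4_1, G3p4_2,
  G3p4_3, G3p4_6, G3p4_7, G3p5_0, G3p5_1, G3p5_2, G3p5_3, G3p5_4, G3p5_6, G3p5_7, G3p8_7, G3p8_9,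
  G3p9_7]⟩) (.leaf ⟨1149786258, 38082151345736975062147,
  1130806277623036285498343817327436637642027045700314740934381078045695934656, 280709, [G3p0_6,
  G3p0_7, G3p1_6, G3p1_7, G3p2_1, G3p2_6, G3p2_7, G3p3_1, G3p3_2, G3p3_6, G3p3_7, G3p4_6, G3p4_7,
  G3p5_4, G3p5_6, G3p5_7, G3p8_7, G3p8_9, G3p9_7]⟩)))) (.node 332 (.node 330 (.node 329 (.leaf
  ⟨1149638802, 38006058635387651361857,
  1130806277623036285498343817323154829228697797349310486353130836751457059022, 280673, [G3p0_1,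
  G3p0_2, G3p0_3, G3p0_6, G3p0_7, G3p2_1, G3p3_1, G3p3_2, G3p4_6, G3p4_7, G3p5_4, G3p5_6, G3p5_7,
  G3p8_7, G3p8_9, G3p9_7]⟩) (.leaf ⟨1149522530, 188932710509552304458982,
  904650096185253435099800519983522184027646965138115153129486981168722608136, 280645, [G3p0_3,
  G3p1_3, G3p2_1, G3p2_3, G3p5_0, G3p5_3, G3p5_4, G3p5_6, G3p5_9, G3p6_0, G3p6_3, G3p6_4, G3p6_9,
  G3p7_0, G3p7_3, G3p7_9, G3p8_0, G3p8_3, G3p8_7, G3p8_9]⟩)) (.node 331 (.leaf ⟨1149835362,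
  37927665636555699131585,
  1159076262018637209603280813258799858338997339437754979800311772919671816206, 280721, [G3p0_1,
  G3p0_2, G3p0_3, G3p0_4, G3p0_7, G3p1_2, G3p1_3, G3p2_3, G3p5_4, G3p5_6, G3p6_4, G3p8_4, G3p8_7,
  G3p8_9, G3p9_4, G3p9_7]⟩) (.leaf ⟨1149342308, 188932712481011012801667,
  904649880502389038562459619699725414592146552514681152134038378801691361297, 280601, [G3p1_0,
  G3p1_4, G3p2_0, G3p2_1, G3p2_4, G3p3_0, G3p3_1, G3p3_2, G3p3_4, G3p5_0, G3p5_4, G3p5_6, G3p5_9,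
  G3p6_0, G3p6_4, G3p6_9, G3p7_0, G3p7_9, G3p8_0, G3p8_7, G3p8_9]⟩))) (.node 334 (.node 333 (.leaf
  ⟨1149391460, 188932712587629280957568,
  904649880502389038562459619699569311077225788022826602526916712889611976735, 280613, [G3p1_2,
  G3p1_3, G3p1_4, G3p2_3, G3p2_4, G3p3_4, G3p5_0, G3p5_4, G3p5_6, G3p5_9, G3p6_0, G3p6_4, G3p6_9,
  G3p7_0, G3p7_9, G3p8_0, G3p8_7, G3p8_9]⟩) (.leaf ⟨1149309542, 188932710237079579200550,
  904650042264537335965465294912935374609756537971444588203538109784449744902, 280593, [G3p0_1,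
  G3p0_2, G3p1_2, G3p3_1, G3p3_2, G3p3_4, G3p5_0, G3p5_1, G3p5_2, G3p5_4, G3p5_6, G3p5_9, G3p6_0,
  G3p6_1, G3p6_2, G3p6_4, G3p6_9, G3p7_0, G3p7_1, G3p7_2, G3p7_9, G3p8_0, G3p8_1, G3p8_2, G3p8_7,
  G3p8_9]⟩)) (.node 335 (.leaf ⟨1149784674, 188932710229211199114470,
  904649880502389038562459619699346296138883025218726073976350011878432309248, 280709, [G3p2_1,
  G3p3_1, G3p3_2, G3p5_0, G3p5_4, G3p5_6, G3p5_9, G3p6_0, G3p6_4, G3p6_9, G3p7_0, G3p7_9, G3p8_0,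
  G3p8_7, G3p8_9]⟩) (.leaf ⟨1149311078, 37927665496952082142242,
  1159076262018637209603280813259290472011064538770667479160170232699673772038, 280593, [G3p0_1,
  G3p0_2, G3p0_4, G3p0_7, G3p1_2, G3p3_1, G3p3_2, G3p3_4, G3p5_4, G3p5_6, G3p6_4, G3p8_4, G3p8_7,
  G3p8_9, G3p9_4, G3p9_7]⟩))))) (.node 344 (.node 340 (.node 338 (.node 337 (.leaf ⟨1149375078,
  188932710263467858267206,
  904649934423105137696794844770691335657455861277913202500299309578988945410, 280609, [G3p0_1,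
  G3p2_1, G3p2_3, G3p2_4, G3p3_1, G3p3_4, G3p5_0, G3p5_1, G3p5_4, G3p5_6, G3p5_9, G3p6_0, G3p6_1,
  G3p6_4, G3p6_9, G3p7_0, G3p7_1, G3p7_9, G3p8_0, G3p8_1, G3p8_7, G3p8_9]⟩) (.leaf ⟨1160008216,
  151160913228222471180454,
  904652953983202652981564570870570603161212441777272507124280903052636127235, 283205, [G3p2_0,
  G3p2_1, G3p2_3, G3p3_0, G3p3_1, G3p4_5, G3p4_6, G3p5_6, G3p7_0, G3p7_1, G3p7_4, G3p7_5, G3p7_6,
  G3p7_9, G3p8_0, G3p8_1, G3p8_4, G3p8_5, G3p8_6, G3p8_7, G3p8_9]⟩)) (.node 339 (.leaf ⟨1166299666,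
  151157419771708391398597,
  904653115745351214017670819569748490253133214908746430399388318166405349384, 284741, [G3p0_3,
  G3p1_3, G3p2_1, G3p2_3, G3p5_4, G3p6_4, G3p6_5, G3p7_0, G3p7_3, G3p7_4, G3p7_5, G3p7_6, G3p7_9,
  G3p8_0, G3p8_3, G3p8_4, G3p8_5, G3p8_6, G3p8_7, G3p8_9]⟩) (.leaf ⟨1166610962,
  151157419814761143576869,
  904653277507499473757491396635071465464209318310020510576222659483438940174, 284817, [G3p0_1,
  G3p0_2, G3p0_3, G3p1_2, G3p1_3, G3p2_3, G3p5_4, G3p6_4, G3p6_5, G3p7_0, G3p7_1, G3p7_2, G3p7_3,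
  G3p7_4, G3p7_5, G3p7_6, G3p7_9, G3p8_0, G3p8_1, G3p8_2, G3p8_3, G3p8_4, G3p8_5, G3p8_6, G3p8_7,
  G3p8_9]⟩))) (.node 342 (.node 341 (.leaf ⟨1160319506, 151168053939381272160549,
  904653277507499172461205725003647373262514264036032816305478143406972600446, 283281, [G3p0_1,
  G3p0_2, G3p0_3, G3p0_4, G3p0_5, G3p0_6, G3p1_2, G3p1_3, G3p1_4, G3p1_5, G3p1_6, G3p2_3, G3p2_4,
  G3p2_5, G3p2_6, G3p3_4, G3p3_5, G3p3_6, G3p4_5, G3p4_6, G3p5_6, G3p7_0, G3p7_1, G3p7_2, G3p7_3,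
  G3p7_4, G3p7_5, G3p7_6, G3p7_9, G3p8_0, G3p8_1, G3p8_2, G3p8_3, G3p8_4, G3p8_5, G3p8_6, G3p8_7,
  G3p8_9]⟩) (.leaf ⟨1159827992, 151160913411878493982889,
  904653277507499172461205725001305755202992956359870755423137987009987936257, 283161, [G3p1_0,
  G3p2_0, G3p2_1, G3p3_0, G3p3_1, G3p3_2, G3p4_5, G3p4_6, G3p5_6, G3p7_0, G3p7_1, G3p7_2, G3p7_3,
  G3p7_4, G3p7_5, G3p7_6, G3p7_9, G3p8_0, G3p8_1, G3p8_2, G3p8_3, G3p8_4, G3p8_5, G3p8_6, G3p8_7,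
  G3p8_9]⟩)) (.node 343 (.leaf ⟨1166119448, 151157419853425512914188,
  904653277507499567915454163927525357284226153200886007161392746193086251009, 284697, [G3p1_0,
  G3p2_0, G3p2_1, G3p3_0, G3p3_1, G3p3_2, G3p4_0, G3p4_1, G3p4_2, G3p4_3, G3p5_0, G3p5_1, G3p5_2,
  G3p5_3, G3p5_4, G3p6_0, G3p6_1, G3p6_2, G3p6_3, G3p6_4, G3p6_5, G3p7_0, G3p7_1, G3p7_2, G3p7_3,
  G3p7_4, G3p7_5, G3p7_6, G3p7_9, G3p8_0, G3p8_1, G3p8_2, G3p8_3, G3p8_4, G3p8_5, G3p8_6, G3p8_7,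
  G3p8_9]⟩) (.leaf ⟨1166168600, 151157419960040559844617,
  904653277507499567915454163927369253769305388709031457554271080281006866447, 284709, [G3p1_2,
  G3p1_3, G3p2_3, G3p4_0, G3p4_1, G3p4_2, G3p4_3, G3p5_0, G3p5_1, G3p5_2, G3p5_3, G3p5_4, G3p6_0,
  G3p6_1, G3p6_2, G3p6_3, G3p6_4, G3p6_5, G3p7_0, G3p7_1, G3p7_2, G3p7_3, G3p7_4, G3p7_5, G3p7_6,
  G3p7_9, G3p8_0, G3p8_1, G3p8_2, G3p8_3, G3p8_4, G3p8_5, G3p8_6, G3p8_7, G3p8_9]⟩)))) (.node 348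
  (.node 346 (.node 345 (.leaf ⟨1166561810, 151157419526551658142917,
  904652900062486867697910050149451657479863834164263834656906525983656378368, 284805, [G3p2_1,
  G3p3_1, G3p3_2, G3p5_4, G3p6_4, G3p6_5, G3p7_0, G3p7_4, G3p7_5, G3p7_6, G3p7_9, G3p8_0, G3p8_4,
  G3p8_5, G3p8_6, G3p8_7, G3p8_9]⟩) (.leaf ⟨1166414354, 151157419780779362327749,
  904653277507499473757491396635205267893643992960936526174068539105915830286, 284769, [G3p0_1,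
  G3p0_2, G3p0_3, G3p2_1, G3p3_1, G3p3_2, G3p5_4, G3p6_4, G3p6_5, G3p7_0, G3p7_1, G3p7_2, G3p7_3,
  G3p7_4, G3p7_5, G3p7_6, G3p7_9, G3p8_0, G3p8_1, G3p8_2, G3p8_3, G3p8_4, G3p8_5, G3p8_6, G3p8_7,
  G3p8_9]⟩)) (.node 347 (.leaf ⟨1178997266, 151154963067182631722181,
  904650257947398323984554953115254570807265606128451490727108327937363804174, 287841, [G3p0_1,
  G3p0_2, G3p0_3, G3p2_1, G3p3_1, G3p3_2, G3p4_5, G3p4_6, G3p5_6, G3p7_0, G3p7_1, G3p7_2, G3p7_3,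
  G3p7_9, G3p8_0, G3p8_1, G3p8_2, G3p8_3, G3p8_7, G3p8_9]⟩) (.leaf ⟨1150882374,
  264492948875195486175272,
  904650257947401632067646843984516397496872910466406911287323599431659290638, 280977, [G3p0_1,
  G3p0_2, G3p0_3, G3p1_2, G3p1_3, G3p2_3, G3p4_0, G3p4_1, G3p4_2, G3p4_3, G3p4_5, G3p4_6, G3p4_9,
  G3p5_0, G3p5_1, G3p5_2, G3p5_3, G3p5_6, G3p5_9, G3p6_0, G3p6_1, G3p6_2, G3p6_3, G3p6_9, G3p7_0,
  G3p7_1, G3p7_2, G3p7_3, G3p7_9, G3p8_0, G3p8_1, G3p8_2, G3p8_3, G3p8_7, G3p8_9]⟩))) (.node 350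
  (.node 349 (.leaf ⟨1147736646, 264489455207784553516168,
  904650257947401933363932515618438211273010035799200015886358828888204640270, 280209, [G3p0_1,
  G3p0_2, G3p0_3, G3p1_2, G3p1_3, G3p2_3, G3p4_0, G3p4_1, G3p4_2, G3p4_3, G3p4_9, G3p5_0, G3p5_1,
  G3p5_2, G3p5_3, G3p5_4, G3p5_9, G3p6_0, G3p6_1, G3p6_2, G3p6_3, G3p6_4, G3p6_5, G3p6_9, G3p7_0,
  G3p7_1, G3p7_2, G3p7_3, G3p7_9, G3p8_0, G3p8_1, G3p8_2, G3p8_3, G3p8_7, G3p8_9]⟩) (.leaf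
  ⟨1145442914, 151152768688264195377349,
  904650257947401933311922724757125431774963797392210219005062528666688159758, 279649, [G3p0_1,
  G3p0_2, G3p0_3, G3p2_1, G3p3_1, G3p3_2, G3p4_5, G3p6_0, G3p6_1, G3p6_2, G3p6_3, G3p6_4, G3p6_5,
  G3p6_9, G3p7_0, G3p7_1, G3p7_2, G3p7_3, G3p7_9, G3p8_0, G3p8_1, G3p8_2, G3p8_3, G3p8_7, G3p8_9]⟩))
  (.node 351 (.leaf ⟨1246105874, 271722882223990210924642,
  904646402774172195390642946031855241673564982033609393434212741601660108814, 304225, [G3p0_1,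
  G3p0_2, G3p0_3, G3p2_1, G3p3_1, G3p3_2, G3p4_5, G3p4_6, G3p4_7, G3p4_8, G3p4_9, G3p5_6, G3p5_7,
  G3p5_8, G3p5_9, G3p6_7, G3p6_8, G3p6_9, G3p7_8, G3p7_9, G3p8_9]⟩) (.leaf ⟨1245991186,
  271722882218320854093922,
  904646402774172195390642946031721439924674271561759936812098241521091346440, 304197, [G3p0_3,
  G3p1_3, G3p2_1, G3p2_3, G3p4_5, G3p4_6, G3p4_7, G3p4_8, G3p4_9, G3p5_6, G3p5_7, G3p5_8, G3p5_9,
  G3p6_7, G3p6_8, G3p6_9, G3p7_8, G3p7_9, G3p8_9]⟩)))))) (.node 368 (.node 360 (.node 356 (.node 354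
  (.node 353 (.leaf ⟨1226068258, 271725153158432955664482,
  904646402774166571109786747801016580403218561144940587686273657243099987976, 299333, [G3p0_3,
  G3p1_3, G3p2_1, G3p2_3, G3p4_3, G3p4_6, G3p4_7, G3p4_8, G3p4_9, G3p5_3, G3p5_4, G3p5_6, G3p5_7,
  G3p5_8, G3p5_9, G3p7_8, G3p7_9, G3p8_9]⟩) (.leaf ⟨1225888036, 388717862698812360037507,
  904646402774166571109020488360135682227839088506456210739169923671636575169, 299289, [G3p1_0,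
  G3p1_6, G3p1_7, G3p1_8, G3p1_9, G3p2_0, G3p2_1, G3p2_6, G3p2_7, G3p2_8, G3p2_9, G3p3_0, G3p3_1,
  G3p3_2, G3p3_6, G3p3_7, G3p3_8, G3p3_9, G3p4_6, G3p4_7, G3p4_8, G3p4_9, G3p5_4, G3p5_6, G3p5_7,
  G3p5_8, G3p5_9, G3p7_8, G3p7_9, G3p8_9]⟩)) (.node 355 (.leaf ⟨1225937188,
  388717862805427406967936,
  904646402774166571109020488359979578712918324014601661132048257759557190607, 299301, [G3p1_2,
  G3p1_3, G3p1_6, G3p1_7, G3p1_8, G3p1_9, G3p2_3, G3p2_6, G3p2_7, G3p2_8, G3p2_9, G3p3_6, G3p3_7,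
  G3p3_8, G3p3_9, G3p4_6, G3p4_7, G3p4_8, G3p4_9, G3p5_4, G3p5_6, G3p5_7, G3p5_8, G3p5_9, G3p7_8,
  G3p7_9, G3p8_9]⟩) (.leaf ⟨1226330402, 271725153018829338675331,
  904646402774166571109020488338704339075706751364525027825139299362694758400, 299397, [G3p2_1,
  G3p3_1, G3p3_2, G3p4_6, G3p4_7, G3p4_8, G3p4_9, G3p5_4, G3p5_6, G3p5_7, G3p5_8, G3p5_9, G3p7_8,
  G3p7_9, G3p8_9]⟩))) (.node 358 (.node 357 (.leaf ⟨1225920806, 310722722946309518658627,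
  904646402774166571109020488360024180878833206714724549920579031359541084162, 299297, [G3p0_1,
  G3p2_1, G3p2_3, G3p2_6, G3p2_7, G3p2_8, G3p2_9, G3p3_1, G3p3_6, G3p3_7, G3p3_8, G3p3_9, G3p4_6,
  G3p4_7, G3p4_8, G3p4_9, G3p5_4, G3p5_6, G3p5_7, G3p5_8, G3p5_9, G3p7_8, G3p7_9, G3p8_9]⟩) (.leaf
  ⟨1227116824, 154736011349811123979331,
  904646402774166571021666979771867121076105353252283501505910060068473339907, 299589, [G3p2_0,
  G3p2_1, G3p2_3, G3p3_0, G3p3_1, G3p4_5, G3p4_6, G3p5_6, G3p7_8, G3p7_9, G3p8_9]⟩)) (.node 359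
  (.leaf ⟨1233408274, 154732517787847007146082,
  904646402774166872317952651405722032276406058803416785628451754323300843528, 301125, [G3p0_3,
  G3p1_3, G3p2_1, G3p2_3, G3p5_4, G3p6_4, G3p6_5, G3p7_8, G3p7_9, G3p8_9]⟩) (.leaf ⟨1227116818,
  154739581683862537769058,
  904646402774166571021666979771800256612475574737577090911170621758164697208, 299589, [G3p0_3,
  G3p0_4, G3p0_5, G3p0_6, G3p1_3, G3p1_4, G3p1_5, G3p1_6, G3p2_1, G3p2_3, G3p2_4, G3p2_5, G3p2_6,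
  G3p4_5, G3p4_6, G3p5_6, G3p7_8, G3p7_9, G3p8_9]⟩)))) (.node 364 (.node 362 (.node 361 (.leaf
  ⟨1227379076, 154733631381160718340256,
  904646402774166658902432229244745289333915976240952866706409823533334921231, 299653, [G3p2_1,
  G3p3_1, G3p3_2, G3p4_1, G3p4_2, G3p4_3, G3p4_5, G3p4_6, G3p5_1, G3p5_2, G3p5_3, G3p5_6, G3p6_1,
  G3p6_2, G3p6_3, G3p7_8, G3p7_9, G3p8_9]⟩) (.leaf ⟨1233719570, 154732517827498145225922,
  904646402774166872317952651405722031595862094624350226652720374781392715790, 301201, [G3p0_1,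
  G3p0_2, G3p0_3, G3p1_2, G3p1_3, G3p2_3, G3p5_4, G3p6_4, G3p6_5, G3p7_8, G3p7_9, G3p8_9]⟩)) (.node
  363 (.leaf ⟨1227428114, 154743151952118273809602,
  904646402774166571021666979774297939394167040350362532381975858704926376062, 299665, [G3p0_1,
  G3p0_2, G3p0_3, G3p0_4, G3p0_5, G3p0_6, G3p1_2, G3p1_3, G3p1_4, G3p1_5, G3p1_6, G3p2_3, G3p2_4,
  G3p2_5, G3p2_6, G3p3_4, G3p3_5, G3p3_6, G3p4_5, G3p4_6, G3p5_6, G3p7_8, G3p7_9, G3p8_9]⟩) (.leaf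
  ⟨1227428230, 154733631487778986496166,
  904646402774166658902432229244611486904481302699231126308264670220474253326, 299665, [G3p0_1,
  G3p0_2, G3p0_3, G3p1_2, G3p1_3, G3p2_3, G3p4_1, G3p4_2, G3p4_3, G3p4_5, G3p4_6, G3p5_1, G3p5_2,
  G3p5_3, G3p5_6, G3p6_1, G3p6_2, G3p6_3, G3p7_8, G3p7_9, G3p8_9]⟩))) (.node 366 (.node 365 (.leaf
  ⟨1226936600, 154736011424615495631942,
  904646402774166571021666979771956321334645732674200471499635702307941711873, 299545, [G3p1_0,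
  G3p2_0, G3p2_1, G3p3_0, G3p3_1, G3p3_2, G3p4_5, G3p4_6, G3p5_6, G3p7_8, G3p7_9, G3p8_9]⟩) (.leaf
  ⟨1226985752, 154736011531230542562371,
  904646402774166571021666979771800217819724968182345921892514036395862327311, 299557, [G3p1_2,
  G3p1_3, G3p2_3, G3p4_5, G3p4_6, G3p5_6, G3p7_8, G3p7_9, G3p8_9]⟩)) (.node 367 (.leaf ⟨1233228056,
  154732517866162514563241,
  904646402774166966475915418698175923415878929515215723237890461491040026625, 301081, [G3p1_0,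
  G3p2_0, G3p2_1, G3p3_0, G3p3_1, G3p3_2, G3p4_0, G3p4_1, G3p4_2, G3p4_3, G3p5_0, G3p5_1, G3p5_2,
  G3p5_3, G3p5_4, G3p6_0, G3p6_1, G3p6_2, G3p6_3, G3p6_4, G3p6_5, G3p7_8, G3p7_9, G3p8_9]⟩) (.leaf
  ⟨1233277208, 154732517972777561493670,
  904646402774166966475915418698019819900958165023361173630768795578960642063, 301093, [G3p1_2,
  G3p1_3, G3p2_3, G3p4_0, G3p4_1, G3p4_2, G3p4_3, G3p5_0, G3p5_1, G3p5_2, G3p5_3, G3p5_4, G3p6_0,
  G3p6_1, G3p6_2, G3p6_3, G3p6_4, G3p6_5, G3p7_8, G3p7_9, G3p8_9]⟩))))) (.node 376 (.node 372 (.node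
  370 (.node 369 (.leaf ⟨1226903942, 154733631171119637696678,
  904646402774166608684852086688853134890654107257484237480710552238302822406, 299537, [G3p0_1,
  G3p0_2, G3p1_2, G3p3_1, G3p3_2, G3p4_1, G3p4_2, G3p4_5, G3p4_6, G3p5_1, G3p5_2, G3p5_6, G3p6_1,
  G3p6_2, G3p7_8, G3p7_9, G3p8_9]⟩) (.leaf ⟨1233670418, 154732517648243390157955,
  904646402774166872317952651405855834025296768166055042089390923285807497216, 301189, [G3p2_1,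
  G3p3_1, G3p3_2, G3p5_4, G3p6_4, G3p6_5, G3p7_8, G3p7_9, G3p8_9]⟩)) (.node 371 (.leaf ⟨1227378962,
  154740771620460453434499,
  904646402774166571021666979774431741823601713892067347818646407209341157488, 299653, [G3p0_4,
  G3p0_5, G3p0_6, G3p1_4, G3p1_5, G3p1_6, G3p2_1, G3p2_4, G3p2_5, G3p2_6, G3p3_1, G3p3_2, G3p3_4,
  G3p3_5, G3p3_6, G3p4_5, G3p4_6, G3p5_6, G3p7_8, G3p7_9, G3p8_9]⟩) (.leaf ⟨1233522962,
  154732517793516363976802,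
  904646402774166872317952651405855834025296769275266242250566254403869605902, 301153, [G3p0_1,
  G3p0_2, G3p0_3, G3p2_1, G3p3_1, G3p3_2, G3p5_4, G3p6_4, G3p6_5, G3p7_8, G3p7_9, G3p8_9]⟩))) (.node
  374 (.node 373 (.leaf ⟨1226969478, 154733631197507916763302,
  904646402774166583576062015410817858431303932067758531526269458761430204418, 299553, [G3p0_1,
  G3p2_1, G3p2_3, G3p3_1, G3p4_1, G3p4_5, G3p4_6, G3p5_1, G3p5_6, G3p6_1, G3p7_8, G3p7_9, G3p8_9]⟩)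
  (.leaf ⟨1245810980, 505708524366861613438083,
  904646402774172195390642946054357036929029630431379008632305781022833771505, 304153, [G3p1_0,
  G3p1_4, G3p1_5, G3p1_6, G3p1_7, G3p1_8, G3p1_9, G3p2_0, G3p2_1, G3p2_4, G3p2_5, G3p2_6, G3p2_7,
  G3p2_8, G3p2_9, G3p3_0, G3p3_1, G3p3_2, G3p3_4, G3p3_5, G3p3_6, G3p3_7, G3p3_8, G3p3_9, G3p4_5,
  G3p4_6, G3p4_7, G3p4_8, G3p4_9, G3p5_6, G3p5_7, G3p5_8, G3p5_9, G3p6_7, G3p6_8, G3p6_9, G3p7_8,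
  G3p7_9, G3p8_9]⟩)) (.node 375 (.leaf ⟨1245860132, 505708524473476660368512,
  904646402774172195390642946054200933414108865939524459025184115110754386943, 304165, [G3p1_2,
  G3p1_3, G3p1_4, G3p1_5, G3p1_6, G3p1_7, G3p1_8, G3p1_9, G3p2_3, G3p2_4, G3p2_5, G3p2_6, G3p2_7,
  G3p2_8, G3p2_9, G3p3_4, G3p3_5, G3p3_6, G3p3_7, G3p3_8, G3p3_9, G3p4_5, G3p4_6, G3p4_7, G3p4_8,
  G3p4_9, G3p5_6, G3p5_7, G3p5_8, G3p5_9, G3p6_7, G3p6_8, G3p6_9, G3p7_8, G3p7_9, G3p8_9]⟩) (.leaf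
  ⟨1246253330, 271722882078717237105795,
  904646402774172195390642946031855241673564980924398193273037410483598000128, 304261, [G3p2_1,
  G3p3_1, G3p3_2, G3p4_5, G3p4_6, G3p4_7, G3p4_8, G3p4_9, G3p5_6, G3p5_7, G3p5_8, G3p5_9, G3p6_7,
  G3p6_8, G3p6_9, G3p7_8, G3p7_9, G3p8_9]⟩)))) (.node 380 (.node 378 (.node 377 (.leaf ⟨1245843750,
  427713310304964920446019,
  904646402774172195390642946054245535579774518390437676087545424886935715842, 304161, [G3p0_1,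
  G3p2_1, G3p2_3, G3p2_4, G3p2_5, G3p2_6, G3p2_7, G3p2_8, G3p2_9, G3p3_1, G3p3_4, G3p3_5, G3p3_6,
  G3p3_7, G3p3_8, G3p3_9, G3p4_5, G3p4_6, G3p4_7, G3p4_8, G3p4_9, G3p5_6, G3p5_7, G3p5_8, G3p5_9,
  G3p6_7, G3p6_8, G3p6_9, G3p7_8, G3p7_9, G3p8_9]⟩) (.leaf ⟨1214534024, 154734897834803256694851,
  904646402774166872317952651405788934852242478585212007862524418231107780611, 296517, [G3p2_0,
  G3p2_1, G3p2_3, G3p3_0, G3p3_1, G3p5_4, G3p6_4, G3p6_5, G3p7_8, G3p7_9, G3p8_9]⟩)) (.node 379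
  (.leaf ⟨1217681506, 76740797499947408857314,
  918781394975258042195674271754066354911766799556050207049968930306323382280, 297285, [G3p0_3,
  G3p1_3, G3p2_1, G3p2_3, G3p4_3, G3p4_5, G3p4_6, G3p5_3, G3p5_6, G3p6_3, G3p7_3, G3p7_8, G3p7_9,
  G3p8_3, G3p8_9, G3p9_3]⟩) (.leaf ⟨1214796164, 154734898091192403171552,
  904646402774166960198717900878667103110053101573881373063308753391345074191, 296581, [G3p2_1,
  G3p3_1, G3p3_2, G3p4_1, G3p4_2, G3p4_3, G3p5_1, G3p5_2, G3p5_3, G3p5_4, G3p6_1, G3p6_2, G3p6_3,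
  G3p6_4, G3p6_5, G3p7_8, G3p7_9, G3p8_9]⟩))) (.node 382 (.node 381 (.leaf ⟨1214534034,
  154738468168854670577762,
  904646402774166872317952651405722070388612700070370197575988986372083417208, 296517, [G3p0_3,
  G3p0_4, G3p0_5, G3p0_6, G3p1_3, G3p1_4, G3p1_5, G3p1_6, G3p2_1, G3p2_3, G3p2_4, G3p2_5, G3p2_6,
  G3p5_4, G3p6_4, G3p6_5, G3p7_8, G3p7_9, G3p8_9]⟩) (.leaf ⟨1217991046, 154738391756266873621637,
  904646402774166571021666979771800217819724969291692524069523476210489622542, 297361, [G3p0_1,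
  G3p0_2, G3p0_3, G3p1_2, G3p1_3, G3p2_3, G3p4_5, G3p4_6, G3p5_6, G3p7_8, G3p7_9, G3p8_9]⟩)) (.node
  383 (.leaf ⟨1214845318, 154734898197810671327464,
  904646402774166960198717900878533300680618428032159632665163600078484406286, 296593, [G3p0_1,
  G3p0_2, G3p0_3, G3p1_2, G3p1_3, G3p2_3, G3p4_1, G3p4_2, G3p4_3, G3p5_1, G3p5_2, G3p5_3, G3p5_4,
  G3p6_1, G3p6_2, G3p6_3, G3p6_4, G3p6_5, G3p7_8, G3p7_9, G3p8_9]⟩) (.leaf ⟨1214845330,
  154742038437110406716610,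
  904646402774166872317952651408219753170304165683155639046794223318845096062, 296593, [G3p0_1,
  G3p0_2, G3p0_3, G3p0_4, G3p0_5, G3p0_6, G3p1_2, G3p1_3, G3p1_4, G3p1_5, G3p1_6, G3p2_3, G3p2_4,
  G3p2_5, G3p2_6, G3p3_4, G3p3_5, G3p3_6, G3p5_4, G3p6_4, G3p6_5, G3p7_8, G3p7_9, G3p8_9]⟩))))))

def G3T7 : Tr :=
  .node 416 (.node 400 (.node 392 (.node 388 (.node 386 (.node 385 (.leaf ⟨1214353796,
  154734897800649676757219,
  904646402774166872317952651405878135110782858007128977856246682719315034113, 296473, [G3p1_0,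
  G3p2_0, G3p2_1, G3p3_0, G3p3_1, G3p3_2, G3p5_4, G3p6_4, G3p6_5, G3p7_8, G3p7_9, G3p8_9]⟩) (.leaf
  ⟨1217499524, 154738391468060609416323,
  904646402774166571021666979771956321334645732674335873257211453262769684481, 297241, [G3p1_0,
  G3p2_0, G3p2_1, G3p3_0, G3p3_1, G3p3_2, G3p4_5, G3p4_6, G3p5_6, G3p7_8, G3p7_9, G3p8_9]⟩)) (.node
  387 (.leaf ⟨1214402948, 154734897907264723687648,
  904646402774166872317952651405722031595862093515274428249125016807235649551, 296485, [G3p1_2,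
  G3p1_3, G3p2_3, G3p5_4, G3p6_4, G3p6_5, G3p7_8, G3p7_9, G3p8_9]⟩) (.leaf ⟨1217548676,
  154738391574675656346752,
  904646402774166571021666979771800217819724968182481323650089787350690299919, 297253, [G3p1_2,
  G3p1_3, G3p2_3, G3p4_5, G3p4_6, G3p5_6, G3p7_8, G3p7_9, G3p8_9]⟩))) (.node 390 (.node 389 (.leaf
  ⟨1214321030, 154734897810782578350312,
  904646402774166909981137758322774948666791232590412743837609482096312975366, 296465, [G3p0_1,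
  G3p0_2, G3p1_2, G3p3_1, G3p3_2, G3p4_1, G3p4_2, G3p5_1, G3p5_2, G3p5_4, G3p6_1, G3p6_2, G3p6_4,
  G3p6_5, G3p7_8, G3p7_9, G3p8_9]⟩) (.leaf ⟨1217466758, 154738391474791896910981,
  904646402774166571021666979771934019568615678654330780382886440749146439686, 297233, [G3p0_1,
  G3p0_2, G3p1_2, G3p3_1, G3p3_2, G3p4_5, G3p4_6, G3p5_6, G3p7_8, G3p7_9, G3p8_9]⟩)) (.node 391
  (.leaf ⟨1217941892, 154738391649648605465728,
  904646402774166571021666979771934020249159642833414264467668629523350290447, 297349, [G3p2_1,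
  G3p3_1, G3p3_2, G3p4_5, G3p4_6, G3p5_6, G3p7_8, G3p7_9, G3p8_9]⟩) (.leaf ⟨1214796178,
  154739658105452586275971,
  904646402774166872317952651408353555599738839224860454483464771823259877488, 296581, [G3p0_4,
  G3p0_5, G3p0_6, G3p1_4, G3p1_5, G3p1_6, G3p2_1, G3p2_4, G3p2_5, G3p2_6, G3p3_1, G3p3_2, G3p3_4,
  G3p3_5, G3p3_6, G3p5_4, G3p6_4, G3p6_5, G3p7_8, G3p7_9, G3p8_9]⟩)))) (.node 396 (.node 394 (.node
  393 (.leaf ⟨1214386566, 154734897834971834161384,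
  904646402774166884872347687044739672207441057400687037883168388619440357378, 296481, [G3p0_1,
  G3p2_1, G3p2_3, G3p3_1, G3p4_1, G3p5_1, G3p5_4, G3p6_1, G3p6_4, G3p6_5, G3p7_8, G3p7_9, G3p8_9]⟩)
  (.leaf ⟨1217532294, 154738391502279687605381,
  904646402774166571021666979771844819990624455866797646998903888532687945730, 297249, [G3p0_1,
  G3p2_1, G3p2_3, G3p3_1, G3p4_5, G3p4_6, G3p5_6, G3p7_8, G3p7_9, G3p8_9]⟩)) (.node 395 (.leaf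
  ⟨1212436888, 154734892205303722476611,
  904646402774166771882792534366692920380642262400178136844971271201119993859, 296005, [G3p2_0,
  G3p2_1, G3p2_3, G3p3_0, G3p3_1, G3p4_0, G3p4_1, G3p4_5, G3p4_6, G3p6_5, G3p7_8, G3p7_9, G3p8_9]⟩)
  (.leaf ⟨1212256664, 154734892280108094129222,
  904646402774166771882792551904801768610017660266313099434089771612058353665, 295961, [G3p1_0,
  G3p2_0, G3p2_1, G3p3_0, G3p3_1, G3p3_2, G3p4_0, G3p4_1, G3p4_2, G3p4_3, G3p4_5, G3p4_6, G3p6_5,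
  G3p7_8, G3p7_9, G3p8_9]⟩))) (.node 398 (.node 397 (.leaf ⟨1212305816, 154734892386723141059651,
  904646402774166771882792551904645665095096895774458549826968105699978969103, 295973, [G3p1_2,
  G3p1_3, G3p2_3, G3p4_0, G3p4_1, G3p4_2, G3p4_3, G3p4_5, G3p4_6, G3p6_5, G3p7_8, G3p7_9, G3p8_9]⟩)
  (.leaf ⟨1212438626, 76738751739816675809506,
  1003591348181806869228224131710972527234716212732318485398774605532126248968, 296005, [G3p0_3,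
  G3p0_4, G3p0_5, G3p1_3, G3p2_1, G3p2_3, G3p4_5, G3p6_3, G3p6_4, G3p6_5, G3p7_3, G3p7_4, G3p7_5,
  G3p7_8, G3p7_9, G3p8_3, G3p8_4, G3p8_5, G3p8_9, G3p9_3, G3p9_4, G3p9_5]⟩)) (.node 399 (.leaf
  ⟨1212749922, 76738751602412082075873,
  989456355980715398054983099191152433219076901609777868774329002879726125070, 296081, [G3p0_1,
  G3p0_2, G3p0_3, G3p0_4, G3p0_5, G3p1_2, G3p1_3, G3p2_3, G3p4_5, G3p6_4, G3p6_5, G3p7_4, G3p7_5,
  G3p7_8, G3p7_9, G3p8_4, G3p8_5, G3p8_9, G3p9_4, G3p9_5]⟩) (.leaf ⟨1212258404,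
  76738825768873786318979,
  989456355980715398054983099192378988837329977357487775626987684383157125169, 295961, [G3p0_4,
  G3p0_5, G3p1_0, G3p1_4, G3p1_5, G3p2_0, G3p2_1, G3p2_4, G3p2_5, G3p3_0, G3p3_1, G3p3_2, G3p3_4,
  G3p3_5, G3p4_5, G3p6_4, G3p6_5, G3p7_4, G3p7_5, G3p7_8, G3p7_9, G3p8_4, G3p8_5, G3p8_9, G3p9_4,
  G3p9_5]⟩))))) (.node 408 (.node 404 (.node 402 (.node 401 (.leaf ⟨1212307556,
  76738751566094912362624,
  989456355980715398054983099192222885322409212865633226019866018471077740607, 295973, [G3p0_4,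
  G3p0_5, G3p1_2, G3p1_3, G3p1_4, G3p1_5, G3p2_3, G3p2_4, G3p2_5, G3p3_4, G3p3_5, G3p4_5, G3p6_4,
  G3p6_5, G3p7_4, G3p7_5, G3p7_8, G3p7_9, G3p8_4, G3p8_5, G3p8_9, G3p9_4, G3p9_5]⟩) (.leaf
  ⟨1212225638, 76738751462808465086498,
  989456355980715398054983099192356670737497080883219511118912210227921551366, 295953, [G3p0_1,
  G3p0_2, G3p0_4, G3p0_5, G3p1_2, G3p3_1, G3p3_2, G3p3_4, G3p3_5, G3p4_5, G3p6_4, G3p6_5, G3p7_4,
  G3p7_5, G3p7_8, G3p7_9, G3p8_4, G3p8_5, G3p8_9, G3p9_4, G3p9_5]⟩)) (.node 403 (.leaf ⟨1212700770,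
  76738751459475570464995,
  989456355980715398054983099191286235648511575151499609172474156192586792960, 296069, [G3p0_4,
  G3p0_5, G3p2_1, G3p3_1, G3p3_2, G3p4_5, G3p6_4, G3p6_5, G3p7_4, G3p7_5, G3p7_8, G3p7_9, G3p8_4,
  G3p8_5, G3p8_9, G3p9_4, G3p9_5]⟩) (.leaf ⟨1212291174, 76738751493629150402627,
  989456355980715398054983099192267487493059470300737459753977375464960950274, 295969, [G3p0_1,
  G3p0_4, G3p0_5, G3p2_1, G3p2_3, G3p2_4, G3p2_5, G3p3_1, G3p3_4, G3p3_5, G3p4_5, G3p6_4, G3p6_5,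
  G3p7_4, G3p7_5, G3p7_8, G3p7_9, G3p8_4, G3p8_5, G3p8_9, G3p9_4, G3p9_5]⟩))) (.node 406 (.node 405
  (.leaf ⟨1243894034, 193727928205152283037794,
  904646402774172496599575109098872951208067134620555698168530197012706492472, 303685, [G3p0_3,
  G3p0_4, G3p0_5, G3p1_3, G3p1_4, G3p1_5, G3p2_1, G3p2_3, G3p2_4, G3p2_5, G3p4_5, G3p6_4, G3p6_5,
  G3p6_7, G3p6_8, G3p6_9, G3p7_8, G3p7_9, G3p8_9]⟩) (.leaf ⟨1244156178, 193727965220245591856259,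
  904646402774172496599575109100077188726487313893987669106556487327500206128, 303749, [G3p0_4,
  G3p0_5, G3p1_4, G3p1_5, G3p2_1, G3p2_4, G3p2_5, G3p3_1, G3p3_2, G3p3_4, G3p3_5, G3p4_5, G3p6_4,
  G3p6_5, G3p6_7, G3p6_8, G3p6_9, G3p7_8, G3p7_9, G3p8_9]⟩)) (.node 407 (.leaf ⟨1242845474,
  310716995634117819370626,
  904646402774172546904508760221535407463529301698938186552050557862151716872, 303429, [G3p0_3,
  G3p1_3, G3p2_1, G3p2_3, G3p4_3, G3p4_7, G3p4_8, G3p4_9, G3p5_3, G3p5_4, G3p5_7, G3p5_8, G3p5_9,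
  G3p6_3, G3p6_4, G3p6_5, G3p6_7, G3p6_8, G3p6_9, G3p7_8, G3p7_9, G3p8_9]⟩) (.leaf ⟨1242665252,
  388709829402977037915267,
  904646402774172496686928617685781129130724693579056304192452946043789640577, 303385, [G3p1_0,
  G3p1_7, G3p1_8, G3p1_9, G3p2_0, G3p2_1, G3p2_7, G3p2_8, G3p2_9, G3p3_0, G3p3_1, G3p3_2, G3p3_7,
  G3p3_8, G3p3_9, G3p4_7, G3p4_8, G3p4_9, G3p5_4, G3p5_7, G3p5_8, G3p5_9, G3p6_4, G3p6_5, G3p6_7,
  G3p6_8, G3p6_9, G3p7_8, G3p7_9, G3p8_9]⟩)))) (.node 412 (.node 410 (.node 409 (.leaf ⟨1242714404,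
  388709829509592084845696,
  904646402774172496686928617685625025615803929087201754585331280131710256015, 303397, [G3p1_2,
  G3p1_3, G3p1_7, G3p1_8, G3p1_9, G3p2_3, G3p2_7, G3p2_8, G3p2_9, G3p3_7, G3p3_8, G3p3_9, G3p4_7,
  G3p4_8, G3p4_9, G3p5_4, G3p5_7, G3p5_8, G3p5_9, G3p6_4, G3p6_5, G3p6_7, G3p6_8, G3p6_9, G3p7_8,
  G3p7_9, G3p8_9]⟩) (.leaf ⟨1243107618, 310716995459329830292611,
  904646402774172496686928617665777055449702106257191297872072644269470384128, 303493, [G3p2_1,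
  G3p3_1, G3p3_2, G3p4_7, G3p4_8, G3p4_9, G3p5_4, G3p5_7, G3p5_8, G3p5_9, G3p6_4, G3p6_5, G3p6_7,
  G3p6_8, G3p6_9, G3p7_8, G3p7_9, G3p8_9]⟩)) (.node 411 (.leaf ⟨1242698022,
  310716995493483410230339,
  904646402774172496686928617685669627782051118786270872342088005496764235778, 303393, [G3p0_1,
  G3p2_1, G3p2_3, G3p2_7, G3p2_8, G3p2_9, G3p3_1, G3p3_7, G3p3_8, G3p3_9, G3p4_7, G3p4_8, G3p4_9,
  G3p5_4, G3p5_7, G3p5_8, G3p5_9, G3p6_4, G3p6_5, G3p6_7, G3p6_8, G3p6_9, G3p7_8, G3p7_9, G3p8_9]⟩)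
  (.leaf ⟨1212436882, 154738459161655415836770,
  904646402774166771882792529982121138479702780521879255525307171534113603688, 296005, [G3p0_3,
  G3p0_5, G3p0_6, G3p1_3, G3p1_5, G3p1_6, G3p2_1, G3p2_3, G3p2_5, G3p2_6, G3p4_5, G3p4_6, G3p6_5,
  G3p7_8, G3p7_9, G3p8_9]⟩))) (.node 414 (.node 413 (.leaf ⟨1212748178, 154742026052211431447746,
  904646402774166771882792529984262009338217756164400125503750034696779595886, 296081, [G3p0_1,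
  G3p0_2, G3p0_3, G3p0_5, G3p0_6, G3p1_2, G3p1_3, G3p1_5, G3p1_6, G3p2_3, G3p2_5, G3p2_6, G3p3_5,
  G3p3_6, G3p4_5, G3p4_6, G3p6_5, G3p7_8, G3p7_9, G3p8_9]⟩) (.leaf ⟨1212699026,
  154739647972353424692355,
  904646402774166771882792529984395811767652429706104940940420583201194377312, 296069, [G3p0_5,
  G3p0_6, G3p1_5, G3p1_6, G3p2_1, G3p2_5, G3p2_6, G3p3_1, G3p3_2, G3p3_5, G3p3_6, G3p4_5, G3p4_6,
  G3p6_5, G3p7_8, G3p7_9, G3p8_9]⟩)) (.node 415 (.leaf ⟨1217679752, 154738391502214189354051,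
  904646402774166571021666979774364842649965878189378811607981837621279260675, 297285, [G3p2_0,
  G3p2_1, G3p2_3, G3p2_4, G3p2_5, G3p2_6, G3p3_0, G3p3_1, G3p3_4, G3p3_5, G3p3_6, G3p4_5, G3p4_6,
  G3p5_6, G3p7_8, G3p7_9, G3p8_9]⟩) (.leaf ⟨1216631186, 154738208085976189931618,
  904646402774166571023199428544613734548137692989547007261878312784569565256, 297029, [G3p0_3,
  G3p0_6, G3p1_3, G3p1_6, G3p2_1, G3p2_3, G3p2_6, G3p4_6, G3p5_4, G3p5_6, G3p7_8, G3p7_9,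
  G3p8_9]⟩)))))) (.node 432 (.node 424 (.node 420 (.node 418 (.node 417 (.leaf ⟨1216942482,
  154741666890141148650690,
  904646402774166571023199428546040981560299688691538734255596428379044184142, 297105, [G3p0_1,
  G3p0_2, G3p0_3, G3p0_6, G3p1_2, G3p1_3, G3p1_6, G3p2_3, G3p2_6, G3p3_6, G3p4_6, G3p5_4, G3p5_6,
  G3p7_8, G3p7_9, G3p8_9]⟩) (.leaf ⟨1216450968, 154735902248643849193575,
  904646402774166571024636165036856146372365420576739411798862697482087759873, 296985, [G3p1_0,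
  G3p2_0, G3p2_1, G3p3_0, G3p3_1, G3p3_2, G3p4_0, G3p4_1, G3p4_2, G3p4_3, G3p4_6, G3p5_0, G3p5_1,
  G3p5_2, G3p5_3, G3p5_4, G3p5_6, G3p7_8, G3p7_9, G3p8_9]⟩)) (.node 419 (.leaf ⟨1216500120,
  154735902355258896124004,
  904646402774166571024636165036700042857444656084884862191741031570008375311, 296997, [G3p1_2,
  G3p1_3, G3p2_3, G3p4_0, G3p4_1, G3p4_2, G3p4_3, G3p4_6, G3p5_0, G3p5_1, G3p5_2, G3p5_3, G3p5_4,
  G3p5_6, G3p7_8, G3p7_9, G3p8_9]⟩) (.leaf ⟨1216893330, 154739360867877179823235,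
  904646402774166571023199428546174783989734362233243549692266976883458965568, 297093, [G3p0_6,
  G3p1_6, G3p2_1, G3p2_6, G3p3_1, G3p3_2, G3p3_6, G3p4_6, G3p5_4, G3p5_6, G3p7_8, G3p7_9,
  G3p8_9]⟩))) (.node 422 (.node 421 (.leaf ⟨1216745874, 154738208091645546762338,
  904646402774166571023199428544747514518624613522388573259791985466902708302, 297057, [G3p0_1,
  G3p0_2, G3p0_3, G3p0_6, G3p2_1, G3p3_1, G3p3_2, G3p4_6, G3p5_4, G3p5_6, G3p7_8, G3p7_9, G3p8_9]⟩)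
  (.leaf ⟨1216452708, 76739618402408203526275,
  932916387176349513369681400048662030464292064756123169495554645401741033489, 296985, [G3p0_4,
  G3p1_0, G3p1_4, G3p2_0, G3p2_1, G3p2_4, G3p3_0, G3p3_1, G3p3_2, G3p3_4, G3p5_4, G3p5_6, G3p6_4,
  G3p7_4, G3p7_8, G3p7_9, G3p8_4, G3p8_9, G3p9_4]⟩)) (.node 423 (.leaf ⟨1216501860,
  76739616257223367497856,
  932916387176349513369681400048505926949371300264268619888432979489661648927, 296997, [G3p0_4,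
  G3p1_2, G3p1_3, G3p1_4, G3p2_3, G3p2_4, G3p3_4, G3p5_4, G3p5_6, G3p6_4, G3p7_4, G3p7_8, G3p7_9,
  G3p8_4, G3p8_9, G3p9_4]⟩) (.leaf ⟨1216419942, 76739616153936920221730,
  932916387176349513369681400048639723253661063251358850299579584945623269382, 296977, [G3p0_1,
  G3p0_2, G3p0_4, G3p1_2, G3p3_1, G3p3_2, G3p3_4, G3p5_4, G3p5_6, G3p6_4, G3p7_4, G3p7_8, G3p7_9,
  G3p8_4, G3p8_9, G3p9_4]⟩)))) (.node 428 (.node 426 (.node 425 (.leaf ⟨1216485478,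
  76739616184757605537859,
  932916387176349513369681400048550529120187711198845968106657312366079901698, 296993, [G3p0_1,
  G3p0_4, G3p2_1, G3p2_3, G3p2_4, G3p3_1, G3p3_4, G3p5_4, G3p5_6, G3p6_4, G3p7_4, G3p7_8, G3p7_9,
  G3p8_4, G3p8_9, G3p9_4]⟩) (.leaf ⟨286546210, 234942345475455203772514,
  1356945447864739378343275887080342477181709291085356824795622887651950460936, 69957, [G3p0_3,
  G3p0_8, G3p0_9, G3p1_3, G3p2_1, G3p2_3, G3p4_3, G3p4_6, G3p4_8, G3p4_9, G3p5_3, G3p5_4, G3p5_6,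
  G3p5_8, G3p5_9, G3p7_8, G3p7_9, G3p9_8]⟩)) (.node 427 (.leaf ⟨286857506, 234942345478788098394273,
  1356945447864739378342509627617896433424762807763229195942900293492082212878, 70033, [G3p0_1,
  G3p0_2, G3p0_3, G3p0_8, G3p0_9, G3p1_2, G3p1_3, G3p2_3, G3p4_6, G3p4_8, G3p4_9, G3p5_4, G3p5_6,
  G3p5_8, G3p5_9, G3p7_8, G3p7_9, G3p9_8]⟩) (.leaf ⟨286365988, 351824374551393525240963,
  1356945447864739378342509627636607040064110318806749766067775426044639576897, 69913, [G3p0_8,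
  G3p0_9, G3p1_0, G3p1_6, G3p1_8, G3p1_9, G3p2_0, G3p2_1, G3p2_6, G3p2_8, G3p2_9, G3p3_0, G3p3_1,
  G3p3_2, G3p3_6, G3p3_8, G3p3_9, G3p4_6, G3p4_8, G3p4_9, G3p5_4, G3p5_6, G3p5_8, G3p5_9, G3p7_8,
  G3p7_9, G3p9_8]⟩))) (.node 430 (.node 429 (.leaf ⟨286415140, 351824374658008572171392,
  1356945447864739378342509627636450936549189554314895216460653760132560192335, 69925, [G3p0_8,
  G3p0_9, G3p1_2, G3p1_3, G3p1_6, G3p1_8, G3p1_9, G3p2_3, G3p2_6, G3p2_8, G3p2_9, G3p3_6, G3p3_8,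
  G3p3_9, G3p4_6, G3p4_8, G3p4_9, G3p5_4, G3p5_6, G3p5_8, G3p5_9, G3p7_8, G3p7_9, G3p9_8]⟩) (.leaf
  ⟨286333222, 234942345339184481404962,
  1356945447864739378342509627636584455178830995579634841413239816261017665542, 69905, [G3p0_1,
  G3p0_2, G3p0_8, G3p0_9, G3p1_2, G3p3_1, G3p3_2, G3p3_6, G3p3_8, G3p3_9, G3p4_6, G3p4_8, G3p4_9,
  G3p5_4, G3p5_6, G3p5_8, G3p5_9, G3p7_8, G3p7_9, G3p9_8]⟩)) (.node 431 (.leaf ⟨286808354,
  234942345335851586783363,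
  1356945447864739378342509627618030235854197481304950936341045446804942880768, 70021, [G3p0_8,
  G3p0_9, G3p2_1, G3p3_1, G3p3_2, G3p4_6, G3p4_8, G3p4_9, G3p5_4, G3p5_6, G3p5_8, G3p5_9, G3p7_8,
  G3p7_9, G3p9_8]⟩) (.leaf ⟨286398758, 273903021775184381217859,
  1356945447864739378342509627636495538715769051012908145333997208004334845954, 69921, [G3p0_1,
  G3p0_8, G3p0_9, G3p2_1, G3p2_3, G3p2_6, G3p2_8, G3p2_9, G3p3_1, G3p3_6, G3p3_8, G3p3_9, G3p4_6,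
  G3p4_8, G3p4_9, G3p5_4, G3p5_6, G3p5_8, G3p5_9, G3p7_8, G3p7_9, G3p9_8]⟩))))) (.node 440 (.node
  436 (.node 434 (.node 433 (.leaf ⟨287594776, 234942454582300422177859,
  1356945447864739378267416270467456940726365703335009842680085089530476167939, 70213, [G3p0_8,
  G3p0_9, G3p2_0, G3p2_1, G3p2_3, G3p2_8, G3p2_9, G3p3_0, G3p3_1, G3p3_8, G3p3_9, G3p4_5, G3p4_6,
  G3p5_6, G3p7_8, G3p7_9, G3p9_8]⟩) (.leaf ⟨293886226, 118060390569311411900514,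
  1356945447864739679563701942084184618277337095032694083890977414218741448712, 71749, [G3p0_3,
  G3p0_8, G3p0_9, G3p1_3, G3p2_1, G3p2_3, G3p5_4, G3p6_4, G3p6_5, G3p7_8, G3p7_9, G3p9_8]⟩)) (.node
  435 (.leaf ⟨287594770, 118067454465326942523490,
  1356945447864739378267416270450262842613406610966718989481899443186038210680, 70213, [G3p0_3,
  G3p0_4, G3p0_5, G3p0_6, G3p0_8, G3p0_9, G3p1_3, G3p1_4, G3p1_5, G3p1_6, G3p2_1, G3p2_3, G3p2_4,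
  G3p2_5, G3p2_6, G3p4_5, G3p4_6, G3p5_6, G3p7_8, G3p7_9, G3p9_8]⟩) (.leaf ⟨287857028,
  118061504162626196836512,
  1356945447870498732098805741070750267473797739237662486943771353972466385679, 70277, [G3p0_8,
  G3p0_9, G3p2_1, G3p3_1, G3p3_2, G3p4_1, G3p4_2, G3p4_3, G3p4_5, G3p4_6, G3p5_1, G3p5_2, G3p5_3,
  G3p5_6, G3p6_1, G3p6_2, G3p6_3, G3p7_1, G3p7_2, G3p7_3, G3p7_8, G3p7_9, G3p9_8]⟩))) (.node 438
  (.node 437 (.leaf ⟨294197522, 118060390572644306524321,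
  1356945447864739679563701942084184617596793130853620271360328346901785083918, 71825, [G3p0_1,
  G3p0_2, G3p0_3, G3p0_8, G3p0_9, G3p1_2, G3p1_3, G3p2_3, G3p5_4, G3p6_4, G3p6_5, G3p7_8, G3p7_9,
  G3p9_8]⟩) (.leaf ⟨287906066, 118069834621062902454433,
  1356945447864739378267416270452760525395098076579497177397786992357751652478, 70289, [G3p0_1,
  G3p0_2, G3p0_3, G3p0_4, G3p0_5, G3p0_6, G3p0_8, G3p0_9, G3p1_2, G3p1_3, G3p1_4, G3p1_5, G3p1_6,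
  G3p2_3, G3p2_4, G3p2_5, G3p2_6, G3p3_4, G3p3_5, G3p3_6, G3p4_5, G3p4_6, G3p5_6, G3p7_8, G3p7_9,
  G3p9_8]⟩)) (.node 439 (.leaf ⟨287906182, 118061504269243391250598,
  1356945447870498732098805741070616465044363065695940746545626200659605717006, 70289, [G3p0_1,
  G3p0_2, G3p0_3, G3p0_8, G3p0_9, G3p1_2, G3p1_3, G3p2_3, G3p4_1, G3p4_2, G3p4_3, G3p4_5, G3p4_6,
  G3p5_1, G3p5_2, G3p5_3, G3p5_6, G3p6_1, G3p6_2, G3p6_3, G3p7_1, G3p7_2, G3p7_3, G3p7_8, G3p7_9,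
  G3p9_8]⟩) (.leaf ⟨287414552, 351821025108128613532742,
  1356945447864739378267416270467546140988893766744281560292522152950785573633, 70169, [G3p0_8,
  G3p0_9, G3p1_0, G3p1_8, G3p1_9, G3p2_0, G3p2_1, G3p2_8, G3p2_9, G3p3_0, G3p3_1, G3p3_2, G3p3_8,
  G3p3_9, G3p4_5, G3p4_6, G3p5_6, G3p7_8, G3p7_9, G3p9_8]⟩)))) (.node 444 (.node 442 (.node 441
  (.leaf ⟨287463704, 234942454763719840760899,
  1356945447864739378267416270450262803820656004411632891561596616623285797647, 70181, [G3p0_8,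
  G3p0_9, G3p1_2, G3p1_3, G3p2_3, G3p4_5, G3p4_6, G3p5_6, G3p7_8, G3p7_9, G3p9_8]⟩) (.leaf
  ⟨293706020, 351824671788968931693699,
  1356945447864739679563701942103965676339472954262190473930441225134880588657, 71705, [G3p0_8,
  G3p0_9, G3p1_0, G3p1_4, G3p1_5, G3p1_6, G3p1_8, G3p1_9, G3p2_0, G3p2_1, G3p2_4, G3p2_5, G3p2_6,
  G3p2_8, G3p2_9, G3p3_0, G3p3_1, G3p3_2, G3p3_4, G3p3_5, G3p3_6, G3p3_8, G3p3_9, G3p5_4, G3p6_4,
  G3p6_5, G3p7_8, G3p7_9, G3p9_8]⟩)) (.node 443 (.leaf ⟨293706008, 468696102000699452166313,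
  1356945447864744594609358394759412504291045824806270745558816834133395702529, 71705, [G3p0_8,
  G3p0_9, G3p1_0, G3p1_8, G3p1_9, G3p2_0, G3p2_1, G3p2_8, G3p2_9, G3p3_0, G3p3_1, G3p3_2, G3p3_8,
  G3p3_9, G3p4_0, G3p4_1, G3p4_2, G3p4_3, G3p4_8, G3p4_9, G3p5_0, G3p5_1, G3p5_2, G3p5_3, G3p5_4,
  G3p5_8, G3p5_9, G3p6_0, G3p6_1, G3p6_2, G3p6_3, G3p6_4, G3p6_5, G3p6_8, G3p6_9, G3p7_8, G3p7_9,
  G3p9_8]⟩) (.leaf ⟨293755172, 351824671895583978624128,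
  1356945447864739679563701942103809572824552189770335924323319559222801204095, 71717, [G3p0_8,
  G3p0_9, G3p1_2, G3p1_3, G3p1_4, G3p1_5, G3p1_6, G3p1_8, G3p1_9, G3p2_3, G3p2_4, G3p2_5, G3p2_6,
  G3p2_8, G3p2_9, G3p3_4, G3p3_5, G3p3_6, G3p3_8, G3p3_9, G3p5_4, G3p6_4, G3p6_5, G3p7_8, G3p7_9,
  G3p9_8]⟩))) (.node 446 (.node 445 (.leaf ⟨293755160, 351817531656290679394470,
  1356945447864744594609358394742129167122808062473622076827891297805895926543, 71717, [G3p0_8,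
  G3p0_9, G3p1_2, G3p1_3, G3p2_3, G3p4_0, G3p4_1, G3p4_2, G3p4_3, G3p4_8, G3p4_9, G3p5_0, G3p5_1,
  G3p5_2, G3p5_3, G3p5_4, G3p5_8, G3p5_9, G3p6_0, G3p6_1, G3p6_2, G3p6_3, G3p6_4, G3p6_5, G3p6_8,
  G3p6_9, G3p7_8, G3p7_9, G3p9_8]⟩) (.leaf ⟨287381894, 118061503952584042451110,
  1356945447867207672766583186430548174665421169244238057393361839984134717446, 70161, [G3p0_1,
  G3p0_2, G3p0_8, G3p0_9, G3p1_2, G3p3_1, G3p3_2, G3p4_1, G3p4_2, G3p4_5, G3p4_6, G3p5_1, G3p5_2,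
  G3p5_6, G3p6_1, G3p6_2, G3p7_1, G3p7_2, G3p7_8, G3p7_9, G3p9_8]⟩)) (.node 447 (.leaf ⟨293673254,
  234942531112669110437922,
  1356945447864739679563701942103943075120390788580819631307754994802581962758, 71697, [G3p0_1,
  G3p0_2, G3p0_8, G3p0_9, G3p1_2, G3p3_1, G3p3_2, G3p3_4, G3p3_5, G3p3_6, G3p3_8, G3p3_9, G3p5_4,
  G3p6_4, G3p6_5, G3p7_8, G3p7_9, G3p9_8]⟩) (.leaf ⟨294148370, 118060390429707794912387,
  1356945447864739679563701942084318420026227804395342011758473500214645751808, 71813, [G3p0_8,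
  G3p0_9, G3p2_1, G3p3_1, G3p3_2, G3p5_4, G3p6_4, G3p6_5, G3p7_8, G3p7_9, G3p9_8]⟩))))))

def G3T8 : Tr :=
  .node 480 (.node 464 (.node 456 (.node 452 (.node 450 (.node 449 (.leaf ⟨287856914,
  118068644401924858188931,
  1356945447864739378267416270452894327824532750121218917795932145670612320368, 70277, [G3p0_4,
  G3p0_5, G3p0_6, G3p0_8, G3p0_9, G3p1_4, G3p1_5, G3p1_6, G3p2_1, G3p2_4, G3p2_5, G3p2_6, G3p3_1,
  G3p3_2, G3p3_4, G3p3_5, G3p3_6, G3p4_5, G3p4_6, G3p5_6, G3p7_8, G3p7_9, G3p9_8]⟩) (.leaf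
  ⟨294000914, 118060390538662525276225,
  1356945447864739679563701942084318420026227805504536286958174226524261974030, 71777, [G3p0_1,
  G3p0_2, G3p0_3, G3p0_8, G3p0_9, G3p2_1, G3p3_1, G3p3_2, G3p5_4, G3p6_4, G3p6_5, G3p7_8, G3p7_9,
  G3p9_8]⟩)) (.node 451 (.leaf ⟨287447430, 118061503978972321517734,
  1356945447865562143100471909110357929023513643549534451276565625160612315138, 70177, [G3p0_1,
  G3p0_8, G3p0_9, G3p2_1, G3p2_3, G3p3_1, G3p4_1, G3p4_5, G3p4_6, G3p5_1, G3p5_6, G3p6_1, G3p7_1,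
  G3p7_8, G3p7_9, G3p9_8]⟩) (.leaf ⟨293738790, 273903244703365936057411,
  1356945447864739679563701942103854174990882456219139181470493543270773293058, 71713, [G3p0_1,
  G3p0_8, G3p0_9, G3p2_1, G3p2_3, G3p2_4, G3p2_5, G3p2_6, G3p2_8, G3p2_9, G3p3_1, G3p3_4, G3p3_5,
  G3p3_6, G3p3_8, G3p3_9, G3p5_4, G3p6_4, G3p6_5, G3p7_8, G3p7_9, G3p9_8]⟩))) (.node 454 (.node 453
  (.leaf ⟨306469138, 234940074535343102201954,
  1356945447864744199155109955815909565722118830920874912819950581083279982600, 74821, [G3p0_3,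
  G3p0_8, G3p0_9, G3p1_3, G3p2_1, G3p2_3, G3p4_5, G3p4_6, G3p4_8, G3p4_9, G3p5_6, G3p5_8, G3p5_9,
  G3p6_8, G3p6_9, G3p7_8, G3p7_9, G3p9_8]⟩) (.leaf ⟨306780434, 234940074538675996825761,
  1356945447864744199155109955815909565041574866741801100289301513766323617806, 74897, [G3p0_1,
  G3p0_2, G3p0_3, G3p0_8, G3p0_9, G3p1_2, G3p1_3, G3p2_3, G3p4_5, G3p4_6, G3p4_8, G3p4_9, G3p5_6,
  G3p5_8, G3p5_9, G3p6_8, G3p6_9, G3p7_8, G3p7_9, G3p9_8]⟩)) (.node 455 (.leaf ⟨306338072,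
  351818645171298549993638,
  1356945447864744293313072723108207353346670937140828972228824542670922646287, 74789, [G3p0_8,
  G3p0_9, G3p1_2, G3p1_3, G3p2_3, G3p4_0, G3p4_1, G3p4_2, G3p4_3, G3p4_5, G3p4_6, G3p4_8, G3p4_9,
  G3p5_0, G3p5_1, G3p5_2, G3p5_3, G3p5_6, G3p5_8, G3p5_9, G3p6_0, G3p6_1, G3p6_2, G3p6_3, G3p6_8,
  G3p6_9, G3p7_8, G3p7_9, G3p9_8]⟩) (.leaf ⟨306338084, 468704355861615668925568,
  1356945447864744199155109955835534520269333925658516753252292726087339737983, 74789, [G3p0_8,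
  G3p0_9, G3p1_2, G3p1_3, G3p1_4, G3p1_5, G3p1_6, G3p1_8, G3p1_9, G3p2_3, G3p2_4, G3p2_5, G3p2_6,
  G3p2_8, G3p2_9, G3p3_4, G3p3_5, G3p3_6, G3p3_8, G3p3_9, G3p4_5, G3p4_6, G3p4_8, G3p4_9, G3p5_6,
  G3p5_8, G3p5_9, G3p6_8, G3p6_9, G3p7_8, G3p7_9, G3p9_8]⟩)))) (.node 460 (.node 458 (.node 457
  (.leaf ⟨306288932, 468704355755000621995139,
  1356945447864744199155109955835690623784254690150371302859414391999419122545, 74777, [G3p0_8,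
  G3p0_9, G3p1_0, G3p1_4, G3p1_5, G3p1_6, G3p1_8, G3p1_9, G3p2_0, G3p2_1, G3p2_4, G3p2_5, G3p2_6,
  G3p2_8, G3p2_9, G3p3_0, G3p3_1, G3p3_2, G3p3_4, G3p3_5, G3p3_6, G3p3_8, G3p3_9, G3p4_5, G3p4_6,
  G3p4_8, G3p4_9, G3p5_6, G3p5_8, G3p5_9, G3p6_8, G3p6_9, G3p7_8, G3p7_9, G3p9_8]⟩) (.leaf
  ⟨306288920, 468697215515707322765481,
  1356945447864744293313072723125490690514908699473477640959750078998422422273, 74777, [G3p0_8,
  G3p0_9, G3p1_0, G3p1_8, G3p1_9, G3p2_0, G3p2_1, G3p2_8, G3p2_9, G3p3_0, G3p3_1, G3p3_2, G3p3_8,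
  G3p3_9, G3p4_0, G3p4_1, G3p4_2, G3p4_3, G3p4_5, G3p4_6, G3p4_8, G3p4_9, G3p5_0, G3p5_1, G3p5_2,
  G3p5_3, G3p5_6, G3p5_8, G3p5_9, G3p6_0, G3p6_1, G3p6_2, G3p6_3, G3p6_8, G3p6_9, G3p7_8, G3p7_9,
  G3p9_8]⟩)) (.node 459 (.leaf ⟨306256166, 351822215078700800739362,
  1356945447864744199155109955835668022565172524469000460236728161667120496646, 74769, [G3p0_1,
  G3p0_2, G3p0_8, G3p0_9, G3p1_2, G3p3_1, G3p3_2, G3p3_4, G3p3_5, G3p3_6, G3p3_8, G3p3_9, G3p4_5,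
  G3p4_6, G3p4_8, G3p4_9, G3p5_6, G3p5_8, G3p5_9, G3p6_8, G3p6_9, G3p7_8, G3p7_9, G3p9_8]⟩) (.leaf
  ⟨306731282, 234940074395739485213827,
  1356945447864744199155109955816043367471009540283522840687446667079184285696, 74885, [G3p0_8,
  G3p0_9, G3p2_1, G3p3_1, G3p3_2, G3p4_5, G3p4_6, G3p4_8, G3p4_9, G3p5_6, G3p5_8, G3p5_9, G3p6_8,
  G3p6_9, G3p7_8, G3p7_9, G3p9_8]⟩))) (.node 462 (.node 461 (.leaf ⟨306583826,
  234940074504694215577665,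
  1356945447864744199155109955816043367471009541392717115887147393388800507918, 74849, [G3p0_1,
  G3p0_2, G3p0_3, G3p0_8, G3p0_9, G3p2_1, G3p3_1, G3p3_2, G3p4_5, G3p4_6, G3p4_8, G3p4_9, G3p5_6,
  G3p5_8, G3p5_9, G3p6_8, G3p6_9, G3p7_8, G3p7_9, G3p9_8]⟩) (.leaf ⟨306321702,
  390782928669397626358851,
  1356945447864744199155109955835579122435664192107320010399466710135311826946, 74785, [G3p0_1,
  G3p0_8, G3p0_9, G3p2_1, G3p2_3, G3p2_4, G3p2_5, G3p2_6, G3p2_8, G3p2_9, G3p3_1, G3p3_4, G3p3_5,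
  G3p3_6, G3p3_8, G3p3_9, G3p4_5, G3p4_6, G3p4_8, G3p4_9, G3p5_6, G3p5_8, G3p5_9, G3p6_8, G3p6_9,
  G3p7_8, G3p7_9, G3p9_8]⟩)) (.node 463 (.leaf ⟨275011976, 234941341067292554893379,
  1356945447910813807168695711281717891614108642807319553582678870897788650243, 67141, [G3p0_8,
  G3p0_9, G3p2_0, G3p2_1, G3p2_3, G3p2_8, G3p2_9, G3p3_0, G3p3_1, G3p3_8, G3p3_9, G3p5_4, G3p6_4,
  G3p6_5, G3p7_4, G3p7_5, G3p7_6, G3p7_8, G3p7_9, G3p9_8]⟩) (.leaf ⟨278419844,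
  118066264431114083961984,
  1356945447916572771823034260778278135500647219969505089250973557668675715855, 67973, [G3p0_8,
  G3p0_9, G3p2_1, G3p3_1, G3p3_2, G3p4_5, G3p4_6, G3p5_6, G3p7_1, G3p7_2, G3p7_3, G3p7_4, G3p7_5,
  G3p7_6, G3p7_8, G3p7_9, G3p9_8]⟩))))) (.node 472 (.node 468 (.node 466 (.node 465 (.leaf
  ⟨275274116, 118062770872657881667808,
  1356945447916573161000085181885011218361540678709972197846613681536670499599, 67205, [G3p0_8,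
  G3p0_9, G3p2_1, G3p3_1, G3p3_2, G3p4_1, G3p4_2, G3p4_3, G3p5_1, G3p5_2, G3p5_3, G3p5_4, G3p6_1,
  G3p6_2, G3p6_3, G3p6_4, G3p6_5, G3p7_1, G3p7_2, G3p7_3, G3p7_4, G3p7_5, G3p7_6, G3p7_8, G3p7_9,
  G3p9_8]⟩) (.leaf ⟨275011986, 118066340950319075332194,
  1356945447910813807168695711264523793501149550439028700384494072770736947320, 67141, [G3p0_3,
  G3p0_4, G3p0_5, G3p0_6, G3p0_8, G3p0_9, G3p1_3, G3p1_4, G3p1_5, G3p1_6, G3p2_1, G3p2_3, G3p2_4,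
  G3p2_5, G3p2_6, G3p5_4, G3p6_4, G3p6_5, G3p7_4, G3p7_5, G3p7_6, G3p7_8, G3p7_9, G3p9_8]⟩)) (.node
  467 (.leaf ⟨278468998, 118066264537731278376069,
  1356945447916572771823034260778144333071212546427783348852828404355815047182, 67985, [G3p0_1,
  G3p0_2, G3p0_3, G3p0_8, G3p0_9, G3p1_2, G3p1_3, G3p2_3, G3p4_5, G3p4_6, G3p5_6, G3p7_1, G3p7_2,
  G3p7_3, G3p7_4, G3p7_5, G3p7_6, G3p7_8, G3p7_9, G3p9_8]⟩) (.leaf ⟨275323270,
  118062770979275076081896,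
  1356945447916573161000085181884877415932106005168250457448468528223809830926, 67217, [G3p0_1,
  G3p0_2, G3p0_3, G3p0_8, G3p0_9, G3p1_2, G3p1_3, G3p2_3, G3p4_1, G3p4_2, G3p4_3, G3p5_1, G3p5_2,
  G3p5_3, G3p5_4, G3p6_1, G3p6_2, G3p6_3, G3p6_4, G3p6_5, G3p7_1, G3p7_2, G3p7_3, G3p7_4, G3p7_5,
  G3p7_6, G3p7_8, G3p7_9, G3p9_8]⟩))) (.node 470 (.node 469 (.leaf ⟨275323282,
  118068721106055035328673,
  1356945447910813807168695711267021476282841016051806888300381621942450389118, 67217, [G3p0_1,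
  G3p0_2, G3p0_3, G3p0_4, G3p0_5, G3p0_6, G3p0_8, G3p0_9, G3p1_2, G3p1_3, G3p1_4, G3p1_5, G3p1_6,
  G3p2_3, G3p2_4, G3p2_5, G3p2_6, G3p3_4, G3p3_5, G3p3_6, G3p5_4, G3p6_4, G3p6_5, G3p7_4, G3p7_5,
  G3p7_6, G3p7_8, G3p7_9, G3p9_8]⟩) (.leaf ⟨274880900, 118062770688730202183904,
  1356945447910813807168695711264523754708398943883942602464187020239286829839, 67109, [G3p0_8,
  G3p0_9, G3p1_2, G3p1_3, G3p2_3, G3p5_4, G3p6_4, G3p6_5, G3p7_4, G3p7_5, G3p7_6, G3p7_8, G3p7_9,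
  G3p9_8]⟩)) (.node 471 (.leaf ⟨278026628, 118066264356141134843008,
  1356945447910813505872410039630601940932261818551149497865151790782741480207, 67877, [G3p0_8,
  G3p0_9, G3p1_2, G3p1_3, G3p2_3, G3p4_5, G3p4_6, G3p5_6, G3p7_4, G3p7_5, G3p7_6, G3p7_8, G3p7_9,
  G3p9_8]⟩) (.leaf ⟨274831748, 234941341033138974955747,
  1356945447910813807168695711281807091876636706216591271195112556566786605825, 67097, [G3p0_8,
  G3p0_9, G3p1_0, G3p1_8, G3p1_9, G3p2_0, G3p2_1, G3p2_8, G3p2_9, G3p3_0, G3p3_1, G3p3_2, G3p3_8,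
  G3p3_9, G3p5_4, G3p6_4, G3p6_5, G3p7_4, G3p7_5, G3p7_6, G3p7_8, G3p7_9, G3p9_8]⟩)))) (.node 476
  (.node 474 (.node 473 (.leaf ⟨277977476, 234944834700549907614851,
  1356945447910813505872410039647885278100499580883798166596077327110241256193, 67865, [G3p0_8,
  G3p0_9, G3p1_0, G3p1_8, G3p1_9, G3p2_0, G3p2_1, G3p2_8, G3p2_9, G3p3_0, G3p3_1, G3p3_2, G3p3_8,
  G3p3_9, G3p4_5, G3p4_6, G3p5_6, G3p7_4, G3p7_5, G3p7_6, G3p7_8, G3p7_9, G3p9_8]⟩) (.leaf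
  ⟨274798982, 118062770592246983104744,
  1356945447913282101667862627244809125553164108716547768296204167548338831366, 67089, [G3p0_1,
  G3p0_2, G3p0_8, G3p0_9, G3p1_2, G3p3_1, G3p3_2, G3p4_1, G3p4_2, G3p5_1, G3p5_2, G3p5_4, G3p6_1,
  G3p6_2, G3p6_4, G3p6_5, G3p7_1, G3p7_2, G3p7_4, G3p7_5, G3p7_6, G3p7_8, G3p7_9, G3p9_8]⟩)) (.node
  475 (.leaf ⟨277944710, 118066264256256301665413,
  1356945447913281762708391848693968196454988554780465804841481126201172295686, 67857, [G3p0_1,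
  G3p0_2, G3p0_8, G3p0_9, G3p1_2, G3p3_1, G3p3_2, G3p4_5, G3p4_6, G3p5_6, G3p7_1, G3p7_2, G3p7_4,
  G3p7_5, G3p7_6, G3p7_8, G3p7_9, G3p9_8]⟩) (.leaf ⟨275274130, 118067530886916991030403,
  1356945447910813807168695711267155278712275689593528628698526775255311057008, 67205, [G3p0_4,
  G3p0_5, G3p0_6, G3p0_8, G3p0_9, G3p1_4, G3p1_5, G3p1_6, G3p2_1, G3p2_4, G3p2_5, G3p2_6, G3p3_1,
  G3p3_2, G3p3_4, G3p3_5, G3p3_6, G3p5_4, G3p6_4, G3p6_5, G3p7_4, G3p7_5, G3p7_6, G3p7_8, G3p7_9,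
  G3p9_8]⟩))) (.node 478 (.node 477 (.leaf ⟨274864518, 118062770616436238915816,
  1356945447911636572001751349924618879911256583021844162179407952724816429058, 67105, [G3p0_1,
  G3p0_8, G3p0_9, G3p2_1, G3p2_3, G3p3_1, G3p4_1, G3p5_1, G3p5_4, G3p6_1, G3p6_4, G3p6_5, G3p7_1,
  G3p7_4, G3p7_5, G3p7_6, G3p7_8, G3p7_9, G3p9_8]⟩) (.leaf ⟨278010246, 118066264283744092359813,
  1356945447911636258151070642651724027694439981487954771295143452638064017410, 67873, [G3p0_1,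
  G3p0_8, G3p0_9, G3p2_1, G3p2_3, G3p3_1, G3p4_5, G3p4_6, G3p5_6, G3p7_1, G3p7_4, G3p7_5, G3p7_6,
  G3p7_8, G3p7_9, G3p9_8]⟩)) (.node 479 (.leaf ⟨272914840, 234941335437793020675139,
  1356945447904231688504251892507259470545720205032325608021064337535929615107, 66629, [G3p0_8,
  G3p0_9, G3p2_0, G3p2_1, G3p2_3, G3p2_8, G3p2_9, G3p3_0, G3p3_1, G3p3_8, G3p3_9, G3p4_0, G3p4_1,
  G3p4_5, G3p4_6, G3p4_8, G3p4_9, G3p6_5, G3p7_5, G3p7_6, G3p7_8, G3p7_9, G3p9_8]⟩) (.leaf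
  ⟨272734616, 351819905963621212030022,
  1356945447904231688504251910045368318779083286885815318228894259127709008641, 66585, [G3p0_8,
  G3p0_9, G3p1_0, G3p1_8, G3p1_9, G3p2_0, G3p2_1, G3p2_8, G3p2_9, G3p3_0, G3p3_1, G3p3_2, G3p3_8,
  G3p3_9, G3p4_0, G3p4_1, G3p4_2, G3p4_3, G3p4_5, G3p4_6, G3p4_8, G3p4_9, G3p6_5, G3p7_5, G3p7_6,
  G3p7_8, G3p7_9, G3p9_8]⟩)))))) (.node 496 (.node 488 (.node 484 (.node 482 (.node 481 (.leaf
  ⟨272783768, 234941335619212439258179,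
  1356945447904231688504251910028084981610845524553166649497968722800209232655, 66597, [G3p0_8,
  G3p0_9, G3p1_2, G3p1_3, G3p2_3, G3p4_0, G3p4_1, G3p4_2, G3p4_3, G3p4_5, G3p4_6, G3p4_8, G3p4_9,
  G3p6_5, G3p7_5, G3p7_6, G3p7_8, G3p7_9, G3p9_8]⟩) (.leaf ⟨304371986, 157018907498469302243426,
  1356945447864744500376302270282197766227952000268473706890217463311343550520, 74309, [G3p0_3,
  G3p0_4, G3p0_5, G3p0_8, G3p0_9, G3p1_3, G3p1_4, G3p1_5, G3p2_1, G3p2_3, G3p2_4, G3p2_5, G3p4_5,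
  G3p6_4, G3p6_5, G3p6_8, G3p6_9, G3p7_8, G3p7_9, G3p9_8]⟩)) (.node 483 (.leaf ⟨304683282,
  157018981811196048480417,
  1356945447864744500376302270283268201316937506000193608836655517346674245694, 74385, [G3p0_1,
  G3p0_2, G3p0_3, G3p0_4, G3p0_5, G3p0_8, G3p0_9, G3p1_2, G3p1_3, G3p1_4, G3p1_5, G3p2_3, G3p2_4,
  G3p2_5, G3p3_4, G3p3_5, G3p4_5, G3p6_4, G3p6_5, G3p6_8, G3p6_9, G3p7_8, G3p7_9, G3p9_8]⟩) (.leaf
  ⟨304634130, 157018944513562611061891,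
  1356945447864744500376302270283402003746372179541915349234800670659534913584, 74373, [G3p0_4,
  G3p0_5, G3p0_8, G3p0_9, G3p1_4, G3p1_5, G3p2_1, G3p2_4, G3p2_5, G3p3_1, G3p3_2, G3p3_4, G3p3_5,
  G3p4_5, G3p6_4, G3p6_5, G3p6_8, G3p6_9, G3p7_8, G3p7_9, G3p9_8]⟩))) (.node 486 (.node 485 (.leaf
  ⟨303323426, 273897294462992681929858,
  1356945447864744550668975770005723533260973861058053162559902896874584539144, 74053, [G3p0_3,
  G3p0_8, G3p0_9, G3p1_3, G3p2_1, G3p2_3, G3p4_3, G3p4_8, G3p4_9, G3p5_3, G3p5_4, G3p5_8, G3p5_9,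
  G3p6_3, G3p6_4, G3p6_5, G3p6_8, G3p6_9, G3p7_8, G3p7_9, G3p9_8]⟩) (.leaf ⟨303634722,
  273897294431141204462753,
  1356945447864744500451395627449831378817711992074594204888336747002440187918, 74129, [G3p0_1,
  G3p0_2, G3p0_3, G3p0_8, G3p0_9, G3p1_2, G3p1_3, G3p2_3, G3p4_8, G3p4_9, G3p5_4, G3p5_8, G3p5_9,
  G3p6_4, G3p6_5, G3p6_8, G3p6_9, G3p7_8, G3p7_9, G3p9_8]⟩)) (.node 487 (.leaf ⟨303143204,
  351816341255558203118723,
  1356945447864744500451395627467114715985949753298048598419561557020374991617, 74009, [G3p0_8,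
  G3p0_9, G3p1_0, G3p1_8, G3p1_9, G3p2_0, G3p2_1, G3p2_8, G3p2_9, G3p3_0, G3p3_1, G3p3_2, G3p3_8,
  G3p3_9, G3p4_8, G3p4_9, G3p5_4, G3p5_8, G3p5_9, G3p6_4, G3p6_5, G3p6_8, G3p6_9, G3p7_8, G3p7_9,
  G3p9_8]⟩) (.leaf ⟨303192356, 351816341362173250049152,
  1356945447864744500451395627466958612471028988806194048812439891108295607055, 74021, [G3p0_8,
  G3p0_9, G3p1_2, G3p1_3, G3p1_8, G3p1_9, G3p2_3, G3p2_8, G3p2_9, G3p3_8, G3p3_9, G3p4_8, G3p4_9,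
  G3p5_4, G3p5_8, G3p5_9, G3p6_4, G3p6_5, G3p6_8, G3p6_9, G3p7_8, G3p7_9, G3p9_8]⟩)))) (.node 492
  (.node 490 (.node 489 (.leaf ⟨303110438, 273897294291537587473442,
  1356945447864744500451395627467092152879074220009941564389226774634988699654, 74001, [G3p0_1,
  G3p0_2, G3p0_8, G3p0_9, G3p1_2, G3p3_1, G3p3_2, G3p3_8, G3p3_9, G3p4_8, G3p4_9, G3p5_4, G3p5_8,
  G3p5_9, G3p6_4, G3p6_5, G3p6_8, G3p6_9, G3p7_8, G3p7_9, G3p9_8]⟩) (.leaf ⟨303585570,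
  273897294288204692851843,
  1356945447864744500451395627449965181247146665616315945286481900315300855808, 74117, [G3p0_8,
  G3p0_9, G3p2_1, G3p3_1, G3p3_2, G3p4_8, G3p4_9, G3p5_4, G3p5_8, G3p5_9, G3p6_4, G3p6_5, G3p6_8,
  G3p6_9, G3p7_8, G3p7_9, G3p9_8]⟩)) (.node 491 (.leaf ⟨303175974, 273897294322358272789571,
  1356945447864744500451395627467003214637940792503153206654009290745140346882, 74017, [G3p0_1,
  G3p0_8, G3p0_9, G3p2_1, G3p2_3, G3p2_8, G3p2_9, G3p3_1, G3p3_8, G3p3_9, G3p4_8, G3p4_9, G3p5_4,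
  G3p5_8, G3p5_9, G3p6_4, G3p6_5, G3p6_8, G3p6_9, G3p7_8, G3p7_9, G3p9_8]⟩) (.leaf ⟨272914834,
  118066331943119820591202,
  1356945447904231688504250765672302984862010228870626157684391772546167996520, 66629, [G3p0_3,
  G3p0_5, G3p0_6, G3p0_8, G3p0_9, G3p1_3, G3p1_5, G3p1_6, G3p2_1, G3p2_3, G3p2_5, G3p2_6, G3p4_5,
  G3p4_6, G3p6_5, G3p7_5, G3p7_6, G3p7_8, G3p7_9, G3p9_8]⟩))) (.node 494 (.node 493 (.leaf
  ⟨273226130, 118068709847055966902433,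
  1356945447904231688504250765674443855720525204513139774107916947933785751662, 66705, [G3p0_1,
  G3p0_2, G3p0_3, G3p0_5, G3p0_6, G3p0_8, G3p0_9, G3p1_2, G3p1_3, G3p1_5, G3p1_6, G3p2_3, G3p2_5,
  G3p2_6, G3p3_5, G3p3_6, G3p4_5, G3p4_6, G3p6_5, G3p7_5, G3p7_6, G3p7_8, G3p7_9, G3p9_8]⟩) (.leaf
  ⟨273176978, 118067520753817829446787,
  1356945447904231688504250765674577658149959878054861514506062101246646419552, 66693, [G3p0_5,
  G3p0_6, G3p0_8, G3p0_9, G3p1_5, G3p1_6, G3p2_1, G3p2_5, G3p2_6, G3p3_1, G3p3_2, G3p3_5, G3p3_6,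
  G3p4_5, G3p4_6, G3p6_5, G3p7_5, G3p7_6, G3p7_8, G3p7_9, G3p9_8]⟩)) (.node 495 (.leaf ⟨278157704,
  234944834734703487552579,
  1356945447910813505872410039650293799411832042411486357328136290287960130307, 67909, [G3p0_8,
  G3p0_9, G3p2_0, G3p2_1, G3p2_3, G3p2_4, G3p2_5, G3p2_6, G3p2_8, G3p2_9, G3p3_0, G3p3_1, G3p3_4,
  G3p3_5, G3p3_6, G3p3_8, G3p3_9, G3p4_5, G3p4_6, G3p5_6, G3p7_4, G3p7_5, G3p7_6, G3p7_8, G3p7_9,
  G3p9_8]⟩) (.leaf ⟨277109138, 118066080867440594686050,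
  1356945447891067451186088015897555827469986337298470708122121943023425683528, 67653, [G3p0_3,
  G3p0_6, G3p0_8, G3p0_9, G3p1_3, G3p1_6, G3p2_1, G3p2_3, G3p2_6, G3p4_6, G3p5_4, G3p5_6, G3p7_6,
  G3p7_8, G3p7_9, G3p9_8]⟩))))) (.node 504 (.node 500 (.node 498 (.node 497 (.leaf ⟨277420434,
  118068386713782703069345,
  1356945447891067451186088015898983074482148333000455181560922370842852065358, 67729, [G3p0_1,
  G3p0_2, G3p0_3, G3p0_6, G3p0_8, G3p0_9, G3p1_2, G3p1_3, G3p1_6, G3p2_3, G3p2_6, G3p3_6, G3p4_6,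
  G3p5_4, G3p5_6, G3p7_6, G3p7_8, G3p7_9, G3p9_8]⟩) (.leaf ⟨276978072, 273901869071422800889956,
  1356945447891067451261085660784462271113935138126984601377600155761853268751, 67621, [G3p0_8,
  G3p0_9, G3p1_2, G3p1_3, G3p2_3, G3p4_0, G3p4_1, G3p4_2, G3p4_3, G3p4_6, G3p4_8, G3p4_9, G3p5_0,
  G3p5_1, G3p5_2, G3p5_3, G3p5_4, G3p5_6, G3p5_8, G3p5_9, G3p7_6, G3p7_8, G3p7_9, G3p9_8]⟩)) (.node
  499 (.leaf ⟨276928920, 390780439415831573661799,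
  1356945447891067451261085660801745608282172900459633270108525692089353044737, 67609, [G3p0_8,
  G3p0_9, G3p1_0, G3p1_8, G3p1_9, G3p2_0, G3p2_1, G3p2_8, G3p2_9, G3p3_0, G3p3_1, G3p3_2, G3p3_8,
  G3p3_9, G3p4_0, G3p4_1, G3p4_2, G3p4_3, G3p4_6, G3p4_8, G3p4_9, G3p5_0, G3p5_1, G3p5_2, G3p5_3,
  G3p5_4, G3p5_6, G3p5_8, G3p5_9, G3p7_6, G3p7_8, G3p7_9, G3p9_8]⟩) (.leaf ⟨277371282,
  118067233649341584577667,
  1356945447891067451186088015899116876911583006542176921959067524155712733248, 67717, [G3p0_6,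
  G3p0_8, G3p0_9, G3p1_6, G3p2_1, G3p2_6, G3p3_1, G3p3_2, G3p3_6, G3p4_6, G3p5_4, G3p5_6, G3p7_6,
  G3p7_8, G3p7_9, G3p9_8]⟩))) (.node 502 (.node 501 (.leaf ⟨277223826, 118064927915287101180993,
  1356945447891067451186088015897689607440473257831305020565117927930710589518, 67681, [G3p0_1,
  G3p0_2, G3p0_3, G3p0_6, G3p0_8, G3p0_9, G3p2_1, G3p3_1, G3p3_2, G3p4_6, G3p5_4, G3p5_6, G3p7_6,
  G3p7_8, G3p7_9, G3p9_8]⟩) (.leaf ⟨623401092, 271722882296626764943520,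
  904646402774172283271408195504666510758321385320504601124673114791056638863, 152197, [G3p0_7,
  G3p0_8, G3p0_9, G3p2_1, G3p3_1, G3p3_2, G3p4_1, G3p4_2, G3p4_3, G3p4_5, G3p4_6, G3p4_7, G3p4_8,
  G3p4_9, G3p5_1, G3p5_2, G3p5_3, G3p5_6, G3p5_7, G3p5_8, G3p5_9, G3p6_1, G3p6_2, G3p6_3, G3p6_7,
  G3p6_8, G3p6_9, G3p7_8, G3p7_9, G3p8_9]⟩)) (.node 503 (.leaf ⟨623450246, 271722882403243925803174,
  904646402774172283271408195504532708328886711778782860726527961478195970062, 152209, [G3p0_1,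
  G3p0_2, G3p0_3, G3p0_7, G3p0_8, G3p0_9, G3p1_2, G3p1_3, G3p2_3, G3p4_1, G3p4_2, G3p4_3, G3p4_5,
  G3p4_6, G3p4_7, G3p4_8, G3p4_9, G3p5_1, G3p5_2, G3p5_3, G3p5_6, G3p5_7, G3p5_8, G3p5_9, G3p6_1,
  G3p6_2, G3p6_3, G3p6_7, G3p6_8, G3p6_9, G3p7_8, G3p7_9, G3p8_9]⟩) (.leaf ⟨622925958,
  271722882086584577003686,
  904646402774172233053828052948774356315059516337045643453104713119098601478, 152081, [G3p0_1,
  G3p0_2, G3p0_7, G3p0_8, G3p0_9, G3p1_2, G3p3_1, G3p3_2, G3p4_1, G3p4_2, G3p4_5, G3p4_6, G3p4_7,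
  G3p4_8, G3p4_9, G3p5_1, G3p5_2, G3p5_6, G3p5_7, G3p5_8, G3p5_9, G3p6_1, G3p6_2, G3p6_7, G3p6_8,
  G3p6_9, G3p7_8, G3p7_9, G3p8_9]⟩)))) (.node 508 (.node 506 (.node 505 (.leaf ⟨613701730,
  193730048345044571754658,
  904646402774166621239247122327692372262986909263441230172652953740077694984, 149829, [G3p0_3,
  G3p0_7, G3p0_8, G3p0_9, G3p1_3, G3p2_1, G3p2_3, G3p4_3, G3p4_5, G3p4_6, G3p5_3, G3p5_6, G3p6_3,
  G3p7_8, G3p7_9, G3p8_9]⟩) (.leaf ⟨610555976, 349713412465308792491075,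
  904646402774166872317952651425770707443126749069188276715628778270618747779, 149061, [G3p0_7,
  G3p0_8, G3p0_9, G3p2_0, G3p2_1, G3p2_3, G3p2_7, G3p2_8, G3p2_9, G3p3_0, G3p3_1, G3p3_7, G3p3_8,
  G3p3_9, G3p5_4, G3p6_4, G3p6_5, G3p7_8, G3p7_9, G3p8_9]⟩)) (.node 507 (.leaf ⟨610818116,
  232724161697277128346752,
  904646402774166960198717900878667103110053172562161449940738960167067845519, 149125, [G3p0_7,
  G3p0_8, G3p0_9, G3p2_1, G3p3_1, G3p3_2, G3p4_1, G3p4_2, G3p4_3, G3p5_1, G3p5_2, G3p5_3, G3p5_4,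
  G3p6_1, G3p6_2, G3p6_3, G3p6_4, G3p6_5, G3p7_8, G3p7_9, G3p8_9]⟩) (.leaf ⟨308566290,
  195979367730866402955362,
  1356945447864744299590268954806253027497587570039394985657011560918908665880, 75333, [G3p0_3,
  G3p0_4, G3p0_8, G3p0_9, G3p1_3, G3p1_4, G3p2_1, G3p2_3, G3p2_4, G3p5_4, G3p5_6, G3p5_8, G3p5_9,
  G3p6_4, G3p6_8, G3p6_9, G3p7_8, G3p7_9, G3p9_8]⟩))) (.node 510 (.node 509 (.leaf ⟨610556050,
  349720553027963596214370,
  904646402774166872317952651405722375286265830204767997005690552804634526712, 149061, [G3p0_3,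
  G3p0_4, G3p0_5, G3p0_6, G3p0_7, G3p0_8, G3p0_9, G3p1_3, G3p1_4, G3p1_5, G3p1_6, G3p1_7, G3p1_8,
  G3p1_9, G3p2_1, G3p2_3, G3p2_4, G3p2_5, G3p2_6, G3p2_7, G3p2_8, G3p2_9, G3p5_4, G3p6_4, G3p6_5,
  G3p7_8, G3p7_9, G3p8_9]⟩) (.leaf ⟨614012998, 193731238390528498335778,
  904646402774166571021666979771800217819725040279972600946953682986212392974, 149905, [G3p0_1,
  G3p0_2, G3p0_3, G3p0_7, G3p0_8, G3p0_9, G3p1_2, G3p1_3, G3p2_3, G3p4_5, G3p4_6, G3p5_6, G3p7_8,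
  G3p7_9, G3p8_9]⟩)) (.node 511 (.leaf ⟨610867270, 193727744832072296041605,
  904646402774166960198717900878533300680618499020439709542593806854207176718, 149137, [G3p0_1,
  G3p0_2, G3p0_3, G3p0_7, G3p0_8, G3p0_9, G3p1_2, G3p1_3, G3p2_3, G3p4_1, G3p4_2, G3p4_3, G3p5_1,
  G3p5_2, G3p5_3, G3p5_4, G3p6_1, G3p6_2, G3p6_3, G3p6_4, G3p6_5, G3p7_8, G3p7_9, G3p8_9]⟩) (.leaf
  ⟨610867346, 427715767127343542540449,
  904646402774166872317952651428201525765840734152362188493871033885706421246, 149137, [G3p0_1,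
  G3p0_2, G3p0_3, G3p0_4, G3p0_5, G3p0_6, G3p0_7, G3p0_8, G3p0_9, G3p1_2, G3p1_3, G3p1_4, G3p1_5,
  G3p1_6, G3p1_7, G3p1_8, G3p1_9, G3p2_3, G3p2_4, G3p2_5, G3p2_6, G3p2_7, G3p2_8, G3p2_9, G3p3_4,
  G3p3_5, G3p3_6, G3p3_7, G3p3_8, G3p3_9, G3p5_4, G3p6_4, G3p6_5, G3p7_8, G3p7_9, G3p8_9]⟩))))))

def G3T9 : Tr :=
  .node 544 (.node 528 (.node 520 (.node 516 (.node 514 (.node 513 (.leaf ⟨610375748,
  349713412431155212553347,
  904646402774166872317952651425859907706319426476352452264514367469748487041, 149017, [G3p0_7,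
  G3p0_8, G3p0_9, G3p1_0, G3p1_7, G3p1_8, G3p1_9, G3p2_0, G3p2_1, G3p2_7, G3p2_8, G3p2_9, G3p3_0,
  G3p3_1, G3p3_2, G3p3_7, G3p3_8, G3p3_9, G3p5_4, G3p6_4, G3p6_5, G3p7_8, G3p7_9, G3p8_9]⟩) (.leaf
  ⟨613521476, 349716906098566145212547,
  904646402774166571021666979791938093930182301143559347665479138013203137409, 149785, [G3p0_7,
  G3p0_8, G3p0_9, G3p1_0, G3p1_7, G3p1_8, G3p1_9, G3p2_0, G3p2_1, G3p2_7, G3p2_8, G3p2_9, G3p3_0,
  G3p3_1, G3p3_2, G3p3_7, G3p3_8, G3p3_9, G3p4_5, G3p4_6, G3p5_6, G3p7_8, G3p7_9, G3p8_9]⟩)) (.node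
  515 (.leaf ⟨613570628, 232727655289715111886976,
  904646402774166571021666979771800217819725039170778325747252956616466629519, 149797, [G3p0_7,
  G3p0_8, G3p0_9, G3p1_2, G3p1_3, G3p2_3, G3p4_5, G3p4_6, G3p5_6, G3p7_8, G3p7_9, G3p8_9]⟩) (.leaf
  ⟨610424900, 232724161622304179227776,
  904646402774166872317952651405722031595862164503571430346288186073011979151, 149029, [G3p0_7,
  G3p0_8, G3p0_9, G3p1_2, G3p1_3, G3p2_3, G3p5_4, G3p6_4, G3p6_5, G3p7_8, G3p7_9, G3p8_9]⟩))) (.node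
  518 (.node 517 (.leaf ⟨613488710, 193731238214606637891618,
  904646402774166571021666979771934019568615749642620528814449768947756957702, 149777, [G3p0_1,
  G3p0_2, G3p0_7, G3p0_8, G3p0_9, G3p1_2, G3p3_1, G3p3_2, G3p4_5, G3p4_6, G3p5_6, G3p7_8, G3p7_9,
  G3p8_9]⟩) (.leaf ⟨610342982, 193727744550597319330949,
  904646402774166909981137758322774948666791303578702492269172810294923493382, 149009, [G3p0_1,
  G3p0_2, G3p0_7, G3p0_8, G3p0_9, G3p1_2, G3p3_1, G3p3_2, G3p4_1, G3p4_2, G3p5_1, G3p5_2, G3p5_4,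
  G3p6_1, G3p6_2, G3p6_4, G3p6_5, G3p7_8, G3p7_9, G3p8_9]⟩)) (.node 519 (.leaf ⟨613963844,
  232727655255733330640928,
  904646402774166571021666979771934020249159713821694341345098836299073061775, 149893, [G3p0_7,
  G3p0_8, G3p0_9, G3p2_1, G3p3_1, G3p3_2, G3p4_5, G3p4_6, G3p5_6, G3p7_8, G3p7_9, G3p8_9]⟩) (.leaf
  ⟨610818194, 388718159936383505077379,
  904646402774166872317952651428335328195275407694083928892016187198567089136, 149125, [G3p0_4,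
  G3p0_5, G3p0_6, G3p0_7, G3p0_8, G3p0_9, G3p1_4, G3p1_5, G3p1_6, G3p1_7, G3p1_8, G3p1_9, G3p2_1,
  G3p2_4, G3p2_5, G3p2_6, G3p2_7, G3p2_8, G3p2_9, G3p3_1, G3p3_2, G3p3_4, G3p3_5, G3p3_6, G3p3_7,
  G3p3_8, G3p3_9, G3p5_4, G3p6_4, G3p6_5, G3p7_8, G3p7_9, G3p8_9]⟩)))) (.node 524 (.node 522 (.node
  521 (.leaf ⟨610408518, 193727744578085110025349,
  904646402774166884872347687044739672207441128388981622091798277529494749186, 149025, [G3p0_1,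
  G3p0_7, G3p0_8, G3p0_9, G3p2_1, G3p2_3, G3p3_1, G3p4_1, G3p5_1, G3p5_4, G3p6_1, G3p6_4, G3p6_5,
  G3p7_8, G3p7_9, G3p8_9]⟩) (.leaf ⟨613554246, 193731238245427323207747,
  904646402774166571021666979771844819990624526855092231207533777442742337538, 149793, [G3p0_1,
  G3p0_7, G3p0_8, G3p0_9, G3p2_1, G3p2_3, G3p3_1, G3p4_5, G3p4_6, G3p5_6, G3p7_8, G3p7_9, G3p8_9]⟩))
  (.node 523 (.leaf ⟨608278680, 466706228054684307883078,
  904646402774166771882793861430250589694568939237166030740488537949072196481, 148505, [G3p0_7,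
  G3p0_8, G3p0_9, G3p1_0, G3p1_7, G3p1_8, G3p1_9, G3p2_0, G3p2_1, G3p2_7, G3p2_8, G3p2_9, G3p3_0,
  G3p3_1, G3p3_2, G3p3_7, G3p3_8, G3p3_9, G3p4_0, G3p4_1, G3p4_2, G3p4_3, G3p4_5, G3p4_6, G3p4_7,
  G3p4_8, G3p4_9, G3p6_5, G3p7_8, G3p7_9, G3p8_9]⟩) (.leaf ⟨608327832, 349716977245833274655811,
  904646402774166771882793861410112713584111677264385008822262356552335688591, 148517, [G3p0_7,
  G3p0_8, G3p0_9, G3p1_2, G3p1_3, G3p2_3, G3p4_0, G3p4_1, G3p4_2, G3p4_3, G3p4_5, G3p4_6, G3p4_7,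
  G3p4_8, G3p4_9, G3p6_5, G3p7_8, G3p7_9, G3p8_9]⟩))) (.node 526 (.node 525 (.leaf ⟨304240920,
  273897403752392264026212,
  1356945447864744594532828301082409206750446536837994142042364737094161466127, 74277, [G3p0_8,
  G3p0_9, G3p1_2, G3p1_3, G3p2_3, G3p4_5, G3p6_0, G3p6_1, G3p6_2, G3p6_3, G3p6_4, G3p6_5, G3p6_8,
  G3p6_9, G3p7_8, G3p7_9, G3p9_8]⟩) (.leaf ⟨304191768, 390775974096801036798055,
  1356945447864744594532828301099692543918684299170642810773290273421661242113, 74265, [G3p0_8,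
  G3p0_9, G3p1_0, G3p1_8, G3p1_9, G3p2_0, G3p2_1, G3p2_8, G3p2_9, G3p3_0, G3p3_1, G3p3_2, G3p3_8,
  G3p3_9, G3p4_5, G3p6_0, G3p6_1, G3p6_2, G3p6_3, G3p6_4, G3p6_5, G3p6_8, G3p6_9, G3p7_8, G3p7_9,
  G3p9_8]⟩)) (.node 527 (.leaf ⟨294934818, 195981812059564158288994,
  1356945447864739579128542954785854260593692650296055245668460203790767226888, 72005, [G3p0_3,
  G3p0_8, G3p0_9, G3p1_3, G3p2_1, G3p2_3, G3p4_3, G3p4_5, G3p4_6, G3p4_8, G3p4_9, G3p6_5, G3p7_8,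
  G3p7_9, G3p9_8]⟩) (.leaf ⟨608327780, 232724382298685920384128,
  904646402774166872316420202633978989429729516162395230538450751075231204287, 148517, [G3p0_4,
  G3p0_5, G3p0_7, G3p0_8, G3p0_9, G3p1_2, G3p1_3, G3p1_4, G3p1_5, G3p2_3, G3p2_4, G3p2_5, G3p3_4,
  G3p3_5, G3p4_5, G3p6_4, G3p6_5, G3p7_8, G3p7_9, G3p8_9]⟩))))) (.node 536 (.node 532 (.node 530
  (.node 529 (.leaf ⟨608245862, 193727928068880520548386,
  904646402774166872316420202634112774844817384179981515637496942832075014150, 148497, [G3p0_1,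
  G3p0_2, G3p0_4, G3p0_5, G3p0_7, G3p0_8, G3p0_9, G3p1_2, G3p3_1, G3p3_2, G3p3_4, G3p3_5, G3p4_5,
  G3p6_4, G3p6_5, G3p7_8, G3p7_9, G3p8_9]⟩) (.leaf ⟨608311398, 193727928099701205864515,
  904646402774166872316420202634023591600379773597499464272562108069114413058, 148513, [G3p0_1,
  G3p0_4, G3p0_5, G3p0_7, G3p0_8, G3p0_9, G3p2_1, G3p2_3, G3p2_4, G3p2_5, G3p3_1, G3p3_4, G3p3_5,
  G3p4_5, G3p6_4, G3p6_5, G3p7_8, G3p7_9, G3p8_9]⟩)) (.node 531 (.leaf ⟨612522084,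
  232725283018611394483328,
  904646402774166671456827101195757961651811448689533839290297144757495792543, 149541, [G3p0_4,
  G3p0_7, G3p0_8, G3p0_9, G3p1_2, G3p1_3, G3p1_4, G3p2_3, G3p2_4, G3p3_4, G3p5_4, G3p5_6, G3p6_4,
  G3p7_8, G3p7_9, G3p8_9]⟩) (.leaf ⟨612505702, 193728864848423698927683,
  904646402774166671456827101195802563822627859624111187508521477633914044418, 149537, [G3p0_1,
  G3p0_4, G3p0_7, G3p0_8, G3p0_9, G3p2_1, G3p2_3, G3p2_4, G3p3_1, G3p3_4, G3p5_4, G3p5_6, G3p6_4,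
  G3p7_8, G3p7_9, G3p8_9]⟩))) (.node 534 (.node 533 (.leaf ⟨622090376, 349714531609816193895491,
  904646402774172295825801757970260810434383582827270327074469940467321734019, 151877, [G3p0_7,
  G3p0_8, G3p0_9, G3p2_0, G3p2_1, G3p2_3, G3p2_4, G3p2_7, G3p2_8, G3p2_9, G3p3_0, G3p3_1, G3p3_4,
  G3p3_7, G3p3_8, G3p3_9, G3p5_4, G3p5_6, G3p5_7, G3p5_8, G3p5_9, G3p6_4, G3p6_7, G3p6_8, G3p6_9,
  G3p7_8, G3p7_9, G3p8_9]⟩) (.leaf ⟨622352516, 232725280841784529849472,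
  904646402774172383706566986961777466100974790763375855365265695138001060751, 151941, [G3p0_7,
  G3p0_8, G3p0_9, G3p2_1, G3p3_1, G3p3_2, G3p5_1, G3p5_2, G3p5_3, G3p5_4, G3p5_6, G3p5_7, G3p5_8,
  G3p5_9, G3p6_1, G3p6_2, G3p6_3, G3p6_4, G3p6_7, G3p6_8, G3p6_9, G3p7_8, G3p7_9, G3p8_9]⟩)) (.node
  535 (.leaf ⟨638867554, 193732505164194418629890,
  904646402774166922535532793961614186039124043469923938127157694075010285576, 155973, [G3p0_3,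
  G3p0_4, G3p0_5, G3p0_6, G3p0_7, G3p0_8, G3p0_9, G3p1_3, G3p2_1, G3p2_3, G3p4_3, G3p5_3, G3p5_4,
  G3p6_3, G3p6_4, G3p6_5, G3p7_8, G3p7_9, G3p8_9]⟩) (.leaf ⟨622401670, 232725280948401690709125,
  904646402774172383706566986961643663671540117221654114967120541825140391950, 151953, [G3p0_1,
  G3p0_2, G3p0_3, G3p0_7, G3p0_8, G3p0_9, G3p1_2, G3p1_3, G3p2_3, G3p5_1, G3p5_2, G3p5_3, G3p5_4,
  G3p5_6, G3p5_7, G3p5_8, G3p5_9, G3p6_1, G3p6_2, G3p6_3, G3p6_4, G3p6_7, G3p6_8, G3p6_9, G3p7_8,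
  G3p7_9, G3p8_9]⟩)))) (.node 540 (.node 538 (.node 537 (.leaf ⟨639178822, 193732505027923696255010,
  904646402774166872317952651405722031595862174486455308901458423321144983566, 156049, [G3p0_1,
  G3p0_2, G3p0_3, G3p0_4, G3p0_5, G3p0_6, G3p0_7, G3p0_8, G3p0_9, G3p1_2, G3p1_3, G3p2_3, G3p5_4,
  G3p6_4, G3p6_5, G3p7_8, G3p7_9, G3p8_9]⟩) (.leaf ⟨621910148, 349714531575662613957763,
  904646402774172295825801757969993193329881899529154515716999436974063354753, 151833, [G3p0_7,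
  G3p0_8, G3p0_9, G3p1_0, G3p1_7, G3p1_8, G3p1_9, G3p2_0, G3p2_1, G3p2_7, G3p2_8, G3p2_9, G3p3_0,
  G3p3_1, G3p3_2, G3p3_7, G3p3_8, G3p3_9, G3p5_4, G3p5_6, G3p5_7, G3p5_8, G3p5_9, G3p6_4, G3p6_7,
  G3p6_8, G3p6_9, G3p7_8, G3p7_9, G3p8_9]⟩)) (.node 539 (.leaf ⟨621959300, 232725280766811580730496,
  904646402774172295825801757949855317219424637556373493798773255577326846863, 151845, [G3p0_7,
  G3p0_8, G3p0_9, G3p1_2, G3p1_3, G3p2_3, G3p5_4, G3p5_6, G3p5_7, G3p5_8, G3p5_9, G3p6_4, G3p6_7,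
  G3p6_8, G3p6_9, G3p7_8, G3p7_9, G3p8_9]⟩) (.leaf ⟨621877382, 232725280666926713998469,
  904646402774172333488986856097898410304936267409395559423961450713503367174, 151825, [G3p0_1,
  G3p0_2, G3p0_7, G3p0_8, G3p0_9, G3p1_2, G3p3_1, G3p3_2, G3p5_1, G3p5_2, G3p5_4, G3p5_6, G3p5_7,
  G3p5_8, G3p5_9, G3p6_1, G3p6_2, G3p6_4, G3p6_7, G3p6_8, G3p6_9, G3p7_8, G3p7_9, G3p8_9]⟩))) (.node
  542 (.node 541 (.leaf ⟨639129668, 232730111969330061246496,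
  904646402774166872317952651405855834025296848028177049299603576634005652479, 156037, [G3p0_4,
  G3p0_5, G3p0_6, G3p0_7, G3p0_8, G3p0_9, G3p2_1, G3p3_1, G3p3_2, G3p5_4, G3p6_4, G3p6_5, G3p7_8,
  G3p7_9, G3p8_9]⟩) (.leaf ⟨638654534, 193732504852001835810850,
  904646402774166872317952651405855833344752883849103236768954509282689548294, 155921, [G3p0_1,
  G3p0_2, G3p0_4, G3p0_5, G3p0_6, G3p0_7, G3p0_8, G3p0_9, G3p1_2, G3p3_1, G3p3_2, G3p5_4, G3p6_4,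
  G3p6_5, G3p7_8, G3p7_9, G3p8_9]⟩)) (.node 543 (.leaf ⟨621942918, 232725280694414504692869,
  904646402774172308380196790665869683169197765034414020111717870671897952258, 151841, [G3p0_1,
  G3p0_7, G3p0_8, G3p0_9, G3p2_1, G3p2_3, G3p3_1, G3p5_1, G3p5_4, G3p5_6, G3p5_7, G3p5_8, G3p5_9,
  G3p6_1, G3p6_4, G3p6_7, G3p6_8, G3p6_9, G3p7_8, G3p7_9, G3p8_9]⟩) (.leaf ⟨623138952,
  349715716056518192369731,
  904646402774172195390642946051770115091394961827531427899558992244933591939, 152133, [G3p0_7,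
  G3p0_8, G3p0_9, G3p2_0, G3p2_1, G3p2_3, G3p2_7, G3p2_8, G3p2_9, G3p3_0, G3p3_1, G3p3_7, G3p3_8,
  G3p3_9, G3p4_5, G3p4_6, G3p4_7, G3p4_8, G3p4_9, G3p5_6, G3p5_7, G3p5_8, G3p5_9, G3p6_7, G3p6_8,
  G3p6_9, G3p7_8, G3p7_9, G3p8_9]⟩)))))) (.node 560 (.node 552 (.node 548 (.node 546 (.node 545
  (.leaf ⟨629430418, 349713412570754400292962,
  904646402774172496686928617665643558598464527029086242598415011035128267656, 153669, [G3p0_3,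
  G3p0_7, G3p0_8, G3p0_9, G3p1_3, G3p1_7, G3p1_8, G3p1_9, G3p2_1, G3p2_3, G3p2_7, G3p2_8, G3p2_9,
  G3p4_7, G3p4_8, G3p4_9, G3p5_4, G3p5_7, G3p5_8, G3p5_9, G3p6_4, G3p6_5, G3p6_7, G3p6_8, G3p6_9,
  G3p7_8, G3p7_9, G3p8_9]⟩) (.leaf ⟨623138962, 466710917458437443162210,
  904646402774172195390642946031721782934534042963111148189337040002425029624, 152133, [G3p0_3,
  G3p0_4, G3p0_5, G3p0_6, G3p0_7, G3p0_8, G3p0_9, G3p1_3, G3p1_4, G3p1_5, G3p1_6, G3p1_7, G3p1_8,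
  G3p1_9, G3p2_1, G3p2_3, G3p2_4, G3p2_5, G3p2_6, G3p2_7, G3p2_8, G3p2_9, G3p4_5, G3p4_6, G3p4_7,
  G3p4_8, G3p4_9, G3p5_6, G3p5_7, G3p5_8, G3p5_9, G3p6_7, G3p6_8, G3p6_9, G3p7_8, G3p7_9, G3p8_9]⟩))
  (.node 547 (.leaf ⟨629741714, 427706246517731281311905,
  904646402774172496686928617685625025615804001184828433640058875627530355598, 153745, [G3p0_1,
  G3p0_2, G3p0_3, G3p0_7, G3p0_8, G3p0_9, G3p1_2, G3p1_3, G3p1_7, G3p1_8, G3p1_9, G3p2_3, G3p2_7,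
  G3p2_8, G3p2_9, G3p3_7, G3p3_8, G3p3_9, G3p4_7, G3p4_8, G3p4_9, G3p5_4, G3p5_7, G3p5_8, G3p5_9,
  G3p6_4, G3p6_5, G3p6_7, G3p6_8, G3p6_9, G3p7_8, G3p7_9, G3p8_9]⟩) (.leaf ⟨623450258,
  544706131557817389488289,
  904646402774172195390642946054200933414108946910705339677517521083496924158, 152209, [G3p0_1,
  G3p0_2, G3p0_3, G3p0_4, G3p0_5, G3p0_6, G3p0_7, G3p0_8, G3p0_9, G3p1_2, G3p1_3, G3p1_4, G3p1_5,
  G3p1_6, G3p1_7, G3p1_8, G3p1_9, G3p2_3, G3p2_4, G3p2_5, G3p2_6, G3p2_7, G3p2_8, G3p2_9, G3p3_4,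
  G3p3_5, G3p3_6, G3p3_7, G3p3_8, G3p3_9, G3p4_5, G3p4_6, G3p4_7, G3p4_8, G3p4_9, G3p5_6, G3p5_7,
  G3p5_8, G3p5_9, G3p6_7, G3p6_8, G3p6_9, G3p7_8, G3p7_9, G3p8_9]⟩))) (.node 550 (.node 549 (.leaf
  ⟨622958724, 349715716022364612432035,
  904646402774172195390642946051859315354587639234695603448444581444063331201, 152089, [G3p0_7,
  G3p0_8, G3p0_9, G3p1_0, G3p1_7, G3p1_8, G3p1_9, G3p2_0, G3p2_1, G3p2_7, G3p2_8, G3p2_9, G3p3_0,
  G3p3_1, G3p3_2, G3p3_7, G3p3_8, G3p3_9, G3p4_5, G3p4_6, G3p4_7, G3p4_8, G3p4_9, G3p5_6, G3p5_7,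
  G3p5_8, G3p5_9, G3p6_7, G3p6_8, G3p6_9, G3p7_8, G3p7_9, G3p8_9]⟩) (.leaf ⟨629250200,
  544695497471861932035208,
  904646402774172590844891384978078917435820836075710855186699345020972893057, 153625, [G3p0_7,
  G3p0_8, G3p0_9, G3p1_0, G3p1_7, G3p1_8, G3p1_9, G3p2_0, G3p2_1, G3p2_7, G3p2_8, G3p2_9, G3p3_0,
  G3p3_1, G3p3_2, G3p3_7, G3p3_8, G3p3_9, G3p4_0, G3p4_1, G3p4_2, G3p4_3, G3p4_7, G3p4_8, G3p4_9,
  G3p5_0, G3p5_1, G3p5_2, G3p5_3, G3p5_4, G3p5_7, G3p5_8, G3p5_9, G3p6_0, G3p6_1, G3p6_2, G3p6_3,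
  G3p6_4, G3p6_5, G3p6_7, G3p6_8, G3p6_9, G3p7_8, G3p7_9, G3p8_9]⟩)) (.node 551 (.leaf ⟨623007876,
  271722882185335572369568,
  904646402774172195390642946031721439244130377261914581530218400047326823311, 152101, [G3p0_7,
  G3p0_8, G3p0_9, G3p1_2, G3p1_3, G3p2_3, G3p4_5, G3p4_6, G3p4_7, G3p4_8, G3p4_9, G3p5_6, G3p5_7,
  G3p5_8, G3p5_9, G3p6_7, G3p6_8, G3p6_9, G3p7_8, G3p7_9, G3p8_9]⟩) (.leaf ⟨629299352,
  427706246663010898807941,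
  904646402774172590844891384957941041325363574102929833268473163624236385167, 153637, [G3p0_7,
  G3p0_8, G3p0_9, G3p1_2, G3p1_3, G3p2_3, G3p4_0, G3p4_1, G3p4_2, G3p4_3, G3p4_7, G3p4_8, G3p4_9,
  G3p5_0, G3p5_1, G3p5_2, G3p5_3, G3p5_4, G3p5_7, G3p5_8, G3p5_9, G3p6_0, G3p6_1, G3p6_2, G3p6_3,
  G3p6_4, G3p6_5, G3p6_7, G3p6_8, G3p6_9, G3p7_8, G3p7_9, G3p8_9]⟩)))) (.node 556 (.node 554 (.node
  553 (.leaf ⟨629692562, 388709829402972776502403,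
  904646402774172496686928617685758828045238674726550174038204028940391023488, 153733, [G3p0_7,
  G3p0_8, G3p0_9, G3p1_7, G3p1_8, G3p1_9, G3p2_1, G3p2_7, G3p2_8, G3p2_9, G3p3_1, G3p3_2, G3p3_7,
  G3p3_8, G3p3_9, G3p4_7, G3p4_8, G3p4_9, G3p5_4, G3p5_7, G3p5_8, G3p5_9, G3p6_4, G3p6_5, G3p6_7,
  G3p6_8, G3p6_9, G3p7_8, G3p7_9, G3p8_9]⟩) (.leaf ⟨623401106, 505708524366857352025219,
  904646402774172195390642946054334735843543620452427080075662674396357592048, 152197, [G3p0_4,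
  G3p0_5, G3p0_6, G3p0_7, G3p0_8, G3p0_9, G3p1_4, G3p1_5, G3p1_6, G3p1_7, G3p1_8, G3p1_9, G3p2_1,
  G3p2_4, G3p2_5, G3p2_6, G3p2_7, G3p2_8, G3p2_9, G3p3_1, G3p3_2, G3p3_4, G3p3_5, G3p3_6, G3p3_7,
  G3p3_8, G3p3_9, G3p4_5, G3p4_6, G3p4_7, G3p4_8, G3p4_9, G3p5_6, G3p5_7, G3p5_8, G3p5_9, G3p6_7,
  G3p6_8, G3p6_9, G3p7_8, G3p7_9, G3p8_9]⟩)) (.node 555 (.leaf ⟨629561490, 310716995568111721778241,
  904646402774172496686928617665732453283454988655751277021682743658645554060, 153701, [G3p0_2,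
  G3p0_3, G3p0_7, G3p0_8, G3p0_9, G3p1_2, G3p1_3, G3p1_7, G3p1_8, G3p1_9, G3p3_2, G3p4_7, G3p4_8,
  G3p4_9, G3p5_4, G3p5_7, G3p5_8, G3p5_9, G3p6_4, G3p6_5, G3p6_7, G3p6_8, G3p6_9, G3p7_8, G3p7_9,
  G3p8_9]⟩) (.leaf ⟨629545106, 310716995568283520470081,
  904646402774172496686928617665777055449702178354817976926800239765350122382, 153697, [G3p0_1,
  G3p0_2, G3p0_3, G3p0_7, G3p0_8, G3p0_9, G3p2_1, G3p3_1, G3p3_2, G3p4_7, G3p4_8, G3p4_9, G3p5_4,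
  G3p5_7, G3p5_8, G3p5_9, G3p6_4, G3p6_5, G3p6_7, G3p6_8, G3p6_9, G3p7_8, G3p7_9, G3p8_9]⟩))) (.node
  558 (.node 557 (.leaf ⟨622991494, 271722882112972856070310,
  904646402774172207945037981670739079855709341147324773275729054453763014658, 152097, [G3p0_1,
  G3p0_7, G3p0_8, G3p0_9, G3p2_1, G3p2_3, G3p3_1, G3p4_1, G3p4_5, G3p4_6, G3p4_7, G3p4_8, G3p4_9,
  G3p5_1, G3p5_6, G3p5_7, G3p5_8, G3p5_9, G3p6_1, G3p6_7, G3p6_8, G3p6_9, G3p7_8, G3p7_9, G3p8_9]⟩)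
  (.leaf ⟨642013282, 193735998726052235022498,
  904646402774166571021666979771800218500269013332745688387205382097636687880, 156741, [G3p0_3,
  G3p0_4, G3p0_5, G3p0_6, G3p0_7, G3p0_8, G3p0_9, G3p1_3, G3p2_1, G3p2_3, G3p4_5, G3p4_6, G3p5_6,
  G3p7_8, G3p7_9, G3p8_9]⟩)) (.node 559 (.leaf ⟨642324578, 193735998659016385466529,
  904646402774166571021666979771800217819725049153662204302423193323432837134, 156817, [G3p0_1,
  G3p0_2, G3p0_3, G3p0_4, G3p0_5, G3p0_6, G3p0_7, G3p0_8, G3p0_9, G3p1_2, G3p1_3, G3p2_3, G3p4_5,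
  G3p4_6, G3p5_6, G3p7_8, G3p7_9, G3p8_9]⟩) (.leaf ⟨638687300, 349722933040767473778819,
  904646402774166872317952651428357629280761497535157864658871942783717868529, 155929, [G3p0_4,
  G3p0_5, G3p0_6, G3p0_7, G3p0_8, G3p0_9, G3p1_0, G3p1_4, G3p1_5, G3p1_6, G3p1_7, G3p1_8, G3p1_9,
  G3p2_0, G3p2_1, G3p2_4, G3p2_5, G3p2_6, G3p2_7, G3p2_8, G3p2_9, G3p3_0, G3p3_1, G3p3_2, G3p3_4,
  G3p3_5, G3p3_6, G3p3_7, G3p3_8, G3p3_9, G3p5_4, G3p6_4, G3p6_5, G3p7_8, G3p7_9, G3p8_9]⟩)))))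
  (.node 568 (.node 564 (.node 562 (.node 561 (.leaf ⟨638736452, 232730112003311842492544,
  904646402774166872317952651405722031595862173377261033701757696951399220223, 155941, [G3p0_4,
  G3p0_5, G3p0_6, G3p0_7, G3p0_8, G3p0_9, G3p1_2, G3p1_3, G3p2_3, G3p5_4, G3p6_4, G3p6_5, G3p7_8,
  G3p7_9, G3p8_9]⟩) (.leaf ⟨641833060, 349726426708178406449283,
  904646402774166571021666979794435815504624372202364760059836712846143521777, 156697, [G3p0_4,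
  G3p0_5, G3p0_6, G3p0_7, G3p0_8, G3p0_9, G3p1_0, G3p1_4, G3p1_5, G3p1_6, G3p1_7, G3p1_8, G3p1_9,
  G3p2_0, G3p2_1, G3p2_4, G3p2_5, G3p2_6, G3p2_7, G3p2_8, G3p2_9, G3p3_0, G3p3_1, G3p3_2, G3p3_4,
  G3p3_5, G3p3_6, G3p3_7, G3p3_8, G3p3_9, G3p4_5, G3p4_6, G3p5_6, G3p7_8, G3p7_9, G3p8_9]⟩)) (.node
  563 (.leaf ⟨641882212, 232733605670722775159936,
  904646402774166571021666979774297939394167110229583738141610531449407013887, 156709, [G3p0_4,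
  G3p0_5, G3p0_6, G3p0_7, G3p0_8, G3p0_9, G3p1_2, G3p1_3, G3p1_4, G3p1_5, G3p1_6, G3p2_3, G3p2_4,
  G3p2_5, G3p2_6, G3p3_4, G3p3_5, G3p3_6, G3p4_5, G3p4_6, G3p5_6, G3p7_8, G3p7_9, G3p8_9]⟩) (.leaf
  ⟨641800294, 193735998519412768477218,
  904646402774166571021666979774431703030851188308162132616455895808015204358, 156689, [G3p0_1,
  G3p0_2, G3p0_4, G3p0_5, G3p0_6, G3p0_7, G3p0_8, G3p0_9, G3p1_2, G3p3_1, G3p3_2, G3p3_4, G3p3_5,
  G3p3_6, G3p4_5, G3p4_6, G3p5_6, G3p7_8, G3p7_9, G3p8_9]⟩))) (.node 566 (.node 565 (.leaf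
  ⟨642275426, 193735998516079873855651,
  904646402774166571021666979771934020249159722695383944700568346636293505024, 156805, [G3p0_4,
  G3p0_5, G3p0_6, G3p0_7, G3p0_8, G3p0_9, G3p2_1, G3p3_1, G3p3_2, G3p4_5, G3p4_6, G3p5_6, G3p7_8,
  G3p7_9, G3p8_9]⟩) (.leaf ⟨642144354, 193735998733714456678561,
  904646402774166571021666979771889418078260236120278821771187934314095181836, 156773, [G3p0_2,
  G3p0_3, G3p0_4, G3p0_5, G3p0_6, G3p0_7, G3p0_8, G3p0_9, G3p1_2, G3p1_3, G3p3_2, G3p4_5, G3p4_6,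
  G3p5_6, G3p7_8, G3p7_9, G3p8_9]⟩)) (.node 567 (.leaf ⟨1226199330, 271725153163896154064994,
  904646402774166571110169877532328801519411043504000629157504870669089505292, 299365, [G3p0_2,
  G3p0_3, G3p1_2, G3p1_3, G3p3_2, G3p4_2, G3p4_3, G3p4_6, G3p4_7, G3p4_8, G3p4_9, G3p5_2, G3p5_3,
  G3p5_4, G3p5_6, G3p5_7, G3p5_8, G3p5_9, G3p7_8, G3p7_9, G3p8_9]⟩) (.leaf ⟨642127970,
  193735998733989334585505,
  904646402774166571021666979771934020249159723804595145120002035496092827662, 156769, [G3p0_1,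
  G3p0_2, G3p0_3, G3p0_4, G3p0_5, G3p0_6, G3p0_7, G3p0_8, G3p0_9, G3p2_1, G3p3_1, G3p3_2, G3p4_5,
  G3p4_6, G3p5_6, G3p7_8, G3p7_9, G3p8_9]⟩)))) (.node 572 (.node 570 (.node 569 (.leaf ⟨1226182946,
  271725153164102312495202,
  904646402774166571110361442397984914459411160974080406549943302455852662798, 299361, [G3p0_1,
  G3p0_2, G3p0_3, G3p2_1, G3p3_1, G3p3_2, G3p4_1, G3p4_2, G3p4_3, G3p4_6, G3p4_7, G3p4_8, G3p4_9,
  G3p5_1, G3p5_2, G3p5_3, G3p5_4, G3p5_6, G3p5_7, G3p5_8, G3p5_9, G3p7_8, G3p7_9, G3p8_9]⟩) (.leaf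
  ⟨638720070, 193732504882822521126979,
  904646402774166872317952651405766633766761661061574939162038517777674928130, 155937, [G3p0_1,
  G3p0_4, G3p0_5, G3p0_6, G3p0_7, G3p0_8, G3p0_9, G3p2_1, G3p2_3, G3p3_1, G3p5_4, G3p6_4, G3p6_5,
  G3p7_8, G3p7_9, G3p8_9]⟩)) (.node 571 (.leaf ⟨641865830, 193735998550233453793347,
  904646402774166571021666979774342541564485060665741742907495936678220136450, 156705, [G3p0_1,
  G3p0_4, G3p0_5, G3p0_6, G3p0_7, G3p0_8, G3p0_9, G3p2_1, G3p2_3, G3p2_4, G3p2_5, G3p2_6, G3p3_1,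
  G3p3_4, G3p3_5, G3p3_6, G3p4_5, G3p4_6, G3p5_6, G3p7_8, G3p7_9, G3p8_9]⟩) (.leaf ⟨608458904,
  349716977064413856072771,
  904646402774166771882793843892141741460541243385783862596206712827152630659, 148549, [G3p0_7,
  G3p0_8, G3p0_9, G3p2_0, G3p2_1, G3p2_3, G3p2_7, G3p2_8, G3p2_9, G3p3_0, G3p3_1, G3p3_7, G3p3_8,
  G3p3_9, G3p4_0, G3p4_1, G3p4_5, G3p4_6, G3p4_7, G3p4_8, G3p4_9, G3p6_5, G3p7_8, G3p7_9,
  G3p8_9]⟩))) (.node 574 (.node 573 (.leaf ⟨608458898, 349720544020764341473378,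
  904646402774166771882793839487588491866370621157906511852856088928371344360, 148549, [G3p0_3,
  G3p0_5, G3p0_6, G3p0_7, G3p0_8, G3p0_9, G3p1_3, G3p1_5, G3p1_6, G3p1_7, G3p1_8, G3p1_9, G3p2_1,
  G3p2_3, G3p2_5, G3p2_6, G3p2_7, G3p2_8, G3p2_9, G3p4_5, G3p4_6, G3p4_7, G3p4_8, G3p4_9, G3p6_5,
  G3p7_8, G3p7_9, G3p8_9]⟩) (.leaf ⟨608458850, 193727928275519987093666,
  904646402774166922533234085726354648693256554746954686196539479970359541768, 148549, [G3p0_3,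
  G3p0_4, G3p0_5, G3p0_7, G3p0_8, G3p0_9, G3p1_3, G3p2_1, G3p2_3, G3p4_5, G3p6_3, G3p6_4, G3p6_5,
  G3p7_8, G3p7_9, G3p8_9]⟩)) (.node 575 (.leaf ⟨608770146, 193727928208484137537697,
  904646402774166872316420202632908537326397204906539873292913735483879587854, 148625, [G3p0_1,
  G3p0_2, G3p0_3, G3p0_4, G3p0_5, G3p0_7, G3p0_8, G3p0_9, G3p1_2, G3p1_3, G3p2_3, G3p4_5, G3p6_4,
  G3p6_5, G3p7_8, G3p7_9, G3p8_9]⟩) (.leaf ⟨608770194, 427715755868344474114209,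
  904646402774166771882793839509710830422769035135236131848674196225347552238, 148625, [G3p0_1,
  G3p0_2, G3p0_3, G3p0_5, G3p0_6, G3p0_7, G3p0_8, G3p0_9, G3p1_2, G3p1_3, G3p1_5, G3p1_6, G3p1_7,
  G3p1_8, G3p1_9, G3p2_3, G3p2_5, G3p2_6, G3p2_7, G3p2_8, G3p2_9, G3p3_5, G3p3_6, G3p3_7, G3p3_8,
  G3p3_9, G3p4_5, G3p4_6, G3p4_7, G3p4_8, G3p4_9, G3p6_5, G3p7_8, G3p7_9, G3p8_9]⟩))))))

def G3T10 : Tr :=
  .node 608 (.node 592 (.node 584 (.node 580 (.node 578 (.node 577 (.leaf ⟨608720994,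
  193727928065547625926819,
  904646402774166872316420202633042339755831878448261613691058888796740255744, 148613, [G3p0_4,
  G3p0_5, G3p0_7, G3p0_8, G3p0_9, G3p2_1, G3p3_1, G3p3_2, G3p4_5, G3p6_4, G3p6_5, G3p7_8, G3p7_9,
  G3p8_9]⟩) (.leaf ⟨608721042, 388718149803284343493763,
  904646402774166771882793839509844632852203708676957872246819349538208220128, 148613, [G3p0_5,
  G3p0_6, G3p0_7, G3p0_8, G3p0_9, G3p1_5, G3p1_6, G3p1_7, G3p1_8, G3p1_9, G3p2_1, G3p2_5, G3p2_6,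
  G3p2_7, G3p2_8, G3p2_9, G3p3_1, G3p3_2, G3p3_5, G3p3_6, G3p3_7, G3p3_8, G3p3_9, G3p4_5, G3p4_6,
  G3p4_7, G3p4_8, G3p4_9, G3p6_5, G3p7_8, G3p7_9, G3p8_9]⟩)) (.node 579 (.leaf ⟨608278628,
  349713744571627731132547,
  904646402774166872316420202654116865540186778135176252456676932471967712177, 148505, [G3p0_4,
  G3p0_5, G3p0_7, G3p0_8, G3p0_9, G3p1_0, G3p1_4, G3p1_5, G3p1_7, G3p1_8, G3p1_9, G3p2_0, G3p2_1,
  G3p2_4, G3p2_5, G3p2_7, G3p2_8, G3p2_9, G3p3_0, G3p3_1, G3p3_2, G3p3_4, G3p3_5, G3p3_7, G3p3_8,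
  G3p3_9, G3p4_5, G3p6_4, G3p6_5, G3p7_8, G3p7_9, G3p8_9]⟩) (.leaf ⟨608589922,
  193727928283182208749729,
  904646402774166947641641027273166903614405470365153483989943810042956087308, 148581, [G3p0_2,
  G3p0_3, G3p0_4, G3p0_5, G3p0_7, G3p0_8, G3p0_9, G3p1_2, G3p1_3, G3p3_2, G3p4_5, G3p6_2, G3p6_3,
  G3p6_4, G3p6_5, G3p7_8, G3p7_9, G3p8_9]⟩))) (.node 582 (.node 581 (.leaf ⟨1242976546,
  310716995640680529398914,
  904646402774172572013298831499570683922879476888663892432703549144279285772, 303461, [G3p0_2,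
  G3p0_3, G3p1_2, G3p1_3, G3p3_2, G3p4_2, G3p4_3, G3p4_7, G3p4_8, G3p4_9, G3p5_2, G3p5_3, G3p5_4,
  G3p5_7, G3p5_8, G3p5_9, G3p6_2, G3p6_3, G3p6_4, G3p6_5, G3p6_7, G3p6_8, G3p6_9, G3p7_8, G3p7_9,
  G3p8_9]⟩) (.leaf ⟨608573538, 193727928283457086656673,
  904646402774166960195844498046573033456883804464802639543468800153022758926, 148577, [G3p0_1,
  G3p0_2, G3p0_3, G3p0_4, G3p0_5, G3p0_7, G3p0_8, G3p0_9, G3p2_1, G3p3_1, G3p3_2, G3p4_5, G3p6_1,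
  G3p6_2, G3p6_3, G3p6_4, G3p6_5, G3p7_8, G3p7_9, G3p8_9]⟩)) (.node 583 (.leaf ⟨1242960162,
  310716995640921047567490,
  904646402774172584567693867138588324534458440774076502029852869859111469070, 303457, [G3p0_1,
  G3p0_2, G3p0_3, G3p2_1, G3p3_1, G3p3_2, G3p4_1, G3p4_2, G3p4_3, G3p4_7, G3p4_8, G3p4_9, G3p5_1,
  G3p5_2, G3p5_3, G3p5_4, G3p5_7, G3p5_8, G3p5_9, G3p6_1, G3p6_2, G3p6_3, G3p6_4, G3p6_5, G3p6_7,
  G3p6_8, G3p6_9, G3p7_8, G3p7_9, G3p8_9]⟩) (.leaf ⟨613701704, 349720476361324323114051,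
  904646402774166571021666979794346615240850148673355080461086197660790227843, 149829, [G3p0_7,
  G3p0_8, G3p0_9, G3p2_0, G3p2_1, G3p2_3, G3p2_4, G3p2_5, G3p2_6, G3p2_7, G3p2_8, G3p2_9, G3p3_0,
  G3p3_1, G3p3_4, G3p3_5, G3p3_6, G3p3_7, G3p3_8, G3p3_9, G3p4_5, G3p4_6, G3p5_6, G3p7_8, G3p7_9,
  G3p8_9]⟩)))) (.node 588 (.node 586 (.node 585 (.leaf ⟨612653202, 349720292945085115568226,
  904646402774166571109020488338570864002872967146030264088600099513405277128, 149573, [G3p0_3,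
  G3p0_6, G3p0_7, G3p0_8, G3p0_9, G3p1_3, G3p1_6, G3p1_7, G3p1_8, G3p1_9, G3p2_1, G3p2_3, G3p2_6,
  G3p2_7, G3p2_8, G3p2_9, G3p4_6, G3p4_7, G3p4_8, G3p4_9, G3p5_4, G3p5_6, G3p5_7, G3p5_8, G3p5_9,
  G3p7_8, G3p7_9, G3p8_9]⟩) (.leaf ⟨612964498, 427715432735071210281121,
  904646402774166571109020488359979578712918401182830741099693459242190111694, 149649, [G3p0_1,
  G3p0_2, G3p0_3, G3p0_6, G3p0_7, G3p0_8, G3p0_9, G3p1_2, G3p1_3, G3p1_6, G3p1_7, G3p1_8, G3p1_9,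
  G3p2_3, G3p2_6, G3p2_7, G3p2_8, G3p2_9, G3p3_6, G3p3_7, G3p3_8, G3p3_9, G3p4_6, G3p4_7, G3p4_8,
  G3p4_9, G3p5_4, G3p5_6, G3p5_7, G3p5_8, G3p5_9, G3p7_8, G3p7_9, G3p8_9]⟩)) (.node 587 (.leaf
  ⟨612472984, 505703654995042089666663,
  904646402774166571110457224850794743524984133068048343604434333153679573889, 149529, [G3p0_7,
  G3p0_8, G3p0_9, G3p1_0, G3p1_7, G3p1_8, G3p1_9, G3p2_0, G3p2_1, G3p2_7, G3p2_8, G3p2_9, G3p3_0,
  G3p3_1, G3p3_2, G3p3_7, G3p3_8, G3p3_9, G3p4_0, G3p4_1, G3p4_2, G3p4_3, G3p4_6, G3p4_7, G3p4_8,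
  G3p4_9, G3p5_0, G3p5_1, G3p5_2, G3p5_3, G3p5_4, G3p5_6, G3p5_7, G3p5_8, G3p5_9, G3p7_8, G3p7_9,
  G3p8_9]⟩) (.leaf ⟨612522136, 388714404186191056439396,
  904646402774166571110457224830656867414526871095267321686208151756943065999, 149541, [G3p0_7,
  G3p0_8, G3p0_9, G3p1_2, G3p1_3, G3p2_3, G3p4_0, G3p4_1, G3p4_2, G3p4_3, G3p4_6, G3p4_7, G3p4_8,
  G3p4_9, G3p5_0, G3p5_1, G3p5_2, G3p5_3, G3p5_4, G3p5_6, G3p5_7, G3p5_8, G3p5_9, G3p7_8, G3p7_9,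
  G3p8_9]⟩))) (.node 590 (.node 589 (.leaf ⟨612915346, 388717862698808098624643,
  904646402774166571109020488360113381142353074724552481497838612555050779584, 149637, [G3p0_6,
  G3p0_7, G3p0_8, G3p0_9, G3p1_6, G3p1_7, G3p1_8, G3p1_9, G3p2_1, G3p2_6, G3p2_7, G3p2_8, G3p2_9,
  G3p3_1, G3p3_2, G3p3_6, G3p3_7, G3p3_8, G3p3_9, G3p4_6, G3p4_7, G3p4_8, G3p4_9, G3p5_4, G3p5_6,
  G3p5_7, G3p5_8, G3p5_9, G3p7_8, G3p7_9, G3p8_9]⟩) (.leaf ⟨612784274, 310722723020937830206529,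
  904646402774166571109020488338659736909791945832633636855892956503757030348, 149605, [G3p0_2,
  G3p0_3, G3p0_6, G3p0_7, G3p0_8, G3p0_9, G3p1_2, G3p1_3, G3p1_6, G3p1_7, G3p1_8, G3p1_9, G3p3_2,
  G3p4_6, G3p4_7, G3p4_8, G3p4_9, G3p5_4, G3p5_6, G3p5_7, G3p5_8, G3p5_9, G3p7_8, G3p7_9, G3p8_9]⟩))
  (.node 591 (.leaf ⟨612767890, 310722723021109628898369,
  904646402774166571109020488338704339075706828532754107792784500845391512526, 149601, [G3p0_1,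
  G3p0_2, G3p0_3, G3p0_6, G3p0_7, G3p0_8, G3p0_9, G3p2_1, G3p3_1, G3p3_2, G3p4_6, G3p4_7, G3p4_8,
  G3p4_9, G3p5_4, G3p5_6, G3p5_7, G3p5_8, G3p5_9, G3p7_8, G3p7_9, G3p8_9]⟩) (.leaf ⟨612653154,
  193728865024242480156834,
  904646402774166721674407232059280200080072535697701537837020404481027211272, 149573, [G3p0_3,
  G3p0_4, G3p0_7, G3p0_8, G3p0_9, G3p1_3, G3p2_1, G3p2_3, G3p5_3, G3p5_4, G3p5_6, G3p6_3, G3p6_4,
  G3p7_8, G3p7_9, G3p8_9]⟩))))) (.node 600 (.node 596 (.node 594 (.node 593 (.leaf ⟨612964450,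
  193728864957206630600865,
  904646402774166671456827101195401144284034012343711570341585290433455456270, 149649, [G3p0_1,
  G3p0_2, G3p0_3, G3p0_4, G3p0_7, G3p0_8, G3p0_9, G3p1_2, G3p1_3, G3p2_3, G3p5_4, G3p5_6, G3p6_4,
  G3p7_8, G3p7_9, G3p8_9]⟩) (.leaf ⟨612472932, 349714537205162148339843,
  904646402774166671456827101215895837762268710662314861208523326154232300433, 149529, [G3p0_4,
  G3p0_7, G3p0_8, G3p0_9, G3p1_0, G3p1_4, G3p1_7, G3p1_8, G3p1_9, G3p2_0, G3p2_1, G3p2_4, G3p2_7,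
  G3p2_8, G3p2_9, G3p3_0, G3p3_1, G3p3_2, G3p3_4, G3p3_7, G3p3_8, G3p3_9, G3p5_4, G3p5_6, G3p6_4,
  G3p7_8, G3p7_9, G3p8_9]⟩)) (.node 595 (.leaf ⟨612440166, 193728864817603013611554,
  904646402774166671456827101195891757956101211676624069701443750213457412102, 149521, [G3p0_1,
  G3p0_2, G3p0_4, G3p0_7, G3p0_8, G3p0_9, G3p1_2, G3p3_1, G3p3_2, G3p3_4, G3p5_4, G3p5_6, G3p6_4,
  G3p7_8, G3p7_9, G3p8_9]⟩) (.leaf ⟨612915298, 193728864814270118989987,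
  904646402774166671456827101195534946713468685885433310739730443746316124160, 149637, [G3p0_4,
  G3p0_7, G3p0_8, G3p0_9, G3p2_1, G3p3_1, G3p3_2, G3p5_4, G3p5_6, G3p6_4, G3p7_8, G3p7_9,
  G3p8_9]⟩))) (.node 598 (.node 597 (.leaf ⟨554981666, 226715097618580743751778,
  904649853542027674686342824283619623564953476078292486392047326724448845832, 135493, [G3p0_3,
  G3p0_9, G3p1_3, G3p2_1, G3p2_3, G3p4_3, G3p4_6, G3p4_9, G3p5_3, G3p5_4, G3p5_6, G3p5_9, G3p7_9,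
  G3p8_7, G3p8_9]⟩) (.leaf ⟨555292962, 226715097621913638373537,
  904649853542027674685576564821173579808006992756164857539324732564580597774, 135569, [G3p0_1,
  G3p0_2, G3p0_3, G3p0_9, G3p1_2, G3p1_3, G3p2_3, G3p4_6, G3p4_9, G3p5_4, G3p5_6, G3p5_9, G3p7_9,
  G3p8_7, G3p8_9]⟩)) (.node 599 (.leaf ⟨554801444, 340055351832366831309955,
  904649853542027674685576564834175108562915504519420721289598574978647720513, 135449, [G3p0_9,
  G3p1_0, G3p1_6, G3p1_9, G3p2_0, G3p2_1, G3p2_6, G3p2_9, G3p3_0, G3p3_1, G3p3_2, G3p3_6, G3p3_9,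
  G3p4_6, G3p4_9, G3p5_4, G3p5_6, G3p5_9, G3p7_9, G3p8_7, G3p8_9]⟩) (.leaf ⟨554850596,
  340055351938981878240384,
  904649853542027674685576564834019005047994740027566171682476909066568335951, 135461, [G3p0_9,
  G3p1_2, G3p1_3, G3p1_6, G3p1_9, G3p2_3, G3p2_6, G3p2_9, G3p3_6, G3p3_9, G3p4_6, G3p4_9, G3p5_4,
  G3p5_6, G3p5_9, G3p7_9, G3p8_7, G3p8_9]⟩)))) (.node 604 (.node 602 (.node 601 (.leaf ⟨554768678,
  226715097482310021384226,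
  904649853542027674685576564834152610791251341048337359131866274787968286726, 135441, [G3p0_1,
  G3p0_2, G3p0_9, G3p1_2, G3p3_1, G3p3_2, G3p3_6, G3p3_9, G3p4_6, G3p4_9, G3p5_4, G3p5_6, G3p5_9,
  G3p7_9, G3p8_7, G3p8_9]⟩) (.leaf ⟨555243810, 226715097478977126762627,
  904649853542027674685576564821307382237441666297886597937469885877441265664, 135557, [G3p0_9,
  G3p2_1, G3p3_1, G3p3_2, G3p4_6, G3p4_9, G3p5_4, G3p5_6, G3p5_9, G3p7_9, G3p8_7, G3p8_9]⟩)) (.node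
  603 (.leaf ⟨554834214, 264495182297592509893699,
  904649853542027674685576564834063607215903464721364016428724163998623334402, 135457, [G3p0_1,
  G3p0_9, G3p2_1, G3p2_3, G3p2_6, G3p2_9, G3p3_1, G3p3_6, G3p3_9, G3p4_6, G3p4_9, G3p5_4, G3p5_6,
  G3p5_9, G3p7_9, G3p8_7, G3p8_9]⟩) (.leaf ⟨556030232, 226715206725425963205699,
  904649853542027674635003510463298387671380729621187836081164903398433292803, 135749, [G3p0_9,
  G3p2_0, G3p2_1, G3p2_3, G3p2_9, G3p3_0, G3p3_1, G3p3_9, G3p4_5, G3p4_6, G3p5_6, G3p7_9, G3p8_7,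
  G3p8_9]⟩))) (.node 606 (.node 605 (.leaf ⟨562321682, 151153849437546382102626,
  904649853542027975931289182085735143105461892603351867793754712264420098056, 137285, [G3p0_3,
  G3p0_9, G3p1_3, G3p2_1, G3p2_3, G3p5_4, G3p6_4, G3p6_5, G3p7_9, G3p8_7, G3p8_9]⟩) (.leaf
  ⟨556030226, 151160913333561912725602,
  904649853542027674635003510451813367441531408537376773384676741231716860024, 135749, [G3p0_3,
  G3p0_4, G3p0_5, G3p0_6, G3p0_9, G3p1_3, G3p1_4, G3p1_5, G3p1_6, G3p2_1, G3p2_3, G3p2_4, G3p2_5,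
  G3p2_6, G3p4_5, G3p4_6, G3p5_6, G3p7_9, G3p8_7, G3p8_9]⟩)) (.node 607 (.leaf ⟨556292484,
  151154963030861167038624,
  904650230987040368575350106410512010576751967728342186414635445062726451727, 135813, [G3p0_9,
  G3p2_1, G3p3_1, G3p3_2, G3p4_1, G3p4_2, G3p4_3, G3p4_5, G3p4_6, G3p5_1, G3p5_2, G3p5_3, G3p5_6,
  G3p6_1, G3p6_2, G3p6_3, G3p7_1, G3p7_2, G3p7_3, G3p7_9, G3p8_1, G3p8_2, G3p8_3, G3p8_7, G3p8_9]⟩)
  (.leaf ⟨562632978, 151153849440879276726433,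
  904649853542027975931289182085735142424917928424278055263105644947463733262, 137361, [G3p0_1,
  G3p0_2, G3p0_3, G3p0_9, G3p1_2, G3p1_3, G3p2_3, G3p5_4, G3p6_4, G3p6_5, G3p7_9, G3p8_7,
  G3p8_9]⟩)))))) (.node 624 (.node 616 (.node 612 (.node 610 (.node 609 (.leaf ⟨556341522,
  151163293489297872656545,
  904649853542027674635003510454311050223222874150154961300564290403430301822, 135825, [G3p0_1,
  G3p0_2, G3p0_3, G3p0_4, G3p0_5, G3p0_6, G3p0_9, G3p1_2, G3p1_3, G3p1_4, G3p1_5, G3p1_6, G3p2_3,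
  G3p2_4, G3p2_5, G3p2_6, G3p3_4, G3p3_5, G3p3_6, G3p4_5, G3p4_6, G3p5_6, G3p7_9, G3p8_7, G3p8_9]⟩)
  (.leaf ⟨556341638, 151154963137478361452710,
  904650230987040368575350106410378208147317294186620446016490291749865783310, 135825, [G3p0_1,
  G3p0_2, G3p0_3, G3p0_9, G3p1_2, G3p1_3, G3p2_3, G3p4_1, G3p4_2, G3p4_3, G3p4_5, G3p4_6, G3p5_1,
  G3p5_2, G3p5_3, G3p5_6, G3p6_1, G3p6_2, G3p6_3, G3p7_1, G3p7_2, G3p7_3, G3p7_9, G3p8_1, G3p8_2,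
  G3p8_3, G3p8_7, G3p8_9]⟩)) (.node 611 (.leaf ⟨555899160, 226715206906845381788739,
  904649853542027674635003510451813328648780801982290675464373913569436041743, 135717, [G3p0_9,
  G3p1_2, G3p1_3, G3p2_3, G3p4_5, G3p4_6, G3p5_6, G3p7_9, G3p8_7, G3p8_9]⟩) (.leaf ⟨562190616,
  340048508937263986512038,
  904649853542031284014381072955130771543959906303955216221321954085542232591, 137253, [G3p0_9,
  G3p1_2, G3p1_3, G3p2_3, G3p4_0, G3p4_1, G3p4_2, G3p4_3, G3p4_9, G3p5_0, G3p5_1, G3p5_2, G3p5_3,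
  G3p5_4, G3p5_9, G3p6_0, G3p6_1, G3p6_2, G3p6_3, G3p6_4, G3p6_5, G3p6_9, G3p7_9, G3p8_7,
  G3p8_9]⟩))) (.node 614 (.node 613 (.leaf ⟨562190628, 340055649176557284693120,
  904649853542027975931289182099651019768237988060729001851495566030477984383, 137253, [G3p0_9,
  G3p1_2, G3p1_3, G3p1_4, G3p1_5, G3p1_6, G3p1_9, G3p2_3, G3p2_4, G3p2_5, G3p2_6, G3p2_9, G3p3_4,
  G3p3_5, G3p3_6, G3p3_9, G3p5_4, G3p6_4, G3p6_5, G3p7_9, G3p8_7, G3p8_9]⟩) (.leaf ⟨555850008,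
  340052002389101920650310,
  904649853542027674635003510463387587932579565034674637820698159758462353921, 135705, [G3p0_9,
  G3p1_0, G3p1_9, G3p2_0, G3p2_1, G3p2_9, G3p3_0, G3p3_1, G3p3_2, G3p3_9, G3p4_5, G3p4_6, G3p5_6,
  G3p7_9, G3p8_7, G3p8_9]⟩)) (.node 615 (.leaf ⟨562141476, 340055649069942237762691,
  904649853542027975931289182099807123283158752552583551458617231942557368945, 137241, [G3p0_9,
  G3p1_0, G3p1_4, G3p1_5, G3p1_6, G3p1_9, G3p2_0, G3p2_1, G3p2_4, G3p2_5, G3p2_6, G3p2_9, G3p3_0,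
  G3p3_1, G3p3_2, G3p3_4, G3p3_5, G3p3_6, G3p3_9, G3p5_4, G3p6_4, G3p6_5, G3p7_9, G3p8_7, G3p8_9]⟩)
  (.leaf ⟨562141464, 453385304419520525373609,
  904649853542031284014381072966705030827758669356339178577646200274568544769, 137241, [G3p0_9,
  G3p1_0, G3p1_9, G3p2_0, G3p2_1, G3p2_9, G3p3_0, G3p3_1, G3p3_2, G3p3_9, G3p4_0, G3p4_1, G3p4_2,
  G3p4_3, G3p4_9, G3p5_0, G3p5_1, G3p5_2, G3p5_3, G3p5_4, G3p5_9, G3p6_0, G3p6_1, G3p6_2, G3p6_3,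
  G3p6_4, G3p6_5, G3p6_9, G3p7_9, G3p8_7, G3p8_9]⟩)))) (.node 620 (.node 618 (.node 617 (.leaf
  ⟨555817350, 151154962820819012653222,
  904650015304175972038009194434189221611330008637762376539646082245512790022, 135697, [G3p0_1,
  G3p0_2, G3p0_9, G3p1_2, G3p3_1, G3p3_2, G3p4_1, G3p4_2, G3p4_5, G3p4_6, G3p5_1, G3p5_2, G3p5_6,
  G3p6_1, G3p6_2, G3p7_1, G3p7_2, G3p7_9, G3p8_1, G3p8_2, G3p8_7, G3p8_9]⟩) (.leaf ⟨562108710,
  226715283255794650417186,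
  904649853542027975931289182099784609177691746627244271332734311203201220614, 137233, [G3p0_1,
  G3p0_2, G3p0_9, G3p1_2, G3p3_1, G3p3_2, G3p3_4, G3p3_5, G3p3_6, G3p3_9, G3p5_4, G3p6_4, G3p6_5,
  G3p7_9, G3p8_7, G3p8_9]⟩)) (.node 619 (.leaf ⟨562583826, 151153849297942765114499,
  904649853542027975931289182085868944854352601965999795661250798260324401152, 137349, [G3p0_9,
  G3p2_1, G3p3_1, G3p3_2, G3p5_4, G3p6_4, G3p6_5, G3p7_9, G3p8_7, G3p8_9]⟩) (.leaf ⟨556292370,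
  151162103270159828391043,
  904649853542027674635003510454444852652657547691876701698709443716290969712, 135813, [G3p0_4,
  G3p0_5, G3p0_6, G3p0_9, G3p1_4, G3p1_5, G3p1_6, G3p2_1, G3p2_4, G3p2_5, G3p2_6, G3p3_1, G3p3_2,
  G3p3_4, G3p3_5, G3p3_6, G3p4_5, G3p4_6, G3p5_6, G3p7_9, G3p8_7, G3p8_9]⟩))) (.node 622 (.node 621
  (.leaf ⟨562436370, 151153849406897495478337,
  904649853542027975931289182085868944854352603075194070860951524569940623374, 137313, [G3p0_1,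
  G3p0_2, G3p0_3, G3p0_9, G3p2_1, G3p3_1, G3p3_2, G3p5_4, G3p6_4, G3p6_5, G3p7_9, G3p8_7, G3p8_9]⟩)
  (.leaf ⟨555882886, 151154962847207291719846,
  904649907462743773769338738445938627890899788394481080260559943007549390850, 135713, [G3p0_1,
  G3p0_9, G3p2_1, G3p2_3, G3p3_1, G3p4_1, G3p4_5, G3p4_6, G3p5_1, G3p5_6, G3p6_1, G3p7_1, G3p7_9,
  G3p8_1, G3p8_7, G3p8_9]⟩)) (.node 623 (.leaf ⟨562174246, 264495405225774064733251,
  904649853542027975931289182099695621935897482505317174871573357138730418178, 137249, [G3p0_1,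
  G3p0_9, G3p2_1, G3p2_3, G3p2_4, G3p2_5, G3p2_6, G3p2_9, G3p3_1, G3p3_4, G3p3_5, G3p3_6, G3p3_9,
  G3p5_4, G3p6_4, G3p6_5, G3p7_9, G3p8_7, G3p8_9]⟩) (.leaf ⟨574904594, 226712826678468642181218,
  904649853542030888560132634028911170143270674751208052213381238462454693896, 140357, [G3p0_3,
  G3p0_9, G3p1_3, G3p2_1, G3p2_3, G3p4_5, G3p4_6, G3p4_9, G3p5_6, G3p5_9, G3p6_9, G3p7_9, G3p8_7,
  G3p8_9]⟩))))) (.node 632 (.node 628 (.node 626 (.node 625 (.leaf ⟨575215890,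
  226712826681801536805025,
  904649853542030888560132634028911169462726710572134239682732171145498329102, 140433, [G3p0_1,
  G3p0_2, G3p0_3, G3p0_9, G3p1_2, G3p1_3, G3p2_3, G3p4_5, G3p4_6, G3p4_9, G3p5_6, G3p5_9, G3p6_9,
  G3p7_9, G3p8_7, G3p8_9]⟩) (.leaf ⟨574773540, 453393558280436741084288,
  904649853542030888560132634042827046806046770208585186271122092228512580223, 140325, [G3p0_9,
  G3p1_2, G3p1_3, G3p1_4, G3p1_5, G3p1_6, G3p1_9, G3p2_3, G3p2_4, G3p2_5, G3p2_6, G3p2_9, G3p3_4,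
  G3p3_5, G3p3_6, G3p3_9, G3p4_5, G3p4_6, G3p4_9, G3p5_6, G3p5_9, G3p6_9, G3p7_9, G3p8_7, G3p8_9]⟩))
  (.node 627 (.leaf ⟨574724388, 453393558173821694153859,
  904649853542030888560132634042983150320967534700439735878243758140591964785, 140313, [G3p0_9,
  G3p1_0, G3p1_4, G3p1_5, G3p1_6, G3p1_9, G3p2_0, G3p2_1, G3p2_4, G3p2_5, G3p2_6, G3p2_9, G3p3_0,
  G3p3_1, G3p3_2, G3p3_4, G3p3_5, G3p3_6, G3p3_9, G3p4_5, G3p4_6, G3p4_9, G3p5_6, G3p5_9, G3p6_9,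
  G3p7_9, G3p8_7, G3p8_9]⟩) (.leaf ⟨574724376, 453386417934528394924201,
  904649853542030982718095401332783217051621544023546073978579445139595264513, 140313, [G3p0_9,
  G3p1_0, G3p1_9, G3p2_0, G3p2_1, G3p2_9, G3p3_0, G3p3_1, G3p3_2, G3p3_9, G3p4_0, G3p4_1, G3p4_2,
  G3p4_3, G3p4_5, G3p4_6, G3p4_9, G3p5_0, G3p5_1, G3p5_2, G3p5_3, G3p5_6, G3p5_9, G3p6_0, G3p6_1,
  G3p6_2, G3p6_3, G3p6_9, G3p7_9, G3p8_7, G3p8_9]⟩))) (.node 630 (.node 629 (.leaf ⟨574773528,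
  340049622452271856062630,
  904649853542030982718095401321208957767822780971162111622255198950568952335, 140325, [G3p0_9,
  G3p1_2, G3p1_3, G3p2_3, G3p4_0, G3p4_1, G3p4_2, G3p4_3, G3p4_5, G3p4_6, G3p4_9, G3p5_0, G3p5_1,
  G3p5_2, G3p5_3, G3p5_6, G3p5_9, G3p6_0, G3p6_1, G3p6_2, G3p6_3, G3p6_9, G3p7_9, G3p8_7, G3p8_9]⟩)
  (.leaf ⟨574691622, 340053192359674106808354,
  904649853542030888560132634042960636215500528775100455752360837401235816454, 140305, [G3p0_1,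
  G3p0_2, G3p0_9, G3p1_2, G3p3_1, G3p3_2, G3p3_4, G3p3_5, G3p3_6, G3p3_9, G3p4_5, G3p4_6, G3p4_9,
  G3p5_6, G3p5_9, G3p6_9, G3p7_9, G3p8_7, G3p8_9]⟩)) (.node 631 (.leaf ⟨575166738,
  226712826538865025193091,
  904649853542030888560132634029044971892161384113855980080877324458358996992, 140421, [G3p0_9,
  G3p2_1, G3p3_1, G3p3_2, G3p4_5, G3p4_6, G3p4_9, G3p5_6, G3p5_9, G3p6_9, G3p7_9, G3p8_7, G3p8_9]⟩)
  (.leaf ⟨575019282, 226712826647819755556929,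
  904649853542030888560132634029044971892161385223050255280578050767975219214, 140385, [G3p0_1,
  G3p0_2, G3p0_3, G3p0_9, G3p2_1, G3p3_1, G3p3_2, G3p4_5, G3p4_6, G3p4_9, G3p5_6, G3p5_9, G3p6_9,
  G3p7_9, G3p8_7, G3p8_9]⟩)))) (.node 636 (.node 634 (.node 633 (.leaf ⟨574757158,
  377833314329653521124419,
  904649853542030888560132634042871648973706264653173359291199883336765014018, 140321, [G3p0_1,
  G3p0_9, G3p2_1, G3p2_3, G3p2_4, G3p2_5, G3p2_6, G3p2_9, G3p3_1, G3p3_4, G3p3_5, G3p3_6, G3p3_9,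
  G3p4_5, G3p4_6, G3p4_9, G3p5_6, G3p5_9, G3p6_9, G3p7_9, G3p8_7, G3p8_9]⟩) (.leaf ⟨543447432,
  226715283286619628608579,
  904652873102128824407939953983249084757759116453672871527948627063643243011, 132677, [G3p0_9,
  G3p2_0, G3p2_1, G3p2_3, G3p2_9, G3p3_0, G3p3_1, G3p3_9, G3p5_4, G3p6_4, G3p6_5, G3p7_4, G3p7_5,
  G3p7_6, G3p7_9, G3p8_4, G3p8_5, G3p8_6, G3p8_7, G3p8_9]⟩)) (.node 635 (.leaf ⟨546593160,
  226718776954030561267779,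
  904652873102128523111654282351824992555482516057839675273406046453814723075, 133445, [G3p0_9,
  G3p2_0, G3p2_1, G3p2_3, G3p2_4, G3p2_5, G3p2_6, G3p2_9, G3p3_0, G3p3_1, G3p3_4, G3p3_5, G3p3_6,
  G3p3_9, G3p4_5, G3p4_6, G3p5_6, G3p7_4, G3p7_5, G3p7_6, G3p7_9, G3p8_4, G3p8_5, G3p8_6, G3p8_7,
  G3p8_9]⟩) (.leaf ⟨546855300, 151160913411868830306464,
  904653250547141129171235628823729624802236895820360113265955532363283694095, 133509, [G3p0_9,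
  G3p2_1, G3p3_1, G3p3_2, G3p4_5, G3p4_6, G3p5_6, G3p7_1, G3p7_2, G3p7_3, G3p7_4, G3p7_5, G3p7_6,
  G3p7_9, G3p8_1, G3p8_2, G3p8_3, G3p8_4, G3p8_5, G3p8_6, G3p8_7, G3p8_9]⟩))) (.node 638 (.node 637
  (.leaf ⟨543447442, 151159799818554045534306,
  904652873102128824407939953971764064527909795369861808831461312014801436792, 132677, [G3p0_3,
  G3p0_4, G3p0_5, G3p0_6, G3p0_9, G3p1_3, G3p1_4, G3p1_5, G3p1_6, G3p2_1, G3p2_3, G3p2_4, G3p2_5,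
  G3p2_6, G3p5_4, G3p6_4, G3p6_5, G3p7_4, G3p7_5, G3p7_6, G3p7_9, G3p8_4, G3p8_5, G3p8_6, G3p8_7,
  G3p8_9]⟩) (.leaf ⟨543709572, 151157419853412628012288,
  904653250547141518348286549930462707663130354560827221861595656231278477839, 132741, [G3p0_9,
  G3p2_1, G3p3_1, G3p3_2, G3p4_1, G3p4_2, G3p4_3, G3p5_1, G3p5_2, G3p5_3, G3p5_4, G3p6_1, G3p6_2,
  G3p6_3, G3p6_4, G3p6_5, G3p7_1, G3p7_2, G3p7_3, G3p7_4, G3p7_5, G3p7_6, G3p7_9, G3p8_1, G3p8_2,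
  G3p8_3, G3p8_4, G3p8_5, G3p8_6, G3p8_7, G3p8_9]⟩)) (.node 639 (.leaf ⟨546904454,
  151160913518486024720550,
  904653250547141129171235628823595822372802222278638372867810379050423025678, 133521, [G3p0_1,
  G3p0_2, G3p0_3, G3p0_9, G3p1_2, G3p1_3, G3p2_3, G3p4_5, G3p4_6, G3p5_6, G3p7_1, G3p7_2, G3p7_3,
  G3p7_4, G3p7_5, G3p7_6, G3p7_9, G3p8_1, G3p8_2, G3p8_3, G3p8_4, G3p8_5, G3p8_6, G3p8_7, G3p8_9]⟩)
  (.leaf ⟨543758726, 151157419960029822426377,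
  904653250547141518348286549930328905233695681019105481463450502918417809422, 132753, [G3p0_1,
  G3p0_2, G3p0_3, G3p0_9, G3p1_2, G3p1_3, G3p2_3, G3p4_1, G3p4_2, G3p4_3, G3p5_1, G3p5_2, G3p5_3,
  G3p5_4, G3p6_1, G3p6_2, G3p6_3, G3p6_4, G3p6_5, G3p7_1, G3p7_2, G3p7_3, G3p7_4, G3p7_5, G3p7_6,
  G3p7_9, G3p8_1, G3p8_2, G3p8_3, G3p8_4, G3p8_5, G3p8_6, G3p8_7, G3p8_9]⟩))))))

def G3T11 : Tr :=
  .node 672 (.node 656 (.node 648 (.node 644 (.node 642 (.node 641 (.leaf ⟨543758738,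
  151162179974290005530785,
  904652873102128824407939953974261747309601260982639996747348861186514878590, 132753, [G3p0_1,
  G3p0_2, G3p0_3, G3p0_4, G3p0_5, G3p0_6, G3p0_9, G3p1_2, G3p1_3, G3p1_4, G3p1_5, G3p1_6, G3p2_3,
  G3p2_4, G3p2_5, G3p2_6, G3p3_4, G3p3_5, G3p3_6, G3p5_4, G3p6_4, G3p6_5, G3p7_4, G3p7_5, G3p7_6,
  G3p7_9, G3p8_4, G3p8_5, G3p8_6, G3p8_7, G3p8_9]⟩) (.leaf ⟨546412932, 226718776919876981330083,
  904652873102128523111654282349416471242820826534366568668443276215832281601, 133401, [G3p0_9,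
  G3p1_0, G3p1_9, G3p2_0, G3p2_1, G3p2_9, G3p3_0, G3p3_1, G3p3_2, G3p3_9, G3p4_5, G3p4_6, G3p5_6,
  G3p7_4, G3p7_5, G3p7_6, G3p7_9, G3p8_4, G3p8_5, G3p8_6, G3p8_7, G3p8_9]⟩)) (.node 643 (.leaf
  ⟨543267204, 226715283252466048670979,
  904652873102128824407939953983338285018957951867159673267478505672377631233, 132633, [G3p0_9,
  G3p1_0, G3p1_9, G3p2_0, G3p2_1, G3p2_9, G3p3_0, G3p3_1, G3p3_2, G3p3_9, G3p5_4, G3p6_4, G3p6_5,
  G3p7_4, G3p7_5, G3p7_6, G3p7_9, G3p8_4, G3p8_5, G3p8_6, G3p8_7, G3p8_9]⟩) (.leaf ⟨546462084,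
  151160913300577637732512,
  904652873102128523111654282337842211959022063481982606312119030026805969423, 133413, [G3p0_9,
  G3p1_2, G3p1_3, G3p2_3, G3p4_5, G3p4_6, G3p5_6, G3p7_4, G3p7_5, G3p7_6, G3p7_9, G3p8_4, G3p8_5,
  G3p8_6, G3p8_7, G3p8_9]⟩))) (.node 646 (.node 645 (.leaf ⟨543316356, 151157419633166705073408,
  904652873102128824407939953971764025735159188814775710911154259483351319055, 132645, [G3p0_9,
  G3p1_2, G3p1_3, G3p2_3, G3p5_4, G3p6_4, G3p6_5, G3p7_4, G3p7_5, G3p7_6, G3p7_9, G3p8_4, G3p8_5,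
  G3p8_6, G3p8_7, G3p8_9]⟩) (.leaf ⟨546380166, 151160913201826675921062,
  904653034864276782851474859403298989599532841534165448531883252066898280454, 133393, [G3p0_1,
  G3p0_2, G3p0_9, G3p1_2, G3p3_1, G3p3_2, G3p4_5, G3p4_6, G3p5_6, G3p7_1, G3p7_2, G3p7_4, G3p7_5,
  G3p7_6, G3p7_9, G3p8_1, G3p8_2, G3p8_4, G3p8_5, G3p8_6, G3p8_7, G3p8_9]⟩)) (.node 647 (.leaf
  ⟨543234438, 151157419537817357360393,
  904653034864277121810945637954139918697708395470247411986606293414064816134, 132625, [G3p0_1,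
  G3p0_2, G3p0_9, G3p1_2, G3p3_1, G3p3_2, G3p4_1, G3p4_2, G3p5_1, G3p5_2, G3p5_4, G3p6_1, G3p6_2,
  G3p6_4, G3p6_5, G3p7_1, G3p7_2, G3p7_4, G3p7_5, G3p7_6, G3p7_9, G3p8_1, G3p8_2, G3p8_4, G3p8_5,
  G3p8_6, G3p8_7, G3p8_9]⟩) (.leaf ⟨543709586, 151160989755151961232515,
  904652873102128824407939953974395549739035934524361737145494014499375546480, 132741, [G3p0_4,
  G3p0_5, G3p0_6, G3p0_9, G3p1_4, G3p1_5, G3p1_6, G3p2_1, G3p2_4, G3p2_5, G3p2_6, G3p3_1, G3p3_2,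
  G3p3_4, G3p3_5, G3p3_6, G3p5_4, G3p6_4, G3p6_5, G3p7_4, G3p7_5, G3p7_6, G3p7_9, G3p8_4, G3p8_5,
  G3p8_6, G3p8_7, G3p8_9]⟩)))) (.node 652 (.node 650 (.node 649 (.leaf ⟨543299974,
  151157419560907101543689,
  904652927022844923542275181965889324977278175226966115707520154176101416962, 132641, [G3p0_1,
  G3p0_9, G3p2_1, G3p2_3, G3p3_1, G3p4_1, G3p5_1, G3p5_4, G3p6_1, G3p6_4, G3p6_5, G3p7_1, G3p7_4,
  G3p7_5, G3p7_6, G3p7_9, G3p8_1, G3p8_4, G3p8_5, G3p8_6, G3p8_7, G3p8_9]⟩) (.leaf ⟨546445702,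
  151160913228214954987686,
  904652927022844609691594474692994472760461573693076724823255654089349005314, 133409, [G3p0_1,
  G3p0_9, G3p2_1, G3p2_3, G3p3_1, G3p4_5, G3p4_6, G3p5_6, G3p7_1, G3p7_4, G3p7_5, G3p7_6, G3p7_9,
  G3p8_1, G3p8_4, G3p8_5, G3p8_6, G3p8_7, G3p8_9]⟩)) (.node 651 (.leaf ⟨541170072,
  340052072194896144991302,
  904652441736400031333259063930238962896166694198755784283647477557276639745, 132121, [G3p0_9,
  G3p1_0, G3p1_9, G3p2_0, G3p2_1, G3p2_9, G3p3_0, G3p3_1, G3p3_2, G3p3_9, G3p4_0, G3p4_1, G3p4_2,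
  G3p4_3, G3p4_5, G3p4_6, G3p4_9, G3p6_5, G3p7_5, G3p7_6, G3p7_9, G3p8_5, G3p8_6, G3p8_7, G3p8_9]⟩)
  (.leaf ⟨541219224, 226715276712639606129731,
  904652441736400031333259063918664703612367931146371821927323231368250327567, 132133, [G3p0_9,
  G3p1_2, G3p1_3, G3p2_3, G3p4_0, G3p4_1, G3p4_2, G3p4_3, G3p4_5, G3p4_6, G3p4_9, G3p6_5, G3p7_5,
  G3p7_6, G3p7_9, G3p8_5, G3p8_6, G3p8_7, G3p8_9]⟩))) (.node 654 (.node 653 (.leaf ⟨575035666,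
  226712826647647956865089,
  904649853542030888560132634029000369721261897538736349820297229950289444876, 140389, [G3p0_2,
  G3p0_3, G3p0_9, G3p1_2, G3p1_3, G3p3_2, G3p4_5, G3p4_6, G3p4_9, G3p5_6, G3p5_9, G3p6_9, G3p7_9,
  G3p8_7, G3p8_9]⟩) (.leaf ⟨571758882, 264489454985400810605698,
  904649853542031240073998448218725137682125704888386301953333553154247622664, 139589, [G3p0_3,
  G3p0_9, G3p1_3, G3p2_1, G3p2_3, G3p4_3, G3p4_9, G3p5_3, G3p5_4, G3p5_9, G3p6_3, G3p6_4, G3p6_5,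
  G3p6_9, G3p7_9, G3p8_7, G3p8_9]⟩)) (.node 655 (.leaf ⟨572070178, 264489454953549333138593,
  904649853542031189856418305662832983238863835904927344281767403282103271438, 139665, [G3p0_1,
  G3p0_2, G3p0_3, G3p0_9, G3p1_2, G3p1_3, G3p2_3, G3p4_9, G3p5_4, G3p5_9, G3p6_4, G3p6_5, G3p6_9,
  G3p7_9, G3p8_7, G3p8_9]⟩) (.leaf ⟨571578660, 340047318536531509187715,
  904649853542031189856418305674407242522662597848117031438390923161547833857, 139545, [G3p0_9,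
  G3p1_0, G3p1_9, G3p2_0, G3p2_1, G3p2_9, G3p3_0, G3p3_1, G3p3_2, G3p3_9, G3p4_9, G3p5_4, G3p5_9,
  G3p6_4, G3p6_5, G3p6_9, G3p7_9, G3p8_7, G3p8_9]⟩))))) (.node 664 (.node 660 (.node 658 (.node 657
  (.leaf ⟨571627812, 340047318643146556118144,
  904649853542031189856418305674251139007741833356262481831269257249468449295, 139557, [G3p0_9,
  G3p1_2, G3p1_3, G3p1_9, G3p2_3, G3p2_9, G3p3_9, G3p4_9, G3p5_4, G3p5_9, G3p6_4, G3p6_5, G3p6_9,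
  G3p7_9, G3p8_7, G3p8_9]⟩) (.leaf ⟨571545894, 264489454813945716149282,
  904649853542031189856418305674384766529402224316041559904859450369104019462, 139537, [G3p0_1,
  G3p0_2, G3p0_9, G3p1_2, G3p3_1, G3p3_2, G3p3_9, G3p4_9, G3p5_4, G3p5_9, G3p6_4, G3p6_5, G3p6_9,
  G3p7_9, G3p8_7, G3p8_9]⟩)) (.node 659 (.leaf ⟨572021026, 264489454810612821527683,
  904649853542031189856418305662966785668298509446649084679912556594963939328, 139653, [G3p0_9,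
  G3p2_1, G3p3_1, G3p3_2, G3p4_9, G3p5_4, G3p5_9, G3p6_4, G3p6_5, G3p6_9, G3p7_9, G3p8_7, G3p8_9]⟩)
  (.leaf ⟨571611430, 264489454844766401465411,
  904649853542031189856418305674295741175982865049006555545742463946593533954, 139553, [G3p0_1,
  G3p0_9, G3p2_1, G3p2_3, G3p2_9, G3p3_1, G3p3_9, G3p4_9, G3p5_4, G3p5_9, G3p6_4, G3p6_5, G3p6_9,
  G3p7_9, G3p8_7, G3p8_9]⟩))) (.node 662 (.node 661 (.leaf ⟨572807442, 151152842883029664829538,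
  904649853542031189805845251293472749093984456676528968590000978564186898488, 139845, [G3p0_3,
  G3p0_4, G3p0_5, G3p0_9, G3p1_3, G3p1_4, G3p1_5, G3p2_1, G3p2_3, G3p2_4, G3p2_5, G3p4_5, G3p6_4,
  G3p6_5, G3p6_9, G3p7_9, G3p8_7, G3p8_9]⟩) (.leaf ⟨573118738, 151152917195756411066529,
  904649853542031189805845251294543184182969962408248870536439032599517593662, 139921, [G3p0_1,
  G3p0_2, G3p0_3, G3p0_4, G3p0_5, G3p0_9, G3p1_2, G3p1_3, G3p1_4, G3p1_5, G3p2_3, G3p2_4, G3p2_5,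
  G3p3_4, G3p3_5, G3p4_5, G3p6_4, G3p6_5, G3p6_9, G3p7_9, G3p8_7, G3p8_9]⟩)) (.node 663 (.leaf
  ⟨572676376, 264489564274800392702052,
  904649853542031283962371282093684189616478993246049403742148251247476408847, 139813, [G3p0_9,
  G3p1_2, G3p1_3, G3p2_3, G3p4_5, G3p6_0, G3p6_1, G3p6_2, G3p6_3, G3p6_4, G3p6_5, G3p6_9, G3p7_9,
  G3p8_7, G3p8_9]⟩) (.leaf ⟨572627224, 377826359757056931563623,
  904649853542031283962371282105258448900277756298433366098472497436502721025, 139801, [G3p0_9,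
  G3p1_0, G3p1_9, G3p2_0, G3p2_1, G3p2_9, G3p3_0, G3p3_1, G3p3_2, G3p3_9, G3p4_5, G3p6_0, G3p6_1,
  G3p6_2, G3p6_3, G3p6_4, G3p6_5, G3p6_9, G3p7_9, G3p8_7, G3p8_9]⟩)))) (.node 668 (.node 666 (.node
  665 (.leaf ⟨573069586, 151152879898122973648003,
  904649853542031189805845251294676986612404635949970610934584185912378261552, 139909, [G3p0_4,
  G3p0_5, G3p0_9, G3p1_4, G3p1_5, G3p2_1, G3p2_4, G3p2_5, G3p3_1, G3p3_2, G3p3_4, G3p3_5, G3p4_5,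
  G3p6_4, G3p6_5, G3p6_9, G3p7_9, G3p8_7, G3p8_9]⟩) (.leaf ⟨572938514, 151152805697512053705793,
  904649853542031189805845251293561932338422067259011019954935813327147499580, 139877, [G3p0_2,
  G3p0_3, G3p0_4, G3p0_5, G3p0_9, G3p1_2, G3p1_3, G3p1_4, G3p1_5, G3p3_2, G3p4_5, G3p6_4, G3p6_5,
  G3p6_9, G3p7_9, G3p8_7, G3p8_9]⟩)) (.node 667 (.leaf ⟨572922130, 151152805697683852397633,
  904649853542031189805845251293606534509072324694115253689047170321030709310, 139873, [G3p0_1,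
  G3p0_2, G3p0_3, G3p0_4, G3p0_5, G3p0_9, G3p2_1, G3p3_1, G3p3_2, G3p4_5, G3p6_4, G3p6_5, G3p6_9,
  G3p7_9, G3p8_7, G3p8_9]⟩) (.leaf ⟨563370274, 188935155823407109571682,
  904649853542027875496129820642985628710670387723395854202784468818203246600, 137541, [G3p0_3,
  G3p0_9, G3p1_3, G3p2_1, G3p2_3, G3p4_3, G3p4_5, G3p4_6, G3p4_9, G3p6_5, G3p7_9, G3p8_7,
  G3p8_9]⟩))) (.node 670 (.node 669 (.leaf ⟨541350290, 151159790811354790793314,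
  904652441736400031333258293707301863574679695607148505482199314132468498536, 132165, [G3p0_3,
  G3p0_5, G3p0_6, G3p0_9, G3p1_3, G3p1_5, G3p1_6, G3p2_1, G3p2_3, G3p2_5, G3p2_6, G3p4_5, G3p4_6,
  G3p6_5, G3p7_5, G3p7_6, G3p7_9, G3p8_5, G3p8_6, G3p8_7, G3p8_9]⟩) (.leaf ⟨541661586,
  151162168715290937104545,
  904652441736400031333258293709442734433194671249662121905724489520086253678, 132241, [G3p0_1,
  G3p0_2, G3p0_3, G3p0_5, G3p0_6, G3p0_9, G3p1_2, G3p1_3, G3p1_5, G3p1_6, G3p2_3, G3p2_5, G3p2_6,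
  G3p3_5, G3p3_6, G3p4_5, G3p4_6, G3p6_5, G3p7_5, G3p7_6, G3p7_9, G3p8_5, G3p8_6, G3p8_7, G3p8_9]⟩))
  (.node 671 (.leaf ⟨541612434, 151160979622052799648899,
  904652441736400031333258293709576536862629344791383862303869642832946921568, 132229, [G3p0_5,
  G3p0_6, G3p0_9, G3p1_5, G3p1_6, G3p2_1, G3p2_5, G3p2_6, G3p3_1, G3p3_2, G3p3_5, G3p3_6, G3p4_5,
  G3p4_6, G3p6_5, G3p7_5, G3p7_6, G3p7_9, G3p8_5, G3p8_6, G3p8_7, G3p8_9]⟩) (.leaf ⟨541481362,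
  151158601830232479632449,
  904652441736400031333258293707391030485563693984584310605152992170554949740, 132197, [G3p0_2,
  G3p0_3, G3p0_5, G3p0_6, G3p0_9, G3p1_2, G3p1_3, G3p1_5, G3p1_6, G3p3_2, G3p4_5, G3p4_6, G3p6_5,
  G3p7_5, G3p7_6, G3p7_9, G3p8_5, G3p8_6, G3p8_7, G3p8_9]⟩)))))) (.node 688 (.node 680 (.node 676
  (.node 674 (.node 673 (.leaf ⟨541464978, 151158601830404278324289,
  904652441736400031333258293707435632655964721170478872613094885340635594862, 132193, [G3p0_1,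
  G3p0_2, G3p0_3, G3p0_5, G3p0_6, G3p0_9, G3p2_1, G3p3_1, G3p3_2, G3p4_5, G3p4_6, G3p6_5, G3p7_5,
  G3p7_6, G3p7_9, G3p8_5, G3p8_6, G3p8_7, G3p8_9]⟩) (.leaf ⟨545544594, 151159539735675564888162,
  904651579004942445194622114588071921554474247646371534621610089294198210632, 133189, [G3p0_3,
  G3p0_6, G3p0_9, G3p1_3, G3p1_6, G3p2_1, G3p2_3, G3p2_6, G3p4_6, G3p5_4, G3p5_6, G3p7_6, G3p7_9,
  G3p8_6, G3p8_7, G3p8_9]⟩)) (.node 675 (.leaf ⟨545855890, 151161845582017673271457,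
  904651579004942445194622114589499168566636243348356008060410517113624592462, 133265, [G3p0_1,
  G3p0_2, G3p0_3, G3p0_6, G3p0_9, G3p1_2, G3p1_3, G3p1_6, G3p2_3, G3p2_6, G3p3_6, G3p4_6, G3p5_4,
  G3p5_6, G3p7_6, G3p7_9, G3p8_6, G3p8_7, G3p8_9]⟩) (.leaf ⟨545364376, 377830825076087469475943,
  904651579004942445245099456688279246037341198949547267927059689248455066113, 133145, [G3p0_9,
  G3p1_0, G3p1_9, G3p2_0, G3p2_1, G3p2_9, G3p3_0, G3p3_1, G3p3_2, G3p3_9, G3p4_0, G3p4_1, G3p4_2,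
  G3p4_3, G3p4_6, G3p4_9, G3p5_0, G3p5_1, G3p5_2, G3p5_3, G3p5_4, G3p5_6, G3p5_9, G3p7_6, G3p7_9,
  G3p8_6, G3p8_7, G3p8_9]⟩))) (.node 678 (.node 677 (.leaf ⟨545413528, 264494029593830930614372,
  904651579004942445245099456676704986753542435897163305570735443059428753935, 133157, [G3p0_9,
  G3p1_2, G3p1_3, G3p2_3, G3p4_0, G3p4_1, G3p4_2, G3p4_3, G3p4_6, G3p4_9, G3p5_0, G3p5_1, G3p5_2,
  G3p5_3, G3p5_4, G3p5_6, G3p5_9, G3p7_6, G3p7_9, G3p8_6, G3p8_7, G3p8_9]⟩) (.leaf ⟨545806738,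
  151160692517576554779779,
  904651579004942445194622114589632970996070916890077748458555670426485260352, 133253, [G3p0_6,
  G3p0_9, G3p1_6, G3p2_1, G3p2_6, G3p3_1, G3p3_2, G3p3_6, G3p4_6, G3p5_4, G3p5_6, G3p7_6, G3p7_9,
  G3p8_6, G3p8_7, G3p8_9]⟩)) (.node 679 (.leaf ⟨545659282, 151158386783522071383105,
  904651579004942445194622114588205701524961168179205847064606074201483116622, 133217, [G3p0_1,
  G3p0_2, G3p0_3, G3p0_6, G3p0_9, G3p2_1, G3p3_1, G3p3_2, G3p4_6, G3p5_4, G3p5_6, G3p7_6, G3p7_9,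
  G3p8_6, G3p8_7, G3p8_9]⟩) (.leaf ⟨545675666, 151158386783350272691265,
  904651579004942445194622114588161099354393987493838170572551205148867428428, 133221, [G3p0_2,
  G3p0_3, G3p0_6, G3p0_9, G3p1_2, G3p1_3, G3p1_6, G3p3_2, G3p4_6, G3p5_4, G3p5_6, G3p7_6, G3p7_9,
  G3p8_6, G3p8_7, G3p8_9]⟩)))) (.node 684 (.node 682 (.node 681 (.leaf ⟨1158961288,
  38038343740419609791555,
  1130806277623037189400993432400014911185209394732531293626101577815029907587, 282949, [G3p0_7,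
  G3p2_0, G3p2_1, G3p2_3, G3p2_4, G3p2_7, G3p3_0, G3p3_1, G3p3_4, G3p3_7, G3p5_4, G3p5_6, G3p5_7,
  G3p6_4, G3p6_7, G3p8_7, G3p8_9, G3p9_7]⟩) (.leaf ⟨420763784, 235234037888374719712323,
  1583105322713609193165460629273539848987556798017838306690024121974322824067, 102725, [G3p0_7,
  G3p0_8, G3p0_9, G3p2_0, G3p2_1, G3p2_3, G3p2_4, G3p2_7, G3p2_8, G3p2_9, G3p3_0, G3p3_1, G3p3_4,
  G3p3_7, G3p3_8, G3p3_9, G3p5_4, G3p5_6, G3p6_4, G3p8_7, G3p9_7, G3p9_8]⟩)) (.node 683 (.leaf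
  ⟨421025924, 118244787120343055666304,
  1583105322713609281046225858265056504654148005953943834980819876645002150799, 102789, [G3p0_7,
  G3p0_8, G3p0_9, G3p2_1, G3p3_1, G3p3_2, G3p5_1, G3p5_2, G3p5_3, G3p5_4, G3p5_6, G3p6_1, G3p6_2,
  G3p6_3, G3p6_4, G3p8_7, G3p9_7, G3p9_8]⟩) (.leaf ⟨437540962, 79255581776910658775394,
  1795130205729980758590573563414957137259387305481905115548389580267151949832, 106821, [G3p0_3,
  G3p0_4, G3p0_5, G3p0_6, G3p0_7, G3p0_8, G3p0_9, G3p1_3, G3p2_1, G3p2_3, G3p4_3, G3p5_3, G3p5_4,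
  G3p6_3, G3p6_4, G3p6_5, G3p7_3, G3p7_4, G3p7_5, G3p7_6, G3p8_3, G3p8_4, G3p8_5, G3p8_6, G3p8_7,
  G3p9_3, G3p9_4, G3p9_5, G3p9_6, G3p9_7, G3p9_8]⟩))) (.node 686 (.node 685 (.leaf ⟨421812370,
  79255504934242021019746,
  1583105322713609092730300507829533468101039488505958545276494022370219524216, 102981, [G3p0_3,
  G3p0_4, G3p0_5, G3p0_6, G3p0_7, G3p0_8, G3p0_9, G3p1_3, G3p1_4, G3p1_5, G3p1_6, G3p2_1, G3p2_3,
  G3p2_4, G3p2_5, G3p2_6, G3p4_5, G3p4_6, G3p5_6, G3p8_7, G3p9_7, G3p9_8]⟩) (.leaf ⟨420763938,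
  235237493380634556598370,
  1583105322713609092818420275858749791891782474913457458271960313143004495880, 102725, [G3p0_3,
  G3p0_7, G3p0_8, G3p0_9, G3p1_3, G3p2_1, G3p2_3, G3p4_3, G3p4_6, G3p4_7, G3p4_8, G3p4_9, G3p5_3,
  G3p5_4, G3p5_6, G3p5_7, G3p5_8, G3p5_9, G3p8_7, G3p9_7, G3p9_8]⟩)) (.node 687 (.leaf ⟨1159223428,
  37927663423411664784512,
  1130806277623037277281758661408658800501129916522076193421989781720338923663, 283013, [G3p0_7,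
  G3p2_1, G3p3_1, G3p3_2, G3p5_1, G3p5_2, G3p5_3, G3p5_4, G3p5_6, G3p5_7, G3p6_1, G3p6_2, G3p6_3,
  G3p6_4, G3p6_7, G3p8_7, G3p8_9, G3p9_7]⟩) (.leaf ⟨421075078, 79248370255138223361157,
  1583105322713609281046225858264922702224713332412222094582674723332141481998, 102801, [G3p0_1,
  G3p0_2, G3p0_3, G3p0_7, G3p0_8, G3p0_9, G3p1_2, G3p1_3, G3p2_3, G3p5_1, G3p5_2, G3p5_3, G3p5_4,
  G3p5_6, G3p6_1, G3p6_2, G3p6_3, G3p6_4, G3p8_7, G3p9_7, G3p9_8]⟩))))) (.node 696 (.node 692 (.node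
  690 (.node 689 (.leaf ⟨1175738466, 37932494829029485060386,
  1342831160590042814625188091471845475781735754102051663450069256271125020680, 287045, [G3p0_3,
  G3p0_4, G3p0_5, G3p0_6, G3p0_7, G3p1_3, G3p2_1, G3p2_3, G3p4_3, G3p5_3, G3p5_4, G3p6_3, G3p6_4,
  G3p6_5, G3p8_3, G3p8_4, G3p8_5, G3p8_6, G3p8_7, G3p8_9, G3p9_3, G3p9_4, G3p9_5, G3p9_6, G3p9_7]⟩)
  (.leaf ⟨422123666, 79257885089977983113377,
  1583105322713609092730300507832031150882730954118736733192381571541932966014, 103057, [G3p0_1,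
  G3p0_2, G3p0_3, G3p0_4, G3p0_5, G3p0_6, G3p0_7, G3p0_8, G3p0_9, G3p1_2, G3p1_3, G3p1_4, G3p1_5,
  G3p1_6, G3p2_3, G3p2_4, G3p2_5, G3p2_6, G3p3_4, G3p3_5, G3p3_6, G3p4_5, G3p4_6, G3p5_6, G3p8_7,
  G3p9_7, G3p9_8]⟩)) (.node 691 (.leaf ⟨421075234, 235237493383967451220129,
  1583105322713609092817654016396303748134835991591329829419237718983136247822, 102801, [G3p0_1,
  G3p0_2, G3p0_3, G3p0_7, G3p0_8, G3p0_9, G3p1_2, G3p1_3, G3p2_3, G3p4_6, G3p4_7, G3p4_8, G3p4_9,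
  G3p5_4, G3p5_6, G3p5_7, G3p5_8, G3p5_9, G3p8_7, G3p9_7, G3p9_8]⟩) (.leaf ⟨437852230,
  79255581535086820130850,
  1780995213528889287416566271432691000167345475216310682601870451347366477838, 106897, [G3p0_1,
  G3p0_2, G3p0_3, G3p0_4, G3p0_5, G3p0_6, G3p0_7, G3p0_8, G3p0_9, G3p1_2, G3p1_3, G3p2_3, G3p5_4,
  G3p6_4, G3p6_5, G3p7_4, G3p7_5, G3p7_6, G3p8_4, G3p8_5, G3p8_6, G3p8_7, G3p9_4, G3p9_5, G3p9_6,
  G3p9_7, G3p9_8]⟩))) (.node 694 (.node 693 (.leaf ⟨1158781060, 38038343706266029853827,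
  1130806277623037189400993432399747294076720027447060734649919653140980826241, 282905, [G3p0_7,
  G3p1_0, G3p1_7, G3p2_0, G3p2_1, G3p2_7, G3p3_0, G3p3_1, G3p3_2, G3p3_7, G3p5_4, G3p5_6, G3p5_7,
  G3p6_4, G3p6_7, G3p8_7, G3p8_9, G3p9_7]⟩) (.leaf ⟨1158830212, 37927663348438715665536,
  1130806277623037189400993432396736651619579763315073831855497342159664709775, 282917, [G3p0_7,
  G3p1_2, G3p1_3, G3p2_3, G3p5_4, G3p5_6, G3p5_7, G3p6_4, G3p6_7, G3p8_7, G3p8_9, G3p9_7]⟩)) (.node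
  695 (.leaf ⟨420632708, 118244787045370106547328,
  1583105322713609193165460629253134355772597852746941473414327437084327936911, 102693, [G3p0_7,
  G3p0_8, G3p0_9, G3p1_2, G3p1_3, G3p2_3, G3p5_4, G3p5_6, G3p6_4, G3p8_7, G3p9_7, G3p9_8]⟩) (.leaf
  ⟨420583556, 235234037854221139774595,
  1583105322713609193165460629273272231883055114719722495332553618481064444801, 102681, [G3p0_7,
  G3p0_8, G3p0_9, G3p1_0, G3p1_7, G3p1_8, G3p1_9, G3p2_0, G3p2_1, G3p2_7, G3p2_8, G3p2_9, G3p3_0,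
  G3p3_1, G3p3_2, G3p3_7, G3p3_8, G3p3_9, G3p5_4, G3p5_6, G3p6_4, G3p8_7, G3p9_7, G3p9_8]⟩))))
  (.node 700 (.node 698 (.node 697 (.leaf ⟨420550790, 79248369973663246650501,
  1583105322713609230828645727401177448858109482599963539039515632220504457222, 102673, [G3p0_1,
  G3p0_2, G3p0_7, G3p0_8, G3p0_9, G3p1_2, G3p3_1, G3p3_2, G3p5_1, G3p5_2, G3p5_4, G3p5_6, G3p6_1,
  G3p6_2, G3p6_4, G3p8_7, G3p9_7, G3p9_8]⟩) (.leaf ⟨420550950, 235237493244363834230818,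
  1583105322713609092817654016417846265274316099169852046828476232024845582342, 102673, [G3p0_1,
  G3p0_2, G3p0_7, G3p0_8, G3p0_9, G3p1_2, G3p3_1, G3p3_2, G3p3_6, G3p3_7, G3p3_8, G3p3_9, G3p4_6,
  G3p4_7, G3p4_8, G3p4_9, G3p5_4, G3p5_6, G3p5_7, G3p5_8, G3p5_9, G3p8_7, G3p9_7, G3p9_8]⟩)) (.node
  699 (.leaf ⟨437327942, 79255581359164959686690,
  1780995213528889287416566271432824801916236184578958610469366537308911042566, 106769, [G3p0_1,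
  G3p0_2, G3p0_4, G3p0_5, G3p0_6, G3p0_7, G3p0_8, G3p0_9, G3p1_2, G3p3_1, G3p3_2, G3p5_4, G3p6_4,
  G3p6_5, G3p7_4, G3p7_5, G3p7_6, G3p8_4, G3p8_5, G3p8_6, G3p8_7, G3p9_4, G3p9_5, G3p9_6, G3p9_7,
  G3p9_8]⟩) (.leaf ⟨422074514, 79256694870839937766531,
  1583105322713609092730300507832164953312165627660458473590526724854793633904, 103045, [G3p0_4,
  G3p0_5, G3p0_6, G3p0_7, G3p0_8, G3p0_9, G3p1_4, G3p1_5, G3p1_6, G3p2_1, G3p2_4, G3p2_5, G3p2_6,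
  G3p3_1, G3p3_2, G3p3_4, G3p3_5, G3p3_6, G3p4_5, G3p4_6, G3p5_6, G3p8_7, G3p9_7, G3p9_8]⟩))) (.node
  702 (.node 701 (.leaf ⟨421026082, 235237493241030939609219,
  1583105322713609092817654016396437550564270665133051569817382872295996915712, 102789, [G3p0_7,
  G3p0_8, G3p0_9, G3p2_1, G3p3_1, G3p3_2, G3p4_6, G3p4_7, G3p4_8, G3p4_9, G3p5_4, G3p5_6, G3p5_7,
  G3p5_8, G3p5_9, G3p8_7, G3p9_7, G3p9_8]⟩) (.leaf ⟨1176000580, 37932494550957196181536,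
  1328696168392242352565823211574023079484243298388144442632962440390897434879, 287109, [G3p0_4,
  G3p0_5, G3p0_6, G3p0_7, G3p2_1, G3p3_1, G3p3_2, G3p5_4, G3p6_4, G3p6_5, G3p8_4, G3p8_5, G3p8_6,
  G3p8_7, G3p8_9, G3p9_4, G3p9_5, G3p9_6, G3p9_7]⟩)) (.node 703 (.leaf ⟨437803076,
  118253188476493185122336,
  1780995213528889287416566271432824802596780148758032423000015604660227146751, 106885, [G3p0_4,
  G3p0_5, G3p0_6, G3p0_7, G3p0_8, G3p0_9, G3p2_1, G3p3_1, G3p3_2, G3p5_4, G3p6_4, G3p6_5, G3p7_4,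
  G3p7_5, G3p7_6, G3p8_4, G3p8_5, G3p8_6, G3p8_7, G3p9_4, G3p9_5, G3p9_6, G3p9_7, G3p9_8]⟩) (.leaf
  ⟨1158813830, 37927663276041673182341,
  1130806277623037201955388465112751017569352890793114358168441957254235815938, 282913, [G3p0_1,
  G3p0_7, G3p2_1, G3p2_3, G3p3_1, G3p5_1, G3p5_4, G3p5_6, G3p5_7, G3p6_1, G3p6_4, G3p6_7, G3p8_7,
  G3p8_9, G3p9_7]⟩))))))

def G3T12 : Tr :=
  .node 736 (.node 720 (.node 712 (.node 708 (.node 706 (.node 705 (.leaf ⟨420616326,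
  79248370001151037344901,
  1583105322713609205719855661969148721722370980224981999727272052178899042306, 102689, [G3p0_1,
  G3p0_7, G3p0_8, G3p0_9, G3p2_1, G3p2_3, G3p3_1, G3p5_1, G3p5_4, G3p5_6, G3p6_1, G3p6_4, G3p8_7,
  G3p9_7, G3p9_8]⟩) (.leaf ⟨428103826, 79247250962024954499170,
  1583105322713609394026586179463455243764969972571933639685571993402922762248, 104517, [G3p0_3,
  G3p0_7, G3p0_8, G3p0_9, G3p1_3, G3p2_1, G3p2_3, G3p5_4, G3p6_4, G3p6_5, G3p8_7, G3p9_7, G3p9_8]⟩))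
  (.node 707 (.leaf ⟨421812360, 235235222335076718186563,
  1583105322713609092730300507849582105155553466516489293725527562036376175491, 102981, [G3p0_7,
  G3p0_8, G3p0_9, G3p2_0, G3p2_1, G3p2_3, G3p2_7, G3p2_8, G3p2_9, G3p3_0, G3p3_1, G3p3_7, G3p3_8,
  G3p3_9, G3p4_5, G3p4_6, G3p5_6, G3p8_7, G3p9_7, G3p9_8]⟩) (.leaf ⟨422074500,
  118245971603363297595552,
  1583105322713609180611065757302478500822479890009462466950641684582499222415, 103045, [G3p0_7,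
  G3p0_8, G3p0_9, G3p2_1, G3p3_1, G3p3_2, G3p4_1, G3p4_2, G3p4_3, G3p4_5, G3p4_6, G3p5_1, G3p5_2,
  G3p5_3, G3p5_6, G3p6_1, G3p6_2, G3p6_3, G3p8_7, G3p9_7, G3p9_8]⟩))) (.node 710 (.node 709 (.leaf
  ⟨428415122, 79247250965357851285665,
  1583105322713609394026586179463455243084426008392859827154922926085966397454, 104593, [G3p0_1,
  G3p0_2, G3p0_3, G3p0_7, G3p0_8, G3p0_9, G3p1_2, G3p1_3, G3p2_3, G3p5_4, G3p6_4, G3p6_5, G3p8_7,
  G3p9_7, G3p9_8]⟩) (.leaf ⟨422123654, 79249554738158465290406,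
  1583105322713609180611065757302344698393045216467740726552496531269638553614, 103057, [G3p0_1,
  G3p0_2, G3p0_3, G3p0_7, G3p0_8, G3p0_9, G3p1_2, G3p1_3, G3p2_3, G3p4_1, G3p4_2, G3p4_3, G3p4_5,
  G3p4_6, G3p5_1, G3p5_2, G3p5_3, G3p5_6, G3p6_1, G3p6_2, G3p6_3, G3p8_7, G3p9_7, G3p9_8]⟩)) (.node
  711 (.leaf ⟨427923748, 352230500158590541829251,
  1583105322713609394026586179486090840769325331441562399440902866758345425905, 104473, [G3p0_7,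
  G3p0_8, G3p0_9, G3p1_0, G3p1_4, G3p1_5, G3p1_6, G3p1_7, G3p1_8, G3p1_9, G3p2_0, G3p2_1, G3p2_4,
  G3p2_5, G3p2_6, G3p2_7, G3p2_8, G3p2_9, G3p3_0, G3p3_1, G3p3_2, G3p3_4, G3p3_5, G3p3_6, G3p3_7,
  G3p3_8, G3p3_9, G3p5_4, G3p6_4, G3p6_5, G3p8_7, G3p9_7, G3p9_8]⟩) (.leaf ⟨421632132,
  235235222300923138248867,
  1583105322713609092730300507849671305418746143923653469274413151235505914753, 102937, [G3p0_7,
  G3p0_8, G3p0_9, G3p1_0, G3p1_7, G3p1_8, G3p1_9, G3p2_0, G3p2_1, G3p2_7, G3p2_8, G3p2_9, G3p3_0,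
  G3p3_1, G3p3_2, G3p3_7, G3p3_8, G3p3_9, G3p4_5, G3p4_6, G3p5_6, G3p8_7, G3p9_7, G3p9_8]⟩))))
  (.node 716 (.node 714 (.node 713 (.leaf ⟨427923608, 430215003750420457852040,
  1583105322713615112553524913035812128924384678855804976795381157145179259777, 104473, [G3p0_7,
  G3p0_8, G3p0_9, G3p1_0, G3p1_7, G3p1_8, G3p1_9, G3p2_0, G3p2_1, G3p2_7, G3p2_8, G3p2_9, G3p3_0,
  G3p3_1, G3p3_2, G3p3_7, G3p3_8, G3p3_9, G3p4_0, G3p4_1, G3p4_2, G3p4_3, G3p4_7, G3p4_8, G3p4_9,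
  G3p5_0, G3p5_1, G3p5_2, G3p5_3, G3p5_4, G3p5_7, G3p5_8, G3p5_9, G3p6_0, G3p6_1, G3p6_2, G3p6_3,
  G3p6_4, G3p6_5, G3p6_7, G3p6_8, G3p6_9, G3p8_7, G3p9_7, G3p9_8]⟩) (.leaf ⟨421681284,
  118245971492072105021600,
  1583105322713609092730300507829533429308288881950872447356186969838769406863, 102949, [G3p0_7,
  G3p0_8, G3p0_9, G3p1_2, G3p1_3, G3p2_3, G3p4_5, G3p4_6, G3p5_6, G3p8_7, G3p9_7, G3p9_8]⟩)) (.node
  715 (.leaf ⟨427972900, 352230500265205588759680,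
  1583105322713609394026586179485934737254404566949707849833781200846266041343, 104485, [G3p0_7,
  G3p0_8, G3p0_9, G3p1_2, G3p1_3, G3p1_4, G3p1_5, G3p1_6, G3p1_7, G3p1_8, G3p1_9, G3p2_3, G3p2_4,
  G3p2_5, G3p2_6, G3p2_7, G3p2_8, G3p2_9, G3p3_4, G3p3_5, G3p3_6, G3p3_7, G3p3_8, G3p3_9, G3p5_4,
  G3p6_4, G3p6_5, G3p8_7, G3p9_7, G3p9_8]⟩) (.leaf ⟨427972760, 313225752941569424624773,
  1583105322713615112553524913015674252813927416883023954877154975748442751887, 104485, [G3p0_7,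
  G3p0_8, G3p0_9, G3p1_2, G3p1_3, G3p2_3, G3p4_0, G3p4_1, G3p4_2, G3p4_3, G3p4_7, G3p4_8, G3p4_9,
  G3p5_0, G3p5_1, G3p5_2, G3p5_3, G3p5_4, G3p5_7, G3p5_8, G3p5_9, G3p6_0, G3p6_1, G3p6_2, G3p6_3,
  G3p6_4, G3p6_5, G3p6_7, G3p6_8, G3p6_9, G3p8_7, G3p9_7, G3p9_8]⟩))) (.node 718 (.node 717 (.leaf
  ⟨421599366, 79249554421499116490918,
  1583105322713609130393485614746586346379218021026003509279073282910541185030, 102929, [G3p0_1,
  G3p0_2, G3p0_7, G3p0_8, G3p0_9, G3p1_2, G3p3_1, G3p3_2, G3p4_1, G3p4_2, G3p4_5, G3p4_6, G3p5_1,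
  G3p5_2, G3p5_6, G3p6_1, G3p6_2, G3p8_7, G3p9_7, G3p9_8]⟩) (.leaf ⟨427890982,
  235237679017848463263778,
  1583105322713609394026586179486068195993435585882175775569814981629575561222, 104465, [G3p0_1,
  G3p0_2, G3p0_7, G3p0_8, G3p0_9, G3p1_2, G3p3_1, G3p3_2, G3p3_4, G3p3_5, G3p3_6, G3p3_7, G3p3_8,
  G3p3_9, G3p5_4, G3p6_4, G3p6_5, G3p8_7, G3p9_7, G3p9_8]⟩)) (.node 719 (.leaf ⟨428365970,
  79247250822421338592387,
  1583105322713609394026586179463589045513860681934581567553068079398827065344, 104581, [G3p0_7,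
  G3p0_8, G3p0_9, G3p2_1, G3p3_1, G3p3_2, G3p5_4, G3p6_4, G3p6_5, G3p8_7, G3p9_7, G3p9_8]⟩) (.leaf
  ⟨428234898, 79247250931204268100673,
  1583105322713609394026586179463544443342961195359461937292487984890757513228, 104549, [G3p0_2,
  G3p0_3, G3p0_7, G3p0_8, G3p0_9, G3p1_2, G3p1_3, G3p3_2, G3p5_4, G3p6_4, G3p6_5, G3p8_7, G3p9_7,
  G3p9_8]⟩))))) (.node 728 (.node 724 (.node 722 (.node 721 (.leaf ⟨1166432402,
  38000331182389744241729,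
  1130806277623037390262119169679356317546181249997145341354336310005364162700, 284773, [G3p0_2,
  G3p0_3, G3p0_7, G3p1_2, G3p1_3, G3p1_7, G3p3_2, G3p4_7, G3p5_4, G3p5_7, G3p6_4, G3p6_5, G3p6_7,
  G3p8_7, G3p8_9, G3p9_7]⟩) (.leaf ⟨428218514, 79247250931376066792513,
  1583105322713609394026586179463589045513860683043775842752768805708443287566, 104545, [G3p0_1,
  G3p0_2, G3p0_3, G3p0_7, G3p0_8, G3p0_9, G3p2_1, G3p3_1, G3p3_2, G3p5_4, G3p6_4, G3p6_5, G3p8_7,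
  G3p9_7, G3p9_8]⟩)) (.node 723 (.leaf ⟨421664902, 79249554447887395557542,
  1583105322713609105284695543468551069919867845836282639101697624245205598210, 102945, [G3p0_1,
  G3p0_7, G3p0_8, G3p0_9, G3p2_1, G3p2_3, G3p3_1, G3p4_1, G3p4_5, G3p4_6, G3p5_1, G3p5_6, G3p6_1,
  G3p8_7, G3p9_7, G3p9_8]⟩) (.leaf ⟨427956518, 274235286096692707986499,
  1583105322713609394026586179485979339420070219400618649044503281364097957890, 104481, [G3p0_1,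
  G3p0_7, G3p0_8, G3p0_9, G3p2_1, G3p2_3, G3p2_4, G3p2_5, G3p2_6, G3p2_7, G3p2_8, G3p2_9, G3p3_1,
  G3p3_4, G3p3_5, G3p3_6, G3p3_7, G3p3_8, G3p3_9, G3p5_4, G3p6_4, G3p6_5, G3p8_7, G3p9_7,
  G3p9_8]⟩))) (.node 726 (.node 725 (.leaf ⟨420583716, 352230202921015135376515,
  1583105322713609092817654016417868893716403002274982752731413496604938732481, 102681, [G3p0_7,
  G3p0_8, G3p0_9, G3p1_0, G3p1_6, G3p1_7, G3p1_8, G3p1_9, G3p2_0, G3p2_1, G3p2_6, G3p2_7, G3p2_8,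
  G3p2_9, G3p3_0, G3p3_1, G3p3_2, G3p3_6, G3p3_7, G3p3_8, G3p3_9, G3p4_6, G3p4_7, G3p4_8, G3p4_9,
  G3p5_4, G3p5_6, G3p5_7, G3p5_8, G3p5_9, G3p8_7, G3p9_7, G3p9_8]⟩) (.leaf ⟨420632868,
  352230203027630182306944,
  1583105322713609092817654016417712790201482237783128203124291830692859347919, 102693, [G3p0_7,
  G3p0_8, G3p0_9, G3p1_2, G3p1_3, G3p1_6, G3p1_7, G3p1_8, G3p1_9, G3p2_3, G3p2_6, G3p2_7, G3p2_8,
  G3p2_9, G3p3_6, G3p3_7, G3p3_8, G3p3_9, G3p4_6, G3p4_7, G3p4_8, G3p4_9, G3p5_4, G3p5_6, G3p5_7,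
  G3p5_8, G3p5_9, G3p8_7, G3p9_7, G3p9_8]⟩)) (.node 727 (.leaf ⟨420895010, 235237493386097754998881,
  1583105322713609092818803405590062013007974957272512664039913068052295188492, 102757, [G3p0_2,
  G3p0_3, G3p0_7, G3p0_8, G3p0_9, G3p1_2, G3p1_3, G3p3_2, G3p4_2, G3p4_3, G3p4_6, G3p4_7, G3p4_8,
  G3p4_9, G3p5_2, G3p5_3, G3p5_4, G3p5_6, G3p5_7, G3p5_8, G3p5_9, G3p8_7, G3p9_7, G3p9_8]⟩) (.leaf
  ⟨420878626, 235237493386303913429089,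
  1583105322713609092818994970455718125947975074742590023580712270580708933646, 102753, [G3p0_1,
  G3p0_2, G3p0_3, G3p0_7, G3p0_8, G3p0_9, G3p2_1, G3p3_1, G3p3_2, G3p4_1, G3p4_2, G3p4_3, G3p4_6,
  G3p4_7, G3p4_8, G3p4_9, G3p5_1, G3p5_2, G3p5_3, G3p5_4, G3p5_6, G3p5_7, G3p5_8, G3p5_9, G3p8_7,
  G3p9_7, G3p9_8]⟩)))) (.node 732 (.node 730 (.node 729 (.leaf ⟨420616486, 274235063168511153146947,
  1583105322713609092817654016417757392367397120483248674061183375034493829122, 102689, [G3p0_1,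
  G3p0_7, G3p0_8, G3p0_9, G3p2_1, G3p2_3, G3p2_6, G3p2_7, G3p2_8, G3p2_9, G3p3_1, G3p3_6, G3p3_7,
  G3p3_8, G3p3_9, G3p4_6, G3p4_7, G3p4_8, G3p4_9, G3p5_4, G3p5_6, G3p5_7, G3p5_8, G3p5_9, G3p8_7,
  G3p9_7, G3p9_8]⟩) (.leaf ⟨440686690, 79259075338768475168002,
  1795130205729980407076707749225143169720532275344726865808437268289778352136, 107589, [G3p0_3,
  G3p0_4, G3p0_5, G3p0_6, G3p0_7, G3p0_8, G3p0_9, G3p1_3, G3p2_1, G3p2_3, G3p4_5, G3p4_6, G3p5_6,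
  G3p7_3, G3p7_4, G3p7_5, G3p7_6, G3p8_3, G3p8_4, G3p8_5, G3p8_6, G3p8_7, G3p9_3, G3p9_4, G3p9_5,
  G3p9_6, G3p9_7, G3p9_8]⟩)) (.node 731 (.leaf ⟨440686866, 235235222440522455027810,
  1583105322713614717099276474089454651413238185330276807397784897420995854344, 107589, [G3p0_3,
  G3p0_7, G3p0_8, G3p0_9, G3p1_3, G3p2_1, G3p2_3, G3p4_5, G3p4_6, G3p4_7, G3p4_8, G3p4_9, G3p5_6,
  G3p5_7, G3p5_8, G3p5_9, G3p6_7, G3p6_8, G3p6_9, G3p8_7, G3p9_7, G3p9_8]⟩) (.leaf ⟨440997986,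
  79259075166179509345537,
  1780995213528888986120280599798769186391208349883517578002835221349654331406, 107665, [G3p0_1,
  G3p0_2, G3p0_3, G3p0_4, G3p0_5, G3p0_6, G3p0_7, G3p0_8, G3p0_9, G3p1_2, G3p1_3, G3p2_3, G3p4_5,
  G3p4_6, G3p5_6, G3p7_4, G3p7_5, G3p7_6, G3p8_4, G3p8_5, G3p8_6, G3p8_7, G3p9_4, G3p9_5, G3p9_6,
  G3p9_7, G3p9_8]⟩))) (.node 734 (.node 733 (.leaf ⟨440998162, 235235222443855349651617,
  1583105322713614717099276474089454650732694221151202994867135830104039489550, 107665, [G3p0_1,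
  G3p0_2, G3p0_3, G3p0_7, G3p0_8, G3p0_9, G3p1_2, G3p1_3, G3p2_3, G3p4_5, G3p4_6, G3p4_7, G3p4_8,
  G3p4_9, G3p5_6, G3p5_7, G3p5_8, G3p5_9, G3p6_7, G3p6_8, G3p6_9, G3p8_7, G3p9_7, G3p9_8]⟩) (.leaf
  ⟨440506660, 469220864589064489440387,
  1583105322713614717099276474112090248417593544199905550624549353956135928817, 107545, [G3p0_7,
  G3p0_8, G3p0_9, G3p1_0, G3p1_4, G3p1_5, G3p1_6, G3p1_7, G3p1_8, G3p1_9, G3p2_0, G3p2_1, G3p2_4,
  G3p2_5, G3p2_6, G3p2_7, G3p2_8, G3p2_9, G3p3_0, G3p3_1, G3p3_2, G3p3_4, G3p3_5, G3p3_6, G3p3_7,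
  G3p3_8, G3p3_9, G3p4_5, G3p4_6, G3p4_7, G3p4_8, G3p4_9, G3p5_6, G3p5_7, G3p5_8, G3p5_9, G3p6_7,
  G3p6_8, G3p6_9, G3p8_7, G3p9_7, G3p9_8]⟩)) (.node 735 (.leaf ⟨440506648, 469213724349771190210729,
  1583105322713614811257239241401890315148247553523011888724885040955139228545, 107545, [G3p0_7,
  G3p0_8, G3p0_9, G3p1_0, G3p1_7, G3p1_8, G3p1_9, G3p2_0, G3p2_1, G3p2_7, G3p2_8, G3p2_9, G3p3_0,
  G3p3_1, G3p3_2, G3p3_7, G3p3_8, G3p3_9, G3p4_0, G3p4_1, G3p4_2, G3p4_3, G3p4_5, G3p4_6, G3p4_7,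
  G3p4_8, G3p4_9, G3p5_0, G3p5_1, G3p5_2, G3p5_3, G3p5_6, G3p5_7, G3p5_8, G3p5_9, G3p6_0, G3p6_1,
  G3p6_2, G3p6_3, G3p6_7, G3p6_8, G3p6_9, G3p8_7, G3p9_7, G3p9_8]⟩) (.leaf ⟨1178703972,
  38050238838781822345347,
  1328696168392242051269537539945475827310253824721538034269391706187614912753, 287769, [G3p0_4,
  G3p0_5, G3p0_6, G3p0_7, G3p1_0, G3p1_4, G3p1_5, G3p1_6, G3p1_7, G3p2_0, G3p2_1, G3p2_4, G3p2_5,
  G3p2_6, G3p2_7, G3p3_0, G3p3_1, G3p3_2, G3p3_4, G3p3_5, G3p3_6, G3p3_7, G3p4_5, G3p4_6, G3p5_6,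
  G3p8_4, G3p8_5, G3p8_6, G3p8_7, G3p8_9, G3p9_4, G3p9_5, G3p9_6, G3p9_7]⟩)))))) (.node 752 (.node
  744 (.node 740 (.node 738 (.node 737 (.leaf ⟨440506468, 235249503215341530328195,
  1780995213528888986120280599821404784076107672932220133760248740872365016049, 107545, [G3p0_4,
  G3p0_5, G3p0_6, G3p0_7, G3p0_8, G3p0_9, G3p1_0, G3p1_4, G3p1_5, G3p1_6, G3p1_7, G3p1_8, G3p1_9,
  G3p2_0, G3p2_1, G3p2_4, G3p2_5, G3p2_6, G3p2_7, G3p2_8, G3p2_9, G3p3_0, G3p3_1, G3p3_2, G3p3_4,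
  G3p3_5, G3p3_6, G3p3_7, G3p3_8, G3p3_9, G3p4_5, G3p4_6, G3p5_6, G3p7_4, G3p7_5, G3p7_6, G3p8_4,
  G3p8_5, G3p8_6, G3p8_7, G3p9_4, G3p9_5, G3p9_6, G3p9_7, G3p9_8]⟩) (.leaf ⟨440555620,
  118256682177885899038848,
  1780995213528888986120280599801266907965650410959439111842022559475628508159, 107557, [G3p0_4,
  G3p0_5, G3p0_6, G3p0_7, G3p0_8, G3p0_9, G3p1_2, G3p1_3, G3p1_4, G3p1_5, G3p1_6, G3p2_3, G3p2_4,
  G3p2_5, G3p2_6, G3p3_4, G3p3_5, G3p3_6, G3p4_5, G3p4_6, G3p5_6, G3p7_4, G3p7_5, G3p7_6, G3p8_4,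
  G3p8_5, G3p8_6, G3p8_7, G3p9_4, G3p9_5, G3p9_6, G3p9_7, G3p9_8]⟩)) (.node 739 (.leaf ⟨1178753124,
  37935988252349910094976,
  1328696168392242051269537539942465184853113560589551131474969395206298796287, 287781, [G3p0_4,
  G3p0_5, G3p0_6, G3p0_7, G3p1_2, G3p1_3, G3p1_4, G3p1_5, G3p1_6, G3p2_3, G3p2_4, G3p2_5, G3p2_6,
  G3p3_4, G3p3_5, G3p3_6, G3p4_5, G3p4_6, G3p5_6, G3p8_4, G3p8_5, G3p8_6, G3p8_7, G3p8_9, G3p9_4,
  G3p9_5, G3p9_6, G3p9_7]⟩) (.leaf ⟨1175558212, 38046745171370889674883,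
  1328696168392242352565823211579397641086390950054331138868426936125189259505, 287001, [G3p0_4,
  G3p0_5, G3p0_6, G3p0_7, G3p1_0, G3p1_4, G3p1_5, G3p1_6, G3p1_7, G3p2_0, G3p2_1, G3p2_4, G3p2_5,
  G3p2_6, G3p2_7, G3p3_0, G3p3_1, G3p3_2, G3p3_4, G3p3_5, G3p3_6, G3p3_7, G3p5_4, G3p6_4, G3p6_5,
  G3p8_4, G3p8_5, G3p8_6, G3p8_7, G3p8_9, G3p9_4, G3p9_5, G3p9_6, G3p9_7]⟩))) (.node 742 (.node 741
  (.leaf ⟨1175607364, 37932494584938977427584,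
  1328696168392242352565823211573889277054808623737228427035116560708291002623, 287013, [G3p0_4,
  G3p0_5, G3p0_6, G3p0_7, G3p1_2, G3p1_3, G3p2_3, G3p5_4, G3p6_4, G3p6_5, G3p8_4, G3p8_5, G3p8_6,
  G3p8_7, G3p8_9, G3p9_4, G3p9_5, G3p9_6, G3p9_7]⟩) (.leaf ⟨437409860, 118253188510474966368384,
  1780995213528889287416566271432691000167345474107116407402169724977620714495, 106789, [G3p0_4,
  G3p0_5, G3p0_6, G3p0_7, G3p0_8, G3p0_9, G3p1_2, G3p1_3, G3p2_3, G3p5_4, G3p6_4, G3p6_5, G3p7_4,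
  G3p7_5, G3p7_6, G3p8_4, G3p8_5, G3p8_6, G3p8_7, G3p9_4, G3p9_5, G3p9_6, G3p9_7, G3p9_8]⟩)) (.node
  743 (.leaf ⟨440555800, 352224473540920160129190,
  1583105322713614811257239241381752439037790291550230866806658859558402720655, 107557, [G3p0_7,
  G3p0_8, G3p0_9, G3p1_2, G3p1_3, G3p2_3, G3p4_0, G3p4_1, G3p4_2, G3p4_3, G3p4_5, G3p4_6, G3p4_7,
  G3p4_8, G3p4_9, G3p5_0, G3p5_1, G3p5_2, G3p5_3, G3p5_6, G3p5_7, G3p5_8, G3p5_9, G3p6_0, G3p6_1,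
  G3p6_2, G3p6_3, G3p6_7, G3p6_8, G3p6_9, G3p8_7, G3p9_7, G3p9_8]⟩) (.leaf ⟨437360708,
  235246009547930597654659,
  1780995213528889287416566271455326597852244798265013238359283970809939362801, 106777, [G3p0_4,
  G3p0_5, G3p0_6, G3p0_7, G3p0_8, G3p0_9, G3p1_0, G3p1_4, G3p1_5, G3p1_6, G3p1_7, G3p1_8, G3p1_9,
  G3p2_0, G3p2_1, G3p2_4, G3p2_5, G3p2_6, G3p2_7, G3p2_8, G3p2_9, G3p3_0, G3p3_1, G3p3_2, G3p3_4,
  G3p3_5, G3p3_6, G3p3_7, G3p3_8, G3p3_9, G3p5_4, G3p6_4, G3p6_5, G3p7_4, G3p7_5, G3p7_6, G3p8_4,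
  G3p8_5, G3p8_6, G3p8_7, G3p9_4, G3p9_5, G3p9_6, G3p9_7, G3p9_8]⟩)))) (.node 748 (.node 746 (.node
  745 (.leaf ⟨440555812, 469220864695679536370816,
  1583105322713614717099276474111934144902672779708051001017427688044056544255, 107557, [G3p0_7,
  G3p0_8, G3p0_9, G3p1_2, G3p1_3, G3p1_4, G3p1_5, G3p1_6, G3p1_7, G3p1_8, G3p1_9, G3p2_3, G3p2_4,
  G3p2_5, G3p2_6, G3p2_7, G3p2_8, G3p2_9, G3p3_4, G3p3_5, G3p3_6, G3p3_7, G3p3_8, G3p3_9, G3p4_5,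
  G3p4_6, G3p4_7, G3p4_8, G3p4_9, G3p5_6, G3p5_7, G3p5_8, G3p5_9, G3p6_7, G3p6_8, G3p6_9, G3p8_7,
  G3p9_7, G3p9_8]⟩) (.leaf ⟨440473702, 79259075026575892356130,
  1780995213528888986120280599801400671602334489038017506316867923834236698630, 107537, [G3p0_1,
  G3p0_2, G3p0_4, G3p0_5, G3p0_6, G3p0_7, G3p0_8, G3p0_9, G3p1_2, G3p3_1, G3p3_2, G3p3_4, G3p3_5,
  G3p3_6, G3p4_5, G3p4_6, G3p5_6, G3p7_4, G3p7_5, G3p7_6, G3p8_4, G3p8_5, G3p8_6, G3p8_7, G3p9_4,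
  G3p9_5, G3p9_6, G3p9_7, G3p9_8]⟩)) (.node 747 (.leaf ⟨440473894, 352228043448322410874914,
  1583105322713614717099276474112067603641703798640518926753461468827366064134, 107537, [G3p0_1,
  G3p0_2, G3p0_7, G3p0_8, G3p0_9, G3p1_2, G3p3_1, G3p3_2, G3p3_4, G3p3_5, G3p3_6, G3p3_7, G3p3_8,
  G3p3_9, G3p4_5, G3p4_6, G3p4_7, G3p4_8, G3p4_9, G3p5_6, G3p5_7, G3p5_8, G3p5_9, G3p6_7, G3p6_8,
  G3p6_9, G3p8_7, G3p9_7, G3p9_8]⟩) (.leaf ⟨1179146338, 37935988145730568197315,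
  1328696168392242051269537539940101265708106173055351338033927210393185288192, 287877, [G3p0_4,
  G3p0_5, G3p0_6, G3p0_7, G3p2_1, G3p3_1, G3p3_2, G3p4_5, G3p4_6, G3p5_6, G3p8_4, G3p8_5, G3p8_6,
  G3p8_7, G3p8_9, G3p9_4, G3p9_5, G3p9_6, G3p9_7]⟩))) (.node 750 (.node 749 (.leaf ⟨440948834,
  79259075023242997734659,
  1780995213528888986120280599798902988820643023425239318400980374662514999296, 107653, [G3p0_4,
  G3p0_5, G3p0_6, G3p0_7, G3p0_8, G3p0_9, G3p2_1, G3p3_1, G3p3_2, G3p4_5, G3p4_6, G3p5_6, G3p7_4,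
  G3p7_5, G3p7_6, G3p8_4, G3p8_5, G3p8_6, G3p8_7, G3p9_4, G3p9_5, G3p9_6, G3p9_7, G3p9_8]⟩) (.leaf
  ⟨440949010, 235235222300918838039683,
  1583105322713614717099276474089588453162128894692924735265280983416900157440, 107653, [G3p0_7,
  G3p0_8, G3p0_9, G3p2_1, G3p3_1, G3p3_2, G3p4_5, G3p4_6, G3p4_7, G3p4_8, G3p4_9, G3p5_6, G3p5_7,
  G3p5_8, G3p5_9, G3p6_7, G3p6_8, G3p6_9, G3p8_7, G3p9_7, G3p9_8]⟩)) (.node 751 (.leaf ⟨1179015266,
  37935988399649034736833,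
  1349898656688942669032214645953152729962704576888486713088875845729821392908, 287845, [G3p0_2,
  G3p0_3, G3p0_4, G3p0_5, G3p0_6, G3p0_7, G3p1_2, G3p1_3, G3p3_2, G3p4_5, G3p4_6, G3p5_6, G3p8_2,
  G3p8_3, G3p8_4, G3p8_5, G3p8_6, G3p8_7, G3p8_9, G3p9_2, G3p9_3, G3p9_4, G3p9_5, G3p9_6, G3p9_7]⟩)
  (.leaf ⟨440817762, 79259075349729231707393,
  1802197701830526117554921323938419360622913478773322901052829749589196931084, 107621, [G3p0_2,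
  G3p0_3, G3p0_4, G3p0_5, G3p0_6, G3p0_7, G3p0_8, G3p0_9, G3p1_2, G3p1_3, G3p3_2, G3p4_5, G3p4_6,
  G3p5_6, G3p7_2, G3p7_3, G3p7_4, G3p7_5, G3p7_6, G3p8_2, G3p8_3, G3p8_4, G3p8_5, G3p8_6, G3p8_7,
  G3p9_2, G3p9_3, G3p9_4, G3p9_5, G3p9_6, G3p9_7, G3p9_8]⟩))))) (.node 760 (.node 756 (.node 754
  (.node 753 (.leaf ⟨420586628, 1255536023290220973286,
  1584872196738745627062211539289549787922566771465470923532652863258659651584, 102682, [G3p2_1,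
  G3p3_1, G3p3_2, G3p5_0, G3p5_4, G3p5_6, G3p6_0, G3p6_4, G3p7_0, G3p8_0, G3p8_7, G3p9_0, G3p9_7,
  G3p9_8]⟩) (.leaf ⟨440801554, 235235222409873568403521,
  1583105322713614717099276474089588453162128895802119010464981709726516379662, 107617, [G3p0_1,
  G3p0_2, G3p0_3, G3p0_7, G3p0_8, G3p0_9, G3p2_1, G3p3_1, G3p3_2, G3p4_5, G3p4_6, G3p4_7, G3p4_8,
  G3p4_9, G3p5_6, G3p5_7, G3p5_8, G3p5_9, G3p6_7, G3p6_8, G3p6_9, G3p8_7, G3p9_7, G3p9_8]⟩)) (.node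
  755 (.leaf ⟨440801378, 79259075350107188829441,
  1805731449880798972794028111295057458456007956778170675331848815312674619406, 107617, [G3p0_1,
  G3p0_2, G3p0_3, G3p0_4, G3p0_5, G3p0_6, G3p0_7, G3p0_8, G3p0_9, G3p2_1, G3p3_1, G3p3_2, G3p4_5,
  G3p4_6, G3p5_6, G3p7_1, G3p7_2, G3p7_3, G3p7_4, G3p7_5, G3p7_6, G3p8_1, G3p8_2, G3p8_3, G3p8_4,
  G3p8_5, G3p8_6, G3p8_7, G3p9_1, G3p9_2, G3p9_3, G3p9_4, G3p9_5, G3p9_6, G3p9_7, G3p9_8]⟩) (.leaf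
  ⟨1175590982, 37932494512473215467587,
  1328696168392242352565823211573933879225708111421542332495397381534566711298, 287009, [G3p0_1,
  G3p0_4, G3p0_5, G3p0_6, G3p0_7, G3p2_1, G3p2_3, G3p3_1, G3p5_4, G3p6_4, G3p6_5, G3p8_4, G3p8_5,
  G3p8_6, G3p8_7, G3p8_9, G3p9_4, G3p9_5, G3p9_6, G3p9_7]⟩))) (.node 758 (.node 757 (.leaf
  ⟨437393478, 79255581389985645002819,
  1780995213528889287416566271432735602338244961791430312862450545803896422402, 106785, [G3p0_1,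
  G3p0_4, G3p0_5, G3p0_6, G3p0_7, G3p0_8, G3p0_9, G3p2_1, G3p2_3, G3p3_1, G3p5_4, G3p6_4, G3p6_5,
  G3p7_4, G3p7_5, G3p7_6, G3p8_4, G3p8_5, G3p8_6, G3p8_7, G3p9_4, G3p9_5, G3p9_6, G3p9_7, G3p9_8]⟩)
  (.leaf ⟨1178736742, 37935988179884148134979,
  1328696168392242051269537539942509787023431511025709136240854800435111919618, 287777, [G3p0_1,
  G3p0_4, G3p0_5, G3p0_6, G3p0_7, G3p2_1, G3p2_3, G3p2_4, G3p2_5, G3p2_6, G3p3_1, G3p3_4, G3p3_5,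
  G3p3_6, G3p4_5, G3p4_6, G3p5_6, G3p8_4, G3p8_5, G3p8_6, G3p8_7, G3p8_9, G3p9_4, G3p9_5, G3p9_6,
  G3p9_7]⟩)) (.node 759 (.leaf ⟨440539238, 79259075057396577672259,
  1780995213528888986120280599801311510135968361395597116607907964704441630722, 107553, [G3p0_1,
  G3p0_4, G3p0_5, G3p0_6, G3p0_7, G3p0_8, G3p0_9, G3p2_1, G3p2_3, G3p2_4, G3p2_5, G3p2_6, G3p3_1,
  G3p3_4, G3p3_5, G3p3_6, G3p4_5, G3p4_6, G3p5_6, G3p7_4, G3p7_5, G3p7_6, G3p8_4, G3p8_5, G3p8_6,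
  G3p8_7, G3p9_4, G3p9_5, G3p9_6, G3p9_7, G3p9_8]⟩) (.leaf ⟨440539430, 391225650527166655597635,
  1583105322713614717099276474111978747068338432158961800228149768561888460802, 107553, [G3p0_1,
  G3p0_7, G3p0_8, G3p0_9, G3p2_1, G3p2_3, G3p2_4, G3p2_5, G3p2_6, G3p2_7, G3p2_8, G3p2_9, G3p3_1,
  G3p3_4, G3p3_5, G3p3_6, G3p3_7, G3p3_8, G3p3_9, G3p4_5, G3p4_6, G3p4_7, G3p4_8, G3p4_9, G3p5_6,
  G3p5_7, G3p5_8, G3p5_9, G3p6_7, G3p6_8, G3p6_9, G3p8_7, G3p9_7, G3p9_8]⟩)))) (.node 764 (.node 762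
  (.node 761 (.leaf ⟨1147426888, 38037224595912208387139,
  1130806277623036586780836888787914099281430241765471650690157414643759513731, 280133, [G3p0_7,
  G3p2_0, G3p2_1, G3p2_3, G3p2_7, G3p3_0, G3p3_1, G3p3_7, G3p5_4, G3p6_4, G3p6_5, G3p8_7, G3p8_9,
  G3p9_7]⟩) (.leaf ⟨1150572642, 37928847933678105531586,
  1144941269820836747543916097049027042034284976085324307641826737787071102984, 280901, [G3p0_3,
  G3p0_7, G3p1_3, G3p2_1, G3p2_3, G3p4_3, G3p4_5, G3p4_6, G3p5_3, G3p5_6, G3p6_3, G3p8_3, G3p8_7,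
  G3p8_9, G3p9_3, G3p9_7]⟩)) (.node 763 (.leaf ⟨412375138, 79249554729156213939458,
  1597240314914700563904307799811799566400330713325661155502406825609336979464, 100677, [G3p0_3,
  G3p0_7, G3p0_8, G3p0_9, G3p1_3, G3p2_1, G3p2_3, G3p4_3, G3p4_5, G3p4_6, G3p5_3, G3p5_6, G3p6_3,
  G3p7_3, G3p8_3, G3p8_7, G3p9_3, G3p9_7, G3p9_8]⟩) (.leaf ⟨409229384, 235232918743867318406211,
  1583105322713609394026586179483503918931690591849282398324562791973957862275, 99909, [G3p0_7,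
  G3p0_8, G3p0_9, G3p2_0, G3p2_1, G3p2_3, G3p2_7, G3p2_8, G3p2_9, G3p3_0, G3p3_1, G3p3_7, G3p3_8,
  G3p3_9, G3p5_4, G3p6_4, G3p6_5, G3p8_7, G3p9_7, G3p9_8]⟩))) (.node 766 (.node 765 (.leaf
  ⟨409491524, 118243667975835654261888,
  1583105322713609481907351428936400314598617015342255571549672973870406960015, 99973, [G3p0_7,
  G3p0_8, G3p0_9, G3p2_1, G3p3_1, G3p3_2, G3p4_1, G3p4_2, G3p4_3, G3p5_1, G3p5_2, G3p5_3, G3p5_4,
  G3p6_1, G3p6_2, G3p6_3, G3p6_4, G3p6_5, G3p8_7, G3p9_7, G3p9_8]⟩) (.leaf ⟨409229458,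
  79254391419234150420578,
  1583105322713609394026586179463455281877176613838751649875560777505192804472, 99909, [G3p0_3,
  G3p0_4, G3p0_5, G3p0_6, G3p0_7, G3p0_8, G3p0_9, G3p1_3, G3p1_4, G3p1_5, G3p1_6, G3p2_1, G3p2_3,
  G3p2_4, G3p2_5, G3p2_6, G3p5_4, G3p6_4, G3p6_5, G3p8_7, G3p9_7, G3p9_8]⟩)) (.node 767 (.leaf
  ⟨1147689028, 37926544278904263281792,
  1130806277623036674661602138257937728597685979111884195420360045774838300815, 280197, [G3p0_7,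
  G3p2_1, G3p3_1, G3p3_2, G3p4_1, G3p4_2, G3p4_3, G3p5_1, G3p5_2, G3p5_3, G3p5_4, G3p6_1, G3p6_2,
  G3p6_3, G3p6_4, G3p6_5, G3p8_7, G3p8_9, G3p9_7]⟩) (.leaf ⟨412686406, 79250744669087024218146,
  1583105322713609092730300507829533429308288883060066722555887696689551507470, 100753, [G3p0_1,
  G3p0_2, G3p0_3, G3p0_7, G3p0_8, G3p0_9, G3p1_2, G3p1_3, G3p2_3, G3p4_5, G3p4_6, G3p5_6, G3p8_7,
  G3p9_7, G3p9_8]⟩))))))

def G3T13 : Tr :=
  .node 800 (.node 784 (.node 776 (.node 772 (.node 770 (.node 769 (.leaf ⟨409540678,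
  79247251110630821923973,
  1583105322713609481907351428936266512169182341800533831151527820557546291214, 99985, [G3p0_1,
  G3p0_2, G3p0_3, G3p0_7, G3p0_8, G3p0_9, G3p1_2, G3p1_3, G3p2_3, G3p4_1, G3p4_2, G3p4_3, G3p5_1,
  G3p5_2, G3p5_3, G3p5_4, G3p6_1, G3p6_2, G3p6_3, G3p6_4, G3p6_5, G3p8_7, G3p9_7, G3p9_8]⟩) (.leaf
  ⟨409540754, 79256771574970112514209,
  1583105322713609394026586179465952964658868079451529837791448326676906246270, 99985, [G3p0_1,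
  G3p0_2, G3p0_3, G3p0_4, G3p0_5, G3p0_6, G3p0_7, G3p0_8, G3p0_9, G3p1_2, G3p1_3, G3p1_4, G3p1_5,
  G3p1_6, G3p2_3, G3p2_4, G3p2_5, G3p2_6, G3p3_4, G3p3_5, G3p3_6, G3p5_4, G3p6_4, G3p6_5, G3p8_7,
  G3p9_7, G3p9_8]⟩)) (.node 771 (.leaf ⟨1150441540, 37930037871342246822016,
  1130806277623036285484551217151070843307357845720501071226874042224237084815, 280869, [G3p0_7,
  G3p1_2, G3p1_3, G3p2_3, G3p4_5, G3p4_6, G3p5_6, G3p8_7, G3p8_9, G3p9_7]⟩) (.leaf ⟨1147295812,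
  37926544203931314162816,
  1130806277623036586780836888784992657083494971053294175825909271680782434447, 280101, [G3p0_7,
  G3p1_2, G3p1_3, G3p2_3, G3p5_4, G3p6_4, G3p6_5, G3p8_7, G3p8_9, G3p9_7]⟩))) (.node 774 (.node 773
  (.leaf ⟨1150392388, 38040718229169561108611,
  1130806277623036285484551217154081485764498109852487974021296353205553201281, 280857, [G3p0_7,
  G3p1_0, G3p1_7, G3p2_0, G3p2_1, G3p2_7, G3p3_0, G3p3_1, G3p3_2, G3p3_7, G3p4_5, G3p4_6, G3p5_6,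
  G3p8_7, G3p8_9, G3p9_7]⟩) (.leaf ⟨1147246660, 38037224561758628449411,
  1130806277623036586780836888788003299540635235185281078620331582662098550913, 280089, [G3p0_7,
  G3p1_0, G3p1_7, G3p2_0, G3p2_1, G3p2_7, G3p3_0, G3p3_1, G3p3_2, G3p3_7, G3p5_4, G3p6_4, G3p6_5,
  G3p8_7, G3p8_9, G3p9_7]⟩)) (.node 775 (.leaf ⟨412244036, 118247161568273637802112,
  1583105322713609092730300507829533429308288881950872447356186970319805744015, 100645, [G3p0_7,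
  G3p0_8, G3p0_9, G3p1_2, G3p1_3, G3p2_3, G3p4_5, G3p4_6, G3p5_6, G3p8_7, G3p9_7, G3p9_8]⟩) (.leaf
  ⟨412194884, 235236412377124671127683,
  1583105322713609092730300507849671305418746143923653469274413151716542251905, 100633, [G3p0_7,
  G3p0_8, G3p0_9, G3p1_0, G3p1_7, G3p1_8, G3p1_9, G3p2_0, G3p2_1, G3p2_7, G3p2_8, G3p2_9, G3p3_0,
  G3p3_1, G3p3_2, G3p3_7, G3p3_8, G3p3_9, G3p4_5, G3p4_6, G3p5_6, G3p8_7, G3p9_7, G3p9_8]⟩))))
  (.node 780 (.node 778 (.node 777 (.leaf ⟨409049156, 235232918709713738468483,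
  1583105322713609394026586179483593119194883269256446573873448381173087601537, 99865, [G3p0_7,
  G3p0_8, G3p0_9, G3p1_0, G3p1_7, G3p1_8, G3p1_9, G3p2_0, G3p2_1, G3p2_7, G3p2_8, G3p2_9, G3p3_0,
  G3p3_1, G3p3_2, G3p3_7, G3p3_8, G3p3_9, G3p5_4, G3p6_4, G3p6_5, G3p8_7, G3p9_7, G3p9_8]⟩) (.leaf
  ⟨409098308, 118243667900862705142912,
  1583105322713609394026586179463455243084426007283665551955222199776351093647, 99877, [G3p0_7,
  G3p0_8, G3p0_9, G3p1_2, G3p1_3, G3p2_3, G3p5_4, G3p6_4, G3p6_5, G3p8_7, G3p9_7, G3p9_8]⟩)) (.node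
  779 (.leaf ⟨409016390, 79247250829155845213317,
  1583105322713609431689771286380508160155355146358796613878106823998262607878, 99857, [G3p0_1,
  G3p0_2, G3p0_7, G3p0_8, G3p0_9, G3p1_2, G3p3_1, G3p3_2, G3p4_1, G3p4_2, G3p5_1, G3p5_2, G3p5_4,
  G3p6_1, G3p6_2, G3p6_4, G3p6_5, G3p8_7, G3p9_7, G3p9_8]⟩) (.leaf ⟨412162118,
  79250744493165163773986,
  1583105322713609092730300507829667231057179592422714650423383782651096072198, 100625, [G3p0_1,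
  G3p0_2, G3p0_7, G3p0_8, G3p0_9, G3p1_2, G3p3_1, G3p3_2, G3p4_5, G3p4_6, G3p5_6, G3p8_7, G3p9_7,
  G3p9_8]⟩))) (.node 782 (.node 781 (.leaf ⟨1150834756, 37930037837360465575968,
  1130806277623036285484551217151204645736792520371417086824719921906843517071, 280965, [G3p0_7,
  G3p2_1, G3p3_1, G3p3_2, G3p4_5, G3p4_6, G3p5_6, G3p8_7, G3p8_9, G3p9_7]⟩) (.leaf ⟨412637252,
  118247161534291856556064,
  1583105322713609092730300507829667231737723556601788462954032850002412176271, 100741, [G3p0_7,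
  G3p0_8, G3p0_9, G3p2_1, G3p3_1, G3p3_2, G3p4_5, G3p4_6, G3p5_6, G3p8_7, G3p9_7, G3p9_8]⟩)) (.node
  783 (.leaf ⟨409491602, 79255581355832067167363,
  1583105322713609394026586179466086767088302752993251578189593479989766914160, 99973, [G3p0_4,
  G3p0_5, G3p0_6, G3p0_7, G3p0_8, G3p0_9, G3p1_4, G3p1_5, G3p1_6, G3p2_1, G3p2_4, G3p2_5, G3p2_6,
  G3p3_1, G3p3_2, G3p3_4, G3p3_5, G3p3_6, G3p5_4, G3p6_4, G3p6_5, G3p8_7, G3p9_7, G3p9_8]⟩) (.leaf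
  ⟨1147279430, 37926544131534271679621,
  1130806277623036599335231924424010297695073934938704367571419363137265205250, 280097, [G3p0_1,
  G3p0_7, G3p2_1, G3p2_3, G3p3_1, G3p4_1, G3p5_1, G3p5_4, G3p6_1, G3p6_4, G3p6_5, G3p8_7, G3p8_9,
  G3p9_7]⟩))))) (.node 792 (.node 788 (.node 786 (.node 785 (.leaf ⟨1150425158,
  37930037798876484862019,
  1130806277623036285484551217151115445478257333404814976687154863050512793602, 280865, [G3p0_1,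
  G3p0_7, G3p2_1, G3p2_3, G3p3_1, G3p4_5, G3p4_6, G3p5_6, G3p8_7, G3p8_9, G3p9_7]⟩) (.leaf
  ⟨409081926, 79247250856643635907717,
  1583105322713609406580981215102472883696004971169075743700732291232833863682, 99873, [G3p0_1,
  G3p0_7, G3p0_8, G3p0_9, G3p2_1, G3p2_3, G3p3_1, G3p4_1, G3p5_1, G3p5_4, G3p6_1, G3p6_4, G3p6_5,
  G3p8_7, G3p9_7, G3p9_8]⟩)) (.node 787 (.leaf ⟨412227654, 79250744523985849090115,
  1583105322713609092730300507829578031479188369635186352816467791146081452034, 100641, [G3p0_1,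
  G3p0_7, G3p0_8, G3p0_9, G3p2_1, G3p2_3, G3p3_1, G3p4_5, G3p4_6, G3p5_6, G3p8_7, G3p9_7, G3p9_8]⟩)
  (.leaf ⟨1145329816, 38040789195017271968835,
  1130806277623036486345676958821027663165403555652115710465160077363451723907, 279621, [G3p0_7,
  G3p2_0, G3p2_1, G3p2_3, G3p2_7, G3p3_0, G3p3_1, G3p3_7, G3p4_0, G3p4_1, G3p4_5, G3p4_6, G3p4_7,
  G3p6_5, G3p8_7, G3p8_9, G3p9_7]⟩))) (.node 790 (.node 789 (.leaf ⟨407132306,
  79254382412034895679586,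
  1583105322713609293591426058039854349968266694290280050933140701913371115624, 99397, [G3p0_3,
  G3p0_5, G3p0_6, G3p0_7, G3p0_8, G3p0_9, G3p1_3, G3p1_5, G3p1_6, G3p2_1, G3p2_3, G3p2_5, G3p2_6,
  G3p4_5, G3p4_6, G3p6_5, G3p8_7, G3p9_7, G3p9_8]⟩) (.leaf ⟨407132258, 79247546123722406698242,
  1682050268121249390936857659768705738723280126501929433851212500835139846152, 99397, [G3p0_3,
  G3p0_4, G3p0_5, G3p0_7, G3p0_8, G3p0_9, G3p1_3, G3p2_1, G3p2_3, G3p4_5, G3p6_3, G3p6_4, G3p6_5,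
  G3p7_3, G3p7_4, G3p7_5, G3p8_3, G3p8_4, G3p8_5, G3p8_7, G3p9_3, G3p9_4, G3p9_5, G3p9_7, G3p9_8]⟩))
  (.node 791 (.leaf ⟨407443554, 79247545951133440875777,
  1667915275920157919763616627248885644707640815379388817226766898182739722254, 99473, [G3p0_1,
  G3p0_2, G3p0_3, G3p0_4, G3p0_5, G3p0_7, G3p0_8, G3p0_9, G3p1_2, G3p1_3, G3p2_3, G3p4_5, G3p6_4,
  G3p6_5, G3p7_4, G3p7_5, G3p8_4, G3p8_5, G3p8_7, G3p9_4, G3p9_5, G3p9_7, G3p9_8]⟩) (.leaf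
  ⟨407443602, 79256760315971044087969,
  1583105322713609293591426058041995220826781669932793667356665877300988870766, 99473, [G3p0_1,
  G3p0_2, G3p0_3, G3p0_5, G3p0_6, G3p0_7, G3p0_8, G3p0_9, G3p1_2, G3p1_3, G3p1_5, G3p1_6, G3p2_3,
  G3p2_5, G3p2_6, G3p3_5, G3p3_6, G3p4_5, G3p4_6, G3p6_5, G3p8_7, G3p9_7, G3p9_8]⟩)))) (.node 796
  (.node 794 (.node 793 (.leaf ⟨407001240, 235236483524391800472643,
  1583105322713609293591427389467845925072675520044479130430944168676542055311, 99365, [G3p0_7,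
  G3p0_8, G3p0_9, G3p1_2, G3p1_3, G3p2_3, G3p4_0, G3p4_1, G3p4_2, G3p4_3, G3p4_5, G3p4_6, G3p4_7,
  G3p4_8, G3p4_9, G3p6_5, G3p8_7, G3p9_7, G3p9_8]⟩) (.leaf ⟨406952088, 352225734333242833699910,
  1583105322713609293591427389487983801183132782017260152349170350073278563201, 99353, [G3p0_7,
  G3p0_8, G3p0_9, G3p1_0, G3p1_7, G3p1_8, G3p1_9, G3p2_0, G3p2_1, G3p2_7, G3p2_8, G3p2_9, G3p3_0,
  G3p3_1, G3p3_2, G3p3_7, G3p3_8, G3p3_9, G3p4_0, G3p4_1, G3p4_2, G3p4_3, G3p4_5, G3p4_6, G3p4_7,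
  G3p4_8, G3p4_9, G3p6_5, G3p8_7, G3p9_7, G3p9_8]⟩)) (.node 795 (.leaf ⟨1145591906,
  37926764773693713421507,
  1215616230809839057830012864064697230945456246630946351107996165039848423424, 279685, [G3p0_4,
  G3p0_5, G3p0_7, G3p2_1, G3p3_1, G3p3_2, G3p4_5, G3p6_4, G3p6_5, G3p8_4, G3p8_5, G3p8_7, G3p8_9,
  G3p9_4, G3p9_5, G3p9_7]⟩) (.leaf ⟨407394402, 79247545808196929264899,
  1667915275920157919763616627249019447137075488921110557624912051495600390144, 99461, [G3p0_4,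
  G3p0_5, G3p0_7, G3p0_8, G3p0_9, G3p2_1, G3p3_1, G3p3_2, G3p4_5, G3p6_4, G3p6_5, G3p7_4, G3p7_5,
  G3p8_4, G3p8_5, G3p8_7, G3p9_4, G3p9_5, G3p9_7, G3p9_8]⟩))) (.node 798 (.node 797 (.leaf
  ⟨406919270, 79247545811529823886370,
  1667915275920157919763616627250089882226060994652830459571350105530935148550, 99345, [G3p0_1,
  G3p0_2, G3p0_4, G3p0_5, G3p0_7, G3p0_8, G3p0_9, G3p1_2, G3p3_1, G3p3_2, G3p3_4, G3p3_5, G3p4_5,
  G3p6_4, G3p6_5, G3p7_4, G3p7_5, G3p8_4, G3p8_5, G3p8_7, G3p9_4, G3p9_5, G3p9_7, G3p9_8]⟩) (.leaf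
  ⟨407394450, 79255571222732905583747,
  1583105322713609293591426058042129023256216343474515407754811030613849538656, 99461, [G3p0_5,
  G3p0_6, G3p0_7, G3p0_8, G3p0_9, G3p1_5, G3p1_6, G3p2_1, G3p2_5, G3p2_6, G3p3_1, G3p3_2, G3p3_5,
  G3p3_6, G3p4_5, G3p4_6, G3p6_5, G3p8_7, G3p9_7, G3p9_8]⟩)) (.node 799 (.leaf ⟨1145149540,
  38037556702231147028611,
  1215616230809839057830012864068644523076494148477066870749810338299655487665, 279577, [G3p0_4,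
  G3p0_5, G3p0_7, G3p1_0, G3p1_4, G3p1_5, G3p1_7, G3p2_0, G3p2_1, G3p2_4, G3p2_5, G3p2_7, G3p3_0,
  G3p3_1, G3p3_2, G3p3_4, G3p3_5, G3p3_7, G3p4_5, G3p6_4, G3p6_5, G3p8_4, G3p8_5, G3p8_7, G3p8_9,
  G3p9_4, G3p9_5, G3p9_7]⟩) (.leaf ⟨1145198692, 37926764880313055319168,
  1215616230809839057830012864065633880619353884345079967955388027318339371199, 279589, [G3p0_4,
  G3p0_5, G3p0_7, G3p1_2, G3p1_3, G3p1_4, G3p1_5, G3p2_3, G3p2_4, G3p2_5, G3p3_4, G3p3_5, G3p4_5,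
  G3p6_4, G3p6_5, G3p8_4, G3p8_5, G3p8_7, G3p8_9, G3p9_4, G3p9_5, G3p9_7]⟩)))))) (.node 816 (.node
  808 (.node 804 (.node 802 (.node 801 (.leaf ⟨407001188, 118244000041335223722112,
  1667915275920157919763616627249956096810973126635244174472303913774091338687, 99365, [G3p0_4,
  G3p0_5, G3p0_7, G3p0_8, G3p0_9, G3p1_2, G3p1_3, G3p1_4, G3p1_5, G3p2_3, G3p2_4, G3p2_5, G3p3_4,
  G3p3_5, G3p4_5, G3p6_4, G3p6_5, G3p7_4, G3p7_5, G3p8_4, G3p8_5, G3p8_7, G3p9_4, G3p9_5, G3p9_7,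
  G3p9_8]⟩) (.leaf ⟨406952036, 235233362314277034470531,
  1667915275920157919763616627270093972921430388608025196390530095170827846577, 99353, [G3p0_4,
  G3p0_5, G3p0_7, G3p0_8, G3p0_9, G3p1_0, G3p1_4, G3p1_5, G3p1_7, G3p1_8, G3p1_9, G3p2_0, G3p2_1,
  G3p2_4, G3p2_5, G3p2_7, G3p2_8, G3p2_9, G3p3_0, G3p3_1, G3p3_2, G3p3_4, G3p3_5, G3p3_7, G3p3_8,
  G3p3_9, G3p4_5, G3p6_4, G3p6_5, G3p7_4, G3p7_5, G3p8_4, G3p8_5, G3p8_7, G3p9_4, G3p9_5, G3p9_7,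
  G3p9_8]⟩)) (.node 803 (.leaf ⟨1145182310, 37926764807847293359171,
  1215616230809839057830012864065678482790004141780184201689499384312222580738, 279585, [G3p0_1,
  G3p0_4, G3p0_5, G3p0_7, G3p2_1, G3p2_3, G3p2_4, G3p2_5, G3p3_1, G3p3_4, G3p3_5, G3p4_5, G3p6_4,
  G3p6_5, G3p8_4, G3p8_5, G3p8_7, G3p8_9, G3p9_4, G3p9_5, G3p9_7]⟩) (.leaf ⟨406984806,
  79247545842350509202499,
  1667915275920157919763616627250000698981623384070348408206415270767974547458, 99361, [G3p0_1,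
  G3p0_4, G3p0_5, G3p0_7, G3p0_8, G3p0_9, G3p2_1, G3p2_3, G3p2_4, G3p2_5, G3p3_1, G3p3_4, G3p3_5,
  G3p4_5, G3p6_4, G3p6_5, G3p7_4, G3p7_5, G3p8_4, G3p8_5, G3p8_7, G3p9_4, G3p9_5, G3p9_7,
  G3p9_8]⟩))) (.node 806 (.node 805 (.leaf ⟨438589714, 157240268427353816862818,
  1583105322713615018308208637156606162696631048389014540314875350712225103928, 107077, [G3p0_3,
  G3p0_4, G3p0_5, G3p0_7, G3p0_8, G3p0_9, G3p1_3, G3p1_4, G3p1_5, G3p2_1, G3p2_3, G3p2_4, G3p2_5,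
  G3p4_5, G3p6_4, G3p6_5, G3p6_7, G3p6_8, G3p6_9, G3p8_7, G3p9_7, G3p9_8]⟩) (.leaf ⟨407132312,
  235236483342972381889603,
  1583105322713609293591427371949874952949105086165877984204888524951358997379, 99397, [G3p0_7,
  G3p0_8, G3p0_9, G3p2_0, G3p2_1, G3p2_3, G3p2_7, G3p2_8, G3p2_9, G3p3_0, G3p3_1, G3p3_7, G3p3_8,
  G3p3_9, G3p4_0, G3p4_1, G3p4_5, G3p4_6, G3p4_7, G3p4_8, G3p4_9, G3p6_5, G3p8_7, G3p9_7, G3p9_8]⟩))
  (.node 807 (.leaf ⟨438901010, 157240342740080563099809,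
  1583105322713615018308208637157676597785616554120734442261313404747555799102, 107153, [G3p0_1,
  G3p0_2, G3p0_3, G3p0_4, G3p0_5, G3p0_7, G3p0_8, G3p0_9, G3p1_2, G3p1_3, G3p1_4, G3p1_5, G3p2_3,
  G3p2_4, G3p2_5, G3p3_4, G3p3_5, G3p4_5, G3p6_4, G3p6_5, G3p6_7, G3p6_8, G3p6_9, G3p8_7, G3p9_7,
  G3p9_8]⟩) (.leaf ⟨438851858, 157240305442447125681283,
  1583105322713615018308208637157810400215051227662456182659458558060416466992, 107141, [G3p0_4,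
  G3p0_5, G3p0_7, G3p0_8, G3p0_9, G3p1_4, G3p1_5, G3p2_1, G3p2_4, G3p2_5, G3p3_1, G3p3_2, G3p3_4,
  G3p3_5, G3p4_5, G3p6_4, G3p6_5, G3p6_7, G3p6_8, G3p6_9, G3p8_7, G3p9_7, G3p9_8]⟩)))) (.node 812
  (.node 810 (.node 809 (.leaf ⟨437541154, 274229335856319453858946,
  1583105322713615068613142288279268618952093215467455057137737213762056224776, 106821, [G3p0_3,
  G3p0_7, G3p0_8, G3p0_9, G3p1_3, G3p2_1, G3p2_3, G3p4_3, G3p4_7, G3p4_8, G3p4_9, G3p5_3, G3p5_4,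
  G3p5_7, G3p5_8, G3p5_9, G3p6_3, G3p6_4, G3p6_5, G3p6_7, G3p6_8, G3p6_9, G3p8_7, G3p9_7, G3p9_8]⟩)
  (.leaf ⟨437852450, 274229335824467976391841,
  1583105322713615018395562145723376464508831346483996099466171063889911873550, 106897, [G3p0_1,
  G3p0_2, G3p0_3, G3p0_7, G3p0_8, G3p0_9, G3p1_2, G3p1_3, G3p2_3, G3p4_7, G3p4_8, G3p4_9, G3p5_4,
  G3p5_7, G3p5_8, G3p5_9, G3p6_4, G3p6_5, G3p6_7, G3p6_8, G3p6_9, G3p8_7, G3p9_7, G3p9_8]⟩)) (.node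
  811 (.leaf ⟨437360932, 352222169625179813254275,
  1583105322713615018395562145743514340619288607347582846184696518977091797889, 106777, [G3p0_7,
  G3p0_8, G3p0_9, G3p1_0, G3p1_7, G3p1_8, G3p1_9, G3p2_0, G3p2_1, G3p2_7, G3p2_8, G3p2_9, G3p3_0,
  G3p3_1, G3p3_2, G3p3_7, G3p3_8, G3p3_9, G3p4_7, G3p4_8, G3p4_9, G3p5_4, G3p5_7, G3p5_8, G3p5_9,
  G3p6_4, G3p6_5, G3p6_7, G3p6_8, G3p6_9, G3p8_7, G3p9_7, G3p9_8]⟩) (.leaf ⟨437410084,
  352222169731794860184704,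
  1583105322713615018395562145743358237104367842855728296577574853065012413327, 106789, [G3p0_7,
  G3p0_8, G3p0_9, G3p1_2, G3p1_3, G3p1_7, G3p1_8, G3p1_9, G3p2_3, G3p2_7, G3p2_8, G3p2_9, G3p3_7,
  G3p3_8, G3p3_9, G3p4_7, G3p4_8, G3p4_9, G3p5_4, G3p5_7, G3p5_8, G3p5_9, G3p6_4, G3p6_5, G3p6_7,
  G3p6_8, G3p6_9, G3p8_7, G3p9_7, G3p9_8]⟩))) (.node 814 (.node 813 (.leaf ⟨437328166,
  274229335684864359402530,
  1583105322713615018395562145743491733955605494181460030905960081795234267142, 106769, [G3p0_1,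
  G3p0_2, G3p0_7, G3p0_8, G3p0_9, G3p1_2, G3p3_1, G3p3_2, G3p3_7, G3p3_8, G3p3_9, G3p4_7, G3p4_8,
  G3p4_9, G3p5_4, G3p5_7, G3p5_8, G3p5_9, G3p6_4, G3p6_5, G3p6_7, G3p6_8, G3p6_9, G3p8_7, G3p9_7,
  G3p9_8]⟩) (.leaf ⟨437803298, 274229335681531464780931,
  1583105322713615018395562145723510266938266020025717839864316217202772541440, 106885, [G3p0_7,
  G3p0_8, G3p0_9, G3p2_1, G3p3_1, G3p3_2, G3p4_7, G3p4_8, G3p4_9, G3p5_4, G3p5_7, G3p5_8, G3p5_9,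
  G3p6_4, G3p6_5, G3p6_7, G3p6_8, G3p6_9, G3p8_7, G3p9_7, G3p9_8]⟩)) (.node 815 (.leaf ⟨1145460834,
  37926765027612179961025,
  1236818719106539750917910794717917861229527728956078719391210133944898682892, 279653, [G3p0_2,
  G3p0_3, G3p0_4, G3p0_5, G3p0_7, G3p1_2, G3p1_3, G3p3_2, G3p4_5, G3p6_2, G3p6_3, G3p6_4, G3p6_5,
  G3p8_2, G3p8_3, G3p8_4, G3p8_5, G3p8_7, G3p8_9, G3p9_2, G3p9_3, G3p9_4, G3p9_5, G3p9_7]⟩) (.leaf
  ⟨407263330, 79247546134683163237633,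
  1689117764221795126523478176028704984968819022761191133505026759990696476684, 99429, [G3p0_2,
  G3p0_3, G3p0_4, G3p0_5, G3p0_7, G3p0_8, G3p0_9, G3p1_2, G3p1_3, G3p3_2, G3p4_5, G3p6_2, G3p6_3,
  G3p6_4, G3p6_5, G3p7_2, G3p7_3, G3p7_4, G3p7_5, G3p8_2, G3p8_3, G3p8_4, G3p8_5, G3p8_7, G3p9_2,
  G3p9_3, G3p9_4, G3p9_5, G3p9_7, G3p9_8]⟩))))) (.node 824 (.node 820 (.node 818 (.node 817 (.leaf
  ⟨437672226, 274229335862882163887233,
  1583105322713615093721932359557303895411443390657175927315111746527484968972, 106853, [G3p0_2,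
  G3p0_3, G3p0_7, G3p0_8, G3p0_9, G3p1_2, G3p1_3, G3p3_2, G3p4_2, G3p4_3, G3p4_7, G3p4_8, G3p4_9,
  G3p5_2, G3p5_3, G3p5_4, G3p5_7, G3p5_8, G3p5_9, G3p6_2, G3p6_3, G3p6_4, G3p6_5, G3p6_7, G3p6_8,
  G3p6_9, G3p8_7, G3p9_7, G3p9_8]⟩) (.leaf ⟨407246946, 79247546135061120359681,
  1692651512272067994316788434158704610473492347181371739988756714642243190798, 99425, [G3p0_1,
  G3p0_2, G3p0_3, G3p0_4, G3p0_5, G3p0_7, G3p0_8, G3p0_9, G3p2_1, G3p3_1, G3p3_2, G3p4_5, G3p6_1,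
  G3p6_2, G3p6_3, G3p6_4, G3p6_5, G3p7_1, G3p7_2, G3p7_3, G3p7_4, G3p7_5, G3p8_1, G3p8_2, G3p8_3,
  G3p8_4, G3p8_5, G3p8_7, G3p9_1, G3p9_2, G3p9_3, G3p9_4, G3p9_5, G3p9_7, G3p9_8]⟩)) (.node 819
  (.leaf ⟨437655842, 274229335863122682055809,
  1583105322713615106276327395196321536023022354542586119060621837983967739918, 106849, [G3p0_1,
  G3p0_2, G3p0_3, G3p0_7, G3p0_8, G3p0_9, G3p2_1, G3p3_1, G3p3_2, G3p4_1, G3p4_2, G3p4_3, G3p4_7,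
  G3p4_8, G3p4_9, G3p5_1, G3p5_2, G3p5_3, G3p5_4, G3p5_7, G3p5_8, G3p5_9, G3p6_1, G3p6_2, G3p6_3,
  G3p6_4, G3p6_5, G3p6_7, G3p6_8, G3p6_9, G3p8_7, G3p9_7, G3p9_8]⟩) (.leaf ⟨437393702,
  274229335715685044718659,
  1583105322713615018395562145743402839270615032554794996482692349171716980738, 106785, [G3p0_1,
  G3p0_7, G3p0_8, G3p0_9, G3p2_1, G3p2_3, G3p2_7, G3p2_8, G3p2_9, G3p3_1, G3p3_7, G3p3_8, G3p3_9,
  G3p4_7, G3p4_8, G3p4_9, G3p5_4, G3p5_7, G3p5_8, G3p5_9, G3p6_4, G3p6_5, G3p6_7, G3p6_8, G3p6_9,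
  G3p8_7, G3p9_7, G3p9_8]⟩))) (.node 822 (.node 821 (.leaf ⟨1150572616, 38044288491927739010115,
  1130806277623036285484551217156490007079153641369638454435614834033930993795, 280901, [G3p0_7,
  G3p2_0, G3p2_1, G3p2_3, G3p2_4, G3p2_5, G3p2_6, G3p2_7, G3p3_0, G3p3_1, G3p3_4, G3p3_5, G3p3_6,
  G3p3_7, G3p4_5, G3p4_6, G3p5_6, G3p8_7, G3p8_9, G3p9_7]⟩) (.leaf ⟨411326610,
  79254131336355669774434,
  1583105322713609092731832956602346946036701606757986488886235321656123326536, 100421, [G3p0_3,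
  G3p0_6, G3p0_7, G3p0_8, G3p0_9, G3p1_3, G3p1_6, G3p2_1, G3p2_3, G3p2_6, G3p4_6, G3p5_4, G3p5_6,
  G3p8_7, G3p9_7, G3p9_8]⟩)) (.node 823 (.leaf ⟨411637906, 79256437182697780254881,
  1583105322713609092731832956603774193048863602459970962325035749475549708366, 100497, [G3p0_1,
  G3p0_2, G3p0_3, G3p0_6, G3p0_7, G3p0_8, G3p0_9, G3p1_2, G3p1_3, G3p1_6, G3p2_3, G3p2_6, G3p3_6,
  G3p4_6, G3p5_4, G3p5_6, G3p8_7, G3p9_7, G3p9_8]⟩) (.leaf ⟨411146392, 391223161273600615483495,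
  1583105322713609092819090752908527955013547975848142465213116145277885940609, 100377, [G3p0_7,
  G3p0_8, G3p0_9, G3p1_0, G3p1_7, G3p1_8, G3p1_9, G3p2_0, G3p2_1, G3p2_7, G3p2_8, G3p2_9, G3p3_0,
  G3p3_1, G3p3_2, G3p3_7, G3p3_8, G3p3_9, G3p4_0, G3p4_1, G3p4_2, G3p4_3, G3p4_6, G3p4_7, G3p4_8,
  G3p4_9, G3p5_0, G3p5_1, G3p5_2, G3p5_3, G3p5_4, G3p5_6, G3p5_7, G3p5_8, G3p5_9, G3p8_7, G3p9_7,
  G3p9_8]⟩)))) (.node 828 (.node 826 (.node 825 (.leaf ⟨411195544, 274233910464749582256228,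
  1583105322713609092819090752888390078903090713875361443294889963881149432719, 100389, [G3p0_7,
  G3p0_8, G3p0_9, G3p1_2, G3p1_3, G3p2_3, G3p4_0, G3p4_1, G3p4_2, G3p4_3, G3p4_6, G3p4_7, G3p4_8,
  G3p4_9, G3p5_0, G3p5_1, G3p5_2, G3p5_3, G3p5_4, G3p5_6, G3p5_7, G3p5_8, G3p5_9, G3p8_7, G3p9_7,
  G3p9_8]⟩) (.leaf ⟨411588754, 79255284118256660714627,
  1583105322713609092731832956603907995478298276001692702723180902788410376256, 100485, [G3p0_6,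
  G3p0_7, G3p0_8, G3p0_9, G3p1_6, G3p2_1, G3p2_6, G3p3_1, G3p3_2, G3p3_6, G3p4_6, G3p5_4, G3p5_6,
  G3p8_7, G3p9_7, G3p9_8]⟩)) (.node 827 (.leaf ⟨411457682, 79252978384030376528961,
  1583105322713609092731832956602436123836621346605453124837176437510792544332, 100453, [G3p0_2,
  G3p0_3, G3p0_6, G3p0_7, G3p0_8, G3p0_9, G3p1_2, G3p1_3, G3p1_6, G3p3_2, G3p4_6, G3p5_4, G3p5_6,
  G3p8_7, G3p9_7, G3p9_8]⟩) (.leaf ⟨1149655186, 38006058635215852670017,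
  1130806277623036285498343817323110227058795230661835267797527871228981543116, 280677, [G3p0_2,
  G3p0_3, G3p0_6, G3p0_7, G3p1_2, G3p1_3, G3p1_6, G3p1_7, G3p3_2, G3p4_6, G3p4_7, G3p5_4, G3p5_6,
  G3p5_7, G3p8_7, G3p8_9, G3p9_7]⟩))) (.node 830 (.node 829 (.leaf ⟨411441298,
  79252978384202175220801,
  1583105322713609092731832956602480726007188527290820801329231306563408232526, 100449, [G3p0_1,
  G3p0_2, G3p0_3, G3p0_6, G3p0_7, G3p0_8, G3p0_9, G3p2_1, G3p3_1, G3p3_2, G3p4_6, G3p5_4, G3p5_6,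
  G3p8_7, G3p9_7, G3p9_8]⟩) (.leaf ⟨1149524066, 37927665738775920776386,
  1173211254216437671662645681464742958418701123063905279285299585406466523144, 280645, [G3p0_3,
  G3p0_4, G3p0_7, G3p1_3, G3p2_1, G3p2_3, G3p5_3, G3p5_4, G3p5_6, G3p6_3, G3p6_4, G3p8_3, G3p8_4,
  G3p8_7, G3p8_9, G3p9_3, G3p9_4, G3p9_7]⟩)) (.node 831 (.leaf ⟨411326562, 79248374786053842869506,
  1625510299316883506252322208396135359514976262324173070608413992682126835720, 100421, [G3p0_3,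
  G3p0_4, G3p0_7, G3p0_8, G3p0_9, G3p1_3, G3p2_1, G3p2_3, G3p5_3, G3p5_4, G3p5_6, G3p6_3, G3p6_4,
  G3p7_3, G3p7_4, G3p8_3, G3p8_4, G3p8_7, G3p9_3, G3p9_4, G3p9_7, G3p9_8]⟩) (.leaf ⟨411637858,
  79248374613464877047041,
  1611375307115792035078314928105882321070157777688057299392159020468634910734, 100497, [G3p0_1,
  G3p0_2, G3p0_3, G3p0_4, G3p0_7, G3p0_8, G3p0_9, G3p1_2, G3p1_3, G3p2_3, G3p5_4, G3p5_6, G3p6_4,
  G3p7_4, G3p8_4, G3p8_7, G3p9_4, G3p9_7, G3p9_8]⟩))))))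

def G3T14 : Tr :=
  .node 864 (.node 848 (.node 840 (.node 836 (.node 834 (.node 833 (.leaf ⟨1149343844,
  38038349335765564235907,
  1159076262018637209603280813262167318163915039915564151543445938225028268177, 280601, [G3p0_4,
  G3p0_7, G3p1_0, G3p1_4, G3p1_7, G3p2_0, G3p2_1, G3p2_4, G3p2_7, G3p3_0, G3p3_1, G3p3_2, G3p3_4,
  G3p3_7, G3p5_4, G3p5_6, G3p6_4, G3p8_4, G3p8_7, G3p8_9, G3p9_4, G3p9_7]⟩) (.leaf ⟨1149392996,
  37927665600238529418368,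
  1159076262018637209603280813259156675706774775783577248749023627243712151711, 280613, [G3p0_4,
  G3p0_7, G3p1_2, G3p1_3, G3p1_4, G3p2_3, G3p2_4, G3p3_4, G3p5_4, G3p5_6, G3p6_4, G3p8_4, G3p8_7,
  G3p8_9, G3p9_4, G3p9_7]⟩)) (.node 835 (.leaf ⟨411195492, 118244792674869640929408,
  1611375307115792035078314928106239138437935214033879568340870874792675247007, 100389, [G3p0_4,
  G3p0_7, G3p0_8, G3p0_9, G3p1_2, G3p1_3, G3p1_4, G3p2_3, G3p2_4, G3p3_4, G3p5_4, G3p5_6, G3p6_4,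
  G3p7_4, G3p8_4, G3p8_7, G3p9_4, G3p9_7, G3p9_8]⟩) (.leaf ⟨411146340, 235234046861420394785923,
  1611375307115792035078314928126377014548392476006660590259097056189411754897, 100377, [G3p0_4,
  G3p0_7, G3p0_8, G3p0_9, G3p1_0, G3p1_4, G3p1_7, G3p1_8, G3p1_9, G3p2_0, G3p2_1, G3p2_4, G3p2_7,
  G3p2_8, G3p2_9, G3p3_0, G3p3_1, G3p3_2, G3p3_4, G3p3_7, G3p3_8, G3p3_9, G3p5_4, G3p5_6, G3p6_4,
  G3p7_4, G3p8_4, G3p8_7, G3p9_4, G3p9_7, G3p9_8]⟩))) (.node 838 (.node 837 (.leaf ⟨411113574,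
  79248374473861260057634,
  1611375307115792035078314928106372934742224977020969798752017480248636866566, 100369, [G3p0_1,
  G3p0_2, G3p0_4, G3p0_7, G3p0_8, G3p0_9, G3p1_2, G3p3_1, G3p3_2, G3p3_4, G3p5_4, G3p5_6, G3p6_4,
  G3p7_4, G3p8_4, G3p8_7, G3p9_4, G3p9_7, G3p9_8]⟩) (.leaf ⟨1149786210, 37927665493619187520707,
  1159076262018637209603280813258933660768432012979476720198456926232532484096, 280709, [G3p0_4,
  G3p0_7, G3p2_1, G3p3_1, G3p3_2, G3p5_4, G3p5_6, G3p6_4, G3p8_4, G3p8_7, G3p8_9, G3p9_4, G3p9_7]⟩))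
  (.node 839 (.leaf ⟨411588706, 79248374470528365436163,
  1611375307115792035078314928106016123499592451229779039790304173781495578624, 100485, [G3p0_4,
  G3p0_7, G3p0_8, G3p0_9, G3p2_1, G3p3_1, G3p3_2, G3p5_4, G3p5_6, G3p6_4, G3p7_4, G3p8_4, G3p8_7,
  G3p9_4, G3p9_7, G3p9_8]⟩) (.leaf ⟨1149376614, 37927665527772767458371,
  1159076262018637209603280813259201277877591186718154596967247960120130404354, 280609, [G3p0_1,
  G3p0_4, G3p0_7, G3p2_1, G3p2_3, G3p2_4, G3p3_1, G3p3_4, G3p5_4, G3p5_6, G3p6_4, G3p8_4, G3p8_7,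
  G3p8_9, G3p9_4, G3p9_7]⟩)))) (.node 844 (.node 842 (.node 841 (.leaf ⟨411179110,
  79248374504681945373763,
  1611375307115792035078314928106283740608751624968456916559095207669093498882, 100385, [G3p0_1,
  G3p0_4, G3p0_7, G3p0_8, G3p0_9, G3p2_1, G3p2_3, G3p2_4, G3p3_1, G3p3_4, G3p5_4, G3p5_6, G3p6_4,
  G3p7_4, G3p8_4, G3p8_7, G3p9_4, G3p9_7, G3p9_8]⟩) (.leaf ⟨1226068360, 154732446750706060299331,
  904646402774166671456827101195824864908108684753651857578383787557192400899, 299333, [G3p2_0,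
  G3p2_1, G3p2_3, G3p2_4, G3p3_0, G3p3_1, G3p3_4, G3p5_4, G3p5_6, G3p6_4, G3p7_8, G3p7_9, G3p8_9]⟩))
  (.node 843 (.leaf ⟨286546312, 234938889983195358497859,
  1356945447871321496931861216060034561288598436856289799402015327904278446851, 69957, [G3p0_8,
  G3p0_9, G3p2_0, G3p2_1, G3p2_3, G3p2_4, G3p2_8, G3p2_9, G3p3_0, G3p3_1, G3p3_4, G3p3_8, G3p3_9,
  G3p5_4, G3p5_6, G3p6_4, G3p7_4, G3p7_8, G3p7_9, G3p9_8]⟩) (.leaf ⟨286808452,
  118060319679605954907264,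
  1356945447877080850763250666201948148035695257202074798731631770667716576015, 70021, [G3p0_8,
  G3p0_9, G3p2_1, G3p3_1, G3p3_2, G3p5_1, G3p5_2, G3p5_3, G3p5_4, G3p5_6, G3p6_1, G3p6_2, G3p6_3,
  G3p6_4, G3p7_1, G3p7_2, G3p7_3, G3p7_4, G3p7_8, G3p7_9, G3p9_8]⟩))) (.node 846 (.node 845 (.leaf
  ⟨1226330500, 154732446898140476411008,
  904646402774166759337592330207323293165584092185453577844849754841985974287, 299397, [G3p2_1,
  G3p3_1, G3p3_2, G3p5_1, G3p5_2, G3p5_3, G3p5_4, G3p5_6, G3p6_1, G3p6_2, G3p6_3, G3p6_4, G3p7_8,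
  G3p7_9, G3p8_9]⟩) (.leaf ⟨286857606, 118060319786223149321349,
  1356945447877080850763250666201814345606260583660353058333486617354855907342, 70033, [G3p0_1,
  G3p0_2, G3p0_3, G3p0_8, G3p0_9, G3p1_2, G3p1_3, G3p2_3, G3p5_1, G3p5_2, G3p5_3, G3p5_4, G3p5_6,
  G3p6_1, G3p6_2, G3p6_3, G3p6_4, G3p7_1, G3p7_2, G3p7_3, G3p7_4, G3p7_8, G3p7_9, G3p9_8]⟩)) (.node
  847 (.leaf ⟨1226379654, 154732447004758744566917,
  904646402774166759337592330207189490736149418643731837446704601529125306382, 299409, [G3p0_1,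
  G3p0_2, G3p0_3, G3p1_2, G3p1_3, G3p2_3, G3p5_1, G3p5_2, G3p5_3, G3p5_4, G3p5_6, G3p6_1, G3p6_2,
  G3p6_3, G3p6_4, G3p7_8, G3p7_9, G3p8_9]⟩) (.leaf ⟨1242847330, 76745634471500321039682,
  1116671285790538236881940035357223925770823391712294167095951684964138352648, 303429, [G3p0_3,
  G3p0_4, G3p0_5, G3p0_6, G3p1_3, G3p2_1, G3p2_3, G3p4_3, G3p5_3, G3p5_4, G3p6_3, G3p6_4, G3p6_5,
  G3p7_3, G3p7_4, G3p7_5, G3p7_6, G3p7_8, G3p7_9, G3p8_3, G3p8_4, G3p8_5, G3p8_6, G3p8_9, G3p9_3,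
  G3p9_4, G3p9_5, G3p9_6]⟩))))) (.node 856 (.node 852 (.node 850 (.node 849 (.leaf ⟨1243158598,
  76745634264860854485026,
  1102536293589446765707932743374957788678781561446699734149432556044352880654, 303505, [G3p0_1,
  G3p0_2, G3p0_3, G3p0_4, G3p0_5, G3p0_6, G3p1_2, G3p1_3, G3p2_3, G3p5_4, G3p6_4, G3p6_5, G3p7_4,
  G3p7_5, G3p7_6, G3p7_8, G3p7_9, G3p8_4, G3p8_5, G3p8_6, G3p8_9, G3p9_4, G3p9_5, G3p9_6]⟩) (.leaf
  ⟨1225888132, 154732446716552480361603,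
  904646402774166671456827101195557247798954703470288840665749959353011535873, 299289, [G3p1_0,
  G3p2_0, G3p2_1, G3p3_0, G3p3_1, G3p3_2, G3p5_4, G3p5_6, G3p6_4, G3p7_8, G3p7_9, G3p8_9]⟩)) (.node
  851 (.leaf ⟨286366084, 234938889949041778560131,
  1356945447871321496931861216059766944183432139560281530108092920880888283905, 69913, [G3p0_8,
  G3p0_9, G3p1_0, G3p1_8, G3p1_9, G3p2_0, G3p2_1, G3p2_8, G3p2_9, G3p3_0, G3p3_1, G3p3_2, G3p3_8,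
  G3p3_9, G3p5_4, G3p5_6, G3p6_4, G3p7_4, G3p7_8, G3p7_9, G3p9_8]⟩) (.leaf ⟨286415236,
  118060319604633005788288,
  1356945447871321496931861216042483607015194377227632861377167384553388507919, 69925, [G3p0_8,
  G3p0_9, G3p1_2, G3p1_3, G3p2_3, G3p5_4, G3p5_6, G3p6_4, G3p7_4, G3p7_8, G3p7_9, G3p9_8]⟩))) (.node
  854 (.node 853 (.leaf ⟨1225937284, 154732446823167527292032,
  904646402774166671456827101195401144284033938978434291058628293440932151311, 299301, [G3p1_2,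
  G3p1_3, G3p2_3, G3p5_4, G3p5_6, G3p6_4, G3p7_8, G3p7_9, G3p8_9]⟩) (.leaf ⟨286333318,
  118060319504748172610693,
  1356945447873789791431028123253759153874542032838129030911486413926845251590, 69905, [G3p0_1,
  G3p0_2, G3p0_8, G3p0_9, G3p1_2, G3p3_1, G3p3_2, G3p5_1, G3p5_2, G3p5_4, G3p5_6, G3p6_1, G3p6_2,
  G3p6_4, G3p7_1, G3p7_2, G3p7_4, G3p7_8, G3p7_9, G3p9_8]⟩)) (.node 855 (.leaf ⟨1225855366,
  154732446723283767856261,
  904646402774166709120012199343444237369545568831463610349414640794414219270, 299281, [G3p0_1,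
  G3p0_2, G3p1_2, G3p3_1, G3p3_2, G3p5_1, G3p5_2, G3p5_4, G3p5_6, G3p6_1, G3p6_2, G3p6_4, G3p7_8,
  G3p7_9, G3p8_9]⟩) (.leaf ⟨1243109444, 76745634158243660070944,
  1102536293589446765707932743375091591108216234988421474547577709357213548671, 303493, [G3p0_4,
  G3p0_5, G3p0_6, G3p2_1, G3p3_1, G3p3_2, G3p5_4, G3p6_4, G3p6_5, G3p7_4, G3p7_5, G3p7_6, G3p7_8,
  G3p7_9, G3p8_4, G3p8_5, G3p8_6, G3p8_9, G3p9_4, G3p9_5, G3p9_6]⟩)))) (.node 860 (.node 858 (.node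
  857 (.leaf ⟨1242634310, 76745634088938994040866,
  1102536293589446765707932743375091590427672270809347662016928642005897445382, 303377, [G3p0_1,
  G3p0_2, G3p0_4, G3p0_5, G3p0_6, G3p1_2, G3p3_1, G3p3_2, G3p5_4, G3p6_4, G3p6_5, G3p7_4, G3p7_5,
  G3p7_6, G3p7_8, G3p7_9, G3p8_4, G3p8_5, G3p8_6, G3p8_9, G3p9_4, G3p9_5, G3p9_6]⟩) (.leaf
  ⟨286398854, 118060319532235963305093,
  1356945447872144261764916851779575457556246179958164755659822277727053021186, 69921, [G3p0_1,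
  G3p0_8, G3p0_9, G3p2_1, G3p2_3, G3p3_1, G3p5_1, G3p5_4, G3p5_6, G3p6_1, G3p6_4, G3p7_1, G3p7_4,
  G3p7_8, G3p7_9, G3p9_8]⟩)) (.node 859 (.leaf ⟨1225920902, 154732446750771558550661,
  904646402774166684011222133911415510233807066456477235260105625941271773186, 299297, [G3p0_1,
  G3p2_1, G3p2_3, G3p3_1, G3p5_1, G3p5_4, G3p5_6, G3p6_1, G3p6_4, G3p7_8, G3p7_9, G3p8_9]⟩) (.leaf
  ⟨294017298, 118060390538490726584385,
  1356945447864739679563701942084273817855328317820222381497893405706576199692, 71781, [G3p0_2,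
  G3p0_3, G3p0_8, G3p0_9, G3p1_2, G3p1_3, G3p3_2, G3p5_4, G3p6_4, G3p6_5, G3p7_8, G3p7_9,
  G3p9_8]⟩))) (.node 862 (.node 861 (.leaf ⟨1233539346, 154732517793310205546594,
  904646402774166872317952651405811231854397281590949918938646204327834419212, 301157, [G3p0_2,
  G3p0_3, G3p1_2, G3p1_3, G3p3_2, G3p5_4, G3p6_4, G3p6_5, G3p7_8, G3p7_9, G3p8_9]⟩) (.leaf
  ⟨286677282, 234942345480918402173025,
  1356945447864739378343659016811654698297901773444412030563575642561241153548, 69989, [G3p0_2,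
  G3p0_3, G3p0_8, G3p0_9, G3p1_2, G3p1_3, G3p3_2, G3p4_2, G3p4_3, G3p4_6, G3p4_8, G3p4_9, G3p5_2,
  G3p5_3, G3p5_4, G3p5_6, G3p5_8, G3p5_9, G3p7_8, G3p7_9, G3p9_8]⟩)) (.node 863 (.leaf ⟨286660898,
  234942345481124560603233,
  1356945447864739378343850581677310811237901890914489390104374845089654898702, 69985, [G3p0_1,
  G3p0_2, G3p0_3, G3p0_8, G3p0_9, G3p2_1, G3p3_1, G3p3_2, G3p4_1, G3p4_2, G3p4_3, G3p4_6, G3p4_8,
  G3p4_9, G3p5_1, G3p5_2, G3p5_3, G3p5_4, G3p5_6, G3p5_8, G3p5_9, G3p7_8, G3p7_9, G3p9_8]⟩) (.leaf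
  ⟨1226088737, 388714404186191056439396,
  904646402774166571110457224830656867414526871095267321686208151756943065999, 299338, [G3p0_7,
  G3p0_8, G3p0_9, G3p1_2, G3p1_3, G3p2_3, G3p4_0, G3p4_1, G3p4_2, G3p4_3, G3p4_6, G3p4_7, G3p4_8,
  G3p4_9, G3p5_0, G3p5_1, G3p5_2, G3p5_3, G3p5_4, G3p5_6, G3p5_7, G3p5_8, G3p5_9, G3p7_8, G3p7_9,
  G3p8_9]⟩)))))) (.node 880 (.node 872 (.node 868 (.node 866 (.node 865 (.leaf ⟨1245993058,
  76749128033358137432290,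
  1116671285790537885368074221167409958231968361575115917355999372986764754952, 304197, [G3p0_3,
  G3p0_4, G3p0_5, G3p0_6, G3p1_3, G3p2_1, G3p2_3, G3p4_5, G3p4_6, G3p5_6, G3p7_3, G3p7_4, G3p7_5,
  G3p7_6, G3p7_8, G3p7_9, G3p8_3, G3p8_4, G3p8_5, G3p8_6, G3p8_9, G3p9_3, G3p9_4, G3p9_5, G3p9_6]⟩)
  (.leaf ⟨1246304354, 76749127895953543698657,
  1102536293589446464411647071741035974902644436113906629550397326046640734222, 304273, [G3p0_1,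
  G3p0_2, G3p0_3, G3p0_4, G3p0_5, G3p0_6, G3p1_2, G3p1_3, G3p2_3, G3p4_5, G3p4_6, G3p5_6, G3p7_4,
  G3p7_5, G3p7_6, G3p7_8, G3p7_9, G3p8_4, G3p8_5, G3p8_6, G3p8_9, G3p9_4, G3p9_5, G3p9_6]⟩)) (.node
  867 (.leaf ⟨1242716228, 76745634192225441316992,
  1102536293589446765707932743374957788678781560337505458949731829674607116415, 303397, [G3p0_4,
  G3p0_5, G3p0_6, G3p1_2, G3p1_3, G3p2_3, G3p5_4, G3p6_4, G3p6_5, G3p7_4, G3p7_5, G3p7_6, G3p7_8,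
  G3p7_9, G3p8_4, G3p8_5, G3p8_6, G3p8_9, G3p9_4, G3p9_5, G3p9_6]⟩) (.leaf ⟨1242667076,
  76748014238013528965251,
  1102536293589446765707932743377611613768144387014475817595741560022268641393, 303385, [G3p0_4,
  G3p0_5, G3p0_6, G3p1_0, G3p1_4, G3p1_5, G3p1_6, G3p2_0, G3p2_1, G3p2_4, G3p2_5, G3p2_6, G3p3_0,
  G3p3_1, G3p3_2, G3p3_4, G3p3_5, G3p3_6, G3p5_4, G3p6_4, G3p6_5, G3p7_4, G3p7_5, G3p7_6, G3p7_8,
  G3p7_9, G3p8_4, G3p8_5, G3p8_6, G3p8_9, G3p9_4, G3p9_5, G3p9_6]⟩))) (.node 870 (.node 869 (.leaf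
  ⟨1245861988, 76749127859636373985408,
  1102536293589446464411647071743533696477086497189828163389584664172614910079, 304165, [G3p0_4,
  G3p0_5, G3p0_6, G3p1_2, G3p1_3, G3p1_4, G3p1_5, G3p1_6, G3p2_3, G3p2_4, G3p2_5, G3p2_6, G3p3_4,
  G3p3_5, G3p3_6, G3p4_5, G3p4_6, G3p5_6, G3p7_4, G3p7_5, G3p7_6, G3p7_8, G3p7_9, G3p8_4, G3p8_5,
  G3p8_6, G3p8_9, G3p9_4, G3p9_5, G3p9_6]⟩) (.leaf ⟨1245812836, 76751507905424461635715,
  1102536293589446464411647071743689799992007261681682712996706330084694294641, 304153, [G3p0_4,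
  G3p0_5, G3p0_6, G3p1_0, G3p1_4, G3p1_5, G3p1_6, G3p2_0, G3p2_1, G3p2_4, G3p2_5, G3p2_6, G3p3_0,
  G3p3_1, G3p3_2, G3p3_4, G3p3_5, G3p3_6, G3p4_5, G3p4_6, G3p5_6, G3p7_4, G3p7_5, G3p7_6, G3p7_8,
  G3p7_9, G3p8_4, G3p8_5, G3p8_6, G3p8_9, G3p9_4, G3p9_5, G3p9_6]⟩)) (.node 871 (.leaf ⟨1245780070,
  76749127756349926709282,
  1102536293589446464411647071743667460113770575268406557864430028531223101446, 304145, [G3p0_1,
  G3p0_2, G3p0_4, G3p0_5, G3p0_6, G3p1_2, G3p3_1, G3p3_2, G3p3_4, G3p3_5, G3p3_6, G3p4_5, G3p4_6,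
  G3p5_6, G3p7_4, G3p7_5, G3p7_6, G3p7_8, G3p7_9, G3p8_4, G3p8_5, G3p8_6, G3p8_9, G3p9_4, G3p9_5,
  G3p9_6]⟩) (.leaf ⟨1246255202, 76749127753017032087779,
  1102536293589446464411647071741169777332079109655628369948542479359501402112, 304261, [G3p0_4,
  G3p0_5, G3p0_6, G3p2_1, G3p3_1, G3p3_2, G3p4_5, G3p4_6, G3p5_6, G3p7_4, G3p7_5, G3p7_6, G3p7_8,
  G3p7_9, G3p8_4, G3p8_5, G3p8_6, G3p8_9, G3p9_4, G3p9_5, G3p9_6]⟩)))) (.node 876 (.node 874 (.node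
  873 (.leaf ⟨1246124130, 76749128043219382343905,
  1123738781891083595846287795880686149134349565003711952600391854286183333900, 304229, [G3p0_2,
  G3p0_3, G3p0_4, G3p0_5, G3p0_6, G3p1_2, G3p1_3, G3p3_2, G3p4_5, G3p4_6, G3p5_6, G3p7_2, G3p7_3,
  G3p7_4, G3p7_5, G3p7_6, G3p7_8, G3p7_9, G3p8_2, G3p8_3, G3p8_4, G3p8_5, G3p8_6, G3p8_9, G3p9_2,
  G3p9_3, G3p9_4, G3p9_5, G3p9_6]⟩) (.leaf ⟨1246107746, 76749128043562979727585,
  1127272529941356451085394583237324246967444043008559726879410920009661022222, 304225, [G3p0_1,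
  G3p0_2, G3p0_3, G3p0_4, G3p0_5, G3p0_6, G3p2_1, G3p3_1, G3p3_2, G3p4_5, G3p4_6, G3p5_6, G3p7_1,
  G3p7_2, G3p7_3, G3p7_4, G3p7_5, G3p7_6, G3p7_8, G3p7_9, G3p8_1, G3p8_2, G3p8_3, G3p8_4, G3p8_5,
  G3p8_6, G3p8_9, G3p9_1, G3p9_2, G3p9_3, G3p9_4, G3p9_5, G3p9_6]⟩)) (.node 875 (.leaf ⟨1242699846,
  76745634119759679356995,
  1102536293589446765707932743375002390849681048021819364410012650500882825218, 303393, [G3p0_1,
  G3p0_4, G3p0_5, G3p0_6, G3p2_1, G3p2_3, G3p3_1, G3p5_4, G3p6_4, G3p6_5, G3p7_4, G3p7_5, G3p7_6,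
  G3p7_8, G3p7_9, G3p8_4, G3p8_5, G3p8_6, G3p8_9, G3p9_4, G3p9_5, G3p9_6]⟩) (.leaf ⟨1245845606,
  76749127787170612025411,
  1102536293589446464411647071743578298647404447625986168155470069401428033538, 304161, [G3p0_1,
  G3p0_4, G3p0_5, G3p0_6, G3p2_1, G3p2_3, G3p2_4, G3p2_5, G3p2_6, G3p3_1, G3p3_4, G3p3_5, G3p3_6,
  G3p4_5, G3p4_6, G3p5_6, G3p7_4, G3p7_5, G3p7_6, G3p7_8, G3p7_9, G3p8_4, G3p8_5, G3p8_6, G3p8_9,
  G3p9_4, G3p9_5, G3p9_6]⟩))) (.node 878 (.node 877 (.leaf ⟨1212569698, 76738751749677920721121,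
  1010658844282352604814844647970971773480255108991580185052588864687682879500, 296037, [G3p0_2,
  G3p0_3, G3p0_4, G3p0_5, G3p1_2, G3p1_3, G3p3_2, G3p4_5, G3p6_2, G3p6_3, G3p6_4, G3p6_5, G3p7_2,
  G3p7_3, G3p7_4, G3p7_5, G3p7_8, G3p7_9, G3p8_2, G3p8_3, G3p8_4, G3p8_5, G3p8_9, G3p9_2, G3p9_3,
  G3p9_4, G3p9_5]⟩) (.leaf ⟨303454498, 273897294469555391958145,
  1356945447864744575777765841283758809720324036247774032737277429640013283340, 74085, [G3p0_2,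
  G3p0_3, G3p0_8, G3p0_9, G3p1_2, G3p1_3, G3p3_2, G3p4_2, G3p4_3, G3p4_8, G3p4_9, G3p5_2, G3p5_3,
  G3p5_4, G3p5_8, G3p5_9, G3p6_2, G3p6_3, G3p6_4, G3p6_5, G3p6_8, G3p6_9, G3p7_8, G3p7_9, G3p9_8]⟩))
  (.node 879 (.leaf ⟨1212553314, 76738751750021518104801,
  1014192592332625472608154906100971398984928433411760791536318819339229593614, 296033, [G3p0_1,
  G3p0_2, G3p0_3, G3p0_4, G3p0_5, G3p2_1, G3p3_1, G3p3_2, G3p4_5, G3p6_1, G3p6_2, G3p6_3, G3p6_4,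
  G3p6_5, G3p7_1, G3p7_2, G3p7_3, G3p7_4, G3p7_5, G3p7_8, G3p7_9, G3p8_1, G3p8_2, G3p8_3, G3p8_4,
  G3p8_5, G3p8_9, G3p9_1, G3p9_2, G3p9_3, G3p9_4, G3p9_5]⟩) (.leaf ⟨303438114,
  273897294469795910126721,
  1356945447864744588332160876922776450331903000133184224482787521096496054286, 74081, [G3p0_1,
  G3p0_2, G3p0_3, G3p0_8, G3p0_9, G3p2_1, G3p3_1, G3p3_2, G3p4_1, G3p4_2, G3p4_3, G3p4_8, G3p4_9,
  G3p5_1, G3p5_2, G3p5_3, G3p5_4, G3p5_8, G3p5_9, G3p6_1, G3p6_2, G3p6_3, G3p6_4, G3p6_5, G3p6_8,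
  G3p6_9, G3p7_8, G3p7_9, G3p9_8]⟩))))) (.node 888 (.node 884 (.node 882 (.node 881 (.leaf
  ⟨277240210, 118064927915115302489153,
  1356945447891067451186088015897645005269906077145937344073063058878094901324, 67685, [G3p0_2,
  G3p0_3, G3p0_6, G3p0_8, G3p0_9, G3p1_2, G3p1_3, G3p1_6, G3p3_2, G3p4_6, G3p5_4, G3p5_6, G3p7_6,
  G3p7_8, G3p7_9, G3p9_8]⟩) (.leaf ⟨1216762258, 154738208091439388332130,
  904646402774166571023199428544702912348057432837018478916097887155937607756, 297061, [G3p0_2,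
  G3p0_3, G3p0_6, G3p1_2, G3p1_3, G3p1_6, G3p3_2, G3p4_6, G3p5_4, G3p5_6, G3p7_8, G3p7_9, G3p8_9]⟩))
  (.node 883 (.leaf ⟨2434044296, 76739616220909419010148,
  934683261201485940989234793726824975865954883997823488060401461182476648449, 594249, [G3p1_0,
  G3p1_2, G3p1_3, G3p1_4, G3p2_0, G3p2_3, G3p2_4, G3p3_0, G3p3_4, G3p5_4, G3p5_6, G3p6_4, G3p7_0,
  G3p7_4, G3p7_8, G3p7_9, G3p8_0, G3p8_4, G3p8_9, G3p9_0, G3p9_4]⟩) (.leaf ⟨1628737928,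
  40251956443111825250404,
  1611375307115792035078314928106261439523421231618735098266890390399370723329, 397641, [G3p1_0,
  G3p1_2, G3p1_3, G3p1_4, G3p2_0, G3p2_3, G3p2_4, G3p3_0, G3p3_4, G3p5_4, G3p5_6, G3p6_4, G3p7_4,
  G3p8_4, G3p8_7, G3p9_4, G3p9_7, G3p9_8]⟩))) (.node 886 (.node 885 (.leaf ⟨2434146697,
  76739618402408203526275,
  932916387176349513369681400048662030464292064756123169495554645401741033489, 594274, [G3p0_4,
  G3p1_0, G3p1_4, G3p2_0, G3p2_1, G3p2_4, G3p3_0, G3p3_1, G3p3_2, G3p3_4, G3p5_4, G3p5_6, G3p6_4,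
  G3p7_4, G3p7_8, G3p7_9, G3p8_4, G3p8_9, G3p9_4]⟩) (.leaf ⟨1628840329, 235234046861420394785923,
  1611375307115792035078314928126377014548392476006660590259097056189411754897, 397666, [G3p0_4,
  G3p0_7, G3p0_8, G3p0_9, G3p1_0, G3p1_4, G3p1_7, G3p1_8, G3p1_9, G3p2_0, G3p2_1, G3p2_4, G3p2_7,
  G3p2_8, G3p2_9, G3p3_0, G3p3_1, G3p3_2, G3p3_4, G3p3_7, G3p3_8, G3p3_9, G3p5_4, G3p5_6, G3p6_4,
  G3p7_4, G3p8_4, G3p8_7, G3p9_4, G3p9_7, G3p9_8]⟩)) (.node 887 (.leaf ⟨2433819017,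
  76739616259389104756801,
  932916387176349513369681400048238309840217318980905602975799151285482815517, 594194, [G3p0_4,
  G3p1_0, G3p1_2, G3p1_3, G3p1_4, G3p3_2, G3p5_4, G3p5_6, G3p6_4, G3p7_4, G3p7_8, G3p7_9, G3p8_4,
  G3p8_9, G3p9_4]⟩) (.leaf ⟨1628512649, 157241210774757311784001,
  1611375307115792035078314928105971521333433530735763756983400371299477619613, 397586, [G3p0_4,
  G3p0_7, G3p0_8, G3p0_9, G3p1_0, G3p1_2, G3p1_3, G3p1_4, G3p1_7, G3p1_8, G3p1_9, G3p3_2, G3p5_4,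
  G3p5_6, G3p6_4, G3p7_4, G3p8_4, G3p8_7, G3p9_4, G3p9_7, G3p9_8]⟩)))) (.node 892 (.node 890 (.node
  889 (.leaf ⟨2433884553, 76739617416110805294178,
  932916387176349513369681400048149116047026334166243834303308836511883460633, 594210, [G3p0_4,
  G3p1_0, G3p1_3, G3p1_4, G3p2_0, G3p2_1, G3p2_3, G3p2_4, G3p5_4, G3p5_6, G3p6_4, G3p7_4, G3p7_8,
  G3p7_9, G3p8_4, G3p8_9, G3p9_4]⟩) (.leaf ⟨1628578185, 196237628903301004437602,
  1611375307115792035078314928105882632433243307081965251494558315390195729305, 397602, [G3p0_4,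
  G3p0_7, G3p0_8, G3p0_9, G3p1_0, G3p1_3, G3p1_4, G3p1_7, G3p1_8, G3p1_9, G3p2_0, G3p2_1, G3p2_3,
  G3p2_4, G3p2_7, G3p2_8, G3p2_9, G3p5_4, G3p5_6, G3p6_4, G3p7_4, G3p8_4, G3p8_7, G3p9_4, G3p9_7,
  G3p9_8]⟩)) (.node 891 (.leaf ⟨2435092760, 76743177442314762060900,
  906413276799302998641220373450119266736308553182466967303978764882973622273, 594505, [G3p1_0,
  G3p1_2, G3p1_3, G3p2_0, G3p2_3, G3p3_0, G3p4_5, G3p4_6, G3p5_6, G3p7_0, G3p7_8, G3p7_9, G3p8_0,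
  G3p8_9, G3p9_0]⟩) (.leaf ⟨1629786392, 40255517664517168301156,
  1583105322713609092730300507829555730393774900803378577510467694099867697153, 397897, [G3p1_0,
  G3p1_2, G3p1_3, G3p2_0, G3p2_3, G3p3_0, G3p4_5, G3p4_6, G3p5_6, G3p8_7, G3p9_7, G3p9_8]⟩))) (.node
  894 (.node 893 (.leaf ⟨2441384216, 76739683774905976885414,
  906413276799303306214703562903527599732785416615808215045628629654622502913, 596041, [G3p1_0,
  G3p1_2, G3p1_3, G3p2_0, G3p2_3, G3p3_0, G3p4_0, G3p5_0, G3p5_4, G3p6_0, G3p6_4, G3p6_5, G3p7_0,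
  G3p7_8, G3p7_9, G3p8_0, G3p8_9, G3p9_0]⟩) (.leaf ⟨1636077848, 40252023997108383125670,
  1583105322713609400303783697282964063390251764236719825252117558871516577793, 399433, [G3p1_0,
  G3p1_2, G3p1_3, G3p2_0, G3p2_3, G3p3_0, G3p4_0, G3p5_0, G3p5_4, G3p6_0, G3p6_4, G3p6_5, G3p8_7,
  G3p9_7, G3p9_8]⟩)) (.node 895 (.leaf ⟨2435195153, 76743177408333084623876,
  904646402774166571021666979771956321334645732673116048510902266126271447041, 594530, [G3p1_0,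
  G3p2_0, G3p2_1, G3p3_0, G3p3_1, G3p3_2, G3p4_5, G3p4_6, G3p5_6, G3p7_8, G3p7_9, G3p8_9]⟩) (.leaf
  ⟨2441486609, 76739683740922151964676,
  904646402774166872317952651405878135110782858005909153109937495582809456641, 596066, [G3p1_0,
  G3p2_0, G3p2_1, G3p3_0, G3p3_1, G3p3_2, G3p5_4, G3p6_4, G3p6_5, G3p7_8, G3p7_9, G3p8_9]⟩))))))

def G3T15 : Tr :=
  .node 928 (.node 912 (.node 904 (.node 900 (.node 898 (.node 897 (.leaf ⟨1629888785,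
  274234019461467547370500,
  1583105322713609092730300507849671305418746143923653469274444676914000888705, 397922, [G3p0_7,
  G3p0_8, G3p0_9, G3p1_0, G3p1_7, G3p1_8, G3p1_9, G3p2_0, G3p2_1, G3p2_7, G3p2_8, G3p2_9, G3p3_0,
  G3p3_1, G3p3_2, G3p3_7, G3p3_8, G3p3_9, G3p4_5, G3p4_6, G3p5_6, G3p8_7, G3p9_7, G3p9_8]⟩) (.leaf
  ⟨1636180241, 274230525794056614711300,
  1583105322713609394026586179483593119194883269256446573873479906370538898305, 399458, [G3p0_7,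
  G3p0_8, G3p0_9, G3p1_0, G3p1_7, G3p1_8, G3p1_9, G3p2_0, G3p2_1, G3p2_7, G3p2_8, G3p2_9, G3p3_0,
  G3p3_1, G3p3_2, G3p3_7, G3p3_8, G3p3_9, G3p5_4, G3p6_4, G3p6_5, G3p8_7, G3p9_7, G3p9_8]⟩)) (.node
  899 (.leaf ⟨2434867481, 76743177480794447807553,
  904646402774166571021666979771889418078265347603178468897506242453652111373, 594450, [G3p1_0,
  G3p1_2, G3p1_3, G3p3_2, G3p4_5, G3p4_6, G3p5_6, G3p7_8, G3p7_9, G3p8_9]⟩) (.leaf ⟨1629561113,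
  157244768618462934205505,
  1583105322713609092730300507829622629571481559358036622905107462467646915469, 397842, [G3p0_7,
  G3p0_8, G3p0_9, G3p1_0, G3p1_2, G3p1_3, G3p1_7, G3p1_8, G3p1_9, G3p3_2, G3p4_5, G3p4_6, G3p5_6,
  G3p8_7, G3p9_7, G3p9_8]⟩))) (.node 902 (.node 901 (.leaf ⟨2441158937, 76739683922235166298273,
  904646402774166947644322865239649462498479330142549291207917095691439833101, 595986, [G3p1_0,
  G3p1_2, G3p1_3, G3p3_2, G3p4_2, G3p4_3, G3p5_2, G3p5_3, G3p5_4, G3p6_2, G3p6_3, G3p6_4, G3p6_5,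
  G3p7_8, G3p7_9, G3p8_9]⟩) (.leaf ⟨1635852569, 157241275059903652696225,
  1583105322713609469352956393297382673991695541897407445215518315705434637197, 399378, [G3p0_7,
  G3p0_8, G3p0_9, G3p1_0, G3p1_2, G3p1_3, G3p1_7, G3p1_8, G3p1_9, G3p3_2, G3p4_2, G3p4_3, G3p5_2,
  G3p5_3, G3p5_4, G3p6_2, G3p6_3, G3p6_4, G3p6_5, G3p8_7, G3p9_7, G3p9_8]⟩)) (.node 903 (.leaf
  ⟨2441683217, 76739683774903933210724,
  904646402774166872317952651405744332681348183354993137512091615960332566529, 596114, [G3p1_0,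
  G3p1_2, G3p1_3, G3p2_0, G3p2_3, G3p3_0, G3p5_4, G3p6_4, G3p6_5, G3p7_8, G3p7_9, G3p8_9]⟩) (.leaf
  ⟨1636376849, 274230525828038395957348,
  1583105322713609394026586179483459316765448594605530558275634026748062008193, 399506, [G3p0_7,
  G3p0_8, G3p0_9, G3p1_0, G3p1_2, G3p1_3, G3p1_7, G3p1_8, G3p1_9, G3p2_0, G3p2_3, G3p2_7, G3p2_8,
  G3p2_9, G3p3_0, G3p3_7, G3p3_8, G3p3_9, G3p5_4, G3p6_4, G3p6_5, G3p8_7, G3p9_7, G3p9_8]⟩))))
  (.node 908 (.node 906 (.node 905 (.leaf ⟨2441650449, 76739683707934586441762,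
  904646402774166872317952651405878134089951334133669367202699264776491958279, 596106, [G3p1_2,
  G3p3_0, G3p3_1, G3p3_2, G3p5_4, G3p6_4, G3p6_5, G3p7_8, G3p7_9, G3p8_9]⟩) (.leaf ⟨1636344081,
  196237691817425064955938,
  1583105322713609394026586179483592813276398686238096319227430091988922729351, 399498, [G3p0_7,
  G3p0_8, G3p0_9, G3p1_2, G3p3_0, G3p3_1, G3p3_2, G3p3_7, G3p3_8, G3p3_9, G3p5_4, G3p6_4, G3p6_5,
  G3p8_7, G3p9_7, G3p9_8]⟩)) (.node 907 (.leaf ⟨2434933017, 76743177511616241468514,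
  904646402774166571021666979771800218840556492053501284811021082854674661385, 594466, [G3p1_0,
  G3p1_3, G3p2_0, G3p2_1, G3p2_3, G3p4_5, G3p4_6, G3p5_6, G3p7_8, G3p7_9, G3p8_9]⟩) (.leaf
  ⟨2441224473, 76739683914574052987042,
  904646402774166922535532793961614186379411522190679534550973394832048259081, 596002, [G3p1_0,
  G3p1_3, G3p2_0, G3p2_1, G3p2_3, G3p4_3, G3p5_3, G3p5_4, G3p6_3, G3p6_4, G3p6_5, G3p7_8, G3p7_9,
  G3p8_9]⟩))) (.node 910 (.node 909 (.leaf ⟨1629626649, 196241185621106719982690,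
  1583105322713609092730300507829533735226773464969222702002270561732986930057, 397858, [G3p0_7,
  G3p0_8, G3p0_9, G3p1_0, G3p1_3, G3p1_7, G3p1_8, G3p1_9, G3p2_0, G3p2_1, G3p2_3, G3p2_7, G3p2_8,
  G3p2_9, G3p4_5, G3p4_6, G3p5_6, G3p8_7, G3p9_7, G3p9_8]⟩) (.leaf ⟨1635918105,
  196237692024064531501218,
  1583105322713609444244166322019347702765628495106400951742222873710360527753, 399394, [G3p0_7,
  G3p0_8, G3p0_9, G3p1_0, G3p1_3, G3p1_7, G3p1_8, G3p1_9, G3p2_0, G3p2_1, G3p2_3, G3p2_7, G3p2_8,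
  G3p2_9, G3p4_3, G3p5_3, G3p5_4, G3p6_3, G3p6_4, G3p6_5, G3p8_7, G3p9_7, G3p9_8]⟩)) (.node 911
  (.leaf ⟨2434048289, 76743068411615119509604,
  904646402774166571024636165036700042857444656083723066770217062171946188815, 594250, [G3p1_2,
  G3p1_3, G3p2_3, G3p4_0, G3p4_1, G3p4_2, G3p4_3, G3p4_6, G3p5_0, G3p5_1, G3p5_2, G3p5_3, G3p5_4,
  G3p5_6, G3p7_8, G3p7_9, G3p8_9]⟩) (.leaf ⟨1628741921, 274233910464749582256228,
  1583105322713609092819090752888390078903090713875361443294889963881149432719, 397642, [G3p0_7,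
  G3p0_8, G3p0_9, G3p1_2, G3p1_3, G3p2_3, G3p4_0, G3p4_1, G3p4_2, G3p4_3, G3p4_6, G3p4_7, G3p4_8,
  G3p4_9, G3p5_0, G3p5_1, G3p5_2, G3p5_3, G3p5_4, G3p5_6, G3p5_7, G3p5_8, G3p5_9, G3p8_7, G3p9_7,
  G3p9_8]⟩))))) (.node 920 (.node 916 (.node 914 (.node 913 (.leaf ⟨2434146593,
  76743068305000176388199,
  904646402774166571024636165036856146372365420575577616377338728084025573377, 594274, [G3p1_0,
  G3p2_0, G3p2_1, G3p3_0, G3p3_1, G3p3_2, G3p4_0, G3p4_1, G3p4_2, G3p4_3, G3p4_6, G3p5_0, G3p5_1,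
  G3p5_2, G3p5_3, G3p5_4, G3p5_6, G3p7_8, G3p7_9, G3p8_9]⟩) (.leaf ⟨1628840225,
  391223161273600615483495,
  1583105322713609092819090752908527955013547975848142465213116145277885940609, 397666, [G3p0_7,
  G3p0_8, G3p0_9, G3p1_0, G3p1_7, G3p1_8, G3p1_9, G3p2_0, G3p2_1, G3p2_7, G3p2_8, G3p2_9, G3p3_0,
  G3p3_1, G3p3_2, G3p3_7, G3p3_8, G3p3_9, G3p4_0, G3p4_1, G3p4_2, G3p4_3, G3p4_6, G3p4_7, G3p4_8,
  G3p4_9, G3p5_0, G3p5_1, G3p5_2, G3p5_3, G3p5_4, G3p5_6, G3p5_7, G3p5_8, G3p5_9, G3p8_7, G3p9_7,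
  G3p9_8]⟩)) (.node 915 (.leaf ⟨2453967128, 76740797289913844338854,
  906413276799303004918417891269605785956648291283015110446561874519649222657, 599113, [G3p1_0,
  G3p1_2, G3p1_3, G3p2_0, G3p2_3, G3p3_0, G3p4_0, G3p4_5, G3p4_6, G3p5_0, G3p5_6, G3p6_0, G3p7_0,
  G3p7_8, G3p7_9, G3p8_0, G3p8_9, G3p9_0]⟩) (.leaf ⟨1648660760, 40253137512116250579110,
  1583105322713609099007498025649042249614114638903926720653050803736543297537, 402505, [G3p1_0,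
  G3p1_2, G3p1_3, G3p2_0, G3p2_3, G3p3_0, G3p4_0, G3p4_5, G3p4_6, G3p5_0, G3p5_6, G3p6_0, G3p8_7,
  G3p9_7, G3p9_8]⟩))) (.node 918 (.node 917 (.leaf ⟨2434306340, 76744221190010239585345,
  906413276799302998642752822222999660179160114271627294519199512494682669133, 594313, [G3p1_0,
  G3p1_2, G3p1_3, G3p1_6, G3p3_2, G3p4_6, G3p5_4, G3p5_6, G3p7_0, G3p7_8, G3p7_9, G3p8_0, G3p8_9,
  G3p9_0]⟩) (.leaf ⟨1628999972, 40256561412210498341953,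
  1583105322713609092731832956602436123836626461892538904725688441711576744013, 397705, [G3p1_0,
  G3p1_2, G3p1_3, G3p1_6, G3p3_2, G3p4_6, G3p5_4, G3p5_6, G3p8_7, G3p9_7, G3p9_8]⟩)) (.node 919
  (.leaf ⟨2450821704, 349720552958672117076068,
  906413276799303299937506045106520574682424238181302369799988214285751877633, 598345, [G3p1_0,
  G3p1_2, G3p1_3, G3p1_4, G3p1_5, G3p1_6, G3p1_7, G3p1_8, G3p1_9, G3p2_0, G3p2_3, G3p2_4, G3p2_5,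
  G3p2_6, G3p2_7, G3p2_8, G3p2_9, G3p3_0, G3p3_4, G3p3_5, G3p3_6, G3p3_7, G3p3_8, G3p3_9, G3p5_4,
  G3p6_4, G3p6_5, G3p7_0, G3p7_8, G3p7_9, G3p8_0, G3p8_9, G3p9_0]⟩) (.leaf ⟨1645515336,
  313232893180871302090852,
  1583105322713609394026586179485957038339890585802213980006477143502645952513, 401737, [G3p1_0,
  G3p1_2, G3p1_3, G3p1_4, G3p1_5, G3p1_6, G3p1_7, G3p1_8, G3p1_9, G3p2_0, G3p2_3, G3p2_4, G3p2_5,
  G3p2_6, G3p2_7, G3p2_8, G3p2_9, G3p3_0, G3p3_4, G3p3_5, G3p3_6, G3p3_7, G3p3_8, G3p3_9, G3p5_4,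
  G3p6_4, G3p6_5, G3p8_7, G3p9_7, G3p9_8]⟩)))) (.node 924 (.node 922 (.node 921 (.leaf ⟨2585044040,
  151159799749254748213349,
  904652900062486867697910050151815576624871221698463628097948711277806223360, 631114, [G3p1_2,
  G3p1_3, G3p1_4, G3p1_5, G3p1_6, G3p2_3, G3p2_4, G3p2_5, G3p2_6, G3p3_4, G3p3_5, G3p3_6, G3p5_4,
  G3p6_4, G3p6_5, G3p7_0, G3p7_4, G3p7_5, G3p7_6, G3p7_9, G3p8_0, G3p8_4, G3p8_5, G3p8_6, G3p8_7,
  G3p8_9]⟩) (.leaf ⟨2454069521, 76740797255930019418116,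
  904646402774166571021666979771956321334645732673116048510870740447836176385, 599138, [G3p1_0,
  G3p2_0, G3p2_1, G3p3_0, G3p3_1, G3p3_2, G3p4_5, G3p4_6, G3p5_6, G3p7_8, G3p7_9, G3p8_9]⟩)) (.node
  923 (.leaf ⟨1648763153, 274231639309064482164740,
  1583105322713609092730300507849671305418746143923653469274413151235565618049, 402530, [G3p0_7,
  G3p0_8, G3p0_9, G3p1_0, G3p1_7, G3p1_8, G3p1_9, G3p2_0, G3p2_1, G3p2_7, G3p2_8, G3p2_9, G3p3_0,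
  G3p3_1, G3p3_2, G3p3_7, G3p3_8, G3p3_9, G3p4_5, G3p4_6, G3p5_6, G3p8_7, G3p9_7, G3p9_8]⟩) (.leaf
  ⟨2450924105, 388718159936388135588995,
  904646402774166872317952651428357629280761417671951450988464971455331828721, 598370, [G3p1_0,
  G3p1_4, G3p1_5, G3p1_6, G3p1_7, G3p1_8, G3p1_9, G3p2_0, G3p2_1, G3p2_4, G3p2_5, G3p2_6, G3p2_7,
  G3p2_8, G3p2_9, G3p3_0, G3p3_1, G3p3_2, G3p3_4, G3p3_5, G3p3_6, G3p3_7, G3p3_8, G3p3_9, G3p5_4,
  G3p6_4, G3p6_5, G3p7_8, G3p7_9, G3p8_9]⟩))) (.node 926 (.node 925 (.leaf ⟨1645617737,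
  352230500158590541829251,
  1583105322713609394026586179486090840769325331441562399440902866758345425905, 401762, [G3p0_7,
  G3p0_8, G3p0_9, G3p1_0, G3p1_4, G3p1_5, G3p1_6, G3p1_7, G3p1_8, G3p1_9, G3p2_0, G3p2_1, G3p2_4,
  G3p2_5, G3p2_6, G3p2_7, G3p2_8, G3p2_9, G3p3_0, G3p3_1, G3p3_2, G3p3_4, G3p3_5, G3p3_6, G3p3_7,
  G3p3_8, G3p3_9, G3p5_4, G3p6_4, G3p6_5, G3p8_7, G3p9_7, G3p9_8]⟩) (.leaf ⟨2585142345,
  151160989755156256199811,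
  904652900062486867697910050151971680139791986190318177705070377189885608049, 631138, [G3p1_0,
  G3p1_4, G3p1_5, G3p1_6, G3p2_0, G3p2_1, G3p2_4, G3p2_5, G3p2_6, G3p3_0, G3p3_1, G3p3_2, G3p3_4,
  G3p3_5, G3p3_6, G3p5_4, G3p6_4, G3p6_5, G3p7_0, G3p7_4, G3p7_5, G3p7_6, G3p7_9, G3p8_0, G3p8_4,
  G3p8_5, G3p8_6, G3p8_7, G3p8_9]⟩)) (.node 927 (.leaf ⟨2453741849, 76740797437243033751713,
  904646402774166646348037193605727648722342204809756186608850340556466552845, 599058, [G3p1_0,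
  G3p1_2, G3p1_3, G3p3_2, G3p4_2, G3p4_3, G3p4_5, G3p4_6, G3p5_2, G3p5_3, G3p5_6, G3p6_2, G3p6_3,
  G3p7_8, G3p7_9, G3p8_9]⟩) (.leaf ⟨1648435481, 157242388574911520149665,
  1583105322713609168056670721663460860215558416564614340616451560570461356941, 402450, [G3p0_7,
  G3p0_8, G3p0_9, G3p1_0, G3p1_2, G3p1_3, G3p1_7, G3p1_8, G3p1_9, G3p3_2, G3p4_2, G3p4_3, G3p4_5,
  G3p4_6, G3p5_2, G3p5_3, G3p5_6, G3p6_2, G3p6_3, G3p8_7, G3p9_7, G3p9_8]⟩)))))) (.node 944 (.node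
  936 (.node 932 (.node 930 (.node 929 (.leaf ⟨2454266129, 76740797289911800664164,
  904646402774166571021666979771822518905211058022200032913024860825359286273, 599186, [G3p1_0,
  G3p1_2, G3p1_3, G3p2_0, G3p2_3, G3p3_0, G3p4_5, G3p4_6, G3p5_6, G3p7_8, G3p7_9, G3p8_9]⟩) (.leaf
  ⟨1648959761, 274231639343046263410788,
  1583105322713609092730300507849537502989311469272737453676567271613088727937, 402578, [G3p0_7,
  G3p0_8, G3p0_9, G3p1_0, G3p1_2, G3p1_3, G3p1_7, G3p1_8, G3p1_9, G3p2_0, G3p2_3, G3p2_7, G3p2_8,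
  G3p2_9, G3p3_0, G3p3_7, G3p3_8, G3p3_9, G3p4_5, G3p4_6, G3p5_6, G3p8_7, G3p9_7, G3p9_8]⟩)) (.node
  931 (.leaf ⟨2454233361, 76740797222942453895202,
  904646402774166571021666979771956320313814208800876262603632509641518678023, 599178, [G3p1_2,
  G3p3_0, G3p3_1, G3p3_2, G3p4_5, G3p4_6, G3p5_6, G3p7_8, G3p7_9, G3p8_9]⟩) (.leaf ⟨1648926993,
  196238805332432932409378,
  1583105322713609092730300507849670999500261560905303214628363336853949449095, 402570, [G3p0_7,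
  G3p0_8, G3p0_9, G3p1_2, G3p3_0, G3p3_1, G3p3_2, G3p3_7, G3p3_8, G3p3_9, G3p4_5, G3p4_6, G3p5_6,
  G3p8_7, G3p9_7, G3p9_8]⟩))) (.node 934 (.node 933 (.leaf ⟨2453807385, 76740797429581920440482,
  904646402774166621239247122327692372603274396857886429951906639697074978825, 599074, [G3p1_0,
  G3p1_3, G3p2_0, G3p2_1, G3p2_3, G3p4_3, G3p4_5, G3p4_6, G3p5_3, G3p5_6, G3p6_3, G3p7_8, G3p7_9,
  G3p8_9]⟩) (.leaf ⟨2450661961, 349720553027967119429730,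
  904646402774166872317952651405722375626553308925668683269751987951541683193, 598306, [G3p1_0,
  G3p1_3, G3p1_4, G3p1_5, G3p1_6, G3p1_7, G3p1_8, G3p1_9, G3p2_0, G3p2_1, G3p2_3, G3p2_4, G3p2_5,
  G3p2_6, G3p2_7, G3p2_8, G3p2_9, G3p5_4, G3p6_4, G3p6_5, G3p7_8, G3p7_9, G3p8_9]⟩)) (.node 935
  (.leaf ⟨1645355593, 313232893250169525669986,
  1583105322713609394026586179463455587115117222695279631722189883254555280377, 401698, [G3p0_7,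
  G3p0_8, G3p0_9, G3p1_0, G3p1_3, G3p1_4, G3p1_5, G3p1_6, G3p1_7, G3p1_8, G3p1_9, G3p2_0, G3p2_1,
  G3p2_3, G3p2_4, G3p2_5, G3p2_6, G3p2_7, G3p2_8, G3p2_9, G3p5_4, G3p6_4, G3p6_5, G3p8_7, G3p9_7,
  G3p9_8]⟩) (.leaf ⟨2584880201, 151159799818558340501602,
  904652900062486867697910050149317894183467315778851413558650325595453915257, 631074, [G3p1_0,
  G3p1_3, G3p1_4, G3p1_5, G3p1_6, G3p2_0, G3p2_1, G3p2_3, G3p2_4, G3p2_5, G3p2_6, G3p5_4, G3p6_4,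
  G3p6_5, G3p7_0, G3p7_4, G3p7_5, G3p7_6, G3p7_9, G3p8_0, G3p8_4, G3p8_5, G3p8_6, G3p8_7,
  G3p8_9]⟩)))) (.node 940 (.node 938 (.node 937 (.leaf ⟨1648501017, 196238805539072398954658,
  1583105322713609142947880650385425888989491369773607847143156118575387247497, 402466, [G3p0_7,
  G3p0_8, G3p0_9, G3p1_0, G3p1_3, G3p1_7, G3p1_8, G3p1_9, G3p2_0, G3p2_1, G3p2_3, G3p2_7, G3p2_8,
  G3p2_9, G3p4_3, G3p4_5, G3p4_6, G3p5_3, G3p5_6, G3p6_3, G3p8_7, G3p9_7, G3p9_8]⟩) (.leaf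
  ⟨2425655688, 76749127823322425497700,
  1104303167614582892031200465421852745393670073317479430192176736885210677249, 592201, [G3p1_0,
  G3p1_2, G3p1_3, G3p1_4, G3p1_5, G3p1_6, G3p2_0, G3p2_3, G3p2_4, G3p2_5, G3p2_6, G3p3_0, G3p3_4,
  G3p3_5, G3p3_6, G3p4_5, G3p4_6, G3p5_6, G3p7_0, G3p7_4, G3p7_5, G3p7_6, G3p7_8, G3p7_9, G3p8_0,
  G3p8_4, G3p8_5, G3p8_6, G3p8_9, G3p9_0, G3p9_4, G3p9_5, G3p9_6]⟩)) (.node 939 (.leaf ⟨1620349320,
  40261468045524831737956,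
  1780995213528888986120280599801289209051136420938391040398665666102104752129, 395593, [G3p1_0,
  G3p1_2, G3p1_3, G3p1_4, G3p1_5, G3p1_6, G3p2_0, G3p2_3, G3p2_4, G3p2_5, G3p2_6, G3p3_0, G3p3_4,
  G3p3_5, G3p3_6, G3p4_5, G3p4_6, G3p5_6, G3p7_4, G3p7_5, G3p7_6, G3p8_4, G3p8_5, G3p8_6, G3p8_7,
  G3p9_4, G3p9_5, G3p9_6, G3p9_7, G3p9_8]⟩) (.leaf ⟨2425918020, 310720489235533660291137,
  906413276799308629287393857529593906554107918955129818760703235128484954125, 592265, [G3p1_0,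
  G3p1_2, G3p1_3, G3p3_2, G3p4_0, G3p4_5, G3p4_6, G3p4_7, G3p4_8, G3p4_9, G3p5_0, G3p5_6, G3p5_7,
  G3p5_8, G3p5_9, G3p6_0, G3p6_7, G3p6_8, G3p6_9, G3p7_0, G3p7_8, G3p7_9, G3p8_0, G3p8_9,
  G3p9_0]⟩))) (.node 942 (.node 941 (.leaf ⟨1620611652, 274232829457732845305921,
  1583105322713614723376473991909030370211574266576041428967192164345379029005, 395657, [G3p1_0,
  G3p1_2, G3p1_3, G3p3_2, G3p4_0, G3p4_5, G3p4_6, G3p4_7, G3p4_8, G3p4_9, G3p5_0, G3p5_6, G3p5_7,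
  G3p5_8, G3p5_9, G3p6_0, G3p6_7, G3p6_8, G3p6_9, G3p8_7, G3p9_7, G3p9_8]⟩) (.leaf ⟨2425917828,
  76749128043223677311201,
  1125505655916220023465841189558982896965452242636545270050164620082977439757, 592265, [G3p1_0,
  G3p1_2, G3p1_3, G3p3_2, G3p4_5, G3p4_6, G3p5_6, G3p7_0, G3p7_2, G3p7_3, G3p7_4, G3p7_5, G3p7_6,
  G3p7_8, G3p7_9, G3p8_0, G3p8_2, G3p8_3, G3p8_4, G3p8_5, G3p8_6, G3p8_9, G3p9_0, G3p9_2, G3p9_3,
  G3p9_4, G3p9_5, G3p9_6]⟩)) (.node 943 (.leaf ⟨1620611460, 40261468265423936067809,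
  1802197701830526117554921323938419360622918590257456880256653549299871514637, 395657, [G3p1_0,
  G3p1_2, G3p1_3, G3p3_2, G3p4_5, G3p4_6, G3p5_6, G3p7_2, G3p7_3, G3p7_4, G3p7_5, G3p7_6, G3p8_2,
  G3p8_3, G3p8_4, G3p8_5, G3p8_6, G3p8_7, G3p9_2, G3p9_3, G3p9_4, G3p9_5, G3p9_6, G3p9_7, G3p9_8]⟩)
  (.leaf ⟨2422772292, 310716995640690495065217,
  906413276799309005910049742997353950974321901494500641071114088366272675853, 591497, [G3p1_0,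
  G3p1_2, G3p1_3, G3p3_2, G3p4_0, G3p4_2, G3p4_3, G3p4_7, G3p4_8, G3p4_9, G3p5_0, G3p5_2, G3p5_3,
  G3p5_4, G3p5_7, G3p5_8, G3p5_9, G3p6_0, G3p6_2, G3p6_3, G3p6_4, G3p6_5, G3p6_7, G3p6_8, G3p6_9,
  G3p7_0, G3p7_8, G3p7_9, G3p8_0, G3p8_9, G3p9_0]⟩))))) (.node 952 (.node 948 (.node 946 (.node 945
  (.leaf ⟨1617465924, 274229335862889680080001,
  1583105322713615099999129877376790414631788249115412251277603017583166750733, 394889, [G3p1_0,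
  G3p1_2, G3p1_3, G3p3_2, G3p4_0, G3p4_2, G3p4_3, G3p4_7, G3p4_8, G3p4_9, G3p5_0, G3p5_2, G3p5_3,
  G3p5_4, G3p5_7, G3p5_8, G3p5_9, G3p6_0, G3p6_2, G3p6_3, G3p6_4, G3p6_5, G3p6_7, G3p6_8, G3p6_9,
  G3p8_7, G3p9_7, G3p9_8]⟩) (.leaf ⟨2422509960, 76745634155911492838500,
  1104303167614583193327486137053276837595365136465156725752323901906166546433, 591433, [G3p1_0,
  G3p1_2, G3p1_3, G3p2_0, G3p2_3, G3p3_0, G3p5_4, G3p6_4, G3p6_5, G3p7_0, G3p7_4, G3p7_5, G3p7_6,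
  G3p7_8, G3p7_9, G3p8_0, G3p8_4, G3p8_5, G3p8_6, G3p8_9, G3p9_0, G3p9_4, G3p9_5, G3p9_6]⟩)) (.node
  947 (.leaf ⟨1617203592, 40257974378113899078756,
  1780995213528889287416566271432713301252831484086068335958812831123060621313, 394825, [G3p1_0,
  G3p1_2, G3p1_3, G3p2_0, G3p2_3, G3p3_0, G3p5_4, G3p6_4, G3p6_5, G3p7_4, G3p7_5, G3p7_6, G3p8_4,
  G3p8_5, G3p8_6, G3p8_7, G3p9_4, G3p9_5, G3p9_6, G3p9_7, G3p9_8]⟩) (.leaf ⟨2422510152,
  349713412501462921154660,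
  906413276799308930583679529183430593752727252187870959686396501819601780737, 591433, [G3p1_0,
  G3p1_2, G3p1_3, G3p1_7, G3p1_8, G3p1_9, G3p2_0, G3p2_3, G3p2_7, G3p2_8, G3p2_9, G3p3_0, G3p3_7,
  G3p3_8, G3p3_9, G3p4_0, G3p4_7, G3p4_8, G3p4_9, G3p5_0, G3p5_4, G3p5_7, G3p5_8, G3p5_9, G3p6_0,
  G3p6_4, G3p6_5, G3p6_7, G3p6_8, G3p6_9, G3p7_0, G3p7_8, G3p7_9, G3p8_0, G3p8_9, G3p9_0]⟩))) (.node
  950 (.node 949 (.leaf ⟨1617203784, 313225752723662106169444,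
  1583105322713615024672759663562867057410193599808782569892885431036495855617, 394825, [G3p1_0,
  G3p1_2, G3p1_3, G3p1_7, G3p1_8, G3p1_9, G3p2_0, G3p2_3, G3p2_7, G3p2_8, G3p2_9, G3p3_0, G3p3_7,
  G3p3_8, G3p3_9, G3p4_0, G3p4_7, G3p4_8, G3p4_9, G3p5_0, G3p5_4, G3p5_7, G3p5_8, G3p5_9, G3p6_0,
  G3p6_4, G3p6_5, G3p6_7, G3p6_8, G3p6_9, G3p8_7, G3p9_7, G3p9_8]⟩) (.leaf ⟨2556732488,
  151152659292045552291941,
  904649880502386019221259278263288971740187898013655888211135665130210066432, 624202, [G3p1_2,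
  G3p1_3, G3p2_3, G3p5_4, G3p6_4, G3p6_5, G3p7_0, G3p7_9, G3p8_0, G3p8_7, G3p8_9]⟩)) (.node 951
  (.leaf ⟨2425655880, 466710917389149285912676,
  906413276799308629287393857552006501551032189040193664126249336798645911553, 592201, [G3p1_0,
  G3p1_2, G3p1_3, G3p1_4, G3p1_5, G3p1_6, G3p1_7, G3p1_8, G3p1_9, G3p2_0, G3p2_3, G3p2_4, G3p2_5,
  G3p2_6, G3p2_7, G3p2_8, G3p2_9, G3p3_0, G3p3_4, G3p3_5, G3p3_6, G3p3_7, G3p3_8, G3p3_9, G3p4_0,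
  G3p4_5, G3p4_6, G3p4_7, G3p4_8, G3p4_9, G3p5_0, G3p5_6, G3p5_7, G3p5_8, G3p5_9, G3p6_0, G3p6_7,
  G3p6_8, G3p6_9, G3p7_0, G3p7_8, G3p7_9, G3p8_0, G3p8_9, G3p9_0]⟩) (.leaf ⟨1620349512,
  430223257611348470927460,
  1583105322713614723376473991931442965208498536661105274332738266015539986433, 395593, [G3p1_0,
  G3p1_2, G3p1_3, G3p1_4, G3p1_5, G3p1_6, G3p1_7, G3p1_8, G3p1_9, G3p2_0, G3p2_3, G3p2_4, G3p2_5,
  G3p2_6, G3p2_7, G3p2_8, G3p2_9, G3p3_0, G3p3_4, G3p3_5, G3p3_6, G3p3_7, G3p3_8, G3p3_9, G3p4_0,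
  G3p4_5, G3p4_6, G3p4_7, G3p4_8, G3p4_9, G3p5_0, G3p5_6, G3p5_7, G3p5_8, G3p5_9, G3p6_0, G3p6_7,
  G3p6_8, G3p6_9, G3p8_7, G3p9_7, G3p9_8]⟩)))) (.node 956 (.node 954 (.node 953 (.leaf ⟨2425660001,
  271722882403251676876966,
  904646402774172289548605713324019227549226377780619918354220960407039705103, 592202, [G3p1_2,
  G3p1_3, G3p2_3, G3p4_0, G3p4_1, G3p4_2, G3p4_3, G3p4_5, G3p4_6, G3p4_7, G3p4_8, G3p4_9, G3p5_0,
  G3p5_1, G3p5_2, G3p5_3, G3p5_6, G3p5_7, G3p5_8, G3p5_9, G3p6_0, G3p6_1, G3p6_2, G3p6_3, G3p6_7,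
  G3p6_8, G3p6_9, G3p7_8, G3p7_9, G3p8_9]⟩) (.leaf ⟨2425758089, 76751507905424461635715,
  1102536293589446464411647071743689799992007261681682712996706330084694294641, 592226, [G3p0_4,
  G3p0_5, G3p0_6, G3p1_0, G3p1_4, G3p1_5, G3p1_6, G3p2_0, G3p2_1, G3p2_4, G3p2_5, G3p2_6, G3p3_0,
  G3p3_1, G3p3_2, G3p3_4, G3p3_5, G3p3_6, G3p4_5, G3p4_6, G3p5_6, G3p7_4, G3p7_5, G3p7_6, G3p7_8,
  G3p7_9, G3p8_4, G3p8_5, G3p8_6, G3p8_9, G3p9_4, G3p9_5, G3p9_6]⟩)) (.node 955 (.leaf ⟨1620353633,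
  352224473540920160129190,
  1583105322713614811257239241381752439037790291550230866806658859558402720655, 395594, [G3p0_7,
  G3p0_8, G3p0_9, G3p1_2, G3p1_3, G3p2_3, G3p4_0, G3p4_1, G3p4_2, G3p4_3, G3p4_5, G3p4_6, G3p4_7,
  G3p4_8, G3p4_9, G3p5_0, G3p5_1, G3p5_2, G3p5_3, G3p5_6, G3p5_7, G3p5_8, G3p5_9, G3p6_0, G3p6_1,
  G3p6_2, G3p6_3, G3p6_7, G3p6_8, G3p6_9, G3p8_7, G3p9_7, G3p9_8]⟩) (.leaf ⟨1620451721,
  235249503215341530328195,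
  1780995213528888986120280599821404784076107672932220133760248740872365016049, 395618, [G3p0_4,
  G3p0_5, G3p0_6, G3p0_7, G3p0_8, G3p0_9, G3p1_0, G3p1_4, G3p1_5, G3p1_6, G3p1_7, G3p1_8, G3p1_9,
  G3p2_0, G3p2_1, G3p2_4, G3p2_5, G3p2_6, G3p2_7, G3p2_8, G3p2_9, G3p3_0, G3p3_1, G3p3_2, G3p3_4,
  G3p3_5, G3p3_6, G3p3_7, G3p3_8, G3p3_9, G3p4_5, G3p4_6, G3p5_6, G3p7_4, G3p7_5, G3p7_6, G3p8_4,
  G3p8_5, G3p8_6, G3p8_7, G3p9_4, G3p9_5, G3p9_6, G3p9_7, G3p9_8]⟩))) (.node 958 (.node 957 (.leaf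
  ⟨2425758281, 505708524366862083200131,
  904646402774172195390642946054357036929029630430294602172111458653122331633, 592226, [G3p1_0,
  G3p1_4, G3p1_5, G3p1_6, G3p1_7, G3p1_8, G3p1_9, G3p2_0, G3p2_1, G3p2_4, G3p2_5, G3p2_6, G3p2_7,
  G3p2_8, G3p2_9, G3p3_0, G3p3_1, G3p3_2, G3p3_4, G3p3_5, G3p3_6, G3p3_7, G3p3_8, G3p3_9, G3p4_5,
  G3p4_6, G3p4_7, G3p4_8, G3p4_9, G3p5_6, G3p5_7, G3p5_8, G3p5_9, G3p6_7, G3p6_8, G3p6_9, G3p7_8,
  G3p7_9, G3p8_9]⟩) (.leaf ⟨2559878241, 151154963137485877645478,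
  904650257947398418142517720407418556682927001876546422107310869112454840335, 624970, [G3p1_2,
  G3p1_3, G3p2_3, G3p4_0, G3p4_1, G3p4_2, G3p4_3, G3p4_5, G3p4_6, G3p5_0, G3p5_1, G3p5_2, G3p5_3,
  G3p5_6, G3p6_0, G3p6_1, G3p6_2, G3p6_3, G3p7_0, G3p7_1, G3p7_2, G3p7_3, G3p7_9, G3p8_0, G3p8_1,
  G3p8_2, G3p8_3, G3p8_7, G3p8_9]⟩)) (.node 959 (.leaf ⟨1620451913, 469220864589064489440387,
  1583105322713614717099276474112090248417593544199905550624549353956135928817, 395618, [G3p0_7,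
  G3p0_8, G3p0_9, G3p1_0, G3p1_4, G3p1_5, G3p1_6, G3p1_7, G3p1_8, G3p1_9, G3p2_0, G3p2_1, G3p2_4,
  G3p2_5, G3p2_6, G3p2_7, G3p2_8, G3p2_9, G3p3_0, G3p3_1, G3p3_2, G3p3_4, G3p3_5, G3p3_6, G3p3_7,
  G3p3_8, G3p3_9, G3p4_5, G3p4_6, G3p4_7, G3p4_8, G3p4_9, G3p5_6, G3p5_7, G3p5_8, G3p5_9, G3p6_7,
  G3p6_8, G3p6_9, G3p8_7, G3p9_7, G3p9_8]⟩) (.leaf ⟨2422612553, 388709829402977407014019,
  904646402774172496686928617685781129130724693577971897732258623674078200705, 591458, [G3p1_0,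
  G3p1_7, G3p1_8, G3p1_9, G3p2_0, G3p2_1, G3p2_7, G3p2_8, G3p2_9, G3p3_0, G3p3_1, G3p3_2, G3p3_7,
  G3p3_8, G3p3_9, G3p4_7, G3p4_8, G3p4_9, G3p5_4, G3p5_7, G3p5_8, G3p5_9, G3p6_4, G3p6_5, G3p6_7,
  G3p6_8, G3p6_9, G3p7_8, G3p7_9, G3p8_9]⟩))))))

def G3T16 : Tr :=
  .node 992 (.node 976 (.node 968 (.node 964 (.node 962 (.node 961 (.leaf ⟨1617306185,
  352222169625179813254275,
  1583105322713615018395562145743514340619288607347582846184696518977091797889, 394850, [G3p0_7,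
  G3p0_8, G3p0_9, G3p1_0, G3p1_7, G3p1_8, G3p1_9, G3p2_0, G3p2_1, G3p2_7, G3p2_8, G3p2_9, G3p3_0,
  G3p3_1, G3p3_2, G3p3_7, G3p3_8, G3p3_9, G3p4_7, G3p4_8, G3p4_9, G3p5_4, G3p5_7, G3p5_8, G3p5_9,
  G3p6_4, G3p6_5, G3p6_7, G3p6_8, G3p6_9, G3p8_7, G3p9_7, G3p9_8]⟩) (.leaf ⟨2422612361,
  76748014238013528976515,
  1102536293589446765707932743377611613768144387014475817595741559541232304241, 591458, [G3p0_4,
  G3p0_5, G3p0_6, G3p1_0, G3p1_4, G3p1_5, G3p1_6, G3p2_0, G3p2_1, G3p2_4, G3p2_5, G3p2_6, G3p3_0,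
  G3p3_1, G3p3_2, G3p3_4, G3p3_5, G3p3_6, G3p5_4, G3p6_4, G3p6_5, G3p7_4, G3p7_5, G3p7_6, G3p7_8,
  G3p7_9, G3p8_4, G3p8_5, G3p8_6, G3p8_9, G3p9_4, G3p9_5, G3p9_6]⟩)) (.node 963 (.leaf ⟨1617305993,
  235246009547930597668995,
  1780995213528889287416566271455326597852244798265013238359283970328903025649, 394850, [G3p0_4,
  G3p0_5, G3p0_6, G3p0_7, G3p0_8, G3p0_9, G3p1_0, G3p1_4, G3p1_5, G3p1_6, G3p1_7, G3p1_8, G3p1_9,
  G3p2_0, G3p2_1, G3p2_4, G3p2_5, G3p2_6, G3p2_7, G3p2_8, G3p2_9, G3p3_0, G3p3_1, G3p3_2, G3p3_4,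
  G3p3_5, G3p3_6, G3p3_7, G3p3_8, G3p3_9, G3p5_4, G3p6_4, G3p6_5, G3p7_4, G3p7_5, G3p7_6, G3p8_4,
  G3p8_5, G3p8_6, G3p8_7, G3p9_4, G3p9_5, G3p9_6, G3p9_7, G3p9_8]⟩) (.leaf ⟨2556830793,
  151152659221745527624835,
  904649880502386019221259278263445075255108662505510437818257331042289451009, 624226, [G3p1_0,
  G3p2_0, G3p2_1, G3p3_0, G3p3_1, G3p3_2, G3p5_4, G3p6_4, G3p6_5, G3p7_0, G3p7_9, G3p8_0, G3p8_7,
  G3p8_9]⟩))) (.node 966 (.node 965 (.leaf ⟨2425758305, 271722882296636730609833,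
  904646402774172289548605713324175331064147142272474467961342626319119089665, 592226, [G3p1_0,
  G3p2_0, G3p2_1, G3p3_0, G3p3_1, G3p3_2, G3p4_0, G3p4_1, G3p4_2, G3p4_3, G3p4_5, G3p4_6, G3p4_7,
  G3p4_8, G3p4_9, G3p5_0, G3p5_1, G3p5_2, G3p5_3, G3p5_6, G3p5_7, G3p5_8, G3p5_9, G3p6_0, G3p6_1,
  G3p6_2, G3p6_3, G3p6_7, G3p6_8, G3p6_9, G3p7_8, G3p7_9, G3p8_9]⟩) (.leaf ⟨1620451937,
  469213724349771190210729,
  1583105322713614811257239241401890315148247553523011888724885040955139228545, 395618, [G3p0_7,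
  G3p0_8, G3p0_9, G3p1_0, G3p1_7, G3p1_8, G3p1_9, G3p2_0, G3p2_1, G3p2_7, G3p2_8, G3p2_9, G3p3_0,
  G3p3_1, G3p3_2, G3p3_7, G3p3_8, G3p3_9, G3p4_0, G3p4_1, G3p4_2, G3p4_3, G3p4_5, G3p4_6, G3p4_7,
  G3p4_8, G3p4_9, G3p5_0, G3p5_1, G3p5_2, G3p5_3, G3p5_6, G3p5_7, G3p5_8, G3p5_9, G3p6_0, G3p6_1,
  G3p6_2, G3p6_3, G3p6_7, G3p6_8, G3p6_9, G3p8_7, G3p9_7, G3p9_8]⟩)) (.node 967 (.leaf ⟨2559976545,
  151154963030870830715049,
  904650257947398418142517720407574660197847766368400971714432535024534224897, 624994, [G3p1_0,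
  G3p2_0, G3p2_1, G3p3_0, G3p3_1, G3p3_2, G3p4_0, G3p4_1, G3p4_2, G3p4_3, G3p4_5, G3p4_6, G3p5_0,
  G3p5_1, G3p5_2, G3p5_3, G3p5_6, G3p6_0, G3p6_1, G3p6_2, G3p6_3, G3p7_0, G3p7_1, G3p7_2, G3p7_3,
  G3p7_9, G3p8_0, G3p8_1, G3p8_2, G3p8_3, G3p8_7, G3p8_9]⟩) (.leaf ⟨2425430409,
  76749127861802111244353,
  1102536293589446464411647071741125175161766351674785225038814279814113656957, 592146, [G3p0_4,
  G3p0_5, G3p0_6, G3p1_0, G3p1_2, G3p1_3, G3p1_4, G3p1_5, G3p1_6, G3p3_2, G3p4_5, G3p4_6, G3p5_6,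
  G3p7_4, G3p7_5, G3p7_6, G3p7_8, G3p7_9, G3p8_4, G3p8_5, G3p8_6, G3p8_9, G3p9_4, G3p9_5,
  G3p9_6]⟩)))) (.node 972 (.node 970 (.node 969 (.leaf ⟨1620124041, 157254289228075195704385,
  1780995213528888986120280599798858386654982563429643379046415499828108461053, 395538, [G3p0_4,
  G3p0_5, G3p0_6, G3p0_7, G3p0_8, G3p0_9, G3p1_0, G3p1_2, G3p1_3, G3p1_4, G3p1_5, G3p1_6, G3p1_7,
  G3p1_8, G3p1_9, G3p3_2, G3p4_5, G3p4_6, G3p5_6, G3p7_4, G3p7_5, G3p7_6, G3p8_4, G3p8_5, G3p8_6,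
  G3p8_7, G3p9_4, G3p9_5, G3p9_6, G3p9_7, G3p9_8]⟩) (.leaf ⟨2422284873, 310716995568114137697345,
  904646402774172496686928617665732453283460109012355051362918031476531135373, 591378, [G3p1_0,
  G3p1_2, G3p1_3, G3p1_7, G3p1_8, G3p1_9, G3p3_2, G3p4_7, G3p4_8, G3p4_9, G3p5_4, G3p5_7, G3p5_8,
  G3p5_9, G3p6_4, G3p6_5, G3p6_7, G3p6_8, G3p6_9, G3p7_8, G3p7_9, G3p8_9]⟩)) (.node 971 (.leaf
  ⟨1616978505, 274229335790316543937601,
  1583105322713615018395562145723465664772024022781965999815355926779544732557, 394770, [G3p0_7,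
  G3p0_8, G3p0_9, G3p1_0, G3p1_2, G3p1_3, G3p1_7, G3p1_8, G3p1_9, G3p3_2, G3p4_7, G3p4_8, G3p4_9,
  G3p5_4, G3p5_7, G3p5_8, G3p5_9, G3p6_4, G3p6_5, G3p6_7, G3p6_8, G3p6_9, G3p8_7, G3p9_7, G3p9_8]⟩)
  (.leaf ⟨2425430601, 427713310379595748576321,
  904646402774172195390642946031810639507904520927717847458278217608865776637, 592146, [G3p1_0,
  G3p1_2, G3p1_3, G3p1_4, G3p1_5, G3p1_6, G3p1_7, G3p1_8, G3p1_9, G3p3_2, G3p4_5, G3p4_6, G3p4_7,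
  G3p4_8, G3p4_9, G3p5_6, G3p5_7, G3p5_8, G3p5_9, G3p6_7, G3p6_8, G3p6_9, G3p7_8, G3p7_9,
  G3p8_9]⟩))) (.node 974 (.node 973 (.leaf ⟨2422284681, 76745634194391178585153,
  1102536293589446765707932743375046988937903477007578329637849509270651666557, 591378, [G3p0_4,
  G3p0_5, G3p0_6, G3p1_0, G3p1_2, G3p1_3, G3p1_4, G3p1_5, G3p1_6, G3p3_2, G3p5_4, G3p6_4, G3p6_5,
  G3p7_4, G3p7_5, G3p7_6, G3p7_8, G3p7_9, G3p8_4, G3p8_5, G3p8_6, G3p8_9, G3p9_4, G3p9_5, G3p9_6]⟩)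
  (.leaf ⟨1616978313, 157250795560664263045185,
  1780995213528889287416566271432780200431119688762436483645450729284646470653, 394770, [G3p0_4,
  G3p0_5, G3p0_6, G3p0_7, G3p0_8, G3p0_9, G3p1_0, G3p1_2, G3p1_3, G3p1_4, G3p1_5, G3p1_6, G3p1_7,
  G3p1_8, G3p1_9, G3p3_2, G3p5_4, G3p6_4, G3p6_5, G3p7_4, G3p7_5, G3p7_6, G3p8_4, G3p8_5, G3p8_6,
  G3p8_7, G3p9_4, G3p9_5, G3p9_6, G3p9_7, G3p9_8]⟩)) (.node 975 (.leaf ⟨1620124233,
  391225650601798154816577,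
  1583105322713614717099276474089543850996468434697328795910716112911879373821, 395538, [G3p0_7,
  G3p0_8, G3p0_9, G3p1_0, G3p1_2, G3p1_3, G3p1_4, G3p1_5, G3p1_6, G3p1_7, G3p1_8, G3p1_9, G3p3_2,
  G3p4_5, G3p4_6, G3p4_7, G3p4_8, G3p4_9, G3p5_6, G3p5_7, G3p5_8, G3p5_9, G3p6_7, G3p6_8, G3p6_9,
  G3p8_7, G3p9_7, G3p9_8]⟩) (.leaf ⟨2425495945, 76750317968825437592674,
  1102536293589446464411647071741036014035682591270215948850286278490262601849, 592162, [G3p0_4,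
  G3p0_5, G3p0_6, G3p1_0, G3p1_3, G3p1_4, G3p1_5, G3p1_6, G3p2_0, G3p2_1, G3p2_3, G3p2_4, G3p2_5,
  G3p2_6, G3p4_5, G3p4_6, G3p5_6, G3p7_4, G3p7_5, G3p7_6, G3p7_8, G3p7_9, G3p8_4, G3p8_5, G3p8_6,
  G3p8_9, G3p9_4, G3p9_5, G3p9_6]⟩))))) (.node 984 (.node 980 (.node 978 (.node 977 (.leaf
  ⟨1620189577, 196251896306920514168930,
  1780995213528888986120280599798769530421899564185937366041535757368574870521, 395554, [G3p0_4,
  G3p0_5, G3p0_6, G3p0_7, G3p0_8, G3p0_9, G3p1_0, G3p1_3, G3p1_4, G3p1_5, G3p1_6, G3p1_7, G3p1_8,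
  G3p1_9, G3p2_0, G3p2_1, G3p2_3, G3p2_4, G3p2_5, G3p2_6, G3p2_7, G3p2_8, G3p2_9, G3p4_5, G3p4_6,
  G3p5_6, G3p7_4, G3p7_5, G3p7_6, G3p8_4, G3p8_5, G3p8_6, G3p8_7, G3p9_4, G3p9_5, G3p9_6, G3p9_7,
  G3p9_8]⟩) (.leaf ⟨2425496137, 466710917458441067040866,
  904646402774172195390642946031721783274821521684011834453398475149332186105, 592162, [G3p1_0,
  G3p1_3, G3p1_4, G3p1_5, G3p1_6, G3p1_7, G3p1_8, G3p1_9, G3p2_0, G3p2_1, G3p2_3, G3p2_4, G3p2_5,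
  G3p2_6, G3p2_7, G3p2_8, G3p2_9, G3p4_5, G3p4_6, G3p4_7, G3p4_8, G3p4_9, G3p5_6, G3p5_7, G3p5_8,
  G3p5_9, G3p6_7, G3p6_8, G3p6_9, G3p7_8, G3p7_9, G3p8_9]⟩)) (.node 979 (.leaf ⟨1620189769,
  430223257680643473281122,
  1583105322713614717099276474089454994763385435453622782905836370452345783289, 395554, [G3p0_7,
  G3p0_8, G3p0_9, G3p1_0, G3p1_3, G3p1_4, G3p1_5, G3p1_6, G3p1_7, G3p1_8, G3p1_9, G3p2_0, G3p2_1,
  G3p2_3, G3p2_4, G3p2_5, G3p2_6, G3p2_7, G3p2_8, G3p2_9, G3p4_5, G3p4_6, G3p4_7, G3p4_8, G3p4_9,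
  G3p5_6, G3p5_7, G3p5_8, G3p5_9, G3p6_7, G3p6_8, G3p6_9, G3p8_7, G3p9_7, G3p9_8]⟩) (.leaf
  ⟨2422350409, 349713412570757923508322,
  904646402774172496686928617665643558938752014623541130460082256658957861769, 591394, [G3p1_0,
  G3p1_3, G3p1_7, G3p1_8, G3p1_9, G3p2_0, G3p2_1, G3p2_3, G3p2_7, G3p2_8, G3p2_9, G3p4_7, G3p4_8,
  G3p4_9, G3p5_4, G3p5_7, G3p5_8, G3p5_9, G3p6_4, G3p6_5, G3p6_7, G3p6_8, G3p6_9, G3p7_8, G3p7_9,
  G3p8_9]⟩))) (.node 982 (.node 981 (.leaf ⟨1617044041, 313225752792960329748578,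
  1583105322713615018395562145723376770427315928393152078912520151961971458953, 394786, [G3p0_7,
  G3p0_8, G3p0_9, G3p1_0, G3p1_3, G3p1_7, G3p1_8, G3p1_9, G3p2_0, G3p2_1, G3p2_3, G3p2_7, G3p2_8,
  G3p2_9, G3p4_7, G3p4_8, G3p4_9, G3p5_4, G3p5_7, G3p5_8, G3p5_9, G3p6_4, G3p6_5, G3p6_7, G3p6_8,
  G3p6_9, G3p8_7, G3p9_7, G3p9_8]⟩) (.leaf ⟨2422350217, 76746824301414504933474,
  1102536293589446765707932743374957827811819716603009053449321507946800611449, 591394, [G3p0_4,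
  G3p0_5, G3p0_6, G3p1_0, G3p1_3, G3p1_4, G3p1_5, G3p1_6, G3p2_0, G3p2_1, G3p2_3, G3p2_4, G3p2_5,
  G3p2_6, G3p5_4, G3p6_4, G3p6_5, G3p7_4, G3p7_5, G3p7_6, G3p7_8, G3p7_9, G3p8_4, G3p8_5, G3p8_6,
  G3p8_9, G3p9_4, G3p9_5, G3p9_6]⟩)) (.node 983 (.leaf ⟨1617043849, 196248402639509581509730,
  1780995213528889287416566271432691344198036689518730470640570986825112880121, 394786, [G3p0_4,
  G3p0_5, G3p0_6, G3p0_7, G3p0_8, G3p0_9, G3p1_0, G3p1_3, G3p1_4, G3p1_5, G3p1_6, G3p1_7, G3p1_8,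
  G3p1_9, G3p2_0, G3p2_1, G3p2_3, G3p2_4, G3p2_5, G3p2_6, G3p2_7, G3p2_8, G3p2_9, G3p5_4, G3p6_4,
  G3p6_5, G3p7_4, G3p7_5, G3p7_6, G3p8_4, G3p8_5, G3p8_6, G3p8_7, G3p9_4, G3p9_5, G3p9_6, G3p9_7,
  G3p9_8]⟩) (.leaf ⟨2556568649, 151152659361349144580194,
  904649880502386019221259278263288972761019421885895674118373895936527564809, 624162, [G3p1_0,
  G3p1_3, G3p2_0, G3p2_1, G3p2_3, G3p5_4, G3p6_4, G3p6_5, G3p7_0, G3p7_9, G3p8_0, G3p8_7,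
  G3p8_9]⟩)))) (.node 988 (.node 986 (.node 985 (.leaf ⟨2420515425, 193727853901435606435943,
  904646402774172590756101139899240495245482435680778576621706391805523591169, 590946, [G3p1_0,
  G3p2_0, G3p2_1, G3p3_0, G3p3_1, G3p3_2, G3p4_5, G3p6_0, G3p6_1, G3p6_2, G3p6_3, G3p6_4, G3p6_5,
  G3p6_7, G3p6_8, G3p6_9, G3p7_8, G3p7_9, G3p8_9]⟩) (.leaf ⟨1615209057, 391218695954570066036839,
  1583105322713615112464734667976955479329582846931315997385248806441543730049, 394338, [G3p0_7,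
  G3p0_8, G3p0_9, G3p1_0, G3p1_7, G3p1_8, G3p1_9, G3p2_0, G3p2_1, G3p2_7, G3p2_8, G3p2_9, G3p3_0,
  G3p3_1, G3p3_2, G3p3_7, G3p3_8, G3p3_9, G3p4_5, G3p6_0, G3p6_1, G3p6_2, G3p6_3, G3p6_4, G3p6_5,
  G3p6_7, G3p6_8, G3p6_9, G3p8_7, G3p9_7, G3p9_8]⟩)) (.node 987 (.leaf ⟨2420187545,
  76745625187191923835969,
  1074266309187263823359918340636717745146786524074069188154917933412900405357, 590866, [G3p0_5,
  G3p0_6, G3p1_0, G3p1_2, G3p1_3, G3p1_5, G3p1_6, G3p3_2, G3p4_2, G3p4_3, G3p4_5, G3p4_6, G3p6_5,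
  G3p7_5, G3p7_6, G3p7_8, G3p7_9, G3p8_5, G3p8_6, G3p8_9, G3p9_5, G3p9_6]⟩) (.leaf ⟨1614881177,
  157250783175765287765057,
  1752725229126706345068551868694450956640002735828927342162519153426895209453, 394258, [G3p0_5,
  G3p0_6, G3p0_7, G3p0_8, G3p0_9, G3p1_0, G3p1_2, G3p1_3, G3p1_5, G3p1_6, G3p1_7, G3p1_8, G3p1_9,
  G3p3_2, G3p4_2, G3p4_3, G3p4_5, G3p4_6, G3p6_5, G3p7_5, G3p7_6, G3p8_5, G3p8_6, G3p8_7, G3p9_5,
  G3p9_6, G3p9_7, G3p9_8]⟩))) (.node 990 (.node 989 (.leaf ⟨2554406041, 188935155792591792964673,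
  904649880502385918786099924128136844258451363574041008195478706333783162893, 623634, [G3p1_0,
  G3p1_2, G3p1_3, G3p3_2, G3p4_0, G3p4_2, G3p4_3, G3p4_5, G3p4_6, G3p4_9, G3p6_5, G3p7_0, G3p7_9,
  G3p8_0, G3p8_7, G3p8_9]⟩) (.leaf ⟨2451644697, 76738602985756829976673,
  904646402774166947641641027273166903614410586918732904462226681153918337037, 598546, [G3p1_0,
  G3p1_2, G3p1_3, G3p3_2, G3p4_5, G3p6_2, G3p6_3, G3p6_4, G3p6_5, G3p7_8, G3p7_9, G3p8_9]⟩)) (.node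
  991 (.leaf ⟨1646338329, 157240194123425316374625,
  1583105322713609469350274555330900115107626798673591058469827901167913141133, 401938, [G3p0_7,
  G3p0_8, G3p0_9, G3p1_0, G3p1_2, G3p1_3, G3p1_7, G3p1_8, G3p1_9, G3p3_2, G3p4_5, G3p6_2, G3p6_3,
  G3p6_4, G3p6_5, G3p8_7, G3p9_7, G3p9_8]⟩) (.leaf ⟨2420712033, 193727853826459335428196,
  904646402774172502876676844485575999114995836122532735590880348976760029185, 590994, [G3p1_0,
  G3p1_2, G3p1_3, G3p2_0, G3p2_3, G3p3_0, G3p4_5, G3p6_0, G3p6_4, G3p6_5, G3p6_7, G3p6_8, G3p6_9,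
  G3p7_8, G3p7_9, G3p8_9]⟩)))))) (.node 1008 (.node 1000 (.node 996 (.node 994 (.node 993 (.leaf
  ⟨1615405665, 274229444964127818680420,
  1583105322713615024585310372563290983199096247373070156354422763612780168065, 394386, [G3p0_7,
  G3p0_8, G3p0_9, G3p1_0, G3p1_2, G3p1_3, G3p1_7, G3p1_8, G3p1_9, G3p2_0, G3p2_3, G3p2_7, G3p2_8,
  G3p2_9, G3p3_0, G3p3_7, G3p3_8, G3p3_9, G3p4_5, G3p6_0, G3p6_4, G3p6_5, G3p6_7, G3p6_8, G3p6_9,
  G3p8_7, G3p9_7, G3p9_8]⟩) (.leaf ⟨2420679265, 193727853761759948081252,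
  904646402774172540539287256805794383538335526147207461895622353452756566023, 590986, [G3p1_2,
  G3p3_0, G3p3_1, G3p3_2, G3p4_5, G3p6_0, G3p6_1, G3p6_2, G3p6_4, G3p6_5, G3p6_7, G3p6_8, G3p6_9,
  G3p7_8, G3p7_9, G3p8_9]⟩)) (.node 995 (.leaf ⟨1615372897, 274229444899428431333476,
  1583105322713615062247920784883509062724782878251634413920353184513478034311, 394378, [G3p0_7,
  G3p0_8, G3p0_9, G3p1_2, G3p3_0, G3p3_1, G3p3_2, G3p3_7, G3p3_8, G3p3_9, G3p4_5, G3p6_0, G3p6_1,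
  G3p6_2, G3p6_4, G3p6_5, G3p6_7, G3p6_8, G3p6_9, G3p8_7, G3p9_7, G3p9_8]⟩) (.leaf ⟨2451083556,
  76738493737184131157057,
  906413276799303299937506045084107979685499968096238507887428665861460459533, 598409, [G3p1_0,
  G3p1_2, G3p1_3, G3p3_2, G3p5_4, G3p6_4, G3p6_5, G3p7_0, G3p7_8, G3p7_9, G3p8_0, G3p8_9,
  G3p9_0]⟩))) (.node 998 (.node 997 (.leaf ⟨1645777188, 40250833959384389913665,
  1583105322713609394026586179463544443342966315717150118093917595078354534413, 401801, [G3p1_0,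
  G3p1_2, G3p1_3, G3p3_2, G3p5_4, G3p6_4, G3p6_5, G3p8_7, G3p9_7, G3p9_8]⟩) (.leaf ⟨2450825505,
  76738493916612969761925,
  904646402774166966475915418698019819900958165022276750642003834264315953167, 598346, [G3p1_2,
  G3p1_3, G3p2_3, G3p4_0, G3p4_1, G3p4_2, G3p4_3, G3p5_0, G3p5_1, G3p5_2, G3p5_3, G3p5_4, G3p6_0,
  G3p6_1, G3p6_2, G3p6_3, G3p6_4, G3p6_5, G3p7_8, G3p7_9, G3p8_9]⟩)) (.node 999 (.leaf ⟨1645519137,
  313225752941569424624773,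
  1583105322713615112553524913015674252813927416883023954877154975748442751887, 401738, [G3p0_7,
  G3p0_8, G3p0_9, G3p1_2, G3p1_3, G3p2_3, G3p4_0, G3p4_1, G3p4_2, G3p4_3, G3p4_7, G3p4_8, G3p4_9,
  G3p5_0, G3p5_1, G3p5_2, G3p5_3, G3p5_4, G3p5_7, G3p5_8, G3p5_9, G3p6_0, G3p6_1, G3p6_2, G3p6_3,
  G3p6_4, G3p6_5, G3p6_7, G3p6_8, G3p6_9, G3p8_7, G3p9_7, G3p9_8]⟩) (.leaf ⟨2450923809,
  76738493809998026640520,
  904646402774166966475915418698175923415878929514131300249125500176395337729, 598370, [G3p1_0,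
  G3p2_0, G3p2_1, G3p3_0, G3p3_1, G3p3_2, G3p4_0, G3p4_1, G3p4_2, G3p4_3, G3p5_0, G3p5_1, G3p5_2,
  G3p5_3, G3p5_4, G3p6_0, G3p6_1, G3p6_2, G3p6_3, G3p6_4, G3p6_5, G3p7_8, G3p7_9, G3p8_9]⟩))))
  (.node 1004 (.node 1002 (.node 1001 (.leaf ⟨1645617441, 430215003750420457852040,
  1583105322713615112553524913035812128924384678855804976795381157145179259777, 401762, [G3p0_7,
  G3p0_8, G3p0_9, G3p1_0, G3p1_7, G3p1_8, G3p1_9, G3p2_0, G3p2_1, G3p2_7, G3p2_8, G3p2_9, G3p3_0,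
  G3p3_1, G3p3_2, G3p3_7, G3p3_8, G3p3_9, G3p4_0, G3p4_1, G3p4_2, G3p4_3, G3p4_7, G3p4_8, G3p4_9,
  G3p5_0, G3p5_1, G3p5_2, G3p5_3, G3p5_4, G3p5_7, G3p5_8, G3p5_9, G3p6_0, G3p6_1, G3p6_2, G3p6_3,
  G3p6_4, G3p6_5, G3p6_7, G3p6_8, G3p6_9, G3p8_7, G3p9_7, G3p9_8]⟩) (.leaf ⟨2450596425,
  310722945949121800965185,
  904646402774166872317952651405811231859636308169374696274631730411075273725, 598290, [G3p1_0,
  G3p1_2, G3p1_3, G3p1_4, G3p1_5, G3p1_6, G3p1_7, G3p1_8, G3p1_9, G3p3_2, G3p5_4, G3p6_4, G3p6_5,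
  G3p7_8, G3p7_9, G3p8_9]⟩)) (.node 1003 (.leaf ⟨1645290057, 274235286171324207205441,
  1583105322713609394026586179463544443348200221938985644727069625714088870909, 401682, [G3p0_7,
  G3p0_8, G3p0_9, G3p1_0, G3p1_2, G3p1_3, G3p1_4, G3p1_5, G3p1_6, G3p1_7, G3p1_8, G3p1_9, G3p3_2,
  G3p5_4, G3p6_4, G3p6_5, G3p8_7, G3p9_7, G3p9_8]⟩) (.leaf ⟨2420412824, 76745625148712238089316,
  1076033183212400250979471718238429583164399161308501581860564999223883399169, 590921, [G3p1_0,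
  G3p1_2, G3p1_3, G3p2_0, G3p2_3, G3p3_0, G3p4_0, G3p4_5, G3p4_6, G3p6_5, G3p7_0, G3p7_5, G3p7_6,
  G3p7_8, G3p7_9, G3p8_0, G3p8_5, G3p8_6, G3p8_9, G3p9_0, G3p9_5, G3p9_6]⟩))) (.node 1006 (.node
  1005 (.leaf ⟨1615106456, 40257965370914644329572,
  1752725229126706345068551852617866046821865508929413192067053928440777474049, 394313, [G3p1_0,
  G3p1_2, G3p1_3, G3p2_0, G3p2_3, G3p3_0, G3p4_0, G3p4_5, G3p4_6, G3p6_5, G3p7_5, G3p7_6, G3p8_5,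
  G3p8_6, G3p8_7, G3p9_5, G3p9_6, G3p9_7, G3p9_8]⟩) (.leaf ⟨2420515217, 76749191965635438183428,
  1074266309187263823359918323100905904638498054931468696611057655068371124321, 590946, [G3p0_5,
  G3p0_6, G3p1_0, G3p1_5, G3p1_6, G3p2_0, G3p2_1, G3p2_5, G3p2_6, G3p3_0, G3p3_1, G3p3_2, G3p3_5,
  G3p3_6, G3p4_5, G3p4_6, G3p6_5, G3p7_5, G3p7_6, G3p7_8, G3p7_9, G3p8_5, G3p8_6, G3p8_9, G3p9_5,
  G3p9_6]⟩)) (.node 1007 (.leaf ⟨1615208849, 274243600869674778461188,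
  1752725229126706345068551851178620888722598466182006117374600065856100565985, 394338, [G3p0_5,
  G3p0_6, G3p0_7, G3p0_8, G3p0_9, G3p1_0, G3p1_5, G3p1_6, G3p1_7, G3p1_8, G3p1_9, G3p2_0, G3p2_1,
  G3p2_5, G3p2_6, G3p2_7, G3p2_8, G3p2_9, G3p3_0, G3p3_1, G3p3_2, G3p3_5, G3p3_6, G3p3_7, G3p3_8,
  G3p3_9, G3p4_5, G3p4_6, G3p6_5, G3p7_5, G3p7_6, G3p8_5, G3p8_6, G3p8_7, G3p9_5, G3p9_6, G3p9_7,
  G3p9_8]⟩) (.leaf ⟨2420253081, 76746814168315343340642,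
  1074266309187263823359918334790622029252573220119745165687264134539847925865, 590882, [G3p0_5,
  G3p0_6, G3p1_0, G3p1_3, G3p1_5, G3p1_6, G3p2_0, G3p2_1, G3p2_3, G3p2_5, G3p2_6, G3p4_3, G3p4_5,
  G3p4_6, G3p6_5, G3p7_5, G3p7_6, G3p7_8, G3p7_9, G3p8_5, G3p8_6, G3p8_9, G3p9_5, G3p9_6]⟩)))))
  (.node 1016 (.node 1012 (.node 1010 (.node 1009 (.leaf ⟨1614946713, 196248389128710699385954,
  1752725229126706345068551862848355545638790193035466582878513613418160194537, 394274, [G3p0_5,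
  G3p0_6, G3p0_7, G3p0_8, G3p0_9, G3p1_0, G3p1_3, G3p1_5, G3p1_6, G3p1_7, G3p1_8, G3p1_9, G3p2_0,
  G3p2_1, G3p2_3, G3p2_5, G3p2_6, G3p2_7, G3p2_8, G3p2_9, G3p4_3, G3p4_5, G3p4_6, G3p6_5, G3p7_5,
  G3p7_6, G3p8_5, G3p8_6, G3p8_7, G3p9_5, G3p9_6, G3p9_7, G3p9_8]⟩) (.leaf ⟨2554438756,
  151152954207521120296133,
  904651174599572097138291446014263539136450464966120816336226161088380534832, 623642, [G3p0_4,
  G3p0_5, G3p1_4, G3p1_5, G3p2_1, G3p2_4, G3p2_5, G3p3_1, G3p3_2, G3p3_4, G3p3_5, G3p4_5, G3p6_4,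
  G3p6_5, G3p7_0, G3p7_4, G3p7_5, G3p7_9, G3p8_0, G3p8_4, G3p8_5, G3p8_7, G3p8_9]⟩)) (.node 1011
  (.leaf ⟨2424607128, 76745374073033012185188,
  1019493214408034366294265800066730377580563522841668158806392095698321473537, 591945, [G3p1_0,
  G3p1_2, G3p1_3, G3p2_0, G3p2_3, G3p3_0, G3p4_0, G3p4_6, G3p5_0, G3p5_4, G3p5_6, G3p7_0, G3p7_6,
  G3p7_8, G3p7_9, G3p8_0, G3p8_6, G3p8_9, G3p9_0, G3p9_6]⟩) (.leaf ⟨1619300760,
  40257714295235418425444,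
  1696185260322340460383345934446166841238029870462579769012881024915215548417, 395337, [G3p1_0,
  G3p1_2, G3p1_3, G3p2_0, G3p2_3, G3p3_0, G3p4_0, G3p4_6, G3p5_0, G3p5_4, G3p5_6, G3p7_6, G3p8_6,
  G3p8_7, G3p9_6, G3p9_7, G3p9_8]⟩))) (.node 1014 (.node 1013 (.leaf ⟨2424709521,
  76748832803565155387396,
  1017726340382897938674616623957188946265460142330104090479624616086955032641, 591970, [G3p0_6,
  G3p1_0, G3p1_6, G3p2_0, G3p2_1, G3p2_6, G3p3_0, G3p3_1, G3p3_2, G3p3_6, G3p4_6, G3p5_4, G3p5_6,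
  G3p7_6, G3p7_8, G3p7_9, G3p8_6, G3p8_9, G3p9_6]⟩) (.leaf ⟨1619403153, 274243133621213438773252,
  1696185260322340460383250152034903930349560553580641511243167026874684474305, 395362, [G3p0_6,
  G3p0_7, G3p0_8, G3p0_9, G3p1_0, G3p1_6, G3p1_7, G3p1_8, G3p1_9, G3p2_0, G3p2_1, G3p2_6, G3p2_7,
  G3p2_8, G3p2_9, G3p3_0, G3p3_1, G3p3_2, G3p3_6, G3p3_7, G3p3_8, G3p3_9, G3p4_6, G3p5_4, G3p5_6,
  G3p7_6, G3p8_6, G3p8_7, G3p9_6, G3p9_7, G3p9_8]⟩)) (.node 1015 (.leaf ⟨2424381849,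
  76745374147796581648481,
  1017726340382897938675766013149363838152906093153627287723911134157898252365, 591890, [G3p0_6,
  G3p1_0, G3p1_2, G3p1_3, G3p1_6, G3p3_2, G3p4_2, G3p4_3, G3p4_6, G3p5_2, G3p5_3, G3p5_4, G3p5_6,
  G3p7_6, G3p7_8, G3p7_9, G3p8_6, G3p8_9, G3p9_6]⟩) (.leaf ⟨1619075481, 157250424049978888685665,
  1696185260322340460384399541207097049646122304908485441731512354171893056461, 395282, [G3p0_6,
  G3p0_7, G3p0_8, G3p0_9, G3p1_0, G3p1_2, G3p1_3, G3p1_6, G3p1_7, G3p1_8, G3p1_9, G3p3_2, G3p4_2,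
  G3p4_3, G3p4_6, G3p5_2, G3p5_3, G3p5_4, G3p5_6, G3p7_6, G3p8_6, G3p8_7, G3p9_6, G3p9_7,
  G3p9_8]⟩)))) (.node 1020 (.node 1018 (.node 1017 (.leaf ⟨2424906129, 76748832837546936635492,
  1017726340382897938674616623957055143836025467679188074881778736464478142529, 592018, [G3p0_6,
  G3p1_0, G3p1_2, G3p1_3, G3p1_6, G3p2_0, G3p2_3, G3p2_6, G3p3_0, G3p3_6, G3p4_6, G3p5_4, G3p5_6,
  G3p7_6, G3p7_8, G3p7_9, G3p8_6, G3p8_9, G3p9_6]⟩) (.leaf ⟨1619599761, 274243133655195220021348,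
  1696185260322340460383250152034770127920125878929725495645321147252207584193, 395410, [G3p0_6,
  G3p0_7, G3p0_8, G3p0_9, G3p1_0, G3p1_2, G3p1_3, G3p1_6, G3p1_7, G3p1_8, G3p1_9, G3p2_0, G3p2_3,
  G3p2_6, G3p2_7, G3p2_8, G3p2_9, G3p3_0, G3p3_6, G3p3_7, G3p3_8, G3p3_9, G3p4_6, G3p5_4, G3p5_6,
  G3p7_6, G3p8_6, G3p8_7, G3p9_6, G3p9_7, G3p9_8]⟩)) (.node 1019 (.leaf ⟨2424873361,
  76746526927568376104994,
  1017726340382897938674616623957188923466224828518856413948185557882401914951, 592010, [G3p0_6,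
  G3p1_2, G3p3_0, G3p3_1, G3p3_2, G3p3_6, G3p4_6, G3p5_4, G3p5_6, G3p7_6, G3p7_8, G3p7_9, G3p8_6,
  G3p8_9, G3p9_6]⟩) (.leaf ⟨1619566993, 196247993801572675258402,
  1696185260322340460383250152034903602652672180623283365972916385094832686023, 395402, [G3p0_6,
  G3p0_7, G3p0_8, G3p0_9, G3p1_2, G3p3_0, G3p3_1, G3p3_2, G3p3_6, G3p3_7, G3p3_8, G3p3_9, G3p4_6,
  G3p5_4, G3p5_6, G3p7_6, G3p8_6, G3p8_7, G3p9_6, G3p9_7, G3p9_8]⟩))) (.node 1022 (.node 1021 (.leaf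
  ⟨2424447385, 76746527063839098472546,
  1017726340382897938675382883418051639155067460972484857132365212687717105737, 591906, [G3p0_6,
  G3p1_0, G3p1_3, G3p1_6, G3p2_0, G3p2_1, G3p2_3, G3p2_6, G3p4_3, G3p4_6, G3p5_3, G3p5_4, G3p5_6,
  G3p7_6, G3p7_8, G3p7_9, G3p8_6, G3p8_9, G3p9_6]⟩) (.leaf ⟨1619141017, 196247993937843397625954,
  1696185260322340460384016411475785155541284433888206274323614691566029374409, 395298, [G3p0_6,
  G3p0_7, G3p0_8, G3p0_9, G3p1_0, G3p1_3, G3p1_6, G3p1_7, G3p1_8, G3p1_9, G3p2_0, G3p2_1, G3p2_3,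
  G3p2_6, G3p2_7, G3p2_8, G3p2_9, G3p4_3, G3p4_6, G3p5_3, G3p5_4, G3p5_6, G3p7_6, G3p8_6, G3p8_7,
  G3p9_6, G3p9_7, G3p9_8]⟩)) (.node 1023 (.leaf ⟨2558633060, 151153782869852556467397,
  904650311868114510999655266894319973269892037064776016864684520548328275984, 624666, [G3p0_4,
  G3p1_4, G3p2_1, G3p2_4, G3p3_1, G3p3_2, G3p3_4, G3p5_4, G3p5_6, G3p6_4, G3p7_0, G3p7_4, G3p7_9,
  G3p8_0, G3p8_4, G3p8_7, G3p8_9]⟩) (.leaf ⟨1158977672, 38075238390614488846436,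
  1130806277623037189400993432399970309015062790251161263200486354152168947841, 282953, [G3p0_7,
  G3p1_0, G3p1_2, G3p1_3, G3p1_4, G3p1_7, G3p2_0, G3p2_3, G3p2_4, G3p2_7, G3p3_0, G3p3_4, G3p3_7,
  G3p5_4, G3p5_6, G3p5_7, G3p6_4, G3p6_7, G3p8_7, G3p8_9, G3p9_7]⟩))))))

def G3T17 : Tr :=
  .node 1056 (.node 1040 (.node 1032 (.node 1028 (.node 1026 (.node 1025 (.leaf ⟨1226187145,
  349714537205162148339843,
  904646402774166671456827101215895837762268710662314861208523326154232300433, 299362, [G3p0_4,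
  G3p0_7, G3p0_8, G3p0_9, G3p1_0, G3p1_4, G3p1_7, G3p1_8, G3p1_9, G3p2_0, G3p2_1, G3p2_4, G3p2_7,
  G3p2_8, G3p2_9, G3p3_0, G3p3_1, G3p3_2, G3p3_4, G3p3_7, G3p3_8, G3p3_9, G3p5_4, G3p5_6, G3p6_4,
  G3p7_8, G3p7_9, G3p8_9]⟩) (.leaf ⟨1160126993, 264497708819153493790724,
  904652873102128523111654282349416471242820826534366568668443276215874159105, 283234, [G3p0_9,
  G3p1_0, G3p1_9, G3p2_0, G3p2_1, G3p2_9, G3p3_0, G3p3_1, G3p3_2, G3p3_9, G3p4_5, G3p4_6, G3p5_6,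
  G3p7_4, G3p7_5, G3p7_6, G3p7_9, G3p8_4, G3p8_5, G3p8_6, G3p8_7, G3p8_9]⟩)) (.node 1027 (.leaf
  ⟨1159078433, 377830825076087469475943,
  904651579004942445245099456688279246037341198949547267927059689248455066113, 282978, [G3p0_9,
  G3p1_0, G3p1_9, G3p2_0, G3p2_1, G3p2_9, G3p3_0, G3p3_1, G3p3_2, G3p3_9, G3p4_0, G3p4_1, G3p4_2,
  G3p4_3, G3p4_6, G3p4_9, G3p5_0, G3p5_1, G3p5_2, G3p5_3, G3p5_4, G3p5_6, G3p5_9, G3p7_6, G3p7_9,
  G3p8_6, G3p8_7, G3p8_9]⟩) (.leaf ⟨2232820873, 196237623134199995241603,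
  1583105322713614823811632802366086331480123431191769632281275977891811688465, 545122, [G3p1_0,
  G3p1_4, G3p2_0, G3p2_1, G3p2_4, G3p3_0, G3p3_1, G3p3_2, G3p3_4, G3p5_0, G3p5_4, G3p5_6, G3p5_7,
  G3p5_8, G3p5_9, G3p6_0, G3p6_4, G3p6_7, G3p6_8, G3p6_9, G3p8_7, G3p9_7, G3p9_8]⟩))) (.node 1030
  (.node 1029 (.leaf ⟨1175593545, 302275527270386052010082,
  904649853542027975931289182085735355785186403092650499556601219257063703161, 287010, [G3p0_9,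
  G3p1_0, G3p1_3, G3p1_4, G3p1_5, G3p1_6, G3p1_9, G3p2_0, G3p2_1, G3p2_3, G3p2_4, G3p2_5, G3p2_6,
  G3p2_9, G3p5_4, G3p6_4, G3p6_5, G3p7_9, G3p8_7, G3p8_9]⟩) (.leaf ⟨2232558729,
  196237622147903705387106,
  1583105322713614823811632802365573417062857700601890297089030169001954115609, 545058, [G3p1_0,
  G3p1_3, G3p1_4, G3p2_0, G3p2_1, G3p2_3, G3p2_4, G3p5_0, G3p5_4, G3p5_6, G3p5_7, G3p5_8, G3p5_9,
  G3p6_0, G3p6_4, G3p6_7, G3p6_8, G3p6_9, G3p8_7, G3p9_7, G3p9_8]⟩)) (.node 1031 (.leaf ⟨1159864857,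
  188939845266891073491106,
  904653088784992869431415051758273021729243996973406369416387092998437470729, 283170, [G3p0_9,
  G3p1_0, G3p1_3, G3p1_9, G3p2_0, G3p2_1, G3p2_3, G3p2_9, G3p4_5, G3p4_6, G3p5_6, G3p7_3, G3p7_4,
  G3p7_5, G3p7_6, G3p7_9, G3p8_3, G3p8_4, G3p8_5, G3p8_6, G3p8_7, G3p8_9]⟩) (.leaf ⟨1160026248,
  38076421711416580477028,
  1130806277623037088965833498048222143538549912071734280678159822232320278657, 283209, [G3p0_7,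
  G3p1_0, G3p1_2, G3p1_3, G3p1_7, G3p2_0, G3p2_3, G3p2_7, G3p3_0, G3p3_7, G3p4_5, G3p4_6, G3p4_7,
  G3p5_6, G3p5_7, G3p6_7, G3p8_7, G3p8_9, G3p9_7]⟩)))) (.node 1036 (.node 1034 (.node 1033 (.leaf
  ⟨1166317720, 38111011608355707948165,
  1130806277623037396539316687501630476535026775505075528419809688039056277633, 284745, [G3p0_7,
  G3p1_0, G3p1_2, G3p1_3, G3p1_7, G3p2_0, G3p2_3, G3p2_7, G3p3_0, G3p3_7, G3p4_0, G3p4_7, G3p5_0,
  G3p5_4, G3p5_7, G3p6_0, G3p6_4, G3p6_5, G3p6_7, G3p8_7, G3p8_9, G3p9_7]⟩) (.leaf ⟨1233527057,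
  388711019515498088894468,
  904646402774166872317952651425859907706319426476352452264798094246332531585, 301154, [G3p0_7,
  G3p0_8, G3p0_9, G3p1_0, G3p1_7, G3p1_8, G3p1_9, G3p2_0, G3p2_1, G3p2_7, G3p2_8, G3p2_9, G3p3_0,
  G3p3_1, G3p3_2, G3p3_7, G3p3_8, G3p3_9, G3p5_4, G3p6_4, G3p6_5, G3p7_8, G3p7_9, G3p8_9]⟩)) (.node
  1035 (.leaf ⟨1227235601, 388714513182909021553668,
  904646402774166571021666979791938093930182301143559347665762864789794521985, 299618, [G3p0_7,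
  G3p0_8, G3p0_9, G3p1_0, G3p1_7, G3p1_8, G3p1_9, G3p2_0, G3p2_1, G3p2_7, G3p2_8, G3p2_9, G3p3_0,
  G3p3_1, G3p3_2, G3p3_7, G3p3_8, G3p3_9, G3p4_5, G3p4_6, G3p5_6, G3p7_8, G3p7_9, G3p8_9]⟩) (.leaf
  ⟨1166418449, 264494215151742561131524,
  904652873102128824407939953983338285018957951867159673267478505672412168705, 284770, [G3p0_9,
  G3p1_0, G3p1_9, G3p2_0, G3p2_1, G3p2_9, G3p3_0, G3p3_1, G3p3_2, G3p3_9, G3p5_4, G3p6_4, G3p6_5,
  G3p7_4, G3p7_5, G3p7_6, G3p7_9, G3p8_4, G3p8_5, G3p8_6, G3p8_7, G3p8_9]⟩))) (.node 1038 (.node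
  1037 (.leaf ⟨2233869449, 235235222300925280490627,
  1583105322713614723376473991909097273467954651645979008580591561384088567809, 545378, [G3p1_0,
  G3p2_0, G3p2_1, G3p3_0, G3p3_1, G3p3_2, G3p4_0, G3p4_5, G3p4_6, G3p4_7, G3p4_8, G3p4_9, G3p5_0,
  G3p5_6, G3p5_7, G3p5_8, G3p5_9, G3p6_0, G3p6_7, G3p6_8, G3p6_9, G3p8_7, G3p9_7, G3p9_8]⟩) (.leaf
  ⟨2240160913, 274229335717857224428548,
  1583105322713615024672759663543019087244091776978772113179626795174315622401, 546914, [G3p1_0,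
  G3p2_0, G3p2_1, G3p3_0, G3p3_1, G3p3_2, G3p4_0, G3p4_7, G3p4_8, G3p4_9, G3p5_0, G3p5_4, G3p5_7,
  G3p5_8, G3p5_9, G3p6_0, G3p6_4, G3p6_5, G3p6_7, G3p6_8, G3p6_9, G3p8_7, G3p9_7, G3p9_8]⟩)) (.node
  1039 (.leaf ⟨1166615057, 264494215185724342377572,
  904652873102128824407939953983204482589523277216243657669632626049935278593, 284818, [G3p0_9,
  G3p1_0, G3p1_2, G3p1_3, G3p1_9, G3p2_0, G3p2_3, G3p2_9, G3p3_0, G3p3_9, G3p5_4, G3p6_4, G3p6_5,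
  G3p7_4, G3p7_5, G3p7_6, G3p7_9, G3p8_4, G3p8_5, G3p8_6, G3p8_7, G3p8_9]⟩) (.leaf ⟨2240357521,
  313225752723662106169444,
  1583105322713615024672759663562867057410193599808782569892885431036495855617, 546962, [G3p1_0,
  G3p1_2, G3p1_3, G3p1_7, G3p1_8, G3p1_9, G3p2_0, G3p2_3, G3p2_7, G3p2_8, G3p2_9, G3p3_0, G3p3_7,
  G3p3_8, G3p3_9, G3p4_0, G3p4_7, G3p4_8, G3p4_9, G3p5_0, G3p5_4, G3p5_7, G3p5_8, G3p5_9, G3p6_0,
  G3p6_4, G3p6_5, G3p6_7, G3p6_8, G3p6_9, G3p8_7, G3p9_7, G3p9_8]⟩))))) (.node 1048 (.node 1044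
  (.node 1042 (.node 1041 (.leaf ⟨1166582289, 188936351392840674286626,
  904652873102128824407939953983338109770896108482856762366633655680209715719, 284810, [G3p0_9,
  G3p1_2, G3p3_0, G3p3_1, G3p3_2, G3p3_9, G3p5_4, G3p6_4, G3p6_5, G3p7_4, G3p7_5, G3p7_6, G3p7_9,
  G3p8_4, G3p8_5, G3p8_6, G3p8_7, G3p8_9]⟩) (.leaf ⟨1233690897, 310718185538866539139106,
  904646402774166872317952651425859601787834843458002197618748279864716362631, 301194, [G3p0_7,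
  G3p0_8, G3p0_9, G3p1_2, G3p3_0, G3p3_1, G3p3_2, G3p3_7, G3p3_8, G3p3_9, G3p5_4, G3p6_4, G3p6_5,
  G3p7_8, G3p7_9, G3p8_9]⟩)) (.node 1043 (.leaf ⟨1233264921, 310718185745506005684386,
  904646402774166922535532793961614491277064652326306830133541061586154161033, 301090, [G3p0_7,
  G3p0_8, G3p0_9, G3p1_0, G3p1_3, G3p1_7, G3p1_8, G3p1_9, G3p2_0, G3p2_1, G3p2_3, G3p2_7, G3p2_8,
  G3p2_9, G3p4_3, G3p5_3, G3p5_4, G3p6_3, G3p6_4, G3p6_5, G3p7_8, G3p7_9, G3p8_9]⟩) (.leaf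
  ⟨1226973465, 310721679342548194165858,
  904646402774166571021666979771800523738209622189128580393588749608780563337, 299554, [G3p0_7,
  G3p0_8, G3p0_9, G3p1_0, G3p1_3, G3p1_7, G3p1_8, G3p1_9, G3p2_0, G3p2_1, G3p2_3, G3p2_7, G3p2_8,
  G3p2_9, G3p4_5, G3p4_6, G3p5_6, G3p7_8, G3p7_9, G3p8_9]⟩))) (.node 1046 (.node 1045 (.leaf
  ⟨1166156313, 188936351705033257098498,
  904653088784993220945280865948086989268099027110584619156339404975811068425, 284706, [G3p0_9,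
  G3p1_0, G3p1_3, G3p1_9, G3p2_0, G3p2_1, G3p2_3, G3p2_9, G3p4_3, G3p5_3, G3p5_4, G3p6_3, G3p6_4,
  G3p6_5, G3p7_3, G3p7_4, G3p7_5, G3p7_6, G3p7_9, G3p8_3, G3p8_4, G3p8_5, G3p8_6, G3p8_7, G3p8_9]⟩)
  (.leaf ⟨2233607305, 235235222440528897478754,
  1583105322713614723376473991908941170973865411026364244880708126278326681609, 545314, [G3p1_0,
  G3p1_3, G3p2_0, G3p2_1, G3p2_3, G3p4_0, G3p4_5, G3p4_6, G3p4_7, G3p4_8, G3p4_9, G3p5_0, G3p5_6,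
  G3p5_7, G3p5_8, G3p5_9, G3p6_0, G3p6_7, G3p6_8, G3p6_9, G3p8_7, G3p9_7, G3p9_8]⟩)) (.node 1047
  (.leaf ⟨2239898777, 274229335856326970051714,
  1583105322713615074890339806098755138512720441163542494620660442623682019337, 546850, [G3p1_0,
  G3p1_3, G3p2_0, G3p2_1, G3p2_3, G3p4_0, G3p4_3, G3p4_7, G3p4_8, G3p4_9, G3p5_0, G3p5_3, G3p5_4,
  G3p5_7, G3p5_8, G3p5_9, G3p6_0, G3p6_3, G3p6_4, G3p6_5, G3p6_7, G3p6_8, G3p6_9, G3p8_7, G3p9_7,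
  G3p9_8]⟩) (.leaf ⟨1158980129, 264494029593830930614372,
  904651579004942445245099456676704986753542435897163305570735443059428753935, 282954, [G3p0_9,
  G3p1_2, G3p1_3, G3p2_3, G3p4_0, G3p4_1, G3p4_2, G3p4_3, G3p4_6, G3p4_9, G3p5_0, G3p5_1, G3p5_2,
  G3p5_3, G3p5_4, G3p5_6, G3p5_9, G3p7_6, G3p7_9, G3p8_6, G3p8_7, G3p8_9]⟩)))) (.node 1052 (.node
  1050 (.node 1049 (.leaf ⟨1175855689, 340055649069942237762691,
  904649853542027975931289182099807123283158752552583551458617231942557368945, 287074, [G3p0_9,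
  G3p1_0, G3p1_4, G3p1_5, G3p1_6, G3p1_9, G3p2_0, G3p2_1, G3p2_4, G3p2_5, G3p2_6, G3p2_9, G3p3_0,
  G3p3_1, G3p3_2, G3p3_4, G3p3_5, G3p3_6, G3p3_9, G3p5_4, G3p6_4, G3p6_5, G3p7_9, G3p8_7, G3p8_9]⟩)
  (.leaf ⟨1225925001, 310718119247042757991522,
  904646402774166671456827101195401455647119541737619522443984585355016274841, 299298, [G3p0_4,
  G3p0_7, G3p0_8, G3p0_9, G3p1_0, G3p1_3, G3p1_4, G3p1_7, G3p1_8, G3p1_9, G3p2_0, G3p2_1, G3p2_3,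
  G3p2_4, G3p2_7, G3p2_8, G3p2_9, G3p5_4, G3p5_6, G3p6_4, G3p7_8, G3p7_9, G3p8_9]⟩)) (.node 1051
  (.leaf ⟨1160024600, 151160913264265836728486,
  904652900062486566401624378515418342359778124021493248469301484673510211585, 283209, [G3p1_0,
  G3p1_2, G3p1_3, G3p2_0, G3p2_3, G3p3_0, G3p4_5, G3p4_6, G3p5_6, G3p7_0, G3p7_4, G3p7_5, G3p7_6,
  G3p7_9, G3p8_0, G3p8_4, G3p8_5, G3p8_6, G3p8_7, G3p8_9]⟩) (.leaf ⟨1159799321,
  151160913411595026141345,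
  904653196626425042591295436468577364003461034056150686356783728104718467597, 283154, [G3p0_9,
  G3p1_0, G3p1_2, G3p1_3, G3p1_9, G3p3_2, G3p4_5, G3p4_6, G3p5_6, G3p7_2, G3p7_3, G3p7_4, G3p7_5,
  G3p7_6, G3p7_9, G3p8_2, G3p8_3, G3p8_4, G3p8_5, G3p8_6, G3p8_7, G3p8_9]⟩))) (.node 1054 (.node
  1053 (.leaf ⟨1178898968, 151154962883258173460646,
  904649880502385724202171124448875978269876600622349460763991138276607066113, 287817, [G3p1_0,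
  G3p1_2, G3p1_3, G3p2_0, G3p2_3, G3p3_0, G3p4_0, G3p4_5, G3p4_6, G3p5_0, G3p5_6, G3p6_0, G3p7_0,
  G3p7_9, G3p8_0, G3p8_7, G3p8_9]⟩) (.leaf ⟨1159238180, 151158386783354567658561,
  904651605965300488484592210765714928669669144467928462463996465413685510221, 283017, [G3p1_0,
  G3p1_2, G3p1_3, G3p1_6, G3p3_2, G3p4_6, G3p5_4, G3p5_6, G3p7_0, G3p7_6, G3p7_9, G3p8_0, G3p8_6,
  G3p8_7, G3p8_9]⟩)) (.node 1055 (.leaf ⟨1175753288, 302275527201087828430948,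
  904649880502386019221259278277227150168994048600239644008678020677182226433, 287049, [G3p1_0,
  G3p1_2, G3p1_3, G3p1_4, G3p1_5, G3p1_6, G3p1_9, G3p2_0, G3p2_3, G3p2_4, G3p2_5, G3p2_6, G3p2_9,
  G3p3_0, G3p3_4, G3p3_5, G3p3_6, G3p3_9, G3p5_4, G3p6_4, G3p6_5, G3p7_0, G3p7_9, G3p8_0, G3p8_7,
  G3p8_9]⟩) (.leaf ⟨1179001361, 264491758438145830522884,
  904649853542027674635003510463387587932579565034674637820518294503860142593, 287842, [G3p0_9,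
  G3p1_0, G3p1_9, G3p2_0, G3p2_1, G3p2_9, G3p3_0, G3p3_1, G3p3_2, G3p3_9, G3p4_5, G3p4_6, G3p5_6,
  G3p7_9, G3p8_7, G3p8_9]⟩)))))) (.node 1072 (.node 1064 (.node 1060 (.node 1058 (.node 1057 (.leaf
  ⟨1245782297, 271722882296352994332833,
  904646402774172270717013159865648870151399911875656474790482990779018773389, 304146, [G3p0_7,
  G3p0_8, G3p0_9, G3p1_0, G3p1_2, G3p1_3, G3p1_7, G3p1_8, G3p1_9, G3p3_2, G3p4_2, G3p4_3, G3p4_5,
  G3p4_6, G3p4_7, G3p4_8, G3p4_9, G3p5_2, G3p5_3, G3p5_6, G3p5_7, G3p5_8, G3p5_9, G3p6_2, G3p6_3,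
  G3p6_7, G3p6_8, G3p6_9, G3p7_8, G3p7_9, G3p8_9]⟩) (.leaf ⟨1178673689, 151154963030587362873505,
  904650177066324269441014878416386711337296629763036473220234370173954163213, 287762, [G3p0_9,
  G3p1_0, G3p1_2, G3p1_3, G3p1_9, G3p3_2, G3p4_2, G3p4_3, G3p4_5, G3p4_6, G3p5_2, G3p5_3, G3p5_6,
  G3p6_2, G3p6_3, G3p7_2, G3p7_3, G3p7_9, G3p8_2, G3p8_3, G3p8_7, G3p8_9]⟩)) (.node 1059 (.leaf
  ⟨1179197969, 264491758472127611768932,
  904649853542027674635003510463253785503144890383758622222672414881383252481, 287890, [G3p0_9,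
  G3p1_0, G3p1_2, G3p1_3, G3p1_9, G3p2_0, G3p2_3, G3p2_9, G3p3_0, G3p3_9, G3p4_5, G3p4_6, G3p5_6,
  G3p7_9, G3p8_7, G3p8_9]⟩) (.leaf ⟨1179165201, 188933894679243943677986,
  904649853542027674635003510463387412684517721650371726919673444511657689607, 287882, [G3p0_9,
  G3p1_2, G3p3_0, G3p3_1, G3p3_2, G3p3_9, G3p4_5, G3p4_6, G3p5_6, G3p7_9, G3p8_7, G3p8_9]⟩))) (.node
  1062 (.node 1061 (.leaf ⟨1178739225, 188933894885883410223266,
  904650069224892071172344422428136292181720640278099583709379193807259042313, 287778, [G3p0_9,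
  G3p1_0, G3p1_3, G3p1_9, G3p2_0, G3p2_1, G3p2_3, G3p2_9, G3p4_3, G3p4_5, G3p4_6, G3p5_3, G3p5_6,
  G3p6_3, G3p7_3, G3p7_9, G3p8_3, G3p8_7, G3p8_9]⟩) (.leaf ⟨1147441736, 302268386743878632509540,
  904649880502389239423585919671313788628837631996321267131066347211276222465, 280137, [G3p1_0,
  G3p1_2, G3p1_3, G3p1_9, G3p2_0, G3p2_3, G3p2_9, G3p3_0, G3p3_9, G3p4_0, G3p4_9, G3p5_0, G3p5_4,
  G3p5_9, G3p6_0, G3p6_4, G3p6_5, G3p6_9, G3p7_0, G3p7_9, G3p8_0, G3p8_7, G3p8_9]⟩)) (.node 1063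
  (.leaf ⟨1150849604, 264492948586814202052673,
  904649880502388938127300248026040718256876797683977185767275015727894757389, 280969, [G3p1_0,
  G3p1_2, G3p1_3, G3p3_2, G3p4_0, G3p4_5, G3p4_6, G3p4_9, G3p5_0, G3p5_6, G3p5_9, G3p6_0, G3p6_9,
  G3p7_0, G3p7_9, G3p8_0, G3p8_7, G3p8_9]⟩) (.leaf ⟨1150587464, 415613436304970506047588,
  904649880502388938127300248039889696427142568848643971570919182190320353281, 280905, [G3p1_0,
  G3p1_2, G3p1_3, G3p1_4, G3p1_5, G3p1_6, G3p1_9, G3p2_0, G3p2_3, G3p2_4, G3p2_5, G3p2_6, G3p2_9,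
  G3p3_0, G3p3_4, G3p3_5, G3p3_6, G3p3_9, G3p4_0, G3p4_5, G3p4_6, G3p4_9, G3p5_0, G3p5_6, G3p5_9,
  G3p6_0, G3p6_9, G3p7_0, G3p7_9, G3p8_0, G3p8_7, G3p8_9]⟩)))) (.node 1068 (.node 1066 (.node 1065
  (.leaf ⟨1150591585, 340049622452271856062630,
  904649853542030982718095401321208957767822780971162111622255198950568952335, 280906, [G3p0_9,
  G3p1_2, G3p1_3, G3p2_3, G3p4_0, G3p4_1, G3p4_2, G3p4_3, G3p4_5, G3p4_6, G3p4_9, G3p5_0, G3p5_1,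
  G3p5_2, G3p5_3, G3p5_6, G3p5_9, G3p6_0, G3p6_1, G3p6_2, G3p6_3, G3p6_9, G3p7_9, G3p8_7, G3p8_9]⟩)
  (.leaf ⟨1147544137, 340047318536531509187715,
  904649853542031189856418305674407242522662597848117031438390923161547833857, 280162, [G3p0_9,
  G3p1_0, G3p1_9, G3p2_0, G3p2_1, G3p2_9, G3p3_0, G3p3_1, G3p3_2, G3p3_9, G3p4_9, G3p5_4, G3p5_9,
  G3p6_4, G3p6_5, G3p6_9, G3p7_9, G3p8_7, G3p8_9]⟩)) (.node 1067 (.leaf ⟨1150689865,
  453393558173821694153859,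
  904649853542030888560132634042983150320967534700439735878243758140591964785, 280930, [G3p0_9,
  G3p1_0, G3p1_4, G3p1_5, G3p1_6, G3p1_9, G3p2_0, G3p2_1, G3p2_4, G3p2_5, G3p2_6, G3p2_9, G3p3_0,
  G3p3_1, G3p3_2, G3p3_4, G3p3_5, G3p3_6, G3p3_9, G3p4_5, G3p4_6, G3p4_9, G3p5_6, G3p5_9, G3p6_9,
  G3p7_9, G3p8_7, G3p8_9]⟩) (.leaf ⟨1150689889, 453386417934528394924201,
  904649853542030982718095401332783217051621544023546073978579445139595264513, 280930, [G3p0_9,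
  G3p1_0, G3p1_9, G3p2_0, G3p2_1, G3p2_9, G3p3_0, G3p3_1, G3p3_2, G3p3_9, G3p4_0, G3p4_1, G3p4_2,
  G3p4_3, G3p4_5, G3p4_6, G3p4_9, G3p5_0, G3p5_1, G3p5_2, G3p5_3, G3p5_6, G3p5_9, G3p6_0, G3p6_1,
  G3p6_2, G3p6_3, G3p6_9, G3p7_9, G3p8_7, G3p8_9]⟩))) (.node 1070 (.node 1069 (.leaf ⟨1147216457,
  264489454919397900684353,
  904649853542031189856418305662922183500062670209219870821596555581290447373, 280082, [G3p0_9,
  G3p1_0, G3p1_2, G3p1_3, G3p1_9, G3p3_2, G3p4_9, G3p5_4, G3p5_9, G3p6_4, G3p6_5, G3p6_9, G3p7_9,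
  G3p8_7, G3p8_9]⟩) (.leaf ⟨1150362185, 377833314404285020343361,
  904649853542030888560132634029000369724507082124582666916956741713625088637, 280850, [G3p0_9,
  G3p1_0, G3p1_2, G3p1_3, G3p1_4, G3p1_5, G3p1_6, G3p1_9, G3p3_2, G3p4_5, G3p4_6, G3p4_9, G3p5_6,
  G3p5_9, G3p6_9, G3p7_9, G3p8_7, G3p8_9]⟩)) (.node 1071 (.leaf ⟨1147281993,
  302268386813176856088674,
  904649853542031189856418305662833158486925678180035979982911526964723974665, 280098, [G3p0_9,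
  G3p1_0, G3p1_3, G3p1_9, G3p2_0, G3p2_1, G3p2_3, G3p2_9, G3p4_9, G3p5_4, G3p5_9, G3p6_4, G3p6_5,
  G3p6_9, G3p7_9, G3p8_7, G3p8_9]⟩) (.leaf ⟨1150427721, 415613436374265508401250,
  904649853542030888560132634028911382822995185240506683976227745455098299001, 280866, [G3p0_9,
  G3p1_0, G3p1_3, G3p1_4, G3p1_5, G3p1_6, G3p1_9, G3p2_0, G3p2_1, G3p2_3, G3p2_4, G3p2_5, G3p2_6,
  G3p2_9, G3p4_5, G3p4_6, G3p4_9, G3p5_6, G3p5_9, G3p6_9, G3p7_9, G3p8_7, G3p8_9]⟩))))) (.node 1080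
  (.node 1076 (.node 1074 (.node 1073 (.leaf ⟨1145346200, 38077682719312244180068,
  1130806277623036486345676955897979786333368038013639457364922326438868222081, 279625, [G3p0_7,
  G3p1_0, G3p1_2, G3p1_3, G3p1_7, G3p2_0, G3p2_3, G3p2_7, G3p3_0, G3p3_7, G3p4_0, G3p4_5, G3p4_6,
  G3p4_7, G3p6_5, G3p8_7, G3p8_9, G3p9_7]⟩) (.leaf ⟨1145447009, 377826359757056931563623,
  904649853542031283962371282105258448900277756298433366098472497436502721025, 279650, [G3p0_9,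
  G3p1_0, G3p1_9, G3p2_0, G3p2_1, G3p2_9, G3p3_0, G3p3_1, G3p3_2, G3p3_9, G3p4_5, G3p6_0, G3p6_1,
  G3p6_2, G3p6_3, G3p6_4, G3p6_5, G3p6_9, G3p7_9, G3p8_7, G3p8_9]⟩)) (.node 1075 (.leaf ⟨1176015396,
  151152659330528459230273,
  904649880502386019221259278263378171998728277435572858204857929618418302989, 287113, [G3p1_0,
  G3p1_2, G3p1_3, G3p3_2, G3p5_4, G3p6_4, G3p6_5, G3p7_0, G3p7_9, G3p8_0, G3p8_7, G3p8_9]⟩) (.leaf
  ⟨1175757345, 302268386961785941527685,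
  904649853542031284014381072955130771543959906303955216221142091575424123407, 287050, [G3p0_9,
  G3p1_2, G3p1_3, G3p2_3, G3p4_0, G3p4_1, G3p4_2, G3p4_3, G3p4_9, G3p5_0, G3p5_1, G3p5_2, G3p5_3,
  G3p5_4, G3p5_9, G3p6_0, G3p6_1, G3p6_2, G3p6_3, G3p6_4, G3p6_5, G3p6_9, G3p7_9, G3p8_7,
  G3p8_9]⟩))) (.node 1078 (.node 1077 (.leaf ⟨1175855649, 415605182444042480389256,
  904649853542031284014381072966705030827758669356339178577466337764450435585, 287074, [G3p0_9,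
  G3p1_0, G3p1_9, G3p2_0, G3p2_1, G3p2_9, G3p3_0, G3p3_1, G3p3_2, G3p3_9, G3p4_0, G3p4_1, G3p4_2,
  G3p4_3, G3p4_9, G3p5_0, G3p5_1, G3p5_2, G3p5_3, G3p5_4, G3p5_9, G3p6_0, G3p6_1, G3p6_2, G3p6_3,
  G3p6_4, G3p6_5, G3p6_9, G3p7_9, G3p8_7, G3p8_9]⟩) (.leaf ⟨1175528009, 264495405300405563952193,
  904649853542027975931289182085824342686698299976726482497330215515590492797, 286994, [G3p0_9,
  G3p1_0, G3p1_2, G3p1_3, G3p1_4, G3p1_5, G3p1_6, G3p1_9, G3p3_2, G3p5_4, G3p6_4, G3p6_5, G3p7_9,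
  G3p8_7, G3p8_9]⟩)) (.node 1079 (.leaf ⟨1145643617, 264489564093209175427172,
  904649853542031196082946986691593952769791156740187525067646454607739159041, 279698, [G3p0_9,
  G3p1_0, G3p1_2, G3p1_3, G3p1_9, G3p2_0, G3p2_3, G3p2_9, G3p3_0, G3p3_9, G3p4_5, G3p6_0, G3p6_4,
  G3p6_5, G3p6_9, G3p7_9, G3p8_7, G3p8_9]⟩) (.leaf ⟨1145610849, 264489564028509788080228,
  904649853542031233745557399011812162965900527252799126378781839897850741255, 279690, [G3p0_9,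
  G3p1_2, G3p3_0, G3p3_1, G3p3_2, G3p3_9, G3p4_5, G3p6_0, G3p6_1, G3p6_2, G3p6_4, G3p6_5, G3p6_9,
  G3p7_9, G3p8_7, G3p8_9]⟩)))) (.node 1084 (.node 1082 (.node 1081 (.leaf ⟨1212555665,
  388720527740211375113220,
  904646402774166771882792530004399885448675088016402351115827754161719411681, 296034, [G3p0_5,
  G3p0_6, G3p0_7, G3p0_8, G3p0_9, G3p1_0, G3p1_5, G3p1_6, G3p1_7, G3p1_8, G3p1_9, G3p2_0, G3p2_1,
  G3p2_5, G3p2_6, G3p2_7, G3p2_8, G3p2_9, G3p3_0, G3p3_1, G3p3_2, G3p3_5, G3p3_6, G3p3_7, G3p3_8,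
  G3p3_9, G3p4_5, G3p4_6, G3p6_5, G3p7_8, G3p7_9, G3p8_9]⟩) (.leaf ⟨1212293529,
  310725315999247296037986,
  904646402774166771882792541674134542364866814869862816619741301723779040233, 295970, [G3p0_5,
  G3p0_6, G3p0_7, G3p0_8, G3p0_9, G3p1_0, G3p1_3, G3p1_5, G3p1_6, G3p1_7, G3p1_8, G3p1_9, G3p2_0,
  G3p2_1, G3p2_3, G3p2_5, G3p2_6, G3p2_7, G3p2_8, G3p2_9, G3p4_3, G3p4_5, G3p4_6, G3p6_5, G3p7_8,
  G3p7_9, G3p8_9]⟩)) (.node 1083 (.leaf ⟨1149540504, 38078692651528682047588,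
  1130806277623036285498439599758703622211519020892550408879502247046752043137, 280649, [G3p0_7,
  G3p1_0, G3p1_2, G3p1_3, G3p1_7, G3p2_0, G3p2_3, G3p2_7, G3p3_0, G3p3_7, G3p4_0, G3p4_6, G3p4_7,
  G3p5_0, G3p5_4, G3p5_6, G3p5_7, G3p8_7, G3p8_9, G3p9_7]⟩) (.leaf ⟨1216749969,
  388720168578141092317188,
  904646402774166571023199428566178857670757020543540959867674147843983999937, 297058, [G3p0_6,
  G3p0_7, G3p0_8, G3p0_9, G3p1_0, G3p1_6, G3p1_7, G3p1_8, G3p1_9, G3p2_0, G3p2_1, G3p2_6, G3p2_7,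
  G3p2_8, G3p2_9, G3p3_0, G3p3_1, G3p3_2, G3p3_6, G3p3_7, G3p3_8, G3p3_9, G3p4_6, G3p5_4, G3p5_6,
  G3p7_8, G3p7_9, G3p8_9]⟩))) (.node 1086 (.node 1085 (.leaf ⟨2223383697, 235237493277355625515012,
  1583105322713609092817749798829265607034306998878439427030338005803509678081, 542818, [G3p1_0,
  G3p2_0, G3p2_1, G3p3_0, G3p3_1, G3p3_2, G3p4_0, G3p4_6, G3p4_7, G3p4_8, G3p4_9, G3p5_0, G3p5_4,
  G3p5_6, G3p5_7, G3p5_8, G3p5_9, G3p8_7, G3p9_7, G3p9_8]⟩) (.leaf ⟨1216946577,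
  388720168612122873565284,
  904646402774166571023199428566045055241322345892624944269828268221507109825, 297106, [G3p0_6,
  G3p0_7, G3p0_8, G3p0_9, G3p1_0, G3p1_2, G3p1_3, G3p1_6, G3p1_7, G3p1_8, G3p1_9, G3p2_0, G3p2_3,
  G3p2_6, G3p2_7, G3p2_8, G3p2_9, G3p3_0, G3p3_6, G3p3_7, G3p3_8, G3p3_9, G3p4_6, G3p5_4, G3p5_6,
  G3p7_8, G3p7_9, G3p8_9]⟩)) (.node 1087 (.leaf ⟨1216913809, 310725028758500328802338,
  904646402774166571023199428566178529973868647586182814597423506064132211655, 297098, [G3p0_6,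
  G3p0_7, G3p0_8, G3p0_9, G3p1_2, G3p3_0, G3p3_1, G3p3_2, G3p3_6, G3p3_7, G3p3_8, G3p3_9, G3p4_6,
  G3p5_4, G3p5_6, G3p7_8, G3p7_9, G3p8_9]⟩) (.leaf ⟨1216487833, 310725028894771051169890,
  904646402774166571023965688007060082862480900851105722948121812535328900041, 296994, [G3p0_6,
  G3p0_7, G3p0_8, G3p0_9, G3p1_0, G3p1_3, G3p1_6, G3p1_7, G3p1_8, G3p1_9, G3p2_0, G3p2_1, G3p2_3,
  G3p2_6, G3p2_7, G3p2_8, G3p2_9, G3p4_3, G3p4_6, G3p5_3, G3p5_4, G3p5_6, G3p7_8, G3p7_9,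
  G3p8_9]⟩))))))

def G3T18 : Tr :=
  .node 1120 (.node 1104 (.node 1096 (.node 1092 (.node 1090 (.node 1089 (.leaf ⟨2223121561,
  235237493380640999049314,
  1583105322713609092818516058291555547616620277401878479652528097540595777545, 542754, [G3p1_0,
  G3p1_3, G3p2_0, G3p2_1, G3p2_3, G3p4_0, G3p4_3, G3p4_6, G3p4_7, G3p4_8, G3p4_9, G3p5_0, G3p5_3,
  G3p5_4, G3p5_6, G3p5_7, G3p5_8, G3p5_9, G3p8_7, G3p9_7, G3p9_8]⟩) (.leaf ⟨1149641313,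
  415606301588549882940552,
  904649853542031083153254752545021270130092621477708258555568553708703646209, 280674, [G3p0_9,
  G3p1_0, G3p1_9, G3p2_0, G3p2_1, G3p2_9, G3p3_0, G3p3_1, G3p3_2, G3p3_9, G3p5_0, G3p5_1, G3p5_2,
  G3p5_3, G3p5_4, G3p5_6, G3p5_9, G3p6_0, G3p6_1, G3p6_2, G3p6_3, G3p6_4, G3p6_9, G3p7_9, G3p8_7,
  G3p8_9]⟩)) (.node 1091 (.leaf ⟨1166316056, 151157419596858125294857,
  904652900062486873975107567968826675356254987454834496210951349445159092225, 284745, [G3p1_0,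
  G3p1_2, G3p1_3, G3p2_0, G3p2_3, G3p3_0, G3p4_0, G3p5_0, G3p5_4, G3p6_0, G3p6_4, G3p6_5, G3p7_0,
  G3p7_4, G3p7_5, G3p7_6, G3p7_9, G3p8_0, G3p8_4, G3p8_5, G3p8_6, G3p8_7, G3p8_9]⟩) (.leaf
  ⟨1166090777, 151157419853035744632065,
  904653196626425419213951321936337408423675016595521508667194581342506189325, 284690, [G3p0_9,
  G3p1_0, G3p1_2, G3p1_3, G3p1_9, G3p3_2, G3p4_2, G3p4_3, G3p5_2, G3p5_3, G3p5_4, G3p6_2, G3p6_3,
  G3p6_4, G3p6_5, G3p7_2, G3p7_3, G3p7_4, G3p7_5, G3p7_6, G3p7_9, G3p8_2, G3p8_3, G3p8_4, G3p8_5,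
  G3p8_6, G3p8_7, G3p8_9]⟩))) (.node 1094 (.node 1093 (.leaf ⟨2240324753, 274229335684871875595298,
  1583105322713615024672759663563000553921143691441348330844681496277356576775, 546954, [G3p1_2,
  G3p3_0, G3p3_1, G3p3_2, G3p3_7, G3p3_8, G3p3_9, G3p4_0, G3p4_7, G3p4_8, G3p4_9, G3p5_0, G3p5_4,
  G3p5_7, G3p5_8, G3p5_9, G3p6_0, G3p6_4, G3p6_5, G3p6_7, G3p6_8, G3p6_9, G3p8_7, G3p9_7, G3p9_8]⟩)
  (.leaf ⟨2223580305, 313232633097992821444708,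
  1583105322713609092817749798850540846671518571528516060337246964200308277249, 542866, [G3p1_0,
  G3p1_2, G3p1_3, G3p1_6, G3p1_7, G3p1_8, G3p1_9, G3p2_0, G3p2_3, G3p2_6, G3p2_7, G3p2_8, G3p2_9,
  G3p3_0, G3p3_6, G3p3_7, G3p3_8, G3p3_9, G3p4_0, G3p4_6, G3p4_7, G3p4_8, G3p4_9, G3p5_0, G3p5_4,
  G3p5_6, G3p5_7, G3p5_8, G3p5_9, G3p8_7, G3p9_7, G3p9_8]⟩)) (.node 1095 (.leaf ⟨2223547537,
  235237493244370276681762,
  1583105322713609092817749798850674321404064873222073930664842202042933379079, 542858, [G3p1_2,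
  G3p3_0, G3p3_1, G3p3_2, G3p3_6, G3p3_7, G3p3_8, G3p3_9, G3p4_0, G3p4_6, G3p4_7, G3p4_8, G3p4_9,
  G3p5_0, G3p5_4, G3p5_6, G3p5_7, G3p5_8, G3p5_9, G3p8_7, G3p9_7, G3p9_8]⟩) (.leaf ⟨1226084744,
  154732447912753485647972,
  904646402774166671456827101195780262737297466274389369216316660364191268865, 299337, [G3p1_0,
  G3p1_2, G3p1_3, G3p1_4, G3p2_0, G3p2_3, G3p2_4, G3p3_0, G3p3_4, G3p5_4, G3p5_6, G3p6_4, G3p7_8,
  G3p7_9, G3p8_9]⟩)))) (.node 1100 (.node 1098 (.node 1097 (.leaf ⟨1225859465,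
  271721701118499065337921,
  904646402774166671456827101195490344547309765391418027932826641264298165149, 299282, [G3p0_4,
  G3p0_7, G3p0_8, G3p0_9, G3p1_0, G3p1_2, G3p1_3, G3p1_4, G3p1_7, G3p1_8, G3p1_9, G3p3_2, G3p5_4,
  G3p5_6, G3p6_4, G3p7_8, G3p7_9, G3p8_9]⟩) (.leaf ⟨1227133208, 154736011385958642484324,
  904646402774166571021666979771822518905211058023284455901785881975661330433, 299593, [G3p1_0,
  G3p1_2, G3p1_3, G3p2_0, G3p2_3, G3p3_0, G3p4_5, G3p4_6, G3p5_6, G3p7_8, G3p7_9, G3p8_9]⟩)) (.node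
  1099 (.leaf ⟨1233424664, 154732517718549857308838,
  904646402774166878595150169225230851901687921456625703643435746747310211073, 301129, [G3p1_0,
  G3p1_2, G3p1_3, G3p2_0, G3p2_3, G3p3_0, G3p4_0, G3p5_0, G3p5_4, G3p6_0, G3p6_4, G3p6_5, G3p7_8,
  G3p7_9, G3p8_9]⟩) (.leaf ⟨1226907929, 271725262339904408388673,
  904646402774166571021666979771889418082917716577942501296425650343440548749, 299538, [G3p0_7,
  G3p0_8, G3p0_9, G3p1_0, G3p1_2, G3p1_3, G3p1_7, G3p1_8, G3p1_9, G3p3_2, G3p4_5, G3p4_6, G3p5_6,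
  G3p7_8, G3p7_9, G3p8_9]⟩))) (.node 1102 (.node 1101 (.leaf ⟨1233199385, 271721768781345126879393,
  904646402774166947644322865239649462503131699117313323606836503581228270477, 301074, [G3p0_7,
  G3p0_8, G3p0_9, G3p1_0, G3p1_2, G3p1_3, G3p1_7, G3p1_8, G3p1_9, G3p3_2, G3p4_2, G3p4_3, G3p5_2,
  G3p5_3, G3p5_4, G3p6_2, G3p6_3, G3p6_4, G3p6_5, G3p7_8, G3p7_9, G3p8_9]⟩) (.leaf ⟨1233723665,
  388711019549479870140516,
  904646402774166872317952651425726105276884751825436436666952214623855641473, 301202, [G3p0_7,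
  G3p0_8, G3p0_9, G3p1_0, G3p1_2, G3p1_3, G3p1_7, G3p1_8, G3p1_9, G3p2_0, G3p2_3, G3p2_7, G3p2_8,
  G3p2_9, G3p3_0, G3p3_7, G3p3_8, G3p3_9, G3p5_4, G3p6_4, G3p6_5, G3p7_8, G3p7_9, G3p8_9]⟩)) (.node
  1103 (.leaf ⟨1226187041, 505703654995042089666663,
  904646402774166571110457224850794743524984133068048343604434333153679573889, 299362, [G3p0_7,
  G3p0_8, G3p0_9, G3p1_0, G3p1_7, G3p1_8, G3p1_9, G3p2_0, G3p2_1, G3p2_7, G3p2_8, G3p2_9, G3p3_0,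
  G3p3_1, G3p3_2, G3p3_7, G3p3_8, G3p3_9, G3p4_0, G3p4_1, G3p4_2, G3p4_3, G3p4_6, G3p4_7, G3p4_8,
  G3p4_9, G3p5_0, G3p5_1, G3p5_2, G3p5_3, G3p5_4, G3p5_6, G3p5_7, G3p5_8, G3p5_9, G3p7_8, G3p7_9,
  G3p8_9]⟩) (.leaf ⟨1246007576, 271722882149023704256678,
  904646402774172201667840463851230259549956134214968854827082233945100713985, 304201, [G3p1_0,
  G3p1_2, G3p1_3, G3p2_0, G3p2_3, G3p3_0, G3p4_0, G3p4_5, G3p4_6, G3p4_7, G3p4_8, G3p4_9, G3p5_0,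
  G3p5_6, G3p5_7, G3p5_8, G3p5_9, G3p6_0, G3p6_7, G3p6_8, G3p6_9, G3p7_8, G3p7_9, G3p8_9]⟩)))))
  (.node 1112 (.node 1108 (.node 1106 (.node 1105 (.leaf ⟨1226346788, 310722723020939944135745,
  904646402774166571109020488338659736909797061119719416744404960704541230029, 299401, [G3p1_0,
  G3p1_2, G3p1_3, G3p1_6, G3p1_7, G3p1_8, G3p1_9, G3p3_2, G3p4_6, G3p4_7, G3p4_8, G3p4_9, G3p5_4,
  G3p5_6, G3p5_7, G3p5_8, G3p5_9, G3p7_8, G3p7_9, G3p8_9]⟩) (.leaf ⟨2316608584,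
  118066340881018704269412,
  1356945447911225183308026012777560218578480282848076493458738566982880198656, 565578, [G3p1_2,
  G3p1_3, G3p1_4, G3p1_5, G3p1_6, G3p2_3, G3p2_4, G3p2_5, G3p2_6, G3p3_4, G3p3_5, G3p3_6, G3p5_4,
  G3p6_4, G3p6_5, G3p7_0, G3p7_4, G3p7_5, G3p7_6, G3p7_8, G3p7_9, G3p9_8]⟩)) (.node 1107 (.leaf
  ⟨1246109969, 388712133030505956347908,
  904646402774172195390642946051859315354587639234695603448444581444123034497, 304226, [G3p0_7,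
  G3p0_8, G3p0_9, G3p1_0, G3p1_7, G3p1_8, G3p1_9, G3p2_0, G3p2_1, G3p2_7, G3p2_8, G3p2_9, G3p3_0,
  G3p3_1, G3p3_2, G3p3_7, G3p3_8, G3p3_9, G3p4_5, G3p4_6, G3p4_7, G3p4_8, G3p4_9, G3p5_6, G3p5_7,
  G3p5_8, G3p5_9, G3p6_7, G3p6_8, G3p6_9, G3p7_8, G3p7_9, G3p8_9]⟩) (.leaf ⟨2316706889,
  118067530886921285997699,
  1356945447911225183308026012777716322093401047339931043065860232894959583345, 565602, [G3p1_0,
  G3p1_4, G3p1_5, G3p1_6, G3p2_0, G3p2_1, G3p2_4, G3p2_5, G3p2_6, G3p3_0, G3p3_1, G3p3_2, G3p3_4,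
  G3p3_5, G3p3_6, G3p5_4, G3p6_4, G3p6_5, G3p7_0, G3p7_4, G3p7_5, G3p7_6, G3p7_8, G3p7_9,
  G3p9_8]⟩))) (.node 1110 (.node 1109 (.leaf ⟨1246306577, 388712133064487737593956,
  904646402774172195390642946051725512925152964583779587850598701821646144385, 304274, [G3p0_7,
  G3p0_8, G3p0_9, G3p1_0, G3p1_2, G3p1_3, G3p1_7, G3p1_8, G3p1_9, G3p2_0, G3p2_3, G3p2_7, G3p2_8,
  G3p2_9, G3p3_0, G3p3_7, G3p3_8, G3p3_9, G3p4_5, G3p4_6, G3p4_7, G3p4_8, G3p4_9, G3p5_6, G3p5_7,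
  G3p5_8, G3p5_9, G3p6_7, G3p6_8, G3p6_9, G3p7_8, G3p7_9, G3p8_9]⟩) (.leaf ⟨1246273809,
  310719299053874406592546,
  904646402774172195390642946051859009436103056216345348802394767062506865543, 304266, [G3p0_7,
  G3p0_8, G3p0_9, G3p1_2, G3p3_0, G3p3_1, G3p3_2, G3p3_7, G3p3_8, G3p3_9, G3p4_5, G3p4_6, G3p4_7,
  G3p4_8, G3p4_9, G3p5_6, G3p5_7, G3p5_8, G3p5_9, G3p6_7, G3p6_8, G3p6_9, G3p7_8, G3p7_9, G3p8_9]⟩))
  (.node 1111 (.leaf ⟨1245847833, 310719299260513873137826,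
  904646402774172245608223088587613898925332865084649981317187548783944663945, 304162, [G3p0_7,
  G3p0_8, G3p0_9, G3p1_0, G3p1_3, G3p1_7, G3p1_8, G3p1_9, G3p2_0, G3p2_1, G3p2_3, G3p2_7, G3p2_8,
  G3p2_9, G3p4_3, G3p4_5, G3p4_6, G3p4_7, G3p4_8, G3p4_9, G3p5_3, G3p5_6, G3p5_7, G3p5_8, G3p5_9,
  G3p6_3, G3p6_7, G3p6_8, G3p6_9, G3p7_8, G3p7_9, G3p8_9]⟩) (.leaf ⟨2316444745,
  118066340950322296557666,
  1356945447911225183308026012775062536137076376928464278919440181300527890553, 565538, [G3p1_0,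
  G3p1_3, G3p1_4, G3p1_5, G3p1_6, G3p2_0, G3p2_1, G3p2_3, G3p2_4, G3p2_5, G3p2_6, G3p5_4, G3p6_4,
  G3p6_5, G3p7_0, G3p7_4, G3p7_5, G3p7_6, G3p7_8, G3p7_9, G3p9_8]⟩)))) (.node 1116 (.node 1114
  (.node 1113 (.leaf ⟨1214550408, 154734897870950775199844,
  904646402774166872317952651405744332681348183356212962258400803096839127041, 296521, [G3p1_0,
  G3p1_2, G3p1_3, G3p2_0, G3p2_3, G3p3_0, G3p5_4, G3p6_4, G3p6_5, G3p7_8, G3p7_9, G3p8_9]⟩) (.leaf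
  ⟨1217958276, 154738391649409161038977,
  904646402774166571021666979771889418078265347604412800975011734024769765389, 297353, [G3p1_0,
  G3p1_2, G3p1_3, G3p3_2, G3p4_5, G3p4_6, G3p5_6, G3p7_8, G3p7_9, G3p8_9]⟩)) (.node 1115 (.leaf
  ⟨1217696136, 154739581614563240513636,
  904646402774166571021666979774320240479653120208535666698253638075883257857, 297289, [G3p1_0,
  G3p1_2, G3p1_3, G3p1_4, G3p1_5, G3p1_6, G3p2_0, G3p2_3, G3p2_4, G3p2_5, G3p2_6, G3p3_0, G3p3_4,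
  G3p3_5, G3p3_6, G3p4_5, G3p4_6, G3p5_6, G3p7_8, G3p7_9, G3p8_9]⟩) (.leaf ⟨2291442785,
  118061504269250907443366,
  1356945447870910114515333560400641726560342079466312696444203872971333238799, 559434, [G3p1_2,
  G3p1_3, G3p2_3, G3p4_0, G3p4_1, G3p4_2, G3p4_3, G3p4_5, G3p4_6, G3p5_0, G3p5_1, G3p5_2, G3p5_3,
  G3p5_6, G3p6_0, G3p6_1, G3p6_2, G3p6_3, G3p7_0, G3p7_1, G3p7_2, G3p7_3, G3p7_8, G3p7_9,
  G3p9_8]⟩))) (.node 1118 (.node 1117 (.leaf ⟨1217798537, 349726426708178406449283,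
  904646402774166571021666979794435815504624372202364760059836712846143521777, 297314, [G3p0_4,
  G3p0_5, G3p0_6, G3p0_7, G3p0_8, G3p0_9, G3p1_0, G3p1_4, G3p1_5, G3p1_6, G3p1_7, G3p1_8, G3p1_9,
  G3p2_0, G3p2_1, G3p2_4, G3p2_5, G3p2_6, G3p2_7, G3p2_8, G3p2_9, G3p3_0, G3p3_1, G3p3_2, G3p3_4,
  G3p3_5, G3p3_6, G3p3_7, G3p3_8, G3p3_9, G3p4_5, G3p4_6, G3p5_6, G3p7_8, G3p7_9, G3p8_9]⟩) (.leaf
  ⟨1214652809, 349722933040767473790083,
  904646402774166872317952651428357629280761497535157864658871942302681531377, 296546, [G3p0_4,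
  G3p0_5, G3p0_6, G3p0_7, G3p0_8, G3p0_9, G3p1_0, G3p1_4, G3p1_5, G3p1_6, G3p1_7, G3p1_8, G3p1_9,
  G3p2_0, G3p2_1, G3p2_4, G3p2_5, G3p2_6, G3p2_7, G3p2_8, G3p2_9, G3p3_0, G3p3_1, G3p3_2, G3p3_4,
  G3p3_5, G3p3_6, G3p3_7, G3p3_8, G3p3_9, G3p5_4, G3p6_4, G3p6_5, G3p7_8, G3p7_9, G3p8_9]⟩)) (.node
  1119 (.leaf ⟨2288395337, 118059200353510557422723,
  1356945447865151055703032243594879463407353171015298627723165070351711338497, 558690, [G3p1_0,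
  G3p2_0, G3p2_1, G3p3_0, G3p3_1, G3p3_2, G3p5_4, G3p6_4, G3p6_5, G3p7_0, G3p7_8, G3p7_9, G3p9_8]⟩)
  (.leaf ⟨2291541089, 118061504162635860512937,
  1356945447870910114515333560400797830075262843958167246051325538883412623361, 559458, [G3p1_0,
  G3p2_0, G3p2_1, G3p3_0, G3p3_1, G3p3_2, G3p4_0, G3p4_1, G3p4_2, G3p4_3, G3p4_5, G3p4_6, G3p5_0,
  G3p5_1, G3p5_2, G3p5_3, G3p5_6, G3p6_0, G3p6_1, G3p6_2, G3p6_3, G3p7_0, G3p7_1, G3p7_2, G3p7_3,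
  G3p7_8, G3p7_9, G3p9_8]⟩)))))) (.node 1136 (.node 1128 (.node 1124 (.node 1122 (.node 1121 (.leaf
  ⟨1214325129, 271727719053501139166273,
  904646402774166872317952651405811231859636388032581109945038701258424976381, 296466, [G3p0_4,
  G3p0_5, G3p0_6, G3p0_7, G3p0_8, G3p0_9, G3p1_0, G3p1_2, G3p1_3, G3p1_4, G3p1_5, G3p1_6, G3p1_7,
  G3p1_8, G3p1_9, G3p3_2, G3p5_4, G3p6_4, G3p6_5, G3p7_8, G3p7_9, G3p8_9]⟩) (.leaf ⟨1217470857,
  271731212720912071825473,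
  904646402774166571021666979771889418083499262699788005346003471801886966781, 297234, [G3p0_4,
  G3p0_5, G3p0_6, G3p0_7, G3p0_8, G3p0_9, G3p1_0, G3p1_2, G3p1_3, G3p1_4, G3p1_5, G3p1_6, G3p1_7,
  G3p1_8, G3p1_9, G3p3_2, G3p4_5, G3p4_6, G3p5_6, G3p7_8, G3p7_9, G3p8_9]⟩)) (.node 1123 (.leaf
  ⟨1217536393, 310728819799757390290018,
  904646402774166571021666979771800561850416263456081992341123729342353376249, 297250, [G3p0_4,
  G3p0_5, G3p0_6, G3p0_7, G3p0_8, G3p0_9, G3p1_0, G3p1_3, G3p1_4, G3p1_5, G3p1_6, G3p1_7, G3p1_8,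
  G3p1_9, G3p2_0, G3p2_1, G3p2_3, G3p2_4, G3p2_5, G3p2_6, G3p2_7, G3p2_8, G3p2_9, G3p4_5, G3p4_6,
  G3p5_6, G3p7_8, G3p7_9, G3p8_9]⟩) (.leaf ⟨1214390665, 310725326132346457630818,
  904646402774166872317952651405722375626553388788875096940158958798891385849, 296482, [G3p0_4,
  G3p0_5, G3p0_6, G3p0_7, G3p0_8, G3p0_9, G3p1_0, G3p1_3, G3p1_4, G3p1_5, G3p1_6, G3p1_7, G3p1_8,
  G3p1_9, G3p2_0, G3p2_1, G3p2_3, G3p2_4, G3p2_5, G3p2_6, G3p2_7, G3p2_8, G3p2_9, G3p5_4, G3p6_4,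
  G3p6_5, G3p7_8, G3p7_9, G3p8_9]⟩))) (.node 1126 (.node 1125 (.leaf ⟨2288133193,
  118059200493113100636258,
  1356945447865151055703032243594723360913263930395683864023281635245949452297, 558626, [G3p1_0,
  G3p1_3, G3p2_0, G3p2_1, G3p2_3, G3p5_4, G3p6_4, G3p6_5, G3p7_0, G3p7_8, G3p7_9, G3p9_8]⟩) (.leaf
  ⟨1212453272, 154734892241451240981604,
  904646402774166771882792531443645043547942130763809425808281616746396319745, 296009, [G3p1_0,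
  G3p1_2, G3p1_3, G3p2_0, G3p2_3, G3p3_0, G3p4_0, G3p4_5, G3p4_6, G3p6_5, G3p7_8, G3p7_9, G3p8_9]⟩))
  (.node 1127 (.leaf ⟨1212227993, 271727710046301884417089,
  904646402774166771882792547520229953366079357663323575903746841732514055149, 295954, [G3p0_5,
  G3p0_6, G3p0_7, G3p0_8, G3p0_9, G3p1_0, G3p1_2, G3p1_3, G3p1_5, G3p1_6, G3p1_7, G3p1_8, G3p1_9,
  G3p3_2, G3p4_2, G3p4_3, G3p4_5, G3p4_6, G3p6_5, G3p7_8, G3p7_9, G3p8_9]⟩) (.leaf ⟨1244012817,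
  388709938651587520006148,
  904646402774172496599575109119010810304177656036225617712696209696565953409, 303714, [G3p0_7,
  G3p0_8, G3p0_9, G3p1_0, G3p1_7, G3p1_8, G3p1_9, G3p2_0, G3p2_1, G3p2_7, G3p2_8, G3p2_9, G3p3_0,
  G3p3_1, G3p3_2, G3p3_7, G3p3_8, G3p3_9, G3p4_5, G3p6_4, G3p6_5, G3p6_7, G3p6_8, G3p6_9, G3p7_8,
  G3p7_9, G3p8_9]⟩)))) (.node 1132 (.node 1130 (.node 1129 (.leaf ⟨1243750681,
  310717104811226692618338,
  904646402774172546816388992192319350798520362743126179259365650227832292233, 303650, [G3p0_7,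
  G3p0_8, G3p0_9, G3p1_0, G3p1_3, G3p1_7, G3p1_8, G3p1_9, G3p2_0, G3p2_1, G3p2_3, G3p2_7, G3p2_8,
  G3p2_9, G3p4_5, G3p6_3, G3p6_4, G3p6_5, G3p6_7, G3p6_8, G3p6_9, G3p7_8, G3p7_9, G3p8_9]⟩) (.leaf
  ⟨1243124004, 310716995568113835707457,
  904646402774172496686928617665732453283460109013439457823112353846242575245, 303497, [G3p1_0,
  G3p1_2, G3p1_3, G3p1_7, G3p1_8, G3p1_9, G3p3_2, G3p4_7, G3p4_8, G3p4_9, G3p5_4, G3p5_7, G3p5_8,
  G3p5_9, G3p6_4, G3p6_5, G3p6_7, G3p6_8, G3p6_9, G3p7_8, G3p7_9, G3p8_9]⟩)) (.node 1131 (.leaf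
  ⟨1242964257, 544695497471861932035208,
  904646402774172590844891384978078917435820836075710855186699345020972893057, 303458, [G3p0_7,
  G3p0_8, G3p0_9, G3p1_0, G3p1_7, G3p1_8, G3p1_9, G3p2_0, G3p2_1, G3p2_7, G3p2_8, G3p2_9, G3p3_0,
  G3p3_1, G3p3_2, G3p3_7, G3p3_8, G3p3_9, G3p4_0, G3p4_1, G3p4_2, G3p4_3, G3p4_7, G3p4_8, G3p4_9,
  G3p5_0, G3p5_1, G3p5_2, G3p5_3, G3p5_4, G3p5_7, G3p5_8, G3p5_9, G3p6_0, G3p6_1, G3p6_2, G3p6_3,
  G3p6_4, G3p6_5, G3p6_7, G3p6_8, G3p6_9, G3p7_8, G3p7_9, G3p8_9]⟩) (.leaf ⟨1242865953,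
  427706246663010898807941,
  904646402774172590844891384957941041325363574102929833268473163624236385167, 303434, [G3p0_7,
  G3p0_8, G3p0_9, G3p1_2, G3p1_3, G3p2_3, G3p4_0, G3p4_1, G3p4_2, G3p4_3, G3p4_7, G3p4_8, G3p4_9,
  G3p5_0, G3p5_1, G3p5_2, G3p5_3, G3p5_4, G3p5_7, G3p5_8, G3p5_9, G3p6_0, G3p6_1, G3p6_2, G3p6_3,
  G3p6_4, G3p6_5, G3p6_7, G3p6_8, G3p6_9, G3p7_8, G3p7_9, G3p8_9]⟩))) (.node 1134 (.node 1133 (.leaf
  ⟨1216647576, 154735902173667678849124,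
  904646402774166571023295210977441768559226337425479217637388145884515074049, 297033, [G3p1_0,
  G3p1_2, G3p1_3, G3p2_0, G3p2_3, G3p3_0, G3p4_0, G3p4_6, G3p5_0, G3p5_4, G3p5_6, G3p7_8, G3p7_9,
  G3p8_9]⟩) (.leaf ⟨1216422297, 271727459006906542229601,
  904646402774166571024348817738371976967318771871384890356019475141192582093, 296978, [G3p0_6,
  G3p0_7, G3p0_8, G3p0_9, G3p1_0, G3p1_2, G3p1_3, G3p1_6, G3p1_7, G3p1_8, G3p1_9, G3p3_2, G3p4_2,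
  G3p4_3, G3p4_6, G3p5_2, G3p5_3, G3p5_4, G3p5_6, G3p7_8, G3p7_9, G3p8_9]⟩)) (.node 1135 (.leaf
  ⟨286811684, 4841118706505689011331,
  1722682790063240351155576928481158177928503890919446639831511453231576121422, 70022, [G3p0_1,
  G3p0_2, G3p0_3, G3p0_6, G3p2_1, G3p3_1, G3p3_2, G3p4_6, G3p5_4, G3p5_6, G3p7_8, G3p9_0, G3p9_1,
  G3p9_2, G3p9_3, G3p9_6, G3p9_7, G3p9_8]⟩) (.leaf ⟨287614481, 4841339344232724402177,
  1782755590265705418359876594733470110767738698073310434797943865959321108495, 70218, [G3p1_2,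
  G3p1_3, G3p2_3, G3p4_5, G3p4_6, G3p5_6, G3p7_8, G3p9_0, G3p9_4, G3p9_5, G3p9_6, G3p9_7,
  G3p9_8]⟩))))) (.node 1144 (.node 1140 (.node 1138 (.node 1137 (.leaf ⟨287712785,
  4841339237617677471748,
  1782755590265705418359876594733626214282659462565164984405065531871400493057, 70242, [G3p1_0,
  G3p2_0, G3p2_1, G3p3_0, G3p3_1, G3p3_2, G3p4_5, G3p4_6, G3p5_6, G3p7_8, G3p9_0, G3p9_4, G3p9_5,
  G3p9_6, G3p9_7, G3p9_8]⟩) (.leaf ⟨286369316, 4841118524914471736451,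
  1697946931156342970541410763472184588178028865074042950850283957830035701824, 69914, [G3p0_6,
  G3p1_6, G3p2_1, G3p2_6, G3p3_1, G3p3_2, G3p3_6, G3p4_6, G3p5_4, G3p5_6, G3p7_8, G3p9_0, G3p9_6,
  G3p9_7, G3p9_8]⟩)) (.node 1139 (.leaf ⟨286418468, 4844577505001290899683,
  1722682790063240351155576928482451644970178966088596800827315896143717597262, 69926, [G3p0_1,
  G3p0_2, G3p0_3, G3p0_6, G3p1_2, G3p1_3, G3p1_6, G3p2_3, G3p2_6, G3p3_6, G3p4_6, G3p5_4, G3p5_6,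
  G3p7_8, G3p9_0, G3p9_1, G3p9_2, G3p9_3, G3p9_6, G3p9_7, G3p9_8]⟩) (.leaf ⟨287450649,
  4841339411269647700130,
  1796890366783932492996542974739413459915190093120564843924288067833218727945, 70178, [G3p1_0,
  G3p1_3, G3p2_0, G3p2_1, G3p2_3, G3p4_5, G3p4_6, G3p5_6, G3p7_8, G3p9_0, G3p9_3, G3p9_4, G3p9_5,
  G3p9_6, G3p9_7, G3p9_8]⟩))) (.node 1142 (.node 1141 (.leaf ⟨287598104, 4841339235552871944358,
  1786289284395262187019043189735000549970293153551377996063001179543895670786, 70214, [G3p0_1,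
  G3p2_1, G3p2_3, G3p3_1, G3p4_5, G3p4_6, G3p5_6, G3p7_8, G3p9_0, G3p9_1, G3p9_4, G3p9_5, G3p9_6,
  G3p9_7, G3p9_8]⟩) (.leaf ⟨293889560, 4837845568245018500361,
  1786289284395262500869723897007895402187109755085267386947265679630648082434, 71750, [G3p0_1,
  G3p2_1, G3p2_3, G3p3_1, G3p4_1, G3p5_1, G3p5_4, G3p6_1, G3p6_4, G3p6_5, G3p7_8, G3p9_0, G3p9_1,
  G3p9_4, G3p9_5, G3p9_6, G3p9_7, G3p9_8]⟩)) (.node 1143 (.leaf ⟨293905937, 4837845676821791742977,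
  1782755590265705719656162266367391924543875823406103539396979095415859118095, 71754, [G3p1_2,
  G3p1_3, G3p2_3, G3p5_4, G3p6_4, G3p6_5, G3p7_8, G3p9_0, G3p9_4, G3p9_5, G3p9_6, G3p9_7, G3p9_8]⟩)
  (.leaf ⟨294004241, 4837845570206744812548,
  1782755590265705719656162266367548028058796587897958089004100761327938502657, 71778, [G3p1_0,
  G3p2_0, G3p2_1, G3p3_0, G3p3_1, G3p3_2, G3p5_4, G3p6_4, G3p6_5, G3p7_8, G3p9_0, G3p9_4, G3p9_5,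
  G3p9_6, G3p9_7, G3p9_8]⟩)))) (.node 1148 (.node 1146 (.node 1145 (.leaf ⟨287467032,
  4841339525823941677222,
  1807491449172602798974042759743870969989323473738780300631080041637208784910, 70182, [G3p0_1,
  G3p0_2, G3p0_3, G3p1_2, G3p1_3, G3p2_3, G3p4_5, G3p4_6, G3p5_6, G3p7_8, G3p9_0, G3p9_1, G3p9_2,
  G3p9_3, G3p9_4, G3p9_5, G3p9_6, G3p9_7, G3p9_8]⟩) (.leaf ⟨293758488, 4837845967367739383049,
  1807491449172603188151093680850604052850216932479247409226720165505203568654, 71718, [G3p0_1,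
  G3p0_2, G3p0_3, G3p1_2, G3p1_3, G3p2_3, G3p4_1, G3p4_2, G3p4_3, G3p5_1, G3p5_2, G3p5_3, G3p5_4,
  G3p6_1, G3p6_2, G3p6_3, G3p6_4, G3p6_5, G3p7_8, G3p9_0, G3p9_1, G3p9_2, G3p9_3, G3p9_4, G3p9_5,
  G3p9_6, G3p9_7, G3p9_8]⟩)) (.node 1147 (.leaf ⟨293758500, 4844986206667474772195,
  1807491449172603100270328431380290505339902670130243415608350788745564258430, 71718, [G3p0_1,
  G3p0_2, G3p0_3, G3p0_4, G3p0_5, G3p0_6, G3p1_2, G3p1_3, G3p1_4, G3p1_5, G3p1_6, G3p2_3, G3p2_4,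
  G3p2_5, G3p2_6, G3p3_4, G3p3_5, G3p3_6, G3p5_4, G3p6_4, G3p6_5, G3p7_8, G3p9_0, G3p9_1, G3p9_2,
  G3p9_3, G3p9_4, G3p9_5, G3p9_6, G3p9_7, G3p9_8]⟩) (.leaf ⟨287417880, 4841339419205673521321,
  1807491449172602798974042759744004772418758147280502041029225194950069452800, 70170, [G3p2_1,
  G3p3_1, G3p3_2, G3p4_5, G3p4_6, G3p5_6, G3p7_8, G3p9_0, G3p9_1, G3p9_2, G3p9_3, G3p9_4, G3p9_5,
  G3p9_6, G3p9_7, G3p9_8]⟩))) (.node 1150 (.node 1149 (.leaf ⟨293709348, 4841415762489878189187,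
  1782755590265705719656162266370023448547752569115689565631318850431882362992, 71706, [G3p0_4,
  G3p0_5, G3p0_6, G3p1_4, G3p1_5, G3p1_6, G3p2_1, G3p2_4, G3p2_5, G3p2_6, G3p3_1, G3p3_2, G3p3_4,
  G3p3_5, G3p3_6, G3p5_4, G3p6_4, G3p6_5, G3p7_8, G3p9_0, G3p9_4, G3p9_5, G3p9_6, G3p9_7, G3p9_8]⟩)
  (.leaf ⟨293709336, 4837845860749471227148,
  1807491449172603188151093680850737855279651606020969149624865318818064236544, 71706, [G3p2_1,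
  G3p3_1, G3p3_2, G3p4_1, G3p4_2, G3p4_3, G3p5_1, G3p5_2, G3p5_3, G3p5_4, G3p6_1, G3p6_2, G3p6_3,
  G3p6_4, G3p6_5, G3p7_8, G3p9_0, G3p9_1, G3p9_2, G3p9_3, G3p9_4, G3p9_5, G3p9_6, G3p9_7, G3p9_8]⟩))
  (.node 1151 (.leaf ⟨287385113, 4841339418930795614369,
  1803957755043046030314876164742474333216208884257749339620325087048903688205, 70162, [G3p1_0,
  G3p1_2, G3p1_3, G3p3_2, G3p4_5, G3p4_6, G3p5_6, G3p7_8, G3p9_0, G3p9_2, G3p9_3, G3p9_4, G3p9_5,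
  G3p9_6, G3p9_7, G3p9_8]⟩) (.leaf ⟨293676569, 4837845860371514105089,
  1803957755043046406937532050210234377636422866797120161930735940286691409933, 71698, [G3p1_0,
  G3p1_2, G3p1_3, G3p3_2, G3p4_2, G3p4_3, G3p5_2, G3p5_3, G3p5_4, G3p6_2, G3p6_3, G3p6_4, G3p6_5,
  G3p7_8, G3p9_0, G3p9_2, G3p9_3, G3p9_4, G3p9_5, G3p9_6, G3p9_7, G3p9_8]⟩))))))

def G3T19 : Tr :=
  .node 1184 (.node 1168 (.node 1160 (.node 1156 (.node 1154 (.node 1153 (.leaf ⟨294200849,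
  4837845604188526058596,
  1782755590265705719656162266367414225629361913247042073406254881705461612545, 71826, [G3p1_0,
  G3p1_2, G3p1_3, G3p2_0, G3p2_3, G3p3_0, G3p5_4, G3p6_4, G3p6_5, G3p7_8, G3p9_0, G3p9_4, G3p9_5,
  G3p9_6, G3p9_7, G3p9_8]⟩) (.leaf ⟨294168081, 4837845537219248495650,
  1782755590265705719656162266367548027037965064025718303096862530521621004295, 71818, [G3p1_2,
  G3p3_0, G3p3_1, G3p3_2, G3p5_4, G3p6_4, G3p6_5, G3p7_8, G3p9_0, G3p9_4, G3p9_5, G3p9_6, G3p9_7,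
  G3p9_8]⟩)) (.node 1155 (.leaf ⟨293742105, 4837845849411831307522,
  1796890366783932844510408788929227427454045123257743093664240379810592325641, 71714, [G3p1_0,
  G3p1_3, G3p2_0, G3p2_1, G3p2_3, G3p4_3, G3p5_3, G3p5_4, G3p6_3, G3p6_4, G3p6_5, G3p7_8, G3p9_0,
  G3p9_3, G3p9_4, G3p9_5, G3p9_6, G3p9_7, G3p9_8]⟩) (.leaf ⟨286565921, 4837660012295114295396,
  1697946931156342970542847499962709847045739158925684263349758012516585111567, 69962, [G3p1_2,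
  G3p1_3, G3p2_3, G3p4_0, G3p4_1, G3p4_2, G3p4_3, G3p4_6, G3p5_0, G3p5_1, G3p5_2, G3p5_3, G3p5_4,
  G3p5_6, G3p7_8, G3p9_0, G3p9_6, G3p9_7, G3p9_8]⟩))) (.node 1158 (.node 1157 (.leaf ⟨286664225,
  4837659905680067364967,
  1697946931156342970542847499962865950560659923417538812956879678428664496129, 69986, [G3p1_0,
  G3p2_0, G3p2_1, G3p3_0, G3p3_1, G3p3_2, G3p4_0, G3p4_1, G3p4_2, G3p4_3, G3p4_6, G3p5_0, G3p5_1,
  G3p5_2, G3p5_3, G3p5_4, G3p5_6, G3p7_8, G3p9_0, G3p9_6, G3p9_7, G3p9_8]⟩) (.leaf ⟨306472472,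
  4835388854545208676518,
  1588402413140083154660108905290766714638294433302269557280746855227864514562, 74822, [G3p0_1,
  G3p2_1, G3p2_3, G3p3_1, G3p4_1, G3p4_5, G3p4_6, G3p5_1, G3p5_6, G3p6_1, G3p7_8, G3p9_0, G3p9_1,
  G3p9_7, G3p9_8]⟩)) (.node 1159 (.leaf ⟨306488849, 4835388963225061134337,
  1584868719010526373446547274650263236995060501623105709730460271013075550223, 74826, [G3p1_2,
  G3p1_3, G3p2_3, G3p4_5, G3p4_6, G3p5_6, G3p7_8, G3p9_0, G3p9_7, G3p9_8]⟩) (.leaf ⟨286828068,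
  4841118706265170842755,
  1719149095933683582496410333479627738726281742440325307571574142518025781324, 70026, [G3p0_2,
  G3p0_3, G3p0_6, G3p1_2, G3p1_3, G3p1_6, G3p3_2, G3p4_6, G3p5_4, G3p5_6, G3p7_8, G3p9_0, G3p9_2,
  G3p9_3, G3p9_6, G3p9_7, G3p9_8]⟩)))) (.node 1164 (.node 1162 (.node 1161 (.leaf ⟨303343176,
  9710166192047696023652,
  1584868719010526674742832946295246389172298188061411682930425114312733360128, 74058, [G3p1_2,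
  G3p1_3, G3p1_4, G3p1_5, G3p1_6, G3p1_7, G3p1_8, G3p2_3, G3p2_4, G3p2_5, G3p2_6, G3p2_7, G3p2_8,
  G3p3_4, G3p3_5, G3p3_6, G3p3_7, G3p3_8, G3p5_4, G3p6_4, G3p6_5, G3p7_8, G3p9_0, G3p9_7, G3p9_8]⟩)
  (.leaf ⟨437560392, 1261557406292040126566,
  1782762087554025715036119665113485469572884951589292739245802789886428708864, 106826, [G3p1_2,
  G3p1_3, G3p1_4, G3p1_5, G3p1_6, G3p2_3, G3p2_4, G3p2_5, G3p2_6, G3p3_4, G3p3_5, G3p3_6, G3p5_4,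
  G3p6_4, G3p6_5, G3p7_0, G3p7_4, G3p7_5, G3p7_6, G3p8_0, G3p8_4, G3p8_5, G3p8_6, G3p8_7, G3p9_0,
  G3p9_4, G3p9_5, G3p9_6, G3p9_7, G3p9_8]⟩)) (.node 1163 (.leaf ⟨306587153, 4835388856610014203908,
  1584868719010526373446547274650419340509981266114960259337581936925154934785, 74850, [G3p1_0,
  G3p2_0, G3p2_1, G3p3_0, G3p3_1, G3p3_2, G3p4_5, G3p4_6, G3p5_6, G3p7_8, G3p9_0, G3p9_7, G3p9_8]⟩)
  (.leaf ⟨303441481, 10928841306816182948995,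
  1584868719010526674742832946295402492687218952553266232537546780224812745201, 74082, [G3p1_0,
  G3p1_4, G3p1_5, G3p1_6, G3p1_7, G3p1_8, G3p2_0, G3p2_1, G3p2_4, G3p2_5, G3p2_6, G3p2_7, G3p2_8,
  G3p3_0, G3p3_1, G3p3_2, G3p3_4, G3p3_5, G3p3_6, G3p3_7, G3p3_8, G3p5_4, G3p6_4, G3p6_5, G3p7_8,
  G3p9_0, G3p9_7, G3p9_8]⟩))) (.node 1166 (.node 1165 (.leaf ⟨437658697, 1262747412193548113027,
  1782762087554025715036119665113641573087805716081147288852924455798508093553, 106850, [G3p1_0,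
  G3p1_4, G3p1_5, G3p1_6, G3p2_0, G3p2_1, G3p2_4, G3p2_5, G3p2_6, G3p3_0, G3p3_1, G3p3_2, G3p3_4,
  G3p3_5, G3p3_6, G3p5_4, G3p6_4, G3p6_5, G3p7_0, G3p7_4, G3p7_5, G3p7_6, G3p8_0, G3p8_4, G3p8_5,
  G3p8_6, G3p8_7, G3p9_0, G3p9_4, G3p9_5, G3p9_6, G3p9_7, G3p9_8]⟩) (.leaf ⟨306341412,
  4846099721675342225635,
  1807491449172602798974042759746368691563765544797450308943248697355121197182, 74790, [G3p0_1,
  G3p0_2, G3p0_3, G3p0_4, G3p0_5, G3p0_6, G3p1_2, G3p1_3, G3p1_4, G3p1_5, G3p1_6, G3p2_3, G3p2_4,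
  G3p2_5, G3p2_6, G3p3_4, G3p3_5, G3p3_6, G3p4_5, G3p4_6, G3p5_6, G3p7_8, G3p9_0, G3p9_1, G3p9_2,
  G3p9_3, G3p9_4, G3p9_5, G3p9_6, G3p9_7, G3p9_8]⟩)) (.node 1167 (.leaf ⟨306341400,
  4835389144816278409382,
  1609604577917423841941478689133475365301401610696249579560201341102420000782, 74790, [G3p0_1,
  G3p0_2, G3p0_3, G3p1_2, G3p1_3, G3p2_3, G3p4_1, G3p4_2, G3p4_3, G3p4_5, G3p4_6, G3p5_1, G3p5_2,
  G3p5_3, G3p5_6, G3p6_1, G3p6_2, G3p6_3, G3p7_8, G3p9_0, G3p9_1, G3p9_2, G3p9_3, G3p9_7, G3p9_8]⟩)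
  (.leaf ⟨306292260, 4842529277497745642627,
  1782755590265705418359876594736101634771615443782896458966216759041439301744, 74778, [G3p0_4,
  G3p0_5, G3p0_6, G3p1_4, G3p1_5, G3p1_6, G3p2_1, G3p2_4, G3p2_5, G3p2_6, G3p3_1, G3p3_2, G3p3_4,
  G3p3_5, G3p3_6, G3p4_5, G3p4_6, G3p5_6, G3p7_8, G3p9_0, G3p9_4, G3p9_5, G3p9_6, G3p9_7,
  G3p9_8]⟩))))) (.node 1176 (.node 1172 (.node 1170 (.node 1169 (.leaf ⟨306292248,
  4835389038198010253481,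
  1609604577917423841941478689133609167730836284237971319958346494415280668672, 74778, [G3p2_1,
  G3p3_1, G3p3_2, G3p4_1, G3p4_2, G3p4_3, G3p4_5, G3p4_6, G3p5_1, G3p5_2, G3p5_3, G3p5_6, G3p6_1,
  G3p6_2, G3p6_3, G3p7_8, G3p9_0, G3p9_1, G3p9_2, G3p9_3, G3p9_7, G3p9_8]⟩) (.leaf ⟨306259481,
  4835389037923132346529,
  1606070883787867060727917058493105690087607545014122332264217115883907842061, 74770, [G3p1_0,
  G3p1_2, G3p1_3, G3p3_2, G3p4_2, G3p4_3, G3p4_5, G3p4_6, G3p5_2, G3p5_3, G3p5_6, G3p6_2, G3p6_3,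
  G3p7_8, G3p9_0, G3p9_2, G3p9_3, G3p9_7, G3p9_8]⟩)) (.node 1171 (.leaf ⟨306783761,
  4835388890591795449956,
  1584868719010526373446547274650285538080546591464044243739736057302678044673, 74898, [G3p1_0,
  G3p1_2, G3p1_3, G3p2_0, G3p2_3, G3p3_0, G3p4_5, G3p4_6, G3p5_6, G3p7_8, G3p9_0, G3p9_7, G3p9_8]⟩)
  (.leaf ⟨306750993, 4835388823622517887010,
  1584868719010526373446547274650419339489149742242720473430343706118837436423, 74890, [G3p1_2,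
  G3p3_0, G3p3_1, G3p3_2, G3p4_5, G3p4_6, G3p5_6, G3p7_8, G3p9_0, G3p9_7, G3p9_8]⟩))) (.node 1174
  (.node 1173 (.leaf ⟨306325017, 4835389030261984432290,
  1599003495528753498300793797212098739905229801474745263997721555407808757769, 74786, [G3p1_0,
  G3p1_3, G3p2_0, G3p2_1, G3p2_3, G3p4_3, G3p4_5, G3p4_6, G3p5_3, G3p5_6, G3p6_3, G3p7_8, G3p9_0,
  G3p9_3, G3p9_7, G3p9_8]⟩) (.leaf ⟨303179337, 9710166261352362053730,
  1584868719010526674742832946284185220574658522855449752574429757812084572665, 74018, [G3p1_0,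
  G3p1_3, G3p1_4, G3p1_5, G3p1_6, G3p1_7, G3p1_8, G3p2_0, G3p2_1, G3p2_3, G3p2_4, G3p2_5, G3p2_6,
  G3p2_7, G3p2_8, G3p5_4, G3p6_4, G3p6_5, G3p7_8, G3p9_0, G3p9_7, G3p9_8]⟩)) (.node 1175 (.leaf
  ⟨437396553, 1261557475595632414818,
  1782762087554025715036119665110987787131481045669680524706504404204076400761, 106786, [G3p1_0,
  G3p1_3, G3p1_4, G3p1_5, G3p1_6, G3p2_0, G3p2_1, G3p2_3, G3p2_4, G3p2_5, G3p2_6, G3p5_4, G3p6_4,
  G3p6_5, G3p7_0, G3p7_4, G3p7_5, G3p7_6, G3p8_0, G3p8_4, G3p8_5, G3p8_6, G3p8_7, G3p9_0, G3p9_4,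
  G3p9_5, G3p9_6, G3p9_7, G3p9_8]⟩) (.leaf ⟨278423108, 8489034404675793846403,
  1609604577917426164504560282343621279256539382549978557667312018152955445262, 67974, [G3p0_1,
  G3p0_2, G3p0_3, G3p2_1, G3p3_1, G3p3_2, G3p4_5, G3p4_6, G3p4_7, G3p4_8, G3p5_6, G3p5_7, G3p5_8,
  G3p6_7, G3p6_8, G3p7_8, G3p9_0, G3p9_1, G3p9_2, G3p9_3, G3p9_7, G3p9_8]⟩)))) (.node 1180 (.node
  1178 (.node 1177 (.leaf ⟨409232456, 1254416913039478623302,
  1588405944789018676885246360498390088748617909459263450328388351958993469442, 99910, [G3p0_1,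
  G3p2_1, G3p2_3, G3p3_1, G3p5_4, G3p6_4, G3p6_5, G3p7_0, G3p7_1, G3p8_0, G3p8_1, G3p8_7, G3p9_0,
  G3p9_1, G3p9_7, G3p9_8]⟩) (.leaf ⟨412378184, 1261480809055009344582,
  1588405944789018375588960688866965996546341309063430254073845771349164949506, 100678, [G3p0_1,
  G3p2_1, G3p2_3, G3p2_4, G3p2_5, G3p2_6, G3p3_1, G3p3_4, G3p3_5, G3p3_6, G3p4_5, G3p4_6, G3p5_6,
  G3p7_0, G3p7_1, G3p8_0, G3p8_1, G3p8_7, G3p9_0, G3p9_1, G3p9_7, G3p9_8]⟩)) (.node 1179 (.leaf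
  ⟨412640324, 1257910836739699769574,
  1609608433090655507023601413004118449204185914125469943979044999360475430926, 100742, [G3p0_1,
  G3p0_2, G3p0_3, G3p2_1, G3p3_1, G3p3_2, G3p4_5, G3p4_6, G3p5_6, G3p7_0, G3p7_1, G3p7_2, G3p7_3,
  G3p8_0, G3p8_1, G3p8_2, G3p8_3, G3p8_7, G3p9_0, G3p9_1, G3p9_2, G3p9_3, G3p9_7, G3p9_8]⟩) (.leaf
  ⟨275015240, 8485540589827223850051,
  1588402413140085853845846383977102487408876169971173028074333037086671765506, 67142, [G3p0_1,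
  G3p2_1, G3p2_3, G3p2_7, G3p2_8, G3p3_1, G3p3_7, G3p3_8, G3p4_7, G3p4_8, G3p5_4, G3p5_7, G3p5_8,
  G3p6_4, G3p6_5, G3p6_7, G3p6_8, G3p7_8, G3p9_0, G3p9_1, G3p9_7, G3p9_8]⟩))) (.node 1182 (.node
  1181 (.leaf ⟨275277380, 8485540737264861187203,
  1609604577917426553681611203450354362117432841290445666262952142020950229006, 67206, [G3p0_1,
  G3p0_2, G3p0_3, G3p2_1, G3p3_1, G3p3_2, G3p4_1, G3p4_2, G3p4_3, G3p4_7, G3p4_8, G3p5_1, G3p5_2,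
  G3p5_3, G3p5_4, G3p5_7, G3p5_8, G3p6_1, G3p6_2, G3p6_3, G3p6_4, G3p6_5, G3p6_7, G3p6_8, G3p7_8,
  G3p9_0, G3p9_1, G3p9_2, G3p9_3, G3p9_7, G3p9_8]⟩) (.leaf ⟨409248840, 1254416949082844205158,
  1584872196738745821646139573141751990915523431454415676049369849194059137024, 99914, [G3p1_2,
  G3p1_3, G3p2_3, G3p5_4, G3p6_4, G3p6_5, G3p7_0, G3p8_0, G3p8_7, G3p9_0, G3p9_7, G3p9_8]⟩)) (.node
  1183 (.leaf ⟨412394568, 1262670921299907580006,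
  1584872196738745520349853901510327898713828368306738380489222684173103267840, 100682, [G3p1_2,
  G3p1_3, G3p1_4, G3p1_5, G3p1_6, G3p2_3, G3p2_4, G3p2_5, G3p2_6, G3p3_4, G3p3_5, G3p3_6, G3p4_5,
  G3p4_6, G3p5_6, G3p7_0, G3p8_0, G3p8_7, G3p9_0, G3p9_7, G3p9_8]⟩) (.leaf ⟨278439492,
  8489034404435275677827,
  1606070883787869395845393687342090840053984927071910996439148755665745084428, 67978, [G3p0_2,
  G3p0_3, G3p1_2, G3p1_3, G3p3_2, G3p4_5, G3p4_6, G3p4_7, G3p4_8, G3p5_6, G3p5_7, G3p5_8, G3p6_7,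
  G3p6_8, G3p7_8, G3p9_0, G3p9_2, G3p9_3, G3p9_7, G3p9_8]⟩)))))) (.node 1200 (.node 1192 (.node 1188
  (.node 1186 (.node 1185 (.leaf ⟨412656708, 1257910836396102385894,
  1606074685040382651784494625647480351371091436120622169700026496586951163916, 100746, [G3p0_2,
  G3p0_3, G3p1_2, G3p1_3, G3p3_2, G3p4_5, G3p4_6, G3p5_6, G3p7_0, G3p7_2, G3p7_3, G3p8_0, G3p8_2,
  G3p8_3, G3p8_7, G3p9_0, G3p9_2, G3p9_3, G3p9_7, G3p9_8]⟩) (.leaf ⟨275293764,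
  8485540737024343018627,
  1606070883787869772468049572809850884474198909611281818749559608903532806156, 67210, [G3p0_2,
  G3p0_3, G3p1_2, G3p1_3, G3p3_2, G3p4_2, G3p4_3, G3p4_7, G3p4_8, G3p5_2, G3p5_3, G3p5_4, G3p5_7,
  G3p5_8, G3p6_2, G3p6_3, G3p6_4, G3p6_5, G3p6_7, G3p6_8, G3p7_8, G3p9_0, G3p9_2, G3p9_3, G3p9_7,
  G3p9_8]⟩)) (.node 1187 (.leaf ⟨275031624, 9703025734838500102244,
  1584868719010529085186679788975572048208315556486782840655525485198471856128, 67146, [G3p1_2,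
  G3p1_3, G3p1_7, G3p1_8, G3p2_3, G3p2_7, G3p2_8, G3p3_7, G3p3_8, G3p4_7, G3p4_8, G3p5_4, G3p5_7,
  G3p5_8, G3p6_4, G3p6_5, G3p6_7, G3p6_8, G3p7_8, G3p9_0, G3p9_7, G3p9_8]⟩) (.leaf ⟨278177352,
  13363735033650057842788,
  1584868719010528783890394117344147956006620493339105545095378320177515986944, 67914, [G3p1_2,
  G3p1_3, G3p1_4, G3p1_5, G3p1_6, G3p1_7, G3p1_8, G3p2_3, G3p2_4, G3p2_5, G3p2_6, G3p2_7, G3p2_8,
  G3p3_4, G3p3_5, G3p3_6, G3p3_7, G3p3_8, G3p4_5, G3p4_6, G3p4_7, G3p4_8, G3p5_6, G3p5_7, G3p5_8,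
  G3p6_7, G3p6_8, G3p7_8, G3p9_0, G3p9_7, G3p9_8]⟩))) (.node 1190 (.node 1189 (.leaf ⟨278177377,
  7270359362551310028966,
  1584868719010528878048356884625384405910616003741814823633812070319516483599, 67914, [G3p1_2,
  G3p1_3, G3p2_3, G3p4_0, G3p4_1, G3p4_2, G3p4_3, G3p4_5, G3p4_6, G3p4_7, G3p4_8, G3p5_0, G3p5_1,
  G3p5_2, G3p5_3, G3p5_6, G3p5_7, G3p5_8, G3p6_0, G3p6_1, G3p6_2, G3p6_3, G3p6_7, G3p6_8, G3p7_8,
  G3p9_0, G3p9_7, G3p9_8]⟩) (.leaf ⟨412394593, 1256720830841413047495,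
  1609608433090655601181564180296282435079847309873564875359247539994400587791, 100682, [G3p1_2,
  G3p1_3, G3p2_3, G3p4_0, G3p4_1, G3p4_2, G3p4_3, G3p4_5, G3p4_6, G3p5_0, G3p5_1, G3p5_2, G3p5_3,
  G3p5_6, G3p6_0, G3p6_1, G3p6_2, G3p6_3, G3p7_0, G3p7_1, G3p7_2, G3p7_3, G3p8_0, G3p8_1, G3p8_2,
  G3p8_3, G3p8_7, G3p9_0, G3p9_1, G3p9_2, G3p9_3, G3p9_7, G3p9_8]⟩)) (.node 1191 (.leaf ⟨409347145,
  1254416878782819538051,
  1584872196738745821646139573141908094430444195946270225656491515106138521601, 99938, [G3p1_0,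
  G3p2_0, G3p2_1, G3p3_0, G3p3_1, G3p3_2, G3p5_4, G3p6_4, G3p6_5, G3p7_0, G3p8_0, G3p8_7, G3p9_0,
  G3p9_7, G3p9_8]⟩) (.leaf ⟨412492873, 1263860927201415566467,
  1584872196738745520349853901510484002228749132798592930096344350085182652529, 100706, [G3p1_0,
  G3p1_4, G3p1_5, G3p1_6, G3p2_0, G3p2_1, G3p2_4, G3p2_5, G3p2_6, G3p3_0, G3p3_1, G3p3_2, G3p3_4,
  G3p3_5, G3p3_6, G3p4_5, G3p4_6, G3p5_6, G3p7_0, G3p8_0, G3p8_7, G3p9_0, G3p9_7, G3p9_8]⟩))))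
  (.node 1196 (.node 1194 (.node 1193 (.leaf ⟨278275657, 14582410148418544768131,
  1584868719010528783890394117344304059521541257830960094702499986089595372017, 67938, [G3p1_0,
  G3p1_4, G3p1_5, G3p1_6, G3p1_7, G3p1_8, G3p2_0, G3p2_1, G3p2_4, G3p2_5, G3p2_6, G3p2_7, G3p2_8,
  G3p3_0, G3p3_1, G3p3_2, G3p3_4, G3p3_5, G3p3_6, G3p3_7, G3p3_8, G3p4_5, G3p4_6, G3p4_7, G3p4_8,
  G3p5_6, G3p5_7, G3p5_8, G3p6_7, G3p6_8, G3p7_8, G3p9_0, G3p9_7, G3p9_8]⟩) (.leaf ⟨275129929,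
  10920510773405454374019,
  1584868719010529085186679788975728151723236320978637390262647151110551241089, 67170, [G3p1_0,
  G3p1_7, G3p1_8, G3p2_0, G3p2_1, G3p2_7, G3p2_8, G3p3_0, G3p3_1, G3p3_2, G3p3_7, G3p3_8, G3p4_7,
  G3p4_8, G3p5_4, G3p5_7, G3p5_8, G3p6_4, G3p6_5, G3p6_7, G3p6_8, G3p7_8, G3p9_0, G3p9_7, G3p9_8]⟩))
  (.node 1195 (.leaf ⟨278275681, 7270359255936263098537,
  1584868719010528878048356884625540509425536768233669373240933736231595868161, 67938, [G3p1_0,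
  G3p2_0, G3p2_1, G3p3_0, G3p3_1, G3p3_2, G3p4_0, G3p4_1, G3p4_2, G3p4_3, G3p4_5, G3p4_6, G3p4_7,
  G3p4_8, G3p5_0, G3p5_1, G3p5_2, G3p5_3, G3p5_6, G3p5_7, G3p5_8, G3p6_0, G3p6_1, G3p6_2, G3p6_3,
  G3p6_7, G3p6_8, G3p7_8, G3p9_0, G3p9_7, G3p9_8]⟩) (.leaf ⟨412492897, 1256720724226366117066,
  1609608433090655601181564180296438538594768074365419424966369205906479972353, 100706, [G3p1_0,
  G3p2_0, G3p2_1, G3p3_0, G3p3_1, G3p3_2, G3p4_0, G3p4_1, G3p4_2, G3p4_3, G3p4_5, G3p4_6, G3p5_0,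
  G3p5_1, G3p5_2, G3p5_3, G3p5_6, G3p6_0, G3p6_1, G3p6_2, G3p6_3, G3p7_0, G3p7_1, G3p7_2, G3p7_3,
  G3p8_0, G3p8_1, G3p8_2, G3p8_3, G3p8_7, G3p9_0, G3p9_1, G3p9_2, G3p9_3, G3p9_7, G3p9_8]⟩))) (.node
  1198 (.node 1197 (.leaf ⟨274884164, 8485540771246642433251,
  1609604577917426465800845953977409290603241833231855646668501367926894362638, 67110, [G3p0_1,
  G3p0_2, G3p0_3, G3p1_2, G3p1_3, G3p2_3, G3p4_7, G3p4_8, G3p5_4, G3p5_7, G3p5_8, G3p6_4, G3p6_5,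
  G3p6_7, G3p6_8, G3p7_8, G3p9_0, G3p9_1, G3p9_2, G3p9_3, G3p9_7, G3p9_8]⟩) (.leaf ⟨409101380,
  1254417203310548356422,
  1609608433090655808319887084637906460550888364807347032980234349134414348302, 99878, [G3p0_1,
  G3p0_2, G3p0_3, G3p1_2, G3p1_3, G3p2_3, G3p5_4, G3p6_4, G3p6_5, G3p7_0, G3p7_1, G3p7_2, G3p7_3,
  G3p8_0, G3p8_1, G3p8_2, G3p8_3, G3p8_7, G3p9_0, G3p9_1, G3p9_2, G3p9_3, G3p9_7, G3p9_8]⟩)) (.node
  1199 (.leaf ⟨278029892, 8489034438657575092451,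
  1609604577917426164504560282343487476827104707899062542069466138470349013006, 67878, [G3p0_1,
  G3p0_2, G3p0_3, G3p1_2, G3p1_3, G3p2_3, G3p4_5, G3p4_6, G3p4_7, G3p4_8, G3p5_6, G3p5_7, G3p5_8,
  G3p6_7, G3p6_8, G3p7_8, G3p9_0, G3p9_1, G3p9_2, G3p9_3, G3p9_7, G3p9_8]⟩) (.leaf ⟨412247108,
  1257910870721481015622,
  1609608433090655507023601413003984646774751239474553928381199119677868998670, 100646, [G3p0_1,
  G3p0_2, G3p0_3, G3p1_2, G3p1_3, G3p2_3, G3p4_5, G3p4_6, G3p5_6, G3p7_0, G3p7_1, G3p7_2, G3p7_3,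
  G3p8_0, G3p8_1, G3p8_2, G3p8_3, G3p8_7, G3p9_0, G3p9_1, G3p9_2, G3p9_3, G3p9_7, G3p9_8]⟩)))))
  (.node 1208 (.node 1204 (.node 1202 (.node 1201 (.leaf ⟨409052228, 1254416878782819470566,
  1584872196738745821646139573141885793344958106105331691647215728816535109632, 99866, [G3p2_1,
  G3p3_1, G3p3_2, G3p5_4, G3p6_4, G3p6_5, G3p7_0, G3p8_0, G3p8_7, G3p9_0, G3p9_7, G3p9_8]⟩) (.leaf
  ⟨274835012, 8485540555673643912323,
  1584868719010529085186679788967142233811091732217301796691469429613212467200, 67098, [G3p2_1,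
  G3p3_1, G3p3_2, G3p4_7, G3p4_8, G3p5_4, G3p5_7, G3p5_8, G3p6_4, G3p6_5, G3p6_7, G3p6_8, G3p7_8,
  G3p9_0, G3p9_7, G3p9_8]⟩)) (.node 1203 (.leaf ⟨277980740, 8489034223084576571523,
  1584868719010528783890394117333220420034954606884508692092434200156667117568, 67866, [G3p2_1,
  G3p3_1, G3p3_2, G3p4_5, G3p4_6, G3p4_7, G3p4_8, G3p5_6, G3p5_7, G3p5_8, G3p6_7, G3p6_8, G3p7_8,
  G3p9_0, G3p9_7, G3p9_8]⟩) (.leaf ⟨412197956, 1257910546193752129766,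
  1584872196738745520349853901507963979568820980772538587048180499359989760000, 100634, [G3p2_1,
  G3p3_1, G3p3_2, G3p4_5, G3p4_6, G3p5_6, G3p7_0, G3p8_0, G3p8_7, G3p9_0, G3p9_7, G3p9_8]⟩))) (.node
  1206 (.node 1205 (.leaf ⟨409019465, 1254416987565751143489,
  1584872196738745821646139573141841191174063810876332646043092113682267373581, 99858, [G3p1_0,
  G3p1_2, G3p1_3, G3p3_2, G3p5_4, G3p6_4, G3p6_5, G3p7_0, G3p8_0, G3p8_7, G3p9_0, G3p9_7, G3p9_8]⟩)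
  (.leaf ⟨274802249, 8485540664456575585345,
  1584868719010529085186679788967097631642191278981980124896701525069390414221, 67090, [G3p1_0,
  G3p1_2, G3p1_3, G3p1_7, G3p1_8, G3p3_2, G3p4_7, G3p4_8, G3p5_4, G3p5_7, G3p5_8, G3p6_4, G3p6_5,
  G3p6_7, G3p6_8, G3p7_8, G3p9_0, G3p9_7, G3p9_8]⟩)) (.node 1207 (.leaf ⟨412165193,
  1261480883581281864769,
  1584872196738745520349853901507919377398508222791695442138452299814602014845, 100626, [G3p1_0,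
  G3p1_2, G3p1_3, G3p1_4, G3p1_5, G3p1_6, G3p3_2, G3p4_5, G3p4_6, G3p5_6, G3p7_0, G3p8_0, G3p8_7,
  G3p9_0, G3p9_7, G3p9_8]⟩) (.leaf ⟨277947977, 12145059887066600672321,
  1584868719010528783890394117333175817866635690897342920992061711201725055485, 67858, [G3p1_0,
  G3p1_2, G3p1_3, G3p1_4, G3p1_5, G3p1_6, G3p1_7, G3p1_8, G3p3_2, G3p4_5, G3p4_6, G3p4_7, G3p4_8,
  G3p5_6, G3p5_7, G3p5_8, G3p6_7, G3p6_8, G3p7_8, G3p9_0, G3p9_7, G3p9_8]⟩)))) (.node 1212 (.node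
  1210 (.node 1209 (.leaf ⟨409085001, 1254417018386436493410,
  1584872196738745821646139573141751991936354955326655461956608080000376635401, 99874, [G3p1_0,
  G3p1_3, G3p2_0, G3p2_1, G3p2_3, G3p5_4, G3p6_4, G3p6_5, G3p7_0, G3p8_0, G3p8_7, G3p9_0, G3p9_7,
  G3p9_8]⟩) (.leaf ⟨412230729, 1262670990603499868258,
  1584872196738745520349853901507830216272424462387126165949924298490750959737, 100642, [G3p1_0,
  G3p1_3, G3p1_4, G3p1_5, G3p1_6, G3p2_0, G3p2_1, G3p2_3, G3p2_4, G3p2_5, G3p2_6, G3p4_5, G3p4_6,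
  G3p5_6, G3p7_0, G3p8_0, G3p8_7, G3p9_0, G3p9_7, G3p9_8]⟩)) (.node 1211 (.leaf ⟨278013513,
  13363735102954723872866,
  1584868719010528783890394117333086787408980828133143614739382963676867199481, 67874, [G3p1_0,
  G3p1_3, G3p1_4, G3p1_5, G3p1_6, G3p1_7, G3p1_8, G3p2_0, G3p2_1, G3p2_3, G3p2_4, G3p2_5, G3p2_6,
  G3p2_7, G3p2_8, G3p4_5, G3p4_6, G3p4_7, G3p4_8, G3p5_6, G3p5_7, G3p5_8, G3p6_7, G3p6_8, G3p7_8,
  G3p9_0, G3p9_7, G3p9_8]⟩) (.leaf ⟨274867785, 9703025804143166132322,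
  1584868719010529085186679788967008563072911321072672910746066745186492875145, 67106, [G3p1_0,
  G3p1_3, G3p1_7, G3p1_8, G3p2_0, G3p2_1, G3p2_3, G3p2_7, G3p2_8, G3p4_7, G3p4_8, G3p5_4, G3p5_7,
  G3p5_8, G3p6_4, G3p6_5, G3p6_7, G3p6_8, G3p7_8, G3p9_0, G3p9_7, G3p9_8]⟩))) (.node 1214 (.node
  1213 (.leaf ⟨272934497, 4833194693264576383076,
  1584868719010529179304892916796996326981712522305563176906881551553258258447, 66634, [G3p1_2,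
  G3p1_3, G3p2_3, G3p4_5, G3p6_0, G3p6_1, G3p6_2, G3p6_3, G3p6_4, G3p6_5, G3p6_7, G3p6_8, G3p7_8,
  G3p9_0, G3p9_7, G3p9_8]⟩) (.leaf ⟨273032801, 4833194586649529452647,
  1584868719010529179304892916797152430496633286797417726514003217465337643009, 66658, [G3p1_0,
  G3p2_0, G3p2_1, G3p3_0, G3p3_1, G3p3_2, G3p4_5, G3p6_0, G3p6_1, G3p6_2, G3p6_3, G3p6_4, G3p6_5,
  G3p6_7, G3p6_8, G3p7_8, G3p9_0, G3p9_7, G3p9_8]⟩)) (.node 1215 (.leaf ⟨272737892,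
  4833305905460890604675,
  1669677378119891532968365166033649212737357392059572122528496088279648567344, 66586, [G3p0_4,
  G3p0_5, G3p1_4, G3p1_5, G3p2_1, G3p2_4, G3p2_5, G3p3_1, G3p3_2, G3p3_4, G3p3_5, G3p4_5, G3p6_4,
  G3p6_5, G3p6_7, G3p6_8, G3p7_8, G3p9_0, G3p9_4, G3p9_5, G3p9_7, G3p9_8]⟩) (.leaf ⟨272787044,
  4833417585124666548451,
  1694413237026788913582531331043916269529507493074125972505528026593330462782, 66598, [G3p0_1,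
  G3p0_2, G3p0_3, G3p0_4, G3p0_5, G3p1_2, G3p1_3, G3p1_4, G3p1_5, G3p2_3, G3p2_4, G3p2_5, G3p3_4,
  G3p3_5, G3p4_5, G3p6_4, G3p6_5, G3p6_7, G3p6_8, G3p7_8, G3p9_0, G3p9_1, G3p9_2, G3p9_3, G3p9_4,
  G3p9_5, G3p9_7, G3p9_8]⟩))))))

def G3T20 : Tr :=
  .node 1248 (.node 1232 (.node 1224 (.node 1220 (.node 1218 (.node 1217 (.leaf ⟨406955160,
  1257981586842613515334,
  1584872196738745721210979473640809426844192908364535156333352363627794792448, 99354, [G3p2_1,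
  G3p3_1, G3p3_2, G3p4_0, G3p4_1, G3p4_2, G3p4_3, G3p4_5, G3p4_6, G3p6_5, G3p7_0, G3p8_0, G3p8_7,
  G3p9_0, G3p9_7, G3p9_8]⟩) (.leaf ⟨406922393, 1257981586670814823489,
  1584872196738745721210979470717761550011492776728166445296662709173071118349, 99346, [G3p1_0,
  G3p1_2, G3p1_3, G3p3_2, G3p4_0, G3p4_2, G3p4_3, G3p4_5, G3p4_6, G3p6_5, G3p7_0, G3p8_0, G3p8_7,
  G3p9_0, G3p9_7, G3p9_8]⟩)) (.node 1219 (.leaf ⟨304244248, 4833269075291693748390,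
  1694413237026786591054889237970963198184088590069550582647681615398223872014, 74278, [G3p0_1,
  G3p0_2, G3p0_3, G3p1_2, G3p1_3, G3p2_3, G3p4_5, G3p6_1, G3p6_2, G3p6_3, G3p6_4, G3p6_5, G3p7_8,
  G3p9_0, G3p9_1, G3p9_2, G3p9_3, G3p9_4, G3p9_5, G3p9_7, G3p9_8]⟩) (.leaf ⟨304195096,
  4833268968673425592489,
  1694413237026786591054889237971097000613523263611272323045826768711084539904, 74266, [G3p2_1,
  G3p3_1, G3p3_2, G3p4_5, G3p6_1, G3p6_2, G3p6_3, G3p6_4, G3p6_5, G3p7_8, G3p9_0, G3p9_1, G3p9_2,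
  G3p9_3, G3p9_4, G3p9_5, G3p9_7, G3p9_8]⟩))) (.node 1222 (.node 1221 (.leaf ⟨304162329,
  4833268968398547685537,
  1690879542897229809841519172196205033739395154173186789432215771881849749517, 74258, [G3p1_0,
  G3p1_2, G3p1_3, G3p3_2, G3p4_5, G3p6_2, G3p6_3, G3p6_4, G3p6_5, G3p7_8, G3p9_0, G3p9_2, G3p9_3,
  G3p9_4, G3p9_5, G3p9_7, G3p9_8]⟩) (.leaf ⟨273229409, 4833194511673359108196,
  1584868719010529091425468621383487934366146687239171885483177174636574081025, 66706, [G3p1_0,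
  G3p1_2, G3p1_3, G3p2_0, G3p2_3, G3p3_0, G3p4_5, G3p6_0, G3p6_4, G3p6_5, G3p6_7, G3p6_8, G3p7_8,
  G3p9_0, G3p9_7, G3p9_8]⟩)) (.node 1223 (.leaf ⟨273196641, 4833194446973971761252,
  1584868719010529129088079033703706318789486377263846611787919179112570617863, 66698, [G3p1_2,
  G3p3_0, G3p3_1, G3p3_2, G3p4_5, G3p6_0, G3p6_1, G3p6_2, G3p6_4, G3p6_5, G3p6_7, G3p6_8, G3p7_8,
  G3p9_0, G3p9_7, G3p9_8]⟩) (.leaf ⟨303588900, 4833085410670366889091,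
  1609604577917424055356999111294719712422217077272284695502219198509291012110, 74118, [G3p0_1,
  G3p0_2, G3p0_3, G3p2_1, G3p3_1, G3p3_2, G3p5_4, G3p6_4, G3p6_5, G3p7_8, G3p9_0, G3p9_1, G3p9_2,
  G3p9_3, G3p9_7, G3p9_8]⟩)))) (.node 1228 (.node 1226 (.node 1225 (.leaf ⟨303441441,
  4833085410677883014280,
  1584868719010526768900795713576638942591214462955975511075836696653714096129, 74082, [G3p1_0,
  G3p2_0, G3p2_1, G3p3_0, G3p3_1, G3p3_2, G3p4_0, G3p4_1, G3p4_2, G3p4_3, G3p5_0, G3p5_1, G3p5_2,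
  G3p5_3, G3p5_4, G3p6_0, G3p6_1, G3p6_2, G3p6_3, G3p6_4, G3p6_5, G3p7_8, G3p9_0, G3p9_7, G3p9_8]⟩)
  (.leaf ⟨303605284, 4833085410429848720515,
  1606070883787867286697832516293189273219662621794217134274055936030670585868, 74122, [G3p0_2,
  G3p0_3, G3p1_2, G3p1_3, G3p3_2, G3p5_4, G3p6_4, G3p6_5, G3p7_8, G3p9_0, G3p9_2, G3p9_3, G3p9_7,
  G3p9_8]⟩)) (.node 1227 (.leaf ⟨303343137, 4833085517292929944709,
  1584868719010526768900795713576482839076293698464120961468715030741634711567, 74058, [G3p1_2,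
  G3p1_3, G3p2_3, G3p4_0, G3p4_1, G3p4_2, G3p4_3, G3p5_0, G3p5_1, G3p5_2, G3p5_3, G3p5_4, G3p6_0,
  G3p6_1, G3p6_2, G3p6_3, G3p6_4, G3p6_5, G3p7_8, G3p9_0, G3p9_7, G3p9_8]⟩) (.leaf ⟨303195684,
  4833085444652148236515,
  1609604577917424055356999111294585909992782402621368679904373318886814121998, 74022, [G3p0_1,
  G3p0_2, G3p0_3, G3p1_2, G3p1_3, G3p2_3, G3p5_4, G3p6_4, G3p6_5, G3p7_8, G3p9_0, G3p9_1, G3p9_2,
  G3p9_3, G3p9_7, G3p9_8]⟩))) (.node 1230 (.node 1229 (.leaf ⟨303146532, 4833085229079149614211,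
  1584868719010526674742832946284318853200632301606814829927341380573132226560, 74010, [G3p2_1,
  G3p3_1, G3p3_2, G3p5_4, G3p6_4, G3p6_5, G3p7_8, G3p9_0, G3p9_7, G3p9_8]⟩) (.leaf ⟨303113801,
  8491491045464238853185,
  1584868719010526674742832946284274251032313385619649058827108505336942428669, 74002, [G3p1_0,
  G3p1_2, G3p1_3, G3p1_4, G3p1_5, G3p1_6, G3p1_7, G3p1_8, G3p3_2, G3p5_4, G3p6_4, G3p6_5, G3p7_8,
  G3p9_0, G3p9_7, G3p9_8]⟩)) (.node 1231 (.leaf ⟨295200292, 4841405810981933880451,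
  1779221896136148850561835549942438963477346568182294749442731296723366183022, 72070, [G3p0_1,
  G3p0_2, G3p0_3, G3p0_5, G3p0_6, G3p2_1, G3p3_1, G3p3_2, G3p4_5, G3p4_6, G3p6_5, G3p7_8, G3p9_0,
  G3p9_1, G3p9_2, G3p9_3, G3p9_5, G3p9_6, G3p9_7, G3p9_8]⟩) (.leaf ⟨294954529,
  4837838994060985074755,
  1754486037229251469947669406854428861789870883315277757644876485087919538191, 72010, [G3p1_2,
  G3p1_3, G3p2_3, G3p4_0, G3p4_1, G3p4_2, G3p4_3, G3p4_5, G3p4_6, G3p6_5, G3p7_8, G3p9_0, G3p9_5,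
  G3p9_6, G3p9_7, G3p9_8]⟩))))) (.node 1240 (.node 1236 (.node 1234 (.node 1233 (.leaf ⟨406955108,
  1254749019255338049766,
  1669682149945294347383170020928386647071505225456910314164297442814275354672, 99354, [G3p0_4,
  G3p0_5, G3p1_4, G3p1_5, G3p2_1, G3p2_4, G3p2_5, G3p3_1, G3p3_2, G3p3_4, G3p3_5, G3p4_5, G3p6_4,
  G3p6_5, G3p7_0, G3p7_4, G3p7_5, G3p8_0, G3p8_4, G3p8_5, G3p8_7, G3p9_0, G3p9_4, G3p9_5, G3p9_7,
  G3p9_8]⟩) (.leaf ⟨407004260, 1254860807873844358470,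
  1694418386297204334056917532424407314277435484158925655497316063132154593342, 99366, [G3p0_1,
  G3p0_2, G3p0_3, G3p0_4, G3p0_5, G3p1_2, G3p1_3, G3p1_4, G3p1_5, G3p2_3, G3p2_4, G3p2_5, G3p3_4,
  G3p3_5, G3p4_5, G3p6_4, G3p6_5, G3p7_0, G3p7_1, G3p7_2, G3p7_3, G3p7_4, G3p7_5, G3p8_0, G3p8_1,
  G3p8_2, G3p8_3, G3p8_4, G3p8_5, G3p8_7, G3p9_0, G3p9_1, G3p9_2, G3p9_3, G3p9_4, G3p9_5, G3p9_7,
  G3p9_8]⟩)) (.node 1235 (.leaf ⟨411149412, 1255541652789755257062,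
  1613142181140928462697868321784669688698467312855545708032864403832859262992, 100378, [G3p0_4,
  G3p1_4, G3p2_1, G3p2_4, G3p3_1, G3p3_2, G3p3_4, G3p5_4, G3p5_6, G3p6_4, G3p7_0, G3p7_4, G3p8_0,
  G3p8_4, G3p8_7, G3p9_0, G3p9_4, G3p9_7, G3p9_8]⟩) (.leaf ⟨276932196, 6051691734251196191875,
  1613138272046983033598886437552436125053560168538298345617596632811661426704, 67610, [G3p0_4,
  G3p1_4, G3p2_1, G3p2_4, G3p3_1, G3p3_2, G3p3_4, G3p5_4, G3p5_6, G3p5_7, G3p5_8, G3p6_4, G3p6_7,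
  G3p6_8, G3p7_8, G3p9_0, G3p9_4, G3p9_7, G3p9_8]⟩))) (.node 1238 (.node 1237 (.leaf ⟨276981348,
  6051695327523915243747,
  1637874130953880414213052602562703181845710269552852195594628571125343322142, 67622, [G3p0_1,
  G3p0_2, G3p0_3, G3p0_4, G3p1_2, G3p1_3, G3p1_4, G3p2_3, G3p2_4, G3p3_4, G3p5_4, G3p5_6, G3p5_7,
  G3p5_8, G3p6_4, G3p6_7, G3p6_8, G3p7_8, G3p9_0, G3p9_1, G3p9_2, G3p9_3, G3p9_4, G3p9_7, G3p9_8]⟩)
  (.leaf ⟨273180260, 4833306087052107879555,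
  1694413237026788913582531331042979619855609855359992355658136164314843578430, 66694, [G3p0_1,
  G3p0_2, G3p0_3, G3p0_4, G3p0_5, G3p2_1, G3p3_1, G3p3_2, G3p4_5, G3p6_4, G3p6_5, G3p6_7, G3p6_8,
  G3p7_8, G3p9_0, G3p9_1, G3p9_2, G3p9_3, G3p9_4, G3p9_5, G3p9_7, G3p9_8]⟩)) (.node 1239 (.leaf
  ⟨278160968, 12145059812437248937027,
  1588402413140085552549560712345678395206599569575339831819790456476843245570, 67910, [G3p0_1,
  G3p2_1, G3p2_3, G3p2_4, G3p2_5, G3p2_6, G3p2_7, G3p2_8, G3p3_1, G3p3_4, G3p3_5, G3p3_6, G3p3_7,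
  G3p3_8, G3p4_5, G3p4_6, G3p4_7, G3p4_8, G3p5_6, G3p5_7, G3p5_8, G3p6_7, G3p6_8, G3p7_8, G3p9_0,
  G3p9_1, G3p9_7, G3p9_8]⟩) (.leaf ⟨277374564, 6051691915842413466755,
  1637874130953880414213052602562480166907367506748751667044061870114165620766, 67718, [G3p0_1,
  G3p0_2, G3p0_3, G3p0_4, G3p2_1, G3p3_1, G3p3_2, G3p5_4, G3p5_6, G3p5_7, G3p5_8, G3p6_4, G3p6_7,
  G3p6_8, G3p7_8, G3p9_0, G3p9_1, G3p9_2, G3p9_3, G3p9_4, G3p9_7, G3p9_8]⟩)))) (.node 1244 (.node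
  1242 (.node 1241 (.leaf ⟨2232701474, 1260144611950033242342,
  1712087126548568308959996954580455559004817406601322043987439278365457514504, 545093, [G3p0_3,
  G3p1_3, G3p2_1, G3p2_3, G3p4_3, G3p4_6, G3p5_3, G3p5_4, G3p5_6, G3p7_0, G3p7_3, G3p7_6, G3p8_0,
  G3p8_3, G3p8_6, G3p8_7, G3p9_0, G3p9_3, G3p9_6, G3p9_7, G3p9_8]⟩) (.leaf ⟨622093448,
  232725280694560734907465,
  909947024849581597516054488059101625919621360127841310357291191854800437250, 151878, [G3p0_1,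
  G3p2_1, G3p2_3, G3p2_4, G3p3_1, G3p3_4, G3p5_0, G3p5_1, G3p5_4, G3p5_6, G3p5_7, G3p5_8, G3p5_9,
  G3p6_0, G3p6_1, G3p6_4, G3p6_7, G3p6_8, G3p6_9, G3p7_0, G3p7_1, G3p7_8, G3p7_9, G3p8_0, G3p8_1,
  G3p8_9, G3p9_0, G3p9_1]⟩)) (.node 1243 (.leaf ⟨638870600, 115740861015488616074310,
  909947024849576155176612832443154598833914591616129239130013849036268896258, 155974, [G3p0_1,
  G3p2_1, G3p2_3, G3p2_4, G3p2_5, G3p2_6, G3p3_1, G3p3_4, G3p3_5, G3p3_6, G3p5_4, G3p6_4, G3p6_5,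
  G3p7_0, G3p7_1, G3p7_8, G3p7_9, G3p8_0, G3p8_1, G3p8_9, G3p9_0, G3p9_1]⟩) (.leaf ⟨622356004,
  76748833021473438571717,
  1044229450759944352967917529130190593175326731182297670940230687071069405262, 151942, [G3p0_1,
  G3p0_2, G3p0_3, G3p0_6, G3p2_1, G3p3_1, G3p3_2, G3p4_6, G3p5_4, G3p5_6, G3p7_0, G3p7_1, G3p7_2,
  G3p7_3, G3p7_6, G3p7_8, G3p7_9, G3p8_0, G3p8_1, G3p8_2, G3p8_3, G3p8_6, G3p8_9, G3p9_0, G3p9_1,
  G3p9_2, G3p9_3, G3p9_6]⟩))) (.node 1246 (.node 1245 (.leaf ⟨2232722568, 196237622078600113098854,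
  1583105322713614823811632802365930227965202666699915082674154311979732303872, 545098, [G3p1_2,
  G3p1_3, G3p1_4, G3p2_3, G3p2_4, G3p3_4, G3p5_0, G3p5_4, G3p5_6, G3p5_7, G3p5_8, G3p5_9, G3p6_0,
  G3p6_4, G3p6_7, G3p6_8, G3p6_9, G3p8_7, G3p9_7, G3p9_8]⟩) (.leaf ⟨622109832,
  232725281856400928084073,
  906413276799308729722552667986493764307736319079003472467665382762838228992, 151882, [G3p1_2,
  G3p1_3, G3p1_4, G3p2_3, G3p2_4, G3p3_4, G3p5_0, G3p5_4, G3p5_6, G3p5_7, G3p5_8, G3p5_9, G3p6_0,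
  G3p6_4, G3p6_7, G3p6_8, G3p6_9, G3p7_0, G3p7_8, G3p7_9, G3p8_0, G3p8_9, G3p9_0]⟩)) (.node 1247
  (.leaf ⟨2249495112, 1261557406295365161060,
  1584872196738745821646139573144272013575451583480470019097565507076951703553, 549193, [G3p1_0,
  G3p1_2, G3p1_3, G3p1_4, G3p1_5, G3p1_6, G3p2_0, G3p2_3, G3p2_4, G3p2_5, G3p2_6, G3p3_0, G3p3_4,
  G3p3_5, G3p3_6, G3p5_4, G3p6_4, G3p6_5, G3p7_0, G3p8_0, G3p8_7, G3p9_0, G3p9_7, G3p9_8]⟩) (.leaf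
  ⟨638886984, 115742051127733514309734,
  906413276799303299937506045086516501001401650859437365545390761860207214592, 155978, [G3p1_2,
  G3p1_3, G3p1_4, G3p1_5, G3p1_6, G3p2_3, G3p2_4, G3p2_5, G3p2_6, G3p3_4, G3p3_5, G3p3_6, G3p5_4,
  G3p6_4, G3p6_5, G3p7_0, G3p7_8, G3p7_9, G3p8_0, G3p8_9, G3p9_0]⟩)))))) (.node 1264 (.node 1256
  (.node 1252 (.node 1250 (.node 1249 (.leaf ⟨2232980004, 1260144440391859571777,
  1697952134347476888002803545691724732857963647308727863622013446360262246477, 545161, [G3p1_0,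
  G3p1_2, G3p1_3, G3p1_6, G3p3_2, G3p4_6, G3p5_4, G3p5_6, G3p7_0, G3p7_6, G3p8_0, G3p8_6, G3p8_7,
  G3p9_0, G3p9_6, G3p9_7, G3p9_8]⟩) (.leaf ⟨622372388, 76748833021164200926405,
  1040695702709671497728810741773552495342564560176396125666331624218624262220, 151946, [G3p0_2,
  G3p0_3, G3p0_6, G3p1_2, G3p1_3, G3p1_6, G3p3_2, G3p4_6, G3p5_4, G3p5_6, G3p7_0, G3p7_2, G3p7_3,
  G3p7_6, G3p7_8, G3p7_9, G3p8_0, G3p8_2, G3p8_3, G3p8_6, G3p8_9, G3p9_0, G3p9_2, G3p9_3, G3p9_6]⟩))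
  (.node 1251 (.leaf ⟨2232721953, 1260144583500236982372,
  1696185260322340460384686888505425115536248189120823635854584251963816214543, 545098, [G3p1_2,
  G3p1_3, G3p2_3, G3p4_0, G3p4_1, G3p4_2, G3p4_3, G3p4_6, G3p5_0, G3p5_1, G3p5_2, G3p5_3, G3p5_4,
  G3p5_6, G3p7_6, G3p8_6, G3p8_7, G3p9_6, G3p9_7, G3p9_8]⟩) (.leaf ⟨622110241,
  76745374254624229460068,
  1019493214408034366295606754125988651878781841501073803360744981383814774799, 151882, [G3p1_2,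
  G3p1_3, G3p2_3, G3p4_0, G3p4_1, G3p4_2, G3p4_3, G3p4_6, G3p5_0, G3p5_1, G3p5_2, G3p5_3, G3p5_4,
  G3p5_6, G3p7_0, G3p7_6, G3p7_8, G3p7_9, G3p8_0, G3p8_6, G3p8_9, G3p9_0, G3p9_6]⟩))) (.node 1254
  (.node 1253 (.leaf ⟨2233766424, 1263860997504661329095,
  1782762087554025413739833993477088235307791853912322359617155563282132697089, 545353, [G3p1_0,
  G3p1_2, G3p1_3, G3p2_0, G3p2_3, G3p3_0, G3p4_5, G3p4_6, G3p5_6, G3p7_0, G3p7_4, G3p7_5, G3p7_6,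
  G3p8_0, G3p8_4, G3p8_5, G3p8_6, G3p8_7, G3p9_0, G3p9_4, G3p9_5, G3p9_6, G3p9_7, G3p9_8]⟩) (.leaf
  ⟨623158801, 76749127895957838665729,
  1104303167614582892031200465419332722733741921291425087144012886160026042383, 152138, [G3p1_2,
  G3p1_3, G3p2_3, G3p4_5, G3p4_6, G3p5_6, G3p7_0, G3p7_4, G3p7_5, G3p7_6, G3p7_8, G3p7_9, G3p8_0,
  G3p8_4, G3p8_5, G3p8_6, G3p8_9, G3p9_0, G3p9_4, G3p9_5, G3p9_6]⟩)) (.node 1255 (.leaf ⟨2232820257,
  1260144476885290715239,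
  1696185260322340460384686888505581219051168953612678185461705917875895599105, 545122, [G3p1_0,
  G3p2_0, G3p2_1, G3p3_0, G3p3_1, G3p3_2, G3p4_0, G3p4_1, G3p4_2, G3p4_3, G3p4_6, G3p5_0, G3p5_1,
  G3p5_2, G3p5_3, G3p5_4, G3p5_6, G3p7_6, G3p8_6, G3p8_7, G3p9_6, G3p9_7, G3p9_8]⟩) (.leaf
  ⟨622208545, 76745374148009182529639,
  1019493214408034366295606754126144755393702605992928352967866647295894159361, 151906, [G3p1_0,
  G3p2_0, G3p2_1, G3p3_0, G3p3_1, G3p3_2, G3p4_0, G3p4_1, G3p4_2, G3p4_3, G3p4_6, G3p5_0, G3p5_1,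
  G3p5_2, G3p5_3, G3p5_4, G3p5_6, G3p7_0, G3p7_6, G3p7_8, G3p7_9, G3p8_0, G3p8_6, G3p8_9, G3p9_0,
  G3p9_6]⟩)))) (.node 1260 (.node 1258 (.node 1257 (.leaf ⟨622208137, 232725282912000810226819,
  906413276799308729722552667986649867822657083570858022074787048674917613585, 151906, [G3p1_0,
  G3p1_4, G3p2_0, G3p2_1, G3p2_4, G3p3_0, G3p3_1, G3p3_2, G3p3_4, G3p5_0, G3p5_4, G3p5_6, G3p5_7,
  G3p5_8, G3p5_9, G3p6_0, G3p6_4, G3p6_7, G3p6_8, G3p6_9, G3p7_0, G3p7_8, G3p7_9, G3p8_0, G3p8_9,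
  G3p9_0]⟩) (.leaf ⟨2249597513, 1262747412192612783235,
  1583105322713609394026586179466109068173788762971119100286042264246531653745, 549218, [G3p1_0,
  G3p1_4, G3p1_5, G3p1_6, G3p2_0, G3p2_1, G3p2_4, G3p2_5, G3p2_6, G3p3_0, G3p3_1, G3p3_2, G3p3_4,
  G3p3_5, G3p3_6, G3p5_4, G3p6_4, G3p6_5, G3p8_7, G3p9_7, G3p9_8]⟩)) (.node 1259 (.leaf ⟨638985289,
  115743241133635022296195,
  906413276799303299937506045086672604516322415351291915152512427772286599281, 156002, [G3p1_0,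
  G3p1_4, G3p1_5, G3p1_6, G3p2_0, G3p2_1, G3p2_4, G3p2_5, G3p2_6, G3p3_0, G3p3_1, G3p3_2, G3p3_4,
  G3p3_5, G3p3_6, G3p5_4, G3p6_4, G3p6_5, G3p7_0, G3p7_8, G3p7_9, G3p8_0, G3p8_9, G3p9_0]⟩) (.leaf
  ⟨2233868817, 1263860963519725966340,
  1780995213528888986120280599798925289906129033402971440805632320451720970241, 545378, [G3p1_0,
  G3p2_0, G3p2_1, G3p3_0, G3p3_1, G3p3_2, G3p4_5, G3p4_6, G3p5_6, G3p7_4, G3p7_5, G3p7_6, G3p8_4,
  G3p8_5, G3p8_6, G3p8_7, G3p9_4, G3p9_5, G3p9_6, G3p9_7, G3p9_8]⟩))) (.node 1262 (.node 1261 (.leaf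
  ⟨623257105, 76749127789340644251652,
  1104303167614582892031200465419488826248662685783279636751134552072105426945, 152162, [G3p1_0,
  G3p2_0, G3p2_1, G3p3_0, G3p3_1, G3p3_2, G3p4_5, G3p4_6, G3p5_6, G3p7_0, G3p7_4, G3p7_5, G3p7_6,
  G3p7_8, G3p7_9, G3p8_0, G3p8_4, G3p8_5, G3p8_6, G3p8_9, G3p9_0, G3p9_4, G3p9_5, G3p9_6]⟩) (.leaf
  ⟨623142424, 76749127787346705684712,
  1107836915664855747270307252775970820566836399296272861423031951883495407618, 152134, [G3p0_1,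
  G3p2_1, G3p2_3, G3p3_1, G3p4_5, G3p4_6, G3p5_6, G3p7_0, G3p7_1, G3p7_4, G3p7_5, G3p7_6, G3p7_8,
  G3p7_9, G3p8_0, G3p8_1, G3p8_4, G3p8_5, G3p8_6, G3p8_9, G3p9_0, G3p9_1, G3p9_4, G3p9_5, G3p9_6]⟩))
  (.node 1263 (.leaf ⟨2299826568, 4834205569789703852132,
  1613138272046980623155040156086129978165872742065159060384496543648722255873, 561481, [G3p1_0,
  G3p1_2, G3p1_3, G3p1_4, G3p2_0, G3p2_3, G3p2_4, G3p3_0, G3p3_4, G3p5_4, G3p5_6, G3p6_4, G3p7_8,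
  G3p9_0, G3p9_4, G3p9_7, G3p9_8]⟩) (.leaf ⟨2232570404, 1262450281236409816192,
  1697952134347476888002803545693062802070200710707930841253715552641602289743, 545061, [G3p1_2,
  G3p1_3, G3p1_6, G3p2_3, G3p2_6, G3p3_6, G3p4_6, G3p5_4, G3p5_6, G3p7_0, G3p7_6, G3p8_0, G3p8_6,
  G3p8_7, G3p9_0, G3p9_6, G3p9_7, G3p9_8]⟩))))) (.node 1272 (.node 1268 (.node 1266 (.node 1265
  (.leaf ⟨621962788, 76752291819969040460069,
  1044229450759944352967917529131484060217001806351447831936035129983210881102, 151846, [G3p0_1,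
  G3p0_2, G3p0_3, G3p0_6, G3p1_2, G3p1_3, G3p1_6, G3p2_3, G3p2_6, G3p3_6, G3p4_6, G3p5_4, G3p5_6,
  G3p7_0, G3p7_1, G3p7_2, G3p7_3, G3p7_6, G3p7_8, G3p7_9, G3p8_0, G3p8_1, G3p8_2, G3p8_3, G3p8_6,
  G3p8_9, G3p9_0, G3p9_1, G3p9_2, G3p9_3, G3p9_6]⟩) (.leaf ⟨2232521252, 1262450174618141660291,
  1697952134347476888002803545693218905585121475199785390860837218553681674305, 545049, [G3p1_0,
  G3p1_6, G3p2_0, G3p2_1, G3p2_6, G3p3_0, G3p3_1, G3p3_2, G3p3_6, G3p4_6, G3p5_4, G3p5_6, G3p7_0,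
  G3p7_6, G3p8_0, G3p8_6, G3p8_7, G3p9_0, G3p9_6, G3p9_7, G3p9_8]⟩)) (.node 1267 (.leaf ⟨621913636,
  76748832767245734386885,
  1019493214408034366294170017635463393011071547649432490861270926697265365056, 151834, [G3p0_6,
  G3p1_6, G3p2_1, G3p2_6, G3p3_1, G3p3_2, G3p3_6, G3p4_6, G3p5_4, G3p5_6, G3p7_0, G3p7_6, G3p7_8,
  G3p7_9, G3p8_0, G3p8_6, G3p8_9, G3p9_0, G3p9_6]⟩) (.leaf ⟨621945993, 232725281925704520372322,
  906413276799308729722552667986136953405391352980978686882541239785060040729, 151842, [G3p1_0,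
  G3p1_3, G3p1_4, G3p2_0, G3p2_1, G3p2_3, G3p2_4, G3p5_0, G3p5_4, G3p5_6, G3p5_7, G3p5_8, G3p5_9,
  G3p6_0, G3p6_4, G3p6_7, G3p6_8, G3p6_9, G3p7_0, G3p7_8, G3p7_9, G3p8_0, G3p8_9, G3p9_0]⟩))) (.node
  1270 (.node 1269 (.leaf ⟨2249335369, 1261557475593588740194,
  1583105322713609394026586179463455282217464092559652336139622212652099960953, 549154, [G3p1_0,
  G3p1_3, G3p1_4, G3p1_5, G3p1_6, G3p2_0, G3p2_1, G3p2_3, G3p2_4, G3p2_5, G3p2_6, G3p5_4, G3p6_4,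
  G3p6_5, G3p8_7, G3p9_7, G3p9_8]⟩) (.leaf ⟨638723145, 115742051197037106597986,
  906413276799303299937506045084018818559997744939825151006092376177854906489, 155938, [G3p1_0,
  G3p1_3, G3p1_4, G3p1_5, G3p1_6, G3p2_0, G3p2_1, G3p2_3, G3p2_4, G3p2_5, G3p2_6, G3p5_4, G3p6_4,
  G3p6_5, G3p7_0, G3p7_8, G3p7_9, G3p8_0, G3p8_9, G3p9_0]⟩)) (.node 1271 (.leaf ⟨2233606681,
  1263861172356001174722,
  1795130205729980407076707749225143170060819754065482480974144947935720767497, 545314, [G3p1_0,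
  G3p1_3, G3p2_0, G3p2_1, G3p2_3, G3p4_5, G3p4_6, G3p5_6, G3p7_3, G3p7_4, G3p7_5, G3p7_6, G3p8_3,
  G3p8_4, G3p8_5, G3p8_6, G3p8_7, G3p9_3, G3p9_4, G3p9_5, G3p9_6, G3p9_7, G3p9_8]⟩) (.leaf
  ⟨622994969, 76749128033362432399586,
  1118438159815674312987627614845706706403353406445800348326204096589502873609, 152098, [G3p1_0,
  G3p1_3, G3p2_0, G3p2_1, G3p2_3, G3p4_5, G3p4_6, G3p5_6, G3p7_0, G3p7_3, G3p7_4, G3p7_5, G3p7_6,
  G3p7_8, G3p7_9, G3p8_0, G3p8_3, G3p8_4, G3p8_5, G3p8_6, G3p8_9, G3p9_0, G3p9_3, G3p9_4, G3p9_5,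
  G3p9_6]⟩)))) (.node 1276 (.node 1274 (.node 1273 (.leaf ⟨2300858648, 4837769006847342150723,
  1584868719010526373446547274650330140251440886693043289344000128944246554627, 561733, [G3p2_0,
  G3p2_1, G3p2_3, G3p3_0, G3p3_1, G3p4_5, G3p4_6, G3p5_6, G3p7_8, G3p9_0, G3p9_7, G3p9_8]⟩) (.leaf
  ⟨2307150098, 4834275480068671149187,
  1599003495528753749379499326290128399578361463419181525131514672809415016456, 563269, [G3p0_3,
  G3p1_3, G3p2_1, G3p2_3, G3p5_4, G3p6_4, G3p6_5, G3p7_8, G3p9_0, G3p9_3, G3p9_7, G3p9_8]⟩)) (.node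
  1275 (.leaf ⟨2233750040, 1263860961495655519431,
  1786295835604298268978940780833726333140881139461852856188378194063843852291, 545349, [G3p2_0,
  G3p2_1, G3p2_3, G3p3_0, G3p3_1, G3p4_5, G3p4_6, G3p5_6, G3p7_0, G3p7_1, G3p7_4, G3p7_5, G3p7_6,
  G3p8_0, G3p8_1, G3p8_4, G3p8_5, G3p8_6, G3p8_7, G3p9_0, G3p9_1, G3p9_4, G3p9_5, G3p9_6, G3p9_7,
  G3p9_8]⟩) (.leaf ⟨2240046232, 274229335715864359603336,
  1583105322713615037227154699181880624340749976372330173206548501074381242370, 546886, [G3p0_1,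
  G3p2_1, G3p2_3, G3p3_1, G3p4_0, G3p4_1, G3p4_7, G3p4_8, G3p4_9, G3p5_0, G3p5_1, G3p5_4, G3p5_7,
  G3p5_8, G3p5_9, G3p6_0, G3p6_1, G3p6_4, G3p6_5, G3p6_7, G3p6_8, G3p6_9, G3p8_7, G3p9_7,
  G3p9_8]⟩))) (.node 1278 (.node 1277 (.leaf ⟨629433496, 310716995493768253803659,
  909947024849581798377181352159037656345478619071950013930264536398967209986, 153670, [G3p0_1,
  G3p2_1, G3p2_3, G3p3_1, G3p4_0, G3p4_1, G3p4_7, G3p4_8, G3p4_9, G3p5_0, G3p5_1, G3p5_4, G3p5_7,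
  G3p5_8, G3p5_9, G3p6_0, G3p6_1, G3p6_4, G3p6_5, G3p6_7, G3p6_8, G3p6_9, G3p7_0, G3p7_1, G3p7_8,
  G3p7_9, G3p8_0, G3p8_1, G3p8_9, G3p9_0, G3p9_1]⟩) (.leaf ⟨2240041490, 1260367540131588088038,
  1796897079755117135992546814537361731327766815974580493212215246385368793096, 546885, [G3p0_3,
  G3p1_3, G3p2_1, G3p2_3, G3p5_4, G3p6_4, G3p6_5, G3p7_0, G3p7_3, G3p7_4, G3p7_5, G3p7_6, G3p8_0,
  G3p8_3, G3p8_4, G3p8_5, G3p8_6, G3p8_7, G3p9_0, G3p9_3, G3p9_4, G3p9_5, G3p9_6, G3p9_7, G3p9_8]⟩))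
  (.node 1279 (.leaf ⟨629433880, 76745634120038852240715,
  1107836915664856061120987960048865672783653000830162252307296451970247819266, 153670, [G3p0_1,
  G3p2_1, G3p2_3, G3p3_1, G3p4_1, G3p5_1, G3p5_4, G3p6_1, G3p6_4, G3p6_5, G3p7_0, G3p7_1, G3p7_4,
  G3p7_5, G3p7_6, G3p7_8, G3p7_9, G3p8_0, G3p8_1, G3p8_4, G3p8_5, G3p8_6, G3p8_9, G3p9_0, G3p9_1,
  G3p9_4, G3p9_5, G3p9_6]⟩) (.leaf ⟨2233754760, 235235222335216299380807,
  1583105322713614735930869027547958810564612851039537068607513267275623956482, 545350, [G3p0_1,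
  G3p2_1, G3p2_3, G3p3_1, G3p4_0, G3p4_1, G3p4_5, G3p4_6, G3p4_7, G3p4_8, G3p4_9, G3p5_0, G3p5_1,
  G3p5_6, G3p5_7, G3p5_8, G3p5_9, G3p6_0, G3p6_1, G3p6_7, G3p6_8, G3p6_9, G3p8_7, G3p9_7,
  G3p9_8]⟩))))))

def G3T21 : Tr :=
  .node 1312 (.node 1296 (.node 1288 (.node 1284 (.node 1282 (.node 1281 (.leaf ⟨623142024,
  271722882113120193581130,
  909947024849581497080895680525115842569341493739156909331229302600209924098, 152134, [G3p0_1,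
  G3p2_1, G3p2_3, G3p3_1, G3p4_0, G3p4_1, G3p4_5, G3p4_6, G3p4_7, G3p4_8, G3p4_9, G3p5_0, G3p5_1,
  G3p5_6, G3p5_7, G3p5_8, G3p5_9, G3p6_0, G3p6_1, G3p6_7, G3p6_8, G3p6_9, G3p7_0, G3p7_1, G3p7_8,
  G3p7_9, G3p8_0, G3p8_1, G3p8_9, G3p9_0, G3p9_1]⟩) (.leaf ⟨2307166488, 4834275375586075480230,
  1584868719010526681020030464103693871077023454897385491481525815623083425793, 563273, [G3p1_0,
  G3p1_2, G3p1_3, G3p2_0, G3p2_3, G3p3_0, G3p4_0, G3p5_0, G3p5_4, G3p6_0, G3p6_4, G3p6_5, G3p7_8,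
  G3p9_0, G3p9_7, G3p9_8]⟩)) (.node 1283 (.leaf ⟨2240057880, 1260367330096949895466,
  1782762087554025721313317182930496568304268717345663607358805428053781577729, 546889, [G3p1_0,
  G3p1_2, G3p1_3, G3p2_0, G3p2_3, G3p3_0, G3p4_0, G3p5_0, G3p5_4, G3p6_0, G3p6_4, G3p6_5, G3p7_0,
  G3p7_4, G3p7_5, G3p7_6, G3p8_0, G3p8_4, G3p8_5, G3p8_6, G3p8_7, G3p9_0, G3p9_4, G3p9_5, G3p9_6,
  G3p9_7, G3p9_8]⟩) (.leaf ⟨2300875032, 4837769042994860655716,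
  1584868719010526373446547274650285538080546591464044243739875950851434545153, 561737, [G3p1_0,
  G3p1_2, G3p1_3, G3p2_0, G3p2_3, G3p3_0, G3p4_5, G3p4_6, G3p5_6, G3p7_8, G3p9_0, G3p9_7,
  G3p9_8]⟩))) (.node 1286 (.node 1285 (.leaf ⟨629450257, 76745634228546906006529,
  1104303167614583193327486137053254536509879046624218191743048115616564051983, 153674, [G3p1_2,
  G3p1_3, G3p2_3, G3p5_4, G3p6_4, G3p6_5, G3p7_0, G3p7_4, G3p7_5, G3p7_6, G3p7_8, G3p7_9, G3p8_0,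
  G3p8_4, G3p8_5, G3p8_6, G3p8_9, G3p9_0, G3p9_4, G3p9_5, G3p9_6]⟩) (.leaf ⟨2233771144,
  235235222371225305190503,
  1583105322713614723376473991908941169953033887154124458973469895472009183232, 545354, [G3p1_2,
  G3p1_3, G3p2_3, G3p4_0, G3p4_5, G3p4_6, G3p4_7, G3p4_8, G3p4_9, G3p5_0, G3p5_6, G3p5_7, G3p5_8,
  G3p5_9, G3p6_0, G3p6_7, G3p6_8, G3p6_9, G3p8_7, G3p9_7, G3p9_8]⟩)) (.node 1287 (.leaf ⟨2240062609,
  274229335824475492584449,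
  1583105322713615024672759663542862983729171012486917563572505129262236237839, 546890, [G3p1_2,
  G3p1_3, G3p2_3, G3p4_0, G3p4_7, G3p4_8, G3p4_9, G3p5_0, G3p5_4, G3p5_7, G3p5_8, G3p5_9, G3p6_0,
  G3p6_4, G3p6_5, G3p6_7, G3p6_8, G3p6_9, G3p8_7, G3p9_7, G3p9_8]⟩) (.leaf ⟨623158408,
  271722882149026120175722,
  906413276799308629287393857529504706295567539533212848766980966255115108352, 152138, [G3p1_2,
  G3p1_3, G3p2_3, G3p4_0, G3p4_5, G3p4_6, G3p4_7, G3p4_8, G3p4_9, G3p5_0, G3p5_6, G3p5_7, G3p5_8,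
  G3p5_9, G3p6_0, G3p6_7, G3p6_8, G3p6_9, G3p7_0, G3p7_8, G3p7_9, G3p8_0, G3p8_9, G3p9_0]⟩))))
  (.node 1292 (.node 1290 (.node 1289 (.leaf ⟨629548177, 310716995495658039413764,
  906413276799308930583679529163582623586625429357860502973137865957421547521, 153698, [G3p1_0,
  G3p2_0, G3p2_1, G3p3_0, G3p3_1, G3p3_2, G3p4_0, G3p4_7, G3p4_8, G3p4_9, G3p5_0, G3p5_4, G3p5_7,
  G3p5_8, G3p5_9, G3p6_0, G3p6_4, G3p6_5, G3p6_7, G3p6_8, G3p6_9, G3p7_0, G3p7_8, G3p7_9, G3p8_0,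
  G3p8_9, G3p9_0]⟩) (.leaf ⟨2240160273, 1260367296108793307140,
  1780995213528889287416566271432847103682266158735764545404667549908258979841, 546914, [G3p1_0,
  G3p2_0, G3p2_1, G3p3_0, G3p3_1, G3p3_2, G3p5_4, G3p6_4, G3p6_5, G3p7_4, G3p7_5, G3p7_6, G3p8_4,
  G3p8_5, G3p8_6, G3p8_7, G3p9_4, G3p9_5, G3p9_6, G3p9_7, G3p9_8]⟩)) (.node 1291 (.leaf ⟨629449873,
  310716995602276307569665,
  906413276799308930583679529163426520071704664866005953366016200045342162959, 153674, [G3p1_2,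
  G3p1_3, G3p2_3, G3p4_0, G3p4_7, G3p4_8, G3p4_9, G3p5_0, G3p5_4, G3p5_7, G3p5_8, G3p5_9, G3p6_0,
  G3p6_4, G3p6_5, G3p6_7, G3p6_8, G3p6_9, G3p7_0, G3p7_8, G3p7_9, G3p8_0, G3p8_9, G3p9_0]⟩) (.leaf
  ⟨629548561, 76745634121929711592452,
  1104303167614583193327486137053410640024799811116072741350169781528643436545, 153698, [G3p1_0,
  G3p2_0, G3p2_1, G3p3_0, G3p3_1, G3p3_2, G3p5_4, G3p6_4, G3p6_5, G3p7_0, G3p7_4, G3p7_5, G3p7_6,
  G3p7_8, G3p7_9, G3p8_0, G3p8_4, G3p8_5, G3p8_6, G3p8_9, G3p9_0, G3p9_4, G3p9_5, G3p9_6]⟩))) (.node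
  1294 (.node 1293 (.leaf ⟨2300977425, 10925194553337404457988,
  1583101871945747989116963977158240038820812311562094896493187899292792062337, 561762, [G3p0_7,
  G3p0_8, G3p1_0, G3p1_7, G3p1_8, G3p2_0, G3p2_1, G3p2_7, G3p2_8, G3p3_0, G3p3_1, G3p3_2, G3p3_7,
  G3p3_8, G3p4_5, G3p4_6, G3p5_6, G3p7_8, G3p9_7, G3p9_8]⟩) (.leaf ⟨623256713,
  271722882078726095475843,
  906413276799308629287393857529660809810488304025067398374102632167194492929, 152162, [G3p1_0,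
  G3p2_0, G3p2_1, G3p3_0, G3p3_1, G3p3_2, G3p4_0, G3p4_5, G3p4_6, G3p4_7, G3p4_8, G3p4_9, G3p5_0,
  G3p5_6, G3p5_7, G3p5_8, G3p5_9, G3p6_0, G3p6_7, G3p6_8, G3p6_9, G3p7_0, G3p7_8, G3p7_9, G3p8_0,
  G3p8_9, G3p9_0]⟩)) (.node 1295 (.leaf ⟨2307268881, 10921700885926471798788,
  1583101871945748290413249648792161852596949436894888001092223128749330071937, 563298, [G3p0_7,
  G3p0_8, G3p1_0, G3p1_7, G3p1_8, G3p2_0, G3p2_1, G3p2_7, G3p2_8, G3p3_0, G3p3_1, G3p3_2, G3p3_7,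
  G3p3_8, G3p5_4, G3p6_4, G3p6_5, G3p7_8, G3p9_7, G3p9_8]⟩) (.leaf ⟨2307019044,
  10928841413432303621248,
  1584868719010526674742832946295246389172298188061411682930425114312733360639, 563237, [G3p1_2,
  G3p1_3, G3p1_4, G3p1_5, G3p1_6, G3p1_7, G3p1_8, G3p2_3, G3p2_4, G3p2_5, G3p2_6, G3p2_7, G3p2_8,
  G3p3_4, G3p3_5, G3p3_6, G3p3_7, G3p3_8, G3p5_4, G3p6_4, G3p6_5, G3p7_8, G3p9_0, G3p9_7,
  G3p9_8]⟩))))) (.node 1304 (.node 1300 (.node 1298 (.node 1297 (.leaf ⟨2239910436,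
  1262747518811816268928,
  1782762087554025715036119665113485469572884951589292739245802789886428708991, 546853, [G3p1_2,
  G3p1_3, G3p1_4, G3p1_5, G3p1_6, G3p2_3, G3p2_4, G3p2_5, G3p2_6, G3p3_4, G3p3_5, G3p3_6, G3p5_4,
  G3p6_4, G3p6_5, G3p7_0, G3p7_4, G3p7_5, G3p7_6, G3p8_0, G3p8_4, G3p8_5, G3p8_6, G3p8_7, G3p9_0,
  G3p9_4, G3p9_5, G3p9_6, G3p9_7, G3p9_8]⟩) (.leaf ⟨2300727576, 4837769188266760733763,
  1584868719010526373446547274650263236995060501623105709730604105271635542031, 561701, [G3p1_2,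
  G3p1_3, G3p2_3, G3p4_5, G3p4_6, G3p5_6, G3p7_8, G3p9_0, G3p9_7, G3p9_8]⟩)) (.node 1299 (.leaf
  ⟨2250347076, 1257981477887883150467,
  1584872196738745721210979453179808805297038143353886032314665874674212143105, 549401, [G3p1_0,
  G3p2_0, G3p2_1, G3p3_0, G3p3_1, G3p3_2, G3p4_0, G3p4_5, G3p4_6, G3p6_5, G3p7_0, G3p8_0, G3p8_7,
  G3p9_0, G3p9_7, G3p9_8]⟩) (.leaf ⟨629302820, 76752774831029075945765,
  1129039403966493180001233648551906727719686051035819559052152073918532812926, 153638, [G3p0_1,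
  G3p0_2, G3p0_3, G3p0_4, G3p0_5, G3p0_6, G3p1_2, G3p1_3, G3p1_4, G3p1_5, G3p1_6, G3p2_3, G3p2_4,
  G3p2_5, G3p2_6, G3p3_4, G3p3_5, G3p3_6, G3p5_4, G3p6_4, G3p6_5, G3p7_0, G3p7_1, G3p7_2, G3p7_3,
  G3p7_4, G3p7_5, G3p7_6, G3p7_8, G3p7_9, G3p8_0, G3p8_1, G3p8_2, G3p8_3, G3p8_4, G3p8_5, G3p8_6,
  G3p8_9, G3p9_0, G3p9_1, G3p9_2, G3p9_3, G3p9_4, G3p9_5, G3p9_6]⟩))) (.node 1302 (.node 1301 (.leaf
  ⟨2300678424, 4837769081651713803334,
  1584868719010526373446547274650419340509981266114960259337725771183714926593, 561689, [G3p1_0,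
  G3p2_0, G3p2_1, G3p3_0, G3p3_1, G3p3_2, G3p4_5, G3p4_6, G3p5_6, G3p7_8, G3p9_0, G3p9_7, G3p9_8]⟩)
  (.leaf ⟨639738948, 115738475199329357333734,
  906413276799303199502345923660551655392085292529168545751060204622182350848, 156186, [G3p2_1,
  G3p3_1, G3p3_2, G3p4_5, G3p4_6, G3p6_5, G3p7_0, G3p7_8, G3p7_9, G3p8_0, G3p8_9, G3p9_0]⟩)) (.node
  1303 (.leaf ⟨2233618968, 1263861288050608968903,
  1807498323905935400413581504973220403857670696315103982377572886524627714063, 545317, [G3p1_2,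
  G3p1_3, G3p2_3, G3p4_5, G3p4_6, G3p5_6, G3p7_0, G3p7_1, G3p7_2, G3p7_3, G3p7_4, G3p7_5, G3p7_6,
  G3p8_0, G3p8_1, G3p8_2, G3p8_3, G3p8_4, G3p8_5, G3p8_6, G3p8_7, G3p9_0, G3p9_1, G3p9_2, G3p9_3,
  G3p9_4, G3p9_5, G3p9_6, G3p9_7, G3p9_8]⟩) (.leaf ⟨623011352, 76749128150185542850792,
  1129039403966492878704947976915487192369106854644356444074881326810177339406, 152102, [G3p0_1,
  G3p0_2, G3p0_3, G3p1_2, G3p1_3, G3p2_3, G3p4_5, G3p4_6, G3p5_6, G3p7_0, G3p7_1, G3p7_2, G3p7_3,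
  G3p7_4, G3p7_5, G3p7_6, G3p7_8, G3p7_9, G3p8_0, G3p8_1, G3p8_2, G3p8_3, G3p8_4, G3p8_5, G3p8_6,
  G3p8_9, G3p9_0, G3p9_1, G3p9_2, G3p9_3, G3p9_4, G3p9_5, G3p9_6]⟩)))) (.node 1308 (.node 1306
  (.node 1305 (.leaf ⟨2233623684, 235235222661771252830567,
  1583105322713614811257239241381752439037790221671009663389508478683127480334, 545318, [G3p0_1,
  G3p0_2, G3p0_3, G3p1_2, G3p1_3, G3p2_3, G3p4_0, G3p4_1, G3p4_2, G3p4_3, G3p4_5, G3p4_6, G3p4_7,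
  G3p4_8, G3p4_9, G3p5_0, G3p5_1, G3p5_2, G3p5_3, G3p5_6, G3p5_7, G3p5_8, G3p5_9, G3p6_0, G3p6_1,
  G3p6_2, G3p6_3, G3p6_7, G3p6_8, G3p6_9, G3p8_7, G3p9_7, G3p9_8]⟩) (.leaf ⟨623010948,
  271722882548526798180810,
  931149513151218703841906618498470445015688806293818209694454301256593702926, 152102, [G3p0_1,
  G3p0_2, G3p0_3, G3p1_2, G3p1_3, G3p2_3, G3p4_0, G3p4_1, G3p4_2, G3p4_3, G3p4_5, G3p4_6, G3p4_7,
  G3p4_8, G3p4_9, G3p5_0, G3p5_1, G3p5_2, G3p5_3, G3p5_6, G3p5_7, G3p5_8, G3p5_9, G3p6_0, G3p6_1,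
  G3p6_2, G3p6_3, G3p6_7, G3p6_8, G3p6_9, G3p7_0, G3p7_1, G3p7_2, G3p7_3, G3p7_8, G3p7_9, G3p8_0,
  G3p8_1, G3p8_2, G3p8_3, G3p8_9, G3p9_0, G3p9_1, G3p9_2, G3p9_3]⟩)) (.node 1307 (.leaf ⟨2307019032,
  4834275629813779665062,
  1584868719010526768900795713576482839076293698464120961468858864454733856783, 563237, [G3p1_2,
  G3p1_3, G3p2_3, G3p4_0, G3p4_1, G3p4_2, G3p4_3, G3p5_0, G3p5_1, G3p5_2, G3p5_3, G3p5_4, G3p6_0,
  G3p6_1, G3p6_2, G3p6_3, G3p6_4, G3p6_5, G3p7_8, G3p9_0, G3p9_7, G3p9_8]⟩) (.leaf ⟨2239910424,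
  1260367729597627900202,
  1807498323905935795867829943899440005938903893156119234115827645707726028815, 546853, [G3p1_2,
  G3p1_3, G3p2_3, G3p4_0, G3p4_1, G3p4_2, G3p4_3, G3p5_0, G3p5_1, G3p5_2, G3p5_3, G3p5_4, G3p6_0,
  G3p6_1, G3p6_2, G3p6_3, G3p6_4, G3p6_5, G3p7_0, G3p7_1, G3p7_2, G3p7_3, G3p7_4, G3p7_5, G3p7_6,
  G3p8_0, G3p8_1, G3p8_2, G3p8_3, G3p8_4, G3p8_5, G3p8_6, G3p8_7, G3p9_0, G3p9_1, G3p9_2, G3p9_3,
  G3p9_4, G3p9_5, G3p9_6, G3p9_7, G3p9_8]⟩))) (.node 1310 (.node 1309 (.leaf ⟨629302808,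
  76745634591729340556619,
  1129039403966493267881998898022220275230000313384823552670521450678172123150, 153638, [G3p0_1,
  G3p0_2, G3p0_3, G3p1_2, G3p1_3, G3p2_3, G3p4_1, G3p4_2, G3p4_3, G3p5_1, G3p5_2, G3p5_3, G3p5_4,
  G3p6_1, G3p6_2, G3p6_3, G3p6_4, G3p6_5, G3p7_0, G3p7_1, G3p7_2, G3p7_3, G3p7_4, G3p7_5, G3p7_6,
  G3p7_8, G3p7_9, G3p8_0, G3p8_1, G3p8_2, G3p8_3, G3p8_4, G3p8_5, G3p8_6, G3p8_9, G3p9_0, G3p9_1,
  G3p9_2, G3p9_3, G3p9_4, G3p9_5, G3p9_6]⟩) (.leaf ⟨2233574532, 235235222300925280489735,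
  1583105322713614723376473991909074972382468561805040474571315775094485155840, 545306, [G3p2_1,
  G3p3_1, G3p3_2, G3p4_0, G3p4_5, G3p4_6, G3p4_7, G3p4_8, G3p4_9, G3p5_0, G3p5_6, G3p5_7, G3p5_8,
  G3p5_9, G3p6_0, G3p6_7, G3p6_8, G3p6_9, G3p8_7, G3p9_7, G3p9_8]⟩)) (.node 1311 (.leaf ⟨2239915160,
  274229336078703196769416,
  1583105322713615112553524913015674252813927347003802767988543712533425291278, 546854, [G3p0_1,
  G3p0_2, G3p0_3, G3p1_2, G3p1_3, G3p2_3, G3p4_0, G3p4_1, G3p4_2, G3p4_3, G3p4_7, G3p4_8, G3p4_9,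
  G3p5_0, G3p5_1, G3p5_2, G3p5_3, G3p5_4, G3p5_7, G3p5_8, G3p5_9, G3p6_0, G3p6_1, G3p6_2, G3p6_3,
  G3p6_4, G3p6_5, G3p6_7, G3p6_8, G3p6_9, G3p8_7, G3p9_7, G3p9_8]⟩) (.leaf ⟨629302424,
  310716995965458742119563,
  931149513151219005138192290132392258791825931626611314293489535106891513870, 153638, [G3p0_1,
  G3p0_2, G3p0_3, G3p1_2, G3p1_3, G3p2_3, G3p4_0, G3p4_1, G3p4_2, G3p4_3, G3p4_7, G3p4_8, G3p4_9,
  G3p5_0, G3p5_1, G3p5_2, G3p5_3, G3p5_4, G3p5_7, G3p5_8, G3p5_9, G3p6_0, G3p6_1, G3p6_2, G3p6_3,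
  G3p6_4, G3p6_5, G3p6_7, G3p6_8, G3p6_9, G3p7_0, G3p7_1, G3p7_2, G3p7_3, G3p7_8, G3p7_9, G3p8_0,
  G3p8_1, G3p8_2, G3p8_3, G3p8_9, G3p9_0, G3p9_1, G3p9_2, G3p9_3]⟩)))))) (.node 1328 (.node 1320
  (.node 1316 (.node 1314 (.node 1313 (.leaf ⟨622961796, 271722882078726095475050,
  906413276799308629287393857529638508725002214184128864364826845877591080960, 152090, [G3p2_1,
  G3p3_1, G3p3_2, G3p4_0, G3p4_5, G3p4_6, G3p4_7, G3p4_8, G3p4_9, G3p5_0, G3p5_6, G3p5_7, G3p5_8,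
  G3p5_9, G3p6_0, G3p6_7, G3p6_8, G3p6_9, G3p7_0, G3p7_8, G3p7_9, G3p8_0, G3p8_9, G3p9_0]⟩) (.leaf
  ⟨2233569816, 1263861181435562038474,
  1807498323905935400413581504973376507372591460806958531984694552436707098625, 545305, [G3p1_0,
  G3p2_0, G3p2_1, G3p3_0, G3p3_1, G3p3_2, G3p4_5, G3p4_6, G3p5_6, G3p7_0, G3p7_1, G3p7_2, G3p7_3,
  G3p7_4, G3p7_5, G3p7_6, G3p8_0, G3p8_1, G3p8_2, G3p8_3, G3p8_4, G3p8_5, G3p8_6, G3p8_7, G3p9_0,
  G3p9_1, G3p9_2, G3p9_3, G3p9_4, G3p9_5, G3p9_6, G3p9_7, G3p9_8]⟩)) (.node 1315 (.leaf ⟨622962200,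
  76749128043567274694891,
  1129039403966492878704947976915620994798541528186078184473026480123038007296, 152090, [G3p2_1,
  G3p3_1, G3p3_2, G3p4_5, G3p4_6, G3p5_6, G3p7_0, G3p7_1, G3p7_2, G3p7_3, G3p7_4, G3p7_5, G3p7_6,
  G3p7_8, G3p7_9, G3p8_0, G3p8_1, G3p8_2, G3p8_3, G3p8_4, G3p8_5, G3p8_6, G3p8_9, G3p9_0, G3p9_1,
  G3p9_2, G3p9_3, G3p9_4, G3p9_5, G3p9_6]⟩) (.leaf ⟨2239866008, 274229335863130198248584,
  1583105322713615112553524913015808055243362020545507583166955903356232400896, 546842, [G3p2_1,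
  G3p3_1, G3p3_2, G3p4_0, G3p4_1, G3p4_2, G3p4_3, G3p4_7, G3p4_8, G3p4_9, G3p5_0, G3p5_1, G3p5_2,
  G3p5_3, G3p5_4, G3p5_7, G3p5_8, G3p5_9, G3p6_0, G3p6_1, G3p6_2, G3p6_3, G3p6_4, G3p6_5, G3p6_7,
  G3p6_8, G3p6_9, G3p8_7, G3p9_7, G3p9_8]⟩))) (.node 1318 (.node 1317 (.leaf ⟨629253272,
  310716995640931013233803,
  906413276799309018464444778636371591585895672924595972960466974139338326016, 153626, [G3p2_1,
  G3p3_1, G3p3_2, G3p4_0, G3p4_1, G3p4_2, G3p4_3, G3p4_7, G3p4_8, G3p4_9, G3p5_0, G3p5_1, G3p5_2,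
  G3p5_3, G3p5_4, G3p5_7, G3p5_8, G3p5_9, G3p6_0, G3p6_1, G3p6_2, G3p6_3, G3p6_4, G3p6_5, G3p6_7,
  G3p6_8, G3p6_9, G3p7_0, G3p7_8, G3p7_9, G3p8_0, G3p8_9, G3p9_0]⟩) (.leaf ⟨2239861284,
  1262747412193548113027,
  1782762087554025715036119665113641573087805716081147288852924455798508093553, 546841, [G3p1_0,
  G3p1_4, G3p1_5, G3p1_6, G3p2_0, G3p2_1, G3p2_4, G3p2_5, G3p2_6, G3p3_0, G3p3_1, G3p3_2, G3p3_4,
  G3p3_5, G3p3_6, G3p5_4, G3p6_4, G3p6_5, G3p7_0, G3p7_4, G3p7_5, G3p7_6, G3p8_0, G3p8_4, G3p8_5,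
  G3p8_6, G3p8_7, G3p9_0, G3p9_4, G3p9_5, G3p9_6, G3p9_7, G3p9_8]⟩)) (.node 1319 (.leaf ⟨629253668,
  76749204314214992452805,
  1104303167614583193327486137055886060513755792333804217977387870632587296880, 153626, [G3p0_4,
  G3p0_5, G3p0_6, G3p1_4, G3p1_5, G3p1_6, G3p2_1, G3p2_4, G3p2_5, G3p2_6, G3p3_1, G3p3_2, G3p3_4,
  G3p3_5, G3p3_6, G3p5_4, G3p6_4, G3p6_5, G3p7_0, G3p7_4, G3p7_5, G3p7_6, G3p7_8, G3p7_9, G3p8_0,
  G3p8_4, G3p8_5, G3p8_6, G3p8_9, G3p9_0, G3p9_4, G3p9_5, G3p9_6]⟩) (.leaf ⟨2306969892,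
  10928841306816182948995,
  1584868719010526674742832946295402492687218952553266232537546780224812745201, 563225, [G3p1_0,
  G3p1_4, G3p1_5, G3p1_6, G3p1_7, G3p1_8, G3p2_0, G3p2_1, G3p2_4, G3p2_5, G3p2_6, G3p2_7, G3p2_8,
  G3p3_0, G3p3_1, G3p3_2, G3p3_4, G3p3_5, G3p3_6, G3p3_7, G3p3_8, G3p5_4, G3p6_4, G3p6_5, G3p7_8,
  G3p9_0, G3p9_7, G3p9_8]⟩)))) (.node 1324 (.node 1322 (.node 1321 (.leaf ⟨2234098193,
  1263860961353955152963,
  1780995213528888986120280599801333811221449178918014379156402704810222223363, 545434, [G3p2_0,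
  G3p2_1, G3p2_3, G3p2_4, G3p2_5, G3p2_6, G3p3_0, G3p3_1, G3p3_4, G3p3_5, G3p3_6, G3p4_5, G3p4_6,
  G3p5_6, G3p7_4, G3p7_5, G3p7_6, G3p8_4, G3p8_5, G3p8_6, G3p8_7, G3p9_4, G3p9_5, G3p9_6, G3p9_7,
  G3p9_8]⟩) (.leaf ⟨623486481, 76749127787174906992707,
  1104303167614582892031200465421897347563982831298322575101904936430606680067, 152218, [G3p2_0,
  G3p2_1, G3p2_3, G3p2_4, G3p2_5, G3p2_6, G3p3_0, G3p3_1, G3p3_4, G3p3_5, G3p3_6, G3p4_5, G3p4_6,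
  G3p5_6, G3p7_0, G3p7_4, G3p7_5, G3p7_6, G3p7_8, G3p7_9, G3p8_0, G3p8_4, G3p8_5, G3p8_6, G3p8_9,
  G3p9_0, G3p9_4, G3p9_5, G3p9_6]⟩)) (.node 1323 (.leaf ⟨2240390289, 274229335715692560911427,
  1583105322713615024672759663562911659576435597052534409941845721459783303171, 546970, [G3p2_0,
  G3p2_1, G3p2_3, G3p2_7, G3p2_8, G3p2_9, G3p3_0, G3p3_1, G3p3_7, G3p3_8, G3p3_9, G3p4_0, G3p4_7,
  G3p4_8, G3p4_9, G3p5_0, G3p5_4, G3p5_7, G3p5_8, G3p5_9, G3p6_0, G3p6_4, G3p6_5, G3p6_7, G3p6_8,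
  G3p6_9, G3p8_7, G3p9_7, G3p9_8]⟩) (.leaf ⟨629777553, 310716995493493375896643,
  906413276799308930583679529183475195918969249431622799735356792242889228291, 153754, [G3p2_0,
  G3p2_1, G3p2_3, G3p2_7, G3p2_8, G3p2_9, G3p3_0, G3p3_1, G3p3_7, G3p3_8, G3p3_9, G3p4_0, G3p4_7,
  G3p4_8, G3p4_9, G3p5_0, G3p5_4, G3p5_7, G3p5_8, G3p5_9, G3p6_0, G3p6_4, G3p6_5, G3p6_7, G3p6_8,
  G3p6_9, G3p7_0, G3p7_8, G3p7_9, G3p8_0, G3p8_9, G3p9_0]⟩))) (.node 1326 (.node 1325 (.leaf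
  ⟨2306969880, 4834275523198732734633,
  1584868719010526768900795713576638942591214462955975511075980530366813241345, 563225, [G3p1_0,
  G3p2_0, G3p2_1, G3p3_0, G3p3_1, G3p3_2, G3p4_0, G3p4_1, G3p4_2, G3p4_3, G3p5_0, G3p5_1, G3p5_2,
  G3p5_3, G3p5_4, G3p6_0, G3p6_1, G3p6_2, G3p6_3, G3p6_4, G3p6_5, G3p7_8, G3p9_0, G3p9_7, G3p9_8]⟩)
  (.leaf ⟨2239861272, 1260367622982580969773,
  1807498323905935795867829943899596109453824657647973783722949311619805413377, 546841, [G3p1_0,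
  G3p2_0, G3p2_1, G3p3_0, G3p3_1, G3p3_2, G3p4_0, G3p4_1, G3p4_2, G3p4_3, G3p5_0, G3p5_1, G3p5_2,
  G3p5_3, G3p5_4, G3p6_0, G3p6_1, G3p6_2, G3p6_3, G3p6_4, G3p6_5, G3p7_0, G3p7_1, G3p7_2, G3p7_3,
  G3p7_4, G3p7_5, G3p7_6, G3p8_0, G3p8_1, G3p8_2, G3p8_3, G3p8_4, G3p8_5, G3p8_6, G3p8_7, G3p9_0,
  G3p9_1, G3p9_2, G3p9_3, G3p9_4, G3p9_5, G3p9_6, G3p9_7, G3p9_8]⟩)) (.node 1327 (.leaf ⟨629253656,
  76745634485111072400718,
  1129039403966493267881998898022354077659434986926545293068666603991032791040, 153626, [G3p2_1,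
  G3p3_1, G3p3_2, G3p4_1, G3p4_2, G3p4_3, G3p5_1, G3p5_2, G3p5_3, G3p5_4, G3p6_1, G3p6_2, G3p6_3,
  G3p6_4, G3p6_5, G3p7_0, G3p7_1, G3p7_2, G3p7_3, G3p7_4, G3p7_5, G3p7_6, G3p7_8, G3p7_9, G3p8_0,
  G3p8_1, G3p8_2, G3p8_3, G3p8_4, G3p8_5, G3p8_6, G3p8_9, G3p9_0, G3p9_1, G3p9_2, G3p9_3, G3p9_4,
  G3p9_5, G3p9_6]⟩) (.leaf ⟨2250318409, 1260359487270914493505,
  1583105322713609293591426058039943516879155805418416029027953258789123915885, 549394, [G3p1_0,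
  G3p1_2, G3p1_3, G3p1_5, G3p1_6, G3p3_2, G3p4_5, G3p4_6, G3p6_5, G3p8_7, G3p9_7, G3p9_8]⟩)))))
  (.node 1336 (.node 1332 (.node 1330 (.node 1329 (.leaf ⟨639706185, 115740853208715540696129,
  906413276799303199502345923660507053221689457798588843599275517135526035565, 156178, [G3p1_0,
  G3p1_2, G3p1_3, G3p1_5, G3p1_6, G3p3_2, G3p4_5, G3p4_6, G3p6_5, G3p7_0, G3p7_8, G3p7_9, G3p8_0,
  G3p8_9, G3p9_0]⟩) (.leaf ⟨2300649753, 7272739299204276421697,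
  1583101871945747989116963977149609518739767269565437631127245651002857881997, 561682, [G3p0_7,
  G3p0_8, G3p1_0, G3p1_2, G3p1_3, G3p1_7, G3p1_8, G3p3_2, G3p4_5, G3p4_6, G3p5_6, G3p7_8, G3p9_7,
  G3p9_8]⟩)) (.node 1331 (.leaf ⟨2233541769, 235235222409708212162625,
  1583105322713614723376473991909030370211574266576041428967192159960217419789, 545298, [G3p1_0,
  G3p1_2, G3p1_3, G3p3_2, G3p4_0, G3p4_5, G3p4_6, G3p4_7, G3p4_8, G3p4_9, G3p5_0, G3p5_6, G3p5_7,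
  G3p5_8, G3p5_9, G3p6_0, G3p6_7, G3p6_8, G3p6_9, G3p8_7, G3p9_7, G3p9_8]⟩) (.leaf ⟨622929033,
  271722882187509027147841,
  906413276799308629287393857529593906554107918955129818760703230743323344909, 152082, [G3p1_0,
  G3p1_2, G3p1_3, G3p3_2, G3p4_0, G3p4_5, G3p4_6, G3p4_7, G3p4_8, G3p4_9, G3p5_0, G3p5_6, G3p5_7,
  G3p5_8, G3p5_9, G3p6_0, G3p6_7, G3p6_8, G3p6_9, G3p7_0, G3p7_8, G3p7_9, G3p8_0, G3p8_9,
  G3p9_0]⟩))) (.node 1334 (.node 1333 (.leaf ⟨2233541145, 1263861181116660716737,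
  1802197701830526117554921323938419360622918590256222566994827012912496508941, 545298, [G3p1_0,
  G3p1_2, G3p1_3, G3p3_2, G3p4_5, G3p4_6, G3p5_6, G3p7_2, G3p7_3, G3p7_4, G3p7_5, G3p7_6, G3p8_2,
  G3p8_3, G3p8_4, G3p8_5, G3p8_6, G3p8_7, G3p9_2, G3p9_3, G3p9_4, G3p9_5, G3p9_6, G3p9_7, G3p9_8]⟩)
  (.leaf ⟨622929433, 76749128043223677311201,
  1125505655916220023465841189558982896965452242636545270050164620082977439757, 152082, [G3p1_0,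
  G3p1_2, G3p1_3, G3p3_2, G3p4_5, G3p4_6, G3p5_6, G3p7_0, G3p7_2, G3p7_3, G3p7_4, G3p7_5, G3p7_6,
  G3p7_8, G3p7_9, G3p8_0, G3p8_2, G3p8_3, G3p8_4, G3p8_5, G3p8_6, G3p8_9, G3p9_0, G3p9_2, G3p9_3,
  G3p9_4, G3p9_5, G3p9_6]⟩)) (.node 1335 (.leaf ⟨2306941209, 7269245740644994912417,
  1583101871945748365739619862617369563159981252104808453437656504240645603725, 563218, [G3p0_7,
  G3p0_8, G3p1_0, G3p1_2, G3p1_3, G3p1_7, G3p1_8, G3p3_2, G3p4_2, G3p4_3, G3p5_2, G3p5_3, G3p5_4,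
  G3p6_2, G3p6_3, G3p6_4, G3p6_5, G3p7_8, G3p9_7, G3p9_8]⟩) (.leaf ⟨2239833241,
  274229335862889680080001,
  1583105322713615099999129877376790414631788249115412251277603017583166750733, 546834, [G3p1_0,
  G3p1_2, G3p1_3, G3p3_2, G3p4_0, G3p4_2, G3p4_3, G3p4_7, G3p4_8, G3p4_9, G3p5_0, G3p5_2, G3p5_3,
  G3p5_4, G3p5_7, G3p5_8, G3p5_9, G3p6_0, G3p6_2, G3p6_3, G3p6_4, G3p6_5, G3p6_7, G3p6_8, G3p6_9,
  G3p8_7, G3p9_7, G3p9_8]⟩)))) (.node 1340 (.node 1338 (.node 1337 (.leaf ⟨629220505,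
  310716995640690495065217,
  906413276799309005910049742997353950974321901494500641071114088366272675853, 153618, [G3p1_0,
  G3p1_2, G3p1_3, G3p3_2, G3p4_0, G3p4_2, G3p4_3, G3p4_7, G3p4_8, G3p4_9, G3p5_0, G3p5_2, G3p5_3,
  G3p5_4, G3p5_7, G3p5_8, G3p5_9, G3p6_0, G3p6_2, G3p6_3, G3p6_4, G3p6_5, G3p6_7, G3p6_8, G3p6_9,
  G3p7_0, G3p7_8, G3p7_9, G3p8_0, G3p8_9, G3p9_0]⟩) (.leaf ⟨2239832601, 1260367622557379207457,
  1802197701830526494177577209406179405043132572795593389305237866150284230669, 546834, [G3p1_0,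
  G3p1_2, G3p1_3, G3p3_2, G3p4_2, G3p4_3, G3p5_2, G3p5_3, G3p5_4, G3p6_2, G3p6_3, G3p6_4, G3p6_5,
  G3p7_2, G3p7_3, G3p7_4, G3p7_5, G3p7_6, G3p8_2, G3p8_3, G3p8_4, G3p8_5, G3p8_6, G3p8_7, G3p9_2,
  G3p9_3, G3p9_4, G3p9_5, G3p9_6, G3p9_7, G3p9_8]⟩)) (.node 1339 (.leaf ⟨629220889,
  76745634484664395801921,
  1125505655916220400088497075026742941385666225175916092360575473320765161485, 153618, [G3p1_0,
  G3p1_2, G3p1_3, G3p3_2, G3p4_2, G3p4_3, G3p5_2, G3p5_3, G3p5_4, G3p6_2, G3p6_3, G3p6_4, G3p6_5,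
  G3p7_0, G3p7_2, G3p7_3, G3p7_4, G3p7_5, G3p7_6, G3p7_8, G3p7_9, G3p8_0, G3p8_2, G3p8_3, G3p8_4,
  G3p8_5, G3p8_6, G3p8_9, G3p9_0, G3p9_2, G3p9_3, G3p9_4, G3p9_5, G3p9_6]⟩) (.leaf ⟨2234065425,
  1263860997501507212388,
  1780995213528888986120280599801289209051136420937171234246674505264826220545, 545426, [G3p1_0,
  G3p1_2, G3p1_3, G3p1_4, G3p1_5, G3p1_6, G3p2_0, G3p2_3, G3p2_4, G3p2_5, G3p2_6, G3p3_0, G3p3_4,
  G3p3_5, G3p3_6, G3p4_5, G3p4_6, G3p5_6, G3p7_4, G3p7_5, G3p7_6, G3p8_4, G3p8_5, G3p8_6, G3p8_7,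
  G3p9_4, G3p9_5, G3p9_6, G3p9_7, G3p9_8]⟩))) (.node 1342 (.node 1341 (.leaf ⟨623453713,
  76749127823322425497700,
  1104303167614582892031200465421852745393670073317479430192176736885210677249, 152210, [G3p1_0,
  G3p1_2, G3p1_3, G3p1_4, G3p1_5, G3p1_6, G3p2_0, G3p2_3, G3p2_4, G3p2_5, G3p2_6, G3p3_0, G3p3_4,
  G3p3_5, G3p3_6, G3p4_5, G3p4_6, G3p5_6, G3p7_0, G3p7_4, G3p7_5, G3p7_6, G3p7_8, G3p7_9, G3p8_0,
  G3p8_4, G3p8_5, G3p8_6, G3p8_9, G3p9_0, G3p9_4, G3p9_5, G3p9_6]⟩) (.leaf ⟨2240356881,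
  1260367330090574553188,
  1780995213528889287416566271432713301252831484084848529806821670285782089729, 546962, [G3p1_0,
  G3p1_2, G3p1_3, G3p2_0, G3p2_3, G3p3_0, G3p5_4, G3p6_4, G3p6_5, G3p7_4, G3p7_5, G3p7_6, G3p8_4,
  G3p8_5, G3p8_6, G3p8_7, G3p9_4, G3p9_5, G3p9_6, G3p9_7, G3p9_8]⟩)) (.node 1343 (.leaf ⟨629745169,
  76745634155911492838500,
  1104303167614583193327486137053276837595365136465156725752323901906166546433, 153746, [G3p1_0,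
  G3p1_2, G3p1_3, G3p2_0, G3p2_3, G3p3_0, G3p5_4, G3p6_4, G3p6_5, G3p7_0, G3p7_4, G3p7_5, G3p7_6,
  G3p7_8, G3p7_9, G3p8_0, G3p8_4, G3p8_5, G3p8_6, G3p8_9, G3p9_0, G3p9_4, G3p9_5, G3p9_6]⟩) (.leaf
  ⟨629744785, 349713412501462921154660,
  906413276799308930583679529183430593752727252187870959686396501819601780737, 153746, [G3p1_0,
  G3p1_2, G3p1_3, G3p1_7, G3p1_8, G3p1_9, G3p2_0, G3p2_3, G3p2_7, G3p2_8, G3p2_9, G3p3_0, G3p3_7,
  G3p3_8, G3p3_9, G3p4_0, G3p4_7, G3p4_8, G3p4_9, G3p5_0, G3p5_4, G3p5_7, G3p5_8, G3p5_9, G3p6_0,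
  G3p6_4, G3p6_5, G3p6_7, G3p6_8, G3p6_9, G3p7_0, G3p7_8, G3p7_9, G3p8_0, G3p8_9, G3p9_0]⟩))))))

def G3T22 : Tr :=
  .node 1376 (.node 1360 (.node 1352 (.node 1348 (.node 1346 (.node 1345 (.leaf ⟨2234032657,
  1263860930532162540578,
  1780995213528888986120280599801422972347532939322583655344930706134073278471, 545418, [G3p1_2,
  G3p3_0, G3p3_1, G3p3_2, G3p3_4, G3p3_5, G3p3_6, G3p4_5, G3p4_6, G3p5_6, G3p7_4, G3p7_5, G3p7_6,
  G3p8_4, G3p8_5, G3p8_6, G3p8_7, G3p9_4, G3p9_5, G3p9_6, G3p9_7, G3p9_8]⟩) (.leaf ⟨623420945,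
  76749127756354221676578,
  1104303167614582892031200465421986508690066591702891851290432937754457735175, 152202, [G3p1_2,
  G3p3_0, G3p3_1, G3p3_2, G3p3_4, G3p3_5, G3p3_6, G3p4_5, G3p4_6, G3p5_6, G3p7_0, G3p7_4, G3p7_5,
  G3p7_6, G3p7_8, G3p7_9, G3p8_0, G3p8_4, G3p8_5, G3p8_6, G3p8_9, G3p9_0, G3p9_4, G3p9_5, G3p9_6]⟩))
  (.node 1347 (.leaf ⟨629712017, 310716995462672690580514,
  906413276799308930583679529183564090263677343820436720638192567060462501895, 153738, [G3p1_2,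
  G3p3_0, G3p3_1, G3p3_2, G3p3_7, G3p3_8, G3p3_9, G3p4_0, G3p4_7, G3p4_8, G3p4_9, G3p5_0, G3p5_4,
  G3p5_7, G3p5_8, G3p5_9, G3p6_0, G3p6_4, G3p6_5, G3p6_7, G3p6_8, G3p6_9, G3p7_0, G3p7_8, G3p7_9,
  G3p8_0, G3p8_9, G3p9_0]⟩) (.leaf ⟨2240324113, 1260367263121229881378,
  1780995213528889287416566271432847102661434634863524759497429319101941481479, 546954, [G3p1_2,
  G3p3_0, G3p3_1, G3p3_2, G3p5_4, G3p6_4, G3p6_5, G3p7_4, G3p7_5, G3p7_6, G3p8_4, G3p8_5, G3p8_6,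
  G3p8_7, G3p9_4, G3p9_5, G3p9_6, G3p9_7, G3p9_8]⟩))) (.node 1350 (.node 1349 (.leaf ⟨629712401,
  76745634088943289017378,
  1104303167614583193327486137053410639003968287243832955442931550722325938183, 153738, [G3p1_2,
  G3p3_0, G3p3_1, G3p3_2, G3p5_4, G3p6_4, G3p6_5, G3p7_0, G3p7_4, G3p7_5, G3p7_6, G3p7_8, G3p7_9,
  G3p8_0, G3p8_4, G3p8_5, G3p8_6, G3p8_9, G3p9_0, G3p9_4, G3p9_5, G3p9_6]⟩) (.leaf ⟨629286041,
  310716995634127785036930,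
  906413276799308980801259671719318674855254093542630884414171513406787944457, 153634, [G3p1_0,
  G3p1_3, G3p2_0, G3p2_1, G3p2_3, G3p4_0, G3p4_3, G3p4_7, G3p4_8, G3p4_9, G3p5_0, G3p5_3, G3p5_4,
  G3p5_7, G3p5_8, G3p5_9, G3p6_0, G3p6_3, G3p6_4, G3p6_5, G3p6_7, G3p6_8, G3p6_9, G3p7_0, G3p7_8,
  G3p7_9, G3p8_0, G3p8_9, G3p9_0]⟩)) (.node 1351 (.leaf ⟨2239898137, 1260367610498184782114,
  1795130205729980758590573563414957137599674784202660730714097259913094365193, 546850, [G3p1_0,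
  G3p1_3, G3p2_0, G3p2_1, G3p2_3, G3p4_3, G3p5_3, G3p5_4, G3p6_3, G3p6_4, G3p6_5, G3p7_3, G3p7_4,
  G3p7_5, G3p7_6, G3p8_3, G3p8_4, G3p8_5, G3p8_6, G3p8_7, G3p9_3, G3p9_4, G3p9_5, G3p9_6, G3p9_7,
  G3p9_8]⟩) (.leaf ⟨629286425, 76745634471504616006978,
  1118438159815674664501493429035520673942208436582978598066156408566876471305, 153634, [G3p1_0,
  G3p1_3, G3p2_0, G3p2_1, G3p2_3, G3p4_3, G3p5_3, G3p5_4, G3p6_3, G3p6_4, G3p6_5, G3p7_0, G3p7_3,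
  G3p7_4, G3p7_5, G3p7_6, G3p7_8, G3p7_9, G3p8_0, G3p8_3, G3p8_4, G3p8_5, G3p8_6, G3p8_9, G3p9_0,
  G3p9_3, G3p9_4, G3p9_5, G3p9_6]⟩)))) (.node 1356 (.node 1354 (.node 1353 (.leaf ⟨622994569,
  271722882218329712463970,
  906413276799308629287393857529504707316399063405452634674219197061432606729, 152098, [G3p1_0,
  G3p1_3, G3p2_0, G3p2_1, G3p2_3, G3p4_0, G3p4_5, G3p4_6, G3p4_7, G3p4_8, G3p4_9, G3p5_0, G3p5_6,
  G3p5_7, G3p5_8, G3p5_9, G3p6_0, G3p6_7, G3p6_8, G3p6_9, G3p7_0, G3p7_8, G3p7_9, G3p8_0, G3p8_9,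
  G3p9_0]⟩) (.leaf ⟨2300715289, 8490224438890900489314,
  1583101871945747989116963977149520450170487311656130416976609745202873631113, 561698, [G3p0_7,
  G3p0_8, G3p1_0, G3p1_3, G3p1_7, G3p1_8, G3p2_0, G3p2_1, G3p2_3, G3p2_7, G3p2_8, G3p4_5, G3p4_6,
  G3p5_6, G3p7_8, G3p9_7, G3p9_8]⟩)) (.node 1355 (.leaf ⟨2307006745, 8486730841848712007842,
  1583101871945748340630829791339334417709342341793308666716562057180247228809, 563234, [G3p0_7,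
  G3p0_8, G3p1_0, G3p1_3, G3p1_7, G3p1_8, G3p2_0, G3p2_1, G3p2_3, G3p2_7, G3p2_8, G3p4_3, G3p5_3,
  G3p5_4, G3p6_3, G3p6_4, G3p6_5, G3p7_8, G3p9_7, G3p9_8]⟩) (.leaf ⟨2233750034,
  1267431436147118711014,
  1796897079755116834696261142903439955663836331908740798494934113820232646776, 545349, [G3p0_3,
  G3p0_4, G3p0_5, G3p0_6, G3p1_3, G3p1_4, G3p1_5, G3p1_6, G3p2_1, G3p2_3, G3p2_4, G3p2_5, G3p2_6,
  G3p4_5, G3p4_6, G3p5_6, G3p7_0, G3p7_3, G3p7_4, G3p7_5, G3p7_6, G3p8_0, G3p8_3, G3p8_4, G3p8_5,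
  G3p8_6, G3p8_7, G3p9_0, G3p9_3, G3p9_4, G3p9_5, G3p9_6, G3p9_7, G3p9_8]⟩))) (.node 1358 (.node
  1357 (.leaf ⟨2234012178, 1267431155806013366502,
  1782762087554025413739833993479697458226182509781105251534016088515812524144, 545413, [G3p0_4,
  G3p0_5, G3p0_6, G3p1_4, G3p1_5, G3p1_6, G3p2_1, G3p2_4, G3p2_5, G3p2_6, G3p3_1, G3p3_2, G3p3_4,
  G3p3_5, G3p3_6, G3p4_5, G3p4_6, G3p5_6, G3p7_0, G3p7_4, G3p7_5, G3p7_6, G3p8_0, G3p8_4, G3p8_5,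
  G3p8_6, G3p8_7, G3p9_0, G3p9_4, G3p9_5, G3p9_6, G3p9_7, G3p9_8]⟩) (.leaf ⟨2252624402,
  1256720750333324828902,
  1599007188939836941306281050934204160468710232692026134455635140672043352072, 549957, [G3p0_3,
  G3p1_3, G3p2_1, G3p2_3, G3p4_5, G3p4_6, G3p5_6, G3p7_0, G3p7_3, G3p8_0, G3p8_3, G3p8_7, G3p9_0,
  G3p9_3, G3p9_7, G3p9_8]⟩)) (.node 1359 (.leaf ⟨642016792, 76740797253935977109736,
  909947024849575866434722196445708101924596417547472493858919507789355286530, 156742, [G3p0_1,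
  G3p2_1, G3p2_3, G3p3_1, G3p4_1, G3p4_5, G3p4_6, G3p5_1, G3p5_6, G3p6_1, G3p7_0, G3p7_1, G3p7_8,
  G3p7_9, G3p8_0, G3p8_1, G3p8_9, G3p9_0, G3p9_1]⟩) (.leaf ⟨2252640792, 1256720540295465407687,
  1584872196738745526627051419327338997445212134063109248602225322340456136705, 549961, [G3p1_0,
  G3p1_2, G3p1_3, G3p2_0, G3p2_3, G3p3_0, G3p4_0, G3p4_5, G3p4_6, G3p5_0, G3p5_6, G3p6_0, G3p7_0,
  G3p8_0, G3p8_7, G3p9_0, G3p9_7, G3p9_8]⟩))))) (.node 1368 (.node 1364 (.node 1362 (.node 1361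
  (.leaf ⟨642032737, 115740784671929533499492,
  906413276799302998641220373450096965650822463341528452165726106708045922319, 156746, [G3p1_2,
  G3p1_3, G3p2_3, G3p4_5, G3p4_6, G3p5_6, G3p7_0, G3p7_8, G3p7_9, G3p8_0, G3p8_9, G3p9_0]⟩) (.leaf
  ⟨2252743185, 1256720506310530044932,
  1583105322713609092730300507829689532823209575453210186648087444194933538817, 549986, [G3p1_0,
  G3p2_0, G3p2_1, G3p3_0, G3p3_1, G3p3_2, G3p4_5, G3p4_6, G3p5_6, G3p8_7, G3p9_7, G3p9_8]⟩)) (.node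
  1363 (.leaf ⟨642131041, 115740784565314486569063,
  906413276799302998641220373450253069165743227833383001772847772620125306881, 156770, [G3p1_0,
  G3p2_0, G3p2_1, G3p3_0, G3p3_1, G3p3_2, G3p4_5, G3p4_6, G3p5_6, G3p7_0, G3p7_8, G3p7_9, G3p8_0,
  G3p8_9, G3p9_0]⟩) (.leaf ⟨2252493336, 1256720830841413047495,
  1609608433090655601181564180296282435079847309873564875359247539994400587791, 549925, [G3p1_2,
  G3p1_3, G3p2_3, G3p4_0, G3p4_1, G3p4_2, G3p4_3, G3p4_5, G3p4_6, G3p5_0, G3p5_1, G3p5_2, G3p5_3,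
  G3p5_6, G3p6_0, G3p6_1, G3p6_2, G3p6_3, G3p7_0, G3p7_1, G3p7_2, G3p7_3, G3p8_0, G3p8_1, G3p8_2,
  G3p8_3, G3p8_7, G3p9_0, G3p9_1, G3p9_2, G3p9_3, G3p9_7, G3p9_8]⟩))) (.node 1366 (.node 1365 (.leaf
  ⟨641885720, 76740797616774814275816,
  931149513151213073195733134419062704370943730102133794222144506497279590414, 156710, [G3p0_1,
  G3p0_2, G3p0_3, G3p1_2, G3p1_3, G3p2_3, G3p4_1, G3p4_2, G3p4_3, G3p4_5, G3p4_6, G3p5_1, G3p5_2,
  G3p5_3, G3p5_6, G3p6_1, G3p6_2, G3p6_3, G3p7_0, G3p7_1, G3p7_2, G3p7_3, G3p7_8, G3p7_9, G3p8_0,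
  G3p8_1, G3p8_2, G3p8_3, G3p8_9, G3p9_0, G3p9_1, G3p9_2, G3p9_3]⟩) (.leaf ⟨2319601944,
  7270359362551310028966,
  1584868719010528878048356884625384405910616003741814823633812070319516483599, 566309, [G3p1_2,
  G3p1_3, G3p2_3, G3p4_0, G3p4_1, G3p4_2, G3p4_3, G3p4_5, G3p4_6, G3p4_7, G3p4_8, G3p5_0, G3p5_1,
  G3p5_2, G3p5_3, G3p5_6, G3p5_7, G3p5_8, G3p6_0, G3p6_1, G3p6_2, G3p6_3, G3p6_7, G3p6_8, G3p7_8,
  G3p9_0, G3p9_7, G3p9_8]⟩)) (.node 1367 (.leaf ⟨2252493348, 1263861033819683722368,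
  1584872196738745520349853901510327898713828368306738380489222684173103267967, 549925, [G3p1_2,
  G3p1_3, G3p1_4, G3p1_5, G3p1_6, G3p2_3, G3p2_4, G3p2_5, G3p2_6, G3p3_4, G3p3_5, G3p3_6, G3p4_5,
  G3p4_6, G3p5_6, G3p7_0, G3p8_0, G3p8_7, G3p9_0, G3p9_7, G3p9_8]⟩) (.leaf ⟨641885284,
  115751495430379814300998,
  1129039403966492878704947976917984913943548925703026471258100695130352648318, 156710, [G3p0_1,
  G3p0_2, G3p0_3, G3p0_4, G3p0_5, G3p0_6, G3p1_2, G3p1_3, G3p1_4, G3p1_5, G3p1_6, G3p2_3, G3p2_4,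
  G3p2_5, G3p2_6, G3p3_4, G3p3_5, G3p3_6, G3p4_5, G3p4_6, G3p5_6, G3p7_0, G3p7_1, G3p7_2, G3p7_3,
  G3p7_4, G3p7_5, G3p7_6, G3p7_8, G3p7_9, G3p8_0, G3p8_1, G3p8_2, G3p8_3, G3p8_4, G3p8_5, G3p8_6,
  G3p8_9, G3p9_0, G3p9_1, G3p9_2, G3p9_3, G3p9_4, G3p9_5, G3p9_6]⟩)))) (.node 1372 (.node 1370
  (.node 1369 (.leaf ⟨2252972561, 1256720504144759231555,
  1583105322713609092730300507829600332564669196031293216654365179706725302275, 550042, [G3p2_0,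
  G3p2_1, G3p2_3, G3p3_0, G3p3_1, G3p4_5, G3p4_6, G3p5_6, G3p8_7, G3p9_7, G3p9_8]⟩) (.leaf
  ⟨642360417, 115740784454226231199844,
  906413276799302998641220373450163868907202848411466031557761201496142315523, 156826, [G3p2_0,
  G3p2_1, G3p2_3, G3p3_0, G3p3_1, G3p4_5, G3p4_6, G3p5_6, G3p7_0, G3p7_8, G3p7_9, G3p8_0, G3p8_9,
  G3p9_0]⟩)) (.node 1371 (.leaf ⟨2252444196, 1263860927201415566467,
  1584872196738745520349853901510484002228749132798592930096344350085182652529, 549913, [G3p1_0,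
  G3p1_4, G3p1_5, G3p1_6, G3p2_0, G3p2_1, G3p2_4, G3p2_5, G3p2_6, G3p3_0, G3p3_1, G3p3_2, G3p3_4,
  G3p3_5, G3p3_6, G3p4_5, G3p4_6, G3p5_6, G3p7_0, G3p8_0, G3p8_7, G3p9_0, G3p9_7, G3p9_8]⟩) (.leaf
  ⟨641836132, 115747924877247487451366,
  1104303167614582892031200465421964246737618667001011129925082074812473409648, 156698, [G3p0_4,
  G3p0_5, G3p0_6, G3p1_4, G3p1_5, G3p1_6, G3p2_1, G3p2_4, G3p2_5, G3p2_6, G3p3_1, G3p3_2, G3p3_4,
  G3p3_5, G3p3_6, G3p4_5, G3p4_6, G3p5_6, G3p7_0, G3p7_4, G3p7_5, G3p7_6, G3p7_8, G3p7_9, G3p8_0,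
  G3p8_4, G3p8_5, G3p8_6, G3p8_9, G3p9_0, G3p9_4, G3p9_5, G3p9_6]⟩))) (.node 1374 (.node 1373 (.leaf
  ⟨2252444184, 1256720724226366117066,
  1609608433090655601181564180296438538594768074365419424966369205906479972353, 549913, [G3p1_0,
  G3p2_0, G3p2_1, G3p3_0, G3p3_1, G3p3_2, G3p4_0, G3p4_1, G3p4_2, G3p4_3, G3p4_5, G3p4_6, G3p5_0,
  G3p5_1, G3p5_2, G3p5_3, G3p5_6, G3p6_0, G3p6_1, G3p6_2, G3p6_3, G3p7_0, G3p7_1, G3p7_2, G3p7_3,
  G3p8_0, G3p8_1, G3p8_2, G3p8_3, G3p8_7, G3p9_0, G3p9_1, G3p9_2, G3p9_3, G3p9_7, G3p9_8]⟩) (.leaf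
  ⟨641836568, 76740797510156546119915,
  931149513151213073195733134419196506800378403643855534620289659810140258304, 156698, [G3p2_1,
  G3p3_1, G3p3_2, G3p4_1, G3p4_2, G3p4_3, G3p4_5, G3p4_6, G3p5_1, G3p5_2, G3p5_3, G3p5_6, G3p6_1,
  G3p6_2, G3p6_3, G3p7_0, G3p7_1, G3p7_2, G3p7_3, G3p7_8, G3p7_9, G3p8_0, G3p8_1, G3p8_2, G3p8_3,
  G3p8_9, G3p9_0, G3p9_1, G3p9_2, G3p9_3]⟩)) (.node 1375 (.leaf ⟨2319552792, 7270359255936263098537,
  1584868719010528878048356884625540509425536768233669373240933736231595868161, 566297, [G3p1_0,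
  G3p2_0, G3p2_1, G3p3_0, G3p3_1, G3p3_2, G3p4_0, G3p4_1, G3p4_2, G3p4_3, G3p4_5, G3p4_6, G3p4_7,
  G3p4_8, G3p5_0, G3p5_1, G3p5_2, G3p5_3, G3p5_6, G3p5_7, G3p5_8, G3p6_0, G3p6_1, G3p6_2, G3p6_3,
  G3p6_7, G3p6_8, G3p7_8, G3p9_0, G3p9_7, G3p9_8]⟩) (.leaf ⟨2252939793, 1256720540292311290980,
  1583105322713609092730300507829555730393774900802294171050241564572456648705, 550034, [G3p1_0,
  G3p1_2, G3p1_3, G3p2_0, G3p2_3, G3p3_0, G3p4_5, G3p4_6, G3p5_6, G3p8_7, G3p9_7, G3p9_8]⟩))))))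
  (.node 1392 (.node 1384 (.node 1380 (.node 1378 (.node 1377 (.leaf ⟨642327649,
  115740784490338316224612,
  906413276799302998641220373450119266736308553182466985916743535255911202817, 156818, [G3p1_0,
  G3p1_2, G3p1_3, G3p2_0, G3p2_3, G3p3_0, G3p4_5, G3p4_6, G3p5_6, G3p7_0, G3p7_8, G3p7_9, G3p8_0,
  G3p8_9, G3p9_0]⟩) (.leaf ⟨2252415513, 1256720723907464795329,
  1604307811015246299491311445803021834184075989513039030548657760436958789645, 549906, [G3p1_0,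
  G3p1_2, G3p1_3, G3p3_2, G3p4_2, G3p4_3, G3p4_5, G3p4_6, G3p5_2, G3p5_3, G3p5_6, G3p6_2, G3p6_3,
  G3p7_2, G3p7_3, G3p8_2, G3p8_3, G3p8_7, G3p9_2, G3p9_3, G3p9_7, G3p9_8]⟩)) (.node 1379 (.leaf
  ⟨641803801, 76740797509812948736225,
  927615765100940205402231311423585370526609641893226333912198529139872628749, 156690, [G3p1_0,
  G3p1_2, G3p1_3, G3p3_2, G3p4_2, G3p4_3, G3p4_5, G3p4_6, G3p5_2, G3p5_3, G3p5_6, G3p6_2, G3p6_3,
  G3p7_0, G3p7_2, G3p7_3, G3p7_8, G3p7_9, G3p8_0, G3p8_2, G3p8_3, G3p8_9, G3p9_0, G3p9_2, G3p9_3]⟩)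
  (.leaf ⟨2319524121, 7270359255652862365857,
  1583101871945750474887181033666271129994303557382502315602609710105428230541, 566290, [G3p0_7,
  G3p0_8, G3p1_0, G3p1_2, G3p1_3, G3p1_7, G3p1_8, G3p3_2, G3p4_2, G3p4_3, G3p4_5, G3p4_6, G3p4_7,
  G3p4_8, G3p5_2, G3p5_3, G3p5_6, G3p5_7, G3p5_8, G3p6_2, G3p6_3, G3p6_7, G3p6_8, G3p7_8, G3p9_7,
  G3p9_8]⟩))) (.node 1382 (.node 1381 (.leaf ⟨642294881, 115740784425638928877668,
  906413276799302998641220373450253068144911703961143215718033337389957971975, 156810, [G3p1_2,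
  G3p3_0, G3p3_1, G3p3_2, G3p4_5, G3p4_6, G3p5_6, G3p7_0, G3p7_8, G3p7_9, G3p8_0, G3p8_9, G3p9_0]⟩)
  (.leaf ⟨2252907025, 1256720473322966619170,
  1583105322713609092730300507829689531802378051580970400740849213388616040455, 550026, [G3p1_2,
  G3p3_0, G3p3_1, G3p3_2, G3p4_5, G3p4_6, G3p5_6, G3p8_7, G3p9_7, G3p9_8]⟩)) (.node 1383 (.leaf
  ⟨2252481049, 1256720715146805253314,
  1597240314914700563904307799811799566740618200920106371957517154199768924169, 549922, [G3p1_0,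
  G3p1_3, G3p2_0, G3p2_1, G3p2_3, G3p4_3, G3p4_5, G3p4_6, G3p5_3, G3p5_6, G3p6_3, G3p7_3, G3p8_3,
  G3p8_7, G3p9_3, G3p9_7, G3p9_8]⟩) (.leaf ⟨641869337, 76740797499951703824610,
  920548269000394469815227665432363103083151853300288839617779464385983938569, 156706, [G3p1_0,
  G3p1_3, G3p2_0, G3p2_1, G3p2_3, G3p4_3, G3p4_5, G3p4_6, G3p5_3, G3p5_6, G3p6_3, G3p7_0, G3p7_3,
  G3p7_8, G3p7_9, G3p8_0, G3p8_3, G3p8_9, G3p9_0, G3p9_3]⟩)))) (.node 1388 (.node 1386 (.node 1385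
  (.leaf ⟨2221167176, 1254416912938616097859,
  1584872196738745827923337090961305413392243554624901398805384167412306477059, 542277, [G3p2_0,
  G3p2_1, G3p2_3, G3p3_0, G3p3_1, G3p4_0, G3p5_0, G3p5_4, G3p6_0, G3p6_4, G3p6_5, G3p7_0, G3p8_0,
  G3p8_7, G3p9_0, G3p9_7, G3p9_8]⟩) (.leaf ⟨610559048, 115734910634480952806470,
  909947024849576155176612832440656877260054066679169328719454338255654354946, 149062, [G3p0_1,
  G3p2_1, G3p2_3, G3p3_1, G3p5_4, G3p6_4, G3p6_5, G3p7_0, G3p7_1, G3p7_8, G3p7_9, G3p8_0, G3p8_1,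
  G3p8_9, G3p9_0, G3p9_1]⟩)) (.node 1387 (.leaf ⟨2224312930, 1256720785518805225735,
  1599007188939836997801058711309582833451767875596959422739169391817125265416, 543045, [G3p0_3,
  G3p1_3, G3p2_1, G3p2_3, G3p4_0, G3p4_3, G3p4_5, G3p4_6, G3p5_0, G3p5_3, G3p5_6, G3p6_0, G3p6_3,
  G3p7_0, G3p7_3, G3p8_0, G3p8_3, G3p8_7, G3p9_0, G3p9_3, G3p9_7, G3p9_8]⟩) (.leaf ⟨613704776,
  115741974530496483527750,
  909947024849575853880327160809232785057777466283336132464911757645825835010, 149830, [G3p0_1,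
  G3p2_1, G3p2_3, G3p2_4, G3p2_5, G3p2_6, G3p3_1, G3p3_4, G3p3_5, G3p3_6, G3p4_5, G3p4_6, G3p5_6,
  G3p7_0, G3p7_1, G3p7_8, G3p7_9, G3p8_0, G3p8_1, G3p8_9, G3p9_0, G3p9_1]⟩))) (.node 1390 (.node
  1389 (.leaf ⟨613721185, 115737214515963570000038,
  906413276799303092799183140742394753955918534849750597238878774500701175823, 149834, [G3p1_2,
  G3p1_3, G3p2_3, G3p4_0, G3p4_1, G3p4_2, G3p4_3, G3p4_5, G3p4_6, G3p5_0, G3p5_1, G3p5_2, G3p5_3,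
  G3p5_6, G3p6_0, G3p6_1, G3p6_2, G3p6_3, G3p7_0, G3p7_8, G3p7_9, G3p8_0, G3p8_9, G3p9_0]⟩) (.leaf
  ⟨613966916, 115738404558181173952742,
  931149513151212985314967884946385237715622071345375822370110985657136316430, 149894, [G3p0_1,
  G3p0_2, G3p0_3, G3p2_1, G3p3_1, G3p3_2, G3p4_5, G3p4_6, G3p5_6, G3p7_0, G3p7_1, G3p7_2, G3p7_3,
  G3p7_8, G3p7_9, G3p8_0, G3p8_1, G3p8_2, G3p8_3, G3p8_9, G3p9_0, G3p9_1, G3p9_2, G3p9_3]⟩)) (.node
  1391 (.leaf ⟨2221183560, 1254416949086169239652,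
  1584872196738745827923337090961260811221349259395902353201260552278037823489, 542281, [G3p1_0,
  G3p1_2, G3p1_3, G3p2_0, G3p2_3, G3p3_0, G3p4_0, G3p5_0, G3p5_4, G3p6_0, G3p6_4, G3p6_5, G3p7_0,
  G3p8_0, G3p8_7, G3p9_0, G3p9_7, G3p9_8]⟩) (.leaf ⟨610575432, 115734910670524318388326,
  906413276799303299937506045084018779426959588674321554440435835490720022528, 149066, [G3p1_2,
  G3p1_3, G3p2_3, G3p5_4, G3p6_4, G3p6_5, G3p7_0, G3p7_8, G3p7_9, G3p8_0, G3p8_9, G3p9_0]⟩)))))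
  (.node 1400 (.node 1396 (.node 1394 (.node 1393 (.leaf ⟨2224329288, 1262670921306557648996,
  1584872196738745526627051419329836719019654196248225057641113387257081954305, 543049, [G3p1_0,
  G3p1_2, G3p1_3, G3p1_4, G3p1_5, G3p1_6, G3p2_0, G3p2_3, G3p2_4, G3p2_5, G3p2_6, G3p3_0, G3p3_4,
  G3p3_5, G3p3_6, G3p4_0, G3p4_5, G3p4_6, G3p5_0, G3p5_6, G3p6_0, G3p7_0, G3p8_0, G3p8_7, G3p9_0,
  G3p9_7, G3p9_8]⟩) (.leaf ⟨613721160, 115743164642741381763174,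
  906413276799302998641220373452594687225264525526644258880288670469764153344, 149834, [G3p1_2,
  G3p1_3, G3p1_4, G3p1_5, G3p1_6, G3p2_3, G3p2_4, G3p2_5, G3p2_6, G3p3_4, G3p3_5, G3p3_6, G3p4_5,
  G3p4_6, G3p5_6, G3p7_0, G3p7_8, G3p7_9, G3p8_0, G3p8_9, G3p9_0]⟩)) (.node 1395 (.leaf ⟨2224333409,
  1256720794522231083174,
  1583105322713609186888263275121831217613384882469577784180189530198482288655, 543050, [G3p1_2,
  G3p1_3, G3p2_3, G3p4_0, G3p4_1, G3p4_2, G3p4_3, G3p4_5, G3p4_6, G3p5_0, G3p5_1, G3p5_2, G3p5_3,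
  G3p5_6, G3p6_0, G3p6_1, G3p6_2, G3p6_3, G3p8_7, G3p9_7, G3p9_8]⟩) (.leaf ⟨2224591428,
  1257910654978900492353,
  1584872196738745526627051419327405896618266423644087684586671801071636840461, 543113, [G3p1_0,
  G3p1_2, G3p1_3, G3p3_2, G3p4_0, G3p4_5, G3p4_6, G3p5_0, G3p5_6, G3p6_0, G3p7_0, G3p8_0, G3p8_7,
  G3p9_0, G3p9_7, G3p9_8]⟩))) (.node 1398 (.node 1397 (.leaf ⟨2221285961, 1254416878781884208259,
  1583105322713609394026586179463611346599346700786003291247122674132514242561, 542306, [G3p1_0,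
  G3p2_0, G3p2_1, G3p3_0, G3p3_1, G3p3_2, G3p5_4, G3p6_4, G3p6_5, G3p8_7, G3p9_7, G3p9_8]⟩) (.leaf
  ⟨610673737, 115734910600224293721219,
  906413276799303299937506045084174882941880353166176104047557501402799407105, 149090, [G3p1_0,
  G3p2_0, G3p2_1, G3p3_0, G3p3_1, G3p3_2, G3p5_4, G3p6_4, G3p6_5, G3p7_0, G3p7_8, G3p7_9, G3p8_0,
  G3p8_9, G3p9_0]⟩)) (.node 1399 (.leaf ⟨2224431689, 1263860927200584045699,
  1583105322713609092730300507832187254397651637638325995686975509111558373489, 543074, [G3p1_0,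
  G3p1_4, G3p1_5, G3p1_6, G3p2_0, G3p2_1, G3p2_4, G3p2_5, G3p2_6, G3p3_0, G3p3_1, G3p3_2, G3p3_4,
  G3p3_5, G3p3_6, G3p4_5, G3p4_6, G3p5_6, G3p8_7, G3p9_7, G3p9_8]⟩) (.leaf ⟨613819465,
  115744354648642889749635,
  906413276799302998641220373452750790740185290018498808487410336381843538033, 149858, [G3p1_0,
  G3p1_4, G3p1_5, G3p1_6, G3p2_0, G3p2_1, G3p2_4, G3p2_5, G3p2_6, G3p3_0, G3p3_1, G3p3_2, G3p3_4,
  G3p3_5, G3p3_6, G3p4_5, G3p4_6, G3p5_6, G3p7_0, G3p7_8, G3p7_9, G3p8_0, G3p8_9, G3p9_0]⟩))))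
  (.node 1404 (.node 1402 (.node 1401 (.leaf ⟨613983300, 115738404557837576569062,
  927615765100940130075861097589747139882527593340528048091092482883612049420, 149898, [G3p0_2,
  G3p0_3, G3p1_2, G3p1_3, G3p3_2, G3p4_5, G3p4_6, G3p5_6, G3p7_0, G3p7_2, G3p7_3, G3p7_8, G3p7_9,
  G3p8_0, G3p8_2, G3p8_3, G3p8_9, G3p9_0, G3p9_2, G3p9_3]⟩) (.leaf ⟨2224431713,
  1256720687907284816041,
  1583105322713609186888263275121987321128305646961432333787311196110561673217, 543074, [G3p1_0,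
  G3p2_0, G3p2_1, G3p3_0, G3p3_1, G3p3_2, G3p4_0, G3p4_1, G3p4_2, G3p4_3, G3p4_5, G3p4_6, G3p5_0,
  G3p5_1, G3p5_2, G3p5_3, G3p5_6, G3p6_0, G3p6_1, G3p6_2, G3p6_3, G3p8_7, G3p9_7, G3p9_8]⟩)) (.node
  1403 (.leaf ⟨613819489, 115737214409348523069609,
  906413276799303092799183140742550857470839299341605146846000440412780560385, 149858, [G3p1_0,
  G3p2_0, G3p2_1, G3p3_0, G3p3_1, G3p3_2, G3p4_0, G3p4_1, G3p4_2, G3p4_3, G3p4_5, G3p4_6, G3p5_0,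
  G3p5_1, G3p5_2, G3p5_3, G3p5_6, G3p6_0, G3p6_1, G3p6_2, G3p6_3, G3p7_0, G3p7_8, G3p7_9, G3p8_0,
  G3p8_9, G3p9_0]⟩) (.leaf ⟨2224181828, 1257910652814236975232,
  1584872196738745526627051419327316696359726044222170714592949536531888996367, 543013, [G3p1_2,
  G3p1_3, G3p2_3, G3p4_0, G3p4_5, G3p4_6, G3p5_0, G3p5_6, G3p6_0, G3p7_0, G3p8_0, G3p8_7, G3p9_0,
  G3p9_7, G3p9_8]⟩))) (.node 1406 (.node 1405 (.leaf ⟨613573700, 115738404592162955198790,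
  931149513151212985314967884946251435286187396694459806772265105974529884174, 149798, [G3p0_1,
  G3p0_2, G3p0_3, G3p1_2, G3p1_3, G3p2_3, G3p4_5, G3p4_6, G3p5_6, G3p7_0, G3p7_1, G3p7_2, G3p7_3,
  G3p7_8, G3p7_9, G3p8_0, G3p8_1, G3p8_2, G3p8_3, G3p8_9, G3p9_0, G3p9_1, G3p9_2, G3p9_3]⟩) (.leaf
  ⟨2220986948, 1254416878785036160131,
  1584872196738745827923337090961394613650783934046818368799106431900513730561, 542233, [G3p1_0,
  G3p2_0, G3p2_1, G3p3_0, G3p3_1, G3p3_2, G3p4_0, G3p5_0, G3p5_4, G3p6_0, G3p6_4, G3p6_5, G3p7_0,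
  G3p8_0, G3p8_7, G3p9_0, G3p9_7, G3p9_8]⟩)) (.node 1407 (.leaf ⟨2224132676, 1257910546195968819331,
  1584872196738745526627051419327472799874646808714025264200071202443968380929, 543001, [G3p1_0,
  G3p2_0, G3p2_1, G3p3_0, G3p3_1, G3p3_2, G3p4_0, G3p4_5, G3p4_6, G3p5_0, G3p5_6, G3p6_0, G3p7_0,
  G3p8_0, G3p8_7, G3p9_0, G3p9_7, G3p9_8]⟩) (.leaf ⟨613524548, 115738404267635226312934,
  906413276799302998641220373450230768080257137992444465439246485656650645504, 149786, [G3p2_1,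
  G3p3_1, G3p3_2, G3p4_5, G3p4_6, G3p5_6, G3p7_0, G3p7_8, G3p7_9, G3p8_0, G3p8_9, G3p9_0]⟩))))))

def G3T23 : Tr :=
  .node 1440 (.node 1424 (.node 1416 (.node 1412 (.node 1410 (.node 1409 (.leaf ⟨610378820,
  115734910600224293653734,
  906413276799303299937506045084152581856394263325237570038281715113195995136, 149018, [G3p2_1,
  G3p3_1, G3p3_2, G3p5_4, G3p6_4, G3p6_5, G3p7_0, G3p7_8, G3p7_9, G3p8_0, G3p8_9, G3p9_0]⟩) (.leaf
  ⟨2221036100, 1254416985403304316032,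
  1584872196738745827923337090961238510135863169554963819191984765988434345999, 542245, [G3p1_2,
  G3p1_3, G3p2_3, G3p4_0, G3p5_0, G3p5_4, G3p6_0, G3p6_4, G3p6_5, G3p7_0, G3p8_0, G3p8_7, G3p9_0,
  G3p9_7, G3p9_8]⟩)) (.node 1411 (.leaf ⟨610427972, 115734910924752022539590,
  931149513151213286611253556580173249062324522027252911371300335431075233806, 149030, [G3p0_1,
  G3p0_2, G3p0_3, G3p1_2, G3p1_3, G3p2_3, G3p5_4, G3p6_4, G3p6_5, G3p7_0, G3p7_1, G3p7_2, G3p7_3,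
  G3p7_8, G3p7_9, G3p8_0, G3p8_1, G3p8_2, G3p8_3, G3p8_9, G3p9_0, G3p9_1, G3p9_2, G3p9_3]⟩) (.leaf
  ⟨2224104009, 1261480883578233654337,
  1583105322713609092730300507829622629567410727631428507729083458840977735805, 542994, [G3p1_0,
  G3p1_2, G3p1_3, G3p1_4, G3p1_5, G3p1_6, G3p3_2, G3p4_5, G3p4_6, G3p5_6, G3p8_7, G3p9_7,
  G3p9_8]⟩))) (.node 1414 (.node 1413 (.leaf ⟨613491785, 115741974605022756047937,
  906413276799302998641220373450186165909944380011601320529518286111262900349, 149778, [G3p1_0,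
  G3p1_2, G3p1_3, G3p1_4, G3p1_5, G3p1_6, G3p3_2, G3p4_5, G3p4_6, G3p5_6, G3p7_0, G3p7_8, G3p7_9,
  G3p8_0, G3p8_9, G3p9_0]⟩) (.leaf ⟨2220958281, 1254416987562599124033,
  1583105322713609394026586179463544443342966315716065711633723272708643094541, 542226, [G3p1_0,
  G3p1_2, G3p1_3, G3p3_2, G3p5_4, G3p6_4, G3p6_5, G3p8_7, G3p9_7, G3p9_8]⟩)) (.node 1415 (.leaf
  ⟨610346057, 115734910709007225326657,
  906413276799303299937506045084107979685499968096238524434158099978928259085, 149010, [G3p1_0,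
  G3p1_2, G3p1_3, G3p3_2, G3p5_4, G3p6_4, G3p6_5, G3p7_0, G3p7_8, G3p7_9, G3p8_0, G3p8_9, G3p9_0]⟩)
  (.leaf ⟨2221023817, 1254417018384392818786,
  1583105322713609394026586179463455244105257460166388527547239239026752356361, 542242, [G3p1_0,
  G3p1_3, G3p2_0, G3p2_1, G3p2_3, G3p5_4, G3p6_4, G3p6_5, G3p8_7, G3p9_7, G3p9_8]⟩)))) (.node 1420
  (.node 1418 (.node 1417 (.leaf ⟨610411593, 115734910739827910676578,
  906413276799303299937506045084018780447791112546561340347674066297037520905, 149026, [G3p1_0,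
  G3p1_3, G3p2_0, G3p2_1, G3p2_3, G3p5_4, G3p6_4, G3p6_5, G3p7_0, G3p7_8, G3p7_9, G3p8_0, G3p8_9,
  G3p9_0]⟩) (.leaf ⟨2224169545, 1262670990601560002658,
  1583105322713609092730300507829533468441326967226859231540555457517126680697, 543010, [G3p1_0,
  G3p1_3, G3p1_4, G3p1_5, G3p1_6, G3p2_0, G3p2_1, G3p2_3, G3p2_4, G3p2_5, G3p2_6, G3p4_5, G3p4_6,
  G3p5_6, G3p8_7, G3p9_7, G3p9_8]⟩)) (.node 1419 (.leaf ⟨613557321, 115743164712044974051426,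
  906413276799302998641220373450097004783860619607032044340990284787411845241, 149794, [G3p1_0,
  G3p1_3, G3p1_4, G3p1_5, G3p1_6, G3p2_0, G3p2_1, G3p2_3, G3p2_4, G3p2_5, G3p2_6, G3p4_5, G3p4_6,
  G3p5_6, G3p7_0, G3p7_8, G3p7_9, G3p8_0, G3p8_9, G3p9_0]⟩) (.leaf ⟨2219070050,
  1254526371414888450278,
  1599007188939837299094949892275439354497487202384581321713323304967784103944, 541765, [G3p0_3,
  G3p1_3, G3p2_1, G3p2_3, G3p4_5, G3p6_0, G3p6_3, G3p6_4, G3p6_5, G3p7_0, G3p7_3, G3p8_0, G3p8_3,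
  G3p8_7, G3p9_0, G3p9_3, G3p9_7, G3p9_8]⟩))) (.node 1422 (.node 1421 (.leaf ⟨608461976,
  232727726149158397084745,
  909947024849576054741454024907027911277468560995764914600033117237118369794, 148550, [G3p0_1,
  G3p2_1, G3p2_3, G3p3_1, G3p4_0, G3p4_1, G3p4_5, G3p4_6, G3p4_7, G3p4_8, G3p4_9, G3p6_5, G3p7_0,
  G3p7_1, G3p7_8, G3p7_9, G3p8_0, G3p8_1, G3p8_9, G3p9_0, G3p9_1]⟩) (.leaf ⟨2219090529,
  1254526342965092190308,
  1583105322713609488181579761490853206351802319899909320912788298242727018511, 541770, [G3p1_2,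
  G3p1_3, G3p2_3, G3p4_5, G3p6_0, G3p6_1, G3p6_2, G3p6_3, G3p6_4, G3p6_5, G3p8_7, G3p9_7, G3p9_8]⟩))
  (.node 1423 (.leaf ⟨608478305, 115735020064406499264612,
  906413276799303394092499627111416742694335972280082134856921258083004383247, 148554, [G3p1_2,
  G3p1_3, G3p2_3, G3p4_5, G3p6_0, G3p6_1, G3p6_2, G3p6_3, G3p6_4, G3p6_5, G3p7_0, G3p7_8, G3p7_9,
  G3p8_0, G3p8_9, G3p9_0]⟩) (.leaf ⟨2219188833, 1254526236350145923175,
  1583105322713609488181579761491009309866723084391763870519909964154806403073, 541794, [G3p1_0,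
  G3p2_0, G3p2_1, G3p3_0, G3p3_1, G3p3_2, G3p4_5, G3p6_0, G3p6_1, G3p6_2, G3p6_3, G3p6_4, G3p6_5,
  G3p8_7, G3p9_7, G3p9_8]⟩))))) (.node 1432 (.node 1428 (.node 1426 (.node 1425 (.leaf ⟨608576609,
  115735019957791452334183,
  906413276799303394092499627111572846209256736771936684464042923995083767809, 148578, [G3p1_0,
  G3p2_0, G3p2_1, G3p3_0, G3p3_1, G3p3_2, G3p4_5, G3p6_0, G3p6_1, G3p6_2, G3p6_3, G3p6_4, G3p6_5,
  G3p7_0, G3p7_8, G3p7_9, G3p8_0, G3p8_9, G3p9_0]⟩) (.leaf ⟨2218943640, 196240066661525572617286,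
  1583105322713609293591427389467845925072675450165257943542332905461524594702, 541734, [G3p0_1,
  G3p0_2, G3p0_3, G3p1_2, G3p1_3, G3p2_3, G3p4_0, G3p4_1, G3p4_2, G3p4_3, G3p4_5, G3p4_6, G3p4_7,
  G3p4_8, G3p4_9, G3p6_5, G3p8_7, G3p9_7, G3p9_8]⟩)) (.node 1427 (.leaf ⟨608330904,
  232727726548281117967433,
  931149513151213186176094766584563931050574034788066489847278728034990817294, 148518, [G3p0_1,
  G3p0_2, G3p0_3, G3p1_2, G3p1_3, G3p2_3, G3p4_0, G3p4_1, G3p4_2, G3p4_3, G3p4_5, G3p4_6, G3p4_7,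
  G3p4_8, G3p4_9, G3p6_5, G3p7_0, G3p7_1, G3p7_2, G3p7_3, G3p7_8, G3p7_9, G3p8_0, G3p8_1, G3p8_2,
  G3p8_3, G3p8_9, G3p9_0, G3p9_1, G3p9_2, G3p9_3]⟩) (.leaf ⟨2218894488, 196240066445952574096454,
  1583105322713609293591427389467979727502110123706962758720745096284331704320, 541722, [G3p2_1,
  G3p3_1, G3p3_2, G3p4_0, G3p4_1, G3p4_2, G3p4_3, G3p4_5, G3p4_6, G3p4_7, G3p4_8, G3p4_9, G3p6_5,
  G3p8_7, G3p9_7, G3p9_8]⟩))) (.node 1430 (.node 1429 (.leaf ⟨608281752, 232727726223753389081673,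
  906413276799303199502347255088543263844643776086051148514256167067437629440, 148506, [G3p2_1,
  G3p3_1, G3p3_2, G3p4_0, G3p4_1, G3p4_2, G3p4_3, G3p4_5, G3p4_6, G3p4_7, G3p4_8, G3p4_9, G3p6_5,
  G3p7_0, G3p7_8, G3p7_9, G3p8_0, G3p8_9, G3p9_0]⟩) (.leaf ⟨2218861721, 196240066445780775404609,
  1583105322713609293591427386544931850669409992070594047684055441829608030221, 541714, [G3p1_0,
  G3p1_2, G3p1_3, G3p3_2, G3p4_0, G3p4_2, G3p4_3, G3p4_5, G3p4_6, G3p4_7, G3p4_8, G3p4_9, G3p6_5,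
  G3p8_7, G3p9_7, G3p9_8]⟩)) (.node 1431 (.leaf ⟨608248985, 232727726223581590389825,
  906413276799303199502347252165495387011943644449682437477566512612713955341, 148498, [G3p1_0,
  G3p1_2, G3p1_3, G3p3_2, G3p4_0, G3p4_2, G3p4_3, G3p4_5, G3p4_6, G3p4_7, G3p4_8, G3p4_9, G3p6_5,
  G3p7_0, G3p7_8, G3p7_9, G3p8_0, G3p8_9, G3p9_0]⟩) (.leaf ⟨2218889828, 1254637555164560528515,
  1584872196738745827921708859756845816100100967009750611941536383818814980145, 541721, [G3p1_0,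
  G3p1_4, G3p1_5, G3p2_0, G3p2_1, G3p2_4, G3p2_5, G3p3_0, G3p3_1, G3p3_2, G3p3_4, G3p3_5, G3p4_5,
  G3p6_0, G3p6_4, G3p6_5, G3p7_0, G3p8_0, G3p8_7, G3p9_0, G3p9_7, G3p9_8]⟩)))) (.node 1436 (.node
  1434 (.node 1433 (.leaf ⟨2218927257, 196240066476601460720738,
  1583105322713609293591427380698836102108089463706177532732439329506807250953, 541730, [G3p1_0,
  G3p1_3, G3p2_0, G3p2_1, G3p2_3, G3p4_0, G3p4_3, G3p4_5, G3p4_6, G3p4_7, G3p4_8, G3p4_9, G3p6_5,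
  G3p8_7, G3p9_7, G3p9_8]⟩) (.leaf ⟨608314521, 232727726254402275705954,
  906413276799303199502347246319399638450623116085265922525950400289913176073, 148514, [G3p1_0,
  G3p1_3, G3p2_0, G3p2_1, G3p2_3, G3p4_0, G3p4_3, G3p4_5, G3p4_6, G3p4_7, G3p4_8, G3p4_9, G3p6_5,
  G3p7_0, G3p7_8, G3p7_9, G3p8_0, G3p8_9, G3p9_0]⟩)) (.node 1435 (.leaf ⟨2218938980,
  1254637661782828684416,
  1584872196738745827921708859756689712585180202517896062334414717906735595583, 541733, [G3p1_2,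
  G3p1_3, G3p1_4, G3p1_5, G3p2_3, G3p2_4, G3p2_5, G3p3_4, G3p3_5, G3p4_5, G3p6_0, G3p6_4, G3p6_5,
  G3p7_0, G3p8_0, G3p8_7, G3p9_0, G3p9_7, G3p9_8]⟩) (.leaf ⟨608330852, 115735354529315318443334,
  1015959466357761812348284004366674102788871641378831533888382049428815478846, 148518, [G3p0_1,
  G3p0_2, G3p0_3, G3p0_4, G3p0_5, G3p1_2, G3p1_3, G3p1_4, G3p1_5, G3p2_3, G3p2_4, G3p2_5, G3p3_4,
  G3p3_5, G3p4_5, G3p6_4, G3p6_5, G3p7_0, G3p7_1, G3p7_2, G3p7_3, G3p7_4, G3p7_5, G3p7_8, G3p7_9,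
  G3p8_0, G3p8_1, G3p8_2, G3p8_3, G3p8_4, G3p8_5, G3p8_9, G3p9_0, G3p9_1, G3p9_2, G3p9_3, G3p9_4,
  G3p9_5]⟩))) (.node 1438 (.node 1437 (.leaf ⟨608281700, 115735242740696812134630,
  991223230005851825674536492870653435582941382676816192555363429110936240176, 148506, [G3p0_4,
  G3p0_5, G3p1_4, G3p1_5, G3p2_1, G3p2_4, G3p2_5, G3p3_1, G3p3_2, G3p3_4, G3p3_5, G3p4_5, G3p6_4,
  G3p6_5, G3p7_0, G3p7_4, G3p7_5, G3p7_8, G3p7_9, G3p8_0, G3p8_4, G3p8_5, G3p8_9, G3p9_0, G3p9_4,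
  G3p9_5]⟩) (.leaf ⟨2249478690, 1254417159123924815078,
  1599007188939837292820146865124018128007565262829204384195587453164813025288, 549189, [G3p0_3,
  G3p1_3, G3p2_1, G3p2_3, G3p4_3, G3p5_3, G3p5_4, G3p6_3, G3p6_4, G3p6_5, G3p7_0, G3p7_3, G3p8_0,
  G3p8_3, G3p8_7, G3p9_0, G3p9_3, G3p9_7, G3p9_8]⟩)) (.node 1439 (.leaf ⟨638887009,
  115737291113476552430791,
  906413276799303394095468812376316567732055660182543703903980865891144237071, 155978, [G3p1_2,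
  G3p1_3, G3p2_3, G3p4_0, G3p4_1, G3p4_2, G3p4_3, G3p5_0, G3p5_1, G3p5_2, G3p5_3, G3p5_4, G3p6_0,
  G3p6_1, G3p6_2, G3p6_3, G3p6_4, G3p6_5, G3p7_0, G3p7_8, G3p7_9, G3p8_0, G3p8_9, G3p9_0]⟩) (.leaf
  ⟨639132740, 115737291043173306499302,
  931149513151213286611253556580307051491759196678168929035213077047579377678, 156038, [G3p0_1,
  G3p0_2, G3p0_3, G3p2_1, G3p3_1, G3p3_2, G3p5_4, G3p6_4, G3p6_5, G3p7_0, G3p7_1, G3p7_2, G3p7_3,
  G3p7_8, G3p7_9, G3p8_0, G3p8_1, G3p8_2, G3p8_3, G3p8_9, G3p9_0, G3p9_1, G3p9_2, G3p9_3]⟩))))))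
  (.node 1456 (.node 1448 (.node 1444 (.node 1442 (.node 1441 (.leaf ⟨2249499169,
  1254417166993479306373,
  1583105322713609488184548946755753031389522007802370888779220538011413315599, 549194, [G3p1_2,
  G3p1_3, G3p2_3, G3p4_0, G3p4_1, G3p4_2, G3p4_3, G3p5_0, G3p5_1, G3p5_2, G3p5_3, G3p5_4, G3p6_0,
  G3p6_1, G3p6_2, G3p6_3, G3p6_4, G3p6_5, G3p8_7, G3p9_7, G3p9_8]⟩) (.leaf ⟨2249757220,
  1254416987565751143489,
  1584872196738745821646139573141841191174063810876332646043092113682267373581, 549257, [G3p1_0,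
  G3p1_2, G3p1_3, G3p3_2, G3p5_4, G3p6_4, G3p6_5, G3p7_0, G3p8_0, G3p8_7, G3p9_0, G3p9_7, G3p9_8]⟩))
  (.node 1443 (.leaf ⟨639149124, 115737291042829709115622,
  927615765100940431372146769223668953658664718673321154756194574274055110668, 156042, [G3p0_2,
  G3p0_3, G3p1_2, G3p1_3, G3p3_2, G3p5_4, G3p6_4, G3p6_5, G3p7_0, G3p7_2, G3p7_3, G3p7_8, G3p7_9,
  G3p8_0, G3p8_2, G3p8_3, G3p8_9, G3p9_0, G3p9_2, G3p9_3]⟩) (.leaf ⟨2249597473,
  1254417060378533039240,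
  1583105322713609488184548946755909134904442772294225438386342203923492700161, 549218, [G3p1_0,
  G3p2_0, G3p2_1, G3p3_0, G3p3_1, G3p3_2, G3p4_0, G3p4_1, G3p4_2, G3p4_3, G3p5_0, G3p5_1, G3p5_2,
  G3p5_3, G3p5_4, G3p6_0, G3p6_1, G3p6_2, G3p6_3, G3p6_4, G3p6_5, G3p8_7, G3p9_7, G3p9_8]⟩))) (.node
  1446 (.node 1445 (.leaf ⟨638985313, 115737291006861505500362,
  906413276799303394095468812376472671246976424674398253511102531803223621633, 156002, [G3p1_0,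
  G3p2_0, G3p2_1, G3p3_0, G3p3_1, G3p3_2, G3p4_0, G3p4_1, G3p4_2, G3p4_3, G3p5_0, G3p5_1, G3p5_2,
  G3p5_3, G3p5_4, G3p6_0, G3p6_1, G3p6_2, G3p6_3, G3p6_4, G3p6_5, G3p7_0, G3p7_8, G3p7_9, G3p8_0,
  G3p8_9, G3p9_0]⟩) (.leaf ⟨2249347620, 1254416985401087693952,
  1584872196738745821646139573141751990915523431454415676049369849194059137039, 549157, [G3p1_2,
  G3p1_3, G3p2_3, G3p5_4, G3p6_4, G3p6_5, G3p7_0, G3p8_0, G3p8_7, G3p9_0, G3p9_7, G3p9_8]⟩)) (.node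
  1447 (.leaf ⟨638739524, 115737291077155087745350,
  931149513151213286611253556580173249062324522027252913437367197364972945422, 155942, [G3p0_1,
  G3p0_2, G3p0_3, G3p1_2, G3p1_3, G3p2_3, G3p5_4, G3p6_4, G3p6_5, G3p7_0, G3p7_1, G3p7_2, G3p7_3,
  G3p7_8, G3p7_9, G3p8_0, G3p8_1, G3p8_2, G3p8_3, G3p8_9, G3p9_0, G3p9_1, G3p9_2, G3p9_3]⟩) (.leaf
  ⟨2249298468, 1254416878782819538051,
  1584872196738745821646139573141908094430444195946270225656491515106138521601, 549145, [G3p1_0,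
  G3p2_0, G3p2_1, G3p3_0, G3p3_1, G3p3_2, G3p5_4, G3p6_4, G3p6_5, G3p7_0, G3p8_0, G3p8_7, G3p9_0,
  G3p9_7, G3p9_8]⟩)))) (.node 1452 (.node 1450 (.node 1449 (.leaf ⟨638690372,
  115737290752627358859494,
  906413276799303299937506045084152581856394263325237572104348577047093706752, 155930, [G3p2_1,
  G3p3_1, G3p3_2, G3p5_4, G3p6_4, G3p6_5, G3p7_0, G3p7_8, G3p7_9, G3p8_0, G3p8_9, G3p9_0]⟩) (.leaf
  ⟨2219418209, 1254526125261789890660,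
  1583105322713609412856358936850750943578709626477849907297918988346923876355, 541850, [G3p2_0,
  G3p2_1, G3p2_3, G3p3_0, G3p3_1, G3p4_5, G3p6_0, G3p6_1, G3p6_4, G3p6_5, G3p8_7, G3p9_7, G3p9_8]⟩))
  (.node 1451 (.leaf ⟨608805985, 115735019846703196964964,
  906413276799303318767278802471314479921243278858022721020691019302686621699, 148634, [G3p2_0,
  G3p2_1, G3p2_3, G3p3_0, G3p3_1, G3p4_5, G3p6_0, G3p6_1, G3p6_4, G3p6_5, G3p7_0, G3p7_8, G3p7_9,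
  G3p8_0, G3p8_9, G3p9_0]⟩) (.leaf ⟨2249269833, 1260367368570262391873,
  1583105322713609394026586179463544443343547852964221612328150213975951016061, 549138, [G3p1_0,
  G3p1_2, G3p1_3, G3p1_4, G3p1_5, G3p1_6, G3p3_2, G3p5_4, G3p6_4, G3p6_5, G3p8_7, G3p9_7,
  G3p9_8]⟩))) (.node 1454 (.node 1453 (.leaf ⟨638657609, 115740861090014888594497,
  906413276799303299937506045084107979686081505344394427194620377501705961597, 155922, [G3p1_0,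
  G3p1_2, G3p1_3, G3p1_4, G3p1_5, G3p1_6, G3p3_2, G3p5_4, G3p6_4, G3p6_5, G3p7_0, G3p7_8, G3p7_9,
  G3p8_0, G3p8_9, G3p9_0]⟩) (.leaf ⟨2219385441, 1254526161373874915428,
  1583105322713609400302155466077344813736236484833518029489083921326042841089, 541842, [G3p1_0,
  G3p1_2, G3p1_3, G3p2_0, G3p2_3, G3p3_0, G3p4_5, G3p6_0, G3p6_4, G3p6_5, G3p8_7, G3p9_7, G3p9_8]⟩))
  (.node 1455 (.leaf ⟨608773217, 115735019882815281989732,
  906413276799303306213075331697908350078770137213690843174962464134386483201, 148626, [G3p1_0,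
  G3p1_2, G3p1_3, G3p2_0, G3p2_3, G3p3_0, G3p4_5, G3p6_0, G3p6_4, G3p6_5, G3p7_0, G3p7_8, G3p7_9,
  G3p8_0, G3p8_9, G3p9_0]⟩) (.leaf ⟨608740449, 115735019818115894642788,
  906413276799303343875685744018126734502109827238365569590384933052640329735, 148618, [G3p1_2,
  G3p3_0, G3p3_1, G3p3_2, G3p4_5, G3p6_0, G3p6_1, G3p6_2, G3p6_4, G3p6_5, G3p7_0, G3p7_8, G3p7_9,
  G3p8_0, G3p8_9, G3p9_0]⟩))))) (.node 1464 (.node 1460 (.node 1458 (.node 1457 (.leaf ⟨2219352673,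
  1254526096674487568484,
  1583105322713609437964765878397563198159576174858192755793825925802039377927, 541834, [G3p1_2,
  G3p3_0, G3p3_1, G3p3_2, G3p4_5, G3p6_0, G3p6_1, G3p6_2, G3p6_4, G3p6_5, G3p8_7, G3p9_7, G3p9_8]⟩)
  (.leaf ⟨2219074712, 196240066371254502884422,
  1583105322713609293591427371929870879272739918296145073876317081912532402178, 541766, [G3p0_1,
  G3p2_1, G3p2_3, G3p3_1, G3p4_0, G3p4_1, G3p4_5, G3p4_6, G3p4_7, G3p4_8, G3p4_9, G3p6_5, G3p8_7,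
  G3p9_7, G3p9_8]⟩)) (.node 1459 (.leaf ⟨2219091089, 196240066479934355342337,
  1583105322713609293591427369006823002440034594204459085094936941418735665167, 541770, [G3p1_2,
  G3p1_3, G3p2_3, G3p4_0, G3p4_5, G3p4_6, G3p4_7, G3p4_8, G3p4_9, G3p6_5, G3p8_7, G3p9_7, G3p9_8]⟩)
  (.leaf ⟨608478353, 232727726257735170327553,
  906413276799303199502347234627386538782568246583547474888448012201841590287, 148554, [G3p1_2,
  G3p1_3, G3p2_3, G3p4_0, G3p4_5, G3p4_6, G3p4_7, G3p4_8, G3p4_9, G3p6_5, G3p7_0, G3p7_8, G3p7_9,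
  G3p8_0, G3p8_9, G3p9_0]⟩))) (.node 1462 (.node 1461 (.leaf ⟨2219189393, 196240066373316087186436,
  1583105322713609293591427369006979105954955358696313634702058607330815049729, 541794, [G3p1_0,
  G3p2_0, G3p2_1, G3p3_0, G3p3_1, G3p3_2, G3p4_0, G3p4_5, G3p4_6, G3p4_7, G3p4_8, G3p4_9, G3p6_5,
  G3p8_7, G3p9_7, G3p9_8]⟩) (.leaf ⟨608576657, 232727726151116902171652,
  906413276799303199502347234627542642297489011075402024495569678113920974849, 148578, [G3p1_0,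
  G3p2_0, G3p2_1, G3p3_0, G3p3_1, G3p3_2, G3p4_0, G3p4_5, G3p4_6, G3p4_7, G3p4_8, G3p4_9, G3p6_5,
  G3p7_0, G3p7_8, G3p7_9, G3p8_0, G3p8_9, G3p9_0]⟩)) (.node 1463 (.leaf ⟨2286195096,
  4837838848789084996708,
  1754486037229251469947669386393428240242716118304628633626189996134336888833, 558153, [G3p1_0,
  G3p1_2, G3p1_3, G3p2_0, G3p2_3, G3p3_0, G3p4_0, G3p4_5, G3p4_6, G3p6_5, G3p7_8, G3p9_0, G3p9_5,
  G3p9_6, G3p9_7, G3p9_8]⟩) (.leaf ⟨2224312904, 1261480808957471853635,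
  1584872196738745526627051419329881321189966954229068202550841586802477957123, 543045, [G3p2_0,
  G3p2_1, G3p2_3, G3p2_4, G3p2_5, G3p2_6, G3p3_0, G3p3_1, G3p3_4, G3p3_5, G3p3_6, G3p4_0, G3p4_5,
  G3p4_6, G3p5_0, G3p5_6, G3p6_0, G3p7_0, G3p8_0, G3p8_7, G3p9_0, G3p9_7, G3p9_8]⟩)))) (.node 1468
  (.node 1466 (.node 1465 (.leaf ⟨2290373010, 4841118699702460814467,
  1712081707674570045178077143476566886863052067005351360084868143341487259720, 559173, [G3p0_3,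
  G3p0_6, G3p1_3, G3p1_6, G3p2_1, G3p2_3, G3p2_6, G3p4_6, G3p5_4, G3p5_6, G3p7_8, G3p9_0, G3p9_3,
  G3p9_6, G3p9_7, G3p9_8]⟩) (.leaf ⟨2223269016, 235237493275328400951399,
  1583105322713609092817941363694765616459386351856664654852548822775502077954, 542790, [G3p0_1,
  G3p2_1, G3p2_3, G3p3_1, G3p4_0, G3p4_1, G3p4_6, G3p4_7, G3p4_8, G3p4_9, G3p5_0, G3p5_1, G3p5_4,
  G3p5_6, G3p5_7, G3p5_8, G3p5_9, G3p8_7, G3p9_7, G3p9_8]⟩)) (.node 1467 (.leaf ⟨612656280,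
  271725153053232295151722,
  909947024849575853967968016671922648464114994556284495576264858100088045570, 149574, [G3p0_1,
  G3p2_1, G3p2_3, G3p3_1, G3p4_0, G3p4_1, G3p4_6, G3p4_7, G3p4_8, G3p4_9, G3p5_0, G3p5_1, G3p5_4,
  G3p5_6, G3p5_7, G3p5_8, G3p5_9, G3p7_0, G3p7_1, G3p7_8, G3p7_9, G3p8_0, G3p8_1, G3p8_9, G3p9_0,
  G3p9_1]⟩) (.leaf ⟨2290389400, 4837659830703897020516,
  1697946931156342970541506545903451572747520840266278618795405126831091810305, 559177, [G3p1_0,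
  G3p1_2, G3p1_3, G3p2_0, G3p2_3, G3p3_0, G3p4_0, G3p4_6, G3p5_0, G3p5_4, G3p5_6, G3p7_8, G3p9_0,
  G3p9_6, G3p9_7, G3p9_8]⟩))) (.node 1470 (.node 1469 (.leaf ⟨2223285393, 235237493383973893670913,
  1583105322713609092817749798829109503519386234386584877423216339891430293519, 542794, [G3p1_2,
  G3p1_3, G3p2_3, G3p4_0, G3p4_6, G3p4_7, G3p4_8, G3p4_9, G3p5_0, G3p5_4, G3p5_6, G3p5_7, G3p5_8,
  G3p5_9, G3p8_7, G3p9_7, G3p9_8]⟩) (.leaf ⟨612672657, 271725153161774708656129,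
  906413276799302998728669664449673039861919886765673267216727410674536218639, 149578, [G3p1_2,
  G3p1_3, G3p2_3, G3p4_0, G3p4_6, G3p4_7, G3p4_8, G3p4_9, G3p5_0, G3p5_4, G3p5_6, G3p5_7, G3p5_8,
  G3p5_9, G3p7_0, G3p7_8, G3p7_9, G3p8_0, G3p8_9, G3p9_0]⟩)) (.node 1471 (.leaf ⟨612770961,
  271725153055156440500228,
  906413276799302998728669664449829143376840651257527816823849076586615603201, 149602, [G3p1_0,
  G3p2_0, G3p2_1, G3p3_0, G3p3_1, G3p3_2, G3p4_0, G3p4_6, G3p4_7, G3p4_8, G3p4_9, G3p5_0, G3p5_4,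
  G3p5_6, G3p5_7, G3p5_8, G3p5_9, G3p7_0, G3p7_8, G3p7_9, G3p8_0, G3p8_9, G3p9_0]⟩) (.leaf
  ⟨2290491793, 10930849948569475221508,
  1696180084091564586211827465980027587574346000362116122015026094417785061825, 559202, [G3p0_6,
  G3p0_7, G3p0_8, G3p1_0, G3p1_6, G3p1_7, G3p1_8, G3p2_0, G3p2_1, G3p2_6, G3p2_7, G3p2_8, G3p3_0,
  G3p3_1, G3p3_2, G3p3_6, G3p3_7, G3p3_8, G3p4_6, G3p5_4, G3p5_6, G3p7_8, G3p9_6, G3p9_7,
  G3p9_8]⟩))))))

def G3T24 : Tr :=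
  .node 1504 (.node 1488 (.node 1480 (.node 1476 (.node 1474 (.node 1473 (.leaf ⟨2223137944,
  235237493601883354400871,
  1583105322713609092819090752888390078903090643996140256406278700666131972110, 542758, [G3p0_1,
  G3p0_2, G3p0_3, G3p1_2, G3p1_3, G3p2_3, G3p4_0, G3p4_1, G3p4_2, G3p4_3, G3p4_6, G3p4_7, G3p4_8,
  G3p4_9, G3p5_0, G3p5_1, G3p5_2, G3p5_3, G3p5_4, G3p5_6, G3p5_7, G3p5_8, G3p5_9, G3p8_7, G3p9_7,
  G3p9_8]⟩) (.leaf ⟨612525208, 271725153488638899751018,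
  931149513151212985403758130005108084880989228618948802711224523239598194702, 149542, [G3p0_1,
  G3p0_2, G3p0_3, G3p1_2, G3p1_3, G3p2_3, G3p4_0, G3p4_1, G3p4_2, G3p4_3, G3p4_6, G3p4_7, G3p4_8,
  G3p4_9, G3p5_0, G3p5_1, G3p5_2, G3p5_3, G3p5_4, G3p5_6, G3p5_7, G3p5_8, G3p5_9, G3p7_0, G3p7_1,
  G3p7_2, G3p7_3, G3p7_8, G3p7_9, G3p8_0, G3p8_1, G3p8_2, G3p8_3, G3p8_9, G3p9_0, G3p9_1, G3p9_2,
  G3p9_3]⟩)) (.node 1475 (.leaf ⟨2223084132, 1255538275090034660483,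
  1584872196738745627062211539289928906375830298761426001690341230181918703633, 542745, [G3p1_0,
  G3p1_4, G3p2_0, G3p2_1, G3p2_4, G3p3_0, G3p3_1, G3p3_2, G3p3_4, G3p5_0, G3p5_4, G3p5_6, G3p6_0,
  G3p6_4, G3p7_0, G3p8_0, G3p8_7, G3p9_0, G3p9_7, G3p9_8]⟩) (.leaf ⟨2290241944,
  4837660012295114295396,
  1697946931156342970542847499962709847045739158925684263349758012516585111567, 559141, [G3p1_2,
  G3p1_3, G3p2_3, G3p4_0, G3p4_1, G3p4_2, G3p4_3, G3p4_6, G3p5_0, G3p5_1, G3p5_2, G3p5_3, G3p5_4,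
  G3p5_6, G3p7_8, G3p9_0, G3p9_6, G3p9_7, G3p9_8]⟩))) (.node 1478 (.node 1477 (.leaf ⟨612476004,
  115736035374231229374694,
  934683261201485940989234793726936477209903470075451586423930390129520148496, 149530, [G3p0_4,
  G3p1_4, G3p2_1, G3p2_4, G3p3_1, G3p3_2, G3p3_4, G3p5_4, G3p5_6, G3p6_4, G3p7_0, G3p7_4, G3p7_8,
  G3p7_9, G3p8_0, G3p8_4, G3p8_9, G3p9_0, G3p9_4]⟩) (.leaf ⟨2223088792, 235237493386310355880039,
  1583105322713609092819090752888523881332525317537845071584690891488939081728, 542746, [G3p2_1,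
  G3p3_1, G3p3_2, G3p4_0, G3p4_1, G3p4_2, G3p4_3, G3p4_6, G3p4_7, G3p4_8, G3p4_9, G3p5_0, G3p5_1,
  G3p5_2, G3p5_3, G3p5_4, G3p5_6, G3p5_7, G3p5_8, G3p5_9, G3p8_7, G3p9_7, G3p9_8]⟩)) (.node 1479
  (.leaf ⟨612476056, 271725153164111170865258,
  906413276799302998730010618509087417675058969916933461378201962272045006848, 149530, [G3p2_1,
  G3p3_1, G3p3_2, G3p4_0, G3p4_1, G3p4_2, G3p4_3, G3p4_6, G3p4_7, G3p4_8, G3p4_9, G3p5_0, G3p5_1,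
  G3p5_2, G3p5_3, G3p5_4, G3p5_6, G3p5_7, G3p5_8, G3p5_9, G3p7_0, G3p7_8, G3p7_9, G3p8_0, G3p8_9,
  G3p9_0]⟩) (.leaf ⟨2223613073, 274235063168518669339715,
  1583105322713609092817749798850585448837428261773321671417981302858525638659, 542874, [G3p2_0,
  G3p2_1, G3p2_3, G3p2_6, G3p2_7, G3p2_8, G3p2_9, G3p3_0, G3p3_1, G3p3_6, G3p3_7, G3p3_8, G3p3_9,
  G3p4_0, G3p4_6, G3p4_7, G3p4_8, G3p4_9, G3p5_0, G3p5_4, G3p5_6, G3p5_7, G3p5_8, G3p5_9, G3p8_7,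
  G3p9_7, G3p9_8]⟩)))) (.node 1484 (.node 1482 (.node 1481 (.leaf ⟨613000337,
  310722722946319484324931,
  906413276799302998728669664471148985179961914152410061211492373641631563779, 149658, [G3p2_0,
  G3p2_1, G3p2_3, G3p2_6, G3p2_7, G3p2_8, G3p2_9, G3p3_0, G3p3_1, G3p3_6, G3p3_7, G3p3_8, G3p3_9,
  G3p4_0, G3p4_6, G3p4_7, G3p4_8, G3p4_9, G3p5_0, G3p5_4, G3p5_6, G3p5_7, G3p5_8, G3p5_9, G3p7_0,
  G3p7_8, G3p7_9, G3p8_0, G3p8_9, G3p9_0]⟩) (.leaf ⟨2290192792, 4837659905680067364967,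
  1697946931156342970542847499962865950560659923417538812956879678428664496129, 559129, [G3p1_0,
  G3p2_0, G3p2_1, G3p3_0, G3p3_1, G3p3_2, G3p4_0, G3p4_1, G3p4_2, G3p4_3, G3p4_6, G3p5_0, G3p5_1,
  G3p5_2, G3p5_3, G3p5_4, G3p5_6, G3p7_8, G3p9_0, G3p9_6, G3p9_7, G3p9_8]⟩)) (.node 1483 (.leaf
  ⟨2290164121, 7274935966206410262625,
  1696180084091564586212976855163638862637127294258919633506766387871413436877, 559122, [G3p0_6,
  G3p0_7, G3p0_8, G3p1_0, G3p1_2, G3p1_3, G3p1_6, G3p1_7, G3p1_8, G3p3_2, G3p4_2, G3p4_3, G3p4_6,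
  G3p5_2, G3p5_3, G3p5_4, G3p5_6, G3p7_8, G3p9_6, G3p9_7, G3p9_8]⟩) (.leaf ⟨2223056025,
  235237493386104197449825,
  1583105322713609092818899188022867768392530392523082571900048894643942457357, 542738, [G3p1_0,
  G3p1_2, G3p1_3, G3p3_2, G3p4_0, G3p4_2, G3p4_3, G3p4_6, G3p4_7, G3p4_8, G3p4_9, G3p5_0, G3p5_2,
  G3p5_3, G3p5_4, G3p5_6, G3p5_7, G3p5_8, G3p5_9, G3p8_7, G3p9_7, G3p9_8]⟩))) (.node 1486 (.node
  1485 (.leaf ⟨612443289, 271725153163905012435041,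
  906413276799302998729819053643431304735064044902170961693559965427048382477, 149522, [G3p1_0,
  G3p1_2, G3p1_3, G3p3_2, G3p4_0, G3p4_2, G3p4_3, G3p4_6, G3p4_7, G3p4_8, G3p4_9, G3p5_0, G3p5_2,
  G3p5_3, G3p5_4, G3p5_6, G3p5_7, G3p5_8, G3p5_9, G3p7_0, G3p7_8, G3p7_9, G3p8_0, G3p8_9, G3p9_0]⟩)
  (.leaf ⟨612967569, 349720292875793636429924,
  906413276799302998728669664471104383014052223907604450130758034983414202369, 149650, [G3p1_0,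
  G3p1_2, G3p1_3, G3p1_6, G3p1_7, G3p1_8, G3p1_9, G3p2_0, G3p2_3, G3p2_6, G3p2_7, G3p2_8, G3p2_9,
  G3p3_0, G3p3_6, G3p3_7, G3p3_8, G3p3_9, G3p4_0, G3p4_6, G3p4_7, G3p4_8, G3p4_9, G3p5_0, G3p5_4,
  G3p5_6, G3p5_7, G3p5_8, G3p5_9, G3p7_0, G3p7_8, G3p7_9, G3p8_0, G3p8_9, G3p9_0]⟩)) (.node 1487
  (.leaf ⟨2290688401, 10930849982551256469604,
  1696180084091564586211827465979893785144911325711200106417180214795308171713, 559250, [G3p0_6,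
  G3p0_7, G3p0_8, G3p1_0, G3p1_2, G3p1_3, G3p1_6, G3p1_7, G3p1_8, G3p2_0, G3p2_3, G3p2_6, G3p2_7,
  G3p2_8, G3p3_0, G3p3_6, G3p3_7, G3p3_8, G3p4_6, G3p5_4, G3p5_6, G3p7_8, G3p9_6, G3p9_7, G3p9_8]⟩)
  (.leaf ⟨2290635154, 4841118524914471736451,
  1697946931156342970541410763472184588178028865074042950850283957830035701824, 559237, [G3p0_6,
  G3p1_6, G3p2_1, G3p2_6, G3p3_1, G3p3_2, G3p3_6, G3p4_6, G3p5_4, G3p5_6, G3p7_8, G3p9_0, G3p9_6,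
  G3p9_7, G3p9_8]⟩))))) (.node 1496 (.node 1492 (.node 1490 (.node 1489 (.leaf ⟨612934801,
  271725153022171091666978,
  906413276799302998728669664471237857746598525601162320458353272826039304199, 149642, [G3p1_2,
  G3p3_0, G3p3_1, G3p3_2, G3p3_6, G3p3_7, G3p3_8, G3p3_9, G3p4_0, G3p4_6, G3p4_7, G3p4_8, G3p4_9,
  G3p5_0, G3p5_4, G3p5_6, G3p5_7, G3p5_8, G3p5_9, G3p7_0, G3p7_8, G3p7_9, G3p8_0, G3p8_9, G3p9_0]⟩)
  (.leaf ⟨2290655633, 8493573854843035125794,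
  1696180084091564586211827465980027434104687946916821101738382071823818228167, 559242, [G3p0_6,
  G3p0_7, G3p0_8, G3p1_2, G3p3_0, G3p3_1, G3p3_2, G3p3_6, G3p3_7, G3p3_8, G3p4_6, G3p5_4, G3p5_6,
  G3p7_8, G3p9_6, G3p9_7, G3p9_8]⟩)) (.node 1491 (.leaf ⟨612508825, 271725153158441814034530,
  906413276799302998729435923912119083959153929780966869446039168323701702665, 149538, [G3p1_0,
  G3p1_3, G3p2_0, G3p2_1, G3p2_3, G3p4_0, G3p4_3, G3p4_6, G3p4_7, G3p4_8, G3p4_9, G3p5_0, G3p5_3,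
  G3p5_4, G3p5_6, G3p5_7, G3p5_8, G3p5_9, G3p7_0, G3p7_8, G3p7_9, G3p8_0, G3p8_9, G3p9_0]⟩) (.leaf
  ⟨2290229657, 8493573991113757493346,
  1696180084091564586212593725432326794307717559718147172851069720200225489353, 559138, [G3p0_6,
  G3p0_7, G3p0_8, G3p1_0, G3p1_3, G3p1_6, G3p1_7, G3p1_8, G3p2_0, G3p2_1, G3p2_3, G3p2_6, G3p2_7,
  G3p2_8, G3p4_3, G3p4_6, G3p5_3, G3p5_4, G3p5_6, G3p7_8, G3p9_6, G3p9_7, G3p9_8]⟩))) (.node 1494
  (.node 1493 (.leaf ⟨2223264354, 1255536303631326317798,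
  1599007188939837098236218819579669023937950582559864954350762682159290908680, 542789, [G3p0_3,
  G3p1_3, G3p2_1, G3p2_3, G3p5_0, G3p5_3, G3p5_4, G3p5_6, G3p6_0, G3p6_3, G3p6_4, G3p7_0, G3p7_3,
  G3p8_0, G3p8_3, G3p8_7, G3p9_0, G3p9_3, G3p9_7, G3p9_8]⟩) (.leaf ⟨612672609,
  115736030032942254328965,
  906413276799303193234343240243471120456683732590547132847921852086624387087, 149578, [G3p1_2,
  G3p1_3, G3p2_3, G3p5_0, G3p5_1, G3p5_2, G3p5_3, G3p5_4, G3p5_6, G3p6_0, G3p6_1, G3p6_2, G3p6_3,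
  G3p6_4, G3p7_0, G3p7_8, G3p7_9, G3p8_0, G3p8_9, G3p9_0]⟩)) (.node 1495 (.leaf ⟨2223284833,
  1255536311500880809093,
  1583105322713609287323423374622907584114150080210374319494084702605052674063, 542794, [G3p1_2,
  G3p1_3, G3p2_3, G3p5_0, G3p5_1, G3p5_2, G3p5_3, G3p5_4, G3p5_6, G3p6_0, G3p6_1, G3p6_2, G3p6_3,
  G3p6_4, G3p8_7, G3p9_7, G3p9_8]⟩) (.leaf ⟨2223383137, 1255536204885934541960,
  1583105322713609287323423374623063687629070844702228869101206368517132058625, 542818, [G3p1_0,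
  G3p2_0, G3p2_1, G3p3_0, G3p3_1, G3p3_2, G3p5_0, G3p5_1, G3p5_2, G3p5_3, G3p5_4, G3p5_6, G3p6_0,
  G3p6_1, G3p6_2, G3p6_3, G3p6_4, G3p8_7, G3p9_7, G3p9_8]⟩)))) (.node 1500 (.node 1498 (.node 1497
  (.leaf ⟨612770913, 115736029926327207398536,
  906413276799303193234343240243627223971604497082401682455043517998703771649, 149602, [G3p1_0,
  G3p2_0, G3p2_1, G3p3_0, G3p3_1, G3p3_2, G3p5_0, G3p5_1, G3p5_2, G3p5_3, G3p5_4, G3p5_6, G3p6_0,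
  G3p6_1, G3p6_2, G3p6_3, G3p6_4, G3p7_0, G3p7_8, G3p7_9, G3p8_0, G3p8_9, G3p9_0]⟩) (.leaf
  ⟨2223133284, 1255538381708302816384,
  1584872196738745627062211539289772802860909534269571452083219564269839319071, 542757, [G3p1_2,
  G3p1_3, G3p1_4, G3p2_3, G3p2_4, G3p3_4, G3p5_0, G3p5_4, G3p5_6, G3p6_0, G3p6_4, G3p7_0, G3p8_0,
  G3p8_7, G3p9_0, G3p9_7, G3p9_8]⟩)) (.node 1499 (.leaf ⟨612525156, 115736039076458678791494,
  959419497553395927662982305222957144415833728777466927756949010447399387166, 149542, [G3p0_1,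
  G3p0_2, G3p0_3, G3p0_4, G3p1_2, G3p1_3, G3p1_4, G3p2_3, G3p2_4, G3p3_4, G3p5_4, G3p5_6, G3p6_4,
  G3p7_0, G3p7_1, G3p7_2, G3p7_3, G3p7_4, G3p7_8, G3p7_9, G3p8_0, G3p8_1, G3p8_2, G3p8_3, G3p8_4,
  G3p8_9, G3p9_0, G3p9_1, G3p9_2, G3p9_3, G3p9_4]⟩) (.leaf ⟨571762248, 38006281488805636738116,
  1136106899697211741221506165293663536376184331777666834329304931738099777538, 139590, [G3p0_1,
  G3p2_1, G3p2_3, G3p2_4, G3p2_5, G3p2_6, G3p2_7, G3p3_1, G3p3_4, G3p3_5, G3p3_6, G3p3_7, G3p5_4,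
  G3p6_4, G3p6_5, G3p8_0, G3p8_1, G3p8_7, G3p8_9, G3p9_0, G3p9_1, G3p9_7]⟩))) (.node 1502 (.node
  1501 (.leaf ⟨555247140, 37935730532564583291044,
  1270389325576315352423707947176900577307451926106923408091257240003753672782, 135558, [G3p0_1,
  G3p0_2, G3p0_3, G3p0_6, G3p2_1, G3p3_1, G3p3_2, G3p4_6, G3p5_4, G3p5_6, G3p8_0, G3p8_1, G3p8_2,
  G3p8_3, G3p8_6, G3p8_7, G3p8_9, G3p9_0, G3p9_1, G3p9_2, G3p9_3, G3p9_6, G3p9_7]⟩) (.leaf
  ⟨555001377, 37932271802034691377252,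
  1245653089230164631702021393320241028149857763193139116041489063838219173903, 135498, [G3p1_2,
  G3p1_3, G3p2_3, G3p4_0, G3p4_1, G3p4_2, G3p4_3, G3p4_6, G3p5_0, G3p5_1, G3p5_2, G3p5_3, G3p5_4,
  G3p5_6, G3p8_0, G3p8_6, G3p8_7, G3p8_9, G3p9_0, G3p9_6, G3p9_7]⟩)) (.node 1503 (.leaf ⟨556049937,
  37935988288670301033473,
  1330463042416967102749760632107725468814129636923697569437154010254247133199, 135754, [G3p1_2,
  G3p1_3, G3p2_3, G3p4_5, G3p4_6, G3p5_6, G3p8_0, G3p8_4, G3p8_5, G3p8_6, G3p8_7, G3p8_9, G3p9_0,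
  G3p9_4, G3p9_5, G3p9_6, G3p9_7]⟩) (.leaf ⟨571778632, 38044365089266674602084,
  1132573151647761638261059980958102923135614680271358786650844026171271675904, 139594, [G3p1_2,
  G3p1_3, G3p1_4, G3p1_5, G3p1_6, G3p1_7, G3p2_3, G3p2_4, G3p2_5, G3p2_6, G3p2_7, G3p3_4, G3p3_5,
  G3p3_6, G3p3_7, G3p5_4, G3p6_4, G3p6_5, G3p8_0, G3p8_7, G3p8_9, G3p9_0, G3p9_7]⟩)))))) (.node 1520
  (.node 1512 (.node 1508 (.node 1506 (.node 1505 (.leaf ⟨556148241, 37935988182054180361220,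
  1330463042416967102749760632107881572329050401415552119044275676166326517761, 135778, [G3p1_0,
  G3p2_0, G3p2_1, G3p3_0, G3p3_1, G3p3_2, G3p4_5, G3p4_6, G3p5_6, G3p8_0, G3p8_4, G3p8_5, G3p8_6,
  G3p8_7, G3p8_9, G3p9_0, G3p9_4, G3p9_5, G3p9_6, G3p9_7]⟩) (.leaf ⟨571876937,
  38082448583316676482179,
  1132573151647761638261059980958259026650535444763213336257965692083351060721, 139618, [G3p1_0,
  G3p1_4, G3p1_5, G3p1_6, G3p1_7, G3p2_0, G3p2_1, G3p2_4, G3p2_5, G3p2_6, G3p2_7, G3p3_0, G3p3_1,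
  G3p3_2, G3p3_4, G3p3_5, G3p3_6, G3p3_7, G3p5_4, G3p6_4, G3p6_5, G3p8_0, G3p8_7, G3p8_9, G3p9_0,
  G3p9_7]⟩)) (.node 1507 (.leaf ⟨555099681, 37932271695419644446823,
  1245653089230164631702021393320397131664778527684993665648610729750298558465, 135522, [G3p1_0,
  G3p2_0, G3p2_1, G3p3_0, G3p3_1, G3p3_2, G3p4_0, G3p4_1, G3p4_2, G3p4_3, G3p4_6, G3p5_0, G3p5_1,
  G3p5_2, G3p5_3, G3p5_4, G3p5_6, G3p8_0, G3p8_6, G3p8_7, G3p8_9, G3p9_0, G3p9_6, G3p9_7]⟩) (.leaf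
  ⟨556033560, 37935988180024808314055,
  1333996790466417205710206816443286082055945439676053975783356286046042193922, 135750, [G3p0_1,
  G3p2_1, G3p2_3, G3p3_1, G3p4_5, G3p4_6, G3p5_6, G3p8_0, G3p8_1, G3p8_4, G3p8_5, G3p8_6, G3p8_7,
  G3p8_9, G3p9_0, G3p9_1, G3p9_4, G3p9_5, G3p9_6, G3p9_7]⟩))) (.node 1510 (.node 1509 (.leaf
  ⟨554804772, 37935730314655122561188,
  1245653089230164631700584656829715769282147469341497803542015009151669764160, 135450, [G3p0_6,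
  G3p1_6, G3p2_1, G3p2_6, G3p3_1, G3p3_2, G3p3_6, G3p4_6, G3p5_4, G3p5_6, G3p8_0, G3p8_6, G3p8_7,
  G3p8_9, G3p9_0, G3p9_6, G3p9_7]⟩) (.leaf ⟨554853924, 37939189331060185179396,
  1270389325576315352423707947178194044349127001276073569087061682915895148622, 135462, [G3p0_1,
  G3p0_2, G3p0_3, G3p0_6, G3p1_2, G3p1_3, G3p1_6, G3p2_3, G3p2_6, G3p3_6, G3p4_6, G3p5_4, G3p5_6,
  G3p8_0, G3p8_1, G3p8_2, G3p8_3, G3p8_6, G3p8_7, G3p8_9, G3p9_0, G3p9_1, G3p9_2, G3p9_3, G3p9_6,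
  G3p9_7]⟩)) (.node 1511 (.leaf ⟨571614793, 38044365158570266890338,
  1132573151647761638261059980952750745308798854589630000172646650216153874681, 139554, [G3p1_0,
  G3p1_3, G3p1_4, G3p1_5, G3p1_6, G3p1_7, G3p2_0, G3p2_1, G3p2_3, G3p2_4, G3p2_5, G3p2_6, G3p2_7,
  G3p5_4, G3p6_4, G3p6_5, G3p8_0, G3p8_7, G3p8_9, G3p9_0, G3p9_7]⟩) (.leaf ⟨555886105,
  37935988390890522678466,
  1344598034614767514591545369449789514118626421068107358888078060957026746377, 135714, [G3p1_0,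
  G3p1_3, G3p2_0, G3p2_1, G3p2_3, G3p4_5, G3p4_6, G3p5_6, G3p8_0, G3p8_3, G3p8_4, G3p8_5, G3p8_6,
  G3p8_7, G3p8_9, G3p9_0, G3p9_3, G3p9_4, G3p9_5, G3p9_6, G3p9_7]⟩)))) (.node 1516 (.node 1514
  (.node 1513 (.leaf ⟨562325016, 37932494512716954870058,
  1333996790466417519560887523716180934272762041209943366667620786132794605570, 137286, [G3p0_1,
  G3p2_1, G3p2_3, G3p3_1, G3p4_1, G3p5_1, G3p5_4, G3p6_1, G3p6_4, G3p6_5, G3p8_0, G3p8_1, G3p8_4,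
  G3p8_5, G3p8_6, G3p8_7, G3p8_9, G3p9_0, G3p9_1, G3p9_4, G3p9_5, G3p9_6, G3p9_7]⟩) (.leaf
  ⟨562341393, 37932494621259368374273,
  1330463042416967404046046303741647282590266762256490674036189239710785142799, 137290, [G3p1_2,
  G3p1_3, G3p2_3, G3p5_4, G3p6_4, G3p6_5, G3p8_0, G3p8_4, G3p8_5, G3p8_6, G3p8_7, G3p8_9, G3p9_0,
  G3p9_4, G3p9_5, G3p9_6, G3p9_7]⟩)) (.node 1515 (.leaf ⟨562439697, 37932494514643247702020,
  1330463042416967404046046303741803386105187526748345223643310905622864527361, 137314, [G3p1_0,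
  G3p2_0, G3p2_1, G3p3_0, G3p3_1, G3p3_2, G3p5_4, G3p6_4, G3p6_5, G3p8_0, G3p8_4, G3p8_5, G3p8_6,
  G3p8_7, G3p8_9, G3p9_0, G3p9_4, G3p9_5, G3p9_6, G3p9_7]⟩) (.leaf ⟨562193956,
  37939635187423294858500,
  1355199278763118124769169594092757081661123039900652465815575668491033772158, 137254, [G3p0_1,
  G3p0_2, G3p0_3, G3p0_4, G3p0_5, G3p0_6, G3p1_2, G3p1_3, G3p1_4, G3p1_5, G3p1_6, G3p2_3, G3p2_4,
  G3p2_5, G3p2_6, G3p3_4, G3p3_5, G3p3_6, G3p5_4, G3p6_4, G3p6_5, G3p8_0, G3p8_1, G3p8_2, G3p8_3,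
  G3p8_4, G3p8_5, G3p8_6, G3p8_7, G3p8_9, G3p9_0, G3p9_1, G3p9_2, G3p9_3, G3p9_4, G3p9_5, G3p9_6,
  G3p9_7]⟩))) (.node 1518 (.node 1517 (.leaf ⟨555902488, 37935988506579761763527,
  1355199278763117823472883922456337546310543843509189350838304921382678298638, 135718, [G3p0_1,
  G3p0_2, G3p0_3, G3p1_2, G3p1_3, G3p2_3, G3p4_5, G3p4_6, G3p5_6, G3p8_0, G3p8_1, G3p8_2, G3p8_3,
  G3p8_4, G3p8_5, G3p8_6, G3p8_7, G3p8_9, G3p9_0, G3p9_1, G3p9_2, G3p9_3, G3p9_4, G3p9_5, G3p9_6,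
  G3p9_7]⟩) (.leaf ⟨562193944, 37932494948123559469354,
  1355199278763118212649934843563070629171437302249656459433945045250673082382, 137254, [G3p0_1,
  G3p0_2, G3p0_3, G3p1_2, G3p1_3, G3p2_3, G3p4_1, G3p4_2, G3p4_3, G3p5_1, G3p5_2, G3p5_3, G3p5_4,
  G3p6_1, G3p6_2, G3p6_3, G3p6_4, G3p6_5, G3p8_0, G3p8_1, G3p8_2, G3p8_3, G3p8_4, G3p8_5, G3p8_6,
  G3p8_7, G3p8_9, G3p9_0, G3p9_1, G3p9_2, G3p9_3, G3p9_4, G3p9_5, G3p9_6, G3p9_7]⟩)) (.node 1519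
  (.leaf ⟨572630596, 37930108696420257170596,
  1132573151647761537825900046601493116939652352372616201648587245002720018432, 139802, [G3p2_1,
  G3p3_1, G3p3_2, G3p4_5, G3p4_6, G3p4_7, G3p6_5, G3p8_0, G3p8_7, G3p8_9, G3p9_0, G3p9_7]⟩) (.leaf
  ⟨555853336, 37935988399961493607626,
  1355199278763117823472883922456471348739978517050911091236450074695538966528, 135706, [G3p2_1,
  G3p3_1, G3p3_2, G3p4_5, G3p4_6, G3p5_6, G3p8_0, G3p8_1, G3p8_2, G3p8_3, G3p8_4, G3p8_5, G3p8_6,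
  G3p8_7, G3p8_9, G3p9_0, G3p9_1, G3p9_2, G3p9_3, G3p9_4, G3p9_5, G3p9_6, G3p9_7]⟩))))) (.node 1528
  (.node 1524 (.node 1522 (.node 1521 (.leaf ⟨562144804, 37936064706927454820516,
  1330463042416967404046046303744278806594143507966076700270528994726808387696, 137242, [G3p0_4,
  G3p0_5, G3p0_6, G3p1_4, G3p1_5, G3p1_6, G3p2_1, G3p2_4, G3p2_5, G3p2_6, G3p3_1, G3p3_2, G3p3_4,
  G3p3_5, G3p3_6, G3p5_4, G3p6_4, G3p6_5, G3p8_0, G3p8_4, G3p8_5, G3p8_6, G3p8_7, G3p8_9, G3p9_0,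
  G3p9_4, G3p9_5, G3p9_6, G3p9_7]⟩) (.leaf ⟨556377617, 37935988179888443102275,
  1330463042416967102749760632110290093644370546930595057395046060524827770883, 135834, [G3p2_0,
  G3p2_1, G3p2_3, G3p2_4, G3p2_5, G3p2_6, G3p3_0, G3p3_1, G3p3_4, G3p3_5, G3p3_6, G3p4_5, G3p4_6,
  G3p5_6, G3p8_0, G3p8_4, G3p8_5, G3p8_6, G3p8_7, G3p8_9, G3p9_0, G3p9_4, G3p9_5, G3p9_6, G3p9_7]⟩))
  (.node 1523 (.leaf ⟨562144792, 37932494841505291313453,
  1355199278763118212649934843563204431600871975791378199832090198563533750272, 137242, [G3p2_1,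
  G3p3_1, G3p3_2, G3p4_1, G3p4_2, G3p4_3, G3p5_1, G3p5_2, G3p5_3, G3p5_4, G3p6_1, G3p6_2, G3p6_3,
  G3p6_4, G3p6_5, G3p8_0, G3p8_1, G3p8_2, G3p8_3, G3p8_4, G3p8_5, G3p8_6, G3p8_7, G3p8_9, G3p9_0,
  G3p9_1, G3p9_2, G3p9_3, G3p9_4, G3p9_5, G3p9_6, G3p9_7]⟩) (.leaf ⟨555820569,
  37935988399652255962305,
  1351665530713667720512437738120910735498167906753869544746405004587152703501, 135698, [G3p1_0,
  G3p1_2, G3p1_3, G3p3_2, G3p4_5, G3p4_6, G3p5_6, G3p8_0, G3p8_2, G3p8_3, G3p8_4, G3p8_5, G3p8_6,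
  G3p8_7, G3p8_9, G3p9_0, G3p9_2, G3p9_3, G3p9_4, G3p9_5, G3p9_6, G3p9_7]⟩))) (.node 1526 (.node
  1525 (.leaf ⟨562112025, 37932494841092974453025,
  1351665530713668097135093623588670779918381889293240367056815857824940425229, 137234, [G3p1_0,
  G3p1_2, G3p1_3, G3p3_2, G3p4_2, G3p4_3, G3p5_2, G3p5_3, G3p5_4, G3p6_2, G3p6_3, G3p6_4, G3p6_5,
  G3p8_0, G3p8_2, G3p8_3, G3p8_4, G3p8_5, G3p8_6, G3p8_7, G3p8_9, G3p9_0, G3p9_2, G3p9_3, G3p9_4,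
  G3p9_5, G3p9_6, G3p9_7]⟩) (.leaf ⟨556344849, 37935988216035961607268,
  1330463042416967102749760632110245491474057788949751912485317860979431768065, 135826, [G3p1_0,
  G3p1_2, G3p1_3, G3p1_4, G3p1_5, G3p1_6, G3p2_0, G3p2_3, G3p2_4, G3p2_5, G3p2_6, G3p3_0, G3p3_4,
  G3p3_5, G3p3_6, G3p4_5, G3p4_6, G3p5_6, G3p8_0, G3p8_4, G3p8_5, G3p8_6, G3p8_7, G3p8_9, G3p9_0,
  G3p9_4, G3p9_5, G3p9_6, G3p9_7]⟩)) (.node 1527 (.leaf ⟨562636305, 37932494548625028948068,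
  1330463042416967404046046303741669583675752852097429208045465026000387637249, 137362, [G3p1_0,
  G3p1_2, G3p1_3, G3p2_0, G3p2_3, G3p3_0, G3p5_4, G3p6_4, G3p6_5, G3p8_0, G3p8_4, G3p8_5, G3p8_6,
  G3p8_7, G3p8_9, G3p9_0, G3p9_4, G3p9_5, G3p9_6, G3p9_7]⟩) (.leaf ⟨556312081,
  37935988149066684044322,
  1330463042416967102749760632110379254770454307335164333583574061848678825991, 135818, [G3p1_2,
  G3p3_0, G3p3_1, G3p3_2, G3p3_4, G3p3_5, G3p3_6, G3p4_5, G3p4_6, G3p5_6, G3p8_0, G3p8_4, G3p8_5,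
  G3p8_6, G3p8_7, G3p8_9, G3p9_0, G3p9_4, G3p9_5, G3p9_6, G3p9_7]⟩)))) (.node 1532 (.node 1530
  (.node 1529 (.leaf ⟨562603537, 37932494481655751385122,
  1330463042416967404046046303741803385084356002876105437736072674816547028999, 137354, [G3p1_2,
  G3p3_0, G3p3_1, G3p3_2, G3p5_4, G3p6_4, G3p6_5, G3p8_0, G3p8_4, G3p8_5, G3p8_6, G3p8_7, G3p8_9,
  G3p9_0, G3p9_4, G3p9_5, G3p9_6, G3p9_7]⟩) (.leaf ⟨562177561, 37932494829032706285858,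
  1344598034614767866105411183639603481657481451205285608628030372934400344073, 137250, [G3p1_0,
  G3p1_3, G3p2_0, G3p2_1, G3p2_3, G3p4_3, G3p5_3, G3p5_4, G3p6_3, G3p6_4, G3p6_5, G3p8_0, G3p8_3,
  G3p8_4, G3p8_5, G3p8_6, G3p8_7, G3p8_9, G3p9_0, G3p9_3, G3p9_4, G3p9_5, G3p9_6, G3p9_7]⟩)) (.node
  1531 (.leaf ⟨555263524, 37935730532289705384100,
  1266855577526865249463261762841339964065968430353513230750174967082982834252, 135562, [G3p0_2,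
  G3p0_3, G3p0_6, G3p1_2, G3p1_3, G3p1_6, G3p3_2, G3p4_6, G3p5_4, G3p5_6, G3p8_0, G3p8_2, G3p8_3,
  G3p8_6, G3p8_7, G3p8_9, G3p9_0, G3p9_2, G3p9_3, G3p9_6, G3p9_7]⟩) (.leaf ⟨574907928,
  37928847722815612392647,
  1136106899697211452479615529293362500525311272066770212456984078125663125506, 140358, [G3p0_1,
  G3p2_1, G3p2_3, G3p3_1, G3p4_1, G3p4_5, G3p4_6, G3p5_1, G3p5_6, G3p6_1, G3p8_0, G3p8_1, G3p8_7,
  G3p8_9, G3p9_0, G3p9_1, G3p9_7]⟩))) (.node 1534 (.node 1533 (.leaf ⟨574924305,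
  37928847831461105112065,
  1132573151647761336964774309318828848842815993113317519825552531703653662735, 140362, [G3p1_2,
  G3p1_3, G3p2_3, G3p4_5, G3p4_6, G3p5_6, G3p8_0, G3p8_7, G3p8_9, G3p9_0, G3p9_7]⟩) (.leaf
  ⟨575022609, 37928847724844984439812,
  1132573151647761336964774309318984952357736757605172069432674197615733047297, 140386, [G3p1_0,
  G3p2_0, G3p2_1, G3p3_0, G3p3_1, G3p3_2, G3p4_5, G3p4_6, G3p5_6, G3p8_0, G3p8_7, G3p8_9, G3p9_0,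
  G3p9_7]⟩)) (.node 1535 (.leaf ⟨574776856, 37928848049370565842119,
  1157309387993912145568662849140252195423986533106483305223308337243541602318, 140326, [G3p0_1,
  G3p0_2, G3p0_3, G3p1_2, G3p1_3, G3p2_3, G3p4_1, G3p4_2, G3p4_3, G3p4_5, G3p4_6, G3p5_1, G3p5_2,
  G3p5_3, G3p5_6, G3p6_1, G3p6_2, G3p6_3, G3p8_0, G3p8_1, G3p8_2, G3p8_3, G3p8_7, G3p8_9, G3p9_0,
  G3p9_1, G3p9_2, G3p9_3, G3p9_7]⟩) (.leaf ⟨574776868, 37940748702431162311940,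
  1355199278763117823472883922458835267884985914567859359150473577100590710910, 140326, [G3p0_1,
  G3p0_2, G3p0_3, G3p0_4, G3p0_5, G3p0_6, G3p1_2, G3p1_3, G3p1_4, G3p1_5, G3p1_6, G3p2_3, G3p2_4,
  G3p2_5, G3p2_6, G3p3_4, G3p3_5, G3p3_6, G3p4_5, G3p4_6, G3p5_6, G3p8_0, G3p8_1, G3p8_2, G3p8_3,
  G3p8_4, G3p8_5, G3p8_6, G3p8_7, G3p8_9, G3p9_0, G3p9_1, G3p9_2, G3p9_3, G3p9_4, G3p9_5, G3p9_6,
  G3p9_7]⟩))))))

def G3T25 : Tr :=
  .node 1568 (.node 1552 (.node 1544 (.node 1540 (.node 1538 (.node 1537 (.leaf ⟨574727716,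
  37937178221935322273956,
  1330463042416967102749760632110356992818006382633283593605426903336365326448, 140314, [G3p0_4,
  G3p0_5, G3p0_6, G3p1_4, G3p1_5, G3p1_6, G3p2_1, G3p2_4, G3p2_5, G3p2_6, G3p3_1, G3p3_2, G3p3_4,
  G3p3_5, G3p3_6, G3p4_5, G3p4_6, G3p5_6, G3p8_0, G3p8_4, G3p8_5, G3p8_6, G3p8_7, G3p8_9, G3p9_0,
  G3p9_4, G3p9_5, G3p9_6, G3p9_7]⟩) (.leaf ⟨574727704, 37928847942752297686218,
  1157309387993912145568662849140385997853421206648205045621453490556402270208, 140314, [G3p2_1,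
  G3p3_1, G3p3_2, G3p4_1, G3p4_2, G3p4_3, G3p4_5, G3p4_6, G3p5_1, G3p5_2, G3p5_3, G3p5_6, G3p6_1,
  G3p6_2, G3p6_3, G3p8_0, G3p8_1, G3p8_2, G3p8_3, G3p8_7, G3p8_9, G3p9_0, G3p9_1, G3p9_2, G3p9_3,
  G3p9_7]⟩)) (.node 1539 (.leaf ⟨575251985, 37928847722679247180867,
  1132573151647761336964774309318895752099196378183255099438951933127524810755, 140442, [G3p2_0,
  G3p2_1, G3p2_3, G3p3_0, G3p3_1, G3p4_5, G3p4_6, G3p5_6, G3p8_0, G3p8_7, G3p8_9, G3p9_0, G3p9_7]⟩)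
  (.leaf ⟨574694937, 37928847942443060040897,
  1153775639944462030053821629165852346170931120150067212846179149817808945165, 140306, [G3p1_0,
  G3p1_2, G3p1_3, G3p3_2, G3p4_2, G3p4_3, G3p4_5, G3p4_6, G3p5_2, G3p5_3, G3p5_6, G3p6_2, G3p6_3,
  G3p8_0, G3p8_2, G3p8_3, G3p8_7, G3p8_9, G3p9_0, G3p9_2, G3p9_3, G3p9_7]⟩))) (.node 1542 (.node
  1541 (.leaf ⟨575219217, 37928847758826765685860,
  1132573151647761336964774309318851149928302082954256053834828317993256157185, 140434, [G3p1_0,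
  G3p1_2, G3p1_3, G3p2_0, G3p2_3, G3p3_0, G3p4_5, G3p4_6, G3p5_6, G3p8_0, G3p8_7, G3p8_9, G3p9_0,
  G3p9_7]⟩) (.leaf ⟨575186449, 37928847691857488122914,
  1132573151647761336964774309318984951336905233732932283525435966809415548935, 140426, [G3p1_2,
  G3p3_0, G3p3_1, G3p3_2, G3p4_5, G3p4_6, G3p5_6, G3p8_0, G3p8_7, G3p8_9, G3p9_0, G3p9_7]⟩)) (.node
  1543 (.leaf ⟨574760473, 37928847933681326757058,
  1146708143845561799024139189216785047910030682062112454417393664927268864009, 140322, [G3p1_0,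
  G3p1_3, G3p2_0, G3p2_1, G3p2_3, G3p4_3, G3p4_5, G3p4_6, G3p5_3, G3p5_6, G3p6_3, G3p8_0, G3p8_3,
  G3p8_7, G3p8_9, G3p9_0, G3p9_3, G3p9_7]⟩) (.leaf ⟨543450696, 38000331107797973470276,
  1136106899697212544702788446185440275005810283710869248239454077546206986242, 132678, [G3p0_1,
  G3p2_1, G3p2_3, G3p2_7, G3p3_1, G3p3_7, G3p4_7, G3p5_4, G3p5_7, G3p6_4, G3p6_5, G3p6_7, G3p8_0,
  G3p8_1, G3p8_7, G3p8_9, G3p9_0, G3p9_1, G3p9_7]⟩)))) (.node 1548 (.node 1546 (.node 1545 (.leaf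
  ⟨546596424, 38118075468255764646980,
  1136106899697212243406502774554016182803533683315036051984911496936378466306, 133446, [G3p0_1,
  G3p2_1, G3p2_3, G3p2_4, G3p2_5, G3p2_6, G3p2_7, G3p3_1, G3p3_4, G3p3_5, G3p3_6, G3p3_7, G3p4_5,
  G3p4_6, G3p4_7, G3p5_6, G3p5_7, G3p6_7, G3p8_0, G3p8_1, G3p8_7, G3p8_9, G3p9_0, G3p9_1, G3p9_7]⟩)
  (.leaf ⟨546612833, 37965741501204037472422,
  1132573151647762234604019357505401097351398541491701989219485632749552730127, 133450, [G3p1_2,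
  G3p1_3, G3p2_3, G3p4_0, G3p4_1, G3p4_2, G3p4_3, G3p4_5, G3p4_6, G3p4_7, G3p5_0, G3p5_1, G3p5_2,
  G3p5_3, G3p5_6, G3p5_7, G3p6_0, G3p6_1, G3p6_2, G3p6_3, G3p6_7, G3p8_0, G3p8_7, G3p8_9, G3p9_0,
  G3p9_7]⟩)) (.node 1547 (.leaf ⟨546858564, 38003824958930427183268,
  1157309387993912861169179880561849188972151351219887638821000314934023553038, 133510, [G3p0_1,
  G3p0_2, G3p0_3, G3p2_1, G3p3_1, G3p3_2, G3p4_5, G3p4_6, G3p4_7, G3p5_6, G3p5_7, G3p6_7, G3p8_0,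
  G3p8_1, G3p8_2, G3p8_3, G3p8_7, G3p8_9, G3p9_0, G3p9_1, G3p9_2, G3p9_3, G3p9_7]⟩) (.leaf
  ⟨543467080, 38037224632057478680676,
  1132573151647762441742342261849879661764659094956405299866597756390506233856, 132682, [G3p1_2,
  G3p1_3, G3p1_7, G3p2_3, G3p2_7, G3p3_7, G3p4_7, G3p5_4, G3p5_7, G3p6_4, G3p6_5, G3p6_7, G3p8_0,
  G3p8_7, G3p8_9, G3p9_0, G3p9_7]⟩))) (.node 1550 (.node 1549 (.leaf ⟨546612808,
  38156159068716802510948,
  1132573151647762140446056590218455569562964031808728004306450591369550364672, 133450, [G3p1_2,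
  G3p1_3, G3p1_4, G3p1_5, G3p1_6, G3p1_7, G3p2_3, G3p2_4, G3p2_5, G3p2_6, G3p2_7, G3p3_4, G3p3_5,
  G3p3_6, G3p3_7, G3p4_5, G3p4_6, G3p4_7, G3p5_6, G3p5_7, G3p6_7, G3p8_0, G3p8_7, G3p8_9, G3p9_0,
  G3p9_7]⟩) (.leaf ⟨546874948, 38003824958655549276324,
  1153775639944462758208733696226288575730335548467531232511692090239592693772, 133514, [G3p0_2,
  G3p0_3, G3p1_2, G3p1_3, G3p3_2, G3p4_5, G3p4_6, G3p4_7, G3p5_6, G3p5_7, G3p6_7, G3p8_0, G3p8_2,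
  G3p8_3, G3p8_7, G3p8_9, G3p9_0, G3p9_2, G3p9_3, G3p9_7]⟩)) (.node 1551 (.leaf ⟨543565385,
  38074118049905947907203,
  1132573151647762441742342261850035765279579859448259849473719422302585618561, 132706, [G3p1_0,
  G3p1_7, G3p2_0, G3p2_1, G3p2_7, G3p3_0, G3p3_1, G3p3_2, G3p3_7, G3p4_7, G3p5_4, G3p5_7, G3p6_4,
  G3p6_5, G3p6_7, G3p8_0, G3p8_7, G3p8_9, G3p9_0, G3p9_7]⟩) (.leaf ⟨546711113,
  38194242562766804391043,
  1132573151647762140446056590218611673077884796300582553913572257281629749489, 133474, [G3p1_0,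
  G3p1_4, G3p1_5, G3p1_6, G3p1_7, G3p2_0, G3p2_1, G3p2_4, G3p2_5, G3p2_6, G3p2_7, G3p3_0, G3p3_1,
  G3p3_2, G3p3_4, G3p3_5, G3p3_6, G3p3_7, G3p4_5, G3p4_6, G3p4_7, G3p5_6, G3p5_7, G3p6_7, G3p8_0,
  G3p8_7, G3p8_9, G3p9_0, G3p9_7]⟩))))) (.node 1560 (.node 1556 (.node 1554 (.node 1553 (.leaf
  ⟨546711137, 37965741394588990541993,
  1132573151647762234604019357505557200866319305983556538826607298661632114689, 133474, [G3p1_0,
  G3p2_0, G3p2_1, G3p3_0, G3p3_1, G3p3_2, G3p4_0, G3p4_1, G3p4_2, G3p4_3, G3p4_5, G3p4_6, G3p4_7,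
  G3p5_0, G3p5_1, G3p5_2, G3p5_3, G3p5_6, G3p5_7, G3p6_0, G3p6_1, G3p6_2, G3p6_3, G3p6_7, G3p8_0,
  G3p8_7, G3p8_9, G3p9_0, G3p9_7]⟩) (.leaf ⟨543319620, 38000331325501275770116,
  1157309387993913162465465552195637200318853801901764727822189664707962470414, 132646, [G3p0_1,
  G3p0_2, G3p0_3, G3p1_2, G3p1_3, G3p2_3, G3p4_7, G3p5_4, G3p5_7, G3p6_4, G3p6_5, G3p6_7, G3p8_0,
  G3p8_1, G3p8_2, G3p8_3, G3p8_7, G3p8_9, G3p9_0, G3p9_1, G3p9_2, G3p9_3, G3p9_7]⟩)) (.node 1555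
  (.leaf ⟨546416196, 38003824741020966453412,
  1132573151647762140446056590213237111475737144634395857678107761487191736320, 133402, [G3p2_1,
  G3p3_1, G3p3_2, G3p4_5, G3p4_6, G3p4_7, G3p5_6, G3p5_7, G3p6_7, G3p8_0, G3p8_7, G3p8_9, G3p9_0,
  G3p9_7]⟩) (.leaf ⟨546465348, 38003824992912208429316,
  1157309387993912861169179880561715386542716676568971623223154435251417120782, 133414, [G3p0_1,
  G3p0_2, G3p0_3, G3p1_2, G3p1_3, G3p2_3, G3p4_5, G3p4_6, G3p4_7, G3p5_6, G3p5_7, G3p6_7, G3p8_0,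
  G3p8_1, G3p8_2, G3p8_3, G3p8_7, G3p8_9, G3p9_0, G3p9_1, G3p9_2, G3p9_3, G3p9_7]⟩))) (.node 1558
  (.node 1557 (.leaf ⟨543270468, 38000331073610033794212,
  1132573151647762441742342261847158925251874269967188962277142990943737085952, 132634, [G3p2_1,
  G3p3_1, G3p3_2, G3p4_7, G3p5_4, G3p5_7, G3p6_4, G3p6_5, G3p6_7, G3p8_0, G3p8_7, G3p8_9, G3p9_0,
  G3p9_7]⟩) (.leaf ⟨543237705, 38000331182392965467201,
  1132573151647762441742342261847114323081644588736082374609471279339617910925, 132626, [G3p1_0,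
  G3p1_2, G3p1_3, G3p1_7, G3p3_2, G3p4_7, G3p5_4, G3p5_7, G3p6_4, G3p6_5, G3p6_7, G3p8_0, G3p8_7,
  G3p8_9, G3p9_0, G3p9_7]⟩)) (.node 1559 (.leaf ⟨546383433, 38118075542850756643905,
  1132573151647762140446056590213192509306089000651445170704831465471952552189, 133394, [G3p1_0,
  G3p1_2, G3p1_3, G3p1_4, G3p1_5, G3p1_6, G3p1_7, G3p3_2, G3p4_5, G3p4_6, G3p4_7, G3p5_6, G3p5_7,
  G3p6_7, G3p8_0, G3p8_7, G3p8_9, G3p9_0, G3p9_7]⟩) (.leaf ⟨543303241, 38037224701361070968930,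
  1132573151647762441742342261847025167400078699066528513834936996924058239113, 132642, [G3p1_0,
  G3p1_3, G3p1_7, G3p2_0, G3p2_1, G3p2_3, G3p2_7, G3p4_7, G3p5_4, G3p5_7, G3p6_4, G3p6_5, G3p6_7,
  G3p8_0, G3p8_7, G3p8_9, G3p9_0, G3p9_7]⟩)))) (.node 1564 (.node 1562 (.node 1561 (.leaf
  ⟨546448969, 38156159138020394799202,
  1132573151647762140446056590213103391736148206126999217828253215414432563449, 133410, [G3p1_0,
  G3p1_3, G3p1_4, G3p1_5, G3p1_6, G3p1_7, G3p2_0, G3p2_1, G3p2_3, G3p2_4, G3p2_5, G3p2_6, G3p2_7,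
  G3p4_5, G3p4_6, G3p4_7, G3p5_6, G3p5_7, G3p6_7, G3p8_0, G3p8_7, G3p8_9, G3p9_0, G3p9_7]⟩) (.leaf
  ⟨541369953, 37926653561499546585188,
  1132573151647762535885075692475286396867375672633172464798907971856963141647, 132170, [G3p1_2,
  G3p1_3, G3p2_3, G3p4_5, G3p6_0, G3p6_1, G3p6_2, G3p6_3, G3p6_4, G3p6_5, G3p6_7, G3p8_0, G3p8_7,
  G3p8_9, G3p9_0, G3p9_7]⟩)) (.node 1563 (.leaf ⟨541468257, 37926653454884499654759,
  1132573151647762535885075692475442500382296437125027014406029637769042526209, 132194, [G3p1_0,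
  G3p2_0, G3p2_1, G3p3_0, G3p3_1, G3p3_2, G3p4_5, G3p6_0, G3p6_1, G3p6_2, G3p6_3, G3p6_4, G3p6_5,
  G3p6_7, G3p8_0, G3p8_7, G3p8_9, G3p9_0, G3p9_7]⟩) (.leaf ⟨541173348, 37926801928393860356260,
  1217383104834564912779258085728663459565292876970113692368001601556645412912, 132122, [G3p0_4,
  G3p0_5, G3p1_4, G3p1_5, G3p2_1, G3p2_4, G3p2_5, G3p3_1, G3p3_2, G3p3_4, G3p3_5, G3p4_5, G3p6_4,
  G3p6_5, G3p6_7, G3p8_0, G3p8_4, G3p8_5, G3p8_7, G3p8_9, G3p9_0, G3p9_4, G3p9_5, G3p9_7]⟩))) (.node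
  1566 (.node 1565 (.leaf ⟨541222500, 37926913644375879755012,
  1242119341180715633502381376077141734632272408904689457913048275320870797374, 132134, [G3p0_1,
  G3p0_2, G3p0_3, G3p0_4, G3p0_5, G3p1_2, G3p1_3, G3p1_4, G3p1_5, G3p2_3, G3p2_4, G3p2_5, G3p3_4,
  G3p3_5, G3p4_5, G3p6_4, G3p6_5, G3p6_7, G3p8_0, G3p8_1, G3p8_2, G3p8_3, G3p8_4, G3p8_5, G3p8_7,
  G3p8_9, G3p9_0, G3p9_1, G3p9_2, G3p9_3, G3p9_4, G3p9_5, G3p9_7]⟩) (.leaf ⟨571778593,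
  37926544385527900146821,
  1132573151647761732419022748245048450924049189954332771563807291432212824079, 139594, [G3p1_2,
  G3p1_3, G3p2_3, G3p4_0, G3p4_1, G3p4_2, G3p4_3, G3p5_0, G3p5_1, G3p5_2, G3p5_3, G3p5_4, G3p6_0,
  G3p6_1, G3p6_2, G3p6_3, G3p6_4, G3p6_5, G3p8_0, G3p8_7, G3p8_9, G3p9_0, G3p9_7]⟩)) (.node 1567
  (.leaf ⟨572024356, 37926544315224654321828,
  1157309387993912358984183271301496542544801999682518421165326194650412613646, 139654, [G3p0_1,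
  G3p0_2, G3p0_3, G3p2_1, G3p3_1, G3p3_2, G3p5_4, G3p6_4, G3p6_5, G3p8_0, G3p8_1, G3p8_2, G3p8_3,
  G3p8_7, G3p8_9, G3p9_0, G3p9_1, G3p9_2, G3p9_3, G3p9_7]⟩) (.leaf ⟨572040740,
  37926544314949776414884,
  1153775639944462256023737086965935929302986196930162014856017969964571688972, 139658, [G3p0_2,
  G3p0_3, G3p1_2, G3p1_3, G3p3_2, G3p5_4, G3p6_4, G3p6_5, G3p8_0, G3p8_2, G3p8_3, G3p8_7, G3p8_9,
  G3p9_0, G3p9_2, G3p9_3, G3p9_7]⟩)))))) (.node 1584 (.node 1576 (.node 1572 (.node 1570 (.node 1569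
  (.leaf ⟨571876897, 37926544278912853216392,
  1132573151647761732419022748245204554438969954446187321170928957344292208641, 139618, [G3p1_0,
  G3p2_0, G3p2_1, G3p3_0, G3p3_1, G3p3_2, G3p4_0, G3p4_1, G3p4_2, G3p4_3, G3p5_0, G3p5_1, G3p5_2,
  G3p5_3, G3p5_4, G3p6_0, G3p6_1, G3p6_2, G3p6_3, G3p6_4, G3p6_5, G3p8_0, G3p8_7, G3p8_9, G3p9_0,
  G3p9_7]⟩) (.leaf ⟨571631140, 37926544349206435669252,
  1157309387993912358984183271301362740115367325031602405567480315027935723534, 139558, [G3p0_1,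
  G3p0_2, G3p0_3, G3p1_2, G3p1_3, G3p2_3, G3p5_4, G3p6_4, G3p6_5, G3p8_0, G3p8_1, G3p8_2, G3p8_3,
  G3p8_7, G3p8_9, G3p9_0, G3p9_1, G3p9_2, G3p9_3, G3p9_7]⟩)) (.node 1571 (.leaf ⟨571581988,
  37926544097315193591972,
  1132573151647761638261059980952884465048387793097026640022433641263710339072, 139546, [G3p2_1,
  G3p3_1, G3p3_2, G3p5_4, G3p6_4, G3p6_5, G3p8_0, G3p8_7, G3p8_9, G3p9_0, G3p9_7]⟩) (.leaf
  ⟨541697633, 37926653343796244285540,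
  1132573151647762460559854867835184134094282979211113051184038661961159999491, 132250, [G3p2_0,
  G3p2_1, G3p2_3, G3p3_0, G3p3_1, G3p4_5, G3p6_0, G3p6_1, G3p6_4, G3p6_5, G3p6_7, G3p8_0, G3p8_7,
  G3p8_9, G3p9_0, G3p9_7]⟩))) (.node 1574 (.node 1573 (.leaf ⟨571549257, 38006281563400628735041,
  1132573151647761638261059980952839862878739649114075953049224900273673863421, 139538, [G3p1_0,
  G3p1_2, G3p1_3, G3p1_4, G3p1_5, G3p1_6, G3p1_7, G3p3_2, G3p5_4, G3p6_4, G3p6_5, G3p8_0, G3p8_7,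
  G3p8_9, G3p9_0, G3p9_7]⟩) (.leaf ⟨541664865, 37926653379908329310308,
  1132573151647762448005651397061778004251809837566781173375203594940278964225, 132242, [G3p1_0,
  G3p1_2, G3p1_3, G3p2_0, G3p2_3, G3p3_0, G3p4_5, G3p6_0, G3p6_4, G3p6_5, G3p6_7, G3p8_0, G3p8_7,
  G3p8_9, G3p9_0, G3p9_7]⟩)) (.node 1575 (.leaf ⟨541632097, 37926653315208941963364,
  1132573151647762485668261809381996388675149527591455899679945599416275501063, 132234, [G3p1_2,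
  G3p3_0, G3p3_1, G3p3_2, G3p4_5, G3p6_0, G3p6_1, G3p6_2, G3p6_4, G3p6_5, G3p6_7, G3p8_0, G3p8_7,
  G3p8_9, G3p9_0, G3p9_7]⟩) (.leaf ⟨545367652, 37927666619522315524260,
  1160843136043363064564785999249113365519580544625813447220882924818192662544, 133146, [G3p0_4,
  G3p1_4, G3p2_1, G3p2_4, G3p3_1, G3p3_2, G3p3_4, G3p5_4, G3p5_6, G3p5_7, G3p6_4, G3p6_7, G3p8_0,
  G3p8_4, G3p8_7, G3p8_9, G3p9_0, G3p9_4, G3p9_7]⟩)))) (.node 1580 (.node 1578 (.node 1577 (.leaf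
  ⟨545810020, 37927666837431776254116,
  1185579372389513785287909289597368625648217313756288684215362897571240345630, 133254, [G3p0_1,
  G3p0_2, G3p0_3, G3p0_4, G3p2_1, G3p3_1, G3p3_2, G3p5_4, G3p5_6, G3p5_7, G3p6_4, G3p6_7, G3p8_0,
  G3p8_1, G3p8_2, G3p8_3, G3p8_4, G3p8_7, G3p8_9, G3p9_0, G3p9_1, G3p9_2, G3p9_3, G3p9_4, G3p9_7]⟩)
  (.leaf ⟨545564257, 37927663530035301649541,
  1132573151647762335039179269934267885496590209160839936849154289196757614607, 133194, [G3p1_2,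
  G3p1_3, G3p2_3, G3p5_0, G3p5_1, G3p5_2, G3p5_3, G3p5_4, G3p5_6, G3p5_7, G3p6_0, G3p6_1, G3p6_2,
  G3p6_3, G3p6_4, G3p6_7, G3p8_0, G3p8_7, G3p8_9, G3p9_0, G3p9_7]⟩)) (.node 1579 (.leaf ⟨545662561,
  37927663423420254719112,
  1132573151647762335039179269934423989011510973652694486456275955108836999169, 133218, [G3p1_0,
  G3p2_0, G3p2_1, G3p3_0, G3p3_1, G3p3_2, G3p5_0, G3p5_1, G3p5_2, G3p5_3, G3p5_4, G3p5_6, G3p5_7,
  G3p6_0, G3p6_1, G3p6_2, G3p6_3, G3p6_4, G3p6_7, G3p8_0, G3p8_7, G3p8_9, G3p9_0, G3p9_7]⟩) (.leaf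
  ⟨545416804, 37927670249113278031108,
  1185579372389513785287909289597591640586560076560389212765929598582418047006, 133158, [G3p0_1,
  G3p0_2, G3p0_3, G3p0_4, G3p1_2, G3p1_3, G3p1_4, G3p2_3, G3p2_4, G3p3_4, G3p5_4, G3p5_6, G3p5_7,
  G3p6_4, G3p6_7, G3p8_0, G3p8_1, G3p8_2, G3p8_3, G3p8_4, G3p8_7, G3p8_9, G3p9_0, G3p9_1, G3p9_2,
  G3p9_3, G3p9_4, G3p9_7]⟩))) (.node 1582 (.node 1581 (.leaf ⟨437806148, 1260367550336430375142,
  1807498323905935701709867176607276020063242497408024302735625105073800871950, 106886, [G3p0_1,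
  G3p0_2, G3p0_3, G3p2_1, G3p3_1, G3p3_2, G3p5_4, G3p6_4, G3p6_5, G3p7_0, G3p7_1, G3p7_2, G3p7_3,
  G3p7_4, G3p7_5, G3p7_6, G3p8_0, G3p8_1, G3p8_2, G3p8_3, G3p8_4, G3p8_5, G3p8_6, G3p8_7, G3p9_0,
  G3p9_1, G3p9_2, G3p9_3, G3p9_4, G3p9_5, G3p9_6, G3p9_7, G3p9_8]⟩) (.leaf ⟨420783240,
  1255537219490152517734,
  1584872196738745627062211539289772802860909534269571452083219564269839319040, 102730, [G3p1_2,
  G3p1_3, G3p1_4, G3p2_3, G3p2_4, G3p3_4, G3p5_0, G3p5_4, G3p5_6, G3p6_0, G3p6_4, G3p7_0, G3p8_0,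
  G3p8_7, G3p9_0, G3p9_7, G3p9_8]⟩)) (.node 1583 (.leaf ⟨437822532, 1260367549992832991462,
  1803964575855662846470760389250637922230148019403176528456606602300276604940, 106890, [G3p0_2,
  G3p0_3, G3p1_2, G3p1_3, G3p3_2, G3p5_4, G3p6_4, G3p6_5, G3p7_0, G3p7_2, G3p7_3, G3p7_4, G3p7_5,
  G3p7_6, G3p8_0, G3p8_2, G3p8_3, G3p8_4, G3p8_5, G3p8_6, G3p8_7, G3p9_0, G3p9_2, G3p9_3, G3p9_4,
  G3p9_5, G3p9_6, G3p9_7, G3p9_8]⟩) (.leaf ⟨420881545, 1255538275090034660483,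
  1584872196738745627062211539289928906375830298761426001690341230181918703633, 102754, [G3p1_0,
  G3p1_4, G3p2_0, G3p2_1, G3p2_4, G3p3_0, G3p3_1, G3p3_2, G3p3_4, G3p5_0, G3p5_4, G3p5_6, G3p6_0,
  G3p6_4, G3p7_0, G3p8_0, G3p8_7, G3p9_0, G3p9_7, G3p9_8]⟩))))) (.node 1592 (.node 1588 (.node 1586
  (.node 1585 (.leaf ⟨437363780, 1260367259790482735334,
  1782762087554025715036119665111121550427877564055092945804760605073315201024, 106778, [G3p2_1,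
  G3p3_1, G3p3_2, G3p5_4, G3p6_4, G3p6_5, G3p7_0, G3p7_4, G3p7_5, G3p7_6, G3p8_0, G3p8_4, G3p8_5,
  G3p8_6, G3p8_7, G3p9_0, G3p9_4, G3p9_5, G3p9_6, G3p9_7, G3p9_8]⟩) (.leaf ⟨437412932,
  1260367584318211621190,
  1807498323905935701709867176607142217633807822757108287137779225391194439694, 106790, [G3p0_1,
  G3p0_2, G3p0_3, G3p1_2, G3p1_3, G3p2_3, G3p5_4, G3p6_4, G3p6_5, G3p7_0, G3p7_1, G3p7_2, G3p7_3,
  G3p7_4, G3p7_5, G3p7_6, G3p8_0, G3p8_1, G3p8_2, G3p8_3, G3p8_4, G3p8_5, G3p8_6, G3p8_7, G3p9_0,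
  G3p9_1, G3p9_2, G3p9_3, G3p9_4, G3p9_5, G3p9_6, G3p9_7, G3p9_8]⟩)) (.node 1587 (.leaf ⟨437331017,
  1260367368573414411329,
  1782762087554025715036119665111076948257564806074249800895032405527927455869, 106770, [G3p1_0,
  G3p1_2, G3p1_3, G3p1_4, G3p1_5, G3p1_6, G3p3_2, G3p5_4, G3p6_4, G3p6_5, G3p7_0, G3p7_4, G3p7_5,
  G3p7_6, G3p8_0, G3p8_4, G3p8_5, G3p8_6, G3p8_7, G3p9_0, G3p9_4, G3p9_5, G3p9_6, G3p9_7, G3p9_8]⟩)
  (.leaf ⟨420619401, 1255537288793744805986,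
  1584872196738745627062211539289415991958564568171546666498095421292061130777, 102690, [G3p1_0,
  G3p1_3, G3p1_4, G3p2_0, G3p2_1, G3p2_3, G3p2_4, G3p5_0, G3p5_4, G3p5_6, G3p6_0, G3p6_4, G3p7_0,
  G3p8_0, G3p8_7, G3p9_0, G3p9_7, G3p9_8]⟩))) (.node 1590 (.node 1589 (.leaf ⟨428106904,
  1254416913110414789768,
  1588405944789018695716838913956849646409637123760907879756233102342119096322, 104518, [G3p0_1,
  G3p2_1, G3p2_3, G3p3_1, G3p4_0, G3p4_1, G3p5_0, G3p5_1, G3p5_4, G3p6_0, G3p6_1, G3p6_4, G3p6_5,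
  G3p7_0, G3p7_1, G3p8_0, G3p8_1, G3p8_7, G3p9_0, G3p9_1, G3p9_7, G3p9_8]⟩) (.leaf ⟨421815432,
  1256720504284346683463,
  1588405944789018394420553242322927832633499998428114775157197872391652507650, 102982, [G3p0_1,
  G3p2_1, G3p2_3, G3p3_1, G3p4_0, G3p4_1, G3p4_5, G3p4_6, G3p5_0, G3p5_1, G3p5_6, G3p6_0, G3p6_1,
  G3p7_0, G3p7_1, G3p8_0, G3p8_1, G3p8_7, G3p9_0, G3p9_1, G3p9_7, G3p9_8]⟩)) (.node 1591 (.leaf
  ⟨428123281, 1254417021721547770881,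
  1584872196738745827923337090961238510135863169554963819191984765988435329039, 104522, [G3p1_2,
  G3p1_3, G3p2_3, G3p4_0, G3p5_0, G3p5_4, G3p6_0, G3p6_4, G3p6_5, G3p7_0, G3p8_0, G3p8_7, G3p9_0,
  G3p9_7, G3p9_8]⟩) (.leaf ⟨421831816, 1256720540293352493159,
  1584872196738745526627051419327316696359726044222170714592949536046557691904, 102986, [G3p1_2,
  G3p1_3, G3p2_3, G3p4_0, G3p4_5, G3p4_6, G3p5_0, G3p5_6, G3p6_0, G3p7_0, G3p8_0, G3p8_7, G3p9_0,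
  G3p9_7, G3p9_8]⟩)))) (.node 1596 (.node 1594 (.node 1593 (.leaf ⟨428221585,
  1254416915103279614980,
  1584872196738745827923337090961394613650783934046818368799106431900514713601, 104546, [G3p1_0,
  G3p2_0, G3p2_1, G3p3_0, G3p3_1, G3p3_2, G3p4_0, G3p5_0, G3p5_4, G3p6_0, G3p6_4, G3p6_5, G3p7_0,
  G3p8_0, G3p8_7, G3p9_0, G3p9_7, G3p9_8]⟩) (.leaf ⟨421930121, 1256720469993327793283,
  1584872196738745526627051419327472799874646808714025264200071201958637076481, 103010, [G3p1_0,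
  G3p2_0, G3p2_1, G3p3_0, G3p3_1, G3p3_2, G3p4_0, G3p4_5, G3p4_6, G3p5_0, G3p5_6, G3p6_0, G3p7_0,
  G3p8_0, G3p8_7, G3p9_0, G3p9_7, G3p9_8]⟩)) (.node 1595 (.leaf ⟨427975832, 1254417275949251955848,
  1609608433090655902477849851930204248855984436315569180119458101050043400206, 104486, [G3p0_1,
  G3p0_2, G3p0_3, G3p1_2, G3p1_3, G3p2_3, G3p4_0, G3p4_1, G3p4_2, G3p4_3, G3p5_0, G3p5_1, G3p5_2,
  G3p5_3, G3p5_4, G3p6_0, G3p6_1, G3p6_2, G3p6_3, G3p6_4, G3p6_5, G3p7_0, G3p7_1, G3p7_2, G3p7_3,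
  G3p8_0, G3p8_1, G3p8_2, G3p8_3, G3p8_7, G3p9_0, G3p9_1, G3p9_2, G3p9_3, G3p9_7, G3p9_8]⟩) (.leaf
  ⟨421684356, 1256720830839300133223,
  1609608433090655601181564180296282435079847310982776075520422871048036286478, 102950, [G3p0_1,
  G3p0_2, G3p0_3, G3p1_2, G3p1_3, G3p2_3, G3p4_0, G3p4_1, G3p4_2, G3p4_3, G3p4_5, G3p4_6, G3p5_0,
  G3p5_1, G3p5_2, G3p5_3, G3p5_6, G3p6_0, G3p6_1, G3p6_2, G3p6_3, G3p7_0, G3p7_1, G3p7_2, G3p7_3,
  G3p8_0, G3p8_1, G3p8_2, G3p8_3, G3p8_7, G3p9_0, G3p9_1, G3p9_2, G3p9_3, G3p9_7, G3p9_8]⟩))) (.node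
  1598 (.node 1597 (.leaf ⟨438412356, 1260359378491134837990,
  1754492103151842772688105244834772658666008670694772312009832516316563505152, 107034, [G3p2_1,
  G3p3_1, G3p3_2, G3p4_5, G3p4_6, G3p6_5, G3p7_0, G3p7_5, G3p7_6, G3p8_0, G3p8_5, G3p8_6, G3p8_7,
  G3p9_0, G3p9_5, G3p9_6, G3p9_7, G3p9_8]⟩) (.leaf ⟨421635204, 1256720469993327792391,
  1584872196738745526627051419327450498789160718873086730190795415669033664512, 102938, [G3p2_1,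
  G3p3_1, G3p3_2, G3p4_0, G3p4_5, G3p4_6, G3p5_0, G3p5_6, G3p6_0, G3p7_0, G3p8_0, G3p8_7, G3p9_0,
  G3p9_7, G3p9_8]⟩)) (.node 1599 (.leaf ⟨427926680, 1254417060376253435016,
  1584872196738745915804102340434183581650054177613553838786435540082490212352, 104474, [G3p2_1,
  G3p3_1, G3p3_2, G3p4_0, G3p4_1, G3p4_2, G3p4_3, G3p5_0, G3p5_1, G3p5_2, G3p5_3, G3p5_4, G3p6_0,
  G3p6_1, G3p6_2, G3p6_3, G3p6_4, G3p6_5, G3p7_0, G3p8_0, G3p8_7, G3p9_0, G3p9_7, G3p9_8]⟩) (.leaf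
  ⟨428450961, 1254416912938616097859,
  1584872196738745827923337090961305413392243554624901398805384167412306477059, 104602, [G3p2_0,
  G3p2_1, G3p2_3, G3p3_0, G3p3_1, G3p4_0, G3p5_0, G3p5_4, G3p6_0, G3p6_4, G3p6_5, G3p7_0, G3p8_0,
  G3p8_7, G3p9_0, G3p9_7, G3p9_8]⟩))))))

def G3T26 : Tr :=
  .node 1632 (.node 1616 (.node 1608 (.node 1604 (.node 1602 (.node 1601 (.leaf ⟨438379593,
  1260359487274066512961,
  1754492103151842772688105244834728056495612835964192609858047828829907189869, 107026, [G3p1_0,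
  G3p1_2, G3p1_3, G3p1_5, G3p1_6, G3p3_2, G3p4_5, G3p4_6, G3p6_5, G3p7_0, G3p7_5, G3p7_6, G3p8_0,
  G3p8_5, G3p8_6, G3p8_7, G3p9_0, G3p9_5, G3p9_6, G3p9_7, G3p9_8]⟩) (.leaf ⟨421602441,
  1256720578776259465281,
  1584872196738745526627051419327405896618266423644087684586671800534765928461, 102930, [G3p1_0,
  G3p1_2, G3p1_3, G3p3_2, G3p4_0, G3p4_5, G3p4_6, G3p5_0, G3p5_6, G3p6_0, G3p7_0, G3p8_0, G3p8_7,
  G3p9_0, G3p9_7, G3p9_8]⟩)) (.node 1603 (.leaf ⟨427893913, 1254417060135735266433,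
  1584872196738745903249707304795165941038480406183458506897082654309424562189, 104466, [G3p1_0,
  G3p1_2, G3p1_3, G3p3_2, G3p4_0, G3p4_2, G3p4_3, G3p5_0, G3p5_2, G3p5_3, G3p5_4, G3p6_0, G3p6_2,
  G3p6_3, G3p6_4, G3p6_5, G3p7_0, G3p8_0, G3p8_7, G3p9_0, G3p9_7, G3p9_8]⟩) (.leaf ⟨428418193,
  1254416949086169239652,
  1584872196738745827923337090961260811221349259395902353201260552278037823489, 104594, [G3p1_0,
  G3p1_2, G3p1_3, G3p2_0, G3p2_3, G3p3_0, G3p4_0, G3p5_0, G3p5_4, G3p6_0, G3p6_4, G3p6_5, G3p7_0,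
  G3p8_0, G3p8_7, G3p9_0, G3p9_7, G3p9_8]⟩))) (.node 1606 (.node 1605 (.leaf ⟨428385425,
  1254416882117930781730,
  1584872196738745827923337090961394612629952410174578582891868201094197215239, 104586, [G3p1_2,
  G3p3_0, G3p3_1, G3p3_2, G3p4_0, G3p5_0, G3p5_4, G3p6_0, G3p6_4, G3p6_5, G3p7_0, G3p8_0, G3p8_7,
  G3p9_0, G3p9_7, G3p9_8]⟩) (.leaf ⟨427959449, 1254417053573025238146,
  1584872196738745878140917233517130664919412598231588750240140079349939830793, 104482, [G3p1_0,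
  G3p1_3, G3p2_0, G3p2_1, G3p2_3, G3p4_0, G3p4_3, G3p5_0, G3p5_3, G3p5_4, G3p6_0, G3p6_3, G3p6_4,
  G3p6_5, G3p7_0, G3p8_0, G3p8_7, G3p9_0, G3p9_7, G3p9_8]⟩)) (.node 1607 (.leaf ⟨421667977,
  1256720609596944781410,
  1584872196738745526627051419327316697380557568094410500500187766852875190281, 102946, [G3p1_0,
  G3p1_3, G3p2_0, G3p2_1, G3p2_3, G3p4_0, G3p4_5, G3p4_6, G3p5_0, G3p5_6, G3p6_0, G3p7_0, G3p8_0,
  G3p8_7, G3p9_0, G3p9_7, G3p9_8]⟩) (.leaf ⟨437560417, 1260367729597627900202,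
  1807498323905935795867829943899440005938903893156119234115827645707726028815, 106826, [G3p1_2,
  G3p1_3, G3p2_3, G3p4_0, G3p4_1, G3p4_2, G3p4_3, G3p5_0, G3p5_1, G3p5_2, G3p5_3, G3p5_4, G3p6_0,
  G3p6_1, G3p6_2, G3p6_3, G3p6_4, G3p6_5, G3p7_0, G3p7_1, G3p7_2, G3p7_3, G3p7_4, G3p7_5, G3p7_6,
  G3p8_0, G3p8_1, G3p8_2, G3p8_3, G3p8_4, G3p8_5, G3p8_6, G3p8_7, G3p9_0, G3p9_1, G3p9_2, G3p9_3,
  G3p9_4, G3p9_5, G3p9_6, G3p9_7, G3p9_8]⟩)))) (.node 1612 (.node 1610 (.node 1609 (.leaf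
  ⟨437658721, 1260367622982580969773,
  1807498323905935795867829943899596109453824657647973783722949311619805413377, 106850, [G3p1_0,
  G3p2_0, G3p2_1, G3p3_0, G3p3_1, G3p3_2, G3p4_0, G3p4_1, G3p4_2, G3p4_3, G3p5_0, G3p5_1, G3p5_2,
  G3p5_3, G3p5_4, G3p6_0, G3p6_1, G3p6_2, G3p6_3, G3p6_4, G3p6_5, G3p7_0, G3p7_1, G3p7_2, G3p7_3,
  G3p7_4, G3p7_5, G3p7_6, G3p8_0, G3p8_1, G3p8_2, G3p8_3, G3p8_4, G3p8_5, G3p8_6, G3p8_7, G3p9_0,
  G3p9_1, G3p9_2, G3p9_3, G3p9_4, G3p9_5, G3p9_6, G3p9_7, G3p9_8]⟩) (.leaf ⟨440706145,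
  1263861288050608968903,
  1807498323905935400413581504973220403857670696315103982377572886524627714063, 107594, [G3p1_2,
  G3p1_3, G3p2_3, G3p4_5, G3p4_6, G3p5_6, G3p7_0, G3p7_1, G3p7_2, G3p7_3, G3p7_4, G3p7_5, G3p7_6,
  G3p8_0, G3p8_1, G3p8_2, G3p8_3, G3p8_4, G3p8_5, G3p8_6, G3p8_7, G3p9_0, G3p9_1, G3p9_2, G3p9_3,
  G3p9_4, G3p9_5, G3p9_6, G3p9_7, G3p9_8]⟩)) (.node 1611 (.leaf ⟨440804449, 1263861181435562038474,
  1807498323905935400413581504973376507372591460806958531984694552436707098625, 107618, [G3p1_0,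
  G3p2_0, G3p2_1, G3p3_0, G3p3_1, G3p3_2, G3p4_5, G3p4_6, G3p5_6, G3p7_0, G3p7_1, G3p7_2, G3p7_3,
  G3p7_4, G3p7_5, G3p7_6, G3p8_0, G3p8_1, G3p8_2, G3p8_3, G3p8_4, G3p8_5, G3p8_6, G3p8_7, G3p9_0,
  G3p9_1, G3p9_2, G3p9_3, G3p9_4, G3p9_5, G3p9_6, G3p9_7, G3p9_8]⟩) (.leaf ⟨441033825,
  1263860961495655519431,
  1786295835604298268978940780833726333140881139461852856188378194063843852291, 107674, [G3p2_0,
  G3p2_1, G3p2_3, G3p3_0, G3p3_1, G3p4_5, G3p4_6, G3p5_6, G3p7_0, G3p7_1, G3p7_4, G3p7_5, G3p7_6,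
  G3p8_0, G3p8_1, G3p8_4, G3p8_5, G3p8_6, G3p8_7, G3p9_0, G3p9_1, G3p9_4, G3p9_5, G3p9_6, G3p9_7,
  G3p9_8]⟩))) (.node 1614 (.node 1613 (.leaf ⟨441001057, 1263860997504661329095,
  1782762087554025413739833993477088235307791853912322359617155563282132697089, 107666, [G3p1_0,
  G3p1_2, G3p1_3, G3p2_0, G3p2_3, G3p3_0, G3p4_5, G3p4_6, G3p5_6, G3p7_0, G3p7_4, G3p7_5, G3p7_6,
  G3p8_0, G3p8_4, G3p8_5, G3p8_6, G3p8_7, G3p9_0, G3p9_4, G3p9_5, G3p9_6, G3p9_7, G3p9_8]⟩) (.leaf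
  ⟨440509540, 1267431155806013366502,
  1782762087554025413739833993479697458226182509781105251534016088515812524144, 107546, [G3p0_4,
  G3p0_5, G3p0_6, G3p1_4, G3p1_5, G3p1_6, G3p2_1, G3p2_4, G3p2_5, G3p2_6, G3p3_1, G3p3_2, G3p3_4,
  G3p3_5, G3p3_6, G3p4_5, G3p4_6, G3p5_6, G3p7_0, G3p7_4, G3p7_5, G3p7_6, G3p8_0, G3p8_4, G3p8_5,
  G3p8_6, G3p8_7, G3p9_0, G3p9_4, G3p9_5, G3p9_6, G3p9_7, G3p9_8]⟩)) (.node 1615 (.leaf ⟨440968289,
  1263860936206888080583,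
  1793363331704843979457154355547002523702979975652592942209060259040619593735, 107658, [G3p1_2,
  G3p3_0, G3p3_1, G3p3_2, G3p4_5, G3p4_6, G3p5_6, G3p7_0, G3p7_1, G3p7_2, G3p7_4, G3p7_5, G3p7_6,
  G3p8_0, G3p8_1, G3p8_2, G3p8_4, G3p8_5, G3p8_6, G3p8_7, G3p9_0, G3p9_1, G3p9_2, G3p9_4, G3p9_5,
  G3p9_6, G3p9_7, G3p9_8]⟩) (.leaf ⟨440558692, 1271001708938340216134,
  1807498323905935400413581504975718125432112768483120592867034708833691762814, 107558, [G3p0_1,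
  G3p0_2, G3p0_3, G3p0_4, G3p0_5, G3p0_6, G3p1_2, G3p1_3, G3p1_4, G3p1_5, G3p1_6, G3p2_3, G3p2_4,
  G3p2_5, G3p2_6, G3p3_4, G3p3_5, G3p3_6, G3p4_5, G3p4_6, G3p5_6, G3p7_0, G3p7_1, G3p7_2, G3p7_3,
  G3p7_4, G3p7_5, G3p7_6, G3p8_0, G3p8_1, G3p8_2, G3p8_3, G3p8_4, G3p8_5, G3p8_6, G3p8_7, G3p9_0,
  G3p9_1, G3p9_2, G3p9_3, G3p9_4, G3p9_5, G3p9_6, G3p9_7, G3p9_8]⟩))))) (.node 1624 (.node 1620
  (.node 1618 (.node 1617 (.leaf ⟨407135384, 1257981512144542303302,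
  1588405944789018576450086243459294074277017693274248922419129313797475532802, 99398, [G3p0_1,
  G3p2_1, G3p2_3, G3p3_1, G3p4_0, G3p4_1, G3p4_5, G3p4_6, G3p6_5, G3p7_0, G3p7_1, G3p8_0, G3p8_1,
  G3p8_7, G3p9_0, G3p9_1, G3p9_7, G3p9_8]⟩) (.leaf ⟨407151713, 1254637916013754193095,
  1694418386297204428213443563223548319710944514996651235302209172572224815119, 99402, [G3p1_2,
  G3p1_3, G3p2_3, G3p4_5, G3p6_0, G3p6_1, G3p6_2, G3p6_3, G3p6_4, G3p6_5, G3p7_0, G3p7_1, G3p7_2,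
  G3p7_3, G3p7_4, G3p7_5, G3p8_0, G3p8_1, G3p8_2, G3p8_3, G3p8_4, G3p8_5, G3p8_7, G3p9_0, G3p9_1,
  G3p9_2, G3p9_3, G3p9_4, G3p9_5, G3p9_7, G3p9_8]⟩)) (.node 1619 (.leaf ⟨407250017,
  1254637809398707262666,
  1694418386297204428213443563223704423225865279488505784909330838484304199681, 99426, [G3p1_0,
  G3p2_0, G3p2_1, G3p3_0, G3p3_1, G3p3_2, G3p4_5, G3p6_0, G3p6_1, G3p6_2, G3p6_3, G3p6_4, G3p6_5,
  G3p7_0, G3p7_1, G3p7_2, G3p7_3, G3p7_4, G3p7_5, G3p8_0, G3p8_1, G3p8_2, G3p8_3, G3p8_4, G3p8_5,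
  G3p8_7, G3p9_0, G3p9_1, G3p9_2, G3p9_3, G3p9_4, G3p9_5, G3p9_7, G3p9_8]⟩) (.leaf ⟨407004312,
  1257981802415612036166,
  1609608433090655707884726985136830094050123167066550497666374924595347980302, 99366, [G3p0_1,
  G3p0_2, G3p0_3, G3p1_2, G3p1_3, G3p2_3, G3p4_0, G3p4_1, G3p4_2, G3p4_3, G3p4_5, G3p4_6, G3p6_5,
  G3p7_0, G3p7_1, G3p7_2, G3p7_3, G3p8_0, G3p8_1, G3p8_2, G3p8_3, G3p8_7, G3p9_0, G3p9_1, G3p9_2,
  G3p9_3, G3p9_7, G3p9_8]⟩))) (.node 1622 (.node 1621 (.leaf ⟨406987929, 1257981617491500139618,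
  1584872196738745721210979464871665801450172248363749930345046596850270339081, 99362, [G3p1_0,
  G3p1_3, G3p2_0, G3p2_1, G3p2_3, G3p4_0, G3p4_3, G3p4_5, G3p4_6, G3p6_5, G3p7_0, G3p8_0, G3p8_7,
  G3p9_0, G3p9_7, G3p9_8]⟩) (.leaf ⟨407479393, 1254637589458800743623,
  1673215897995567221453582014443885082964681879651403115884749146543026798595, 99482, [G3p2_0,
  G3p2_1, G3p2_3, G3p3_0, G3p3_1, G3p4_5, G3p6_0, G3p6_1, G3p6_4, G3p6_5, G3p7_0, G3p7_1, G3p7_4,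
  G3p7_5, G3p8_0, G3p8_1, G3p8_4, G3p8_5, G3p8_7, G3p9_0, G3p9_1, G3p9_4, G3p9_5, G3p9_7, G3p9_8]⟩))
  (.node 1623 (.leaf ⟨407446625, 1254637625467806553287,
  1669682149945294353660271756313885457460013747686539787108815626833246617601, 99474, [G3p1_0,
  G3p1_2, G3p1_3, G3p2_0, G3p2_3, G3p3_0, G3p4_5, G3p6_0, G3p6_4, G3p6_5, G3p7_0, G3p7_4, G3p7_5,
  G3p8_0, G3p8_4, G3p8_5, G3p8_7, G3p9_0, G3p9_4, G3p9_5, G3p9_7, G3p9_8]⟩) (.leaf ⟨407413857,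
  1254637564170033304775,
  1680283394096112957040202530703884328869938408672808866314852989375940591623, 99466, [G3p1_2,
  G3p3_0, G3p3_1, G3p3_2, G3p4_5, G3p6_0, G3p6_1, G3p6_2, G3p6_4, G3p6_5, G3p7_0, G3p7_1, G3p7_2,
  G3p7_4, G3p7_5, G3p8_0, G3p8_1, G3p8_2, G3p8_4, G3p8_5, G3p8_7, G3p9_0, G3p9_1, G3p9_2, G3p9_4,
  G3p9_5, G3p9_7, G3p9_8]⟩)))) (.node 1628 (.node 1626 (.node 1625 (.leaf ⟨407151761,
  1257981620824394761217,
  1584872196738745721210979453179652701782117378862031482707544208762140033039, 99402, [G3p1_2,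
  G3p1_3, G3p2_3, G3p4_0, G3p4_5, G3p4_6, G3p6_5, G3p7_0, G3p8_0, G3p8_7, G3p9_0, G3p9_7, G3p9_8]⟩)
  (.leaf ⟨407250065, 1257981514206126605316,
  1584872196738745721210979453179808805297038143353886032314665874674219417601, 99426, [G3p1_0,
  G3p2_0, G3p2_1, G3p3_0, G3p3_1, G3p3_2, G3p4_0, G3p4_5, G3p4_6, G3p6_5, G3p7_0, G3p8_0, G3p8_7,
  G3p9_0, G3p9_7, G3p9_8]⟩)) (.node 1627 (.leaf ⟨407397476, 1254749309801285689574,
  1694418386297204334056917532423470664603537846444792038649924200853667708990, 99462, [G3p0_1,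
  G3p0_2, G3p0_3, G3p0_4, G3p0_5, G3p2_1, G3p3_1, G3p3_2, G3p4_5, G3p6_4, G3p6_5, G3p7_0, G3p7_1,
  G3p7_2, G3p7_3, G3p7_4, G3p7_5, G3p8_0, G3p8_1, G3p8_2, G3p8_3, G3p8_4, G3p8_5, G3p8_7, G3p9_0,
  G3p9_1, G3p9_2, G3p9_3, G3p9_4, G3p9_5, G3p9_7, G3p9_8]⟩) (.leaf ⟨407413860,
  1254749309457688305894,
  1690884638246931478817810745066832566770692598689153936097075161912535941180, 99466, [G3p0_2,
  G3p0_3, G3p0_4, G3p0_5, G3p1_2, G3p1_3, G3p1_4, G3p1_5, G3p3_2, G3p4_5, G3p6_4, G3p6_5, G3p7_0,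
  G3p7_2, G3p7_3, G3p7_4, G3p7_5, G3p8_0, G3p8_2, G3p8_3, G3p8_4, G3p8_5, G3p8_7, G3p9_0, G3p9_2,
  G3p9_3, G3p9_4, G3p9_5, G3p9_7, G3p9_8]⟩))) (.node 1630 (.node 1629 (.leaf ⟨411329688,
  1258991444396448254055,
  1588405944789018375590780484935699035395596693314351189112711663818163486722, 100422, [G3p0_1,
  G3p2_1, G3p2_3, G3p3_1, G3p4_0, G3p4_1, G3p4_6, G3p5_0, G3p5_1, G3p5_4, G3p5_6, G3p7_0, G3p7_1,
  G3p8_0, G3p8_1, G3p8_7, G3p9_0, G3p9_1, G3p9_7, G3p9_8]⟩) (.leaf ⟨411346065,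
  1258991553041940973569,
  1584872196738745520351482132713449426793401585523739960753174216392552939535, 100426, [G3p1_2,
  G3p1_3, G3p2_3, G3p4_0, G3p4_6, G3p5_0, G3p5_4, G3p5_6, G3p7_0, G3p8_0, G3p8_7, G3p9_0, G3p9_7,
  G3p9_8]⟩)) (.node 1631 (.leaf ⟨411444369, 1258991446423672817668,
  1584872196738745520351482132713605530308322350015594510360295882304632324097, 100450, [G3p1_0,
  G3p2_0, G3p2_1, G3p3_0, G3p3_1, G3p3_2, G3p4_0, G3p4_6, G3p5_0, G3p5_4, G3p5_6, G3p7_0, G3p8_0,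
  G3p8_7, G3p9_0, G3p9_7, G3p9_8]⟩) (.leaf ⟨411198616, 1258991770951401703527,
  1609608433090655507026570598268884471812470927377015496247671328957673635854, 100390, [G3p0_1,
  G3p0_2, G3p0_3, G3p1_2, G3p1_3, G3p2_3, G3p4_0, G3p4_1, G3p4_2, G3p4_3, G3p4_6, G3p5_0, G3p5_1,
  G3p5_2, G3p5_3, G3p5_4, G3p5_6, G3p7_0, G3p7_1, G3p7_2, G3p7_3, G3p8_0, G3p8_1, G3p8_2, G3p8_3,
  G3p8_7, G3p9_0, G3p9_1, G3p9_2, G3p9_3, G3p9_7, G3p9_8]⟩)))))) (.node 1648 (.node 1640 (.node 1636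
  (.node 1634 (.node 1633 (.leaf ⟨411149464, 1258991555378403182695,
  1584872196738745520352823086772863804606540668675000154914648767990120448000, 100378, [G3p2_1,
  G3p3_1, G3p3_2, G3p4_0, G3p4_1, G3p4_2, G3p4_3, G3p4_6, G3p5_0, G3p5_1, G3p5_2, G3p5_3, G3p5_4,
  G3p5_6, G3p7_0, G3p8_0, G3p8_7, G3p9_0, G3p9_7, G3p9_8]⟩) (.leaf ⟨411673745,
  1260144365764724526147,
  1584872196738745520351482132714943599520559413414797487991997988585972367363, 100506, [G3p2_0,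
  G3p2_1, G3p2_3, G3p2_6, G3p3_0, G3p3_1, G3p3_6, G3p4_0, G3p4_6, G3p5_0, G3p5_4, G3p5_6, G3p7_0,
  G3p8_0, G3p8_7, G3p9_0, G3p9_7, G3p9_8]⟩)) (.node 1635 (.leaf ⟨411116697, 1258991555172244752481,
  1584872196738745520352631521907207691666545743660237655230006771145123823629, 100370, [G3p1_0,
  G3p1_2, G3p1_3, G3p3_2, G3p4_0, G3p4_2, G3p4_3, G3p4_6, G3p5_0, G3p5_2, G3p5_3, G3p5_4, G3p5_6,
  G3p7_0, G3p8_0, G3p8_7, G3p9_0, G3p9_7, G3p9_8]⟩) (.leaf ⟨411640977, 1261297323416884514916,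
  1584872196738745520351482132714898997349997425184744671356100325216773799937, 100498, [G3p1_0,
  G3p1_2, G3p1_3, G3p1_6, G3p2_0, G3p2_3, G3p2_6, G3p3_0, G3p3_6, G3p4_0, G3p4_6, G3p5_0, G3p5_4,
  G3p5_6, G3p7_0, G3p8_0, G3p8_7, G3p9_0, G3p9_7, G3p9_8]⟩))) (.node 1638 (.node 1637 (.leaf
  ⟨411608209, 1258991413438323984418,
  1584872196738745520351482132715032776980196786024413010422507146634697572359, 100490, [G3p1_2,
  G3p3_0, G3p3_1, G3p3_2, G3p3_6, G3p4_0, G3p4_6, G3p5_0, G3p5_4, G3p5_6, G3p7_0, G3p8_0, G3p8_7,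
  G3p9_0, G3p9_7, G3p9_8]⟩) (.leaf ⟨411182233, 1258991549709046351970,
  1584872196738745520352248392175895470890635628539033562982485974041777143817, 100386, [G3p1_0,
  G3p1_3, G3p2_0, G3p2_1, G3p2_3, G3p4_0, G3p4_3, G3p4_6, G3p5_0, G3p5_3, G3p5_4, G3p5_6, G3p7_0,
  G3p8_0, G3p8_7, G3p9_0, G3p9_7, G3p9_8]⟩)) (.node 1639 (.leaf ⟨411591780, 1255541943335702896870,
  1637878417492838449371615833280467340966054808753460520815316323139560800286, 100486, [G3p0_1,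
  G3p0_2, G3p0_3, G3p0_4, G3p2_1, G3p3_1, G3p3_2, G3p5_4, G3p5_6, G3p6_4, G3p7_0, G3p7_1, G3p7_2,
  G3p7_3, G3p7_4, G3p8_0, G3p8_1, G3p8_2, G3p8_3, G3p8_4, G3p8_7, G3p9_0, G3p9_1, G3p9_2, G3p9_3,
  G3p9_4, G3p9_7, G3p9_8]⟩) (.leaf ⟨411346017, 1255538635939228292295,
  1637878417492838543529578578650106766878172430178613018409930333912164139023, 100426, [G3p1_2,
  G3p1_3, G3p2_3, G3p5_0, G3p5_1, G3p5_2, G3p5_3, G3p5_4, G3p5_6, G3p6_0, G3p6_1, G3p6_2, G3p6_3,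
  G3p6_4, G3p7_0, G3p7_1, G3p7_2, G3p7_3, G3p7_4, G3p8_0, G3p8_1, G3p8_2, G3p8_3, G3p8_4, G3p8_7,
  G3p9_0, G3p9_1, G3p9_2, G3p9_3, G3p9_4, G3p9_7, G3p9_8]⟩)))) (.node 1644 (.node 1642 (.node 1641
  (.leaf ⟨411198564, 1255545355017204673862,
  1637878417492838449371615833280690355904397571557561049365883024150738501662, 100390, [G3p0_1,
  G3p0_2, G3p0_3, G3p0_4, G3p1_2, G3p1_3, G3p1_4, G3p2_3, G3p2_4, G3p3_4, G3p5_4, G3p5_6, G3p6_4,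
  G3p7_0, G3p7_1, G3p7_2, G3p7_3, G3p7_4, G3p8_0, G3p8_1, G3p8_2, G3p8_3, G3p8_4, G3p8_7, G3p9_0,
  G3p9_1, G3p9_2, G3p9_3, G3p9_4, G3p9_7, G3p9_8]⟩) (.leaf ⟨2291421576, 4841339235451940212803,
  1782755590265705418359876594736034735597979608080207922755835916229901746179, 559429, [G3p2_0,
  G3p2_1, G3p2_3, G3p2_4, G3p2_5, G3p2_6, G3p3_0, G3p3_1, G3p3_4, G3p3_5, G3p3_6, G3p4_5, G3p4_6,
  G3p5_6, G3p7_8, G3p9_0, G3p9_4, G3p9_5, G3p9_6, G3p9_7, G3p9_8]⟩)) (.node 1643 (.leaf ⟨2291683716,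
  4841339419205673521312,
  1807491449172602798974042759744004772418758147280502041029225194950069452815, 559493, [G3p2_1,
  G3p3_1, G3p3_2, G3p4_5, G3p4_6, G3p5_6, G3p7_8, G3p9_0, G3p9_1, G3p9_2, G3p9_3, G3p9_4, G3p9_5,
  G3p9_6, G3p9_7, G3p9_8]⟩) (.leaf ⟨2288275848, 4837845568041007553603,
  1782755590265705719656162266367458827800256208476041119010378496839730266115, 558661, [G3p2_0,
  G3p2_1, G3p2_3, G3p3_0, G3p3_1, G3p5_4, G3p6_4, G3p6_5, G3p7_8, G3p9_0, G3p9_4, G3p9_5, G3p9_6,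
  G3p9_7, G3p9_8]⟩))) (.node 1646 (.node 1645 (.leaf ⟨308586001, 4834205642422969536513,
  1613138272046980623155040156085750859712609214769203982226808176725465169935, 75338, [G3p1_2,
  G3p1_3, G3p2_3, G3p5_4, G3p5_6, G3p6_4, G3p7_8, G3p9_0, G3p9_4, G3p9_7, G3p9_8]⟩) (.leaf
  ⟨2288292232, 4837845604188526058596,
  1782755590265705719656162266367414225629361913247042073406254881705461612545, 558665, [G3p1_0,
  G3p1_2, G3p1_3, G3p2_0, G3p2_3, G3p3_0, G3p5_4, G3p6_4, G3p6_5, G3p7_8, G3p9_0, G3p9_4, G3p9_5,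
  G3p9_6, G3p9_7, G3p9_8]⟩)) (.node 1647 (.leaf ⟨2291437960, 4841339271599458717796,
  1782755590265705418359876594735990133427666850099364777846107716684505743361, 559433, [G3p1_0,
  G3p1_2, G3p1_3, G3p1_4, G3p1_5, G3p1_6, G3p2_0, G3p2_3, G3p2_4, G3p2_5, G3p2_6, G3p3_0, G3p3_4,
  G3p3_5, G3p3_6, G3p4_5, G3p4_6, G3p5_6, G3p7_8, G3p9_0, G3p9_4, G3p9_5, G3p9_6, G3p9_7, G3p9_8]⟩)
  (.leaf ⟨2291700100, 4841339418930795614369,
  1803957755043046030314876164742474333216208884257749339620325087048903688205, 559497, [G3p1_0,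
  G3p1_2, G3p1_3, G3p3_2, G3p4_5, G3p4_6, G3p5_6, G3p7_8, G3p9_0, G3p9_2, G3p9_3, G3p9_4, G3p9_5,
  G3p9_6, G3p9_7, G3p9_8]⟩))))) (.node 1656 (.node 1652 (.node 1650 (.node 1649 (.leaf ⟨2291540361,
  9716039941563951063171,
  1780988743200927034030293297243944634167932579070969632197025757082023887345, 559458, [G3p0_4,
  G3p0_5, G3p0_6, G3p0_7, G3p0_8, G3p1_0, G3p1_4, G3p1_5, G3p1_6, G3p1_7, G3p1_8, G3p2_0, G3p2_1,
  G3p2_4, G3p2_5, G3p2_6, G3p2_7, G3p2_8, G3p3_0, G3p3_1, G3p3_2, G3p3_4, G3p3_5, G3p3_6, G3p3_7,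
  G3p3_8, G3p4_5, G3p4_6, G3p5_6, G3p7_8, G3p9_4, G3p9_5, G3p9_6, G3p9_7, G3p9_8]⟩) (.leaf
  ⟨2288394633, 9712546274153018403971,
  1780988743200927335326578968877866447944069704403762736796060986538561896945, 558690, [G3p0_4,
  G3p0_5, G3p0_6, G3p0_7, G3p0_8, G3p1_0, G3p1_4, G3p1_5, G3p1_6, G3p1_7, G3p1_8, G3p2_0, G3p2_1,
  G3p2_4, G3p2_5, G3p2_6, G3p2_7, G3p2_8, G3p3_0, G3p3_1, G3p3_2, G3p3_4, G3p3_5, G3p3_6, G3p3_7,
  G3p3_8, G3p5_4, G3p6_4, G3p6_5, G3p7_8, G3p9_4, G3p9_5, G3p9_6, G3p9_7, G3p9_8]⟩)) (.node 1651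
  (.leaf ⟨2288144772, 4837845640503548288256,
  1782755590265705719656162266367391924543875823406103539396979095415858135055, 558629, [G3p1_2,
  G3p1_3, G3p2_3, G3p5_4, G3p6_4, G3p6_5, G3p7_8, G3p9_0, G3p9_4, G3p9_5, G3p9_6, G3p9_7, G3p9_8]⟩)
  (.leaf ⟨2291290500, 4841339307914480947360,
  1782755590265705418359876594733470110767738698073310434797943865959312785423, 559397, [G3p1_2,
  G3p1_3, G3p2_3, G3p4_5, G3p4_6, G3p5_6, G3p7_8, G3p9_0, G3p9_4, G3p9_5, G3p9_6, G3p9_7,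
  G3p9_8]⟩))) (.node 1654 (.node 1653 (.leaf ⟨2288095620, 4837845533887427616003,
  1782755590265705719656162266367548028058796587897958089004100761327937519617, 558617, [G3p1_0,
  G3p2_0, G3p2_1, G3p3_0, G3p3_1, G3p3_2, G3p5_4, G3p6_4, G3p6_5, G3p7_8, G3p9_0, G3p9_4, G3p9_5,
  G3p9_6, G3p9_7, G3p9_8]⟩) (.leaf ⟨2291241348, 4841339201298360275107,
  1782755590265705418359876594733626214282659462565164984405065531871392169985, 559385, [G3p1_0,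
  G3p2_0, G3p2_1, G3p3_0, G3p3_1, G3p3_2, G3p4_5, G3p4_6, G3p5_6, G3p7_8, G3p9_0, G3p9_4, G3p9_5,
  G3p9_6, G3p9_7, G3p9_8]⟩)) (.node 1655 (.leaf ⟨2291212681, 7278689680211939858497,
  1780988743200927034030293297232816392513027012137352458486587482194153570813, 559378, [G3p0_4,
  G3p0_5, G3p0_6, G3p0_7, G3p0_8, G3p1_0, G3p1_2, G3p1_3, G3p1_4, G3p1_5, G3p1_6, G3p1_7, G3p1_8,
  G3p3_2, G3p4_5, G3p4_6, G3p5_6, G3p7_8, G3p9_4, G3p9_5, G3p9_6, G3p9_7, G3p9_8]⟩) (.leaf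
  ⟨2288066953, 7275196012801007199297,
  1780988743200927335326578968866738206289164137470145563085622711650691580413, 558610, [G3p0_4,
  G3p0_5, G3p0_6, G3p0_7, G3p0_8, G3p1_0, G3p1_2, G3p1_3, G3p1_4, G3p1_5, G3p1_6, G3p1_7, G3p1_8,
  G3p3_2, G3p5_4, G3p6_4, G3p6_5, G3p7_8, G3p9_4, G3p9_5, G3p9_6, G3p9_7, G3p9_8]⟩)))) (.node 1660
  (.node 1658 (.node 1657 (.leaf ⟨2291278217, 8497364896100096613474,
  1780988743200927034030293297232727362055372149373153152233908734669295714809, 559394, [G3p0_4,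
  G3p0_5, G3p0_6, G3p0_7, G3p0_8, G3p1_0, G3p1_3, G3p1_4, G3p1_5, G3p1_6, G3p1_7, G3p1_8, G3p2_0,
  G3p2_1, G3p2_3, G3p2_4, G3p2_5, G3p2_6, G3p2_7, G3p2_8, G3p4_5, G3p4_6, G3p5_6, G3p7_8, G3p9_4,
  G3p9_5, G3p9_6, G3p9_7, G3p9_8]⟩) (.leaf ⟨2288132489, 8493871228689163954274,
  1780988743200927335326578968866649175831509274705946256832943964125833724409, 558626, [G3p0_4,
  G3p0_5, G3p0_6, G3p0_7, G3p0_8, G3p1_0, G3p1_3, G3p1_4, G3p1_5, G3p1_6, G3p1_7, G3p1_8, G3p2_0,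
  G3p2_1, G3p2_3, G3p2_4, G3p2_5, G3p2_6, G3p2_7, G3p2_8, G3p5_4, G3p6_4, G3p6_5, G3p7_8, G3p9_4,
  G3p9_5, G3p9_6, G3p9_7, G3p9_8]⟩)) (.node 1659 (.leaf ⟨2285998488, 4837838887445938144326,
  1754486037229251469947669406854584965304791647807132307251998150999998922753, 558105, [G3p1_0,
  G3p2_0, G3p2_1, G3p3_0, G3p3_1, G3p3_2, G3p4_0, G3p4_1, G3p4_2, G3p4_3, G3p4_5, G3p4_6, G3p6_5,
  G3p7_8, G3p9_0, G3p9_5, G3p9_6, G3p9_7, G3p9_8]⟩) (.leaf ⟨2286047640, 4837838994060985074755,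
  1754486037229251469947669406854428861789870883315277757644876485087919538191, 558117, [G3p1_2,
  G3p1_3, G3p2_3, G3p4_0, G3p4_1, G3p4_2, G3p4_3, G3p4_5, G3p4_6, G3p6_5, G3p7_8, G3p9_0, G3p9_5,
  G3p9_6, G3p9_7, G3p9_8]⟩))) (.node 1662 (.node 1661 (.leaf ⟨273262177, 4833194475561274083428,
  1584868719010529103979672092156894064208619828883503763292012241657455116291, 66714, [G3p2_0,
  G3p2_1, G3p2_3, G3p3_0, G3p3_1, G3p4_5, G3p6_0, G3p6_1, G3p6_4, G3p6_5, G3p6_7, G3p6_8, G3p7_8,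
  G3p9_0, G3p9_7, G3p9_8]⟩) (.leaf ⟨2285969817, 7275187005601752450113,
  1752719190164473085618086104969270231542367364750878125714385152904098742765, 558098, [G3p0_5,
  G3p0_6, G3p0_7, G3p0_8, G3p1_0, G3p1_2, G3p1_3, G3p1_5, G3p1_6, G3p1_7, G3p1_8, G3p3_2, G3p4_2,
  G3p4_3, G3p4_5, G3p4_6, G3p6_5, G3p7_8, G3p9_5, G3p9_6, G3p9_7, G3p9_8]⟩)) (.node 1663 (.leaf
  ⟨294233617, 4837845568041007553603,
  1782755590265705719656162266367458827800256208476041119010378496839730266115, 71834, [G3p2_0,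
  G3p2_1, G3p2_3, G3p3_0, G3p3_1, G3p5_4, G3p6_4, G3p6_5, G3p7_8, G3p9_0, G3p9_4, G3p9_5, G3p9_6,
  G3p9_7, G3p9_8]⟩) (.leaf ⟨286893601, 4837659794591811995748,
  1697946931156342970541698110769107685687515765281041118480047123676088434691, 70042, [G3p2_0,
  G3p2_1, G3p2_3, G3p3_0, G3p3_1, G3p4_0, G3p4_1, G3p4_6, G3p5_0, G3p5_1, G3p5_4, G3p5_6, G3p7_8,
  G3p9_0, G3p9_6, G3p9_7, G3p9_8]⟩))))))

def G3T27 : Tr :=
  .leaf ⟨286860833, 4837659830703897020516,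
  1697946931156342970541506545903451572747520840266278618795405126831091810305, 70034, [G3p1_0,
  G3p1_2, G3p1_3, G3p2_0, G3p2_3, G3p3_0, G3p4_0, G3p4_6, G3p5_0, G3p5_4, G3p5_6, G3p7_8, G3p9_0,
  G3p9_6, G3p9_7, G3p9_8]⟩

/-- The table of G3. -/
def G3T : Tr :=
  (.node 832 (.node 384 (.node 192 (.node 64 G3T1 (.node 128 G3T2 G3T3)) (.node 256 G3T4 (.node 320
  G3T5 G3T6))) (.node 576 (.node 448 G3T7 (.node 512 G3T8 G3T9)) (.node 704 (.node 640 G3T10 G3T11)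
  (.node 768 G3T12 G3T13)))) (.node 1280 (.node 1024 (.node 896 G3T14 (.node 960 G3T15 G3T16))
  (.node 1152 (.node 1088 G3T17 G3T18) (.node 1216 G3T19 G3T20))) (.node 1472 (.node 1344 G3T21
  (.node 1408 G3T22 G3T23)) (.node 1600 (.node 1536 G3T24 G3T25) (.node 1664 G3T26 G3T27)))))

theorem G3T1_ok : G3T1.all (qEntry (G3).t G3ie G3te) = true := by
  decide +kernel

theorem G3T2_ok : G3T2.all (qEntry (G3).t G3ie G3te) = true := by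
  decide +kernel

theorem G3T3_ok : G3T3.all (qEntry (G3).t G3ie G3te) = true := by
  decide +kernel

theorem G3T4_ok : G3T4.all (qEntry (G3).t G3ie G3te) = true := by
  decide +kernel

theorem G3T5_ok : G3T5.all (qEntry (G3).t G3ie G3te) = true := by
  decide +kernel

theorem G3T6_ok : G3T6.all (qEntry (G3).t G3ie G3te) = true := by
  decide +kernel

theorem G3T7_ok : G3T7.all (qEntry (G3).t G3ie G3te) = true := by
  decide +kernel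

theorem G3T8_ok : G3T8.all (qEntry (G3).t G3ie G3te) = true := by
  decide +kernel

theorem G3T9_ok : G3T9.all (qEntry (G3).t G3ie G3te) = true := by
  decide +kernel

theorem G3T10_ok : G3T10.all (qEntry (G3).t G3ie G3te) = true := by
  decide +kernel

theorem G3T11_ok : G3T11.all (qEntry (G3).t G3ie G3te) = true := by
  decide +kernel

theorem G3T12_ok : G3T12.all (qEntry (G3).t G3ie G3te) = true := by
  decide +kernel

theorem G3T13_ok : G3T13.all (qEntry (G3).t G3ie G3te) = true := by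
  decide +kernel

theorem G3T14_ok : G3T14.all (qEntry (G3).t G3ie G3te) = true := by
  decide +kernel

theorem G3T15_ok : G3T15.all (qEntry (G3).t G3ie G3te) = true := by
  decide +kernel

theorem G3T16_ok : G3T16.all (qEntry (G3).t G3ie G3te) = true := by
  decide +kernel

theorem G3T17_ok : G3T17.all (qEntry (G3).t G3ie G3te) = true := by
  decide +kernel

theorem G3T18_ok : G3T18.all (qEntry (G3).t G3ie G3te) = true := by
  decide +kernel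

theorem G3T19_ok : G3T19.all (qEntry (G3).t G3ie G3te) = true := by
  decide +kernel

theorem G3T20_ok : G3T20.all (qEntry (G3).t G3ie G3te) = true := by
  decide +kernel

theorem G3T21_ok : G3T21.all (qEntry (G3).t G3ie G3te) = true := by
  decide +kernel

theorem G3T22_ok : G3T22.all (qEntry (G3).t G3ie G3te) = true := by
  decide +kernel

theorem G3T23_ok : G3T23.all (qEntry (G3).t G3ie G3te) = true := by
  decide +kernel

theorem G3T24_ok : G3T24.all (qEntry (G3).t G3ie G3te) = true := by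
  decide +kernel

theorem G3T25_ok : G3T25.all (qEntry (G3).t G3ie G3te) = true := by
  decide +kernel

theorem G3T26_ok : G3T26.all (qEntry (G3).t G3ie G3te) = true := by
  decide +kernel

theorem G3T27_ok : G3T27.all (qEntry (G3).t G3ie G3te) = true := by
  decide +kernel

theorem G3T_ok : G3T.all (qEntry (G3).t G3ie G3te) = true :=
  (Tr.all_node (Tr.all_node (Tr.all_node (Tr.all_node G3T1_ok (Tr.all_node G3T2_ok G3T3_ok))
  (Tr.all_node G3T4_ok (Tr.all_node G3T5_ok G3T6_ok))) (Tr.all_node (Tr.all_node G3T7_ok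
  (Tr.all_node G3T8_ok G3T9_ok)) (Tr.all_node (Tr.all_node G3T10_ok G3T11_ok) (Tr.all_node G3T12_ok
  G3T13_ok)))) (Tr.all_node (Tr.all_node (Tr.all_node G3T14_ok (Tr.all_node G3T15_ok G3T16_ok))
  (Tr.all_node (Tr.all_node G3T17_ok G3T18_ok) (Tr.all_node G3T19_ok G3T20_ok))) (Tr.all_node
  (Tr.all_node G3T21_ok (Tr.all_node G3T22_ok G3T23_ok)) (Tr.all_node (Tr.all_node G3T24_ok
  G3T25_ok) (Tr.all_node G3T26_ok G3T27_ok)))))

end Pool.Agent.T1Red
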