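import Pool.Agent.Work.MP_392c8e_co_uni.Quick
import Pool.Agent.Work.MP_392c8e_co_uni.RedX

/-!
# The table of the reducer G3X
-/

namespace Pool.Agent.T1Red

/-- The edges between interior vertices. -/
def G3Xie : List (Nat × Nat) :=
  [(9, 10), (9, 15), (9, 16), (10, 11), (10, 18), (11, 12), (11, 19), (12, 13), (12, 21), (13, 14),
  (13, 22), (14, 15), (14, 24), (16, 17), (17, 18), (17, 25), (18, 26), (19, 20), (20, 21), (22,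
  23), (22, 27), (23, 24), (23, 25), (26, 27)]

/-- The packed matrix of the pairs with different values. -/
def G3Xne : Nat := 41540910246850329978412028240330752

/-- The edges with a label. -/
def G3Xte : List (Nat × Nat) :=
  [(15, 0), (16, 1), (25, 2), (26, 3), (19, 4), (20, 5), (21, 6), (27, 7), (24, 8)]

def G3Xp0_1 : Nat × Nat × Nat × Nat := (3, 1, 0, 1)
def G3Xp0_2 : Nat × Nat × Nat × Nat := (5, 1, 0, 2)
def G3Xp0_3 : Nat × Nat × Nat × Nat := (9, 1, 0, 3)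
def G3Xp0_4 : Nat × Nat × Nat × Nat := (17, 1, 0, 4)
def G3Xp0_5 : Nat × Nat × Nat × Nat := (33, 1, 0, 5)
def G3Xp0_6 : Nat × Nat × Nat × Nat := (65, 1, 0, 6)
def G3Xp0_7 : Nat × Nat × Nat × Nat := (129, 1, 0, 7)
def G3Xp0_8 : Nat × Nat × Nat × Nat := (257, 1, 0, 8)
def G3Xp1_0 : Nat × Nat × Nat × Nat := (3, 2, 1, 0)
def G3Xp1_2 : Nat × Nat × Nat × Nat := (6, 2, 1, 2)
def G3Xp1_3 : Nat × Nat × Nat × Nat := (10, 2, 1, 3)
def G3Xp1_4 : Nat × Nat × Nat × Nat := (18, 2, 1, 4)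
def G3Xp1_5 : Nat × Nat × Nat × Nat := (34, 2, 1, 5)
def G3Xp1_6 : Nat × Nat × Nat × Nat := (66, 2, 1, 6)
def G3Xp1_7 : Nat × Nat × Nat × Nat := (130, 2, 1, 7)
def G3Xp1_8 : Nat × Nat × Nat × Nat := (258, 2, 1, 8)
def G3Xp2_0 : Nat × Nat × Nat × Nat := (5, 4, 2, 0)
def G3Xp2_1 : Nat × Nat × Nat × Nat := (6, 4, 2, 1)
def G3Xp2_3 : Nat × Nat × Nat × Nat := (12, 4, 2, 3)
def G3Xp2_4 : Nat × Nat × Nat × Nat := (20, 4, 2, 4)
def G3Xp2_5 : Nat × Nat × Nat × Nat := (36, 4, 2, 5)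
def G3Xp2_6 : Nat × Nat × Nat × Nat := (68, 4, 2, 6)
def G3Xp2_7 : Nat × Nat × Nat × Nat := (132, 4, 2, 7)
def G3Xp2_8 : Nat × Nat × Nat × Nat := (260, 4, 2, 8)
def G3Xp3_0 : Nat × Nat × Nat × Nat := (9, 8, 3, 0)
def G3Xp3_1 : Nat × Nat × Nat × Nat := (10, 8, 3, 1)
def G3Xp3_2 : Nat × Nat × Nat × Nat := (12, 8, 3, 2)
def G3Xp3_4 : Nat × Nat × Nat × Nat := (24, 8, 3, 4)
def G3Xp3_5 : Nat × Nat × Nat × Nat := (40, 8, 3, 5)
def G3Xp3_6 : Nat × Nat × Nat × Nat := (72, 8, 3, 6)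
def G3Xp3_7 : Nat × Nat × Nat × Nat := (136, 8, 3, 7)
def G3Xp3_8 : Nat × Nat × Nat × Nat := (264, 8, 3, 8)
def G3Xp4_0 : Nat × Nat × Nat × Nat := (17, 16, 4, 0)
def G3Xp4_1 : Nat × Nat × Nat × Nat := (18, 16, 4, 1)
def G3Xp4_2 : Nat × Nat × Nat × Nat := (20, 16, 4, 2)
def G3Xp4_3 : Nat × Nat × Nat × Nat := (24, 16, 4, 3)
def G3Xp4_5 : Nat × Nat × Nat × Nat := (48, 16, 4, 5)
def G3Xp4_6 : Nat × Nat × Nat × Nat := (80, 16, 4, 6)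
def G3Xp4_7 : Nat × Nat × Nat × Nat := (144, 16, 4, 7)
def G3Xp4_8 : Nat × Nat × Nat × Nat := (272, 16, 4, 8)
def G3Xp5_0 : Nat × Nat × Nat × Nat := (33, 32, 5, 0)
def G3Xp5_1 : Nat × Nat × Nat × Nat := (34, 32, 5, 1)
def G3Xp5_2 : Nat × Nat × Nat × Nat := (36, 32, 5, 2)
def G3Xp5_3 : Nat × Nat × Nat × Nat := (40, 32, 5, 3)
def G3Xp5_4 : Nat × Nat × Nat × Nat := (48, 32, 5, 4)
def G3Xp5_6 : Nat × Nat × Nat × Nat := (96, 32, 5, 6)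
def G3Xp5_7 : Nat × Nat × Nat × Nat := (160, 32, 5, 7)
def G3Xp5_8 : Nat × Nat × Nat × Nat := (288, 32, 5, 8)
def G3Xp6_0 : Nat × Nat × Nat × Nat := (65, 64, 6, 0)
def G3Xp6_1 : Nat × Nat × Nat × Nat := (66, 64, 6, 1)
def G3Xp6_2 : Nat × Nat × Nat × Nat := (68, 64, 6, 2)
def G3Xp6_3 : Nat × Nat × Nat × Nat := (72, 64, 6, 3)
def G3Xp6_4 : Nat × Nat × Nat × Nat := (80, 64, 6, 4)
def G3Xp6_5 : Nat × Nat × Nat × Nat := (96, 64, 6, 5)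
def G3Xp6_7 : Nat × Nat × Nat × Nat := (192, 64, 6, 7)
def G3Xp6_8 : Nat × Nat × Nat × Nat := (320, 64, 6, 8)
def G3Xp7_0 : Nat × Nat × Nat × Nat := (129, 128, 7, 0)
def G3Xp7_1 : Nat × Nat × Nat × Nat := (130, 128, 7, 1)
def G3Xp7_2 : Nat × Nat × Nat × Nat := (132, 128, 7, 2)
def G3Xp7_3 : Nat × Nat × Nat × Nat := (136, 128, 7, 3)
def G3Xp7_4 : Nat × Nat × Nat × Nat := (144, 128, 7, 4)
def G3Xp7_5 : Nat × Nat × Nat × Nat := (160, 128, 7, 5)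
def G3Xp7_6 : Nat × Nat × Nat × Nat := (192, 128, 7, 6)
def G3Xp7_8 : Nat × Nat × Nat × Nat := (384, 128, 7, 8)
def G3Xp8_0 : Nat × Nat × Nat × Nat := (257, 256, 8, 0)
def G3Xp8_1 : Nat × Nat × Nat × Nat := (258, 256, 8, 1)
def G3Xp8_2 : Nat × Nat × Nat × Nat := (260, 256, 8, 2)
def G3Xp8_3 : Nat × Nat × Nat × Nat := (264, 256, 8, 3)
def G3Xp8_4 : Nat × Nat × Nat × Nat := (272, 256, 8, 4)
def G3Xp8_5 : Nat × Nat × Nat × Nat := (288, 256, 8, 5)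
def G3Xp8_6 : Nat × Nat × Nat × Nat := (320, 256, 8, 6)
def G3Xp8_7 : Nat × Nat × Nat × Nat := (384, 256, 8, 7)

def G3XT1 : Tr :=
  .node 32 (.node 16 (.node 8 (.node 4 (.node 2 (.node 1 (.leaf ⟨112883505220,
  43753942987250535971982533,
  198434027854758895321833831396011543422463403397400433510156688507548045001242253421707265, 83625,
  [G3Xp1_0, G3Xp2_8, G3Xp3_0, G3Xp3_1, G3Xp3_2, G3Xp3_8, G3Xp5_4, G3Xp6_4, G3Xp6_5, G3Xp7_0,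
  G3Xp7_1, G3Xp7_2, G3Xp7_3, G3Xp7_8]⟩) (.leaf ⟨157073084690, 1238094772916904377670807911,
  192467089998433509021821995027863086312763793330448972409062565389288472473810560385810434,
  173121, [G3Xp0_1, G3Xp2_0, G3Xp2_1, G3Xp2_8, G3Xp3_0, G3Xp3_1, G3Xp3_7, G3Xp3_8, G3Xp4_5, G3Xp4_6,
  G3Xp5_6, G3Xp7_0, G3Xp7_1, G3Xp7_8, G3Xp8_0, G3Xp8_1]⟩)) (.node 3 (.leaf ⟨165631529348,
  1242930483412492073027480961,
  249162804013900298741298176964288766354589697363537659521585264235128346287114338158247937,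
  165481, [G3Xp1_0, G3Xp3_0, G3Xp3_2, G3Xp3_4, G3Xp3_5, G3Xp3_6, G3Xp3_7, G3Xp3_8, G3Xp5_4, G3Xp6_4,
  G3Xp6_5, G3Xp7_0, G3Xp7_2, G3Xp7_4, G3Xp7_5, G3Xp7_6, G3Xp7_8, G3Xp8_0, G3Xp8_4, G3Xp8_5,
  G3Xp8_6]⟩) (.leaf ⟨156235829636, 2518232740231583788548924742,
  119359458699649344987847977774269398660881755573799100431966079800728675727552025244729345, 99913,
  [G3Xp1_0, G3Xp2_0, G3Xp2_1, G3Xp3_4, G3Xp3_5, G3Xp3_6, G3Xp3_7, G3Xp5_4, G3Xp6_4, G3Xp6_5,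
  G3Xp7_4, G3Xp7_5, G3Xp7_6, G3Xp8_0, G3Xp8_1, G3Xp8_2, G3Xp8_4, G3Xp8_5, G3Xp8_6]⟩))) (.node 6
  (.node 5 (.leaf ⟨156267778322, 1241607069881845226961738946,
  63658406303765312851751800675621389390042834878868729699061450535698758421877332369211394, 107585,
  [G3Xp0_1, G3Xp3_7, G3Xp4_5, G3Xp4_6, G3Xp5_6, G3Xp8_2]⟩) (.leaf ⟨105501577604,
  1319131696974432289909125536,
  67636020903324966649199724163793804012014498351365001364282888238101101696560455495975287, 149125,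
  [G3Xp1_0, G3Xp1_2, G3Xp1_4, G3Xp1_5, G3Xp1_6, G3Xp1_8, G3Xp2_0, G3Xp2_4, G3Xp2_5, G3Xp2_6,
  G3Xp2_8, G3Xp5_4, G3Xp6_4, G3Xp6_5, G3Xp7_3, G3Xp8_0, G3Xp8_4, G3Xp8_5, G3Xp8_6]⟩)) (.node 7
  (.leaf ⟨156233781860, 6351853496560810753595053184,
  63658406303765312851751800677561007696201623769950468001446920447256614942506016754892991, 99397,
  [G3Xp1_2, G3Xp1_3, G3Xp1_4, G3Xp1_5, G3Xp1_7, G3Xp3_7, G3Xp4_5, G3Xp6_0, G3Xp6_2, G3Xp6_4,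
  G3Xp6_5, G3Xp6_8, G3Xp8_2]⟩) (.leaf ⟨157039088228, 6348380196012660136184157312,
  191472428348281627511780181311485426396233938375254009784801786445321614209440459309187519,
  164933, [G3Xp1_0, G3Xp1_2, G3Xp1_3, G3Xp1_4, G3Xp1_5, G3Xp1_7, G3Xp1_8, G3Xp2_0, G3Xp2_8, G3Xp3_0,
  G3Xp3_7, G3Xp3_8, G3Xp4_5, G3Xp6_0, G3Xp6_4, G3Xp6_5, G3Xp6_8, G3Xp7_0, G3Xp7_8, G3Xp8_0]⟩))))
  (.node 12 (.node 10 (.node 9 (.leaf ⟨156235829828, 2525720266510652096226921900,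
  63658406304112694420085823438998742247203563852618474963826269133762614630001084217688065, 99913,
  [G3Xp1_0, G3Xp2_0, G3Xp2_1, G3Xp3_7, G3Xp4_0, G3Xp4_1, G3Xp4_2, G3Xp4_8, G3Xp5_0, G3Xp5_1,
  G3Xp5_2, G3Xp5_4, G3Xp5_8, G3Xp6_0, G3Xp6_1, G3Xp6_2, G3Xp6_4, G3Xp6_5, G3Xp6_8, G3Xp8_0, G3Xp8_1,
  G3Xp8_2]⟩) (.leaf ⟨105532985624, 1315388032538154068581912745,
  69128013365468079639932824791662102756865260601850213775246795058325663258959033328140289, 156809,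
  [G3Xp1_0, G3Xp2_0, G3Xp2_1, G3Xp2_8, G3Xp3_0, G3Xp3_1, G3Xp4_0, G3Xp4_1, G3Xp4_5, G3Xp4_6,
  G3Xp5_0, G3Xp5_1, G3Xp5_6, G3Xp6_0, G3Xp6_1, G3Xp7_0, G3Xp7_1, G3Xp7_3, G3Xp8_0]⟩)) (.node 11
  (.leaf ⟨104727679256, 5148855318876365383981437097,
  69128013335825555684389538061455889929107524047894423636329214124004025415679201345994753, 91273,
  [G3Xp1_0, G3Xp2_0, G3Xp2_1, G3Xp3_0, G3Xp3_1, G3Xp4_0, G3Xp4_1, G3Xp4_5, G3Xp4_6, G3Xp5_0,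
  G3Xp5_1, G3Xp5_6, G3Xp6_0, G3Xp6_1, G3Xp7_0, G3Xp7_1, G3Xp7_3, G3Xp8_0, G3Xp8_1, G3Xp8_2, G3Xp8_3,
  G3Xp8_7]⟩) (.leaf ⟨156235878980, 6355597263049893728679496832,
  63658406303765312851751800677561034227865357815148001766286106764043939902176493089849487, 99909,
  [G3Xp1_2, G3Xp1_3, G3Xp1_7, G3Xp3_7, G3Xp4_0, G3Xp4_2, G3Xp4_8, G3Xp5_0, G3Xp5_2, G3Xp5_4,
  G3Xp5_8, G3Xp6_0, G3Xp6_2, G3Xp6_4, G3Xp6_5, G3Xp6_8, G3Xp8_2]⟩))) (.node 14 (.node 13 (.leaf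
  ⟨104727978257, 12816096845373992945542336516,
  67636020860597733419326817483998803612933420137666123567659489398120218822849913093554573, 91266,
  [G3Xp0_2, G3Xp0_3, G3Xp0_7, G3Xp0_8, G3Xp1_0, G3Xp1_2, G3Xp1_3, G3Xp1_7, G3Xp1_8, G3Xp4_5,
  G3Xp4_6, G3Xp5_6, G3Xp7_3, G3Xp8_2, G3Xp8_3, G3Xp8_7]⟩) (.leaf ⟨104727974162,
  5152482096335136625354969186,
  67636020860597733419326817483998803612933411551745489101797533097947337587786159393472526, 91265,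
  [G3Xp0_1, G3Xp0_2, G3Xp0_3, G3Xp4_5, G3Xp4_6, G3Xp5_6, G3Xp7_3, G3Xp8_2, G3Xp8_3, G3Xp8_7]⟩))
  (.node 15 (.leaf ⟨105499480676, 5149008793815602169471082720,
  91507900488443105912388660055136980749597073782334070467817836019254823602198743926964535, 148613,
  [G3Xp1_0, G3Xp1_2, G3Xp1_4, G3Xp1_5, G3Xp1_8, G3Xp2_0, G3Xp2_8, G3Xp3_4, G3Xp3_5, G3Xp4_5,
  G3Xp6_0, G3Xp6_3, G3Xp6_4, G3Xp6_5, G3Xp6_7, G3Xp6_8, G3Xp7_3, G3Xp7_4, G3Xp7_5, G3Xp8_0]⟩) (.leaf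
  ⟨105501577796, 8979002779273627944839417152,
  67636020890356054764729494998927402335452541638057161472714317325481707827233152064028935, 149125,
  [G3Xp1_0, G3Xp1_2, G3Xp1_8, G3Xp2_0, G3Xp2_8, G3Xp4_0, G3Xp4_3, G3Xp4_7, G3Xp4_8, G3Xp5_0,
  G3Xp5_3, G3Xp5_4, G3Xp5_7, G3Xp5_8, G3Xp6_0, G3Xp6_3, G3Xp6_4, G3Xp6_5, G3Xp6_7, G3Xp6_8, G3Xp7_3,
  G3Xp8_0]⟩))))) (.node 24 (.node 20 (.node 18 (.node 17 (.leaf ⟨79730070116,
  5074055392776430845801039904,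
  63658406303996891736668025768933677996636142386078219810019621266727698539498536747794619, 148517,
  [G3Xp2_1, G3Xp3_7, G3Xp4_5, G3Xp6_0, G3Xp6_1, G3Xp6_2, G3Xp6_4, G3Xp6_5, G3Xp6_7, G3Xp6_8,
  G3Xp8_0]⟩) (.leaf ⟨104696271428, 12816096843070788697658101152,
  67636020860597733419326817486792147313179381309478626791554295882906154710255219356205063, 83589,
  [G3Xp1_2, G3Xp4_0, G3Xp4_2, G3Xp4_3, G3Xp4_7, G3Xp4_8, G3Xp5_0, G3Xp5_2, G3Xp5_3, G3Xp5_4,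
  G3Xp5_7, G3Xp5_8, G3Xp6_0, G3Xp6_2, G3Xp6_3, G3Xp6_4, G3Xp6_5, G3Xp6_7, G3Xp6_8, G3Xp7_3, G3Xp8_2,
  G3Xp8_3, G3Xp8_7]⟩)) (.node 19 (.leaf ⟨78524209220, 8898082742193255291245988992,
  190975097523437270935233906844046485666853035261135899617066187371267373850229645557498251, 83493,
  [G3Xp2_1, G3Xp2_8, G3Xp3_7, G3Xp3_8, G3Xp4_1, G3Xp4_3, G3Xp4_7, G3Xp4_8, G3Xp5_1, G3Xp5_3,
  G3Xp5_4, G3Xp5_7, G3Xp5_8, G3Xp6_1, G3Xp6_3, G3Xp6_4, G3Xp6_5, G3Xp6_7, G3Xp6_8, G3Xp7_8]⟩) (.leaf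
  ⟨78524225604, 8898082742193255051801562241,
  190975097523205686756759274453186789301800020427788750047036282391091068170916651336204681, 83497,
  [G3Xp1_0, G3Xp1_3, G3Xp1_7, G3Xp1_8, G3Xp2_8, G3Xp3_7, G3Xp3_8, G3Xp4_3, G3Xp4_7, G3Xp4_8,
  G3Xp5_3, G3Xp5_4, G3Xp5_7, G3Xp5_8, G3Xp6_3, G3Xp6_4, G3Xp6_5, G3Xp6_7, G3Xp6_8, G3Xp7_8]⟩)))
  (.node 22 (.node 21 (.leaf ⟨142879511140, 2596923813300730140246968352,
  67636020860597486067666560529232694165218176941912602200870746229108211283488253507665983, 99349,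
  [G3Xp4_5, G3Xp6_0, G3Xp6_4, G3Xp6_5, G3Xp6_8, G3Xp7_3]⟩) (.leaf ⟨112886650948,
  43753946480917946904641733,
  198434027854758895321833831395710247136791769475586657373031355714443445966012796876357633, 84393,
  [G3Xp1_0, G3Xp2_8, G3Xp3_0, G3Xp3_1, G3Xp3_2, G3Xp3_8, G3Xp4_5, G3Xp4_6, G3Xp5_6, G3Xp7_0,
  G3Xp7_1, G3Xp7_2, G3Xp7_3, G3Xp7_8]⟩)) (.node 23 (.leaf ⟨156238975556,
  2525720270004319507159581100,
  63658406304112694420085823438697445961531929930804698826700936340658015594771627672338433, 100681,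
  [G3Xp1_0, G3Xp2_0, G3Xp2_1, G3Xp3_7, G3Xp4_0, G3Xp4_1, G3Xp4_2, G3Xp4_5, G3Xp4_6, G3Xp4_8,
  G3Xp5_0, G3Xp5_1, G3Xp5_2, G3Xp5_6, G3Xp5_8, G3Xp6_0, G3Xp6_1, G3Xp6_2, G3Xp6_8, G3Xp8_0, G3Xp8_1,
  G3Xp8_2]⟩) (.leaf ⟨165634675268, 1247922166331538339515203649,
  193461751618363648173536022628704259260204235245188279472273711530771810567628693086142465,
  166249, [G3Xp1_0, G3Xp3_0, G3Xp3_2, G3Xp3_7, G3Xp3_8, G3Xp4_0, G3Xp4_2, G3Xp4_5, G3Xp4_6, G3Xp4_8,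
  G3Xp5_0, G3Xp5_2, G3Xp5_6, G3Xp5_8, G3Xp6_0, G3Xp6_2, G3Xp6_8, G3Xp7_0, G3Xp7_2, G3Xp7_8,
  G3Xp8_0]⟩)))) (.node 28 (.node 26 (.node 25 (.leaf ⟨105504723524, 8979002782767295355772076352,
  67636020890356054764729494998626106049780907716243385335588984532377108792003695518679303, 149893,
  [G3Xp1_0, G3Xp1_2, G3Xp1_8, G3Xp2_0, G3Xp2_8, G3Xp4_0, G3Xp4_3, G3Xp4_5, G3Xp4_6, G3Xp4_7,
  G3Xp4_8, G3Xp5_0, G3Xp5_3, G3Xp5_6, G3Xp5_7, G3Xp5_8, G3Xp6_0, G3Xp6_3, G3Xp6_7, G3Xp6_8, G3Xp7_3,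
  G3Xp8_0]⟩) (.leaf ⟨156239024708, 6355597266543561139612156032,
  63658406303765312851751800677259737942193723893334225629160773970939340866947036544499855, 100677,
  [G3Xp1_2, G3Xp1_3, G3Xp1_7, G3Xp3_7, G3Xp4_0, G3Xp4_2, G3Xp4_5, G3Xp4_6, G3Xp4_8, G3Xp5_0,
  G3Xp5_2, G3Xp5_6, G3Xp5_8, G3Xp6_0, G3Xp6_2, G3Xp6_8, G3Xp8_2]⟩)) (.node 27 (.leaf ⟨157044331076,
  6348380199285651165378904192,
  191472428348281627511780181311184156259096307275616229211256068442096179097118057642852751,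
  166213, [G3Xp1_0, G3Xp1_2, G3Xp1_3, G3Xp1_7, G3Xp1_8, G3Xp2_0, G3Xp2_8, G3Xp3_0, G3Xp3_7, G3Xp3_8,
  G3Xp4_0, G3Xp4_5, G3Xp4_6, G3Xp4_8, G3Xp5_0, G3Xp5_6, G3Xp5_8, G3Xp6_0, G3Xp6_8, G3Xp7_0, G3Xp7_8,
  G3Xp8_0]⟩) (.leaf ⟨105504674372, 8975376005308460611159589292,
  69128013365468079639932824794122764183850499317384586952582209930444854770252024719081473, 149897,
  [G3Xp1_0, G3Xp2_0, G3Xp2_1, G3Xp2_8, G3Xp3_0, G3Xp3_1, G3Xp4_0, G3Xp4_1, G3Xp4_3, G3Xp4_5,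
  G3Xp4_6, G3Xp4_7, G3Xp4_8, G3Xp5_0, G3Xp5_1, G3Xp5_3, G3Xp5_6, G3Xp5_7, G3Xp5_8, G3Xp6_0, G3Xp6_1,
  G3Xp6_3, G3Xp6_7, G3Xp6_8, G3Xp7_0, G3Xp7_1, G3Xp7_3, G3Xp8_0]⟩))) (.node 30 (.node 29 (.leaf
  ⟨104699368004, 12816096846564468659558941199,
  69128013335825555684389538063941660146164040709505678172617031188695861173615665075978241, 84361,
  [G3Xp1_0, G3Xp2_0, G3Xp2_1, G3Xp3_0, G3Xp3_1, G3Xp4_0, G3Xp4_1, G3Xp4_2, G3Xp4_3, G3Xp4_5,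
  G3Xp4_6, G3Xp4_7, G3Xp4_8, G3Xp5_0, G3Xp5_1, G3Xp5_2, G3Xp5_3, G3Xp5_6, G3Xp5_7, G3Xp5_8, G3Xp6_0,
  G3Xp6_1, G3Xp6_2, G3Xp6_3, G3Xp6_7, G3Xp6_8, G3Xp7_0, G3Xp7_1, G3Xp7_3, G3Xp8_0, G3Xp8_1, G3Xp8_2,
  G3Xp8_3, G3Xp8_7]⟩) (.leaf ⟨104699417156, 12816096846564456108590760352,
  67636020860597733419326817486490851027507747387664850654428963089801555675025762810855431, 84357,
  [G3Xp1_2, G3Xp4_0, G3Xp4_2, G3Xp4_3, G3Xp4_5, G3Xp4_6, G3Xp4_7, G3Xp4_8, G3Xp5_0, G3Xp5_2,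
  G3Xp5_3, G3Xp5_6, G3Xp5_7, G3Xp5_8, G3Xp6_0, G3Xp6_2, G3Xp6_3, G3Xp6_7, G3Xp6_8, G3Xp7_3, G3Xp8_2,
  G3Xp8_3, G3Xp8_7]⟩)) (.node 31 (.leaf ⟨78527354948, 5068088759896753055898861600,
  190975097523437270935233906841271973559160523650749309623129238609764584648686038220931467, 84261,
  [G3Xp2_1, G3Xp2_8, G3Xp3_7, G3Xp3_8, G3Xp4_5, G3Xp4_6, G3Xp5_6, G3Xp7_8]⟩) (.leaf ⟨142884753988,
  2597037153480774135026155552,
  67636020860597486067666560528931424028080546912726924959637393275515221408907812934647823, 100629,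
  [G3Xp4_0, G3Xp4_5, G3Xp4_6, G3Xp4_8, G3Xp5_0, G3Xp5_6, G3Xp5_8, G3Xp6_0, G3Xp6_8, G3Xp7_3]⟩))))))
  (.node 48 (.node 40 (.node 36 (.node 34 (.node 33 (.leaf ⟨78527371332,
  6344753421826809433933840449,
  190975097523205686756759274450424831589143147790440600732575534725874564198643674206699913, 84265,
  [G3Xp1_0, G3Xp1_3, G3Xp1_7, G3Xp1_8, G3Xp2_8, G3Xp3_7, G3Xp3_8, G3Xp4_5, G3Xp4_6, G3Xp5_6,
  G3Xp7_8]⟩) (.leaf ⟨105529840196, 5145382018404775953791222089,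
  69128013365468079639932824791944567449983436064106328893157826207008121056057693797613569, 156041,
  [G3Xp1_0, G3Xp2_0, G3Xp2_1, G3Xp2_8, G3Xp3_0, G3Xp3_1, G3Xp5_4, G3Xp6_4, G3Xp6_5, G3Xp7_0,
  G3Xp7_1, G3Xp7_3, G3Xp8_0]⟩)) (.node 35 (.leaf ⟨156264141380, 2521976502181041740852527433,
  63658406304112694420085823437347839300017038898063525612705824972116107012438890416963585, 106825,
  [G3Xp1_0, G3Xp2_0, G3Xp2_1, G3Xp3_7, G3Xp5_4, G3Xp6_4, G3Xp6_5, G3Xp8_0, G3Xp8_1, G3Xp8_2]⟩)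
  (.leaf ⟨156238975364, 2518232743725251199481583846,
  119359458699649344987847977773968102375210121651985324294840747007624076692322568699379713,
  100681, [G3Xp1_0, G3Xp2_0, G3Xp2_1, G3Xp3_4, G3Xp3_5, G3Xp3_6, G3Xp3_7, G3Xp4_5, G3Xp4_6, G3Xp5_6,
  G3Xp7_4, G3Xp7_5, G3Xp7_6, G3Xp8_0, G3Xp8_1, G3Xp8_2, G3Xp8_4, G3Xp8_5, G3Xp8_6]⟩))) (.node 38
  (.node 37 (.leaf ⟨165659841092, 1244178398508260676287365185,
  193461751618363648173536022627367206993724983185485546937754801258516187214566586037829633,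
  172393, [G3Xp1_0, G3Xp3_0, G3Xp3_2, G3Xp3_7, G3Xp3_8, G3Xp5_4, G3Xp6_4, G3Xp6_5, G3Xp7_0, G3Xp7_2,
  G3Xp7_8, G3Xp8_0]⟩) (.leaf ⟨165634675076, 1242930486906050632308990241,
  249162804013900298741298176963987470068918063441723883384459931442023747251884881612898305,
  166249, [G3Xp1_0, G3Xp3_0, G3Xp3_2, G3Xp3_4, G3Xp3_5, G3Xp3_6, G3Xp3_7, G3Xp3_8, G3Xp4_5, G3Xp4_6,
  G3Xp5_6, G3Xp7_0, G3Xp7_2, G3Xp7_4, G3Xp7_5, G3Xp7_6, G3Xp7_8, G3Xp8_0, G3Xp8_4, G3Xp8_5,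
  G3Xp8_6]⟩)) (.node 39 (.leaf ⟨105504723332, 1319131700468099700841784640,
  67636020903324966649199724163492507726342864429551225227157555444996502661330998950625655, 149893,
  [G3Xp1_0, G3Xp1_2, G3Xp1_4, G3Xp1_5, G3Xp1_6, G3Xp1_8, G3Xp2_0, G3Xp2_4, G3Xp2_5, G3Xp2_6,
  G3Xp2_8, G3Xp4_5, G3Xp4_6, G3Xp5_6, G3Xp7_3, G3Xp8_0, G3Xp8_4, G3Xp8_5, G3Xp8_6]⟩) (.leaf
  ⟨105529889348, 5149008795863614100017807584,
  67636020890356054764729494996460463710949483436003567955640801905226660307079994804273415, 156037,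
  [G3Xp1_0, G3Xp1_2, G3Xp1_8, G3Xp2_0, G3Xp2_8, G3Xp5_4, G3Xp6_4, G3Xp6_5, G3Xp7_3, G3Xp8_0]⟩))))
  (.node 44 (.node 42 (.node 41 (.leaf ⟨156264190532, 6351853498720286774919200896,
  63658406303765312851751800675922685675714471833631493094641863698683717513884929496187023, 106821,
  [G3Xp1_2, G3Xp1_3, G3Xp1_7, G3Xp3_7, G3Xp5_4, G3Xp6_4, G3Xp6_5, G3Xp8_2]⟩) (.leaf ⟨156239024516,
  6348109854515192682020873536,
  119359458699301963419513955012542948750907554587591403983409178998000316439267660653396223,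
  100677, [G3Xp1_2, G3Xp1_3, G3Xp1_4, G3Xp1_5, G3Xp1_6, G3Xp1_7, G3Xp3_4, G3Xp3_5, G3Xp3_6, G3Xp3_7,
  G3Xp4_5, G3Xp4_6, G3Xp5_6, G3Xp7_4, G3Xp7_5, G3Xp7_6, G3Xp8_2, G3Xp8_4, G3Xp8_5, G3Xp8_6]⟩))
  (.node 43 (.leaf ⟨157069496900, 6348380198172136157508305024,
  191472428348281627511780181309872212782688333161990378035689560362413126202597211008663951,
  172357, [G3Xp1_0, G3Xp1_2, G3Xp1_3, G3Xp1_7, G3Xp1_8, G3Xp2_0, G3Xp2_8, G3Xp3_0, G3Xp3_7, G3Xp3_8,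
  G3Xp5_4, G3Xp6_4, G3Xp6_5, G3Xp7_0, G3Xp7_8, G3Xp8_0]⟩) (.leaf ⟨157044330884,
  6348380213566565583776231840,
  247173480756786992074121749533932426178854461595516527207008618834149048324968424610464255,
  166213, [G3Xp1_0, G3Xp1_2, G3Xp1_3, G3Xp1_4, G3Xp1_5, G3Xp1_6, G3Xp1_7, G3Xp1_8, G3Xp2_0, G3Xp2_4,
  G3Xp2_5, G3Xp2_6, G3Xp2_8, G3Xp3_0, G3Xp3_4, G3Xp3_5, G3Xp3_6, G3Xp3_7, G3Xp3_8, G3Xp4_5, G3Xp4_6,
  G3Xp5_6, G3Xp7_0, G3Xp7_4, G3Xp7_5, G3Xp7_6, G3Xp7_8, G3Xp8_0, G3Xp8_4, G3Xp8_5, G3Xp8_6]⟩)))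
  (.node 46 (.node 45 (.leaf ⟨104724533828, 8982476082201940114666455468,
  69128013335825555684389538061738354622225699510150538754240245272686557000880073740386305, 90505,
  [G3Xp1_0, G3Xp2_0, G3Xp2_1, G3Xp3_0, G3Xp3_1, G3Xp5_4, G3Xp6_4, G3Xp6_5, G3Xp7_0, G3Xp7_1,
  G3Xp7_3, G3Xp8_0, G3Xp8_1, G3Xp8_2, G3Xp8_3, G3Xp8_7]⟩) (.leaf ⟨104699367812,
  5148855327206898794710079817,
  69128013335825753574280353341330448316646034824093845536572862376228446912643542567354369, 84361,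
  [G3Xp1_0, G3Xp2_0, G3Xp2_1, G3Xp3_0, G3Xp3_1, G3Xp4_5, G3Xp4_6, G3Xp5_6, G3Xp7_0, G3Xp7_1,
  G3Xp7_3, G3Xp8_0, G3Xp8_1, G3Xp8_2, G3Xp8_3, G3Xp8_4, G3Xp8_5, G3Xp8_6, G3Xp8_7]⟩)) (.node 47
  (.leaf ⟨105504674180, 1315388040868578521358964966,
  69128013378436991524403053958976611465376817057615873958042186482969334164809645069172737, 149897,
  [G3Xp1_0, G3Xp2_0, G3Xp2_1, G3Xp2_4, G3Xp2_5, G3Xp2_6, G3Xp2_8, G3Xp3_0, G3Xp3_1, G3Xp4_5,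
  G3Xp4_6, G3Xp5_6, G3Xp7_0, G3Xp7_1, G3Xp7_3, G3Xp8_0, G3Xp8_4, G3Xp8_5, G3Xp8_6]⟩) (.leaf
  ⟨104724582980, 8982476082201930965312373056,
  67636020860597733419326817484300099898605045161348151915528378270078536731560801682325511, 90501,
  [G3Xp1_2, G3Xp5_4, G3Xp6_4, G3Xp6_5, G3Xp7_3, G3Xp8_2, G3Xp8_3, G3Xp8_7]⟩))))) (.node 56 (.node 52
  (.node 50 (.node 49 (.leaf ⟨104699416964, 5148855327206893046970095840,
  67636020860597931309217632763892193593025380475291458697860995373620463537375376471752711, 84357,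
  [G3Xp1_2, G3Xp4_5, G3Xp4_6, G3Xp5_6, G3Xp7_3, G3Xp8_2, G3Xp8_3, G3Xp8_4, G3Xp8_5, G3Xp8_6,
  G3Xp8_7]⟩) (.leaf ⟨79760478788, 5074055395047370957902610464,
  63658406303996891736668025766479332750548723020912695610509932933693940140839618671673483, 155941,
  [G3Xp2_1, G3Xp3_7, G3Xp5_4, G3Xp6_4, G3Xp6_5, G3Xp8_0]⟩)) (.node 51 (.leaf ⟨142909919812,
  2596923815571670252348538912,
  67636020860597486067666560527619480551672572799101073784070885195832168514386966300459023, 106773,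
  [G3Xp5_4, G3Xp6_4, G3Xp6_5, G3Xp7_3]⟩) (.leaf ⟨79760495172, 6350681060560454310246252609,
  63658406303765307558139472659545610840338992052945354850705706484674995931186958109769865, 155945,
  [G3Xp1_0, G3Xp1_3, G3Xp1_7, G3Xp3_7, G3Xp5_4, G3Xp6_4, G3Xp6_5, G3Xp8_0]⟩))) (.node 54 (.node 53
  (.leaf ⟨112911816772, 43753954888012551298515141,
  254135080263264259884175399620373053104301165752740358818609953326594904681746676131561585, 90537,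
  [G3Xp0_4, G3Xp0_5, G3Xp0_6, G3Xp1_0, G3Xp1_4, G3Xp1_5, G3Xp1_6, G3Xp2_4, G3Xp2_5, G3Xp2_6,
  G3Xp2_8, G3Xp3_0, G3Xp3_1, G3Xp3_2, G3Xp3_4, G3Xp3_5, G3Xp3_6, G3Xp3_8, G3Xp5_4, G3Xp6_4, G3Xp6_5,
  G3Xp7_0, G3Xp7_1, G3Xp7_2, G3Xp7_3, G3Xp7_4, G3Xp7_5, G3Xp7_6, G3Xp7_8, G3Xp8_4, G3Xp8_5,
  G3Xp8_6]⟩) (.leaf ⟨78552520772, 5068088769493923861825388576,
  246676149931942635497575475065934779526669919927864898862075442958107451012971970571141627, 90405,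
  [G3Xp0_4, G3Xp0_5, G3Xp0_6, G3Xp2_1, G3Xp2_4, G3Xp2_5, G3Xp2_6, G3Xp2_8, G3Xp3_4, G3Xp3_5,
  G3Xp3_6, G3Xp3_7, G3Xp3_8, G3Xp5_4, G3Xp6_4, G3Xp6_5, G3Xp7_4, G3Xp7_5, G3Xp7_6, G3Xp7_8, G3Xp8_4,
  G3Xp8_5, G3Xp8_6]⟩)) (.node 55 (.leaf ⟨78552537156, 6344753432614056441393020993,
  246676149931711051319100842675087637556652544067556190553058987230118124958345195429560825, 90409,
  [G3Xp0_4, G3Xp0_5, G3Xp0_6, G3Xp1_0, G3Xp1_3, G3Xp1_4, G3Xp1_5, G3Xp1_6, G3Xp1_7, G3Xp1_8,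
  G3Xp2_4, G3Xp2_5, G3Xp2_6, G3Xp2_8, G3Xp3_4, G3Xp3_5, G3Xp3_6, G3Xp3_7, G3Xp3_8, G3Xp5_4, G3Xp6_4,
  G3Xp6_5, G3Xp7_4, G3Xp7_5, G3Xp7_6, G3Xp7_8, G3Xp8_4, G3Xp8_5, G3Xp8_6]⟩) (.leaf ⟨112912865348,
  43753954874501752416404677,
  246177787062049207803840889873935259418202918958193905179860119426276438019996752818471009, 90793,
  [G3Xp0_5, G3Xp0_6, G3Xp1_0, G3Xp1_5, G3Xp1_6, G3Xp2_5, G3Xp2_6, G3Xp2_8, G3Xp3_0, G3Xp3_1,
  G3Xp3_2, G3Xp3_5, G3Xp3_6, G3Xp3_8, G3Xp4_5, G3Xp4_6, G3Xp6_5, G3Xp7_0, G3Xp7_1, G3Xp7_2, G3Xp7_3,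
  G3Xp7_5, G3Xp7_6, G3Xp7_8, G3Xp8_5, G3Xp8_6]⟩)))) (.node 60 (.node 58 (.node 57 (.leaf
  ⟨157073088785, 1238094772916613830684020836,
  190975105111871839102750773924996476103522556050604551386174084232151435710387808605634561,
  173122, [G3Xp1_0, G3Xp2_0, G3Xp2_8, G3Xp3_0, G3Xp3_7, G3Xp3_8, G3Xp4_5, G3Xp4_6, G3Xp5_6,
  G3Xp7_8]⟩) (.leaf ⟨156265189956, 2523224425602076028997535082,
  63658406304112694420085823437247404140279990227755088771222598014094431306141155117236225, 107081,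
  [G3Xp1_0, G3Xp2_0, G3Xp2_1, G3Xp3_7, G3Xp4_0, G3Xp4_1, G3Xp4_2, G3Xp4_5, G3Xp4_6, G3Xp4_8,
  G3Xp6_5, G3Xp8_0, G3Xp8_1, G3Xp8_2]⟩)) (.node 59 (.leaf ⟨156265239108,
  6353101422141319929192842368,
  63658406303765312851751800675822250515974500160048394447322229370996609241547882331373711, 107077,
  [G3Xp1_2, G3Xp1_3, G3Xp1_7, G3Xp3_7, G3Xp4_0, G3Xp4_2, G3Xp4_5, G3Xp4_6, G3Xp4_8, G3Xp6_5,
  G3Xp8_2]⟩) (.leaf ⟨105530937924, 6425673458978116217978553600,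
  67636020890356054764729494996360028551402429978548148493524053975458101393337530735132935, 156293,
  [G3Xp1_0, G3Xp1_2, G3Xp1_8, G3Xp2_0, G3Xp2_8, G3Xp4_0, G3Xp4_3, G3Xp4_5, G3Xp4_6, G3Xp4_7,
  G3Xp4_8, G3Xp6_5, G3Xp7_3, G3Xp8_0]⟩))) (.node 62 (.node 61 (.leaf ⟨104725631556,
  10260349671136047712447825248,
  67636020860597733419326817484199664739063837710442056065084445079640842949896961343356935, 90757,
  [G3Xp1_2, G3Xp4_0, G3Xp4_2, G3Xp4_3, G3Xp4_5, G3Xp4_6, G3Xp4_7, G3Xp4_8, G3Xp6_5, G3Xp7_3,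
  G3Xp8_2, G3Xp8_3, G3Xp8_7]⟩) (.leaf ⟨78553569348, 6344753432598294013422175296,
  238718856730727583417240965319496985841147504778432265574045345633851855911173334237839851, 90661,
  [G3Xp0_5, G3Xp0_6, G3Xp2_1, G3Xp2_5, G3Xp2_6, G3Xp2_8, G3Xp3_5, G3Xp3_6, G3Xp3_7, G3Xp3_8,
  G3Xp4_1, G3Xp4_3, G3Xp4_5, G3Xp4_6, G3Xp4_7, G3Xp4_8, G3Xp6_5, G3Xp7_5, G3Xp7_6, G3Xp7_8, G3Xp8_5,
  G3Xp8_6]⟩)) (.node 63 (.leaf ⟨78553585732, 6344753432598293842697225281,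
  238718856730495999238766332928649843871127205914848895376115732799639855234019305963651561, 90665,
  [G3Xp0_5, G3Xp0_6, G3Xp1_0, G3Xp1_3, G3Xp1_5, G3Xp1_6, G3Xp1_7, G3Xp1_8, G3Xp2_5, G3Xp2_6,
  G3Xp2_8, G3Xp3_5, G3Xp3_6, G3Xp3_7, G3Xp3_8, G3Xp4_3, G3Xp4_5, G3Xp4_6, G3Xp4_7, G3Xp4_8, G3Xp6_5,
  G3Xp7_5, G3Xp7_6, G3Xp7_8, G3Xp8_5, G3Xp8_6]⟩) (.leaf ⟨157041185156, 6348380210072898172843572736,
  247173480756786992074121749534233722464526095517330303344133951627253647360197881155813887,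
  165445, [G3Xp1_0, G3Xp1_2, G3Xp1_3, G3Xp1_4, G3Xp1_5, G3Xp1_6, G3Xp1_7, G3Xp1_8, G3Xp2_0, G3Xp2_4,
  G3Xp2_5, G3Xp2_6, G3Xp2_8, G3Xp3_0, G3Xp3_4, G3Xp3_5, G3Xp3_6, G3Xp3_7, G3Xp3_8, G3Xp5_4, G3Xp6_4,
  G3Xp6_5, G3Xp7_0, G3Xp7_4, G3Xp7_5, G3Xp7_6, G3Xp7_8, G3Xp8_0, G3Xp8_4, G3Xp8_5, G3Xp8_6]⟩))))))

def G3XT2 : Tr :=
  .node 96 (.node 80 (.node 72 (.node 68 (.node 66 (.node 65 (.leaf ⟨156235878788,
  6348109851021525271088214432,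
  119359458699301963419513955012844245036579188509405180120534511791104915474497117198745855, 99909,
  [G3Xp1_2, G3Xp1_3, G3Xp1_4, G3Xp1_5, G3Xp1_6, G3Xp1_7, G3Xp3_4, G3Xp3_5, G3Xp3_6, G3Xp3_7,
  G3Xp5_4, G3Xp6_4, G3Xp6_5, G3Xp7_4, G3Xp7_5, G3Xp7_6, G3Xp8_2, G3Xp8_4, G3Xp8_5, G3Xp8_6]⟩) (.leaf
  ⟨105501528452, 1315388037374911110426305862,
  69128013378436991524403053959277907751048450979429650095167519276073933200039101614522369, 149129,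
  [G3Xp1_0, G3Xp2_0, G3Xp2_1, G3Xp2_4, G3Xp2_5, G3Xp2_6, G3Xp2_8, G3Xp3_0, G3Xp3_1, G3Xp5_4,
  G3Xp6_4, G3Xp6_5, G3Xp7_0, G3Xp7_1, G3Xp7_3, G3Xp8_0, G3Xp8_4, G3Xp8_5, G3Xp8_6]⟩)) (.node 67
  (.leaf ⟨104696222084, 5148855323713231383777420617,
  69128013335825753574280353341631744602317668745907621673698195169333045947872999112704001, 83593,
  [G3Xp1_0, G3Xp2_0, G3Xp2_1, G3Xp3_0, G3Xp3_1, G3Xp5_4, G3Xp6_4, G3Xp6_5, G3Xp7_0, G3Xp7_1,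
  G3Xp7_3, G3Xp8_0, G3Xp8_1, G3Xp8_2, G3Xp8_3, G3Xp8_4, G3Xp8_5, G3Xp8_6, G3Xp8_7]⟩) (.leaf
  ⟨104696271236, 5148855323713225636037436736,
  67636020860597931309217632764193489878697014397105234834986328166725062572604833017102343, 83589,
  [G3Xp1_2, G3Xp5_4, G3Xp6_4, G3Xp6_5, G3Xp7_3, G3Xp8_2, G3Xp8_3, G3Xp8_4, G3Xp8_5, G3Xp8_6,
  G3Xp8_7]⟩))) (.node 70 (.node 69 (.leaf ⟨78543081764, 5068088761163390450822907936,
  190975097523437270935233906841573269844832157572563085760254571713567841794940742078693883, 88101,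
  [G3Xp2_1, G3Xp2_8, G3Xp3_7, G3Xp3_8, G3Xp5_4, G3Xp6_4, G3Xp6_5, G3Xp7_8]⟩) (.leaf ⟨74650767652,
  8786516765008679479259793440,
  63658406318586919366507392252669153698848675124352718548654887001887474960800027116437759, 88085,
  [G3Xp2_7, G3Xp3_7, G3Xp5_4, G3Xp6_4, G3Xp6_5, G3Xp8_7]⟩)) (.node 71 (.leaf ⟨157039534481,
  1238094781311323536102789220,
  238718864319162151584757832403221488384933705533211799193002847943984427764372245590376545,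
  164930, [G3Xp0_5, G3Xp0_6, G3Xp1_0, G3Xp1_5, G3Xp1_6, G3Xp2_0, G3Xp2_5, G3Xp2_6, G3Xp2_8, G3Xp3_0,
  G3Xp3_5, G3Xp3_6, G3Xp3_7, G3Xp3_8, G3Xp4_5, G3Xp4_6, G3Xp6_5, G3Xp7_5, G3Xp7_6, G3Xp7_8, G3Xp8_5,
  G3Xp8_6]⟩) (.leaf ⟨156233732504, 6348109851009142715017593926,
  111402165500286966335310527154608740735125664032499406654445559519361978029270310943653889, 99401,
  [G3Xp1_0, G3Xp2_0, G3Xp2_1, G3Xp3_5, G3Xp3_6, G3Xp3_7, G3Xp4_0, G3Xp4_1, G3Xp4_3, G3Xp4_5,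
  G3Xp4_6, G3Xp4_7, G3Xp6_5, G3Xp7_5, G3Xp7_6, G3Xp8_0, G3Xp8_1, G3Xp8_2, G3Xp8_5, G3Xp8_6]⟩))))
  (.node 76 (.node 74 (.node 73 (.leaf ⟨156254753060, 6348109848641372868022834304,
  63658406303765312851751800675922685675714474331353067536704048814487941728280036984750335, 104517,
  [G3Xp1_2, G3Xp1_3, G3Xp1_4, G3Xp1_5, G3Xp1_6, G3Xp1_7, G3Xp3_7, G3Xp5_4, G3Xp6_4, G3Xp6_5,
  G3Xp8_2]⟩) (.leaf ⟨157060059428, 6348380204122517165180130432,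
  191472428348281627511780181309872212782688335659711952477751745478217424205094530422145535,
  170053, [G3Xp1_0, G3Xp1_2, G3Xp1_3, G3Xp1_4, G3Xp1_5, G3Xp1_6, G3Xp1_7, G3Xp1_8, G3Xp2_0, G3Xp2_8,
  G3Xp3_0, G3Xp3_7, G3Xp3_8, G3Xp5_4, G3Xp6_4, G3Xp6_5, G3Xp7_0, G3Xp7_8, G3Xp8_0]⟩)) (.node 75
  (.leaf ⟨104694124952, 5148855323704224184522671177,
  69128013335825725304295951158689396587901776901927852513559445883854586755009637284773889, 83081,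
  [G3Xp1_0, G3Xp2_0, G3Xp2_1, G3Xp3_0, G3Xp3_1, G3Xp4_0, G3Xp4_1, G3Xp4_5, G3Xp4_6, G3Xp6_5,
  G3Xp7_0, G3Xp7_1, G3Xp7_3, G3Xp8_0, G3Xp8_1, G3Xp8_2, G3Xp8_3, G3Xp8_5, G3Xp8_6, G3Xp8_7]⟩) (.leaf
  ⟨105499431320, 1315388037365903911171556422,
  69128013376584289826621592649558423976493552609797561180378520965964152663049129712353281, 148617,
  [G3Xp1_0, G3Xp2_0, G3Xp2_1, G3Xp2_5, G3Xp2_6, G3Xp2_8, G3Xp3_0, G3Xp3_1, G3Xp4_0, G3Xp4_1,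
  G3Xp4_5, G3Xp4_6, G3Xp6_5, G3Xp7_0, G3Xp7_1, G3Xp7_3, G3Xp8_0, G3Xp8_5, G3Xp8_6]⟩))) (.node 78
  (.node 77 (.leaf ⟨104694423953, 12816096857335553555838632964,
  67636020860597903039233230581251141864276749087249427419981747750768319009764533628502509, 83074,
  [G3Xp0_2, G3Xp0_3, G3Xp0_5, G3Xp0_6, G3Xp0_7, G3Xp0_8, G3Xp1_0, G3Xp1_2, G3Xp1_3, G3Xp1_5,
  G3Xp1_6, G3Xp1_7, G3Xp1_8, G3Xp4_5, G3Xp4_6, G3Xp6_5, G3Xp7_3, G3Xp8_2, G3Xp8_3, G3Xp8_5, G3Xp8_6,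
  G3Xp8_7]⟩) (.leaf ⟨105499730321, 1319131696961977088761660420,
  67636020901356471095306921522223129699052857456588541133113950795628386523843311185100897, 148610,
  [G3Xp0_5, G3Xp0_6, G3Xp1_0, G3Xp1_5, G3Xp1_6, G3Xp2_5, G3Xp2_6, G3Xp2_8, G3Xp4_5, G3Xp4_6,
  G3Xp6_5, G3Xp7_3, G3Xp8_5, G3Xp8_6]⟩)) (.node 79 (.leaf ⟨112895039620, 43753944106395043373321413,
  198434027854758895321833831395810682296913193076513121682002151783469504106479561398550529, 86441,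
  [G3Xp1_0, G3Xp2_8, G3Xp3_0, G3Xp3_1, G3Xp3_2, G3Xp3_8, G3Xp5_4, G3Xp5_6, G3Xp6_4, G3Xp7_0,
  G3Xp7_1, G3Xp7_2, G3Xp7_3, G3Xp7_8]⟩) (.leaf ⟨156247363972, 2518232734213648786475096294,
  71615699503475073072623274056707200940304645245138438758731324652120917415977807320711169, 102729,
  [G3Xp1_0, G3Xp2_0, G3Xp2_1, G3Xp3_4, G3Xp3_7, G3Xp5_4, G3Xp5_6, G3Xp6_4, G3Xp7_4, G3Xp8_0,
  G3Xp8_1, G3Xp8_2, G3Xp8_4]⟩))))) (.node 88 (.node 84 (.node 82 (.node 81 (.leaf ⟨165643063684,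
  1242930475016547616050880801,
  201419044817726026826073473246726568634012589175748536907290330673949542149782824808349697,
  168297, [G3Xp1_0, G3Xp3_0, G3Xp3_2, G3Xp3_4, G3Xp3_7, G3Xp3_8, G3Xp5_4, G3Xp5_6, G3Xp6_4, G3Xp7_0,
  G3Xp7_2, G3Xp7_4, G3Xp7_8, G3Xp8_0, G3Xp8_4]⟩) (.leaf ⟨105513111940, 1319131687389646382957864256,
  67636020892208756462510956305878651199837132388739318043006563228695396995538340351574295, 151941,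
  [G3Xp1_0, G3Xp1_2, G3Xp1_4, G3Xp1_8, G3Xp2_0, G3Xp2_4, G3Xp2_8, G3Xp5_4, G3Xp5_6, G3Xp6_4,
  G3Xp7_3, G3Xp8_0, G3Xp8_4]⟩)) (.node 83 (.leaf ⟨156247413124, 6348109841436739364136953152,
  71615699503127691504289251295282047316002078180711850841614848130661220861681801921298591, 102725,
  [G3Xp1_2, G3Xp1_3, G3Xp1_4, G3Xp1_7, G3Xp3_4, G3Xp3_7, G3Xp5_4, G3Xp5_6, G3Xp6_4, G3Xp7_4,
  G3Xp8_2, G3Xp8_4]⟩) (.leaf ⟨157052719492, 6348380196921261361014878624,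
  199429721549496679592114691056008710183114946034723055537312793819022024682622905432932767,
  168261, [G3Xp1_0, G3Xp1_2, G3Xp1_3, G3Xp1_4, G3Xp1_7, G3Xp1_8, G3Xp2_0, G3Xp2_4, G3Xp2_8, G3Xp3_0,
  G3Xp3_4, G3Xp3_7, G3Xp3_8, G3Xp5_4, G3Xp5_6, G3Xp6_4, G3Xp7_0, G3Xp7_4, G3Xp7_8, G3Xp8_0,
  G3Xp8_4]⟩))) (.node 86 (.node 85 (.leaf ⟨105513062788, 1315388031356976108352477414,
  69128013367320781337714286101362754938871085016836634379576102778504164800258083823550465, 151945,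
  [G3Xp1_0, G3Xp2_0, G3Xp2_1, G3Xp2_4, G3Xp2_8, G3Xp3_0, G3Xp3_1, G3Xp5_4, G3Xp5_6, G3Xp6_4,
  G3Xp7_0, G3Xp7_1, G3Xp7_3, G3Xp8_0, G3Xp8_4]⟩) (.leaf ⟨104707756420, 5148855317695296381703592265,
  69128013335825583954373940244379406350974341937228524486008272819551205612851641767165953, 86409,
  [G3Xp1_0, G3Xp2_0, G3Xp2_1, G3Xp3_0, G3Xp3_1, G3Xp5_4, G3Xp5_6, G3Xp6_4, G3Xp7_0, G3Xp7_1,
  G3Xp7_3, G3Xp8_0, G3Xp8_1, G3Xp8_2, G3Xp8_3, G3Xp8_4, G3Xp8_7]⟩)) (.node 87 (.leaf ⟨104707805572,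
  5148855317695290633963608288,
  67636020860597761689311219666941151627353687588426137647296405816943222237583475671564295, 86405,
  [G3Xp1_2, G3Xp5_4, G3Xp5_6, G3Xp6_4, G3Xp7_3, G3Xp8_2, G3Xp8_3, G3Xp8_4, G3Xp8_7]⟩) (.leaf
  ⟨78535743620, 8898082743312399798647196800,
  190975097523437270935233906843845624540726993295140212039139398823098617556623656936407435, 86309,
  [G3Xp2_1, G3Xp2_8, G3Xp3_7, G3Xp3_8, G3Xp5_1, G3Xp5_3, G3Xp5_4, G3Xp5_6, G3Xp5_7, G3Xp5_8,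
  G3Xp6_1, G3Xp6_3, G3Xp6_4, G3Xp6_7, G3Xp6_8, G3Xp7_8]⟩)))) (.node 92 (.node 90 (.node 89 (.leaf
  ⟨78535760004, 8898082743312399559202770049,
  190975097523205686756759274452985928175676901465067724274945901212587744442787024626778505, 86313,
  [G3Xp1_0, G3Xp1_3, G3Xp1_7, G3Xp1_8, G3Xp2_8, G3Xp3_7, G3Xp3_8, G3Xp5_3, G3Xp5_4, G3Xp5_6,
  G3Xp5_7, G3Xp5_8, G3Xp6_3, G3Xp6_4, G3Xp6_7, G3Xp6_8, G3Xp7_8]⟩) (.leaf ⟨157043728785,
  1238094780952161465819992164,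
  222804277916732047424088812910345911739878621638578778170254744792983332375643325357686849,
  165954, [G3Xp0_6, G3Xp1_0, G3Xp1_6, G3Xp2_0, G3Xp2_6, G3Xp2_8, G3Xp3_0, G3Xp3_6, G3Xp3_7, G3Xp3_8,
  G3Xp4_6, G3Xp5_4, G3Xp5_6, G3Xp7_6, G3Xp7_8, G3Xp8_6]⟩)) (.node 91 (.leaf ⟨157043724690,
  1238094786717059535841177959,
  224296262803293717343160034013212521949119858918423199193143225950120369139066077137862722,
  165953, [G3Xp0_1, G3Xp0_6, G3Xp1_6, G3Xp2_0, G3Xp2_1, G3Xp2_6, G3Xp2_8, G3Xp3_0, G3Xp3_1, G3Xp3_6,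
  G3Xp3_7, G3Xp3_8, G3Xp4_6, G3Xp5_4, G3Xp5_6, G3Xp7_0, G3Xp7_1, G3Xp7_6, G3Xp7_8, G3Xp8_0, G3Xp8_1,
  G3Xp8_6]⟩) (.leaf ⟨156237926808, 7624735554209475024568748135,
  95487579101562209030235625915287448923903604461591371331035257591080326575807427353706497, 100425,
  [G3Xp1_0, G3Xp2_0, G3Xp2_1, G3Xp3_6, G3Xp3_7, G3Xp4_0, G3Xp4_1, G3Xp4_3, G3Xp4_6, G3Xp4_7,
  G3Xp5_0, G3Xp5_1, G3Xp5_3, G3Xp5_4, G3Xp5_6, G3Xp5_7, G3Xp7_6, G3Xp8_0, G3Xp8_1, G3Xp8_2,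
  G3Xp8_6]⟩))) (.node 94 (.node 93 (.leaf ⟨105503625624, 1315388037114864551262849127,
  69128013372878886431058670030119467441859310467523445130232934477067103754234774274899969, 149641,
  [G3Xp1_0, G3Xp2_0, G3Xp2_1, G3Xp2_6, G3Xp2_8, G3Xp3_0, G3Xp3_1, G3Xp4_0, G3Xp4_1, G3Xp4_6,
  G3Xp5_0, G3Xp5_1, G3Xp5_4, G3Xp5_6, G3Xp7_0, G3Xp7_1, G3Xp7_3, G3Xp8_0, G3Xp8_6]⟩) (.leaf
  ⟨104698319256, 5148855323453148505296767081,
  69128013335825668764327146792804711573545547810958375972714357444220180534448501995798529, 84105,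
  [G3Xp1_0, G3Xp2_0, G3Xp2_1, G3Xp3_0, G3Xp3_1, G3Xp4_0, G3Xp4_1, G3Xp4_6, G3Xp5_0, G3Xp5_1,
  G3Xp5_4, G3Xp5_6, G3Xp7_0, G3Xp7_1, G3Xp7_3, G3Xp8_0, G3Xp8_1, G3Xp8_2, G3Xp8_3, G3Xp8_6,
  G3Xp8_7]⟩)) (.node 95 (.leaf ⟨104698614162, 5152482100911919746670301282,
  67636020860597846499264426215366456562577595357100948806457370019812712691339263893962830, 84097,
  [G3Xp0_1, G3Xp0_2, G3Xp0_3, G3Xp0_6, G3Xp4_6, G3Xp5_4, G3Xp5_6, G3Xp7_3, G3Xp8_2, G3Xp8_3,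
  G3Xp8_6, G3Xp8_7]⟩) (.leaf ⟨104698618257, 12816096856868305094498945028,
  67636020860597846499264426215366456562577605370291054382069146386162187576725552212410829, 84098,
  [G3Xp0_2, G3Xp0_3, G3Xp0_6, G3Xp0_7, G3Xp0_8, G3Xp1_0, G3Xp1_2, G3Xp1_3, G3Xp1_6, G3Xp1_7,
  G3Xp1_8, G3Xp4_6, G3Xp5_4, G3Xp5_6, G3Xp7_3, G3Xp8_2, G3Xp8_3, G3Xp8_6, G3Xp8_7]⟩)))))) (.node 112
  (.node 104 (.node 100 (.node 98 (.node 97 (.leaf ⟨105520451876, 1319131694594279886843745408,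
  123337073285892507442600880127616238085491411215157283667889639617595811690366797870006647,
  153733, [G3Xp1_0, G3Xp1_2, G3Xp1_4, G3Xp1_5, G3Xp1_6, G3Xp1_8, G3Xp2_0, G3Xp2_8, G3Xp3_4, G3Xp3_5,
  G3Xp3_6, G3Xp5_4, G3Xp6_4, G3Xp6_5, G3Xp7_3, G3Xp7_4, G3Xp7_5, G3Xp7_6, G3Xp8_0]⟩) (.leaf
  ⟨165631529540, 1247922162837941297326722177,
  193461751618363648173536022629005555545875869167002055609399044323876409602858149631492097,
  165481, [G3Xp1_0, G3Xp3_0, G3Xp3_2, G3Xp3_7, G3Xp3_8, G3Xp4_0, G3Xp4_2, G3Xp4_8, G3Xp5_0, G3Xp5_2,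
  G3Xp5_4, G3Xp5_8, G3Xp6_0, G3Xp6_2, G3Xp6_4, G3Xp6_5, G3Xp6_8, G3Xp7_0, G3Xp7_2, G3Xp7_8,
  G3Xp8_0]⟩)) (.node 99 (.leaf ⟨157041185348, 6348380195791983754446244992,
  191472428348281627511780181311485452544767941197430005348381401235200778132347514188202383,
  165445, [G3Xp1_0, G3Xp1_2, G3Xp1_3, G3Xp1_7, G3Xp1_8, G3Xp2_0, G3Xp2_8, G3Xp3_0, G3Xp3_7, G3Xp3_8,
  G3Xp4_0, G3Xp4_8, G3Xp5_0, G3Xp5_4, G3Xp5_8, G3Xp6_0, G3Xp6_4, G3Xp6_5, G3Xp6_8, G3Xp7_0, G3Xp7_8,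
  G3Xp8_0]⟩) (.leaf ⟨105501528644, 8975376001814793200226930092,
  69128013365468079639932824794424060469522133239198363089707542723549453805481481264431105, 149129,
  [G3Xp1_0, G3Xp2_0, G3Xp2_1, G3Xp2_8, G3Xp3_0, G3Xp3_1, G3Xp4_0, G3Xp4_1, G3Xp4_3, G3Xp4_7,
  G3Xp4_8, G3Xp5_0, G3Xp5_1, G3Xp5_3, G3Xp5_4, G3Xp5_7, G3Xp5_8, G3Xp6_0, G3Xp6_1, G3Xp6_3, G3Xp6_4,
  G3Xp6_5, G3Xp6_7, G3Xp6_8, G3Xp7_0, G3Xp7_1, G3Xp7_3, G3Xp8_0]⟩))) (.node 102 (.node 101 (.leaf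
  ⟨104696222276, 12816096843070801248626281999,
  69128013335825555684389538064242956431835674631319454309742363981800460208845121621327873, 83593,
  [G3Xp1_0, G3Xp2_0, G3Xp2_1, G3Xp3_0, G3Xp3_1, G3Xp4_0, G3Xp4_1, G3Xp4_2, G3Xp4_3, G3Xp4_7,
  G3Xp4_8, G3Xp5_0, G3Xp5_1, G3Xp5_2, G3Xp5_3, G3Xp5_4, G3Xp5_7, G3Xp5_8, G3Xp6_0, G3Xp6_1, G3Xp6_2,
  G3Xp6_3, G3Xp6_4, G3Xp6_5, G3Xp6_7, G3Xp6_8, G3Xp7_0, G3Xp7_1, G3Xp7_3, G3Xp8_0, G3Xp8_1, G3Xp8_2,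
  G3Xp8_3, G3Xp8_7]⟩) (.leaf ⟨78535481480, 1238094771733293200391082084,
  190975241707862581330597764467386512522473485688540284923649995053398232151778826596319235, 86309,
  [G3Xp2_0, G3Xp2_1, G3Xp2_4, G3Xp2_8, G3Xp3_0, G3Xp3_1, G3Xp3_4, G3Xp3_7, G3Xp3_8, G3Xp5_4,
  G3Xp5_6, G3Xp6_4, G3Xp7_8]⟩)) (.node 103 (.leaf ⟨78523947080, 1238094770613022793082867812,
  190975120289204143794733772874441061417953023976530468544073499234582936664804390831587331, 83493,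
  [G3Xp2_0, G3Xp2_1, G3Xp2_8, G3Xp3_0, G3Xp3_1, G3Xp3_7, G3Xp3_8, G3Xp5_4, G3Xp6_4, G3Xp6_5,
  G3Xp7_8]⟩) (.leaf ⟨74643165576, 4953009334917542693077948483,
  63658550502896465942618335865900738245780173700229735317024266026328620421974137110724611, 86293,
  [G3Xp2_4, G3Xp2_7, G3Xp3_0, G3Xp3_1, G3Xp3_4, G3Xp3_7, G3Xp5_4, G3Xp5_6, G3Xp6_4, G3Xp8_4,
  G3Xp8_7]⟩)))) (.node 108 (.node 106 (.node 105 (.leaf ⟨142881346120, 2593523709323918884668151974,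
  196444704525275532885297952814696941946981514085026613943948040207608623737163823376957443, 99861,
  [G3Xp3_0, G3Xp3_1, G3Xp3_8, G3Xp4_0, G3Xp4_8, G3Xp5_0, G3Xp5_4, G3Xp5_8, G3Xp6_0, G3Xp6_4,
  G3Xp6_5, G3Xp6_8, G3Xp7_0, G3Xp7_1, G3Xp7_3, G3Xp7_8]⟩) (.leaf ⟨112896088196,
  43753945290841745371795653,
  198434027854758895321833831395710247136791769475586657373031355714443445966012315840020481, 86697,
  [G3Xp1_0, G3Xp2_8, G3Xp3_0, G3Xp3_1, G3Xp3_2, G3Xp3_8, G3Xp4_5, G3Xp4_6, G3Xp5_6, G3Xp7_0,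
  G3Xp7_1, G3Xp7_2, G3Xp7_3, G3Xp7_8]⟩)) (.node 107 (.leaf ⟨165644112260,
  1242930476195364818515108129,
  193461751618363648173536022627065910708053349263671770800629468465406773474141641927294977,
  168553, [G3Xp1_0, G3Xp3_0, G3Xp3_2, G3Xp3_7, G3Xp3_8, G3Xp4_5, G3Xp4_6, G3Xp5_6, G3Xp7_0, G3Xp7_2,
  G3Xp7_8, G3Xp8_0]⟩) (.leaf ⟨156248412548, 2518232735394717788753008870,
  63658406304112694420085823437046543014345404976249749475580492179006656377962840343969793, 102985,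
  [G3Xp1_0, G3Xp2_0, G3Xp2_1, G3Xp3_7, G3Xp4_5, G3Xp4_6, G3Xp5_6, G3Xp8_0, G3Xp8_1, G3Xp8_2]⟩)))
  (.node 110 (.node 109 (.leaf ⟨157053768068, 6348380198095574963851735456,
  191472428348281627511780181309570916497016699240176601898564227569303786250274478823047567,
  168517, [G3Xp1_0, G3Xp1_2, G3Xp1_3, G3Xp1_7, G3Xp1_8, G3Xp2_0, G3Xp2_8, G3Xp3_0, G3Xp3_7, G3Xp3_8,
  G3Xp4_5, G3Xp4_6, G3Xp5_6, G3Xp7_0, G3Xp7_8, G3Xp8_0]⟩) (.leaf ⟨156248461700,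
  6348109842614430666694337856,
  63658406303765312851751800675621389390042837911817716957516530905574303773459985385652367, 102981,
  [G3Xp1_2, G3Xp1_3, G3Xp1_7, G3Xp3_7, G3Xp4_5, G3Xp4_6, G3Xp5_6, G3Xp8_2]⟩)) (.node 111 (.leaf
  ⟨105514160516, 1319131688567337685515248960,
  67636020890356054764729494996159167425277849514189791818515469112114811559282057171435783, 152197,
  [G3Xp1_0, G3Xp1_2, G3Xp1_8, G3Xp2_0, G3Xp2_8, G3Xp4_5, G3Xp4_6, G3Xp5_6, G3Xp7_3, G3Xp8_0]⟩)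
  (.leaf ⟨105514111364, 1315388032538045110630389990,
  69128013365468079639932824791643271164311802142292552756032493413896235414208650202316801, 152201,
  [G3Xp1_0, G3Xp2_0, G3Xp2_1, G3Xp2_8, G3Xp3_0, G3Xp3_1, G3Xp4_5, G3Xp4_6, G3Xp5_6, G3Xp7_0,
  G3Xp7_1, G3Xp7_3, G3Xp8_0]⟩))))) (.node 120 (.node 116 (.node 114 (.node 113 (.leaf ⟨104708804996,
  5148855318876365383981504841,
  69128013335825555684389538061437058336554065588336762617114912479574597570928818220171265, 86665,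
  [G3Xp1_0, G3Xp2_0, G3Xp2_1, G3Xp3_0, G3Xp3_1, G3Xp4_5, G3Xp4_6, G3Xp5_6, G3Xp7_0, G3Xp7_1,
  G3Xp7_3, G3Xp8_0, G3Xp8_1, G3Xp8_2, G3Xp8_3, G3Xp8_7]⟩) (.leaf ⟨104708854148,
  5148855318876359636241520864,
  67636020860597733419326817483998803612933411239534375778403045476966614195660652124569607, 86661,
  [G3Xp1_2, G3Xp4_5, G3Xp4_6, G3Xp5_6, G3Xp7_3, G3Xp8_2, G3Xp8_3, G3Xp8_7]⟩)) (.node 115 (.leaf
  ⟨78536530056, 1238094772916614002482712676,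
  190975120289204143794733772874139765132281390054716692406948166441478337629574453249900547, 86565,
  [G3Xp2_0, G3Xp2_1, G3Xp2_8, G3Xp3_0, G3Xp3_1, G3Xp3_7, G3Xp3_8, G3Xp4_5, G3Xp4_6, G3Xp5_6,
  G3Xp7_8]⟩) (.leaf ⟨78536792196, 10174747406426903049405567136,
  190975097523437270935233906843745189381181401339322123479940854578162774925900848799809931, 86565,
  [G3Xp2_1, G3Xp2_8, G3Xp3_7, G3Xp3_8, G3Xp4_1, G3Xp4_3, G3Xp4_5, G3Xp4_6, G3Xp4_7, G3Xp4_8,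
  G3Xp5_1, G3Xp5_3, G3Xp5_6, G3Xp5_7, G3Xp5_8, G3Xp6_1, G3Xp6_3, G3Xp6_7, G3Xp6_8, G3Xp7_8]⟩)))
  (.node 118 (.node 117 (.leaf ⟨78536808580, 10174747406426902775601402017,
  190975097523205686756759274452885493016128386505974973909910949597986469246024904625095049, 86569,
  [G3Xp1_0, G3Xp1_3, G3Xp1_7, G3Xp1_8, G3Xp2_8, G3Xp3_7, G3Xp3_8, G3Xp4_3, G3Xp4_5, G3Xp4_6,
  G3Xp4_7, G3Xp4_8, G3Xp5_3, G3Xp5_6, G3Xp5_7, G3Xp5_8, G3Xp6_3, G3Xp6_7, G3Xp6_8, G3Xp7_8]⟩) (.leaf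
  ⟨74644214152, 4953009336098611695355861059,
  63658429084238000136769942089812078001289225318440845240399873143458175998314185775841283, 86549,
  [G3Xp2_7, G3Xp3_0, G3Xp3_1, G3Xp3_7, G3Xp4_5, G3Xp4_6, G3Xp5_6, G3Xp8_7]⟩)) (.node 119 (.leaf
  ⟨22622541892, 47186070402737350086134913,
  69625344160438073659611148272601772359265568620322198016411170205550774311126515539247109, 67161,
  [G3Xp1_0, G3Xp1_2, G3Xp3_2, G3Xp4_2, G3Xp5_2, G3Xp5_4, G3Xp6_2, G3Xp6_4, G3Xp6_5, G3Xp7_2,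
  G3Xp7_3]⟩) (.leaf ⟨22622132292, 155989357274491094851259520,
  67636020861523822778087095300122859089736389256175724459898181109133858420682444115017739, 67157,
  [G3Xp1_3, G3Xp2_3, G3Xp5_4, G3Xp6_4, G3Xp6_5, G3Xp7_3]⟩)))) (.node 124 (.node 122 (.node 121
  (.leaf ⟨18864035908, 162002110398804870619597952,
  69625313806236639693080929568235681318672663740210379972017986967530820856999486095884303, 67141,
  [G3Xp0_2, G3Xp1_2, G3Xp1_3, G3Xp5_4, G3Xp6_4, G3Xp6_5, G3Xp7_2, G3Xp7_3, G3Xp8_2]⟩) (.leaf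
  ⟨39802001476, 1239186891649198835387993216,
  63658406303765305791265287909175931129959221691285467978702146024225392438522328968593411, 67221,
  [G3Xp3_7, G3Xp5_4, G3Xp6_4, G3Xp6_5]⟩)) (.node 123 (.leaf ⟨36043905092,
  1245199644773512611156331648,
  65647729603605900447390064430606820474805251846449300603216193109887242297130961199955975, 67205,
  [G3Xp0_2, G3Xp1_2, G3Xp3_2, G3Xp3_7, G3Xp5_4, G3Xp6_4, G3Xp6_5, G3Xp7_2, G3Xp8_2]⟩) (.leaf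
  ⟨142881609796, 6430314361074491484525431936,
  67636020860597726358840304717641226118099271175431312137781460552632245744381251520692367, 99861,
  [G3Xp0_3, G3Xp0_7, G3Xp4_1, G3Xp4_2, G3Xp4_3, G3Xp5_1, G3Xp5_2, G3Xp5_3, G3Xp5_4, G3Xp6_1,
  G3Xp6_2, G3Xp6_3, G3Xp6_4, G3Xp6_5, G3Xp7_3, G3Xp8_3, G3Xp8_7]⟩))) (.node 126 (.node 125 (.leaf
  ⟨142881626180, 7706940063481027801024466049,
  67636020860597726358840304717628671723063632157790701228624028349758292843399008595214477, 99865,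
  [G3Xp0_3, G3Xp0_7, G3Xp1_0, G3Xp1_2, G3Xp1_3, G3Xp1_7, G3Xp4_2, G3Xp4_3, G3Xp5_2, G3Xp5_3,
  G3Xp5_4, G3Xp6_2, G3Xp6_3, G3Xp6_4, G3Xp6_5, G3Xp7_3, G3Xp8_3, G3Xp8_7]⟩) (.leaf ⟨22625687620,
  44768222257102934901948481,
  69625344160438073659611148272275367283522656752431540520333435219873604817355798579773445, 67929,
  [G3Xp1_0, G3Xp1_2, G3Xp3_2, G3Xp4_5, G3Xp4_6, G3Xp5_6, G3Xp7_2, G3Xp7_3]⟩)) (.node 127 (.leaf
  ⟨22625278020, 155989360768158505783918720,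
  67636020861523822778087095299821562804064755334361948322772848316029259385452987569668107, 67925,
  [G3Xp1_3, G3Xp2_3, G3Xp4_5, G3Xp4_6, G3Xp5_6, G3Xp7_3]⟩) (.leaf ⟨18867181636,
  162002113892472281552257152,
  69625313806236639693080929567934385033001029818396603834892654174426221821770029550534671, 67909,
  [G3Xp0_2, G3Xp1_2, G3Xp1_3, G3Xp4_5, G3Xp4_6, G3Xp5_6, G3Xp7_2, G3Xp7_3, G3Xp8_2]⟩))))))

def G3XT3 : Tr :=
  .node 160 (.node 144 (.node 136 (.node 132 (.node 130 (.node 129 (.leaf ⟨39805147204,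
  1239186895142866246320652416,
  63658406303765305791265287908874634844287587769471691841576813231120793403292872423243779, 67989,
  [G3Xp3_7, G3Xp4_5, G3Xp4_6, G3Xp5_6]⟩) (.leaf ⟨36047050820, 1245199648267180022088990848,
  65647729603605900447390064430305524189133617924635524466090860316782643261901504654606343, 67973,
  [G3Xp0_2, G3Xp1_2, G3Xp3_2, G3Xp3_7, G3Xp4_5, G3Xp4_6, G3Xp5_6, G3Xp7_2, G3Xp8_2]⟩)) (.node 131
  (.leaf ⟨142884755524, 6426687587109206053203607584,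
  67636020860597726358840304717252049067178164442348451244322720085523650104257383525908623, 100629,
  [G3Xp0_3, G3Xp0_7, G3Xp4_5, G3Xp4_6, G3Xp5_6, G3Xp7_3, G3Xp8_3, G3Xp8_7]⟩) (.leaf ⟨142884771908,
  7704522215335393385840279617,
  67636020860597726358840304717252049067178164397746281014641488978935982432545770807492749, 100633,
  [G3Xp0_3, G3Xp0_7, G3Xp1_0, G3Xp1_2, G3Xp1_3, G3Xp1_7, G3Xp4_5, G3Xp4_6, G3Xp5_6, G3Xp7_3,
  G3Xp8_3, G3Xp8_7]⟩))) (.node 134 (.node 133 (.leaf ⟨22650851908, 44881410365224210988564545,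
  197437415917753240693571451716644578002294396901020678980101592670420778672846148898914309, 74073,
  [G3Xp1_0, G3Xp1_2, G3Xp3_2, G3Xp5_4, G3Xp6_4, G3Xp6_5, G3Xp7_0, G3Xp7_2, G3Xp7_3, G3Xp7_8]⟩)
  (.leaf ⟨22650442308, 156102585769767930398015616,
  195448092618838989812047398744190773522836495482951086782541005766576433240943337888808971, 74069,
  [G3Xp1_3, G3Xp2_3, G3Xp5_4, G3Xp6_4, G3Xp6_5, G3Xp7_0, G3Xp7_3, G3Xp7_8]⟩)) (.node 135 (.leaf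
  ⟨39830311492, 1239337935969826776623906944,
  191472428318523058811050694094298742611336699396801597488286227383969931705663292033728515, 74133,
  [G3Xp3_0, G3Xp3_7, G3Xp3_8, G3Xp5_4, G3Xp6_4, G3Xp6_5, G3Xp7_0, G3Xp7_8]⟩) (.leaf ⟨36072215108,
  1246598574437238856139964544,
  193461751618363653467148510669062481316388062536878410482126320412559183935566363565752327, 74117,
  [G3Xp1_2, G3Xp3_0, G3Xp3_2, G3Xp3_7, G3Xp3_8, G3Xp5_4, G3Xp6_4, G3Xp6_5, G3Xp7_0, G3Xp7_2,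
  G3Xp7_8, G3Xp8_2]⟩)))) (.node 140 (.node 138 (.node 137 (.leaf ⟨142909936196,
  2636818367618989161558605889,
  67636020860597486067666560527619480551672572754498902889775656196786564390771823441870861, 106777,
  [G3Xp1_0, G3Xp1_2, G3Xp1_3, G3Xp5_4, G3Xp6_4, G3Xp6_5, G3Xp7_3]⟩) (.leaf ⟨22650853444,
  44768225903892733165207617,
  69625344160438271549501917478342448555517079570865288552648700103130107455289871506342005, 74073,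
  [G3Xp0_4, G3Xp0_5, G3Xp0_6, G3Xp1_0, G3Xp1_2, G3Xp1_4, G3Xp1_5, G3Xp1_6, G3Xp3_2, G3Xp5_4,
  G3Xp6_4, G3Xp6_5, G3Xp7_2, G3Xp7_3, G3Xp8_4, G3Xp8_5, G3Xp8_6]⟩)) (.node 139 (.leaf ⟨22650443844,
  155989363224872102514524288,
  67636020861524020667977864505888644076059178152795695773550865043385067627971471623585915, 74069,
  [G3Xp0_4, G3Xp0_5, G3Xp0_6, G3Xp1_3, G3Xp2_3, G3Xp5_4, G3Xp6_4, G3Xp6_5, G3Xp7_3, G3Xp8_4,
  G3Xp8_5, G3Xp8_6]⟩) (.leaf ⟨18892347460, 162002116349185878282862720,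
  69625313806236837579952184747280594647992746947084152650223310726457485946404909256540287, 74053,
  [G3Xp0_2, G3Xp0_4, G3Xp0_5, G3Xp0_6, G3Xp1_2, G3Xp1_3, G3Xp5_4, G3Xp6_4, G3Xp6_5, G3Xp7_2,
  G3Xp7_3, G3Xp8_2, G3Xp8_4, G3Xp8_5, G3Xp8_6]⟩))) (.node 142 (.node 141 (.leaf ⟨39830313028,
  1239186897599579843051257984,
  63658406303765503681156057114941716116282010587905439292354829958476601645811356477161587, 74133,
  [G3Xp0_4, G3Xp0_5, G3Xp0_6, G3Xp3_7, G3Xp5_4, G3Xp6_4, G3Xp6_5, G3Xp8_4, G3Xp8_5, G3Xp8_6]⟩)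
  (.leaf ⟨36072216644, 1245199650723893618819596416,
  65647729603606098334261319609651733804125335053323073281421516868813907386536384360611959, 74117,
  [G3Xp0_2, G3Xp0_4, G3Xp0_5, G3Xp0_6, G3Xp1_2, G3Xp3_2, G3Xp3_7, G3Xp5_4, G3Xp6_4, G3Xp6_5,
  G3Xp7_2, G3Xp8_2, G3Xp8_4, G3Xp8_5, G3Xp8_6]⟩)) (.node 143 (.leaf ⟨142909921348,
  6426687589565919649934213152,
  67636020860597924248731073923319130339172587260782198695100736812879458346775867579826431, 106773,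
  [G3Xp0_3, G3Xp0_4, G3Xp0_5, G3Xp0_6, G3Xp0_7, G3Xp5_4, G3Xp6_4, G3Xp6_5, G3Xp7_3, G3Xp8_3,
  G3Xp8_4, G3Xp8_5, G3Xp8_6, G3Xp8_7]⟩) (.leaf ⟨142909937732, 7704522218982183184103538753,
  67636020860597924248731073923319130339172587216180029046956753862192485070479843734061309, 106777,
  [G3Xp0_3, G3Xp0_4, G3Xp0_5, G3Xp0_6, G3Xp0_7, G3Xp1_0, G3Xp1_2, G3Xp1_3, G3Xp1_4, G3Xp1_5,
  G3Xp1_6, G3Xp1_7, G3Xp5_4, G3Xp6_4, G3Xp6_5, G3Xp7_3, G3Xp8_3, G3Xp8_4, G3Xp8_5, G3Xp8_6,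
  G3Xp8_7]⟩))))) (.node 152 (.node 148 (.node 146 (.node 145 (.leaf ⟨22651902020,
  44768225894885533910467649,
  69625344160438243279517521877418329825926817848399580441752157046270356793875687113228389, 74329,
  [G3Xp0_5, G3Xp0_6, G3Xp1_0, G3Xp1_2, G3Xp1_5, G3Xp1_6, G3Xp3_2, G3Xp4_2, G3Xp4_5, G3Xp4_6,
  G3Xp6_5, G3Xp7_2, G3Xp7_3, G3Xp8_5, G3Xp8_6]⟩) (.leaf ⟨22651492420, 155989363216990803166626944,
  67636020861523992397993468904964525346463070423780664134058256983751693890966604767821931, 74325,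
  [G3Xp0_5, G3Xp0_6, G3Xp1_3, G3Xp2_3, G3Xp4_5, G3Xp4_6, G3Xp6_5, G3Xp7_3, G3Xp8_5, G3Xp8_6]⟩))
  (.node 147 (.leaf ⟨18893396036, 162002116341304578934965376,
  69625313806236809310399148293030886155111311459461435101508896977584761369097700164763759, 74309,
  [G3Xp0_2, G3Xp0_5, G3Xp0_6, G3Xp1_2, G3Xp1_3, G3Xp4_5, G3Xp4_6, G3Xp6_5, G3Xp7_2, G3Xp7_3,
  G3Xp8_2, G3Xp8_5, G3Xp8_6]⟩) (.leaf ⟨39831361604, 1239186897591698543703360640,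
  63658406303765475411171661514017597386685902858890407652862221898843227908806489621397603, 74389,
  [G3Xp0_5, G3Xp0_6, G3Xp3_7, G3Xp4_5, G3Xp4_6, G3Xp6_5, G3Xp8_5, G3Xp8_6]⟩))) (.node 150 (.node 149
  (.leaf ⟨36073265220, 1245199650716012319471699072,
  65647729603606070064708283155402025311243899565700355732707103119941182809229175268835431, 74373,
  [G3Xp0_2, G3Xp0_5, G3Xp0_6, G3Xp1_2, G3Xp3_2, G3Xp3_7, G3Xp4_5, G3Xp4_6, G3Xp6_5, G3Xp7_2,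
  G3Xp8_2, G3Xp8_5, G3Xp8_6]⟩) (.leaf ⟨142910969924, 6427896515377689298004476992,
  67636020860597895978746678322395011609596940554689799696462980340904112572046183779664111, 107029,
  [G3Xp0_3, G3Xp0_5, G3Xp0_6, G3Xp0_7, G3Xp4_1, G3Xp4_2, G3Xp4_3, G3Xp4_5, G3Xp4_6, G3Xp6_5,
  G3Xp7_3, G3Xp8_3, G3Xp8_5, G3Xp8_6, G3Xp8_7]⟩)) (.node 151 (.leaf ⟨142910986308,
  7704522218973175984848798785,
  67636020860597895978746678322395011609594017506812968159405840283994464673222906801291501, 107033,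
  [G3Xp0_3, G3Xp0_5, G3Xp0_6, G3Xp0_7, G3Xp1_0, G3Xp1_2, G3Xp1_3, G3Xp1_5, G3Xp1_6, G3Xp1_7,
  G3Xp4_2, G3Xp4_3, G3Xp4_5, G3Xp4_6, G3Xp6_5, G3Xp7_3, G3Xp8_3, G3Xp8_5, G3Xp8_6, G3Xp8_7]⟩) (.leaf
  ⟨143370244388, 120936490011017554965923872,
  67636020860597486056963300029937919744696126083832094146949824306280021854600082732482687, 104469,
  [G3Xp5_4, G3Xp6_4, G3Xp6_5, G3Xp7_3]⟩)))) (.node 156 (.node 154 (.node 153 (.leaf ⟨22708506916,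
  7710800602841187736191338528,
  70620005810358367457430443054869905768137855583679277579388555878460573598788346649117183, 71765,
  [G3Xp3_1, G3Xp3_2, G3Xp5_4, G3Xp6_4, G3Xp6_5, G3Xp7_1, G3Xp7_2, G3Xp7_3]⟩) (.leaf ⟨22634076292,
  47186071521881857487604865,
  69625344160438073659611148272400911233709512292885562576583818742141368285411099692761093, 69977,
  [G3Xp1_0, G3Xp1_2, G3Xp3_2, G3Xp5_2, G3Xp5_4, G3Xp5_6, G3Xp6_2, G3Xp6_4, G3Xp7_2, G3Xp7_3]⟩))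
  (.node 155 (.leaf ⟨22633666692, 155989358393635602252762240,
  67636020861523822778087095299921997964186178935288412631743644385055317525919752091861003, 69973,
  [G3Xp1_3, G3Xp2_3, G3Xp5_4, G3Xp5_6, G3Xp6_4, G3Xp7_3]⟩) (.leaf ⟨18875570308,
  162002111517949378021100672,
  69625313806236639693080929568059928983187885358850625891143037696693985289825330663522319, 69957,
  [G3Xp0_2, G3Xp1_2, G3Xp1_3, G3Xp5_2, G3Xp5_4, G3Xp5_6, G3Xp6_2, G3Xp6_4, G3Xp7_2, G3Xp7_3,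
  G3Xp8_2]⟩))) (.node 158 (.node 157 (.leaf ⟨39813535876, 1239186892768343342789495936,
  63658406303765305791265287908975070004409011370398156150547609300146851543759636945436675, 70037,
  [G3Xp3_7, G3Xp5_4, G3Xp5_6, G3Xp6_4]⟩) (.leaf ⟨36055439492, 1245199645892657118557834368,
  65647729603605900447390064430431068139320473465089546522341243839050406729956805767593991, 70021,
  [G3Xp0_2, G3Xp1_2, G3Xp3_2, G3Xp3_7, G3Xp5_2, G3Xp5_4, G3Xp5_6, G3Xp6_2, G3Xp6_4, G3Xp7_2,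
  G3Xp8_2]⟩)) (.node 159 (.leaf ⟨142893144196, 6430314362193635991926934656,
  67636020860597726358840304718243846274622421896503215581718870744630247374117197021315215, 102677,
  [G3Xp0_3, G3Xp0_7, G3Xp5_1, G3Xp5_2, G3Xp5_3, G3Xp5_4, G3Xp5_6, G3Xp5_7, G3Xp6_1, G3Xp6_2,
  G3Xp6_3, G3Xp6_4, G3Xp6_7, G3Xp7_3, G3Xp8_3, G3Xp8_7]⟩) (.leaf ⟨142893160580,
  7706940064600172308425936001,
  67636020860597726358840304718231291879589705882137266478397845911421727038611316007501965, 102681,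
  [G3Xp0_3, G3Xp0_7, G3Xp1_0, G3Xp1_2, G3Xp1_3, G3Xp1_7, G3Xp5_2, G3Xp5_3, G3Xp5_4, G3Xp5_6,
  G3Xp5_7, G3Xp6_2, G3Xp6_3, G3Xp6_4, G3Xp6_7, G3Xp7_3, G3Xp8_3, G3Xp8_7]⟩)))))) (.node 176 (.node
  168 (.node 164 (.node 162 (.node 161 (.leaf ⟨143362642312, 39934804003724946877618276,
  77085306536692978834026506357959100253536294379354102958607781008263136658002599635779587, 102677,
  [G3Xp2_4, G3Xp3_0, G3Xp3_1, G3Xp3_4, G3Xp5_4, G3Xp5_6, G3Xp6_4, G3Xp7_0, G3Xp7_1, G3Xp7_3,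
  G3Xp7_4, G3Xp8_4]⟩) (.leaf ⟨22635124868, 48394998525979472544501921,
  69625344160438073659611148272300476073593934698508421879285837412446175277022477864402949, 70233,
  [G3Xp1_0, G3Xp1_2, G3Xp3_2, G3Xp4_2, G3Xp4_5, G3Xp4_6, G3Xp5_2, G3Xp5_6, G3Xp6_2, G3Xp7_2,
  G3Xp7_3]⟩)) (.node 163 (.leaf ⟨22634715268, 155989396471570451671388320,
  67636020861523822778087095299821562804064755334361948322772848316029259385452506533330955, 70229,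
  [G3Xp1_3, G3Xp2_3, G3Xp4_5, G3Xp4_6, G3Xp5_6, G3Xp7_3]⟩) (.leaf ⟨18876618884,
  163212256007119574025736352,
  69625313806236639693080929567959493823072307764473485193845056366998792281436708835164175, 70213,
  [G3Xp0_2, G3Xp1_2, G3Xp1_3, G3Xp4_2, G3Xp4_5, G3Xp4_6, G3Xp5_2, G3Xp5_6, G3Xp6_2, G3Xp7_2,
  G3Xp7_3, G3Xp8_2]⟩))) (.node 166 (.node 165 (.leaf ⟨143363690888, 39934805184793949155530852,
  69128013335477926753691996611521306567438047584807649402935964495102140282142114292367363, 102933,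
  [G3Xp3_0, G3Xp3_1, G3Xp4_5, G3Xp4_6, G3Xp5_6, G3Xp7_0, G3Xp7_1, G3Xp7_3]⟩) (.leaf ⟨39814584452,
  1239186930846278192208122016,
  63658406303765305791265287908874634844287587769471691841576813231120793403292391386906627, 70293,
  [G3Xp3_7, G3Xp4_5, G3Xp4_6, G3Xp5_6]⟩)) (.node 167 (.leaf ⟨36056488068,
  1246409790381827314562470048,
  65647729603605900447390064430330632979204895870712405825043262509355213721568183939235847, 70277,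
  [G3Xp0_2, G3Xp1_2, G3Xp3_2, G3Xp3_7, G3Xp4_2, G3Xp4_5, G3Xp4_6, G3Xp5_2, G3Xp5_6, G3Xp6_2,
  G3Xp7_2, G3Xp8_2]⟩) (.leaf ⟨142894192772, 7708148991604270197253443744,
  67636020860597726358840304718143411114708531528077739487132997921849901422441093883887759, 102933,
  [G3Xp0_3, G3Xp0_7, G3Xp4_1, G3Xp4_2, G3Xp4_3, G3Xp4_5, G3Xp4_6, G3Xp4_7, G3Xp5_1, G3Xp5_2,
  G3Xp5_3, G3Xp5_6, G3Xp5_7, G3Xp6_1, G3Xp6_2, G3Xp6_3, G3Xp6_7, G3Xp7_3, G3Xp8_3, G3Xp8_7]⟩))))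
  (.node 172 (.node 170 (.node 169 (.leaf ⟨142894209156, 7708148991604269923482833057,
  67636020860597726358840304718130856719672892510437128577975565718975948520895901004988557, 102937,
  [G3Xp0_3, G3Xp0_7, G3Xp1_0, G3Xp1_2, G3Xp1_3, G3Xp1_7, G3Xp4_2, G3Xp4_3, G3Xp4_5, G3Xp4_6,
  G3Xp4_7, G3Xp5_2, G3Xp5_3, G3Xp5_6, G3Xp5_7, G3Xp6_2, G3Xp6_3, G3Xp6_7, G3Xp7_3, G3Xp8_3,
  G3Xp8_7]⟩) (.leaf ⟨26917509188, 38762549188918620436204673,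
  67636020890240260908617992405162655694354986044333761205366964608111605807111836444655617, 67177,
  [G3Xp1_0, G3Xp2_8, G3Xp5_4, G3Xp6_4, G3Xp6_5, G3Xp7_3]⟩)) (.node 171 (.leaf ⟨22622525508,
  47186033509249442076822656,
  70620005810358367457430279327204115493243578083360935161441912902732054771471054155415559, 67157,
  [G3Xp3_1, G3Xp3_2, G3Xp4_1, G3Xp4_2, G3Xp5_1, G3Xp5_2, G3Xp5_4, G3Xp6_1, G3Xp6_2, G3Xp6_4,
  G3Xp6_5, G3Xp7_1, G3Xp7_2, G3Xp7_3]⟩) (.leaf ⟨74228996168, 1242930473891481137983000676,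
  192964428381953859764506615242792766600230848760242814753953592282676167750069651882704897, 83481,
  [G3Xp1_0, G3Xp1_2, G3Xp3_0, G3Xp3_2, G3Xp3_7, G3Xp3_8, G3Xp5_4, G3Xp6_4, G3Xp6_5, G3Xp7_2,
  G3Xp7_8]⟩))) (.node 174 (.node 173 (.leaf ⟨26917492804, 38762549188918859880631424,
  68630682540392138884911755850612140798350371323079038340498175867511111949594186636984323, 67173,
  [G3Xp2_1, G3Xp2_8, G3Xp3_1, G3Xp4_1, G3Xp5_1, G3Xp5_4, G3Xp6_1, G3Xp6_4, G3Xp6_5, G3Xp7_1,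
  G3Xp7_3]⟩) (.leaf ⟨78523963464, 1238094770613022621284175972,
  190975105111871839102750773925297772389194189972418327523299417025256034745617746187321345, 83497,
  [G3Xp1_0, G3Xp2_0, G3Xp2_8, G3Xp3_0, G3Xp3_7, G3Xp3_8, G3Xp5_4, G3Xp6_4, G3Xp6_5, G3Xp7_8]⟩))
  (.node 175 (.leaf ⟨26920654916, 38762552682513463601430593,
  67636020890240260908617992404861359408683352122519985068241631815007006771882379899305985, 67945,
  [G3Xp1_0, G3Xp2_8, G3Xp4_5, G3Xp4_6, G3Xp5_6, G3Xp7_3]⟩) (.leaf ⟨74232387652,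
  5076551240634055460121804832,
  192964420793403499507752431963343396785188494619923507642471078435148822645601508673847695, 84245,
  [G3Xp3_2, G3Xp3_7, G3Xp3_8, G3Xp4_5, G3Xp4_6, G3Xp5_6, G3Xp7_2, G3Xp7_8]⟩))))) (.node 184 (.node
  180 (.node 178 (.node 177 (.leaf ⟨22625671236, 43559259543964010754998304,
  70620005810358367457430279326865156022465027242431836985887976820768600048429706988879879, 67925,
  [G3Xp3_1, G3Xp3_2, G3Xp4_5, G3Xp4_6, G3Xp5_6, G3Xp7_1, G3Xp7_2, G3Xp7_3]⟩) (.leaf ⟨74260451608,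
  1246674242904831702826324134,
  192964428381953859764506615244129818866710100819945547288472502870466226280999308620791809, 91161,
  [G3Xp1_0, G3Xp1_2, G3Xp3_0, G3Xp3_2, G3Xp3_7, G3Xp3_8, G3Xp4_0, G3Xp4_2, G3Xp4_5, G3Xp4_6,
  G3Xp4_8, G3Xp5_0, G3Xp5_2, G3Xp5_6, G3Xp5_8, G3Xp6_0, G3Xp6_2, G3Xp6_8, G3Xp7_2, G3Xp7_8]⟩))
  (.node 179 (.leaf ⟨26920638532, 38762552682477316082925600,
  68630682540392138884911755850298290117643098428226821523896641978120227685094099884572675, 67941,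
  [G3Xp2_1, G3Xp2_8, G3Xp3_1, G3Xp4_5, G3Xp4_6, G3Xp5_6, G3Xp7_1, G3Xp7_3]⟩) (.leaf ⟨78555418904,
  1238211762167529298603380902,
  190975105111871839102750773926609715865602164086044178698865925415637745751445431067410433, 91177,
  [G3Xp1_0, G3Xp2_0, G3Xp2_8, G3Xp3_0, G3Xp3_7, G3Xp3_8, G3Xp4_0, G3Xp4_5, G3Xp4_6, G3Xp4_8,
  G3Xp5_0, G3Xp5_6, G3Xp5_8, G3Xp6_0, G3Xp6_8, G3Xp7_8]⟩))) (.node 182 (.node 181 (.leaf
  ⟨26945819204, 38875777684122888215494721,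
  195448092647671220031815612044654141112463780178962393512675429829593638211380643348086785, 74089,
  [G3Xp1_0, G3Xp2_0, G3Xp2_8, G3Xp5_4, G3Xp6_4, G3Xp6_5, G3Xp7_0, G3Xp7_3, G3Xp7_8]⟩) (.leaf
  ⟨22650835524, 43672484545573435369095200,
  198432077567673534491390582771234366741236767391020975445656134271315773903920057308020743, 74069,
  [G3Xp3_1, G3Xp3_2, G3Xp5_4, G3Xp6_4, G3Xp6_5, G3Xp7_0, G3Xp7_1, G3Xp7_2, G3Xp7_3, G3Xp7_8]⟩))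
  (.node 183 (.leaf ⟨74232404036, 6354424828383726467331489857,
  192964420793403499507752431963343396785188494575321338742017843113477027877696956235776397, 84249,
  [G3Xp1_0, G3Xp1_2, G3Xp1_3, G3Xp1_7, G3Xp1_8, G3Xp3_2, G3Xp3_7, G3Xp3_8, G3Xp4_5, G3Xp4_6,
  G3Xp5_6, G3Xp7_2, G3Xp7_8]⟩) (.leaf ⟨26945802820, 38875777684086741770731552,
  196442754297823098008109375490091071821423526484669229968330439992706859124592363333353475, 74085,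
  [G3Xp2_0, G3Xp2_1, G3Xp2_8, G3Xp3_1, G3Xp5_4, G3Xp6_4, G3Xp6_5, G3Xp7_0, G3Xp7_1, G3Xp7_3,
  G3Xp7_8]⟩)))) (.node 188 (.node 186 (.node 185 (.leaf ⟨26945820740, 38762556329303261864689729,
  67636020903209172793088175498368391001650820620519971383108639870682758818702723345547377, 74089,
  [G3Xp0_4, G3Xp0_5, G3Xp0_6, G3Xp1_0, G3Xp1_4, G3Xp1_5, G3Xp1_6, G3Xp2_4, G3Xp2_5, G3Xp2_6,
  G3Xp2_8, G3Xp5_4, G3Xp6_4, G3Xp6_5, G3Xp7_3, G3Xp8_4, G3Xp8_5, G3Xp8_6]⟩) (.leaf ⟨74257553476,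
  5076551250231226266048331808,
  248665473188940150075514586300566252431724845217472858598865539611072439601001170504385023, 90389,
  [G3Xp0_4, G3Xp0_5, G3Xp0_6, G3Xp3_2, G3Xp3_4, G3Xp3_5, G3Xp3_6, G3Xp3_7, G3Xp3_8, G3Xp5_4,
  G3Xp6_4, G3Xp6_5, G3Xp7_2, G3Xp7_4, G3Xp7_5, G3Xp7_6, G3Xp7_8, G3Xp8_4, G3Xp8_5, G3Xp8_6]⟩))
  (.node 187 (.leaf ⟨22650837060, 43559262000677607485603872,
  70620005810358565347321048532932237294459450060865584436665993548124408290948191042797687, 74069,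
  [G3Xp0_4, G3Xp0_5, G3Xp0_6, G3Xp3_1, G3Xp3_2, G3Xp5_4, G3Xp6_4, G3Xp6_5, G3Xp7_1, G3Xp7_2,
  G3Xp7_3, G3Xp8_4, G3Xp8_5, G3Xp8_6]⟩) (.leaf ⟨74257307720, 1242930484602166951776882788,
  248665480777490510332268769579714325961095565436016501779855113929303778021687804080226417, 90393,
  [G3Xp0_4, G3Xp0_5, G3Xp0_6, G3Xp1_0, G3Xp1_2, G3Xp1_4, G3Xp1_5, G3Xp1_6, G3Xp3_0, G3Xp3_2,
  G3Xp3_4, G3Xp3_5, G3Xp3_6, G3Xp3_7, G3Xp3_8, G3Xp5_4, G3Xp6_4, G3Xp6_5, G3Xp7_2, G3Xp7_4, G3Xp7_5,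
  G3Xp7_6, G3Xp7_8, G3Xp8_4, G3Xp8_5, G3Xp8_6]⟩))) (.node 190 (.node 189 (.leaf ⟨26945804356,
  38762556329267114346184736,
  68630682553361050769381938943805321710610566926226807257226401877895285336498854458163315, 74085,
  [G3Xp0_4, G3Xp0_5, G3Xp0_6, G3Xp2_1, G3Xp2_4, G3Xp2_5, G3Xp2_6, G3Xp2_8, G3Xp3_1, G3Xp5_4,
  G3Xp6_4, G3Xp6_5, G3Xp7_1, G3Xp7_3, G3Xp8_4, G3Xp8_5, G3Xp8_6]⟩) (.leaf ⟨78552275016,
  1238094781323708435078058084,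
  246676157520377203665092342149659282071031952327758252831752681844302894426122168904515697, 90409,
  [G3Xp0_4, G3Xp0_5, G3Xp0_6, G3Xp1_0, G3Xp1_4, G3Xp1_5, G3Xp1_6, G3Xp2_0, G3Xp2_4, G3Xp2_5,
  G3Xp2_6, G3Xp2_8, G3Xp3_0, G3Xp3_4, G3Xp3_5, G3Xp3_6, G3Xp3_7, G3Xp3_8, G3Xp5_4, G3Xp6_4, G3Xp6_5,
  G3Xp7_4, G3Xp7_5, G3Xp7_6, G3Xp7_8, G3Xp8_4, G3Xp8_5, G3Xp8_6]⟩)) (.node 191 (.leaf ⟨26946869316,
  38762556320296062609949761,
  67636020901356471095306720770667136511915706365852619905889033049860821681083305148022881, 74345,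
  [G3Xp0_5, G3Xp0_6, G3Xp1_0, G3Xp1_5, G3Xp1_6, G3Xp2_5, G3Xp2_6, G3Xp2_8, G3Xp4_5, G3Xp4_6,
  G3Xp6_5, G3Xp7_3, G3Xp8_5, G3Xp8_6]⟩) (.leaf ⟨22651885636, 44768187812447255555867712,
  70620005810358537077336652932008118564872111341674538214682607597487332252061259782291559, 74325,
  [G3Xp0_5, G3Xp0_6, G3Xp3_1, G3Xp3_2, G3Xp4_1, G3Xp4_2, G3Xp4_5, G3Xp4_6, G3Xp6_5, G3Xp7_1,
  G3Xp7_2, G3Xp7_3, G3Xp8_5, G3Xp8_6]⟩))))))

def G3XT4 : Tr :=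
  .node 224 (.node 208 (.node 200 (.node 196 (.node 194 (.node 193 (.leaf ⟨74258356296,
  1242930484589782052801613924,
  240708187578128131679731318960053668035136325167122367895755529053616632704064490840326241, 90649,
  [G3Xp0_5, G3Xp0_6, G3Xp1_0, G3Xp1_2, G3Xp1_5, G3Xp1_6, G3Xp3_0, G3Xp3_2, G3Xp3_5, G3Xp3_6,
  G3Xp3_7, G3Xp3_8, G3Xp4_5, G3Xp4_6, G3Xp6_5, G3Xp7_2, G3Xp7_5, G3Xp7_6, G3Xp7_8, G3Xp8_5,
  G3Xp8_6]⟩) (.leaf ⟨26946852932, 38762556320296233334899776,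
  68630682551508349071600484216104067220878375674834117668919952163296022821406689393246307, 74341,
  [G3Xp0_5, G3Xp0_6, G3Xp2_1, G3Xp2_5, G3Xp2_6, G3Xp2_8, G3Xp3_1, G3Xp4_1, G3Xp4_5, G3Xp4_6,
  G3Xp6_5, G3Xp7_1, G3Xp7_3, G3Xp8_5, G3Xp8_6]⟩)) (.node 195 (.leaf ⟨78553323592,
  1238094781311323536102789220,
  238718864319162151584757832403221488384933705533211799193002847943984427764372245590376545, 90665,
  [G3Xp0_5, G3Xp0_6, G3Xp1_0, G3Xp1_5, G3Xp1_6, G3Xp2_0, G3Xp2_5, G3Xp2_6, G3Xp2_8, G3Xp3_0,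
  G3Xp3_5, G3Xp3_6, G3Xp3_7, G3Xp3_8, G3Xp4_5, G3Xp4_6, G3Xp6_5, G3Xp7_5, G3Xp7_6, G3Xp7_8, G3Xp8_5,
  G3Xp8_6]⟩) (.leaf ⟨74248114468, 5076551241900692855045851168,
  192964420793403499507752431963644693070860128541737283779596411543787856858416923975483903, 88085,
  [G3Xp3_2, G3Xp3_7, G3Xp3_8, G3Xp5_4, G3Xp6_4, G3Xp6_5, G3Xp7_2, G3Xp7_8]⟩))) (.node 198 (.node 197
  (.leaf ⟨74226899096, 1242930477456080243046548580,
  192964428381953859764506615242692331440110886660953681347900999898482825924147744979615745, 82969,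
  [G3Xp1_0, G3Xp1_2, G3Xp3_0, G3Xp3_2, G3Xp3_7, G3Xp3_8, G3Xp4_0, G3Xp4_5, G3Xp4_6, G3Xp6_5,
  G3Xp7_2, G3Xp7_8]⟩) (.leaf ⟨78521866392, 1238094774177621726347723876,
  190975105111871839102750773925197337229074227873129194117246824641062692919695839284232193, 82985,
  [G3Xp1_0, G3Xp2_0, G3Xp2_8, G3Xp3_0, G3Xp3_7, G3Xp3_8, G3Xp4_0, G3Xp4_5, G3Xp4_6, G3Xp6_5,
  G3Xp7_8]⟩)) (.node 199 (.leaf ⟨26929043588, 38762550308063127837674625,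
  67636020890240260908617992404961794568804775723446449377212427884033064912349144421498881, 69993,
  [G3Xp1_0, G3Xp2_8, G3Xp5_4, G3Xp5_6, G3Xp6_4, G3Xp7_3]⟩) (.leaf ⟨74240776324,
  8910172001508546090394258560,
  192964420793403499507752431965942156556820396203841967805760826101724560881127663980118415, 86293,
  [G3Xp3_2, G3Xp3_7, G3Xp3_8, G3Xp5_1, G3Xp5_2, G3Xp5_3, G3Xp5_4, G3Xp5_6, G3Xp5_7, G3Xp5_8,
  G3Xp6_1, G3Xp6_2, G3Xp6_3, G3Xp6_4, G3Xp6_7, G3Xp6_8, G3Xp7_2, G3Xp7_8]⟩)))) (.node 204 (.node 202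
  (.node 201 (.leaf ⟨22634059908, 47186034628393949478325376,
  70620005810358367457430279327003254367684598752649637915778154069657216180279276397264903, 69973,
  [G3Xp3_1, G3Xp3_2, G3Xp5_1, G3Xp5_2, G3Xp5_4, G3Xp5_6, G3Xp6_1, G3Xp6_2, G3Xp6_4, G3Xp7_1,
  G3Xp7_2, G3Xp7_3]⟩) (.leaf ⟨74240530568, 1242930475011751545291214948,
  192964549798759623872573547708961081944612303946600311461956588813417383949405418840719361, 86297,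
  [G3Xp1_0, G3Xp1_2, G3Xp1_4, G3Xp3_0, G3Xp3_2, G3Xp3_4, G3Xp3_7, G3Xp3_8, G3Xp5_4, G3Xp5_6,
  G3Xp6_4, G3Xp7_2, G3Xp7_8]⟩)) (.node 203 (.leaf ⟨26929027204, 38762550308063367282101376,
  68630682540392138884911755850411279672797237998917064706507231773767138489355132702162947, 69989,
  [G3Xp2_1, G3Xp2_8, G3Xp3_1, G3Xp5_1, G3Xp5_4, G3Xp5_6, G3Xp6_1, G3Xp6_4, G3Xp7_1, G3Xp7_3]⟩)
  (.leaf ⟨78535497864, 1238094771733293028592390244,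
  190975226530530276638614765518243223493714651684428143985952662580628572289080123219574785, 86313,
  [G3Xp1_0, G3Xp1_4, G3Xp2_0, G3Xp2_4, G3Xp2_8, G3Xp3_0, G3Xp3_4, G3Xp3_7, G3Xp3_8, G3Xp5_4,
  G3Xp5_6, G3Xp6_4, G3Xp7_8]⟩))) (.node 206 (.node 205 (.leaf ⟨74231093400,
  1242930478466012459484416100,
  192964428381953859764506615242491471942790420457678692632107661606960871554155375394619393, 83993,
  [G3Xp1_0, G3Xp1_2, G3Xp3_0, G3Xp3_2, G3Xp3_7, G3Xp3_8, G3Xp4_0, G3Xp4_6, G3Xp5_0, G3Xp5_4,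
  G3Xp5_6, G3Xp7_2, G3Xp7_8]⟩) (.leaf ⟨78526060696, 1238094775187553942785591396,
  190975105111871839102750773924996477731753761669854205401453486349540738549703469699235841, 84009,
  [G3Xp1_0, G3Xp2_0, G3Xp2_8, G3Xp3_0, G3Xp3_7, G3Xp3_8, G3Xp4_0, G3Xp4_6, G3Xp5_0, G3Xp5_4,
  G3Xp5_6, G3Xp7_8]⟩)) (.node 207 (.leaf ⟨44097099848, 5067894069466129553920626788,
  63658406349503181039897345314817867649212280332829915243694247362007224800278865848238083, 67237,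
  [G3Xp2_0, G3Xp2_1, G3Xp2_3, G3Xp2_7, G3Xp2_8, G3Xp3_7, G3Xp5_4, G3Xp6_4, G3Xp6_5]⟩) (.leaf
  ⟨44108634248, 5067894070586399961228841060,
  63658406351355854467694404441394142283801076894412290864550664942546911605735476287438851, 70053,
  [G3Xp2_0, G3Xp2_1, G3Xp2_3, G3Xp2_4, G3Xp2_7, G3Xp2_8, G3Xp3_7, G3Xp5_4, G3Xp5_6, G3Xp6_4]⟩)))))
  (.node 216 (.node 212 (.node 210 (.node 209 (.leaf ⟨74228979784, 1242930473891444990429858883,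
  192964443559054580278014981801088913658972306948648415784627205929784843987118484950810627, 83477,
  [G3Xp3_0, G3Xp3_1, G3Xp3_2, G3Xp3_7, G3Xp3_8, G3Xp5_4, G3Xp6_4, G3Xp6_5, G3Xp7_2, G3Xp7_8]⟩)
  (.leaf ⟨74240514184, 1242930475010589497831263299,
  192964564975860344386081914267257229003353762135005912409553452723968818129966310641303555, 86293,
  [G3Xp3_0, G3Xp3_1, G3Xp3_2, G3Xp3_4, G3Xp3_7, G3Xp3_8, G3Xp5_4, G3Xp5_6, G3Xp6_4, G3Xp7_2,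
  G3Xp7_8]⟩)) (.node 211 (.leaf ⟨26930092164, 38762551492546113719865505,
  67636020890240260908617992404861359408683352122519985068241631815007006771881898862968833, 70249,
  [G3Xp1_0, G3Xp2_8, G3Xp4_5, G3Xp4_6, G3Xp5_6, G3Xp7_3]⟩) (.leaf ⟨44109682824,
  5067894071769720763320471652,
  63658406349503181039897345314516571363540646411016139106568914568902625765048928266551299, 70309,
  [G3Xp2_0, G3Xp2_1, G3Xp2_3, G3Xp2_7, G3Xp2_8, G3Xp3_7, G3Xp4_5, G3Xp4_6, G3Xp5_6]⟩))) (.node 214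
  (.node 213 (.leaf ⟨22635108484, 48394998525979746315112608,
  70620005810358367457430279326902819207571944161547159024316580109627455737929966433992711, 70229,
  [G3Xp3_1, G3Xp3_2, G3Xp4_1, G3Xp4_2, G3Xp4_5, G3Xp4_6, G3Xp5_1, G3Xp5_2, G3Xp5_6, G3Xp6_1,
  G3Xp6_2, G3Xp7_1, G3Xp7_2, G3Xp7_3]⟩) (.leaf ⟨74241562760, 1242930476195036199829737539,
  192964443559054580278014981800787617373300673026834639647501873136680244951888547369123843, 86549,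
  [G3Xp3_0, G3Xp3_1, G3Xp3_2, G3Xp3_7, G3Xp3_8, G3Xp4_5, G3Xp4_6, G3Xp5_6, G3Xp7_2, G3Xp7_8]⟩))
  (.node 215 (.leaf ⟨74241579144, 1242930476195072347382845540,
  192964428381953859764506615242491470314559214838429038616828259489571568714839714301018113, 86553,
  [G3Xp1_0, G3Xp1_2, G3Xp3_0, G3Xp3_2, G3Xp3_7, G3Xp3_8, G3Xp4_5, G3Xp4_6, G3Xp5_6, G3Xp7_2,
  G3Xp7_8]⟩) (.leaf ⟨26930075780, 38762551492546387524030624,
  68630682540392138884911755850310844512678737401265262203372843074406512914927199008718851, 70245,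
  [G3Xp2_1, G3Xp2_8, G3Xp3_1, G3Xp4_1, G3Xp4_5, G3Xp4_6, G3Xp5_1, G3Xp5_6, G3Xp6_1, G3Xp7_1,
  G3Xp7_3]⟩)))) (.node 220 (.node 218 (.node 217 (.leaf ⟨78536546440, 1238094772916613830684020836,
  190975105111871839102750773924996476103522556050604551386174084232151435710387808605634561, 86569,
  [G3Xp1_0, G3Xp2_0, G3Xp2_8, G3Xp3_0, G3Xp3_7, G3Xp3_8, G3Xp4_5, G3Xp4_6, G3Xp5_6, G3Xp7_8]⟩)
  (.leaf ⟨103488313412, 42430647354412883819859072,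
  67636020860597486056963300029937919744696125771620980823576728290387075621713783069606151, 18053,
  [G3Xp0_8, G3Xp1_2, G3Xp5_4, G3Xp6_4, G3Xp6_5, G3Xp7_3]⟩)) (.node 219 (.leaf ⟨157041136196,
  2514876421793888023184804995,
  191472428348513211690254813702332594514785317057603962406057522911954819352255400412971009,
  165449, [G3Xp1_0, G3Xp2_0, G3Xp2_1, G3Xp2_8, G3Xp3_0, G3Xp3_7, G3Xp3_8, G3Xp4_0, G3Xp4_8, G3Xp5_0,
  G3Xp5_4, G3Xp5_8, G3Xp6_0, G3Xp6_4, G3Xp6_5, G3Xp6_8, G3Xp7_0, G3Xp7_8, G3Xp8_0]⟩) (.leaf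
  ⟨79732167236, 8907676155916232091862436992,
  63658406303996891736668025768983934560158698142081611166012051642807843348804666552615051, 149029,
  [G3Xp2_1, G3Xp3_7, G3Xp4_0, G3Xp4_1, G3Xp4_2, G3Xp4_3, G3Xp4_7, G3Xp4_8, G3Xp5_0, G3Xp5_1,
  G3Xp5_2, G3Xp5_3, G3Xp5_4, G3Xp5_7, G3Xp5_8, G3Xp6_0, G3Xp6_1, G3Xp6_2, G3Xp6_3, G3Xp6_4, G3Xp6_5,
  G3Xp6_7, G3Xp6_8, G3Xp8_0]⟩))) (.node 222 (.node 221 (.leaf ⟨79732183620,
  8907676155916231748265053313,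
  63658406303765307558139472662037658254913328201075829726731624097502613909881375783649417, 149033,
  [G3Xp1_0, G3Xp1_3, G3Xp1_7, G3Xp3_7, G3Xp4_0, G3Xp4_2, G3Xp4_3, G3Xp4_7, G3Xp4_8, G3Xp5_0,
  G3Xp5_2, G3Xp5_3, G3Xp5_4, G3Xp5_7, G3Xp5_8, G3Xp6_0, G3Xp6_2, G3Xp6_3, G3Xp6_4, G3Xp6_5, G3Xp6_7,
  G3Xp6_8, G3Xp8_0]⟩) (.leaf ⟨71142101576, 8673144546910848690276142147,
  63660402122268622018372095869590253376049328062748208067280351448045443850787418941096199, 148997,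
  [G3Xp1_0, G3Xp1_2, G3Xp1_8, G3Xp2_0, G3Xp2_8, G3Xp3_0, G3Xp3_1, G3Xp3_2, G3Xp3_7, G3Xp3_8,
  G3Xp4_0, G3Xp4_7, G3Xp4_8, G3Xp5_0, G3Xp5_4, G3Xp5_7, G3Xp5_8, G3Xp6_0, G3Xp6_4, G3Xp6_5, G3Xp6_7,
  G3Xp6_8, G3Xp8_0]⟩)) (.node 223 (.leaf ⟨157044281924, 2514876425287555434117464195,
  191472428348513211690254813702031298229113683135790186268932190118850220317025943867621377,
  166217, [G3Xp1_0, G3Xp2_0, G3Xp2_1, G3Xp2_8, G3Xp3_0, G3Xp3_7, G3Xp3_8, G3Xp4_0, G3Xp4_5, G3Xp4_6,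
  G3Xp4_8, G3Xp5_0, G3Xp5_6, G3Xp5_8, G3Xp6_0, G3Xp6_8, G3Xp7_0, G3Xp7_8, G3Xp8_0]⟩) (.leaf
  ⟨79735312964, 8791619280726789548907036704,
  63658406303996891736668025768632420694344508328114072310981914464558103396492689179017355, 149797,
  [G3Xp2_1, G3Xp3_7, G3Xp4_0, G3Xp4_1, G3Xp4_2, G3Xp4_5, G3Xp4_6, G3Xp4_7, G3Xp4_8, G3Xp5_0,
  G3Xp5_1, G3Xp5_2, G3Xp5_6, G3Xp5_7, G3Xp5_8, G3Xp6_0, G3Xp6_1, G3Xp6_2, G3Xp6_7, G3Xp6_8,
  G3Xp8_0]⟩)))))) (.node 240 (.node 232 (.node 228 (.node 226 (.node 225 (.leaf ⟨79735329348,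
  8830304906954492523272339521,
  63658406303765307558139472661686144389099138387108290871701486919252873957569398410051721, 149801,
  [G3Xp1_0, G3Xp1_3, G3Xp1_7, G3Xp3_7, G3Xp4_0, G3Xp4_2, G3Xp4_5, G3Xp4_6, G3Xp4_7, G3Xp4_8,
  G3Xp5_0, G3Xp5_2, G3Xp5_6, G3Xp5_7, G3Xp5_8, G3Xp6_0, G3Xp6_2, G3Xp6_7, G3Xp6_8, G3Xp8_0]⟩) (.leaf
  ⟨71173558552, 1249247748170527681954287782,
  63660402122268622018372095868523138993203713931094165070186989664898404900249916632662279, 156677,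
  [G3Xp1_0, G3Xp1_2, G3Xp1_8, G3Xp2_0, G3Xp2_8, G3Xp3_0, G3Xp3_1, G3Xp3_2, G3Xp3_7, G3Xp3_8,
  G3Xp4_0, G3Xp4_1, G3Xp4_2, G3Xp4_5, G3Xp4_6, G3Xp4_8, G3Xp5_0, G3Xp5_1, G3Xp5_2, G3Xp5_6, G3Xp5_8,
  G3Xp6_0, G3Xp6_1, G3Xp6_2, G3Xp6_8, G3Xp8_0]⟩)) (.node 227 (.leaf ⟨103491413060,
  38686884138286963829637350,
  69128005747274944531523787055071565546487060510911128796642813419715726073767226012336128, 18826,
  [G3Xp2_0, G3Xp2_1, G3Xp3_1, G3Xp4_5, G3Xp4_6, G3Xp5_6, G3Xp7_0, G3Xp7_1, G3Xp7_3, G3Xp8_0]⟩)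
  (.leaf ⟨103491377222, 38764876972233935241281636,
  68630682510517779854782431084226412197966862339805459462996866782256547727119327741214722, 18817,
  [G3Xp0_1, G3Xp0_8, G3Xp3_1, G3Xp4_5, G3Xp4_6, G3Xp5_6, G3Xp7_1, G3Xp7_3]⟩))) (.node 230 (.node 229
  (.leaf ⟨103491459140, 42430650848080294752518272,
  67636020860597486056963300029636623459024491849807204686451395497282476586484326524256519, 18821,
  [G3Xp0_8, G3Xp1_2, G3Xp4_5, G3Xp4_6, G3Xp5_6, G3Xp7_3]⟩) (.leaf ⟨157069447748,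
  2514759434923124956948627587,
  191472428348513211690254813700719354752705709022164335093365682039167167422505097233432577,
  172361, [G3Xp1_0, G3Xp2_0, G3Xp2_1, G3Xp2_8, G3Xp3_0, G3Xp3_7, G3Xp3_8, G3Xp5_4, G3Xp6_4, G3Xp6_5,
  G3Xp7_0, G3Xp7_8, G3Xp8_0]⟩)) (.node 231 (.leaf ⟨71145247304, 12387081661081800999805619267,
  63661252039908970774840623133873192379899352691609979476625358174870552122799228351611143, 149765,
  [G3Xp1_0, G3Xp1_2, G3Xp1_8, G3Xp2_0, G3Xp2_8, G3Xp3_0, G3Xp3_1, G3Xp3_2, G3Xp3_4, G3Xp3_5,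
  G3Xp3_6, G3Xp3_7, G3Xp3_8, G3Xp4_0, G3Xp4_5, G3Xp4_6, G3Xp4_7, G3Xp4_8, G3Xp5_0, G3Xp5_6, G3Xp5_7,
  G3Xp5_8, G3Xp6_0, G3Xp6_7, G3Xp6_8, G3Xp8_0]⟩) (.leaf ⟨71170413128, 8673144552861229697939409987,
  63661252039908970774840623131757767621210484303523924814581979932865244554958048465453319, 155909,
  [G3Xp1_0, G3Xp1_2, G3Xp1_8, G3Xp2_0, G3Xp2_8, G3Xp3_0, G3Xp3_1, G3Xp3_2, G3Xp3_4, G3Xp3_5,
  G3Xp3_6, G3Xp3_7, G3Xp3_8, G3Xp5_4, G3Xp6_4, G3Xp6_5, G3Xp8_0]⟩)))) (.node 236 (.node 234 (.node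
  233 (.leaf ⟨142347884612, 6426882384726624426068672544,
  67636020890240260908618153664307976886875489330790233266831415270270093029332581136335247, 35093,
  [G3Xp0_3, G3Xp0_7, G3Xp0_8, G3Xp2_8, G3Xp4_5, G3Xp4_6, G3Xp5_6, G3Xp7_3]⟩) (.leaf ⟨143958495812,
  3873399583955890708214317088,
  67636020860597735186200842620432700363844909335012540539029684236388287844581118235770895, 166165,
  [G3Xp4_0, G3Xp4_5, G3Xp4_6, G3Xp5_0, G3Xp5_6, G3Xp6_0, G3Xp7_3, G3Xp8_0, G3Xp8_2, G3Xp8_3,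
  G3Xp8_7]⟩)) (.node 235 (.leaf ⟨143983661636, 3873399582842375698130173984,
  67636020860597735186200842620727719451998723770307096336416916481349744296700938105520143, 172309,
  [G3Xp5_4, G3Xp6_4, G3Xp6_5, G3Xp7_3, G3Xp8_0, G3Xp8_2, G3Xp8_3, G3Xp8_7]⟩) (.leaf ⟨142373050436,
  6426882387183338022799278112,
  67636020890240260908618153664609273172547123252604009403965621752978047534072916068925951, 41237,
  [G3Xp0_3, G3Xp0_4, G3Xp0_5, G3Xp0_6, G3Xp0_7, G3Xp0_8, G3Xp2_8, G3Xp5_4, G3Xp6_4, G3Xp6_5,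
  G3Xp7_3]⟩))) (.node 238 (.node 237 (.leaf ⟨105503924625, 1319131696602815018478864388,
  67636020897651067699743998902784172877075700688325528585900851381759612402551109620531265, 149634,
  [G3Xp0_6, G3Xp1_0, G3Xp1_6, G3Xp2_6, G3Xp2_8, G3Xp4_6, G3Xp5_4, G3Xp5_6, G3Xp7_3, G3Xp8_6]⟩)
  (.leaf ⟨103491380297, 38686887708551714872462401,
  68133344097123066555230023609634634837527314205204292922525051412503199555971103497126001, 18818,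
  [G3Xp1_0, G3Xp1_4, G3Xp1_5, G3Xp1_6, G3Xp2_0, G3Xp4_5, G3Xp4_6, G3Xp5_6, G3Xp7_0, G3Xp7_3,
  G3Xp8_0]⟩)) (.node 239 (.leaf ⟨142346593377, 2601996816505100654910442629,
  67636020890356054764729494997910505532201423139053178011119140231790650387487302632276231, 34842,
  [G3Xp1_0, G3Xp1_2, G3Xp1_8, G3Xp2_0, G3Xp2_8, G3Xp5_0, G3Xp5_1, G3Xp5_2, G3Xp5_4, G3Xp5_6,
  G3Xp5_8, G3Xp6_0, G3Xp6_1, G3Xp6_2, G3Xp6_4, G3Xp6_8, G3Xp7_3, G3Xp8_0]⟩) (.leaf ⟨165660889668,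
  1245426321929294930072634433,
  193461751618363648173536022627266771833985011511902448290435166930829078942229538873016321,
  172649, [G3Xp1_0, G3Xp3_0, G3Xp3_2, G3Xp3_7, G3Xp3_8, G3Xp4_0, G3Xp4_2, G3Xp4_5, G3Xp4_6, G3Xp4_8,
  G3Xp6_5, G3Xp7_0, G3Xp7_2, G3Xp7_8, G3Xp8_0]⟩))))) (.node 248 (.node 244 (.node 242 (.node 241
  (.leaf ⟨157070545476, 6348380199356582859507827840,
  191472428348281627511780181309771777622942515481857955776697111295395152798181540113678735,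
  172613, [G3Xp1_0, G3Xp1_2, G3Xp1_3, G3Xp1_7, G3Xp1_8, G3Xp2_0, G3Xp2_8, G3Xp3_0, G3Xp3_7, G3Xp3_8,
  G3Xp4_0, G3Xp4_5, G3Xp4_6, G3Xp4_8, G3Xp6_5, G3Xp7_0, G3Xp7_8, G3Xp8_0]⟩) (.leaf ⟨157070496324,
  2514798432524543482047562883,
  191472428348513211690254813700618919592959891342031912834373232972149194018089426338447361,
  172617, [G3Xp1_0, G3Xp2_0, G3Xp2_1, G3Xp2_8, G3Xp3_0, G3Xp3_7, G3Xp3_8, G3Xp4_0, G3Xp4_5, G3Xp4_6,
  G3Xp4_8, G3Xp6_5, G3Xp7_0, G3Xp7_8, G3Xp8_0]⟩)) (.node 243 (.leaf ⟨79761527364,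
  6351928983981488838909428800,
  63658406303996891736668025766378897591010438573281261565902407112921678925215090197790859, 156197,
  [G3Xp2_1, G3Xp3_7, G3Xp4_0, G3Xp4_1, G3Xp4_2, G3Xp4_3, G3Xp4_5, G3Xp4_6, G3Xp4_7, G3Xp4_8,
  G3Xp6_5, G3Xp8_0]⟩) (.leaf ⟨79761543748, 6351928983981488564031521857,
  63658406303765307558139472659445175680797784602039259000261773294237302149523117770801289, 156201,
  [G3Xp1_0, G3Xp1_3, G3Xp1_7, G3Xp3_7, G3Xp4_0, G3Xp4_2, G3Xp4_3, G3Xp4_5, G3Xp4_6, G3Xp4_7,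
  G3Xp4_8, G3Xp6_5, G3Xp8_0]⟩))) (.node 246 (.node 245 (.leaf ⟨71171461704,
  8673144552853348398591511619,
  63661130623103206666773690665288155991720073325730494193909554021587854333166727513702663, 156165,
  [G3Xp1_0, G3Xp1_2, G3Xp1_8, G3Xp2_0, G3Xp2_8, G3Xp3_0, G3Xp3_1, G3Xp3_2, G3Xp3_5, G3Xp3_6,
  G3Xp3_7, G3Xp3_8, G3Xp4_0, G3Xp4_5, G3Xp4_6, G3Xp4_7, G3Xp4_8, G3Xp6_5, G3Xp8_0]⟩) (.leaf
  ⟨79616823588, 5067824308640349751798237216,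
  63658406303996891729577398944948236336660677404788937762331501888127691108886476836438267, 153637,
  [G3Xp2_1, G3Xp3_7, G3Xp5_4, G3Xp6_4, G3Xp6_5, G3Xp8_0]⟩)) (.node 247 (.leaf ⟨71140004248,
  1245504104102789976068293699,
  63661130634219416853462458523002447678168922913219110119090730640744590575675888502243687, 148485,
  [G3Xp1_0, G3Xp1_2, G3Xp1_5, G3Xp1_6, G3Xp1_8, G3Xp2_0, G3Xp2_5, G3Xp2_6, G3Xp2_8, G3Xp3_0,
  G3Xp3_1, G3Xp3_2, G3Xp3_5, G3Xp3_6, G3Xp3_7, G3Xp3_8, G3Xp4_0, G3Xp4_1, G3Xp4_2, G3Xp4_5, G3Xp4_6,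
  G3Xp4_8, G3Xp6_5, G3Xp8_0, G3Xp8_5, G3Xp8_6]⟩) (.leaf ⟨157052670340, 2514759433668872460731426115,
  199429721549728263770589323446855852153132321894891567994041430743803409852323942098796545,
  168265, [G3Xp1_0, G3Xp2_0, G3Xp2_1, G3Xp2_4, G3Xp2_8, G3Xp3_0, G3Xp3_4, G3Xp3_7, G3Xp3_8, G3Xp5_4,
  G3Xp5_6, G3Xp6_4, G3Xp7_0, G3Xp7_4, G3Xp7_8, G3Xp8_0, G3Xp8_4]⟩)))) (.node 252 (.node 250 (.node
  249 (.leaf ⟨79609483652, 10174331836993089719228272800,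
  63658406303997163824025374816800384296182983407053805647842851332384951730998454705062027, 151845,
  [G3Xp2_1, G3Xp3_7, G3Xp5_1, G3Xp5_3, G3Xp5_4, G3Xp5_6, G3Xp5_7, G3Xp6_1, G3Xp6_3, G3Xp6_4,
  G3Xp6_7, G3Xp8_0, G3Xp8_1, G3Xp8_3, G3Xp8_4, G3Xp8_7]⟩) (.leaf ⟨79609500036,
  10174331836993089444350365857,
  63658406303765576111856612869172028764537890091144284899453564183302400937424953761333385, 151849,
  [G3Xp1_0, G3Xp1_3, G3Xp1_7, G3Xp3_7, G3Xp5_3, G3Xp5_4, G3Xp5_6, G3Xp5_7, G3Xp6_3, G3Xp6_4,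
  G3Xp6_7, G3Xp8_0, G3Xp8_3, G3Xp8_4, G3Xp8_7]⟩)) (.node 251 (.leaf ⟨71153635720,
  1245504090966915762935410755,
  63660523540927087824220489642960896290508137358328105878767688122679583657280888555110679, 151813,
  [G3Xp1_0, G3Xp1_2, G3Xp1_4, G3Xp1_8, G3Xp2_0, G3Xp2_4, G3Xp2_8, G3Xp3_0, G3Xp3_1, G3Xp3_2,
  G3Xp3_4, G3Xp3_7, G3Xp3_8, G3Xp5_4, G3Xp5_6, G3Xp6_4, G3Xp8_0, G3Xp8_4]⟩) (.leaf ⟨103499847812,
  42430648473557391221263488,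
  67636020860597486056963300029737058619145915450733668995422191566308534726951091046449415, 20869,
  [G3Xp0_8, G3Xp1_2, G3Xp5_4, G3Xp5_6, G3Xp6_4, G3Xp7_3]⟩))) (.node 254 (.node 253 (.leaf
  ⟨71144198552, 1246751990131562458062915684,
  63660887796902485241765670970825163106723888827149325319769268834732261283175350585983303, 149509,
  [G3Xp1_0, G3Xp1_2, G3Xp1_6, G3Xp1_8, G3Xp2_0, G3Xp2_6, G3Xp2_8, G3Xp3_0, G3Xp3_1, G3Xp3_2,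
  G3Xp3_6, G3Xp3_7, G3Xp3_8, G3Xp4_0, G3Xp4_1, G3Xp4_2, G3Xp4_6, G3Xp4_8, G3Xp5_0, G3Xp5_1, G3Xp5_2,
  G3Xp5_4, G3Xp5_6, G3Xp5_8, G3Xp8_0, G3Xp8_6]⟩) (.leaf ⟨103488267332, 38686880644619552896978150,
  69128005747274944531523787055372861832158694432724904933768146212820325108996682557685760, 18058,
  [G3Xp2_0, G3Xp2_1, G3Xp3_1, G3Xp5_4, G3Xp6_4, G3Xp6_5, G3Xp7_0, G3Xp7_1, G3Xp7_3, G3Xp8_0]⟩))
  (.node 255 (.leaf ⟨103488562321, 81002940356650458182386692,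
  68133344097123066555230023609935931123198948461531628432640929741987121939569573837602817, 18050,
  [G3Xp1_0, G3Xp2_0, G3Xp5_4, G3Xp6_4, G3Xp6_5, G3Xp7_0, G3Xp7_3, G3Xp8_0]⟩) (.leaf ⟨79609221512,
  1237944873490950236401668196,
  63658550488422230394494293024910752347062023116453160989308799801047055550644834826125315, 151845,
  [G3Xp2_0, G3Xp2_1, G3Xp2_4, G3Xp3_0, G3Xp3_1, G3Xp3_4, G3Xp3_7, G3Xp5_4, G3Xp5_6, G3Xp6_4,
  G3Xp8_0, G3Xp8_4]⟩))))))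

def G3XT5 : Tr :=
  .node 288 (.node 272 (.node 264 (.node 260 (.node 258 (.node 257 (.leaf ⟨77718643784,
  1240359145341631424378411174,
  65150398778877343027577205057937369414326435219331898354380039700092528586332323058941954, 17958,
  [G3Xp0_1, G3Xp2_1, G3Xp3_0, G3Xp3_1, G3Xp3_7, G3Xp5_4, G3Xp6_4, G3Xp6_5, G3Xp7_0, G3Xp7_1,
  G3Xp8_0, G3Xp8_1, G3Xp8_2]⟩) (.leaf ⟨105499730529, 5152752449621902001923197031,
  67636020890240260908618153667113835232517636086181305404910880752666765817127564043288577, 148610,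
  [G3Xp1_0, G3Xp2_8, G3Xp4_5, G3Xp6_0, G3Xp6_1, G3Xp6_2, G3Xp6_3, G3Xp6_4, G3Xp6_5, G3Xp6_7,
  G3Xp6_8, G3Xp7_3]⟩)) (.node 259 (.leaf ⟨103486465169, 81002940351020958648173572,
  68133344097123066555230023609835495963078986362242495026588337357793780082121984210567169, 17538,
  [G3Xp1_0, G3Xp2_0, G3Xp4_0, G3Xp4_5, G3Xp4_6, G3Xp6_5, G3Xp7_0, G3Xp7_3, G3Xp8_0]⟩) (.leaf
  ⟨157053718916, 2514759434846563763288810819,
  191472428348513211690254813700418058467034075100350558956240349246057827470182365047816193,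
  168521, [G3Xp1_0, G3Xp2_0, G3Xp2_1, G3Xp2_8, G3Xp3_0, G3Xp3_7, G3Xp3_8, G3Xp4_5, G3Xp4_6, G3Xp5_6,
  G3Xp7_0, G3Xp7_8, G3Xp8_0]⟩))) (.node 262 (.node 261 (.leaf ⟨79610270088,
  1237944874674271038493266020,
  63658429069763764589077264977514731624109915595933315232864621159880722821001994649665539, 152101,
  [G3Xp2_0, G3Xp2_1, G3Xp3_0, G3Xp3_1, G3Xp3_7, G3Xp4_5, G3Xp4_6, G3Xp5_6, G3Xp8_0]⟩) (.leaf
  ⟨79610532228, 10174331838176410521319870624,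
  63658406303997135554472338362550675803503235145382752701841813741027302439805261007421579, 152101,
  [G3Xp2_1, G3Xp3_7, G3Xp4_1, G3Xp4_3, G3Xp4_5, G3Xp4_6, G3Xp4_7, G3Xp5_1, G3Xp5_3, G3Xp5_6,
  G3Xp5_7, G3Xp6_1, G3Xp6_3, G3Xp6_7, G3Xp8_0, G3Xp8_1, G3Xp8_3, G3Xp8_7]⟩)) (.node 263 (.leaf
  ⟨79610548612, 10174331838176410246441963681,
  63658406303765547842303576414922320271855218826198570147616119222279319080192448198606985, 152105,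
  [G3Xp1_0, G3Xp1_3, G3Xp1_7, G3Xp3_7, G3Xp4_3, G3Xp4_5, G3Xp4_6, G3Xp4_7, G3Xp5_3, G3Xp5_6,
  G3Xp5_7, G3Xp6_3, G3Xp6_7, G3Xp8_0, G3Xp8_3, G3Xp8_7]⟩) (.leaf ⟨71154684296,
  1245504092141229365772267587,
  63660402122268622018372095866872236046017188976539215719066545503251897177132995952705799, 152069,
  [G3Xp1_0, G3Xp1_2, G3Xp1_8, G3Xp2_0, G3Xp2_8, G3Xp3_0, G3Xp3_1, G3Xp3_2, G3Xp3_7, G3Xp3_8,
  G3Xp4_5, G3Xp4_6, G3Xp5_6, G3Xp8_0]⟩)))) (.node 268 (.node 266 (.node 265 (.leaf ⟨23696282180,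
  47149361382030673548807297,
  70122667396847869129127068423929244496032769663783635028569373527826931723159097860947973, 132697,
  [G3Xp1_0, G3Xp1_2, G3Xp3_2, G3Xp4_0, G3Xp4_2, G3Xp5_0, G3Xp5_2, G3Xp5_4, G3Xp6_0, G3Xp6_2,
  G3Xp6_4, G3Xp6_5, G3Xp7_0, G3Xp7_2, G3Xp7_3, G3Xp8_0, G3Xp8_2]⟩) (.leaf ⟨23695872580,
  195847237194591613490433184,
  68133344097933632382379533678524967892883596242985288091927559436361680805564636777676811, 132693,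
  [G3Xp1_3, G3Xp2_3, G3Xp4_0, G3Xp5_0, G3Xp5_4, G3Xp6_0, G3Xp6_4, G3Xp6_5, G3Xp7_0, G3Xp7_3,
  G3Xp8_0, G3Xp8_2, G3Xp8_3]⟩)) (.node 267 (.leaf ⟨40875741764, 1240359145341631220436569248,
  64155737128725461517535391339651476796097151806648620038280354236393775393149775373139971, 132757,
  [G3Xp3_0, G3Xp3_7, G3Xp4_0, G3Xp5_0, G3Xp5_4, G3Xp6_0, G3Xp6_4, G3Xp6_5, G3Xp7_0, G3Xp8_0,
  G3Xp8_2]⟩) (.leaf ⟨143953252964, 3873399580571435586028603424,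
  67636020860597735186200842620733995021285337637576662660875614912103584072020531989053503, 164885,
  [G3Xp4_5, G3Xp6_0, G3Xp6_4, G3Xp6_5, G3Xp7_3, G3Xp8_0, G3Xp8_2, G3Xp8_3, G3Xp8_7]⟩))) (.node 270
  (.node 269 (.leaf ⟨142344479816, 2593261617984119613813921958,
  68630682540507936274771308714752633526696586335206065256289107839478544926572762741473282, 34326,
  [G3Xp0_1, G3Xp2_0, G3Xp2_1, G3Xp2_8, G3Xp3_1, G3Xp5_4, G3Xp6_4, G3Xp6_5, G3Xp7_1, G3Xp7_3,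
  G3Xp8_0, G3Xp8_1]⟩) (.leaf ⟨142342641764, 6426882381453633396877169696,
  67636020890240260908618153664609271640098350439109739938996041837542438989383979295965631, 33813,
  [G3Xp0_3, G3Xp0_4, G3Xp0_5, G3Xp0_7, G3Xp0_8, G3Xp2_8, G3Xp4_5, G3Xp6_4, G3Xp6_5, G3Xp7_3]⟩))
  (.node 271 (.leaf ⟨142344738884, 6430626037262360881109535872,
  67636020890240260908618153666304116502358384612793501133243896062023198016097115635057039, 34325,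
  [G3Xp0_3, G3Xp0_7, G3Xp0_8, G3Xp2_8, G3Xp4_1, G3Xp4_2, G3Xp4_3, G3Xp4_8, G3Xp5_1, G3Xp5_2,
  G3Xp5_3, G3Xp5_4, G3Xp5_8, G3Xp6_1, G3Xp6_2, G3Xp6_3, G3Xp6_4, G3Xp6_5, G3Xp6_8, G3Xp7_3]⟩) (.leaf
  ⟨142342494354, 8975376007757292894315220033,
  68630682540392138884911917932698047382564292658686991000886993601727779610395563975639530, 33809,
  [G3Xp0_1, G3Xp0_3, G3Xp0_5, G3Xp0_6, G3Xp0_7, G3Xp0_8, G3Xp2_1, G3Xp2_8, G3Xp3_1, G3Xp4_1,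
  G3Xp4_3, G3Xp4_5, G3Xp4_6, G3Xp4_7, G3Xp4_8, G3Xp6_5, G3Xp7_1, G3Xp7_3]⟩))))) (.node 280 (.node
  276 (.node 274 (.node 273 (.leaf ⟨139861578312, 47497820377477670091526244,
  198434027854874689177945172729475973722945377637440482690272671553442543022904346327580935,
  165381, [G3Xp1_0, G3Xp1_2, G3Xp1_8, G3Xp2_0, G3Xp2_8, G3Xp3_0, G3Xp3_1, G3Xp3_2, G3Xp3_8, G3Xp4_0,
  G3Xp4_8, G3Xp5_0, G3Xp5_4, G3Xp5_8, G3Xp6_0, G3Xp6_4, G3Xp6_5, G3Xp6_8, G3Xp7_0, G3Xp7_1, G3Xp7_2,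
  G3Xp7_3, G3Xp7_8, G3Xp8_0]⟩) (.leaf ⟨34970166340, 1250184028809459460011593063,
  194456413268283952572491463068349553172644713196054759117446696731700733661401659060781062, 1670,
  [G3Xp0_1, G3Xp0_2, G3Xp1_2, G3Xp3_0, G3Xp3_1, G3Xp3_2, G3Xp3_7, G3Xp3_8, G3Xp5_4, G3Xp6_4,
  G3Xp6_5, G3Xp7_0, G3Xp7_1, G3Xp7_2, G3Xp7_8, G3Xp8_0, G3Xp8_1, G3Xp8_2]⟩)) (.node 275 (.leaf
  ⟨34970163268, 1245426318364690354126589056,
  192964420793403499507752431963644693070860119666040014220464346090829150912725569530495239, 1669,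
  [G3Xp0_2, G3Xp0_8, G3Xp1_2, G3Xp3_2, G3Xp3_7, G3Xp3_8, G3Xp5_4, G3Xp6_4, G3Xp6_5, G3Xp7_2,
  G3Xp7_8]⟩) (.leaf ⟨143955350084, 3954397610376512406717336704,
  67636020860597735186200842620821877414766016068095401432488424703496883484704986230554639, 165397,
  [G3Xp4_0, G3Xp4_1, G3Xp4_2, G3Xp4_3, G3Xp5_0, G3Xp5_1, G3Xp5_2, G3Xp5_3, G3Xp5_4, G3Xp6_0,
  G3Xp6_1, G3Xp6_2, G3Xp6_3, G3Xp6_4, G3Xp6_5, G3Xp7_3, G3Xp8_0, G3Xp8_2, G3Xp8_3, G3Xp8_7]⟩)))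
  (.node 278 (.node 277 (.leaf ⟨143955366468, 3954397610376512166199168129,
  67636020860597735186200842620809323019730377050454789858716994608164994131819213164904461, 165401,
  [G3Xp1_0, G3Xp1_2, G3Xp1_3, G3Xp4_0, G3Xp4_2, G3Xp4_3, G3Xp5_0, G3Xp5_2, G3Xp5_3, G3Xp5_4,
  G3Xp6_0, G3Xp6_2, G3Xp6_3, G3Xp6_4, G3Xp6_5, G3Xp7_3, G3Xp8_0, G3Xp8_2, G3Xp8_3, G3Xp8_7]⟩) (.leaf
  ⟨23699427908, 44731513236396258364620865,
  70122667396847869129127068423602839420289857795892977532491638542149762229388380901474309, 133465,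
  [G3Xp1_0, G3Xp1_2, G3Xp3_2, G3Xp4_0, G3Xp4_5, G3Xp4_6, G3Xp5_0, G3Xp5_6, G3Xp6_0, G3Xp7_0,
  G3Xp7_2, G3Xp7_3, G3Xp8_0, G3Xp8_2]⟩)) (.node 279 (.leaf ⟨23699018308,
  195847240688259024423092384,
  68133344097933632382379533678223671607211962321171511954802226643257081770335180232327179, 133461,
  [G3Xp1_3, G3Xp2_3, G3Xp4_0, G3Xp4_5, G3Xp4_6, G3Xp5_0, G3Xp5_6, G3Xp6_0, G3Xp7_0, G3Xp7_3,
  G3Xp8_0, G3Xp8_2, G3Xp8_3]⟩) (.leaf ⟨40878887492, 1240359148835298631369228448,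
  64155737128725461517535391339350180510425517884834843901155021443289176357920318827790339, 133525,
  [G3Xp3_0, G3Xp3_7, G3Xp4_0, G3Xp4_5, G3Xp4_6, G3Xp5_0, G3Xp5_6, G3Xp6_0, G3Xp7_0, G3Xp8_0,
  G3Xp8_2]⟩)))) (.node 284 (.node 282 (.node 281 (.leaf ⟨142308828696, 40010473728984477670251785,
  68630682540507936274771146220888856166963928583223952260277609097486250234743940381278210, 42006,
  [G3Xp0_1, G3Xp2_0, G3Xp2_1, G3Xp2_8, G3Xp3_1, G3Xp4_1, G3Xp4_5, G3Xp4_6, G3Xp5_1, G3Xp5_6,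
  G3Xp6_1, G3Xp7_1, G3Xp7_3, G3Xp8_0, G3Xp8_1]⟩) (.leaf ⟨142347625544, 2593261628618244233942603942,
  124331734936044388952642693845607111615566880192546004249875364602851718595593097482207234, 35094,
  [G3Xp0_1, G3Xp2_0, G3Xp2_1, G3Xp2_8, G3Xp3_1, G3Xp3_4, G3Xp3_5, G3Xp3_6, G3Xp4_5, G3Xp4_6,
  G3Xp5_6, G3Xp7_1, G3Xp7_3, G3Xp7_4, G3Xp7_5, G3Xp7_6, G3Xp8_0, G3Xp8_1]⟩)) (.node 283 (.leaf
  ⟨142342382744, 6423255607338885069843531017,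
  68630682540507936274771308714652198367152455881025307600008767279375418721579601278140418, 33814,
  [G3Xp0_1, G3Xp2_0, G3Xp2_1, G3Xp2_8, G3Xp3_1, G3Xp4_0, G3Xp4_1, G3Xp4_3, G3Xp4_5, G3Xp4_6,
  G3Xp4_7, G3Xp4_8, G3Xp6_5, G3Xp7_1, G3Xp7_3, G3Xp8_0, G3Xp8_1]⟩) (.leaf ⟨139893035288,
  49993372006338872436953254,
  198434027854874689177945172729212340622380660634742028591575942049192058863948231642382599,
  173061, [G3Xp1_0, G3Xp1_2, G3Xp1_8, G3Xp2_0, G3Xp2_8, G3Xp3_0, G3Xp3_1, G3Xp3_2, G3Xp3_8, G3Xp4_0,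
  G3Xp4_1, G3Xp4_2, G3Xp4_5, G3Xp4_6, G3Xp4_8, G3Xp5_0, G3Xp5_1, G3Xp5_2, G3Xp5_6, G3Xp5_8, G3Xp6_0,
  G3Xp6_1, G3Xp6_2, G3Xp6_8, G3Xp7_0, G3Xp7_1, G3Xp7_2, G3Xp7_3, G3Xp7_8, G3Xp8_0]⟩))) (.node 286
  (.node 285 (.leaf ⟨34973312068, 1250184032303126870944252263,
  194456413268283952572491463068048256886973079274240982980321363938596134626172202515431430, 2438,
  [G3Xp0_1, G3Xp0_2, G3Xp1_2, G3Xp3_0, G3Xp3_1, G3Xp3_2, G3Xp3_7, G3Xp3_8, G3Xp4_5, G3Xp4_6,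
  G3Xp5_6, G3Xp7_0, G3Xp7_1, G3Xp7_2, G3Xp7_8, G3Xp8_0, G3Xp8_1, G3Xp8_2]⟩) (.leaf ⟨34973308996,
  1245426321858357765059248256,
  192964420793403499507752431963343396785188485744226238083339013297724551877496112985145607, 2437,
  [G3Xp0_2, G3Xp0_8, G3Xp1_2, G3Xp3_2, G3Xp3_7, G3Xp3_8, G3Xp4_5, G3Xp4_6, G3Xp5_6, G3Xp7_2,
  G3Xp7_8]⟩)) (.node 287 (.leaf ⟨139864724040, 47614817882365356456284260,
  254135080250411141855816511786202846818046491155605198452949643692301514960319893797798151,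
  166149, [G3Xp1_0, G3Xp1_2, G3Xp1_8, G3Xp2_0, G3Xp2_8, G3Xp3_0, G3Xp3_1, G3Xp3_2, G3Xp3_4, G3Xp3_5,
  G3Xp3_6, G3Xp3_8, G3Xp4_0, G3Xp4_5, G3Xp4_6, G3Xp4_8, G3Xp5_0, G3Xp5_6, G3Xp5_8, G3Xp6_0, G3Xp6_8,
  G3Xp7_0, G3Xp7_1, G3Xp7_2, G3Xp7_3, G3Xp7_4, G3Xp7_5, G3Xp7_6, G3Xp7_8, G3Xp8_0]⟩) (.leaf
  ⟨143958512196, 3874608509775541483833786433,
  67636020860597735186200842620432700363844909290410369644734455237342683720965975377182733, 166169,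
  [G3Xp1_0, G3Xp1_2, G3Xp1_3, G3Xp4_0, G3Xp4_5, G3Xp4_6, G3Xp5_0, G3Xp5_6, G3Xp6_0, G3Xp7_3,
  G3Xp8_0, G3Xp8_2, G3Xp8_3, G3Xp8_7]⟩)))))) (.node 304 (.node 296 (.node 292 (.node 290 (.node 289
  (.leaf ⟨23724593732, 44731512122881248280477761,
  70122667396847869129127068423897858508443672231187533329878870787111218681508200771223557, 139609,
  [G3Xp1_0, G3Xp1_2, G3Xp3_2, G3Xp5_4, G3Xp6_4, G3Xp6_5, G3Xp7_0, G3Xp7_2, G3Xp7_3, G3Xp8_0,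
  G3Xp8_2]⟩) (.leaf ⟨23724184132, 195847239574744014338949280,
  68133344097933632382379533678518690695365776756466067752189458888218538222455000102076427, 139605,
  [G3Xp1_3, G3Xp2_3, G3Xp5_4, G3Xp6_4, G3Xp6_5, G3Xp7_0, G3Xp7_3, G3Xp8_0, G3Xp8_2, G3Xp8_3]⟩))
  (.node 291 (.leaf ⟨40904053316, 1240359147721783621285085344,
  64155737128725461517535391339645199598579332320129399698542253688250632810040138697539587, 139669,
  [G3Xp3_0, G3Xp3_7, G3Xp5_4, G3Xp6_4, G3Xp6_5, G3Xp7_0, G3Xp8_0, G3Xp8_2]⟩) (.leaf ⟨142372791368,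
  2593261627504729226075150502,
  124331734936044388952642693845908407901238514114359780387000697395956317662348232455487490, 41238,
  [G3Xp0_1, G3Xp2_0, G3Xp2_1, G3Xp2_8, G3Xp3_1, G3Xp3_4, G3Xp3_5, G3Xp3_6, G3Xp5_4, G3Xp6_4,
  G3Xp6_5, G3Xp7_1, G3Xp7_3, G3Xp7_4, G3Xp7_5, G3Xp7_6, G3Xp8_0, G3Xp8_1]⟩))) (.node 294 (.node 293
  (.leaf ⟨34998474820, 1245426324315071361789853824,
  192964420793403499507752431963644693070860119666040014220473219780432506382236447917736311, 8581,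
  [G3Xp0_2, G3Xp0_4, G3Xp0_5, G3Xp0_6, G3Xp0_8, G3Xp1_2, G3Xp3_2, G3Xp3_7, G3Xp3_8, G3Xp5_4,
  G3Xp6_4, G3Xp6_5, G3Xp7_2, G3Xp7_8]⟩) (.leaf ⟨34998477892, 1250184031189611863076798823,
  194456413268283952572491463068349553172644713196054759117446696731702799728263592958492678, 8582,
  [G3Xp0_1, G3Xp0_2, G3Xp1_2, G3Xp3_0, G3Xp3_1, G3Xp3_2, G3Xp3_7, G3Xp3_8, G3Xp5_4, G3Xp6_4,
  G3Xp6_5, G3Xp7_0, G3Xp7_1, G3Xp7_2, G3Xp7_8, G3Xp8_0, G3Xp8_1, G3Xp8_2]⟩)) (.node 295 (.leaf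
  ⟨139889889864, 47497827517934879287447652,
  254135080250411141855816511784890903341638517041979347277383135612618462065799047163609351,
  172293, [G3Xp1_0, G3Xp1_2, G3Xp1_8, G3Xp2_0, G3Xp2_8, G3Xp3_0, G3Xp3_1, G3Xp3_2, G3Xp3_4, G3Xp3_5,
  G3Xp3_6, G3Xp3_8, G3Xp5_4, G3Xp6_4, G3Xp6_5, G3Xp7_0, G3Xp7_1, G3Xp7_2, G3Xp7_3, G3Xp7_4, G3Xp7_5,
  G3Xp7_6, G3Xp7_8, G3Xp8_0]⟩) (.leaf ⟨143983678020, 3874608508662026473749643329,
  67636020860597735186200842620727719451998723725704925442121687482304140173085795246931981, 172313,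
  [G3Xp1_0, G3Xp1_2, G3Xp1_3, G3Xp5_4, G3Xp6_4, G3Xp6_5, G3Xp7_3, G3Xp8_0, G3Xp8_2, G3Xp8_3,
  G3Xp8_7]⟩)))) (.node 300 (.node 298 (.node 297 (.leaf ⟨142346577048, 7699920270278872736603408682,
  68630682540507936274771308714451376607534683500263455958510972564217110963038115464347650, 34838,
  [G3Xp0_1, G3Xp2_0, G3Xp2_1, G3Xp2_8, G3Xp3_1, G3Xp4_0, G3Xp4_1, G3Xp4_3, G3Xp4_6, G3Xp4_7,
  G3Xp4_8, G3Xp5_0, G3Xp5_1, G3Xp5_3, G3Xp5_4, G3Xp5_6, G3Xp5_7, G3Xp5_8, G3Xp7_1, G3Xp7_3, G3Xp8_0,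
  G3Xp8_1]⟩) (.leaf ⟨142305941796, 121238716705616406397455392,
  194950769411145641300395953244647421881820253136693225091741321865130241002057114141458703, 41237,
  [G3Xp0_8, G3Xp2_8, G3Xp4_8, G3Xp5_4, G3Xp5_8, G3Xp6_4, G3Xp6_5, G3Xp6_8, G3Xp7_3, G3Xp7_8]⟩))
  (.node 299 (.leaf ⟨139863675288, 47497613967373648545581156,
  230263200659734897499283211712910898502330029181827442757347915740188123055675801629819207,
  165893, [G3Xp1_0, G3Xp1_2, G3Xp1_6, G3Xp1_8, G3Xp2_0, G3Xp2_6, G3Xp2_8, G3Xp3_0, G3Xp3_1, G3Xp3_2,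
  G3Xp3_6, G3Xp3_8, G3Xp4_0, G3Xp4_1, G3Xp4_2, G3Xp4_6, G3Xp4_8, G3Xp5_0, G3Xp5_1, G3Xp5_2, G3Xp5_4,
  G3Xp5_6, G3Xp5_8, G3Xp7_0, G3Xp7_1, G3Xp7_2, G3Xp7_3, G3Xp7_6, G3Xp7_8, G3Xp8_0, G3Xp8_6]⟩) (.leaf
  ⟨23725642308, 44731513307327950278952001,
  70122667396847869129127068423797423348329556138447723535499093142248741956139234875408389, 139865,
  [G3Xp1_0, G3Xp1_2, G3Xp3_2, G3Xp4_0, G3Xp4_2, G3Xp4_5, G3Xp4_6, G3Xp6_5, G3Xp7_0, G3Xp7_2,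
  G3Xp7_3, G3Xp8_0, G3Xp8_2]⟩))) (.node 302 (.node 301 (.leaf ⟨23725232708,
  195847240759190716337423520,
  68133344097933632382379533678418255535245814657176934346136866504025196365007410476089355, 139861,
  [G3Xp1_3, G3Xp2_3, G3Xp4_0, G3Xp4_5, G3Xp4_6, G3Xp6_5, G3Xp7_0, G3Xp7_3, G3Xp8_0, G3Xp8_2,
  G3Xp8_3]⟩) (.leaf ⟨40905101892, 1240359148906230323283559584,
  64155737128725461517535391339544764438459370220840266292489661304057290952592549071552515, 139925,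
  [G3Xp3_0, G3Xp3_7, G3Xp4_0, G3Xp4_5, G3Xp4_6, G3Xp6_5, G3Xp7_0, G3Xp8_0, G3Xp8_2]⟩)) (.node 303
  (.leaf ⟨142373839944, 2593261627493470227006724262,
  116374441736682038570089638827071433544753957973554213916499674247433434849845302427516930, 41494,
  [G3Xp0_1, G3Xp2_0, G3Xp2_1, G3Xp2_8, G3Xp3_1, G3Xp3_5, G3Xp3_6, G3Xp4_5, G3Xp4_6, G3Xp6_5,
  G3Xp7_1, G3Xp7_3, G3Xp7_5, G3Xp7_6, G3Xp8_0, G3Xp8_1]⟩) (.leaf ⟨142374099012,
  6428130272518591345442554944,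
  67636020890240260908618153664508838012820305093756888882908552918842049317772029445669359, 41493,
  [G3Xp0_3, G3Xp0_5, G3Xp0_6, G3Xp0_7, G3Xp0_8, G3Xp2_8, G3Xp4_1, G3Xp4_2, G3Xp4_3, G3Xp4_5,
  G3Xp4_6, G3Xp4_8, G3Xp6_5, G3Xp7_3]⟩))))) (.node 312 (.node 308 (.node 306 (.node 305 (.leaf
  ⟨139890938440, 47497827508927680032706660,
  246177787051048791473263463348072158270353735441849997604133214412462835665291232837828871,
  172549, [G3Xp1_0, G3Xp1_2, G3Xp1_8, G3Xp2_0, G3Xp2_8, G3Xp3_0, G3Xp3_1, G3Xp3_2, G3Xp3_5, G3Xp3_6,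
  G3Xp3_8, G3Xp4_0, G3Xp4_5, G3Xp4_6, G3Xp4_8, G3Xp6_5, G3Xp7_0, G3Xp7_1, G3Xp7_2, G3Xp7_3, G3Xp7_5,
  G3Xp7_6, G3Xp7_8, G3Xp8_0]⟩) (.leaf ⟨34999526468, 1250184032374058565075273063,
  194456413268283952572491463068249118012523289595128294808475900662676446439891168047136774, 8838,
  [G3Xp0_1, G3Xp0_2, G3Xp1_2, G3Xp3_0, G3Xp3_1, G3Xp3_2, G3Xp3_7, G3Xp3_8, G3Xp4_5, G3Xp4_6,
  G3Xp6_5, G3Xp7_0, G3Xp7_1, G3Xp7_2, G3Xp7_8, G3Xp8_0, G3Xp8_1, G3Xp8_2]⟩)) (.node 307 (.leaf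
  ⟨34999523396, 1245426324307190062441956480,
  192964420793403499507752431963544257910738696065113549911501156041463111750628459507876199, 8837,
  [G3Xp0_2, G3Xp0_5, G3Xp0_6, G3Xp0_8, G3Xp1_2, G3Xp3_2, G3Xp3_7, G3Xp3_8, G3Xp4_5, G3Xp4_6,
  G3Xp6_5, G3Xp7_2, G3Xp7_8]⟩) (.leaf ⟨143984710212, 3874608509846473347546809408,
  67636020860597735186200842620627284291899222693940595571219175684814430401528531535134735, 172565,
  [G3Xp4_0, G3Xp4_1, G3Xp4_2, G3Xp4_3, G3Xp4_5, G3Xp4_6, G3Xp6_5, G3Xp7_3, G3Xp8_0, G3Xp8_2,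
  G3Xp8_3, G3Xp8_7]⟩))) (.node 310 (.node 309 (.leaf ⟨143984726596, 3874608509846473175748117569,
  67636020860597735186200842620627284291896299646063762871087539316103393711874076811460621, 172569,
  [G3Xp1_0, G3Xp1_2, G3Xp1_3, G3Xp4_0, G3Xp4_2, G3Xp4_3, G3Xp4_5, G3Xp4_6, G3Xp6_5, G3Xp7_3,
  G3Xp8_0, G3Xp8_2, G3Xp8_3, G3Xp8_7]⟩) (.leaf ⟨143955087944, 3870981728823096435386096839,
  69128013335478179416677589475473918864717455273111310264256810542870534579072703708463107, 165397,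
  [G3Xp3_0, G3Xp3_1, G3Xp4_0, G3Xp5_0, G3Xp5_4, G3Xp6_0, G3Xp6_4, G3Xp6_5, G3Xp7_0, G3Xp7_1,
  G3Xp7_3, G3Xp8_0, G3Xp8_1, G3Xp8_2, G3Xp8_3, G3Xp8_7]⟩)) (.node 311 (.leaf ⟨142296504612,
  121238721465921212528035872,
  194950769411145641300395953243040459317258464587772818118787581540485731686942126072791423, 38933,
  [G3Xp0_8, G3Xp2_8, G3Xp5_4, G3Xp6_4, G3Xp6_5, G3Xp7_3, G3Xp7_8]⟩) (.leaf ⟨139859480984,
  47497614470650906904233060,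
  246177787062165001659952231205786449956989660093412354514764224806781556252577407563137383,
  164869, [G3Xp1_0, G3Xp1_2, G3Xp1_5, G3Xp1_6, G3Xp1_8, G3Xp2_0, G3Xp2_5, G3Xp2_6, G3Xp2_8, G3Xp3_0,
  G3Xp3_1, G3Xp3_2, G3Xp3_5, G3Xp3_6, G3Xp3_8, G3Xp4_0, G3Xp4_1, G3Xp4_2, G3Xp4_5, G3Xp4_6, G3Xp4_8,
  G3Xp6_5, G3Xp7_0, G3Xp7_1, G3Xp7_2, G3Xp7_3, G3Xp7_5, G3Xp7_6, G3Xp7_8, G3Xp8_0, G3Xp8_5,
  G3Xp8_6]⟩)))) (.node 316 (.node 314 (.node 313 (.leaf ⟨142356014216, 6423255604900185871622415625,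
  76587975739870286657324363735767804616470912582544183133524059202515229803213743528738818, 37142,
  [G3Xp0_1, G3Xp2_0, G3Xp2_1, G3Xp2_8, G3Xp3_1, G3Xp3_4, G3Xp5_0, G3Xp5_1, G3Xp5_3, G3Xp5_4,
  G3Xp5_6, G3Xp5_7, G3Xp5_8, G3Xp6_0, G3Xp6_1, G3Xp6_3, G3Xp6_4, G3Xp6_7, G3Xp6_8, G3Xp7_1, G3Xp7_3,
  G3Xp7_4, G3Xp8_0, G3Xp8_1]⟩) (.leaf ⟨142356273284, 6430626038381505388511038592,
  67636020890240260908618153666906736658507390914708693430121162936845831264858736442605967, 37141,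
  [G3Xp0_3, G3Xp0_7, G3Xp0_8, G3Xp2_8, G3Xp5_1, G3Xp5_2, G3Xp5_3, G3Xp5_4, G3Xp5_6, G3Xp5_7,
  G3Xp5_8, G3Xp6_1, G3Xp6_2, G3Xp6_3, G3Xp6_4, G3Xp6_7, G3Xp6_8, G3Xp7_3]⟩)) (.node 315 (.leaf
  ⟨139873112456, 47497600146952292052382820,
  206391321056089741258279682473999231361292382474733532879204064137263789573179737573359895,
  168197, [G3Xp1_0, G3Xp1_2, G3Xp1_4, G3Xp1_8, G3Xp2_0, G3Xp2_4, G3Xp2_8, G3Xp3_0, G3Xp3_1, G3Xp3_2,
  G3Xp3_4, G3Xp3_8, G3Xp5_4, G3Xp5_6, G3Xp6_4, G3Xp7_0, G3Xp7_1, G3Xp7_2, G3Xp7_3, G3Xp7_4, G3Xp7_8,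
  G3Xp8_0, G3Xp8_4]⟩) (.leaf ⟨34981697668, 1245426319483834861528091776,
  192964420793403499507752431965075903299562985414443955965482993827461456311217755908997383, 4485,
  [G3Xp0_2, G3Xp0_8, G3Xp1_2, G3Xp3_2, G3Xp3_7, G3Xp3_8, G3Xp5_2, G3Xp5_4, G3Xp5_6, G3Xp5_8,
  G3Xp6_2, G3Xp6_4, G3Xp6_8, G3Xp7_2, G3Xp7_8]⟩))) (.node 318 (.node 317 (.leaf ⟨34981700740,
  1252679874401849508451388841,
  194456413268283952572491463069799594993896652899104369172925035058264318055585247882379270, 4486,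
  [G3Xp0_1, G3Xp0_2, G3Xp1_2, G3Xp3_0, G3Xp3_1, G3Xp3_2, G3Xp3_7, G3Xp3_8, G3Xp5_0, G3Xp5_1,
  G3Xp5_2, G3Xp5_4, G3Xp5_6, G3Xp5_8, G3Xp6_0, G3Xp6_1, G3Xp6_2, G3Xp6_4, G3Xp6_8, G3Xp7_0, G3Xp7_1,
  G3Xp7_2, G3Xp7_8, G3Xp8_0, G3Xp8_1, G3Xp8_2]⟩) (.leaf ⟨26190849156, 3870981729942356109980404966,
  67636020860597735186200842620533135523964871122089199471452027008300793637306510706999296, 4458,
  [G3Xp5_0, G3Xp5_4, G3Xp5_6, G3Xp6_0, G3Xp6_4, G3Xp7_3, G3Xp8_0, G3Xp8_2, G3Xp8_3, G3Xp8_7]⟩))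
  (.node 319 (.leaf ⟨23774515588, 5267294630266690554455757056,
  67636020861524100166174576752130684996670515135139761601532019470620884609798327129604107, 135509,
  [G3Xp1_3, G3Xp2_3, G3Xp5_4, G3Xp5_6, G3Xp6_4, G3Xp7_3, G3Xp8_0, G3Xp8_2, G3Xp8_3, G3Xp8_4,
  G3Xp8_7]⟩) (.leaf ⟨23707411588, 395514980635190668039359814,
  67636020861523843973350126295444509703254445891025614487292140486687003200739414479208458, 135510,
  [G3Xp0_1, G3Xp0_3, G3Xp1_3, G3Xp2_3, G3Xp5_0, G3Xp5_1, G3Xp5_2, G3Xp5_3, G3Xp5_4, G3Xp5_6,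
  G3Xp5_8, G3Xp6_0, G3Xp6_1, G3Xp6_2, G3Xp6_3, G3Xp6_4, G3Xp6_8, G3Xp7_3, G3Xp8_2, G3Xp8_3]⟩))))))

def G3XT6 : Tr :=
  .node 352 (.node 336 (.node 328 (.node 324 (.node 322 (.node 321 (.leaf ⟨26190357641,
  3874608507401018578085940289,
  67636020860597735186200842620533135523964871389699503133863797358093267634900969400827933, 4450,
  [G3Xp1_0, G3Xp1_2, G3Xp1_3, G3Xp1_4, G3Xp5_0, G3Xp5_4, G3Xp5_6, G3Xp6_0, G3Xp6_4, G3Xp7_3,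
  G3Xp8_0, G3Xp8_2, G3Xp8_3, G3Xp8_7]⟩) (.leaf ⟨39277962769, 3791424109867458529981671428,
  247173480757018576252596381924779568148871837455652372058052347247094497193428363956125697, 4754,
  [G3Xp1_0, G3Xp2_0, G3Xp2_1, G3Xp2_4, G3Xp2_5, G3Xp2_6, G3Xp2_8, G3Xp3_0, G3Xp3_4, G3Xp3_5,
  G3Xp3_6, G3Xp3_7, G3Xp3_8, G3Xp4_5, G3Xp4_6, G3Xp5_6, G3Xp7_0, G3Xp7_4, G3Xp7_5, G3Xp7_6, G3Xp7_8,
  G3Xp8_0, G3Xp8_4, G3Xp8_5, G3Xp8_6]⟩)) (.node 323 (.leaf ⟨40887280772,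
  1246598757643889607032507718,
  63658406303765312851751800677372727496966408503732115891665121655371793344982244384571394, 135574,
  [G3Xp0_1, G3Xp3_7, G3Xp5_0, G3Xp5_1, G3Xp5_2, G3Xp5_4, G3Xp5_6, G3Xp5_8, G3Xp6_0, G3Xp6_1,
  G3Xp6_2, G3Xp6_4, G3Xp6_8, G3Xp8_2]⟩) (.leaf ⟨142289954328, 40010483249594089931480329,
  68630682553476848159241329314082037079224124186409832802092106661576723971870489319702530, 37398,
  [G3Xp0_1, G3Xp2_0, G3Xp2_1, G3Xp2_4, G3Xp2_5, G3Xp2_6, G3Xp2_8, G3Xp3_1, G3Xp4_5, G3Xp4_6,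
  G3Xp5_6, G3Xp7_1, G3Xp7_3, G3Xp8_0, G3Xp8_1, G3Xp8_4, G3Xp8_5, G3Xp8_6]⟩))) (.node 326 (.node 325
  (.leaf ⟨142288902536, 40161477594902690049202276,
  204401997756133331536977042578819190012245263403437625830224440025632442263037867157815555, 37141,
  [G3Xp0_8, G3Xp2_4, G3Xp2_8, G3Xp3_0, G3Xp3_1, G3Xp3_4, G3Xp3_8, G3Xp5_4, G3Xp5_6, G3Xp6_4,
  G3Xp7_0, G3Xp7_1, G3Xp7_3, G3Xp7_4, G3Xp7_8]⟩) (.leaf ⟨143966626952,
  10260349668700724427240845676,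
  76587975709880409403431449433609091193649214559798353536300778875987389137709845502361602, 168214,
  [G3Xp0_1, G3Xp3_1, G3Xp3_4, G3Xp5_0, G3Xp5_1, G3Xp5_2, G3Xp5_3, G3Xp5_4, G3Xp5_6, G3Xp5_7,
  G3Xp5_8, G3Xp6_0, G3Xp6_1, G3Xp6_2, G3Xp6_3, G3Xp6_4, G3Xp6_7, G3Xp6_8, G3Xp7_1, G3Xp7_3, G3Xp7_4,
  G3Xp8_1, G3Xp8_2, G3Xp8_3, G3Xp8_4, G3Xp8_7]⟩)) (.node 327 (.leaf ⟨143967670808,
  3870981738267144850553050311,
  69128013335478377306568404755059735361619971100535396706851326962876987368134813765795843, 168469,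
  [G3Xp3_0, G3Xp3_1, G3Xp4_5, G3Xp4_6, G3Xp5_6, G3Xp7_0, G3Xp7_1, G3Xp7_3, G3Xp8_0, G3Xp8_1,
  G3Xp8_2, G3Xp8_3, G3Xp8_4, G3Xp8_5, G3Xp8_6, G3Xp8_7]⟩) (.leaf ⟨143966889092,
  10263976446149374639384628454,
  67636020860597733419326817486603840582081671120545838701907177627840862406095400124416014, 168214,
  [G3Xp0_1, G3Xp0_2, G3Xp0_3, G3Xp5_0, G3Xp5_1, G3Xp5_2, G3Xp5_3, G3Xp5_4, G3Xp5_6, G3Xp5_7,
  G3Xp5_8, G3Xp6_0, G3Xp6_1, G3Xp6_2, G3Xp6_3, G3Xp6_4, G3Xp6_7, G3Xp6_8, G3Xp7_3, G3Xp8_2, G3Xp8_3,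
  G3Xp8_7]⟩)))) (.node 332 (.node 330 (.node 329 (.leaf ⟨40888575121, 3803593858944066887700612109,
  63658406304112694420085823438697445961531929930804698826700936340658015594771627705827329, 135826,
  [G3Xp1_0, G3Xp2_0, G3Xp2_1, G3Xp3_7, G3Xp4_0, G3Xp4_1, G3Xp4_2, G3Xp4_5, G3Xp4_6, G3Xp4_8,
  G3Xp5_0, G3Xp5_1, G3Xp5_2, G3Xp5_6, G3Xp5_8, G3Xp6_0, G3Xp6_1, G3Xp6_2, G3Xp6_8, G3Xp8_0, G3Xp8_1,
  G3Xp8_2]⟩) (.leaf ⟨43370226825, 3719866002490346043723549761,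
  63658436657966981805517776391483318252948033121958497244036088882353675252033732729896981, 4514,
  [G3Xp1_0, G3Xp1_2, G3Xp1_4, G3Xp3_2, G3Xp3_7, G3Xp5_0, G3Xp5_4, G3Xp5_6, G3Xp6_0, G3Xp6_4,
  G3Xp8_0, G3Xp8_2, G3Xp8_7]⟩)) (.node 331 (.leaf ⟨39277848088, 3792633035687071303730506092,
  248168142406938873584163563252224595994601564494719023219967303851763681211608093641801730, 4758,
  [G3Xp0_1, G3Xp2_0, G3Xp2_1, G3Xp2_4, G3Xp2_5, G3Xp2_6, G3Xp2_8, G3Xp3_0, G3Xp3_1, G3Xp3_4,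
  G3Xp3_5, G3Xp3_6, G3Xp3_7, G3Xp3_8, G3Xp4_5, G3Xp4_6, G3Xp5_6, G3Xp7_0, G3Xp7_1, G3Xp7_4, G3Xp7_5,
  G3Xp7_6, G3Xp7_8, G3Xp8_0, G3Xp8_1, G3Xp8_4, G3Xp8_5, G3Xp8_6]⟩) (.leaf ⟨40954384772,
  4957809620445345485730976000,
  63658406303765569044576247843100005728101257316963013385763799405617468256759251870941187, 135573,
  [G3Xp3_7, G3Xp5_4, G3Xp5_6, G3Xp6_4, G3Xp8_0, G3Xp8_2, G3Xp8_4, G3Xp8_7]⟩))) (.node 334 (.node 333
  (.leaf ⟨26190832772, 3870981729942356453577788646,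
  68630682510749616696242656338837859734744689991055477000929606746763542109200129653342210, 4454,
  [G3Xp0_1, G3Xp2_1, G3Xp3_1, G3Xp5_0, G3Xp5_1, G3Xp5_4, G3Xp5_6, G3Xp6_0, G3Xp6_1, G3Xp6_4,
  G3Xp7_1, G3Xp7_3, G3Xp8_0, G3Xp8_1, G3Xp8_2, G3Xp8_3, G3Xp8_7]⟩) (.leaf ⟨26191897732,
  3870981731126839096970940679,
  67636020860597735186200842620432700363844909022800066065399434624107451779858921081012224, 4714,
  [G3Xp4_0, G3Xp4_5, G3Xp4_6, G3Xp5_0, G3Xp5_6, G3Xp6_0, G3Xp7_3, G3Xp8_0, G3Xp8_2, G3Xp8_3,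
  G3Xp8_7]⟩)) (.node 335 (.leaf ⟨23775564164, 5267294631450011356547354880,
  67636020861524071896621540297880976503789079647517044052818873372348388261892614741032971, 135765,
  [G3Xp1_3, G3Xp2_3, G3Xp4_5, G3Xp4_6, G3Xp5_6, G3Xp7_3, G3Xp8_0, G3Xp8_2, G3Xp8_3, G3Xp8_7]⟩)
  (.leaf ⟨23708460164, 435448530283928274147053927,
  67636020861523843973350126295344074543529089233815824869154543007327057758598926639824906, 135766,
  [G3Xp0_1, G3Xp0_3, G3Xp1_3, G3Xp2_3, G3Xp4_0, G3Xp4_1, G3Xp4_2, G3Xp4_3, G3Xp4_5, G3Xp4_6,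
  G3Xp4_8, G3Xp5_0, G3Xp5_1, G3Xp5_2, G3Xp5_3, G3Xp5_6, G3Xp5_8, G3Xp6_0, G3Xp6_1, G3Xp6_2, G3Xp6_3,
  G3Xp6_8, G3Xp7_3, G3Xp8_2, G3Xp8_3]⟩))))) (.node 344 (.node 340 (.node 338 (.node 337 (.leaf
  ⟨26191406217, 3874608508585465281192759361,
  67636020860597735186200842620432700363844909290410369644734455237342683720965438506270733, 4706,
  [G3Xp1_0, G3Xp1_2, G3Xp1_3, G3Xp4_0, G3Xp4_5, G3Xp4_6, G3Xp5_0, G3Xp5_6, G3Xp6_0, G3Xp7_3,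
  G3Xp8_0, G3Xp8_2, G3Xp8_3, G3Xp8_7]⟩) (.leaf ⟨40888329348, 1247846681064959079549604199,
  63658406303765312851751800677272292337229359833423679050181894697350117638684509084844034, 135830,
  [G3Xp0_1, G3Xp3_7, G3Xp4_0, G3Xp4_1, G3Xp4_2, G3Xp4_5, G3Xp4_6, G3Xp4_8, G3Xp5_0, G3Xp5_1,
  G3Xp5_2, G3Xp5_6, G3Xp5_8, G3Xp6_0, G3Xp6_1, G3Xp6_2, G3Xp6_8, G3Xp8_2]⟩)) (.node 339 (.leaf
  ⟨143967675528, 11538223257624708109574452621,
  68630682510518030750893998813948433268273113444199249999642481635711511030818687317835778, 168470,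
  [G3Xp0_1, G3Xp3_1, G3Xp4_0, G3Xp4_1, G3Xp4_2, G3Xp4_3, G3Xp4_5, G3Xp4_6, G3Xp4_7, G3Xp4_8,
  G3Xp5_0, G3Xp5_1, G3Xp5_2, G3Xp5_3, G3Xp5_6, G3Xp5_7, G3Xp5_8, G3Xp6_0, G3Xp6_1, G3Xp6_2, G3Xp6_3,
  G3Xp6_7, G3Xp6_8, G3Xp7_1, G3Xp7_3, G3Xp8_1, G3Xp8_2, G3Xp8_3, G3Xp8_7]⟩) (.leaf ⟨142357062792,
  7699920268007932624501844266,
  68630682540507936274771308716930830260563649588484323315713491562915278783474906855243778, 37398,
  [G3Xp0_1, G3Xp2_0, G3Xp2_1, G3Xp2_8, G3Xp3_1, G3Xp4_0, G3Xp4_1, G3Xp4_3, G3Xp4_5, G3Xp4_6,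
  G3Xp4_7, G3Xp4_8, G3Xp5_0, G3Xp5_1, G3Xp5_3, G3Xp5_6, G3Xp5_7, G3Xp5_8, G3Xp6_0, G3Xp6_1, G3Xp6_3,
  G3Xp6_7, G3Xp6_8, G3Xp7_1, G3Xp7_3, G3Xp8_0, G3Xp8_1]⟩))) (.node 342 (.node 341 (.leaf
  ⟨142289951112, 40161478775971692327114852,
  196444704554918307726195569286530669658907028495587425514294973541717588946710669291618563, 37397,
  [G3Xp0_8, G3Xp2_8, G3Xp3_0, G3Xp3_1, G3Xp3_8, G3Xp4_5, G3Xp4_6, G3Xp5_6, G3Xp7_0, G3Xp7_1,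
  G3Xp7_3, G3Xp7_8]⟩) (.leaf ⟨142277368200, 40161483612837692123030628,
  252144907045783125645197355067564327007574683015191806153660659719114046937244204462702851, 34325,
  [G3Xp0_8, G3Xp2_4, G3Xp2_5, G3Xp2_6, G3Xp2_8, G3Xp3_0, G3Xp3_1, G3Xp3_8, G3Xp5_4, G3Xp6_4,
  G3Xp6_5, G3Xp7_0, G3Xp7_1, G3Xp7_3, G3Xp7_4, G3Xp7_5, G3Xp7_6, G3Xp7_8]⟩)) (.node 343 (.leaf
  ⟨39277962385, 3791541088407688185483789316,
  191472428348513211690254813702031298229113683135790186268932190118850220317025943900848129, 4754,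
  [G3Xp1_0, G3Xp2_0, G3Xp2_1, G3Xp2_8, G3Xp3_0, G3Xp3_7, G3Xp3_8, G3Xp4_0, G3Xp4_5, G3Xp4_6,
  G3Xp4_8, G3Xp5_0, G3Xp5_6, G3Xp5_8, G3Xp6_0, G3Xp6_8, G3Xp7_0, G3Xp7_8, G3Xp8_0]⟩) (.leaf
  ⟨43371275401, 3719866003674792746830368833,
  63658436657966981805517776391382883092828071022669363754906746761603091338098201835339781, 4770,
  [G3Xp1_0, G3Xp1_2, G3Xp3_2, G3Xp3_7, G3Xp4_0, G3Xp4_5, G3Xp4_6, G3Xp5_0, G3Xp5_6, G3Xp6_0,
  G3Xp8_0, G3Xp8_2, G3Xp8_7]⟩)))) (.node 348 (.node 346 (.node 345 (.leaf ⟨34982746244,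
  1246674242904868014694437024,
  192964420793403499507752431964975468139821552239223526415245155814941631755861052811641095, 4741,
  [G3Xp0_2, G3Xp0_8, G3Xp1_2, G3Xp3_2, G3Xp3_7, G3Xp3_8, G3Xp4_2, G3Xp4_5, G3Xp4_6, G3Xp4_8,
  G3Xp5_2, G3Xp5_6, G3Xp5_8, G3Xp6_2, G3Xp6_8, G3Xp7_2, G3Xp7_8]⟩) (.leaf ⟨34982749316,
  1253927797822918980968485322,
  194456413268283952572491463069699159834159604228795932331441808100242642349287512582651910, 4742,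
  [G3Xp0_1, G3Xp0_2, G3Xp1_2, G3Xp3_0, G3Xp3_1, G3Xp3_2, G3Xp3_7, G3Xp3_8, G3Xp4_0, G3Xp4_1,
  G3Xp4_2, G3Xp4_5, G3Xp4_6, G3Xp4_8, G3Xp5_0, G3Xp5_1, G3Xp5_2, G3Xp5_6, G3Xp5_8, G3Xp6_0, G3Xp6_1,
  G3Xp6_2, G3Xp6_8, G3Xp7_0, G3Xp7_1, G3Xp7_2, G3Xp7_8, G3Xp8_0, G3Xp8_1, G3Xp8_2]⟩)) (.node 347
  (.leaf ⟨40955433348, 4957809621628666287822573824,
  63658406303765540775023211388850297235219821829340295837050653307344971908853539482370051, 135829,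
  [G3Xp3_7, G3Xp4_5, G3Xp4_6, G3Xp5_6, G3Xp8_0, G3Xp8_2, G3Xp8_7]⟩) (.leaf ⟨139874161032,
  47497601320139994982397028,
  198434027854874689177945172727561437675194135680187079240455497887545551140831310962426119,
  168453, [G3Xp1_0, G3Xp1_2, G3Xp1_8, G3Xp2_0, G3Xp2_8, G3Xp3_0, G3Xp3_1, G3Xp3_2, G3Xp3_8, G3Xp4_5,
  G3Xp4_6, G3Xp5_6, G3Xp7_0, G3Xp7_1, G3Xp7_2, G3Xp7_3, G3Xp7_8, G3Xp8_0]⟩))) (.node 350 (.node 349
  (.leaf ⟨26191881348, 3870981731126839474928062727,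
  68630682510749616696242656338737424574627650895041005400713421732235632817791851892441090, 4710,
  [G3Xp0_1, G3Xp2_1, G3Xp3_1, G3Xp4_0, G3Xp4_1, G3Xp4_5, G3Xp4_6, G3Xp5_0, G3Xp5_1, G3Xp5_6,
  G3Xp6_0, G3Xp6_1, G3Xp7_1, G3Xp7_3, G3Xp8_0, G3Xp8_1, G3Xp8_2, G3Xp8_3, G3Xp8_7]⟩) (.leaf
  ⟨27991249476, 38686880644728269325864065,
  68133344097123066555230023609942208320716767613537288817851236597850246810701765537693697, 132713,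
  [G3Xp1_0, G3Xp2_0, G3Xp4_0, G3Xp5_0, G3Xp5_4, G3Xp6_0, G3Xp6_4, G3Xp6_5, G3Xp7_0, G3Xp7_3,
  G3Xp8_0]⟩)) (.node 351 (.leaf ⟨34768836676, 7431385256839026399624006784,
  63658406318586919366507392252669153698848671957646220477986167966682352116038958445494663, 1669,
  [G3Xp0_7, G3Xp0_8, G3Xp1_2, G3Xp1_7, G3Xp2_7, G3Xp3_7, G3Xp5_4, G3Xp6_4, G3Xp6_5, G3Xp8_7]⟩)
  (.leaf ⟨23696265796, 47149361382030914066975872,
  71117329046768162926946199478531587630010779126822372173600116225008212183503636477116423, 132693,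
  [G3Xp3_1, G3Xp3_2, G3Xp4_0, G3Xp4_1, G3Xp4_2, G3Xp5_0, G3Xp5_1, G3Xp5_2, G3Xp5_4, G3Xp6_0,
  G3Xp6_1, G3Xp6_2, G3Xp6_4, G3Xp6_5, G3Xp7_0, G3Xp7_1, G3Xp7_2, G3Xp7_3, G3Xp8_0, G3Xp8_2]⟩))))))
  (.node 368 (.node 360 (.node 356 (.node 354 (.node 353 (.leaf ⟨75334193432,
  1246409790381791002727911590,
  65647737192156262470991312487869313289390945194352942525774788850102418038736588292292609, 156697,
  [G3Xp1_0, G3Xp1_2, G3Xp3_0, G3Xp3_2, G3Xp3_7, G3Xp4_0, G3Xp4_2, G3Xp4_5, G3Xp4_6, G3Xp5_0,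
  G3Xp5_2, G3Xp5_6, G3Xp6_0, G3Xp6_2, G3Xp7_2, G3Xp8_0, G3Xp8_2]⟩) (.leaf ⟨27991233092,
  38686880644728509844032640,
  69128005747274944531523787055391693424712152892282565952982447857249752953184115730022403, 132709,
  [G3Xp2_0, G3Xp2_1, G3Xp3_1, G3Xp4_0, G3Xp4_1, G3Xp5_0, G3Xp5_1, G3Xp5_4, G3Xp6_0, G3Xp6_1,
  G3Xp6_4, G3Xp6_5, G3Xp7_0, G3Xp7_1, G3Xp7_3, G3Xp8_0]⟩)) (.node 355 (.leaf ⟨79629160728,
  1237947309644488598504968358,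
  63658413892431459897094266028377719792868901078340394551828639498696963516732144380608513, 156713,
  [G3Xp1_0, G3Xp2_0, G3Xp3_0, G3Xp3_7, G3Xp4_0, G3Xp4_5, G3Xp4_6, G3Xp5_0, G3Xp5_6, G3Xp6_0,
  G3Xp8_0]⟩) (.leaf ⟨27994395204, 38686884138323112491089985,
  68133344097123066555230023609640912035045133691723512680725903804745647775472308992344065, 133481,
  [G3Xp1_0, G3Xp2_0, G3Xp4_0, G3Xp4_5, G3Xp4_6, G3Xp5_0, G3Xp5_6, G3Xp6_0, G3Xp7_0, G3Xp7_3,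
  G3Xp8_0]⟩))) (.node 358 (.node 357 (.leaf ⟨23699411524, 43522587416745482745151520,
  71117329046768162926946199478192628159232228285893273998046180143044757460462289310580743, 133461,
  [G3Xp3_1, G3Xp3_2, G3Xp4_0, G3Xp4_5, G3Xp4_6, G3Xp5_0, G3Xp5_6, G3Xp6_0, G3Xp7_0, G3Xp7_1,
  G3Xp7_2, G3Xp7_3, G3Xp8_0, G3Xp8_2]⟩) (.leaf ⟨27994378820, 38686884138286966046326816,
  69128005747274944531523787055077842744004879997430349136380913967858868688684028977610755, 133477,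
  [G3Xp2_0, G3Xp2_1, G3Xp3_1, G3Xp4_0, G3Xp4_5, G3Xp4_6, G3Xp5_0, G3Xp5_6, G3Xp6_0, G3Xp7_0,
  G3Xp7_1, G3Xp7_3, G3Xp8_0]⟩)) (.node 359 (.leaf ⟨28019561028, 38686883024808102406946881,
  68133344097123066555230023609935931123198948127018068478113136049707104227592128862093313, 139625,
  [G3Xp1_0, G3Xp2_0, G3Xp5_4, G3Xp6_4, G3Xp6_5, G3Xp7_0, G3Xp7_3, G3Xp8_0]⟩) (.leaf ⟨17592113220,
  7702184643926370745690849408,
  67636020876345450488105721161398536681746295854009192556629689063881135974596735833997711, 2373,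
  [G3Xp0_3, G3Xp0_7, G3Xp0_8, G3Xp1_2, G3Xp1_3, G3Xp1_7, G3Xp2_3, G3Xp2_7, G3Xp4_5, G3Xp4_6,
  G3Xp5_6, G3Xp7_3, G3Xp8_3, G3Xp8_7]⟩)))) (.node 364 (.node 362 (.node 361 (.leaf ⟨45173985864,
  5067818409175911420981940324,
  64155737157789268848605657490460576855237517321555923924884231016821628628761406585634819, 133541,
  [G3Xp2_0, G3Xp2_1, G3Xp2_3, G3Xp2_4, G3Xp2_5, G3Xp2_6, G3Xp2_7, G3Xp3_0, G3Xp3_7, G3Xp4_0,
  G3Xp4_5, G3Xp4_6, G3Xp5_0, G3Xp5_6, G3Xp6_0, G3Xp7_0, G3Xp8_0]⟩) (.leaf ⟨34771982404,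
  7431385260332693810556665984,
  63658406318586919366507392252367857413177038035832444340860835173577753080809501900145031, 2437,
  [G3Xp0_7, G3Xp0_8, G3Xp1_2, G3Xp1_7, G3Xp2_7, G3Xp3_7, G3Xp4_5, G3Xp4_6, G3Xp5_6, G3Xp8_7]⟩))
  (.node 363 (.leaf ⟨23724577348, 43522586303230472661008416,
  71117329046768162926946199478487647247386042721187829795433412388006213912582109180329991, 139605,
  [G3Xp3_1, G3Xp3_2, G3Xp5_4, G3Xp6_4, G3Xp6_5, G3Xp7_0, G3Xp7_1, G3Xp7_2, G3Xp7_3, G3Xp8_0,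
  G3Xp8_2]⟩) (.leaf ⟨77721789512, 1240359155975756044507093158,
  65151248709486603668515915415426043725472294424417990985015744951892637961040910150139906, 18726,
  [G3Xp0_1, G3Xp2_1, G3Xp2_4, G3Xp2_5, G3Xp2_6, G3Xp3_0, G3Xp3_1, G3Xp3_4, G3Xp3_5, G3Xp3_6,
  G3Xp3_7, G3Xp4_5, G3Xp4_6, G3Xp5_6, G3Xp7_0, G3Xp7_1, G3Xp8_0, G3Xp8_1, G3Xp8_2, G3Xp8_4, G3Xp8_5,
  G3Xp8_6]⟩))) (.node 366 (.node 365 (.leaf ⟨77722048580, 5073979912084136339712475168,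
  63658406303996900563974482516571491806244549288089858546688234433761502260917285799199119, 18725,
  [G3Xp0_1, G3Xp0_2, G3Xp0_8, G3Xp2_1, G3Xp3_7, G3Xp4_5, G3Xp4_6, G3Xp5_6, G3Xp8_1, G3Xp8_2]⟩)
  (.leaf ⟨75306127748, 10187630028142552449904906400,
  65647729603606343926003323804772249596806307563889495899861800028795678159653471213453455, 149781,
  [G3Xp3_2, G3Xp3_7, G3Xp4_5, G3Xp4_6, G3Xp5_6, G3Xp7_2, G3Xp8_0, G3Xp8_1, G3Xp8_2, G3Xp8_3,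
  G3Xp8_4, G3Xp8_5, G3Xp8_6, G3Xp8_7]⟩)) (.node 367 (.leaf ⟨77721805896,
  1240359155975755803988924582,
  64156587059334722158474101697133873909725191525215492910715207095951436548357156961779712, 18730,
  [G3Xp1_4, G3Xp1_5, G3Xp1_6, G3Xp2_4, G3Xp2_5, G3Xp2_6, G3Xp3_0, G3Xp3_4, G3Xp3_5, G3Xp3_6,
  G3Xp3_7, G3Xp4_5, G3Xp4_6, G3Xp5_6, G3Xp7_0, G3Xp8_0, G3Xp8_2, G3Xp8_4, G3Xp8_5, G3Xp8_6]⟩) (.leaf
  ⟨77722097762, 7625983430364101843555232097,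
  63658406303765312851751800675621389390042837911817716957548063713046055160207586703179918, 18721,
  [G3Xp0_1, G3Xp0_2, G3Xp0_3, G3Xp0_7, G3Xp0_8, G3Xp1_2, G3Xp1_3, G3Xp1_7, G3Xp3_7, G3Xp4_5,
  G3Xp4_6, G3Xp5_6, G3Xp8_2]⟩))))) (.node 376 (.node 372 (.node 370 (.node 369 (.leaf ⟨77722064964,
  6351853499833807243842945089,
  63658406303765312851751800675621389390042837911770078760588491485184914768917851858796941, 18729,
  [G3Xp0_2, G3Xp0_8, G3Xp1_0, G3Xp1_2, G3Xp1_3, G3Xp1_7, G3Xp1_8, G3Xp3_7, G3Xp4_5, G3Xp4_6,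
  G3Xp5_6, G3Xp8_2]⟩) (.leaf ⟨75306144132, 10187630028142552175026999457,
  65647729603606340392309194248003590430211306033450294015212775168552205711449100187861133, 149785,
  [G3Xp1_0, G3Xp1_2, G3Xp1_3, G3Xp1_7, G3Xp3_2, G3Xp3_7, G3Xp4_5, G3Xp4_6, G3Xp5_6, G3Xp7_2,
  G3Xp8_0, G3Xp8_2, G3Xp8_3, G3Xp8_4, G3Xp8_5, G3Xp8_6, G3Xp8_7]⟩)) (.node 371 (.leaf ⟨28019544644,
  38686883024771955962183712,
  69128005747274944531523787055372861832158694432724904933768146212820325140803848847360003, 139621,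
  [G3Xp2_0, G3Xp2_1, G3Xp3_1, G3Xp5_4, G3Xp6_4, G3Xp6_5, G3Xp7_0, G3Xp7_1, G3Xp7_3, G3Xp8_0]⟩)
  (.leaf ⟨79600832904, 1237944880624652046156533860,
  63659279000373025226996461308583830563924703033086985365178299164862644976756835403104259, 149797,
  [G3Xp2_0, G3Xp2_1, G3Xp2_4, G3Xp2_5, G3Xp2_6, G3Xp3_0, G3Xp3_1, G3Xp3_4, G3Xp3_5, G3Xp3_6,
  G3Xp3_7, G3Xp4_5, G3Xp4_6, G3Xp5_6, G3Xp8_0, G3Xp8_4, G3Xp8_5, G3Xp8_6]⟩))) (.node 374 (.node 373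
  (.leaf ⟨79600849288, 1237944880624651874357842020,
  63659263823040720535013462359440541535165869028974844925941465111436437452985779631489025, 149801,
  [G3Xp1_0, G3Xp1_4, G3Xp1_5, G3Xp1_6, G3Xp2_0, G3Xp2_4, G3Xp2_5, G3Xp2_6, G3Xp3_0, G3Xp3_4,
  G3Xp3_5, G3Xp3_6, G3Xp3_7, G3Xp4_5, G3Xp4_6, G3Xp5_6, G3Xp8_0, G3Xp8_4, G3Xp8_5, G3Xp8_6]⟩) (.leaf
  ⟨34771903561, 3713821379337024405979237441,
  63658406318702713222618733584219047951579404240388628051904007736579737405744441038209137, 2434,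
  [G3Xp1_0, G3Xp1_4, G3Xp1_5, G3Xp1_6, G3Xp2_0, G3Xp2_7, G3Xp3_7, G3Xp4_5, G3Xp4_6, G3Xp5_6,
  G3Xp8_0, G3Xp8_7]⟩)) (.node 375 (.leaf ⟨75305865608, 1243989509722688872712867907,
  65648602286897529627839461489763222979385047707749873707519834589058053948070036897988611, 149781,
  [G3Xp3_0, G3Xp3_1, G3Xp3_2, G3Xp3_4, G3Xp3_5, G3Xp3_6, G3Xp3_7, G3Xp4_5, G3Xp4_6, G3Xp5_6,
  G3Xp7_2, G3Xp8_0, G3Xp8_2, G3Xp8_4, G3Xp8_5, G3Xp8_6]⟩) (.leaf ⟨79601095044,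
  10174331844126791528983138464,
  63658406303997333441343593540729335875364229212604118496180388301998689103726722958360715, 149797,
  [G3Xp2_1, G3Xp3_7, G3Xp4_5, G3Xp4_6, G3Xp5_6, G3Xp8_0, G3Xp8_1, G3Xp8_3, G3Xp8_4, G3Xp8_5,
  G3Xp8_6, G3Xp8_7]⟩)))) (.node 380 (.node 378 (.node 377 (.leaf ⟨28020609604,
  38686884209254804405421121,
  68133344097123066555230023609835495963078986027728935072060543665513762370144539236106241, 139881,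
  [G3Xp1_0, G3Xp2_0, G3Xp4_0, G3Xp4_5, G3Xp4_6, G3Xp6_5, G3Xp7_0, G3Xp7_3, G3Xp8_0]⟩) (.leaf
  ⟨23725625924, 44731513307328122077643840,
  71117329046768162926946199478387212087274849631722681806890042112809169753252455149600775, 139861,
  [G3Xp3_1, G3Xp3_2, G3Xp4_0, G3Xp4_1, G3Xp4_2, G3Xp4_5, G3Xp4_6, G3Xp6_5, G3Xp7_0, G3Xp7_1,
  G3Xp7_2, G3Xp7_3, G3Xp8_0, G3Xp8_2]⟩)) (.node 379 (.leaf ⟨28020593220, 38686884209254976204112960,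
  69128005747274944531523787055272426672041655336710433333551961198292415849395571086458883, 139877,
  [G3Xp2_0, G3Xp2_1, G3Xp3_1, G3Xp4_0, G3Xp4_1, G3Xp4_5, G3Xp4_6, G3Xp6_5, G3Xp7_0, G3Xp7_1,
  G3Xp7_3, G3Xp8_0]⟩) (.leaf ⟨75321856292, 5076286789377652156021180448,
  65647729603605902214237129208991150058102755756074315166012913614924680164813225091531007, 153621,
  [G3Xp3_2, G3Xp3_7, G3Xp5_4, G3Xp6_4, G3Xp6_5, G3Xp7_2, G3Xp8_0, G3Xp8_2]⟩))) (.node 382 (.node 381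
  (.leaf ⟨75302736264, 1243989506229057609298713700,
  65647737192156460357862567667184136916793564890444389642406069107216371482977036379684865, 149017,
  [G3Xp1_0, G3Xp1_2, G3Xp3_0, G3Xp3_2, G3Xp3_7, G3Xp5_4, G3Xp6_4, G3Xp6_5, G3Xp7_2, G3Xp8_0,
  G3Xp8_2, G3Xp8_4, G3Xp8_5, G3Xp8_6]⟩) (.leaf ⟨79597703560, 1237944877130984463425182820,
  63658413892431657783965521207717652210342798720508723027412321948383487420639752788967425, 149033,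
  [G3Xp1_0, G3Xp2_0, G3Xp3_0, G3Xp3_7, G3Xp5_4, G3Xp6_4, G3Xp6_5, G3Xp8_0, G3Xp8_4, G3Xp8_5,
  G3Xp8_6]⟩)) (.node 383 (.leaf ⟨71139991953, 1241760444506640821580465156,
  63661130634103622997351117191151257139382181778000660784186625260239472343095233781104737, 148482,
  [G3Xp0_5, G3Xp0_6, G3Xp1_0, G3Xp1_5, G3Xp1_6, G3Xp2_5, G3Xp2_6, G3Xp2_8, G3Xp3_0, G3Xp3_1,
  G3Xp3_2, G3Xp3_5, G3Xp3_6, G3Xp3_7, G3Xp3_8, G3Xp4_5, G3Xp4_6, G3Xp6_5, G3Xp8_5, G3Xp8_6]⟩) (.leaf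
  ⟨75300639128, 1243989506222302209857651812,
  65647737192156432088309531212934428423913590904459002996611126693776591418091465254961153, 148505,
  [G3Xp1_0, G3Xp1_2, G3Xp3_0, G3Xp3_2, G3Xp3_7, G3Xp4_0, G3Xp4_5, G3Xp4_6, G3Xp6_5, G3Xp7_2,
  G3Xp8_0, G3Xp8_2, G3Xp8_5, G3Xp8_6]⟩))))))

def G3XT7 : Tr :=
  .node 416 (.node 400 (.node 392 (.node 388 (.node 386 (.node 385 (.leaf ⟨79595606424,
  1237944877124229063984120932,
  63658413892431629514412484753467943717462824734523336381617379534943707355754181664243713, 148521,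
  [G3Xp1_0, G3Xp2_0, G3Xp3_0, G3Xp3_7, G3Xp4_0, G3Xp4_5, G3Xp4_6, G3Xp6_5, G3Xp8_0, G3Xp8_5,
  G3Xp8_6]⟩) (.leaf ⟨23774925188, 5154864529042495921987883169,
  69625344160438351047698629724609598266193848492736911546372193827706935369289674730504197, 135513,
  [G3Xp1_0, G3Xp1_2, G3Xp3_2, G3Xp5_2, G3Xp5_4, G3Xp5_6, G3Xp6_2, G3Xp6_4, G3Xp7_2, G3Xp7_3,
  G3Xp8_0, G3Xp8_2, G3Xp8_3, G3Xp8_4, G3Xp8_7]⟩)) (.node 387 (.leaf ⟨28069892484,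
  5145193122485578888590233761,
  67636020860597756384564267069694433784668962386217436405310726085450015304762478215299073, 135529,
  [G3Xp1_0, G3Xp5_4, G3Xp5_6, G3Xp6_4, G3Xp7_3, G3Xp8_0, G3Xp8_3, G3Xp8_4, G3Xp8_7]⟩) (.leaf
  ⟨75314254216, 1243989502588987062958002243,
  65647873786062775362119647966752959323356406945029967859551829373030392586717696766443523, 151829,
  [G3Xp3_0, G3Xp3_1, G3Xp3_2, G3Xp3_4, G3Xp3_7, G3Xp5_4, G3Xp5_6, G3Xp6_4, G3Xp7_2, G3Xp8_0,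
  G3Xp8_2, G3Xp8_4]⟩))) (.node 390 (.node 389 (.leaf ⟨75314270600, 1243989502589023210476507236,
  65647858608962054848611281408456812264614948756624366911954965462478958406156804965859329, 151833,
  [G3Xp1_0, G3Xp1_2, G3Xp1_4, G3Xp3_0, G3Xp3_2, G3Xp3_4, G3Xp3_7, G3Xp5_4, G3Xp5_6, G3Xp6_4,
  G3Xp7_2, G3Xp8_0, G3Xp8_2, G3Xp8_4]⟩) (.leaf ⟨79609237896, 1237944873490950064602976356,
  63658535311089925702511294075767463318303189112341020051611467328277395687946131449380865, 151849,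
  [G3Xp1_0, G3Xp1_4, G3Xp2_0, G3Xp2_4, G3Xp3_0, G3Xp3_4, G3Xp3_7, G3Xp5_4, G3Xp5_6, G3Xp6_4,
  G3Xp8_0, G3Xp8_4]⟩)) (.node 391 (.leaf ⟨34780371076, 7431385257958170907025411200,
  63658406318586919366507392252468292573298461636758908649831631242603811221276266422337927, 4485,
  [G3Xp0_7, G3Xp0_8, G3Xp1_2, G3Xp1_7, G3Xp2_7, G3Xp3_7, G3Xp5_4, G3Xp5_6, G3Xp6_4, G3Xp8_7]⟩)
  (.leaf ⟨71144186257, 1241760444147478751297669124,
  63660887796786691385654329638973947377541694708882766719533369369819480858767381565472833, 149506,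
  [G3Xp0_6, G3Xp1_0, G3Xp1_6, G3Xp2_6, G3Xp2_8, G3Xp3_0, G3Xp3_1, G3Xp3_2, G3Xp3_6, G3Xp3_7,
  G3Xp3_8, G3Xp4_6, G3Xp5_4, G3Xp5_6, G3Xp8_6]⟩)))) (.node 396 (.node 394 (.node 393 (.leaf
  ⟨75304833432, 1243989506043284124669675620,
  65647737192156375549203458304435022261073100927791507801333088343761760633222162009882625, 149529,
  [G3Xp1_0, G3Xp1_2, G3Xp3_0, G3Xp3_2, G3Xp3_7, G3Xp4_0, G3Xp4_6, G3Xp5_0, G3Xp5_4, G3Xp5_6,
  G3Xp7_2, G3Xp8_0, G3Xp8_2, G3Xp8_6]⟩) (.leaf ⟨79599800728, 1237944876945210978796144740,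
  63658413892431572975306411844968537554622334757855841186339341184928876570884878419165185, 149545,
  [G3Xp1_0, G3Xp2_0, G3Xp3_0, G3Xp3_7, G3Xp4_0, G3Xp4_6, G3Xp5_0, G3Xp5_4, G3Xp5_6, G3Xp8_0,
  G3Xp8_6]⟩)) (.node 395 (.leaf ⟨34769085585, 7508643176068932107577132036,
  63658406318702713222618733584520344237251041351254905116905528305958910638084450483634177, 1666,
  [G3Xp1_0, G3Xp2_0, G3Xp2_7, G3Xp3_7, G3Xp5_4, G3Xp6_4, G3Xp6_5, G3Xp8_0, G3Xp8_7]⟩) (.leaf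
  ⟨45170840136, 5067818400921939200593530980,
  64155737144820554854026243603321922819936103066081887918932883677598633762455745894481923, 132773,
  [G3Xp2_0, G3Xp2_1, G3Xp2_3, G3Xp2_7, G3Xp3_0, G3Xp3_7, G3Xp4_0, G3Xp5_0, G3Xp5_4, G3Xp6_0,
  G3Xp6_4, G3Xp6_5, G3Xp7_0, G3Xp8_0]⟩))) (.node 398 (.node 397 (.leaf ⟨69128823953,
  1241571727186694465900315652,
  64155782660143408079801708309751290867443723783478416506572892930006548032589065969139713, 17922,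
  [G3Xp1_0, G3Xp2_0, G3Xp3_0, G3Xp3_1, G3Xp3_2, G3Xp3_7, G3Xp5_4, G3Xp6_4, G3Xp6_5, G3Xp7_0,
  G3Xp8_0]⟩) (.leaf ⟨77718660168, 1240359145341631183860242598,
  64155737128725461517535391339645199598579332320129399698542253688250632778232980997931008, 17962,
  [G3Xp3_0, G3Xp3_7, G3Xp5_4, G3Xp6_4, G3Xp6_5, G3Xp7_0, G3Xp8_0, G3Xp8_2]⟩)) (.node 399 (.leaf
  ⟨23775973764, 5154864530225816724079480993,
  69625344160438322778145593270359889773318259011663517609331862468765304153462586072104965, 135769,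
  [G3Xp1_0, G3Xp1_2, G3Xp3_2, G3Xp4_2, G3Xp4_5, G3Xp4_6, G3Xp5_2, G3Xp5_6, G3Xp6_2, G3Xp7_2,
  G3Xp7_3, G3Xp8_0, G3Xp8_2, G3Xp8_3, G3Xp8_7]⟩) (.leaf ⟨28070941060, 5145193123668899690681831585,
  67636020860597728115011230615444725291787526898594718856597579987177518956856765826727937, 135785,
  [G3Xp1_0, G3Xp4_5, G3Xp4_6, G3Xp5_6, G3Xp7_3, G3Xp8_0, G3Xp8_3, G3Xp8_7]⟩))))) (.node 408 (.node
  404 (.node 402 (.node 401 (.leaf ⟨17588967492, 7702184640432703334758190208,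
  67636020876345450488105721161699832967417929775822968693755021856985735009826192379347343, 1605,
  [G3Xp0_3, G3Xp0_7, G3Xp0_8, G3Xp1_2, G3Xp1_3, G3Xp1_7, G3Xp2_3, G3Xp2_7, G3Xp5_4, G3Xp6_4,
  G3Xp6_5, G3Xp7_3, G3Xp8_3, G3Xp8_7]⟩) (.leaf ⟨34766988433, 7508643176063302608042918916,
  63658406318702713222618733584419909077131079251965771710852935921765568780636860856598529, 1154,
  [G3Xp1_0, G3Xp2_0, G3Xp2_7, G3Xp3_7, G3Xp4_0, G3Xp4_5, G3Xp4_6, G3Xp6_5, G3Xp8_0, G3Xp8_7]⟩))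
  (.node 403 (.leaf ⟨69126726801, 1241571727181064966366102532,
  64155782660143408079801708309650855707323761684189283100520300545813206175141476342104065, 17410,
  [G3Xp1_0, G3Xp2_0, G3Xp3_0, G3Xp3_1, G3Xp3_2, G3Xp3_7, G3Xp4_0, G3Xp4_5, G3Xp4_6, G3Xp6_5,
  G3Xp7_0, G3Xp8_0]⟩) (.leaf ⟨75315302792, 1243989503772307865049600067,
  65647752369256982984499679046134074360543305950162441857757899756495381201201466664222723, 152085,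
  [G3Xp3_0, G3Xp3_1, G3Xp3_2, G3Xp3_7, G3Xp4_5, G3Xp4_6, G3Xp5_6, G3Xp7_2, G3Xp8_0, G3Xp8_2]⟩)))
  (.node 406 (.node 405 (.leaf ⟨75315319176, 1243989503772344012568105060,
  65647737192156262470991312487837927301801847761756840827084286109386704964152633596116993, 152089,
  [G3Xp1_0, G3Xp1_2, G3Xp3_0, G3Xp3_2, G3Xp3_7, G3Xp4_5, G3Xp4_6, G3Xp5_6, G3Xp7_2, G3Xp8_0,
  G3Xp8_2]⟩) (.leaf ⟨79730123361, 5074055392776425105577248868,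
  63658406303765305791265447525559782329561959782184101406909482116965504856534213506170881, 148514,
  [G3Xp1_0, G3Xp1_2, G3Xp1_3, G3Xp1_7, G3Xp3_7, G3Xp4_5, G3Xp6_0, G3Xp6_2, G3Xp6_4, G3Xp6_5,
  G3Xp6_7, G3Xp6_8]⟩)) (.node 407 (.leaf ⟨79610286472, 1237944874674270866694574180,
  63658413892431459897094266028371442595351081591821174212090538950553820901815350005399553, 152105,
  [G3Xp1_0, G3Xp2_0, G3Xp3_0, G3Xp3_7, G3Xp4_5, G3Xp4_6, G3Xp5_6, G3Xp8_0]⟩) (.leaf ⟨71140188769,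
  5068010763678351959703717988,
  63658406349271596861422870894824911150650050630145239992531468370388660225708032392232961, 148482,
  [G3Xp1_0, G3Xp1_3, G3Xp1_7, G3Xp2_0, G3Xp2_3, G3Xp2_7, G3Xp2_8, G3Xp3_7, G3Xp4_5, G3Xp6_0,
  G3Xp6_4, G3Xp6_5, G3Xp6_7, G3Xp6_8]⟩)))) (.node 412 (.node 410 (.node 409 (.leaf ⟨103488264260,
  38998851980394130016963781,
  196444704555265683987005666214020446554983272360654942687486409049266898297115527601979649, 18057,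
  [G3Xp0_8, G3Xp1_0, G3Xp1_8, G3Xp2_0, G3Xp2_1, G3Xp2_8, G3Xp3_0, G3Xp3_1, G3Xp3_8, G3Xp5_4,
  G3Xp6_4, G3Xp6_5, G3Xp7_0, G3Xp7_1, G3Xp7_3, G3Xp7_8]⟩) (.leaf ⟨77616142628,
  5081467042055444631599122464,
  63658406303996900563974642954910456373502364865620886899744813864016599690100807814742527, 25637,
  [G3Xp0_1, G3Xp0_2, G3Xp0_8, G3Xp2_1, G3Xp3_7, G3Xp4_1, G3Xp4_2, G3Xp4_5, G3Xp4_6, G3Xp4_8,
  G3Xp5_1, G3Xp5_2, G3Xp5_6, G3Xp5_8, G3Xp6_1, G3Xp6_2, G3Xp6_8, G3Xp8_1, G3Xp8_2]⟩)) (.node 411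
  (.leaf ⟨77718902852, 8903857015810184149625801856,
  63658406303996900563974482517739041349375272349556041567671442870619782115820226631827855, 17957,
  [G3Xp0_1, G3Xp0_2, G3Xp0_8, G3Xp2_1, G3Xp3_7, G3Xp4_1, G3Xp4_3, G3Xp4_7, G3Xp5_1, G3Xp5_3,
  G3Xp5_4, G3Xp5_7, G3Xp6_1, G3Xp6_3, G3Xp6_4, G3Xp6_5, G3Xp6_7, G3Xp8_1, G3Xp8_2]⟩) (.leaf
  ⟨77718919236, 8905104901153283313474276481,
  63658406303765312851751800676776384538137922000197821102095498825756909394550162484363661, 17961,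
  [G3Xp0_2, G3Xp0_8, G3Xp1_0, G3Xp1_2, G3Xp1_3, G3Xp1_7, G3Xp1_8, G3Xp3_7, G3Xp4_3, G3Xp4_7,
  G3Xp5_3, G3Xp5_4, G3Xp5_7, G3Xp6_3, G3Xp6_4, G3Xp6_5, G3Xp6_7, G3Xp8_2]⟩))) (.node 414 (.node 413
  (.leaf ⟨69129050180, 8897929265282556361436368003,
  63658406349503181032995598968881002724200974570351734726557651882619622421331301332681097, 17929,
  [G3Xp0_8, G3Xp1_0, G3Xp1_3, G3Xp1_7, G3Xp1_8, G3Xp2_0, G3Xp2_1, G3Xp2_3, G3Xp2_7, G3Xp2_8,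
  G3Xp3_7, G3Xp4_3, G3Xp4_7, G3Xp5_3, G3Xp5_4, G3Xp5_7, G3Xp6_3, G3Xp6_4, G3Xp6_5, G3Xp6_7]⟩) (.leaf
  ⟨103491409988, 38998855474061540949622981,
  196444704555265683987005666213719150269311638438841166550361076256162299261886071056630017, 18825,
  [G3Xp0_8, G3Xp1_0, G3Xp1_8, G3Xp2_0, G3Xp2_1, G3Xp2_8, G3Xp3_0, G3Xp3_1, G3Xp3_8, G3Xp4_5,
  G3Xp4_6, G3Xp5_6, G3Xp7_0, G3Xp7_1, G3Xp7_3, G3Xp7_8]⟩)) (.node 415 (.leaf ⟨69132195908,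
  8897929268776223772369027203,
  63658406349503181032995598967726007576105890481923992385050644542047627795698990707114377, 18697,
  [G3Xp0_8, G3Xp1_0, G3Xp1_3, G3Xp1_7, G3Xp1_8, G3Xp2_0, G3Xp2_1, G3Xp2_3, G3Xp2_7, G3Xp2_8,
  G3Xp3_7, G3Xp4_5, G3Xp4_6, G3Xp5_6]⟩) (.leaf ⟨155232835682, 4957998516287981105843376385,
  63658406303765305791265447522816695001273676801482399904606696008950698299377337434636290, 35137,
  [G3Xp0_1, G3Xp0_2, G3Xp0_7, G3Xp0_8, G3Xp3_7, G3Xp4_5, G3Xp4_6, G3Xp5_6]⟩)))))) (.node 432 (.node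
  424 (.node 420 (.node 418 (.node 417 (.leaf ⟨155232393284, 6351928983910551399018135680,
  63658406303765305791265447522816695001273679834431387163061776381244095290189729836827023, 35141,
  [G3Xp0_2, G3Xp0_7, G3Xp0_8, G3Xp1_2, G3Xp1_3, G3Xp1_7, G3Xp3_7, G3Xp4_5, G3Xp4_6, G3Xp5_6]⟩)
  (.leaf ⟨77612996900, 5078971265495425942293711904,
  63658406303996900563974642955211752659173998787434663036870146657121198725330264352752015, 24869,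
  [G3Xp0_1, G3Xp0_2, G3Xp0_8, G3Xp2_1, G3Xp3_7, G3Xp4_1, G3Xp4_2, G3Xp4_8, G3Xp5_1, G3Xp5_2,
  G3Xp5_4, G3Xp5_8, G3Xp6_1, G3Xp6_2, G3Xp6_4, G3Xp6_5, G3Xp6_8, G3Xp8_1, G3Xp8_2]⟩)) (.node 419
  (.leaf ⟨69131982920, 1245428834185713430354529347,
  63661252010150402067074431455943042011697574172770541248173821373821000778736257958609159, 18693,
  [G3Xp0_8, G3Xp1_2, G3Xp3_0, G3Xp3_1, G3Xp3_2, G3Xp3_4, G3Xp3_5, G3Xp3_6, G3Xp3_7, G3Xp3_8,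
  G3Xp4_5, G3Xp4_6, G3Xp5_6]⟩) (.leaf ⟨155232347204, 2518308220661543607753375974,
  63658406303996891736668025766178036464877089099098919473384600140589340964026054103531520, 35146,
  [G3Xp2_1, G3Xp3_7, G3Xp4_5, G3Xp4_6, G3Xp5_6, G3Xp8_0]⟩))) (.node 422 (.node 421 (.leaf
  ⟨155231787106, 4957998515104660303751778561,
  63658406303765305791265447522917130161395100402408864213578759747920092930985325844496386, 34881,
  [G3Xp0_1, G3Xp0_2, G3Xp0_4, G3Xp0_7, G3Xp0_8, G3Xp3_7, G3Xp5_4, G3Xp5_6, G3Xp6_4]⟩) (.leaf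
  ⟨156238418322, 1241607077917392862097710274,
  95487579108625521173089839660970825026398900466842956483142111096530655087132849121263682, 100417,
  [G3Xp0_1, G3Xp0_6, G3Xp1_6, G3Xp2_6, G3Xp3_6, G3Xp3_7, G3Xp4_6, G3Xp5_4, G3Xp5_6, G3Xp7_6,
  G3Xp8_2, G3Xp8_6]⟩)) (.node 423 (.leaf ⟨69130934424, 1246676753932936322471790692,
  63660402092510053310605904191358833445404516349255399899484818983765144218814277424185607, 18437,
  [G3Xp0_8, G3Xp1_2, G3Xp3_0, G3Xp3_1, G3Xp3_2, G3Xp3_7, G3Xp3_8, G3Xp4_0, G3Xp4_1, G3Xp4_2,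
  G3Xp4_6, G3Xp4_8, G3Xp5_0, G3Xp5_1, G3Xp5_2, G3Xp5_4, G3Xp5_6, G3Xp5_8]⟩) (.leaf ⟨103516575812,
  38998867451384749941457093,
  252145756963771048549347234438381956236821034715994867995939673868313757977619950311833969, 24969,
  [G3Xp0_4, G3Xp0_5, G3Xp0_6, G3Xp0_8, G3Xp1_0, G3Xp1_4, G3Xp1_5, G3Xp1_6, G3Xp1_8, G3Xp2_0,
  G3Xp2_1, G3Xp2_4, G3Xp2_5, G3Xp2_6, G3Xp2_8, G3Xp3_0, G3Xp3_1, G3Xp3_4, G3Xp3_5, G3Xp3_6, G3Xp3_8,
  G3Xp5_4, G3Xp6_4, G3Xp6_5, G3Xp7_0, G3Xp7_1, G3Xp7_3, G3Xp7_4, G3Xp7_5, G3Xp7_6, G3Xp7_8, G3Xp8_4,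
  G3Xp8_5, G3Xp8_6]⟩)))) (.node 428 (.node 426 (.node 425 (.leaf ⟨103516624964,
  42430656875022496081084544,
  123336223351462501862836340989715194137012229576285358585559653589504227994976939830935927, 24965,
  [G3Xp0_4, G3Xp0_5, G3Xp0_6, G3Xp0_8, G3Xp1_2, G3Xp1_4, G3Xp1_5, G3Xp1_6, G3Xp2_4, G3Xp2_5,
  G3Xp2_6, G3Xp5_4, G3Xp6_4, G3Xp6_5, G3Xp7_3, G3Xp7_4, G3Xp7_5, G3Xp7_6, G3Xp8_4, G3Xp8_5,
  G3Xp8_6]⟩) (.leaf ⟨77747214404, 5073979918111078541041041440,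
  119359458699533551131736636853794347452780899885639209503082695609685119216316947629736447, 24869,
  [G3Xp0_1, G3Xp0_2, G3Xp0_4, G3Xp0_5, G3Xp0_6, G3Xp0_8, G3Xp2_1, G3Xp3_4, G3Xp3_5, G3Xp3_6,
  G3Xp3_7, G3Xp5_4, G3Xp6_4, G3Xp6_5, G3Xp7_4, G3Xp7_5, G3Xp7_6, G3Xp8_1, G3Xp8_2, G3Xp8_4, G3Xp8_5,
  G3Xp8_6]⟩)) (.node 427 (.leaf ⟨77747230788, 6351853507050825646704164929,
  119359458699301963419513955012844245036579188509319430298520200817009226119733102561985021, 24873,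
  [G3Xp0_2, G3Xp0_4, G3Xp0_5, G3Xp0_6, G3Xp0_8, G3Xp1_0, G3Xp1_2, G3Xp1_3, G3Xp1_4, G3Xp1_5,
  G3Xp1_6, G3Xp1_7, G3Xp1_8, G3Xp3_4, G3Xp3_5, G3Xp3_6, G3Xp3_7, G3Xp5_4, G3Xp6_4, G3Xp6_5, G3Xp7_4,
  G3Xp7_5, G3Xp7_6, G3Xp8_2, G3Xp8_4, G3Xp8_5, G3Xp8_6]⟩) (.leaf ⟨69157361732,
  8897929278373394578295554179,
  119359458758008545595337167192388813543615286759077693830629242154199086511432869969658361, 24841,
  [G3Xp0_4, G3Xp0_5, G3Xp0_6, G3Xp0_8, G3Xp1_0, G3Xp1_3, G3Xp1_4, G3Xp1_5, G3Xp1_6, G3Xp1_7,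
  G3Xp1_8, G3Xp2_0, G3Xp2_1, G3Xp2_3, G3Xp2_4, G3Xp2_5, G3Xp2_6, G3Xp2_7, G3Xp2_8, G3Xp3_4, G3Xp3_5,
  G3Xp3_6, G3Xp3_7, G3Xp5_4, G3Xp6_4, G3Xp6_5, G3Xp7_4, G3Xp7_5, G3Xp7_6, G3Xp8_4, G3Xp8_5,
  G3Xp8_6]⟩))) (.node 430 (.node 429 (.leaf ⟨103517624388, 38998867434496251338818757,
  244188463762555996469012724691944162550722787921448414357189839967995291315870026998743393, 25225,
  [G3Xp0_5, G3Xp0_6, G3Xp0_8, G3Xp1_0, G3Xp1_5, G3Xp1_6, G3Xp1_8, G3Xp2_0, G3Xp2_1, G3Xp2_5,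
  G3Xp2_6, G3Xp2_8, G3Xp3_0, G3Xp3_1, G3Xp3_5, G3Xp3_6, G3Xp3_8, G3Xp4_5, G3Xp4_6, G3Xp6_5, G3Xp7_0,
  G3Xp7_1, G3Xp7_3, G3Xp7_5, G3Xp7_6, G3Xp7_8, G3Xp8_5, G3Xp8_6]⟩) (.leaf ⟨155258561604,
  2518308220732475301884396774,
  63658406303996891736668025766378897590427299419986231301539136864669652777745019635236864, 41546,
  [G3Xp2_1, G3Xp3_7, G3Xp4_5, G3Xp4_6, G3Xp6_5, G3Xp8_0]⟩)) (.node 431 (.leaf ⟨103517673540,
  42430656863763497012659328,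
  115379051567053213890568763709646576920845648288978268882019868192032862377118625939063143, 25221,
  [G3Xp0_5, G3Xp0_6, G3Xp0_8, G3Xp1_2, G3Xp1_5, G3Xp1_6, G3Xp2_5, G3Xp2_6, G3Xp4_5, G3Xp4_6,
  G3Xp6_5, G3Xp7_3, G3Xp7_5, G3Xp7_6, G3Xp8_5, G3Xp8_6]⟩) (.leaf ⟨77748262980,
  6350605621695341583880422464,
  111402165500171172479199186234133689527023346842702184822642703992885477005613002639671791, 25125,
  [G3Xp0_1, G3Xp0_2, G3Xp0_5, G3Xp0_6, G3Xp0_8, G3Xp2_1, G3Xp3_5, G3Xp3_6, G3Xp3_7, G3Xp4_1,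
  G3Xp4_3, G3Xp4_5, G3Xp4_6, G3Xp4_7, G3Xp6_5, G3Xp7_5, G3Xp7_6, G3Xp8_1, G3Xp8_2, G3Xp8_5,
  G3Xp8_6]⟩))))) (.node 440 (.node 436 (.node 434 (.node 433 (.leaf ⟨77748279364,
  6351853507038440747728897089,
  111402165499939584766976504393183587110818712463107743729167052093986909286501904439312877, 25129,
  [G3Xp0_2, G3Xp0_5, G3Xp0_6, G3Xp0_8, G3Xp1_0, G3Xp1_2, G3Xp1_3, G3Xp1_5, G3Xp1_6, G3Xp1_7,
  G3Xp1_8, G3Xp3_5, G3Xp3_6, G3Xp3_7, G3Xp4_3, G3Xp4_5, G3Xp4_6, G3Xp4_7, G3Xp6_5, G3Xp7_5, G3Xp7_6,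
  G3Xp8_2, G3Xp8_5, G3Xp8_6]⟩) (.leaf ⟨69158410308, 8897929278358757879506601091,
  111402165556793493515002657445951019857715804187208242988755109391130034340356153481363945, 25097,
  [G3Xp0_5, G3Xp0_6, G3Xp0_8, G3Xp1_0, G3Xp1_3, G3Xp1_5, G3Xp1_6, G3Xp1_7, G3Xp1_8, G3Xp2_0,
  G3Xp2_1, G3Xp2_3, G3Xp2_5, G3Xp2_6, G3Xp2_7, G3Xp2_8, G3Xp3_5, G3Xp3_6, G3Xp3_7, G3Xp4_3, G3Xp4_5,
  G3Xp4_6, G3Xp4_7, G3Xp6_5, G3Xp7_5, G3Xp7_6, G3Xp8_5, G3Xp8_6]⟩)) (.node 435 (.leaf ⟨77603559716,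
  5077723384912631310770604064,
  63658406303996900563974642953567126909505293319398934025487803043617833722403385662898687, 22565,
  [G3Xp0_1, G3Xp0_2, G3Xp0_8, G3Xp2_1, G3Xp3_7, G3Xp5_4, G3Xp6_4, G3Xp6_5, G3Xp8_1, G3Xp8_2]⟩)
  (.leaf ⟨103499798660, 38998853099538637418204357,
  196444704555265683987005666213819585429433062039767630859331872325188357402352835578822913, 20873,
  [G3Xp0_8, G3Xp1_0, G3Xp1_8, G3Xp2_0, G3Xp2_1, G3Xp2_8, G3Xp3_0, G3Xp3_1, G3Xp3_8, G3Xp5_4,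
  G3Xp5_6, G3Xp6_4, G3Xp7_0, G3Xp7_1, G3Xp7_3, G3Xp7_8]⟩))) (.node 438 (.node 437 (.leaf
  ⟨77730437252, 8903857016929328657027107968,
  63658406303996900563974482517538180223623374802717065136804797639626394203188562703810959, 20773,
  [G3Xp0_1, G3Xp0_2, G3Xp0_8, G3Xp2_1, G3Xp3_7, G3Xp5_1, G3Xp5_3, G3Xp5_4, G3Xp5_6, G3Xp5_7,
  G3Xp6_1, G3Xp6_3, G3Xp6_4, G3Xp6_7, G3Xp8_1, G3Xp8_2]⟩) (.leaf ⟨77730453636,
  8905104902272427820875582593,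
  63658406303765312851751800676575523412388947456633506477065260964428954047394860468011405, 20777,
  [G3Xp0_2, G3Xp0_8, G3Xp1_0, G3Xp1_2, G3Xp1_3, G3Xp1_7, G3Xp1_8, G3Xp3_7, G3Xp5_3, G3Xp5_4,
  G3Xp5_6, G3Xp5_7, G3Xp6_3, G3Xp6_4, G3Xp6_7, G3Xp8_2]⟩)) (.node 439 (.leaf ⟨69140371592,
  1245428828240961922225212483,
  63660523509315817418672836657828418352229004730260821945884326425764452655853365947203847, 20741,
  [G3Xp0_8, G3Xp1_2, G3Xp3_0, G3Xp3_1, G3Xp3_2, G3Xp3_4, G3Xp3_7, G3Xp3_8, G3Xp5_4, G3Xp5_6,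
  G3Xp6_4]⟩) (.leaf ⟨69140584580, 8897929266401700868837674115,
  63658406349503181032995598968680141598452000026787420101527414021291667074175999316328841, 20745,
  [G3Xp0_8, G3Xp1_0, G3Xp1_3, G3Xp1_7, G3Xp1_8, G3Xp2_0, G3Xp2_1, G3Xp2_3, G3Xp2_7, G3Xp2_8,
  G3Xp3_7, G3Xp5_3, G3Xp5_4, G3Xp5_6, G3Xp5_7, G3Xp6_3, G3Xp6_4, G3Xp6_7]⟩)))) (.node 444 (.node 442
  (.node 441 (.leaf ⟨155229201476, 2518308217167876196820716774,
  63658406303996891736668025766479332750548723020912695610509932933693939999255510648881152, 34378,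
  [G3Xp2_1, G3Xp3_7, G3Xp5_4, G3Xp6_4, G3Xp6_5, G3Xp8_0]⟩) (.leaf ⟨155229247556,
  6351928980416883988085476480,
  63658406303765305791265447523117991286945313756245163300187109174348694325419186382176655, 34373,
  [G3Xp0_2, G3Xp0_7, G3Xp0_8, G3Xp1_2, G3Xp1_3, G3Xp1_7, G3Xp3_7, G3Xp5_4, G3Xp6_4, G3Xp6_5]⟩))
  (.node 443 (.leaf ⟨155229168713, 6348185213707126803607456833,
  63658406303765307558139472659545610840338992052945354850705706484674995790165808639377545, 34370,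
  [G3Xp1_0, G3Xp1_3, G3Xp1_7, G3Xp3_7, G3Xp5_4, G3Xp6_4, G3Xp6_5, G3Xp8_0]⟩) (.leaf ⟨77730178184,
  1240359146464153631500343462,
  65150520197535808833425592251725335680870655014075950374936770429503082174395039712673794, 20774,
  [G3Xp0_1, G3Xp2_1, G3Xp2_4, G3Xp3_0, G3Xp3_1, G3Xp3_4, G3Xp3_7, G3Xp5_0, G3Xp5_1, G3Xp5_4,
  G3Xp5_6, G3Xp6_0, G3Xp6_1, G3Xp6_4, G3Xp7_0, G3Xp7_1, G3Xp8_0, G3Xp8_1, G3Xp8_2, G3Xp8_4]⟩)))
  (.node 446 (.node 445 (.leaf ⟨69128837192, 1245428827121817414823906371,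
  63660402092510053310605904191660103007847549543908769838828814646995892506724448548094215, 17925,
  [G3Xp0_8, G3Xp1_2, G3Xp3_0, G3Xp3_1, G3Xp3_2, G3Xp3_7, G3Xp3_8, G3Xp5_4, G3Xp6_4, G3Xp6_5]⟩)
  (.leaf ⟨103500847236, 38998854283985339416678597,
  196444704555265683987005666213719150269311638438841166550361076256162299261885590020292865, 21129,
  [G3Xp0_8, G3Xp1_0, G3Xp1_8, G3Xp2_0, G3Xp2_1, G3Xp2_8, G3Xp3_0, G3Xp3_1, G3Xp3_8, G3Xp4_5,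
  G3Xp4_6, G3Xp5_6, G3Xp7_0, G3Xp7_1, G3Xp7_3, G3Xp7_8]⟩)) (.node 447 (.leaf ⟨155229165638,
  4996684140211812976379956357,
  63658406303765305791265447523130545681980952773837454118434223430270704189351801638748162, 34369,
  [G3Xp0_1, G3Xp0_2, G3Xp0_7, G3Xp0_8, G3Xp3_7, G3Xp4_1, G3Xp5_1, G3Xp5_4, G3Xp6_1, G3Xp6_4,
  G3Xp6_5]⟩) (.leaf ⟨103500896388, 42430649658004093219737760,
  67636020860597486056963300029636623459024491849807204686451395497282476586483845487919367, 21125,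
  [G3Xp0_8, G3Xp1_2, G3Xp4_5, G3Xp4_6, G3Xp5_6, G3Xp7_3]⟩))))))

def G3XT8 : Tr :=
  .node 480 (.node 464 (.node 456 (.node 452 (.node 450 (.node 449 (.leaf ⟨77731485828,
  10180482720520348233178910880,
  63658406303996900563974482517437745063703638427742265430546110077515183119433835836211599, 21029,
  [G3Xp0_1, G3Xp0_2, G3Xp0_8, G3Xp2_1, G3Xp3_7, G3Xp4_1, G3Xp4_3, G3Xp4_5, G3Xp4_6, G3Xp4_7,
  G3Xp5_1, G3Xp5_3, G3Xp5_6, G3Xp5_7, G3Xp6_1, G3Xp6_3, G3Xp6_7, G3Xp8_1, G3Xp8_2]⟩) (.leaf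
  ⟨77597009432, 4957809627579047604723486985,
  63658421481098046887625515789893738700086095633821871736203961570125616207085719573889026, 21030,
  [G3Xp0_1, G3Xp2_1, G3Xp3_1, G3Xp3_7, G3Xp4_5, G3Xp4_6, G3Xp5_6, G3Xp8_0, G3Xp8_1, G3Xp8_2,
  G3Xp8_4, G3Xp8_5, G3Xp8_6, G3Xp8_7]⟩)) (.node 451 (.leaf ⟨77716543634,
  1242855002891183925845370119,
  63658406315113110750663210882377268909476900453952323094334052229176908619526104145723488, 17445,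
  [G3Xp0_1, G3Xp0_2, G3Xp0_5, G3Xp0_6, G3Xp0_8, G3Xp1_5, G3Xp1_6, G3Xp2_1, G3Xp2_5, G3Xp2_6,
  G3Xp3_7, G3Xp4_5, G3Xp4_6, G3Xp6_5, G3Xp8_1, G3Xp8_2, G3Xp8_5, G3Xp8_6]⟩) (.leaf ⟨77731502212,
  10181730605863446263156019361,
  63658406303765312851751800676475088252466288078384044964970166032652310397600821735326093, 21033,
  [G3Xp0_2, G3Xp0_8, G3Xp1_0, G3Xp1_2, G3Xp1_3, G3Xp1_7, G3Xp1_8, G3Xp3_7, G3Xp4_3, G3Xp4_5,
  G3Xp4_6, G3Xp4_7, G3Xp5_3, G3Xp5_6, G3Xp5_7, G3Xp6_3, G3Xp6_7, G3Xp8_2]⟩))) (.node 454 (.node 453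
  (.leaf ⟨69141420168, 1245428829425408624223686723,
  63660402092510053310605904191358806722175915622094993701703481853891293471494510966407431, 20997,
  [G3Xp0_8, G3Xp1_2, G3Xp3_0, G3Xp3_1, G3Xp3_2, G3Xp3_7, G3Xp3_8, G3Xp4_5, G3Xp4_6, G3Xp5_6]⟩)
  (.leaf ⟨69141633156, 10174554969992719311118110883,
  63658406349503181032995598968579706438529340648537958589432319089515023424381960583643529, 21001,
  [G3Xp0_8, G3Xp1_0, G3Xp1_3, G3Xp1_7, G3Xp1_8, G3Xp2_0, G3Xp2_1, G3Xp2_3, G3Xp2_7, G3Xp2_8,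
  G3Xp3_7, G3Xp4_3, G3Xp4_5, G3Xp4_6, G3Xp4_7, G3Xp5_3, G3Xp5_6, G3Xp5_7, G3Xp6_3, G3Xp6_7]⟩))
  (.node 455 (.leaf ⟨22085670980, 47497746590606746670238849,
  196942035379878454625105134815758931668682914157397278454806258122559992022016656069099781, 1625,
  [G3Xp0_8, G3Xp1_0, G3Xp1_2, G3Xp1_8, G3Xp2_8, G3Xp3_2, G3Xp3_8, G3Xp4_2, G3Xp4_8, G3Xp5_2,
  G3Xp5_4, G3Xp5_8, G3Xp6_2, G3Xp6_4, G3Xp6_5, G3Xp6_8, G3Xp7_2, G3Xp7_3, G3Xp7_8]⟩) (.leaf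
  ⟨22085261380, 154975229072294838541618304,
  194950769412071978014294482806429027197327962007717304301429899469002128699506646048571659, 1621,
  [G3Xp0_8, G3Xp1_3, G3Xp2_3, G3Xp2_8, G3Xp5_4, G3Xp6_4, G3Xp6_5, G3Xp7_3, G3Xp7_8]⟩)))) (.node 460
  (.node 458 (.node 457 (.leaf ⟨156267286808, 10177986949834151635280040105,
  63658406304112694420085823437919073469322313602421376699176468370903479851397258507124737, 107593,
  [G3Xp1_0, G3Xp2_0, G3Xp2_1, G3Xp3_7, G3Xp4_0, G3Xp4_1, G3Xp4_3, G3Xp4_5, G3Xp4_6, G3Xp4_7,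
  G3Xp5_0, G3Xp5_1, G3Xp5_3, G3Xp5_6, G3Xp5_7, G3Xp6_0, G3Xp6_1, G3Xp6_3, G3Xp6_7, G3Xp8_0, G3Xp8_1,
  G3Xp8_2]⟩) (.leaf ⟨17790294084, 162228783989982613589855360,
  196940062327142013024372377639366730395820889152962041449744888136062990568308889217925391, 1605,
  [G3Xp0_2, G3Xp0_8, G3Xp1_2, G3Xp1_3, G3Xp5_4, G3Xp6_4, G3Xp6_5, G3Xp7_2, G3Xp7_3, G3Xp7_8]⟩))
  (.node 459 (.leaf ⟨39265130564, 1238172763447002579078352000,
  190975097523205686756759274450726127874814772970362257005144213351883726201480564992639235, 1685,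
  [G3Xp0_8, G3Xp2_8, G3Xp3_7, G3Xp3_8, G3Xp5_4, G3Xp6_4, G3Xp6_5, G3Xp7_8]⟩) (.leaf ⟨142344755268,
  7707251739668897197608569985,
  67636020890240260908618153666291562107322745595152891553314459644065118018921932989923725, 34329,
  [G3Xp0_3, G3Xp0_7, G3Xp0_8, G3Xp1_0, G3Xp1_2, G3Xp1_3, G3Xp1_7, G3Xp1_8, G3Xp2_8, G3Xp4_2,
  G3Xp4_3, G3Xp4_8, G3Xp5_2, G3Xp5_3, G3Xp5_4, G3Xp5_8, G3Xp6_2, G3Xp6_3, G3Xp6_4, G3Xp6_5, G3Xp6_8,
  G3Xp7_3]⟩))) (.node 462 (.node 461 (.leaf ⟨143382581528, 41144948489518373022044326,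
  68133351685557632955872865556937795026013496581326573277119523442350287665985008848404481, 107545,
  [G3Xp1_0, G3Xp1_2, G3Xp3_0, G3Xp4_0, G3Xp4_5, G3Xp4_6, G3Xp5_0, G3Xp5_6, G3Xp6_0, G3Xp7_0,
  G3Xp7_3]⟩) (.leaf ⟨139087909138, 235780787962473753606200514,
  67636020861523843973350126293642954016200008387107112800129294460530410048504839605846026, 107521,
  [G3Xp0_1, G3Xp0_3, G3Xp1_3, G3Xp2_3, G3Xp4_5, G3Xp4_6, G3Xp5_6, G3Xp7_3, G3Xp8_2, G3Xp8_3]⟩))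
  (.node 463 (.leaf ⟨22088816708, 45001979398004982340026433,
  196942035379878454625105134813825564028378213740586213985774782812238313181605272605688069, 2393,
  [G3Xp0_8, G3Xp1_0, G3Xp1_2, G3Xp1_8, G3Xp2_8, G3Xp3_2, G3Xp3_8, G3Xp4_5, G3Xp4_6, G3Xp5_6,
  G3Xp7_2, G3Xp7_3, G3Xp7_8]⟩) (.leaf ⟨22088407108, 154975232565962249474277504,
  194950769412071978014294482806127730911656328085903528164304566675897529664277189503222027, 2389,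
  [G3Xp0_8, G3Xp1_3, G3Xp2_3, G3Xp2_8, G3Xp4_5, G3Xp4_6, G3Xp5_6, G3Xp7_3, G3Xp7_8]⟩))))) (.node 472
  (.node 468 (.node 466 (.node 465 (.leaf ⟨17793439812, 162228787483650024522514560,
  196940062327142013024372377639065434110149255231148265312619555342958391533079432672575759, 2373,
  [G3Xp0_2, G3Xp0_8, G3Xp1_2, G3Xp1_3, G3Xp4_5, G3Xp4_6, G3Xp5_6, G3Xp7_2, G3Xp7_3, G3Xp7_8]⟩)
  (.leaf ⟨39268276292, 1238172766940669990011011200,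
  190975097523205686756759274450424831589143139048548480868018880558779127166251108447289603, 2453,
  [G3Xp0_8, G3Xp2_8, G3Xp3_7, G3Xp3_8, G3Xp4_5, G3Xp4_6, G3Xp5_6, G3Xp7_8]⟩)) (.node 467 (.leaf
  ⟨142347900996, 7704755972476295433278357569,
  67636020890240260908618153664307976886875489286188064366378179948598298261428028698263949, 35097,
  [G3Xp0_3, G3Xp0_7, G3Xp0_8, G3Xp1_0, G3Xp1_2, G3Xp1_3, G3Xp1_7, G3Xp1_8, G3Xp2_8, G3Xp4_5,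
  G3Xp4_6, G3Xp5_6, G3Xp7_3]⟩) (.leaf ⟨17793882210, 44923985374128139837477121,
  196940062327142013024372377639065434110149255052738220273664115103018181842912109507117058, 2369,
  [G3Xp0_1, G3Xp0_2, G3Xp0_8, G3Xp4_5, G3Xp4_6, G3Xp5_6, G3Xp7_2, G3Xp7_3, G3Xp7_8]⟩))) (.node 470
  (.node 469 (.leaf ⟨39293442116, 1238172769397383586741616768,
  190975097523205686756759274450726127874814772970362257005153087041487081670991443379880307, 8597,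
  [G3Xp0_4, G3Xp0_5, G3Xp0_6, G3Xp0_8, G3Xp2_8, G3Xp3_7, G3Xp3_8, G3Xp5_4, G3Xp6_4, G3Xp6_5,
  G3Xp7_8]⟩) (.leaf ⟨143354253704, 39934813515327359884105828,
  124829065743983291316033564835882816249275809940147574129843107604046707961420471214473219,
  100629, [G3Xp2_4, G3Xp2_5, G3Xp2_6, G3Xp3_0, G3Xp3_1, G3Xp3_4, G3Xp3_5, G3Xp3_6, G3Xp4_5, G3Xp4_6,
  G3Xp5_6, G3Xp7_0, G3Xp7_1, G3Xp7_3, G3Xp7_4, G3Xp7_5, G3Xp7_6, G3Xp8_4, G3Xp8_5, G3Xp8_6]⟩))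
  (.node 471 (.leaf ⟨138052966498, 5267483526109326174568157441,
  67636020861523822778087258204772737603462928676311021500504374894302563794267550703943690, 35073,
  [G3Xp0_1, G3Xp0_2, G3Xp0_3, G3Xp0_7, G3Xp0_8, G3Xp1_3, G3Xp2_3, G3Xp4_5, G3Xp4_6, G3Xp5_6,
  G3Xp7_3]⟩) (.leaf ⟨17793393732, 42428142090783057955127526,
  198432032036602958896241102626867238094054032948251397582853790408308694845492661525151744, 2378,
  [G3Xp2_1, G3Xp4_5, G3Xp4_6, G3Xp5_6, G3Xp7_0, G3Xp7_1, G3Xp7_2, G3Xp7_3, G3Xp7_8, G3Xp8_0]⟩))))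
  (.node 476 (.node 474 (.node 473 (.leaf ⟨17792833634, 44923984190807337745879297,
  196940062327142013024372377639165869270270678653664684582636178841987576474520097916977154, 2113,
  [G3Xp0_1, G3Xp0_2, G3Xp0_4, G3Xp0_8, G3Xp5_4, G3Xp5_6, G3Xp6_4, G3Xp7_2, G3Xp7_3, G3Xp7_8]⟩)
  (.leaf ⟨143353205144, 39934809761577070470793316,
  100956700473115078642762305731394036611414749561090573764809040141096872405846007564402691,
  100373, [G3Xp2_6, G3Xp3_0, G3Xp3_1, G3Xp4_0, G3Xp4_1, G3Xp4_6, G3Xp5_0, G3Xp5_1, G3Xp5_4, G3Xp5_6,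
  G3Xp7_0, G3Xp7_1, G3Xp7_3, G3Xp7_6, G3Xp8_6]⟩)) (.node 475 (.leaf ⟨143353319826,
  38725883942038337663176802,
  100459369648386515922327372594946283924613641714507672636492234922838383721631149015040066,
  100369, [G3Xp0_1, G3Xp0_6, G3Xp2_1, G3Xp2_6, G3Xp3_1, G3Xp4_6, G3Xp5_4, G3Xp5_6, G3Xp7_1, G3Xp7_3,
  G3Xp7_6, G3Xp8_6]⟩) (.leaf ⟨139058352530, 45979438859726112711413858,
  102448692940584832695798864706376097284293651808214588464222462481024205036719755875450950,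
  100353, [G3Xp0_1, G3Xp0_2, G3Xp0_6, G3Xp3_1, G3Xp3_2, G3Xp4_6, G3Xp5_4, G3Xp5_6, G3Xp7_1, G3Xp7_2,
  G3Xp7_3, G3Xp7_6, G3Xp8_2, G3Xp8_6]⟩))) (.node 478 (.node 477 (.leaf ⟨138051917922,
  5267483524926005372476559617,
  67636020861523822778087258204873172763584352277237485809476438633271958425875539113803786, 34817,
  [G3Xp0_1, G3Xp0_2, G3Xp0_3, G3Xp0_4, G3Xp0_7, G3Xp0_8, G3Xp1_3, G3Xp2_3, G3Xp5_4, G3Xp5_6,
  G3Xp6_4, G3Xp7_3]⟩) (.leaf ⟨22113982532, 45001983044794780603285569,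
  196942035379878454625105134814126860314049847662399990704446237450846962081761196410929525, 8537,
  [G3Xp0_4, G3Xp0_5, G3Xp0_6, G3Xp0_8, G3Xp1_0, G3Xp1_2, G3Xp1_4, G3Xp1_5, G3Xp1_6, G3Xp1_8,
  G3Xp2_8, G3Xp3_2, G3Xp3_8, G3Xp5_4, G3Xp6_4, G3Xp6_5, G3Xp7_2, G3Xp7_3, G3Xp7_8]⟩)) (.node 479
  (.leaf ⟨22113572932, 154975235022675846204883072,
  194950769412071978014294482806429027197327962007717304301438773158605484169017524435812731, 8533,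
  [G3Xp0_4, G3Xp0_5, G3Xp0_6, G3Xp0_8, G3Xp1_3, G3Xp2_3, G3Xp2_8, G3Xp5_4, G3Xp6_4, G3Xp6_5,
  G3Xp7_3, G3Xp7_8]⟩) (.leaf ⟨17818605636, 162228789940363621253120128,
  196940062327142013024372377639366730395820889152962041449753761825666346037819767605166463, 8517,
  [G3Xp0_2, G3Xp0_4, G3Xp0_5, G3Xp0_6, G3Xp0_8, G3Xp1_2, G3Xp1_3, G3Xp5_4, G3Xp6_4, G3Xp6_5,
  G3Xp7_2, G3Xp7_3, G3Xp7_8]⟩)))))) (.node 496 (.node 488 (.node 484 (.node 482 (.node 481 (.leaf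
  ⟨142373066820, 7704755976123085231541616705,
  67636020890240260908618153664609273172547123208001841085049634587206947161583952503505405, 41241,
  [G3Xp0_3, G3Xp0_4, G3Xp0_5, G3Xp0_6, G3Xp0_7, G3Xp0_8, G3Xp1_0, G3Xp1_2, G3Xp1_3, G3Xp1_4,
  G3Xp1_5, G3Xp1_6, G3Xp1_7, G3Xp1_8, G3Xp2_8, G3Xp5_4, G3Xp6_4, G3Xp6_5, G3Xp7_3]⟩) (.leaf
  ⟨22115031108, 45001983035787581348545601,
  196942035379878454625105134814026425154308414487179561071130382031826558978775809194721637, 8793,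
  [G3Xp0_5, G3Xp0_6, G3Xp0_8, G3Xp1_0, G3Xp1_2, G3Xp1_5, G3Xp1_6, G3Xp1_8, G3Xp2_8, G3Xp3_2,
  G3Xp3_8, G3Xp4_2, G3Xp4_5, G3Xp4_6, G3Xp4_8, G3Xp6_5, G3Xp7_2, G3Xp7_3, G3Xp7_8]⟩)) (.node 483
  (.leaf ⟨22114621508, 154975235014794546856985728,
  194950769412071978014294482806328592037206538406790839992466709419636089537409536025952619, 8789,
  [G3Xp0_5, G3Xp0_6, G3Xp0_8, G3Xp1_3, G3Xp2_3, G3Xp2_8, G3Xp4_5, G3Xp4_6, G3Xp6_5, G3Xp7_3,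
  G3Xp7_8]⟩) (.leaf ⟨17819654212, 162228789932482321905222784,
  196940062327142013024372377639266295235699465552035577140781698086696951406211779195306351, 8773,
  [G3Xp0_2, G3Xp0_5, G3Xp0_6, G3Xp0_8, G3Xp1_2, G3Xp1_3, G3Xp4_5, G3Xp4_6, G3Xp6_5, G3Xp7_2,
  G3Xp7_3, G3Xp7_8]⟩))) (.node 486 (.node 485 (.leaf ⟨39294490692, 1238172769389502287393719424,
  190975097523205686756759274450625692714693349369435792696181023302517687039383454970020195, 8853,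
  [G3Xp0_5, G3Xp0_6, G3Xp0_8, G3Xp2_8, G3Xp3_7, G3Xp3_8, G3Xp4_5, G3Xp4_6, G3Xp6_5, G3Xp7_8]⟩)
  (.leaf ⟨142374115396, 7704755976114078032286876737,
  67636020890240260908618153664508838012817382045880058675079408646848274322755812747641325, 41497,
  [G3Xp0_3, G3Xp0_5, G3Xp0_6, G3Xp0_7, G3Xp0_8, G3Xp1_0, G3Xp1_2, G3Xp1_3, G3Xp1_5, G3Xp1_6,
  G3Xp1_7, G3Xp1_8, G3Xp2_8, G3Xp4_2, G3Xp4_3, G3Xp4_5, G3Xp4_6, G3Xp4_8, G3Xp6_5, G3Xp7_3]⟩))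
  (.node 487 (.leaf ⟨17819608132, 42428142161714752086148326,
  198432032036602958896241102627068099219604243269138709411008327132389006659211627056857088, 8778,
  [G3Xp2_1, G3Xp4_5, G3Xp4_6, G3Xp6_5, G3Xp7_0, G3Xp7_1, G3Xp7_2, G3Xp7_3, G3Xp7_8, G3Xp8_0]⟩)
  (.leaf ⟨22097205380, 47497747709751254071708801,
  196942035379878454625105134815558070542752713410803931867918763341975217615326915529539845, 4441,
  [G3Xp0_8, G3Xp1_0, G3Xp1_2, G3Xp1_8, G3Xp2_8, G3Xp3_2, G3Xp3_8, G3Xp5_2, G3Xp5_4, G3Xp5_6,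
  G3Xp5_8, G3Xp6_2, G3Xp6_4, G3Xp6_8, G3Xp7_2, G3Xp7_3, G3Xp7_8]⟩)))) (.node 492 (.node 490 (.node
  489 (.leaf ⟨22096795780, 154975230191439345943121024,
  194950769412071978014294482807835128635965395816593688299168959752392728770410295836279051, 4437,
  [G3Xp0_8, G3Xp1_3, G3Xp2_3, G3Xp2_8, G3Xp5_4, G3Xp5_6, G3Xp5_8, G3Xp6_4, G3Xp6_8, G3Xp7_3,
  G3Xp7_8]⟩) (.leaf ⟨17801828484, 162228785109127120991358080,
  196940062327142013024372377640797940624523754901365983194763535872695295966801075596427535, 4421,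
  [G3Xp0_2, G3Xp0_8, G3Xp1_2, G3Xp1_3, G3Xp5_2, G3Xp5_4, G3Xp5_6, G3Xp5_8, G3Xp6_2, G3Xp6_4,
  G3Xp6_8, G3Xp7_2, G3Xp7_3, G3Xp7_8]⟩)) (.node 491 (.leaf ⟨39276664964,
  1238172764566147086479854720,
  190975097523205686756759274452132229313452206779238641002883273635274326272384214780346627, 4501,
  [G3Xp0_8, G3Xp2_8, G3Xp3_7, G3Xp3_8, G3Xp5_4, G3Xp5_6, G3Xp5_8, G3Xp6_4, G3Xp6_8, G3Xp7_8]⟩)
  (.leaf ⟨142356289668, 7707251740788041705010039937,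
  67636020890240260908618153666894182263474674900342745656028133888553183833159915709137293, 37145,
  [G3Xp0_3, G3Xp0_7, G3Xp0_8, G3Xp1_0, G3Xp1_2, G3Xp1_3, G3Xp1_7, G3Xp1_8, G3Xp2_8, G3Xp5_2,
  G3Xp5_3, G3Xp5_4, G3Xp5_6, G3Xp5_7, G3Xp5_8, G3Xp6_2, G3Xp6_3, G3Xp6_4, G3Xp6_7, G3Xp6_8,
  G3Xp7_3]⟩))) (.node 494 (.node 493 (.leaf ⟨143353221528, 41144954219222996796770404,
  99962038823194784844943174676804247680907513459579508530931711722976764882342162087346177, 100377,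
  [G3Xp1_0, G3Xp1_2, G3Xp1_6, G3Xp2_6, G3Xp3_0, G3Xp4_0, G3Xp4_6, G3Xp5_0, G3Xp5_4, G3Xp5_6,
  G3Xp7_0, G3Xp7_3, G3Xp7_6, G3Xp8_6]⟩) (.leaf ⟨17790248004, 42428138597115647022468326,
  198432032036602958896241102627168534379725666870065173719979123201413293880722118070501376, 1610,
  [G3Xp2_1, G3Xp5_4, G3Xp6_4, G3Xp6_5, G3Xp7_0, G3Xp7_1, G3Xp7_2, G3Xp7_3, G3Xp7_8, G3Xp8_0]⟩))
  (.node 495 (.leaf ⟨143351107976, 39934810021659948951446628,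
  124828215826342942559565037571599877245425785311285802720498100877221599689408661803958275, 99861,
  [G3Xp2_4, G3Xp2_5, G3Xp2_6, G3Xp3_0, G3Xp3_1, G3Xp5_4, G3Xp6_4, G3Xp6_5, G3Xp7_0, G3Xp7_1,
  G3Xp7_3, G3Xp7_4, G3Xp7_5, G3Xp7_6, G3Xp8_4, G3Xp8_5, G3Xp8_6]⟩) (.leaf ⟨142881608260,
  2716720806129063967119772800,
  67636020860597486067666560529320601079001653645809785853096133742623817049031680929431567, 99861,
  [G3Xp4_0, G3Xp4_1, G3Xp4_2, G3Xp4_3, G3Xp4_8, G3Xp5_0, G3Xp5_1, G3Xp5_2, G3Xp5_3, G3Xp5_4,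
  G3Xp5_8, G3Xp6_0, G3Xp6_1, G3Xp6_2, G3Xp6_3, G3Xp6_4, G3Xp6_5, G3Xp6_8, G3Xp7_3]⟩))))) (.node 504
  (.node 500 (.node 498 (.node 497 (.leaf ⟨22098253956, 48745634237332543701618849,
  196942035379878454625105134815457635383011280235583502317680925329455393059970212432183557, 4697,
  [G3Xp0_8, G3Xp1_0, G3Xp1_2, G3Xp1_8, G3Xp2_8, G3Xp3_2, G3Xp3_8, G3Xp4_2, G3Xp4_5, G3Xp4_6,
  G3Xp4_8, G3Xp5_2, G3Xp5_6, G3Xp5_8, G3Xp6_2, G3Xp6_8, G3Xp7_2, G3Xp7_3, G3Xp7_8]⟩) (.leaf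
  ⟨22097844356, 155014227792857869934760096,
  194950769412071978014294482807734693476218116634823935137258307000542039082974969008750859, 4693,
  [G3Xp0_8, G3Xp1_3, G3Xp2_3, G3Xp2_8, G3Xp4_5, G3Xp4_6, G3Xp4_8, G3Xp5_6, G3Xp5_8, G3Xp6_8,
  G3Xp7_3, G3Xp7_8]⟩)) (.node 499 (.leaf ⟨156234224226, 1245350834397334620076017957,
  63658406303765312851751800677573561899672393028077048989525890360580865958121488213082114, 99393,
  [G3Xp0_1, G3Xp3_7, G3Xp4_5, G3Xp6_0, G3Xp6_1, G3Xp6_2, G3Xp6_4, G3Xp6_5, G3Xp6_8, G3Xp8_2]⟩)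
  (.leaf ⟨17802877060, 163476708530160274157703328,
  196940062327142013024372377640697505464782321726145553644525697860175471411444372499071247, 4677,
  [G3Xp0_2, G3Xp0_8, G3Xp1_2, G3Xp1_3, G3Xp4_2, G3Xp4_5, G3Xp4_6, G3Xp4_8, G3Xp5_2, G3Xp5_6,
  G3Xp5_8, G3Xp6_2, G3Xp6_8, G3Xp7_2, G3Xp7_3, G3Xp7_8]⟩))) (.node 502 (.node 501 (.leaf
  ⟨39277713540, 1238211762167565610471493792,
  190975097523205686756759274452031794153704927597468887840972620883423636584948887952818435, 4757,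
  [G3Xp0_8, G3Xp2_8, G3Xp3_7, G3Xp3_8, G3Xp4_5, G3Xp4_6, G3Xp4_8, G3Xp5_6, G3Xp5_8, G3Xp6_8,
  G3Xp7_8]⟩) (.leaf ⟨142357321860, 7708499627315623268410560672,
  67636020890240260908618153666806301498967644965439928482595433431240853766214552036180367, 37397,
  [G3Xp0_3, G3Xp0_7, G3Xp0_8, G3Xp2_8, G3Xp4_1, G3Xp4_2, G3Xp4_3, G3Xp4_5, G3Xp4_6, G3Xp4_7,
  G3Xp4_8, G3Xp5_1, G3Xp5_2, G3Xp5_3, G3Xp5_6, G3Xp5_7, G3Xp5_8, G3Xp6_1, G3Xp6_2, G3Xp6_3, G3Xp6_7,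
  G3Xp6_8, G3Xp7_3]⟩)) (.node 503 (.leaf ⟨142357338244, 7708499627315622994639949985,
  67636020890240260908618153666793747103932005947799318902665997013282773768476419437625741, 37401,
  [G3Xp0_3, G3Xp0_7, G3Xp0_8, G3Xp1_0, G3Xp1_2, G3Xp1_3, G3Xp1_7, G3Xp1_8, G3Xp2_8, G3Xp4_2,
  G3Xp4_3, G3Xp4_5, G3Xp4_6, G3Xp4_7, G3Xp4_8, G3Xp5_2, G3Xp5_3, G3Xp5_6, G3Xp5_7, G3Xp5_8, G3Xp6_2,
  G3Xp6_3, G3Xp6_7, G3Xp6_8, G3Xp7_3]⟩) (.leaf ⟨17790212166, 44923983070291876783459461,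
  196940062327142013024372377639379284790856528170597889075571880407766248833896300945735682, 1601,
  [G3Xp0_1, G3Xp0_2, G3Xp0_8, G3Xp4_1, G3Xp5_1, G3Xp5_4, G3Xp6_1, G3Xp6_4, G3Xp6_5, G3Xp7_2,
  G3Xp7_3, G3Xp7_8]⟩)))) (.node 508 (.node 506 (.node 505 (.leaf ⟨26179311684,
  8982476079821787321838341249,
  67636020860597733419326817484300099898605045161346792826664734271551340603018334246535565, 1641,
  [G3Xp0_2, G3Xp0_3, G3Xp0_7, G3Xp0_8, G3Xp1_0, G3Xp1_2, G3Xp1_3, G3Xp1_7, G3Xp1_8, G3Xp5_4,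
  G3Xp6_4, G3Xp6_5, G3Xp7_3, G3Xp8_2, G3Xp8_3, G3Xp8_7]⟩) (.leaf ⟨22085654596,
  47497709697118838660926592,
  197936697029798748422924265870361274802660923620436014270609005034825399578554134404923655, 1621,
  [G3Xp0_8, G3Xp2_8, G3Xp3_1, G3Xp3_2, G3Xp3_8, G3Xp4_1, G3Xp4_2, G3Xp4_8, G3Xp5_1, G3Xp5_2,
  G3Xp5_4, G3Xp5_8, G3Xp6_1, G3Xp6_2, G3Xp6_4, G3Xp6_5, G3Xp6_8, G3Xp7_1, G3Xp7_2, G3Xp7_3,
  G3Xp7_8]⟩)) (.node 507 (.leaf ⟨77615883800, 4957809621628666597060219145,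
  63658421481097849000754260610861379765801651399986539737483712461686833952761403542732802, 25638,
  [G3Xp0_1, G3Xp2_1, G3Xp3_1, G3Xp3_7, G3Xp4_1, G3Xp4_5, G3Xp4_6, G3Xp5_1, G3Xp5_6, G3Xp6_1,
  G3Xp8_0, G3Xp8_1, G3Xp8_2, G3Xp8_7]⟩) (.leaf ⟨77716805732, 5073979908922609401298395168,
  87530285902084036521586834375553454856980860400296040141392970155269132128394676704772543, 17445,
  [G3Xp0_1, G3Xp0_2, G3Xp0_4, G3Xp0_5, G3Xp0_8, G3Xp2_1, G3Xp3_4, G3Xp3_5, G3Xp3_7, G3Xp4_5,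
  G3Xp6_4, G3Xp6_5, G3Xp7_4, G3Xp7_5, G3Xp8_1, G3Xp8_2, G3Xp8_4, G3Xp8_5]⟩))) (.node 510 (.node 509
  (.leaf ⟨77615900184, 4957809621628666253462835465,
  63658406303765540775023211388850297235219821829340295837050653307344971908853539482370048, 25642,
  [G3Xp3_7, G3Xp4_5, G3Xp4_6, G3Xp5_6, G3Xp8_0, G3Xp8_2, G3Xp8_7]⟩) (.leaf ⟨77716822116,
  6351853496709435002354672705,
  87530285901852448809364152534603352440779149023976260604523476416364270805859075156869565, 17449,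
  [G3Xp0_2, G3Xp0_4, G3Xp0_5, G3Xp0_8, G3Xp1_0, G3Xp1_2, G3Xp1_3, G3Xp1_4, G3Xp1_5, G3Xp1_7,
  G3Xp1_8, G3Xp3_4, G3Xp3_5, G3Xp3_7, G3Xp4_5, G3Xp6_4, G3Xp6_5, G3Xp7_4, G3Xp7_5, G3Xp8_2, G3Xp8_4,
  G3Xp8_5]⟩)) (.node 511 (.leaf ⟨26179295300, 7704602492072116520787086464,
  68630682510749614929368631202604824109387787033587730100636868541352916220293124985061775, 1637,
  [G3Xp0_1, G3Xp0_2, G3Xp0_3, G3Xp0_7, G3Xp0_8, G3Xp2_1, G3Xp3_1, G3Xp4_1, G3Xp5_1, G3Xp5_4,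
  G3Xp6_1, G3Xp6_4, G3Xp6_5, G3Xp7_1, G3Xp7_3, G3Xp8_1, G3Xp8_2, G3Xp8_3, G3Xp8_7]⟩) (.leaf
  ⟨26179298372, 3870981728823211946176285926,
  68630682510749616696242656339032443662781465330335561198100653977197089237542049440464898, 1638,
  [G3Xp0_1, G3Xp2_1, G3Xp3_1, G3Xp4_1, G3Xp5_1, G3Xp5_4, G3Xp6_1, G3Xp6_4, G3Xp6_5, G3Xp7_1,
  G3Xp7_3, G3Xp8_0, G3Xp8_1, G3Xp8_2, G3Xp8_3, G3Xp8_7]⟩))))))

def G3XT9 : Tr :=
  .node 539 (.node 525 (.node 518 (.node 515 (.node 513 (.leaf ⟨70334911076,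
  16564858820888413422563142985,
  63658406325418763944572605463407657929138343119534156757585663000446474506445462976331961, 82953,
  [G3Xp1_0, G3Xp1_3, G3Xp1_4, G3Xp1_5, G3Xp1_7, G3Xp2_0, G3Xp2_1, G3Xp2_3, G3Xp2_4, G3Xp2_5,
  G3Xp2_7, G3Xp3_7, G3Xp4_5, G3Xp6_0, G3Xp6_1, G3Xp6_2, G3Xp6_3, G3Xp6_4, G3Xp6_5, G3Xp6_7, G3Xp6_8,
  G3Xp8_0, G3Xp8_1, G3Xp8_2, G3Xp8_3, G3Xp8_4, G3Xp8_5, G3Xp8_7]⟩) (.node 514 (.leaf ⟨26179314756,
  3870981728823211602578902246,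
  67636020860597735186200842620727719451998723458094621862786666869068908200172068582457344, 1642,
  [G3Xp5_4, G3Xp6_4, G3Xp6_5, G3Xp7_3, G3Xp8_0, G3Xp8_2, G3Xp8_3, G3Xp8_7]⟩) (.leaf ⟨26182457412,
  8982476083315454732771000385,
  67636020860597733419326817483998803612933411239533016689539401478446741567788877701185933, 2409,
  [G3Xp0_2, G3Xp0_3, G3Xp0_7, G3Xp0_8, G3Xp1_0, G3Xp1_2, G3Xp1_3, G3Xp1_7, G3Xp1_8, G3Xp4_5,
  G3Xp4_6, G3Xp5_6, G3Xp7_3, G3Xp8_2, G3Xp8_3, G3Xp8_7]⟩))) (.node 516 (.leaf ⟨22088800324,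
  43754057161382383620063264,
  197936697029798748422924265868415352767320584230586509122101328628217435508872120734449927, 2389,
  [G3Xp0_8, G3Xp2_8, G3Xp3_1, G3Xp3_2, G3Xp3_8, G3Xp4_5, G3Xp4_6, G3Xp5_6, G3Xp7_1, G3Xp7_2,
  G3Xp7_3, G3Xp7_8]⟩) (.node 517 (.leaf ⟨26182441028, 7704602495565783931719745568,
  68630682510749614929368631202290973428680514138735513284035334651962031955793038232650127, 2405,
  [G3Xp0_1, G3Xp0_2, G3Xp0_3, G3Xp0_7, G3Xp0_8, G3Xp2_1, G3Xp3_1, G3Xp4_5, G3Xp4_6, G3Xp5_6,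
  G3Xp7_1, G3Xp7_3, G3Xp8_1, G3Xp8_2, G3Xp8_3, G3Xp8_7]⟩) (.leaf ⟨26182444100,
  3870981732316879357108945126,
  68630682510749616696242656338718592982074192435483344381499120087806204973041962688053250, 2406,
  [G3Xp0_1, G3Xp2_1, G3Xp3_1, G3Xp4_5, G3Xp4_6, G3Xp5_6, G3Xp7_1, G3Xp7_3, G3Xp8_0, G3Xp8_1,
  G3Xp8_2, G3Xp8_3, G3Xp8_7]⟩)))) (.node 521 (.node 519 (.leaf ⟨26182460484,
  3870981732316879013511561446,
  67636020860597735186200842620426423166327089536280845725661334075964309164942612037107712, 2410,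
  [G3Xp4_5, G3Xp4_6, G3Xp5_6, G3Xp7_3, G3Xp8_0, G3Xp8_2, G3Xp8_3, G3Xp8_7]⟩) (.node 520 (.leaf
  ⟨22113556550, 116250611187923541536374884,
  194950769412303562192769115197276169167345337868026015191026926034729170131976162287681538, 8529,
  [G3Xp0_1, G3Xp0_4, G3Xp0_5, G3Xp0_6, G3Xp0_8, G3Xp2_1, G3Xp2_3, G3Xp2_8, G3Xp5_4, G3Xp6_4,
  G3Xp6_5, G3Xp7_3, G3Xp7_8]⟩) (.leaf ⟨26207656226, 12816096843070789824013274529,
  67636020860597733419326817486785870115661561822959406451847728142234745035341952588972038, 8545,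
  [G3Xp0_1, G3Xp0_2, G3Xp0_3, G3Xp0_7, G3Xp0_8, G3Xp1_2, G3Xp4_2, G3Xp4_3, G3Xp4_7, G3Xp4_8,
  G3Xp5_2, G3Xp5_3, G3Xp5_4, G3Xp5_7, G3Xp5_8, G3Xp6_2, G3Xp6_3, G3Xp6_4, G3Xp6_5, G3Xp6_7, G3Xp6_8,
  G3Xp7_3, G3Xp8_2, G3Xp8_3, G3Xp8_7]⟩))) (.node 523 (.node 522 (.leaf ⟨74257551652,
  5077799159376974500083141664,
  192964420793403499507752431965276764425493195036734572111502554061004936632073172458275215, 90389,
  [G3Xp3_2, G3Xp3_7, G3Xp3_8, G3Xp4_2, G3Xp4_8, G3Xp5_2, G3Xp5_4, G3Xp5_8, G3Xp6_2, G3Xp6_4,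
  G3Xp6_5, G3Xp6_8, G3Xp7_2, G3Xp7_8]⟩) (.leaf ⟨77613000260, 8903743496927306945143013507,
  63658406303997142622022412279928611264076197181207918720339531672303393302068489938927754, 24870,
  [G3Xp0_1, G3Xp0_3, G3Xp0_7, G3Xp2_1, G3Xp3_7, G3Xp5_4, G3Xp6_4, G3Xp6_5, G3Xp8_0, G3Xp8_1,
  G3Xp8_2, G3Xp8_3, G3Xp8_7]⟩)) (.node 524 (.leaf ⟨22113966148, 43754059618095980350668832,
  197936697029798748422924265868716649052992218152400285259235535110925390013612455667040631, 8533,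
  [G3Xp0_4, G3Xp0_5, G3Xp0_6, G3Xp0_8, G3Xp2_8, G3Xp3_1, G3Xp3_2, G3Xp3_8, G3Xp5_4, G3Xp6_4,
  G3Xp6_5, G3Xp7_1, G3Xp7_2, G3Xp7_3, G3Xp7_8]⟩) (.leaf ⟨74257569860, 6354424839170973474790670401,
  248665473188940150075514586300566252431724845172870690279949552445301339228512206938964477, 90393,
  [G3Xp0_4, G3Xp0_5, G3Xp0_6, G3Xp1_0, G3Xp1_2, G3Xp1_3, G3Xp1_4, G3Xp1_5, G3Xp1_6, G3Xp1_7,
  G3Xp1_8, G3Xp3_2, G3Xp3_4, G3Xp3_5, G3Xp3_6, G3Xp3_7, G3Xp3_8, G3Xp5_4, G3Xp6_4, G3Xp6_5, G3Xp7_2,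
  G3Xp7_4, G3Xp7_5, G3Xp7_6, G3Xp7_8, G3Xp8_4, G3Xp8_5, G3Xp8_6]⟩))))) (.node 532 (.node 528 (.node
  526 (.leaf ⟨77613016644, 8903743496927306704624844931,
  63658406303765554909799729616226230187271464727403546300375056154768825052768485025251464, 24874,
  [G3Xp0_3, G3Xp0_7, G3Xp1_3, G3Xp1_7, G3Xp3_7, G3Xp5_4, G3Xp6_4, G3Xp6_5, G3Xp8_0, G3Xp8_2,
  G3Xp8_3, G3Xp8_7]⟩) (.node 527 (.leaf ⟨74257568036, 6354424824890059056091368513,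
  192964420793403499507752431965276764425493194992132403211049318739333141864168628610138509, 90393,
  [G3Xp1_0, G3Xp1_2, G3Xp1_3, G3Xp1_7, G3Xp1_8, G3Xp3_2, G3Xp3_7, G3Xp3_8, G3Xp4_2, G3Xp4_8,
  G3Xp5_2, G3Xp5_4, G3Xp5_8, G3Xp6_2, G3Xp6_4, G3Xp6_5, G3Xp6_8, G3Xp7_2, G3Xp7_8]⟩) (.leaf
  ⟨77613013284, 6355596931008509158272142401,
  63658406303765312851751960291496817187333627360591851292618950120890356293219171158458765, 24873,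
  [G3Xp0_2, G3Xp0_8, G3Xp1_0, G3Xp1_2, G3Xp1_3, G3Xp1_7, G3Xp1_8, G3Xp3_7, G3Xp4_2, G3Xp4_8,
  G3Xp5_2, G3Xp5_4, G3Xp5_8, G3Xp6_2, G3Xp6_4, G3Xp6_5, G3Xp6_8, G3Xp8_2]⟩))) (.node 530 (.node 529
  (.leaf ⟨26207626308, 3870981734773592610242167014,
  67636020860597933076091657900621109432090692693851704782244616630323065745048325362548736, 8554,
  [G3Xp5_4, G3Xp6_4, G3Xp6_5, G3Xp7_3, G3Xp8_0, G3Xp8_2, G3Xp8_3, G3Xp8_4, G3Xp8_5, G3Xp8_6,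
  G3Xp8_7]⟩) (.leaf ⟨26945853538, 43754250035988024233604545,
  67636020903209172793088175498368391001650820620646557768428873118190227218514917866865014, 74081,
  [G3Xp0_1, G3Xp0_2, G3Xp0_4, G3Xp0_5, G3Xp0_6, G3Xp0_8, G3Xp1_2, G3Xp1_4, G3Xp1_5, G3Xp1_6,
  G3Xp1_8, G3Xp2_4, G3Xp2_5, G3Xp2_6, G3Xp2_8, G3Xp5_4, G3Xp6_4, G3Xp6_5, G3Xp7_3, G3Xp8_4, G3Xp8_5,
  G3Xp8_6]⟩)) (.node 531 (.leaf ⟨26207656034, 6426728912652973014430984545,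
  67636020860597931309217632764193489878697014397105234835026734528398411565162911257067526, 8545,
  [G3Xp0_1, G3Xp0_2, G3Xp0_3, G3Xp0_4, G3Xp0_5, G3Xp0_6, G3Xp0_7, G3Xp0_8, G3Xp1_2, G3Xp5_4,
  G3Xp6_4, G3Xp6_5, G3Xp7_3, G3Xp8_2, G3Xp8_3, G3Xp8_4, G3Xp8_5, G3Xp8_6, G3Xp8_7]⟩) (.leaf
  ⟨26207609924, 3870981734773592953839550694,
  68630682510749814586133471618913279247837795593054203438082402642164961553147676013494274, 8550,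
  [G3Xp0_1, G3Xp2_1, G3Xp3_1, G3Xp5_4, G3Xp6_4, G3Xp6_5, G3Xp7_1, G3Xp7_3, G3Xp8_0, G3Xp8_1,
  G3Xp8_2, G3Xp8_3, G3Xp8_4, G3Xp8_5, G3Xp8_6, G3Xp8_7]⟩)))) (.node 535 (.node 533 (.leaf
  ⟨26207606852, 7704602501592726133048311840,
  68630682510749812819259446482485659694444117296306372340627490895922077938547696047620607, 8549,
  [G3Xp0_1, G3Xp0_2, G3Xp0_3, G3Xp0_4, G3Xp0_5, G3Xp0_6, G3Xp0_7, G3Xp0_8, G3Xp2_1, G3Xp3_1,
  G3Xp5_4, G3Xp6_4, G3Xp6_5, G3Xp7_1, G3Xp7_3, G3Xp8_1, G3Xp8_2, G3Xp8_3, G3Xp8_4, G3Xp8_5, G3Xp8_6,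
  G3Xp8_7]⟩) (.node 534 (.leaf ⟨26207607076, 12816096843070801232520154144,
  68630682510749614929368631205090594326444303695198984636924685606044733532047983948726671, 8549,
  [G3Xp0_1, G3Xp0_2, G3Xp0_3, G3Xp0_7, G3Xp0_8, G3Xp2_1, G3Xp3_1, G3Xp4_1, G3Xp4_2, G3Xp4_3,
  G3Xp4_7, G3Xp4_8, G3Xp5_1, G3Xp5_2, G3Xp5_3, G3Xp5_4, G3Xp5_7, G3Xp5_8, G3Xp6_1, G3Xp6_2, G3Xp6_3,
  G3Xp6_4, G3Xp6_5, G3Xp6_7, G3Xp6_8, G3Xp7_1, G3Xp7_3, G3Xp8_1, G3Xp8_2, G3Xp8_3, G3Xp8_7]⟩) (.leaf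
  ⟨70365319748, 16564858822824961262332445001,
  63658406319860658851228241278100637880326758347018951184335478986250702979822079942590601, 90377,
  [G3Xp1_0, G3Xp1_3, G3Xp1_7, G3Xp2_0, G3Xp2_1, G3Xp2_3, G3Xp2_7, G3Xp3_7, G3Xp5_4, G3Xp6_4,
  G3Xp6_5, G3Xp8_0, G3Xp8_1, G3Xp8_2, G3Xp8_3, G3Xp8_7]⟩))) (.node 537 (.node 536 (.leaf
  ⟨26207623460, 12816096843070800752557558849,
  67636020860597733419326817486785870115661561822958047362952551336243121020722095837675917, 8553,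
  [G3Xp0_2, G3Xp0_3, G3Xp0_7, G3Xp0_8, G3Xp1_0, G3Xp1_2, G3Xp1_3, G3Xp1_7, G3Xp1_8, G3Xp4_2,
  G3Xp4_3, G3Xp4_7, G3Xp4_8, G3Xp5_2, G3Xp5_3, G3Xp5_4, G3Xp5_7, G3Xp5_8, G3Xp6_2, G3Xp6_3, G3Xp6_4,
  G3Xp6_5, G3Xp6_7, G3Xp6_8, G3Xp7_3, G3Xp8_2, G3Xp8_3, G3Xp8_7]⟩) (.leaf ⟨26207623236,
  8982476090532473135632220225,
  67636020860597931309217632764193489878697014397103876327668805878307481945959124388807165, 8553,
  [G3Xp0_2, G3Xp0_3, G3Xp0_4, G3Xp0_5, G3Xp0_6, G3Xp0_7, G3Xp0_8, G3Xp1_0, G3Xp1_2, G3Xp1_3,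
  G3Xp1_4, G3Xp1_5, G3Xp1_6, G3Xp1_7, G3Xp1_8, G3Xp5_4, G3Xp6_4, G3Xp6_5, G3Xp7_3, G3Xp8_2, G3Xp8_3,
  G3Xp8_4, G3Xp8_5, G3Xp8_6, G3Xp8_7]⟩)) (.node 538 (.leaf ⟨77587834436,
  8907373927954995836643049603,
  63658406303997142622022412280468459445792374452969668108119672330379904596445578838802570, 18726,
  [G3Xp0_1, G3Xp0_3, G3Xp0_7, G3Xp2_1, G3Xp3_7, G3Xp4_1, G3Xp4_2, G3Xp4_5, G3Xp4_6, G3Xp4_7,
  G3Xp5_1, G3Xp5_2, G3Xp5_6, G3Xp5_7, G3Xp6_1, G3Xp6_2, G3Xp6_7, G3Xp8_0, G3Xp8_1, G3Xp8_2, G3Xp8_3,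
  G3Xp8_7]⟩) (.leaf ⟨77721052257, 5070236253685942297301328170,
  72113030328087840170072841959010838436383299707341719626880214731352998844561319656488961, 18466,
  [G3Xp1_0, G3Xp1_2, G3Xp1_3, G3Xp1_4, G3Xp1_7, G3Xp3_0, G3Xp3_4, G3Xp3_7, G3Xp5_0, G3Xp5_4,
  G3Xp5_6, G3Xp6_0, G3Xp6_4, G3Xp7_0, G3Xp7_4, G3Xp8_0, G3Xp8_2, G3Xp8_4]⟩)))))) (.node 553 (.node
  546 (.node 542 (.node 540 (.leaf ⟨17617279044, 7702184649953312947019415680,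
  67636020889314362372575950329033173268482944691184402102405981744069023717685611080974847, 8517,
  [G3Xp0_3, G3Xp0_4, G3Xp0_5, G3Xp0_6, G3Xp0_7, G3Xp0_8, G3Xp1_2, G3Xp1_3, G3Xp1_4, G3Xp1_5,
  G3Xp1_6, G3Xp1_7, G3Xp2_3, G3Xp2_4, G3Xp2_5, G3Xp2_6, G3Xp2_7, G3Xp5_4, G3Xp6_4, G3Xp6_5, G3Xp7_3,
  G3Xp8_3, G3Xp8_4, G3Xp8_5, G3Xp8_6, G3Xp8_7]⟩) (.node 541 (.leaf ⟨34797148228,
  7431385266359636011885232256,
  63658406331555831250977621420002493999913686873007653886637127853765640823898377147122167, 8581,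
  [G3Xp0_4, G3Xp0_5, G3Xp0_6, G3Xp0_7, G3Xp0_8, G3Xp1_2, G3Xp1_4, G3Xp1_5, G3Xp1_6, G3Xp1_7,
  G3Xp2_4, G3Xp2_5, G3Xp2_6, G3Xp2_7, G3Xp3_7, G3Xp5_4, G3Xp6_4, G3Xp6_5, G3Xp8_4, G3Xp8_5, G3Xp8_6,
  G3Xp8_7]⟩) (.leaf ⟨77746955336, 1240359154862241036639639718,
  120851451187382707589918773282298879096164197574671823081287182673637404468772212413956098, 24870,
  [G3Xp0_1, G3Xp2_1, G3Xp2_4, G3Xp2_5, G3Xp2_6, G3Xp3_0, G3Xp3_1, G3Xp3_4, G3Xp3_5, G3Xp3_6,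
  G3Xp3_7, G3Xp5_4, G3Xp6_4, G3Xp6_5, G3Xp7_0, G3Xp7_1, G3Xp7_4, G3Xp7_5, G3Xp7_6, G3Xp8_0, G3Xp8_1,
  G3Xp8_2, G3Xp8_4, G3Xp8_5, G3Xp8_6]⟩))) (.node 544 (.node 543 (.leaf ⟨77746971720,
  1240359154862240796121471142,
  119856789537230826079876959564006709280417094675469325006986644817696203056088459225595904, 24874,
  [G3Xp1_4, G3Xp1_5, G3Xp1_6, G3Xp2_4, G3Xp2_5, G3Xp2_6, G3Xp3_0, G3Xp3_4, G3Xp3_5, G3Xp3_6,
  G3Xp3_7, G3Xp5_4, G3Xp6_4, G3Xp6_5, G3Xp7_0, G3Xp7_4, G3Xp7_5, G3Xp7_6, G3Xp8_0, G3Xp8_2, G3Xp8_4,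
  G3Xp8_5, G3Xp8_6]⟩) (.leaf ⟨26208671812, 8982476090520088236656952385,
  67636020860597903039233230581251141864276738048212114375697428151173403618146862871085549, 8809,
  [G3Xp0_2, G3Xp0_3, G3Xp0_5, G3Xp0_6, G3Xp0_7, G3Xp0_8, G3Xp1_0, G3Xp1_2, G3Xp1_3, G3Xp1_5,
  G3Xp1_6, G3Xp1_7, G3Xp1_8, G3Xp4_5, G3Xp4_6, G3Xp6_5, G3Xp7_3, G3Xp8_2, G3Xp8_3, G3Xp8_5, G3Xp8_6,
  G3Xp8_7]⟩)) (.node 545 (.leaf ⟨17618327620, 7702184649942053947950990464,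
  67636020887461660674794489019313689493923661816634875877913619976888210052027831197630959, 8773,
  [G3Xp0_3, G3Xp0_5, G3Xp0_6, G3Xp0_7, G3Xp0_8, G3Xp1_2, G3Xp1_3, G3Xp1_5, G3Xp1_6, G3Xp1_7,
  G3Xp2_3, G3Xp2_5, G3Xp2_6, G3Xp2_7, G3Xp4_5, G3Xp4_6, G3Xp6_5, G3Xp7_3, G3Xp8_3, G3Xp8_5, G3Xp8_6,
  G3Xp8_7]⟩) (.leaf ⟨34798196804, 7431385266348377012816807040,
  63658406329703129553196160110283010225354403998458127662144766086584827158240597263778279, 8837,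
  [G3Xp0_5, G3Xp0_6, G3Xp0_7, G3Xp0_8, G3Xp1_2, G3Xp1_5, G3Xp1_6, G3Xp1_7, G3Xp2_5, G3Xp2_6,
  G3Xp2_7, G3Xp3_7, G3Xp4_5, G3Xp4_6, G3Xp6_5, G3Xp8_5, G3Xp8_6, G3Xp8_7]⟩)))) (.node 549 (.node 547
  (.leaf ⟨22115014724, 45001944953349302993945664,
  197936697029798748422924265868616213893253707980454517514832836798127661533154321583440231, 8789,
  [G3Xp0_5, G3Xp0_6, G3Xp0_8, G3Xp2_8, G3Xp3_1, G3Xp3_2, G3Xp3_8, G3Xp4_1, G3Xp4_2, G3Xp4_5,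
  G3Xp4_6, G3Xp4_8, G3Xp6_5, G3Xp7_1, G3Xp7_2, G3Xp7_3, G3Xp7_8]⟩) (.node 548 (.leaf ⟨74258339912,
  1242930483400795603622661187,
  240708202755228852193239685518349815093877783355527968427968644281381856602185676303302755, 90645,
  [G3Xp0_5, G3Xp0_6, G3Xp3_0, G3Xp3_1, G3Xp3_2, G3Xp3_5, G3Xp3_6, G3Xp3_7, G3Xp3_8, G3Xp4_5,
  G3Xp4_6, G3Xp6_5, G3Xp7_2, G3Xp7_5, G3Xp7_6, G3Xp7_8, G3Xp8_5, G3Xp8_6]⟩) (.leaf ⟨26208655428,
  7704602501581467133979886656,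
  68630682510749784549275044299543311680026763950689272277569270275010674233262687662506479, 8805,
  [G3Xp0_1, G3Xp0_2, G3Xp0_3, G3Xp0_5, G3Xp0_6, G3Xp0_7, G3Xp0_8, G3Xp2_1, G3Xp3_1, G3Xp4_1,
  G3Xp4_5, G3Xp4_6, G3Xp6_5, G3Xp7_1, G3Xp7_3, G3Xp8_1, G3Xp8_2, G3Xp8_3, G3Xp8_5, G3Xp8_6,
  G3Xp8_7]⟩))) (.node 551 (.node 550 (.leaf ⟨26208658500, 3870981734765711654491653350,
  68630682510749786316149069435970931233420442247437103375025449691196599191098231126884354, 8806,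
  [G3Xp0_1, G3Xp2_1, G3Xp3_1, G3Xp4_1, G3Xp4_5, G3Xp4_6, G3Xp6_5, G3Xp7_1, G3Xp7_3, G3Xp8_0,
  G3Xp8_1, G3Xp8_2, G3Xp8_3, G3Xp8_5, G3Xp8_6, G3Xp8_7]⟩) (.leaf ⟨26208674884,
  3870981734765711310894269670,
  67636020860597904806107255717678761417670416344959942913351256309689270816959568610852864, 8810,
  [G3Xp4_5, G3Xp4_6, G3Xp6_5, G3Xp7_3, G3Xp8_0, G3Xp8_2, G3Xp8_3, G3Xp8_5, G3Xp8_6, G3Xp8_7]⟩))
  (.node 552 (.leaf ⟨77716546712, 1240359148906230529441989798,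
  65150398778877343027577205057836934254209396123317426754163854685564619327294161541005314, 17446,
  [G3Xp0_1, G3Xp2_1, G3Xp3_0, G3Xp3_1, G3Xp3_7, G3Xp4_0, G3Xp4_1, G3Xp4_5, G3Xp4_6, G3Xp6_5,
  G3Xp7_0, G3Xp7_1, G3Xp8_0, G3Xp8_1, G3Xp8_2]⟩) (.leaf ⟨77716857953, 5070236252893308762884120874,
  88027616726812597475147743198332143465379399246552047492928595296311044882394697605120001, 17442,
  [G3Xp1_0, G3Xp1_2, G3Xp1_3, G3Xp1_4, G3Xp1_5, G3Xp1_7, G3Xp3_0, G3Xp3_4, G3Xp3_5, G3Xp3_7,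
  G3Xp4_5, G3Xp6_0, G3Xp6_4, G3Xp6_5, G3Xp7_0, G3Xp7_4, G3Xp7_5, G3Xp8_0, G3Xp8_2, G3Xp8_4,
  G3Xp8_5]⟩))))) (.node 560 (.node 556 (.node 554 (.leaf ⟨26190846084, 8982476080940931829239712897,
  67636020860597733419326817484099238773054834840459480998510197547472799708255642223378829, 4457,
  [G3Xp0_2, G3Xp0_3, G3Xp0_7, G3Xp0_8, G3Xp1_0, G3Xp1_2, G3Xp1_3, G3Xp1_7, G3Xp1_8, G3Xp5_4,
  G3Xp5_6, G3Xp6_4, G3Xp7_3, G3Xp8_2, G3Xp8_3, G3Xp8_7]⟩) (.node 555 (.leaf ⟨17600501892,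
  7702184641551847842159594624,
  67636020876345450488105721161498971841867719454935656865600485132907194115063500356190607, 4421,
  [G3Xp0_3, G3Xp0_7, G3Xp0_8, G3Xp1_2, G3Xp1_3, G3Xp1_7, G3Xp2_3, G3Xp2_7, G3Xp5_4, G3Xp5_6,
  G3Xp6_4, G3Xp7_3, G3Xp8_3, G3Xp8_7]⟩) (.leaf ⟨22097188996, 47497710816263346062429312,
  197936697029798748422924265870160413676727799870568005877885102884575192606388031953699079, 4437,
  [G3Xp0_8, G3Xp2_8, G3Xp3_1, G3Xp3_2, G3Xp3_8, G3Xp5_1, G3Xp5_2, G3Xp5_4, G3Xp5_6, G3Xp5_8,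
  G3Xp6_1, G3Xp6_2, G3Xp6_4, G3Xp6_8, G3Xp7_1, G3Xp7_2, G3Xp7_3, G3Xp7_8]⟩))) (.node 558 (.node 557
  (.leaf ⟨77730194568, 1240359146464153390982174886,
  64155858547383927323383778533420611470090836145109672928535940427597575758989370623787008, 20778,
  [G3Xp1_4, G3Xp2_4, G3Xp3_0, G3Xp3_4, G3Xp3_7, G3Xp5_0, G3Xp5_4, G3Xp5_6, G3Xp6_0, G3Xp6_4,
  G3Xp7_0, G3Xp8_0, G3Xp8_2, G3Xp8_4]⟩) (.leaf ⟨26190829700, 7704602493191261028188490880,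
  68630682510749614929368631202403962983834653709425756466645924447608942760054071050240399, 4453,
  [G3Xp0_1, G3Xp0_2, G3Xp0_3, G3Xp0_7, G3Xp0_8, G3Xp2_1, G3Xp3_1, G3Xp5_1, G3Xp5_4, G3Xp5_6,
  G3Xp6_1, G3Xp6_4, G3Xp7_1, G3Xp7_3, G3Xp8_1, G3Xp8_2, G3Xp8_3, G3Xp8_7]⟩)) (.node 559 (.leaf
  ⟨77720741016, 1240359149916162781347940519,
  65150398778877343027577205057636074948450872528278545333163894787831312909644182228959234, 18470,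
  [G3Xp0_1, G3Xp2_1, G3Xp3_0, G3Xp3_1, G3Xp3_7, G3Xp4_0, G3Xp4_1, G3Xp4_6, G3Xp5_0, G3Xp5_1,
  G3Xp5_4, G3Xp5_6, G3Xp7_0, G3Xp7_1, G3Xp8_0, G3Xp8_1, G3Xp8_2]⟩) (.leaf ⟨77597025816,
  4957809627579047261126103305,
  63658406303765738661894466567895210564539905036214068515247103512070039392448485720588288, 21034,
  [G3Xp3_7, G3Xp4_5, G3Xp4_6, G3Xp5_6, G3Xp8_0, G3Xp8_2, G3Xp8_4, G3Xp8_5, G3Xp8_6, G3Xp8_7]⟩))))
  (.node 563 (.node 561 (.leaf ⟨26191894660, 8982476082125378531238187169,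
  67636020860597733419326817483998803612933411239533016689539401478446741567788396664848781, 4713,
  [G3Xp0_2, G3Xp0_3, G3Xp0_7, G3Xp0_8, G3Xp1_0, G3Xp1_2, G3Xp1_3, G3Xp1_7, G3Xp1_8, G3Xp4_5,
  G3Xp4_6, G3Xp5_6, G3Xp7_3, G3Xp8_2, G3Xp8_3, G3Xp8_7]⟩) (.node 562 (.leaf ⟨17601550468,
  7702184642736294544158068896,
  67636020876345450488105721161398536681746295854009192556629689063881135974596254797660559, 4677,
  [G3Xp0_3, G3Xp0_7, G3Xp0_8, G3Xp1_2, G3Xp1_3, G3Xp1_7, G3Xp2_3, G3Xp2_7, G3Xp4_5, G3Xp4_6,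
  G3Xp5_6, G3Xp7_3, G3Xp8_3, G3Xp8_7]⟩) (.leaf ⟨34781419652, 7431385259142617609023885472,
  63658406318586919366507392252367857413177038035832444340860835173577753080809020863807879, 4741,
  [G3Xp0_7, G3Xp0_8, G3Xp1_2, G3Xp1_7, G3Xp2_7, G3Xp3_7, G3Xp4_5, G3Xp4_6, G3Xp5_6, G3Xp8_7]⟩)))
  (.node 565 (.node 564 (.leaf ⟨77731226760, 1240359147645222669246372007,
  65150398778877343027577205057654904721208259757075783236469008551417357395852755717980162, 21030,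
  [G3Xp0_1, G3Xp2_1, G3Xp3_0, G3Xp3_1, G3Xp3_7, G3Xp4_0, G3Xp4_1, G3Xp4_5, G3Xp4_6, G3Xp5_0,
  G3Xp5_1, G3Xp5_6, G3Xp6_0, G3Xp6_1, G3Xp7_0, G3Xp7_1, G3Xp8_0, G3Xp8_1, G3Xp8_2]⟩) (.leaf
  ⟨22098237572, 48745634237332817472229536,
  197936697029798748422924265870059978516989289698622238133483672241720800617070640721428743, 4693,
  [G3Xp0_8, G3Xp2_8, G3Xp3_1, G3Xp3_2, G3Xp3_8, G3Xp4_1, G3Xp4_2, G3Xp4_5, G3Xp4_6, G3Xp4_8,
  G3Xp5_1, G3Xp5_2, G3Xp5_6, G3Xp5_8, G3Xp6_1, G3Xp6_2, G3Xp6_8, G3Xp7_1, G3Xp7_2, G3Xp7_3,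
  G3Xp7_8]⟩)) (.node 566 (.leaf ⟨77731243144, 1240359147645222394368465063,
  64155737128725461517535391339350180510425517884834843901155021443289176357919833496485888, 21034,
  [G3Xp3_0, G3Xp3_7, G3Xp4_0, G3Xp4_5, G3Xp4_6, G3Xp5_0, G3Xp5_6, G3Xp6_0, G3Xp7_0, G3Xp8_0,
  G3Xp8_2]⟩) (.leaf ⟨26191878276, 7704602494375707730186965152,
  68630682510749614929368631202303527823716153111773953963511535748248317185626137356796303, 4709,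
  [G3Xp0_1, G3Xp0_2, G3Xp0_3, G3Xp0_7, G3Xp0_8, G3Xp2_1, G3Xp3_1, G3Xp4_1, G3Xp4_5, G3Xp4_6,
  G3Xp5_1, G3Xp5_6, G3Xp6_1, G3Xp7_1, G3Xp7_3, G3Xp8_1, G3Xp8_2, G3Xp8_3, G3Xp8_7]⟩))))))

/-- The table of G3X. -/
def G3XT : Tr :=
  (.node 256 (.node 128 (.node 64 G3XT1 G3XT2) (.node 192 G3XT3 G3XT4)) (.node 384 (.node 320 G3XT5
  G3XT6) (.node 448 G3XT7 (.node 512 G3XT8 G3XT9))))

theorem G3XT1_ok : G3XT1.all (qEntry (G3X).t G3Xie G3Xte) = true := by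
  decide +kernel

theorem G3XT2_ok : G3XT2.all (qEntry (G3X).t G3Xie G3Xte) = true := by
  decide +kernel

theorem G3XT3_ok : G3XT3.all (qEntry (G3X).t G3Xie G3Xte) = true := by
  decide +kernel

theorem G3XT4_ok : G3XT4.all (qEntry (G3X).t G3Xie G3Xte) = true := by
  decide +kernel

theorem G3XT5_ok : G3XT5.all (qEntry (G3X).t G3Xie G3Xte) = true := by
  decide +kernel

theorem G3XT6_ok : G3XT6.all (qEntry (G3X).t G3Xie G3Xte) = true := by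
  decide +kernel

theorem G3XT7_ok : G3XT7.all (qEntry (G3X).t G3Xie G3Xte) = true := by
  decide +kernel

theorem G3XT8_ok : G3XT8.all (qEntry (G3X).t G3Xie G3Xte) = true := by
  decide +kernel

theorem G3XT9_ok : G3XT9.all (qEntry (G3X).t G3Xie G3Xte) = true := by
  decide +kernel

theorem G3XT_ok : G3XT.all (qEntry (G3X).t G3Xie G3Xte) = true :=
  (Tr.all_node (Tr.all_node (Tr.all_node G3XT1_ok G3XT2_ok) (Tr.all_node G3XT3_ok G3XT4_ok))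
  (Tr.all_node (Tr.all_node G3XT5_ok G3XT6_ok) (Tr.all_node G3XT7_ok (Tr.all_node G3XT8_ok
  G3XT9_ok))))

end Pool.Agent.T1Red
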