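import Pool.Agent.Work.MP_392c8e_co_uni.Inst.P1Q1

/-!
# The extension property of the reducer P1
-/

namespace Pool.Agent.T1Red

/-- All patterns. -/
def P1C : List (Nat × List Nat) :=
  P1C1_1 ++ (P1C1_2 ++ (P1C1_3 ++ (P1C1_4 ++ (P1C1_5 ++ (P1C1_6 ++ (P1C1_7 ++ (P1C1_8 ++ (P1C1_9 ++
  (P1C1_10 ++ (P1C1_11))))))))))

theorem P1C_ok : qcheckL (P1) P1ne P1te P1T P1C = true :=
  qcheckL_append P1C1_1_ok ( qcheckL_append P1C1_2_ok ( qcheckL_append P1C1_3_ok ( qcheckL_append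
  P1C1_4_ok ( qcheckL_append P1C1_5_ok ( qcheckL_append P1C1_6_ok ( qcheckL_append P1C1_7_ok (
  qcheckL_append P1C1_8_ok ( qcheckL_append P1C1_9_ok ( qcheckL_append P1C1_10_ok
  (P1C1_11_ok))))))))))

theorem P1C_pts : Red.pts (P1) = P1C.map Prod.fst := by
  decide +kernel

/-- The extension property of P1. -/
theorem P1_ext (co : List (Nat × Nat)) (h : neOK (P1) co = true) : Red.Ext (P1) co :=
  Red.ext_of_quick (by decide +kernel) (by decide +kernel : Red.ie (P1) = P1ie)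
    (by decide +kernel : Red.te (P1) = P1te)
    (by decide +kernel : neP (Red.ne (P1)) P1ne = true) P1T_ok P1C_ok P1C_pts h

end Pool.Agent.T1Red
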