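import Pool.Agent.Work.MP_392c8e_co_uni.Quick
import Pool.Agent.Work.MP_392c8e_co_uni.RedP

/-!
# The table of the reducer P1
-/

namespace Pool.Agent.T1Red

/-- The edges between interior vertices. -/
def P1ie : List (Nat × Nat) :=
  [(9, 10), (9, 15), (9, 16), (10, 11), (10, 18), (11, 12), (11, 20), (12, 13), (12, 21), (13, 14),
  (13, 23), (14, 15), (14, 25), (16, 17), (17, 18), (18, 19), (19, 20), (21, 22), (22, 23), (23,
  24), (24, 25)]

/-- The packed matrix of the pairs with different values. -/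
def P1ne : Nat := 0

/-- The edges with a label. -/
def P1te : List (Nat × Nat) :=
  [(15, 0), (16, 1), (17, 2), (19, 3), (20, 4), (21, 5), (22, 6), (24, 7), (25, 8)]

def P1p0_1 : Nat × Nat × Nat × Nat := (3, 1, 0, 1)
def P1p0_2 : Nat × Nat × Nat × Nat := (5, 1, 0, 2)
def P1p0_3 : Nat × Nat × Nat × Nat := (9, 1, 0, 3)
def P1p0_4 : Nat × Nat × Nat × Nat := (17, 1, 0, 4)
def P1p0_5 : Nat × Nat × Nat × Nat := (33, 1, 0, 5)
def P1p0_6 : Nat × Nat × Nat × Nat := (65, 1, 0, 6)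
def P1p0_7 : Nat × Nat × Nat × Nat := (129, 1, 0, 7)
def P1p0_8 : Nat × Nat × Nat × Nat := (257, 1, 0, 8)
def P1p1_0 : Nat × Nat × Nat × Nat := (3, 2, 1, 0)
def P1p1_2 : Nat × Nat × Nat × Nat := (6, 2, 1, 2)
def P1p1_3 : Nat × Nat × Nat × Nat := (10, 2, 1, 3)
def P1p1_4 : Nat × Nat × Nat × Nat := (18, 2, 1, 4)
def P1p1_5 : Nat × Nat × Nat × Nat := (34, 2, 1, 5)
def P1p1_6 : Nat × Nat × Nat × Nat := (66, 2, 1, 6)
def P1p1_7 : Nat × Nat × Nat × Nat := (130, 2, 1, 7)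
def P1p1_8 : Nat × Nat × Nat × Nat := (258, 2, 1, 8)
def P1p2_0 : Nat × Nat × Nat × Nat := (5, 4, 2, 0)
def P1p2_1 : Nat × Nat × Nat × Nat := (6, 4, 2, 1)
def P1p2_3 : Nat × Nat × Nat × Nat := (12, 4, 2, 3)
def P1p2_4 : Nat × Nat × Nat × Nat := (20, 4, 2, 4)
def P1p2_5 : Nat × Nat × Nat × Nat := (36, 4, 2, 5)
def P1p2_6 : Nat × Nat × Nat × Nat := (68, 4, 2, 6)
def P1p2_7 : Nat × Nat × Nat × Nat := (132, 4, 2, 7)
def P1p2_8 : Nat × Nat × Nat × Nat := (260, 4, 2, 8)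
def P1p3_0 : Nat × Nat × Nat × Nat := (9, 8, 3, 0)
def P1p3_1 : Nat × Nat × Nat × Nat := (10, 8, 3, 1)
def P1p3_2 : Nat × Nat × Nat × Nat := (12, 8, 3, 2)
def P1p3_4 : Nat × Nat × Nat × Nat := (24, 8, 3, 4)
def P1p3_5 : Nat × Nat × Nat × Nat := (40, 8, 3, 5)
def P1p3_6 : Nat × Nat × Nat × Nat := (72, 8, 3, 6)
def P1p3_7 : Nat × Nat × Nat × Nat := (136, 8, 3, 7)
def P1p3_8 : Nat × Nat × Nat × Nat := (264, 8, 3, 8)
def P1p4_0 : Nat × Nat × Nat × Nat := (17, 16, 4, 0)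
def P1p4_1 : Nat × Nat × Nat × Nat := (18, 16, 4, 1)
def P1p4_2 : Nat × Nat × Nat × Nat := (20, 16, 4, 2)
def P1p4_3 : Nat × Nat × Nat × Nat := (24, 16, 4, 3)
def P1p4_5 : Nat × Nat × Nat × Nat := (48, 16, 4, 5)
def P1p4_6 : Nat × Nat × Nat × Nat := (80, 16, 4, 6)
def P1p4_7 : Nat × Nat × Nat × Nat := (144, 16, 4, 7)
def P1p4_8 : Nat × Nat × Nat × Nat := (272, 16, 4, 8)
def P1p5_0 : Nat × Nat × Nat × Nat := (33, 32, 5, 0)
def P1p5_1 : Nat × Nat × Nat × Nat := (34, 32, 5, 1)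
def P1p5_2 : Nat × Nat × Nat × Nat := (36, 32, 5, 2)
def P1p5_3 : Nat × Nat × Nat × Nat := (40, 32, 5, 3)
def P1p5_4 : Nat × Nat × Nat × Nat := (48, 32, 5, 4)
def P1p5_6 : Nat × Nat × Nat × Nat := (96, 32, 5, 6)
def P1p5_7 : Nat × Nat × Nat × Nat := (160, 32, 5, 7)
def P1p5_8 : Nat × Nat × Nat × Nat := (288, 32, 5, 8)
def P1p6_0 : Nat × Nat × Nat × Nat := (65, 64, 6, 0)
def P1p6_1 : Nat × Nat × Nat × Nat := (66, 64, 6, 1)
def P1p6_2 : Nat × Nat × Nat × Nat := (68, 64, 6, 2)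
def P1p6_3 : Nat × Nat × Nat × Nat := (72, 64, 6, 3)
def P1p6_4 : Nat × Nat × Nat × Nat := (80, 64, 6, 4)
def P1p6_5 : Nat × Nat × Nat × Nat := (96, 64, 6, 5)
def P1p6_7 : Nat × Nat × Nat × Nat := (192, 64, 6, 7)
def P1p6_8 : Nat × Nat × Nat × Nat := (320, 64, 6, 8)
def P1p7_0 : Nat × Nat × Nat × Nat := (129, 128, 7, 0)
def P1p7_1 : Nat × Nat × Nat × Nat := (130, 128, 7, 1)
def P1p7_2 : Nat × Nat × Nat × Nat := (132, 128, 7, 2)
def P1p7_3 : Nat × Nat × Nat × Nat := (136, 128, 7, 3)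
def P1p7_4 : Nat × Nat × Nat × Nat := (144, 128, 7, 4)
def P1p7_5 : Nat × Nat × Nat × Nat := (160, 128, 7, 5)
def P1p7_6 : Nat × Nat × Nat × Nat := (192, 128, 7, 6)
def P1p7_8 : Nat × Nat × Nat × Nat := (384, 128, 7, 8)
def P1p8_0 : Nat × Nat × Nat × Nat := (257, 256, 8, 0)
def P1p8_1 : Nat × Nat × Nat × Nat := (258, 256, 8, 1)
def P1p8_2 : Nat × Nat × Nat × Nat := (260, 256, 8, 2)
def P1p8_3 : Nat × Nat × Nat × Nat := (264, 256, 8, 3)
def P1p8_4 : Nat × Nat × Nat × Nat := (272, 256, 8, 4)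
def P1p8_5 : Nat × Nat × Nat × Nat := (288, 256, 8, 5)
def P1p8_6 : Nat × Nat × Nat × Nat := (320, 256, 8, 6)
def P1p8_7 : Nat × Nat × Nat × Nat := (384, 256, 8, 7)

def P1T1 : Tr :=
  .node 32 (.node 16 (.node 8 (.node 4 (.node 2 (.node 1 (.leaf ⟨6515954244,
  5031939780305366322020582,
  51875195214679555917340928267120715359428408995329116604270668637554816030081025, 102809, [P1p1_0,
  P1p2_0, P1p2_1, P1p3_0, P1p3_1, P1p3_2, P1p4_0, P1p4_1, P1p4_2, P1p4_3, P1p5_0, P1p5_6, P1p5_7,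
  P1p5_8, P1p7_6, P1p8_6, P1p8_7]⟩) (.leaf ⟨6516003396, 5031939780303026638585984,
  51875195214679555917340927596643685563034479921886632201645451676449495918313479, 102821, [P1p1_2,
  P1p4_3, P1p5_0, P1p5_6, P1p5_7, P1p5_8, P1p7_6, P1p8_6, P1p8_7]⟩)) (.node 3 (.leaf ⟨6514299460,
  5031939889481335821074464,
  51875195214679555917340926830419299825310381689287726272673484809938178917924895, 102661, [P1p2_1,
  P1p3_4, P1p5_0, P1p5_6, P1p5_7, P1p5_8, P1p7_6, P1p8_6, P1p8_7]⟩) (.leaf ⟨6514053704,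
  10023628868475905758105700,
  51875195214679555917340926831075523761453671631453868492018244711844574716297217, 102665, [P1p1_0,
  P1p1_2, P1p1_4, P1p1_6, P1p1_7, P1p1_8, P1p2_0, P1p2_4, P1p2_6, P1p2_7, P1p2_8, P1p3_0, P1p3_4,
  P1p3_6, P1p3_7, P1p3_8, P1p5_0, P1p5_6, P1p5_7, P1p5_8, P1p7_6, P1p8_6, P1p8_7]⟩))) (.node 6
  (.node 5 (.leaf ⟨6519099972, 8775706524858662308154499,
  51875195214679555917340969836731639622512979208483638514650356608882424338710529, 103001, [P1p1_0,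
  P1p2_0, P1p2_1, P1p3_0, P1p3_4, P1p3_6, P1p3_7, P1p3_8, P1p4_0, P1p4_6, P1p4_7, P1p4_8, P1p5_0,
  P1p5_6, P1p5_7, P1p5_8, P1p7_6, P1p8_6, P1p8_7]⟩) (.leaf ⟨6519149124, 12519473346188728179333344,
  51875195214679555917340969836731639488868443201286045405841784219001439070978527, 103013, [P1p1_0,
  P1p1_2, P1p1_3, P1p1_4, P1p1_6, P1p1_7, P1p1_8, P1p2_0, P1p2_3, P1p2_4, P1p2_6, P1p2_7, P1p2_8,
  P1p3_0, P1p3_4, P1p3_6, P1p3_7, P1p3_8, P1p4_0, P1p4_6, P1p4_7, P1p4_8, P1p5_0, P1p5_6, P1p5_7,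
  P1p5_8, P1p7_6, P1p8_6, P1p8_7]⟩)) (.node 7 (.leaf ⟨6514315844, 5031939926672179191644225,
  51875195214679555917340926830419299780708210878069247010185122742810977326858269, 102665, [P1p1_0,
  P1p1_2, P1p1_3, P1p1_4, P1p3_4, P1p5_0, P1p5_6, P1p5_7, P1p5_8, P1p7_6, P1p8_6, P1p8_7]⟩) (.leaf
  ⟨6544314660, 1288179020924677484909696,
  55580598610242478533760606146330784982533496766168199096786586181636823753162783, 104549, [P1p1_2,
  P1p1_3, P1p1_4, P1p2_3, P1p2_4, P1p4_3, P1p6_5, P1p7_5, P1p7_6, P1p8_5, P1p8_6, P1p8_7]⟩))))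
  (.node 12 (.node 10 (.node 9 (.leaf ⟨6545494296, 1288178907136538027695369,
  55927980178576502529333008587866955716050582596690968816119873786945330189893635, 104581, [P1p2_0,
  P1p2_1, P1p2_3, P1p2_4, P1p3_0, P1p3_1, P1p3_4, P1p4_0, P1p4_1, P1p5_0, P1p5_1, P1p6_0, P1p6_1,
  P1p6_5, P1p7_0, P1p7_1, P1p7_5, P1p7_6, P1p8_0, P1p8_1, P1p8_5, P1p8_6, P1p8_7]⟩) (.leaf
  ⟨6544707876, 1288178909535559656605728,
  55580598610242478533760606721025381415644904137049767154334530988894052711006239, 104517, [P1p2_1,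
  P1p3_1, P1p3_2, P1p4_1, P1p4_2, P1p4_3, P1p6_5, P1p7_5, P1p7_6, P1p8_5, P1p8_6, P1p8_7]⟩)) (.node
  11 (.leaf ⟨6519558724, 7527784251262579922536545,
  51875195214679555917340970219861360252679527281365642430841258527973820466462725, 102985, [P1p1_0,
  P1p1_2, P1p3_0, P1p3_2, P1p3_4, P1p3_6, P1p3_7, P1p3_8, P1p4_0, P1p4_2, P1p4_6, P1p4_7, P1p4_8,
  P1p5_0, P1p5_6, P1p5_7, P1p5_8, P1p7_6, P1p8_6, P1p8_7]⟩) (.leaf ⟨6518493764,
  6279861983114818170717248,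
  51875195214679555917340971176985629248960002810773595212850532886513179369013263, 102917, [P1p2_1,
  P1p4_0, P1p4_1, P1p4_2, P1p4_3, P1p4_6, P1p4_7, P1p4_8, P1p5_0, P1p5_6, P1p5_7, P1p5_8, P1p7_6,
  P1p8_6, P1p8_7]⟩))) (.node 14 (.node 13 (.leaf ⟨6518510148, 6279861983114646372025409,
  51875195214679555917340970985423686596121724621684987820016280810555646237474829, 102921, [P1p1_0,
  P1p1_2, P1p1_3, P1p4_0, P1p4_2, P1p4_3, P1p4_6, P1p4_7, P1p4_8, P1p5_0, P1p5_6, P1p5_7, P1p5_8,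
  P1p7_6, P1p8_6, P1p8_7]⟩) (.leaf ⟨6544265508, 1288179020818062437979267,
  55580598610242478533760606146330785138639733987406433327322521328406160611999769, 104537, [P1p1_0,
  P1p1_3, P1p1_4, P1p2_0, P1p2_1, P1p2_3, P1p2_4, P1p4_3, P1p6_5, P1p7_5, P1p7_6, P1p8_5, P1p8_6,
  P1p8_7]⟩)) (.node 15 (.leaf ⟨6516134472, 8775706601454009553390659,
  51875195214679555917340927596643696156050083327450882767117423608829315873701891, 102789, [P1p2_0,
  P1p2_1, P1p2_3, P1p2_4, P1p2_6, P1p2_7, P1p2_8, P1p4_3, P1p5_0, P1p5_6, P1p5_7, P1p5_8, P1p7_6,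
  P1p8_6, P1p8_7]⟩) (.leaf ⟨6544724260, 1288178946726301021703233,
  55580598610242478533760606529460515759531964225201502128392088403385148981903389, 104521, [P1p1_0,
  P1p1_2, P1p1_3, P1p1_4, P1p3_2, P1p4_2, P1p4_3, P1p6_5, P1p7_5, P1p7_6, P1p8_5, P1p8_6,
  P1p8_7]⟩))))) (.node 24 (.node 20 (.node 18 (.node 17 (.leaf ⟨6545314084,
  1288179049001879427324068,
  55580598610242478533760605380116629064945231686632876995048329822198334781128721, 104601, [P1p1_0,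
  P1p1_4, P1p2_0, P1p2_1, P1p2_4, P1p3_0, P1p3_1, P1p3_2, P1p3_4, P1p6_5, P1p7_5, P1p7_6, P1p8_5,
  P1p8_6, P1p8_7]⟩) (.leaf ⟨6545363236, 1288179013043378137011328,
  55580598610242478533760605380106398397377678144967216970683380694291406394490903, 104613, [P1p1_2,
  P1p1_4, P1p2_4, P1p3_4, P1p6_5, P1p7_5, P1p7_6, P1p8_5, P1p8_6, P1p8_7]⟩)) (.node 19 (.leaf
  ⟨6545510680, 1288178944327175239834889,
  55696392466353819865618073116026584289207768941674686795397529477774922349608961, 104585, [P1p1_0,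
  P1p1_2, P1p1_3, P1p1_4, P1p2_0, P1p2_3, P1p2_4, P1p3_0, P1p3_4, P1p4_0, P1p5_0, P1p6_0, P1p6_5,
  P1p7_0, P1p7_5, P1p7_6, P1p8_0, P1p8_5, P1p8_6, P1p8_7]⟩) (.leaf ⟨6594646308,
  1295412450444580845982848,
  44464388423553737004520966110065053530124410984049419796966420983804095295389823, 107621, [P1p1_2,
  P1p1_3, P1p1_4, P1p1_5, P1p1_6, P1p2_3, P1p2_4, P1p2_5, P1p2_6, P1p4_3, P1p5_6, P1p8_7]⟩))) (.node
  22 (.node 21 (.leaf ⟨6595825944, 1288100508474118458314918,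
  44464388423553737004520965631187963466642479535195433926073891348595185419485187, 107653, [P1p2_0,
  P1p2_1, P1p2_3, P1p2_4, P1p3_0, P1p3_1, P1p3_4, P1p4_0, P1p4_1, P1p5_6, P1p8_7]⟩) (.leaf
  ⟨6595039524, 1291756424964354702673952,
  44464388423553737004520966684759647822331611690306257755249475315577522325684351, 107589, [P1p2_1,
  P1p3_1, P1p3_2, P1p4_1, P1p4_2, P1p4_3, P1p5_6, P1p8_7]⟩)) (.node 23 (.leaf ⟨6510711396,
  5031939965969892999468163,
  51875195214679555917491578038292966592698827755438032950984065979510391089659929, 102489, [P1p1_0,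
  P1p1_3, P1p1_4, P1p2_0, P1p2_1, P1p2_3, P1p2_4, P1p4_3, P1p5_0, P1p5_3, P1p5_4, P1p5_6, P1p5_7,
  P1p5_8, P1p7_6, P1p8_6, P1p8_7]⟩) (.leaf ⟨6511170148, 5031939891878133730675777,
  51875195214679555917516686828364243936646401150925932417718042477393135504457757, 102473, [P1p1_0,
  P1p1_2, P1p1_3, P1p1_4, P1p3_2, P1p4_2, P1p4_3, P1p5_0, P1p5_2, P1p5_3, P1p5_4, P1p5_6, P1p5_7,
  P1p5_8, P1p7_6, P1p8_6, P1p8_7]⟩)))) (.node 28 (.node 26 (.node 25 (.leaf ⟨6511759972,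
  5031939994153709987731620,
  51875195214679555917441360458195717072893639139278815287381055627495053169000465, 102553, [P1p1_0,
  P1p1_4, P1p2_0, P1p2_1, P1p2_4, P1p3_0, P1p3_1, P1p3_2, P1p3_4, P1p5_0, P1p5_4, P1p5_6, P1p5_7,
  P1p5_8, P1p7_6, P1p8_6, P1p8_7]⟩) (.leaf ⟨6511809124, 5031939958195211919725696,
  51875195214679555917441360458185486405326085597613155263016106499588124782362647, 102565, [P1p1_2,
  P1p1_4, P1p2_4, P1p3_4, P1p5_0, P1p5_4, P1p5_6, P1p5_7, P1p5_8, P1p7_6, P1p8_6, P1p8_7]⟩)) (.node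
  27 (.leaf ⟨6595842328, 1288100545664859823412423,
  44464388423553737004520965439623097810529539623347168900131448762523331736961025, 107657, [P1p1_0,
  P1p1_2, P1p1_3, P1p1_4, P1p2_0, P1p2_3, P1p2_4, P1p3_0, P1p3_4, P1p4_0, P1p5_6, P1p8_7]⟩) (.leaf
  ⟨4603351620, 8467316128483452856074470,
  29643455087801724053815321067599727665667913627529557784105026759607201264828417, 67993, [P1p1_0,
  P1p2_0, P1p2_1, P1p3_0, P1p3_1, P1p3_2, P1p4_0, P1p4_1, P1p4_2, P1p4_3, P1p5_0, P1p5_6, P1p5_8,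
  P1p6_0, P1p6_8, P1p7_0, P1p7_8]⟩))) (.node 30 (.node 29 (.leaf ⟨4603400772,
  8467316128481116393865344,
  29643455087801724053815320397122697869273984554087073381479809798501881153060871, 68005, [P1p1_2,
  P1p4_3, P1p5_0, P1p5_6, P1p5_8, P1p6_0, P1p6_8, P1p7_0, P1p7_8]⟩) (.leaf ⟨4601696836,
  8467316237659425576353824,
  29643455087801724053815319630898312131549886321488167452507842931990564152672287, 67845, [P1p2_1,
  P1p3_4, P1p5_0, P1p5_6, P1p5_8, P1p6_0, P1p6_8, P1p7_0, P1p7_8]⟩)) (.node 31 (.leaf ⟨4584675464,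
  1218371885717332000051300,
  29643453314025867002445639558064209492890368681799451495788792925428915666747393, 66825, [P1p1_0,
  P1p1_2, P1p1_4, P1p2_0, P1p2_4, P1p3_0, P1p3_4, P1p5_4, P1p6_4, P1p6_5, P1p7_8]⟩) (.leaf
  ⟨4606497348, 12097749536212394398846083,
  29643455087801724053815353442097100435364027951514541461259895674370402373599233, 68185, [P1p1_0,
  P1p2_0, P1p2_1, P1p3_0, P1p3_4, P1p3_5, P1p3_6, P1p3_8, P1p4_0, P1p4_5, P1p4_6, P1p4_8, P1p5_0,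
  P1p5_6, P1p5_8, P1p6_0, P1p6_8, P1p7_0, P1p7_8]⟩)))))) (.node 48 (.node 40 (.node 36 (.node 34
  (.node 33 (.leaf ⟨4606546500, 15728183020718102605437152,
  29643455087801724053815353442097100301686824338632039840615386983248319752438143, 68197, [P1p1_0,
  P1p1_2, P1p1_3, P1p1_4, P1p1_5, P1p1_6, P1p1_8, P1p2_0, P1p2_3, P1p2_4, P1p2_5, P1p2_6, P1p2_8,
  P1p3_0, P1p3_4, P1p3_5, P1p3_6, P1p3_8, P1p4_0, P1p4_5, P1p4_6, P1p4_8, P1p5_0, P1p5_6, P1p5_8,
  P1p6_0, P1p6_8, P1p7_0, P1p7_8]⟩) (.leaf ⟨4601713220, 8467316274850268946923585,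
  29643455087801724053815319630898312086947715510269688190019480864863362561605661, 67849, [P1p1_0,
  P1p1_2, P1p1_3, P1p1_4, P1p3_4, P1p5_0, P1p5_6, P1p5_8, P1p6_0, P1p6_8, P1p7_0, P1p7_8]⟩)) (.node
  35 (.leaf ⟨4589721732, 1217191187065822305651843,
  29643453314025860420326976645472392791360603641153798889669992418437803183964161, 67161, [P1p1_0,
  P1p2_0, P1p2_1, P1p3_4, P1p6_5, P1p7_8]⟩) (.leaf ⟨4849815844, 12439057110648887375500416,
  29643453326966634820559284513136956988300124100288526805570273603284716528075263, 66661, [P1p1_2,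
  P1p1_3, P1p1_4, P1p1_5, P1p1_6, P1p1_7, P1p1_8, P1p2_3, P1p2_4, P1p2_5, P1p2_6, P1p2_7, P1p2_8,
  P1p4_3, P1p6_5, P1p7_8]⟩))) (.node 38 (.node 37 (.leaf ⟨4850995480, 4951516659812906969338022,
  29643453326966634820559284034259858361201365992935620537618182066138949649367043, 66693, [P1p2_0,
  P1p2_1, P1p2_3, P1p2_4, P1p3_0, P1p3_1, P1p3_4, P1p4_0, P1p4_1, P1p6_5, P1p7_8]⟩) (.leaf
  ⟨4850209060, 8695286830735902222944288,
  29643453326966634820559285087831542716890498148046444366793766033122935848174079, 66629, [P1p2_1,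
  P1p3_1, P1p3_2, P1p4_1, P1p4_2, P1p4_3, P1p6_5, P1p7_8]⟩)) (.node 39 (.leaf ⟨4590180484,
  1214829966851039039655041,
  29643453314025862065856642756749712290285526370798305862262955540478773384445957, 67145, [P1p1_0,
  P1p1_2, P1p3_2, P1p3_4, P1p4_2, P1p5_2, P1p6_2, P1p6_5, P1p7_8]⟩) (.leaf ⟨4589115524,
  1213649345957163460267136,
  29643453314025866179680808034899167716788891598088052255162528616052694482550799, 67077, [P1p2_1,
  P1p4_1, P1p4_2, P1p4_3, P1p5_1, P1p5_2, P1p5_3, P1p6_1, P1p6_2, P1p6_3, P1p6_5, P1p7_8]⟩))))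
  (.node 44 (.node 42 (.node 41 (.leaf ⟨4589131908, 1214829937577641461746817,
  29643453314025865356915974979263430624938350551477777038128139011853351654260749, 67081, [P1p1_0,
  P1p1_2, P1p1_3, P1p4_2, P1p4_3, P1p5_2, P1p5_3, P1p6_2, P1p6_3, P1p6_5, P1p7_8]⟩) (.leaf
  ⟨4581331492, 4836892164585020448773251,
  29643511627770528417484196448661280244980315711351867753566881776518656905707577, 66649, [P1p1_0,
  P1p1_3, P1p1_4, P1p1_5, P1p2_0, P1p2_1, P1p2_3, P1p2_4, P1p2_5, P1p4_3, P1p6_0, P1p6_5, P1p6_8,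
  P1p7_0, P1p7_5, P1p7_8]⟩)) (.node 43 (.leaf ⟨4603531848, 12097749612807741644082243,
  29643455087801724053815320397122706321385381793487092267030343594325546779738115, 67973, [P1p2_0,
  P1p2_1, P1p2_3, P1p2_4, P1p2_5, P1p2_6, P1p2_8, P1p4_3, P1p5_0, P1p5_6, P1p5_8, P1p6_0, P1p6_8,
  P1p7_0, P1p7_8]⟩) (.leaf ⟨4581790244, 4836889784650251966221377,
  29643511627770528417484196831791010152237810560425525994662636139312260501471293, 66633, [P1p1_0,
  P1p1_2, P1p1_3, P1p1_4, P1p1_5, P1p3_2, P1p4_2, P1p4_3, P1p6_0, P1p6_5, P1p6_8, P1p7_0, P1p7_5,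
  P1p7_8]⟩))) (.node 46 (.node 45 (.leaf ⟨4582380068, 4836893345690342043916452,
  29643511627770528417484195682493892223680402303960829335939611326939820916211761, 66713, [P1p1_0,
  P1p1_4, P1p1_5, P1p2_0, P1p2_1, P1p2_4, P1p2_5, P1p3_0, P1p3_1, P1p3_2, P1p3_4, P1p3_5, P1p6_0,
  P1p6_5, P1p6_8, P1p7_0, P1p7_5, P1p7_8]⟩) (.leaf ⟨4582429220, 4836892156810339369030784,
  29643511627770528417484195682483661556112848762295169311574662199032892529573943, 66725, [P1p1_2,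
  P1p1_4, P1p1_5, P1p2_4, P1p2_5, P1p3_4, P1p3_5, P1p6_0, P1p6_5, P1p6_8, P1p7_0, P1p7_5, P1p7_8]⟩))
  (.node 47 (.leaf ⟨4851011864, 4951516697003648334435527,
  29643453326966634820559283842694992705088426081087355511675739480067095966842881, 66697, [P1p1_0,
  P1p1_2, P1p1_3, P1p1_4, P1p2_0, P1p2_3, P1p2_4, P1p3_0, P1p3_4, P1p4_0, P1p6_5, P1p7_8]⟩) (.leaf
  ⟨4704016452, 1221151437640207768649958,
  40759663500714588785931903254969503719043991466992161119225743972059588937646177, 74137, [P1p0_5,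
  P1p0_6, P1p1_0, P1p1_5, P1p1_6, P1p2_0, P1p2_1, P1p2_5, P1p2_6, P1p3_0, P1p3_1, P1p3_2, P1p3_5,
  P1p3_6, P1p4_0, P1p4_1, P1p4_2, P1p4_3, P1p4_5, P1p4_6, P1p6_5, P1p7_5, P1p7_6, P1p7_8, P1p8_5,
  P1p8_6]⟩))))) (.node 56 (.node 52 (.node 50 (.node 49 (.leaf ⟨4704065604,
  1213839609455648032653440,
  40759663500714588785931893389378922429228938898695229971539771653148347660763239, 74149, [P1p0_5,
  P1p0_6, P1p1_2, P1p4_3, P1p6_5, P1p7_5, P1p7_6, P1p7_8, P1p8_5, P1p8_6]⟩) (.leaf ⟨4702361668,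
  1213839718633957215141920,
  40759663500714588785931892623154536691504840666096324042567804786637030660374655, 73989, [P1p0_5,
  P1p0_6, P1p2_1, P1p3_4, P1p6_5, P1p7_5, P1p7_6, P1p7_8, P1p8_5, P1p8_6]⟩)) (.node 51 (.leaf
  ⟨4702115912, 1218714303404200233898084,
  40759663500714588785931892623296304201325561677430758836825167988850597779538017, 73993, [P1p0_5,
  P1p0_6, P1p1_0, P1p1_2, P1p1_4, P1p1_5, P1p1_6, P1p2_0, P1p2_4, P1p2_5, P1p2_6, P1p3_0, P1p3_4,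
  P1p3_5, P1p3_6, P1p6_5, P1p7_5, P1p7_6, P1p7_8, P1p8_5, P1p8_6]⟩) (.leaf ⟨4707162180,
  1217495558343038513515651,
  40759663500714588785931892623154538854710132816810895080366704537906993340350561, 74329, [P1p0_5,
  P1p0_6, P1p1_0, P1p1_5, P1p1_6, P1p2_0, P1p2_1, P1p2_5, P1p2_6, P1p3_4, P1p6_5, P1p7_5, P1p7_6,
  P1p7_8, P1p8_5, P1p8_6]⟩))) (.node 54 (.node 53 (.leaf ⟨4707211332, 1213839755822635922200800,
  40759663500714588785931892623154536557707855832369157878524862990964128892321919, 74341, [P1p0_5,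
  P1p0_6, P1p1_2, P1p1_3, P1p1_4, P1p2_3, P1p2_4, P1p3_4, P1p6_5, P1p7_5, P1p7_6, P1p7_8, P1p8_5,
  P1p8_6]⟩) (.leaf ⟨4702378052, 1215058393855171131342913,
  40759663500714588785931892623154536646902670353338343199422895058437476674437245, 73993, [P1p0_5,
  P1p0_6, P1p1_0, P1p1_2, P1p1_3, P1p1_4, P1p1_5, P1p1_6, P1p3_4, P1p6_5, P1p7_5, P1p7_6, P1p7_8,
  P1p8_5, P1p8_6]⟩)) (.node 55 (.leaf ⟨4707620932, 1215058245272667311835233,
  40759663500714588785931893006284267334706323665247834724637954466908189824909413, 74313, [P1p0_5,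
  P1p0_6, P1p1_0, P1p1_2, P1p1_5, P1p1_6, P1p3_2, P1p3_4, P1p4_2, P1p6_5, P1p7_5, P1p7_6, P1p7_8,
  P1p8_5, P1p8_6]⟩) (.leaf ⟨4706555972, 1213839575680987289584704,
  40759663500714588785931893964064750566148374106468743577193387562345414834126959, 74245, [P1p0_5,
  P1p0_6, P1p2_1, P1p4_1, P1p4_2, P1p4_3, P1p6_5, P1p7_5, P1p7_6, P1p7_8, P1p8_5, P1p8_6]⟩))))
  (.node 60 (.node 58 (.node 57 (.leaf ⟨4706572356, 1215058213711186036524097,
  40759663500714588785931893772502807913310096415840634603702587825315529307717741, 74249, [P1p0_5,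
  P1p0_6, P1p1_0, P1p1_2, P1p1_3, P1p1_5, P1p1_6, P1p4_2, P1p4_3, P1p6_5, P1p7_5, P1p7_6, P1p7_8,
  P1p8_5, P1p8_6]⟩) (.leaf ⟨4698773604, 1217495932141807585275011,
  43538716047386780750511116752684994510223919368732482239416425644170500348838009, 73817, [P1p0_3,
  P1p0_4, P1p0_5, P1p0_6, P1p1_0, P1p1_3, P1p1_4, P1p1_5, P1p1_6, P1p2_0, P1p2_1, P1p2_3, P1p2_4,
  P1p2_5, P1p2_6, P1p4_3, P1p5_3, P1p5_4, P1p6_3, P1p6_4, P1p6_5, P1p7_3, P1p7_4, P1p7_5, P1p7_6,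
  P1p7_8, P1p8_3, P1p8_4, P1p8_5, P1p8_6]⟩)) (.node 59 (.leaf ⟨4704196680,
  1217495634938385758751811,
  40759663500714588785931893389378925172262453028323964377299803751488935077544035, 74117, [P1p0_5,
  P1p0_6, P1p2_0, P1p2_1, P1p2_3, P1p2_4, P1p2_5, P1p2_6, P1p4_3, P1p6_5, P1p7_5, P1p7_6, P1p7_8,
  P1p8_5, P1p8_6]⟩) (.leaf ⟨4699232356, 1215058582207010527519809,
  44001891471832146077940987696365734531671690926699670262774488874243011632693373, 73801, [P1p0_2,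
  P1p0_3, P1p0_4, P1p0_5, P1p0_6, P1p1_0, P1p1_2, P1p1_3, P1p1_4, P1p1_5, P1p1_6, P1p3_2, P1p4_2,
  P1p4_3, P1p5_2, P1p5_3, P1p5_4, P1p6_2, P1p6_3, P1p6_4, P1p6_5, P1p7_2, P1p7_3, P1p7_4, P1p7_5,
  P1p7_6, P1p7_8, P1p8_2, P1p8_3, P1p8_4, P1p8_5, P1p8_6]⟩))) (.node 62 (.node 61 (.leaf
  ⟨4699822180, 1218714591600594604372132,
  42612365198496050095651374865509119510793688775433777846663128724550289569349745, 73881, [P1p0_4,
  P1p0_5, P1p0_6, P1p1_0, P1p1_4, P1p1_5, P1p1_6, P1p2_0, P1p2_1, P1p2_4, P1p2_5, P1p2_6, P1p3_0,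
  P1p3_1, P1p3_2, P1p3_4, P1p3_5, P1p3_6, P1p5_4, P1p6_4, P1p6_5, P1p7_4, P1p7_5, P1p7_6, P1p7_8,
  P1p8_4, P1p8_5, P1p8_6]⟩) (.leaf ⟨4699871332, 1213839895434224370688128,
  42612365198496050095651374865358582545138161888995833979092525951272589731037303, 73893, [P1p0_4,
  P1p0_5, P1p0_6, P1p1_2, P1p1_4, P1p2_4, P1p3_4, P1p5_4, P1p6_4, P1p6_5, P1p7_4, P1p7_5, P1p7_6,
  P1p7_8, P1p8_4, P1p8_5, P1p8_6]⟩)) (.node 63 (.leaf ⟨4905343044, 4951438189167698014175462,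
  29643453324378624747726009606910884716079582348223484776158777797159932313731073, 70041, [P1p1_0,
  P1p2_0, P1p2_1, P1p3_0, P1p3_1, P1p3_2, P1p4_0, P1p4_1, P1p4_2, P1p4_3, P1p5_6, P1p5_7, P1p5_8,
  P1p6_7, P1p6_8, P1p7_8]⟩) (.leaf ⟨4905392196, 4951438189165355005608064,
  29643453324378624747726008936433854919685653274781000373533560836054607906996231, 70053, [P1p1_2,
  P1p4_3, P1p5_6, P1p5_7, P1p5_8, P1p6_7, P1p6_8, P1p7_8]⟩))))))

def P1T2 : Tr :=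
  .node 96 (.node 80 (.node 72 (.node 68 (.node 66 (.node 65 (.leaf ⟨4903688260,
  4951438298343664188096544,
  29643453324378624747726008170209469181961555042182094444561593969543290906607647, 69893, [P1p2_1,
  P1p3_4, P1p5_6, P1p5_7, P1p5_8, P1p6_7, P1p6_8, P1p7_8]⟩) (.leaf ⟨4903442504,
  4951438330992429353930852,
  29643453324378624747726008170210930393694302708744245395613303526386086567804929, 69897, [P1p1_0,
  P1p1_2, P1p1_4, P1p2_0, P1p2_4, P1p3_0, P1p3_4, P1p5_6, P1p5_7, P1p5_8, P1p6_7, P1p6_8, P1p7_8]⟩))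
  (.node 67 (.leaf ⟨4908488772, 4951438223961637070802051,
  29643453324378624747726008170209469204262640528271935383095603245329451659034625, 70233, [P1p1_0,
  P1p2_0, P1p2_1, P1p3_4, P1p5_6, P1p5_7, P1p5_8, P1p6_7, P1p6_8, P1p7_8]⟩) (.leaf ⟨4908537924,
  4951438335532342895155424,
  29643453324378624747726008170209469048164570208454928280518652173870389138554911, 70245, [P1p1_2,
  P1p1_3, P1p1_4, P1p2_3, P1p2_4, P1p3_4, P1p5_6, P1p5_7, P1p5_8, P1p6_7, P1p6_8, P1p7_8]⟩))) (.node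
  70 (.node 69 (.leaf ⟨4903704644, 4951438335534508632408129,
  29643453324378624747726008170209469137359384230963615182073231902416089315541021, 69897, [P1p1_0,
  P1p1_2, P1p1_3, P1p1_4, P1p3_4, P1p5_6, P1p5_7, P1p5_8, P1p6_7, P1p6_8, P1p7_8]⟩) (.leaf
  ⟨4598157860, 6047027398964601582457984,
  29643455087801724053815320397122698404500036220243255906296032318010648734203935, 67685, [P1p1_2,
  P1p1_3, P1p1_4, P1p2_3, P1p2_4, P1p4_3, P1p5_0, P1p5_6, P1p5_8, P1p6_0, P1p6_8, P1p7_0, P1p7_8]⟩))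
  (.node 71 (.leaf ⟨4599337496, 6047027285176386963248327,
  29643458621549774326683113228503740436945645209850735998951564967627570077171715, 67717, [P1p2_0,
  P1p2_1, P1p2_3, P1p2_4, P1p3_0, P1p3_1, P1p3_4, P1p4_0, P1p4_1, P1p5_0, P1p5_1, P1p5_6, P1p5_8,
  P1p6_0, P1p6_1, P1p6_8, P1p7_0, P1p7_1, P1p7_8]⟩) (.leaf ⟨4901329048, 12438978598198328726556838,
  29643453324378624747726054433124524999439595138677668755308659523855772981329923, 69765, [P1p2_0,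
  P1p2_1, P1p2_3, P1p2_4, P1p2_5, P1p2_6, P1p2_7, P1p2_8, P1p3_0, P1p3_1, P1p3_4, P1p3_5, P1p3_6,
  P1p3_7, P1p3_8, P1p4_0, P1p4_1, P1p4_5, P1p4_6, P1p4_7, P1p4_8, P1p5_6, P1p5_7, P1p5_8, P1p6_7,
  P1p6_8, P1p7_8]⟩)))) (.node 76 (.node 74 (.node 73 (.leaf ⟨4598551076, 6047027287575483754088480,
  29643455087801724053815320971817294837611443591124823963843977125267877692047391, 67653, [P1p2_1,
  P1p3_1, P1p3_2, P1p4_1, P1p4_2, P1p4_3, P1p5_0, P1p5_6, P1p5_8, P1p6_0, P1p6_8, P1p7_0, P1p7_8]⟩)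
  (.leaf ⟨4908947524, 4951438186952004812900449,
  29643453324378624747726008553339199825163037542873106707288291310886802466013189, 70217, [P1p1_0,
  P1p1_2, P1p3_2, P1p3_4, P1p4_2, P1p5_6, P1p5_7, P1p5_8, P1p6_7, P1p6_8, P1p7_8]⟩)) (.node 75
  (.leaf ⟨4907882564, 4951438155390694262539328,
  29643453324378624747726009511119683056605088482554513979187176745251675080359951, 70149, [P1p2_1,
  P1p4_1, P1p4_2, P1p4_3, P1p5_6, P1p5_7, P1p5_8, P1p6_7, P1p6_8, P1p7_8]⟩) (.leaf ⟨4907898948,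
  4951438155390523537589313,
  29643453324378624747726009319557740403766810293465906586352924669294141948821517, 70153, [P1p1_0,
  P1p1_2, P1p1_3, P1p4_2, P1p4_3, P1p5_6, P1p5_7, P1p5_8, P1p6_7, P1p6_8, P1p7_8]⟩))) (.node 78
  (.node 77 (.leaf ⟨4598108708, 6047027398857983314302083,
  29643455087801724053815320397122698560606273441481490136831967464779985593040921, 67673, [P1p1_0,
  P1p1_3, P1p1_4, P1p2_0, P1p2_1, P1p2_3, P1p2_4, P1p4_3, P1p5_0, P1p5_6, P1p5_8, P1p6_0, P1p6_8,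
  P1p7_0, P1p7_8]⟩) (.leaf ⟨4905523272, 4951438300556984316038211,
  29643453324378624747726008936433855521814961238245503099372154797839040995065859, 70021, [P1p2_0,
  P1p2_1, P1p2_3, P1p2_4, P1p4_3, P1p5_6, P1p5_7, P1p5_8, P1p6_7, P1p6_8, P1p7_8]⟩)) (.node 79
  (.leaf ⟨4598567460, 6047027324766224045444161,
  29643455087801724053815320780252429181498503679276558937901534539758973962944541, 67657, [P1p1_0,
  P1p1_2, P1p1_3, P1p1_4, P1p3_2, P1p4_2, P1p4_3, P1p5_0, P1p5_6, P1p5_8, P1p6_0, P1p6_8, P1p7_0,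
  P1p7_8]⟩) (.leaf ⟨4599157284, 6047027427041799228856484,
  29643455087801724053815319630908542486911771140707933804557775958572159762169873, 67737, [P1p1_0,
  P1p1_4, P1p2_0, P1p2_1, P1p2_4, P1p3_0, P1p3_1, P1p3_2, P1p3_4, P1p5_0, P1p5_6, P1p5_8, P1p6_0,
  P1p6_8, P1p7_0, P1p7_8]⟩))))) (.node 88 (.node 84 (.node 82 (.node 81 (.leaf ⟨4599206436,
  6047027391083302234559616,
  29643455087801724053815319630898311819344217599042273780192826830665231375532055, 67749, [P1p1_2,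
  P1p1_4, P1p2_4, P1p3_4, P1p5_0, P1p5_6, P1p5_8, P1p6_0, P1p6_8, P1p7_0, P1p7_8]⟩) (.leaf
  ⟨4599353880, 6047027322367092894864583,
  29643455087801724053815319726680744825809371524165735108725950572214099426476033, 67721, [P1p1_0,
  P1p1_2, P1p1_3, P1p1_4, P1p2_0, P1p2_3, P1p2_4, P1p3_0, P1p3_4, P1p4_0, P1p5_0, P1p5_6, P1p5_8,
  P1p6_0, P1p6_8, P1p7_0, P1p7_8]⟩)) (.node 83 (.leaf ⟨9765540132, 2455669994585244508034176,
  29759247183077975741034335721237801949637896219988050313033529516673490042224671, 153701, [P1p1_2,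
  P1p1_3, P1p1_4, P1p2_3, P1p2_4, P1p4_3, P1p6_5, P1p7_0, P1p7_8, P1p8_0]⟩) (.leaf ⟨9766719768,
  2455669880796995525906598,
  29759247183131896868515885818060739715752604983388570566551177793429291252514819, 153733, [P1p2_0,
  P1p2_1, P1p2_3, P1p2_4, P1p3_0, P1p3_1, P1p3_4, P1p4_0, P1p4_1, P1p5_0, P1p5_1, P1p6_0, P1p6_1,
  P1p6_5, P1p7_0, P1p7_8, P1p8_0]⟩))) (.node 86 (.node 85 (.leaf ⟨9765933348,
  2455669883196126676486176,
  29759247183077975741034336295932398382749303590869618370581474323930719000068127, 153669, [P1p2_1,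
  P1p3_1, P1p3_2, P1p4_1, P1p4_2, P1p4_3, P1p6_5, P1p7_0, P1p7_8, P1p8_0]⟩) (.leaf ⟨9765490980,
  2455669994478626239878275,
  29759247183077975741034335721237802105744133441226284543569464663442826901061657, 153689, [P1p1_0,
  P1p1_3, P1p1_4, P1p2_0, P1p2_1, P1p2_3, P1p2_4, P1p4_3, P1p6_5, P1p7_0, P1p7_8, P1p8_0]⟩)) (.node
  87 (.leaf ⟨9765949732, 2455669920386866968923201,
  29759247183077975741034336104367532726636363679021353344639031738421815270965277, 153673, [P1p1_0,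
  P1p1_2, P1p1_3, P1p1_4, P1p3_2, P1p4_2, P1p4_3, P1p6_5, P1p7_0, P1p7_8, P1p8_0]⟩) (.leaf
  ⟨9766539556, 2455670022662443229223076,
  29759247183077975741034334955023646032049631140452728211295273157235001070190609, 153753, [P1p1_0,
  P1p1_4, P1p2_0, P1p2_1, P1p2_4, P1p3_0, P1p3_1, P1p3_2, P1p3_4, P1p6_5, P1p7_0, P1p7_8,
  P1p8_0]⟩)))) (.node 92 (.node 90 (.node 89 (.leaf ⟨9766588708, 2455669986703945160135808,
  29759247183077975741034334955013415364482077598787068186930324029328072683552791, 153765, [P1p1_2,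
  P1p1_4, P1p2_4, P1p3_4, P1p6_5, P1p7_0, P1p7_8, P1p8_0]⟩) (.leaf ⟨9766736152,
  2455669917987736891004103,
  29759247183077976152416751482832745590453362952671363427563516534716370606161921, 153737, [P1p1_0,
  P1p1_2, P1p1_3, P1p1_4, P1p2_0, P1p2_3, P1p2_4, P1p3_0, P1p3_4, P1p4_0, P1p5_0, P1p6_0, P1p6_5,
  P1p7_0, P1p7_8, P1p8_0]⟩)) (.node 91 (.leaf ⟨9815871780, 13686902101494543177421952,
  29759247180489966079583476576571619067098760621734682830598196105071664419111423, 156773, [P1p1_0,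
  P1p1_2, P1p1_3, P1p1_4, P1p1_5, P1p1_6, P1p1_7, P1p1_8, P1p2_0, P1p2_3, P1p2_4, P1p2_5, P1p2_6,
  P1p2_7, P1p2_8, P1p4_3, P1p5_0, P1p5_6, P1p5_7, P1p5_8, P1p6_0, P1p6_7, P1p6_8, P1p7_0, P1p7_8,
  P1p8_0]⟩) (.leaf ⟨9817051416, 6199361650658549685031078,
  29759247180489966079583476097694520417698917028291935624112095291858128665247747, 156805, [P1p2_0,
  P1p2_1, P1p2_3, P1p2_4, P1p3_0, P1p3_1, P1p3_4, P1p4_0, P1p4_1, P1p5_0, P1p5_6, P1p5_7, P1p5_8,
  P1p6_0, P1p6_7, P1p6_8, P1p7_0, P1p7_8, P1p8_0]⟩))) (.node 94 (.node 93 (.leaf ⟨9816264996,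
  9943131821581554702977056,
  29759247180489966079583477151266204773388049183402759453287679259123594135798271, 156741, [P1p2_1,
  P1p3_1, P1p3_2, P1p4_1, P1p4_2, P1p4_3, P1p5_0, P1p5_6, P1p5_7, P1p5_8, P1p6_0, P1p6_7, P1p6_8,
  P1p7_0, P1p7_8, P1p8_0]⟩) (.leaf ⟨4900100196, 4951438486296315365138563,
  32422505871050816712305232299739924859776427080193522542145324351592958667522073, 69721, [P1p0_3,
  P1p0_4, P1p1_0, P1p1_3, P1p1_4, P1p2_0, P1p2_1, P1p2_3, P1p2_4, P1p4_3, P1p5_3, P1p5_4, P1p5_6,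
  P1p5_7, P1p5_8, P1p6_3, P1p6_4, P1p6_7, P1p6_8, P1p7_3, P1p7_4, P1p7_8, P1p8_3, P1p8_4]⟩)) (.node
  95 (.leaf ⟨4900558948, 4951438486695367219060801,
  32885681295496182039735103243420667022128404804324942245424825718221624273797149, 69705, [P1p0_2,
  P1p0_3, P1p0_4, P1p1_0, P1p1_2, P1p1_3, P1p1_4, P1p3_2, P1p4_2, P1p4_3, P1p5_2, P1p5_3, P1p5_4,
  P1p5_6, P1p5_7, P1p5_8, P1p6_2, P1p6_3, P1p6_4, P1p6_7, P1p6_8, P1p7_2, P1p7_3, P1p7_4, P1p7_8,
  P1p8_2, P1p8_3, P1p8_4]⟩) (.leaf ⟨4901148772, 4951438511102432667509924,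
  31496155022160086057445490412423745703162429806747264405451264262085778363908113, 69785, [P1p0_4,
  P1p1_0, P1p1_4, P1p2_0, P1p2_1, P1p2_4, P1p3_0, P1p3_1, P1p3_2, P1p3_4, P1p5_4, P1p5_6, P1p5_7,
  P1p5_8, P1p6_4, P1p6_7, P1p6_8, P1p7_4, P1p7_8, P1p8_4]⟩)))))) (.node 112 (.node 104 (.node 100
  (.node 98 (.node 97 (.leaf ⟨4901197924, 4951438475143931343642752,
  31496155022160086057445490412413515035594876265081604381086315134178849977270295, 69797, [P1p0_4,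
  P1p1_2, P1p1_4, P1p2_4, P1p3_4, P1p5_4, P1p5_6, P1p5_7, P1p5_8, P1p6_4, P1p6_7, P1p6_8, P1p7_4,
  P1p7_8, P1p8_4]⟩) (.leaf ⟨9817067800, 6199361687849291050128583,
  29759247180489966079583475906129654761585977116443670598169652705786274982723585, 156809, [P1p1_0,
  P1p1_2, P1p1_3, P1p1_4, P1p2_0, P1p2_3, P1p2_4, P1p3_0, P1p3_4, P1p4_0, P1p5_0, P1p5_6, P1p5_7,
  P1p5_8, P1p6_0, P1p6_7, P1p6_8, P1p7_0, P1p7_8, P1p8_0]⟩)) (.node 99 (.leaf ⟨4849766692,
  12439057110542272328569987,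
  29643453326966634820559284513136957144406361321526761036106208750054053386912249, 66649, [P1p1_0,
  P1p1_3, P1p1_4, P1p1_5, P1p1_6, P1p1_7, P1p1_8, P1p2_0, P1p2_1, P1p2_3, P1p2_4, P1p2_5, P1p2_6,
  P1p2_7, P1p2_8, P1p4_3, P1p6_5, P1p7_8]⟩) (.leaf ⟨4850225444, 9943210257434599362792513,
  29643453326966634820559284896266677060777560728500671437568585142252270144717309, 66633, [P1p1_0,
  P1p1_2, P1p1_3, P1p1_4, P1p1_5, P1p1_6, P1p1_7, P1p1_8, P1p3_2, P1p4_2, P1p4_3, P1p6_5,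
  P1p7_8]⟩))) (.node 102 (.node 101 (.leaf ⟨4850815268, 13686980528234045091584164,
  29643453326966634820559283747624321856630692421490973423535833093281075176669681, 66713, [P1p1_0,
  P1p1_4, P1p1_5, P1p1_6, P1p1_7, P1p1_8, P1p2_0, P1p2_1, P1p2_4, P1p2_5, P1p2_6, P1p2_7, P1p2_8,
  P1p3_0, P1p3_1, P1p3_2, P1p3_4, P1p3_5, P1p3_6, P1p3_7, P1p3_8, P1p6_5, P1p7_8]⟩) (.leaf
  ⟨4850864420, 12439057102767588027602048,
  29643453326966634820559283747614091189063138879825313399170883965374146790031863, 66725, [P1p1_2,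
  P1p1_4, P1p1_5, P1p1_6, P1p1_7, P1p1_8, P1p2_4, P1p2_5, P1p2_6, P1p2_7, P1p2_8, P1p3_4, P1p3_5,
  P1p3_6, P1p3_7, P1p3_8, P1p6_5, P1p7_8]⟩)) (.node 103 (.leaf ⟨4866593060,
  12439045581433841307030656,
  29643453326103903365986147047512507534325733566650222804801392096723285371781599, 67685, [P1p1_2,
  P1p1_3, P1p1_4, P1p1_6, P1p1_7, P1p1_8, P1p2_3, P1p2_4, P1p2_6, P1p2_7, P1p2_8, P1p4_3, P1p5_6,
  P1p5_7, P1p5_8, P1p7_8]⟩) (.leaf ⟨4867772696, 6199434284713339709853862,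
  29643453326103903366004977873841569663153218382441849569185904451072315346845699, 67717, [P1p2_0,
  P1p2_1, P1p2_3, P1p2_4, P1p3_0, P1p3_1, P1p3_4, P1p4_0, P1p4_1, P1p5_0, P1p5_1, P1p5_6, P1p5_7,
  P1p5_8, P1p7_8]⟩)))) (.node 108 (.node 106 (.node 105 (.leaf ⟨4866986276,
  8695278760285369975015456,
  29643453326103903365986147622207093976550843169283050399113181351722772001063391, 67653, [P1p2_1,
  P1p3_1, P1p3_2, P1p4_1, P1p4_2, P1p4_3, P1p5_6, P1p5_7, P1p5_8, P1p7_8]⟩) (.leaf ⟨4866543908,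
  12439045581327226260100227,
  29643453326103903365986147047512507690431970787888457035337327243492622230618585, 67673, [P1p1_0,
  P1p1_3, P1p1_4, P1p1_6, P1p1_7, P1p1_8, P1p2_0, P1p2_1, P1p2_3, P1p2_4, P1p2_6, P1p2_7, P1p2_8,
  P1p4_3, P1p5_6, P1p5_7, P1p5_8, P1p7_8]⟩)) (.node 107 (.leaf ⟨4867002660,
  9943201034062562508016705,
  29643453326103903365986147430642228320437905583583777996773516347876223762563549, 67657, [P1p1_0,
  P1p1_2, P1p1_3, P1p1_4, P1p1_6, P1p1_7, P1p1_8, P1p3_2, P1p4_2, P1p4_3, P1p5_6, P1p5_7, P1p5_8,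
  P1p7_8]⟩) (.leaf ⟨4867592484, 13686967846097494416267428,
  29643453326103903365986146281953104350261712994470151508120030530090654179000785, 67737, [P1p1_0,
  P1p1_4, P1p1_6, P1p1_7, P1p1_8, P1p2_0, P1p2_1, P1p2_4, P1p2_6, P1p2_7, P1p2_8, P1p3_0, P1p3_1,
  P1p3_2, P1p3_4, P1p3_6, P1p3_7, P1p3_8, P1p5_6, P1p5_7, P1p5_8, P1p7_8]⟩))) (.node 110 (.node 109
  (.leaf ⟨4867641636, 12439045573552541959132288,
  29643453326103903365986146281942873682694159452804491483755081402183725792362967, 67749, [P1p1_2,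
  P1p1_4, P1p1_6, P1p1_7, P1p1_8, P1p2_4, P1p2_6, P1p2_7, P1p2_8, P1p3_4, P1p3_6, P1p3_7, P1p3_8,
  P1p5_6, P1p5_7, P1p5_8, P1p7_8]⟩) (.leaf ⟨4867789080, 6199434321904081074951367,
  29643453326103903365992423478805930645512606891747169210411257154111533595295745, 67721, [P1p1_0,
  P1p1_2, P1p1_3, P1p1_4, P1p2_0, P1p2_3, P1p2_4, P1p3_0, P1p3_4, P1p4_0, P1p5_0, P1p5_6, P1p5_7,
  P1p5_8, P1p7_8]⟩)) (.node 111 (.leaf ⟨9737179716, 6199434212730443944460518,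
  29759247182215244286467476027825769151229954437934165928272540779911277422051329, 151961, [P1p1_0,
  P1p2_0, P1p2_1, P1p3_0, P1p3_1, P1p3_2, P1p4_0, P1p4_1, P1p4_2, P1p4_3, P1p5_0, P1p5_6, P1p5_7,
  P1p5_8, P1p7_0, P1p7_8, P1p8_0]⟩) (.leaf ⟨9737228868, 6199434212728107482251392,
  29759247182215244286467475357348739354836025364491681525647323818805957310283783, 151973, [P1p1_2,
  P1p4_3, P1p5_0, P1p5_6, P1p5_7, P1p5_8, P1p7_0, P1p7_8, P1p8_0]⟩))))) (.node 120 (.node 116 (.node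
  114 (.node 113 (.leaf ⟨9735524932, 6199434321906416664739872,
  29759247182215244286467474591124353617111927131892775596675356952294640309895199, 151813, [P1p2_1,
  P1p3_4, P1p5_0, P1p5_6, P1p5_7, P1p5_8, P1p7_0, P1p7_8, P1p8_0]⟩) (.leaf ⟨9735279176,
  11191123300900986601771108,
  29759247182215244286467474591780577553255217074058917816020116854201036108267521, 151817, [P1p1_0,
  P1p1_2, P1p1_4, P1p1_6, P1p1_7, P1p1_8, P1p2_0, P1p2_4, P1p2_6, P1p2_7, P1p2_8, P1p3_0, P1p3_4,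
  P1p3_6, P1p3_7, P1p3_8, P1p5_0, P1p5_6, P1p5_7, P1p5_8, P1p7_0, P1p7_8, P1p8_0]⟩)) (.node 115
  (.leaf ⟨9740325444, 9943200957283743151819907,
  29759247182215244286467517597436693414314524651088687838652228751238885730680833, 152153, [P1p1_0,
  P1p2_0, P1p2_1, P1p3_0, P1p3_4, P1p3_6, P1p3_7, P1p3_8, P1p4_0, P1p4_6, P1p4_7, P1p4_8, P1p5_0,
  P1p5_6, P1p5_7, P1p5_8, P1p7_0, P1p7_8, P1p8_0]⟩) (.leaf ⟨9740374596, 13686967778613809022998752,
  29759247182215244286467517597436693280669988643891094729843656361357900462948831, 152165, [P1p1_0,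
  P1p1_2, P1p1_3, P1p1_4, P1p1_6, P1p1_7, P1p1_8, P1p2_0, P1p2_3, P1p2_4, P1p2_6, P1p2_7, P1p2_8,
  P1p3_0, P1p3_4, P1p3_6, P1p3_7, P1p3_8, P1p4_0, P1p4_6, P1p4_7, P1p4_8, P1p5_0, P1p5_6, P1p5_7,
  P1p5_8, P1p7_0, P1p7_8, P1p8_0]⟩))) (.node 118 (.node 117 (.leaf ⟨9735541316,
  6199434359097260035309633,
  29759247182215244286467474591124353572509756320674296334186994885167438718828573, 151817, [P1p1_0,
  P1p1_2, P1p1_3, P1p1_4, P1p3_4, P1p5_0, P1p5_6, P1p5_7, P1p5_8, P1p7_0, P1p7_8, P1p8_0]⟩) (.leaf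
  ⟨9740784196, 8695278683687660766201953,
  29759247182215244286467517980566414044481072723970691754843130670330281858433029, 152137, [P1p1_0,
  P1p1_2, P1p3_0, P1p3_2, P1p3_4, P1p3_6, P1p3_7, P1p3_8, P1p4_0, P1p4_2, P1p4_6, P1p4_7, P1p4_8,
  P1p5_0, P1p5_6, P1p5_7, P1p5_8, P1p7_0, P1p7_8, P1p8_0]⟩)) (.node 119 (.leaf ⟨9739719236,
  7447356415539899014382656,
  29759247182215244286467518937690683040761548253378644536852405028869640760983567, 152069, [P1p2_1,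
  P1p4_0, P1p4_1, P1p4_2, P1p4_3, P1p4_6, P1p4_7, P1p4_8, P1p5_0, P1p5_6, P1p5_7, P1p5_8, P1p7_0,
  P1p7_8, P1p8_0]⟩) (.leaf ⟨9739735620, 7447356415539727215690817,
  29759247182215244286467518746128740387923270064290037144018152952912107629445133, 152073, [P1p1_0,
  P1p1_2, P1p1_3, P1p4_0, P1p4_2, P1p4_3, P1p4_6, P1p4_7, P1p4_8, P1p5_0, P1p5_6, P1p5_7, P1p5_8,
  P1p7_0, P1p7_8, P1p8_0]⟩)))) (.node 124 (.node 122 (.node 121 (.leaf ⟨9737359944,
  9943201033879090397056067,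
  29759247182215244286467475357348749947851628770055932091119295751185777265672195, 151941, [P1p2_0,
  P1p2_1, P1p2_3, P1p2_4, P1p2_6, P1p2_7, P1p2_8, P1p4_3, P1p5_0, P1p5_6, P1p5_7, P1p5_8, P1p7_0,
  P1p7_8, P1p8_0]⟩) (.leaf ⟨9731936868, 6199434398394973843133571,
  29759247182215244286618125798998020384500373198043082274985938121866852481630233, 151641, [P1p1_0,
  P1p1_3, P1p1_4, P1p2_0, P1p2_1, P1p2_3, P1p2_4, P1p4_3, P1p5_0, P1p5_3, P1p5_4, P1p5_6, P1p5_7,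
  P1p5_8, P1p7_0, P1p7_8, P1p8_0]⟩)) (.node 123 (.leaf ⟨9732395620, 6199434324303214574341185,
  29759247182215244286643234589069297728447946593530981741719914619749596896428061, 151625, [P1p1_0,
  P1p1_2, P1p1_3, P1p1_4, P1p3_2, P1p4_2, P1p4_3, P1p5_0, P1p5_2, P1p5_3, P1p5_4, P1p5_6, P1p5_7,
  P1p5_8, P1p7_0, P1p7_8, P1p8_0]⟩) (.leaf ⟨9732985444, 6199434426578789757655204,
  29759247182215244286567908218900770864695184581883864611382927769851514560970769, 151705, [P1p1_0,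
  P1p1_4, P1p2_0, P1p2_1, P1p2_4, P1p3_0, P1p3_1, P1p3_2, P1p3_4, P1p5_0, P1p5_4, P1p5_6, P1p5_7,
  P1p5_8, P1p7_0, P1p7_8, P1p8_0]⟩))) (.node 126 (.node 125 (.leaf ⟨9733034596,
  6199434390620292763391104,
  29759247182215244286567908218890540197127631040218204587017978641944586174332951, 151717, [P1p1_2,
  P1p1_4, P1p2_4, P1p3_4, P1p5_0, P1p5_4, P1p5_6, P1p5_7, P1p5_8, P1p7_0, P1p7_8, P1p8_0]⟩) (.leaf
  ⟨9821065604, 4951438486695827854303726,
  33233062863830206035307506451181224162392625367327748195247826362979531033149441, 157081, [P1p1_0,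
  P1p2_0, P1p2_1, P1p3_0, P1p3_1, P1p3_2, P1p4_0, P1p4_1, P1p4_2, P1p4_3, P1p5_0, P1p5_1, P1p5_2,
  P1p5_3, P1p5_4, P1p5_6, P1p5_7, P1p5_8, P1p6_0, P1p6_1, P1p6_2, P1p6_3, P1p6_4, P1p6_7, P1p6_8,
  P1p7_0, P1p7_1, P1p7_2, P1p7_3, P1p7_4, P1p7_8, P1p8_0, P1p8_1, P1p8_2, P1p8_3, P1p8_4]⟩)) (.node
  127 (.leaf ⟨9821114756, 4951438486684410757489024,
  32538299727162158044162699939877677053809075064381212808282775103399703349297159, 157093, [P1p1_2,
  P1p4_3, P1p5_0, P1p5_3, P1p5_4, P1p5_6, P1p5_7, P1p5_8, P1p6_0, P1p6_3, P1p6_4, P1p6_7, P1p6_8,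
  P1p7_0, P1p7_3, P1p7_4, P1p7_8, P1p8_0, P1p8_3, P1p8_4]⟩) (.leaf ⟨9819410724,
  13686902024899367730877472,
  29759247180489966079583521881697412362324901108459310131338398781145217419379199, 156933, [P1p2_1,
  P1p3_0, P1p3_4, P1p3_5, P1p3_6, P1p3_7, P1p3_8, P1p4_0, P1p4_5, P1p4_6, P1p4_7, P1p4_8, P1p5_0,
  P1p5_6, P1p5_7, P1p5_8, P1p6_0, P1p6_7, P1p6_8, P1p7_0, P1p7_8, P1p8_0]⟩))))))

def P1T3 : Tr :=
  .node 160 (.node 144 (.node 136 (.node 132 (.node 130 (.node 129 (.leaf ⟨9819165064,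
  4951438475107618468896868,
  31611948878271427389302958052552729444898229525672389851242763325132575888965633, 156937, [P1p1_0,
  P1p1_2, P1p1_4, P1p2_0, P1p2_4, P1p3_0, P1p3_4, P1p5_0, P1p5_4, P1p5_6, P1p5_7, P1p5_8, P1p6_0,
  P1p6_4, P1p6_7, P1p6_8, P1p7_0, P1p7_4, P1p7_8, P1p8_0, P1p8_4]⟩) (.leaf ⟨9824211332,
  4951438223961639218290979,
  29759247180489966079583475810347222089627577399855943880485554106878728737914881, 157273, [P1p1_0,
  P1p2_0, P1p2_1, P1p3_4, P1p5_0, P1p5_6, P1p5_7, P1p5_8, P1p6_0, P1p6_7, P1p6_8, P1p7_0, P1p7_8,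
  P1p8_0]⟩)) (.node 131 (.leaf ⟨9824260484, 4951438335532348263866656,
  29759247180489966079583475810347221933529507080038936777908603035419666217435167, 157285, [P1p1_2,
  P1p1_3, P1p1_4, P1p2_3, P1p2_4, P1p3_4, P1p5_0, P1p5_6, P1p5_7, P1p5_8, P1p6_0, P1p6_7, P1p6_8,
  P1p7_0, P1p7_8, P1p8_0]⟩) (.leaf ⟨9819410820, 4951438595871790910906656,
  33233062863830206035307505014479808628274598061286357863650624088337340939763743, 156933, [P1p2_1,
  P1p3_4, P1p5_0, P1p5_1, P1p5_2, P1p5_3, P1p5_4, P1p5_6, P1p5_7, P1p5_8, P1p6_0, P1p6_1, P1p6_2,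
  P1p6_3, P1p6_4, P1p6_7, P1p6_8, P1p7_0, P1p7_1, P1p7_2, P1p7_3, P1p7_4, P1p7_8, P1p8_0, P1p8_1,
  P1p8_2, P1p8_3, P1p8_4]⟩))) (.node 134 (.node 133 (.leaf ⟨9819427204, 4951438595871378594046241,
  33001475151607523371592569734204302812942553506899861606382323404060487818412061, 156937, [P1p1_0,
  P1p1_2, P1p1_3, P1p1_4, P1p3_4, P1p5_0, P1p5_2, P1p5_3, P1p5_4, P1p5_6, P1p5_7, P1p5_8, P1p6_0,
  P1p6_2, P1p6_3, P1p6_4, P1p6_7, P1p6_8, P1p7_0, P1p7_2, P1p7_3, P1p7_4, P1p7_8, P1p8_0, P1p8_2,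
  P1p8_3, P1p8_4]⟩) (.leaf ⟨9824670084, 4951438187169712410173729,
  30222422604935331407013346754027964251987721900793149194238119406735382605463557, 157257, [P1p1_0,
  P1p1_2, P1p3_2, P1p3_4, P1p4_2, P1p5_0, P1p5_2, P1p5_6, P1p5_7, P1p5_8, P1p6_0, P1p6_2, P1p6_7,
  P1p6_8, P1p7_0, P1p7_2, P1p7_8, P1p8_0, P1p8_2]⟩)) (.node 135 (.leaf ⟨9823605124,
  4951438163526226683339040,
  31380361166048744725588024113185976337079141556314641440036697926848512871235599, 157189, [P1p2_1,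
  P1p4_1, P1p4_2, P1p4_3, P1p5_0, P1p5_1, P1p5_2, P1p5_3, P1p5_6, P1p5_7, P1p5_8, P1p6_0, P1p6_1,
  P1p6_2, P1p6_3, P1p6_7, P1p6_8, P1p7_0, P1p7_1, P1p7_2, P1p7_3, P1p7_8, P1p8_0, P1p8_1, P1p8_2,
  P1p8_3]⟩) (.leaf ⟨9823621508, 4951438163525814366478625,
  31148773453826062061873088641348527913510989624058017052422507233741328209412109, 157193, [P1p1_0,
  P1p1_2, P1p1_3, P1p4_2, P1p4_3, P1p5_0, P1p5_2, P1p5_3, P1p5_6, P1p5_7, P1p5_8, P1p6_0, P1p6_2,
  P1p6_3, P1p6_7, P1p6_8, P1p7_0, P1p7_2, P1p7_3, P1p7_8, P1p8_0, P1p8_2, P1p8_3]⟩)))) (.node 140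
  (.node 138 (.node 137 (.leaf ⟨9815822628, 13686902101387924909266051,
  29759247180489966079583476576571619200903912356883076122600121976054711674536441, 156761, [P1p1_0,
  P1p1_3, P1p1_4, P1p1_5, P1p1_6, P1p1_7, P1p1_8, P1p2_0, P1p2_1, P1p2_3, P1p2_4, P1p2_5, P1p2_6,
  P1p2_7, P1p2_8, P1p4_3, P1p5_0, P1p5_6, P1p5_7, P1p5_8, P1p6_0, P1p6_7, P1p6_8, P1p7_0, P1p7_8,
  P1p8_0]⟩) (.leaf ⟨9816281380, 11191055248280251876379713,
  29759247180489966079583476959701339117275111763856986524062498368252928432341501, 156745, [P1p1_0,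
  P1p1_2, P1p1_3, P1p1_4, P1p1_5, P1p1_6, P1p1_7, P1p1_8, P1p3_2, P1p4_2, P1p4_3, P1p5_0, P1p5_6,
  P1p5_7, P1p5_8, P1p6_0, P1p6_7, P1p6_8, P1p7_0, P1p7_8, P1p8_0]⟩)) (.node 139 (.leaf ⟨9816871204,
  14934825519079697705834660,
  29759247180489966079583475811058983913128243456847288510029746319281733464293873, 156825, [P1p1_0,
  P1p1_4, P1p1_5, P1p1_6, P1p1_7, P1p1_8, P1p2_0, P1p2_1, P1p2_4, P1p2_5, P1p2_6, P1p2_7, P1p2_8,
  P1p3_0, P1p3_1, P1p3_2, P1p3_4, P1p3_5, P1p3_6, P1p3_7, P1p3_8, P1p5_0, P1p5_6, P1p5_7, P1p5_8,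
  P1p6_0, P1p6_7, P1p6_8, P1p7_0, P1p7_8, P1p8_0]⟩) (.leaf ⟨9816920356, 13686902093613243829523584,
  29759247180489966079583475811050214769499106304189673109031522750180750613610999, 156837, [P1p1_0,
  P1p1_2, P1p1_4, P1p1_5, P1p1_6, P1p1_7, P1p1_8, P1p2_0, P1p2_4, P1p2_5, P1p2_6, P1p2_7, P1p2_8,
  P1p3_0, P1p3_4, P1p3_5, P1p3_6, P1p3_7, P1p3_8, P1p5_0, P1p5_6, P1p5_7, P1p5_8, P1p6_0, P1p6_7,
  P1p6_8, P1p7_0, P1p7_8, P1p8_0]⟩))) (.node 142 (.node 141 (.leaf ⟨9804288580,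
  7447173134797663730991334,
  29759247180489979243218201305632227272312489155526242484812205083740311451074561, 156057, [P1p1_0,
  P1p2_0, P1p2_1, P1p3_0, P1p3_1, P1p3_2, P1p4_0, P1p4_1, P1p4_2, P1p4_3, P1p5_0, P1p5_7, P1p5_8,
  P1p6_0, P1p6_5, P1p6_7, P1p6_8, P1p7_0, P1p7_8, P1p8_0]⟩) (.leaf ⟨9804337732,
  7447173134795327268782208,
  29759247180489979243218200635155197475918560082083758082186988122634991339307015, 156069, [P1p1_2,
  P1p4_3, P1p5_0, P1p5_7, P1p5_8, P1p6_0, P1p6_5, P1p6_7, P1p6_8, P1p7_0, P1p7_8, P1p8_0]⟩)) (.node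
  143 (.leaf ⟨9802633796, 7447173243973636451270688,
  29759247180489979243218199868930811738194461849484852153215021256123674338918431, 155909, [P1p2_1,
  P1p3_4, P1p5_0, P1p5_7, P1p5_8, P1p6_0, P1p6_5, P1p6_7, P1p6_8, P1p7_0, P1p7_8, P1p8_0]⟩) (.leaf
  ⟨9802388040, 11190829305917311855792228,
  29759247180489979243218199869493498142279102895136138477089345394449555831980033, 155913, [P1p1_0,
  P1p1_2, P1p1_4, P1p1_7, P1p1_8, P1p2_0, P1p2_4, P1p2_7, P1p2_8, P1p3_0, P1p3_4, P1p3_7, P1p3_8,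
  P1p5_0, P1p5_7, P1p5_8, P1p6_0, P1p6_5, P1p6_7, P1p6_8, P1p7_0, P1p7_8, P1p8_0]⟩))))) (.node 152
  (.node 148 (.node 146 (.node 145 (.leaf ⟨9807434308, 9942943855788215824944259,
  29759247180489979243218236745167450539804755442567738906375347017358314959798273, 156249, [P1p1_0,
  P1p2_0, P1p2_1, P1p3_0, P1p3_4, P1p3_7, P1p3_8, P1p4_0, P1p4_7, P1p4_8, P1p5_0, P1p5_7, P1p5_8,
  P1p6_0, P1p6_5, P1p6_7, P1p6_8, P1p7_0, P1p7_8, P1p8_0]⟩) (.leaf ⟨9807483460,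
  13686599996653839438813408,
  29759247180489979243218236745167450406138441031580206789676150426649931456446879, 156261, [P1p1_0,
  P1p1_2, P1p1_3, P1p1_4, P1p1_7, P1p1_8, P1p2_0, P1p2_3, P1p2_4, P1p2_7, P1p2_8, P1p3_0, P1p3_4,
  P1p3_7, P1p3_8, P1p4_0, P1p4_7, P1p4_8, P1p5_0, P1p5_7, P1p5_8, P1p6_0, P1p6_5, P1p6_7, P1p6_8,
  P1p7_0, P1p7_8, P1p8_0]⟩)) (.node 147 (.leaf ⟨9802650180, 7447173281164479821840449,
  29759247180489979243218199868930811693592291038266372890726659188996472747851805, 155913, [P1p1_0,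
  P1p1_2, P1p1_3, P1p1_4, P1p3_4, P1p5_0, P1p5_7, P1p5_8, P1p6_0, P1p6_5, P1p6_7, P1p6_8, P1p7_0,
  P1p7_8, P1p8_0]⟩) (.leaf ⟨9807893060, 8695058475680280858429537,
  29759247180489979243218237128297172597218996221409623880852218385944847470297093, 156233, [P1p1_0,
  P1p1_2, P1p3_0, P1p3_2, P1p3_4, P1p3_7, P1p3_8, P1p4_0, P1p4_2, P1p4_7, P1p4_8, P1p5_0, P1p5_7,
  P1p5_8, P1p6_0, P1p6_5, P1p6_7, P1p6_8, P1p7_0, P1p7_8, P1p8_0]⟩))) (.node 150 (.node 149 (.leaf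
  ⟨9806828100, 7447173101020666525713472,
  29759247180489979243218238085514977698288649537582612492155334857742186055598095, 156165, [P1p2_1,
  P1p4_0, P1p4_1, P1p4_2, P1p4_3, P1p4_7, P1p4_8, P1p5_0, P1p5_7, P1p5_8, P1p6_0, P1p6_5, P1p6_7,
  P1p6_8, P1p7_0, P1p7_8, P1p8_0]⟩) (.leaf ⟨9806844484, 7447173101020494727021633,
  29759247180489979243218237893953035045450371348494005099321082781784652924059661, 156169, [P1p1_0,
  P1p1_2, P1p1_3, P1p4_0, P1p4_2, P1p4_3, P1p4_7, P1p4_8, P1p5_0, P1p5_7, P1p5_8, P1p6_0, P1p6_5,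
  P1p6_7, P1p6_8, P1p7_0, P1p7_8, P1p8_0]⟩)) (.node 151 (.leaf ⟨9799045732,
  7447173320462193629664387,
  29759247180489989116396195004040731435398003259738188727940796227175341480214553, 155737, [P1p1_0,
  P1p1_3, P1p1_4, P1p2_0, P1p2_1, P1p2_3, P1p2_4, P1p4_3, P1p5_0, P1p5_3, P1p5_4, P1p5_7, P1p5_8,
  P1p6_0, P1p6_3, P1p6_4, P1p6_5, P1p6_7, P1p6_8, P1p7_0, P1p7_8, P1p8_0]⟩) (.leaf ⟨9804468808,
  9942943932383563070180419,
  29759247180489979243218200635155206641664692710205187527711334630644041742221315, 156037, [P1p2_0,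
  P1p2_1, P1p2_3, P1p2_4, P1p2_7, P1p2_8, P1p4_3, P1p5_0, P1p5_7, P1p5_8, P1p6_0, P1p6_5, P1p6_7,
  P1p6_8, P1p7_0, P1p7_8, P1p8_0]⟩)))) (.node 156 (.node 154 (.node 153 (.leaf ⟨9799504484,
  7447173246370434360872001,
  29759247180489990761925861115318050934314759212576593177410638358637949243621405, 155721, [P1p1_0,
  P1p1_2, P1p1_3, P1p1_4, P1p3_2, P1p4_2, P1p4_3, P1p5_0, P1p5_2, P1p5_3, P1p5_4, P1p5_7, P1p5_8,
  P1p6_0, P1p6_2, P1p6_3, P1p6_4, P1p6_5, P1p6_7, P1p6_8, P1p7_0, P1p7_8, P1p8_0]⟩) (.leaf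
  ⟨9800094308, 7447173348646009544186020,
  29759247180489985825336862781531397605654449528877961098866054608000276862337041, 155801, [P1p1_0,
  P1p1_4, P1p2_0, P1p2_1, P1p2_4, P1p3_0, P1p3_1, P1p3_2, P1p3_4, P1p5_0, P1p5_4, P1p5_7, P1p5_8,
  P1p6_0, P1p6_4, P1p6_5, P1p6_7, P1p6_8, P1p7_0, P1p7_8, P1p8_0]⟩)) (.node 155 (.leaf ⟨9800143460,
  7447173312687512549921920,
  29759247180489985825336862781521166938086895987212301074501105480093348475699223, 155813, [P1p1_2,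
  P1p1_4, P1p2_4, P1p3_4, P1p5_0, P1p5_4, P1p5_7, P1p5_8, P1p6_0, P1p6_4, P1p6_5, P1p6_7, P1p6_8,
  P1p7_0, P1p7_8, P1p8_0]⟩) (.leaf ⟨9770734148, 6199439977337966978695398,
  29759247183077975741034336391714831210805773627274352190851396878198843641954305, 154009, [P1p1_0,
  P1p2_0, P1p2_1, P1p3_0, P1p3_1, P1p3_2, P1p4_0, P1p4_1, P1p4_2, P1p4_3, P1p6_5, P1p7_0, P1p7_8,
  P1p8_0]⟩))) (.node 158 (.node 157 (.leaf ⟨9770783300, 6199439977335630516486272,
  29759247183077975741034335721237801414411844553831867788226179917093523530186759, 154021, [P1p1_2,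
  P1p4_3, P1p6_5, P1p7_0, P1p7_8, P1p8_0]⟩) (.leaf ⟨9769079364, 6199440086513939698974752,
  29759247183077975741034334955013415676687746321232961859254213050582206529798175, 153861, [P1p2_1,
  P1p3_4, P1p6_5, P1p7_0, P1p7_8, P1p8_0]⟩)) (.node 159 (.leaf ⟨10221818248,
  1213839895397910422200420,
  42728159054580431069459275433666232719848364090144542489124995429496801941585921, 148745, [P1p1_0,
  P1p1_2, P1p1_4, P1p2_0, P1p2_4, P1p3_0, P1p3_4, P1p5_4, P1p6_4, P1p6_5, P1p7_0, P1p7_4, P1p7_5,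
  P1p7_6, P1p7_8, P1p8_0, P1p8_4, P1p8_5, P1p8_6]⟩) (.leaf ⟨9773879876, 9943210180655780006595715,
  29759247183077975741034381026363605971686495803485386845639357868381254350536705, 154201, [P1p1_0,
  P1p2_0, P1p2_1, P1p3_0, P1p3_4, P1p3_5, P1p3_6, P1p3_7, P1p3_8, P1p4_0, P1p4_5, P1p4_6, P1p4_7,
  P1p4_8, P1p6_5, P1p7_0, P1p7_8, P1p8_0]⟩)))))) (.node 176 (.node 168 (.node 164 (.node 162 (.node
  161 (.leaf ⟨9773929028, 13686980460750359698315488,
  29759247183077975741034381026363605838052848998182763240776097578913968200614399, 154213, [P1p1_0,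
  P1p1_2, P1p1_3, P1p1_4, P1p1_5, P1p1_6, P1p1_7, P1p1_8, P1p2_0, P1p2_3, P1p2_4, P1p2_5, P1p2_6,
  P1p2_7, P1p2_8, P1p3_0, P1p3_4, P1p3_5, P1p3_6, P1p3_7, P1p3_8, P1p4_0, P1p4_5, P1p4_6, P1p4_7,
  P1p4_8, P1p6_5, P1p7_0, P1p7_8, P1p8_0]⟩) (.leaf ⟨9769095748, 6199440123704783069544513,
  29759247183077975741034334955013415632085575510014482596765850983455004938731549, 153865, [P1p1_0,
  P1p1_2, P1p1_3, P1p1_4, P1p3_4, P1p6_5, P1p7_0, P1p7_8, P1p8_0]⟩)) (.node 163 (.leaf ⟨10226864516,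
  1213839644251930097852707,
  40875457356798969759739793191460725364577711964328096518367786211242954790535169, 149081, [P1p1_0,
  P1p2_0, P1p2_1, P1p3_4, P1p6_5, P1p7_0, P1p7_5, P1p7_6, P1p7_8, P1p8_0, P1p8_5, P1p8_6]⟩) (.leaf
  ⟨10218524964, 1218714347350612562351232,
  40875457356798969759739793957685113756130983041618074132886856923344873536880767, 148581, [P1p1_2,
  P1p1_3, P1p1_4, P1p1_5, P1p1_6, P1p2_3, P1p2_4, P1p2_5, P1p2_6, P1p4_3, P1p6_5, P1p7_0, P1p7_5,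
  P1p7_6, P1p7_8, P1p8_0, P1p8_5, P1p8_6]⟩))) (.node 166 (.node 165 (.leaf ⟨10219704600,
  1213839681440886903804070,
  40875457356798969759739793478808023692649051592764088261994327288135963660976131, 148613, [P1p2_0,
  P1p2_1, P1p2_3, P1p2_4, P1p3_0, P1p3_1, P1p3_4, P1p4_0, P1p4_1, P1p6_5, P1p7_0, P1p7_5, P1p7_6,
  P1p7_8, P1p8_0, P1p8_5, P1p8_6]⟩) (.leaf ⟨10218918180, 1215058321870386419042336,
  40875457356798969759739794532379708048338183747874912091169911255118300567175295, 148549, [P1p2_1,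
  P1p3_1, P1p3_2, P1p4_1, P1p4_2, P1p4_3, P1p6_5, P1p7_0, P1p7_5, P1p7_6, P1p7_8, P1p8_0, P1p8_5,
  P1p8_6]⟩)) (.node 167 (.leaf ⟨10227323268, 1213839607460002215993633,
  41338632781244335087169664135141467526937856465265301832120351511099608658083845, 149065, [P1p1_0,
  P1p1_2, P1p3_2, P1p3_4, P1p4_2, P1p5_2, P1p6_2, P1p6_5, P1p7_0, P1p7_2, P1p7_5, P1p7_6, P1p7_8,
  P1p8_0, P1p8_2, P1p8_5, P1p8_6]⟩) (.leaf ⟨10226258308, 1213839583816516489158944,
  42496571342357748405744341494299479612029276120786794077918930031212738923855887, 148997, [P1p2_1,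
  P1p4_1, P1p4_2, P1p4_3, P1p5_1, P1p5_2, P1p5_3, P1p6_1, P1p6_2, P1p6_3, P1p6_5, P1p7_0, P1p7_1,
  P1p7_2, P1p7_3, P1p7_5, P1p7_6, P1p7_8, P1p8_0, P1p8_1, P1p8_2, P1p8_3, P1p8_5, P1p8_6]⟩))))
  (.node 172 (.node 170 (.node 169 (.leaf ⟨10226274692, 1213839583816104172298529,
  42264983630135065742029406022462031188461124188530169690304739338105554262032397, 149001, [P1p1_0,
  P1p1_2, P1p1_3, P1p4_2, P1p4_3, P1p5_2, P1p5_3, P1p6_2, P1p6_3, P1p6_5, P1p7_0, P1p7_2, P1p7_3,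
  P1p7_5, P1p7_6, P1p7_8, P1p8_0, P1p8_2, P1p8_3, P1p8_5, P1p8_6]⟩) (.leaf ⟨10218475812,
  1218714347243995367937155,
  40875457356798969759739793957685113912237220262856308363422792070114210395717753, 148569, [P1p1_0,
  P1p1_3, P1p1_4, P1p1_5, P1p1_6, P1p2_0, P1p2_1, P1p2_3, P1p2_4, P1p2_5, P1p2_6, P1p4_3, P1p6_5,
  P1p7_0, P1p7_5, P1p7_6, P1p7_8, P1p8_0, P1p8_5, P1p8_6]⟩)) (.node 171 (.leaf ⟨9770914376,
  9943210257251127251831875,
  29759247183077975741034335721237812721062183348117528913671964561658728261812227, 153989, [P1p2_0,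
  P1p2_1, P1p2_3, P1p2_4, P1p2_5, P1p2_6, P1p2_7, P1p2_8, P1p4_3, P1p6_5, P1p7_0, P1p7_8, P1p8_0]⟩)
  (.leaf ⟨10218934564, 1216276997091496148732993,
  40875457356798969759739794340814842392225244334487145484570921008537044443201661, 148553, [P1p1_0,
  P1p1_2, P1p1_3, P1p1_4, P1p1_5, P1p1_6, P1p3_2, P1p4_2, P1p4_3, P1p6_5, P1p7_0, P1p7_5, P1p7_6,
  P1p7_8, P1p8_0, P1p8_5, P1p8_6]⟩))) (.node 174 (.node 173 (.leaf ⟨10219524388,
  1219933013458181794535588,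
  40875457356798969759739793191611261995726484642230305775089363733793354088972401, 148633, [P1p1_0,
  P1p1_4, P1p1_5, P1p1_6, P1p2_0, P1p2_1, P1p2_4, P1p2_5, P1p2_6, P1p3_0, P1p3_1, P1p3_2, P1p3_4,
  P1p3_5, P1p3_6, P1p6_5, P1p7_0, P1p7_5, P1p7_6, P1p7_8, P1p8_0, P1p8_5, P1p8_6]⟩) (.leaf
  ⟨10219573540, 1218714339469313214452864,
  40875457356798969759739793191601031328158931100564645750724414605886425702334583, 148645, [P1p1_2,
  P1p1_4, P1p1_5, P1p1_6, P1p2_4, P1p2_5, P1p2_6, P1p3_4, P1p3_5, P1p3_6, P1p6_5, P1p7_0, P1p7_5,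
  P1p7_6, P1p7_8, P1p8_0, P1p8_5, P1p8_6]⟩)) (.node 175 (.leaf ⟨10219720984,
  1213839718631628268901575,
  40875457356798969759739793287243158036536111680915823236051884702064109978451969, 148617, [P1p1_0,
  P1p1_2, P1p1_3, P1p1_4, P1p2_0, P1p2_3, P1p2_4, P1p3_0, P1p3_4, P1p4_0, P1p6_5, P1p7_0, P1p7_5,
  P1p7_6, P1p7_8, P1p8_0, P1p8_5, P1p8_6]⟩) (.leaf ⟨10235253016, 1213832659314185314797671,
  37170053961236047140997588436371739776447091787384984305596036574307473008033793, 149593, [P1p1_0,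
  P1p2_0, P1p2_1, P1p4_0, P1p4_1, P1p4_2, P1p4_3, P1p5_0, P1p5_1, P1p5_2, P1p5_3, P1p5_6, P1p7_0,
  P1p7_6, P1p7_8, P1p8_0, P1p8_6]⟩))))) (.node 184 (.node 180 (.node 178 (.node 177 (.leaf
  ⟨10235302180, 1218702818135566493881472,
  37170053961236047140903431239874142064146503380682828159265368346457591615324255, 149605, [P1p1_2,
  P1p1_3, P1p1_4, P1p1_6, P1p2_3, P1p2_4, P1p2_6, P1p4_3, P1p5_6, P1p7_0, P1p7_6, P1p7_8, P1p8_0,
  P1p8_6]⟩) (.leaf ⟨10236481816, 1213832763911859262754982,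
  37170053961236047140922262066203212756590814854973375320709442602743478593191939, 149637, [P1p2_0,
  P1p2_1, P1p2_3, P1p2_4, P1p3_0, P1p3_1, P1p3_4, P1p4_0, P1p4_1, P1p5_0, P1p5_1, P1p5_6, P1p7_0,
  P1p7_6, P1p7_8, P1p8_0, P1p8_6]⟩)) (.node 179 (.leaf ⟨10235695396, 1215050251419854171113504,
  37170053961236047140903431814568737069988439641814576150636719503392285954801759, 149573, [P1p2_1,
  P1p3_1, P1p3_2, P1p4_1, P1p4_2, P1p4_3, P1p5_6, P1p7_0, P1p7_6, P1p7_8, P1p8_0, P1p8_6]⟩) (.leaf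
  ⟨10235711780, 1216267773719459293957185,
  37170053961236047140903431623003871413875500062273310070923245143835147295785053, 149577, [P1p1_0,
  P1p1_2, P1p1_3, P1p1_4, P1p1_6, P1p3_2, P1p4_2, P1p4_3, P1p5_6, P1p7_0, P1p7_6, P1p7_8, P1p8_0,
  P1p8_6]⟩))) (.node 182 (.node 181 (.leaf ⟨10242789656, 1213832766305256631994567,
  37170053961236047141060358879041239948803345376761751048936160505389451879448577, 150025, [P1p1_0,
  P1p1_2, P1p2_0, P1p3_0, P1p4_0, P1p4_3, P1p5_0, P1p5_3, P1p5_4, P1p5_6, P1p7_0, P1p7_6, P1p7_8,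
  P1p8_0, P1p8_6]⟩) (.leaf ⟨10235253028, 1218702818028949299467395,
  37170053961236047140903431239874142220252740601921062389801303493226928474161241, 149593, [P1p1_0,
  P1p1_3, P1p1_4, P1p1_6, P1p2_0, P1p2_1, P1p2_3, P1p2_4, P1p2_6, P1p4_3, P1p5_6, P1p7_0, P1p7_6,
  P1p7_8, P1p8_0, P1p8_6]⟩)) (.node 183 (.leaf ⟨10236301604, 1219920331321631119218852,
  37170053961236047140903430473753522251347416087912541886820954100277082326040657, 149657, [P1p1_0,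
  P1p1_4, P1p1_6, P1p2_0, P1p2_1, P1p2_4, P1p2_6, P1p3_0, P1p3_1, P1p3_2, P1p3_4, P1p3_6, P1p5_6,
  P1p7_0, P1p7_6, P1p7_8, P1p8_0, P1p8_6]⟩) (.leaf ⟨10236350756, 1218702810254267145983104,
  37170053961236047140903430473743291583779862546246881862456004972370153939402839, 149669, [P1p1_2,
  P1p1_4, P1p1_6, P1p2_4, P1p2_6, P1p3_4, P1p3_6, P1p5_6, P1p7_0, P1p7_6, P1p7_8, P1p8_0,
  P1p8_6]⟩)))) (.node 188 (.node 186 (.node 185 (.leaf ⟨10236498200, 1213832801102600627852487,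
  37170053961236047140909707671167573738950203364278694961934795305782696841641985, 149641, [P1p1_0,
  P1p1_2, P1p1_3, P1p1_4, P1p2_0, P1p2_3, P1p2_4, P1p3_0, P1p3_4, P1p4_0, P1p5_0, P1p5_6, P1p7_0,
  P1p7_6, P1p7_8, P1p8_0, P1p8_6]⟩) (.leaf ⟨9765490968, 2455669778523760026030249,
  29759247183455421165110691829383397381560665155935340232715855535506119036174337, 153689, [P1p1_0,
  P1p2_0, P1p2_1, P1p4_0, P1p4_1, P1p4_2, P1p4_3, P1p5_0, P1p5_1, P1p5_2, P1p5_3, P1p6_0, P1p6_1,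
  P1p6_2, P1p6_3, P1p6_5, P1p7_0, P1p7_8, P1p8_0]⟩)) (.node 187 (.leaf ⟨9740784004,
  2455895779358447086246113,
  41338632791623899744858270669357089786547918623853517575141822567795168301547525, 152137, [P1p1_0,
  P1p1_2, P1p3_2, P1p3_4, P1p4_2, P1p5_6, P1p7_0, P1p7_2, P1p7_5, P1p7_6, P1p7_8, P1p8_0, P1p8_2,
  P1p8_5, P1p8_6]⟩) (.leaf ⟨9740325252, 2455895816222941661796579,
  40875457367178536062958065453823936502212299837959647909789532323296233920659457, 152153, [P1p1_0,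
  P1p2_0, P1p2_1, P1p3_4, P1p5_6, P1p7_0, P1p7_5, P1p7_6, P1p7_8, P1p8_0, P1p8_5, P1p8_6]⟩))) (.node
  190 (.node 189 (.leaf ⟨9773027608, 2455669957570157638422793,
  29759247183725024745606361973014673092210071445424740877121049275348792381603841, 154121, [P1p1_0,
  P1p1_2, P1p2_0, P1p3_0, P1p4_0, P1p4_3, P1p5_0, P1p5_3, P1p5_4, P1p6_0, P1p6_3, P1p6_4, P1p6_5,
  P1p7_0, P1p7_8, P1p8_0]⟩) (.leaf ⟨9737179524, 2455896004575099959286188,
  44349273050518763677209603133551021989793404942606434861549741664214140065939457, 151961, [P1p1_0,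
  P1p2_0, P1p2_1, P1p3_0, P1p3_1, P1p3_2, P1p4_0, P1p4_1, P1p4_2, P1p4_3, P1p5_6, P1p7_0, P1p7_1,
  P1p7_2, P1p7_3, P1p7_4, P1p7_5, P1p7_6, P1p7_8, P1p8_0, P1p8_1, P1p8_2, P1p8_3, P1p8_4, P1p8_5,
  P1p8_6]⟩)) (.node 191 (.leaf ⟨9737228676, 2455896004565950605203776,
  43654509913850718154359295214468858198246643212224902947185102987670891612078087, 151973, [P1p1_2,
  P1p4_3, P1p5_6, P1p7_0, P1p7_3, P1p7_4, P1p7_5, P1p7_6, P1p7_8, P1p8_0, P1p8_3, P1p8_4, P1p8_5,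
  P1p8_6]⟩) (.leaf ⟨9735262600, 2455895995275180429711427,
  42728159064959990790558884783442011393261681762196012787378056981529678625046531, 151813, [P1p2_0,
  P1p2_1, P1p2_4, P1p3_0, P1p3_1, P1p3_4, P1p5_6, P1p7_0, P1p7_4, P1p7_5, P1p7_6, P1p7_8, P1p8_0,
  P1p8_4, P1p8_5, P1p8_6]⟩))))))

def P1T4 : Tr :=
  .node 224 (.node 208 (.node 200 (.node 196 (.node 194 (.node 193 (.leaf ⟨9735278984,
  2455895995311327948216420,
  42728159064959990790558884783439088345384849103602751286945641320119203125067777, 151817, [P1p1_0,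
  P1p1_2, P1p1_4, P1p2_0, P1p2_4, P1p3_0, P1p3_4, P1p5_6, P1p7_0, P1p7_4, P1p7_5, P1p7_6, P1p7_8,
  P1p8_0, P1p8_4, P1p8_5, P1p8_6]⟩) (.leaf ⟨9740374404, 2455895927793650707372256,
  40875457367178536062958065453823936346114229518142640807212581251837171400179743, 152165, [P1p1_2,
  P1p1_3, P1p1_4, P1p2_3, P1p2_4, P1p3_4, P1p5_6, P1p7_0, P1p7_5, P1p7_6, P1p7_8, P1p8_0, P1p8_5,
  P1p8_6]⟩)) (.node 195 (.leaf ⟨9735524740, 2455896113751063015889120,
  44349273050518763677209601696849606455675377636565044529952539389571949972553759, 151813, [P1p2_1,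
  P1p3_4, P1p5_6, P1p7_0, P1p7_1, P1p7_2, P1p7_3, P1p7_4, P1p7_5, P1p7_6, P1p7_8, P1p8_0, P1p8_1,
  P1p8_2, P1p8_3, P1p8_4, P1p8_5, P1p8_6]⟩) (.leaf ⟨9735541124, 2455896113750719418505441,
  44117685338296081836259499280647895079355595939700216096884376232973956594532381, 151817, [P1p1_0,
  P1p1_2, P1p1_3, P1p1_4, P1p3_4, P1p5_6, P1p7_0, P1p7_2, P1p7_3, P1p7_4, P1p7_5, P1p7_6, P1p7_8,
  P1p8_0, P1p8_2, P1p8_3, P1p8_4, P1p8_5, P1p8_6]⟩))) (.node 198 (.node 197 (.leaf ⟨9739719044,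
  2455895753463092826249440,
  42496571352737308949608783708146129676578023991766670699939713449513999850668047, 152069, [P1p2_1,
  P1p4_1, P1p4_2, P1p4_3, P1p5_6, P1p7_0, P1p7_1, P1p7_2, P1p7_3, P1p7_5, P1p7_6, P1p7_8, P1p8_0,
  P1p8_1, P1p8_2, P1p8_3, P1p8_5, P1p8_6]⟩) (.leaf ⟨9739735428, 2455895753462749228865761,
  42264983640514627108658681100382475692022134917031714136525660284085674932174861, 152073, [P1p1_0,
  P1p1_2, P1p1_3, P1p4_2, P1p4_3, P1p5_6, P1p7_0, P1p7_2, P1p7_3, P1p7_5, P1p7_6, P1p7_8, P1p8_0,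
  P1p8_2, P1p8_3, P1p8_5, P1p8_6]⟩)) (.node 199 (.leaf ⟨9815822616, 6199361544898656513033286,
  29759247180489966079583477247038407268389164487625052612005460998088554665934849, 156761, [P1p1_0,
  P1p2_0, P1p2_1, P1p4_0, P1p4_1, P1p4_2, P1p4_3, P1p5_0, P1p5_6, P1p5_7, P1p5_8, P1p6_0, P1p6_7,
  P1p6_8, P1p7_0, P1p7_8, P1p8_0]⟩) (.leaf ⟨8999162440, 40255557034870921399363,
  55696392466353819865618073786468537934801689935060527213705607598488503384211459, 139653, [P1p2_0,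
  P1p2_1, P1p2_3, P1p2_4, P1p4_3, P1p5_0, P1p6_0, P1p6_5, P1p7_0, P1p7_5, P1p7_6, P1p8_0, P1p8_5,
  P1p8_6, P1p8_7]⟩)))) (.node 204 (.node 202 (.node 201 (.leaf ⟨8994198116, 40255668791294352857153,
  58938620437471377157627168093455349435115133501137747937357439659374782378147869, 139337, [P1p1_0,
  P1p1_2, P1p1_3, P1p1_4, P1p3_2, P1p4_2, P1p4_3, P1p5_0, P1p5_2, P1p5_3, P1p5_4, P1p6_0, P1p6_2,
  P1p6_3, P1p6_4, P1p6_5, P1p7_0, P1p7_2, P1p7_3, P1p7_4, P1p7_5, P1p7_6, P1p8_0, P1p8_2, P1p8_3,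
  P1p8_4, P1p8_5, P1p8_6, P1p8_7]⟩) (.leaf ⟨9816871192, 6199361576460173221824615,
  29759247180489966079583476480824251194697384487325238655717597514732353800830977, 156825, [P1p1_0,
  P1p2_0, P1p2_1, P1p3_0, P1p3_1, P1p3_2, P1p3_4, P1p4_0, P1p4_1, P1p4_2, P1p5_0, P1p5_6, P1p5_7,
  P1p5_8, P1p6_0, P1p6_7, P1p6_8, P1p7_0, P1p7_8, P1p8_0]⟩)) (.node 203 (.leaf ⟨8994837092,
  40255659564227132299392,
  57549094164135281175337555262448197448581604961895360825476431443687565220118551, 139429, [P1p1_2,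
  P1p1_4, P1p2_4, P1p3_4, P1p5_0, P1p5_4, P1p6_0, P1p6_4, P1p6_5, P1p7_0, P1p7_4, P1p7_5, P1p7_6,
  P1p8_0, P1p8_4, P1p8_5, P1p8_6, P1p8_7]⟩) (.leaf ⟨8898318916, 42614323044005794840806,
  44580182279665078336378434420679833535753018598294999607464053607497260788088833, 133529, [P1p1_0,
  P1p2_0, P1p2_1, P1p3_0, P1p3_1, P1p3_2, P1p4_0, P1p4_1, P1p4_2, P1p4_3, P1p5_0, P1p5_6, P1p6_0,
  P1p7_0, P1p8_0, P1p8_7]⟩))) (.node 206 (.node 205 (.leaf ⟨8898368068, 42614323041669332631680,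
  44580182279665078336378433750202803739359089524852515204838836646391940676321287, 133541, [P1p1_2,
  P1p4_3, P1p5_0, P1p5_6, P1p6_0, P1p7_0, P1p8_0, P1p8_7]⟩) (.leaf ⟨8896664132,
  42614432219978515120160,
  44580182279665078336378432983978418001634991292253609275866869779880623675932703, 133381, [P1p2_1,
  P1p3_4, P1p5_0, P1p5_6, P1p6_0, P1p7_0, P1p8_0, P1p8_7]⟩)) (.node 207 (.leaf ⟨9148076424,
  154811129175943403478116,
  57548894513840874033254027171717888719273094512014142223610078681316636855697409, 132361, [P1p1_0,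
  P1p1_2, P1p1_4, P1p2_0, P1p2_4, P1p3_0, P1p3_4, P1p5_4, P1p6_4, P1p6_5, P1p8_0, P1p8_4, P1p8_5,
  P1p8_6, P1p8_7]⟩) (.leaf ⟨8901464644, 46270271929059813493891,
  44580182279665078336378442274874402323079917217827881329352738371422042697236481, 133721, [P1p1_0,
  P1p2_0, P1p2_1, P1p3_0, P1p3_4, P1p3_5, P1p3_6, P1p4_0, P1p4_5, P1p4_6, P1p5_0, P1p5_6, P1p6_0,
  P1p7_0, P1p8_0, P1p8_7]⟩))))) (.node 216 (.node 212 (.node 210 (.node 209 (.leaf ⟨8901513796,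
  49926297590880495966432,
  44580182279665078336378442274874402189315599989785623677145732876990367133597823, 133733, [P1p1_0,
  P1p1_2, P1p1_3, P1p1_4, P1p1_5, P1p1_6, P1p2_0, P1p2_3, P1p2_4, P1p2_5, P1p2_6, P1p3_0, P1p3_4,
  P1p3_5, P1p3_6, P1p4_0, P1p4_5, P1p4_6, P1p5_0, P1p5_6, P1p6_0, P1p7_0, P1p8_0, P1p8_7]⟩) (.leaf
  ⟨8896680516, 42614469410821885689921,
  44580182279665078336378432983978417957032820481035130013378507712753422084866077, 133385, [P1p1_0,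
  P1p1_2, P1p1_3, P1p1_4, P1p3_4, P1p5_0, P1p5_6, P1p6_0, P1p7_0, P1p8_0, P1p8_7]⟩)) (.node 211
  (.leaf ⟨8876298776, 40145888974522157241546,
  49906699660786779601125187574378314364698987333000898798061424818358017837694977, 132185, [P1p1_0,
  P1p2_0, P1p2_1, P1p4_0, P1p4_1, P1p4_2, P1p4_3, P1p6_0, P1p6_1, P1p6_2, P1p6_3, P1p6_5, P1p7_0,
  P1p7_1, P1p7_2, P1p7_3, P1p7_5, P1p8_0, P1p8_1, P1p8_2, P1p8_3, P1p8_5, P1p8_7]⟩) (.leaf
  ⟨8876347940, 40148409716797699462272,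
  48285585675228000955208519366278389285805785062520735998174819231734086103466047, 132197, [P1p1_2,
  P1p1_3, P1p1_4, P1p1_5, P1p2_3, P1p2_4, P1p2_5, P1p4_3, P1p6_0, P1p6_5, P1p7_0, P1p7_5, P1p8_0,
  P1p8_5, P1p8_7]⟩))) (.node 214 (.node 213 (.leaf ⟨8877527576, 40145990085573866558663,
  48517173387450683618910899964206033058795526887738171852988765513316500886454275, 132229, [P1p2_0,
  P1p2_1, P1p2_3, P1p2_4, P1p3_0, P1p3_1, P1p3_4, P1p4_0, P1p4_1, P1p6_0, P1p6_1, P1p6_5, P1p7_0,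
  P1p7_1, P1p7_5, P1p8_0, P1p8_1, P1p8_5, P1p8_7]⟩) (.leaf ⟨9145962776, 154810951247716904079526,
  55696221085612449177683818549619691578770035254376038006382740521683816275968003, 132229, [P1p2_0,
  P1p2_1, P1p2_3, P1p2_4, P1p3_0, P1p3_1, P1p3_4, P1p4_0, P1p4_1, P1p6_5, P1p8_0, P1p8_5, P1p8_6,
  P1p8_7]⟩)) (.node 215 (.leaf ⟨8876741156, 40145992484670657398816,
  48285585675228000955208519940972985005282456878527394022634467213830047752126527, 132165, [P1p2_1,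
  P1p3_1, P1p3_2, P1p4_1, P1p4_2, P1p4_3, P1p6_0, P1p6_5, P1p7_0, P1p7_5, P1p8_0, P1p8_5, P1p8_7]⟩)
  (.leaf ⟨9153581444, 154810877230547258776833,
  56159389442669555391576370872763132441384776816941664074032932222193859083632645, 132681, [P1p1_0,
  P1p1_2, P1p3_2, P1p3_4, P1p4_2, P1p5_2, P1p6_2, P1p6_5, P1p8_0, P1p8_2, P1p8_5, P1p8_6,
  P1p8_7]⟩)))) (.node 220 (.node 218 (.node 217 (.leaf ⟨9153122692, 154810914058760098094339,
  55696221085612449177683818262272393250698695625940046262756199408762010386563073, 132697, [P1p1_0,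
  P1p2_0, P1p2_1, P1p3_4, P1p6_5, P1p8_0, P1p8_5, P1p8_6, P1p8_7]⟩) (.leaf ⟨8883835416,
  40146104048582917231914,
  51064638221900192919637092383717609775427893849753597174889936527337932156108801, 132617, [P1p1_0,
  P1p1_2, P1p2_0, P1p3_0, P1p4_0, P1p4_3, P1p6_0, P1p6_3, P1p6_4, P1p6_5, P1p7_0, P1p7_3, P1p7_4,
  P1p7_5, P1p8_0, P1p8_3, P1p8_4, P1p8_5, P1p8_7]⟩)) (.node 219 (.leaf ⟨8876298788,
  40148409610179431306371,
  48285585675228000955208519366278389441912022283758970228710754378503422962303033, 132185, [P1p1_0,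
  P1p1_3, P1p1_4, P1p1_5, P1p2_0, P1p2_1, P1p2_3, P1p2_4, P1p2_5, P1p4_3, P1p6_0, P1p6_5, P1p7_0,
  P1p7_5, P1p8_0, P1p8_5, P1p8_7]⟩) (.leaf ⟨8898499144, 46270348524407058730051,
  44580182279665078336378433750202806482392603654481249610598868744732528093102083, 133509, [P1p2_0,
  P1p2_1, P1p2_3, P1p2_4, P1p2_5, P1p2_6, P1p4_3, P1p5_0, P1p5_6, P1p6_0, P1p7_0, P1p8_0,
  P1p8_7]⟩))) (.node 222 (.node 221 (.leaf ⟨8876757540, 40146029675410948754497,
  48285585675228000955208519749408119349169517132832628469806508741297026558066749, 132169, [P1p1_0,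
  P1p1_2, P1p1_3, P1p1_4, P1p1_5, P1p3_2, P1p4_2, P1p4_3, P1p6_0, P1p6_5, P1p7_0, P1p7_5, P1p8_0,
  P1p8_5, P1p8_7]⟩) (.leaf ⟨8877347364, 40149590715499952707748,
  48285585675228000955208518600111001420612108876367931811083483928924586972807217, 132249, [P1p1_0,
  P1p1_4, P1p1_5, P1p2_0, P1p2_1, P1p2_4, P1p2_5, P1p3_0, P1p3_1, P1p3_2, P1p3_4, P1p3_5, P1p6_0,
  P1p6_5, P1p7_0, P1p7_5, P1p8_0, P1p8_5, P1p8_7]⟩)) (.node 223 (.leaf ⟨8877396516,
  40148401835498351563904,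
  48285585675228000955208518600100770753044555334702271786718534801017658586169399, 132261, [P1p1_2,
  P1p1_4, P1p1_5, P1p2_4, P1p2_5, P1p3_4, P1p3_5, P1p6_0, P1p6_5, P1p7_0, P1p7_5, P1p8_0, P1p8_5,
  P1p8_7]⟩) (.leaf ⟨8877543960, 40146027276279798174919,
  48285585675228000955208518695836434993480384811568305167516440660776132045504513, 132233, [P1p1_0,
  P1p1_2, P1p1_3, P1p1_4, P1p2_0, P1p2_3, P1p2_4, P1p3_0, P1p3_4, P1p4_0, P1p6_0, P1p6_5, P1p7_0,
  P1p7_5, P1p8_0, P1p8_5, P1p8_7]⟩)))))) (.node 240 (.node 232 (.node 228 (.node 226 (.node 225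
  (.leaf ⟨8998982212, 40255445645581294403814,
  55696392466353819865618074456945567129066311045038508890492230597809390407909377, 139673, [P1p1_0,
  P1p2_0, P1p2_1, P1p3_0, P1p3_1, P1p3_2, P1p4_0, P1p4_1, P1p4_2, P1p4_3, P1p5_0, P1p6_0, P1p6_5,
  P1p7_0, P1p7_5, P1p7_6, P1p8_0, P1p8_5, P1p8_6, P1p8_7]⟩) (.leaf ⟨8999031364,
  40255445643244832194688,
  55696392466353819865618073786468537332672381971596024487867013636704070296141831, 139685, [P1p1_2,
  P1p4_3, P1p5_0, P1p6_0, P1p6_5, P1p7_0, P1p7_5, P1p7_6, P1p8_0, P1p8_5, P1p8_6, P1p8_7]⟩)) (.node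
  227 (.leaf ⟨8997327428, 40255554821554014683168,
  55696392466353819865618073020244151594948283738997118558895046770192753295753247, 139525, [P1p2_1,
  P1p3_4, P1p5_0, P1p6_0, P1p6_5, P1p7_0, P1p7_5, P1p7_6, P1p8_0, P1p8_5, P1p8_6, P1p8_7]⟩) (.leaf
  ⟨8997081672, 40255587470314850914404,
  55696392466353819865618073020245612806681031405559269509946756327035548956950529, 139529, [P1p1_0,
  P1p1_2, P1p1_4, P1p2_0, P1p2_4, P1p3_0, P1p3_4, P1p5_0, P1p6_0, P1p6_5, P1p7_0, P1p7_5, P1p7_6,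
  P1p8_0, P1p8_5, P1p8_6, P1p8_7]⟩))) (.node 230 (.node 229 (.leaf ⟨9002127940,
  40255480439523676163203,
  55696392466353819865618073116026584423004753775401852379156096305169765117198337, 139865, [P1p1_0,
  P1p2_0, P1p2_1, P1p3_0, P1p3_4, P1p4_0, P1p5_0, P1p6_0, P1p6_5, P1p7_0, P1p7_5, P1p7_6, P1p8_0,
  P1p8_5, P1p8_6, P1p8_7]⟩) (.leaf ⟨9002177092, 40255592010234938497248,
  55696392466353819865618073116026584289207768941674686215113154509496992200130591, 139877, [P1p1_0,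
  P1p1_2, P1p1_3, P1p1_4, P1p2_0, P1p2_3, P1p2_4, P1p3_0, P1p3_4, P1p4_0, P1p5_0, P1p6_0, P1p6_5,
  P1p7_0, P1p7_5, P1p7_6, P1p8_0, P1p8_5, P1p8_6, P1p8_7]⟩)) (.node 231 (.leaf ⟨8997343812,
  40255592012397385252929,
  55696392466353819865618073020244151550346112927778639296406684703065551704686621, 139529, [P1p1_0,
  P1p1_2, P1p1_3, P1p1_4, P1p3_4, P1p5_0, P1p6_0, P1p6_5, P1p7_0, P1p7_5, P1p7_6, P1p8_0, P1p8_5,
  P1p8_6, P1p8_7]⟩) (.leaf ⟨9002570308, 40255443430099724175456,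
  55696392466353819865618073690721180700018090826466413334127090040967931554562055, 139845, [P1p2_1,
  P1p3_0, P1p3_1, P1p3_2, P1p3_4, P1p4_0, P1p4_1, P1p4_2, P1p5_0, P1p6_0, P1p6_5, P1p7_0, P1p7_5,
  P1p7_6, P1p8_0, P1p8_5, P1p8_6, P1p8_7]⟩)))) (.node 236 (.node 234 (.node 233 (.leaf ⟨9002586692,
  40255443429893565745249,
  55696392466353819865618073499156315043905150790003023703348784370727115924176901, 139849, [P1p1_0,
  P1p1_2, P1p3_0, P1p3_2, P1p3_4, P1p4_0, P1p4_2, P1p5_0, P1p6_0, P1p6_5, P1p7_0, P1p7_5, P1p7_6,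
  P1p8_0, P1p8_5, P1p8_6, P1p8_7]⟩) (.leaf ⟨9001259592, 40255408451301950001252,
  55696392466353819865618074073815835816841792044464147938906368841921914929872899, 139781, [P1p2_0,
  P1p2_1, P1p3_0, P1p3_1, P1p4_0, P1p4_1, P1p4_3, P1p5_0, P1p6_0, P1p6_5, P1p7_0, P1p7_5, P1p7_6,
  P1p8_0, P1p8_5, P1p8_6, P1p8_7]⟩)) (.node 235 (.leaf ⟨9145176356, 232806093433499107297312,
  55696221085612449177683819603191375934459167409486861835558324488666702946369791, 132165, [P1p2_1,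
  P1p3_1, P1p3_2, P1p4_1, P1p4_2, P1p4_3, P1p6_5, P1p8_0, P1p8_5, P1p8_6, P1p8_7]⟩) (.leaf
  ⟨9001521732, 40255411868584089125952,
  55696392466353819865618074456935336773709870826766227290414953522072332605980687, 139781, [P1p2_1,
  P1p4_0, P1p4_1, P1p4_2, P1p4_3, P1p5_0, P1p6_0, P1p6_5, P1p7_0, P1p7_5, P1p7_6, P1p8_0, P1p8_5,
  P1p8_6, P1p8_7]⟩))) (.node 238 (.node 237 (.leaf ⟨9001538116, 40255411868412290434113,
  55696392466353819865618074265373394120871592637677619897580701446114799474442253, 139785, [P1p1_0,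
  P1p1_2, P1p1_3, P1p4_0, P1p4_2, P1p4_3, P1p5_0, P1p6_0, P1p6_5, P1p7_0, P1p7_5, P1p7_6, P1p8_0,
  P1p8_5, P1p8_6, P1p8_7]⟩) (.leaf ⟨8993739364, 40255668464808118884483,
  58475445013026011830197297149774607272763155777006645151563772415531302484705305, 139353, [P1p1_0,
  P1p1_3, P1p1_4, P1p2_0, P1p2_1, P1p2_3, P1p2_4, P1p4_3, P1p5_0, P1p5_3, P1p5_4, P1p6_0, P1p6_3,
  P1p6_4, P1p6_5, P1p7_0, P1p7_3, P1p7_4, P1p7_5, P1p7_6, P1p8_0, P1p8_3, P1p8_4, P1p8_5, P1p8_6,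
  P1p8_7]⟩)) (.node 239 (.leaf ⟨8993788516, 40255668571426387040384,
  58475445013026011830197297149774607116656918555768410921027837268761965625868319, 139365, [P1p1_2,
  P1p1_3, P1p1_4, P1p2_3, P1p2_4, P1p4_3, P1p5_0, P1p5_3, P1p5_4, P1p6_0, P1p6_3, P1p6_4, P1p6_5,
  P1p7_0, P1p7_3, P1p7_4, P1p7_5, P1p7_6, P1p8_0, P1p8_3, P1p8_4, P1p8_5, P1p8_6, P1p8_7]⟩) (.leaf
  ⟨8994181732, 40255668791672309979168,
  59170208149694059821342103565295720861957947156154029955661932329315931869020191, 139333, [P1p2_1,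
  P1p3_1, P1p3_2, P1p4_1, P1p4_2, P1p4_3, P1p5_0, P1p5_1, P1p5_2, P1p5_3, P1p5_4, P1p6_0, P1p6_1,
  P1p6_2, P1p6_3, P1p6_4, P1p6_5, P1p7_0, P1p7_1, P1p7_2, P1p7_3, P1p7_4, P1p7_5, P1p7_6, P1p8_0,
  P1p8_1, P1p8_2, P1p8_3, P1p8_4, P1p8_5, P1p8_6, P1p8_7]⟩))))) (.node 248 (.node 244 (.node 242
  (.node 241 (.leaf ⟨8994787940, 40255659493927107598500,
  57549094164135281175337555262458428116149158503561020849841380571594493606756369, 139417, [P1p1_0,
  P1p1_4, P1p2_0, P1p2_1, P1p2_4, P1p3_0, P1p3_1, P1p3_2, P1p3_4, P1p5_0, P1p5_4, P1p6_0, P1p6_4,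
  P1p6_5, P1p7_0, P1p7_4, P1p7_5, P1p7_6, P1p8_0, P1p8_4, P1p8_5, P1p8_6, P1p8_7]⟩) (.leaf
  ⟨9145979160, 154810988438458269177031,
  55696221085612449177683818358054825922657095342527772980440297935611962593443841, 132233, [P1p1_0,
  P1p1_2, P1p1_3, P1p1_4, P1p2_0, P1p2_3, P1p2_4, P1p3_0, P1p3_4, P1p4_0, P1p6_5, P1p8_0, P1p8_5,
  P1p8_6, P1p8_7]⟩)) (.node 243 (.leaf ⟨9144783140, 349798914502596735734912,
  55696221085612449177683819028496784496790908922729664009628457457538345152807167, 132197, [P1p1_2,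
  P1p1_3, P1p1_4, P1p1_5, P1p1_6, P1p1_7, P1p2_3, P1p2_4, P1p2_5, P1p2_6, P1p2_7, P1p4_3, P1p6_5,
  P1p8_0, P1p8_5, P1p8_6, P1p8_7]⟩) (.leaf ⟨9152516484, 154810852461127265361152,
  57317310335312320926307752398946137097291038197624187563641929526244976423206927, 132613, [P1p2_1,
  P1p4_1, P1p4_2, P1p4_3, P1p5_1, P1p5_2, P1p5_3, P1p6_1, P1p6_2, P1p6_3, P1p6_5, P1p8_0, P1p8_1,
  P1p8_2, P1p8_3, P1p8_5, P1p8_6, P1p8_7]⟩))) (.node 246 (.node 245 (.leaf ⟨9152532868,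
  154810852460749308239105,
  57085726156783767819361476093703690159559917920335356927265655076350194346622989, 132617, [P1p1_0,
  P1p1_2, P1p1_3, P1p4_2, P1p4_3, P1p5_2, P1p5_3, P1p6_2, P1p6_3, P1p6_5, P1p8_0, P1p8_2, P1p8_3,
  P1p8_5, P1p8_6, P1p8_7]⟩) (.leaf ⟨9144733988, 349798914395980615062659,
  55696221085612449177683819028496784652897146143967898240164392604307682011644153, 132185, [P1p1_0,
  P1p1_3, P1p1_4, P1p1_5, P1p1_6, P1p1_7, P1p2_0, P1p2_1, P1p2_3, P1p2_4, P1p2_5, P1p2_6, P1p2_7,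
  P1p4_3, P1p6_5, P1p8_0, P1p8_5, P1p8_6, P1p8_7]⟩)) (.node 247 (.leaf ⟨9145192740,
  271803700517565998697537,
  55696221085612449177683819411626510278346228660713093121417270693988976962568445, 132169, [P1p1_0,
  P1p1_2, P1p1_3, P1p1_4, P1p1_5, P1p1_6, P1p1_7, P1p3_2, P1p4_2, P1p4_3, P1p6_5, P1p8_0, P1p8_5,
  P1p8_6, P1p8_7]⟩) (.leaf ⟨9145782564, 388796512473124203370660,
  55696221085612449177683818262610004945964766096871967310418648494502785070399729, 132249, [P1p1_0,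
  P1p1_4, P1p1_5, P1p1_6, P1p1_7, P1p2_0, P1p2_1, P1p2_4, P1p2_5, P1p2_6, P1p2_7, P1p3_0, P1p3_1,
  P1p3_2, P1p3_4, P1p3_5, P1p3_6, P1p3_7, P1p6_5, P1p8_0, P1p8_5, P1p8_6, P1p8_7]⟩)))) (.node 252
  (.node 250 (.node 249 (.leaf ⟨9145831716, 349798906621297387836544,
  55696221085612449177683818262599774278397212555206307286053699366595856683761911, 132261, [P1p1_2,
  P1p1_4, P1p1_5, P1p1_6, P1p1_7, P1p2_4, P1p2_5, P1p2_6, P1p2_7, P1p3_4, P1p3_5, P1p3_6, P1p3_7,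
  P1p6_5, P1p8_0, P1p8_5, P1p8_6, P1p8_7]⟩) (.leaf ⟨8896418376, 47489016990221533876324,
  44580182279665078336378432984120185511455712303588044070124232982094190795096065, 133385, [P1p1_0,
  P1p1_2, P1p1_4, P1p1_5, P1p1_6, P1p2_0, P1p2_4, P1p2_5, P1p2_6, P1p3_0, P1p3_4, P1p3_5, P1p3_6,
  P1p5_0, P1p5_6, P1p6_0, P1p7_0, P1p8_0, P1p8_7]⟩)) (.node 251 (.leaf ⟨9161560356,
  349787385287550667265152,
  51990874229155599467949471998335331715969916787449699357074730268940901012734175, 133221, [P1p1_2,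
  P1p1_3, P1p1_4, P1p1_6, P1p1_7, P1p2_3, P1p2_4, P1p2_6, P1p2_7, P1p4_3, P1p5_6, P1p5_7, P1p8_0,
  P1p8_6, P1p8_7]⟩) (.leaf ⟨9162739992, 154805186640193869877414,
  51990874229155599467968302824664399553875286042240606386165617224581168989667331, 133253, [P1p2_0,
  P1p2_1, P1p2_3, P1p2_4, P1p3_0, P1p3_1, P1p3_4, P1p4_0, P1p4_1, P1p5_0, P1p5_1, P1p5_6, P1p5_7,
  P1p8_0, P1p8_6, P1p8_7]⟩))) (.node 254 (.node 253 (.leaf ⟨9161953572, 232798022982966859368480,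
  51990874229155599467949472573029923867272910829081807216092894125230526115479775, 133189, [P1p2_1,
  P1p3_1, P1p3_2, P1p4_1, P1p4_2, P1p4_3, P1p5_6, P1p5_7, P1p8_0, P1p8_6, P1p8_7]⟩) (.leaf
  ⟨8901923396, 45051596889059157444705,
  44580182279665078336378442658004130803108775173489231066116472262736688930095109, 133705, [P1p1_0,
  P1p1_2, P1p3_0, P1p3_2, P1p3_4, P1p3_5, P1p3_6, P1p4_0, P1p4_2, P1p4_5, P1p4_6, P1p5_0, P1p5_6,
  P1p6_0, P1p7_0, P1p8_0, P1p8_7]⟩)) (.node 255 (.leaf ⟨8900858436, 43832927297379135194176,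
  44580182279665078336378443615642848375729728530104880909241878244194936087773199, 133637, [P1p2_1,
  P1p4_0, P1p4_1, P1p4_2, P1p4_3, P1p4_5, P1p4_6, P1p5_0, P1p5_6, P1p6_0, P1p7_0, P1p8_0, P1p8_7]⟩)
  (.leaf ⟨8900874820, 43832927297207336502337,
  44580182279665078336378443424080905722891450341016273516407626168237402956234765, 133641, [P1p1_0,
  P1p1_2, P1p1_3, P1p4_0, P1p4_2, P1p4_3, P1p4_5, P1p4_6, P1p5_0, P1p5_6, P1p6_0, P1p7_0, P1p8_0,
  P1p8_7]⟩))))))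

def P1T5 : Tr :=
  .node 288 (.node 272 (.node 264 (.node 260 (.node 258 (.node 257 (.leaf ⟨9161511204,
  349787385180934546592899,
  51990874229155599467949471998335331872076154008687933587610665415710237871571161, 133209, [P1p1_0,
  P1p1_3, P1p1_4, P1p1_6, P1p1_7, P1p2_0, P1p2_1, P1p2_3, P1p2_4, P1p2_6, P1p2_7, P1p4_3, P1p5_6,
  P1p5_7, P1p8_0, P1p8_6, P1p8_7]⟩) (.leaf ⟨9161969956, 271794477145529143921729,
  51990874229155599467949472381465058211159971914154539028837356217576917596635357, 133193, [P1p1_0,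
  P1p1_2, P1p1_3, P1p1_4, P1p1_6, P1p1_7, P1p3_2, P1p4_2, P1p4_3, P1p5_6, P1p5_7, P1p8_0, P1p8_6,
  P1p8_7]⟩)) (.node 259 (.leaf ⟨9162559780, 388783830336573528053924,
  51990874229155599467949471232401784112749185068209484743218000249276351088951505, 133273, [P1p1_0,
  P1p1_4, P1p1_6, P1p1_7, P1p2_0, P1p2_1, P1p2_4, P1p2_6, P1p2_7, P1p3_0, P1p3_1, P1p3_2, P1p3_4,
  P1p3_6, P1p3_7, P1p5_6, P1p5_7, P1p8_0, P1p8_6, P1p8_7]⟩) (.leaf ⟨9162608932,
  349787377406251319366784,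
  51990874229155599467949471232391553445181631526543824718853051121369422702313687, 133285, [P1p1_2,
  P1p1_4, P1p1_6, P1p1_7, P1p2_4, P1p2_6, P1p2_7, P1p3_4, P1p3_6, P1p3_7, P1p5_6, P1p5_7, P1p8_0,
  P1p8_6, P1p8_7]⟩))) (.node 262 (.node 261 (.leaf ⟨9162756376, 154805223830935234974919,
  51990874229155599467955748429628760536234674551545926027390969927620387238117377, 133257, [P1p1_0,
  P1p1_2, P1p1_3, P1p1_4, P1p2_0, P1p2_3, P1p2_4, P1p3_0, P1p3_4, P1p4_0, P1p5_0, P1p5_6, P1p5_7,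
  P1p8_0, P1p8_6, P1p8_7]⟩) (.leaf ⟨1684117572, 11271145134868000724648166,
  44464388423553737004521003560996286624072575706159202168950097940777616386556289, 20889, [P1p0_7,
  P1p0_8, P1p1_0, P1p1_7, P1p1_8, P1p2_0, P1p2_1, P1p2_7, P1p2_8, P1p3_0, P1p3_1, P1p3_2, P1p3_7,
  P1p3_8, P1p4_0, P1p4_1, P1p4_2, P1p4_3, P1p4_7, P1p4_8, P1p5_6, P1p8_7]⟩)) (.node 263 (.leaf
  ⟨1684166724, 3783833076275835125858432,
  44464388423553737004520966110065050853994152653298930786081859548448624499229063, 20901, [P1p0_7,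
  P1p0_8, P1p1_2, P1p4_3, P1p5_6, P1p8_7]⟩) (.leaf ⟨1682462788, 3783833185454144308346912,
  44464388423553737004520965343840665116270054420700024857109892681937307498840479, 20741, [P1p0_7,
  P1p0_8, P1p2_1, P1p3_4, P1p5_6, P1p8_7]⟩)))) (.node 268 (.node 266 (.node 265 (.leaf ⟨1682217032,
  8775374590496124568965220,
  44464388423553737004520965344403351520354695466351311180984216820263188991902081, 20745, [P1p0_7,
  P1p0_8, P1p1_0, P1p1_2, P1p1_4, P1p1_7, P1p1_8, P1p2_0, P1p2_4, P1p2_7, P1p2_8, P1p3_0, P1p3_4,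
  P1p3_7, P1p3_8, P1p5_6, P1p8_7]⟩) (.leaf ⟨1687263300, 7527489140367028538117251,
  44464388423553737004520965343840673702187966565288786192703463859658675961463169, 21081, [P1p0_7,
  P1p0_8, P1p1_0, P1p1_7, P1p1_8, P1p2_0, P1p2_1, P1p2_7, P1p2_8, P1p3_4, P1p5_6, P1p8_7]⟩)) (.node
  267 (.leaf ⟨1687312452, 3783833222642823015405792,
  44464388423553737004520965343840664982473069586972858693066950886264405730787743, 21093, [P1p0_7,
  P1p0_8, P1p1_2, P1p1_3, P1p1_4, P1p2_3, P1p2_4, P1p3_4, P1p5_6, P1p8_7]⟩) (.leaf ⟨1682479172,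
  5031718565743292535013441,
  44464388423553737004520965343840665071667885603323539271995339970520696328290717, 20745, [P1p0_7,
  P1p0_8, P1p1_0, P1p1_2, P1p1_3, P1p1_4, P1p1_7, P1p1_8, P1p3_4, P1p5_6, P1p8_7]⟩))) (.node 270
  (.node 269 (.leaf ⟨1680103576, 11271373485308808846807206,
  44464388423553737004521011606755720933748094517195599167856958128163398541836675, 20613, [P1p0_7,
  P1p0_8, P1p2_0, P1p2_1, P1p2_3, P1p2_4, P1p2_5, P1p2_6, P1p2_7, P1p2_8, P1p3_0, P1p3_1, P1p3_4,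
  P1p3_5, P1p3_6, P1p3_7, P1p3_8, P1p4_0, P1p4_1, P1p4_5, P1p4_6, P1p4_7, P1p4_8, P1p5_6, P1p8_7]⟩)
  (.leaf ⟨1687722052, 5031718417160788715505761,
  44464388423553737004520965726970395759471538915233030797210399378991409478762885, 21065, [P1p0_7,
  P1p0_8, P1p1_0, P1p1_2, P1p1_7, P1p1_8, P1p3_2, P1p3_4, P1p4_2, P1p5_6, P1p8_7]⟩)) (.node 271
  (.leaf ⟨1686657092, 3783833042501174382789696,
  44464388423553737004520966684750878990913587861072444391735475457645691672592783, 20997, [P1p0_7,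
  P1p0_8, P1p2_1, P1p4_1, P1p4_2, P1p4_3, P1p5_6, P1p8_7]⟩) (.leaf ⟨1686673476,
  5031718385599307440194625,
  44464388423553737004520966493188936338075311665825830676275032737398748961571213, 21001, [P1p0_7,
  P1p0_8, P1p1_0, P1p1_2, P1p1_3, P1p1_7, P1p1_8, P1p4_2, P1p4_3, P1p5_6, P1p8_7]⟩))))) (.node 280
  (.node 276 (.node 274 (.node 273 (.leaf ⟨1684297800, 7527489216962375783353411,
  44464388423553737004520966110065060019740285281420360231606206056457674902143363, 20869, [P1p0_7,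
  P1p0_8, P1p2_0, P1p2_1, P1p2_3, P1p2_4, P1p2_7, P1p2_8, P1p4_3, P1p5_6, P1p8_7]⟩) (.leaf
  ⟨1678874724, 7527489514165797609876611,
  47243440970225928969100189473371129357701753117210373351753184965922182969950617, 20569, [P1p0_3,
  P1p0_4, P1p0_7, P1p0_8, P1p1_0, P1p1_3, P1p1_4, P1p1_7, P1p1_8, P1p2_0, P1p2_1, P1p2_3, P1p2_4,
  P1p2_7, P1p2_8, P1p4_3, P1p5_3, P1p5_4, P1p5_6, P1p6_3, P1p6_4, P1p7_3, P1p7_4, P1p8_3, P1p8_4,
  P1p8_7]⟩)) (.node 275 (.leaf ⟨1679333476, 5031718754095131931190337,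
  47706616394671294296530060417051862956436906176684866335346933786326231286546845, 20553, [P1p0_2,
  P1p0_3, P1p0_4, P1p0_7, P1p0_8, P1p1_0, P1p1_2, P1p1_3, P1p1_4, P1p1_7, P1p1_8, P1p3_2, P1p4_2,
  P1p4_3, P1p5_2, P1p5_3, P1p5_4, P1p5_6, P1p6_2, P1p6_3, P1p6_4, P1p7_2, P1p7_3, P1p7_4, P1p8_2,
  P1p8_3, P1p8_4, P1p8_7]⟩) (.leaf ⟨1679923300, 8775374878692518939439268,
  46317090121335198314240447586616166829822822564354330190822177555962880762839441, 20633, [P1p0_4,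
  P1p0_7, P1p0_8, P1p1_0, P1p1_4, P1p1_7, P1p1_8, P1p2_0, P1p2_1, P1p2_4, P1p2_7, P1p2_8, P1p3_0,
  P1p3_1, P1p3_2, P1p3_4, P1p3_7, P1p3_8, P1p5_4, P1p5_6, P1p6_4, P1p7_4, P1p8_4, P1p8_7]⟩))) (.node
  278 (.node 277 (.leaf ⟨1679972452, 3783833362254411463893120,
  46317090121335198314240447586044710969903375643599534793634613846572866569503127, 20645, [P1p0_4,
  P1p0_7, P1p0_8, P1p1_2, P1p1_4, P1p2_4, P1p3_4, P1p5_4, P1p5_6, P1p6_4, P1p7_4, P1p8_4, P1p8_7]⟩)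
  (.leaf ⟨6750835268, 8769547583387110149751014,
  44464388433933474853604289435694310968751239608982348336722221438797951300272129, 100761, [P1p1_0,
  P1p2_0, P1p2_1, P1p3_0, P1p3_1, P1p3_2, P1p4_0, P1p4_1, P1p4_2, P1p4_3, P1p5_0, P1p5_6, P1p5_7,
  P1p5_8, P1p6_0, P1p6_7, P1p6_8, P1p8_7]⟩)) (.node 279 (.leaf ⟨6750884420,
  8769547583384773687541888,
  44464388433933474853604288765217281172357310535539863934097004477692631188504583, 100773, [P1p1_2,
  P1p4_3, P1p5_0, P1p5_6, P1p5_7, P1p5_8, P1p6_0, P1p6_7, P1p6_8, P1p8_7]⟩) (.leaf ⟨6749180484,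
  8769547692563082870030368,
  44464388433933474853604287998992895434633212302940958005125037611181314188115999, 100613, [P1p2_1,
  P1p3_4, P1p5_0, P1p5_6, P1p5_7, P1p5_8, P1p6_0, P1p6_7, P1p6_8, P1p8_7]⟩)))) (.node 284 (.node 282
  (.node 281 (.leaf ⟨6597939592, 1288062603963895912765540,
  46317090121335198314240447586046172493841792032575888153204559489956023700094977, 107785, [P1p1_0,
  P1p1_2, P1p1_4, P1p2_0, P1p2_4, P1p3_0, P1p3_4, P1p5_4, P1p5_6, P1p6_4, P1p7_4, P1p8_4, P1p8_7]⟩)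
  (.leaf ⟨6753980996, 12513317786704923177651331,
  44464388433933474853604334070343085729631961785193382991510182428980362008854529, 100953, [P1p1_0,
  P1p2_0, P1p2_1, P1p3_0, P1p3_4, P1p3_5, P1p3_6, P1p3_7, P1p3_8, P1p4_0, P1p4_5, P1p4_6, P1p4_7,
  P1p4_8, P1p5_0, P1p5_6, P1p5_7, P1p5_8, P1p6_0, P1p6_7, P1p6_8, P1p8_7]⟩)) (.node 283 (.leaf
  ⟨6754030148, 16257088066799502869371104,
  44464388433933474853604334070343085595998314979890759386646922139513075858932223, 100965, [P1p1_0,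
  P1p1_2, P1p1_3, P1p1_4, P1p1_5, P1p1_6, P1p1_7, P1p1_8, P1p2_0, P1p2_3, P1p2_4, P1p2_5, P1p2_6,
  P1p2_7, P1p2_8, P1p3_0, P1p3_4, P1p3_5, P1p3_6, P1p3_7, P1p3_8, P1p4_0, P1p4_5, P1p4_6, P1p4_7,
  P1p4_8, P1p5_0, P1p5_6, P1p5_7, P1p5_8, P1p6_0, P1p6_7, P1p6_8, P1p8_7]⟩) (.leaf ⟨6749196868,
  8769547729753926240600129,
  44464388433933474853604287998992895390031041491722478742636675544054112597049373, 100617, [P1p1_0,
  P1p1_2, P1p1_3, P1p1_4, P1p3_4, P1p5_0, P1p5_6, P1p5_7, P1p5_8, P1p6_0, P1p6_7, P1p6_8,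
  P1p8_7]⟩))) (.node 286 (.node 285 (.leaf ⟨6602985860, 1288062424875509626345699,
  44464388423553737004520965343840665138571139906759442182447350271702176549044225, 108121, [P1p1_0,
  P1p2_0, P1p2_1, P1p3_4, P1p5_6, P1p8_7]⟩) (.leaf ⟨6728864292, 5025786824006424525476992,
  44464388434796206308171149129106344480793916945911142754580379884620885526052927, 99429, [P1p1_2,
  P1p1_3, P1p1_4, P1p1_5, P1p2_3, P1p2_4, P1p2_5, P1p4_3, P1p6_0, P1p6_5, P1p6_7, P1p6_8, P1p8_7]⟩))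
  (.node 287 (.leaf ⟨6730043928, 5025783251453661725954214,
  44464388434850127024257728590421610952240087146829503730077494754975071464521731, 99461, [P1p2_0,
  P1p2_1, P1p2_3, P1p2_4, P1p3_0, P1p3_1, P1p3_4, P1p4_0, P1p4_1, P1p6_0, P1p6_1, P1p6_5, P1p6_7,
  P1p6_8, P1p8_7]⟩) (.leaf ⟨6729257508, 5025783253852792876533792,
  44464388434796206308171149703800940200270588761917800779040027866716847174713407, 99397, [P1p2_1,
  P1p3_1, P1p3_2, P1p4_1, P1p4_2, P1p4_3, P1p6_0, P1p6_5, P1p6_7, P1p6_8, P1p8_7]⟩)))))) (.node 304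
  (.node 296 (.node 292 (.node 290 (.node 289 (.leaf ⟨6603444612, 1288062388011012903311585,
  44927563847999102331950836287521407300931284407696647496199915571558830416592901, 108105, [P1p1_0,
  P1p1_2, P1p3_2, P1p3_4, P1p4_2, P1p5_2, P1p5_6, P1p6_2, P1p7_2, P1p8_2, P1p8_7]⟩) (.leaf
  ⟨6602379652, 1288062362115657569573088,
  46085502409112515650525513646679419386022704063218139741998494091671960682364943, 108037, [P1p2_1,
  P1p4_1, P1p4_2, P1p4_3, P1p5_1, P1p5_2, P1p5_3, P1p5_6, P1p6_1, P1p6_2, P1p6_3, P1p7_1, P1p7_2,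
  P1p7_3, P1p8_1, P1p8_2, P1p8_3, P1p8_7]⟩)) (.node 291 (.leaf ⟨6602396036,
  1288062362115315045931233,
  45853914696889832986810578174841970962454552130961515354384303398564776020541453, 108041, [P1p1_0,
  P1p1_2, P1p1_3, P1p4_2, P1p4_3, P1p5_2, P1p5_3, P1p5_6, P1p6_2, P1p6_3, P1p7_2, P1p7_3, P1p8_2,
  P1p8_3, P1p8_7]⟩) (.leaf ⟨6728815140, 5025786823899806257321091,
  44464388434796206308171149129106344636900154167149376985116315031390222384889913, 99417, [P1p1_0,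
  P1p1_3, P1p1_4, P1p1_5, P1p2_0, P1p2_1, P1p2_3, P1p2_4, P1p2_5, P1p4_3, P1p6_0, P1p6_5, P1p6_7,
  P1p6_8, P1p8_7]⟩))) (.node 294 (.node 293 (.leaf ⟨6751015496, 12513317863300270422887491,
  44464388433933474853604288765217292479007649329825525059542789122257835920130051, 100741, [P1p2_0,
  P1p2_1, P1p2_3, P1p2_4, P1p2_5, P1p2_6, P1p2_7, P1p2_8, P1p4_3, P1p5_0, P1p5_6, P1p5_7, P1p5_8,
  P1p6_0, P1p6_7, P1p6_8, P1p8_7]⟩) (.leaf ⟨6729273892, 5025784443965037774769217,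
  44464388434796206308171149512236074544157649016223035226212069394183825980653629, 99401, [P1p1_0,
  P1p1_2, P1p1_3, P1p1_4, P1p1_5, P1p3_2, P1p4_2, P1p4_3, P1p6_0, P1p6_5, P1p6_7, P1p6_8, P1p8_7]⟩))
  (.node 295 (.leaf ⟨6729863716, 5025788005005127852464292,
  44464388434796206308171148362938956615600240759758338567489044581811386395394097, 99481, [P1p1_0,
  P1p1_4, P1p1_5, P1p2_0, P1p2_1, P1p2_4, P1p2_5, P1p3_0, P1p3_1, P1p3_2, P1p3_4, P1p3_5, P1p6_0,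
  P1p6_5, P1p6_7, P1p6_8, P1p8_7]⟩) (.leaf ⟨6729912868, 5025786816125125177578624,
  44464388434796206308171148362928725948032687218092678543124095453904458008756279, 99493, [P1p1_2,
  P1p1_4, P1p1_5, P1p2_4, P1p2_5, P1p3_4, P1p3_5, P1p6_0, P1p6_5, P1p6_7, P1p6_8, P1p8_7]⟩))))
  (.node 300 (.node 298 (.node 297 (.leaf ⟨6730060312, 5025783288644403091051719,
  44464388434796206308171148458664390188468516694958711923922001313662931468091393, 99465, [P1p1_0,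
  P1p1_2, P1p1_3, P1p1_4, P1p2_0, P1p2_3, P1p2_4, P1p3_0, P1p3_4, P1p4_0, P1p6_0, P1p6_5, P1p6_7,
  P1p6_8, P1p8_7]⟩) (.leaf ⟨6583062916, 1288032637268548145813932,
  51759401358568240910744236188826403971371959379756153275024666302685118849875969, 106905, [P1p1_0,
  P1p2_0, P1p2_1, P1p3_0, P1p3_1, P1p3_2, P1p4_0, P1p4_1, P1p4_2, P1p4_3, P1p6_0, P1p6_1, P1p6_2,
  P1p6_3, P1p6_4, P1p6_5, P1p7_0, P1p7_1, P1p7_2, P1p7_3, P1p7_4, P1p7_5, P1p8_0, P1p8_1, P1p8_2,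
  P1p8_3, P1p8_4, P1p8_5, P1p8_7]⟩)) (.node 299 (.leaf ⟨6583112068, 1288032637259395570506048,
  50948844365788851587785901749532810742770322731188063056791306489281891503439879, 106917, [P1p1_2,
  P1p4_3, P1p6_3, P1p6_4, P1p6_5, P1p7_3, P1p7_4, P1p7_5, P1p8_3, P1p8_4, P1p8_5, P1p8_7]⟩) (.leaf
  ⟨6581145992, 1288032627968628616239171,
  50022493516898120932976376676093879627846996166458162931512529215980951819190275, 106757, [P1p2_0,
  P1p2_1, P1p2_4, P1p3_0, P1p3_1, P1p3_4, P1p6_4, P1p6_5, P1p7_4, P1p7_5, P1p8_4, P1p8_5,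
  P1p8_7]⟩))) (.node 302 (.node 301 (.leaf ⟨6581162376, 1288032628004776134744164,
  50022493516898120932976376676090956579970163507864901431080113554570476319211521, 106761, [P1p1_0,
  P1p1_2, P1p1_4, P1p2_0, P1p2_4, P1p3_0, P1p3_4, P1p6_4, P1p6_5, P1p7_4, P1p7_5, P1p8_4, P1p8_5,
  P1p8_7]⟩) (.leaf ⟨6586208644, 1288032448916389848324323,
  48169791819116659623357328061651636116920884012819778122980542023428053720367105, 107097, [P1p1_0,
  P1p2_0, P1p2_1, P1p3_4, P1p6_5, P1p7_5, P1p8_5, P1p8_7]⟩)) (.node 303 (.leaf ⟨6586257796,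
  1288032560487095672674528,
  48169791819116659623357328061651635960822813693002771020403590951968991199887391, 107109, [P1p1_2,
  P1p1_3, P1p1_4, P1p2_3, P1p2_4, P1p3_4, P1p6_5, P1p7_5, P1p8_5, P1p8_7]⟩) (.leaf ⟨6581408132,
  1288032746444507981191392,
  51643607502456899578893044213722622232652830991553962113662541341552744886829087, 106757, [P1p2_1,
  P1p3_4, P1p6_1, P1p6_2, P1p6_3, P1p6_4, P1p6_5, P1p7_1, P1p7_2, P1p7_3, P1p7_4, P1p7_5, P1p8_1,
  P1p8_2, P1p8_3, P1p8_4, P1p8_5, P1p8_7]⟩))))) (.node 312 (.node 308 (.node 306 (.node 305 (.leaf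
  ⟨6581424516, 1288032746444165457549537,
  51412019790234216915190663136917889778848458016013881189226445368164819834503197, 106761, [P1p1_0,
  P1p1_2, P1p1_3, P1p1_4, P1p3_4, P1p6_2, P1p6_3, P1p6_4, P1p6_5, P1p7_2, P1p7_3, P1p7_4, P1p7_5,
  P1p8_2, P1p8_3, P1p8_4, P1p8_5, P1p8_7]⟩) (.leaf ⟨6586667396, 1288032412051893125290209,
  48632967243562024950762090598390831556225685356064152771068697901506851449864197, 107081, [P1p1_0,
  P1p1_2, P1p3_2, P1p3_4, P1p4_2, P1p6_2, P1p6_5, P1p7_2, P1p7_5, P1p8_2, P1p8_5, P1p8_7]⟩)) (.node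
  307 (.leaf ⟨6585602436, 1288032386156537791551712,
  49790905804675438269273996940194976833678747117353568352706252867175341370507279, 107013, [P1p2_1,
  P1p4_1, P1p4_2, P1p4_3, P1p6_1, P1p6_2, P1p6_3, P1p6_5, P1p7_1, P1p7_2, P1p7_3, P1p7_5, P1p8_1,
  P1p8_2, P1p8_3, P1p8_5, P1p8_7]⟩) (.leaf ⟨6585618820, 1288032386156195267909857,
  49559318092452755605571615671828301771638266763943359297924266884957084777709581, 107017, [P1p1_0,
  P1p1_2, P1p1_3, P1p4_2, P1p4_3, P1p6_2, P1p6_3, P1p6_5, P1p7_2, P1p7_3, P1p7_5, P1p8_2, P1p8_3,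
  P1p8_5, P1p8_7]⟩))) (.node 310 (.node 309 (.leaf ⟨6728815128, 5025783149180426226077865,
  44464388435173651320777209380919628448882117846297781399249165592647215348645889, 99417, [P1p1_0,
  P1p2_0, P1p2_1, P1p4_0, P1p4_1, P1p4_2, P1p4_3, P1p6_0, P1p6_1, P1p6_2, P1p6_3, P1p6_5, P1p6_7,
  P1p6_8, P1p8_7]⟩) (.leaf ⟨6583243144, 1288032636975827870980163,
  50948844365788851587785901749532811344899630694652565782629900451066324591509507, 106885, [P1p2_0,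
  P1p2_1, P1p2_3, P1p2_4, P1p4_3, P1p6_3, P1p6_4, P1p6_5, P1p7_3, P1p7_4, P1p7_5, P1p8_3, P1p8_4,
  P1p8_5, P1p8_7]⟩)) (.node 311 (.leaf ⟨6729863704, 5025783177327923897143465,
  44464388434957968456430888853936051944555815685907860322109098688329869227917313, 99481, [P1p1_0,
  P1p2_0, P1p2_1, P1p3_0, P1p3_1, P1p3_2, P1p3_4, P1p4_0, P1p4_1, P1p4_2, P1p6_0, P1p6_1, P1p6_2,
  P1p6_5, P1p6_7, P1p6_8, P1p8_7]⟩) (.leaf ⟨6732403236, 5025786747411249078932512,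
  44464388434796206308171151427919807992005183455337657012112166592932024283955263, 99589, [P1p2_1,
  P1p3_4, P1p3_5, P1p4_5, P1p6_0, P1p6_5, P1p6_7, P1p6_8, P1p8_7]⟩)))) (.node 316 (.node 314 (.node
  313 (.leaf ⟨6549508676, 5031949003677403176796390,
  55580598610242478533760606816807814243701374173454500974604453543162177352892417, 104857, [P1p1_0,
  P1p2_0, P1p2_1, P1p3_0, P1p3_1, P1p3_2, P1p4_0, P1p4_1, P1p4_2, P1p4_3, P1p6_5, P1p7_5, P1p7_6,
  P1p8_5, P1p8_6, P1p8_7]⟩) (.leaf ⟨6549557828, 5031949003675063493361792,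
  55580598610242478533760606146330784447307445100012016571979236582056857241124871, 104869, [P1p1_2,
  P1p4_3, P1p6_5, P1p7_5, P1p7_6, P1p8_5, P1p8_6, P1p8_7]⟩)) (.node 315 (.leaf ⟨6547853892,
  5031949112853372675850272,
  55580598610242478533760605380106398709583346867413110643007269715545540240736287, 104709, [P1p2_1,
  P1p3_4, P1p6_5, P1p7_5, P1p7_6, P1p8_5, P1p8_6, P1p8_7]⟩) (.leaf ⟨1631885448,
  8775719638285175190074468,
  57433300308023939843480087623013437577594951203220113935715737561075010734457329, 17673, [P1p0_4,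
  P1p0_5, P1p0_6, P1p0_7, P1p0_8, P1p1_0, P1p1_2, P1p1_4, P1p1_5, P1p1_6, P1p1_7, P1p1_8, P1p2_0,
  P1p2_4, P1p2_5, P1p2_6, P1p2_7, P1p2_8, P1p3_0, P1p3_4, P1p3_5, P1p3_6, P1p3_7, P1p3_8, P1p5_4,
  P1p6_4, P1p6_5, P1p7_4, P1p7_5, P1p7_6, P1p8_4, P1p8_5, P1p8_6, P1p8_7]⟩))) (.node 318 (.node 317
  (.leaf ⟨6552654404, 8775719206995212983471235,
  55580598610242478533760651451456589004582096349665535629392414533344588061474817, 105049, [P1p1_0,
  P1p2_0, P1p2_1, P1p3_0, P1p3_4, P1p3_5, P1p3_6, P1p3_7, P1p3_8, P1p4_0, P1p4_5, P1p4_6, P1p4_7,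
  P1p4_8, P1p6_5, P1p7_5, P1p7_6, P1p8_5, P1p8_6, P1p8_7]⟩) (.leaf ⟨6552703556,
  12519489487089792675191008,
  55580598610242478533760651451456588870948449544362912024529154243877301911552511, 105061, [P1p1_0,
  P1p1_2, P1p1_3, P1p1_4, P1p1_5, P1p1_6, P1p1_7, P1p1_8, P1p2_0, P1p2_3, P1p2_4, P1p2_5, P1p2_6,
  P1p2_7, P1p2_8, P1p3_0, P1p3_4, P1p3_5, P1p3_6, P1p3_7, P1p3_8, P1p4_0, P1p4_5, P1p4_6, P1p4_7,
  P1p4_8, P1p6_5, P1p7_5, P1p7_6, P1p8_5, P1p8_6, P1p8_7]⟩)) (.node 319 (.leaf ⟨6547870276,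
  5031949150044216046420033,
  55580598610242478533760605380106398664981176056194631380518907648418338649669661, 104713, [P1p1_0,
  P1p1_2, P1p1_3, P1p1_4, P1p3_4, P1p6_5, P1p7_5, P1p7_6, P1p8_5, P1p8_6, P1p8_7]⟩) (.leaf
  ⟨1636931716, 7527795817487253962600867,
  55580598610242478533760605380106409436405465676664631594654779411889998580941281, 18009, [P1p0_5,
  P1p0_6, P1p0_7, P1p0_8, P1p1_0, P1p1_5, P1p1_6, P1p1_7, P1p1_8, P1p2_0, P1p2_1, P1p2_5, P1p2_6,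
  P1p2_7, P1p2_8, P1p3_4, P1p6_5, P1p7_5, P1p7_6, P1p8_5, P1p8_6, P1p8_7]⟩))))))

def P1T6 : Tr :=
  .node 346 (.node 333 (.node 326 (.node 323 (.node 321 (.leaf ⟨1628592420,
  11271566136988323942700160,
  55580598610242478533760606146330795687054530089329879109917814193751536334012927, 17509, [P1p0_5,
  P1p0_6, P1p0_7, P1p0_8, P1p1_2, P1p1_3, P1p1_4, P1p1_5, P1p1_6, P1p1_7, P1p1_8, P1p2_3, P1p2_4,
  P1p2_5, P1p2_6, P1p2_7, P1p2_8, P1p4_3, P1p6_5, P1p7_5, P1p7_6, P1p8_5, P1p8_6, P1p8_7]⟩) (.node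
  322 (.leaf ⟨1629772056, 11271566023200078178554022,
  55580598610242478533760651643021454527061386963946714470552237750997115811856867, 17541, [P1p0_5,
  P1p0_6, P1p0_7, P1p0_8, P1p2_0, P1p2_1, P1p2_3, P1p2_4, P1p2_5, P1p2_6, P1p2_7, P1p2_8, P1p3_0,
  P1p3_1, P1p3_4, P1p3_5, P1p3_6, P1p3_7, P1p3_8, P1p4_0, P1p4_1, P1p4_5, P1p4_6, P1p4_7, P1p4_8,
  P1p6_5, P1p7_5, P1p7_6, P1p8_5, P1p8_6, P1p8_7]⟩) (.leaf ⟨1628985636, 7527795857075338689480736,
  55580598610242478533760606721025381415644904137087796671141306623589755654111743, 17477, [P1p0_5,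
  P1p0_6, P1p0_7, P1p0_8, P1p2_1, P1p3_1, P1p3_2, P1p4_1, P1p4_2, P1p4_3, P1p6_5, P1p7_5, P1p7_6,
  P1p8_5, P1p8_6, P1p8_7]⟩))) (.node 324 (.leaf ⟨1637390468, 5031949001751981157820769,
  56043774034687843861190476323787140894244579346780995421450137299339960173986277, 17993, [P1p0_2,
  P1p0_5, P1p0_6, P1p0_7, P1p0_8, P1p1_0, P1p1_2, P1p1_5, P1p1_6, P1p1_7, P1p1_8, P1p3_2, P1p3_4,
  P1p4_2, P1p5_2, P1p6_2, P1p6_5, P1p7_2, P1p7_5, P1p7_6, P1p8_2, P1p8_5, P1p8_6, P1p8_7]⟩) (.node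
  325 (.leaf ⟨1636325508, 3784025589690188931802432,
  57201712595801257179765153682945152979335996510000787852156412300750050758099439, 17925, [P1p0_1,
  P1p0_2, P1p0_3, P1p0_5, P1p0_6, P1p0_7, P1p0_8, P1p2_1, P1p4_1, P1p4_2, P1p4_3, P1p5_1, P1p5_2,
  P1p5_3, P1p6_1, P1p6_2, P1p6_3, P1p6_5, P1p7_1, P1p7_2, P1p7_3, P1p7_5, P1p7_6, P1p8_1, P1p8_2,
  P1p8_3, P1p8_5, P1p8_6, P1p8_7]⟩) (.leaf ⟨1636341892, 5031948980359882927810913,
  56970124883578574516050218211107704555767847070046497104934491667094064453124589, 17929, [P1p0_2,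
  P1p0_3, P1p0_5, P1p0_6, P1p0_7, P1p0_8, P1p1_0, P1p1_2, P1p1_3, P1p1_5, P1p1_6, P1p1_7, P1p1_8,
  P1p4_2, P1p4_3, P1p5_2, P1p5_3, P1p6_2, P1p6_3, P1p6_5, P1p7_2, P1p7_3, P1p7_5, P1p7_6, P1p8_2,
  P1p8_3, P1p8_5, P1p8_6, P1p8_7]⟩)))) (.node 329 (.node 327 (.leaf ⟨1628543268,
  11271566136881708895769731,
  55580598610242478533760606146330795843160767310568113340453749340520873192849913, 17497, [P1p0_5,
  P1p0_6, P1p0_7, P1p0_8, P1p1_0, P1p1_3, P1p1_4, P1p1_5, P1p1_6, P1p1_7, P1p1_8, P1p2_0, P1p2_1,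
  P1p2_3, P1p2_4, P1p2_5, P1p2_6, P1p2_7, P1p2_8, P1p4_3, P1p6_5, P1p7_5, P1p7_6, P1p8_5, P1p8_6,
  P1p8_7]⟩) (.node 328 (.leaf ⟨6549688904, 8775719283590560228707395,
  55580598610242478533760606146330795753957783894297677697425021226622061972750339, 104837, [P1p2_0,
  P1p2_1, P1p2_3, P1p2_4, P1p2_5, P1p2_6, P1p2_7, P1p2_8, P1p4_3, P1p6_5, P1p7_5, P1p7_6, P1p8_5,
  P1p8_6, P1p8_7]⟩) (.leaf ⟨1629002020, 8775719283774035862883393,
  55580598610242478533760606529460515759531966717542023741916125732719089950654973, 17481, [P1p0_5,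
  P1p0_6, P1p0_7, P1p0_8, P1p1_0, P1p1_2, P1p1_3, P1p1_4, P1p1_5, P1p1_6, P1p1_7, P1p1_8, P1p3_2,
  P1p4_2, P1p4_3, P1p6_5, P1p7_5, P1p7_6, P1p8_5, P1p8_6, P1p8_7]⟩))) (.node 331 (.node 330 (.leaf
  ⟨1629591844, 12519489554573481692338340,
  55580598610242478533760605380818160555385098410532325727883373683747894982607345, 17561, [P1p0_5,
  P1p0_6, P1p0_7, P1p0_8, P1p1_0, P1p1_4, P1p1_5, P1p1_6, P1p1_7, P1p1_8, P1p2_0, P1p2_1, P1p2_4,
  P1p2_5, P1p2_6, P1p2_7, P1p2_8, P1p3_0, P1p3_1, P1p3_2, P1p3_4, P1p3_5, P1p3_6, P1p3_7, P1p3_8,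
  P1p6_5, P1p7_5, P1p7_6, P1p8_5, P1p8_6, P1p8_7]⟩) (.leaf ⟨1629640996, 11271566129107024594801792,
  55580598610242478533760605380807929887817544868866665703518424555840966595969527, 17573, [P1p0_5,
  P1p0_6, P1p0_7, P1p0_8, P1p1_2, P1p1_4, P1p1_5, P1p1_6, P1p1_7, P1p1_8, P1p2_4, P1p2_5, P1p2_6,
  P1p2_7, P1p2_8, P1p3_4, P1p3_5, P1p3_6, P1p3_7, P1p3_8, P1p6_5, P1p7_5, P1p7_6, P1p8_5, P1p8_6,
  P1p8_7]⟩)) (.node 332 (.leaf ⟨1629788440, 12519489449898775350875335,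
  55580598610242478533760651451456588870948449544400941541327056859563500154978785, 17545, [P1p0_5,
  P1p0_6, P1p0_7, P1p0_8, P1p1_0, P1p1_2, P1p1_3, P1p1_4, P1p1_5, P1p1_6, P1p1_7, P1p1_8, P1p2_0,
  P1p2_3, P1p2_4, P1p2_5, P1p2_6, P1p2_7, P1p2_8, P1p3_0, P1p3_4, P1p3_5, P1p3_6, P1p3_7, P1p3_8,
  P1p4_0, P1p4_5, P1p4_6, P1p4_7, P1p4_8, P1p6_5, P1p7_5, P1p7_6, P1p8_5, P1p8_6, P1p8_7]⟩) (.leaf
  ⟨1645369636, 11271551149008764053689472,
  51875195214679555917334650494908309408382993566903841738879173648735450258997727, 18533, [P1p0_6,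
  P1p0_7, P1p0_8, P1p1_2, P1p1_3, P1p1_4, P1p1_6, P1p1_7, P1p1_8, P1p2_3, P1p2_4, P1p2_6, P1p2_7,
  P1p2_8, P1p4_3, P1p5_6, P1p5_7, P1p5_8, P1p7_6, P1p8_6, P1p8_7]⟩))))) (.node 339 (.node 336 (.node
  334 (.leaf ⟨1646549272, 11271551035220518290624678,
  51875195214679555917353524231767278506509052365867227356611100091183070166843843, 18565, [P1p0_6,
  P1p0_7, P1p0_8, P1p2_0, P1p2_1, P1p2_3, P1p2_4, P1p2_6, P1p2_7, P1p2_8, P1p3_0, P1p3_1, P1p3_4,
  P1p3_6, P1p3_7, P1p3_8, P1p4_0, P1p4_1, P1p4_6, P1p4_7, P1p4_8, P1p5_0, P1p5_1, P1p5_6, P1p5_7,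
  P1p5_8, P1p7_6, P1p8_6, P1p8_7]⟩) (.node 335 (.leaf ⟨1645762852, 7527784327860292621010976,
  51875195214679555917334651069602895850608103169536669333190962903734936888279519, 18501, [P1p0_6,
  P1p0_7, P1p0_8, P1p2_1, P1p3_1, P1p3_2, P1p4_1, P1p4_2, P1p4_3, P1p5_6, P1p5_7, P1p5_8, P1p7_6,
  P1p8_6, P1p8_7]⟩) (.leaf ⟨1645320484, 11271551148902149006759043,
  51875195214679555917334650494908309564489230788142075969415108795504787117834713, 18521, [P1p0_6,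
  P1p0_7, P1p0_8, P1p1_0, P1p1_3, P1p1_4, P1p1_6, P1p1_7, P1p1_8, P1p2_0, P1p2_1, P1p2_3, P1p2_4,
  P1p2_6, P1p2_7, P1p2_8, P1p4_3, P1p5_6, P1p5_7, P1p5_8, P1p7_6, P1p8_6, P1p8_7]⟩))) (.node 337
  (.leaf ⟨1645779236, 8775706601637485187566657,
  51875195214679555917334650878038030194495165583837396930851297899888388649779677, 18505, [P1p0_6,
  P1p0_7, P1p0_8, P1p1_0, P1p1_2, P1p1_3, P1p1_4, P1p1_6, P1p1_7, P1p1_8, P1p3_2, P1p4_2, P1p4_3,
  P1p5_6, P1p5_7, P1p5_8, P1p7_6, P1p8_6, P1p8_7]⟩) (.node 338 (.leaf ⟨1646369060,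
  12519473413672417196480676,
  51875195214679555917334649729348906224318972994723770442197812082102819066216913, 18585, [P1p0_6,
  P1p0_7, P1p0_8, P1p1_0, P1p1_4, P1p1_6, P1p1_7, P1p1_8, P1p2_0, P1p2_1, P1p2_4, P1p2_6, P1p2_7,
  P1p2_8, P1p3_0, P1p3_1, P1p3_2, P1p3_4, P1p3_6, P1p3_7, P1p3_8, P1p5_6, P1p5_7, P1p5_8, P1p7_6,
  P1p8_6, P1p8_7]⟩) (.leaf ⟨1646418212, 11271551141127464705791104,
  51875195214679555917334649729338675556751419453058110417832862954195890679579095, 18597, [P1p0_6,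
  P1p0_7, P1p0_8, P1p1_2, P1p1_4, P1p1_6, P1p1_7, P1p1_8, P1p2_4, P1p2_6, P1p2_7, P1p2_8, P1p3_4,
  P1p3_6, P1p3_7, P1p3_8, P1p5_6, P1p5_7, P1p5_8, P1p7_6, P1p8_6, P1p8_7]⟩)))) (.node 342 (.node 340
  (.leaf ⟨1646565656, 12519473308997710856099015,
  51875195214679555917340969836731639488868443201321539621439230375884643905896897, 18569, [P1p0_6,
  P1p0_7, P1p0_8, P1p1_0, P1p1_2, P1p1_3, P1p1_4, P1p1_6, P1p1_7, P1p1_8, P1p2_0, P1p2_3, P1p2_4,
  P1p2_6, P1p2_7, P1p2_8, P1p3_0, P1p3_4, P1p3_6, P1p3_7, P1p3_8, P1p4_0, P1p4_6, P1p4_7, P1p4_8,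
  P1p5_0, P1p5_6, P1p5_7, P1p5_8, P1p7_6, P1p8_6, P1p8_7]⟩) (.node 341 (.leaf ⟨6514053512,
  1288290882421808068466788,
  57433300308023920097726700651137960904189011683427305747433911563123151527280641, 102665, [P1p1_0,
  P1p1_2, P1p1_4, P1p2_0, P1p2_4, P1p3_0, P1p3_4, P1p5_6, P1p7_4, P1p7_5, P1p7_6, P1p8_4, P1p8_5,
  P1p8_6, P1p8_7]⟩) (.leaf ⟨6544265496, 1288178808349853899496716,
  57317506451912598511622621418863877191120072515032187772692649831767081137143809, 104537, [P1p1_0,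
  P1p2_0, P1p2_1, P1p4_0, P1p4_1, P1p4_2, P1p4_3, P1p5_0, P1p5_1, P1p5_2, P1p5_3, P1p6_0, P1p6_1,
  P1p6_2, P1p6_3, P1p6_5, P1p7_0, P1p7_1, P1p7_2, P1p7_3, P1p7_5, P1p7_6, P1p8_0, P1p8_1, P1p8_2,
  P1p8_3, P1p8_5, P1p8_6, P1p8_7]⟩))) (.node 344 (.node 343 (.leaf ⟨6519558532,
  1288290666468925059012833,
  56043774034687829052026086537055962345352081203678072035630092810799116703760389, 102985, [P1p1_0,
  P1p1_2, P1p3_2, P1p3_4, P1p4_2, P1p5_6, P1p7_2, P1p7_5, P1p7_6, P1p8_2, P1p8_5, P1p8_6, P1p8_7]⟩)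
  (.leaf ⟨6519099780, 1288290703333421782046947,
  55580598610242465370125881321522809061016462417784202370277802566300182322872321, 103001, [P1p1_0,
  P1p2_0, P1p2_1, P1p3_4, P1p5_6, P1p7_5, P1p7_6, P1p8_5, P1p8_6, P1p8_7]⟩)) (.node 345 (.leaf
  ⟨6551802136, 1288179095479240954682732,
  58475445013026011830197297245557039409487336926016962825771258823897190452232193, 104969, [P1p1_0,
  P1p1_2, P1p2_0, P1p3_0, P1p4_0, P1p4_3, P1p5_0, P1p5_3, P1p5_4, P1p6_0, P1p6_3, P1p6_4, P1p6_5,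
  P1p7_0, P1p7_3, P1p7_4, P1p7_5, P1p7_6, P1p8_0, P1p8_3, P1p8_4, P1p8_5, P1p8_6, P1p8_7]⟩) (.leaf
  ⟨6515954052, 1288290891685580079536556,
  59170208149694033904852470209350750214456372965254163906118968185313306500661249, 102809, [P1p1_0,
  P1p2_0, P1p2_1, P1p3_0, P1p3_1, P1p3_2, P1p4_0, P1p4_1, P1p4_2, P1p4_3, P1p5_6, P1p7_0, P1p7_1,
  P1p7_2, P1p7_3, P1p7_4, P1p7_5, P1p7_6, P1p8_0, P1p8_1, P1p8_2, P1p8_3, P1p8_4, P1p8_5, P1p8_6,
  P1p8_7]⟩)))))) (.node 359 (.node 352 (.node 349 (.node 347 (.leaf ⟨6516003204,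
  1288290891676427504228672,
  58359651156914647461527111082167730757050805792049457407673373230674840014290951, 102821, [P1p1_2,
  P1p4_3, P1p5_6, P1p7_3, P1p7_4, P1p7_5, P1p7_6, P1p8_3, P1p8_4, P1p8_5, P1p8_6, P1p8_7]⟩) (.node
  348 (.leaf ⟨6514037128, 1288290882385660549961795,
  57433300308023920097726700651140883952065844342020567247866327224533627027259395, 102661, [P1p2_0,
  P1p2_1, P1p2_4, P1p3_0, P1p3_1, P1p3_4, P1p5_6, P1p7_4, P1p7_5, P1p7_6, P1p8_4, P1p8_5, P1p8_6,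
  P1p8_7]⟩) (.leaf ⟨6519148932, 1288290814904127606397152,
  55580598610242465370125881321522808904918392097967195267700851494841119802392607, 103013, [P1p1_2,
  P1p1_3, P1p1_4, P1p2_3, P1p2_4, P1p3_4, P1p5_6, P1p7_5, P1p7_6, P1p8_5, P1p8_6, P1p8_7]⟩))) (.node
  350 (.leaf ⟨6514299268, 1288291000861539914914016,
  59054414293582692984377417564548479014479540216389598990440809632575898374766623, 102661, [P1p2_1,
  P1p3_4, P1p5_6, P1p7_1, P1p7_2, P1p7_3, P1p7_4, P1p7_5, P1p7_6, P1p8_1, P1p8_2, P1p8_3, P1p8_4,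
  P1p8_5, P1p8_6, P1p8_7]⟩) (.node 351 (.leaf ⟨6514315652, 1288291000861197391272161,
  58822826581360011143427315148346767638159758519524770557372646475977904996745245, 102665, [P1p1_0,
  P1p1_2, P1p1_3, P1p1_4, P1p3_4, P1p5_6, P1p7_2, P1p7_3, P1p7_4, P1p7_5, P1p7_6, P1p8_2, P1p8_3,
  P1p8_4, P1p8_5, P1p8_6, P1p8_7]⟩) (.leaf ⟨6518493572, 1288290640573569725274336,
  57201712595801238256776599575845002235382186571591225160427983692517948252880911, 102917, [P1p2_1,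
  P1p4_1, P1p4_2, P1p4_3, P1p5_6, P1p7_1, P1p7_2, P1p7_3, P1p7_5, P1p7_6, P1p8_1, P1p8_2, P1p8_3,
  P1p8_5, P1p8_6, P1p8_7]⟩)))) (.node 355 (.node 353 (.leaf ⟨6518509956, 1288290640573227201632481,
  56970124883578556415826496968081348250826297496856268597013930527089623334387725, 102921, [P1p1_0,
  P1p1_2, P1p1_3, P1p4_2, P1p4_3, P1p5_6, P1p7_2, P1p7_3, P1p7_5, P1p7_6, P1p8_2, P1p8_3, P1p8_5,
  P1p8_6, P1p8_7]⟩) (.node 354 (.leaf ⟨6594597144, 1288100402714225286317126,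
  44464388423553737004520966780531850317332726994528550913967257054825611420172289, 107609, [P1p1_0,
  P1p2_0, P1p2_1, P1p4_0, P1p4_1, P1p4_2, P1p4_3, P1p5_6, P1p8_7]⟩) (.leaf ⟨6595940626,
  1288100620049219107953762,
  44464388423553737004520965343840665116270054420671978125056543541504166271516702, 107681, [P1p0_1,
  P1p0_2, P1p0_3, P1p0_4, P1p2_1, P1p3_4, P1p5_6, P1p8_7]⟩))) (.node 357 (.node 356 (.leaf
  ⟨6595944721, 8775412567066000589066244,
  44464388423553737004520965343840673702187966565288786192703463886680273752883585, 107682, [P1p0_7,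
  P1p0_8, P1p1_0, P1p1_7, P1p1_8, P1p2_0, P1p2_1, P1p2_7, P1p2_8, P1p3_4, P1p5_6, P1p8_7]⟩) (.leaf
  ⟨6516134280, 1288290891392859804702787,
  58359651156914647461527111082167731359180113755513960133511967192459273102360579, 102789, [P1p2_0,
  P1p2_1, P1p2_3, P1p2_4, P1p4_3, P1p5_6, P1p7_3, P1p7_4, P1p7_5, P1p7_6, P1p8_3, P1p8_4, P1p8_5,
  P1p8_6, P1p8_7]⟩)) (.node 358 (.leaf ⟨6595645720, 1288100434275741995108455,
  44464388423553737004520966014317694243640946994228736957679393571469410555068417, 107673, [P1p1_0,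
  P1p2_0, P1p2_1, P1p3_0, P1p3_1, P1p3_2, P1p3_4, P1p4_0, P1p4_1, P1p4_2, P1p5_6, P1p8_7]⟩) (.leaf
  ⟨6595694884, 1295412442563281498084480,
  44464388423553737004520965343980971102152359042995991414803978666345647460843639, 107685, [P1p1_2,
  P1p1_4, P1p1_5, P1p1_6, P1p2_4, P1p2_5, P1p2_6, P1p3_4, P1p3_5, P1p3_6, P1p5_6, P1p8_7]⟩)))))
  (.node 366 (.node 362 (.node 360 (.leaf ⟨6598185252, 1295412373849405399438368,
  44464388423553737004520974538954216609658510309839139477138160079502304234831999, 107781, [P1p2_1,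
  P1p3_4, P1p3_5, P1p3_6, P1p4_5, P1p4_6, P1p5_6, P1p8_7]⟩) (.node 361 (.leaf ⟨4586576004,
  1224274813569236549569865,
  29643453314025873173181887475317622107867619752691199557835298658016334138310657, 66969, [P1p1_0,
  P1p2_0, P1p2_1, P1p3_0, P1p3_1, P1p3_2, P1p4_0, P1p4_1, P1p4_2, P1p4_3, P1p5_0, P1p5_1, P1p5_2,
  P1p5_3, P1p5_4, P1p6_0, P1p6_1, P1p6_2, P1p6_3, P1p6_4, P1p6_5, P1p7_8]⟩) (.leaf ⟨4586625156,
  1213649488977031796428000,
  29643453314025870293504971780582311774930770677922877770509600348064675792945159, 66981, [P1p1_2,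
  P1p4_3, P1p5_3, P1p5_4, P1p6_3, P1p6_4, P1p6_5, P1p7_8]⟩))) (.node 364 (.node 363 (.leaf
  ⟨4584659080, 1217191258031670016674883,
  29643453314025867002445639558067132540767201340392712996221208586839391166726147, 66821, [P1p2_0,
  P1p2_1, P1p2_4, P1p3_0, P1p3_1, P1p3_4, P1p5_4, P1p6_4, P1p6_5, P1p7_8]⟩) (.leaf ⟨4589770884,
  1213649523774375792285920,
  29643453314025860420326976645472392635262533321336791787093041346978740663484447, 67173, [P1p1_2,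
  P1p1_3, P1p1_4, P1p2_3, P1p2_4, P1p3_4, P1p6_5, P1p7_8]⟩)) (.node 365 (.leaf ⟨4584921220,
  1213649598158742593014912,
  29643453314025872761799469606579309354243461017888975314138046066278787882811423, 66821, [P1p2_1,
  P1p3_4, P1p5_1, P1p5_2, P1p5_3, P1p5_4, P1p6_1, P1p6_2, P1p6_3, P1p6_4, P1p6_5, P1p7_8]⟩) (.leaf
  ⟨4584937604, 1214830189779220594494593,
  29643453314025871939034636742505514870629027349148828227449546470909776594993181, 66825, [P1p1_0,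
  P1p1_2, P1p1_3, P1p1_4, P1p3_4, P1p5_2, P1p5_3, P1p5_4, P1p6_2, P1p6_3, P1p6_4, P1p6_5,
  P1p7_8]⟩)))) (.node 369 (.node 367 (.leaf ⟨4849766680, 4951516554053013797340230,
  29643453326966634820559285183603745211891613452268737525511547772369375650054145, 66649, [P1p1_0,
  P1p2_0, P1p2_1, P1p4_0, P1p4_1, P1p4_2, P1p4_3, P1p6_5, P1p7_8]⟩) (.node 368 (.leaf ⟨4850815256,
  4951516585614530506131559,
  29643453326966634820559284417389589138199833451968923569223684289013174784950273, 66713, [P1p1_0,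
  P1p2_0, P1p2_1, P1p3_0, P1p3_1, P1p3_2, P1p3_4, P1p4_0, P1p4_1, P1p4_2, P1p6_5, P1p7_8]⟩) (.leaf
  ⟨4853354788, 12439057034053711928955936,
  29643453326966634820559329722480317477771220324257479021581727023305346556756479, 66821, [P1p2_1,
  P1p3_4, P1p3_5, P1p3_6, P1p3_7, P1p3_8, P1p4_5, P1p4_6, P1p4_7, P1p4_8, P1p6_5, P1p7_8]⟩))) (.node
  371 (.node 370 (.leaf ⟨4908931140, 4951438186952209897588832,
  29643453324378624747726008744904065481275977579336496338066596981127618096398343, 70213, [P1p2_1,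
  P1p3_1, P1p3_2, P1p3_4, P1p4_1, P1p4_2, P1p5_6, P1p5_7, P1p5_8, P1p6_7, P1p6_8, P1p7_8]⟩) (.leaf
  ⟨4907620424, 4951438151973416453017700,
  29643453324378624747726009223781153403855063347649123824572916041272452540727299, 70149, [P1p2_0,
  P1p2_1, P1p3_0, P1p3_1, P1p4_0, P1p4_1, P1p4_3, P1p5_6, P1p5_7, P1p5_8, P1p6_7, P1p6_8, P1p7_8]⟩))
  (.node 372 (.leaf ⟨4900149348, 4951438486402930412068992,
  32422505871050816712305232299739924703670189858955288311609389204823621808685087, 69733, [P1p0_3,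
  P1p0_4, P1p1_2, P1p1_3, P1p1_4, P1p2_3, P1p2_4, P1p4_3, P1p5_3, P1p5_4, P1p5_6, P1p5_7, P1p5_8,
  P1p6_3, P1p6_4, P1p6_7, P1p6_8, P1p7_3, P1p7_4, P1p7_8, P1p8_3, P1p8_4]⟩) (.leaf ⟨4900542564,
  4951438486695812821917728,
  33117269007718864703450038715261038448971218459341382722472235449555366621085727, 69701, [P1p0_1,
  P1p0_2, P1p0_3, P1p0_4, P1p2_1, P1p3_1, P1p3_2, P1p4_1, P1p4_2, P1p4_3, P1p5_1, P1p5_2, P1p5_3,
  P1p5_4, P1p5_6, P1p5_7, P1p5_8, P1p6_1, P1p6_2, P1p6_3, P1p6_4, P1p6_7, P1p6_8, P1p7_1, P1p7_2,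
  P1p7_3, P1p7_4, P1p7_8, P1p8_1, P1p8_2, P1p8_3, P1p8_4]⟩))))))

/-- The table of P1. -/
def P1T : Tr :=
  (.node 192 (.node 64 P1T1 (.node 128 P1T2 P1T3)) (.node 256 P1T4 (.node 320 P1T5 P1T6)))

theorem P1T1_ok : P1T1.all (qEntry (P1).t P1ie P1te) = true := by
  decide +kernel

theorem P1T2_ok : P1T2.all (qEntry (P1).t P1ie P1te) = true := by
  decide +kernel

theorem P1T3_ok : P1T3.all (qEntry (P1).t P1ie P1te) = true := by
  decide +kernel

theorem P1T4_ok : P1T4.all (qEntry (P1).t P1ie P1te) = true := by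
  decide +kernel

theorem P1T5_ok : P1T5.all (qEntry (P1).t P1ie P1te) = true := by
  decide +kernel

theorem P1T6_ok : P1T6.all (qEntry (P1).t P1ie P1te) = true := by
  decide +kernel

theorem P1T_ok : P1T.all (qEntry (P1).t P1ie P1te) = true :=
  (Tr.all_node (Tr.all_node P1T1_ok (Tr.all_node P1T2_ok P1T3_ok)) (Tr.all_node P1T4_ok (Tr.all_node
  P1T5_ok P1T6_ok)))

end Pool.Agent.T1Red
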