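import Pool.Agent.Work.MP_392c8e_co_uni.PtsWalk
import Pool.Agent.Work.MP_392c8e_co_uni.Inst.P2Q1
import Pool.Agent.Work.MP_392c8e_co_uni.Inst.P2Q2
import Pool.Agent.Work.MP_392c8e_co_uni.Inst.P2Q3
import Pool.Agent.Work.MP_392c8e_co_uni.Inst.P2Q4

/-!
# The extension property of the reducer P2
-/

namespace Pool.Agent.T1Red

/-- All patterns. -/
def P2C : List (Nat × List Nat) :=
  P2C1_1 ++ (P2C1_2 ++ (P2C1_3 ++ (P2C1_4 ++ (P2C1_5 ++ (P2C1_6 ++ (P2C1_7 ++ (P2C1_8 ++ (P2C1_9 ++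
  (P2C1_10 ++ (P2C1_11 ++ (P2C1_12 ++ (P2C1_13 ++ (P2C1_14 ++ (P2C1_15 ++ (P2C1_16 ++ (P2C1_17 ++
  (P2C1_18 ++ (P2C1_19 ++ (P2C1_20 ++ (P2C1_21 ++ (P2C2_1 ++ (P2C2_2 ++ (P2C2_3 ++ (P2C2_4 ++
  (P2C2_5 ++ (P2C2_6 ++ (P2C2_7 ++ (P2C2_8 ++ (P2C2_9 ++ (P2C2_10 ++ (P2C2_11 ++ (P2C2_12 ++
  (P2C2_13 ++ (P2C2_14 ++ (P2C2_15 ++ (P2C2_16 ++ (P2C2_17 ++ (P2C2_18 ++ (P2C2_19 ++ (P2C2_20 ++
  (P2C2_21 ++ (P2C3_1 ++ (P2C3_2 ++ (P2C3_3 ++ (P2C3_4 ++ (P2C3_5 ++ (P2C3_6 ++ (P2C3_7 ++ (P2C3_8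
  ++ (P2C3_9 ++ (P2C3_10 ++ (P2C3_11 ++ (P2C3_12 ++ (P2C3_13 ++ (P2C3_14 ++ (P2C3_15 ++ (P2C3_16 ++
  (P2C3_17 ++ (P2C3_18 ++ (P2C3_19 ++ (P2C3_20 ++ (P2C3_21 ++ (P2C4_1 ++ (P2C4_2 ++ (P2C4_3 ++
  (P2C4_4 ++ (P2C4_5 ++ (P2C4_6 ++ (P2C4_7 ++ (P2C4_8 ++ (P2C4_9 ++ (P2C4_10 ++ (P2C4_11 ++ (P2C4_12
  ++ (P2C4_13 ++ (P2C4_14 ++ (P2C4_15 ++ (P2C4_16 ++ (P2C4_17 ++ (P2C4_18 ++ (P2C4_19 ++ (P2C4_20 ++
  (P2C4_21)))))))))))))))))))))))))))))))))))))))))))))))))))))))))))))))))))))))))))))))))))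

theorem P2C_ok : qcheckL (P2 (4, 6) (7, 9)) P2ne P2te P2T P2C = true :=
  qcheckL_append P2C1_1_ok ( qcheckL_append P2C1_2_ok ( qcheckL_append P2C1_3_ok ( qcheckL_append
  P2C1_4_ok ( qcheckL_append P2C1_5_ok ( qcheckL_append P2C1_6_ok ( qcheckL_append P2C1_7_ok (
  qcheckL_append P2C1_8_ok ( qcheckL_append P2C1_9_ok ( qcheckL_append P2C1_10_ok ( qcheckL_append
  P2C1_11_ok ( qcheckL_append P2C1_12_ok ( qcheckL_append P2C1_13_ok ( qcheckL_append P2C1_14_ok (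
  qcheckL_append P2C1_15_ok ( qcheckL_append P2C1_16_ok ( qcheckL_append P2C1_17_ok ( qcheckL_append
  P2C1_18_ok ( qcheckL_append P2C1_19_ok ( qcheckL_append P2C1_20_ok ( qcheckL_append P2C1_21_ok (
  qcheckL_append P2C2_1_ok ( qcheckL_append P2C2_2_ok ( qcheckL_append P2C2_3_ok ( qcheckL_append
  P2C2_4_ok ( qcheckL_append P2C2_5_ok ( qcheckL_append P2C2_6_ok ( qcheckL_append P2C2_7_ok (
  qcheckL_append P2C2_8_ok ( qcheckL_append P2C2_9_ok ( qcheckL_append P2C2_10_ok ( qcheckL_append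
  P2C2_11_ok ( qcheckL_append P2C2_12_ok ( qcheckL_append P2C2_13_ok ( qcheckL_append P2C2_14_ok (
  qcheckL_append P2C2_15_ok ( qcheckL_append P2C2_16_ok ( qcheckL_append P2C2_17_ok ( qcheckL_append
  P2C2_18_ok ( qcheckL_append P2C2_19_ok ( qcheckL_append P2C2_20_ok ( qcheckL_append P2C2_21_ok (
  qcheckL_append P2C3_1_ok ( qcheckL_append P2C3_2_ok ( qcheckL_append P2C3_3_ok ( qcheckL_append
  P2C3_4_ok ( qcheckL_append P2C3_5_ok ( qcheckL_append P2C3_6_ok ( qcheckL_append P2C3_7_ok (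
  qcheckL_append P2C3_8_ok ( qcheckL_append P2C3_9_ok ( qcheckL_append P2C3_10_ok ( qcheckL_append
  P2C3_11_ok ( qcheckL_append P2C3_12_ok ( qcheckL_append P2C3_13_ok ( qcheckL_append P2C3_14_ok (
  qcheckL_append P2C3_15_ok ( qcheckL_append P2C3_16_ok ( qcheckL_append P2C3_17_ok ( qcheckL_append
  P2C3_18_ok ( qcheckL_append P2C3_19_ok ( qcheckL_append P2C3_20_ok ( qcheckL_append P2C3_21_ok (
  qcheckL_append P2C4_1_ok ( qcheckL_append P2C4_2_ok ( qcheckL_append P2C4_3_ok ( qcheckL_append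
  P2C4_4_ok ( qcheckL_append P2C4_5_ok ( qcheckL_append P2C4_6_ok ( qcheckL_append P2C4_7_ok (
  qcheckL_append P2C4_8_ok ( qcheckL_append P2C4_9_ok ( qcheckL_append P2C4_10_ok ( qcheckL_append
  P2C4_11_ok ( qcheckL_append P2C4_12_ok ( qcheckL_append P2C4_13_ok ( qcheckL_append P2C4_14_ok (
  qcheckL_append P2C4_15_ok ( qcheckL_append P2C4_16_ok ( qcheckL_append P2C4_17_ok ( qcheckL_append
  P2C4_18_ok ( qcheckL_append P2C4_19_ok ( qcheckL_append P2C4_20_ok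
  (P2C4_21_ok)))))))))))))))))))))))))))))))))))))))))))))))))))))))))))))))))))))))))))))))))))

theorem P2C_pts : Red.pts (P2 (4, 6) (7, 9)) = P2C.map Prod.fst :=
  pts_of_walk [[], [], [2], [], [], [2], [], [1], []] [1] (by decide +kernel)
    (by decide +kernel) (by decide +kernel)

/-- The extension property of P2. -/
theorem P2_ext (co : List (Nat × Nat)) (h : neOK (P2 (4, 6) (7, 9)) co = true) : Red.Ext (P2 (4, 6) (7, 9)) co :=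
  Red.ext_of_quick (by decide +kernel) (by decide +kernel : Red.ie (P2 (4, 6) (7, 9)) = P2ie)
    (by decide +kernel : Red.te (P2 (4, 6) (7, 9)) = P2te)
    (by decide +kernel : neP (Red.ne (P2 (4, 6) (7, 9))) P2ne = true) P2T_ok P2C_ok P2C_pts h

end Pool.Agent.T1Red
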