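import Pool.Agent.Work.MP_392c8e_co_uni.Quick
import Pool.Agent.Work.MP_392c8e_co_uni.RedP

/-!
# The table of the reducer P2
-/

namespace Pool.Agent.T1Red

/-- The edges between interior vertices. -/
def P2ie : List (Nat × Nat) :=
  [(10, 11), (10, 16), (10, 17), (11, 12), (11, 19), (12, 13), (12, 21), (13, 14), (13, 22), (14,
  15), (14, 24), (15, 16), (15, 25), (16, 27), (17, 18), (18, 19), (19, 20), (20, 21), (22, 23),
  (23, 24), (25, 26), (26, 27)]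

/-- The packed matrix of the pairs with different values. -/
def P2ne : Nat := 6043719730845858803155627197008170433277592064

/-- The edges with a label. -/
def P2te : List (Nat × Nat) :=
  [(17, 0), (18, 1), (20, 2), (21, 3), (22, 4), (23, 5), (24, 6), (25, 7), (26, 8), (27, 9)]

def P2p0_1 : Nat × Nat × Nat × Nat := (3, 1, 0, 1)
def P2p0_2 : Nat × Nat × Nat × Nat := (5, 1, 0, 2)
def P2p0_3 : Nat × Nat × Nat × Nat := (9, 1, 0, 3)
def P2p0_4 : Nat × Nat × Nat × Nat := (17, 1, 0, 4)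
def P2p0_5 : Nat × Nat × Nat × Nat := (33, 1, 0, 5)
def P2p0_6 : Nat × Nat × Nat × Nat := (65, 1, 0, 6)
def P2p0_7 : Nat × Nat × Nat × Nat := (129, 1, 0, 7)
def P2p0_8 : Nat × Nat × Nat × Nat := (257, 1, 0, 8)
def P2p0_9 : Nat × Nat × Nat × Nat := (513, 1, 0, 9)
def P2p1_0 : Nat × Nat × Nat × Nat := (3, 2, 1, 0)
def P2p1_2 : Nat × Nat × Nat × Nat := (6, 2, 1, 2)
def P2p1_3 : Nat × Nat × Nat × Nat := (10, 2, 1, 3)
def P2p1_4 : Nat × Nat × Nat × Nat := (18, 2, 1, 4)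
def P2p1_5 : Nat × Nat × Nat × Nat := (34, 2, 1, 5)
def P2p1_6 : Nat × Nat × Nat × Nat := (66, 2, 1, 6)
def P2p1_7 : Nat × Nat × Nat × Nat := (130, 2, 1, 7)
def P2p1_8 : Nat × Nat × Nat × Nat := (258, 2, 1, 8)
def P2p1_9 : Nat × Nat × Nat × Nat := (514, 2, 1, 9)
def P2p2_0 : Nat × Nat × Nat × Nat := (5, 4, 2, 0)
def P2p2_1 : Nat × Nat × Nat × Nat := (6, 4, 2, 1)
def P2p2_3 : Nat × Nat × Nat × Nat := (12, 4, 2, 3)
def P2p2_4 : Nat × Nat × Nat × Nat := (20, 4, 2, 4)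
def P2p2_5 : Nat × Nat × Nat × Nat := (36, 4, 2, 5)
def P2p2_6 : Nat × Nat × Nat × Nat := (68, 4, 2, 6)
def P2p2_7 : Nat × Nat × Nat × Nat := (132, 4, 2, 7)
def P2p2_8 : Nat × Nat × Nat × Nat := (260, 4, 2, 8)
def P2p2_9 : Nat × Nat × Nat × Nat := (516, 4, 2, 9)
def P2p3_0 : Nat × Nat × Nat × Nat := (9, 8, 3, 0)
def P2p3_1 : Nat × Nat × Nat × Nat := (10, 8, 3, 1)
def P2p3_2 : Nat × Nat × Nat × Nat := (12, 8, 3, 2)
def P2p3_4 : Nat × Nat × Nat × Nat := (24, 8, 3, 4)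
def P2p3_5 : Nat × Nat × Nat × Nat := (40, 8, 3, 5)
def P2p3_6 : Nat × Nat × Nat × Nat := (72, 8, 3, 6)
def P2p3_7 : Nat × Nat × Nat × Nat := (136, 8, 3, 7)
def P2p3_8 : Nat × Nat × Nat × Nat := (264, 8, 3, 8)
def P2p3_9 : Nat × Nat × Nat × Nat := (520, 8, 3, 9)
def P2p4_0 : Nat × Nat × Nat × Nat := (17, 16, 4, 0)
def P2p4_1 : Nat × Nat × Nat × Nat := (18, 16, 4, 1)
def P2p4_2 : Nat × Nat × Nat × Nat := (20, 16, 4, 2)
def P2p4_3 : Nat × Nat × Nat × Nat := (24, 16, 4, 3)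
def P2p4_5 : Nat × Nat × Nat × Nat := (48, 16, 4, 5)
def P2p4_6 : Nat × Nat × Nat × Nat := (80, 16, 4, 6)
def P2p4_7 : Nat × Nat × Nat × Nat := (144, 16, 4, 7)
def P2p4_8 : Nat × Nat × Nat × Nat := (272, 16, 4, 8)
def P2p4_9 : Nat × Nat × Nat × Nat := (528, 16, 4, 9)
def P2p5_0 : Nat × Nat × Nat × Nat := (33, 32, 5, 0)
def P2p5_1 : Nat × Nat × Nat × Nat := (34, 32, 5, 1)
def P2p5_2 : Nat × Nat × Nat × Nat := (36, 32, 5, 2)
def P2p5_3 : Nat × Nat × Nat × Nat := (40, 32, 5, 3)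
def P2p5_4 : Nat × Nat × Nat × Nat := (48, 32, 5, 4)
def P2p5_6 : Nat × Nat × Nat × Nat := (96, 32, 5, 6)
def P2p5_7 : Nat × Nat × Nat × Nat := (160, 32, 5, 7)
def P2p5_8 : Nat × Nat × Nat × Nat := (288, 32, 5, 8)
def P2p5_9 : Nat × Nat × Nat × Nat := (544, 32, 5, 9)
def P2p6_0 : Nat × Nat × Nat × Nat := (65, 64, 6, 0)
def P2p6_1 : Nat × Nat × Nat × Nat := (66, 64, 6, 1)
def P2p6_2 : Nat × Nat × Nat × Nat := (68, 64, 6, 2)
def P2p6_3 : Nat × Nat × Nat × Nat := (72, 64, 6, 3)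
def P2p6_4 : Nat × Nat × Nat × Nat := (80, 64, 6, 4)
def P2p6_5 : Nat × Nat × Nat × Nat := (96, 64, 6, 5)
def P2p6_7 : Nat × Nat × Nat × Nat := (192, 64, 6, 7)
def P2p6_8 : Nat × Nat × Nat × Nat := (320, 64, 6, 8)
def P2p6_9 : Nat × Nat × Nat × Nat := (576, 64, 6, 9)
def P2p7_0 : Nat × Nat × Nat × Nat := (129, 128, 7, 0)
def P2p7_1 : Nat × Nat × Nat × Nat := (130, 128, 7, 1)
def P2p7_2 : Nat × Nat × Nat × Nat := (132, 128, 7, 2)
def P2p7_3 : Nat × Nat × Nat × Nat := (136, 128, 7, 3)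
def P2p7_4 : Nat × Nat × Nat × Nat := (144, 128, 7, 4)
def P2p7_5 : Nat × Nat × Nat × Nat := (160, 128, 7, 5)
def P2p7_6 : Nat × Nat × Nat × Nat := (192, 128, 7, 6)
def P2p7_8 : Nat × Nat × Nat × Nat := (384, 128, 7, 8)
def P2p7_9 : Nat × Nat × Nat × Nat := (640, 128, 7, 9)
def P2p8_0 : Nat × Nat × Nat × Nat := (257, 256, 8, 0)
def P2p8_1 : Nat × Nat × Nat × Nat := (258, 256, 8, 1)
def P2p8_2 : Nat × Nat × Nat × Nat := (260, 256, 8, 2)
def P2p8_3 : Nat × Nat × Nat × Nat := (264, 256, 8, 3)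
def P2p8_4 : Nat × Nat × Nat × Nat := (272, 256, 8, 4)
def P2p8_5 : Nat × Nat × Nat × Nat := (288, 256, 8, 5)
def P2p8_6 : Nat × Nat × Nat × Nat := (320, 256, 8, 6)
def P2p8_7 : Nat × Nat × Nat × Nat := (384, 256, 8, 7)
def P2p8_9 : Nat × Nat × Nat × Nat := (768, 256, 8, 9)
def P2p9_0 : Nat × Nat × Nat × Nat := (513, 512, 9, 0)
def P2p9_1 : Nat × Nat × Nat × Nat := (514, 512, 9, 1)
def P2p9_2 : Nat × Nat × Nat × Nat := (516, 512, 9, 2)
def P2p9_3 : Nat × Nat × Nat × Nat := (520, 512, 9, 3)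
def P2p9_4 : Nat × Nat × Nat × Nat := (528, 512, 9, 4)
def P2p9_5 : Nat × Nat × Nat × Nat := (544, 512, 9, 5)
def P2p9_6 : Nat × Nat × Nat × Nat := (576, 512, 9, 6)
def P2p9_7 : Nat × Nat × Nat × Nat := (640, 512, 9, 7)
def P2p9_8 : Nat × Nat × Nat × Nat := (768, 512, 9, 8)

def P2T1 : Tr :=
  .node 32 (.node 16 (.node 8 (.node 4 (.node 2 (.node 1 (.leaf ⟨26176939080,
  1285741664852652570315845,
  6806974253332591160026818351295224774586452373826146977719136983465903498166861889537, 399425,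
  [P2p1_0, P2p1_3, P2p2_0, P2p2_3, P2p5_4, P2p6_4, P2p6_5, P2p7_0, P2p8_0, P2p8_7, P2p9_0, P2p9_7,
  P2p9_8]⟩) (.leaf ⟨26378265672, 1286881904220744212155462,
  6806974253332589892929483034921207531761175748461406911603029998275451016379078606849, 402497,
  [P2p1_0, P2p1_3, P2p2_0, P2p2_3, P2p4_0, P2p4_5, P2p4_6, P2p5_0, P2p5_6, P2p6_0, P2p7_0, P2p8_0,
  P2p8_7, P2p9_0, P2p9_7, P2p9_8]⟩)) (.node 3 (.leaf ⟨39062100036, 198382085111407384177377312,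
  3885426714359090390252214351464064552970928681994726775027789043798400617908058129407, 596033,
  [P2p1_0, P2p2_3, P2p5_4, P2p6_4, P2p6_5, P2p7_8, P2p7_9, P2p8_9]⟩) (.leaf ⟨39263426628,
  198379569436684332037177376,
  3885426714359089096194520985522975478581417463478927265566935934709209166642303402895, 599105,
  [P2p1_0, P2p2_3, P2p4_5, P2p4_6, P2p5_6, P2p7_8, P2p7_9, P2p8_9]⟩))) (.node 6 (.node 5 (.leaf
  ⟨26177201220, 1285741854223842324644037,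
  6913215579490170899926359734932592249973201967256210282588618566749164183104951091215, 399425,
  [P2p1_0, P2p2_3, P2p5_4, P2p6_4, P2p6_5, P2p7_0, P2p7_1, P2p7_2, P2p7_3, P2p8_0, P2p8_1, P2p8_2,
  P2p8_3, P2p8_7, P2p9_0, P2p9_1, P2p9_2, P2p9_3, P2p9_7, P2p9_8]⟩) (.leaf ⟨26378527812,
  1286882130782914776006886,
  6913215579490170010274037112497580649047209646006302299067302898089420188785914609679, 402497,
  [P2p1_0, P2p2_3, P2p4_0, P2p4_1, P2p4_2, P2p4_3, P2p4_5, P2p4_6, P2p5_0, P2p5_1, P2p5_2, P2p5_3,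
  P2p5_6, P2p6_0, P2p6_1, P2p6_2, P2p6_3, P2p7_0, P2p7_1, P2p7_2, P2p7_3, P2p8_0, P2p8_1, P2p8_2,
  P2p8_3, P2p8_7, P2p9_0, P2p9_1, P2p9_2, P2p9_3, P2p9_7, P2p9_8]⟩)) (.node 7 (.leaf ⟨26376168600,
  1294193698626176438931628,
  6806974253332589892929483034932030945209311395500473691408260226179570042037090713601, 402465,
  [P2p1_0, P2p1_2, P2p1_3, P2p1_4, P2p1_5, P2p1_6, P2p2_0, P2p2_3, P2p2_4, P2p2_5, P2p2_6, P2p3_0,
  P2p3_4, P2p3_5, P2p3_6, P2p4_0, P2p4_5, P2p4_6, P2p5_0, P2p5_6, P2p6_0, P2p7_0, P2p8_0, P2p8_7,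
  P2p9_0, P2p9_7, P2p9_8]⟩) (.leaf ⟨26174842008, 1293053459258013863022761,
  6806974253332591160026818351306048188034588020865213757524367211370022523824873996289, 399393,
  [P2p1_0, P2p1_2, P2p1_3, P2p1_4, P2p1_5, P2p1_6, P2p2_0, P2p2_3, P2p2_4, P2p2_5, P2p2_6, P2p3_0,
  P2p3_4, P2p3_5, P2p3_6, P2p5_4, P2p6_4, P2p6_5, P2p7_0, P2p8_0, P2p8_7, P2p9_0, P2p9_7,
  P2p9_8]⟩)))) (.node 12 (.node 10 (.node 9 (.leaf ⟨39261067416, 437980867102547798119321766,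
  3885426714359089096194520985619619953304859543247931058722216183555148096916181549953, 599073,
  [P2p1_0, P2p1_2, P2p1_3, P2p1_4, P2p1_5, P2p1_6, P2p1_7, P2p1_8, P2p1_9, P2p2_0, P2p2_3, P2p2_4,
  P2p2_5, P2p2_6, P2p2_7, P2p2_8, P2p2_9, P2p3_0, P2p3_4, P2p3_5, P2p3_6, P2p3_7, P2p3_8, P2p3_9,
  P2p4_5, P2p4_6, P2p5_6, P2p7_8, P2p7_9, P2p8_9]⟩) (.leaf ⟨39059740824,
  437983382777270850259423398,
  3885426714359090390252214351560709027694370761763730568183069292644339548181943616497, 596001,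
  [P2p1_0, P2p1_2, P2p1_3, P2p1_4, P2p1_5, P2p1_6, P2p1_7, P2p1_8, P2p1_9, P2p2_0, P2p2_3, P2p2_4,
  P2p2_5, P2p2_6, P2p2_7, P2p2_8, P2p2_9, P2p3_0, P2p3_4, P2p3_5, P2p3_6, P2p3_7, P2p3_8, P2p3_9,
  P2p5_4, P2p6_4, P2p6_5, P2p7_8, P2p7_9, P2p8_9]⟩)) (.node 11 (.leaf ⟨26182444100,
  1285741556986266918193349,
  6822151585640816837155324263243707474258679542457164024330858254053323111969346224131, 399505,
  [P2p1_0, P2p2_0, P2p2_1, P2p2_3, P2p3_0, P2p3_1, P2p5_4, P2p6_4, P2p6_5, P2p7_0, P2p7_1, P2p8_0,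
  P2p8_1, P2p8_7, P2p9_0, P2p9_1, P2p9_7, P2p9_8]⟩) (.leaf ⟨26383770692, 1286881796390642443749606,
  6822151585640815623978705046003833894561872103394542827156864314081543271248526770179, 402577,
  [P2p1_0, P2p2_0, P2p2_1, P2p2_3, P2p3_0, P2p3_1, P2p4_0, P2p4_1, P2p4_5, P2p4_6, P2p5_0, P2p5_1,
  P2p5_6, P2p6_0, P2p6_1, P2p7_0, P2p7_1, P2p8_0, P2p8_1, P2p8_7, P2p9_0, P2p9_1, P2p9_7,
  P2p9_8]⟩))) (.node 14 (.node 13 (.leaf ⟨39067342916, 198382085000015929886869600,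
  3885426714359090390252214351464351900269078339205995352228735796299906410071653024755, 596113,
  [P2p1_0, P2p2_0, P2p2_1, P2p2_3, P2p3_0, P2p3_1, P2p5_4, P2p6_4, P2p6_5, P2p7_8, P2p7_9, P2p8_9]⟩)
  (.leaf ⟨39268669508, 198379569325292877746669664,
  3885426714359089096194520985523262825879567120690195842767882687210714958805898298243, 599185,
  [P2p1_0, P2p2_0, P2p2_1, P2p2_3, P2p3_0, P2p3_1, P2p4_5, P2p4_6, P2p5_6, P2p7_8, P2p7_9,
  P2p8_9]⟩)) (.node 15 (.leaf ⟨26382459976, 1286881761266640415264870,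
  6806974253332589892929483034921686424925504831398573369066895814711889668726746841089, 402561,
  [P2p1_0, P2p2_0, P2p3_0, P2p3_2, P2p4_0, P2p4_5, P2p4_6, P2p5_0, P2p5_6, P2p6_0, P2p7_0, P2p8_0,
  P2p8_7, P2p9_0, P2p9_7, P2p9_8]⟩) (.leaf ⟨26181133384, 1285741521898548773425253,
  6806974253332591160026818351295703667750781456763313435183002799902342150514530123777, 399489,
  [P2p1_0, P2p2_0, P2p3_0, P2p3_2, P2p5_4, P2p6_4, P2p6_5, P2p7_0, P2p8_0, P2p8_7, P2p9_0, P2p9_7,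
  P2p9_8]⟩))))) (.node 24 (.node 20 (.node 18 (.node 17 (.leaf ⟨39066294340,
  198382084968454414251820096,
  3885426714359090390252214351464735008077866003761446961237556356589788472100145005559, 596097,
  [P2p1_0, P2p3_0, P2p3_1, P2p3_2, P2p5_4, P2p6_4, P2p6_5, P2p7_8, P2p7_9, P2p8_9]⟩) (.leaf
  ⟨39066949700, 198382085148596062884436192,
  3885426714359090390252214351464064552970861783502309911444707022327502781457174103039, 596121,
  [P2p0_1, P2p0_2, P2p0_3, P2p1_2, P2p1_3, P2p2_3, P2p5_4, P2p6_4, P2p6_5, P2p7_8, P2p7_9,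
  P2p8_9]⟩)) (.node 19 (.leaf ⟨39268276292, 198379569473873010744334560,
  3885426714359089096194520985522975478581350564986510401983853913238311330191419376527, 599193,
  [P2p0_1, P2p0_2, P2p0_3, P2p1_2, P2p1_3, P2p2_3, P2p4_5, P2p4_6, P2p5_6, P2p7_8, P2p7_9, P2p8_9]⟩)
  (.leaf ⟨39267620932, 198379569293731362111620160,
  3885426714359089096194520985523645933688354785245647451776703247500597020834390279047, 599169,
  [P2p1_0, P2p3_0, P2p3_1, P2p3_2, P2p4_5, P2p4_6, P2p5_6, P2p7_8, P2p7_9, P2p8_9]⟩))) (.node 22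
  (.node 21 (.leaf ⟨26382722116, 1286881770494944586368230,
  6852506250257267086077149068168895036298488834557670452536146653207886236510679662599, 402561,
  [P2p1_0, P2p3_0, P2p3_1, P2p3_2, P2p4_0, P2p4_1, P2p4_2, P2p4_5, P2p4_6, P2p5_0, P2p5_1, P2p5_2,
  P2p5_6, P2p6_0, P2p6_1, P2p6_2, P2p7_0, P2p7_1, P2p7_2, P2p8_0, P2p8_1, P2p8_2, P2p8_7, P2p9_0,
  P2p9_1, P2p9_2, P2p9_7, P2p9_8]⟩) (.leaf ⟨26181395524, 1285741529964669153969349,
  6852506250257268191412336087140481289738357901016053911825914502742320795097571459079, 399489,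
  [P2p1_0, P2p3_0, P2p3_1, P2p3_2, P2p5_4, P2p6_4, P2p6_5, P2p7_0, P2p7_1, P2p7_2, P2p8_0, P2p8_1,
  P2p8_2, P2p8_7, P2p9_0, P2p9_1, P2p9_2, P2p9_7, P2p9_8]⟩)) (.node 23 (.leaf ⟨39063935048,
  318182733965148972502027331,
  3885426714359090390252214351464447665186566952319829082392715624588424977506916697073, 596065,
  [P2p1_0, P2p1_2, P2p1_3, P2p1_4, P2p1_5, P2p1_6, P2p1_7, P2p1_8, P2p1_9, P2p3_2, P2p5_4, P2p6_4,
  P2p6_5, P2p7_8, P2p7_9, P2p8_9]⟩) (.leaf ⟨39265261640, 318176562376334812050066499,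
  3885426714359089096194520985523358590794558012230169047994902607154740877394445140865, 599137,
  [P2p1_0, P2p1_2, P2p1_3, P2p1_7, P2p1_8, P2p1_9, P2p3_2, P2p4_5, P2p4_6, P2p5_6, P2p7_8, P2p7_9,
  P2p8_9]⟩)))) (.node 28 (.node 26 (.node 25 (.leaf ⟨26179036232, 1285741670482152104528965,
  6806974253332591160026818351295607885318243314404533890819081063041850029234291802113, 399457,
  [P2p1_0, P2p1_2, P2p1_3, P2p3_2, P2p5_4, P2p6_4, P2p6_5, P2p7_0, P2p8_0, P2p8_7, P2p9_0, P2p9_7,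
  P2p9_8]⟩) (.leaf ⟨26380362824, 1286881909850243746368582,
  6806974253332589892929483034921590642492966689039793824702974077851397547446508519425, 402529,
  [P2p1_0, P2p1_2, P2p1_3, P2p3_2, P2p4_0, P2p4_5, P2p4_6, P2p5_0, P2p5_6, P2p6_0, P2p7_0, P2p8_0,
  P2p8_7, P2p9_0, P2p9_7, P2p9_8]⟩)) (.node 27 (.leaf ⟨39260280932, 198379569513463435163210784,
  3885426714359089500599891729029723411536289391523453602149480013794364960963826746255, 599057,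
  [P2p1_0, P2p2_0, P2p2_1, P2p3_0, P2p3_1, P2p3_2, P2p4_0, P2p4_1, P2p4_2, P2p4_3, P2p4_5, P2p4_6,
  P2p5_0, P2p5_1, P2p5_2, P2p5_3, P2p5_6, P2p6_0, P2p6_1, P2p6_2, P2p6_3, P2p7_8, P2p7_9, P2p8_9]⟩)
  (.leaf ⟨39058954340, 198382085299759532811198496,
  3885426714359090794657585094970812485925800610039253111610333122883556412229581472767, 595985,
  [P2p1_0, P2p2_0, P2p2_1, P2p3_0, P2p3_1, P2p3_2, P2p4_0, P2p4_1, P2p4_2, P2p4_3, P2p5_0, P2p5_1,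
  P2p5_2, P2p5_3, P2p5_4, P2p6_0, P2p6_1, P2p6_2, P2p6_3, P2p6_4, P2p6_5, P2p7_8, P2p7_9,
  P2p8_9]⟩))) (.node 30 (.node 29 (.leaf ⟨26174055524, 1285741819429899942894789,
  6913215579490171304331730478439340182928073895300736617982722073956359532980051312655, 399377,
  [P2p1_0, P2p2_0, P2p2_1, P2p3_0, P2p3_1, P2p3_2, P2p4_0, P2p4_1, P2p4_2, P2p4_3, P2p5_0, P2p5_1,
  P2p5_2, P2p5_3, P2p5_4, P2p6_0, P2p6_1, P2p6_2, P2p6_3, P2p6_4, P2p6_5, P2p7_0, P2p7_1, P2p7_2,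
  P2p7_3, P2p8_0, P2p8_1, P2p8_2, P2p8_3, P2p8_7, P2p9_0, P2p9_1, P2p9_2, P2p9_3, P2p9_7, P2p9_8]⟩)
  (.leaf ⟨26375382116, 1286882095988972394258662,
  6913215579490170010274037112498251108538562676784937117395558566156570730658786115599, 402449,
  [P2p1_0, P2p2_0, P2p2_1, P2p3_0, P2p3_1, P2p3_2, P2p4_0, P2p4_1, P2p4_2, P2p4_3, P2p4_5, P2p4_6,
  P2p5_0, P2p5_1, P2p5_2, P2p5_3, P2p5_6, P2p6_0, P2p6_1, P2p6_2, P2p6_3, P2p7_0, P2p7_1, P2p7_2,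
  P2p7_3, P2p8_0, P2p8_1, P2p8_2, P2p8_3, P2p8_7, P2p9_0, P2p9_1, P2p9_2, P2p9_3, P2p9_7, P2p9_8]⟩))
  (.node 31 (.leaf ⟨26174661732, 1285741808969936590216389,
  6860094916411381245659453439650483168447435709692883876867022634529188231164574826504, 399398,
  [P2p0_3, P2p1_0, P2p1_3, P2p2_0, P2p2_1, P2p2_3, P2p4_3, P2p5_3, P2p5_4, P2p6_3, P2p6_4, P2p6_5,
  P2p7_3, P2p8_3, P2p8_7, P2p9_3, P2p9_7, P2p9_8]⟩) (.leaf ⟨26375988324, 1286882084366790891282662,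
  6860094916411379951601760073709394094057924491177084376279859126729399428843309629448, 402470,
  [P2p0_3, P2p1_0, P2p1_3, P2p2_0, P2p2_1, P2p2_3, P2p4_3, P2p4_5, P2p4_6, P2p5_3, P2p5_6, P2p6_3,
  P2p7_3, P2p8_3, P2p8_7, P2p9_3, P2p9_7, P2p9_8]⟩)))))) (.node 48 (.node 40 (.node 36 (.node 34
  (.node 33 (.leaf ⟨26076275784, 1292975094372555928243269,
  6806974253332589865969124985354135863887622257945334840881634650300372408090656047105, 397889,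
  [P2p1_0, P2p1_3, P2p1_4, P2p1_5, P2p1_6, P2p2_0, P2p2_3, P2p2_4, P2p2_5, P2p2_6, P2p4_5, P2p4_6,
  P2p5_6, P2p7_0, P2p8_0, P2p8_7, P2p9_0, P2p9_7, P2p9_8]⟩) (.leaf ⟨38961436740,
  198385662626836179223445536,
  3885426714359089096194520985522975478581417463478927274440625538064678677520690643967, 594497,
  [P2p1_0, P2p2_3, P2p4_5, P2p4_6, P2p5_6, P2p7_8, P2p7_9, P2p8_9]⟩)) (.node 35 (.leaf ⟨26076284449,
  41219212775497702298552420,
  6799385587178477027404872029380325369115933400862918311908490079314901598895664726019, 397890,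
  [P2p0_1, P2p2_0, P2p2_1, P2p2_3, P2p3_0, P2p3_1, P2p4_5, P2p4_6, P2p5_6, P2p8_7, P2p9_7, P2p9_8]⟩)
  (.leaf ⟨26076537924, 1289319369652637370712261,
  6913215579490169605868666368991503175583690748740410782001455061015442242717583605775, 397889,
  [P2p1_0, P2p2_3, P2p4_5, P2p4_6, P2p5_6, P2p7_0, P2p7_1, P2p7_2, P2p7_3, P2p8_0, P2p8_1, P2p8_2,
  P2p8_3, P2p8_7, P2p9_0, P2p9_1, P2p9_2, P2p9_3, P2p9_7, P2p9_8]⟩))) (.node 38 (.node 37 (.leaf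
  ⟨26076268066, 161016205712822577779738722,
  6799385587178477027404872029380038021817516439947192408465492273198260143563349164928, 397889,
  [P2p0_7, P2p0_8, P2p0_9, P2p1_0, P2p1_7, P2p1_8, P2p1_9, P2p2_3, P2p4_5, P2p4_6, P2p5_6, P2p8_7,
  P2p9_7, P2p9_8]⟩) (.leaf ⟨26074179096, 1286881870443814620141800,
  6806974253332589892929483034921303312732569070856977898468546889326016492192223264769, 397857,
  [P2p1_0, P2p1_2, P2p1_3, P2p2_0, P2p2_3, P2p3_0, P2p4_0, P2p4_5, P2p4_6, P2p5_0, P2p5_6, P2p6_0,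
  P2p7_0, P2p8_0, P2p8_7, P2p9_0, P2p9_7, P2p9_8]⟩)) (.node 39 (.leaf ⟨38958291044,
  198385662703615282349478944,
  3885426714359089096194520985523645938072770494257562093957321778009789663358948934655, 594449,
  [P2p1_0, P2p2_0, P2p2_1, P2p3_0, P2p3_1, P2p3_2, P2p4_5, P2p4_6, P2p5_6, P2p7_8, P2p7_9, P2p8_9]⟩)
  (.leaf ⟨38957897828, 198385662703431354669995136,
  3885426714359089096194520985523358590774553938553876652935604889661793101430255256575, 594457,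
  [P2p0_1, P2p0_2, P2p0_3, P2p1_2, P2p1_3, P2p3_2, P2p4_5, P2p4_6, P2p5_6, P2p7_8, P2p7_9,
  P2p8_9]⟩)))) (.node 44 (.node 42 (.node 41 (.leaf ⟨26073400849, 41219212740418883325992036,
  6799385587178477027404872029380708481309203676665880144905223602035360071500383322115, 397842,
  [P2p0_1, P2p2_0, P2p2_1, P2p3_0, P2p3_1, P2p3_2, P2p4_5, P2p4_6, P2p5_6, P2p8_7, P2p9_7, P2p9_8]⟩)
  (.leaf ⟨26080470552, 1286882021595980192979275,
  6898038247181944279224815101415720526708992031221601417227543201050103986535733985281, 397953,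
  [P2p1_0, P2p2_0, P2p3_0, P2p3_2, P2p4_0, P2p4_2, P2p4_3, P2p4_5, P2p4_6, P2p5_0, P2p5_2, P2p5_3,
  P2p5_6, P2p6_0, P2p6_2, P2p6_3, P2p7_0, P2p7_2, P2p7_3, P2p8_0, P2p8_2, P2p8_3, P2p8_7, P2p9_0,
  P2p9_2, P2p9_3, P2p9_7, P2p9_8]⟩)) (.node 43 (.leaf ⟨38963271752, 318186311480577767548095555,
  3885426714359089096194520985523358590797055733804029581805552118854703037119549211633, 594529,
  [P2p1_0, P2p1_2, P2p1_3, P2p1_4, P2p1_5, P2p1_6, P2p1_7, P2p1_8, P2p1_9, P2p3_2, P2p4_5, P2p4_6,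
  P2p5_6, P2p7_8, P2p7_9, P2p8_9]⟩) (.leaf ⟨26073392676, 1286882058797956118879429,
  6913215579490169605868666368992173635075043779519045600329710726739820539426263465999, 397841,
  [P2p1_0, P2p2_0, P2p2_1, P2p3_0, P2p3_1, P2p3_2, P2p4_5, P2p4_6, P2p5_6, P2p7_0, P2p7_1, P2p7_2,
  P2p7_3, P2p8_0, P2p8_1, P2p8_2, P2p8_3, P2p8_7, P2p9_0, P2p9_1, P2p9_2, P2p9_3, P2p9_7,
  P2p9_8]⟩))) (.node 46 (.node 45 (.leaf ⟨39210735896, 437973633673027894752841894,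
  3885426714359090390252214351549981395217628437120234766369666371029950047687838598017, 598305,
  [P2p1_0, P2p1_2, P2p1_3, P2p1_7, P2p1_8, P2p1_9, P2p2_0, P2p2_3, P2p2_7, P2p2_8, P2p2_9, P2p3_0,
  P2p3_7, P2p3_8, P2p3_9, P2p5_4, P2p6_4, P2p6_5, P2p7_8, P2p7_9, P2p8_9]⟩) (.leaf ⟨39209949476,
  318180296652080971115497504,
  3885426714359090390252214351464735012462281712773361584482355127104710709861465129983, 598289,
  [P2p1_0, P2p2_0, P2p2_1, P2p3_0, P2p3_1, P2p3_2, P2p5_4, P2p6_4, P2p6_5, P2p7_8, P2p7_9,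
  P2p8_9]⟩)) (.node 47 (.leaf ⟨38944397448, 318182429588242256759950403,
  3885426714359089096204393862216462470078357661825759004370100084919173228004800791489, 594241,
  [P2p1_0, P2p1_3, P2p1_6, P2p1_7, P2p1_8, P2p1_9, P2p2_0, P2p2_3, P2p2_6, P2p2_7, P2p2_8, P2p2_9,
  P2p4_3, P2p4_6, P2p5_3, P2p5_4, P2p5_6, P2p7_8, P2p7_9, P2p8_9]⟩) (.leaf ⟨26059498632,
  1289207346895536222440518,
  6806974253332589865979409244464053324066752144478174184011788005652761515709442883585, 397633,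
  [P2p1_0, P2p1_3, P2p2_0, P2p2_3, P2p4_0, P2p4_3, P2p4_6, P2p5_0, P2p5_3, P2p5_4, P2p5_6, P2p7_0,
  P2p8_0, P2p8_7, P2p9_0, P2p9_7, P2p9_8]⟩))))) (.node 56 (.node 52 (.node 50 (.node 49 (.leaf
  ⟨39217039633, 198379647763577266116756487,
  3908192712821428905944973219386740695916965564546421703483307098539492095576423464963, 598402,
  [P2p0_1, P2p3_2, P2p5_4, P2p6_4, P2p6_5, P2p7_0, P2p7_1, P2p7_8, P2p7_9, P2p8_0, P2p8_1, P2p8_9,
  P2p9_0, P2p9_1]⟩) (.leaf ⟨39217023250, 198379647874925667655094370,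
  3885426714359090390252214351464447665163797548467565687559415705540309736902972145676, 598401,
  [P2p0_2, P2p0_3, P2p1_0, P2p1_2, P2p1_3, P2p3_2, P2p5_4, P2p6_4, P2p6_5, P2p7_8, P2p7_9,
  P2p8_9]⟩)) (.node 51 (.leaf ⟨38944659588, 198381894990932169555250304,
  3885426714359089096207273539131485323834545489435326542520902837273813654189233865679, 594241,
  [P2p1_0, P2p2_3, P2p4_0, P2p4_1, P2p4_2, P2p4_3, P2p4_6, P2p5_0, P2p5_1, P2p5_2, P2p5_3, P2p5_4,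
  P2p5_6, P2p7_8, P2p7_9, P2p8_9]⟩) (.leaf ⟨26059760772, 1289207573457706786295014,
  6913215579490169605881418922600013020836818774696810053884742189348606926076622340111, 397633,
  [P2p1_0, P2p2_3, P2p4_0, P2p4_1, P2p4_2, P2p4_3, P2p4_6, P2p5_0, P2p5_1, P2p5_2, P2p5_3, P2p5_4,
  P2p5_6, P2p7_0, P2p7_1, P2p7_2, P2p7_3, P2p8_0, P2p8_1, P2p8_2, P2p8_3, P2p8_7, P2p9_0, P2p9_1,
  P2p9_2, P2p9_3, P2p9_7, P2p9_8]⟩))) (.node 54 (.node 53 (.leaf ⟨26057401496,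
  1292749087980797655421097,
  6806974253332589865976118185138822885561385031904312680171558574355226328321667170305, 397601,
  [P2p1_0, P2p1_2, P2p1_3, P2p1_6, P2p2_0, P2p2_3, P2p2_6, P2p3_0, P2p3_6, P2p4_0, P2p4_6, P2p5_0,
  P2p5_4, P2p5_6, P2p7_0, P2p8_0, P2p8_7, P2p9_0, P2p9_7, P2p9_8]⟩) (.leaf ⟨26065003652,
  1289207239065434454035686,
  6822151585640815543105446861913943802355662276320618665620036675827596404082836963331, 397713,
  [P2p1_0, P2p2_0, P2p2_1, P2p2_3, P2p3_0, P2p3_1, P2p4_0, P2p4_1, P2p4_6, P2p5_0, P2p5_1, P2p5_4,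
  P2p5_6, P2p7_0, P2p7_1, P2p8_0, P2p8_1, P2p8_7, P2p9_0, P2p9_1, P2p9_7, P2p9_8]⟩)) (.node 55
  (.leaf ⟨26063692936, 1289207203941432425517158,
  6806974253332589865976118185133075922053325178363910554804357021539087200818324111361, 397697,
  [P2p1_0, P2p2_0, P2p3_0, P2p3_2, P2p4_0, P2p4_6, P2p5_0, P2p5_4, P2p5_6, P2p7_0, P2p8_0, P2p8_7,
  P2p9_0, P2p9_7, P2p9_8]⟩) (.leaf ⟨26063955076, 1289207213169736596655334,
  6852506250257266897364104215476445765424218659405223596450741324791650570830455701511, 397697,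
  [P2p1_0, P2p3_0, P2p3_1, P2p3_2, P2p4_0, P2p4_1, P2p4_2, P2p4_6, P2p5_0, P2p5_1, P2p5_2, P2p5_4,
  P2p5_6, P2p7_0, P2p7_1, P2p7_2, P2p8_0, P2p8_1, P2p8_2, P2p8_7, P2p9_0, P2p9_1, P2p9_2, P2p9_7,
  P2p9_8]⟩)))) (.node 60 (.node 58 (.node 57 (.leaf ⟨38948853892, 198381894738730590422502528,
  3885426714359089096203982479800699483763726762150616642059373349515088541142533735367, 594305,
  [P2p1_0, P2p3_0, P2p3_1, P2p3_2, P2p4_0, P2p4_1, P2p4_2, P2p4_6, P2p5_0, P2p5_1, P2p5_2, P2p5_4,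
  P2p5_6, P2p7_8, P2p7_9, P2p8_9]⟩) (.leaf ⟨39210731794, 198379647909723011650952290,
  3885426714359090390252214351464064552970861783842581813909805218593937611956698218508, 598305,
  [P2p0_2, P2p0_3, P2p1_0, P2p1_2, P2p1_3, P2p2_3, P2p5_4, P2p6_4, P2p6_5, P2p7_8, P2p7_9,
  P2p8_9]⟩)) (.node 59 (.leaf ⟨26325059857, 161016284076518359522349156,
  6799385587178478321462565395321797555698714895181679645493473950730889918916050747395, 401682,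
  [P2p0_1, P2p2_0, P2p2_1, P2p3_0, P2p3_1, P2p3_2, P2p5_4, P2p6_4, P2p6_5, P2p8_7, P2p9_7, P2p9_8]⟩)
  (.leaf ⟨39213095204, 437980945538403181693965344,
  3885426714359090390252214351560613245261609260781563046305548319637658316324418290687, 598337,
  [P2p1_0, P2p2_3, P2p2_4, P2p2_5, P2p2_6, P2p2_7, P2p2_8, P2p2_9, P2p3_4, P2p3_5, P2p3_6, P2p3_7,
  P2p3_8, P2p3_9, P2p5_4, P2p6_4, P2p6_5, P2p7_8, P2p7_9, P2p8_9]⟩))) (.node 62 (.node 61 (.leaf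
  ⟨38759859785, 78594841491187519265776900,
  4818832651314969533655327936278078977541342522401661436667297665768233654240778125435, 591426,
  [P2p0_1, P2p0_3, P2p0_4, P2p0_5, P2p0_6, P2p1_3, P2p1_4, P2p1_5, P2p1_6, P2p2_3, P2p2_4, P2p2_5,
  P2p2_6, P2p5_4, P2p6_4, P2p6_5, P2p7_0, P2p7_1, P2p7_3, P2p7_4, P2p7_5, P2p7_6, P2p7_8, P2p7_9,
  P2p8_0, P2p8_1, P2p8_3, P2p8_4, P2p8_5, P2p8_6, P2p8_9, P2p9_0, P2p9_1, P2p9_3, P2p9_4, P2p9_5,
  P2p9_6]⟩) (.leaf ⟨38759843362, 78587529338633841840261218,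
  4735357323619728309448545420563004367755533641025227165825322678121240554404610834544, 591425,
  [P2p0_4, P2p0_5, P2p0_6, P2p1_0, P2p1_4, P2p1_5, P2p1_6, P2p2_3, P2p5_4, P2p6_4, P2p6_5, P2p7_4,
  P2p7_5, P2p7_6, P2p7_8, P2p7_9, P2p8_4, P2p8_5, P2p8_6, P2p8_9, P2p9_4, P2p9_5, P2p9_6]⟩)) (.node
  63 (.leaf ⟨38764042520, 557768189411176721961554185,
  3885426714359114897217681408018659399299809371974856171158394346236475386935092773761, 591489,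
  [P2p1_0, P2p1_7, P2p1_8, P2p1_9, P2p2_0, P2p2_7, P2p2_8, P2p2_9, P2p3_0, P2p3_2, P2p3_7, P2p3_8,
  P2p3_9, P2p4_0, P2p4_2, P2p4_3, P2p4_7, P2p4_8, P2p4_9, P2p5_0, P2p5_2, P2p5_3, P2p5_4, P2p5_7,
  P2p5_8, P2p5_9, P2p6_0, P2p6_2, P2p6_3, P2p6_4, P2p6_5, P2p6_7, P2p6_8, P2p6_9, P2p7_8, P2p7_9,
  P2p8_9]⟩) (.leaf ⟨38760110372, 437971196434160226195936288,
  3885426714359114546733026763646246694339062437598945634577587146581368660581908677519, 591425,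
  [P2p1_0, P2p2_3, P2p2_7, P2p2_8, P2p2_9, P2p3_7, P2p3_8, P2p3_9, P2p4_7, P2p4_8, P2p4_9, P2p5_4,
  P2p5_7, P2p5_8, P2p5_9, P2p6_4, P2p6_5, P2p6_7, P2p6_8, P2p6_9, P2p7_8, P2p7_9, P2p8_9]⟩))))))

def P2T2 : Tr :=
  .node 96 (.node 80 (.node 72 (.node 68 (.node 66 (.node 65 (.leaf ⟨38810179976,
  318176562442762906550539331,
  3885426714359113468358197794155912523636306328698525607231665096884272614743472669569, 592193,
  [P2p1_0, P2p1_3, P2p1_7, P2p1_8, P2p1_9, P2p2_0, P2p2_3, P2p2_7, P2p2_8, P2p2_9, P2p4_3, P2p4_5,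
  P2p4_6, P2p4_7, P2p4_8, P2p4_9, P2p5_3, P2p5_6, P2p5_7, P2p5_8, P2p5_9, P2p6_3, P2p6_7, P2p6_8,
  P2p6_9, P2p7_8, P2p7_9, P2p8_9]⟩) (.leaf ⟨38814385681, 78591107116615155921918980,
  4849187315931419593854646394233763559325065860137208835968363090216578027449878511619, 592258,
  [P2p0_1, P2p3_2, P2p4_5, P2p4_6, P2p5_6, P2p7_0, P2p7_1, P2p7_2, P2p7_3, P2p7_4, P2p7_5, P2p7_6,
  P2p7_8, P2p7_9, P2p8_0, P2p8_1, P2p8_2, P2p8_3, P2p8_4, P2p8_5, P2p8_6, P2p8_9, P2p9_0, P2p9_1,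
  P2p9_2, P2p9_3, P2p9_4, P2p9_5, P2p9_6]⟩)) (.node 67 (.leaf ⟨25879152913,
  280810839923953144973856775,
  6799385587178502882348748550923948763417945087407577912077896257494618923578749288451, 394882,
  [P2p0_1, P2p3_2, P2p4_0, P2p4_1, P2p4_2, P2p4_3, P2p4_7, P2p4_8, P2p4_9, P2p5_0, P2p5_1, P2p5_2,
  P2p5_3, P2p5_4, P2p5_7, P2p5_8, P2p5_9, P2p6_0, P2p6_1, P2p6_2, P2p6_3, P2p6_4, P2p6_5, P2p6_7,
  P2p6_8, P2p6_9, P2p8_7, P2p9_7, P2p9_8]⟩) (.leaf ⟨38814369298, 78591107116608421413198946,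
  4826421317469081078161887526311470528571897882170559452437739132642547037256922431612, 592257,
  [P2p0_2, P2p0_3, P2p0_4, P2p0_5, P2p0_6, P2p1_0, P2p1_2, P2p1_3, P2p1_4, P2p1_5, P2p1_6, P2p3_2,
  P2p4_5, P2p4_6, P2p5_6, P2p7_2, P2p7_3, P2p7_4, P2p7_5, P2p7_6, P2p7_8, P2p7_9, P2p8_2, P2p8_3,
  P2p8_4, P2p8_5, P2p8_6, P2p8_9, P2p9_2, P2p9_3, P2p9_4, P2p9_5, P2p9_6]⟩))) (.node 70 (.node 69
  (.leaf ⟨25929475608, 1294193849778196816501067,
  7747968856442581847936491526142726531158881752354100557844853480706394925113469370369, 395649,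
  [P2p1_0, P2p2_0, P2p3_0, P2p3_2, P2p4_5, P2p4_6, P2p5_6, P2p7_0, P2p7_2, P2p7_3, P2p7_4, P2p7_5,
  P2p7_6, P2p8_0, P2p8_2, P2p8_3, P2p8_4, P2p8_5, P2p8_6, P2p8_7, P2p9_0, P2p9_2, P2p9_3, P2p9_4,
  P2p9_5, P2p9_6, P2p9_7, P2p9_8]⟩) (.leaf ⟨38810175010, 78591106854062636886329442,
  4735357323619727015390852054632642925840267025579062933240912600896547989336973377648, 592193,
  [P2p0_4, P2p0_5, P2p0_6, P2p1_0, P2p1_4, P2p1_5, P2p1_6, P2p2_3, P2p2_4, P2p2_5, P2p2_6, P2p3_4,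
  P2p3_5, P2p3_6, P2p4_5, P2p4_6, P2p5_6, P2p7_4, P2p7_5, P2p7_6, P2p7_8, P2p7_9, P2p8_4, P2p8_5,
  P2p8_6, P2p8_9, P2p9_4, P2p9_5, P2p9_6]⟩)) (.node 71 (.leaf ⟨25925289505,
  41227743241710288359327844,
  7649316196439114946601203098489992816375117436028825377525842782999199890686353801219, 395586,
  [P2p0_1, P2p2_0, P2p2_1, P2p2_3, P2p2_4, P2p2_5, P2p2_6, P2p3_0, P2p3_1, P2p3_4, P2p3_5, P2p3_6,
  P2p4_5, P2p4_6, P2p5_6, P2p7_4, P2p7_5, P2p7_6, P2p8_4, P2p8_5, P2p8_6, P2p8_7, P2p9_4, P2p9_5,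
  P2p9_6, P2p9_7, P2p9_8]⟩) (.leaf ⟨38810191393, 78591106854174924511316068,
  4758123322082065531083610922555223303891852273782813972063745719083394207233190592515, 592194,
  [P2p0_1, P2p2_0, P2p2_1, P2p2_3, P2p2_4, P2p2_5, P2p2_6, P2p3_0, P2p3_1, P2p3_4, P2p3_5, P2p3_6,
  P2p4_5, P2p4_6, P2p5_6, P2p7_0, P2p7_1, P2p7_4, P2p7_5, P2p7_6, P2p7_8, P2p7_9, P2p8_0, P2p8_1,
  P2p8_4, P2p8_5, P2p8_6, P2p8_9, P2p9_0, P2p9_1, P2p9_4, P2p9_5, P2p9_6]⟩)))) (.node 76 (.node 74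
  (.node 73 (.leaf ⟨25879136530, 280810839923837455734771810,
  6799385587178502801467674402222733268725241617275775360513934417329983813815666213772, 394881,
  [P2p0_2, P2p0_3, P2p0_7, P2p0_8, P2p0_9, P2p1_0, P2p1_2, P2p1_3, P2p1_7, P2p1_8, P2p1_9, P2p3_2,
  P2p4_2, P2p4_3, P2p4_7, P2p4_8, P2p4_9, P2p5_2, P2p5_3, P2p5_4, P2p5_7, P2p5_8, P2p5_9, P2p6_2,
  P2p6_3, P2p6_4, P2p6_5, P2p6_7, P2p6_8, P2p6_9, P2p8_7, P2p9_7, P2p9_8]⟩) (.leaf ⟨25929484561,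
  280814417327917849242502151,
  6799385587178501264766758590177997710257618751079065197838054480448861136308562493443, 395650,
  [P2p0_1, P2p3_2, P2p4_0, P2p4_1, P2p4_5, P2p4_6, P2p4_7, P2p4_8, P2p4_9, P2p5_0, P2p5_1, P2p5_6,
  P2p5_7, P2p5_8, P2p5_9, P2p6_0, P2p6_1, P2p6_7, P2p6_8, P2p6_9, P2p8_7, P2p9_7, P2p9_8]⟩)) (.node
  75 (.leaf ⟨25925273122, 161028392093126272152275042,
  7649316196439114946601203098489705469076700513225306106476108785474909883300950574064, 395585,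
  [P2p0_4, P2p0_5, P2p0_6, P2p0_7, P2p0_8, P2p0_9, P2p1_0, P2p1_4, P2p1_5, P2p1_6, P2p1_7, P2p1_8,
  P2p1_9, P2p2_3, P2p2_4, P2p2_5, P2p2_6, P2p3_4, P2p3_5, P2p3_6, P2p4_5, P2p4_6, P2p5_6, P2p7_4,
  P2p7_5, P2p7_6, P2p8_4, P2p8_5, P2p8_6, P2p8_7, P2p9_4, P2p9_5, P2p9_6, P2p9_7, P2p9_8]⟩) (.leaf
  ⟨25929468178, 280814417439266250780840034,
  6799385587178501183885684441476782215564915280947262646274092640284226026545479418764, 395649,
  [P2p0_2, P2p0_3, P2p0_7, P2p0_8, P2p0_9, P2p1_0, P2p1_2, P2p1_3, P2p1_7, P2p1_8, P2p1_9, P2p3_2,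
  P2p4_5, P2p4_6, P2p4_7, P2p4_8, P2p4_9, P2p5_6, P2p5_7, P2p5_8, P2p5_9, P2p6_7, P2p6_8, P2p6_9,
  P2p8_7, P2p9_7, P2p9_8]⟩))) (.node 78 (.node 77 (.leaf ⟨25925273890, 400615066139818381565593698,
  6799385587178501183885684441572947795639913330923163106558000601807808848330861052800, 395585,
  [P2p0_7, P2p0_8, P2p0_9, P2p1_0, P2p1_7, P2p1_8, P2p1_9, P2p2_3, P2p2_4, P2p2_5, P2p2_6, P2p2_7,
  P2p2_8, P2p2_9, P2p3_4, P2p3_5, P2p3_6, P2p3_7, P2p3_8, P2p3_9, P2p4_5, P2p4_6, P2p4_7, P2p4_8,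
  P2p4_9, P2p5_6, P2p5_7, P2p5_8, P2p5_9, P2p6_7, P2p6_8, P2p6_9, P2p8_7, P2p9_7, P2p9_8]⟩) (.leaf
  ⟨25874942242, 280810839772861315101591650,
  6799385587178502477943377807503309237555179946369327339142410679032501413398498509696, 394817,
  [P2p0_7, P2p0_8, P2p0_9, P2p1_0, P2p1_7, P2p1_8, P2p1_9, P2p2_3, P2p2_7, P2p2_8, P2p2_9, P2p3_7,
  P2p3_8, P2p3_9, P2p4_7, P2p4_8, P2p4_9, P2p5_4, P2p5_7, P2p5_8, P2p5_9, P2p6_4, P2p6_5, P2p6_7,
  P2p6_8, P2p6_9, P2p8_7, P2p9_7, P2p9_8]⟩)) (.node 79 (.leaf ⟨25874949704,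
  1291834855004499761826885,
  7656904862593229079223149420394164753062072908557406130209843227527275374142880808961, 394817,
  [P2p1_0, P2p1_3, P2p1_4, P2p1_5, P2p1_6, P2p2_0, P2p2_3, P2p2_4, P2p2_5, P2p2_6, P2p5_4, P2p6_4,
  P2p6_5, P2p7_0, P2p7_4, P2p7_5, P2p7_6, P2p8_0, P2p8_4, P2p8_5, P2p8_6, P2p8_7, P2p9_0, P2p9_4,
  P2p9_5, P2p9_6, P2p9_7, P2p9_8]⟩) (.leaf ⟨25874958625, 280810839773082557456943207,
  6799385587178502558824451956204812079546300686738231545998581679809951750864842719235, 394818,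
  [P2p0_1, P2p2_0, P2p2_1, P2p2_3, P2p2_7, P2p2_8, P2p2_9, P2p3_0, P2p3_1, P2p3_7, P2p3_8, P2p3_9,
  P2p4_0, P2p4_1, P2p4_7, P2p4_8, P2p4_9, P2p5_0, P2p5_1, P2p5_4, P2p5_7, P2p5_8, P2p5_9, P2p6_0,
  P2p6_1, P2p6_4, P2p6_5, P2p6_7, P2p6_8, P2p6_9, P2p8_7, P2p9_7, P2p9_8]⟩))))) (.node 88 (.node 84
  (.node 82 (.node 81 (.leaf ⟨38810442116, 278244231580930847804626112,
  3885426714359113657080704141125414033599131824094072068699428048619585245918379574159, 592193,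
  [P2p1_0, P2p2_3, P2p4_0, P2p4_1, P2p4_2, P2p4_3, P2p4_5, P2p4_6, P2p4_7, P2p4_8, P2p4_9, P2p5_0,
  P2p5_1, P2p5_2, P2p5_3, P2p5_6, P2p5_7, P2p5_8, P2p5_9, P2p6_0, P2p6_1, P2p6_2, P2p6_3, P2p6_7,
  P2p6_8, P2p6_9, P2p7_8, P2p7_9, P2p8_9]⟩) (.leaf ⟨38810442020, 557779078715208397750473760,
  3885426714359113252675333397715885252426293505615016831785029069803212712002948367359, 592193,
  [P2p1_0, P2p2_3, P2p2_4, P2p2_5, P2p2_6, P2p2_7, P2p2_8, P2p2_9, P2p3_4, P2p3_5, P2p3_6, P2p3_7,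
  P2p3_8, P2p3_9, P2p4_5, P2p4_6, P2p4_7, P2p4_8, P2p4_9, P2p5_6, P2p5_7, P2p5_8, P2p5_9, P2p6_7,
  P2p6_8, P2p6_9, P2p7_8, P2p7_9, P2p8_9]⟩)) (.node 83 (.leaf ⟨38764054801,
  318174203536526735856209930,
  3908192712821453466831156374989179250934679925161566506615799193578813240125586079747, 591490,
  [P2p0_1, P2p3_2, P2p4_0, P2p4_1, P2p4_2, P2p4_3, P2p4_7, P2p4_8, P2p4_9, P2p5_0, P2p5_1, P2p5_2,
  P2p5_3, P2p5_4, P2p5_7, P2p5_8, P2p5_9, P2p6_0, P2p6_1, P2p6_2, P2p6_3, P2p6_4, P2p6_5, P2p6_7,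
  P2p6_8, P2p6_9, P2p7_0, P2p7_1, P2p7_8, P2p7_9, P2p8_0, P2p8_1, P2p8_9, P2p9_0, P2p9_1]⟩) (.leaf
  ⟨38764038418, 318174203536302091886760034,
  3885426714359114870257323358365670725488808129629532187278738232751621919851689017356, 591489,
  [P2p0_2, P2p0_3, P2p1_0, P2p1_2, P2p1_3, P2p3_2, P2p4_2, P2p4_3, P2p4_7, P2p4_8, P2p4_9, P2p5_2,
  P2p5_3, P2p5_4, P2p5_7, P2p5_8, P2p5_9, P2p6_2, P2p6_3, P2p6_4, P2p6_5, P2p6_7, P2p6_8, P2p6_9,
  P2p7_8, P2p7_9, P2p8_9]⟩))) (.node 86 (.node 85 (.leaf ⟨25925536134, 480474853843340545173361866,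
  6799385587178501588291055184982476576855546779438198609281006623989645793403817886592, 395585,
  [P2p0_7, P2p0_8, P2p0_9, P2p1_0, P2p1_7, P2p1_8, P2p1_9, P2p2_3, P2p4_0, P2p4_1, P2p4_2, P2p4_3,
  P2p4_5, P2p4_6, P2p4_7, P2p4_8, P2p4_9, P2p5_0, P2p5_1, P2p5_2, P2p5_3, P2p5_6, P2p5_7, P2p5_8,
  P2p5_9, P2p6_0, P2p6_1, P2p6_2, P2p6_3, P2p6_7, P2p6_8, P2p6_9, P2p8_7, P2p9_7, P2p9_8]⟩) (.leaf
  ⟨38764054033, 78587529712756004769540100,
  4849187315931421211436636354979714612485392196465721550208204867262335814720065306627, 591490,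
  [P2p0_1, P2p3_2, P2p4_2, P2p4_3, P2p5_2, P2p5_3, P2p5_4, P2p6_2, P2p6_3, P2p6_4, P2p6_5, P2p7_0,
  P2p7_1, P2p7_2, P2p7_3, P2p7_4, P2p7_5, P2p7_6, P2p7_8, P2p7_9, P2p8_0, P2p8_1, P2p8_2, P2p8_3,
  P2p8_4, P2p8_5, P2p8_6, P2p8_9, P2p9_0, P2p9_1, P2p9_2, P2p9_3, P2p9_4, P2p9_5, P2p9_6]⟩)) (.node
  87 (.leaf ⟨25875211844, 1290616406345320077754565,
  7763146188750808819122690804031532064758141399352482071329663637984090791737874645007, 394817,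
  [P2p1_0, P2p2_3, P2p5_4, P2p6_4, P2p6_5, P2p7_0, P2p7_1, P2p7_2, P2p7_3, P2p7_4, P2p7_5, P2p7_6,
  P2p8_0, P2p8_1, P2p8_2, P2p8_3, P2p8_4, P2p8_5, P2p8_6, P2p8_7, P2p9_0, P2p9_1, P2p9_2, P2p9_3,
  P2p9_4, P2p9_5, P2p9_6, P2p9_7, P2p9_8]⟩) (.leaf ⟨25874957857, 41224165726281493313259620,
  7649316196439116240658896464420354258290384051474989610110252860223892455753991258115, 394818,
  [P2p0_1, P2p2_0, P2p2_1, P2p2_3, P2p3_0, P2p3_1, P2p5_4, P2p6_4, P2p6_5, P2p7_4, P2p7_5, P2p7_6,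
  P2p8_4, P2p8_5, P2p8_6, P2p8_7, P2p9_4, P2p9_5, P2p9_6, P2p9_7, P2p9_8]⟩)))) (.node 92 (.node 90
  (.node 89 (.leaf ⟨38759859745, 78587529338746129465247844,
  4758123322082066825141304288485584745807118889228978204648155796308086772300828049411, 591426,
  [P2p0_1, P2p2_0, P2p2_1, P2p2_3, P2p3_0, P2p3_1, P2p5_4, P2p6_4, P2p6_5, P2p7_0, P2p7_1, P2p7_4,
  P2p7_5, P2p7_6, P2p7_8, P2p7_9, P2p8_0, P2p8_1, P2p8_4, P2p8_5, P2p8_6, P2p8_9, P2p9_0, P2p9_1,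
  P2p9_4, P2p9_5, P2p9_6]⟩) (.leaf ⟨25925543460, 1301505749956331747780805,
  7763146188750807525064997438101170622845372467368553277410659762803509127892984332415, 395585,
  [P2p1_0, P2p2_3, P2p2_4, P2p2_5, P2p2_6, P2p3_4, P2p3_5, P2p3_6, P2p4_5, P2p4_6, P2p5_6, P2p7_0,
  P2p7_1, P2p7_2, P2p7_3, P2p7_4, P2p7_5, P2p7_6, P2p8_0, P2p8_1, P2p8_2, P2p8_3, P2p8_4, P2p8_5,
  P2p8_6, P2p8_7, P2p9_0, P2p9_1, P2p9_2, P2p9_3, P2p9_4, P2p9_5, P2p9_6, P2p9_7, P2p9_8]⟩)) (.node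
  91 (.leaf ⟨25874941474, 161024814577697477106206818,
  7649316196439116240658896464420066910991967128671470339060518862699602448368588030960, 394817,
  [P2p0_4, P2p0_5, P2p0_6, P2p0_7, P2p0_8, P2p0_9, P2p1_0, P2p1_4, P2p1_5, P2p1_6, P2p1_7, P2p1_8,
  P2p1_9, P2p2_3, P2p5_4, P2p6_4, P2p6_5, P2p7_4, P2p7_5, P2p7_6, P2p8_4, P2p8_5, P2p8_6, P2p8_7,
  P2p9_4, P2p9_5, P2p9_6, P2p9_7, P2p9_8]⟩) (.leaf ⟨38814370066, 318177781051730886932828258,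
  3885426714359113252675333397619719672328481793301019473038896455705864132581502222348, 592257,
  [P2p0_2, P2p0_3, P2p1_0, P2p1_2, P2p1_3, P2p3_2, P2p4_5, P2p4_6, P2p4_7, P2p4_8, P2p4_9, P2p5_6,
  P2p5_7, P2p5_8, P2p5_9, P2p6_7, P2p6_8, P2p6_9, P2p7_8, P2p7_9, P2p8_9]⟩))) (.node 94 (.node 93
  (.leaf ⟨38808082712, 437974773912395950927646886,
  3885426714359113252675333397705253402382312681953688551849147121195504443366368674689, 592161,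
  [P2p1_0, P2p1_2, P2p1_3, P2p1_7, P2p1_8, P2p1_9, P2p2_0, P2p2_3, P2p2_7, P2p2_8, P2p2_9, P2p3_0,
  P2p3_7, P2p3_8, P2p3_9, P2p4_5, P2p4_6, P2p4_7, P2p4_8, P2p4_9, P2p5_6, P2p5_7, P2p5_8, P2p5_9,
  P2p6_7, P2p6_8, P2p6_9, P2p7_8, P2p7_9, P2p8_9]⟩) (.leaf ⟨38757762577, 78587529635983704871708676,
  4849187315931420887912339760174469521521641318111475173519465581164769194074566492175, 591394,
  [P2p0_1, P2p0_2, P2p0_3, P2p1_2, P2p1_3, P2p2_3, P2p5_4, P2p6_4, P2p6_5, P2p7_0, P2p7_1, P2p7_2,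
  P2p7_3, P2p7_4, P2p7_5, P2p7_6, P2p7_8, P2p7_9, P2p8_0, P2p8_1, P2p8_2, P2p8_3, P2p8_4, P2p8_5,
  P2p8_6, P2p8_9, P2p9_0, P2p9_1, P2p9_2, P2p9_3, P2p9_4, P2p9_5, P2p9_6]⟩)) (.node 95 (.leaf
  ⟨38757746194, 78587529524407326469302370,
  4735357323619728309448545420563004367755801254051060243916585086232549989879852564604, 591393,
  [P2p0_2, P2p0_3, P2p0_4, P2p0_5, P2p0_6, P2p1_0, P2p1_2, P2p1_3, P2p1_4, P2p1_5, P2p1_6, P2p2_3,
  P2p5_4, P2p6_4, P2p6_5, P2p7_4, P2p7_5, P2p7_6, P2p7_8, P2p7_9, P2p8_4, P2p8_5, P2p8_6, P2p8_9,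
  P2p9_4, P2p9_5, P2p9_6]⟩) (.leaf ⟨38756976145, 78587529303667310492690532,
  4758123322082066825141304288485967858000389165031940037644889319028545244905546645507, 591378,
  [P2p0_1, P2p2_0, P2p2_1, P2p3_0, P2p3_1, P2p3_2, P2p5_4, P2p6_4, P2p6_5, P2p7_0, P2p7_1, P2p7_4,
  P2p7_5, P2p7_6, P2p7_8, P2p7_9, P2p8_0, P2p8_1, P2p8_4, P2p8_5, P2p8_6, P2p8_9, P2p9_0, P2p9_1,
  P2p9_4, P2p9_5, P2p9_6]⟩)))))) (.node 112 (.node 104 (.node 100 (.node 98 (.node 97 (.leaf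
  ⟨38756959762, 78591185217755089234965701,
  4735357323619728309448545420574402459723963469513710641295306810918042591383821222000, 591377,
  [P2p0_4, P2p0_5, P2p0_6, P2p1_0, P2p1_4, P2p1_5, P2p1_6, P2p2_0, P2p2_1, P2p2_4, P2p2_5, P2p2_6,
  P2p3_0, P2p3_1, P2p3_2, P2p3_4, P2p3_5, P2p3_6, P2p5_4, P2p6_4, P2p6_5, P2p7_4, P2p7_5, P2p7_6,
  P2p7_8, P2p7_9, P2p8_4, P2p8_5, P2p8_6, P2p8_9, P2p9_4, P2p9_5, P2p9_6]⟩) (.leaf ⟨38757751064,
  437971196396967155881578662,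
  3885426714359114573693384813213414308336058493620547486907367149538562704768254411649, 591393,
  [P2p1_0, P2p1_2, P2p1_3, P2p1_7, P2p1_8, P2p1_9, P2p2_0, P2p2_3, P2p2_7, P2p2_8, P2p2_9, P2p3_0,
  P2p3_7, P2p3_8, P2p3_9, P2p4_0, P2p4_7, P2p4_8, P2p4_9, P2p5_0, P2p5_4, P2p5_7, P2p5_8, P2p5_9,
  P2p6_0, P2p6_4, P2p6_5, P2p6_7, P2p6_8, P2p6_9, P2p7_8, P2p7_9, P2p8_9]⟩)) (.node 99 (.leaf
  ⟨38808094225, 78591107151412499917776900,
  4849187315931419593854646394233380447132130099595675672932302075431047253206162669583, 592162,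
  [P2p0_1, P2p0_2, P2p0_3, P2p1_2, P2p1_3, P2p2_3, P2p4_5, P2p4_6, P2p5_6, P2p7_0, P2p7_1, P2p7_2,
  P2p7_3, P2p7_4, P2p7_5, P2p7_6, P2p7_8, P2p7_9, P2p8_0, P2p8_1, P2p8_2, P2p8_3, P2p8_4, P2p8_5,
  P2p8_6, P2p8_9, P2p9_0, P2p9_1, P2p9_2, P2p9_3, P2p9_4, P2p9_5, P2p9_6]⟩) (.leaf ⟨38807307793,
  78591106819096105538755684,
  4758123322082065531083610922544878783610877946516140537057725813294823304037142822915, 592146,
  [P2p0_1, P2p2_0, P2p2_1, P2p3_0, P2p3_1, P2p3_2, P2p4_5, P2p4_6, P2p5_6, P2p7_0, P2p7_1, P2p7_4,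
  P2p7_5, P2p7_6, P2p7_8, P2p7_9, P2p8_0, P2p8_1, P2p8_4, P2p8_5, P2p8_6, P2p8_9, P2p9_0, P2p9_1,
  P2p9_4, P2p9_5, P2p9_6]⟩))) (.node 102 (.node 101 (.leaf ⟨25923184152, 1294193698626031243663592,
  7656904862593227785165456054453171295953273909802190252738535440294343277171741622273, 395553,
  [P2p1_0, P2p1_2, P2p1_3, P2p2_0, P2p2_3, P2p3_0, P2p4_5, P2p4_6, P2p5_6, P2p7_0, P2p7_4, P2p7_5,
  P2p7_6, P2p8_0, P2p8_4, P2p8_5, P2p8_6, P2p8_7, P2p9_0, P2p9_4, P2p9_5, P2p9_6, P2p9_7, P2p9_8]⟩)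
  (.leaf ⟨25923193105, 280814417697213018686895111,
  6799385587178501588291055184982476576835498108350245249405438701808934246158099742735, 395554,
  [P2p0_1, P2p0_2, P2p0_3, P2p1_2, P2p1_3, P2p2_3, P2p4_0, P2p4_1, P2p4_2, P2p4_3, P2p4_5, P2p4_6,
  P2p4_7, P2p4_8, P2p4_9, P2p5_0, P2p5_1, P2p5_2, P2p5_3, P2p5_6, P2p5_7, P2p5_8, P2p5_9, P2p6_0,
  P2p6_1, P2p6_2, P2p6_3, P2p6_7, P2p6_8, P2p6_9, P2p8_7, P2p9_7, P2p9_8]⟩)) (.node 103 (.leaf
  ⟨25922406673, 280814417253326980414181479,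
  6799385587178501264766758590178285057556102919468311734386124268724453276195026567171, 395538,
  [P2p0_1, P2p2_0, P2p2_1, P2p3_0, P2p3_1, P2p3_2, P2p4_0, P2p4_1, P2p4_5, P2p4_6, P2p4_7, P2p4_8,
  P2p4_9, P2p5_0, P2p5_1, P2p5_6, P2p5_7, P2p5_8, P2p5_9, P2p6_0, P2p6_1, P2p6_7, P2p6_8, P2p6_9,
  P2p8_7, P2p9_7, P2p9_8]⟩) (.leaf ⟨38808077842, 78591107039836121515367522,
  4735357323619727015390852054621915293366290035535260743329421580498828049011448742012, 592161,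
  [P2p0_2, P2p0_3, P2p0_4, P2p0_5, P2p0_6, P2p1_0, P2p1_2, P2p1_3, P2p1_4, P2p1_5, P2p1_6, P2p2_3,
  P2p4_5, P2p4_6, P2p5_6, P2p7_4, P2p7_5, P2p7_6, P2p7_8, P2p7_9, P2p8_4, P2p8_5, P2p8_6, P2p8_9,
  P2p9_4, P2p9_5, P2p9_6]⟩)))) (.node 108 (.node 106 (.node 105 (.leaf ⟨25923176722,
  280814417474063594776697954,
  6799385587178501183885684441476399103371979516322278772624482153337853901599205491596, 395553,
  [P2p0_2, P2p0_3, P2p0_7, P2p0_8, P2p0_9, P2p1_0, P2p1_2, P2p1_3, P2p1_7, P2p1_8, P2p1_9, P2p2_3,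
  P2p4_5, P2p4_6, P2p4_7, P2p4_8, P2p4_9, P2p5_6, P2p5_7, P2p5_8, P2p5_9, P2p6_7, P2p6_8, P2p6_9,
  P2p8_7, P2p9_7, P2p9_8]⟩) (.leaf ⟨25922390290, 280814417253320245905464517,
  6799385587178501183885684441562890622677337737508024054565441880712308445761972994944, 395537,
  [P2p0_7, P2p0_8, P2p0_9, P2p1_0, P2p1_7, P2p1_8, P2p1_9, P2p2_0, P2p2_1, P2p2_7, P2p2_8, P2p2_9,
  P2p3_0, P2p3_1, P2p3_2, P2p3_7, P2p3_8, P2p3_9, P2p4_5, P2p4_6, P2p4_7, P2p4_8, P2p4_9, P2p5_6,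
  P2p5_7, P2p5_8, P2p5_9, P2p6_7, P2p6_8, P2p6_9, P2p8_7, P2p9_7, P2p9_8]⟩)) (.node 107 (.leaf
  ⟨25872075025, 280810839737898185368113255,
  6799385587178502558824451956119374131945614137984111234973287774458175217063430389763, 394770,
  [P2p0_1, P2p2_0, P2p2_1, P2p3_0, P2p3_1, P2p3_2, P2p4_0, P2p4_1, P2p4_7, P2p4_8, P2p4_9, P2p5_0,
  P2p5_1, P2p5_4, P2p5_7, P2p5_8, P2p5_9, P2p6_0, P2p6_1, P2p6_4, P2p6_5, P2p6_7, P2p6_8, P2p6_9,
  P2p8_7, P2p9_7, P2p9_8]⟩) (.leaf ⟨25872852504, 1290616183197339276813643,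
  7656904862593229106183507469961332201907019721469049187796755468637401538573627359233, 394785,
  [P2p1_0, P2p1_2, P2p1_3, P2p2_0, P2p2_3, P2p3_0, P2p4_0, P2p5_0, P2p5_4, P2p6_0, P2p6_4, P2p6_5,
  P2p7_0, P2p7_4, P2p7_5, P2p7_6, P2p8_0, P2p8_4, P2p8_5, P2p8_6, P2p8_7, P2p9_0, P2p9_4, P2p9_5,
  P2p9_6, P2p9_7, P2p9_8]⟩))) (.node 110 (.node 109 (.leaf ⟨25872861457,
  280810840181784223640826887,
  6799385587178502882348748550923565651225009326866044749992602207542656187026503565327, 394786,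
  [P2p0_1, P2p0_2, P2p0_3, P2p1_2, P2p1_3, P2p2_3, P2p4_0, P2p4_1, P2p4_2, P2p4_3, P2p4_7, P2p4_8,
  P2p4_9, P2p5_0, P2p5_1, P2p5_2, P2p5_3, P2p5_4, P2p5_7, P2p5_8, P2p5_9, P2p6_0, P2p6_1, P2p6_2,
  P2p6_3, P2p6_4, P2p6_5, P2p6_7, P2p6_8, P2p6_9, P2p8_7, P2p9_7, P2p9_8]⟩) (.leaf ⟨25872845074,
  280810839958634799730629730,
  6799385587178502477943377807417488177761490734838078273211645659071575842467609314188, 394785,
  [P2p0_2, P2p0_3, P2p0_7, P2p0_8, P2p0_9, P2p1_0, P2p1_2, P2p1_3, P2p1_7, P2p1_8, P2p1_9, P2p2_3,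
  P2p4_7, P2p4_8, P2p4_9, P2p5_4, P2p5_7, P2p5_8, P2p5_9, P2p6_4, P2p6_5, P2p6_7, P2p6_8, P2p6_9,
  P2p8_7, P2p9_7, P2p9_8]⟩)) (.node 111 (.leaf ⟨25872058642, 280810839737891450859396293,
  6799385587178502477943377807503979697066848956023823555152605386446030386630376817536, 394769,
  [P2p0_7, P2p0_8, P2p0_9, P2p1_0, P2p1_7, P2p1_8, P2p1_9, P2p2_0, P2p2_1, P2p2_7, P2p2_8, P2p2_9,
  P2p3_0, P2p3_1, P2p3_2, P2p3_7, P2p3_8, P2p3_9, P2p4_7, P2p4_8, P2p4_9, P2p5_4, P2p5_7, P2p5_8,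
  P2p5_9, P2p6_4, P2p6_5, P2p6_7, P2p6_8, P2p6_9, P2p8_7, P2p9_7, P2p9_8]⟩) (.leaf ⟨38807291410,
  78594762733183884281030853,
  4735357323619727015390852054633313385334452250997911140708143305184320650515417399408, 592145,
  [P2p0_4, P2p0_5, P2p0_6, P2p1_0, P2p1_4, P2p1_5, P2p1_6, P2p2_0, P2p2_1, P2p2_4, P2p2_5, P2p2_6,
  P2p3_0, P2p3_1, P2p3_2, P2p3_4, P2p3_5, P2p3_6, P2p4_5, P2p4_6, P2p5_6, P2p7_4, P2p7_5, P2p7_6,
  P2p7_8, P2p7_9, P2p8_4, P2p8_5, P2p8_6, P2p8_9, P2p9_4, P2p9_5, P2p9_6]⟩))))) (.node 120 (.node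
  116 (.node 114 (.node 113 (.leaf ⟨38756964644, 318174203461929123929229344,
  3885426714359114546733026763561096094016477176122614870548999383003987045927355351951, 591377,
  [P2p1_0, P2p2_0, P2p2_1, P2p3_0, P2p3_1, P2p3_2, P2p4_7, P2p4_8, P2p4_9, P2p5_4, P2p5_7, P2p5_8,
  P2p5_9, P2p6_4, P2p6_5, P2p6_7, P2p6_8, P2p6_9, P2p7_8, P2p7_9, P2p8_9]⟩) (.leaf ⟨25922405905,
  41227743206631469386767460,
  7649316196439114946601203098479648296094143108762151942519822877210628987490306031619, 395538,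
  [P2p0_1, P2p2_0, P2p2_1, P2p3_0, P2p3_1, P2p3_2, P2p4_5, P2p4_6, P2p5_6, P2p7_4, P2p7_5, P2p7_6,
  P2p8_4, P2p8_5, P2p8_6, P2p8_7, P2p9_4, P2p9_5, P2p9_6, P2p9_7, P2p9_8]⟩)) (.node 115 (.leaf
  ⟨25872074257, 41224165691202674340702308,
  7649316196439116240658896464420737370483654327277951443106986382944350928358709854211, 394770,
  [P2p0_1, P2p2_0, P2p2_1, P2p3_0, P2p3_1, P2p3_2, P2p5_4, P2p6_4, P2p6_5, P2p7_4, P2p7_5, P2p7_6,
  P2p8_4, P2p8_5, P2p8_6, P2p8_7, P2p9_4, P2p9_5, P2p9_6, P2p9_7, P2p9_8]⟩) (.leaf ⟨38807296292,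
  437978429828886187172005920,
  3885426714359113252675333397620007019626965957606815369961835877270265105539995206655, 592145,
  [P2p1_0, P2p2_0, P2p2_1, P2p3_0, P2p3_1, P2p3_2, P2p4_5, P2p4_6, P2p4_7, P2p4_8, P2p4_9, P2p5_6,
  P2p5_7, P2p5_8, P2p5_9, P2p6_7, P2p6_8, P2p6_9, P2p7_8, P2p7_9, P2p8_9]⟩))) (.node 118 (.node 117
  (.leaf ⟨38764037650, 78587529712749270260820066,
  4826421317469082695743877487057421581732224218499072166677580909688304824527109226620, 591489,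
  [P2p0_2, P2p0_3, P2p0_4, P2p0_5, P2p0_6, P2p1_0, P2p1_2, P2p1_3, P2p1_4, P2p1_5, P2p1_6, P2p3_2,
  P2p4_2, P2p4_3, P2p5_2, P2p5_3, P2p5_4, P2p6_2, P2p6_3, P2p6_4, P2p6_5, P2p7_2, P2p7_3, P2p7_4,
  P2p7_5, P2p7_6, P2p7_8, P2p7_9, P2p8_2, P2p8_3, P2p8_4, P2p8_5, P2p8_6, P2p8_9, P2p9_2, P2p9_3,
  P2p9_4, P2p9_5, P2p9_6]⟩) (.leaf ⟨25879143960, 1290616445919148743337390,
  7747968856442583492478839536455749415883442681833672706555751780361489032917138079745, 394881,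
  [P2p1_0, P2p2_0, P2p3_0, P2p3_2, P2p4_0, P2p4_2, P2p4_3, P2p5_0, P2p5_2, P2p5_3, P2p5_4, P2p6_0,
  P2p6_2, P2p6_3, P2p6_4, P2p6_5, P2p7_0, P2p7_2, P2p7_3, P2p7_4, P2p7_5, P2p7_6, P2p8_0, P2p8_2,
  P2p8_3, P2p8_4, P2p8_5, P2p8_6, P2p8_7, P2p9_0, P2p9_2, P2p9_3, P2p9_4, P2p9_5, P2p9_6, P2p9_7,
  P2p9_8]⟩)) (.node 119 (.leaf ⟨38814636420, 278244231256671674633950400,
  3885426714359113441397839744589509836192192400652316779140743180388706331453121037191, 592257,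
  [P2p1_0, P2p3_0, P2p3_1, P2p3_2, P2p4_0, P2p4_1, P2p4_2, P2p4_5, P2p4_6, P2p4_7, P2p4_8, P2p4_9,
  P2p5_0, P2p5_1, P2p5_2, P2p5_6, P2p5_7, P2p5_8, P2p5_9, P2p6_0, P2p6_1, P2p6_2, P2p6_7, P2p6_8,
  P2p6_9, P2p7_8, P2p7_9, P2p8_9]⟩) (.leaf ⟨38808078610, 318177781086528230928686178,
  3885426714359113252675333397619336560135546028676035599389285968759492007635228295180, 592161,
  [P2p0_2, P2p0_3, P2p1_0, P2p1_2, P2p1_3, P2p2_3, P2p4_5, P2p4_6, P2p4_7, P2p4_8, P2p4_9, P2p5_6,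
  P2p5_7, P2p5_8, P2p5_9, P2p6_7, P2p6_8, P2p6_9, P2p7_8, P2p7_9, P2p8_9]⟩)))) (.node 124 (.node 122
  (.node 121 (.leaf ⟨38757746962, 318174203571099435882617954,
  3885426714359114546733026763560425634525057247191835099976449474493213948503632117772, 591393,
  [P2p0_2, P2p0_3, P2p1_0, P2p1_2, P2p1_3, P2p2_3, P2p4_7, P2p4_8, P2p4_9, P2p5_4, P2p5_7, P2p5_8,
  P2p5_9, P2p6_4, P2p6_5, P2p6_7, P2p6_8, P2p6_9, P2p7_8, P2p7_9, P2p8_9]⟩) (.leaf ⟨25922397732,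
  1297849801071281054162117,
  7763146188750807525064997438091113449859983211615317397944310001915089455897229852799, 395537,
  [P2p1_0, P2p2_0, P2p2_1, P2p3_0, P2p3_1, P2p3_2, P2p4_5, P2p4_6, P2p5_6, P2p7_0, P2p7_1, P2p7_2,
  P2p7_3, P2p7_4, P2p7_5, P2p7_6, P2p8_0, P2p8_1, P2p8_2, P2p8_3, P2p8_4, P2p8_5, P2p8_6, P2p8_7,
  P2p9_0, P2p9_1, P2p9_2, P2p9_3, P2p9_4, P2p9_5, P2p9_6, P2p9_7, P2p9_8]⟩)) (.node 123 (.leaf
  ⟨25872066084, 1290616371551377696234693,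
  7763146188750808819122690804032202524249494430131116889657919306051205585807667560463, 394769,
  [P2p1_0, P2p2_0, P2p2_1, P2p3_0, P2p3_1, P2p3_2, P2p5_4, P2p6_4, P2p6_5, P2p7_0, P2p7_1, P2p7_2,
  P2p7_3, P2p7_4, P2p7_5, P2p7_6, P2p8_0, P2p8_1, P2p8_2, P2p8_3, P2p8_4, P2p8_5, P2p8_6, P2p8_7,
  P2p9_0, P2p9_1, P2p9_2, P2p9_3, P2p9_4, P2p9_5, P2p9_6, P2p9_7, P2p9_8]⟩) (.leaf ⟨25925290273,
  400615066140148578651310186,
  6799385587178501264766758590274450637631034071292067313414171602585259185797205262339, 395586,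
  [P2p0_1, P2p2_0, P2p2_1, P2p2_3, P2p2_4, P2p2_5, P2p2_6, P2p2_7, P2p2_8, P2p2_9, P2p3_0, P2p3_1,
  P2p3_4, P2p3_5, P2p3_6, P2p3_7, P2p3_8, P2p3_9, P2p4_0, P2p4_1, P2p4_5, P2p4_6, P2p4_7, P2p4_8,
  P2p4_9, P2p5_0, P2p5_1, P2p5_6, P2p5_7, P2p5_8, P2p5_9, P2p6_0, P2p6_1, P2p6_7, P2p6_8, P2p6_9,
  P2p8_7, P2p9_7, P2p9_8]⟩))) (.node 126 (.node 125 (.leaf ⟨26327934088, 1284523062851151090257991,
  6806974253332591402670040797398871258664563712185681887958645684883897579987519733761, 401729,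
  [P2p1_0, P2p1_3, P2p2_0, P2p2_3, P2p4_0, P2p4_3, P2p5_0, P2p5_3, P2p5_4, P2p6_0, P2p6_3, P2p6_4,
  P2p6_5, P2p7_0, P2p8_0, P2p8_7, P2p9_0, P2p9_7, P2p9_8]⟩) (.leaf ⟨39212832904,
  318174203529335683925774403,
  3885426714359090605935078748000640516471622083865071821752184327976826240176038151041, 598337,
  [P2p1_0, P2p1_3, P2p1_7, P2p1_8, P2p1_9, P2p2_0, P2p2_3, P2p2_7, P2p2_8, P2p2_9, P2p4_3, P2p5_3,
  P2p5_4, P2p6_3, P2p6_4, P2p6_5, P2p7_8, P2p7_9, P2p8_9]⟩)) (.node 127 (.leaf ⟨38814386449,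
  318177780940491440124855306,
  3908192712821451849249166414243228197774353588833053792375957416533055452855399284739, 592258,
  [P2p0_1, P2p3_2, P2p4_0, P2p4_1, P2p4_5, P2p4_6, P2p4_7, P2p4_8, P2p4_9, P2p5_0, P2p5_1, P2p5_6,
  P2p5_7, P2p5_8, P2p5_9, P2p6_0, P2p6_1, P2p6_7, P2p6_8, P2p6_9, P2p7_0, P2p7_1, P2p7_8, P2p7_9,
  P2p8_0, P2p8_1, P2p8_9, P2p9_0, P2p9_1]⟩) (.leaf ⟨26328196228, 1284523290575505444671751,
  6913215579490171304331730478438669723436720864522101799654466403823177876976360685583, 401729,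
  [P2p1_0, P2p2_3, P2p4_0, P2p4_1, P2p4_2, P2p4_3, P2p5_0, P2p5_1, P2p5_2, P2p5_3, P2p5_4, P2p6_0,
  P2p6_1, P2p6_2, P2p6_3, P2p6_4, P2p6_5, P2p7_0, P2p7_1, P2p7_2, P2p7_3, P2p8_0, P2p8_1, P2p8_2,
  P2p8_3, P2p8_7, P2p9_0, P2p9_1, P2p9_2, P2p9_3, P2p9_7, P2p9_8]⟩))))))

def P2T3 : Tr :=
  .node 160 (.node 144 (.node 136 (.node 132 (.node 130 (.node 129 (.leaf ⟨39213095044,
  198377210708049967106330784,
  3885426714359090794657585094970142026434447579260618283219947279583011662834978194319, 598337,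
  [P2p1_0, P2p2_3, P2p4_0, P2p4_1, P2p4_2, P2p4_3, P2p5_0, P2p5_1, P2p5_2, P2p5_3, P2p5_4, P2p6_0,
  P2p6_1, P2p6_2, P2p6_3, P2p6_4, P2p6_5, P2p7_8, P2p7_9, P2p8_9]⟩) (.leaf ⟨26325836952,
  1284522993045427802247337,
  6806974253332591186987176400862392387122080289372777399055710395059769958258018680833, 401697,
  [P2p1_0, P2p1_2, P2p1_3, P2p2_0, P2p2_3, P2p3_0, P2p4_0, P2p5_0, P2p5_4, P2p6_0, P2p6_4, P2p6_5,
  P2p7_0, P2p8_0, P2p8_7, P2p9_0, P2p9_7, P2p9_8]⟩)) (.node 131 (.leaf ⟨26333439108,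
  1284522919028536186605831,
  6822151585640816918036398411944922968951383321910342327744027819815297581739252318211, 401809,
  [P2p1_0, P2p2_0, P2p2_1, P2p2_3, P2p3_0, P2p3_1, P2p4_0, P2p4_1, P2p5_0, P2p5_1, P2p5_4, P2p6_0,
  P2p6_1, P2p6_4, P2p6_5, P2p7_0, P2p7_1, P2p8_0, P2p8_1, P2p8_7, P2p9_0, P2p9_1, P2p9_7, P2p9_8]⟩)
  (.leaf ⟨26332128392, 1284522883868250274369639,
  6806974253332591186987176400862775499315016049914372869654059320445643416267518967809, 401793,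
  [P2p1_0, P2p2_0, P2p3_0, P2p3_2, P2p4_0, P2p5_0, P2p5_4, P2p6_0, P2p6_4, P2p6_5, P2p7_0, P2p8_0,
  P2p8_7, P2p9_0, P2p9_7, P2p9_8]⟩))) (.node 134 (.node 133 (.leaf ⟨26332390532,
  1284522894258738236068103,
  6852506250257268380134842434109984110688000053073469953123310158941641672901312053255, 401793,
  [P2p1_0, P2p3_0, P2p3_1, P2p3_2, P2p4_0, P2p4_1, P2p4_2, P2p5_0, P2p5_1, P2p5_2, P2p5_4, P2p6_0,
  P2p6_1, P2p6_2, P2p6_4, P2p6_5, P2p7_0, P2p7_1, P2p7_2, P2p8_0, P2p8_1, P2p8_2, P2p8_7, P2p9_0,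
  P2p9_1, P2p9_2, P2p9_7, P2p9_8]⟩) (.leaf ⟨39217289348, 198377210419819590954619040,
  3885426714359090578974720698434237829027508155818862993661262411499706700959396070279, 598401,
  [P2p1_0, P2p3_0, P2p3_1, P2p3_2, P2p4_0, P2p4_1, P2p4_2, P2p5_0, P2p5_1, P2p5_2, P2p5_4, P2p6_0,
  P2p6_1, P2p6_2, P2p6_4, P2p6_5, P2p7_8, P2p7_9, P2p8_9]⟩)) (.node 135 (.leaf ⟨38793402760,
  318175349533311263127474243,
  3885426714359113899723920209693698675796403761953422579779490698935674576599098393473, 591937,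
  [P2p1_0, P2p1_3, P2p1_7, P2p1_8, P2p1_9, P2p2_0, P2p2_3, P2p2_7, P2p2_8, P2p2_9, P2p5_3, P2p5_4,
  P2p5_6, P2p5_7, P2p5_8, P2p5_9, P2p6_3, P2p6_4, P2p6_7, P2p6_8, P2p6_9, P2p7_8, P2p7_9, P2p8_9]⟩)
  (.leaf ⟨38793664900, 238310687691171266270695584,
  3885426714359114088446426512723488038052463910498443078793588737954499096525763707791, 591937,
  [P2p1_0, P2p2_3, P2p5_0, P2p5_1, P2p5_2, P2p5_3, P2p5_4, P2p5_6, P2p5_7, P2p5_8, P2p5_9, P2p6_0,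
  P2p6_1, P2p6_2, P2p6_3, P2p6_4, P2p6_7, P2p6_8, P2p6_9, P2p7_8, P2p7_9, P2p8_9]⟩)))) (.node 140
  (.node 138 (.node 137 (.leaf ⟨25908758918, 440541309953580962565689513,
  6799385587178502019656777556580550581308878865842569619375167313324559644011202020224, 395329,
  [P2p0_7, P2p0_8, P2p0_9, P2p1_0, P2p1_7, P2p1_8, P2p1_9, P2p2_3, P2p5_0, P2p5_1, P2p5_2, P2p5_3,
  P2p5_4, P2p5_6, P2p5_7, P2p5_8, P2p5_9, P2p6_0, P2p6_1, P2p6_2, P2p6_3, P2p6_4, P2p6_7, P2p6_8,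
  P2p6_9, P2p8_7, P2p9_7, P2p9_8]⟩) (.leaf ⟨38797859204, 238310687402940890118983840,
  3885426714359113872763562166404397723738970597743003174896235198542463737772781273991, 592001,
  [P2p1_0, P2p3_0, P2p3_1, P2p3_2, P2p5_0, P2p5_1, P2p5_2, P2p5_4, P2p5_6, P2p5_7, P2p5_8, P2p5_9,
  P2p6_0, P2p6_1, P2p6_2, P2p6_4, P2p6_7, P2p6_8, P2p6_9, P2p7_8, P2p7_9, P2p8_9]⟩)) (.node 139
  (.leaf ⟨38724196760, 437971422369582058820505766,
  3885426714359114546357846301165805681844057683285848682850626196666380340882934137729, 590881,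
  [P2p1_0, P2p1_2, P2p1_3, P2p1_4, P2p1_5, P2p1_7, P2p1_8, P2p1_9, P2p2_0, P2p2_3, P2p2_4, P2p2_5,
  P2p2_7, P2p2_8, P2p2_9, P2p3_0, P2p3_4, P2p3_5, P2p3_7, P2p3_8, P2p3_9, P2p4_5, P2p6_4, P2p6_5,
  P2p6_7, P2p6_8, P2p6_9, P2p7_8, P2p7_9, P2p8_9]⟩) (.leaf ⟨26324608152, 1284522887285429334279239,
  6799385587178478321462565395321797551314299186510036924475002045977833121917568483328, 401686,
  [P2p1_0, P2p3_0, P2p3_1, P2p3_2, P2p5_4, P2p6_4, P2p6_5, P2p8_7, P2p9_7, P2p9_8]⟩))) (.node 142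
  (.node 141 (.leaf ⟨25841395272, 1291825631632462907051077,
  7535486204127423230829374034770846957274619177072976413290048005506582031821150158849, 394305,
  [P2p1_0, P2p1_3, P2p1_5, P2p1_6, P2p2_0, P2p2_3, P2p2_5, P2p2_6, P2p4_5, P2p4_6, P2p6_5, P2p7_0,
  P2p7_5, P2p7_6, P2p8_0, P2p8_5, P2p8_6, P2p8_7, P2p9_0, P2p9_5, P2p9_6, P2p9_7, P2p9_8]⟩) (.leaf
  ⟨25841657412, 1290608335894787829825733,
  7641727530285002970728915418408214292355070682530193406374105726330281856603452801039, 394305,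
  [P2p1_0, P2p2_3, P2p4_5, P2p4_6, P2p6_5, P2p7_0, P2p7_1, P2p7_2, P2p7_3, P2p7_5, P2p7_6, P2p8_0,
  P2p8_1, P2p8_2, P2p8_3, P2p8_5, P2p8_6, P2p8_7, P2p9_0, P2p9_1, P2p9_2, P2p9_3, P2p9_5, P2p9_6,
  P2p9_7, P2p9_8]⟩)) (.node 143 (.leaf ⟨25846900292, 1290608038657212423440581,
  7550663536435648907957879946728524630189900774647977377832991209720684036054988292099, 394385,
  [P2p1_0, P2p2_0, P2p2_1, P2p2_3, P2p2_5, P2p2_6, P2p3_0, P2p3_1, P2p3_5, P2p3_6, P2p4_5, P2p4_6,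
  P2p6_5, P2p7_0, P2p7_1, P2p7_5, P2p7_6, P2p8_0, P2p8_1, P2p8_5, P2p8_6, P2p8_7, P2p9_0, P2p9_1,
  P2p9_5, P2p9_6, P2p9_7, P2p9_8]⟩) (.leaf ⟨25845589576, 1293042973787223941615717,
  7535486204127423230829374034780520823684143593160292952916815677044733118901920006145, 394369,
  [P2p1_0, P2p1_5, P2p1_6, P2p2_0, P2p2_5, P2p2_6, P2p3_0, P2p3_2, P2p3_5, P2p3_6, P2p4_5, P2p4_6,
  P2p6_5, P2p7_0, P2p7_5, P2p7_6, P2p8_0, P2p8_5, P2p8_6, P2p8_7, P2p9_0, P2p9_5, P2p9_6, P2p9_7,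
  P2p9_8]⟩))))) (.node 152 (.node 148 (.node 146 (.node 145 (.leaf ⟨25845851716,
  1290608011635614659183813,
  7581018201052100262214891770625298305365421949440187117774303517572724855918851194887, 394369,
  [P2p1_0, P2p3_0, P2p3_1, P2p3_2, P2p3_5, P2p3_6, P2p4_5, P2p4_6, P2p6_5, P2p7_0, P2p7_1, P2p7_2,
  P2p7_5, P2p7_6, P2p8_0, P2p8_1, P2p8_2, P2p8_5, P2p8_6, P2p8_7, P2p9_0, P2p9_1, P2p9_2, P2p9_5,
  P2p9_6, P2p9_7, P2p9_8]⟩) (.leaf ⟨26059507233, 41218003360839369716074596,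
  6920804245644282875798647415005175660443896203838012016417806223841086989143894065155, 397634,
  [P2p0_1, P2p2_0, P2p2_1, P2p2_3, P2p2_4, P2p3_0, P2p3_1, P2p3_4, P2p5_4, P2p5_6, P2p6_4, P2p7_4,
  P2p8_4, P2p8_7, P2p9_4, P2p9_7, P2p9_8]⟩)) (.node 147 (.leaf ⟨26059490850,
  161014999756928759017801826,
  6920804245644282875798647415004888313145479248366887060459560390380495740661137408912, 397633,
  [P2p0_4, P2p0_7, P2p0_8, P2p0_9, P2p1_0, P2p1_4, P2p1_7, P2p1_8, P2p1_9, P2p2_3, P2p2_4, P2p3_4,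
  P2p5_4, P2p5_6, P2p6_4, P2p7_4, P2p8_4, P2p8_7, P2p9_4, P2p9_7, P2p9_8]⟩) (.leaf ⟨26057401880,
  1285671302863977430817000,
  6928392911798395741323258414267519349748959023843477140216438384877469982793891119105, 397601,
  [P2p1_0, P2p1_2, P2p1_3, P2p2_0, P2p2_3, P2p3_0, P2p5_0, P2p5_4, P2p5_6, P2p6_0, P2p6_4, P2p7_0,
  P2p7_4, P2p8_0, P2p8_4, P2p8_7, P2p9_0, P2p9_4, P2p9_7, P2p9_8]⟩))) (.node 150 (.node 149 (.leaf
  ⟨26056623633, 41218003325760550743514212,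
  6920804245644282875798647415004026253712274393488168811128432113917398408062788894723, 397586,
  [P2p0_1, P2p2_0, P2p2_1, P2p3_0, P2p3_1, P2p3_2, P2p5_4, P2p5_6, P2p6_4, P2p7_4, P2p8_4, P2p8_7,
  P2p9_4, P2p9_7, P2p9_8]⟩) (.leaf ⟨26063693336, 1285671454016143003654475,
  7019456905647750127618590405436715739085212818178627580483437703373292143568987684865, 397697,
  [P2p1_0, P2p2_0, P2p3_0, P2p3_2, P2p5_0, P2p5_2, P2p5_3, P2p5_4, P2p5_6, P2p6_0, P2p6_2, P2p6_3,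
  P2p6_4, P2p7_0, P2p7_2, P2p7_3, P2p7_4, P2p8_0, P2p8_2, P2p8_3, P2p8_4, P2p8_7, P2p9_0, P2p9_2,
  P2p9_3, P2p9_4, P2p9_7, P2p9_8]⟩)) (.node 151 (.leaf ⟨26056615460, 1285674949982632750095557,
  7034634237955975454262441754615491407478114496341334266552919238621858876057389563935, 397585,
  [P2p1_0, P2p2_0, P2p2_1, P2p3_0, P2p3_1, P2p3_2, P2p5_4, P2p5_6, P2p6_4, P2p7_0, P2p7_1, P2p7_2,
  P2p7_3, P2p7_4, P2p8_0, P2p8_1, P2p8_2, P2p8_3, P2p8_4, P2p8_7, P2p9_0, P2p9_1, P2p9_2, P2p9_3,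
  P2p9_4, P2p9_7, P2p9_8]⟩) (.leaf ⟨25908504136, 1291568530136935580175429,
  7292648887195811534087895985058416408263559751998891995072696958775316023407719022593, 395329,
  [P2p1_0, P2p1_3, P2p1_6, P2p2_0, P2p2_3, P2p2_6, P2p4_6, P2p5_4, P2p5_6, P2p7_0, P2p7_6, P2p8_0,
  P2p8_6, P2p8_7, P2p9_0, P2p9_6, P2p9_7, P2p9_8]⟩)))) (.node 156 (.node 154 (.node 153 (.leaf
  ⟨25908766276, 1290388127887407922086085,
  7398890213353391273987437368695783790112777286780391092085229300332784662564639277071, 395329,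
  [P2p1_0, P2p2_3, P2p4_6, P2p5_4, P2p5_6, P2p7_0, P2p7_1, P2p7_2, P2p7_3, P2p7_6, P2p8_0, P2p8_1,
  P2p8_2, P2p8_3, P2p8_6, P2p8_7, P2p9_0, P2p9_1, P2p9_2, P2p9_3, P2p9_6, P2p9_7, P2p9_8]⟩) (.leaf
  ⟨38959072786, 78582576573623535454592098,
  3885426714359089096194520985522975478581350565326782313321558496731207685074613698572, 594465,
  [P2p0_2, P2p0_3, P2p1_0, P2p1_2, P2p1_3, P2p2_3, P2p4_5, P2p4_6, P2p5_6, P2p7_8, P2p7_9,
  P2p8_9]⟩)) (.node 155 (.leaf ⟨25914009156, 1290387830649832515668165,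
  7307826219504037211216401897013029090097823206592564986971899518434892734781966188547, 395409,
  [P2p1_0, P2p2_0, P2p2_1, P2p2_3, P2p2_6, P2p3_0, P2p3_1, P2p3_6, P2p4_6, P2p5_4, P2p5_6, P2p7_0,
  P2p7_1, P2p7_6, P2p8_0, P2p8_1, P2p8_6, P2p8_7, P2p9_0, P2p9_1, P2p9_6, P2p9_7, P2p9_8]⟩) (.leaf
  ⟨25912698440, 1292748978803549195636837,
  7292648887195811534087895985065025283591352390369491840645164011946229632244121665537, 395393,
  [P2p1_0, P2p1_6, P2p2_0, P2p2_6, P2p3_0, P2p3_2, P2p3_6, P2p4_6, P2p5_4, P2p5_6, P2p7_0, P2p7_6,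
  P2p8_0, P2p8_6, P2p8_7, P2p9_0, P2p9_6, P2p9_7, P2p9_8]⟩))) (.node 158 (.node 157 (.leaf
  ⟨25912960580, 1290387803628234751411397,
  7338180884120488565473413720909802812041396775973668109431126473207990183635670466567, 395393,
  [P2p1_0, P2p3_0, P2p3_1, P2p3_2, P2p3_6, P2p4_6, P2p5_4, P2p5_6, P2p7_0, P2p7_1, P2p7_2, P2p7_6,
  P2p8_0, P2p8_1, P2p8_2, P2p8_6, P2p8_7, P2p9_0, P2p9_1, P2p9_2, P2p9_6, P2p9_7, P2p9_8]⟩) (.leaf
  ⟨25910601288, 1291568535766435114388549,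
  7292648887195811534087895985058799425459245903399492143136811744509149296495466184705, 395361,
  [P2p1_0, P2p1_2, P2p1_3, P2p1_6, P2p3_2, P2p4_6, P2p5_4, P2p5_6, P2p7_0, P2p7_6, P2p8_0, P2p8_6,
  P2p8_7, P2p9_0, P2p9_6, P2p9_7, P2p9_8]⟩)) (.node 159 (.leaf ⟨25905620580,
  1290388093093465540336837,
  7398890213353391273993608104942934803062422909530457322922166469431392795610707853327, 395281,
  [P2p1_0, P2p2_0, P2p2_1, P2p3_0, P2p3_1, P2p3_2, P2p4_0, P2p4_1, P2p4_2, P2p4_3, P2p4_6, P2p5_0,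
  P2p5_1, P2p5_2, P2p5_3, P2p5_4, P2p5_6, P2p7_0, P2p7_1, P2p7_2, P2p7_3, P2p7_6, P2p8_0, P2p8_1,
  P2p8_2, P2p8_3, P2p8_6, P2p8_7, P2p9_0, P2p9_1, P2p9_2, P2p9_3, P2p9_6, P2p9_7, P2p9_8]⟩) (.leaf
  ⟨25906226788, 1290388082633502187658437,
  7345769550274601404040957736208556351250890333060019297266477987917356070036469973000, 395302,
  [P2p0_3, P2p1_0, P2p1_3, P2p2_0, P2p2_1, P2p2_3, P2p4_3, P2p4_6, P2p5_3, P2p5_4, P2p5_6, P2p7_3,
  P2p7_6, P2p8_3, P2p8_6, P2p8_7, P2p9_3, P2p9_6, P2p9_7, P2p9_8]⟩)))))) (.node 176 (.node 168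
  (.node 164 (.node 162 (.node 161 (.leaf ⟨38942295570, 78581367158965202872114274,
  4006845372824894944588296371146293250984421287593671927029518981269296228486578176028, 594209,
  [P2p0_2, P2p0_3, P2p0_4, P2p1_0, P2p1_2, P2p1_3, P2p1_4, P2p2_3, P2p5_4, P2p5_6, P2p6_4, P2p7_4,
  P2p7_8, P2p7_9, P2p8_4, P2p8_9, P2p9_4]⟩) (.leaf ⟨38726305353, 78594825350286454769919236,
  4697413992849163685261552550654761181753888790917148641730115286277254422481076748395, 590914,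
  [P2p0_1, P2p0_3, P2p0_5, P2p0_6, P2p1_3, P2p1_5, P2p1_6, P2p2_3, P2p2_5, P2p2_6, P2p4_5, P2p4_6,
  P2p6_5, P2p7_0, P2p7_1, P2p7_3, P2p7_5, P2p7_6, P2p7_8, P2p7_9, P2p8_0, P2p8_1, P2p8_3, P2p8_5,
  P2p8_6, P2p8_9, P2p9_0, P2p9_1, P2p9_3, P2p9_5, P2p9_6]⟩)) (.node 163 (.leaf ⟨26056172696,
  1289207207358645845165126,
  6799385587178477027411453846748867750883086957412638671371045406346324344335596191744, 397590,
  [P2p1_0, P2p3_0, P2p3_1, P2p3_2, P2p3_6, P2p4_6, P2p5_4, P2p5_6, P2p8_7, P2p9_7, P2p9_8]⟩) (.leaf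
  ⟨19734488136, 158446098214754480648490054,
  3893015380513203228816467307438162231350019191077556934619568094469857069377857847297, 301121,
  [P2p1_0, P2p1_3, P2p2_0, P2p2_3, P2p5_4, P2p6_4, P2p6_5, P2p7_0, P2p7_8, P2p7_9, P2p8_0, P2p8_9,
  P2p9_0]⟩))) (.node 166 (.node 165 (.leaf ⟨19935814728, 278244231391559803005439049,
  3893015380513226118199944403160506070078938029062070154570105367244747785589869838337, 304193,
  [P2p1_0, P2p1_3, P2p2_0, P2p2_3, P2p4_0, P2p4_5, P2p4_6, P2p4_7, P2p4_8, P2p4_9, P2p5_0, P2p5_6,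
  P2p5_7, P2p5_8, P2p5_9, P2p6_0, P2p6_7, P2p6_8, P2p6_9, P2p7_0, P2p7_8, P2p7_9, P2p8_0, P2p8_9,
  P2p9_0]⟩) (.leaf ⟨19935814024, 78591107106158800341769284,
  4803655319006742562469128658388794387087228792664905788618390815636646920558616313857, 304193,
  [P2p1_0, P2p1_3, P2p2_0, P2p2_3, P2p4_5, P2p4_6, P2p5_6, P2p7_0, P2p7_3, P2p7_4, P2p7_5, P2p7_6,
  P2p7_8, P2p7_9, P2p8_0, P2p8_3, P2p8_4, P2p8_5, P2p8_6, P2p8_9, P2p9_0, P2p9_3, P2p9_4, P2p9_5,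
  P2p9_6]⟩)) (.node 167 (.leaf ⟨19734750276, 158446098441316651212341478,
  3999256706670782968716008691075529706736768784507620239489049677753117754315947048975, 301121,
  [P2p1_0, P2p2_3, P2p5_4, P2p6_4, P2p6_5, P2p7_0, P2p7_1, P2p7_2, P2p7_3, P2p7_8, P2p7_9, P2p8_0,
  P2p8_1, P2p8_2, P2p8_3, P2p8_9, P2p9_0, P2p9_1, P2p9_2, P2p9_3]⟩) (.leaf ⟨19936076868,
  278244231729694915997860169,
  3999256706670806235544498480736879187364971926606965542034378267058716957996705841167, 304193,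
  [P2p1_0, P2p2_3, P2p4_0, P2p4_1, P2p4_2, P2p4_3, P2p4_5, P2p4_6, P2p4_7, P2p4_8, P2p4_9, P2p5_0,
  P2p5_1, P2p5_2, P2p5_3, P2p5_6, P2p5_7, P2p5_8, P2p5_9, P2p6_0, P2p6_1, P2p6_2, P2p6_3, P2p6_7,
  P2p6_8, P2p6_9, P2p7_0, P2p7_1, P2p7_2, P2p7_3, P2p7_8, P2p7_9, P2p8_0, P2p8_1, P2p8_2, P2p8_3,
  P2p8_9, P2p9_0, P2p9_1, P2p9_2, P2p9_3]⟩)))) (.node 172 (.node 170 (.node 169 (.leaf ⟨19936076164,
  78591107225796866718506244,
  4849187315931419593854646394233380447132196998088092536515402231065944692324960239631, 304193,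
  [P2p1_0, P2p2_3, P2p4_5, P2p4_6, P2p5_6, P2p7_0, P2p7_1, P2p7_2, P2p7_3, P2p7_4, P2p7_5, P2p7_6,
  P2p7_8, P2p7_9, P2p8_0, P2p8_1, P2p8_2, P2p8_3, P2p8_4, P2p8_5, P2p8_6, P2p8_9, P2p9_0, P2p9_1,
  P2p9_2, P2p9_3, P2p9_4, P2p9_5, P2p9_6]⟩) (.leaf ⟨19732391064, 398047395884034232437346476,
  3893015380513203228816467307534806704612093435264590057942505017202404493794809544705, 301089,
  [P2p1_0, P2p1_2, P2p1_3, P2p1_4, P2p1_5, P2p1_6, P2p1_7, P2p1_8, P2p1_9, P2p2_0, P2p2_3, P2p2_4,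
  P2p2_5, P2p2_6, P2p2_7, P2p2_8, P2p2_9, P2p3_0, P2p3_4, P2p3_5, P2p3_6, P2p3_7, P2p3_8, P2p3_9,
  P2p5_4, P2p6_4, P2p6_5, P2p7_0, P2p7_8, P2p7_9, P2p8_0, P2p8_9, P2p9_0]⟩)) (.node 171 (.leaf
  ⟨19933717656, 517845529060839554794295471,
  3893015380513226118199944403257150543341012273249103277893042289977295210006821535745, 304161,
  [P2p1_0, P2p1_2, P2p1_3, P2p1_4, P2p1_5, P2p1_6, P2p1_7, P2p1_8, P2p1_9, P2p2_0, P2p2_3, P2p2_4,
  P2p2_5, P2p2_6, P2p2_7, P2p2_8, P2p2_9, P2p3_0, P2p3_4, P2p3_5, P2p3_6, P2p3_7, P2p3_8, P2p3_9,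
  P2p4_0, P2p4_5, P2p4_6, P2p4_7, P2p4_8, P2p4_9, P2p5_0, P2p5_6, P2p5_7, P2p5_8, P2p5_9, P2p6_0,
  P2p6_7, P2p6_8, P2p6_9, P2p7_0, P2p7_8, P2p7_9, P2p8_0, P2p8_9, P2p9_0]⟩) (.leaf ⟨19933716888,
  78591106928266683780108454,
  4742945989773839853955105010606836385193583051697096011451149666742500645544979922945, 304161,
  [P2p1_0, P2p1_2, P2p1_3, P2p1_4, P2p1_5, P2p1_6, P2p2_0, P2p2_3, P2p2_4, P2p2_5, P2p2_6, P2p3_0,
  P2p3_4, P2p3_5, P2p3_6, P2p4_5, P2p4_6, P2p5_6, P2p7_0, P2p7_4, P2p7_5, P2p7_6, P2p7_8, P2p7_9,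
  P2p8_0, P2p8_4, P2p8_5, P2p8_6, P2p8_9, P2p9_0, P2p9_4, P2p9_5, P2p9_6]⟩))) (.node 174 (.node 173
  (.leaf ⟨19739993156, 158446098106924378880084198,
  3908192712821428905944973219386644931022246359708573981231289365057276683180342181891, 301201,
  [P2p1_0, P2p2_0, P2p2_1, P2p2_3, P2p3_0, P2p3_1, P2p5_4, P2p6_4, P2p6_5, P2p7_0, P2p7_1, P2p7_8,
  P2p7_9, P2p8_0, P2p8_1, P2p8_9, P2p9_0, P2p9_1]⟩) (.leaf ⟨19941319748,
  278244231283838552888183113,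
  3908192712821451849249166414243132432879634383995206070123939683050840040459318001667, 304273,
  [P2p1_0, P2p2_0, P2p2_1, P2p2_3, P2p3_0, P2p3_1, P2p4_0, P2p4_1, P2p4_5, P2p4_6, P2p4_7, P2p4_8,
  P2p4_9, P2p5_0, P2p5_1, P2p5_6, P2p5_7, P2p5_8, P2p5_9, P2p6_0, P2p6_1, P2p6_7, P2p6_8, P2p6_9,
  P2p7_0, P2p7_1, P2p7_8, P2p7_9, P2p8_0, P2p8_1, P2p8_9, P2p9_0, P2p9_1]⟩)) (.node 175 (.leaf
  ⟨19941319044, 78591106854249897460440324,
  4758123322082065531083610922544495671417674573289046278257641918370100243489634844675, 304273,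
  [P2p1_0, P2p2_0, P2p2_1, P2p2_3, P2p3_0, P2p3_1, P2p4_5, P2p4_6, P2p5_6, P2p7_0, P2p7_1, P2p7_4,
  P2p7_5, P2p7_6, P2p7_8, P2p7_9, P2p8_0, P2p8_1, P2p8_4, P2p8_5, P2p8_6, P2p8_9, P2p9_0, P2p9_1,
  P2p9_4, P2p9_5, P2p9_6]⟩) (.leaf ⟨19738682440, 158446098071800376851599462,
  3893015380513203228816467307438641124514348274014723392083433910906295721725526081537, 301185,
  [P2p1_0, P2p2_0, P2p3_0, P2p3_2, P2p5_4, P2p6_4, P2p6_5, P2p7_0, P2p7_8, P2p7_9, P2p8_0, P2p8_9,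
  P2p9_0]⟩))))) (.node 184 (.node 180 (.node 178 (.node 177 (.leaf ⟨19940009032,
  278244231248605699208548457,
  3893015380513226118199944403160984963243267111999236612033971183681186437937538072577, 304257,
  [P2p1_0, P2p2_0, P2p3_0, P2p3_2, P2p4_0, P2p4_5, P2p4_6, P2p4_7, P2p4_8, P2p4_9, P2p5_0, P2p5_6,
  P2p5_7, P2p5_8, P2p5_9, P2p6_0, P2p6_7, P2p6_8, P2p6_9, P2p7_0, P2p7_8, P2p7_9, P2p8_0, P2p8_9,
  P2p9_0]⟩) (.leaf ⟨19940008328, 78591106819089508468989028,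
  4742945989773839853955105010596491864909776487595195689109785255274852078907004354561, 304257,
  [P2p1_0, P2p2_0, P2p3_0, P2p3_2, P2p4_5, P2p4_6, P2p5_6, P2p7_0, P2p7_4, P2p7_5, P2p7_6, P2p7_8,
  P2p7_9, P2p8_0, P2p8_4, P2p8_5, P2p8_6, P2p8_9, P2p9_0, P2p9_4, P2p9_5, P2p9_6]⟩)) (.node 179
  (.leaf ⟨19738944580, 158446098081028681022702822,
  3938547377437880260201985043283418746501924718267463868726345613746274366308567416839, 301185,
  [P2p1_0, P2p3_0, P2p3_1, P2p3_2, P2p5_4, P2p6_4, P2p6_5, P2p7_0, P2p7_1, P2p7_2, P2p7_8, P2p7_9,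
  P2p8_0, P2p8_1, P2p8_2, P2p8_9, P2p9_0, P2p9_1, P2p9_2]⟩) (.leaf ⟨19940271172,
  278244231261320554751329609,
  3938547377437903311347610436408193574616251115158333695503222022177183005721470894087, 304257,
  [P2p1_0, P2p3_0, P2p3_1, P2p3_2, P2p4_0, P2p4_1, P2p4_2, P2p4_5, P2p4_6, P2p4_7, P2p4_8, P2p4_9,
  P2p5_0, P2p5_1, P2p5_2, P2p5_6, P2p5_7, P2p5_8, P2p5_9, P2p6_0, P2p6_1, P2p6_2, P2p6_7, P2p6_8,
  P2p6_9, P2p7_0, P2p7_1, P2p7_2, P2p7_8, P2p7_9, P2p8_0, P2p8_1, P2p8_2, P2p8_9, P2p9_0, P2p9_1,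
  P2p9_2]⟩))) (.node 182 (.node 181 (.leaf ⟨19940270468, 78591106829480099509902596,
  4788477986698516885340622746441269486897352931847936165752698167059099052517766922247, 304257,
  [P2p1_0, P2p3_0, P2p3_1, P2p3_2, P2p4_5, P2p4_6, P2p5_6, P2p7_0, P2p7_1, P2p7_2, P2p7_4, P2p7_5,
  P2p7_6, P2p7_8, P2p7_9, P2p8_0, P2p8_1, P2p8_2, P2p8_4, P2p8_5, P2p8_6, P2p8_9, P2p9_0, P2p9_1,
  P2p9_2, P2p9_4, P2p9_5, P2p9_6]⟩) (.leaf ⟨19736585288, 158446098220383980182703174,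
  3893015380513203228816467307438545342081810131655943847719512174045803600445287759873, 301153,
  [P2p1_0, P2p1_2, P2p1_3, P2p3_2, P2p5_4, P2p6_4, P2p6_5, P2p7_0, P2p7_8, P2p7_9, P2p8_0, P2p8_9,
  P2p9_0]⟩)) (.node 183 (.leaf ⟨19937911880, 278244231397189302539652169,
  3893015380513226118199944403160889180810728969640457067670049446820694316657299750913, 304225,
  [P2p1_0, P2p1_2, P2p1_3, P2p3_2, P2p4_0, P2p4_5, P2p4_6, P2p4_7, P2p4_8, P2p4_9, P2p5_0, P2p5_6,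
  P2p5_7, P2p5_8, P2p5_9, P2p6_0, P2p6_7, P2p6_8, P2p6_9, P2p7_0, P2p7_8, P2p7_9, P2p8_0, P2p8_9,
  P2p9_0]⟩) (.leaf ⟨19937911176, 78591107116291899503352900,
  4834009983623193916726140482285568205489910427246730980204570583611710198625686323201, 304225,
  [P2p1_0, P2p1_2, P2p1_3, P2p3_2, P2p4_5, P2p4_6, P2p5_6, P2p7_0, P2p7_2, P2p7_3, P2p7_4, P2p7_5,
  P2p7_6, P2p7_8, P2p7_9, P2p8_0, P2p8_2, P2p8_3, P2p8_4, P2p8_5, P2p8_6, P2p8_9, P2p9_0, P2p9_2,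
  P2p9_3, P2p9_4, P2p9_5, P2p9_6]⟩)))) (.node 188 (.node 186 (.node 185 (.leaf ⟨19731604580,
  158446098406522708830593254,
  3999256706670783373121379434582277639691640712552146574883153184960313104191047270415, 301073,
  [P2p1_0, P2p2_0, P2p2_1, P2p3_0, P2p3_1, P2p3_2, P2p4_0, P2p4_1, P2p4_2, P2p4_3, P2p5_0, P2p5_1,
  P2p5_2, P2p5_3, P2p5_4, P2p6_0, P2p6_1, P2p6_2, P2p6_3, P2p6_4, P2p6_5, P2p7_0, P2p7_1, P2p7_2,
  P2p7_3, P2p7_8, P2p7_9, P2p8_0, P2p8_1, P2p8_2, P2p8_3, P2p8_9, P2p9_0, P2p9_1, P2p9_2, P2p9_3]⟩)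
  (.leaf ⟨19932931172, 278244231694900973616115017,
  3999256706670806235544498480737549646856324957385600360362633935125867499869577347087, 304145,
  [P2p1_0, P2p2_0, P2p2_1, P2p3_0, P2p3_1, P2p3_2, P2p4_0, P2p4_1, P2p4_2, P2p4_3, P2p4_5, P2p4_6,
  P2p4_7, P2p4_8, P2p4_9, P2p5_0, P2p5_1, P2p5_2, P2p5_3, P2p5_6, P2p5_7, P2p5_8, P2p5_9, P2p6_0,
  P2p6_1, P2p6_2, P2p6_3, P2p6_7, P2p6_8, P2p6_9, P2p7_0, P2p7_1, P2p7_2, P2p7_3, P2p7_8, P2p7_9,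
  P2p8_0, P2p8_1, P2p8_2, P2p8_3, P2p8_9, P2p9_0, P2p9_1, P2p9_2, P2p9_3]⟩)) (.node 187 (.leaf
  ⟨19937730948, 78591107116620893998226893,
  4849187315931419593854646394234050906623550028866727354843657899133091012073180102656, 304230,
  [P2p1_0, P2p2_0, P2p2_1, P2p3_0, P2p3_1, P2p3_2, P2p4_5, P2p4_6, P2p5_6, P2p7_0, P2p7_1, P2p7_2,
  P2p7_3, P2p7_4, P2p7_5, P2p7_6, P2p7_8, P2p7_9, P2p8_0, P2p8_1, P2p8_2, P2p8_3, P2p8_4, P2p8_5,
  P2p8_6, P2p8_9, P2p9_0, P2p9_1, P2p9_2, P2p9_3, P2p9_4, P2p9_5, P2p9_6]⟩) (.leaf ⟨19932488088,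
  78591106822506790608110662,
  4735357323619727015390852054633313217259355439350427607591837876645975919604718305280, 304150,
  [P2p1_0, P2p3_0, P2p3_1, P2p3_2, P2p3_4, P2p3_5, P2p3_6, P2p4_5, P2p4_6, P2p5_6, P2p7_4, P2p7_5,
  P2p7_6, P2p7_8, P2p7_9, P2p8_4, P2p8_5, P2p8_6, P2p8_9, P2p9_4, P2p9_5, P2p9_6]⟩))) (.node 190
  (.node 189 (.leaf ⟨19935822945, 278244231283799889592587463,
  3885426714359113333556407546320839402126399460916759858288735016167548406352960487427, 304194,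
  [P2p0_1, P2p2_0, P2p2_1, P2p2_3, P2p3_0, P2p3_1, P2p4_0, P2p4_1, P2p4_5, P2p4_6, P2p4_7, P2p4_8,
  P2p4_9, P2p5_0, P2p5_1, P2p5_6, P2p5_7, P2p5_8, P2p5_9, P2p6_0, P2p6_1, P2p6_7, P2p6_8, P2p6_9,
  P2p7_8, P2p7_9, P2p8_9]⟩) (.leaf ⟨19935806562, 278244231283684203574727874,
  3885426714359113252675333397619336560135278720547855651432567642167556912774140396416, 304193,
  [P2p0_7, P2p0_8, P2p0_9, P2p1_0, P2p1_7, P2p1_8, P2p1_9, P2p2_3, P2p4_5, P2p4_6, P2p4_7, P2p4_8,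
  P2p4_9, P2p5_6, P2p5_7, P2p5_8, P2p5_9, P2p6_7, P2p6_8, P2p6_9, P2p7_8, P2p7_9, P2p8_9]⟩)) (.node
  191 (.leaf ⟨19933536664, 78591106854068306243160167,
  4735357323619727015390852054632930273138751155856102837395718580579792059040671137792, 304166,
  [P2p1_0, P2p2_0, P2p2_1, P2p2_3, P2p2_4, P2p2_5, P2p2_6, P2p3_0, P2p3_1, P2p3_4, P2p3_5, P2p3_6,
  P2p4_5, P2p4_6, P2p5_6, P2p7_4, P2p7_5, P2p7_6, P2p7_8, P2p7_9, P2p8_4, P2p8_5, P2p8_6, P2p8_9,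
  P2p9_4, P2p9_5, P2p9_6]⟩) (.leaf ⟨19732210788, 158446098394900527327617254,
  3946136043591993314449102395793420625211002526944293833767453745533141802375570784264, 301094,
  [P2p0_3, P2p1_0, P2p1_3, P2p2_0, P2p2_1, P2p2_3, P2p4_3, P2p5_3, P2p5_4, P2p6_3, P2p6_4, P2p6_5,
  P2p7_3, P2p7_8, P2p7_9, P2p8_3, P2p8_9, P2p9_3]⟩))))))

def P2T4 : Tr :=
  .node 224 (.node 208 (.node 200 (.node 196 (.node 194 (.node 193 (.leaf ⟨19933537380,
  278244231679792137662246217,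
  3946136043592016176872221441948692632375686771777747619246934495698696198054100860936, 304166,
  [P2p0_3, P2p1_0, P2p1_3, P2p2_0, P2p2_1, P2p2_3, P2p4_3, P2p4_5, P2p4_6, P2p4_7, P2p4_8, P2p4_9,
  P2p5_3, P2p5_6, P2p5_7, P2p5_8, P2p5_9, P2p6_3, P2p6_7, P2p6_8, P2p6_9, P2p7_3, P2p7_8, P2p7_9,
  P2p8_3, P2p8_9, P2p9_3]⟩) (.leaf ⟨19633824840, 158453331644274384006417478,
  3893015380513201934758773941497073320651189075196744797782065761304325979301652004865, 299585,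
  [P2p1_0, P2p1_3, P2p1_4, P2p1_5, P2p1_6, P2p2_0, P2p2_3, P2p2_4, P2p2_5, P2p2_6, P2p4_5, P2p4_6,
  P2p5_6, P2p7_0, P2p7_8, P2p7_9, P2p8_0, P2p8_9, P2p9_0]⟩)) (.node 195 (.leaf ⟨19633840673,
  78582576387962340662970468,
  3885426714359089096194520985523262825879500218114328197581719875932558275726354350083, 299586,
  [P2p0_1, P2p2_0, P2p2_1, P2p2_3, P2p3_0, P2p3_1, P2p4_5, P2p4_6, P2p5_6, P2p7_8, P2p7_9, P2p8_9]⟩)
  (.leaf ⟨19638018584, 78582576576016416351851818,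
  3893015380513202285243428585869485860459886766462696539618920774260766662041102516225, 299649,
  [P2p1_0, P2p2_0, P2p3_0, P2p3_2, P2p4_0, P2p4_2, P2p4_3, P2p4_5, P2p4_6, P2p5_0, P2p5_2, P2p5_3,
  P2p5_6, P2p6_0, P2p6_2, P2p6_3, P2p7_0, P2p7_8, P2p7_9, P2p8_0, P2p8_9, P2p9_0]⟩))) (.node 198
  (.node 197 (.leaf ⟨19633817122, 278244231283578650460620898,
  3885426714359089096194520985522975478581083257198602365365923367673931024730586874752, 299585,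
  [P2p0_7, P2p0_8, P2p0_9, P2p1_0, P2p1_7, P2p1_8, P2p1_9, P2p2_3, P2p4_5, P2p4_6, P2p5_6, P2p7_8,
  P2p7_9, P2p8_9]⟩) (.leaf ⟨19634086980, 158449675956745446258409702,
  3999256706670781674658315325134440632347257565991820738901886172019395813928579563535, 299585,
  [P2p1_0, P2p2_3, P2p4_5, P2p4_6, P2p5_6, P2p7_0, P2p7_1, P2p7_2, P2p7_3, P2p7_8, P2p7_9, P2p8_0,
  P2p8_1, P2p8_2, P2p8_3, P2p8_9, P2p9_0, P2p9_1, P2p9_2, P2p9_3]⟩)) (.node 199 (.leaf ⟨19631727128,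
  78582576462054132076909767,
  3893015380513201961719131991064240769496135888108387855367893577341493050989749534721, 299553,
  [P2p1_0, P2p1_2, P2p1_3, P2p2_0, P2p2_3, P2p3_0, P2p4_0, P2p4_5, P2p4_6, P2p5_0, P2p5_6, P2p6_0,
  P2p7_0, P2p7_8, P2p7_9, P2p8_0, P2p8_9, P2p9_0]⟩) (.leaf ⟨19630957073, 78582576352883521690408036,
  3885426714359089096194520985523645938072770493917290030578453398653016748331072946179, 299538,
  [P2p0_1, P2p2_0, P2p2_1, P2p3_0, P2p3_1, P2p3_2, P2p4_5, P2p4_6, P2p5_6, P2p7_8, P2p7_9,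
  P2p8_9]⟩)))) (.node 204 (.node 202 (.node 201 (.leaf ⟨19630940708, 78582576613217292766124196,
  3999256706670781674658315325135111091838610596770455557229040489793822493415343849487, 299537,
  [P2p1_0, P2p2_0, P2p2_1, P2p3_0, P2p3_1, P2p3_2, P2p4_5, P2p4_6, P2p5_6, P2p7_0, P2p7_1, P2p7_2,
  P2p7_3, P2p7_8, P2p7_9, P2p8_0, P2p8_1, P2p8_2, P2p8_3, P2p8_9, P2p9_0, P2p9_1, P2p9_2, P2p9_3]⟩)
  (.leaf ⟨19617047688, 278246556834234595015724105,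
  3893015380513201935137656845730095840738996455489753848097460778269367417664583565313, 299329,
  [P2p1_0, P2p1_3, P2p2_0, P2p2_3, P2p4_0, P2p4_3, P2p4_6, P2p4_7, P2p4_8, P2p4_9, P2p5_0, P2p5_3,
  P2p5_4, P2p5_6, P2p5_7, P2p5_8, P2p5_9, P2p7_0, P2p7_8, P2p7_9, P2p8_0, P2p8_9, P2p9_0]⟩)) (.node
  203 (.leaf ⟨19885482376, 78587529698816396352596036,
  4803655319006744072209686420866458113990616756389180764974006502245059425694875451393, 303425,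
  [P2p1_0, P2p1_3, P2p2_0, P2p2_3, P2p4_3, P2p5_3, P2p5_4, P2p6_3, P2p6_4, P2p6_5, P2p7_0, P2p7_3,
  P2p7_4, P2p7_5, P2p7_6, P2p7_8, P2p7_9, P2p8_0, P2p8_3, P2p8_4, P2p8_5, P2p8_6, P2p8_9, P2p9_0,
  P2p9_3, P2p9_4, P2p9_5, P2p9_6]⟩) (.leaf ⟨19617309828, 278246557172369708008148297,
  3999256706670781675039666523866055537509063085708389717970414961965212828031763021839, 299329,
  [P2p1_0, P2p2_3, P2p4_0, P2p4_1, P2p4_2, P2p4_3, P2p4_6, P2p4_7, P2p4_8, P2p4_9, P2p5_0, P2p5_1,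
  P2p5_2, P2p5_3, P2p5_4, P2p5_6, P2p5_7, P2p5_8, P2p5_9, P2p7_0, P2p7_1, P2p7_2, P2p7_3, P2p7_8,
  P2p7_9, P2p8_0, P2p8_1, P2p8_2, P2p8_3, P2p8_9, P2p9_0, P2p9_1, P2p9_2, P2p9_3]⟩))) (.node 206
  (.node 205 (.leaf ⟨19885744516, 78587529821941117180225892,
  4849187315931421292317710503680546994985227113869783554168413575939711441195592777743, 303425,
  [P2p1_0, P2p2_3, P2p4_0, P2p4_1, P2p4_2, P2p4_3, P2p5_0, P2p5_1, P2p5_2, P2p5_3, P2p5_4, P2p6_0,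
  P2p6_1, P2p6_2, P2p6_3, P2p6_4, P2p6_5, P2p7_0, P2p7_1, P2p7_2, P2p7_3, P2p7_4, P2p7_5, P2p7_6,
  P2p7_8, P2p7_9, P2p8_0, P2p8_1, P2p8_2, P2p8_3, P2p8_4, P2p8_5, P2p8_6, P2p8_9, P2p9_0, P2p9_1,
  P2p9_2, P2p9_3, P2p9_4, P2p9_5, P2p9_6]⟩) (.leaf ⟨19614950552, 398047091512757016229744812,
  3893015380513201935134365786490686462047567940063858687774938041800008427456614694913, 299297,
  [P2p1_0, P2p1_2, P2p1_3, P2p1_6, P2p1_7, P2p1_8, P2p1_9, P2p2_0, P2p2_3, P2p2_6, P2p2_7, P2p2_8,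
  P2p2_9, P2p3_0, P2p3_6, P2p3_7, P2p3_8, P2p3_9, P2p4_0, P2p4_6, P2p4_7, P2p4_8, P2p4_9, P2p5_0,
  P2p5_4, P2p5_6, P2p5_7, P2p5_8, P2p5_9, P2p7_0, P2p7_8, P2p7_9, P2p8_0, P2p8_9, P2p9_0]⟩)) (.node
  207 (.leaf ⟨19883385112, 78587529412837888733745318,
  4742945989773841148012798376537197827106351945569399719098599835622732368438276194305, 303393,
  [P2p1_0, P2p1_2, P2p1_3, P2p2_0, P2p2_3, P2p3_0, P2p5_4, P2p6_4, P2p6_5, P2p7_0, P2p7_4, P2p7_5,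
  P2p7_6, P2p7_8, P2p7_9, P2p8_0, P2p8_4, P2p8_5, P2p8_6, P2p8_9, P2p9_0, P2p9_4, P2p9_5, P2p9_6]⟩)
  (.leaf ⟨19622552708, 278246556726513344898469193,
  3908192712821427612263694463179986319027906587332198329705709448444202306037977645059, 299409,
  [P2p1_0, P2p2_0, P2p2_1, P2p2_3, P2p3_0, P2p3_1, P2p4_0, P2p4_1, P2p4_6, P2p4_7, P2p4_8, P2p4_9,
  P2p5_0, P2p5_1, P2p5_4, P2p5_6, P2p5_7, P2p5_8, P2p5_9, P2p7_0, P2p7_1, P2p7_8, P2p7_9, P2p8_0,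
  P2p8_1, P2p8_9, P2p9_0, P2p9_1]⟩))))) (.node 216 (.node 212 (.node 210 (.node 209 (.leaf
  ⟨19890987396, 78587529338930057144740196,
  4758123322082066906022378437186800240499889571258024082257974991931831145958484410371, 303505,
  [P2p1_0, P2p2_0, P2p2_1, P2p2_3, P2p3_0, P2p3_1, P2p4_0, P2p4_1, P2p5_0, P2p5_1, P2p5_4, P2p6_0,
  P2p6_1, P2p6_4, P2p6_5, P2p7_0, P2p7_1, P2p7_4, P2p7_5, P2p7_6, P2p7_8, P2p7_9, P2p8_0, P2p8_1,
  P2p8_4, P2p8_5, P2p8_6, P2p8_9, P2p9_0, P2p9_1, P2p9_4, P2p9_5, P2p9_6]⟩) (.leaf ⟨19621241992,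
  278246556691280491218800745,
  3893015380513201935134365786399118438725569489375490218890029794155693102773464793089, 299393,
  [P2p1_0, P2p2_0, P2p3_0, P2p3_2, P2p4_0, P2p4_6, P2p4_7, P2p4_8, P2p4_9, P2p5_0, P2p5_4, P2p5_6,
  P2p5_7, P2p5_8, P2p5_9, P2p7_0, P2p7_8, P2p7_9, P2p8_0, P2p8_9, P2p9_0]⟩)) (.node 211 (.leaf
  ⟨19889676680, 78587529303660713422923876,
  4742945989773841148012798376537580939299287706110995189696948761008574019775408177153, 303489,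
  [P2p1_0, P2p2_0, P2p3_0, P2p3_2, P2p5_4, P2p6_4, P2p6_5, P2p7_0, P2p7_4, P2p7_5, P2p7_6, P2p7_8,
  P2p7_9, P2p8_0, P2p8_4, P2p8_5, P2p8_6, P2p8_9, P2p9_0, P2p9_4, P2p9_5, P2p9_6]⟩) (.leaf
  ⟨19621504132, 278246556703995346761616713,
  3938547377437878966522351816742488282096462970416803260536414097408256472785596383239, 299393,
  [P2p1_0, P2p3_0, P2p3_1, P2p3_2, P2p4_0, P2p4_1, P2p4_2, P2p4_6, P2p4_7, P2p4_8, P2p4_9, P2p5_0,
  P2p5_1, P2p5_2, P2p5_4, P2p5_6, P2p5_7, P2p5_8, P2p5_9, P2p7_0, P2p7_1, P2p7_2, P2p7_8, P2p7_9,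
  P2p8_0, P2p8_1, P2p8_2, P2p8_9, P2p9_0, P2p9_1, P2p9_2]⟩))) (.node 214 (.node 213 (.leaf
  ⟨19889938820, 78587529317537958914730340,
  4788477986698518368120822459351861382236506302421151707637257331058175237120544145415, 303489,
  [P2p1_0, P2p3_0, P2p3_1, P2p3_2, P2p4_0, P2p4_1, P2p4_2, P2p5_0, P2p5_1, P2p5_2, P2p5_4, P2p6_0,
  P2p6_1, P2p6_2, P2p6_4, P2p6_5, P2p7_0, P2p7_1, P2p7_2, P2p7_4, P2p7_5, P2p7_6, P2p7_8, P2p7_9,
  P2p8_0, P2p8_1, P2p8_2, P2p8_4, P2p8_5, P2p8_6, P2p8_9, P2p9_0, P2p9_1, P2p9_2, P2p9_4, P2p9_5,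
  P2p9_6]⟩) (.leaf ⟨19619144840, 278246556839864094549937225,
  3893015380513201935139302375396207099059665420593855804533053258120370432351406981121, 299361,
  [P2p1_0, P2p1_2, P2p1_3, P2p3_2, P2p4_0, P2p4_2, P2p4_3, P2p4_6, P2p4_7, P2p4_8, P2p4_9, P2p5_0,
  P2p5_2, P2p5_3, P2p5_4, P2p5_6, P2p5_7, P2p5_8, P2p5_9, P2p7_0, P2p7_8, P2p7_9, P2p8_0, P2p8_9,
  P2p9_0]⟩)) (.node 215 (.leaf ⟨19613721752, 278246556694697601559233609,
  3885426714359089096569701448100730017843821044492285768977135493245579640981309292544, 299286,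
  [P2p1_0, P2p3_0, P2p3_1, P2p3_2, P2p3_6, P2p3_7, P2p3_8, P2p3_9, P2p4_6, P2p4_7, P2p4_8, P2p4_9,
  P2p5_4, P2p5_6, P2p5_7, P2p5_8, P2p5_9, P2p7_8, P2p7_9, P2p8_9]⟩) (.leaf ⟨19618964612,
  278246556840047644272299337,
  3885426714359089096575872184255260843234576013974130991975286798535675568655983181824, 299366,
  [P2p1_0, P2p2_0, P2p2_1, P2p3_0, P2p3_1, P2p3_2, P2p4_0, P2p4_1, P2p4_2, P2p4_3, P2p4_6, P2p4_7,
  P2p4_8, P2p4_9, P2p5_0, P2p5_1, P2p5_2, P2p5_3, P2p5_4, P2p5_6, P2p5_7, P2p5_8, P2p5_9, P2p7_8,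
  P2p7_9, P2p8_9]⟩)))) (.node 220 (.node 218 (.node 217 (.leaf ⟨19882598692,
  78591185478092192097736868,
  4849187315931420887912339760175139981013061247382526855430803270702844875952105652351, 303377,
  [P2p1_0, P2p2_0, P2p2_1, P2p3_0, P2p3_1, P2p3_2, P2p5_4, P2p6_4, P2p6_5, P2p7_0, P2p7_1, P2p7_2,
  P2p7_3, P2p7_4, P2p7_5, P2p7_6, P2p7_8, P2p7_9, P2p8_0, P2p8_1, P2p8_2, P2p8_3, P2p8_4, P2p8_5,
  P2p8_6, P2p8_9, P2p9_0, P2p9_1, P2p9_2, P2p9_3, P2p9_4, P2p9_5, P2p9_6]⟩) (.leaf ⟨19614770328,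
  318180068297025555640977514,
  3885426714359089096569701448100348313076605217603635635505754340587396448648058568704, 299302,
  [P2p1_0, P2p2_0, P2p2_1, P2p2_3, P2p2_6, P2p2_7, P2p2_8, P2p2_9, P2p3_0, P2p3_1, P2p3_6, P2p3_7,
  P2p3_8, P2p3_9, P2p4_6, P2p4_7, P2p4_8, P2p4_9, P2p5_4, P2p5_6, P2p5_7, P2p5_8, P2p5_9, P2p7_8,
  P2p7_9, P2p8_9]⟩)) (.node 219 (.leaf ⟨19432497736, 78587529446614817286786116,
  3893015380513203228816467307438162395040700293712544298368144844031155688880268181505, 296513,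
  [P2p1_0, P2p1_3, P2p1_4, P2p1_5, P2p1_6, P2p2_0, P2p2_3, P2p2_4, P2p2_5, P2p2_6, P2p5_4, P2p6_4,
  P2p6_5, P2p7_0, P2p7_8, P2p7_9, P2p8_0, P2p8_9, P2p9_0]⟩) (.leaf ⟨19482829192,
  78582576639946214280993860,
  3953724709746104858955661985826429224816166105777109466772243721336068568836548919297, 297281,
  [P2p1_0, P2p1_3, P2p2_0, P2p2_3, P2p4_3, P2p4_5, P2p4_6, P2p5_3, P2p5_6, P2p6_3, P2p7_0, P2p7_3,
  P2p7_8, P2p7_9, P2p8_0, P2p8_3, P2p8_9, P2p9_0, P2p9_3]⟩))) (.node 222 (.node 221 (.leaf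
  ⟨19436691736, 78580217661428075087368457,
  3893015380513203579301121951810574934849397984978496040206084279754712455148673761281, 296577,
  [P2p1_0, P2p2_0, P2p3_0, P2p3_2, P2p4_0, P2p4_2, P2p4_3, P2p5_0, P2p5_2, P2p5_3, P2p5_4, P2p6_0,
  P2p6_2, P2p6_3, P2p6_4, P2p6_5, P2p7_0, P2p7_8, P2p7_9, P2p8_0, P2p8_9, P2p9_0]⟩) (.leaf
  ⟨19432513825, 78580217510563915058219108,
  3885426714359090390252214351464351900269011436630127698168883381666311741792149766147, 296514,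
  [P2p0_1, P2p2_0, P2p2_1, P2p2_3, P2p3_0, P2p3_1, P2p5_4, P2p6_4, P2p6_5, P2p7_8, P2p7_9,
  P2p8_9]⟩)) (.node 223 (.leaf ⟨19483091332, 78582576759584280657730820,
  3999256706670782079063686068640518105810776463257712255966650795030720584337266245647, 297281,
  [P2p1_0, P2p2_3, P2p4_0, P2p4_1, P2p4_2, P2p4_3, P2p4_5, P2p4_6, P2p5_0, P2p5_1, P2p5_2, P2p5_3,
  P2p5_6, P2p6_0, P2p6_1, P2p6_2, P2p6_3, P2p7_0, P2p7_1, P2p7_2, P2p7_3, P2p7_8, P2p7_9, P2p8_0,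
  P2p8_1, P2p8_2, P2p8_3, P2p8_9, P2p9_0, P2p9_1, P2p9_2, P2p9_3]⟩) (.leaf ⟨19432759876,
  78583873684703917849477284,
  3999256706670782968716008691075529706736768784507620239487948329526496501666816131087, 296513,
  [P2p1_0, P2p2_3, P2p5_4, P2p6_4, P2p6_5, P2p7_0, P2p7_1, P2p7_2, P2p7_3, P2p7_8, P2p7_9, P2p8_0,
  P2p8_1, P2p8_2, P2p8_3, P2p8_9, P2p9_0, P2p9_1, P2p9_2, P2p9_3]⟩)))))) (.node 240 (.node 232
  (.node 228 (.node 226 (.node 225 (.leaf ⟨19430400280, 78580217584655672110321830,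
  3893015380513203255776825357005329843885647106624187355955057083056799772981835399169, 296481,
  [P2p1_0, P2p1_2, P2p1_3, P2p2_0, P2p2_3, P2p3_0, P2p4_0, P2p5_0, P2p5_4, P2p6_0, P2p6_4, P2p6_5,
  P2p7_0, P2p7_8, P2p7_9, P2p8_0, P2p8_9, P2p9_0]⟩) (.leaf ⟨19480731928, 78583795100084467156390054,
  3893015380513201934758773941497168937931901294957328420896837054713741511579949662209, 297249,
  [P2p1_0, P2p1_2, P2p1_3, P2p2_0, P2p2_3, P2p3_0, P2p4_5, P2p4_6, P2p5_6, P2p7_0, P2p7_8, P2p7_9,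
  P2p8_0, P2p8_9, P2p9_0]⟩)) (.node 227 (.leaf ⟨19488334212, 78582576388037311399664900,
  3908192712821427692768354002146771351325438920645952784056212211022840289100157878275, 297361,
  [P2p1_0, P2p2_0, P2p2_1, P2p2_3, P2p3_0, P2p3_1, P2p4_0, P2p4_1, P2p4_5, P2p4_6, P2p5_0, P2p5_1,
  P2p5_6, P2p6_0, P2p6_1, P2p7_0, P2p7_1, P2p7_8, P2p7_9, P2p8_0, P2p8_1, P2p8_9, P2p9_0, P2p9_1]⟩)
  (.leaf ⟨19429630225, 78580217475485096085655652,
  3885426714359090390252214351464735012462281712433089531165616904386770214396868362243, 296466,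
  [P2p0_1, P2p2_0, P2p2_1, P2p3_0, P2p3_1, P2p3_2, P2p5_4, P2p6_4, P2p6_5, P2p7_8, P2p7_9,
  P2p8_9]⟩))) (.node 230 (.node 229 (.leaf ⟨19487023496, 78582576352876922408213604,
  3893015380513201934758773941497552050124837055498923891495185980099583162917081645057, 297345,
  [P2p1_0, P2p2_0, P2p3_0, P2p3_2, P2p4_5, P2p4_6, P2p5_6, P2p7_0, P2p7_8, P2p7_9, P2p8_0, P2p8_9,
  P2p9_0]⟩) (.leaf ⟨19487285636, 78582576363267513449127172,
  3938547377437879154866798024311832493062055651809080409435494550149184380262217613319, 297345,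
  [P2p1_0, P2p3_0, P2p3_1, P2p3_2, P2p4_0, P2p4_1, P2p4_2, P2p4_5, P2p4_6, P2p5_0, P2p5_1, P2p5_2,
  P2p5_6, P2p6_0, P2p6_1, P2p6_2, P2p7_0, P2p7_1, P2p7_2, P2p7_8, P2p7_9, P2p8_0, P2p8_1, P2p8_2,
  P2p8_9, P2p9_0, P2p9_1, P2p9_2]⟩)) (.node 231 (.leaf ⟨19429613860, 78580217735818867162454180,
  3999256706670782968716008691076200166228121815286255057816203995527575959481139265551, 296465,
  [P2p1_0, P2p2_0, P2p2_1, P2p3_0, P2p3_1, P2p3_2, P2p5_4, P2p6_4, P2p6_5, P2p7_0, P2p7_1, P2p7_2,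
  P2p7_3, P2p7_8, P2p7_9, P2p8_0, P2p8_1, P2p8_2, P2p8_3, P2p8_9, P2p9_0, P2p9_1, P2p9_2, P2p9_3]⟩)
  (.leaf ⟨19479961873, 78583794990913891131723876,
  3885426714359089096194520985523645938072770493917290030578453398653048273528464539651, 297234,
  [P2p0_1, P2p2_0, P2p2_1, P2p3_0, P2p3_1, P2p3_2, P2p4_5, P2p4_6, P2p5_6, P2p7_8, P2p7_9,
  P2p8_9]⟩)))) (.node 236 (.node 234 (.node 233 (.leaf ⟨19398943112, 78580481781572343640038468,
  4317980685143522404087624361830721204283774169297770363148333059121952186854762151937, 296001,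
  [P2p1_0, P2p1_3, P2p2_0, P2p2_3, P2p4_5, P2p6_3, P2p6_4, P2p6_5, P2p7_0, P2p7_3, P2p7_4, P2p7_5,
  P2p7_8, P2p7_9, P2p8_0, P2p8_3, P2p8_4, P2p8_5, P2p8_9, P2p9_0, P2p9_3, P2p9_4, P2p9_5]⟩) (.leaf
  ⟨19399205252, 78580481901210410016775428,
  4363512682068199624192768767729785826997847983858371826505355432335257326346377822223, 296001,
  [P2p1_0, P2p2_3, P2p4_5, P2p6_0, P2p6_1, P2p6_2, P2p6_3, P2p6_4, P2p6_5, P2p7_0, P2p7_1, P2p7_2,
  P2p7_3, P2p7_4, P2p7_5, P2p7_8, P2p7_9, P2p8_0, P2p8_1, P2p8_2, P2p8_3, P2p8_4, P2p8_5, P2p8_9,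
  P2p9_0, P2p9_1, P2p9_2, P2p9_3, P2p9_4, P2p9_5]⟩)) (.node 235 (.leaf ⟨19404448132,
  78580481529663440758709508,
  4272448688218845237902373290233223515279144514823757484601862049152543104267729436675, 296081,
  [P2p1_0, P2p2_0, P2p2_1, P2p2_3, P2p3_0, P2p3_1, P2p4_5, P2p6_0, P2p6_1, P2p6_4, P2p6_5, P2p7_0,
  P2p7_1, P2p7_4, P2p7_5, P2p7_8, P2p7_9, P2p8_0, P2p8_1, P2p8_4, P2p8_5, P2p8_9, P2p9_0, P2p9_1,
  P2p9_4, P2p9_5]⟩) (.leaf ⟨19403137416, 78580481494503051767258212,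
  4257271355910619479894027376833300324770201168071014874542572118435577496374268198913, 296065,
  [P2p1_0, P2p2_0, P2p3_0, P2p3_2, P2p4_5, P2p6_4, P2p6_5, P2p7_0, P2p7_4, P2p7_5, P2p7_8, P2p7_9,
  P2p8_0, P2p8_4, P2p8_5, P2p8_9, P2p9_0, P2p9_4, P2p9_5]⟩))) (.node 238 (.node 237 (.leaf
  ⟨19403399556, 78580481504893642808171780,
  4302803352835296699999171782732556509426883221461170066645495988003831837710302511111, 296065,
  [P2p1_0, P2p3_0, P2p3_1, P2p3_2, P2p4_5, P2p6_0, P2p6_1, P2p6_2, P2p6_4, P2p6_5, P2p7_0, P2p7_1,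
  P2p7_2, P2p7_4, P2p7_5, P2p7_8, P2p7_9, P2p8_0, P2p8_1, P2p8_2, P2p8_4, P2p8_5, P2p8_9, P2p9_0,
  P2p9_1, P2p9_2, P2p9_4, P2p9_5]⟩) (.leaf ⟨19479503128, 78583794994324573984392262,
  3885426714359089096194520985523645933688354785245647380787186437185409324800702611456, 297238,
  [P2p1_0, P2p3_0, P2p3_1, P2p3_2, P2p4_5, P2p4_6, P2p5_6, P2p7_8, P2p7_9, P2p8_9]⟩)) (.node 239
  (.leaf ⟨19885483144, 318174203529335929810554954,
  3893015380513227627940502165638169796982325992786345130925721053853446550777443713025, 303425,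
  [P2p1_0, P2p1_3, P2p2_0, P2p2_3, P2p4_0, P2p4_3, P2p4_7, P2p4_8, P2p4_9, P2p5_0, P2p5_3, P2p5_4,
  P2p5_7, P2p5_8, P2p5_9, P2p6_0, P2p6_3, P2p6_4, P2p6_5, P2p6_7, P2p6_8, P2p6_9, P2p7_0, P2p7_8,
  P2p7_9, P2p8_0, P2p8_9, P2p9_0]⟩) (.leaf ⟨19885745284, 318174203868633226593538410,
  3999256706670807529602191846677968261754483145122765042621541772792726847766284664847, 303425,
  [P2p1_0, P2p2_3, P2p4_0, P2p4_1, P2p4_2, P2p4_3, P2p4_7, P2p4_8, P2p4_9, P2p5_0, P2p5_1, P2p5_2,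
  P2p5_3, P2p5_4, P2p5_7, P2p5_8, P2p5_9, P2p6_0, P2p6_1, P2p6_2, P2p6_3, P2p6_4, P2p6_5, P2p6_7,
  P2p6_8, P2p6_9, P2p7_0, P2p7_1, P2p7_2, P2p7_3, P2p7_8, P2p7_9, P2p8_0, P2p8_1, P2p8_2, P2p8_3,
  P2p8_9, P2p9_0, P2p9_1, P2p9_2, P2p9_3]⟩))))) (.node 248 (.node 244 (.node 242 (.node 241 (.leaf
  ⟨19883386008, 398038865417821646376571052,
  3893015380513227412257637769187511985253781167121406985540492458857495126227749502977, 303393,
  [P2p1_0, P2p1_2, P2p1_3, P2p1_7, P2p1_8, P2p1_9, P2p2_0, P2p2_3, P2p2_7, P2p2_8, P2p2_9, P2p3_0,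
  P2p3_7, P2p3_8, P2p3_9, P2p4_0, P2p4_7, P2p4_8, P2p4_9, P2p5_0, P2p5_4, P2p5_7, P2p5_8, P2p5_9,
  P2p6_0, P2p6_4, P2p6_5, P2p6_7, P2p6_8, P2p6_9, P2p7_0, P2p7_8, P2p7_9, P2p8_0, P2p8_9, P2p9_0]⟩)
  (.leaf ⟨19890988164, 318174203385622166558052714,
  3908192712821453143306859780184221507269145602511005570711103188784846552529176297475, 303505,
  [P2p1_0, P2p2_0, P2p2_1, P2p2_3, P2p3_0, P2p3_1, P2p4_0, P2p4_1, P2p4_7, P2p4_8, P2p4_9, P2p5_0,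
  P2p5_1, P2p5_4, P2p5_7, P2p5_8, P2p5_9, P2p6_0, P2p6_1, P2p6_4, P2p6_5, P2p6_7, P2p6_8, P2p6_9,
  P2p7_0, P2p7_1, P2p7_8, P2p7_9, P2p8_0, P2p8_1, P2p8_9, P2p9_0, P2p9_1]⟩)) (.node 243 (.leaf
  ⟨19889677448, 318174203350353028994666602,
  3893015380513227412257637769102074037632778330515036112621134689415192387057442947073, 303489,
  [P2p1_0, P2p2_0, P2p3_0, P2p3_2, P2p4_0, P2p4_7, P2p4_8, P2p4_9, P2p5_0, P2p5_4, P2p5_7, P2p5_8,
  P2p5_9, P2p6_0, P2p6_4, P2p6_5, P2p6_7, P2p6_8, P2p6_9, P2p7_0, P2p7_8, P2p7_9, P2p8_0, P2p8_9,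
  P2p9_0]⟩) (.leaf ⟨19889939588, 318174203364230068328042858,
  3938547377437904605405303802349282649005762333674133196090385527911190643691236032519, 303489,
  [P2p1_0, P2p3_0, P2p3_1, P2p3_2, P2p4_0, P2p4_1, P2p4_2, P2p4_7, P2p4_8, P2p4_9, P2p5_0, P2p5_1,
  P2p5_2, P2p5_4, P2p5_7, P2p5_8, P2p5_9, P2p6_0, P2p6_1, P2p6_2, P2p6_4, P2p6_5, P2p6_7, P2p6_8,
  P2p6_9, P2p7_0, P2p7_1, P2p7_2, P2p7_8, P2p7_9, P2p8_0, P2p8_1, P2p8_2, P2p8_9, P2p9_0, P2p9_1,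
  P2p9_2]⟩))) (.node 246 (.node 245 (.leaf ⟨19887580296, 318174203536091329251610698,
  3893015380513227735781934363906840233971055305968969781909891223866739489878708125697, 303457,
  [P2p1_0, P2p1_2, P2p1_3, P2p3_2, P2p4_0, P2p4_2, P2p4_3, P2p4_7, P2p4_8, P2p4_9, P2p5_0, P2p5_2,
  P2p5_3, P2p5_4, P2p5_7, P2p5_8, P2p5_9, P2p6_0, P2p6_2, P2p6_3, P2p6_4, P2p6_5, P2p6_7, P2p6_8,
  P2p6_9, P2p7_0, P2p7_8, P2p7_9, P2p8_0, P2p8_9, P2p9_0]⟩) (.leaf ⟨19882157208,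
  318174203353770104975361098,
  3885426714359114546733026763646915839920551243178767600962494729230031487398064881664, 303382,
  [P2p1_0, P2p3_0, P2p3_1, P2p3_2, P2p3_7, P2p3_8, P2p3_9, P2p4_7, P2p4_8, P2p4_9, P2p5_4, P2p5_7,
  P2p5_8, P2p5_9, P2p6_4, P2p6_5, P2p6_7, P2p6_8, P2p6_9, P2p7_8, P2p7_9, P2p8_9]⟩)) (.node 247
  (.leaf ⟨19887400068, 318174203536311162857689450,
  3885426714359114951138397507067173567479996073388506316626413609363189588390504824832, 303462,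
  [P2p1_0, P2p2_0, P2p2_1, P2p3_0, P2p3_1, P2p3_2, P2p4_0, P2p4_1, P2p4_2, P2p4_3, P2p4_7, P2p4_8,
  P2p4_9, P2p5_0, P2p5_1, P2p5_2, P2p5_3, P2p5_4, P2p5_7, P2p5_8, P2p5_9, P2p6_0, P2p6_1, P2p6_2,
  P2p6_3, P2p6_4, P2p6_5, P2p6_7, P2p6_8, P2p6_9, P2p7_8, P2p7_9, P2p8_9]⟩) (.leaf ⟨19883205784,
  318174203385331620610410602,
  3885426714359114546733026763646534041617230627112330702455284282729735037085131407360, 303398,
  [P2p1_0, P2p2_0, P2p2_1, P2p2_3, P2p2_7, P2p2_8, P2p2_9, P2p3_0, P2p3_1, P2p3_7, P2p3_8, P2p3_9,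
  P2p4_7, P2p4_8, P2p4_9, P2p5_4, P2p5_7, P2p5_8, P2p5_9, P2p6_4, P2p6_5, P2p6_7, P2p6_8, P2p6_9,
  P2p7_8, P2p7_9, P2p8_9]⟩)))) (.node 252 (.node 250 (.node 249 (.leaf ⟨19466051976,
  78581367225287881698516036,
  4075143368211910707349437321232933114125790711913082747334120904399263349686678388737, 297025,
  [P2p1_0, P2p1_3, P2p2_0, P2p2_3, P2p5_3, P2p5_4, P2p5_6, P2p6_3, P2p6_4, P2p7_0, P2p7_3, P2p7_4,
  P2p7_8, P2p7_9, P2p8_0, P2p8_3, P2p8_4, P2p8_9, P2p9_0, P2p9_3, P2p9_4]⟩) (.leaf ⟨19466314116,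
  78581367344925948075252996,
  4120675365136587927457461360107309847413635722543159574074863065377427253939154124815, 297025,
  [P2p1_0, P2p2_3, P2p5_0, P2p5_1, P2p5_2, P2p5_3, P2p5_4, P2p5_6, P2p6_0, P2p6_1, P2p6_2, P2p6_3,
  P2p6_4, P2p7_0, P2p7_1, P2p7_2, P2p7_3, P2p7_4, P2p7_8, P2p7_9, P2p8_0, P2p8_1, P2p8_2, P2p8_3,
  P2p8_4, P2p8_9, P2p9_0, P2p9_1, P2p9_2, P2p9_3, P2p9_4]⟩)) (.node 251 (.leaf ⟨19471556996,
  78581366973378978817187076,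
  4029611371287233541162129368938783917568467345960873180656421474597812292270459912195, 297105,
  [P2p1_0, P2p2_0, P2p2_1, P2p2_3, P2p3_0, P2p3_1, P2p5_0, P2p5_1, P2p5_4, P2p5_6, P2p6_0, P2p6_1,
  P2p6_4, P2p7_0, P2p7_1, P2p7_4, P2p7_8, P2p7_9, P2p8_0, P2p8_1, P2p8_4, P2p8_9, P2p9_0, P2p9_1,
  P2p9_4]⟩) (.leaf ⟨19470246280, 78581366938218589825735780,
  4014434038979007783152549327120869822527907772321212557718394491981621499479487217665, 297089,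
  [P2p1_0, P2p2_0, P2p3_0, P2p3_2, P2p5_4, P2p5_6, P2p6_4, P2p7_0, P2p7_4, P2p7_8, P2p7_9, P2p8_0,
  P2p8_4, P2p8_9, P2p9_0, P2p9_4]⟩))) (.node 254 (.node 253 (.leaf ⟨19470508420,
  78581366948609180866649348,
  4059966035903685003260573365995438117758361021780843113205038149314734605576381595655, 297089,
  [P2p1_0, P2p3_0, P2p3_1, P2p3_2, P2p5_0, P2p5_1, P2p5_2, P2p5_4, P2p5_6, P2p6_0, P2p6_1, P2p6_2,
  P2p6_4, P2p7_0, P2p7_1, P2p7_2, P2p7_4, P2p7_8, P2p7_9, P2p8_0, P2p8_1, P2p8_2, P2p8_4, P2p8_9,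
  P2p9_0, P2p9_1, P2p9_2, P2p9_4]⟩) (.leaf ⟨19396845976, 78580481603680227078377638,
  4257271355910619479894027376837514769353012118090917600918386051701213477499400421377, 295969,
  [P2p1_0, P2p1_2, P2p1_3, P2p1_4, P2p1_5, P2p2_0, P2p2_3, P2p2_4, P2p2_5, P2p3_0, P2p3_4, P2p3_5,
  P2p4_5, P2p6_4, P2p6_5, P2p7_0, P2p7_4, P2p7_5, P2p7_8, P2p7_9, P2p8_0, P2p8_4, P2p8_5, P2p8_9,
  P2p9_0, P2p9_4, P2p9_5]⟩)) (.node 255 (.leaf ⟨19401040264, 78580481791705442801622084,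
  4348335349759973866184422854330054201354516151958118249283090517259305389336273158145, 296033,
  [P2p1_0, P2p1_2, P2p1_3, P2p3_2, P2p4_5, P2p6_2, P2p6_3, P2p6_4, P2p6_5, P2p7_0, P2p7_2, P2p7_3,
  P2p7_4, P2p7_5, P2p7_8, P2p7_9, P2p8_0, P2p8_2, P2p8_3, P2p8_4, P2p8_5, P2p8_9, P2p9_0, P2p9_2,
  P2p9_3, P2p9_4, P2p9_5]⟩) (.leaf ⟨19400860036, 78580481792034437296496077,
  4363512682068199624192768767730456286489201014637006644833611100402403646094597685248, 296038,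
  [P2p1_0, P2p2_0, P2p2_1, P2p3_0, P2p3_1, P2p3_2, P2p4_5, P2p6_0, P2p6_1, P2p6_2, P2p6_3, P2p6_4,
  P2p6_5, P2p7_0, P2p7_1, P2p7_2, P2p7_3, P2p7_4, P2p7_5, P2p7_8, P2p7_9, P2p8_0, P2p8_1, P2p8_2,
  P2p8_3, P2p8_4, P2p8_5, P2p8_9, P2p9_0, P2p9_1, P2p9_2, P2p9_3, P2p9_4, P2p9_5]⟩))))))

def P2T5 : Tr :=
  .node 288 (.node 272 (.node 264 (.node 260 (.node 258 (.node 257 (.leaf ⟨19395617176,
  78580481497920333906379846,
  4249682689756506641329774420863991694956316564392813404916023503072226380308369833984, 295958,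
  [P2p1_0, P2p3_0, P2p3_1, P2p3_2, P2p3_4, P2p3_5, P2p4_5, P2p6_4, P2p6_5, P2p7_4, P2p7_5, P2p7_8,
  P2p7_9, P2p8_4, P2p8_5, P2p8_9, P2p9_4, P2p9_5]⟩) (.leaf ⟨19396665752, 78580481529481849541429351,
  4249682689756506641329774420863608657299607491720701869684074913163929261764639916032, 295974,
  [P2p1_0, P2p2_0, P2p2_1, P2p2_3, P2p2_4, P2p2_5, P2p3_0, P2p3_1, P2p3_4, P2p3_5, P2p4_5, P2p6_4,
  P2p6_5, P2p7_4, P2p7_5, P2p7_8, P2p7_9, P2p8_4, P2p8_5, P2p8_9, P2p9_4, P2p9_5]⟩)) (.node 259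
  (.leaf ⟨19398943304, 78587520223242780432010308,
  3893015380513202797450739217400407429936809338241867694125641775083547524281414516737, 296001,
  [P2p1_0, P2p1_3, P2p1_5, P2p1_6, P2p2_0, P2p2_3, P2p2_5, P2p2_6, P2p4_5, P2p4_6, P2p6_5, P2p7_0,
  P2p7_8, P2p7_9, P2p8_0, P2p8_9, P2p9_0]⟩) (.leaf ⟨19399205444, 78583867920096394815242404,
  3999256706670782537350280601037774765017260843699084687209682570945772744255271272463, 296001,
  [P2p1_0, P2p2_3, P2p4_5, P2p4_6, P2p6_5, P2p7_0, P2p7_1, P2p7_2, P2p7_3, P2p7_8, P2p7_9, P2p8_0,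
  P2p8_1, P2p8_2, P2p8_3, P2p8_9, P2p9_0, P2p9_1, P2p9_2, P2p9_3]⟩))) (.node 262 (.node 261 (.leaf
  ⟨19404448324, 78586302630231246031128740,
  3908192712821428474579245129358085102852090935816868658668582561446010299256903237635, 296081,
  [P2p1_0, P2p2_0, P2p2_1, P2p2_3, P2p2_5, P2p2_6, P2p3_0, P2p3_1, P2p3_5, P2p3_6, P2p4_5, P2p4_6,
  P2p6_5, P2p7_0, P2p7_1, P2p7_8, P2p7_9, P2p8_0, P2p8_1, P2p8_9, P2p9_0, P2p9_1]⟩) (.leaf
  ⟨19403137608, 78588737565397541500129380,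
  3893015380513202797450739217410081296346333754329184233752409446621698611362184364033, 296065,
  [P2p1_0, P2p1_5, P2p1_6, P2p2_0, P2p2_5, P2p2_6, P2p3_0, P2p3_2, P2p3_5, P2p3_6, P2p4_5, P2p4_6,
  P2p6_5, P2p7_0, P2p7_8, P2p7_9, P2p8_0, P2p8_9, P2p9_0]⟩)) (.node 263 (.leaf ⟨19403399748,
  78585085116974883495019684,
  3938547377437879828836256953254858778027612110609078398609890033594772660604067315719, 296065,
  [P2p1_0, P2p3_0, P2p3_1, P2p3_2, P2p3_5, P2p3_6, P2p4_5, P2p4_6, P2p6_5, P2p7_0, P2p7_1, P2p7_2,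
  P2p7_8, P2p7_9, P2p8_0, P2p8_1, P2p8_2, P2p8_9, P2p9_0, P2p9_1, P2p9_2]⟩) (.leaf ⟨19614949912,
  78581363588631251313070246,
  3893015380513202393084860074824893975828963065081133984438492919819861363868540403713, 299297,
  [P2p1_0, P2p1_2, P2p1_3, P2p2_0, P2p2_3, P2p3_0, P2p5_0, P2p5_4, P2p5_6, P2p6_0, P2p6_4, P2p7_0,
  P2p7_8, P2p7_9, P2p8_0, P2p8_9, P2p9_0]⟩)))) (.node 268 (.node 266 (.node 265 (.leaf ⟨19614163492,
  78581368351480464789444772,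
  4120675365136587523052090710758428864241681313592744223452229658862746995979674648607, 299281,
  [P2p1_0, P2p2_0, P2p2_1, P2p3_0, P2p3_1, P2p3_2, P2p5_4, P2p5_6, P2p6_4, P2p7_0, P2p7_1, P2p7_2,
  P2p7_3, P2p7_4, P2p7_8, P2p7_9, P2p8_0, P2p8_1, P2p8_2, P2p8_3, P2p8_4, P2p8_9, P2p9_0, P2p9_1,
  P2p9_2, P2p9_3, P2p9_4]⟩) (.leaf ⟨19466052168, 78587263121747253105134660,
  3893015380513201934765355758859102542292875465195289501262875034498451871313737351169, 297025,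
  [P2p1_0, P2p1_3, P2p1_6, P2p2_0, P2p2_3, P2p2_6, P2p4_6, P2p5_4, P2p5_6, P2p7_0, P2p7_8, P2p7_9,
  P2p8_0, P2p8_9, P2p9_0]⟩)) (.node 267 (.leaf ⟨19466314308, 78584902090686027158061220,
  3999256706670781674664897142496469924142092999976788598275390451094445905662211719183, 297025,
  [P2p1_0, P2p2_3, P2p4_6, P2p5_4, P2p5_6, P2p7_0, P2p7_1, P2p7_2, P2p7_3, P2p7_8, P2p7_9, P2p8_0,
  P2p8_1, P2p8_2, P2p8_3, P2p8_9, P2p9_0, P2p9_1, P2p9_2, P2p9_3]⟩) (.leaf ⟨19471557188,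
  78586082422223866123356324,
  3908192712821427611893861670813715224127138919788962493162075176306389353429635104771, 297105,
  [P2p1_0, P2p2_0, P2p2_1, P2p2_3, P2p2_6, P2p3_0, P2p3_1, P2p3_6, P2p4_6, P2p5_4, P2p5_6, P2p7_0,
  P2p7_1, P2p7_8, P2p7_9, P2p8_0, P2p8_1, P2p8_9, P2p9_0, P2p9_1]⟩))) (.node 270 (.node 269 (.leaf
  ⟨19470246472, 78588443570413866754150500,
  3893015380513201934765355758865711417620668103565889346835342087669365480150139994113, 297089,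
  [P2p1_0, P2p1_6, P2p2_0, P2p2_6, P2p3_0, P2p3_2, P2p3_6, P2p4_6, P2p5_4, P2p5_6, P2p7_0, P2p7_8,
  P2p7_9, P2p8_0, P2p8_9, P2p9_0]⟩) (.leaf ⟨19470508612, 78584901802455651006350500,
  3938547377437878966150873494710488946070712489170065615621297295376208343766640558087, 297089,
  [P2p1_0, P2p3_0, P2p3_1, P2p3_2, P2p3_6, P2p4_6, P2p5_4, P2p5_6, P2p7_0, P2p7_1, P2p7_2, P2p7_8,
  P2p7_9, P2p8_0, P2p8_1, P2p8_2, P2p8_9, P2p9_0, P2p9_1, P2p9_2]⟩)) (.node 271 (.leaf ⟨19468149320,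
  78587263127376752639347780,
  3893015380513201934765355758859485559488561616595889649326989820232285144401484513281, 297057,
  [P2p1_0, P2p1_2, P2p1_3, P2p1_6, P2p3_2, P2p4_6, P2p5_4, P2p5_6, P2p7_0, P2p7_8, P2p7_9, P2p8_0,
  P2p8_9, P2p9_0]⟩) (.leaf ⟨19463168612, 78584902055892084776310948,
  3999256706670781674671067878743620937091738622726854829112327620193054038708280295439, 296977,
  [P2p1_0, P2p2_0, P2p2_1, P2p3_0, P2p3_1, P2p3_2, P2p4_0, P2p4_1, P2p4_2, P2p4_3, P2p4_6, P2p5_0,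
  P2p5_1, P2p5_2, P2p5_3, P2p5_4, P2p5_6, P2p7_0, P2p7_1, P2p7_2, P2p7_3, P2p7_8, P2p7_9, P2p8_0,
  P2p8_1, P2p8_2, P2p8_3, P2p8_9, P2p9_0, P2p9_1, P2p9_2, P2p9_3]⟩))))) (.node 280 (.node 276 (.node
  274 (.node 273 (.leaf ⟨19463774820, 78584902046594339573930148,
  3946136043591991804718417510009242485280206046256416803456647601159754615538265358344, 296998,
  [P2p0_3, P2p1_0, P2p1_3, P2p2_0, P2p2_1, P2p2_3, P2p4_3, P2p4_6, P2p5_3, P2p5_4, P2p5_6, P2p7_3,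
  P2p7_8, P2p7_9, P2p8_3, P2p8_9, P2p9_3]⟩) (.leaf ⟨19617063457, 78581363514539494258870372,
  3885426714359089527560249075562550286523900245075668788146093267157429086755003498499, 299330,
  [P2p0_1, P2p2_0, P2p2_1, P2p2_3, P2p2_4, P2p3_0, P2p3_1, P2p3_4, P2p5_4, P2p5_6, P2p6_4, P2p7_8,
  P2p7_9, P2p8_9]⟩)) (.node 275 (.leaf ⟨19617039906, 278243021868920317878143074,
  3885426714359089527560249075562262939225483289604543904682718674596195278172293432208, 299329,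
  [P2p0_4, P2p0_7, P2p0_8, P2p0_9, P2p1_0, P2p1_4, P2p1_7, P2p1_8, P2p1_9, P2p2_3, P2p2_4, P2p3_4,
  P2p5_4, P2p5_6, P2p6_4, P2p7_8, P2p7_9, P2p8_9]⟩) (.leaf ⟨19621241368, 78581363665403654290116873,
  3893015380513202716609156594304918242152544777405969590197523123510869641351479230465, 299393,
  [P2p1_0, P2p2_0, P2p3_0, P2p3_2, P2p5_0, P2p5_2, P2p5_3, P2p5_4, P2p5_6, P2p6_0, P2p6_2, P2p6_3,
  P2p6_4, P2p7_0, P2p7_8, P2p7_9, P2p8_0, P2p8_9, P2p9_0]⟩))) (.node 278 (.node 277 (.leaf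
  ⟨19614179857, 78581363479460675286306916,
  3885426714359089527560249075561400879792278434725825582856719157233740505673898328067, 299282,
  [P2p0_1, P2p2_0, P2p2_1, P2p3_0, P2p3_1, P2p3_2, P2p5_4, P2p5_6, P2p6_4, P2p7_8, P2p7_9, P2p8_9]⟩)
  (.leaf ⟨35840874564, 81157715454742419808256032,
  7649316196439116240658896464420066910992301296839588606868267621142529142333392225279, 546881,
  [P2p1_0, P2p2_3, P2p5_4, P2p6_4, P2p6_5, P2p7_4, P2p7_5, P2p7_6, P2p8_4, P2p8_5, P2p8_6, P2p8_7,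
  P2p9_4, P2p9_5, P2p9_6, P2p9_7, P2p9_8]⟩)) (.node 279 (.leaf ⟨36042201156,
  81151543865928259356295200,
  6799385587178477027404872029380038021817850646227517308666504840233538285475065693071, 549953,
  [P2p1_0, P2p2_3, P2p4_5, P2p4_6, P2p5_6, P2p8_7, P2p9_7, P2p9_8]⟩) (.leaf ⟨35740211268,
  81161292970171214854324256,
  7649316196439114946601203098478977836602790078323789106281104115408807201946024739839, 545345,
  [P2p1_0, P2p2_3, P2p4_5, P2p4_6, P2p5_6, P2p7_4, P2p7_5, P2p7_6, P2p8_4, P2p8_5, P2p8_6, P2p8_7,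
  P2p9_4, P2p9_5, P2p9_6, P2p9_7, P2p9_8]⟩)))) (.node 284 (.node 282 (.node 281 (.leaf ⟨35737065572,
  81161293158523363488145440,
  7763146188750807525064997438091113449859983211615317468932743614972641322461859611647, 545297,
  [P2p1_0, P2p2_0, P2p2_1, P2p3_0, P2p3_1, P2p3_2, P2p4_5, P2p4_6, P2p5_6, P2p7_0, P2p7_1, P2p7_2,
  P2p7_3, P2p7_4, P2p7_5, P2p7_6, P2p8_0, P2p8_1, P2p8_2, P2p8_3, P2p8_4, P2p8_5, P2p8_6, P2p8_7,
  P2p9_0, P2p9_1, P2p9_2, P2p9_3, P2p9_4, P2p9_5, P2p9_6, P2p9_7, P2p9_8]⟩) (.leaf ⟨35989508376,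
  320745608102271821699616934,
  6799385587178478321462565395407043938454061619868824809470453857252168022684946465665, 549153,
  [P2p1_0, P2p1_2, P2p1_3, P2p1_7, P2p1_8, P2p1_9, P2p2_0, P2p2_3, P2p2_7, P2p2_8, P2p2_9, P2p3_0,
  P2p3_7, P2p3_8, P2p3_9, P2p5_4, P2p6_4, P2p6_5, P2p8_7, P2p9_7, P2p9_8]⟩)) (.node 283 (.leaf
  ⟨35988721956, 81155278143887738381895712,
  6799385587178478321462565395321797555698714895521951627583142613326676479431090832383, 549137,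
  [P2p1_0, P2p2_0, P2p2_1, P2p3_0, P2p3_1, P2p3_2, P2p5_4, P2p6_4, P2p6_5, P2p8_7, P2p9_7, P2p9_8]⟩)
  (.leaf ⟨36039055460, 81151544054280407990116384,
  6913215579490170010274037112498251108538562676784937188383992178937417214474165617551, 549905,
  [P2p1_0, P2p2_0, P2p2_1, P2p3_0, P2p3_1, P2p3_2, P2p4_0, P2p4_1, P2p4_2, P2p4_3, P2p4_5, P2p4_6,
  P2p5_0, P2p5_1, P2p5_2, P2p5_3, P2p5_6, P2p6_0, P2p6_1, P2p6_2, P2p6_3, P2p7_0, P2p7_1, P2p7_2,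
  P2p7_3, P2p8_0, P2p8_1, P2p8_2, P2p8_3, P2p8_7, P2p9_0, P2p9_1, P2p9_2, P2p9_3, P2p9_7,
  P2p9_8]⟩))) (.node 286 (.node 285 (.leaf ⟨35991867684, 81158934092772789078660128,
  6799385587178478321462565395331854728684104151275187507049492374215096151426845311999, 549185,
  [P2p1_0, P2p2_3, P2p2_4, P2p2_5, P2p2_6, P2p3_4, P2p3_5, P2p3_6, P2p5_4, P2p6_4, P2p6_5, P2p8_7,
  P2p9_7, P2p9_8]⟩) (.leaf ⟨35588952456, 200948536872006833597977667,
  6799385587178477243087736425916613985318544048097862364265682596855907470306615821185, 543041,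
  [P2p1_0, P2p1_3, P2p1_7, P2p1_8, P2p1_9, P2p2_0, P2p2_3, P2p2_7, P2p2_8, P2p2_9, P2p4_3, P2p4_5,
  P2p4_6, P2p5_3, P2p5_6, P2p6_3, P2p8_7, P2p9_7, P2p9_8]⟩)) (.node 287 (.leaf ⟨35538883140,
  200949833840058104989909024,
  6799385587178478321462565395321127096207361864743316809254751562096268216686477247375, 542273,
  [P2p1_0, P2p2_3, P2p5_4, P2p6_4, P2p6_5, P2p8_7, P2p9_7, P2p9_8]⟩) (.leaf ⟨35589214596,
  81151544051883335031592128,
  6799385587178477431810242772886115495281369543493408825733454011071957403885745669007, 543041,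
  [P2p1_0, P2p2_3, P2p4_0, P2p4_1, P2p4_2, P2p4_3, P2p4_5, P2p4_6, P2p5_0, P2p5_1, P2p5_2, P2p5_3,
  P2p5_6, P2p6_0, P2p6_1, P2p6_2, P2p6_3, P2p8_7, P2p9_7, P2p9_8]⟩)))))) (.node 304 (.node 296
  (.node 292 (.node 290 (.node 289 (.leaf ⟨35589214500, 81160074332140845253465120,
  6799385587178477027404872029390765654294592932759388006462193466723510510638013023231, 543041,
  [P2p1_0, P2p2_3, P2p2_4, P2p2_5, P2p2_6, P2p3_4, P2p3_5, P2p3_6, P2p4_5, P2p4_6, P2p5_6, P2p8_7,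
  P2p9_7, P2p9_8]⟩) (.leaf ⟨35593146642, 81152762543537645609291874,
  6799385587178477027404872029380421134010719512700356302012090354332543780020118355980, 543105,
  [P2p0_2, P2p0_3, P2p1_0, P2p1_2, P2p1_3, P2p3_2, P2p4_5, P2p4_6, P2p5_6, P2p8_7, P2p9_7,
  P2p9_8]⟩)) (.node 291 (.leaf ⟨35586855192, 320746748341639877874421926,
  6799385587178477027404872029465954864064550401353025308883154949760582381896114176897, 543009,
  [P2p1_0, P2p1_2, P2p1_3, P2p1_7, P2p1_8, P2p1_9, P2p2_0, P2p2_3, P2p2_7, P2p2_8, P2p2_9, P2p3_0,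
  P2p3_7, P2p3_8, P2p3_9, P2p4_5, P2p4_6, P2p5_6, P2p8_7, P2p9_7, P2p9_8]⟩) (.leaf ⟨35535737124,
  81149184953735891195627552,
  6799385587178478321462565395321797555698714895521951627583007211568812779029618688911, 542225,
  [P2p1_0, P2p2_0, P2p2_1, P2p3_0, P2p3_1, P2p3_2, P2p5_4, P2p6_4, P2p6_5, P2p8_7, P2p9_7,
  P2p9_8]⟩))) (.node 294 (.node 293 (.leaf ⟨35536523538, 81149185062906194559081570,
  6799385587178478321462565395321127096207294966591171928949643373119893595942248251404, 542241,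
  [P2p0_2, P2p0_3, P2p1_0, P2p1_2, P2p1_3, P2p2_3, P2p5_4, P2p6_4, P2p6_5, P2p8_7, P2p9_7, P2p9_8]⟩)
  (.leaf ⟨35586068772, 81156418383255794556700704,
  6799385587178477027404872029380708481309203677006152126995843705835090838642258543615, 542993,
  [P2p1_0, P2p2_0, P2p2_1, P2p3_0, P2p3_1, P2p3_2, P2p4_5, P2p4_6, P2p5_6, P2p8_7, P2p9_7,
  P2p9_8]⟩)) (.node 295 (.leaf ⟨35593408900, 81151543727624161860916416,
  6799385587178477216127378376350211297874430120051653536174759471434521572387089482631, 543105,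
  [P2p1_0, P2p3_0, P2p3_1, P2p3_2, P2p4_0, P2p4_1, P2p4_2, P2p4_5, P2p4_6, P2p5_0, P2p5_1, P2p5_2,
  P2p5_6, P2p6_0, P2p6_1, P2p6_2, P2p8_7, P2p9_7, P2p9_8]⟩) (.leaf ⟨35540718152,
  320750482693799693314559043,
  6799385587178478321462565395321510208423000135068419116619678142886292576285335815041, 542305,
  [P2p1_0, P2p1_2, P2p1_3, P2p1_4, P2p1_5, P2p1_6, P2p1_7, P2p1_8, P2p1_9, P2p3_2, P2p5_4, P2p6_4,
  P2p6_5, P2p8_7, P2p9_7, P2p9_8]⟩)))) (.node 300 (.node 298 (.node 297 (.leaf ⟨35586855186,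
  81152762578334989605149794,
  6799385587178477027404872029380038021817783748075372428362479867386171655073844428812, 543009,
  [P2p0_2, P2p0_3, P2p1_0, P2p1_2, P2p1_3, P2p2_3, P2p4_5, P2p4_6, P2p5_6, P2p8_7, P2p9_7, P2p9_8]⟩)
  (.leaf ⟨35572175240, 200947323962555190174912579,
  6799385587178477674453464465737555043944605878220082530882636369430901506003960398721, 542785,
  [P2p1_0, P2p1_3, P2p1_7, P2p1_8, P2p1_9, P2p2_0, P2p2_3, P2p2_7, P2p2_8, P2p2_9, P2p5_3, P2p5_4,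
  P2p5_6, P2p6_3, P2p6_4, P2p8_7, P2p9_7, P2p9_8]⟩)) (.node 299 (.leaf ⟨35572437380,
  81150331141269473458229408,
  6799385587178477863175970768767344406200666026765103029896742870930463328334848656271, 542785,
  [P2p1_0, P2p2_3, P2p5_0, P2p5_1, P2p5_2, P2p5_3, P2p5_4, P2p5_6, P2p6_0, P2p6_1, P2p6_2, P2p6_3,
  P2p6_4, P2p8_7, P2p9_7, P2p9_8]⟩) (.leaf ⟨35576631684, 81150330853039097306517664,
  6799385587178477647493106422448254091887172714009663125999379660111871052548468573063, 542849,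
  [P2p1_0, P2p3_0, P2p3_1, P2p3_2, P2p5_0, P2p5_1, P2p5_2, P2p5_4, P2p5_6, P2p6_0, P2p6_1, P2p6_2,
  P2p6_4, P2p8_7, P2p9_7, P2p9_8]⟩))) (.node 302 (.node 301 (.leaf ⟨35502969240,
  320743396798825985767280806,
  6799385587178478321455983578049612203434972896445355147069933715283199910778077512577, 541729,
  [P2p1_0, P2p1_2, P2p1_3, P2p1_4, P2p1_5, P2p1_7, P2p1_8, P2p1_9, P2p2_0, P2p2_3, P2p2_4, P2p2_5,
  P2p2_7, P2p2_8, P2p2_9, P2p3_0, P2p3_4, P2p3_5, P2p3_7, P2p3_8, P2p3_9, P2p4_5, P2p6_4, P2p6_5,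
  P2p8_7, P2p9_7, P2p9_8]⟩) (.leaf ⟨35505328708, 200949828075450581955674144,
  6799385587178477890096842929566527060953818320802104451045594631226022699049855943567, 541761,
  [P2p1_0, P2p2_3, P2p4_5, P2p4_6, P2p4_7, P2p4_8, P2p4_9, P2p6_5, P2p8_7, P2p9_7, P2p9_8]⟩)) (.node
  303 (.leaf ⟨35721073176, 320744316830186662132813990,
  6799385587178501642211764950606886077049843237958760964422346261649849882453334885249, 545057,
  [P2p1_0, P2p1_2, P2p1_3, P2p1_7, P2p1_8, P2p1_9, P2p2_0, P2p2_3, P2p2_7, P2p2_8, P2p2_9, P2p3_0,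
  P2p3_7, P2p3_8, P2p3_9, P2p5_0, P2p5_4, P2p5_6, P2p5_7, P2p5_8, P2p5_9, P2p6_0, P2p6_4, P2p6_7,
  P2p6_8, P2p6_9, P2p8_7, P2p9_7, P2p9_8]⟩) (.leaf ⟨35720286756, 200947323895148633502353440,
  6799385587178501615251406907231669598116942684296617771271644911198930718643999146911, 545041,
  [P2p1_0, P2p2_0, P2p2_1, P2p3_0, P2p3_1, P2p3_2, P2p5_4, P2p5_6, P2p5_7, P2p5_8, P2p5_9, P2p6_4,
  P2p6_7, P2p6_8, P2p6_9, P2p8_7, P2p9_7, P2p9_8]⟩))))) (.node 312 (.node 308 (.node 306 (.node 305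
  (.leaf ⟨35535343908, 81149185065125009027175552,
  6799385587178478321462565395321510208400498339818266186798978437596409150415139767183, 542233,
  [P2p0_1, P2p0_2, P2p0_3, P2p1_2, P2p1_3, P2p3_2, P2p5_4, P2p6_4, P2p6_5, P2p8_7, P2p9_7, P2p9_8]⟩)
  (.leaf ⟨35507163720, 320750473470427656459783235,
  6799385587178477890096842929566910173169099773759512397705241225109690965956326392705, 541793,
  [P2p1_0, P2p1_2, P2p1_3, P2p1_5, P2p1_6, P2p1_7, P2p1_8, P2p1_9, P2p3_2, P2p4_5, P2p4_6, P2p4_7,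
  P2p4_8, P2p4_9, P2p6_5, P2p8_7, P2p9_7, P2p9_8]⟩)) (.node 307 (.leaf ⟨35840873028,
  280810839884258438748930080,
  6799385587178502477943377807417488177761557328092570095321395817995544552752374809487, 546881,
  [P2p1_0, P2p2_3, P2p4_7, P2p4_8, P2p4_9, P2p5_4, P2p5_7, P2p5_8, P2p5_9, P2p6_4, P2p6_5, P2p6_7,
  P2p6_8, P2p6_9, P2p8_7, P2p9_7, P2p9_8]⟩) (.leaf ⟨36039841944, 320752841531791725438341286,
  6799385587178477027404872029476682496541292725996521101821785089079477215748943840129, 549921,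
  [P2p1_0, P2p1_2, P2p1_3, P2p1_4, P2p1_5, P2p1_6, P2p1_7, P2p1_8, P2p1_9, P2p2_0, P2p2_3, P2p2_4,
  P2p2_5, P2p2_6, P2p2_7, P2p2_8, P2p2_9, P2p3_0, P2p3_4, P2p3_5, P2p3_6, P2p3_7, P2p3_8, P2p3_9,
  P2p4_5, P2p4_6, P2p5_6, P2p8_7, P2p9_7, P2p9_8]⟩))) (.node 310 (.node 309 (.leaf ⟨35845722692,
  440540163838030001597552864,
  6799385587178502477943377807503309237575429026752771873241267696907986234343988134799, 546969,
  [P2p0_1, P2p0_2, P2p0_3, P2p0_7, P2p0_8, P2p0_9, P2p1_2, P2p1_3, P2p1_7, P2p1_8, P2p1_9, P2p2_3,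
  P2p2_7, P2p2_8, P2p2_9, P2p3_7, P2p3_8, P2p3_9, P2p4_7, P2p4_8, P2p4_9, P2p5_4, P2p5_7, P2p5_8,
  P2p5_9, P2p6_4, P2p6_5, P2p6_7, P2p6_8, P2p6_9, P2p8_7, P2p9_7, P2p9_8]⟩) (.leaf ⟨35837334116,
  280810839960853614195479680,
  6799385587178502801467674402222733268725508920980232686518300983402326464139329536911, 546841,
  [P2p0_1, P2p0_2, P2p0_3, P2p1_2, P2p1_3, P2p3_2, P2p4_2, P2p4_3, P2p4_7, P2p4_8, P2p4_9, P2p5_2,
  P2p5_3, P2p5_4, P2p5_7, P2p5_8, P2p5_9, P2p6_2, P2p6_3, P2p6_4, P2p6_5, P2p6_7, P2p6_8, P2p6_9,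
  P2p8_7, P2p9_7, P2p9_8]⟩)) (.node 311 (.leaf ⟨35837727332, 280810839923846526705700896,
  6799385587178502882348748550924236110716429256137096430715499325202739898779184333711, 546833,
  [P2p1_0, P2p2_0, P2p2_1, P2p3_0, P2p3_1, P2p3_2, P2p4_0, P2p4_1, P2p4_2, P2p4_3, P2p4_7, P2p4_8,
  P2p4_9, P2p5_0, P2p5_1, P2p5_2, P2p5_3, P2p5_4, P2p5_7, P2p5_8, P2p5_9, P2p6_0, P2p6_1, P2p6_2,
  P2p6_3, P2p6_4, P2p6_5, P2p6_7, P2p6_8, P2p6_9, P2p8_7, P2p9_7, P2p9_8]⟩) (.leaf ⟨35846115908,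
  280810839772866984458422368,
  6799385587178502477943377807503596584853663809860920816544369998569285347473809933187, 546961,
  [P2p1_0, P2p2_0, P2p2_1, P2p2_3, P2p2_7, P2p2_8, P2p2_9, P2p3_0, P2p3_1, P2p3_7, P2p3_8, P2p3_9,
  P2p4_7, P2p4_8, P2p4_9, P2p5_4, P2p5_7, P2p5_8, P2p5_9, P2p6_4, P2p6_5, P2p6_7, P2p6_8, P2p6_9,
  P2p8_7, P2p9_7, P2p9_8]⟩)))) (.node 316 (.node 314 (.node 313 (.leaf ⟨35838515352,
  320759013120605885890203814,
  7649316196439116240658896464516711385715743376608592400023547869988468072607277712369, 546849,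
  [P2p1_0, P2p1_2, P2p1_3, P2p1_4, P2p1_5, P2p1_6, P2p1_7, P2p1_8, P2p1_9, P2p2_0, P2p2_3, P2p2_4,
  P2p2_5, P2p2_6, P2p2_7, P2p2_8, P2p2_9, P2p3_0, P2p3_4, P2p3_5, P2p3_6, P2p3_7, P2p3_8, P2p3_9,
  P2p5_4, P2p6_4, P2p6_5, P2p7_4, P2p7_5, P2p7_6, P2p8_4, P2p8_5, P2p8_6, P2p8_7, P2p9_4, P2p9_5,
  P2p9_6, P2p9_7, P2p9_8]⟩) (.leaf ⟨36047444036, 81151543754536805065787488,
  6799385587178477027404872029380325369116000303438785885867451592735044077638660588419, 550033,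
  [P2p1_0, P2p2_0, P2p2_1, P2p2_3, P2p3_0, P2p3_1, P2p4_5, P2p4_6, P2p5_6, P2p8_7, P2p9_7,
  P2p9_8]⟩)) (.node 315 (.leaf ⟨35846117444, 81157715343350965517748320,
  7649316196439116240658896464420354258290450954050857184069214373644034934496987120627, 546961,
  [P2p1_0, P2p2_0, P2p2_1, P2p2_3, P2p3_0, P2p3_1, P2p5_4, P2p6_4, P2p6_5, P2p7_4, P2p7_5, P2p7_6,
  P2p8_4, P2p8_5, P2p8_6, P2p8_7, P2p9_4, P2p9_5, P2p9_6, P2p9_7, P2p9_8]⟩) (.leaf ⟨36047050820,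
  81151543903116938063354080,
  6799385587178477027404872029380038021817783747735100445083422818762640449024181666703, 550041,
  [P2p0_1, P2p0_2, P2p0_3, P2p1_2, P2p1_3, P2p2_3, P2p4_5, P2p4_6, P2p5_6, P2p8_7, P2p9_7,
  P2p9_8]⟩))) (.node 318 (.node 317 (.leaf ⟨36046395460, 81151543722975289430737984,
  6799385587178477027404872029380708476924787967994237494876272153024926139667152569223, 550017,
  [P2p1_0, P2p3_0, P2p3_1, P2p3_2, P2p4_5, P2p4_6, P2p5_6, P2p8_7, P2p9_7, P2p9_8]⟩) (.leaf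
  ⟨35845067332, 280810839741305468823372864,
  6799385587178502477943377807503978383156984425927357715051580445069581797786743407495, 546945,
  [P2p1_0, P2p3_0, P2p3_1, P2p3_2, P2p3_7, P2p3_8, P2p3_9, P2p4_7, P2p4_8, P2p4_9, P2p5_4, P2p5_7,
  P2p5_8, P2p5_9, P2p6_4, P2p6_5, P2p6_7, P2p6_8, P2p6_9, P2p8_7, P2p9_7, P2p9_8]⟩)) (.node 319
  (.leaf ⟨35845724228, 81157715491931098515314912,
  7649316196439116240658896464420066910992234398347171743285185599671631305882508198911, 546969,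
  [P2p0_1, P2p0_2, P2p0_3, P2p1_2, P2p1_3, P2p2_3, P2p5_4, P2p6_4, P2p6_5, P2p7_4, P2p7_5, P2p7_6,
  P2p8_4, P2p8_5, P2p8_6, P2p8_7, P2p9_4, P2p9_5, P2p9_6, P2p9_7, P2p9_8]⟩) (.leaf ⟨35845068868,
  81157715311789449882698816,
  7649316196439116240658896464420737366099238618606308793078034933933916996525479101431, 546945,
  [P2p1_0, P2p3_0, P2p3_1, P2p3_2, P2p5_4, P2p6_4, P2p6_5, P2p7_4, P2p7_5, P2p7_6, P2p8_4, P2p8_5,
  P2p8_6, P2p8_7, P2p9_4, P2p9_5, P2p9_6, P2p9_7, P2p9_8]⟩))))))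

def P2T6 : Tr :=
  .node 352 (.node 336 (.node 328 (.node 324 (.node 322 (.node 321 (.leaf ⟨36044036168,
  200948536805578739369184323,
  6799385587178477027404872029380421134030991194978759091094471512679069996227207431041, 549985,
  [P2p1_0, P2p1_2, P2p1_3, P2p1_7, P2p1_8, P2p1_9, P2p3_2, P2p4_5, P2p4_6, P2p5_6, P2p8_7, P2p9_7,
  P2p9_8]⟩) (.leaf ⟨35842708040, 320743170865617476691037251,
  6799385587178502477943377807417871289974697876843811877749362490441076263504516547457, 546913,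
  [P2p1_0, P2p1_2, P2p1_3, P2p1_7, P2p1_8, P2p1_9, P2p3_2, P2p4_7, P2p4_8, P2p4_9, P2p5_4, P2p5_7,
  P2p5_8, P2p5_9, P2p6_4, P2p6_5, P2p6_7, P2p6_8, P2p6_9, P2p8_7, P2p9_7, P2p9_8]⟩)) (.node 323
  (.leaf ⟨35842709576, 200958364308484008132906051,
  7649316196439116240658896464420450023207939567164690914233194201932553501932250792945, 546913,
  [P2p1_0, P2p1_2, P2p1_3, P2p1_4, P2p1_5, P2p1_6, P2p1_7, P2p1_8, P2p1_9, P2p3_2, P2p5_4, P2p6_4,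
  P2p6_5, P2p7_4, P2p7_5, P2p7_6, P2p8_4, P2p8_5, P2p8_6, P2p8_7, P2p9_4, P2p9_5, P2p9_6, P2p9_7,
  P2p9_8]⟩) (.leaf ⟨35837728868, 81157715754667613949864992,
  7763146188750809223528061547538279997713013327397008486585754959846408071332492149759, 546833,
  [P2p1_0, P2p2_0, P2p2_1, P2p3_0, P2p3_1, P2p3_2, P2p4_0, P2p4_1, P2p4_2, P2p4_3, P2p5_0, P2p5_1,
  P2p5_2, P2p5_3, P2p5_4, P2p6_0, P2p6_1, P2p6_2, P2p6_3, P2p6_4, P2p6_5, P2p7_0, P2p7_1, P2p7_2,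
  P2p7_3, P2p7_4, P2p7_5, P2p7_6, P2p8_0, P2p8_1, P2p8_2, P2p8_3, P2p8_4, P2p8_5, P2p8_6, P2p8_7,
  P2p9_0, P2p9_1, P2p9_2, P2p9_3, P2p9_4, P2p9_5, P2p9_6, P2p9_7, P2p9_8]⟩))) (.node 326 (.node 325
  (.leaf ⟨35740209732, 320747967016863324267642912,
  6799385587178501183885684441476399103372046109576770594734232312261822612365007324047, 545345,
  [P2p1_0, P2p2_3, P2p4_5, P2p4_6, P2p4_7, P2p4_8, P2p4_9, P2p5_6, P2p5_7, P2p5_8, P2p5_9, P2p6_7,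
  P2p6_8, P2p6_9, P2p8_7, P2p9_7, P2p9_8]⟩) (.leaf ⟨35737850392, 360677860682755263930963143,
  6799385587178501210846042491129387777182980457853338029420855746881959809349467571073, 545313,
  [P2p1_0, P2p1_2, P2p1_3, P2p1_7, P2p1_8, P2p1_9, P2p2_0, P2p2_3, P2p2_7, P2p2_8, P2p2_9, P2p3_0,
  P2p3_7, P2p3_8, P2p3_9, P2p4_0, P2p4_5, P2p4_6, P2p4_7, P2p4_8, P2p4_9, P2p5_0, P2p5_6, P2p5_7,
  P2p5_8, P2p5_9, P2p6_0, P2p6_7, P2p6_8, P2p6_9, P2p8_7, P2p9_7, P2p9_8]⟩)) (.node 327 (.leaf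
  ⟨35745454148, 81161292858779760563816544,
  7649316196439114946601203098489992816375184338604692951484804296419342369429349663731, 545425,
  [P2p1_0, P2p2_0, P2p2_1, P2p2_3, P2p2_4, P2p2_5, P2p2_6, P2p3_0, P2p3_1, P2p3_4, P2p3_5, P2p3_6,
  P2p4_5, P2p4_6, P2p5_6, P2p7_4, P2p7_5, P2p7_6, P2p8_4, P2p8_5, P2p8_6, P2p8_7, P2p9_4, P2p9_5,
  P2p9_6, P2p9_7, P2p9_8]⟩) (.leaf ⟨35745060932, 81161293007359893561383136,
  7649316196439114946601203098489705469079465504475449572885891331485826805250452882431, 545433,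
  [P2p0_1, P2p0_2, P2p0_3, P2p0_4, P2p0_5, P2p0_6, P2p1_2, P2p1_3, P2p1_4, P2p1_5, P2p1_6, P2p2_3,
  P2p2_4, P2p2_5, P2p2_6, P2p3_4, P2p3_5, P2p3_6, P2p4_5, P2p4_6, P2p5_6, P2p7_4, P2p7_5, P2p7_6,
  P2p8_4, P2p8_5, P2p8_6, P2p8_7, P2p9_4, P2p9_5, P2p9_6, P2p9_7, P2p9_8]⟩)))) (.node 332 (.node 330
  (.node 329 (.leaf ⟨35736672356, 81161293158230481078296704,
  7740380190288469009372238570168533071808598635409053319284038074700900133597650617343, 545305,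
  [P2p0_1, P2p0_2, P2p0_3, P2p1_2, P2p1_3, P2p3_2, P2p4_5, P2p4_6, P2p5_6, P2p7_2, P2p7_3, P2p7_4,
  P2p7_5, P2p7_6, P2p8_2, P2p8_3, P2p8_4, P2p8_5, P2p8_6, P2p8_7, P2p9_2, P2p9_3, P2p9_4, P2p9_5,
  P2p9_6, P2p9_7, P2p9_8]⟩) (.leaf ⟨35737063972, 240880867747717200940763168,
  6799385587178501183885684441477069562863399140355405413062487980328685201007376794511, 545297,
  [P2p1_0, P2p2_0, P2p2_1, P2p3_0, P2p3_1, P2p3_2, P2p4_5, P2p4_6, P2p4_7, P2p4_8, P2p4_9, P2p5_6,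
  P2p5_7, P2p5_8, P2p5_9, P2p6_7, P2p6_8, P2p6_9, P2p8_7, P2p9_7, P2p9_8]⟩)) (.node 331 (.leaf
  ⟨35744405572, 81161292827218244928767040,
  7649316196439114946601203098490375760495788622099017721680923592485526229993396831223, 545409,
  [P2p1_0, P2p3_0, P2p3_1, P2p3_2, P2p3_4, P2p3_5, P2p3_6, P2p4_5, P2p4_6, P2p5_6, P2p7_4, P2p7_5,
  P2p7_6, P2p8_4, P2p8_5, P2p8_6, P2p8_7, P2p9_4, P2p9_5, P2p9_6, P2p9_7, P2p9_8]⟩) (.leaf
  ⟨35742046280, 200961941823912803178974275,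
  7649316196439114946601203098479360948818428348648891413646030696198831561544883307505, 545377,
  [P2p1_0, P2p1_2, P2p1_3, P2p1_4, P2p1_5, P2p1_6, P2p1_7, P2p1_8, P2p1_9, P2p3_2, P2p4_5, P2p4_6,
  P2p5_6, P2p7_4, P2p7_5, P2p7_6, P2p8_4, P2p8_5, P2p8_6, P2p8_7, P2p9_4, P2p9_5, P2p9_6, P2p9_7,
  P2p9_8]⟩))) (.node 334 (.node 333 (.leaf ⟨35742044744, 440548615870604912592292931,
  6799385587178501183885684441476782215587684379901872902099158893051846971963865891713, 545377,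
  [P2p1_0, P2p1_2, P2p1_3, P2p1_4, P2p1_5, P2p1_6, P2p1_7, P2p1_8, P2p1_9, P2p3_2, P2p4_5, P2p4_6,
  P2p4_7, P2p4_8, P2p4_9, P2p5_6, P2p5_7, P2p5_8, P2p5_9, P2p6_7, P2p6_8, P2p6_9, P2p8_7, P2p9_7,
  P2p9_8]⟩) (.leaf ⟨35723171976, 200957945792348336312880195,
  7285060221041698695526934088415776336049041948629361498178760231483387721461889827777, 545089,
  [P2p1_0, P2p1_3, P2p1_6, P2p1_7, P2p1_8, P2p1_9, P2p2_0, P2p2_3, P2p2_6, P2p2_7, P2p2_8, P2p2_9,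
  P2p4_3, P2p4_6, P2p5_3, P2p5_4, P2p5_6, P2p7_6, P2p8_6, P2p8_7, P2p9_6, P2p9_7, P2p9_8]⟩)) (.node
  335 (.leaf ⟨18815944977, 154782760393615743552324612,
  3885441882675768171284883603878909535591767937907480808425030991859437155929748865027, 287106,
  [P2p0_1, P2p3_2, P2p5_4, P2p6_4, P2p6_5, P2p7_0, P2p7_1, P2p7_9, P2p8_0, P2p8_1, P2p8_7, P2p8_9]⟩)
  (.leaf ⟨35723434116, 81157411195038249108180096,
  7285060221041698695529813765330799189805229776238929036329562983838028147646322901967, 545089,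
  [P2p1_0, P2p2_3, P2p4_0, P2p4_1, P2p4_2, P2p4_3, P2p4_6, P2p5_0, P2p5_1, P2p5_2, P2p5_3, P2p5_4,
  P2p5_6, P2p7_6, P2p8_6, P2p8_7, P2p9_6, P2p9_7, P2p9_8]⟩))))) (.node 344 (.node 340 (.node 338
  (.node 337 (.leaf ⟨35995799826, 81151622304169589434486882,
  6799385587178478321462565395321510208400230731216155802599389261824129420808950644748, 549249,
  [P2p0_2, P2p0_3, P2p1_0, P2p1_2, P2p1_3, P2p3_2, P2p5_4, P2p6_4, P2p6_5, P2p8_7, P2p9_7, P2p9_8]⟩)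
  (.leaf ⟨35727628420, 81157410942836669975432320,
  7285060221041698695526522706000013349734411048954219135868033496079303034599622771655, 545153,
  [P2p1_0, P2p3_0, P2p3_1, P2p3_2, P2p4_0, P2p4_1, P2p4_2, P2p4_6, P2p5_0, P2p5_1, P2p5_2, P2p5_4,
  P2p5_6, P2p7_6, P2p8_6, P2p8_7, P2p9_6, P2p9_7, P2p9_8]⟩)) (.node 339 (.leaf ⟨35989508370,
  81151622338966933430344802,
  6799385587178478321462565395321127096207294966591171928949778774877757295862676717580, 549153,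
  [P2p0_2, P2p0_3, P2p1_0, P2p1_2, P2p1_3, P2p2_3, P2p5_4, P2p6_4, P2p6_5, P2p8_7, P2p9_7, P2p9_8]⟩)
  (.leaf ⟨35991607432, 200946177958579611244793923,
  6799385587178478537145429791857703059708055266613661864851753233501155359008800441217, 549185,
  [P2p1_0, P2p1_3, P2p1_7, P2p1_8, P2p1_9, P2p2_0, P2p2_3, P2p2_7, P2p2_8, P2p2_9, P2p4_3, P2p5_3,
  P2p5_4, P2p6_3, P2p6_4, P2p6_5, P2p8_7, P2p9_7, P2p9_8]⟩))) (.node 342 (.node 341 (.leaf
  ⟨35991869572, 81149185137293894424301728,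
  6799385587178478725867936138827204569670880762009208326319516185107340781667740484495, 549185,
  [P2p1_0, P2p2_3, P2p4_0, P2p4_1, P2p4_2, P2p4_3, P2p5_0, P2p5_1, P2p5_2, P2p5_3, P2p5_4, P2p6_0,
  P2p6_1, P2p6_2, P2p6_3, P2p6_4, P2p6_5, P2p8_7, P2p9_7, P2p9_8]⟩) (.leaf ⟨35996063876,
  81149184849063518272589984,
  6799385587178478510185071742291300372263941338567453036760831317024035819792158360455, 549249,
  [P2p1_0, P2p3_0, P2p3_1, P2p3_2, P2p4_0, P2p4_1, P2p4_2, P2p5_0, P2p5_1, P2p5_2, P2p5_4, P2p6_0,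
  P2p6_1, P2p6_2, P2p6_4, P2p6_5, P2p8_7, P2p9_7, P2p9_8]⟩)) (.node 343 (.leaf ⟨35572437572,
  240883193225185935332802592,
  6799385587178477027780052491865172373521363573972654875227435345276617749846884811663, 542785,
  [P2p1_0, P2p2_3, P2p4_6, P2p4_7, P2p4_8, P2p4_9, P2p5_4, P2p5_6, P2p5_7, P2p5_8, P2p5_9, P2p8_7,
  P2p9_7, P2p9_8]⟩) (.leaf ⟨35577287236, 440550751116206806273333472,
  6799385587178477027780052491957123509036230886715186556111803931359297968441533662159, 542873,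
  [P2p0_1, P2p0_2, P2p0_3, P2p0_6, P2p0_7, P2p0_8, P2p0_9, P2p1_2, P2p1_3, P2p1_6, P2p1_7, P2p1_8,
  P2p1_9, P2p2_3, P2p2_6, P2p2_7, P2p2_8, P2p2_9, P2p3_6, P2p3_7, P2p3_8, P2p3_9, P2p4_6, P2p4_7,
  P2p4_8, P2p4_9, P2p5_4, P2p5_6, P2p5_7, P2p5_8, P2p5_9, P2p8_7, P2p9_7, P2p9_8]⟩)))) (.node 348
  (.node 346 (.node 345 (.leaf ⟨35569291876, 240883193227583008120310816,
  6799385587178477027786223228112323386471009196722721106064372514375225879044662690703, 542737,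
  [P2p1_0, P2p2_0, P2p2_1, P2p3_0, P2p3_1, P2p3_2, P2p4_0, P2p4_1, P2p4_2, P2p4_3, P2p4_6, P2p4_7,
  P2p4_8, P2p4_9, P2p5_0, P2p5_1, P2p5_2, P2p5_3, P2p5_4, P2p5_6, P2p5_7, P2p5_8, P2p5_9, P2p8_7,
  P2p9_7, P2p9_8]⟩) (.leaf ⟨35568898660, 240883193301781110779352192,
  6799385587178477027784989080862739928481134122624749382778607440196529887715638641551, 542745,
  [P2p0_1, P2p0_2, P2p0_3, P2p1_2, P2p1_3, P2p3_2, P2p4_2, P2p4_3, P2p4_6, P2p4_7, P2p4_8, P2p4_9,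
  P2p5_2, P2p5_3, P2p5_4, P2p5_6, P2p5_7, P2p5_8, P2p5_9, P2p8_7, P2p9_7, P2p9_8]⟩)) (.node 347
  (.leaf ⟨35577680452, 280816704684560919488989280,
  6799385587178477027780052491957410856313038400352225749594840056426946759036737094531, 542865,
  [P2p1_0, P2p2_0, P2p2_1, P2p2_3, P2p2_6, P2p2_7, P2p2_8, P2p2_9, P2p3_0, P2p3_1, P2p3_6, P2p3_7,
  P2p3_8, P2p3_9, P2p4_6, P2p4_7, P2p4_8, P2p4_9, P2p5_4, P2p5_6, P2p5_7, P2p5_8, P2p5_9, P2p8_7,
  P2p9_7, P2p9_8]⟩) (.leaf ⟨35576631876, 240883193082232965407245376,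
  6799385587178477027780052491957792561080254227240875883066221209085129951369987818375, 542849,
  [P2p1_0, P2p3_0, P2p3_1, P2p3_2, P2p3_6, P2p3_7, P2p3_8, P2p3_9, P2p4_6, P2p4_7, P2p4_8, P2p4_9,
  P2p5_4, P2p5_6, P2p5_7, P2p5_8, P2p5_9, P2p8_7, P2p9_7, P2p9_8]⟩))) (.node 350 (.node 349 (.leaf
  ⟨35574272584, 320750216368932129132907587,
  6799385587178477027780052491865555485735931392194674100476521965347573831368579023745, 542817,
  [P2p1_0, P2p1_2, P2p1_3, P2p1_6, P2p1_7, P2p1_8, P2p1_9, P2p3_2, P2p4_6, P2p4_7, P2p4_8, P2p4_9,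
  P2p5_4, P2p5_6, P2p5_7, P2p5_8, P2p5_9, P2p8_7, P2p9_7, P2p9_8]⟩) (.leaf ⟨10272397380,
  78582576499247174472892448,
  3885426714359089096194520985522975478581417463478927194577419124393987975086387167247, 156737,
  [P2p1_0, P2p2_3, P2p4_5, P2p4_6, P2p5_6, P2p7_8, P2p7_9, P2p8_9]⟩)) (.node 351 (.leaf
  ⟨10071069252, 318174203496723074900918304,
  3885426714359114546733026763560425634525124145343979981232310102155994242363696283663, 153665,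
  [P2p1_0, P2p2_3, P2p4_7, P2p4_8, P2p4_9, P2p5_4, P2p5_7, P2p5_8, P2p5_9, P2p6_4, P2p6_5, P2p6_7,
  P2p6_8, P2p6_9, P2p7_8, P2p7_9, P2p8_9]⟩) (.leaf ⟨10071070788, 78587529450030965487599648,
  4735357323619728309448545420563004367755868114090998492779181905302978831944713699455, 153665,
  [P2p1_0, P2p2_3, P2p5_4, P2p6_4, P2p6_5, P2p7_4, P2p7_5, P2p7_6, P2p7_8, P2p7_9, P2p8_4, P2p8_5,
  P2p8_6, P2p8_9, P2p9_4, P2p9_5, P2p9_6]⟩)))))) (.node 368 (.node 360 (.node 356 (.node 354 (.node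
  353 (.leaf ⟨6849848388, 121082734717278969552568451,
  6799385587178478321462565395321127096207361864743316810443192133973944930027048992783, 104513,
  [P2p1_0, P2p2_3, P2p5_4, P2p6_4, P2p6_5, P2p8_7, P2p9_7, P2p9_8]⟩) (.leaf ⟨7050908040,
  1294193840489247707142211,
  7710025525672017655115226746271759253405939301912636252590105703828117689334592241665, 107585,
  [P2p1_0, P2p1_3, P2p2_0, P2p2_3, P2p4_5, P2p4_6, P2p5_6, P2p7_3, P2p7_4, P2p7_5, P2p7_6, P2p8_3,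
  P2p8_4, P2p8_5, P2p8_6, P2p8_7, P2p9_3, P2p9_4, P2p9_5, P2p9_6, P2p9_7, P2p9_8]⟩)) (.node 355
  (.leaf ⟨7050912840, 240880867779095063774235718,
  6799385587178501210846042491043470936397648538309800699116861532443049887000043257857, 107585,
  [P2p1_0, P2p1_3, P2p2_0, P2p2_3, P2p4_0, P2p4_5, P2p4_6, P2p4_7, P2p4_8, P2p4_9, P2p5_0, P2p5_6,
  P2p5_7, P2p5_8, P2p5_9, P2p6_0, P2p6_7, P2p6_8, P2p6_9, P2p8_7, P2p9_7, P2p9_8]⟩) (.leaf
  ⟨7051174980, 240880868005657234338087142,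
  6799385587178501588291055184982476576835565006842662112988520723279544133707807784975, 107585,
  [P2p1_0, P2p2_3, P2p4_0, P2p4_1, P2p4_2, P2p4_3, P2p4_5, P2p4_6, P2p4_7, P2p4_8, P2p4_9, P2p5_0,
  P2p5_1, P2p5_2, P2p5_3, P2p5_6, P2p5_7, P2p5_8, P2p5_9, P2p6_0, P2p6_1, P2p6_2, P2p6_3, P2p6_7,
  P2p6_8, P2p6_9, P2p8_7, P2p9_7, P2p9_8]⟩))) (.node 358 (.node 357 (.leaf ⟨7051170180,
  1294193958965130293319904,
  7763146188750807525064997438090442990368630180836682569554077694813077644518177570831, 107585,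
  [P2p1_0, P2p2_3, P2p4_5, P2p4_6, P2p5_6, P2p7_0, P2p7_1, P2p7_2, P2p7_3, P2p7_4, P2p7_5, P2p7_6,
  P2p8_0, P2p8_1, P2p8_2, P2p8_3, P2p8_4, P2p8_5, P2p8_6, P2p8_7, P2p9_0, P2p9_1, P2p9_2, P2p9_3,
  P2p9_4, P2p9_5, P2p9_6, P2p9_7, P2p9_8]⟩) (.leaf ⟨6847489176, 360684032271569493206143145,
  6799385587178478321462565395417771570930803944512320602489261182400706595204982964225, 104481,
  [P2p1_0, P2p1_2, P2p1_3, P2p1_4, P2p1_5, P2p1_6, P2p1_7, P2p1_8, P2p1_9, P2p2_0, P2p2_3, P2p2_4,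
  P2p2_5, P2p2_6, P2p2_7, P2p2_8, P2p2_9, P2p3_0, P2p3_4, P2p3_5, P2p3_6, P2p3_7, P2p3_8, P2p3_9,
  P2p5_4, P2p6_4, P2p6_5, P2p8_7, P2p9_7, P2p9_8]⟩)) (.node 359 (.leaf ⟨7048810904,
  1294193698625965745410214,
  7649316196439114946601203098489801251512293560944826476056689855048086115069307453441, 107553,
  [P2p1_0, P2p1_2, P2p1_3, P2p1_4, P2p1_5, P2p1_6, P2p2_0, P2p2_3, P2p2_4, P2p2_5, P2p2_6, P2p3_0,
  P2p3_4, P2p3_5, P2p3_6, P2p4_5, P2p4_6, P2p5_6, P2p7_4, P2p7_5, P2p7_6, P2p8_4, P2p8_5, P2p8_6,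
  P2p8_7, P2p9_4, P2p9_5, P2p9_6, P2p9_7, P2p9_8]⟩) (.leaf ⟨7048815768, 480482165448374815563092140,
  6799385587178501210846042491140115409659722782496833822439798455175597311416994955265, 107553,
  [P2p1_0, P2p1_2, P2p1_3, P2p1_4, P2p1_5, P2p1_6, P2p1_7, P2p1_8, P2p1_9, P2p2_0, P2p2_3, P2p2_4,
  P2p2_5, P2p2_6, P2p2_7, P2p2_8, P2p2_9, P2p3_0, P2p3_4, P2p3_5, P2p3_6, P2p3_7, P2p3_8, P2p3_9,
  P2p4_0, P2p4_5, P2p4_6, P2p4_7, P2p4_8, P2p4_9, P2p5_0, P2p5_6, P2p5_7, P2p5_8, P2p5_9, P2p6_0,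
  P2p6_7, P2p6_8, P2p6_9, P2p8_7, P2p9_7, P2p9_8]⟩)))) (.node 364 (.node 362 (.node 361 (.leaf
  ⟨10270038168, 78589888290236318776201382,
  3885426714359089096194520985533798893490920946099964644214992678411750708180399751169, 156705,
  [P2p1_0, P2p1_2, P2p1_3, P2p1_4, P2p1_5, P2p1_6, P2p2_0, P2p2_3, P2p2_4, P2p2_5, P2p2_6, P2p3_0,
  P2p3_4, P2p3_5, P2p3_6, P2p4_5, P2p4_6, P2p5_6, P2p7_8, P2p7_9, P2p8_9]⟩) (.leaf ⟨10067530340,
  318174203573318250347467904,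
  3885426714359114870257323358365670725489075738231642572429215267562776153750651011087, 153625,
  [P2p0_1, P2p0_2, P2p0_3, P2p1_2, P2p1_3, P2p3_2, P2p4_2, P2p4_3, P2p4_7, P2p4_8, P2p4_9, P2p5_2,
  P2p5_3, P2p5_4, P2p5_7, P2p5_8, P2p5_9, P2p6_2, P2p6_3, P2p6_4, P2p6_5, P2p6_7, P2p6_8, P2p6_9,
  P2p7_8, P2p7_9, P2p8_9]⟩)) (.node 363 (.leaf ⟨10067923556, 318174203536311162857689120,
  3885426714359114951138397507067173567479996073388506316626413609363189588390505807887, 153617,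
  [P2p1_0, P2p2_0, P2p2_1, P2p3_0, P2p3_1, P2p3_2, P2p4_0, P2p4_1, P2p4_2, P2p4_3, P2p4_7, P2p4_8,
  P2p4_9, P2p5_0, P2p5_1, P2p5_2, P2p5_3, P2p5_4, P2p5_7, P2p5_8, P2p5_9, P2p6_0, P2p6_1, P2p6_2,
  P2p6_3, P2p6_4, P2p6_5, P2p6_7, P2p6_8, P2p6_9, P2p7_8, P2p7_9, P2p8_9]⟩) (.leaf ⟨10076312132,
  318174203385331620610410592,
  3885426714359114546733026763646534041617230627112330702455284282729735037085131407363, 153745,
  [P2p1_0, P2p2_0, P2p2_1, P2p2_3, P2p2_7, P2p2_8, P2p2_9, P2p3_0, P2p3_1, P2p3_7, P2p3_8, P2p3_9,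
  P2p4_7, P2p4_8, P2p4_9, P2p5_4, P2p5_7, P2p5_8, P2p5_9, P2p6_4, P2p6_5, P2p6_7, P2p6_8, P2p6_9,
  P2p7_8, P2p7_9, P2p8_9]⟩))) (.node 366 (.node 365 (.leaf ⟨10075918916,
  477903527450494637749541088,
  3885426714359114546733026763646246694338995844004181759152181981068435923955309609871, 153753,
  [P2p0_1, P2p0_2, P2p0_3, P2p0_7, P2p0_8, P2p0_9, P2p1_2, P2p1_3, P2p1_7, P2p1_8, P2p1_9, P2p2_3,
  P2p2_7, P2p2_8, P2p2_9, P2p3_7, P2p3_8, P2p3_9, P2p4_7, P2p4_8, P2p4_9, P2p5_4, P2p5_7, P2p5_8,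
  P2p5_9, P2p6_4, P2p6_5, P2p6_7, P2p6_8, P2p6_9, P2p7_8, P2p7_9, P2p8_9]⟩) (.leaf ⟨10068711576,
  78592403964959370916303014,
  4735357323619728309448545420573827782665371596712035942416755459320741565038733623409, 153633,
  [P2p1_0, P2p1_2, P2p1_3, P2p1_4, P2p1_5, P2p1_6, P2p2_0, P2p2_3, P2p2_4, P2p2_5, P2p2_6, P2p3_0,
  P2p3_4, P2p3_5, P2p3_6, P2p5_4, P2p6_4, P2p6_5, P2p7_4, P2p7_5, P2p7_6, P2p7_8, P2p7_9, P2p8_4,
  P2p8_5, P2p8_6, P2p8_9, P2p9_4, P2p9_5, P2p9_6]⟩)) (.node 367 (.leaf ⟨6855091268,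
  121082734494350787997730947,
  6799385587178478321462565395321414443505511521954585386693386428973082366633505390595, 104593,
  [P2p1_0, P2p2_0, P2p2_1, P2p2_3, P2p3_0, P2p3_1, P2p5_4, P2p6_4, P2p6_5, P2p8_7, P2p9_7, P2p9_8]⟩)
  (.leaf ⟨7056417860, 240880867671264962005829862,
  6799385587178501264766758590177901945362899546241217475586036746966645723912481210371, 107665,
  [P2p1_0, P2p2_0, P2p2_1, P2p2_3, P2p3_0, P2p3_1, P2p4_0, P2p4_1, P2p4_5, P2p4_6, P2p4_7, P2p4_8,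
  P2p4_9, P2p5_0, P2p5_1, P2p5_6, P2p5_7, P2p5_8, P2p5_9, P2p6_0, P2p6_1, P2p6_7, P2p6_8, P2p6_9,
  P2p8_7, P2p9_7, P2p9_8]⟩))))) (.node 376 (.node 372 (.node 370 (.node 369 (.leaf ⟨7056413060,
  1294193624572857961060576,
  7672082194901453462293961966401558214654107756037636312247055332288405246805379579907, 107665,
  [P2p1_0, P2p2_0, P2p2_1, P2p2_3, P2p3_0, P2p3_1, P2p4_5, P2p4_6, P2p5_6, P2p7_0, P2p7_1, P2p7_4,
  P2p7_5, P2p7_6, P2p8_0, P2p8_1, P2p8_4, P2p8_5, P2p8_6, P2p8_7, P2p9_0, P2p9_1, P2p9_4, P2p9_5,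
  P2p9_6, P2p9_7, P2p9_8]⟩) (.leaf ⟨10277640260, 78582576387855720182384736,
  3885426714359089096194520985523262825879567120690195771778365876895493767249982062595, 156817,
  [P2p1_0, P2p2_0, P2p2_1, P2p2_3, P2p3_0, P2p3_1, P2p4_5, P2p4_6, P2p5_6, P2p7_8, P2p7_9,
  P2p8_9]⟩)) (.node 371 (.leaf ⟨10076313668, 78587529338639511197091936,
  4735357323619728309448545420563291715054017771302267069980128657804484624108308594803, 153745,
  [P2p1_0, P2p2_0, P2p2_1, P2p2_3, P2p3_0, P2p3_1, P2p5_4, P2p6_4, P2p6_5, P2p7_4, P2p7_5, P2p7_6,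
  P2p7_8, P2p7_9, P2p8_4, P2p8_5, P2p8_6, P2p8_9, P2p9_4, P2p9_5, P2p9_6]⟩) (.leaf ⟨10276329544,
  78582576352876924624965732,
  3885426714359089096194520985523454373207114381998064321873628266944070616345032589313, 156801,
  [P2p1_0, P2p2_0, P2p3_0, P2p3_2, P2p4_5, P2p4_6, P2p5_6, P2p7_8, P2p7_9, P2p8_9]⟩))) (.node 374
  (.node 373 (.leaf ⟨10075263556, 318174203353770104975361088,
  3885426714359114546733026763646915839920551243178767600962494729230031487398064881671, 153729,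
  [P2p1_0, P2p3_0, P2p3_1, P2p3_2, P2p3_7, P2p3_8, P2p3_9, P2p4_7, P2p4_8, P2p4_9, P2p5_4, P2p5_7,
  P2p5_8, P2p5_9, P2p6_4, P2p6_5, P2p6_7, P2p6_8, P2p6_9, P2p7_8, P2p7_9, P2p8_9]⟩) (.leaf
  ⟨10075920452, 78587529487219644194658528,
  4735357323619728309448545420563004367755801215598581629196099883832080995493829673087, 153753,
  [P2p0_1, P2p0_2, P2p0_3, P2p1_2, P2p1_3, P2p2_3, P2p5_4, P2p6_4, P2p6_5, P2p7_4, P2p7_5, P2p7_6,
  P2p7_8, P2p7_9, P2p8_4, P2p8_5, P2p8_6, P2p8_9, P2p9_4, P2p9_5, P2p9_6]⟩)) (.node 375 (.leaf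
  ⟨10075265092, 78587529307077995562042432,
  4735357323619728309448545420563674822862805435857718678988949218094366686136800575607, 153729,
  [P2p1_0, P2p3_0, P2p3_1, P2p3_2, P2p5_4, P2p6_4, P2p6_5, P2p7_4, P2p7_5, P2p7_6, P2p7_8, P2p7_9,
  P2p8_4, P2p8_5, P2p8_6, P2p8_9, P2p9_4, P2p9_5, P2p9_6]⟩) (.leaf ⟨6853780552,
  121082734459335671980134500,
  6799385587178478321462565395321605990833058783262453936630190076104597823135699501057, 104577,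
  [P2p1_0, P2p2_0, P2p3_0, P2p3_2, P2p5_4, P2p6_4, P2p6_5, P2p8_7, P2p9_7, P2p9_8]⟩)))) (.node 380
  (.node 378 (.node 377 (.leaf ⟨7055102344, 1294193589448788286806116,
  7649316196439114946601203098479456731228486996842926153715325443580437548431331885057, 107649,
  [P2p1_0, P2p2_0, P2p3_0, P2p3_2, P2p4_5, P2p4_6, P2p5_6, P2p7_4, P2p7_5, P2p7_6, P2p8_4, P2p8_5,
  P2p8_6, P2p8_7, P2p9_4, P2p9_5, P2p9_6, P2p9_7, P2p9_8]⟩) (.leaf ⟨7055107144,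
  240880867636140959977345126,
  6799385587178501210846042491043949829561977621246967156580727348879488539347711492097, 107649,
  [P2p1_0, P2p2_0, P2p3_0, P2p3_2, P2p4_0, P2p4_5, P2p4_6, P2p4_7, P2p4_8, P2p4_9, P2p5_0, P2p5_6,
  P2p5_7, P2p5_8, P2p5_9, P2p6_0, P2p6_7, P2p6_8, P2p6_9, P2p8_7, P2p9_7, P2p9_8]⟩)) (.node 379
  (.leaf ⟨6854042692, 121082734465077390419821699,
  6799385587178478321462565395321797551314299186510036996019124475097087213847710203911, 104577,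
  [P2p1_0, P2p3_0, P2p3_1, P2p3_2, P2p5_4, P2p6_4, P2p6_5, P2p8_7, P2p9_7, P2p9_8]⟩) (.leaf
  ⟨7055369284, 240880867645369264148448486,
  6799385587178501372608190788446572379428625583400906822796000883527995853260613681159, 107649,
  [P2p1_0, P2p3_0, P2p3_1, P2p3_2, P2p4_0, P2p4_1, P2p4_2, P2p4_5, P2p4_6, P2p4_7, P2p4_8, P2p4_9,
  P2p5_0, P2p5_1, P2p5_2, P2p5_6, P2p5_7, P2p5_8, P2p5_9, P2p6_0, P2p6_1, P2p6_2, P2p6_7, P2p6_8,
  P2p6_9, P2p8_7, P2p9_7, P2p9_8]⟩))) (.node 382 (.node 381 (.leaf ⟨7055364484,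
  1294193598677160103680224,
  7702436859517904816550973790298332030133786114596526199425198930920346705459335856135, 107649,
  [P2p1_0, P2p3_0, P2p3_1, P2p3_2, P2p4_5, P2p4_6, P2p5_6, P2p7_0, P2p7_1, P2p7_2, P2p7_4, P2p7_5,
  P2p7_6, P2p8_0, P2p8_1, P2p8_2, P2p8_4, P2p8_5, P2p8_6, P2p8_7, P2p9_0, P2p9_1, P2p9_2, P2p9_4,
  P2p9_5, P2p9_6, P2p9_7, P2p9_8]⟩) (.leaf ⟨10276591684, 78582576356294204547335232,
  3885426714359089096194520985523645933688354785245647380787186437185375829278474043399, 156801,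
  [P2p1_0, P2p3_0, P2p3_1, P2p3_2, P2p4_5, P2p4_6, P2p5_6, P2p7_8, P2p7_9, P2p8_9]⟩)) (.node 383
  (.leaf ⟨10274232392, 78582576501460492487986243,
  3885426714359089096194520985523358590774576239639284777509706530083578495064794267649, 156769,
  [P2p1_0, P2p1_2, P2p1_3, P2p3_2, P2p4_5, P2p4_6, P2p5_6, P2p7_8, P2p7_9, P2p8_9]⟩) (.leaf
  ⟨10072905800, 78588748090274652939947075,
  4735357323619728309448545420563387479951524611825216600648429219337062000769837629553, 153697,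
  [P2p1_0, P2p1_2, P2p1_3, P2p1_4, P2p1_5, P2p1_6, P2p3_2, P2p5_4, P2p6_4, P2p6_5, P2p7_4, P2p7_5,
  P2p7_6, P2p7_8, P2p7_9, P2p8_4, P2p8_5, P2p8_6, P2p8_9, P2p9_4, P2p9_5, P2p9_6]⟩))))))

def P2T7 : Tr :=
  .node 416 (.node 400 (.node 392 (.node 388 (.node 386 (.node 385 (.leaf ⟨10072904264,
  358106534478082112843025475,
  3885426714359114546733026763560808746738264694095221763660276774601525953115838021633, 153697,
  [P2p1_0, P2p1_2, P2p1_3, P2p1_7, P2p1_8, P2p1_9, P2p3_2, P2p4_7, P2p4_8, P2p4_9, P2p5_4, P2p5_7,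
  P2p5_8, P2p5_9, P2p6_4, P2p6_5, P2p6_7, P2p6_8, P2p6_9, P2p7_8, P2p7_9, P2p8_9]⟩) (.leaf
  ⟨6851683400, 121082734607919240951499843,
  6799385587178478321462565395321510208400520640903674392266268339244105701855461179393, 104545,
  [P2p1_0, P2p1_2, P2p1_3, P2p3_2, P2p5_4, P2p6_4, P2p6_5, P2p8_7, P2p9_7, P2p9_8]⟩)) (.node 387
  (.leaf ⟨7053009992, 240880867784724563308448838,
  6799385587178501210846042491043854047129439478888187612216805612018996418067473170433, 107617,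
  [P2p1_0, P2p1_2, P2p1_3, P2p3_2, P2p4_0, P2p4_5, P2p4_6, P2p4_7, P2p4_8, P2p4_9, P2p5_0, P2p5_6,
  P2p5_7, P2p5_8, P2p5_9, P2p6_0, P2p6_7, P2p6_8, P2p6_9, P2p8_7, P2p9_7, P2p9_8]⟩) (.leaf
  ⟨7053005192, 1294193849496446961883203,
  7740380190288469009372238570168533071808620936494461443859372821746123617027486449665, 107617,
  [P2p1_0, P2p1_2, P2p1_3, P2p3_2, P2p4_5, P2p4_6, P2p5_6, P2p7_2, P2p7_3, P2p7_4, P2p7_5, P2p7_6,
  P2p8_2, P2p8_3, P2p8_4, P2p8_5, P2p8_6, P2p8_7, P2p9_2, P2p9_3, P2p9_4, P2p9_5, P2p9_6, P2p9_7,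
  P2p9_8]⟩))) (.node 390 (.node 389 (.leaf ⟨6846702692, 121082734682485027170817155,
  6799385587178478725867936138827875029162233792787843145837295641181140279902149214223, 104465,
  [P2p1_0, P2p2_0, P2p2_1, P2p3_0, P2p3_1, P2p3_2, P2p4_0, P2p4_1, P2p4_2, P2p4_3, P2p5_0, P2p5_1,
  P2p5_2, P2p5_3, P2p5_4, P2p6_0, P2p6_1, P2p6_2, P2p6_3, P2p6_4, P2p6_5, P2p8_7, P2p9_7, P2p9_8]⟩)
  (.leaf ⟨7048029284, 240880867970863291956338918,
  6799385587178501588291055184983147036326918037621296931316776391346694675580679290895, 107537,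
  [P2p1_0, P2p2_0, P2p2_1, P2p3_0, P2p3_1, P2p3_2, P2p4_0, P2p4_1, P2p4_2, P2p4_3, P2p4_5, P2p4_6,
  P2p4_7, P2p4_8, P2p4_9, P2p5_0, P2p5_1, P2p5_2, P2p5_3, P2p5_6, P2p5_7, P2p5_8, P2p5_9, P2p6_0,
  P2p6_1, P2p6_2, P2p6_3, P2p6_7, P2p6_8, P2p6_9, P2p8_7, P2p9_7, P2p9_8]⟩)) (.node 391 (.leaf
  ⟨7052824964, 1294193849789167236716972,
  7763146188750807525064997438091113449859983211615317387882333362880223964266397433856, 107622,
  [P2p1_0, P2p2_0, P2p2_1, P2p3_0, P2p3_1, P2p3_2, P2p4_5, P2p4_6, P2p5_6, P2p7_0, P2p7_1, P2p7_2,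
  P2p7_3, P2p7_4, P2p7_5, P2p7_6, P2p8_0, P2p8_1, P2p8_2, P2p8_3, P2p8_4, P2p8_5, P2p8_6, P2p8_7,
  P2p9_0, P2p9_1, P2p9_2, P2p9_3, P2p9_4, P2p9_5, P2p9_6, P2p9_7, P2p9_8]⟩) (.leaf ⟨7047582104,
  1294193592866072573412422,
  7649316196439114946601203098490375760495788622099017641818935778107073935701094891520, 107542,
  [P2p1_0, P2p3_0, P2p3_1, P2p3_2, P2p3_4, P2p3_5, P2p3_6, P2p4_5, P2p4_6, P2p5_6, P2p7_4, P2p7_5,
  P2p7_6, P2p8_4, P2p8_5, P2p8_6, P2p8_7, P2p9_4, P2p9_5, P2p9_6, P2p9_7, P2p9_8]⟩)))) (.node 396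
  (.node 394 (.node 393 (.leaf ⟨10269251684, 78582576650408307937451040,
  3999256706670782079063686068641188565302129494036347074294906463097866904085487091727, 156689,
  [P2p1_0, P2p2_0, P2p2_1, P2p3_0, P2p3_1, P2p3_2, P2p4_0, P2p4_1, P2p4_2, P2p4_3, P2p4_5, P2p4_6,
  P2p5_0, P2p5_1, P2p5_2, P2p5_3, P2p5_6, P2p6_0, P2p6_1, P2p6_2, P2p6_3, P2p7_0, P2p7_1, P2p7_2,
  P2p7_3, P2p7_8, P2p7_9, P2p8_0, P2p8_1, P2p8_2, P2p8_3, P2p8_9, P2p9_0, P2p9_1, P2p9_2, P2p9_3]⟩)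
  (.leaf ⟨10067925092, 78587529712765144459946016,
  4849187315931421292317710503681217454476580144648418372496669244006857760943813623935, 153617,
  [P2p1_0, P2p2_0, P2p2_1, P2p3_0, P2p3_1, P2p3_2, P2p4_0, P2p4_1, P2p4_2, P2p4_3, P2p5_0, P2p5_1,
  P2p5_2, P2p5_3, P2p5_4, P2p6_0, P2p6_1, P2p6_2, P2p6_3, P2p6_4, P2p6_5, P2p7_0, P2p7_1, P2p7_2,
  P2p7_3, P2p7_4, P2p7_5, P2p7_6, P2p7_8, P2p7_9, P2p8_0, P2p8_1, P2p8_2, P2p8_3, P2p8_4, P2p8_5,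
  P2p8_6, P2p8_9, P2p9_0, P2p9_1, P2p9_2, P2p9_3, P2p9_4, P2p9_5, P2p9_6]⟩)) (.node 395 (.leaf
  ⟨7048635492, 240880867959241110453362918,
  6799385587178501399568548838012973760270338566519461176997383806408260836614738542600, 107558,
  [P2p0_3, P2p1_0, P2p1_3, P2p2_0, P2p2_1, P2p2_3, P2p4_3, P2p4_5, P2p4_6, P2p4_7, P2p4_8, P2p4_9,
  P2p5_3, P2p5_6, P2p5_7, P2p5_8, P2p5_9, P2p6_3, P2p6_7, P2p6_8, P2p6_9, P2p8_7, P2p9_7, P2p9_8]⟩)
  (.leaf ⟨7048630680, 1294193624427589282203751,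
  7649316196439114946601203098489992816375184338604692871622816482040890075137047724032, 107558,
  [P2p1_0, P2p2_0, P2p2_1, P2p2_3, P2p2_4, P2p2_5, P2p2_6, P2p3_0, P2p3_1, P2p3_4, P2p3_5, P2p3_6,
  P2p4_5, P2p4_6, P2p5_6, P2p7_4, P2p7_5, P2p7_6, P2p8_4, P2p8_5, P2p8_6, P2p8_7, P2p9_4, P2p9_5,
  P2p9_6, P2p9_7, P2p9_8]⟩))) (.node 398 (.node 397 (.leaf ⟨6749185092, 121086312232707764598636675,
  6799385587178477027404872029380038021817850646227517309856028628240222989639681507343, 102977,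
  [P2p1_0, P2p2_3, P2p4_5, P2p4_6, P2p5_6, P2p8_7, P2p9_7, P2p9_8]⟩) (.leaf ⟨9970407492,
  78591106965459760533667872,
  4735357323619727015390852054621915293366356895575198992192018399569256891557346214015, 152129,
  [P2p1_0, P2p2_3, P2p4_5, P2p4_6, P2p5_6, P2p7_4, P2p7_5, P2p7_6, P2p7_8, P2p7_9, P2p8_4, P2p8_5,
  P2p8_6, P2p8_9, P2p9_4, P2p9_5, P2p9_6]⟩)) (.node 399 (.leaf ⟨9970405956,
  358111330629327960419631136,
  3885426714359113252675333397619336560135612926828180480645146596422272301976328798223, 152129,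
  [P2p1_0, P2p2_3, P2p4_5, P2p4_6, P2p4_7, P2p4_8, P2p4_9, P2p5_6, P2p5_7, P2p5_8, P2p5_9, P2p6_7,
  P2p6_8, P2p6_9, P2p7_8, P2p7_9, P2p8_9]⟩) (.leaf ⟨6746821144, 1286881870443784587842759,
  6799385587178477054365230078947205635814846397356118328846987967244684330990999502849, 102945,
  [P2p1_0, P2p1_2, P2p1_3, P2p2_0, P2p2_3, P2p3_0, P2p4_0, P2p4_5, P2p4_6, P2p5_0, P2p5_6, P2p6_0,
  P2p8_7, P2p9_7, P2p9_8]⟩))))) (.node 408 (.node 404 (.node 402 (.node 401 (.leaf ⟨9975257156,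
  78592325640678808678013152,
  4735357323619727015390852054632642925843032321726859458796805615646276494861774356607, 152217,
  [P2p0_1, P2p0_2, P2p0_3, P2p0_4, P2p0_5, P2p0_6, P2p1_2, P2p1_3, P2p1_4, P2p1_5, P2p1_6, P2p2_3,
  P2p2_4, P2p2_5, P2p2_6, P2p3_4, P2p3_5, P2p3_6, P2p4_5, P2p4_6, P2p5_6, P2p7_4, P2p7_5, P2p7_6,
  P2p7_8, P2p7_9, P2p8_4, P2p8_5, P2p8_6, P2p8_9, P2p9_4, P2p9_5, P2p9_6]⟩) (.leaf ⟨9975650372,
  78591106854068306243160160,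
  4735357323619727015390852054632930273138751155856102837395718580579792059040671137907, 152209,
  [P2p1_0, P2p2_0, P2p2_1, P2p2_3, P2p2_4, P2p2_5, P2p2_6, P2p3_0, P2p3_1, P2p3_4, P2p3_5, P2p3_6,
  P2p4_5, P2p4_6, P2p5_6, P2p7_4, P2p7_5, P2p7_6, P2p7_8, P2p7_9, P2p8_4, P2p8_5, P2p8_6, P2p8_9,
  P2p9_4, P2p9_5, P2p9_6]⟩)) (.node 403 (.leaf ⟨9966868580, 78591107116364329831832704,
  4826421317469081078161887526311470528572165452660463205194952358861349823208972091519, 152089,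
  [P2p0_1, P2p0_2, P2p0_3, P2p1_2, P2p1_3, P2p3_2, P2p4_5, P2p4_6, P2p5_6, P2p7_2, P2p7_3, P2p7_4,
  P2p7_5, P2p7_6, P2p7_8, P2p7_9, P2p8_2, P2p8_3, P2p8_4, P2p8_5, P2p8_6, P2p8_9, P2p9_2, P2p9_3,
  P2p9_4, P2p9_5, P2p9_6]⟩) (.leaf ⟨9967261796, 78591107116620893998226464,
  4849187315931419593854646394234050906623550028866727354843657899133091012073181085823, 152081,
  [P2p1_0, P2p2_0, P2p2_1, P2p3_0, P2p3_1, P2p3_2, P2p4_5, P2p4_6, P2p5_6, P2p7_0, P2p7_1, P2p7_2,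
  P2p7_3, P2p7_4, P2p7_5, P2p7_6, P2p7_8, P2p7_9, P2p8_0, P2p8_1, P2p8_2, P2p8_3, P2p8_4, P2p8_5,
  P2p8_6, P2p8_9, P2p9_0, P2p9_1, P2p9_2, P2p9_3, P2p9_4, P2p9_5, P2p9_6]⟩))) (.node 406 (.node 405
  (.leaf ⟨9968046616, 278244231357782737080685767,
  3885426714359113279635691447186504174132608677956781571814063336213981100201790734337, 152097,
  [P2p1_0, P2p1_2, P2p1_3, P2p2_0, P2p2_3, P2p3_0, P2p4_0, P2p4_5, P2p4_6, P2p4_7, P2p4_8, P2p4_9,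
  P2p5_0, P2p5_6, P2p5_7, P2p5_8, P2p5_9, P2p6_0, P2p6_7, P2p6_8, P2p6_9, P2p7_8, P2p7_9, P2p8_9]⟩)
  (.leaf ⟨6746034724, 1286881872842881378682912,
  6799385587178477027404872029380708481309203677006152056006326895519838121407907037199, 102929,
  [P2p1_0, P2p2_0, P2p2_1, P2p3_0, P2p3_1, P2p3_2, P2p4_5, P2p4_6, P2p5_6, P2p8_7, P2p9_7,
  P2p9_8]⟩)) (.node 407 (.leaf ⟨9967260196, 278244231360181837092751392,
  3885426714359113252675333397620007019626965957606815298973402264489134890618698268687, 152081,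
  [P2p1_0, P2p2_0, P2p2_1, P2p3_0, P2p3_1, P2p3_2, P2p4_5, P2p4_6, P2p4_7, P2p4_8, P2p4_9, P2p5_6,
  P2p5_7, P2p5_8, P2p5_9, P2p6_7, P2p6_8, P2p6_9, P2p7_8, P2p7_9, P2p8_9]⟩) (.leaf ⟨9974601796,
  78591106822506790608110656,
  4735357323619727015390852054633313217259355439350427607591837876645975919604718305399, 152193,
  [P2p1_0, P2p3_0, P2p3_1, P2p3_2, P2p3_4, P2p3_5, P2p3_6, P2p4_5, P2p4_6, P2p5_6, P2p7_4, P2p7_5,
  P2p7_6, P2p7_8, P2p7_9, P2p8_4, P2p8_5, P2p8_6, P2p8_9, P2p9_4, P2p9_5, P2p9_6]⟩)))) (.node 412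
  (.node 410 (.node 409 (.leaf ⟨9972242504, 78592325605703447986015299,
  4735357323619727015390852054622298405562013393309417100061265713603340060382470144113, 152161,
  [P2p1_0, P2p1_2, P2p1_3, P2p1_4, P2p1_5, P2p1_6, P2p3_2, P2p4_5, P2p4_6, P2p5_6, P2p7_4, P2p7_5,
  P2p7_6, P2p7_8, P2p7_9, P2p8_4, P2p8_5, P2p8_6, P2p8_9, P2p9_4, P2p9_5, P2p9_6]⟩) (.leaf
  ⟨10219704600, 118514985839862135068299430,
  3885426714359090390252214351464160335403689839972268351863661446584189313537269628929, 155937,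
  [P2p1_0, P2p1_2, P2p1_3, P2p2_0, P2p2_3, P2p3_0, P2p5_4, P2p6_4, P2p6_5, P2p7_8, P2p7_9,
  P2p8_9]⟩)) (.node 411 (.leaf ⟨10218918180, 118518641756352374533883936,
  3885426714359090390252214351464735012462281712773361513494056897487126169042412306559, 155921,
  [P2p1_0, P2p2_0, P2p2_1, P2p3_0, P2p3_1, P2p3_2, P2p5_4, P2p6_4, P2p6_5, P2p7_8, P2p7_9, P2p8_9]⟩)
  (.leaf ⟨9953368200, 78588443713367937197870147,
  4371101348222310764316583044558712483287159944800872474092385135098310608583918157889, 151873,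
  [P2p1_0, P2p1_3, P2p1_6, P2p2_0, P2p2_3, P2p2_6, P2p4_3, P2p4_6, P2p5_3, P2p5_4, P2p5_6, P2p7_6,
  P2p7_8, P2p7_9, P2p8_6, P2p8_9, P2p9_6]⟩))) (.node 414 (.node 413 (.leaf ⟨6732145800,
  240883193221769855784520774,
  6799385587178477027783754933613060707057706964737484392644216943467669519074756984833, 102721,
  [P2p1_0, P2p1_3, P2p2_0, P2p2_3, P2p4_0, P2p4_3, P2p4_6, P2p4_7, P2p4_8, P2p4_9, P2p5_0, P2p5_3,
  P2p5_4, P2p5_6, P2p5_7, P2p5_8, P2p5_9, P2p8_7, P2p9_7, P2p9_8]⟩) (.leaf ⟨7000576392,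
  1290616433146843717968963,
  7710025525672019164855784508749422980309327265636911228945721390436530194470851379201, 106817,
  [P2p1_0, P2p1_3, P2p2_0, P2p2_3, P2p4_3, P2p5_3, P2p5_4, P2p6_3, P2p6_4, P2p6_5, P2p7_3, P2p7_4,
  P2p7_5, P2p7_6, P2p8_3, P2p8_4, P2p8_5, P2p8_6, P2p8_7, P2p9_3, P2p9_4, P2p9_5, P2p9_6, P2p9_7,
  P2p9_8]⟩)) (.node 415 (.leaf ⟨6732407940, 240883193448332026348375270,
  6799385587178477027786223228111652926979656165944086288924557418186040003742864965647, 102721,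
  [P2p1_0, P2p2_3, P2p4_0, P2p4_1, P2p4_2, P2p4_3, P2p4_6, P2p4_7, P2p4_8, P2p4_9, P2p5_0, P2p5_1,
  P2p5_2, P2p5_3, P2p5_4, P2p5_6, P2p5_7, P2p5_8, P2p5_9, P2p8_7, P2p9_7, P2p9_8]⟩) (.leaf
  ⟨7000838532, 1290616555109380755039552,
  7763146188750809223528061547537609538221660296618373587207089039686844393388810108943, 106817,
  [P2p1_0, P2p2_3, P2p4_0, P2p4_1, P2p4_2, P2p4_3, P2p5_0, P2p5_1, P2p5_2, P2p5_3, P2p5_4, P2p6_0,
  P2p6_1, P2p6_2, P2p6_3, P2p6_4, P2p6_5, P2p7_0, P2p7_1, P2p7_2, P2p7_3, P2p7_4, P2p7_5, P2p7_6,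
  P2p8_0, P2p8_1, P2p8_2, P2p8_3, P2p8_4, P2p8_5, P2p8_6, P2p8_7, P2p9_0, P2p9_1, P2p9_2, P2p9_3,
  P2p9_4, P2p9_5, P2p9_6, P2p9_7, P2p9_8]⟩)))))) (.node 432 (.node 424 (.node 420 (.node 418 (.node
  417 (.leaf ⟨9953630340, 78587263236736446813506688,
  4371101348222310764319462721473736646568796593490338922240477267998477837257644376143, 151873,
  [P2p1_0, P2p2_3, P2p4_0, P2p4_1, P2p4_2, P2p4_3, P2p4_6, P2p5_0, P2p5_1, P2p5_2, P2p5_3, P2p5_4,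
  P2p5_6, P2p7_6, P2p7_8, P2p7_9, P2p8_6, P2p8_9, P2p9_6]⟩) (.leaf ⟨6730048664,
  360683727900292276998541481,
  6799385587178477027780463874373651328366278449311589232321694206998310528866788114433, 102689,
  [P2p1_0, P2p1_2, P2p1_3, P2p1_6, P2p1_7, P2p1_8, P2p1_9, P2p2_0, P2p2_3, P2p2_6, P2p2_7, P2p2_8,
  P2p2_9, P2p3_0, P2p3_6, P2p3_7, P2p3_8, P2p3_9, P2p4_0, P2p4_6, P2p4_7, P2p4_8, P2p4_9, P2p5_0,
  P2p5_4, P2p5_6, P2p5_7, P2p5_8, P2p5_9, P2p8_7, P2p9_7, P2p9_8]⟩)) (.node 419 (.leaf ⟨6998479128,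
  1290616183197170699079846,
  7649316196439116240658896464420162693425062454817130183704140023928317837962603724801, 106785,
  [P2p1_0, P2p1_2, P2p1_3, P2p2_0, P2p2_3, P2p3_0, P2p5_4, P2p6_4, P2p6_5, P2p7_4, P2p7_5, P2p7_6,
  P2p8_4, P2p8_5, P2p8_6, P2p8_7, P2p9_4, P2p9_5, P2p9_6, P2p9_7, P2p9_8]⟩) (.leaf ⟨6737650820,
  240883193113939754016115942,
  6799385587178477027781286639114755831511171749578209735167806512360007989491140853763, 102801,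
  [P2p1_0, P2p2_0, P2p2_1, P2p2_3, P2p3_0, P2p3_1, P2p4_0, P2p4_1, P2p4_6, P2p4_7, P2p4_8, P2p4_9,
  P2p5_0, P2p5_1, P2p5_4, P2p5_6, P2p5_7, P2p5_8, P2p5_9, P2p8_7, P2p9_7, P2p9_8]⟩))) (.node 422
  (.node 421 (.leaf ⟨6997692708, 1290616185596301849757728,
  7649316196439116240658896464420737370483654327618223345334535474831254693467746402431, 106769,
  [P2p1_0, P2p2_0, P2p2_1, P2p3_0, P2p3_1, P2p3_2, P2p5_4, P2p6_4, P2p6_5, P2p7_4, P2p7_5, P2p7_6,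
  P2p8_4, P2p8_5, P2p8_6, P2p8_7, P2p9_4, P2p9_5, P2p9_6, P2p9_7, P2p9_8]⟩) (.leaf ⟨6736340104,
  240883193078815751987597414,
  6799385587178477027780463874282083305044279998623220763436785959353995204183638212609, 102785,
  [P2p1_0, P2p2_0, P2p3_0, P2p3_2, P2p4_0, P2p4_6, P2p4_7, P2p4_8, P2p4_9, P2p5_0, P2p5_4, P2p5_6,
  P2p5_7, P2p5_8, P2p5_9, P2p8_7, P2p9_7, P2p9_8]⟩)) (.node 423 (.leaf ⟨9957824644,
  78587262984534867680758912,
  4371101348222310764316171662142950806497977866205629021778947780239752724210944245831, 151937,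
  [P2p1_0, P2p3_0, P2p3_1, P2p3_2, P2p4_0, P2p4_1, P2p4_2, P2p4_6, P2p5_0, P2p5_1, P2p5_2, P2p5_4,
  P2p5_6, P2p7_6, P2p7_8, P2p7_9, P2p8_6, P2p8_9, P2p9_6]⟩) (.leaf ⟨6736602244,
  240883193088044056158735590,
  6799385587178477027782932168780867086908837438659376387829192958759069320324739170311, 102785,
  [P2p1_0, P2p3_0, P2p3_1, P2p3_2, P2p4_0, P2p4_1, P2p4_2, P2p4_6, P2p4_7, P2p4_8, P2p4_9, P2p5_0,
  P2p5_1, P2p5_2, P2p5_4, P2p5_6, P2p5_7, P2p5_8, P2p5_9, P2p8_7, P2p9_7, P2p9_8]⟩)))) (.node 428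
  (.node 426 (.node 425 (.leaf ⟨7005032836, 1290616086735019508507968,
  7702436859517906299331173503208923925472939485169741741309758094919422890062113079303, 106881,
  [P2p1_0, P2p3_0, P2p3_1, P2p3_2, P2p4_0, P2p4_1, P2p4_2, P2p5_0, P2p5_1, P2p5_2, P2p5_4, P2p6_0,
  P2p6_1, P2p6_2, P2p6_4, P2p6_5, P2p7_0, P2p7_1, P2p7_2, P2p7_4, P2p7_5, P2p7_6, P2p8_0, P2p8_1,
  P2p8_2, P2p8_4, P2p8_5, P2p8_6, P2p8_7, P2p9_0, P2p9_1, P2p9_2, P2p9_4, P2p9_5, P2p9_6, P2p9_7,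
  P2p9_8]⟩) (.leaf ⟨6734242952, 240883193227399355318733894,
  6799385587178477027785400463279171965378375929841586349079809423318672533761580400641, 102753,
  [P2p1_0, P2p1_2, P2p1_3, P2p3_2, P2p4_0, P2p4_2, P2p4_3, P2p4_6, P2p4_7, P2p4_8, P2p4_9, P2p5_0,
  P2p5_2, P2p5_3, P2p5_4, P2p5_6, P2p5_7, P2p5_8, P2p5_9, P2p8_7, P2p9_7, P2p9_8]⟩)) (.node 427
  (.leaf ⟨6734062724, 240883193227583008120311113,
  6799385587178477027786223228112323386471009196722721106064372514375225879044661706752, 102758,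
  [P2p1_0, P2p2_0, P2p2_1, P2p3_0, P2p3_1, P2p3_2, P2p4_0, P2p4_1, P2p4_2, P2p4_3, P2p4_6, P2p4_7,
  P2p4_8, P2p4_9, P2p5_0, P2p5_1, P2p5_2, P2p5_3, P2p5_4, P2p5_6, P2p5_7, P2p5_8, P2p5_9, P2p8_7,
  P2p9_7, P2p9_8]⟩) (.leaf ⟨6728819864, 240883193082232965407245382,
  6799385587178477027780052491957792561080254227240875883066221209085129951369987817472, 102678,
  [P2p1_0, P2p3_0, P2p3_1, P2p3_2, P2p3_6, P2p3_7, P2p3_8, P2p3_9, P2p4_6, P2p4_7, P2p4_8, P2p4_9,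
  P2p5_4, P2p5_6, P2p5_7, P2p5_8, P2p5_9, P2p8_7, P2p9_7, P2p9_8]⟩))) (.node 430 (.node 429 (.leaf
  ⟨10222063908, 118522297705237425230648352,
  3885426714359090390252214351474792185447670968526597392960406658375545841038166786175, 155969,
  [P2p1_0, P2p2_3, P2p2_4, P2p2_5, P2p2_6, P2p3_4, P2p3_5, P2p3_6, P2p5_4, P2p6_4, P2p6_5, P2p7_8,
  P2p7_9, P2p8_9]⟩) (.leaf ⟨7000838436, 1294272134481352546522144,
  7649316196439116240658896464430794543469043583371459224800885235719674365463500882047, 106817,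
  [P2p1_0, P2p2_3, P2p2_4, P2p2_5, P2p2_6, P2p3_4, P2p3_5, P2p3_6, P2p5_4, P2p6_4, P2p6_5, P2p7_4,
  P2p7_5, P2p7_6, P2p8_4, P2p8_5, P2p8_6, P2p8_7, P2p9_4, P2p9_5, P2p9_6, P2p9_7, P2p9_8]⟩)) (.node
  431 (.leaf ⟨6729868440, 280816704684560919488989287,
  6799385587178477027780052491957410856313038400352225749594840056426946759036737093632, 102694,
  [P2p1_0, P2p2_0, P2p2_1, P2p2_3, P2p2_6, P2p2_7, P2p2_8, P2p2_9, P2p3_0, P2p3_1, P2p3_6, P2p3_7,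
  P2p3_8, P2p3_9, P2p4_6, P2p4_7, P2p4_8, P2p4_9, P2p5_4, P2p5_6, P2p5_7, P2p5_8, P2p5_9, P2p8_7,
  P2p9_7, P2p9_8]⟩) (.leaf ⟨9819148680, 118514907547034306747700291,
  3885426714359089311877385382059550132556662044269373340179307500470830357428644151297, 149825,
  [P2p1_0, P2p1_3, P2p2_0, P2p2_3, P2p4_3, P2p4_5, P2p4_6, P2p5_3, P2p5_6, P2p6_3, P2p7_8, P2p7_9,
  P2p8_9]⟩))))) (.node 440 (.node 436 (.node 434 (.node 433 (.leaf ⟨9769079364,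
  238313197452522741141897248,
  3885426714359090390252214351464064552970928681994726695165665846256717906297798721551, 149057,
  [P2p1_0, P2p2_3, P2p5_4, P2p6_4, P2p6_5, P2p7_8, P2p7_9, P2p8_9]⟩) (.leaf ⟨6547853892,
  1288178944329505354842144,
  6799385587178478321462565395321127096207361864743316738265234735252512129659379318799, 99905,
  [P2p1_0, P2p2_3, P2p5_4, P2p6_4, P2p6_5, P2p8_7, P2p9_7, P2p9_8]⟩)) (.node 435 (.leaf ⟨6597923208,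
  1286882012307031083620419,
  6860094916411379951601760073709394091134876615024839939617512811125145148089447284737, 100673,
  [P2p1_0, P2p1_3, P2p2_0, P2p2_3, P2p4_3, P2p4_5, P2p4_6, P2p5_3, P2p5_6, P2p6_3, P2p7_3, P2p8_3,
  P2p8_7, P2p9_3, P2p9_7, P2p9_8]⟩) (.leaf ⟨6598185348, 1286882130782913669798112,
  6913215579490170010274037112497580649047209646006302297878880460375459347007406014479, 100673,
  [P2p1_0, P2p2_3, P2p4_0, P2p4_1, P2p4_2, P2p4_3, P2p4_5, P2p4_6, P2p5_0, P2p5_1, P2p5_2, P2p5_3,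
  P2p5_6, P2p6_0, P2p6_1, P2p6_2, P2p6_3, P2p7_0, P2p7_1, P2p7_2, P2p7_3, P2p8_0, P2p8_1, P2p8_2,
  P2p8_3, P2p8_7, P2p9_0, P2p9_1, P2p9_2, P2p9_3, P2p9_7, P2p9_8]⟩))) (.node 438 (.node 437 (.leaf
  ⟨9819410820, 118514907664347971183580352,
  3885426714359089500599891729029052952044936360744818711644368295232407093497067143183, 149825,
  [P2p1_0, P2p2_3, P2p4_0, P2p4_1, P2p4_2, P2p4_3, P2p4_5, P2p4_6, P2p5_0, P2p5_1, P2p5_2, P2p5_3,
  P2p5_6, P2p6_0, P2p6_1, P2p6_2, P2p6_3, P2p7_8, P2p7_9, P2p8_9]⟩) (.leaf ⟨9817051416,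
  118516126079230191243104422,
  3885426714359089096194520985523071261014178621456468851276362539092603672748437340161, 149793,
  [P2p1_0, P2p1_2, P2p1_3, P2p2_0, P2p2_3, P2p3_0, P2p4_5, P2p4_6, P2p5_6, P2p7_8, P2p7_9,
  P2p8_9]⟩)) (.node 439 (.leaf ⟨9766719768, 118512548563801396197036198,
  3885426714359090417212572401031232166967924433123327786334582567435661934150323077121, 149025,
  [P2p1_0, P2p1_2, P2p1_3, P2p2_0, P2p2_3, P2p3_0, P2p4_0, P2p5_0, P2p5_4, P2p6_0, P2p6_4, P2p6_5,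
  P2p7_8, P2p7_9, P2p8_9]⟩) (.leaf ⟨6595825944, 1288100508474118558978214,
  6799385587178477027404872029380133804250611804205058894375931444616932791581199630337, 100641,
  [P2p1_0, P2p1_2, P2p1_3, P2p2_0, P2p2_3, P2p3_0, P2p4_5, P2p4_6, P2p5_6, P2p8_7, P2p9_7,
  P2p9_8]⟩)))) (.node 444 (.node 442 (.node 441 (.leaf ⟨6545494296, 1284522993045323512909990,
  6799385587178478348422923444888294710204357615871917829434151472959991052983085367297, 99873,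
  [P2p1_0, P2p1_2, P2p1_3, P2p2_0, P2p2_3, P2p3_0, P2p4_0, P2p5_0, P2p5_4, P2p6_0, P2p6_4, P2p6_5,
  P2p8_7, P2p9_7, P2p9_8]⟩) (.leaf ⟨9816264996, 118519781995720430708688928,
  3885426714359089096194520985523645938072770494257562012906757989995540528253580017791, 149777,
  [P2p1_0, P2p2_0, P2p2_1, P2p3_0, P2p3_1, P2p3_2, P2p4_5, P2p4_6, P2p5_6, P2p7_8, P2p7_9,
  P2p8_9]⟩)) (.node 443 (.leaf ⟨9765933348, 118512548566200527347615776,
  3885426714359090390252214351464735012462281712773361513493921495729262468640940163087, 149009,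
  [P2p1_0, P2p2_0, P2p2_1, P2p3_0, P2p3_1, P2p3_2, P2p5_4, P2p6_4, P2p6_5, P2p7_8, P2p7_9, P2p8_9]⟩)
  (.leaf ⟨6544707876, 1284522995444454663489568,
  6799385587178478321462565395321797555698714895521951556593490401253591587473702453263, 99857,
  [P2p1_0, P2p2_0, P2p2_1, P2p3_0, P2p3_1, P2p3_2, P2p5_4, P2p6_4, P2p6_5, P2p8_7, P2p9_7,
  P2p9_8]⟩))) (.node 446 (.node 445 (.leaf ⟨6595039524, 1291756424964358024562720,
  6799385587178477027404872029380708481309203677006152056006326895519869647086342307967, 100625,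
  [P2p1_0, P2p2_0, P2p2_1, P2p3_0, P2p3_1, P2p3_2, P2p4_5, P2p4_6, P2p5_6, P2p8_7, P2p9_7, P2p9_8]⟩)
  (.leaf ⟨9823605124, 118514907340088798012904640,
  3885426714359089284917027332493148754637996937303063422085673755594971261998410956807, 149889,
  [P2p1_0, P2p3_0, P2p3_1, P2p3_2, P2p4_0, P2p4_1, P2p4_2, P2p4_5, P2p4_6, P2p5_0, P2p5_1, P2p5_2,
  P2p5_6, P2p6_0, P2p6_1, P2p6_2, P2p7_8, P2p7_9, P2p8_9]⟩)) (.node 447 (.leaf ⟨6602379652,
  1286881770494943480158432,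
  6852506250257267086077149068168895036298488834557670451981549515608037843680708984839, 100737,
  [P2p1_0, P2p3_0, P2p3_1, P2p3_2, P2p4_0, P2p4_1, P2p4_2, P2p4_5, P2p4_6, P2p5_0, P2p5_1, P2p5_2,
  P2p5_6, P2p6_0, P2p6_1, P2p6_2, P2p7_0, P2p7_1, P2p7_2, P2p8_0, P2p8_1, P2p8_2, P2p8_7, P2p9_0,
  P2p9_1, P2p9_2, P2p9_7, P2p9_8]⟩) (.leaf ⟨9819410724, 118523437944605481405453344,
  3885426714359089096194520985533703111058159750010797892373107750883960200249334497407, 149825,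
  [P2p1_0, P2p2_3, P2p2_4, P2p2_5, P2p2_6, P2p3_4, P2p3_5, P2p3_6, P2p4_5, P2p4_6, P2p5_6, P2p7_8,
  P2p7_9, P2p8_9]⟩))))))

def P2T8 : Tr :=
  .node 480 (.node 464 (.node 456 (.node 452 (.node 450 (.node 449 (.leaf ⟨6598185252,
  1295412373849408721327136,
  6799385587178477027404872029390765654294592932759387935472676656408289319082096787583, 100673,
  [P2p1_0, P2p2_3, P2p2_4, P2p2_5, P2p2_6, P2p3_4, P2p3_5, P2p3_6, P2p4_5, P2p4_6, P2p5_6, P2p8_7,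
  P2p9_7, P2p9_8]⟩) (.leaf ⟨6514037128, 1284749107523508416714819,
  7224350891808797496733722449713686070602484678545500832190650348226340561617550901249, 99393,
  [P2p1_0, P2p1_3, P2p2_0, P2p2_3, P2p4_5, P2p6_3, P2p6_4, P2p6_5, P2p7_3, P2p7_4, P2p7_5, P2p8_3,
  P2p8_4, P2p8_5, P2p8_7, P2p9_3, P2p9_4, P2p9_5, P2p9_7, P2p9_8]⟩)) (.node 451 (.leaf ⟨6514299268,
  1284749225999391002892512,
  7277471554887587555403119811586848370234281166606961864614633296995307884526407974927, 99393,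
  [P2p1_0, P2p2_3, P2p4_5, P2p6_0, P2p6_1, P2p6_2, P2p6_3, P2p6_4, P2p6_5, P2p7_0, P2p7_1, P2p7_2,
  P2p7_3, P2p7_4, P2p7_5, P2p8_0, P2p8_1, P2p8_2, P2p8_3, P2p8_4, P2p8_5, P2p8_7, P2p9_0, P2p9_1,
  P2p9_2, P2p9_3, P2p9_4, P2p9_5, P2p9_7, P2p9_8]⟩) (.leaf ⟨6518493572, 1284748865711420813252832,
  7216762225654684631209522826589619052663316404209760105388599152777997096638684266503, 99457,
  [P2p1_0, P2p3_0, P2p3_1, P2p3_2, P2p4_5, P2p6_0, P2p6_1, P2p6_2, P2p6_4, P2p6_5, P2p7_0, P2p7_1,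
  P2p7_2, P2p7_4, P2p7_5, P2p8_0, P2p8_1, P2p8_2, P2p8_4, P2p8_5, P2p8_7, P2p9_0, P2p9_1, P2p9_2,
  P2p9_4, P2p9_5, P2p9_7, P2p9_8]⟩))) (.node 454 (.node 453 (.leaf ⟨10221803656,
  78580217654461364363694147,
  3885426714359090605935078748000639206946173262785172840765378137116078246130828771329, 155969,
  [P2p1_0, P2p1_3, P2p2_0, P2p2_3, P2p4_3, P2p5_3, P2p5_4, P2p6_3, P2p6_4, P2p6_5, P2p7_8, P2p7_9,
  P2p8_9]⟩) (.leaf ⟨7000581256, 280810839916871190579351623,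
  6799385587178502720586600253521134663301036502034075675472477219051748652187617132545, 106817,
  [P2p1_0, P2p1_3, P2p2_0, P2p2_3, P2p4_0, P2p4_3, P2p4_7, P2p4_8, P2p4_9, P2p5_0, P2p5_3, P2p5_4,
  P2p5_7, P2p5_8, P2p5_9, P2p6_0, P2p6_3, P2p6_4, P2p6_5, P2p6_7, P2p6_8, P2p6_9, P2p8_7, P2p9_7,
  P2p9_8]⟩)) (.node 455 (.leaf ⟨10222065796, 78580217770612809540931744,
  3885426714359090794657585094970142026434447579260618212230430469267790471279061958671, 155969,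
  [P2p1_0, P2p2_3, P2p4_0, P2p4_1, P2p4_2, P2p4_3, P2p5_0, P2p5_1, P2p5_2, P2p5_3, P2p5_4, P2p6_0,
  P2p6_1, P2p6_2, P2p6_3, P2p6_4, P2p6_5, P2p7_8, P2p7_9, P2p8_9]⟩) (.leaf ⟨7000843396,
  280810840144595544933765383,
  6799385587178502882348748550923565651225076225358461613575684229013554023477386608655, 106817,
  [P2p1_0, P2p2_3, P2p4_0, P2p4_1, P2p4_2, P2p4_3, P2p4_7, P2p4_8, P2p4_9, P2p5_0, P2p5_1, P2p5_2,
  P2p5_3, P2p5_4, P2p5_7, P2p5_8, P2p5_9, P2p6_0, P2p6_1, P2p6_2, P2p6_3, P2p6_4, P2p6_5, P2p6_7,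
  P2p6_8, P2p6_9, P2p8_7, P2p9_7, P2p9_8]⟩)))) (.node 460 (.node 458 (.node 457 (.leaf ⟨6998484120,
  360675501805356907145367721,
  6799385587178502504903735857070476851572491676369137530087248624055797227637922922497, 106785,
  [P2p1_0, P2p1_2, P2p1_3, P2p1_7, P2p1_8, P2p1_9, P2p2_0, P2p2_3, P2p2_7, P2p2_8, P2p2_9, P2p3_0,
  P2p3_7, P2p3_8, P2p3_9, P2p4_0, P2p4_7, P2p4_8, P2p4_9, P2p5_0, P2p5_4, P2p5_7, P2p5_8, P2p5_9,
  P2p6_0, P2p6_4, P2p6_5, P2p6_7, P2p6_8, P2p6_9, P2p8_7, P2p9_7, P2p9_8]⟩) (.leaf ⟨7006086276,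
  280810839773048575675699463,
  6799385587178502558824451956118991019752410764757016976173200252700652235982339506179, 106897,
  [P2p1_0, P2p2_0, P2p2_1, P2p2_3, P2p3_0, P2p3_1, P2p4_0, P2p4_1, P2p4_7, P2p4_8, P2p4_9, P2p5_0,
  P2p5_1, P2p5_4, P2p5_7, P2p5_8, P2p5_9, P2p6_0, P2p6_1, P2p6_4, P2p6_5, P2p6_7, P2p6_8, P2p6_9,
  P2p8_7, P2p9_7, P2p9_8]⟩)) (.node 459 (.leaf ⟨7004775560, 280810839737888289763463271,
  6799385587178502504903735856985038903951488839762766657167890854613494488467616366593, 106881,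
  [P2p1_0, P2p2_0, P2p3_0, P2p3_2, P2p4_0, P2p4_7, P2p4_8, P2p4_9, P2p5_0, P2p5_4, P2p5_7, P2p5_8,
  P2p5_9, P2p6_0, P2p6_4, P2p6_5, P2p6_7, P2p6_8, P2p6_9, P2p8_7, P2p9_7, P2p9_8]⟩) (.leaf
  ⟨10226260100, 78580217482382433389220000,
  3885426714359090578974720698434237829027508155818862922671745601184485509403479834631, 156033,
  [P2p1_0, P2p3_0, P2p3_1, P2p3_2, P2p4_0, P2p4_1, P2p4_2, P2p5_0, P2p5_1, P2p5_2, P2p5_4, P2p6_0,
  P2p6_1, P2p6_2, P2p6_4, P2p6_5, P2p7_8, P2p7_9, P2p8_9]⟩))) (.node 462 (.node 461 (.leaf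
  ⟨7005037700, 280810839748278777725161735,
  6799385587178502666665884154387661453818136801916706323383164389262003491230378819591, 106881,
  [P2p1_0, P2p3_0, P2p3_1, P2p3_2, P2p4_0, P2p4_1, P2p4_2, P2p4_7, P2p4_8, P2p4_9, P2p5_0, P2p5_1,
  P2p5_2, P2p5_4, P2p5_7, P2p5_8, P2p5_9, P2p6_0, P2p6_1, P2p6_2, P2p6_4, P2p6_5, P2p6_7, P2p6_8,
  P2p6_9, P2p8_7, P2p9_7, P2p9_8]⟩) (.leaf ⟨7002678408, 280810839923626590020407367,
  6799385587178502828428032451789805100289765815216700326456647389065041591288881545217, 106849,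
  [P2p1_0, P2p1_2, P2p1_3, P2p3_2, P2p4_0, P2p4_2, P2p4_3, P2p4_7, P2p4_8, P2p4_9, P2p5_0, P2p5_2,
  P2p5_3, P2p5_4, P2p5_7, P2p5_8, P2p5_9, P2p6_0, P2p6_2, P2p6_3, P2p6_4, P2p6_5, P2p6_7, P2p6_8,
  P2p6_9, P2p8_7, P2p9_7, P2p9_8]⟩)) (.node 463 (.leaf ⟨6997255320, 280810839741305468823372871,
  6799385587178502477943377807503978383156984425927357715051580445069581797786743406592, 106774,
  [P2p1_0, P2p3_0, P2p3_1, P2p3_2, P2p3_7, P2p3_8, P2p3_9, P2p4_7, P2p4_8, P2p4_9, P2p5_4, P2p5_7,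
  P2p5_8, P2p5_9, P2p6_4, P2p6_5, P2p6_7, P2p6_8, P2p6_9, P2p8_7, P2p9_7, P2p9_8]⟩) (.leaf
  ⟨7002498180, 280810839923846526705701226,
  6799385587178502882348748550924236110716429256137096430715499325202739898779183349760, 106854,
  [P2p1_0, P2p2_0, P2p2_1, P2p3_0, P2p3_1, P2p3_2, P2p4_0, P2p4_1, P2p4_2, P2p4_3, P2p4_7, P2p4_8,
  P2p4_9, P2p5_0, P2p5_1, P2p5_2, P2p5_3, P2p5_4, P2p5_7, P2p5_8, P2p5_9, P2p6_0, P2p6_1, P2p6_2,
  P2p6_3, P2p6_4, P2p6_5, P2p6_7, P2p6_8, P2p6_9, P2p8_7, P2p9_7, P2p9_8]⟩))))) (.node 472 (.node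
  468 (.node 466 (.node 465 (.leaf ⟨6998303896, 280810839772866984458422375,
  6799385587178502477943377807503596584853663809860920816544369998569285347473809932288, 106790,
  [P2p1_0, P2p2_0, P2p2_1, P2p2_3, P2p2_7, P2p2_8, P2p2_9, P2p3_0, P2p3_1, P2p3_7, P2p3_8, P2p3_9,
  P2p4_7, P2p4_8, P2p4_9, P2p5_4, P2p5_7, P2p5_8, P2p5_9, P2p6_4, P2p6_5, P2p6_7, P2p6_8, P2p6_9,
  P2p8_7, P2p9_7, P2p9_8]⟩) (.leaf ⟨9802371464, 118513694637582663324635203,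
  3885426714359089743243113421880491191182723874391593506796261273045824393125988728833, 149569,
  [P2p1_0, P2p1_3, P2p2_0, P2p2_3, P2p5_3, P2p5_4, P2p5_6, P2p6_3, P2p6_4, P2p7_8, P2p7_9,
  P2p8_9]⟩)) (.node 467 (.leaf ⟨6581145992, 1285671444727193894295619,
  6981513574877185799995535409115897980444501221160813218911739393960110527442873548801, 100417,
  [P2p1_0, P2p1_3, P2p2_0, P2p2_3, P2p5_3, P2p5_4, P2p5_6, P2p6_3, P2p6_4, P2p7_3, P2p7_4, P2p8_3,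
  P2p8_4, P2p8_7, P2p9_3, P2p9_4, P2p9_7, P2p9_8]⟩) (.leaf ⟨9802633604, 118513694753734109610217632,
  3885426714359089931965619724910281862964232844016512915807657155090913017946170130447, 149569,
  [P2p1_0, P2p2_3, P2p5_0, P2p5_1, P2p5_2, P2p5_3, P2p5_4, P2p5_6, P2p6_0, P2p6_1, P2p6_2, P2p6_3,
  P2p6_4, P2p7_8, P2p7_9, P2p8_9]⟩))) (.node 470 (.node 469 (.leaf ⟨6581408132,
  1285671563203076480473312,
  7034634237955975858667812403964372390650068905291749614719442130493936615112590688271, 100417,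
  [P2p1_0, P2p2_3, P2p5_0, P2p5_1, P2p5_2, P2p5_3, P2p5_4, P2p5_6, P2p6_0, P2p6_1, P2p6_2, P2p6_3,
  P2p6_4, P2p7_0, P2p7_1, P2p7_2, P2p7_3, P2p7_4, P2p8_0, P2p8_1, P2p8_2, P2p8_3, P2p8_4, P2p8_7,
  P2p9_0, P2p9_1, P2p9_2, P2p9_3, P2p9_4, P2p9_7, P2p9_8]⟩) (.leaf ⟨9806827908,
  118513694465503733458505888,
  3885426714359089716282755378591191548650739531261073011910293944272320742159790047239, 149633,
  [P2p1_0, P2p3_0, P2p3_1, P2p3_2, P2p5_0, P2p5_1, P2p5_2, P2p5_4, P2p5_6, P2p6_0, P2p6_1, P2p6_2,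
  P2p6_4, P2p7_8, P2p7_9, P2p8_9]⟩)) (.node 471 (.leaf ⟨6585602436, 1285671202915106290833632,
  6973924908723072934470924409852500660994794204529433154483442514545358667498169761799, 100481,
  [P2p1_0, P2p3_0, P2p3_1, P2p3_2, P2p5_0, P2p5_1, P2p5_2, P2p5_4, P2p5_6, P2p6_0, P2p6_1, P2p6_2,
  P2p6_4, P2p7_0, P2p7_1, P2p7_2, P2p7_4, P2p8_0, P2p8_1, P2p8_2, P2p8_4, P2p8_7, P2p9_0, P2p9_1,
  P2p9_2, P2p9_4, P2p9_7, P2p9_8]⟩) (.leaf ⟨6511939992, 1284748965660226454982822,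
  7163641562575894572540125464720479635671722627338648070594528640919716553010540773377, 99361,
  [P2p1_0, P2p1_2, P2p1_3, P2p1_4, P2p1_5, P2p2_0, P2p2_3, P2p2_4, P2p2_5, P2p3_0, P2p3_4, P2p3_5,
  P2p4_5, P2p6_4, P2p6_5, P2p7_4, P2p7_5, P2p8_4, P2p8_5, P2p8_7, P2p9_4, P2p9_5, P2p9_7,
  P2p9_8]⟩)))) (.node 476 (.node 474 (.node 473 (.leaf ⟨9733165464, 118512774536416299135963302,
  3885426714359090390245632534106728600384601116548798689463141304615473403209533423617, 148513,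
  [P2p1_0, P2p1_2, P2p1_3, P2p1_4, P2p1_5, P2p2_0, P2p2_3, P2p2_4, P2p2_5, P2p3_0, P2p3_4, P2p3_5,
  P2p4_5, P2p6_4, P2p6_5, P2p7_8, P2p7_9, P2p8_9]⟩) (.leaf ⟨6519542148, 1284748891607118670633184,
  7186407561038233169112724334090286058515577697572347523661877863983765713570286993411, 99473,
  [P2p1_0, P2p2_0, P2p2_1, P2p2_3, P2p3_0, P2p3_1, P2p4_5, P2p6_0, P2p6_1, P2p6_4, P2p6_5, P2p7_0,
  P2p7_1, P2p7_4, P2p7_5, P2p8_0, P2p8_1, P2p8_4, P2p8_5, P2p8_7, P2p9_0, P2p9_1, P2p9_4, P2p9_5,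
  P2p9_7, P2p9_8]⟩)) (.node 475 (.leaf ⟨6518231432, 1284748856483048996378724,
  7163641562575894572540125464716265191088911677318745344218714707654080571885408550913, 99457,
  [P2p1_0, P2p2_0, P2p3_0, P2p3_2, P2p4_5, P2p6_4, P2p6_5, P2p7_4, P2p7_5, P2p8_4, P2p8_5, P2p8_7,
  P2p9_4, P2p9_5, P2p9_7, P2p9_8]⟩) (.leaf ⟨6516134280, 1284749116530707671455811,
  7254705556425248958830520942213019067673226661205848718008495156306636413724886106113, 99425,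
  [P2p1_0, P2p1_2, P2p1_3, P2p3_2, P2p4_5, P2p6_2, P2p6_3, P2p6_4, P2p6_5, P2p7_2, P2p7_3, P2p7_4,
  P2p7_5, P2p8_2, P2p8_3, P2p8_4, P2p8_5, P2p8_7, P2p9_2, P2p9_3, P2p9_4, P2p9_5, P2p9_7,
  P2p9_8]⟩))) (.node 478 (.node 477 (.leaf ⟨6510711192, 1284748859900333282985030,
  7163641562575894572540125464721054238192749747141403444213723805446242002391559241728, 99350,
  [P2p1_0, P2p3_0, P2p3_1, P2p3_2, P2p3_4, P2p3_5, P2p4_5, P2p6_4, P2p6_5, P2p7_4, P2p7_5, P2p8_4,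
  P2p8_5, P2p8_7, P2p9_4, P2p9_5, P2p9_7, P2p9_8]⟩) (.leaf ⟨6515954052, 1284749116823427946289580,
  7277471554887587555403119811587518829725634197385596682942888965062454204274627837952, 99430,
  [P2p1_0, P2p2_0, P2p2_1, P2p3_0, P2p3_1, P2p3_2, P2p4_5, P2p6_0, P2p6_1, P2p6_2, P2p6_3, P2p6_4,
  P2p6_5, P2p7_0, P2p7_1, P2p7_2, P2p7_3, P2p7_4, P2p7_5, P2p8_0, P2p8_1, P2p8_2, P2p8_3, P2p8_4,
  P2p8_5, P2p8_7, P2p9_0, P2p9_1, P2p9_2, P2p9_3, P2p9_4, P2p9_5, P2p9_7, P2p9_8]⟩)) (.node 479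
  (.leaf ⟨6511759768, 1284748891461849991776359,
  7163641562575894572540125464720671200536040674469291908981775215537944883847829323776, 99366,
  [P2p1_0, P2p2_0, P2p2_1, P2p2_3, P2p2_4, P2p2_5, P2p3_0, P2p3_1, P2p3_4, P2p3_5, P2p4_5, P2p6_4,
  P2p6_5, P2p7_4, P2p7_5, P2p8_4, P2p8_5, P2p8_7, P2p9_4, P2p9_5, P2p9_7, P2p9_8]⟩) (.leaf
  ⟨9735524932, 238313191687915218107662368,
  3885426714359089958886491885709464517717385138053514336956508915386472388661177417743, 148545,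
  [P2p1_0, P2p2_3, P2p4_5, P2p4_6, P2p4_7, P2p4_8, P2p4_9, P2p6_5, P2p7_8, P2p7_9, P2p8_9]⟩))))))
  (.node 496 (.node 488 (.node 484 (.node 482 (.node 481 (.leaf ⟨6514299460,
  1288173179721982320607264,
  6799385587178477890096837305283372154487853923934781185986968976671788372247834460175, 99393,
  [P2p1_0, P2p2_3, P2p4_5, P2p4_6, P2p6_5, P2p8_7, P2p9_7, P2p9_8]⟩) (.leaf ⟨6518493764,
  1289390521877878333834304,
  6799385587178477890096837305293237582839986578851651454359638144564888661173022949383, 99457,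
  [P2p1_0, P2p3_0, P2p3_1, P2p3_2, P2p3_5, P2p3_6, P2p4_5, P2p4_6, P2p6_5, P2p8_7, P2p9_7,
  P2p9_8]⟩)) (.node 483 (.leaf ⟨9951269400, 238310687505214135282536614,
  3885426714359113711001413906664002473999471458062204506815553850981871173305658048513, 151841,
  [P2p1_0, P2p1_2, P2p1_3, P2p2_0, P2p2_3, P2p3_0, P2p5_0, P2p5_4, P2p5_6, P2p5_7, P2p5_8, P2p5_9,
  P2p6_0, P2p6_4, P2p6_7, P2p6_8, P2p6_9, P2p7_8, P2p7_9, P2p8_9]⟩) (.leaf ⟨6730043928,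
  1285668997020902716706982,
  6799385587178477485730958162707858842147673574328864457917587309723052643869790371841, 102689,
  [P2p1_0, P2p1_2, P2p1_3, P2p2_0, P2p2_3, P2p3_0, P2p5_0, P2p5_4, P2p5_6, P2p6_0, P2p6_4, P2p8_7,
  P2p9_7, P2p9_8]⟩))) (.node 486 (.node 485 (.leaf ⟨9950482980, 238310687507613269654341664,
  3885426714359113684041055863374607054880509501548027657182559195359380408255320621087, 151825,
  [P2p1_0, P2p2_0, P2p2_1, P2p3_0, P2p3_1, P2p3_2, P2p5_4, P2p5_6, P2p5_7, P2p5_8, P2p5_9, P2p6_4,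
  P2p6_7, P2p6_8, P2p6_9, P2p7_8, P2p7_9, P2p8_9]⟩) (.leaf ⟨6729257508, 1285668999420033867286560,
  6799385587178477458770600119418463423028711617814687608284592654100561878819452944415, 102673,
  [P2p1_0, P2p2_0, P2p2_1, P2p3_0, P2p3_1, P2p3_2, P2p5_4, P2p5_6, P2p6_4, P2p8_7, P2p9_7,
  P2p9_8]⟩)) (.node 487 (.leaf ⟨6581408324, 1289207350311615770722336,
  6799385587178477027411453846742067313612686080212485097052676856820461533654774906895, 100417,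
  [P2p1_0, P2p2_3, P2p4_6, P2p5_4, P2p5_6, P2p8_7, P2p9_7, P2p9_8]⟩) (.leaf ⟨9802633796,
  278246556837650571484790816,
  3885426714359089096569701448008109830284930391224064761138349629437067439458206285839, 149569,
  [P2p1_0, P2p2_3, P2p4_6, P2p4_7, P2p4_8, P2p4_9, P2p5_4, P2p5_6, P2p5_7, P2p5_8, P2p5_9, P2p7_8,
  P2p7_9, P2p8_9]⟩)))) (.node 492 (.node 490 (.node 489 (.leaf ⟨9799094884,
  278246556914245746931340416,
  3885426714359089096574638037005677385244700939876159268689521724356979577326960115727, 149529,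
  [P2p0_1, P2p0_2, P2p0_3, P2p1_2, P2p1_3, P2p3_2, P2p4_2, P2p4_3, P2p4_6, P2p4_7, P2p4_8, P2p4_9,
  P2p5_2, P2p5_3, P2p5_4, P2p5_6, P2p5_7, P2p5_8, P2p5_9, P2p7_8, P2p7_9, P2p8_9]⟩) (.leaf
  ⟨9807876676, 318180068297025555640977504,
  3885426714359089096569701448100348313076605217603635635505754340587396448648058568707, 149649,
  [P2p1_0, P2p2_0, P2p2_1, P2p2_3, P2p2_6, P2p2_7, P2p2_8, P2p2_9, P2p3_0, P2p3_1, P2p3_6, P2p3_7,
  P2p3_8, P2p3_9, P2p4_6, P2p4_7, P2p4_8, P2p4_9, P2p5_4, P2p5_6, P2p5_7, P2p5_8, P2p5_9, P2p7_8,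
  P2p7_9, P2p8_9]⟩)) (.node 491 (.leaf ⟨9807483460, 477914114728671442425321696,
  3885426714359089096569701448100060965799797703966596442022718215519747658052855137231, 149657,
  [P2p0_1, P2p0_2, P2p0_3, P2p0_6, P2p0_7, P2p0_8, P2p0_9, P2p1_2, P2p1_3, P2p1_6, P2p1_7, P2p1_8,
  P2p1_9, P2p2_3, P2p2_6, P2p2_7, P2p2_8, P2p2_9, P2p3_6, P2p3_7, P2p3_8, P2p3_9, P2p4_6, P2p4_7,
  P2p4_8, P2p4_9, P2p5_4, P2p5_6, P2p5_7, P2p5_8, P2p5_9, P2p7_8, P2p7_9, P2p8_9]⟩) (.leaf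
  ⟨9799488100, 278246556840047644272299040,
  3885426714359089096575872184255260843234576013974130991975286798535675568655984164879, 149521,
  [P2p1_0, P2p2_0, P2p2_1, P2p3_0, P2p3_1, P2p3_2, P2p4_0, P2p4_1, P2p4_2, P2p4_3, P2p4_6, P2p4_7,
  P2p4_8, P2p4_9, P2p5_0, P2p5_1, P2p5_2, P2p5_3, P2p5_4, P2p5_6, P2p5_7, P2p5_8, P2p5_9, P2p7_8,
  P2p7_9, P2p8_9]⟩))) (.node 494 (.node 493 (.leaf ⟨6586651204, 1290387830540879999895648,
  6799385587178477027411453846748484736610404082034973827398054139898555540286786961411, 100497,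
  [P2p1_0, P2p2_0, P2p2_1, P2p2_3, P2p2_6, P2p3_0, P2p3_1, P2p3_6, P2p4_6, P2p5_4, P2p5_6, P2p8_7,
  P2p9_7, P2p9_8]⟩) (.leaf ⟨6585340488, 1292748978803519265083492,
  6799385587178477027411453846748676283939378612813619820314436477572556760151389962241, 100481,
  [P2p1_0, P2p1_6, P2p2_0, P2p2_6, P2p3_0, P2p3_2, P2p3_6, P2p4_6, P2p5_4, P2p5_6, P2p8_7, P2p9_7,
  P2p9_8]⟩)) (.node 495 (.leaf ⟨9806828100, 278246556694697601559233600,
  3885426714359089096569701448100730017843821044492285768977135493245579640981309292551, 149633,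
  [P2p1_0, P2p3_0, P2p3_1, P2p3_2, P2p3_6, P2p3_7, P2p3_8, P2p3_9, P2p4_6, P2p4_7, P2p4_8, P2p4_9,
  P2p5_4, P2p5_6, P2p5_7, P2p5_8, P2p5_9, P2p7_8, P2p7_9, P2p8_9]⟩) (.leaf ⟨6585602628,
  1289207207358645845165120,
  6799385587178477027411453846748867750883086957412638671371045406346324344335596191751, 100481,
  [P2p1_0, P2p3_0, P2p3_1, P2p3_2, P2p3_6, P2p4_6, P2p5_4, P2p5_6, P2p8_7, P2p9_7, P2p9_8]⟩)))))
  (.node 504 (.node 500 (.node 498 (.node 497 (.leaf ⟨9804468808, 358113579981396765284895811,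
  3885426714359089096569701448008492942499498209446083986387436249508023520979900497921, 149601,
  [P2p1_0, P2p1_2, P2p1_3, P2p1_6, P2p1_7, P2p1_8, P2p1_9, P2p3_2, P2p4_6, P2p4_7, P2p4_8, P2p4_9,
  P2p5_4, P2p5_6, P2p5_7, P2p5_8, P2p5_9, P2p7_8, P2p7_9, P2p8_9]⟩) (.leaf ⟨6583243336,
  1291568535766369716800579,
  6799385587178477027411453846742450425807272125843620122806084210135476424402734481409, 100449,
  [P2p1_0, P2p1_2, P2p1_3, P2p1_6, P2p3_2, P2p4_6, P2p5_4, P2p5_6, P2p8_7, P2p9_7, P2p9_8]⟩)) (.node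
  499 (.leaf ⟨6578262628, 1289207352708688558230560,
  6799385587178477027417624582989218326562331702962551327889614025919069666700843483151, 100369,
  [P2p1_0, P2p2_0, P2p2_1, P2p3_0, P2p3_1, P2p3_2, P2p4_0, P2p4_1, P2p4_2, P2p4_3, P2p4_6, P2p5_0,
  P2p5_1, P2p5_2, P2p5_3, P2p5_4, P2p5_6, P2p8_7, P2p9_7, P2p9_8]⟩) (.leaf ⟨4702361668,
  4953953973066716224389152,
  7649288406592125262100082150843659666001396778322426493718632301503269705877000487423, 71745,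
  [P2p1_0, P2p2_3, P2p5_4, P2p6_4, P2p6_5, P2p7_8, P2p9_4, P2p9_5, P2p9_6, P2p9_7, P2p9_8]⟩)))
  (.node 502 (.node 501 (.leaf ⟨4903688260, 4951438298343664084189216,
  6799370766243367499515124200667281069955832567721315943710111263153307629833967042959, 74817,
  [P2p1_0, P2p2_3, P2p4_5, P2p4_6, P2p5_6, P2p7_8, P2p9_7, P2p9_8]⟩) (.leaf ⟨4901329048,
  12438978598198328622747814,
  6799370766243367499515124200714884939071309734834338969140987686383145876005064868225, 74785,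
  [P2p1_0, P2p1_2, P2p1_3, P2p1_4, P2p1_5, P2p1_6, P2p1_7, P2p1_8, P2p2_0, P2p2_3, P2p2_4, P2p2_5,
  P2p2_6, P2p2_7, P2p2_8, P2p3_0, P2p3_4, P2p3_5, P2p3_6, P2p3_7, P2p3_8, P2p4_5, P2p4_6, P2p5_6,
  P2p7_8, P2p9_7, P2p9_8]⟩)) (.node 503 (.leaf ⟨4700002456, 12441494272921380762849446,
  7649288406592125262100082150891263535116873945435449519149508724733107952048105652721, 71713,
  [P2p1_0, P2p1_2, P2p1_3, P2p1_4, P2p1_5, P2p1_6, P2p1_7, P2p1_8, P2p2_0, P2p2_3, P2p2_4, P2p2_5,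
  P2p2_6, P2p2_7, P2p2_8, P2p3_0, P2p3_4, P2p3_5, P2p3_6, P2p3_7, P2p3_8, P2p5_4, P2p6_4, P2p6_5,
  P2p7_8, P2p9_4, P2p9_5, P2p9_6, P2p9_7, P2p9_8]⟩) (.leaf ⟨4707604548, 4953953861675261933881440,
  7649288406592125262100082150843947013299546435533695070919579054004775498040595382771, 71825,
  [P2p1_0, P2p2_0, P2p2_1, P2p2_3, P2p3_0, P2p3_1, P2p5_4, P2p6_4, P2p6_5, P2p7_8, P2p9_4, P2p9_5,
  P2p9_6, P2p9_7, P2p9_8]⟩)))) (.node 508 (.node 506 (.node 505 (.leaf ⟨4908931140,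
  4951438186952209793681504,
  6799370766243367499515124200667568417253982224932584520911058015654813421997561938307, 74897,
  [P2p1_0, P2p2_0, P2p2_1, P2p2_3, P2p3_0, P2p3_1, P2p4_5, P2p4_6, P2p5_6, P2p7_8, P2p9_7, P2p9_8]⟩)
  (.leaf ⟨4907620424, 9938257157883761798680676,
  6799370766243367499515124200704540418787503170732438646799623274915465782520430264705, 74881,
  [P2p1_0, P2p1_7, P2p1_8, P2p2_0, P2p2_7, P2p2_8, P2p3_0, P2p3_2, P2p3_7, P2p3_8, P2p4_5, P2p4_6,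
  P2p5_6, P2p7_8, P2p9_7, P2p9_8]⟩)) (.node 507 (.leaf ⟨4706555972, 4953953830113746298831936,
  7649288406592125262100082150844330121108334100089146679928399614294657560069087363575, 71809,
  [P2p1_0, P2p3_0, P2p3_1, P2p3_2, P2p5_4, P2p6_4, P2p6_5, P2p7_8, P2p9_4, P2p9_5, P2p9_6, P2p9_7,
  P2p9_8]⟩) (.leaf ⟨4707211332, 4953954010255394931448032,
  7649288406592125262100082150843659666001329879830009630135550280032371869426116461055, 71833,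
  [P2p0_1, P2p0_2, P2p0_3, P2p1_2, P2p1_3, P2p2_3, P2p5_4, P2p6_4, P2p6_5, P2p7_8, P2p9_4, P2p9_5,
  P2p9_6, P2p9_7, P2p9_8]⟩))) (.node 510 (.node 509 (.leaf ⟨4907882564, 4951438155390694158632000,
  6799370766243367499515124200667951525062769889488036129919878575944695484026053919111, 74881,
  [P2p1_0, P2p3_0, P2p3_1, P2p3_2, P2p4_5, P2p4_6, P2p5_6, P2p7_8, P2p9_7, P2p9_8]⟩) (.leaf
  ⟨4905523272, 8691552554989743325285443,
  6799370766243367499515124200667664182157554960706338183569118354595444374429688988033, 74849,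
  [P2p1_0, P2p1_2, P2p1_3, P2p1_7, P2p1_8, P2p3_2, P2p4_5, P2p4_6, P2p5_6, P2p7_8, P2p9_7,
  P2p9_8]⟩)) (.node 511 (.leaf ⟨4704196680, 8697724143803903777246275,
  7649288406592125262100082150844042778205616892881309258514599301289899099319439262193, 71777,
  [P2p1_0, P2p1_2, P2p1_3, P2p1_4, P2p1_5, P2p1_6, P2p1_7, P2p1_8, P2p3_2, P2p5_4, P2p6_4, P2p6_5,
  P2p7_8, P2p9_4, P2p9_5, P2p9_6, P2p9_7, P2p9_8]⟩) (.leaf ⟨4699215972, 4953954161418864858210336,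
  7763116661995976979254640115453348159892347232092664130374524763971564423159766516223, 71697,
  [P2p1_0, P2p2_0, P2p2_1, P2p3_0, P2p3_1, P2p3_2, P2p4_0, P2p4_1, P2p4_2, P2p4_3, P2p5_0, P2p5_1,
  P2p5_2, P2p5_3, P2p5_4, P2p6_0, P2p6_1, P2p6_2, P2p6_3, P2p6_4, P2p6_5, P2p7_8, P2p9_0, P2p9_1,
  P2p9_2, P2p9_3, P2p9_4, P2p9_5, P2p9_6, P2p9_7, P2p9_8]⟩))))))

def P2T9 : Tr :=
  .node 544 (.node 528 (.node 520 (.node 516 (.node 514 (.node 513 (.leaf ⟨4900542564,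
  4951438375122767210222624,
  6913199021647219216669682165276969563846783021491553580366003725621602347116733071759, 74769,
  [P2p1_0, P2p2_0, P2p2_1, P2p3_0, P2p3_1, P2p3_2, P2p4_0, P2p4_1, P2p4_2, P2p4_3, P2p4_5, P2p4_6,
  P2p5_0, P2p5_1, P2p5_2, P2p5_3, P2p5_6, P2p6_0, P2p6_1, P2p6_2, P2p6_3, P2p7_8, P2p9_0, P2p9_1,
  P2p9_2, P2p9_3, P2p9_7, P2p9_8]⟩) (.leaf ⟨4601698372, 4957531488495511270457376,
  7649288406592123968042388784902570591611885559806626993131468795769547765489633001983, 70209,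
  [P2p1_0, P2p2_3, P2p4_5, P2p4_6, P2p5_6, P2p7_8, P2p9_4, P2p9_5, P2p9_6, P2p9_7, P2p9_8]⟩)) (.node
  515 (.leaf ⟨4598552676, 4957531565274614396490784,
  7763116661995975280791576006006181612039317116310973112721513419097797674289133978111, 70161,
  [P2p1_0, P2p2_0, P2p2_1, P2p3_0, P2p3_1, P2p3_2, P2p4_5, P2p4_6, P2p5_6, P2p7_8, P2p9_0, P2p9_1,
  P2p9_2, P2p9_3, P2p9_4, P2p9_5, P2p9_6, P2p9_7, P2p9_8]⟩) (.leaf ⟨4603533384,
  8701301659232698823314499,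
  7649288406592123968042388784902953703816105674365509757927435795556177158932071776753, 70241,
  [P2p1_0, P2p1_2, P2p1_3, P2p1_4, P2p1_5, P2p1_6, P2p1_7, P2p1_8, P2p3_2, P2p4_5, P2p4_6, P2p5_6,
  P2p7_8, P2p9_4, P2p9_5, P2p9_6, P2p9_7, P2p9_8]⟩))) (.node 518 (.node 517 (.leaf ⟨4584659080,
  8697419766897188035169347,
  7285037989299799767254862554066647039813118006642668899970634584057696732503884759489, 69953,
  [P2p1_0, P2p1_3, P2p1_6, P2p1_7, P2p1_8, P2p2_0, P2p2_3, P2p2_6, P2p2_7, P2p2_8, P2p4_3, P2p4_6,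
  P2p5_3, P2p5_4, P2p5_6, P2p7_8, P2p9_6, P2p9_7, P2p9_8]⟩) (.leaf ⟨4584921220,
  4953763852591501602262144,
  7285037989299799767257742230981670641869562303440750100977031268152638188682199630287, 69953,
  [P2p1_0, P2p2_3, P2p4_0, P2p4_1, P2p4_2, P2p4_3, P2p4_6, P2p5_0, P2p5_1, P2p5_2, P2p5_3, P2p5_4,
  P2p5_6, P2p7_8, P2p9_6, P2p9_7, P2p9_8]⟩)) (.node 519 (.leaf ⟨4589115524,
  4953763600389922469514368,
  7285037989299799767254451171650884801798743576156040200515501780393913075635499499975, 70017,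
  [P2p1_0, P2p3_0, P2p3_1, P2p3_2, P2p4_0, P2p4_1, P2p4_2, P2p4_6, P2p5_0, P2p5_1, P2p5_2, P2p5_4,
  P2p5_6, P2p7_8, P2p9_6, P2p9_7, P2p9_8]⟩) (.leaf ⟨4853094536, 8689193707990615200993347,
  6799370766243369009255681963144945359545780718918946837039765724680623673373819994497, 74049,
  [P2p1_0, P2p1_3, P2p1_7, P2p1_8, P2p2_0, P2p2_3, P2p2_7, P2p2_8, P2p4_3, P2p5_3, P2p5_4, P2p6_3,
  P2p6_4, P2p6_5, P2p7_8, P2p9_7, P2p9_8]⟩)))) (.node 524 (.node 522 (.node 521 (.leaf ⟨4853356676,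
  4949079569709299153342624,
  6799370766243369197978188310114447617808862683503006961363122608027110126026641834383, 74049,
  [P2p1_0, P2p2_3, P2p4_0, P2p4_1, P2p4_2, P2p4_3, P2p5_0, P2p5_1, P2p5_2, P2p5_3, P2p5_4, P2p6_0,
  P2p6_1, P2p6_2, P2p6_3, P2p6_4, P2p6_5, P2p7_8, P2p9_7, P2p9_8]⟩) (.leaf ⟨4857550980,
  4949079281478923001630880,
  6799370766243368982295323913578543420401923260061251671804437739943805164151059710343, 74113,
  [P2p1_0, P2p3_0, P2p3_1, P2p3_2, P2p4_0, P2p4_1, P2p4_2, P2p5_0, P2p5_1, P2p5_2, P2p5_4, P2p6_0,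
  P2p6_1, P2p6_2, P2p6_4, P2p6_5, P2p7_8, P2p9_7, P2p9_8]⟩)) (.node 523 (.leaf ⟨4598159460,
  4957531565090686717006976,
  7740351010915205018241738561785306152553884855462145411685126854073173327768191762943, 70169,
  [P2p0_1, P2p0_2, P2p0_3, P2p1_2, P2p1_3, P2p3_2, P2p4_5, P2p4_6, P2p5_6, P2p7_8, P2p9_2, P2p9_3,
  P2p9_4, P2p9_5, P2p9_6, P2p9_7, P2p9_8]⟩) (.leaf ⟨35995814161, 1286960234457114877101061,
  6822151585640816837155324263243803239153398747295011746582875987535286322786294759427, 549250,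
  [P2p0_1, P2p3_2, P2p5_4, P2p6_4, P2p6_5, P2p7_0, P2p7_1, P2p8_0, P2p8_1, P2p8_7, P2p9_0, P2p9_1,
  P2p9_7, P2p9_8]⟩))) (.node 526 (.node 525 (.leaf ⟨9198655556, 38839140179416239246049312,
  4856775980502437462377466990900843563384264681407526534536406564327545452484841373839, 140353,
  [P2p1_0, P2p2_3, P2p4_5, P2p4_6, P2p5_6, P2p8_7, P2p8_9, P2p9_7]⟩) (.leaf ⟨8997328964,
  38842874492169660823502880,
  5706706589565189804376312381027543132475508458246919636288100021926916414798394491135, 137281,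
  [P2p1_0, P2p2_3, P2p5_4, P2p6_4, P2p6_5, P2p8_4, P2p8_5, P2p8_6, P2p8_7, P2p8_9, P2p9_4, P2p9_5,
  P2p9_6, P2p9_7]⟩)) (.node 527 (.leaf ⟨9196296344, 39035346629720170466283686,
  4856775980502437462377466990923927129695759392192559176105081074749333356604549038209, 140321,
  [P2p1_0, P2p1_2, P2p1_3, P2p1_4, P2p1_5, P2p1_6, P2p1_7, P2p2_0, P2p2_3, P2p2_4, P2p2_5, P2p2_6,
  P2p2_7, P2p3_0, P2p3_4, P2p3_5, P2p3_6, P2p3_7, P2p4_5, P2p4_6, P2p5_6, P2p8_7, P2p8_9, P2p9_7]⟩)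
  (.leaf ⟨8994969752, 39037862304443222606385318,
  5706706589565189804376312381050626698787003169031952277856774532348704318918109495537, 137249,
  [P2p1_0, P2p1_2, P2p1_3, P2p1_4, P2p1_5, P2p1_6, P2p1_7, P2p2_0, P2p2_3, P2p2_4, P2p2_5, P2p2_6,
  P2p2_7, P2p3_0, P2p3_4, P2p3_5, P2p3_6, P2p3_7, P2p5_4, P2p6_4, P2p6_5, P2p8_4, P2p8_5, P2p8_6,
  P2p8_7, P2p8_9, P2p9_4, P2p9_5, P2p9_6, P2p9_7]⟩))))) (.node 536 (.node 532 (.node 530 (.node 529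
  (.leaf ⟨9203898436, 38839140068024784955541600,
  4856775980502437462377466990901130910682414338618795111737353316829051244648436269187, 140433,
  [P2p1_0, P2p2_0, P2p2_1, P2p2_3, P2p3_0, P2p3_1, P2p4_5, P2p4_6, P2p5_6, P2p8_7, P2p8_9, P2p9_7]⟩)
  (.leaf ⟨9002571844, 38842874380778206532995168,
  5706706589565189804376312381027830479773658115458188213489046774428422206961989386483, 137361,
  [P2p1_0, P2p2_0, P2p2_1, P2p2_3, P2p3_0, P2p3_1, P2p5_4, P2p6_4, P2p6_5, P2p8_4, P2p8_5, P2p8_6,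
  P2p8_7, P2p8_9, P2p9_4, P2p9_5, P2p9_6, P2p9_7]⟩)) (.node 531 (.leaf ⟨9202587720,
  38952476828634861991628900,
  4856775980502437462377466990913582609411952828090658853763716663281653264219426062465, 140417,
  [P2p1_0, P2p1_7, P2p2_0, P2p2_7, P2p3_0, P2p3_2, P2p3_7, P2p4_5, P2p4_6, P2p5_6, P2p8_7, P2p8_9,
  P2p9_7]⟩) (.leaf ⟨9002178628, 38842874529358339530561760,
  5706706589565189804376312381027543132475441559754502772705018000456018578347510464767, 137369,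
  [P2p0_1, P2p0_2, P2p0_3, P2p1_2, P2p1_3, P2p2_3, P2p5_4, P2p6_4, P2p6_5, P2p8_4, P2p8_5, P2p8_6,
  P2p8_7, P2p8_9, P2p9_4, P2p9_5, P2p9_6, P2p9_7]⟩))) (.node 534 (.node 533 (.leaf ⟨9001523268,
  38842874349216690897945664,
  5706706589565189804376312381028213587582445780013639822497867334718304268990481367287, 137345,
  [P2p1_0, P2p3_0, P2p3_1, P2p3_2, P2p5_4, P2p6_4, P2p6_5, P2p8_4, P2p8_5, P2p8_6, P2p8_7, P2p8_9,
  P2p9_4, P2p9_5, P2p9_6, P2p9_7]⟩) (.leaf ⟨9202849860, 38839140036463269320492096,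
  4856775980502437462377466990901514018491202003174246720746173877118933306676928249991, 140417,
  [P2p1_0, P2p3_0, P2p3_1, P2p3_2, P2p4_5, P2p4_6, P2p5_6, P2p8_7, P2p8_9, P2p9_7]⟩)) (.node 535
  (.leaf ⟨9200490568, 38914698045355472692939843,
  4856775980502437462377466990901226675580277996509439003110933865267984714002353422465, 140385,
  [P2p1_0, P2p1_2, P2p1_3, P2p1_7, P2p3_2, P2p4_5, P2p4_6, P2p5_6, P2p8_7, P2p8_9, P2p9_7]⟩) (.leaf
  ⟨8999163976, 38920869634169633144900675,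
  5706706589565189804376312381027926244674019494922692629799587231211848325162623369457, 137313,
  [P2p1_0, P2p1_2, P2p1_3, P2p1_4, P2p1_5, P2p1_6, P2p1_7, P2p3_2, P2p5_4, P2p6_4, P2p6_5, P2p8_4,
  P2p8_5, P2p8_6, P2p8_7, P2p8_9, P2p9_4, P2p9_5, P2p9_6, P2p9_7]⟩)))) (.node 540 (.node 538 (.node
  537 (.leaf ⟨9195509860, 38839140293386357541345312,
  4970605972787627739274956309075307187593832934227534155800759618659600288464552001679, 140305,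
  [P2p1_0, P2p2_0, P2p2_1, P2p3_0, P2p3_1, P2p3_2, P2p4_0, P2p4_1, P2p4_2, P2p4_3, P2p4_5, P2p4_6,
  P2p5_0, P2p5_1, P2p5_2, P2p5_3, P2p5_6, P2p6_0, P2p6_1, P2p6_2, P2p6_3, P2p8_0, P2p8_1, P2p8_2,
  P2p8_3, P2p8_7, P2p8_9, P2p9_0, P2p9_1, P2p9_2, P2p9_3, P2p9_7]⟩) (.leaf ⟨8994183268,
  38842874717712824626586656,
  5820536581850380081273801699202006756685076711066927257552453076258971250778105118975, 137233,
  [P2p1_0, P2p2_0, P2p2_1, P2p3_0, P2p3_1, P2p3_2, P2p4_0, P2p4_1, P2p4_2, P2p4_3, P2p5_0, P2p5_1,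
  P2p5_2, P2p5_3, P2p5_4, P2p6_0, P2p6_1, P2p6_2, P2p6_3, P2p6_4, P2p6_5, P2p8_0, P2p8_1, P2p8_2,
  P2p8_3, P2p8_4, P2p8_5, P2p8_6, P2p8_7, P2p8_9, P2p9_0, P2p9_1, P2p9_2, P2p9_3, P2p9_4, P2p9_5,
  P2p9_6, P2p9_7]⟩)) (.node 539 (.leaf ⟨8896665668, 38846452007598455869571104,
  5706706589565188510318619015086454058085997239731120135700936516193194474411027005695, 135745,
  [P2p1_0, P2p2_3, P2p4_5, P2p4_6, P2p5_6, P2p8_4, P2p8_5, P2p8_6, P2p8_7, P2p8_9, P2p9_4, P2p9_5,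
  P2p9_6, P2p9_7]⟩) (.leaf ⟨8893126756, 38846452121348328241928320,
  5797770583393340408312313874821009723282890774626454541941363047987828131647141445887, 135705,
  [P2p0_1, P2p0_2, P2p0_3, P2p1_2, P2p1_3, P2p3_2, P2p4_5, P2p4_6, P2p5_6, P2p8_2, P2p8_3, P2p8_4,
  P2p8_5, P2p8_6, P2p8_7, P2p8_9, P2p9_2, P2p9_3, P2p9_4, P2p9_5, P2p9_6, P2p9_7]⟩))) (.node 542
  (.node 541 (.leaf ⟨8893519972, 38846452121568574164867104,
  5820536581850378382810737589754840208832046595285236239899441731385204501907472580863, 135697,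
  [P2p1_0, P2p2_0, P2p2_1, P2p3_0, P2p3_1, P2p3_2, P2p4_5, P2p4_6, P2p5_6, P2p8_0, P2p8_1, P2p8_2,
  P2p8_3, P2p8_4, P2p8_5, P2p8_6, P2p8_7, P2p8_9, P2p9_0, P2p9_1, P2p9_2, P2p9_3, P2p9_4, P2p9_5,
  P2p9_6, P2p9_7]⟩) (.leaf ⟨8901515332, 38848889320847873451202784,
  5706706589565188510318619015097181690562672665882780602305723732270214077715455148287, 135833,
  [P2p0_1, P2p0_2, P2p0_3, P2p0_4, P2p0_5, P2p0_6, P2p1_2, P2p1_3, P2p1_4, P2p1_5, P2p1_6, P2p2_3,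
  P2p2_4, P2p2_5, P2p2_6, P2p3_4, P2p3_5, P2p3_6, P2p4_5, P2p4_6, P2p5_6, P2p8_4, P2p8_5, P2p8_6,
  P2p8_7, P2p8_9, P2p9_4, P2p9_5, P2p9_6, P2p9_7]⟩)) (.node 543 (.leaf ⟨8901908548,
  38846451896207001579063392,
  5706706589565188510318619015097469037858391500012023980904636697203729641894351929587, 135825,
  [P2p1_0, P2p2_0, P2p2_1, P2p2_3, P2p2_4, P2p2_5, P2p2_6, P2p3_0, P2p3_1, P2p3_4, P2p3_5, P2p3_6,
  P2p4_5, P2p4_6, P2p5_6, P2p8_4, P2p8_5, P2p8_6, P2p8_7, P2p8_9, P2p9_4, P2p9_5, P2p9_6, P2p9_7]⟩)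
  (.leaf ⟨8900859972, 38846451864645485944013888,
  5706706589565188510318619015097851981978995783506348751100755993269913502458399097079, 135809,
  [P2p1_0, P2p3_0, P2p3_1, P2p3_2, P2p3_4, P2p3_5, P2p3_6, P2p4_5, P2p4_6, P2p5_6, P2p8_4, P2p8_5,
  P2p8_6, P2p8_7, P2p8_9, P2p9_4, P2p9_5, P2p9_6, P2p9_7]⟩)))))) (.node 560 (.node 552 (.node 548
  (.node 546 (.node 545 (.leaf ⟨8898500680, 38924447149598428190968899,
  5706706589565188510318619015086837170284508276406893129212423725478126384775255884017, 135777,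
  [P2p1_0, P2p1_2, P2p1_3, P2p1_4, P2p1_5, P2p1_6, P2p1_7, P2p3_2, P2p4_5, P2p4_6, P2p5_6, P2p8_4,
  P2p8_5, P2p8_6, P2p8_7, P2p8_9, P2p9_4, P2p9_5, P2p9_6, P2p9_7]⟩) (.leaf ⟨8879626376,
  38920565257262917402823747,
  5342450614252580918353712452843249715117524495013641260365231444647160546598115147969, 135489,
  [P2p1_0, P2p1_3, P2p1_6, P2p1_7, P2p2_0, P2p2_3, P2p2_6, P2p2_7, P2p4_3, P2p4_6, P2p5_3, P2p5_4,
  P2p5_6, P2p8_6, P2p8_7, P2p8_9, P2p9_6, P2p9_7]⟩)) (.node 547 (.leaf ⟨8879888516,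
  38842646325284794175392896,
  5342450614252580918356592129758273691324097026405979292799425094612252517773370917071, 135489,
  [P2p1_0, P2p2_3, P2p4_0, P2p4_1, P2p4_2, P2p4_3, P2p4_6, P2p5_0, P2p5_1, P2p5_2, P2p5_3, P2p5_4,
  P2p5_6, P2p8_6, P2p8_7, P2p8_9, P2p9_6, P2p9_7]⟩) (.leaf ⟨8884082820, 38842646073083215042645120,
  5342450614252580918353301070427487851253278299121269392337895606853527404726670786759, 135553,
  [P2p1_0, P2p3_0, P2p3_1, P2p3_2, P2p4_0, P2p4_1, P2p4_2, P2p4_6, P2p5_0, P2p5_1, P2p5_2, P2p5_4,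
  P2p5_6, P2p8_6, P2p8_7, P2p8_9, P2p9_6, P2p9_7]⟩))) (.node 550 (.node 549 (.leaf ⟨9148061832,
  38912339198356344568647747,
  4856775980502438972118024753378507478824084598010900596438264059984710981027753427073, 139585,
  [P2p1_0, P2p1_3, P2p1_7, P2p2_0, P2p2_3, P2p2_7, P2p4_3, P2p5_3, P2p5_4, P2p6_3, P2p6_4, P2p6_5,
  P2p8_7, P2p8_9, P2p9_7]⟩) (.leaf ⟨9148323972, 38836781450781874314121376,
  4856775980502439160840531100348010111237294797189217552189417909201347948677516165263, 139585,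
  [P2p1_0, P2p2_3, P2p4_0, P2p4_1, P2p4_2, P2p4_3, P2p5_0, P2p5_1, P2p5_2, P2p5_3, P2p5_4, P2p6_0,
  P2p6_1, P2p6_2, P2p6_3, P2p6_4, P2p6_5, P2p8_7, P2p8_9, P2p9_7]⟩)) (.node 551 (.leaf ⟨9152518276,
  38836781162551498162409632,
  4856775980502438945157666703812105913830355373747462262630733041118042986801934041223, 139649,
  [P2p1_0, P2p3_0, P2p3_1, P2p3_2, P2p4_0, P2p4_1, P2p4_2, P2p5_0, P2p5_1, P2p5_2, P2p5_4, P2p6_0,
  P2p6_1, P2p6_2, P2p6_4, P2p6_5, P2p8_7, P2p8_9, P2p9_7]⟩) (.leaf ⟨36046133320,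
  240880867636140891433177188,
  6799385587178477027404872029466337976257486161894620779480420677611797120065285981057, 550017,
  [P2p1_0, P2p1_7, P2p1_8, P2p1_9, P2p2_0, P2p2_7, P2p2_8, P2p2_9, P2p3_0, P2p3_2, P2p3_7, P2p3_8,
  P2p3_9, P2p4_5, P2p4_6, P2p5_6, P2p8_7, P2p9_7, P2p9_8]⟩)))) (.node 556 (.node 554 (.node 553
  (.leaf ⟨35536523544, 320743170826211082828353702,
  6799385587178502504903735857070476851572491676369137530008019236068983841297795187585, 542241,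
  [P2p1_0, P2p1_2, P2p1_3, P2p1_7, P2p1_8, P2p1_9, P2p2_0, P2p2_3, P2p2_7, P2p2_8, P2p2_9, P2p3_0,
  P2p3_7, P2p3_8, P2p3_9, P2p4_0, P2p4_7, P2p4_8, P2p4_9, P2p5_0, P2p5_4, P2p5_7, P2p5_8, P2p5_9,
  P2p6_0, P2p6_4, P2p6_5, P2p6_7, P2p6_8, P2p6_9, P2p8_7, P2p9_7, P2p9_8]⟩) (.leaf ⟨35509523012,
  240883376396752197895914560,
  6799385587178477890096842929662212239594440751787042152938681113401772378817326154631, 541825,
  [P2p1_0, P2p3_0, P2p3_1, P2p3_2, P2p3_5, P2p3_6, P2p3_7, P2p3_8, P2p3_9, P2p4_5, P2p4_6, P2p4_7,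
  P2p4_8, P2p4_9, P2p6_5, P2p8_7, P2p9_7, P2p9_8]⟩)) (.node 555 (.leaf ⟨35576369736,
  360683727791114998608203876,
  6799385587178477027780052491957602403661994703721755942006901660856889169675074732929, 542849,
  [P2p1_0, P2p1_6, P2p1_7, P2p1_8, P2p1_9, P2p2_0, P2p2_6, P2p2_7, P2p2_8, P2p2_9, P2p3_0, P2p3_2,
  P2p3_6, P2p3_7, P2p3_8, P2p3_9, P2p4_6, P2p4_7, P2p4_8, P2p4_9, P2p5_4, P2p5_6, P2p5_7, P2p5_8,
  P2p5_9, P2p8_7, P2p9_7, P2p9_8]⟩) (.leaf ⟨4908537924, 4951438335532342791346400,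
  6799370766243367499515124200667281069955765669228899080127029241682409793383083016591, 74905,
  [P2p0_1, P2p0_2, P2p0_3, P2p1_2, P2p1_3, P2p2_3, P2p4_5, P2p4_6, P2p5_6, P2p7_8, P2p9_7,
  P2p9_8]⟩))) (.node 558 (.node 557 (.leaf ⟨4850997528, 12431745168678425256267942,
  6799370766243368793572817566645246380984078628706642676788437864413070745849355633025, 74017,
  [P2p1_0, P2p1_2, P2p1_3, P2p1_7, P2p1_8, P2p2_0, P2p2_3, P2p2_7, P2p2_8, P2p3_0, P2p3_7, P2p3_8,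
  P2p5_4, P2p6_4, P2p6_5, P2p7_8, P2p9_7, P2p9_8]⟩) (.leaf ⟨4850211108, 8695286830735902390716448,
  6799370766243368793572817566609040603836696817015750262625530446103932089926705676799, 74001,
  [P2p1_0, P2p2_0, P2p2_1, P2p3_0, P2p3_1, P2p3_2, P2p5_4, P2p6_4, P2p6_5, P2p7_8, P2p9_7,
  P2p9_8]⟩)) (.node 559 (.leaf ⟨4853356836, 12439057034053712197391392,
  6799370766243368793572817566655878231028059626592542820244813106268578019551259591167, 74049,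
  [P2p1_0, P2p2_3, P2p2_4, P2p2_5, P2p2_6, P2p2_7, P2p2_8, P2p3_4, P2p3_5, P2p3_6, P2p3_7, P2p3_8,
  P2p5_4, P2p6_4, P2p6_5, P2p7_8, P2p9_7, P2p9_8]⟩) (.leaf ⟨4450441608, 8691552621417837825758275,
  6799370766243378067975479630959439605822353270409970173338306908163140969059223929217, 67905,
  [P2p1_0, P2p1_3, P2p1_7, P2p1_8, P2p2_0, P2p2_3, P2p2_7, P2p2_8, P2p4_3, P2p4_5, P2p4_6, P2p4_7,
  P2p4_8, P2p5_3, P2p5_6, P2p5_7, P2p5_8, P2p6_3, P2p6_7, P2p6_8, P2p7_8, P2p9_7, P2p9_8]⟩)))))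
  (.node 568 (.node 564 (.node 562 (.node 561 (.leaf ⟨4404304152, 16169422223822851693187337,
  6799370766243379496834963244773146624178147870218833632396226263639399971953869652353, 67201,
  [P2p1_0, P2p1_7, P2p1_8, P2p2_0, P2p2_7, P2p2_8, P2p3_0, P2p3_2, P2p3_7, P2p3_8, P2p4_0, P2p4_2,
  P2p4_3, P2p4_7, P2p4_8, P2p5_0, P2p5_2, P2p5_3, P2p5_4, P2p5_7, P2p5_8, P2p6_0, P2p6_2, P2p6_3,
  P2p6_4, P2p6_5, P2p6_7, P2p6_8, P2p7_8, P2p9_7, P2p9_8]⟩) (.leaf ⟨4400372004,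
  12429307929810756699362336,
  6799370766243379146350308600400733919217401110067494959335912357232092250666009821583, 67137,
  [P2p1_0, P2p2_3, P2p2_7, P2p2_8, P2p3_7, P2p3_8, P2p4_7, P2p4_8, P2p5_4, P2p5_7, P2p5_8, P2p6_4,
  P2p6_5, P2p6_7, P2p6_8, P2p7_8, P2p9_7, P2p9_8]⟩)) (.node 563 (.leaf ⟨4450703748,
  7444847987253912670442688,
  6799370766243378256697985977928941864085435234994030297661663791638754630228012630415, 67905,
  [P2p1_0, P2p2_3, P2p4_0, P2p4_1, P2p4_2, P2p4_3, P2p4_5, P2p4_6, P2p4_7, P2p4_8, P2p5_0, P2p5_1,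
  P2p5_2, P2p5_3, P2p5_6, P2p5_7, P2p5_8, P2p6_0, P2p6_1, P2p6_2, P2p6_3, P2p6_7, P2p6_8, P2p7_8,
  P2p9_7, P2p9_8]⟩) (.leaf ⟨4398012696, 12429307892617686385004710,
  6799370766243379173310666649967901533214396991864524948145199066941487289787031290241, 67105,
  [P2p1_0, P2p1_2, P2p1_3, P2p1_7, P2p1_8, P2p2_0, P2p2_3, P2p2_7, P2p2_8, P2p3_0, P2p3_7, P2p3_8,
  P2p4_0, P2p4_7, P2p4_8, P2p5_0, P2p5_4, P2p5_7, P2p5_8, P2p6_0, P2p6_4, P2p6_5, P2p6_7, P2p6_8,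
  P2p7_8, P2p9_7, P2p9_8]⟩))) (.node 566 (.node 565 (.leaf ⟨4448344344, 12432885408046481431072934,
  6799370766243377852292615234459740627260651180197666013086979038598429028385145553281, 67873,
  [P2p1_0, P2p1_2, P2p1_3, P2p1_7, P2p1_8, P2p2_0, P2p2_3, P2p2_7, P2p2_8, P2p3_0, P2p3_7, P2p3_8,
  P2p4_5, P2p4_6, P2p4_7, P2p4_8, P2p5_6, P2p5_7, P2p5_8, P2p6_7, P2p6_8, P2p7_8, P2p9_7, P2p9_8]⟩)
  (.leaf ⟨4447557924, 12436541324536717675431968,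
  6799370766243377852292615234423534850113269368506773598924071620289290372462495597055, 67857,
  [P2p1_0, P2p2_0, P2p2_1, P2p3_0, P2p3_1, P2p3_2, P2p4_5, P2p4_6, P2p4_7, P2p4_8, P2p5_6, P2p5_7,
  P2p5_8, P2p6_7, P2p6_8, P2p7_8, P2p9_7, P2p9_8]⟩)) (.node 567 (.leaf ⟨4397226276,
  8689193640584055204448288,
  6799370766243379146350308600364623924502780587022573099511235126023012312849855742351, 67089,
  [P2p1_0, P2p2_0, P2p2_1, P2p3_0, P2p3_1, P2p3_2, P2p4_7, P2p4_8, P2p5_4, P2p5_7, P2p5_8, P2p6_4,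
  P2p6_5, P2p6_7, P2p6_8, P2p7_8, P2p9_7, P2p9_8]⟩) (.leaf ⟨4454898052, 7444847662994739499766976,
  6799370766243378041015121581393037666678495811552275008102978923407875715762754093447, 67969,
  [P2p1_0, P2p3_0, P2p3_1, P2p3_2, P2p4_0, P2p4_1, P2p4_2, P2p4_5, P2p4_6, P2p4_7, P2p4_8, P2p5_0,
  P2p5_1, P2p5_2, P2p5_6, P2p5_7, P2p5_8, P2p6_0, P2p6_1, P2p6_2, P2p6_7, P2p6_8, P2p7_8, P2p9_7,
  P2p9_8]⟩)))) (.node 572 (.node 570 (.node 569 (.leaf ⟨4450703652, 16180311527854527482106912,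
  6799370766243377852292615234470372477304632178083566156543354280453936302087049511423, 67905,
  [P2p1_0, P2p2_3, P2p2_4, P2p2_5, P2p2_6, P2p2_7, P2p2_8, P2p3_4, P2p3_5, P2p3_6, P2p3_7, P2p3_8,
  P2p4_5, P2p4_6, P2p4_7, P2p4_8, P2p5_6, P2p5_7, P2p5_8, P2p6_7, P2p6_8, P2p7_8, P2p9_7, P2p9_8]⟩)
  (.leaf ⟨4452538760, 8691552629299137173656643,
  6799370766243378175816911829228109481594453848525874234107501315197541336577230045569, 67937,
  [P2p1_0, P2p1_2, P2p1_3, P2p1_7, P2p1_8, P2p3_2, P2p4_2, P2p4_3, P2p4_5, P2p4_6, P2p4_7, P2p4_8,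
  P2p5_2, P2p5_3, P2p5_6, P2p5_7, P2p5_8, P2p6_2, P2p6_3, P2p6_7, P2p6_8, P2p7_8, P2p9_7, P2p9_8]⟩))
  (.node 571 (.leaf ⟨4433664392, 8690339711966194402693187,
  6799370766243378499341205260373314275963001787589051828211337554620530496500520255873, 67649,
  [P2p1_0, P2p1_3, P2p1_7, P2p1_8, P2p2_0, P2p2_3, P2p2_7, P2p2_8, P2p5_3, P2p5_4, P2p5_6, P2p5_7,
  P2p5_8, P2p6_3, P2p6_4, P2p6_7, P2p6_8, P2p7_8, P2p9_7, P2p9_8]⟩) (.leaf ⟨4433926532,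
  6196930325162464727109792,
  6799370766243378688063711563403104386519318405322585990081029525379656046421067366799, 67649,
  [P2p1_0, P2p2_3, P2p5_0, P2p5_1, P2p5_2, P2p5_3, P2p5_4, P2p5_6, P2p5_7, P2p5_8, P2p6_0, P2p6_1,
  P2p6_2, P2p6_3, P2p6_4, P2p6_7, P2p6_8, P2p7_8, P2p9_7, P2p9_8]⟩))) (.node 574 (.node 573 (.leaf
  ⟨4438120836, 6196930036932088575398048,
  6799370766243378472380847217084014072205825092567146086183675985967620687668084932999, 67713,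
  [P2p1_0, P2p3_0, P2p3_1, P2p3_2, P2p5_0, P2p5_1, P2p5_2, P2p5_4, P2p5_6, P2p5_7, P2p5_8, P2p6_0,
  P2p6_1, P2p6_2, P2p6_4, P2p6_7, P2p6_8, P2p7_8, P2p9_7, P2p9_8]⟩) (.leaf ⟨4435761544,
  8690339718721593843748931,
  6799370766243378607182637433533577210188379310361798196149866297245509086162388320641, 67681,
  [P2p1_0, P2p1_2, P2p1_3, P2p1_7, P2p1_8, P2p3_2, P2p5_2, P2p5_3, P2p5_4, P2p5_6, P2p5_7, P2p5_8,
  P2p6_2, P2p6_3, P2p6_4, P2p6_7, P2p6_8, P2p7_8, P2p9_7, P2p9_8]⟩)) (.node 575 (.leaf ⟨4364458392,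
  12429533865232589323931814,
  6799370766243379146185755935133495798098783320821351691051453349276534829184079430017, 66593,
  [P2p1_0, P2p1_2, P2p1_3, P2p1_4, P2p1_5, P2p1_7, P2p1_8, P2p2_0, P2p2_3, P2p2_4, P2p2_5, P2p2_7,
  P2p2_8, P2p3_0, P2p3_4, P2p3_5, P2p3_7, P2p3_8, P2p4_5, P2p6_4, P2p6_5, P2p6_7, P2p6_8, P2p7_8,
  P2p9_7, P2p9_8]⟩) (.leaf ⟨4903429192, 240578636324191406480559174,
  5828036321036916240802044525409991708873516315561421230759514815111381746082374025217, 74817,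
  [P2p1_0, P2p1_3, P2p2_0, P2p2_3, P2p4_0, P2p4_5, P2p4_6, P2p4_8, P2p4_9, P2p5_0, P2p5_6, P2p5_8,
  P2p5_9, P2p6_0, P2p6_8, P2p6_9, P2p7_0, P2p7_8, P2p7_9, P2p9_8]⟩))))))

def P2T10 : Tr :=
  .node 608 (.node 592 (.node 584 (.node 580 (.node 578 (.node 577 (.leaf ⟨4702364740,
  120893840057964183744020611,
  5828036321061632661251295154887008473915658424552129728937338976051028304213161476111, 71745,
  [P2p1_0, P2p2_3, P2p5_4, P2p6_4, P2p6_5, P2p7_0, P2p7_1, P2p7_2, P2p7_3, P2p7_8, P2p7_9, P2p9_8]⟩)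
  (.leaf ⟨4903691332, 240578636550753577044410598,
  5828036321061652477153954599963163514321833643315867419187432671361578479608235229199, 74817,
  [P2p1_0, P2p2_3, P2p4_0, P2p4_1, P2p4_2, P2p4_3, P2p4_5, P2p4_6, P2p4_8, P2p4_9, P2p5_0, P2p5_1,
  P2p5_2, P2p5_3, P2p5_6, P2p5_8, P2p5_9, P2p6_0, P2p6_1, P2p6_2, P2p6_3, P2p6_8, P2p6_9, P2p7_0,
  P2p7_1, P2p7_2, P2p7_3, P2p7_8, P2p7_9, P2p9_8]⟩)) (.node 579 (.leaf ⟨4700005528,
  360268464021076964427337897,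
  5828036321036896802344397774357226632226708416935553554496048402660026282750293114881, 71713,
  [P2p1_0, P2p1_2, P2p1_3, P2p1_4, P2p1_5, P2p1_6, P2p1_8, P2p1_9, P2p2_0, P2p2_3, P2p2_4, P2p2_5,
  P2p2_6, P2p2_8, P2p2_9, P2p3_0, P2p3_4, P2p3_5, P2p3_6, P2p3_8, P2p3_9, P2p5_4, P2p6_4, P2p6_5,
  P2p7_0, P2p7_8, P2p7_9, P2p9_8]⟩) (.leaf ⟨4901332120, 479953260402293415299158188,
  5828036321036916240802044525494376030733599331584459162151350781439867970676620066817, 74785,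
  [P2p1_0, P2p1_2, P2p1_3, P2p1_4, P2p1_5, P2p1_6, P2p1_8, P2p1_9, P2p2_0, P2p2_3, P2p2_4, P2p2_5,
  P2p2_6, P2p2_8, P2p2_9, P2p3_0, P2p3_4, P2p3_5, P2p3_6, P2p3_8, P2p3_9, P2p4_0, P2p4_5, P2p4_6,
  P2p4_8, P2p4_9, P2p5_0, P2p5_6, P2p5_8, P2p5_9, P2p6_0, P2p6_8, P2p6_9, P2p7_0, P2p7_8, P2p7_9,
  P2p9_8]⟩))) (.node 582 (.node 581 (.leaf ⟨4707607620, 120893839835036002189183107,
  5828036321040430496473954542932296251204893059573468498425025843552706466404106436611, 71825,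
  [P2p1_0, P2p2_0, P2p2_1, P2p2_3, P2p3_0, P2p3_1, P2p5_4, P2p6_4, P2p6_5, P2p7_0, P2p7_1, P2p7_8,
  P2p7_9, P2p9_8]⟩) (.leaf ⟨4908934212, 240578636216361304712153318,
  5828036321040449988852317393203589312840253160524492975022441267551220795397397217283, 74897,
  [P2p1_0, P2p2_0, P2p2_1, P2p2_3, P2p3_0, P2p3_1, P2p4_0, P2p4_1, P2p4_5, P2p4_6, P2p4_8, P2p4_9,
  P2p5_0, P2p5_1, P2p5_6, P2p5_8, P2p5_9, P2p6_0, P2p6_1, P2p6_8, P2p6_9, P2p7_0, P2p7_1, P2p7_8,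
  P2p7_9, P2p9_8]⟩)) (.node 583 (.leaf ⟨4706296904, 120893839800020886171586660,
  5828036321036896802344397774273321203530954483849682080568078252767978710503715307521, 71809,
  [P2p1_0, P2p2_0, P2p3_0, P2p3_2, P2p5_4, P2p6_4, P2p6_5, P2p7_0, P2p7_8, P2p7_9, P2p9_8]⟩) (.leaf
  ⟨4907623496, 240578636181237302683668582,
  5828036321036916240802044525410470602037845398498587688223380631547820398430042259457, 74881,
  [P2p1_0, P2p2_0, P2p3_0, P2p3_2, P2p4_0, P2p4_5, P2p4_6, P2p4_8, P2p4_9, P2p5_0, P2p5_6, P2p5_8,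
  P2p5_9, P2p6_0, P2p6_8, P2p6_9, P2p7_0, P2p7_8, P2p7_9, P2p9_8]⟩)))) (.node 588 (.node 586 (.node
  585 (.leaf ⟨4706559044, 120893839805762604611273859,
  5828036321047497884733068080251012549016652398192230043338266365509197738423481729031, 71809,
  [P2p1_0, P2p3_0, P2p3_1, P2p3_2, P2p5_4, P2p6_4, P2p6_5, P2p7_0, P2p7_1, P2p7_2, P2p7_8, P2p7_9,
  P2p9_8]⟩) (.leaf ⟨4907885636, 240578636190465606854771942,
  5828036321047517484952863128790592936908950871747492257819907879945057349550700167175, 74881,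
  [P2p1_0, P2p3_0, P2p3_1, P2p3_2, P2p4_0, P2p4_1, P2p4_2, P2p4_5, P2p4_6, P2p4_8, P2p4_9, P2p5_0,
  P2p5_1, P2p5_2, P2p5_6, P2p5_8, P2p5_9, P2p6_0, P2p6_1, P2p6_2, P2p6_8, P2p6_9, P2p7_0, P2p7_1,
  P2p7_2, P2p7_8, P2p7_9, P2p9_8]⟩)) (.node 587 (.leaf ⟨4704199752, 120893839948604455142952003,
  5828036321036896802344397774273225421098416341490902536204156515907486589223476985857, 71777,
  [P2p1_0, P2p1_2, P2p1_3, P2p3_2, P2p5_4, P2p6_4, P2p6_5, P2p7_0, P2p7_8, P2p7_9, P2p9_8]⟩) (.leaf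
  ⟨4905526344, 240578636329820906014772294,
  5828036321036916240802044525410374819605307256139808143859458894687328277149803937793, 74849,
  [P2p1_0, P2p1_2, P2p1_3, P2p3_2, P2p4_0, P2p4_5, P2p4_6, P2p4_8, P2p4_9, P2p5_0, P2p5_6, P2p5_8,
  P2p5_9, P2p6_0, P2p6_8, P2p6_9, P2p7_0, P2p7_8, P2p7_9, P2p9_8]⟩))) (.node 590 (.node 589 (.leaf
  ⟨4699219044, 120893840023170241362269315,
  5828036321061633065656665898393756406870530352596656064331442483258223654088261697551, 71697,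
  [P2p1_0, P2p2_0, P2p2_1, P2p3_0, P2p3_1, P2p3_2, P2p4_0, P2p4_1, P2p4_2, P2p4_3, P2p5_0, P2p5_1,
  P2p5_2, P2p5_3, P2p5_4, P2p6_0, P2p6_1, P2p6_2, P2p6_3, P2p6_4, P2p6_5, P2p7_0, P2p7_1, P2p7_2,
  P2p7_3, P2p7_8, P2p7_9, P2p9_8]⟩) (.leaf ⟨4900545636, 240578636515959634662662374,
  5828036321061652477153954599963833973813186674094502237515688339428729021481106735119, 74769,
  [P2p1_0, P2p2_0, P2p2_1, P2p3_0, P2p3_1, P2p3_2, P2p4_0, P2p4_1, P2p4_2, P2p4_3, P2p4_5, P2p4_6,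
  P2p4_8, P2p4_9, P2p5_0, P2p5_1, P2p5_2, P2p5_3, P2p5_6, P2p5_8, P2p5_9, P2p6_0, P2p6_1, P2p6_2,
  P2p6_3, P2p6_8, P2p6_9, P2p7_0, P2p7_1, P2p7_2, P2p7_3, P2p7_8, P2p7_9, P2p9_8]⟩)) (.node 591
  (.leaf ⟨4901151844, 240578636504337453159686374,
  5828036321049284358977999562686577615251406773381874095918166421783443939106117648392, 74790,
  [P2p0_3, P2p1_0, P2p1_3, P2p2_0, P2p2_1, P2p2_3, P2p4_3, P2p4_5, P2p4_6, P2p4_8, P2p4_9, P2p5_3,
  P2p5_6, P2p5_8, P2p5_9, P2p6_3, P2p6_8, P2p6_9, P2p7_3, P2p7_8, P2p7_9, P2p9_8]⟩) (.leaf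
  ⟨4601701444, 120897417573392978790088835,
  5828036321061631367193601788945919399526147206036330228350175470317306363825793990671, 70209,
  [P2p1_0, P2p2_3, P2p4_5, P2p4_6, P2p5_6, P2p7_0, P2p7_1, P2p7_2, P2p7_3, P2p7_8, P2p7_9,
  P2p9_8]⟩))))) (.node 600 (.node 596 (.node 594 (.node 593 (.leaf ⟨4584662152,
  240580961766866198490844230,
  5828036321036895508612930363261475196911505880501831149841356311329242930622180687873, 69953,
  [P2p1_0, P2p1_3, P2p2_0, P2p2_3, P2p4_0, P2p4_3, P2p4_6, P2p4_8, P2p4_9, P2p5_0, P2p5_3, P2p5_4,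
  P2p5_6, P2p5_8, P2p5_9, P2p7_0, P2p7_8, P2p7_9, P2p9_8]⟩) (.leaf ⟨4584924292,
  240580961993428369054698726,
  5828036321061631367522296038374233581843855940930017820677955451461315902108385345551, 69953,
  [P2p1_0, P2p2_3, P2p4_0, P2p4_1, P2p4_2, P2p4_3, P2p4_6, P2p4_8, P2p4_9, P2p5_0, P2p5_1, P2p5_2,
  P2p5_3, P2p5_4, P2p5_6, P2p5_8, P2p5_9, P2p7_0, P2p7_1, P2p7_2, P2p7_3, P2p7_8, P2p7_9, P2p9_8]⟩))
  (.node 595 (.leaf ⟨4582565016, 360268159649799748219736233,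
  5828036321036895508609639304009805666818086136911940797587732618455858769388525125633, 69921,
  [P2p1_0, P2p1_2, P2p1_3, P2p1_6, P2p1_8, P2p1_9, P2p2_0, P2p2_3, P2p2_6, P2p2_8, P2p2_9, P2p3_0,
  P2p3_6, P2p3_8, P2p3_9, P2p4_0, P2p4_6, P2p4_8, P2p4_9, P2p5_0, P2p5_4, P2p5_6, P2p5_8, P2p5_9,
  P2p7_0, P2p7_8, P2p7_9, P2p9_8]⟩) (.leaf ⟨4590167172, 240580961659036096722439398,
  5828036321040429202740018837422336916366456502374211460158697118137824613441149796355, 70033,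
  [P2p1_0, P2p2_0, P2p2_1, P2p2_3, P2p3_0, P2p3_1, P2p4_0, P2p4_1, P2p4_6, P2p4_8, P2p4_9, P2p5_0,
  P2p5_1, P2p5_4, P2p5_6, P2p5_8, P2p5_9, P2p7_0, P2p7_1, P2p7_8, P2p7_9, P2p9_8]⟩))) (.node 598
  (.node 597 (.leaf ⟨4588856456, 240580961623912094693920870,
  5828036321036895508609639303930497794898078914387567520633925327215568615731061915649, 70017,
  [P2p1_0, P2p2_0, P2p3_0, P2p3_2, P2p4_0, P2p4_6, P2p4_8, P2p4_9, P2p5_0, P2p5_4, P2p5_6, P2p5_8,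
  P2p5_9, P2p7_0, P2p7_8, P2p7_9, P2p9_8]⟩) (.leaf ⟨4589118596, 240580961633140398865059046,
  5828036321047496591000777904406781361767093865518688048407586040369372369079918592007, 70017,
  [P2p1_0, P2p3_0, P2p3_1, P2p3_2, P2p4_0, P2p4_1, P2p4_2, P2p4_6, P2p4_8, P2p4_9, P2p5_0, P2p5_1,
  P2p5_2, P2p5_4, P2p5_6, P2p5_8, P2p5_9, P2p7_0, P2p7_1, P2p7_2, P2p7_8, P2p7_9, P2p9_8]⟩)) (.node
  599 (.leaf ⟨4853097608, 280470829530104576123965511,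
  5828036321036917750542602287887655435776904279285696207115130501720044482472928935937, 74049,
  [P2p1_0, P2p1_3, P2p2_0, P2p2_3, P2p4_0, P2p4_3, P2p4_8, P2p4_9, P2p5_0, P2p5_3, P2p5_4, P2p5_8,
  P2p5_9, P2p6_0, P2p6_3, P2p6_4, P2p6_5, P2p6_8, P2p6_9, P2p7_0, P2p7_8, P2p7_9, P2p9_8]⟩) (.leaf
  ⟨4853359748, 280470829757828930478379271,
  5828036321061653771211647965904252588711344861831666919774596177095552340580795088911, 74049,
  [P2p1_0, P2p2_3, P2p4_0, P2p4_1, P2p4_2, P2p4_3, P2p4_8, P2p4_9, P2p5_0, P2p5_1, P2p5_2, P2p5_3,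
  P2p5_4, P2p5_8, P2p5_9, P2p6_0, P2p6_1, P2p6_2, P2p6_3, P2p6_4, P2p6_5, P2p6_8, P2p6_9, P2p7_0,
  P2p7_1, P2p7_2, P2p7_3, P2p7_8, P2p7_9, P2p9_8]⟩)))) (.node 604 (.node 602 (.node 601 (.leaf
  ⟨4851000472, 360259933554864378366562473,
  5828036321036917534859737891424737472646368225456762869798800950320067886897548034049, 74017,
  [P2p1_0, P2p1_2, P2p1_3, P2p1_8, P2p1_9, P2p2_0, P2p2_3, P2p2_8, P2p2_9, P2p3_0, P2p3_8, P2p3_9,
  P2p4_0, P2p4_8, P2p4_9, P2p5_0, P2p5_4, P2p5_8, P2p5_9, P2p6_0, P2p6_4, P2p6_5, P2p6_8, P2p6_9,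
  P2p7_0, P2p7_8, P2p7_9, P2p9_8]⟩) (.leaf ⟨4858602628, 280470829386281961220313351,
  5828036321040451282910010759144678387229764379040292475609604773285191278670236549123, 74129,
  [P2p1_0, P2p2_0, P2p2_1, P2p2_3, P2p3_0, P2p3_1, P2p4_0, P2p4_1, P2p4_8, P2p4_9, P2p5_0, P2p5_1,
  P2p5_4, P2p5_8, P2p5_9, P2p6_0, P2p6_1, P2p6_4, P2p6_5, P2p6_8, P2p6_9, P2p7_0, P2p7_1, P2p7_8,
  P2p7_9, P2p9_8]⟩)) (.node 603 (.leaf ⟨4857291912, 280470829351121675308077159,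
  5828036321036917534859737891351559676427356617014387188810544137281790318752928169985, 74113,
  [P2p1_0, P2p2_0, P2p3_0, P2p3_2, P2p4_0, P2p4_8, P2p4_9, P2p5_0, P2p5_4, P2p5_8, P2p5_9, P2p6_0,
  P2p6_4, P2p6_5, P2p6_8, P2p6_9, P2p7_0, P2p7_8, P2p7_9, P2p9_8]⟩) (.leaf ⟨4857554052,
  280470829361512163269775623,
  5828036321047518779010556494731682011298462090263291758407071385679028958723446341639, 74113,
  [P2p1_0, P2p3_0, P2p3_1, P2p3_2, P2p4_0, P2p4_1, P2p4_2, P2p4_8, P2p4_9, P2p5_0, P2p5_1, P2p5_2,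
  P2p5_4, P2p5_8, P2p5_9, P2p6_0, P2p6_1, P2p6_2, P2p6_4, P2p6_5, P2p6_8, P2p6_9, P2p7_0, P2p7_1,
  P2p7_2, P2p7_8, P2p7_9, P2p9_8]⟩))) (.node 606 (.node 605 (.leaf ⟨4849771672,
  280470829354538854367986759,
  5828036321035150660834601457528655893805182173796283986580155635310806108343537958912, 74006,
  [P2p1_0, P2p3_0, P2p3_1, P2p3_2, P2p3_8, P2p3_9, P2p4_8, P2p4_9, P2p5_4, P2p5_8, P2p5_9, P2p6_4,
  P2p6_5, P2p6_8, P2p6_9, P2p7_8, P2p7_9, P2p9_8]⟩) (.leaf ⟨9739719236, 278246740009216834047902784,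
  3885426714359089958886491885805149696358007569038452038849595397562222068428647628807, 148609,
  [P2p1_0, P2p3_0, P2p3_1, P2p3_2, P2p3_5, P2p3_6, P2p3_7, P2p3_8, P2p3_9, P2p4_5, P2p4_6, P2p4_7,
  P2p4_8, P2p4_9, P2p6_5, P2p7_8, P2p7_9, P2p8_9]⟩)) (.node 607 (.leaf ⟨9806565960,
  398047091403579634760192100,
  3885426714359089096569701448100539860425561520973165827917815945017338859286396207105, 149633,
  [P2p1_0, P2p1_6, P2p1_7, P2p1_8, P2p1_9, P2p2_0, P2p2_6, P2p2_7, P2p2_8, P2p2_9, P2p3_0, P2p3_2,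
  P2p3_6, P2p3_7, P2p3_8, P2p3_9, P2p4_6, P2p4_7, P2p4_8, P2p4_9, P2p5_4, P2p5_6, P2p5_7, P2p5_8,
  P2p5_9, P2p7_8, P2p7_9, P2p8_9]⟩) (.leaf ⟨8997069896, 154781541824047565129256004,
  3885441651088056002522935988077389812482965367868710879571071772240995405850405830657, 137281,
  [P2p1_0, P2p1_3, P2p2_0, P2p2_3, P2p5_4, P2p6_4, P2p6_5, P2p7_0, P2p7_9, P2p8_0, P2p8_7,
  P2p8_9]⟩)))))) (.node 624 (.node 616 (.node 612 (.node 610 (.node 609 (.leaf ⟨9198396488,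
  232153934518751959419325510,
  3885441651088068539128922050044150330545800435846401262635904363030739037205362704385, 140353,
  [P2p1_0, P2p1_3, P2p2_0, P2p2_3, P2p4_0, P2p4_5, P2p4_6, P2p4_9, P2p5_0, P2p5_6, P2p5_9, P2p6_0,
  P2p6_9, P2p7_0, P2p7_9, P2p8_0, P2p8_7, P2p8_9]⟩) (.leaf ⟨8997332036, 154781541976227774074060964,
  3885443272202041183856569298685346097662708337288110304372094864366659762691335192591, 137281,
  [P2p1_0, P2p2_3, P2p5_4, P2p6_4, P2p6_5, P2p7_0, P2p7_1, P2p7_2, P2p7_3, P2p7_9, P2p8_0, P2p8_1,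
  P2p8_2, P2p8_3, P2p8_7, P2p8_9]⟩)) (.node 611 (.leaf ⟨9198658628, 232153934745314129983176934,
  3885443272202054097907568054591112257624827709380632770031718771687111881515038867471, 140353,
  [P2p1_0, P2p2_3, P2p4_0, P2p4_1, P2p4_2, P2p4_3, P2p4_5, P2p4_6, P2p4_9, P2p5_0, P2p5_1, P2p5_2,
  P2p5_3, P2p5_6, P2p5_9, P2p6_0, P2p6_1, P2p6_2, P2p6_3, P2p6_9, P2p7_0, P2p7_1, P2p7_2, P2p7_3,
  P2p7_9, P2p8_0, P2p8_1, P2p8_2, P2p8_3, P2p8_7, P2p8_9]⟩) (.leaf ⟨8994972824,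
  348216984756793629841985705,
  3885441651088056002522935988137253831539065927563758427100705825761359230799240560641, 137249,
  [P2p1_0, P2p1_2, P2p1_3, P2p1_4, P2p1_5, P2p1_6, P2p1_9, P2p2_0, P2p2_3, P2p2_4, P2p2_5, P2p2_6,
  P2p2_9, P2p3_0, P2p3_4, P2p3_5, P2p3_6, P2p3_9, P2p5_4, P2p6_4, P2p6_5, P2p7_0, P2p7_9, P2p8_0,
  P2p8_7, P2p8_9]⟩))) (.node 614 (.node 613 (.leaf ⟨9196299416, 464275003679166193189687468,
  3885441651088068539128922050104014349601900995541448810165538416551102862154197434369, 140321,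
  [P2p1_0, P2p1_2, P2p1_3, P2p1_4, P2p1_5, P2p1_6, P2p1_9, P2p2_0, P2p2_3, P2p2_4, P2p2_5, P2p2_6,
  P2p2_9, P2p3_0, P2p3_4, P2p3_5, P2p3_6, P2p3_9, P2p4_0, P2p4_5, P2p4_6, P2p4_9, P2p5_0, P2p5_6,
  P2p5_9, P2p6_0, P2p6_9, P2p7_0, P2p7_9, P2p8_0, P2p8_7, P2p8_9]⟩) (.leaf ⟨9203901508,
  232153934410921857650919654,
  3885441882675780761811585764979717951888352987349442338179958894385746102346645176323, 140433,
  [P2p1_0, P2p2_0, P2p2_1, P2p2_3, P2p3_0, P2p3_1, P2p4_0, P2p4_1, P2p4_5, P2p4_6, P2p4_9, P2p5_0,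
  P2p5_1, P2p5_6, P2p5_9, P2p6_0, P2p6_1, P2p6_9, P2p7_0, P2p7_1, P2p7_9, P2p8_0, P2p8_1, P2p8_7,
  P2p8_9]⟩)) (.node 615 (.leaf ⟨9002574916, 154781541716144895593416868,
  3885441882675768171284883603878813770697048733069633086173013258377329829924724473859, 137361,
  [P2p1_0, P2p2_0, P2p2_1, P2p2_3, P2p3_0, P2p3_1, P2p5_4, P2p6_4, P2p6_5, P2p7_0, P2p7_1, P2p7_9,
  P2p8_0, P2p8_1, P2p8_7, P2p8_9]⟩) (.leaf ⟨9001264200, 154781541681093461332365412,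
  3885441651088056002522935988077868705647294450805877337034937588677434058198074064897, 137345,
  [P2p1_0, P2p2_0, P2p3_0, P2p3_2, P2p5_4, P2p6_4, P2p6_5, P2p7_0, P2p7_9, P2p8_0, P2p8_7,
  P2p8_9]⟩)))) (.node 620 (.node 618 (.node 617 (.leaf ⟨9202590792, 232153934375797855622434918,
  3885441651088068539128922050044629223710129518783567720099770179467177689553030938625, 140417,
  [P2p1_0, P2p2_0, P2p3_0, P2p3_2, P2p4_0, P2p4_5, P2p4_6, P2p4_9, P2p5_0, P2p5_6, P2p5_9, P2p6_0,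
  P2p6_9, P2p7_0, P2p7_9, P2p8_0, P2p8_7, P2p8_9]⟩) (.leaf ⟨9001526340, 154781541687997397922350244,
  3885442345851192508808778835481470103260439484768333293648509938164157133596618326023, 137345,
  [P2p1_0, P2p3_0, P2p3_1, P2p3_2, P2p5_4, P2p6_4, P2p6_5, P2p7_0, P2p7_1, P2p7_2, P2p7_9, P2p8_0,
  P2p8_1, P2p8_2, P2p8_7, P2p8_9]⟩)) (.node 619 (.leaf ⟨9202852932, 232153934385026159793538278,
  3885442345851205207176913194850661610708682111652380283539681664609918688152466685959, 140417,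
  [P2p1_0, P2p3_0, P2p3_1, P2p3_2, P2p4_0, P2p4_1, P2p4_2, P2p4_5, P2p4_6, P2p4_9, P2p5_0, P2p5_1,
  P2p5_2, P2p5_6, P2p5_9, P2p6_0, P2p6_1, P2p6_2, P2p6_9, P2p7_0, P2p7_1, P2p7_2, P2p7_9, P2p8_0,
  P2p8_1, P2p8_2, P2p8_7, P2p8_9]⟩) (.leaf ⟨9200493640, 232153934524381458953538630,
  3885441651088068539128922050044533441277591376424788175735848442606685568272792616961, 140385,
  [P2p1_0, P2p1_2, P2p1_3, P2p3_2, P2p4_0, P2p4_5, P2p4_6, P2p4_9, P2p5_0, P2p5_6, P2p5_9, P2p6_0,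
  P2p6_9, P2p7_0, P2p7_9, P2p8_0, P2p8_7, P2p8_9]⟩))) (.node 622 (.node 621 (.leaf ⟨8999167048,
  154781541829677064663469124,
  3885441651088056002522935988077772923214756308447097792671015851816941936917835743233, 137313,
  [P2p1_0, P2p1_2, P2p1_3, P2p3_2, P2p5_4, P2p6_4, P2p6_5, P2p7_0, P2p7_9, P2p8_0, P2p8_7, P2p8_9]⟩)
  (.leaf ⟨9195512932, 232153934710520187601428710,
  3885443272202054097907568054591782717116180740159267588359974439754262423387910373391, 140305,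
  [P2p1_0, P2p2_0, P2p2_1, P2p3_0, P2p3_1, P2p3_2, P2p4_0, P2p4_1, P2p4_2, P2p4_3, P2p4_5, P2p4_6,
  P2p4_9, P2p5_0, P2p5_1, P2p5_2, P2p5_3, P2p5_6, P2p5_9, P2p6_0, P2p6_1, P2p6_2, P2p6_3, P2p6_9,
  P2p7_0, P2p7_1, P2p7_2, P2p7_3, P2p7_9, P2p8_0, P2p8_1, P2p8_2, P2p8_3, P2p8_7, P2p8_9]⟩)) (.node
  623 (.leaf ⟨8994186340, 154781541941433831692310692,
  3885443272202041588261940042192094030617580265332636639766198371573855112566435414031, 137233,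
  [P2p1_0, P2p2_0, P2p2_1, P2p3_0, P2p3_1, P2p3_2, P2p4_0, P2p4_1, P2p4_2, P2p4_3, P2p5_0, P2p5_1,
  P2p5_2, P2p5_3, P2p5_4, P2p6_0, P2p6_1, P2p6_2, P2p6_3, P2p6_4, P2p6_5, P2p7_0, P2p7_1, P2p7_2,
  P2p7_3, P2p7_9, P2p8_0, P2p8_1, P2p8_2, P2p8_3, P2p8_7, P2p8_9]⟩) (.leaf ⟨9196119140,
  232153934698898006098452710,
  3885442461645061318518245052317631297739045866556746787278504245905889285621013807112, 140326,
  [P2p0_3, P2p1_0, P2p1_3, P2p2_0, P2p2_1, P2p2_3, P2p4_3, P2p4_5, P2p4_6, P2p4_9, P2p5_3, P2p5_6,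
  P2p5_9, P2p6_3, P2p6_9, P2p7_3, P2p7_9, P2p8_3, P2p8_7, P2p8_9]⟩))))) (.node 632 (.node 628 (.node
  626 (.node 625 (.leaf ⟨8994792548, 154781541932136086489929892,
  3885442461645048808872617039917942611240445391730115838684728177725481974799538847752, 137254,
  [P2p0_3, P2p1_0, P2p1_3, P2p2_0, P2p2_1, P2p2_3, P2p4_3, P2p5_3, P2p5_4, P2p6_3, P2p6_4, P2p6_5,
  P2p7_3, P2p7_9, P2p8_3, P2p8_7, P2p8_9]⟩) (.leaf ⟨8896406600, 154788775253567468487183428,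
  3885441651088054708465242622136300901784135251987898742733569439075464315774199988225, 135745,
  [P2p1_0, P2p1_3, P2p1_4, P2p1_5, P2p1_6, P2p2_0, P2p2_3, P2p2_4, P2p2_5, P2p2_6, P2p4_5, P2p4_6,
  P2p5_6, P2p7_0, P2p7_9, P2p8_0, P2p8_7, P2p8_9]⟩)) (.node 627 (.leaf ⟨8896668740,
  154785119491656569120129188,
  3885443272202039889798875932744257023273197118772310803784931358632937822303967707151, 135745,
  [P2p1_0, P2p2_3, P2p4_5, P2p4_6, P2p5_6, P2p7_0, P2p7_1, P2p7_2, P2p7_3, P2p7_9, P2p8_0, P2p8_1,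
  P2p8_2, P2p8_3, P2p8_7, P2p8_9]⟩) (.leaf ⟨8894309912, 154782682029638727177999559,
  3885441651088054735425600671703468350629082064899541800320481668656375434136476778497, 135713,
  [P2p1_0, P2p1_2, P2p1_3, P2p2_0, P2p2_3, P2p3_0, P2p4_0, P2p4_5, P2p4_6, P2p5_0, P2p5_6, P2p6_0,
  P2p7_0, P2p7_9, P2p8_0, P2p8_7, P2p8_9]⟩))) (.node 630 (.node 629 (.leaf ⟨8900601368,
  154782682143601011452941610,
  3885443040614328071521582961315533115856642204683596279020799273673951790110993350657, 135809,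
  [P2p1_0, P2p2_0, P2p3_0, P2p3_2, P2p4_0, P2p4_2, P2p4_3, P2p4_5, P2p4_6, P2p5_0, P2p5_2, P2p5_3,
  P2p5_6, P2p6_0, P2p6_2, P2p6_3, P2p7_0, P2p7_2, P2p7_3, P2p7_9, P2p8_0, P2p8_2, P2p8_3, P2p8_7,
  P2p8_9]⟩) (.leaf ⟨8893523492, 154782682180801887867213988,
  3885443272202039889798875932744927482764550149550945622113187014912583153273357139983, 135697,
  [P2p1_0, P2p2_0, P2p2_1, P2p3_0, P2p3_1, P2p3_2, P2p4_5, P2p4_6, P2p5_6, P2p7_0, P2p7_1, P2p7_2,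
  P2p7_3, P2p7_9, P2p8_0, P2p8_1, P2p8_2, P2p8_3, P2p8_7, P2p8_9]⟩)) (.node 631 (.leaf ⟨8879629448,
  232156259961426751429610566,
  3885441651088054708686154678459421253339652277812263632826718029635083326675355238401, 135489,
  [P2p1_0, P2p1_3, P2p2_0, P2p2_3, P2p4_0, P2p4_3, P2p4_6, P2p4_9, P2p5_0, P2p5_3, P2p5_4, P2p5_6,
  P2p5_9, P2p7_0, P2p7_9, P2p8_0, P2p8_7, P2p8_9]⟩) (.leaf ⟨8879891588, 232156260187988921993465062,
  3885443272202039890022256283565969759902712284020235622631213722173332408945374855183, 135489,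
  [P2p1_0, P2p2_3, P2p4_0, P2p4_1, P2p4_2, P2p4_3, P2p4_6, P2p4_9, P2p5_0, P2p5_1, P2p5_2, P2p5_3,
  P2p5_4, P2p5_6, P2p5_9, P2p7_0, P2p7_1, P2p7_2, P2p7_3, P2p7_9, P2p8_0, P2p8_1, P2p8_2, P2p8_3,
  P2p8_7, P2p8_9]⟩)))) (.node 636 (.node 634 (.node 633 (.leaf ⟨8877532312,
  348216680385516413634384041,
  3885441651088054708682863619183231420442250077894382896710892423953648823390326292481, 135457,
  [P2p1_0, P2p1_2, P2p1_3, P2p1_6, P2p1_9, P2p2_0, P2p2_3, P2p2_6, P2p2_9, P2p3_0, P2p3_6, P2p3_9,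
  P2p4_0, P2p4_6, P2p4_9, P2p5_0, P2p5_4, P2p5_6, P2p5_9, P2p7_0, P2p7_9, P2p8_0, P2p8_7, P2p8_9]⟩)
  (.leaf ⟨8885134468, 232156259853596649661205734,
  3885441882675766877445633999762252990170418606224613274425186915358833025320583626755, 135569,
  [P2p1_0, P2p2_0, P2p2_1, P2p2_3, P2p3_0, P2p3_1, P2p4_0, P2p4_1, P2p4_6, P2p4_9, P2p5_0, P2p5_1,
  P2p5_4, P2p5_6, P2p5_9, P2p7_0, P2p7_1, P2p7_9, P2p8_0, P2p8_1, P2p8_7, P2p8_9]⟩)) (.node 635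
  (.leaf ⟨8883823752, 232156259818472647632687206,
  3885441651088054708682863619128443851326225311698000003619287045521409011784236466177, 135553,
  [P2p1_0, P2p2_0, P2p3_0, P2p3_2, P2p4_0, P2p4_6, P2p4_9, P2p5_0, P2p5_4, P2p5_6, P2p5_9, P2p7_0,
  P2p7_9, P2p8_0, P2p8_7, P2p8_9]⟩) (.leaf ⟨8884085892, 232156259827700951803825382,
  3885442345851191214971174761030637470322687382449028525236331995420716812611870982151, 135553,
  [P2p1_0, P2p3_0, P2p3_1, P2p3_2, P2p4_0, P2p4_1, P2p4_2, P2p4_6, P2p4_9, P2p5_0, P2p5_1, P2p5_2,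
  P2p5_4, P2p5_6, P2p5_9, P2p7_0, P2p7_1, P2p7_2, P2p7_9, P2p8_0, P2p8_1, P2p8_2, P2p8_7,
  P2p8_9]⟩))) (.node 638 (.node 637 (.leaf ⟨8749606424, 154788775333752858639209770,
  3885456009526209171705994801807249598650478933730784379090441624069472103911450017793, 133505,
  [P2p1_0, P2p2_0, P2p3_0, P2p3_2, P2p4_5, P2p4_6, P2p5_6, P2p7_0, P2p7_2, P2p7_3, P2p7_4, P2p7_5,
  P2p7_6, P2p7_9, P2p8_0, P2p8_2, P2p8_3, P2p8_4, P2p8_5, P2p8_6, P2p8_7, P2p8_9]⟩) (.leaf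
  ⟨8695080520, 154787635014199412320767044,
  3885454619999937453192002472941040269302532910514658991514110077596863691309855604737, 132673,
  [P2p1_0, P2p1_3, P2p1_4, P2p1_5, P2p1_6, P2p2_0, P2p2_3, P2p2_4, P2p2_5, P2p2_6, P2p5_4, P2p6_4,
  P2p6_5, P2p7_0, P2p7_4, P2p7_5, P2p7_6, P2p7_9, P2p8_0, P2p8_4, P2p8_5, P2p8_6, P2p8_7, P2p8_9]⟩))
  (.node 639 (.leaf ⟨8695342660, 154785197890318882388869284,
  3885456241113922634525635783548996390791594777299071052565471996896082780807689601039, 132673,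
  [P2p1_0, P2p2_3, P2p5_4, P2p6_4, P2p6_5, P2p7_0, P2p7_1, P2p7_2, P2p7_3, P2p7_4, P2p7_5, P2p7_6,
  P2p7_9, P2p8_0, P2p8_1, P2p8_2, P2p8_3, P2p8_4, P2p8_5, P2p8_6, P2p8_7, P2p8_9]⟩) (.leaf
  ⟨8745674276, 154796087233929894058861732,
  3885456241113921340467942417618634948878825845315142258646468121715501116962799288447, 133441,
  [P2p1_0, P2p2_3, P2p2_4, P2p2_5, P2p2_6, P2p3_4, P2p3_5, P2p3_6, P2p4_5, P2p4_6, P2p5_6, P2p7_0,
  P2p7_1, P2p7_2, P2p7_3, P2p7_4, P2p7_5, P2p7_6, P2p7_9, P2p8_0, P2p8_1, P2p8_2, P2p8_3, P2p8_4,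
  P2p8_5, P2p8_6, P2p8_7, P2p8_9]⟩))))))

def P2T11 : Tr :=
  .node 672 (.node 656 (.node 648 (.node 644 (.node 642 (.node 641 (.leaf ⟨8743314968,
  154788775219790574364267719,
  3885454619999936159134309107000046812193733911759443114042802290363931594338716418049, 133409,
  [P2p1_0, P2p1_2, P2p1_3, P2p2_0, P2p2_3, P2p3_0, P2p4_5, P2p4_6, P2p5_6, P2p7_0, P2p7_4, P2p7_5,
  P2p7_6, P2p7_9, P2p8_0, P2p8_4, P2p8_5, P2p8_6, P2p8_7, P2p8_9]⟩) (.leaf ⟨8692983320,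
  154785197704361882397417770,
  3885454619999937480152360522508207718147479723426302049101022318706989855740602155009, 132641,
  [P2p1_0, P2p1_2, P2p1_3, P2p2_0, P2p2_3, P2p3_0, P2p4_0, P2p5_0, P2p5_4, P2p6_0, P2p6_4, P2p6_5,
  P2p7_0, P2p7_4, P2p7_5, P2p7_6, P2p7_9, P2p8_0, P2p8_4, P2p8_5, P2p8_6, P2p8_7, P2p8_9]⟩)) (.node
  643 (.leaf ⟨8699274776, 154785197929893810566046093,
  3885456009526210816248342812120272483375039863210356527801339923724566211715118727169, 132737,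
  [P2p1_0, P2p2_0, P2p3_0, P2p3_2, P2p4_0, P2p4_2, P2p4_3, P2p5_0, P2p5_2, P2p5_3, P2p5_4, P2p6_0,
  P2p6_2, P2p6_3, P2p6_4, P2p6_5, P2p7_0, P2p7_2, P2p7_3, P2p7_4, P2p7_5, P2p7_6, P2p7_9, P2p8_0,
  P2p8_2, P2p8_3, P2p8_4, P2p8_5, P2p8_6, P2p8_7, P2p8_9]⟩) (.leaf ⟨8742528548,
  154792431285044843365243044,
  3885456241113921340467942417608577775893436589561906379180118360827081444967044808831, 133393,
  [P2p1_0, P2p2_0, P2p2_1, P2p3_0, P2p3_1, P2p3_2, P2p4_5, P2p4_6, P2p5_6, P2p7_0, P2p7_1, P2p7_2,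
  P2p7_3, P2p7_4, P2p7_5, P2p7_6, P2p7_9, P2p8_0, P2p8_1, P2p8_2, P2p8_3, P2p8_4, P2p8_5, P2p8_6,
  P2p8_7, P2p8_9]⟩))) (.node 646 (.node 645 (.leaf ⟨8692196900, 154785197855524940007315620,
  3885456241113922634525635783549666850282947808077705870893727664963197574877482516495, 132625,
  [P2p1_0, P2p2_0, P2p2_1, P2p3_0, P2p3_1, P2p3_2, P2p5_4, P2p6_4, P2p6_5, P2p7_0, P2p7_1, P2p7_2,
  P2p7_3, P2p7_4, P2p7_5, P2p7_6, P2p7_9, P2p8_0, P2p8_1, P2p8_2, P2p8_3, P2p8_4, P2p8_5, P2p8_6,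
  P2p8_7, P2p8_9]⟩) (.leaf ⟨9148064904, 270837201905050499888025671,
  3885441651088070048869479812521814057449188399570676238991520049639329716001879687169, 139585,
  [P2p1_0, P2p1_3, P2p2_0, P2p2_3, P2p4_0, P2p4_3, P2p4_9, P2p5_0, P2p5_3, P2p5_4, P2p5_9, P2p6_0,
  P2p6_3, P2p6_4, P2p6_5, P2p6_9, P2p7_0, P2p7_9, P2p8_0, P2p8_7, P2p8_9]⟩)) (.node 647 (.leaf
  ⟨9148327044, 270837202132774854242439431,
  3885443272202055391965261420532201332014338927896432270618882277421013684893560799247, 139585,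
  [P2p1_0, P2p2_3, P2p4_0, P2p4_1, P2p4_2, P2p4_3, P2p4_9, P2p5_0, P2p5_1, P2p5_2, P2p5_3, P2p5_4,
  P2p5_9, P2p6_0, P2p6_1, P2p6_2, P2p6_3, P2p6_4, P2p6_5, P2p6_9, P2p7_0, P2p7_1, P2p7_2, P2p7_3,
  P2p7_9, P2p8_0, P2p8_1, P2p8_2, P2p8_3, P2p8_7, P2p8_9]⟩) (.leaf ⟨9145967768,
  348208454290581043781210281,
  3885441651088069833186615416034375791514669889413752517812988585431302778375125401601, 139553,
  [P2p1_0, P2p1_2, P2p1_3, P2p1_9, P2p2_0, P2p2_3, P2p2_9, P2p3_0, P2p3_9, P2p4_0, P2p4_9, P2p5_0,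
  P2p5_4, P2p5_9, P2p6_0, P2p6_4, P2p6_5, P2p6_9, P2p7_0, P2p7_9, P2p8_0, P2p8_7, P2p8_9]⟩))))
  (.node 652 (.node 650 (.node 649 (.leaf ⟨9153569924, 270837201761227884984373511,
  3885441882675782055869279130920807026277864205865241838767122400119644528025446580227, 139665,
  [P2p1_0, P2p2_0, P2p2_1, P2p2_3, P2p3_0, P2p3_1, P2p4_0, P2p4_1, P2p4_9, P2p5_0, P2p5_1, P2p5_4,
  P2p5_9, P2p6_0, P2p6_1, P2p6_4, P2p6_5, P2p6_9, P2p7_0, P2p7_1, P2p7_9, P2p8_0, P2p8_1, P2p8_7,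
  P2p8_9]⟩) (.leaf ⟨9152259208, 270837201726067599072137319,
  3885441651088069833186615415985718298099640737299367220686933685201075552281878921217, 139649,
  [P2p1_0, P2p2_0, P2p3_0, P2p3_2, P2p4_0, P2p4_9, P2p5_0, P2p5_4, P2p5_9, P2p6_0, P2p6_4, P2p6_5,
  P2p6_9, P2p7_0, P2p7_9, P2p8_0, P2p8_7, P2p8_9]⟩)) (.node 651 (.leaf ⟨9152521348,
  270837201736458087033835783,
  3885442345851206501234606560791750685098193330168179784126845170343818239731174932487, 139649,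
  [P2p1_0, P2p3_0, P2p3_1, P2p3_2, P2p4_0, P2p4_1, P2p4_2, P2p4_9, P2p5_0, P2p5_1, P2p5_2, P2p5_4,
  P2p5_9, P2p6_0, P2p6_1, P2p6_2, P2p6_4, P2p6_5, P2p6_9, P2p7_0, P2p7_1, P2p7_2, P2p7_9, P2p8_0,
  P2p8_1, P2p8_2, P2p8_7, P2p8_9]⟩) (.leaf ⟨9144738968, 270837201729484778132046919,
  3885441535294213721845283558567309578135704219077545800381576196834607506904909807616, 139542,
  [P2p1_0, P2p3_0, P2p3_1, P2p3_2, P2p3_9, P2p4_9, P2p5_4, P2p5_9, P2p6_4, P2p6_5, P2p6_9, P2p7_9,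
  P2p8_7, P2p8_9]⟩))) (.node 654 (.node 653 (.leaf ⟨8700585540, 154786416268266373346592932,
  3885454851587649621953950088753191696300179776150229102369143819637143152245323530243, 132753,
  [P2p1_0, P2p2_0, P2p2_1, P2p2_3, P2p2_4, P2p2_5, P2p2_6, P2p3_0, P2p3_1, P2p3_4, P2p3_5, P2p3_6,
  P2p5_4, P2p6_4, P2p6_5, P2p7_0, P2p7_1, P2p7_4, P2p7_5, P2p7_6, P2p7_9, P2p8_0, P2p8_1, P2p8_4,
  P2p8_5, P2p8_6, P2p8_7, P2p8_9]⟩) (.leaf ⟨8661526088, 154787625790827375465991236,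
  3885452767298239671730693456494192405180229606470987994672553131184851866813450485761, 132161,
  [P2p1_0, P2p1_3, P2p1_5, P2p1_6, P2p2_0, P2p2_3, P2p2_5, P2p2_6, P2p4_5, P2p4_6, P2p6_5, P2p7_0,
  P2p7_5, P2p7_6, P2p7_9, P2p8_0, P2p8_5, P2p8_6, P2p8_7, P2p8_9]⟩)) (.node 655 (.leaf ⟨8661788228,
  154785190972789854747787428,
  3885454388412224853064326767102148550053674487917541107688152360850955363498593288207, 132161,
  [P2p1_0, P2p2_3, P2p4_5, P2p4_6, P2p6_5, P2p7_0, P2p7_1, P2p7_2, P2p7_3, P2p7_5, P2p7_6, P2p7_9,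
  P2p8_0, P2p8_1, P2p8_2, P2p8_3, P2p8_5, P2p8_6, P2p8_7, P2p8_9]⟩) (.leaf ⟨8667031108,
  154786408197815841098664100,
  3885452998885951840492641072304811336637367400615894119205716550947868681319122927619, 132241,
  [P2p1_0, P2p2_0, P2p2_1, P2p2_3, P2p2_5, P2p2_6, P2p3_0, P2p3_1, P2p3_5, P2p3_6, P2p4_5, P2p4_6,
  P2p6_5, P2p7_0, P2p7_1, P2p7_5, P2p7_6, P2p7_9, P2p8_0, P2p8_1, P2p8_5, P2p8_6, P2p8_7,
  P2p8_9]⟩))))) (.node 664 (.node 660 (.node 658 (.node 657 (.leaf ⟨8665720392,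
  154788843132982136500555876,
  3885452767298239671730693456503866271589754022558304534299320802723002953894220333057, 132225,
  [P2p1_0, P2p1_5, P2p1_6, P2p2_0, P2p2_5, P2p2_6, P2p3_0, P2p3_2, P2p3_5, P2p3_6, P2p4_5, P2p4_6,
  P2p6_5, P2p7_0, P2p7_5, P2p7_6, P2p7_9, P2p8_0, P2p8_5, P2p8_6, P2p8_7, P2p8_9]⟩) (.leaf
  ⟨8665982532, 154785190684559478596109476,
  3885453462061376178016536303907467528896600968547914179127469289897739121726654447623, 132225,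
  [P2p1_0, P2p3_0, P2p3_1, P2p3_2, P2p3_5, P2p3_6, P2p4_5, P2p4_6, P2p6_5, P2p7_0, P2p7_1, P2p7_2,
  P2p7_5, P2p7_6, P2p7_9, P2p8_0, P2p8_1, P2p8_2, P2p8_5, P2p8_6, P2p8_7, P2p8_9]⟩)) (.node 659
  (.leaf ⟨8877532696, 154781470309137385381827783,
  3885443503789752516886909681873214455980321590445282321990134888599147406912819101697, 135457,
  [P2p1_0, P2p1_2, P2p1_3, P2p2_0, P2p2_3, P2p3_0, P2p5_0, P2p5_4, P2p5_6, P2p6_0, P2p6_4, P2p7_0,
  P2p7_4, P2p7_9, P2p8_0, P2p8_4, P2p8_7, P2p8_9]⟩) (.leaf ⟨8883824152, 154781470423099669656769834,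
  3885444893316025852982891896160058396567712564199863722198455500388458429318921519105, 135553,
  [P2p1_0, P2p2_0, P2p3_0, P2p3_2, P2p5_0, P2p5_2, P2p5_3, P2p5_4, P2p5_6, P2p6_0, P2p6_2, P2p6_3,
  P2p6_4, P2p7_0, P2p7_2, P2p7_3, P2p7_4, P2p7_9, P2p8_0, P2p8_2, P2p8_3, P2p8_4, P2p8_7,
  P2p8_9]⟩))) (.node 662 (.node 661 (.leaf ⟨8876746276, 154781473919065059891583140,
  3885445124903737671260184949191775323502470438932475568258157251185939972079157706783, 135441,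
  [P2p1_0, P2p2_0, P2p2_1, P2p3_0, P2p3_1, P2p3_2, P2p5_4, P2p5_6, P2p6_4, P2p7_0, P2p7_1, P2p7_2,
  P2p7_3, P2p7_4, P2p7_9, P2p8_0, P2p8_1, P2p8_2, P2p8_3, P2p8_4, P2p8_7, P2p8_9]⟩) (.leaf
  ⟨8728634952, 154787368689331848139115588,
  3885449061894844108854148145134701719499471036278421016611678635670948894050670411777, 133185,
  [P2p1_0, P2p1_3, P2p1_6, P2p2_0, P2p2_3, P2p2_6, P2p4_6, P2p5_4, P2p5_6, P2p7_0, P2p7_6, P2p7_9,
  P2p8_0, P2p8_6, P2p8_7, P2p8_9]⟩)) (.node 663 (.leaf ⟨8728897092, 154785007658270622259151012,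
  3885450683008829290187781455742657911141681947049256233555752486070821205110430826511, 133185,
  [P2p1_0, P2p2_3, P2p4_6, P2p5_4, P2p5_6, P2p7_0, P2p7_1, P2p7_2, P2p7_3, P2p7_6, P2p7_9, P2p8_0,
  P2p8_1, P2p8_2, P2p8_3, P2p8_6, P2p8_7, P2p8_9]⟩) (.leaf ⟨8734139972, 154786187989808461190891684,
  3885449293482556277616095760942255659875590687441999168501101410879440415696751886339, 133265,
  [P2p1_0, P2p2_0, P2p2_1, P2p2_3, P2p2_6, P2p3_0, P2p3_1, P2p3_6, P2p4_6, P2p5_4, P2p5_6, P2p7_0,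
  P2p7_1, P2p7_6, P2p7_9, P2p8_0, P2p8_1, P2p8_6, P2p8_7, P2p8_9]⟩)))) (.node 668 (.node 666 (.node
  665 (.leaf ⟨8732829256, 154788549137998461754576996,
  3885449061894844108854148145141310594827263674649020862184145688841862502887073054721, 133249,
  [P2p1_0, P2p1_6, P2p2_0, P2p2_6, P2p3_0, P2p3_2, P2p3_6, P2p4_6, P2p5_4, P2p5_6, P2p7_0, P2p7_6,
  P2p7_9, P2p8_0, P2p8_6, P2p8_7, P2p8_9]⟩) (.leaf ⟨8733091396, 154785007370040246107440292,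
  3885449756657980615139990992544911898902876649962912610940768796750367485094124781575, 133249,
  [P2p1_0, P2p3_0, P2p3_1, P2p3_2, P2p3_6, P2p4_6, P2p5_4, P2p5_6, P2p7_0, P2p7_1, P2p7_2, P2p7_6,
  P2p7_9, P2p8_0, P2p8_1, P2p8_2, P2p8_6, P2p8_7, P2p8_9]⟩)) (.node 667 (.leaf ⟨8730732104,
  154787368694961347673328708,
  3885449061894844108854148145135084736695157187679021164675793421404782167138417573889, 133217,
  [P2p1_0, P2p1_2, P2p1_3, P2p1_6, P2p3_2, P2p4_6, P2p5_4, P2p5_6, P2p7_0, P2p7_6, P2p7_9, P2p8_0,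
  P2p8_6, P2p8_7, P2p8_9]⟩) (.leaf ⟨8725751396, 154785007623476679877400740,
  3885450683008829290193952191989808924091327569799322464392689655169429338156499402767, 133137,
  [P2p1_0, P2p2_0, P2p2_1, P2p3_0, P2p3_1, P2p3_2, P2p4_0, P2p4_1, P2p4_2, P2p4_3, P2p4_6, P2p5_0,
  P2p5_1, P2p5_2, P2p5_3, P2p5_4, P2p5_6, P2p7_0, P2p7_1, P2p7_2, P2p7_3, P2p7_6, P2p7_9, P2p8_0,
  P2p8_1, P2p8_2, P2p8_3, P2p8_6, P2p8_7, P2p8_9]⟩))) (.node 670 (.node 669 (.leaf ⟨8726357604,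
  154785007614178934675019940,
  3885449872451836699524255859770136067383298305334216378771230419234190776630841442312, 133158,
  [P2p0_3, P2p1_0, P2p1_3, P2p2_0, P2p2_1, P2p2_3, P2p4_3, P2p4_6, P2p5_3, P2p5_4, P2p5_6, P2p7_3,
  P2p7_6, P2p7_9, P2p8_3, P2p8_6, P2p8_7, P2p8_9]⟩) (.leaf ⟨18862072200, 38846452112268664298969155,
  5775004584936302433813890159887083474300182870178379577055428361637490047600663527425, 287809,
  [P2p1_0, P2p1_3, P2p2_0, P2p2_3, P2p4_5, P2p4_6, P2p5_6, P2p8_0, P2p8_3, P2p8_4, P2p8_5, P2p8_6,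
  P2p8_7, P2p8_9, P2p9_0, P2p9_3, P2p9_4, P2p9_5, P2p9_6, P2p9_7]⟩)) (.node 671 (.leaf ⟨18862334340,
  38846452230744546885146851,
  5820536581850378382810737589754169749340693564506601421571186063318058182159251734543, 287809,
  [P2p1_0, P2p2_3, P2p4_5, P2p4_6, P2p5_6, P2p8_0, P2p8_1, P2p8_2, P2p8_3, P2p8_4, P2p8_5, P2p8_6,
  P2p8_7, P2p8_9, P2p9_0, P2p9_1, P2p9_2, P2p9_3, P2p9_4, P2p9_5, P2p9_6, P2p9_7]⟩) (.leaf
  ⟨18859975064, 38846451970405379116011686,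
  5714295255717534501818093586741791852412480477337189671063192164408316622197368094721, 287777,
  [P2p1_0, P2p1_2, P2p1_3, P2p1_4, P2p1_5, P2p1_6, P2p2_0, P2p2_3, P2p2_4, P2p2_5, P2p2_6, P2p3_0,
  P2p3_4, P2p3_5, P2p3_6, P2p4_5, P2p4_6, P2p5_6, P2p8_0, P2p8_4, P2p8_5, P2p8_6, P2p8_7, P2p8_9,
  P2p9_0, P2p9_4, P2p9_5, P2p9_6, P2p9_7]⟩)))))) (.node 688 (.node 680 (.node 676 (.node 674 (.node
  673 (.leaf ⟨18867577220, 38846451896352274552887523,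
  5729472588022226484817042730020284543635086161897484970075933178119673007739437776899, 287889,
  [P2p1_0, P2p2_0, P2p2_1, P2p2_3, P2p3_0, P2p3_1, P2p4_5, P2p4_6, P2p5_6, P2p8_0, P2p8_1, P2p8_4,
  P2p8_5, P2p8_6, P2p8_7, P2p8_9, P2p9_0, P2p9_1, P2p9_4, P2p9_5, P2p9_6, P2p9_7]⟩) (.leaf
  ⟨18866266504, 38846451861228203804891236,
  5714295255717534501818093586731447332128673913235289348721827752940668055559392526337, 287873,
  [P2p1_0, P2p2_0, P2p3_0, P2p3_2, P2p4_5, P2p4_6, P2p5_6, P2p8_0, P2p8_4, P2p8_5, P2p8_6, P2p8_7,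
  P2p8_9, P2p9_0, P2p9_4, P2p9_5, P2p9_6, P2p9_7]⟩)) (.node 675 (.leaf ⟨18866528644,
  38846451870456576695507171,
  5759827252631610450814941016598725169111792846393064921983486950976185391962399375367, 287873,
  [P2p1_0, P2p3_0, P2p3_1, P2p3_2, P2p4_5, P2p4_6, P2p5_6, P2p8_0, P2p8_1, P2p8_2, P2p8_4, P2p8_5,
  P2p8_6, P2p8_7, P2p8_9, P2p9_0, P2p9_1, P2p9_2, P2p9_4, P2p9_5, P2p9_6, P2p9_7]⟩) (.leaf
  ⟨18864169352, 38846452121275863553710147,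
  5805359249545686399811788446465524102699892830696894833054105653780066900862563057665, 287841,
  [P2p1_0, P2p1_2, P2p1_3, P2p3_2, P2p4_5, P2p4_6, P2p5_6, P2p8_0, P2p8_2, P2p8_3, P2p8_4, P2p8_5,
  P2p8_6, P2p8_7, P2p8_9, P2p9_0, P2p9_2, P2p9_3, P2p9_4, P2p9_5, P2p9_6, P2p9_7]⟩))) (.node 678
  (.node 677 (.leaf ⟨18863989124, 38846452121568574164867500,
  5820536581850378382810737589754840208832046595285236239899441731385204501907471597568, 287846,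
  [P2p1_0, P2p2_0, P2p2_1, P2p3_0, P2p3_1, P2p3_2, P2p4_5, P2p4_6, P2p5_6, P2p8_0, P2p8_1, P2p8_2,
  P2p8_3, P2p8_4, P2p8_5, P2p8_6, P2p8_7, P2p8_9, P2p9_0, P2p9_1, P2p9_2, P2p9_3, P2p9_4, P2p9_5,
  P2p9_6, P2p9_7]⟩) (.leaf ⟨18858746264, 38846451864645485944013894,
  5706706589565188510318619015097851981978995783506348751100755993269913502458399096832, 287766,
  [P2p1_0, P2p3_0, P2p3_1, P2p3_2, P2p3_4, P2p3_5, P2p3_6, P2p4_5, P2p4_6, P2p5_6, P2p8_4, P2p8_5,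
  P2p8_6, P2p8_7, P2p8_9, P2p9_4, P2p9_5, P2p9_6, P2p9_7]⟩)) (.node 679 (.leaf ⟨18859794840,
  38846451896207001579063399,
  5706706589565188510318619015097469037858391500012023980904636697203729641894351929344, 287782,
  [P2p1_0, P2p2_0, P2p2_1, P2p2_3, P2p2_4, P2p2_5, P2p2_6, P2p3_0, P2p3_1, P2p3_4, P2p3_5, P2p3_6,
  P2p4_5, P2p4_6, P2p5_6, P2p8_4, P2p8_5, P2p8_6, P2p8_7, P2p8_9, P2p9_4, P2p9_5, P2p9_6, P2p9_7]⟩)
  (.leaf ⟨18560098849, 38952476863720278029633636,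
  4856775980502440913303297335498585502303512048600975456124803273375524452331914723459, 283202,
  [P2p0_1, P2p2_0, P2p2_1, P2p2_3, P2p2_7, P2p3_0, P2p3_1, P2p3_7, P2p4_5, P2p4_6, P2p4_7, P2p5_6,
  P2p5_7, P2p6_7, P2p8_7, P2p8_9, P2p9_7]⟩)))) (.node 684 (.node 682 (.node 681 (.leaf ⟨18564276760,
  38876919188048438321354026,
  4864364646654787255287426551502965087984018989211076007976267491592434802958771748865, 283265,
  [P2p1_0, P2p2_0, P2p3_0, P2p3_2, P2p4_0, P2p4_2, P2p4_3, P2p4_5, P2p4_6, P2p4_7, P2p5_0, P2p5_2,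
  P2p5_3, P2p5_6, P2p5_7, P2p6_0, P2p6_2, P2p6_3, P2p6_7, P2p8_0, P2p8_7, P2p8_9, P2p9_0, P2p9_7]⟩)
  (.leaf ⟨18557985304, 38876919074086154046411975,
  4864364646654786931763129956697719997020268110856767323725240294673161191907418767361, 283169,
  [P2p1_0, P2p1_2, P2p1_3, P2p2_0, P2p2_3, P2p3_0, P2p4_0, P2p4_5, P2p4_6, P2p4_7, P2p5_0, P2p5_6,
  P2p5_7, P2p6_0, P2p6_7, P2p8_0, P2p8_7, P2p8_9, P2p9_0, P2p9_7]⟩)) (.node 683 (.leaf ⟨18557215249,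
  38952476828641459057071204,
  4856775980502440913303297335498968614499636819789349208883653368034881914659642998915, 283154,
  [P2p0_1, P2p2_0, P2p2_1, P2p2_7, P2p3_0, P2p3_1, P2p3_2, P2p3_7, P2p4_5, P2p4_6, P2p4_7, P2p5_6,
  P2p5_7, P2p6_7, P2p8_7, P2p8_9, P2p9_7]⟩) (.leaf ⟨18557198884, 38876919188058299566331011,
  4970605972787630785795415910154424154352341960297250251030128541711788147514916405263, 283153,
  [P2p1_0, P2p2_0, P2p2_1, P2p3_0, P2p3_1, P2p3_2, P2p4_5, P2p4_6, P2p4_7, P2p5_6, P2p5_7, P2p6_7,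
  P2p8_0, P2p8_1, P2p8_2, P2p8_3, P2p8_7, P2p8_9, P2p9_0, P2p9_1, P2p9_2, P2p9_3, P2p9_7]⟩))) (.node
  686 (.node 685 (.leaf ⟨18811740552, 38842874704926260309795907,
  5775004584936303943554447922364747201203570833902654553411044048245902552736922664961, 287041,
  [P2p1_0, P2p1_3, P2p2_0, P2p2_3, P2p4_3, P2p5_3, P2p5_4, P2p6_3, P2p6_4, P2p6_5, P2p8_0, P2p8_3,
  P2p8_4, P2p8_5, P2p8_6, P2p8_7, P2p8_9, P2p9_0, P2p9_3, P2p9_4, P2p9_5, P2p9_6, P2p9_7]⟩) (.leaf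
  ⟨18812002692, 38842874826888797346866499,
  5820536581850380081273801699201336297193723680288292439224197408191824931029884272655, 287041,
  [P2p1_0, P2p2_3, P2p4_0, P2p4_1, P2p4_2, P2p4_3, P2p5_0, P2p5_1, P2p5_2, P2p5_3, P2p5_4, P2p6_0,
  P2p6_1, P2p6_2, P2p6_3, P2p6_4, P2p6_5, P2p8_0, P2p8_1, P2p8_2, P2p8_3, P2p8_4, P2p8_5, P2p8_6,
  P2p8_7, P2p8_9, P2p9_0, P2p9_1, P2p9_2, P2p9_3, P2p9_4, P2p9_5, P2p9_6, P2p9_7]⟩)) (.node 687
  (.leaf ⟨18809643288, 38842874454976584069681318,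
  5714295255717535795875786952672153294325249371209493378710642333288548345090664366081, 287009,
  [P2p1_0, P2p1_2, P2p1_3, P2p2_0, P2p2_3, P2p3_0, P2p5_4, P2p6_4, P2p6_5, P2p8_0, P2p8_4, P2p8_5,
  P2p8_6, P2p8_7, P2p8_9, P2p9_0, P2p9_4, P2p9_5, P2p9_6, P2p9_7]⟩) (.leaf ⟨18817245572,
  38842874381032434237187395,
  5729472588022227859755810244662589112717301159866462774076266251681403910208287342595, 287121,
  [P2p1_0, P2p2_0, P2p2_1, P2p2_3, P2p3_0, P2p3_1, P2p4_0, P2p4_1, P2p5_0, P2p5_1, P2p5_4, P2p6_0,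
  P2p6_1, P2p6_4, P2p6_5, P2p8_0, P2p8_1, P2p8_4, P2p8_5, P2p8_6, P2p8_7, P2p8_9, P2p9_0, P2p9_1,
  P2p9_4, P2p9_5, P2p9_6, P2p9_7]⟩))))) (.node 696 (.node 692 (.node 690 (.node 689 (.leaf
  ⟨18815934856, 38842874345799408758826084,
  5714295255717535795875786952672536406518185131751088849308991258674389996427796348929, 287105,
  [P2p1_0, P2p2_0, P2p3_0, P2p3_2, P2p5_4, P2p6_4, P2p6_5, P2p8_0, P2p8_4, P2p8_5, P2p8_6, P2p8_7,
  P2p8_9, P2p9_0, P2p9_4, P2p9_5, P2p9_6, P2p9_7]⟩) (.leaf ⟨18816196996, 38842874358514436100334915,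
  5759827252631611933595140729509317064450946216966280463868046114975261576565176598535, 287105,
  [P2p1_0, P2p3_0, P2p3_1, P2p3_2, P2p4_0, P2p4_1, P2p4_2, P2p5_0, P2p5_1, P2p5_2, P2p5_4, P2p6_0,
  P2p6_1, P2p6_2, P2p6_4, P2p6_5, P2p8_0, P2p8_1, P2p8_2, P2p8_4, P2p8_5, P2p8_6, P2p8_7, P2p8_9,
  P2p9_0, P2p9_1, P2p9_2, P2p9_4, P2p9_5, P2p9_6, P2p9_7]⟩)) (.node 691 (.leaf ⟨18808856868,
  38846530483039872264377475,
  5820536581850379676868430955695929283221557813801035740486587102954958365786397147263, 286993,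
  [P2p1_0, P2p2_0, P2p2_1, P2p3_0, P2p3_1, P2p3_2, P2p5_4, P2p6_4, P2p6_5, P2p8_0, P2p8_1, P2p8_2,
  P2p8_3, P2p8_4, P2p8_5, P2p8_6, P2p8_7, P2p8_9, P2p9_0, P2p9_1, P2p9_2, P2p9_3, P2p9_4, P2p9_5,
  P2p9_6, P2p9_7]⟩) (.leaf ⟨18409087368, 38839140284086447675447363,
  4925073975873551601555602532238047632112327057063261451659350590646531590423369547777, 280897,
  [P2p1_0, P2p1_3, P2p2_0, P2p2_3, P2p4_3, P2p4_5, P2p4_6, P2p5_3, P2p5_6, P2p6_3, P2p8_0, P2p8_3,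
  P2p8_7, P2p8_9, P2p9_0, P2p9_3, P2p9_7]⟩))) (.node 694 (.node 693 (.leaf ⟨18358755912,
  38957429922372719219969091,
  4864364646654784747934634928486447369417868710422444570144155150302886088357497602049, 280129,
  [P2p1_0, P2p1_3, P2p1_4, P2p1_5, P2p1_6, P2p1_7, P2p2_0, P2p2_3, P2p2_4, P2p2_5, P2p2_6, P2p2_7,
  P2p5_4, P2p6_4, P2p6_5, P2p8_0, P2p8_7, P2p8_9, P2p9_0, P2p9_7]⟩) (.leaf ⟨18358772001,
  38950117986321852424882276,
  4856775980502438756435160356854480136470995343781167344416731882753045648677202493571, 280130,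
  [P2p0_1, P2p2_0, P2p2_1, P2p2_3, P2p2_7, P2p3_0, P2p3_1, P2p3_7, P2p5_4, P2p6_4, P2p6_5, P2p8_7,
  P2p8_9, P2p9_7]⟩)) (.node 695 (.leaf ⟨18362949912, 38836781341597139860558089,
  4864364646654785098419289572858859722151502284391267896268196100730148326345835347969, 280193,
  [P2p1_0, P2p2_0, P2p3_0, P2p3_2, P2p4_0, P2p4_2, P2p4_3, P2p5_0, P2p5_2, P2p5_3, P2p5_4, P2p6_0,
  P2p6_2, P2p6_3, P2p6_4, P2p6_5, P2p8_0, P2p8_7, P2p8_9, P2p9_0, P2p9_7]⟩) (.leaf ⟨18359018052,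
  38840437327681967454453891,
  4970605972787628628927278931509648329028472224698807320993801487449449156827478425615, 280129,
  [P2p1_0, P2p2_3, P2p5_4, P2p6_4, P2p6_5, P2p8_0, P2p8_1, P2p8_2, P2p8_3, P2p8_7, P2p8_9, P2p9_0,
  P2p9_1, P2p9_2, P2p9_3, P2p9_7]⟩)))) (.node 700 (.node 698 (.node 697 (.leaf ⟨18409349508,
  38839140402562330261625059,
  4970605972787627739274956309074636728102479903448899337472503950592453968716331155471, 280897,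
  [P2p1_0, P2p2_3, P2p4_0, P2p4_1, P2p4_2, P2p4_3, P2p4_5, P2p4_6, P2p5_0, P2p5_1, P2p5_2, P2p5_3,
  P2p5_6, P2p6_0, P2p6_1, P2p6_2, P2p6_3, P2p8_0, P2p8_1, P2p8_2, P2p8_3, P2p8_7, P2p8_9, P2p9_0,
  P2p9_1, P2p9_2, P2p9_3, P2p9_7]⟩) (.leaf ⟨18356658456, 38836781264824736883511462,
  4864364646654784774894992978053614631187751406036959212017168904032235644178996985857, 280097,
  [P2p1_0, P2p1_2, P2p1_3, P2p2_0, P2p2_3, P2p3_0, P2p4_0, P2p5_0, P2p5_4, P2p6_0, P2p6_4, P2p6_5,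
  P2p8_0, P2p8_7, P2p8_9, P2p9_0, P2p9_7]⟩)) (.node 699 (.leaf ⟨18406990104,
  38840358780253531929579686,
  4864364646654783453876941562545453725234005594370100276958948875689177382777111248897, 280865,
  [P2p1_0, P2p1_2, P2p1_3, P2p2_0, P2p2_3, P2p3_0, P2p4_5, P2p4_6, P2p5_6, P2p8_0, P2p8_7, P2p8_9,
  P2p9_0, P2p9_7]⟩) (.leaf ⟨18414592388, 38839140068170057929365731,
  4879541978959475517756964854535889543626057383027069672324572794082032947894734225411, 280977,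
  [P2p1_0, P2p2_0, P2p2_1, P2p2_3, P2p3_0, P2p3_1, P2p4_0, P2p4_1, P2p4_5, P2p4_6, P2p5_0, P2p5_1,
  P2p5_6, P2p6_0, P2p6_1, P2p8_0, P2p8_1, P2p8_7, P2p8_9, P2p9_0, P2p9_1, P2p9_7]⟩))) (.node 702
  (.node 701 (.leaf ⟨18355888401, 38950117951243033452318820,
  4856775980502438756435160356854863248667120114969541097175581977412403111004930769027, 280082,
  [P2p0_1, P2p2_0, P2p2_1, P2p2_7, P2p3_0, P2p3_1, P2p3_2, P2p3_7, P2p5_4, P2p6_4, P2p6_5, P2p8_7,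
  P2p8_9, P2p9_7]⟩) (.leaf ⟨18413281672, 38839140033045987181369444,
  4864364646654783453876941562545836837426941354911695747557297801075019034114243231745, 280961,
  [P2p1_0, P2p2_0, P2p3_0, P2p3_2, P2p4_5, P2p4_6, P2p5_6, P2p8_0, P2p8_7, P2p8_9, P2p9_0,
  P2p9_7]⟩)) (.node 703 (.leaf ⟨18413543812, 38839140042274360071985379,
  4909896643568859591596295339382617495359702440126887362116352657375890614251623481351, 280961,
  [P2p1_0, P2p3_0, P2p3_1, P2p3_2, P2p4_0, P2p4_1, P2p4_2, P2p4_5, P2p4_6, P2p5_0, P2p5_1, P2p5_2,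
  P2p5_6, P2p6_0, P2p6_1, P2p6_2, P2p8_0, P2p8_1, P2p8_2, P2p8_7, P2p8_9, P2p9_0, P2p9_1, P2p9_2,
  P2p9_7]⟩) (.leaf ⟨18355872036, 38836781378796916766348419,
  4970605972787628628927278931510318788519825255477442139322057151089309343860204175375, 280081,
  [P2p1_0, P2p2_0, P2p2_1, P2p3_0, P2p3_1, P2p3_2, P2p5_4, P2p6_4, P2p6_5, P2p8_0, P2p8_1, P2p8_2,
  P2p8_3, P2p8_7, P2p8_9, P2p9_0, P2p9_1, P2p9_2, P2p9_3, P2p9_7]⟩))))))

def P2T12 : Tr :=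
  .node 725 (.node 714 (.node 709 (.node 706 (.node 705 (.leaf ⟨18406220049,
  38953695466671828498387044,
  4856775980502437462377466990913774174277608896453741596588418471678681170136526946435, 280850,
  [P2p0_1, P2p2_0, P2p2_1, P2p2_7, P2p3_0, P2p3_1, P2p3_2, P2p3_7, P2p4_5, P2p4_6, P2p5_6, P2p8_7,
  P2p8_9, P2p9_7]⟩) (.leaf ⟨18325201288, 38837007379302925008541763,
  5289329951186160487578202460422341331544275031824203120985410218442578110779537031169, 279617,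
  [P2p1_0, P2p1_3, P2p2_0, P2p2_3, P2p4_5, P2p6_3, P2p6_4, P2p6_5, P2p8_0, P2p8_3, P2p8_4, P2p8_5,
  P2p8_7, P2p8_9, P2p9_0, P2p9_3, P2p9_4, P2p9_5, P2p9_7]⟩)) (.node 707 (.leaf ⟨18325463428,
  38837007497778807594719459,
  5334861948100236625294676560343906169253891335289839680961178877907153613063396982799, 279617,
  [P2p1_0, P2p2_3, P2p4_5, P2p6_0, P2p6_1, P2p6_2, P2p6_3, P2p6_4, P2p6_5, P2p8_0, P2p8_1, P2p8_2,
  P2p8_3, P2p8_4, P2p8_5, P2p8_7, P2p8_9, P2p9_0, P2p9_1, P2p9_2, P2p9_3, P2p9_4, P2p9_5, P2p9_7]⟩)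
  (.node 708 (.leaf ⟨18330706308, 38837007163386535262460131,
  5243797954272084403781621694802343427544102888445155145820192922221898665400260034563, 279697,
  [P2p1_0, P2p2_0, P2p2_1, P2p2_3, P2p3_0, P2p3_1, P2p4_5, P2p6_0, P2p6_1, P2p6_4, P2p6_5, P2p8_0,
  P2p8_1, P2p8_4, P2p8_5, P2p8_7, P2p8_9, P2p9_0, P2p9_1, P2p9_4, P2p9_5, P2p9_7]⟩) (.leaf
  ⟨18329395592, 38837007128262464514463844,
  5228620621967392339902832550061586832036645378724067503554654229421176269909384036353, 279681,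
  [P2p1_0, P2p2_0, P2p3_0, P2p3_2, P2p4_5, P2p6_4, P2p6_5, P2p8_0, P2p8_4, P2p8_5, P2p8_7, P2p8_9,
  P2p9_0, P2p9_4, P2p9_5, P2p9_7]⟩)))) (.node 711 (.node 710 (.leaf ⟨18329657732,
  38837007137490837405079779,
  5274152618881468477619306649983343231688869921019257792276324385240700974037662629895, 279681,
  [P2p1_0, P2p3_0, P2p3_1, P2p3_2, P2p4_5, P2p6_0, P2p6_1, P2p6_2, P2p6_4, P2p6_5, P2p8_0, P2p8_1,
  P2p8_2, P2p8_4, P2p8_5, P2p8_7, P2p8_9, P2p9_0, P2p9_1, P2p9_2, P2p9_4, P2p9_5, P2p9_7]⟩) (.leaf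
  ⟨18392310152, 38837929716506610486122563,
  5046492634311087896912923718371218761410064966945994989871217870379780672052817100801, 280641,
  [P2p1_0, P2p1_3, P2p2_0, P2p2_3, P2p5_3, P2p5_4, P2p5_6, P2p6_3, P2p6_4, P2p8_0, P2p8_3, P2p8_4,
  P2p8_7, P2p8_9, P2p9_0, P2p9_3, P2p9_4, P2p9_7]⟩)) (.node 712 (.leaf ⟨18392572292,
  38837929834982493072300259,
  5092024631225164034632277451268095709693452466481106913230706317609214939097537118223, 280641,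
  [P2p1_0, P2p2_3, P2p5_0, P2p5_1, P2p5_2, P2p5_3, P2p5_4, P2p5_6, P2p6_0, P2p6_1, P2p6_2, P2p6_3,
  P2p6_4, P2p8_0, P2p8_1, P2p8_2, P2p8_3, P2p8_4, P2p8_7, P2p8_9, P2p9_0, P2p9_1, P2p9_2, P2p9_3,
  P2p9_4, P2p9_7]⟩) (.node 713 (.leaf ⟨18397815172, 38837929500590220740040931,
  5000960637397011813114286072054569349857199112088750326574772154327059251844354342915, 280721,
  [P2p1_0, P2p2_0, P2p2_1, P2p2_3, P2p3_0, P2p3_1, P2p5_0, P2p5_1, P2p5_4, P2p5_6, P2p6_0, P2p6_1,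
  P2p6_4, P2p8_0, P2p8_1, P2p8_4, P2p8_7, P2p8_9, P2p9_0, P2p9_1, P2p9_4, P2p9_7]⟩) (.leaf
  ⟨18396504456, 38837929465466149992044644,
  4985783305092319749234262798895821849818125375480744671430496409627111671455966887937, 280705,
  [P2p1_0, P2p2_0, P2p3_0, P2p3_2, P2p5_4, P2p5_6, P2p6_4, P2p8_0, P2p8_4, P2p8_7, P2p8_9, P2p9_0,
  P2p9_4, P2p9_7]⟩))))) (.node 719 (.node 716 (.node 715 (.leaf ⟨18396766596,
  38837929474694522882660579,
  5031315302006395886953616531792890360044121113845410323535886353211495140345105547271, 280705,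
  [P2p1_0, P2p3_0, P2p3_1, P2p3_2, P2p5_0, P2p5_1, P2p5_2, P2p5_4, P2p5_6, P2p6_0, P2p6_1, P2p6_2,
  P2p6_4, P2p8_0, P2p8_1, P2p8_2, P2p8_4, P2p8_7, P2p8_9, P2p9_0, P2p9_1, P2p9_2, P2p9_4, P2p9_7]⟩)
  (.leaf ⟨18405761304, 38840358674493638757581894,
  4856775980502437462377466990901514018491202003174246720746173877118966802199156817920, 280854,
  [P2p1_0, P2p3_0, P2p3_1, P2p3_2, P2p4_5, P2p4_6, P2p5_6, P2p8_7, P2p8_9, P2p9_7]⟩)) (.node 717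
  (.leaf ⟨18323104152, 38837007237439639825584294,
  5228620621967392339902832550065801276619456328743970229930468162686812251034516258817, 279585,
  [P2p1_0, P2p1_2, P2p1_3, P2p1_4, P2p1_5, P2p2_0, P2p2_3, P2p2_4, P2p2_5, P2p3_0, P2p3_4, P2p3_5,
  P2p4_5, P2p6_4, P2p6_5, P2p8_0, P2p8_4, P2p8_5, P2p8_7, P2p8_9, P2p9_0, P2p9_4, P2p9_5, P2p9_7]⟩)
  (.node 718 (.leaf ⟨18327298440, 38837007388310124263282755,
  5319684615795544561415887415603341138612045340421241071532665200747444888455877558273, 279649,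
  [P2p1_0, P2p1_2, P2p1_3, P2p3_2, P2p4_5, P2p6_2, P2p6_3, P2p6_4, P2p6_5, P2p8_0, P2p8_2, P2p8_3,
  P2p8_4, P2p8_5, P2p8_7, P2p8_9, P2p9_0, P2p9_2, P2p9_3, P2p9_4, P2p9_5, P2p9_7]⟩) (.leaf
  ⟨18321875352, 38837007131679746653586502,
  5221031955815046348403357978421861499723503693561693517824981233015946760044778291200, 279574,
  [P2p1_0, P2p3_0, P2p3_1, P2p3_2, P2p3_4, P2p3_5, P2p4_5, P2p6_4, P2p6_5, P2p8_4, P2p8_5, P2p8_7,
  P2p8_9, P2p9_4, P2p9_5, P2p9_7]⟩)))) (.node 722 (.node 720 (.leaf ⟨18327118212,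
  38837007388602834874440108,
  5334861948100236625294676560344576628745244366068474499289434545974299932811616845824, 279654,
  [P2p1_0, P2p2_0, P2p2_1, P2p3_0, P2p3_1, P2p3_2, P2p4_5, P2p6_0, P2p6_1, P2p6_2, P2p6_3, P2p6_4,
  P2p6_5, P2p8_0, P2p8_1, P2p8_2, P2p8_3, P2p8_4, P2p8_5, P2p8_7, P2p8_9, P2p9_0, P2p9_1, P2p9_2,
  P2p9_3, P2p9_4, P2p9_5, P2p9_7]⟩) (.node 721 (.leaf ⟨18322923928, 38837007163241262288636007,
  5221031955815046348403357978421478462066794620889581982593032643107649641501048373248, 279590,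
  [P2p1_0, P2p2_0, P2p2_1, P2p2_3, P2p2_4, P2p2_5, P2p3_0, P2p3_1, P2p3_4, P2p3_5, P2p4_5, P2p6_4,
  P2p6_5, P2p8_4, P2p8_5, P2p8_7, P2p8_9, P2p9_4, P2p9_5, P2p9_7]⟩) (.leaf ⟨18325201480,
  38957420699000682365193283,
  4864364646654784316568907641917714533809115525932814136482953342456774815155061587969, 279617,
  [P2p1_0, P2p1_3, P2p1_5, P2p1_6, P2p1_7, P2p2_0, P2p2_3, P2p2_5, P2p2_6, P2p2_7, P2p4_5, P2p4_6,
  P2p4_7, P2p6_5, P2p8_0, P2p8_7, P2p8_9, P2p9_0, P2p9_7]⟩))) (.node 723 (.leaf ⟨18325463620,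
  38840431563074444420219011,
  4970605972787628197561551644940915516804102054871317939296836989970222290812351217679, 279617,
  [P2p1_0, P2p2_3, P2p4_5, P2p4_6, P2p4_7, P2p6_5, P2p8_0, P2p8_1, P2p8_2, P2p8_3, P2p8_7, P2p8_9,
  P2p9_0, P2p9_1, P2p9_2, P2p9_3, P2p9_7]⟩) (.node 724 (.leaf ⟨18330706500,
  38918424174089906918885507,
  4879541978959476299567856785228485576046983858401472023807105469121095549166328938499, 279697,
  [P2p1_0, P2p2_0, P2p2_1, P2p2_3, P2p2_5, P2p2_6, P2p2_7, P2p3_0, P2p3_1, P2p3_5, P2p3_6, P2p3_7,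
  P2p4_5, P2p4_6, P2p4_7, P2p6_5, P2p8_0, P2p8_1, P2p8_7, P2p8_9, P2p9_0, P2p9_1, P2p9_7]⟩) (.leaf
  ⟨18329395784, 38996416973018434954760292,
  4864364646654784316568907641939648364545567052886997452326923487463875815213300252673, 279681,
  [P2p1_0, P2p1_5, P2p1_6, P2p1_7, P2p2_0, P2p2_5, P2p2_6, P2p2_7, P2p3_0, P2p3_2, P2p3_5, P2p3_6,
  P2p3_7, P2p4_5, P2p4_6, P2p4_7, P2p6_5, P2p8_0, P2p8_7, P2p8_9, P2p9_0, P2p9_7]⟩)))))) (.node 735
  (.node 730 (.node 727 (.node 726 (.leaf ⟨18329657924, 38879427727844687314224259,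
  4909896643568860265565755071806925874147323780774798298089251877753144969748957036551, 279681,
  [P2p1_0, P2p3_0, P2p3_1, P2p3_2, P2p3_5, P2p3_6, P2p3_7, P2p4_5, P2p4_6, P2p4_7, P2p6_5, P2p8_0,
  P2p8_1, P2p8_2, P2p8_7, P2p8_9, P2p9_0, P2p9_1, P2p9_2, P2p9_7]⟩) (.leaf ⟨18541208088,
  38837927268800316087308454,
  4864364646654787363128857236989351073857957516848467282214538376050032613389791985665, 282913,
  [P2p1_0, P2p1_2, P2p1_3, P2p2_0, P2p2_3, P2p3_0, P2p5_0, P2p5_4, P2p5_6, P2p5_7, P2p6_0, P2p6_4,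
  P2p6_7, P2p8_0, P2p8_7, P2p8_9, P2p9_0, P2p9_7]⟩)) (.node 728 (.leaf ⟨18540421668,
  38837930841537009787540611,
  5092024631225167081152736343035387037248388209885253004322006546349270059462147637279, 282897,
  [P2p1_0, P2p2_0, P2p2_1, P2p3_0, P2p3_1, P2p3_2, P2p5_4, P2p5_6, P2p5_7, P2p6_4, P2p6_7, P2p8_0,
  P2p8_1, P2p8_2, P2p8_3, P2p8_4, P2p8_7, P2p8_9, P2p9_0, P2p9_1, P2p9_2, P2p9_3, P2p9_4, P2p9_7]⟩)
  (.node 729 (.leaf ⟨18392310344, 38957163597505155038317635,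
  4864364646654783453936180329210688239514140666728071159779634149571953717814539911169, 280641,
  [P2p1_0, P2p1_3, P2p1_6, P2p1_7, P2p2_0, P2p2_3, P2p2_6, P2p2_7, P2p4_6, P2p4_7, P2p5_4, P2p5_6,
  P2p5_7, P2p8_0, P2p8_7, P2p8_9, P2p9_0, P2p9_7]⟩) (.leaf ⟨18392572484, 38879244665527033958301827,
  4970605972787627334928824332233889269277893224990857066521992417819170007846447153167, 280641,
  [P2p1_0, P2p2_3, P2p4_6, P2p4_7, P2p5_4, P2p5_6, P2p5_7, P2p8_0, P2p8_1, P2p8_2, P2p8_3, P2p8_7,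
  P2p8_9, P2p9_0, P2p9_1, P2p9_2, P2p9_3, P2p9_7]⟩)))) (.node 732 (.node 731 (.leaf ⟨18397815364,
  38918203966082527011113091,
  4879541978959475436935129472518394290670990856215401074460045631681749158966216294403, 280721,
  [P2p1_0, P2p2_0, P2p2_1, P2p2_3, P2p2_6, P2p2_7, P2p3_0, P2p3_1, P2p3_6, P2p3_7, P2p4_6, P2p4_7,
  P2p5_4, P2p5_6, P2p5_7, P2p8_0, P2p8_1, P2p8_7, P2p8_9, P2p9_0, P2p9_1, P2p9_7]⟩) (.leaf
  ⟨18396504648, 38996122978034760208781412,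
  4864364646654783453936180329229557079168860415965537781569303676211817239628411371521, 280705,
  [P2p1_0, P2p1_6, P2p1_7, P2p2_0, P2p2_6, P2p2_7, P2p3_0, P2p3_2, P2p3_6, P2p3_7, P2p4_6, P2p4_7,
  P2p5_4, P2p5_6, P2p5_7, P2p8_0, P2p8_7, P2p8_9, P2p9_0, P2p9_7]⟩)) (.node 733 (.leaf ⟨18396766788,
  38879244413325454825555075,
  4909896643568859402933027759096834635539383173177620731260106687234855208538685767687, 280705,
  [P2p1_0, P2p3_0, P2p3_1, P2p3_2, P2p3_6, P2p3_7, P2p4_6, P2p4_7, P2p5_4, P2p5_6, P2p5_7, P2p8_0,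
  P2p8_1, P2p8_2, P2p8_7, P2p8_9, P2p9_0, P2p9_1, P2p9_2, P2p9_7]⟩) (.node 734 (.leaf ⟨18394407496,
  38957163603134654572530755,
  4864364646654783453936180329211071069637617239773097777772090347621560474942921572353, 280673,
  [P2p1_0, P2p1_2, P2p1_3, P2p1_6, P2p1_7, P2p3_2, P2p4_6, P2p4_7, P2p5_4, P2p5_6, P2p5_7, P2p8_0,
  P2p8_7, P2p8_9, P2p9_0, P2p9_7]⟩) (.leaf ⟨18389426788, 38879244630733091576550531,
  4970605972787627334934995068481040282227538847740923297358929586917778140342759915535, 280593,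
  [P2p1_0, P2p2_0, P2p2_1, P2p3_0, P2p3_1, P2p3_2, P2p4_0, P2p4_1, P2p4_2, P2p4_3, P2p4_6, P2p4_7,
  P2p5_0, P2p5_1, P2p5_2, P2p5_3, P2p5_4, P2p5_6, P2p5_7, P2p8_0, P2p8_1, P2p8_2, P2p8_3, P2p8_7,
  P2p8_9, P2p9_0, P2p9_1, P2p9_2, P2p9_3, P2p9_7]⟩))))) (.node 740 (.node 737 (.node 736 (.leaf
  ⟨18390032996, 38879244658626361543432356,
  4917485309721205394435793390053744912921206700881277658981378900591329960581793316872, 280614,
  [P2p0_3, P2p1_0, P2p1_3, P2p2_0, P2p2_1, P2p2_3, P2p4_3, P2p4_6, P2p4_7, P2p5_3, P2p5_4, P2p5_6,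
  P2p5_7, P2p8_3, P2p8_7, P2p8_9, P2p9_3, P2p9_7]⟩) (.leaf ⟨18543321633, 38951263990297431625533540,
  4856775980502441344669024622068850833452774304581269876107875403498898371964146221187, 282946,
  [P2p0_1, P2p2_0, P2p2_1, P2p2_3, P2p2_4, P2p2_7, P2p3_0, P2p3_1, P2p3_4, P2p3_7, P2p5_4, P2p5_6,
  P2p5_7, P2p6_4, P2p6_7, P2p8_7, P2p8_9, P2p9_7]⟩)) (.node 738 (.leaf ⟨18540438033,
  38951263955218612652970084,
  4856775980502441344669024622067701426724006989616838590580617865514108780606050730115, 282898,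
  [P2p0_1, P2p2_0, P2p2_1, P2p2_7, P2p3_0, P2p3_1, P2p3_2, P2p3_7, P2p5_4, P2p5_6, P2p5_7, P2p6_4,
  P2p6_7, P2p8_7, P2p8_9, P2p9_7]⟩) (.node 739 (.leaf ⟨18547499544, 38837927345572719064355081,
  4864364646654787686653153756469375340181539229173302887973568579741040890872730812417, 283009,
  [P2p1_0, P2p2_0, P2p3_0, P2p3_2, P2p5_0, P2p5_2, P2p5_3, P2p5_4, P2p5_6, P2p5_7, P2p6_0, P2p6_2,
  P2p6_3, P2p6_4, P2p6_7, P2p8_0, P2p8_7, P2p8_9, P2p9_0, P2p9_7]⟩) (.leaf ⟨4586759304,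
  240580961772495698025057350,
  5828036321036895508614575892927586455232174845605933106276948791180245945309004103681, 69985,
  [P2p1_0, P2p1_2, P2p1_3, P2p3_2, P2p4_0, P2p4_2, P2p4_3, P2p4_6, P2p4_8, P2p4_9, P2p5_0, P2p5_2,
  P2p5_3, P2p5_4, P2p5_6, P2p5_8, P2p5_9, P2p7_0, P2p7_8, P2p7_9, P2p9_8]⟩)))) (.node 743 (.node 741
  (.leaf ⟨4586579076, 240580961772679350826634569,
  5828036321035128661550620273431154578824065193971240379364636263278677684390792790016, 69990,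
  [P2p1_0, P2p2_0, P2p2_1, P2p3_0, P2p3_1, P2p3_2, P2p4_0, P2p4_1, P2p4_2, P2p4_3, P2p4_6, P2p4_8,
  P2p4_9, P2p5_0, P2p5_1, P2p5_2, P2p5_3, P2p5_4, P2p5_6, P2p5_8, P2p5_9, P2p7_8, P2p7_9, P2p9_8]⟩)
  (.node 742 (.leaf ⟨4581336216, 240580961627329308113568838,
  5828036321035128661544449537264363789106383113622528380149282484519631843188894269440, 69910,
  [P2p1_0, P2p3_0, P2p3_1, P2p3_2, P2p3_6, P2p3_8, P2p3_9, P2p4_6, P2p4_8, P2p4_9, P2p5_4, P2p5_6,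
  P2p5_8, P2p5_9, P2p7_8, P2p7_9, P2p9_8]⟩) (.leaf ⟨4582384792, 280476694297794305033603175,
  5828036321035128661544449537263981897266957708378304716606242744177222134896278044672, 69926,
  [P2p1_0, P2p2_0, P2p2_1, P2p2_3, P2p2_6, P2p2_8, P2p2_9, P2p3_0, P2p3_1, P2p3_6, P2p3_8, P2p3_9,
  P2p4_6, P2p4_8, P2p4_9, P2p5_4, P2p5_6, P2p5_8, P2p5_9, P2p7_8, P2p7_9, P2p9_8]⟩))) (.node 744
  (.leaf ⟨4855194760, 280470829536859975565021255,
  5828036321036917858384034486156325872765633592468320858099300671733337421574193348609, 74081,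
  [P2p1_0, P2p1_2, P2p1_3, P2p3_2, P2p4_0, P2p4_2, P2p4_3, P2p4_8, P2p4_9, P2p5_0, P2p5_2, P2p5_3,
  P2p5_4, P2p5_8, P2p5_9, P2p6_0, P2p6_2, P2p6_3, P2p6_4, P2p6_5, P2p6_8, P2p6_9, P2p7_0, P2p7_8,
  P2p7_9, P2p9_8]⟩) (.node 745 (.leaf ⟨4855014532, 280470829537079912250315114,
  5828036321035151065239972200961173585691554114872889478461276988912914122863202533376, 74086,
  [P2p1_0, P2p2_0, P2p2_1, P2p3_0, P2p3_1, P2p3_2, P2p4_0, P2p4_1, P2p4_2, P2p4_3, P2p4_8, P2p4_9,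
  P2p5_0, P2p5_1, P2p5_2, P2p5_3, P2p5_4, P2p5_8, P2p5_9, P2p6_0, P2p6_1, P2p6_2, P2p6_3, P2p6_4,
  P2p6_5, P2p6_8, P2p6_9, P2p7_8, P2p7_9, P2p9_8]⟩) (.leaf ⟨4850820248, 280470829386100370003036263,
  5828036321035150660834601457528273908429651979374273558001286601126283142071238983680, 74022,
  [P2p1_0, P2p2_0, P2p2_1, P2p2_3, P2p2_8, P2p2_9, P2p3_0, P2p3_1, P2p3_8, P2p3_9, P2p4_8, P2p4_9,
  P2p5_4, P2p5_8, P2p5_9, P2p6_4, P2p6_5, P2p6_8, P2p6_9, P2p7_8, P2p7_9, P2p9_8]⟩))))))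

/-- The table of P2. -/
def P2T : Tr :=
  (.node 384 (.node 192 (.node 64 P2T1 (.node 128 P2T2 P2T3)) (.node 256 P2T4 (.node 320 P2T5
  P2T6))) (.node 576 (.node 448 P2T7 (.node 512 P2T8 P2T9)) (.node 640 P2T10 (.node 704 P2T11
  P2T12))))

theorem P2T1_ok : P2T1.all (qEntry (P2 (4, 6) (7, 9)).t P2ie P2te) = true := by
  decide +kernel

theorem P2T2_ok : P2T2.all (qEntry (P2 (4, 6) (7, 9)).t P2ie P2te) = true := by
  decide +kernel

theorem P2T3_ok : P2T3.all (qEntry (P2 (4, 6) (7, 9)).t P2ie P2te) = true := by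
  decide +kernel

theorem P2T4_ok : P2T4.all (qEntry (P2 (4, 6) (7, 9)).t P2ie P2te) = true := by
  decide +kernel

theorem P2T5_ok : P2T5.all (qEntry (P2 (4, 6) (7, 9)).t P2ie P2te) = true := by
  decide +kernel

theorem P2T6_ok : P2T6.all (qEntry (P2 (4, 6) (7, 9)).t P2ie P2te) = true := by
  decide +kernel

theorem P2T7_ok : P2T7.all (qEntry (P2 (4, 6) (7, 9)).t P2ie P2te) = true := by
  decide +kernel

theorem P2T8_ok : P2T8.all (qEntry (P2 (4, 6) (7, 9)).t P2ie P2te) = true := by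
  decide +kernel

theorem P2T9_ok : P2T9.all (qEntry (P2 (4, 6) (7, 9)).t P2ie P2te) = true := by
  decide +kernel

theorem P2T10_ok : P2T10.all (qEntry (P2 (4, 6) (7, 9)).t P2ie P2te) = true := by
  decide +kernel

theorem P2T11_ok : P2T11.all (qEntry (P2 (4, 6) (7, 9)).t P2ie P2te) = true := by
  decide +kernel

theorem P2T12_ok : P2T12.all (qEntry (P2 (4, 6) (7, 9)).t P2ie P2te) = true := by
  decide +kernel

theorem P2T_ok : P2T.all (qEntry (P2 (4, 6) (7, 9)).t P2ie P2te) = true :=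
  (Tr.all_node (Tr.all_node (Tr.all_node P2T1_ok (Tr.all_node P2T2_ok P2T3_ok)) (Tr.all_node P2T4_ok
  (Tr.all_node P2T5_ok P2T6_ok))) (Tr.all_node (Tr.all_node P2T7_ok (Tr.all_node P2T8_ok P2T9_ok))
  (Tr.all_node P2T10_ok (Tr.all_node P2T11_ok P2T12_ok))))

end Pool.Agent.T1Red
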