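import Pool.Agent.Work.MP_392c8e_co_t1.Inst.Split

/-!
# Reducers with gain: a pentagon, a pentagon and a hexagon, mutually adjacent (one 2-vertex).
-/

namespace Pool.Agent.T1Red

/-- a pentagon, a pentagon and a hexagon, mutually adjacent (one 2-vertex). Labels `0, …, 6` are the terminals, the other labels are new vertices; all terminals have different values, except possibly 0 and 1, 0 and 2, 0 and 3, 0 and 4, 0 and 5, 0 and 6, 1 and 2, 1 and 3, 1 and 4, 1 and 5, 1 and 6, 2 and 3, 2 and 4, 2 and 5, 2 and 6, 3 and 4, 3 and 5, 3 and 6, 4 and 5, 4 and 6, 5 and 6. -/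
def R2 : Red where
  t := 9
  m := 11
  ed :=
    [(9, 10), (9, 13), (9, 14), (10, 11), (10, 16), (11, 12), (11, 19), (12, 13), (14, 15), (15,
    16), (16, 17), (17, 18), (18, 19), (12, 0), (13, 1), (14, 2), (15, 3), (17, 4), (18, 5), (19,
    6)]
  nw := [(0, 1), (2, 3), (4, 7), (5, 8), (6, 7), (7, 8)]
  ne := [0, 0, 0, 0, 0, 0, 0, 0, 0]

end Pool.Agent.T1Red
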