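import Pool.Agent.Work.MP_392c8e_co_uni.Quick
import Pool.Agent.Work.MP_392c8e_co_uni.Inst.R2

/-!
# The table of the reducer R2q
-/

namespace Pool.Agent.T1Red

/-- The edges between interior vertices. -/
def R2qie : List (Nat × Nat) :=
  [(9, 10), (9, 13), (9, 14), (10, 11), (10, 16), (11, 12), (11, 19), (12, 13), (14, 15), (15, 16),
  (16, 17), (17, 18), (18, 19)]

/-- The packed matrix of the pairs with different values. -/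
def R2qne : Nat := 0

/-- The edges with a label. -/
def R2qte : List (Nat × Nat) :=
  [(12, 0), (13, 1), (14, 2), (15, 3), (17, 4), (18, 5), (19, 6)]

def R2qp0_1 : Nat × Nat × Nat × Nat := (3, 1, 0, 1)
def R2qp0_2 : Nat × Nat × Nat × Nat := (5, 1, 0, 2)
def R2qp0_3 : Nat × Nat × Nat × Nat := (9, 1, 0, 3)
def R2qp0_4 : Nat × Nat × Nat × Nat := (17, 1, 0, 4)
def R2qp0_5 : Nat × Nat × Nat × Nat := (33, 1, 0, 5)
def R2qp0_6 : Nat × Nat × Nat × Nat := (65, 1, 0, 6)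
def R2qp1_0 : Nat × Nat × Nat × Nat := (3, 2, 1, 0)
def R2qp1_2 : Nat × Nat × Nat × Nat := (6, 2, 1, 2)
def R2qp1_3 : Nat × Nat × Nat × Nat := (10, 2, 1, 3)
def R2qp1_4 : Nat × Nat × Nat × Nat := (18, 2, 1, 4)
def R2qp1_5 : Nat × Nat × Nat × Nat := (34, 2, 1, 5)
def R2qp1_6 : Nat × Nat × Nat × Nat := (66, 2, 1, 6)
def R2qp2_0 : Nat × Nat × Nat × Nat := (5, 4, 2, 0)
def R2qp2_1 : Nat × Nat × Nat × Nat := (6, 4, 2, 1)
def R2qp2_3 : Nat × Nat × Nat × Nat := (12, 4, 2, 3)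
def R2qp2_4 : Nat × Nat × Nat × Nat := (20, 4, 2, 4)
def R2qp2_5 : Nat × Nat × Nat × Nat := (36, 4, 2, 5)
def R2qp2_6 : Nat × Nat × Nat × Nat := (68, 4, 2, 6)
def R2qp3_0 : Nat × Nat × Nat × Nat := (9, 8, 3, 0)
def R2qp3_1 : Nat × Nat × Nat × Nat := (10, 8, 3, 1)
def R2qp3_2 : Nat × Nat × Nat × Nat := (12, 8, 3, 2)
def R2qp3_4 : Nat × Nat × Nat × Nat := (24, 8, 3, 4)
def R2qp3_5 : Nat × Nat × Nat × Nat := (40, 8, 3, 5)
def R2qp3_6 : Nat × Nat × Nat × Nat := (72, 8, 3, 6)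
def R2qp4_0 : Nat × Nat × Nat × Nat := (17, 16, 4, 0)
def R2qp4_1 : Nat × Nat × Nat × Nat := (18, 16, 4, 1)
def R2qp4_2 : Nat × Nat × Nat × Nat := (20, 16, 4, 2)
def R2qp4_3 : Nat × Nat × Nat × Nat := (24, 16, 4, 3)
def R2qp4_5 : Nat × Nat × Nat × Nat := (48, 16, 4, 5)
def R2qp4_6 : Nat × Nat × Nat × Nat := (80, 16, 4, 6)
def R2qp5_0 : Nat × Nat × Nat × Nat := (33, 32, 5, 0)
def R2qp5_1 : Nat × Nat × Nat × Nat := (34, 32, 5, 1)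
def R2qp5_2 : Nat × Nat × Nat × Nat := (36, 32, 5, 2)
def R2qp5_3 : Nat × Nat × Nat × Nat := (40, 32, 5, 3)
def R2qp5_4 : Nat × Nat × Nat × Nat := (48, 32, 5, 4)
def R2qp5_6 : Nat × Nat × Nat × Nat := (96, 32, 5, 6)
def R2qp6_0 : Nat × Nat × Nat × Nat := (65, 64, 6, 0)
def R2qp6_1 : Nat × Nat × Nat × Nat := (66, 64, 6, 1)
def R2qp6_2 : Nat × Nat × Nat × Nat := (68, 64, 6, 2)
def R2qp6_3 : Nat × Nat × Nat × Nat := (72, 64, 6, 3)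
def R2qp6_4 : Nat × Nat × Nat × Nat := (80, 64, 6, 4)
def R2qp6_5 : Nat × Nat × Nat × Nat := (96, 64, 6, 5)

def R2qT1 : Tr :=
  .node 32 (.node 16 (.node 8 (.node 4 (.node 2 (.node 1 (.leaf ⟨1151073, 1127069211723876,
  93538602478084540066196536516981934183371197382656, 4417, [R2qp1_0, R2qp2_3, R2qp5_4, R2qp5_6]⟩)
  (.leaf ⟨1198153, 8098043866093729, 93538245698829057539134297848512440935708421587069, 4641,
  [R2qp1_0, R2qp1_2, R2qp1_3, R2qp1_4, R2qp1_5, R2qp1_6, R2qp2_0, R2qp2_3, R2qp2_4, R2qp2_5,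
  R2qp2_6, R2qp3_0, R2qp3_4, R2qp3_5, R2qp3_6, R2qp4_5, R2qp4_6, R2qp5_6]⟩)) (.node 3 (.leaf
  ⟨1123398, 1129268240384100, 93538602478084638721342206736068471355320870043651, 4497, [R2qp1_0,
  R2qp2_0, R2qp2_1, R2qp2_3, R2qp2_4, R2qp3_0, R2qp3_1, R2qp3_4, R2qp5_4, R2qp5_6]⟩) (.leaf
  ⟨1122377, 5635134565027938, 93538602478084623149680755140997030760869396545617, 4481, [R2qp1_0,
  R2qp1_4, R2qp1_6, R2qp2_0, R2qp2_4, R2qp2_6, R2qp3_0, R2qp3_2, R2qp3_4, R2qp3_6, R2qp5_4,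
  R2qp5_6]⟩))) (.node 6 (.node 5 (.leaf ⟨1120329, 4508105215970369,
  93538602478084685450825478472503133925669651415133, 4449, [R2qp1_0, R2qp1_2, R2qp1_3, R2qp1_4,
  R2qp1_6, R2qp3_2, R2qp5_4, R2qp5_6]⟩) (.leaf ⟨1148002, 1127071499919653,
  93538936994366831414365205620091823267724182683651, 4369, [R2qp1_0, R2qp2_0, R2qp2_1, R2qp3_0,
  R2qp3_1, R2qp3_2, R2qp4_0, R2qp4_1, R2qp4_2, R2qp4_3, R2qp5_0, R2qp5_1, R2qp5_2, R2qp5_3, R2qp5_4,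
  R2qp5_6]⟩)) (.node 7 (.leaf ⟨1609825, 38552700225636,
  163689253822275257258109756701677469355224342724608, 6209, [R2qp1_0, R2qp2_3, R2qp2_4, R2qp3_4,
  R2qp5_4, R2qp6_4, R2qp6_5]⟩) (.leaf ⟨1590370, 37623950349506,
  163689253822275174180646941294364821921728510820355, 6161, [R2qp1_0, R2qp2_0, R2qp2_1, R2qp3_0,
  R2qp3_1, R2qp3_2, R2qp5_4, R2qp6_4, R2qp6_5]⟩)))) (.node 12 (.node 10 (.node 9 (.leaf ⟨1607236,
  1203044198940803, 163689253822275319564721292155716239453742494908444, 6169, [R2qp0_1, R2qp0_2,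
  R2qp0_3, R2qp0_4, R2qp1_2, R2qp1_3, R2qp1_4, R2qp3_2, R2qp5_4, R2qp6_4, R2qp6_5]⟩) (.leaf
  ⟨1597537, 37526404368487, 181227541083271842276944733580972640043042561851392, 6273, [R2qp0_2,
  R2qp0_3, R2qp1_0, R2qp1_2, R2qp1_3, R2qp3_2, R2qp4_2, R2qp4_3, R2qp5_2, R2qp5_3, R2qp5_4, R2qp6_2,
  R2qp6_3, R2qp6_4, R2qp6_5]⟩)) (.node 11 (.leaf ⟨1123908, 1133808151724259,
  93538602478084623144213943017763404441523444514844, 4505, [R2qp0_1, R2qp0_2, R2qp0_3, R2qp0_4,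
  R2qp1_2, R2qp1_3, R2qp1_4, R2qp2_3, R2qp2_4, R2qp3_4, R2qp5_4, R2qp5_6]⟩) (.leaf ⟨1148484,
  1127177896624259, 93538870091110373144604701903946662177986998697996, 4377, [R2qp0_1, R2qp0_2,
  R2qp0_3, R2qp1_2, R2qp1_3, R2qp3_2, R2qp4_2, R2qp4_3, R2qp5_2, R2qp5_3, R2qp5_4, R2qp5_6]⟩)))
  (.node 14 (.node 13 (.leaf ⟨1122374, 1128133428412483,
  93538602478084659490846520884438913232709825789959, 4481, [R2qp1_0, R2qp3_0, R2qp3_1, R2qp3_2,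
  R2qp3_4, R2qp5_4, R2qp5_6]⟩) (.leaf ⟨1197640, 4611386366889030,
  93538245698829088693390671750307570430074295877636, 4633, [R2qp0_1, R2qp0_2, R2qp1_2, R2qp3_0,
  R2qp3_1, R2qp3_2, R2qp3_4, R2qp3_5, R2qp3_6, R2qp4_5, R2qp4_6, R2qp5_6]⟩)) (.node 15 (.leaf
  ⟨561249, 3381068048664676, 93538602478084623144213943018445943542266762100736, 2113, [R2qp0_6,
  R2qp1_0, R2qp1_6, R2qp2_3, R2qp2_4, R2qp3_4, R2qp5_4, R2qp5_6]⟩) (.leaf ⟨541794, 6756739507688642,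
  93538602478084540071821807383298669051024924213315, 2065, [R2qp0_6, R2qp1_0, R2qp1_6, R2qp2_0,
  R2qp2_1, R2qp2_6, R2qp3_0, R2qp3_1, R2qp3_2, R2qp3_6, R2qp5_4, R2qp5_6]⟩))))) (.node 24 (.node 20
  (.node 18 (.node 17 (.leaf ⟨542817, 3379046360582244,
  93538602478084540066196536518383908125397771616268, 2081, [R2qp0_2, R2qp0_3, R2qp0_6, R2qp1_0,
  R2qp1_2, R2qp1_3, R2qp1_6, R2qp2_3, R2qp5_4, R2qp5_6]⟩) (.leaf ⟨548961, 3378942241179751,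
  93538870091110373144604701905145717994213790711808, 2177, [R2qp0_2, R2qp0_3, R2qp0_6, R2qp1_0,
  R2qp1_2, R2qp1_3, R2qp1_6, R2qp3_2, R2qp4_2, R2qp4_3, R2qp5_2, R2qp5_3, R2qp5_4, R2qp5_6]⟩))
  (.node 19 (.leaf ⟨1183817, 4538891373775937, 93538245701550771274378819005807999750944250724425,
  4673, [R2qp1_0, R2qp1_3, R2qp1_6, R2qp2_0, R2qp2_3, R2qp2_6, R2qp4_3, R2qp4_5, R2qp4_6, R2qp5_6]⟩)
  (.leaf ⟨1188934, 2287053984432228, 93538245699849333478527443547166795393777061265411, 4753,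
  [R2qp1_0, R2qp2_0, R2qp2_1, R2qp2_3, R2qp3_0, R2qp3_1, R2qp4_0, R2qp4_1, R2qp4_5, R2qp4_6,
  R2qp5_6]⟩))) (.node 22 (.node 21 (.leaf ⟨1187913, 5664821378977890,
  93538245698828470806103176561410083071850929258561, 4737, [R2qp1_0, R2qp1_6, R2qp2_0, R2qp2_6,
  R2qp3_0, R2qp3_2, R2qp3_6, R2qp4_5, R2qp4_6, R2qp5_6]⟩) (.leaf ⟨1185865, 4538891541548097,
  93538245702911921511566831397518024761395901169741, 4705, [R2qp1_0, R2qp1_2, R2qp1_3, R2qp1_6,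
  R2qp3_2, R2qp4_2, R2qp4_3, R2qp4_5, R2qp4_6, R2qp5_6]⟩)) (.node 23 (.leaf ⟨1186180,
  9042420240162052, 93538245703933116501527536507623542011377108385859, 4710, [R2qp0_6, R2qp1_0,
  R2qp1_6, R2qp2_0, R2qp2_1, R2qp2_6, R2qp3_0, R2qp3_1, R2qp3_2, R2qp3_6, R2qp4_0, R2qp4_1, R2qp4_2,
  R2qp4_3, R2qp4_5, R2qp4_6, R2qp5_6]⟩) (.leaf ⟨1197448, 7989085985740867,
  93538245698829088693390671751432838144089162973255, 4630, [R2qp0_6, R2qp1_0, R2qp1_6, R2qp3_0,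
  R2qp3_1, R2qp3_2, R2qp3_4, R2qp3_5, R2qp3_6, R2qp4_5, R2qp4_6, R2qp5_6]⟩)))) (.node 28 (.node 26
  (.node 25 (.leaf ⟨1198472, 9151305076644964, 93538245698829067923886473659941079271118158889027,
  4646, [R2qp0_6, R2qp1_0, R2qp1_6, R2qp2_0, R2qp2_1, R2qp2_3, R2qp2_4, R2qp2_5, R2qp2_6, R2qp3_0,
  R2qp3_1, R2qp3_4, R2qp3_5, R2qp3_6, R2qp4_5, R2qp4_6, R2qp5_6]⟩) (.leaf ⟨2377801,
  2287124913297569, 94999769637244859808760217176360537810093914259469, 9249, [R2qp1_0, R2qp1_2,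
  R2qp1_3, R2qp2_0, R2qp2_3, R2qp3_0, R2qp4_0, R2qp4_5, R2qp4_6, R2qp5_0, R2qp5_6, R2qp6_0]⟩))
  (.node 27 (.leaf ⟨2377096, 2287018684094531, 93538245701210483715715530892203849534654942478343,
  9238, [R2qp1_0, R2qp3_0, R2qp3_1, R2qp3_2, R2qp4_0, R2qp4_1, R2qp4_2, R2qp4_5, R2qp4_6, R2qp5_6]⟩)
  (.leaf ⟨2166857, 39689792916545, 165150755459606201713420660422155092689756706373657, 8513,
  [R2qp1_0, R2qp1_3, R2qp1_4, R2qp2_0, R2qp2_3, R2qp2_4, R2qp5_4, R2qp6_0, R2qp6_4, R2qp6_5]⟩)))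
  (.node 30 (.node 29 (.leaf ⟨2246729, 216744518195361,
  141766372461277744084965151378210165698573289717821, 8737, [R2qp1_0, R2qp1_2, R2qp1_3, R2qp1_4,
  R2qp1_5, R2qp2_0, R2qp2_3, R2qp2_4, R2qp2_5, R2qp3_0, R2qp3_4, R2qp3_5, R2qp4_5, R2qp6_0,
  R2qp6_5]⟩) (.leaf ⟨2171974, 38552705631332, 168073758734267981589849074918629455862362169081859,
  8593, [R2qp1_0, R2qp2_0, R2qp2_1, R2qp2_3, R2qp2_4, R2qp3_0, R2qp3_1, R2qp3_4, R2qp5_4, R2qp6_0,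
  R2qp6_1, R2qp6_4, R2qp6_5]⟩)) (.node 31 (.leaf ⟨2170953, 40819402903650,
  165150755459606160176709573884779484665627420983313, 8577, [R2qp1_0, R2qp1_4, R2qp2_0, R2qp2_4,
  R2qp3_0, R2qp3_2, R2qp3_4, R2qp5_4, R2qp6_0, R2qp6_4, R2qp6_5]⟩) (.leaf ⟨2168905, 39689960688705,
  165150755459606222482924976988450960772681669869597, 8545, [R2qp1_0, R2qp1_2, R2qp1_3, R2qp1_4,
  R2qp3_2, R2qp5_4, R2qp6_0, R2qp6_4, R2qp6_5]⟩)))))) (.node 48 (.node 40 (.node 36 (.node 34 (.node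
  33 (.leaf ⟨2196550, 37490944902214, 185612112898521009301316291795248204010975975636995, 8465,
  [R2qp1_0, R2qp2_0, R2qp2_1, R2qp3_0, R2qp3_1, R2qp3_2, R2qp4_0, R2qp4_1, R2qp4_2, R2qp4_3,
  R2qp5_0, R2qp5_1, R2qp5_2, R2qp5_3, R2qp5_4, R2qp6_0, R2qp6_1, R2qp6_2, R2qp6_3, R2qp6_4,
  R2qp6_5]⟩) (.leaf ⟨2197892, 37597072167073, 175381445329606286244449340762123575127595238817803,
  8486, [R2qp0_3, R2qp1_0, R2qp1_3, R2qp2_0, R2qp2_1, R2qp2_3, R2qp4_3, R2qp5_3, R2qp5_4, R2qp6_3,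
  R2qp6_4, R2qp6_5]⟩)) (.node 35 (.leaf ⟨2232393, 35291746405441,
  141766372463999790132279221165386868071561001762825, 8769, [R2qp1_0, R2qp1_3, R2qp2_0, R2qp2_3,
  R2qp4_3, R2qp4_5, R2qp6_0, R2qp6_5]⟩) (.leaf ⟨2237510, 35254170748004,
  144689375736960158172835292744611276710690274082819, 8849, [R2qp1_0, R2qp2_0, R2qp2_1, R2qp2_3,
  R2qp3_0, R2qp3_1, R2qp4_0, R2qp4_1, R2qp4_5, R2qp6_0, R2qp6_1, R2qp6_5]⟩))) (.node 38 (.node 37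
  (.leaf ⟨2236489, 35321844764770, 141766372461277489658932976320076033786480867475457, 8833,
  [R2qp1_0, R2qp2_0, R2qp3_0, R2qp3_2, R2qp4_5, R2qp6_0, R2qp6_5]⟩) (.leaf ⟨2234441, 35291914177601,
  141766372465360940369467310928349348418279833403405, 8801, [R2qp1_0, R2qp1_2, R2qp1_3, R2qp3_2,
  R2qp4_2, R2qp4_3, R2qp4_5, R2qp6_0, R2qp6_5]⟩)) (.node 39 (.leaf ⟨2246024, 107786637842499,
  140304870823946872321017917819666717209166770274311, 8726, [R2qp1_0, R2qp3_0, R2qp3_1, R2qp3_2,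
  R2qp3_4, R2qp3_5, R2qp4_5, R2qp6_5]⟩) (.leaf ⟨2234756, 35220985421060,
  140304870829050900129154705204604965740187538685955, 8806, [R2qp1_0, R2qp2_0, R2qp2_1, R2qp3_0,
  R2qp3_1, R2qp3_2, R2qp4_0, R2qp4_1, R2qp4_2, R2qp4_3, R2qp4_5, R2qp6_5]⟩)))) (.node 44 (.node 42
  (.node 41 (.leaf ⟨2247048, 144105821903972, 140304870823946851551513642356922502999928584994819,
  8742, [R2qp1_0, R2qp2_0, R2qp2_1, R2qp2_3, R2qp2_4, R2qp2_5, R2qp3_0, R2qp3_1, R2qp3_4, R2qp3_5,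
  R2qp4_5, R2qp6_5]⟩) (.leaf ⟨2494537, 1127106792787009,
  95000304824844530233750872366564089708928609878025, 9793, [R2qp1_0, R2qp1_3, R2qp2_0, R2qp2_3,
  R2qp4_3, R2qp5_0, R2qp5_3, R2qp5_4, R2qp5_6, R2qp6_0]⟩)) (.node 43 (.leaf ⟨2499654,
  1127069217130596, 97923174293333707090568094731478862457888846315523, 9873, [R2qp1_0, R2qp2_0,
  R2qp2_1, R2qp2_3, R2qp3_0, R2qp3_1, R2qp4_0, R2qp4_1, R2qp5_0, R2qp5_1, R2qp5_4, R2qp5_6, R2qp6_0,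
  R2qp6_1]⟩) (.leaf ⟨2498633, 1127136891146338, 95000126416160641515419495235507074236956427747329,
  9857, [R2qp1_0, R2qp2_0, R2qp3_0, R2qp3_2, R2qp5_0, R2qp5_4, R2qp5_6, R2qp6_0]⟩))) (.node 46
  (.node 45 (.leaf ⟨279698, 35321851056226, 144689375735939295495498804728370321549123003809795,
  1042, [R2qp0_1, R2qp2_0, R2qp2_1, R2qp3_0, R2qp3_1, R2qp3_2, R2qp4_5, R2qp6_0, R2qp6_1, R2qp6_5]⟩)
  (.leaf ⟨299153, 144105822916711, 144689375735939560306124696855052905877785511395328, 1090,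
  [R2qp0_1, R2qp2_0, R2qp2_1, R2qp2_3, R2qp2_4, R2qp2_5, R2qp3_0, R2qp3_1, R2qp3_4, R2qp3_5,
  R2qp4_5, R2qp6_0, R2qp6_1, R2qp6_5]⟩)) (.node 47 (.leaf ⟨299105, 3521805537020004,
  140304870823946835974385378639890280004857639206912, 1089, [R2qp0_5, R2qp0_6, R2qp1_0, R2qp1_5,
  R2qp1_6, R2qp2_3, R2qp2_4, R2qp2_5, R2qp3_4, R2qp3_5, R2qp4_5, R2qp6_5]⟩) (.leaf ⟨2383945,
  2287020793895076, 94999769641328310519690684134281714969687346970625, 9345, [R2qp1_0, R2qp2_0,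
  R2qp3_0, R2qp3_2, R2qp4_0, R2qp4_2, R2qp4_3, R2qp4_5, R2qp4_6, R2qp5_0, R2qp5_6, R2qp6_0]⟩)))))
  (.node 56 (.node 52 (.node 50 (.node 49 (.leaf ⟨286817, 3518580217907303,
  140304870828030037451263626097403983229457064001536, 1153, [R2qp0_2, R2qp0_3, R2qp0_5, R2qp0_6,
  R2qp1_0, R2qp1_2, R2qp1_3, R2qp1_5, R2qp1_6, R2qp3_2, R2qp4_2, R2qp4_3, R2qp4_5, R2qp6_5]⟩) (.leaf
  ⟨397465, 37597073179812, 179765950241598994999060391633476519161564641099784, 1602, [R2qp0_1,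
  R2qp0_3, R2qp1_3, R2qp2_3, R2qp4_3, R2qp5_3, R2qp5_4, R2qp6_0, R2qp6_1, R2qp6_3, R2qp6_4,
  R2qp6_5]⟩)) (.node 51 (.leaf ⟨279650, 7001930600682690,
  140304870823946586748493769890258892537733266276451, 1041, [R2qp0_5, R2qp0_6, R2qp1_0, R2qp1_5,
  R2qp1_6, R2qp2_0, R2qp2_1, R2qp2_5, R2qp2_6, R2qp3_0, R2qp3_1, R2qp3_2, R2qp3_5, R2qp3_6, R2qp4_5,
  R2qp6_5]⟩) (.leaf ⟨280673, 3518684337309796, 140304870823946586740333159139261445140979116670988,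
  1057, [R2qp0_2, R2qp0_3, R2qp0_5, R2qp0_6, R2qp1_0, R2qp1_2, R2qp1_3, R2qp1_5, R2qp1_6, R2qp2_3,
  R2qp4_5, R2qp6_5]⟩))) (.node 54 (.node 53 (.leaf ⟨1644617, 4684027076414529,
  140304870823946898278461574207864774909934278869117, 6497, [R2qp1_0, R2qp1_2, R2qp1_3, R2qp1_4,
  R2qp1_5, R2qp1_6, R2qp3_2, R2qp4_5, R2qp6_5]⟩) (.leaf ⟨280721, 35431503692804,
  162227395383910130513388431628216329801621035745292, 1058, [R2qp0_1, R2qp0_2, R2qp0_3, R2qp1_2,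
  R2qp1_3, R2qp2_3, R2qp4_5, R2qp6_0, R2qp6_1, R2qp6_2, R2qp6_3, R2qp6_5]⟩)) (.node 55 (.leaf
  ⟨286865, 35220983186436, 144689375740022746205874680593542107347592017805312, 1154, [R2qp0_1,
  R2qp3_2, R2qp4_2, R2qp4_3, R2qp4_5, R2qp6_0, R2qp6_1, R2qp6_5]⟩) (.leaf ⟨2508873,
  1131538192504993, 95000126416160729785416857292484110891680612286493, 9761, [R2qp1_0, R2qp1_2,
  R2qp1_3, R2qp1_4, R2qp2_0, R2qp2_3, R2qp2_4, R2qp3_0, R2qp3_4, R2qp5_0, R2qp5_4, R2qp5_6,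
  R2qp6_0]⟩)))) (.node 60 (.node 58 (.node 57 (.leaf ⟨2496585, 1127106960559169,
  95000394029186474593431528272399660649093465440269, 9825, [R2qp1_0, R2qp1_2, R2qp1_3, R2qp3_2,
  R2qp4_2, R2qp4_3, R2qp5_0, R2qp5_2, R2qp5_3, R2qp5_4, R2qp5_6, R2qp6_0]⟩) (.leaf ⟨2496900,
  1127071499919653, 93538936994366831414365205620091823267724182683651, 9830, [R2qp1_0, R2qp2_0,
  R2qp2_1, R2qp3_0, R2qp3_1, R2qp3_2, R2qp4_0, R2qp4_1, R2qp4_2, R2qp4_3, R2qp5_0, R2qp5_1, R2qp5_2,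
  R2qp5_3, R2qp5_4, R2qp5_6]⟩)) (.node 59 (.leaf ⟨2508168, 1128133428418627,
  93538602478084659490846520884438913232404883111943, 9750, [R2qp1_0, R2qp3_0, R2qp3_1, R2qp3_2,
  R2qp3_4, R2qp5_4, R2qp5_6]⟩) (.leaf ⟨2509192, 1129268240391268,
  93538602478084638721342206736068471355033107234819, 9766, [R2qp1_0, R2qp2_0, R2qp2_1, R2qp2_3,
  R2qp2_4, R2qp3_0, R2qp3_1, R2qp3_4, R2qp5_4, R2qp5_6]⟩))) (.node 62 (.node 61 (.leaf ⟨549009,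
  1127071497684997, 97923441905338677491085181009028964875128661803008, 2178, [R2qp0_1, R2qp3_2,
  R2qp4_2, R2qp4_3, R2qp5_0, R2qp5_1, R2qp5_2, R2qp5_3, R2qp5_4, R2qp5_6, R2qp6_0, R2qp6_1]⟩) (.leaf
  ⟨561297, 1129268241404007, 97923174292312943067822685841353692177974551576576, 2114, [R2qp0_1,
  R2qp2_0, R2qp2_1, R2qp2_3, R2qp2_4, R2qp3_0, R2qp3_1, R2qp3_4, R2qp5_0, R2qp5_1, R2qp5_4, R2qp5_6,
  R2qp6_0, R2qp6_1]⟩)) (.node 63 (.leaf ⟨542865, 1127282018191365,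
  115461461549226061798598932043703187329157679742988, 2082, [R2qp0_1, R2qp0_2, R2qp0_3, R2qp1_2,
  R2qp1_3, R2qp2_3, R2qp5_0, R2qp5_1, R2qp5_2, R2qp5_3, R2qp5_4, R2qp5_6, R2qp6_0, R2qp6_1, R2qp6_2,
  R2qp6_3]⟩) (.leaf ⟨541842, 1127136897437794, 97923174292312844413231606715237907296321576042499,
  2066, [R2qp0_1, R2qp2_0, R2qp2_1, R2qp3_0, R2qp3_1, R2qp3_2, R2qp5_0, R2qp5_1, R2qp5_4, R2qp5_6,
  R2qp6_0, R2qp6_1]⟩))))))

def R2qT2 : Tr :=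
  .node 68 (.node 66 (.node 65 (.leaf ⟨1675361, 35254165342308,
  140304870823946586740333159137269166381257143091200, 6465, [R2qp1_0, R2qp2_3, R2qp4_5, R2qp6_5]⟩)
  (.leaf ⟨1672772, 1196447129174147, 140304870828030037451263626095614622595672311595020, 6425,
  [R2qp0_1, R2qp0_2, R2qp0_3, R2qp1_2, R2qp1_3, R2qp3_2, R2qp4_2, R2qp4_3, R2qp4_5, R2qp6_5]⟩))
  (.node 67 (.leaf ⟨1672290, 35220985421060, 140304870829050900129154705204604965740187538685955,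
  6417, [R2qp1_0, R2qp2_0, R2qp2_1, R2qp3_0, R2qp3_1, R2qp3_2, R2qp4_0, R2qp4_1, R2qp4_2, R2qp4_3,
  R2qp4_5, R2qp6_5]⟩) (.leaf ⟨1648196, 1415283128434915,
  140304870823946835974385378639207740904114321621052, 6553, [R2qp0_1, R2qp0_2, R2qp0_3, R2qp0_4,
  R2qp0_5, R2qp1_2, R2qp1_3, R2qp1_4, R2qp1_5, R2qp2_3, R2qp2_4, R2qp2_5, R2qp3_4, R2qp3_5, R2qp4_5,
  R2qp6_5]⟩))) (.node 70 (.node 69 (.leaf ⟨1647686, 1270005728739428,
  140304870823946851551513642356922503000353786757123, 6545, [R2qp1_0, R2qp2_0, R2qp2_1, R2qp2_3,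
  R2qp2_4, R2qp2_5, R2qp3_0, R2qp3_1, R2qp3_4, R2qp3_5, R2qp4_5, R2qp6_5]⟩) (.leaf ⟨1646662,
  1233686544678979, 140304870823946872321017917819666717209609151905799, 6529, [R2qp1_0, R2qp3_0,
  R2qp3_1, R2qp3_2, R2qp3_4, R2qp3_5, R2qp4_5, R2qp6_5]⟩)) (.node 71 (.leaf ⟨626785,
  3412953885870180, 93538245698828470800636364439154143758427648688128, 2369, [R2qp0_6, R2qp1_0,
  R2qp1_6, R2qp2_3, R2qp4_5, R2qp4_6, R2qp5_6]⟩) (.leaf ⟨623714, 9042420240162052,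
  93538245703933116501527536507623542011377108385859, 2321, [R2qp0_6, R2qp1_0, R2qp1_6, R2qp2_0,
  R2qp2_1, R2qp2_6, R2qp3_0, R2qp3_1, R2qp3_2, R2qp3_6, R2qp4_0, R2qp4_1, R2qp4_2, R2qp4_3, R2qp4_5,
  R2qp4_6, R2qp5_6]⟩)))

/-- The table of R2q. -/
def R2qT : Tr :=
  (.node 64 R2qT1 R2qT2)

theorem R2qT1_ok : R2qT1.all (qEntry (R2).t R2qie R2qte) = true := by
  decide +kernel

theorem R2qT2_ok : R2qT2.all (qEntry (R2).t R2qie R2qte) = true := by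
  decide +kernel

theorem R2qT_ok : R2qT.all (qEntry (R2).t R2qie R2qte) = true :=
  (Tr.all_node R2qT1_ok R2qT2_ok)

end Pool.Agent.T1Red
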