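import Pool.Agent.Work.MP_392c8e_co_uni.Inst.Z4Q1

/-!
# The extension property of the reducer Z4
-/

namespace Pool.Agent.T1Red

/-- All patterns. -/
def Z4C : List (Nat × List Nat) :=
  Z4C1_1 ++ (Z4C1_2 ++ (Z4C1_3 ++ (Z4C1_4 ++ (Z4C1_5 ++ (Z4C1_6 ++ (Z4C1_7 ++ (Z4C1_8 ++ (Z4C1_9 ++
  (Z4C1_10 ++ (Z4C1_11 ++ (Z4C1_12 ++ (Z4C1_13 ++ (Z4C1_14 ++ (Z4C1_15 ++ (Z4C1_16 ++
  (Z4C1_17))))))))))))))))

theorem Z4C_ok : qcheckL (Z4) Z4ne Z4te Z4T Z4C = true :=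
  qcheckL_append Z4C1_1_ok ( qcheckL_append Z4C1_2_ok ( qcheckL_append Z4C1_3_ok ( qcheckL_append
  Z4C1_4_ok ( qcheckL_append Z4C1_5_ok ( qcheckL_append Z4C1_6_ok ( qcheckL_append Z4C1_7_ok (
  qcheckL_append Z4C1_8_ok ( qcheckL_append Z4C1_9_ok ( qcheckL_append Z4C1_10_ok ( qcheckL_append
  Z4C1_11_ok ( qcheckL_append Z4C1_12_ok ( qcheckL_append Z4C1_13_ok ( qcheckL_append Z4C1_14_ok (
  qcheckL_append Z4C1_15_ok ( qcheckL_append Z4C1_16_ok (Z4C1_17_ok))))))))))))))))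

theorem Z4C_pts : Red.pts (Z4) = Z4C.map Prod.fst := by
  decide +kernel

/-- The extension property of Z4. -/
theorem Z4_ext (co : List (Nat × Nat)) (h : neOK (Z4) co = true) : Red.Ext (Z4) co :=
  Red.ext_of_quick (by decide +kernel) (by decide +kernel : Red.ie (Z4) = Z4ie)
    (by decide +kernel : Red.te (Z4) = Z4te)
    (by decide +kernel : neP (Red.ne (Z4)) Z4ne = true) Z4T_ok Z4C_ok Z4C_pts h

end Pool.Agent.T1Red
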