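import Pool.Agent.Work.MP_392c8e_co_uni.Quick
import Pool.Agent.Work.MP_392c8e_co_uni.Inst.Z4Def

/-!
# The table of the reducer Z4
-/

namespace Pool.Agent.T1Red

/-- The edges between interior vertices. -/
def Z4ie : List (Nat × Nat) :=
  [(8, 9), (8, 12), (8, 13), (9, 10), (9, 15), (10, 11), (10, 16), (11, 12), (11, 18), (13, 14),
  (13, 19), (14, 15), (14, 21), (16, 17), (17, 18), (19, 20), (20, 21)]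

/-- The packed matrix of the pairs with different values. -/
def Z4ne : Nat := 332319754757765017240766535684063296

/-- The edges with a label. -/
def Z4te : List (Nat × Nat) :=
  [(15, 0), (16, 1), (17, 2), (18, 3), (12, 4), (19, 5), (20, 6), (21, 7)]

def Z4p0_1 : Nat × Nat × Nat × Nat := (3, 1, 0, 1)
def Z4p0_2 : Nat × Nat × Nat × Nat := (5, 1, 0, 2)
def Z4p0_3 : Nat × Nat × Nat × Nat := (9, 1, 0, 3)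
def Z4p0_4 : Nat × Nat × Nat × Nat := (17, 1, 0, 4)
def Z4p0_5 : Nat × Nat × Nat × Nat := (33, 1, 0, 5)
def Z4p0_6 : Nat × Nat × Nat × Nat := (65, 1, 0, 6)
def Z4p0_7 : Nat × Nat × Nat × Nat := (129, 1, 0, 7)
def Z4p1_0 : Nat × Nat × Nat × Nat := (3, 2, 1, 0)
def Z4p1_2 : Nat × Nat × Nat × Nat := (6, 2, 1, 2)
def Z4p1_3 : Nat × Nat × Nat × Nat := (10, 2, 1, 3)
def Z4p1_4 : Nat × Nat × Nat × Nat := (18, 2, 1, 4)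
def Z4p1_5 : Nat × Nat × Nat × Nat := (34, 2, 1, 5)
def Z4p1_6 : Nat × Nat × Nat × Nat := (66, 2, 1, 6)
def Z4p1_7 : Nat × Nat × Nat × Nat := (130, 2, 1, 7)
def Z4p2_0 : Nat × Nat × Nat × Nat := (5, 4, 2, 0)
def Z4p2_1 : Nat × Nat × Nat × Nat := (6, 4, 2, 1)
def Z4p2_3 : Nat × Nat × Nat × Nat := (12, 4, 2, 3)
def Z4p2_4 : Nat × Nat × Nat × Nat := (20, 4, 2, 4)
def Z4p2_5 : Nat × Nat × Nat × Nat := (36, 4, 2, 5)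
def Z4p2_6 : Nat × Nat × Nat × Nat := (68, 4, 2, 6)
def Z4p2_7 : Nat × Nat × Nat × Nat := (132, 4, 2, 7)
def Z4p3_0 : Nat × Nat × Nat × Nat := (9, 8, 3, 0)
def Z4p3_1 : Nat × Nat × Nat × Nat := (10, 8, 3, 1)
def Z4p3_2 : Nat × Nat × Nat × Nat := (12, 8, 3, 2)
def Z4p3_4 : Nat × Nat × Nat × Nat := (24, 8, 3, 4)
def Z4p3_5 : Nat × Nat × Nat × Nat := (40, 8, 3, 5)
def Z4p3_6 : Nat × Nat × Nat × Nat := (72, 8, 3, 6)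
def Z4p3_7 : Nat × Nat × Nat × Nat := (136, 8, 3, 7)
def Z4p4_0 : Nat × Nat × Nat × Nat := (17, 16, 4, 0)
def Z4p4_1 : Nat × Nat × Nat × Nat := (18, 16, 4, 1)
def Z4p4_2 : Nat × Nat × Nat × Nat := (20, 16, 4, 2)
def Z4p4_3 : Nat × Nat × Nat × Nat := (24, 16, 4, 3)
def Z4p4_5 : Nat × Nat × Nat × Nat := (48, 16, 4, 5)
def Z4p4_6 : Nat × Nat × Nat × Nat := (80, 16, 4, 6)
def Z4p4_7 : Nat × Nat × Nat × Nat := (144, 16, 4, 7)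
def Z4p5_0 : Nat × Nat × Nat × Nat := (33, 32, 5, 0)
def Z4p5_1 : Nat × Nat × Nat × Nat := (34, 32, 5, 1)
def Z4p5_2 : Nat × Nat × Nat × Nat := (36, 32, 5, 2)
def Z4p5_3 : Nat × Nat × Nat × Nat := (40, 32, 5, 3)
def Z4p5_4 : Nat × Nat × Nat × Nat := (48, 32, 5, 4)
def Z4p5_6 : Nat × Nat × Nat × Nat := (96, 32, 5, 6)
def Z4p5_7 : Nat × Nat × Nat × Nat := (160, 32, 5, 7)
def Z4p6_0 : Nat × Nat × Nat × Nat := (65, 64, 6, 0)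
def Z4p6_1 : Nat × Nat × Nat × Nat := (66, 64, 6, 1)
def Z4p6_2 : Nat × Nat × Nat × Nat := (68, 64, 6, 2)
def Z4p6_3 : Nat × Nat × Nat × Nat := (72, 64, 6, 3)
def Z4p6_4 : Nat × Nat × Nat × Nat := (80, 64, 6, 4)
def Z4p6_5 : Nat × Nat × Nat × Nat := (96, 64, 6, 5)
def Z4p6_7 : Nat × Nat × Nat × Nat := (192, 64, 6, 7)
def Z4p7_0 : Nat × Nat × Nat × Nat := (129, 128, 7, 0)
def Z4p7_1 : Nat × Nat × Nat × Nat := (130, 128, 7, 1)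
def Z4p7_2 : Nat × Nat × Nat × Nat := (132, 128, 7, 2)
def Z4p7_3 : Nat × Nat × Nat × Nat := (136, 128, 7, 3)
def Z4p7_4 : Nat × Nat × Nat × Nat := (144, 128, 7, 4)
def Z4p7_5 : Nat × Nat × Nat × Nat := (160, 128, 7, 5)
def Z4p7_6 : Nat × Nat × Nat × Nat := (192, 128, 7, 6)

def Z4T1 : Tr :=
  .node 32 (.node 16 (.node 8 (.node 4 (.node 2 (.node 1 (.leaf ⟨103041121, 267807822024645052516,
  92148857814819138256044092529277010393092465056125853719397990625, 24721, [Z4p1_2, Z4p1_3, Z4p2_3,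
  Z4p4_0, Z4p4_1, Z4p4_2, Z4p4_3, Z4p4_5, Z4p4_6, Z4p4_7, Z4p6_5, Z4p7_5, Z4p7_6]⟩) (.leaf
  ⟨102253714, 39307455171747126469,
  99142358895792074174204733768550663949580039776072335251368640529, 24673, [Z4p1_4, Z4p2_1, Z4p2_4,
  Z4p3_1, Z4p3_2, Z4p3_4, Z4p5_0, Z4p5_4, Z4p6_0, Z4p6_4, Z4p6_5, Z4p7_0, Z4p7_4, Z4p7_5, Z4p7_6]⟩))
  (.node 3 (.leaf ⟨102254737, 343966962841512184838,
  92148857814819499252189266308614528036415172626635321490172608737, 24673, [Z4p1_0, Z4p1_4, Z4p1_5,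
  Z4p1_6, Z4p1_7, Z4p2_0, Z4p2_1, Z4p2_4, Z4p2_5, Z4p2_6, Z4p2_7, Z4p3_0, Z4p3_1, Z4p3_2, Z4p3_4,
  Z4p3_5, Z4p3_6, Z4p3_7, Z4p4_0, Z4p4_5, Z4p4_6, Z4p4_7, Z4p6_5, Z4p7_5, Z4p7_6]⟩) (.leaf
  ⟨102254104, 39309779333294363847,
  92148857814819147024920107960114932824818673023698751259508998144, 25185, [Z4p2_1, Z4p3_1, Z4p3_2,
  Z4p4_1, Z4p4_2, Z4p4_3, Z4p6_5, Z4p7_5, Z4p7_6]⟩))) (.node 6 (.node 5 (.leaf ⟨153372769,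
  303440302382700857444, 53068733475794554724592450869061530311287051507995864683711103201, 37009,
  [Z4p1_2, Z4p1_3, Z4p2_3, Z4p4_0, Z4p4_1, Z4p4_2, Z4p4_3, Z4p4_5, Z4p4_6, Z4p4_7, Z4p5_0, Z4p5_6,
  Z4p5_7, Z4p6_0, Z4p6_7, Z4p7_0]⟩) (.leaf ⟨152585362, 74939935426723716293,
  59650852140239672774229467923259026344665631835202335590673612817, 36961, [Z4p1_4, Z4p2_1, Z4p2_4,
  Z4p3_1, Z4p3_2, Z4p3_4, Z4p5_0, Z4p5_4, Z4p5_6, Z4p5_7, Z4p6_0, Z4p6_4, Z4p6_7, Z4p7_0, Z4p7_4]⟩))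
  (.node 7 (.leaf ⟨152586385, 379599443199567989766,
  53068733475794915720737624648399047954609759078505332454485721313, 36961, [Z4p1_0, Z4p1_4, Z4p1_5,
  Z4p1_6, Z4p1_7, Z4p2_0, Z4p2_1, Z4p2_4, Z4p2_5, Z4p2_6, Z4p2_7, Z4p3_0, Z4p3_1, Z4p3_2, Z4p3_4,
  Z4p3_5, Z4p3_6, Z4p3_7, Z4p4_0, Z4p4_5, Z4p4_6, Z4p4_7, Z4p5_0, Z4p5_6, Z4p5_7, Z4p6_0, Z4p6_7,
  Z4p7_0]⟩) (.leaf ⟨152585752, 74942259691350168775,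
  53068733475794563493468466299899452743013259475568762223822110720, 37473, [Z4p2_1, Z4p3_1, Z4p3_2,
  Z4p4_1, Z4p4_2, Z4p4_3, Z4p5_0, Z4p5_6, Z4p5_7, Z4p6_0, Z4p6_7, Z4p7_0]⟩)))) (.node 12 (.node 10
  (.node 9 (.leaf ⟨101860888, 39313191117774686308,
  92148857814819138256044092529277010392820452596131812734297702400, 25161, [Z4p1_2, Z4p1_3, Z4p2_3,
  Z4p4_1, Z4p4_2, Z4p4_3, Z4p6_5, Z4p7_5, Z4p7_6]⟩) (.leaf ⟨101860498, 39319002242865274053,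
  104901712727181515564659456928778947950318941008040876594333417503, 24649, [Z4p1_2, Z4p1_3,
  Z4p1_4, Z4p2_3, Z4p2_4, Z4p3_4, Z4p5_0, Z4p5_1, Z4p5_2, Z4p5_3, Z4p5_4, Z4p6_0, Z4p6_1, Z4p6_2,
  Z4p6_3, Z4p6_4, Z4p6_5, Z4p7_0, Z4p7_1, Z4p7_2, Z4p7_3, Z4p7_4, Z4p7_5, Z4p7_6]⟩)) (.node 11
  (.leaf ⟨101861521, 382053975294396761095,
  92148857814819490483313250877776605604416952199068382964962230497, 24649, [Z4p1_0, Z4p1_2, Z4p1_3,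
  Z4p1_4, Z4p1_5, Z4p1_6, Z4p1_7, Z4p2_0, Z4p2_3, Z4p2_4, Z4p2_5, Z4p2_6, Z4p2_7, Z4p3_0, Z4p3_4,
  Z4p3_5, Z4p3_6, Z4p3_7, Z4p4_0, Z4p4_5, Z4p4_6, Z4p4_7, Z4p6_5, Z4p7_5, Z4p7_6]⟩) (.leaf
  ⟨152192536, 74945671475897600166,
  53068733475794554724592450869061530311015039048001823698610814976, 37449, [Z4p1_2, Z4p1_3, Z4p2_3,
  Z4p4_1, Z4p4_2, Z4p4_3, Z4p5_0, Z4p5_6, Z4p5_7, Z4p6_0, Z4p6_7, Z4p7_0]⟩))) (.node 14 (.node 13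
  (.leaf ⟨152192146, 74951482497841863877,
  65410205971629114164684191083487310345404533067170876933638389791, 36937, [Z4p1_2, Z4p1_3, Z4p1_4,
  Z4p2_3, Z4p2_4, Z4p3_4, Z4p5_0, Z4p5_1, Z4p5_2, Z4p5_3, Z4p5_4, Z4p5_6, Z4p5_7, Z4p6_0, Z4p6_1,
  Z4p6_2, Z4p6_3, Z4p6_4, Z4p6_7, Z4p7_0, Z4p7_1, Z4p7_2, Z4p7_3, Z4p7_4]⟩) (.leaf ⟨152193169,
  417686455652452566023, 53068733475794906951861609217561125522611538650938393929275343073, 36937,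
  [Z4p1_0, Z4p1_2, Z4p1_3, Z4p1_4, Z4p1_5, Z4p1_6, Z4p1_7, Z4p2_0, Z4p2_3, Z4p2_4, Z4p2_5, Z4p2_6,
  Z4p2_7, Z4p3_0, Z4p3_4, Z4p3_5, Z4p3_6, Z4p3_7, Z4p4_0, Z4p4_5, Z4p4_6, Z4p4_7, Z4p5_0, Z4p5_6,
  Z4p5_7, Z4p6_0, Z4p6_7, Z4p7_0]⟩)) (.node 15 (.leaf ⟨153176161, 417684206051655718087,
  53068733475794892336354609986257995990372448969874779280437739745, 36997, [Z4p1_0, Z4p1_5, Z4p1_6,
  Z4p1_7, Z4p2_0, Z4p2_1, Z4p2_5, Z4p2_6, Z4p2_7, Z4p3_0, Z4p3_1, Z4p3_2, Z4p3_5, Z4p3_6, Z4p3_7,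
  Z4p4_0, Z4p4_1, Z4p4_2, Z4p4_3, Z4p4_5, Z4p4_6, Z4p4_7, Z4p5_0, Z4p5_6, Z4p5_7, Z4p6_0, Z4p6_7,
  Z4p7_0]⟩) (.leaf ⟨102844513, 382051725693599913159,
  92148857814819475867806251646473476072177862518004768316124627169, 24709, [Z4p1_0, Z4p1_5, Z4p1_6,
  Z4p1_7, Z4p2_0, Z4p2_1, Z4p2_5, Z4p2_6, Z4p2_7, Z4p3_0, Z4p3_1, Z4p3_2, Z4p3_5, Z4p3_6, Z4p3_7,
  Z4p4_0, Z4p4_1, Z4p4_2, Z4p4_3, Z4p4_5, Z4p4_6, Z4p4_7, Z4p6_5, Z4p7_5, Z4p7_6]⟩))))) (.node 24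
  (.node 20 (.node 18 (.node 17 (.leaf ⟨153176137, 189200034798699357441,
  58828087307184013652799204891038351332041881181834377249694810351, 36997, [Z4p0_1, Z4p0_2, Z4p0_3,
  Z4p2_1, Z4p3_1, Z4p3_2, Z4p4_0, Z4p4_1, Z4p4_2, Z4p4_3, Z4p4_5, Z4p4_6, Z4p4_7, Z4p5_0, Z4p5_1,
  Z4p5_2, Z4p5_3, Z4p5_6, Z4p5_7, Z4p6_0, Z4p6_1, Z4p6_2, Z4p6_3, Z4p6_7, Z4p7_0, Z4p7_1, Z4p7_2,
  Z4p7_3]⟩) (.leaf ⟨153175138, 74949233103203446149,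
  65410205971629101010701130268567996560930275302484563286988750879, 36997, [Z4p1_0, Z4p2_0, Z4p2_1,
  Z4p3_0, Z4p3_1, Z4p3_2, Z4p4_0, Z4p4_1, Z4p4_2, Z4p4_3, Z4p5_0, Z4p5_1, Z4p5_2, Z4p5_3, Z4p5_4,
  Z4p5_6, Z4p5_7, Z4p6_0, Z4p6_1, Z4p6_2, Z4p6_3, Z4p6_4, Z4p6_7, Z4p7_0, Z4p7_1, Z4p7_2, Z4p7_3,
  Z4p7_4]⟩)) (.node 19 (.leaf ⟨102844489, 153564067889271773345,
  92148857814819147024920107960187626090321373231604217535267733743, 24709, [Z4p0_1, Z4p0_2, Z4p0_3,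
  Z4p2_1, Z4p3_1, Z4p3_2, Z4p4_0, Z4p4_1, Z4p4_2, Z4p4_3, Z4p4_5, Z4p4_6, Z4p4_7, Z4p6_5, Z4p7_5,
  Z4p7_6]⟩) (.leaf ⟨102843490, 39316752848226856325,
  104901712727181502410676396113859634165844683243354562947683778591, 24709, [Z4p1_0, Z4p2_0,
  Z4p2_1, Z4p3_0, Z4p3_1, Z4p3_2, Z4p4_0, Z4p4_1, Z4p4_2, Z4p4_3, Z4p5_0, Z4p5_1, Z4p5_2, Z4p5_3,
  Z4p5_4, Z4p6_0, Z4p6_1, Z4p6_2, Z4p6_3, Z4p6_4, Z4p6_5, Z4p7_0, Z4p7_1, Z4p7_2, Z4p7_3, Z4p7_4,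
  Z4p7_5, Z4p7_6]⟩))) (.node 22 (.node 21 (.leaf ⟨151406737, 303438052781913605124,
  53068733475794563493468466299899452743285271677312889905467031777, 36889, [Z4p2_1, Z4p3_1, Z4p3_2,
  Z4p4_0, Z4p4_5, Z4p4_6, Z4p4_7, Z4p5_0, Z4p5_6, Z4p5_7, Z4p6_0, Z4p6_7, Z4p7_0]⟩) (.leaf
  ⟨151602274, 74942185130590183717,
  59650852140239642082494376246663867696194932957123787151865085969, 36901, [Z4p1_0, Z4p1_2, Z4p1_3,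
  Z4p2_0, Z4p2_3, Z4p3_0, Z4p4_0, Z4p5_0, Z4p5_4, Z4p5_6, Z4p5_7, Z4p6_0, Z4p6_4, Z4p6_7, Z4p7_0,
  Z4p7_4]⟩)) (.node 23 (.leaf ⟨151603297, 379601692800353144998,
  53068733475794883567478594555420073558374228284049483013489230049, 36901, [Z4p1_0, Z4p1_2, Z4p1_3,
  Z4p1_5, Z4p1_6, Z4p1_7, Z4p2_0, Z4p2_3, Z4p2_5, Z4p2_6, Z4p2_7, Z4p3_0, Z4p3_5, Z4p3_6, Z4p3_7,
  Z4p4_0, Z4p4_5, Z4p4_6, Z4p4_7, Z4p5_0, Z4p5_6, Z4p5_7, Z4p6_0, Z4p6_7, Z4p7_0]⟩) (.leaf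
  ⟨151603273, 189201122215699326209,
  58828087307184004883923189460200428900043660754263498014680023279, 36901, [Z4p0_1, Z4p0_2, Z4p0_3,
  Z4p1_2, Z4p1_3, Z4p2_3, Z4p4_0, Z4p4_1, Z4p4_2, Z4p4_3, Z4p4_5, Z4p4_6, Z4p4_7, Z4p5_0, Z4p5_1,
  Z4p5_2, Z4p5_3, Z4p5_6, Z4p5_7, Z4p6_0, Z4p6_1, Z4p6_2, Z4p6_3, Z4p6_7, Z4p7_0, Z4p7_1, Z4p7_2,
  Z4p7_3]⟩)))) (.node 28 (.node 26 (.node 25 (.leaf ⟨101075089, 267805572423857800196,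
  92148857814819147024920107960114932825090685225442878941153919201, 24601, [Z4p2_1, Z4p3_1, Z4p3_2,
  Z4p4_0, Z4p4_5, Z4p4_6, Z4p4_7, Z4p6_5, Z4p7_5, Z4p7_6]⟩) (.leaf ⟨101270626, 39309704875613593893,
  99142358895792043482469642091955505301109340897993786812560113681, 24613, [Z4p1_0, Z4p1_2, Z4p1_3,
  Z4p2_0, Z4p2_3, Z4p3_0, Z4p4_0, Z4p5_0, Z4p5_4, Z4p6_0, Z4p6_4, Z4p6_5, Z4p7_0, Z4p7_4, Z4p7_5,
  Z4p7_6]⟩)) (.node 27 (.leaf ⟨101271649, 343969212442297340070,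
  92148857814819467098930236215635553640179641832179472049176117473, 24613, [Z4p1_0, Z4p1_2, Z4p1_3,
  Z4p1_5, Z4p1_6, Z4p1_7, Z4p2_0, Z4p2_3, Z4p2_5, Z4p2_6, Z4p2_7, Z4p3_0, Z4p3_5, Z4p3_6, Z4p3_7,
  Z4p4_0, Z4p4_5, Z4p4_6, Z4p4_7, Z4p6_5, Z4p7_5, Z4p7_6]⟩) (.leaf ⟨101271625,
  153565155306271742113, 92148857814819138256044092529349703658323152804033338300252946671, 24613,
  [Z4p0_1, Z4p0_2, Z4p0_3, Z4p1_2, Z4p1_3, Z4p2_3, Z4p4_0, Z4p4_1, Z4p4_2, Z4p4_3, Z4p4_5, Z4p4_6,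
  Z4p4_7, Z4p6_5, Z4p7_5, Z4p7_6]⟩))) (.node 30 (.node 29 (.leaf ⟨100943969, 267802192525110839396,
  92148857814819475862743907284003935091648828916749143469772046561, 24593, [Z4p1_2, Z4p3_0, Z4p3_1,
  Z4p3_2, Z4p3_5, Z4p3_6, Z4p3_7, Z4p4_0, Z4p4_1, Z4p4_2, Z4p4_5, Z4p4_6, Z4p4_7, Z4p6_5, Z4p7_5,
  Z4p7_6]⟩) (.leaf ⟨151275617, 303434672883166644324,
  53068733475794892331292265623788455009843415368619154434085159137, 36881, [Z4p1_2, Z4p3_0, Z4p3_1,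
  Z4p3_2, Z4p3_5, Z4p3_6, Z4p3_7, Z4p4_0, Z4p4_1, Z4p4_2, Z4p4_5, Z4p4_6, Z4p4_7, Z4p5_0, Z4p5_6,
  Z4p5_7, Z4p6_0, Z4p6_7, Z4p7_0]⟩)) (.node 31 (.leaf ⟨151536738, 74941033941915902245,
  60473616973295280742589496345348310582324376504907203375171436563, 36897, [Z4p2_0, Z4p2_1, Z4p2_3,
  Z4p3_0, Z4p3_1, Z4p4_0, Z4p4_1, Z4p5_0, Z4p5_1, Z4p5_4, Z4p5_6, Z4p5_7, Z4p6_0, Z4p6_1, Z4p6_4,
  Z4p6_7, Z4p7_0, Z4p7_1, Z4p7_4]⟩) (.leaf ⟨151537761, 341518097629608742021,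
  53068733475794886490526390060702010949611124370272908825262620897, 36897, [Z4p2_0, Z4p2_1, Z4p2_3,
  Z4p2_5, Z4p2_6, Z4p2_7, Z4p3_0, Z4p3_1, Z4p3_5, Z4p3_6, Z4p3_7, Z4p4_0, Z4p4_1, Z4p4_5, Z4p4_6,
  Z4p4_7, Z4p5_0, Z4p5_6, Z4p5_7, Z4p6_0, Z4p6_7, Z4p7_0]⟩)))))) (.node 48 (.node 40 (.node 36
  (.node 34 (.node 33 (.leaf ⟨101205090, 39308553686939312421,
  99965123728847682142564762190639948187238784445777203035866464275, 24609, [Z4p2_0, Z4p2_1, Z4p2_3,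
  Z4p3_0, Z4p3_1, Z4p4_0, Z4p4_1, Z4p5_0, Z4p5_1, Z4p5_4, Z4p6_0, Z4p6_1, Z4p6_4, Z4p6_5, Z4p7_0,
  Z4p7_1, Z4p7_4, Z4p7_5, Z4p7_6]⟩) (.leaf ⟨101206113, 305885617271552937093,
  92148857814819470021978031720917491031416537918402897860949508321, 24609, [Z4p2_0, Z4p2_1, Z4p2_3,
  Z4p2_5, Z4p2_6, Z4p2_7, Z4p3_0, Z4p3_1, Z4p3_5, Z4p3_6, Z4p3_7, Z4p4_0, Z4p4_1, Z4p4_5, Z4p4_6,
  Z4p4_7, Z4p6_5, Z4p7_5, Z4p7_6]⟩)) (.node 35 (.leaf ⟨151275665, 303438047284355466244,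
  53068733475794560570420676239135386087063791041976671149403996385, 36881, [Z4p1_0, Z4p1_2, Z4p1_3,
  Z4p1_4, Z4p1_5, Z4p1_6, Z4p1_7, Z4p3_2, Z4p4_0, Z4p4_5, Z4p4_6, Z4p4_7, Z4p5_0, Z4p5_6, Z4p5_7,
  Z4p6_0, Z4p6_7, Z4p7_0]⟩) (.leaf ⟨100944017, 267805566926299661316,
  92148857814819144101872317899350866168869204590106660185090883809, 24593, [Z4p1_0, Z4p1_2, Z4p1_3,
  Z4p1_4, Z4p1_5, Z4p1_6, Z4p1_7, Z4p3_2, Z4p4_0, Z4p4_5, Z4p4_6, Z4p4_7, Z4p6_5, Z4p7_5,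
  Z4p7_6]⟩))) (.node 38 (.node 37 (.leaf ⟨101205138, 39317551987024993477,
  102433418228014584969536114653142904639860640133617903783034552345, 24609, [Z4p1_3, Z4p1_4,
  Z4p2_1, Z4p2_3, Z4p2_4, Z4p5_0, Z4p5_3, Z4p5_4, Z4p6_0, Z4p6_3, Z4p6_4, Z4p6_5, Z4p7_0, Z4p7_3,
  Z4p7_4, Z4p7_5, Z4p7_6]⟩) (.leaf ⟨101206161, 305888991672742807557,
  92148857814819138261463254259440912078901485157909764655201976545, 24609, [Z4p1_0, Z4p1_3, Z4p1_4,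
  Z4p1_5, Z4p1_6, Z4p1_7, Z4p2_0, Z4p2_1, Z4p2_3, Z4p2_4, Z4p2_5, Z4p2_6, Z4p2_7, Z4p4_0, Z4p4_5,
  Z4p4_6, Z4p4_7, Z4p6_5, Z4p7_5, Z4p7_6]⟩)) (.node 39 (.leaf ⟨151536786, 74950032242001583301,
  62941911472462183569560848807851267034946232192747904122339524633, 36897, [Z4p1_3, Z4p1_4, Z4p2_1,
  Z4p2_3, Z4p2_4, Z4p5_0, Z4p5_3, Z4p5_4, Z4p5_6, Z4p5_7, Z4p6_0, Z4p6_3, Z4p6_4, Z4p6_7, Z4p7_0,
  Z4p7_3, Z4p7_4]⟩) (.leaf ⟨151537809, 341521472030798612485,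
  53068733475794554730011612599225431997096071609779775619515089121, 36897, [Z4p1_0, Z4p1_3, Z4p1_4,
  Z4p1_5, Z4p1_6, Z4p1_7, Z4p2_0, Z4p2_1, Z4p2_3, Z4p2_4, Z4p2_5, Z4p2_6, Z4p2_7, Z4p4_0, Z4p4_5,
  Z4p4_6, Z4p4_7, Z4p5_0, Z4p5_6, Z4p5_7, Z4p6_0, Z4p6_7, Z4p7_0]⟩)))) (.node 44 (.node 42 (.node 41
  (.leaf ⟨103056676, 153560506502565005344,
  92148857814819161640427107192581136774141401579288859492562698495, 24978, [Z4p0_5, Z4p0_6, Z4p0_7,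
  Z4p1_2, Z4p1_3, Z4p1_4, Z4p2_3, Z4p2_4, Z4p3_4, Z4p6_5, Z4p7_5, Z4p7_6]⟩) (.leaf ⟨103040098,
  39320164529728626981, 104901712727181492180276442266637895986081630917857348973265747999, 24721,
  [Z4p1_2, Z4p1_3, Z4p2_3, Z4p4_0, Z4p4_1, Z4p4_2, Z4p4_3, Z4p5_0, Z4p5_1, Z4p5_2, Z4p5_3, Z4p5_4,
  Z4p6_0, Z4p6_1, Z4p6_2, Z4p6_3, Z4p6_4, Z4p6_5, Z4p7_0, Z4p7_1, Z4p7_2, Z4p7_3, Z4p7_4, Z4p7_5,
  Z4p7_6]⟩)) (.node 43 (.leaf ⟨153388324, 74945671407084963872,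
  52657351059266760240451841346126424672915192249628028654107688991, 37266, [Z4p1_2, Z4p1_3, Z4p1_4,
  Z4p2_3, Z4p2_4, Z4p3_4, Z4p5_6, Z4p5_7, Z4p6_7]⟩) (.leaf ⟨153371746, 74952644784705216805,
  65410205971629090780301176421346258381167222976987349312570720287, 37009, [Z4p1_2, Z4p1_3, Z4p2_3,
  Z4p4_0, Z4p4_1, Z4p4_2, Z4p4_3, Z4p5_0, Z4p5_1, Z4p5_2, Z4p5_3, Z4p5_4, Z4p5_6, Z4p5_7, Z4p6_0,
  Z4p6_1, Z4p6_2, Z4p6_3, Z4p6_4, Z4p6_7, Z4p7_0, Z4p7_1, Z4p7_2, Z4p7_3, Z4p7_4]⟩))) (.node 46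
  (.node 45 (.leaf ⟨101876870, 305886773889247318188,
  98730976479264576379691237840241278408378989180904061844971388944, 24650, [Z4p0_4, Z4p0_5, Z4p0_6,
  Z4p0_7, Z4p1_0, Z4p1_2, Z4p1_3, Z4p1_4, Z4p1_5, Z4p1_6, Z4p1_7, Z4p2_0, Z4p2_3, Z4p2_4, Z4p2_5,
  Z4p2_6, Z4p2_7, Z4p3_0, Z4p3_4, Z4p3_5, Z4p3_6, Z4p3_7, Z4p5_4, Z4p6_4, Z4p6_5, Z4p7_4, Z4p7_5,
  Z4p7_6]⟩) (.leaf ⟨152208518, 74942184997584474281,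
  59239469723711847598353766723811838807830434714798479027351912464, 36938, [Z4p0_4, Z4p1_0, Z4p1_2,
  Z4p1_3, Z4p1_4, Z4p2_0, Z4p2_3, Z4p2_4, Z4p3_0, Z4p3_4, Z4p5_4, Z4p5_6, Z4p5_7, Z4p6_4, Z4p6_7,
  Z4p7_4]⟩)) (.node 47 (.leaf ⟨152143140, 74944402570663266336,
  52657351059266736856470244180947326976487086372148832929169604633, 37190, [Z4p1_3, Z4p1_4, Z4p2_1,
  Z4p2_3, Z4p2_4, Z4p5_6, Z4p5_7, Z4p6_7]⟩) (.leaf ⟨101811492, 153559237666143307808,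
  92148857814819138256445510027402039077713295701809663767624614137, 24902, [Z4p0_5, Z4p0_6, Z4p0_7,
  Z4p1_3, Z4p1_4, Z4p2_1, Z4p2_3, Z4p2_4, Z4p6_5, Z4p7_5, Z4p7_6]⟩))))) (.node 56 (.node 52 (.node
  50 (.node 49 (.leaf ⟨101074066, 39317914825862159557,
  104901712727181500949152457697475818418079851068727348642040447007, 24601, [Z4p2_1, Z4p3_1,
  Z4p3_2, Z4p5_0, Z4p5_1, Z4p5_2, Z4p5_3, Z4p5_4, Z4p6_0, Z4p6_1, Z4p6_2, Z4p6_3, Z4p6_4, Z4p6_5,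
  Z4p7_0, Z4p7_1, Z4p7_2, Z4p7_3, Z4p7_4, Z4p7_5, Z4p7_6]⟩) (.leaf ⟨101090374,
  267802085803944217739, 98730976479264585148567253271079200840377209608403164960924958736, 24602,
  [Z4p0_4, Z4p0_5, Z4p0_6, Z4p0_7, Z4p1_0, Z4p1_4, Z4p1_5, Z4p1_6, Z4p1_7, Z4p2_0, Z4p2_1, Z4p2_4,
  Z4p2_5, Z4p2_6, Z4p2_7, Z4p3_0, Z4p3_1, Z4p3_2, Z4p3_4, Z4p3_5, Z4p3_6, Z4p3_7, Z4p5_4, Z4p6_4,
  Z4p6_5, Z4p7_4, Z4p7_5, Z4p7_6]⟩)) (.node 51 (.leaf ⟨151422022, 74939935361326189704,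
  59239469723711856367229782154649761239828655142360632538088669200, 36890, [Z4p0_4, Z4p1_0, Z4p1_4,
  Z4p2_0, Z4p2_1, Z4p2_4, Z4p3_0, Z4p3_1, Z4p3_2, Z4p3_4, Z4p5_4, Z4p5_6, Z4p5_7, Z4p6_4, Z4p6_7,
  Z4p7_4]⟩) (.leaf ⟨151405714, 74950395080838749381,
  65410205971629099549177191852184180813165443127857348981345419295, 36889, [Z4p2_1, Z4p3_1, Z4p3_2,
  Z4p5_0, Z4p5_1, Z4p5_2, Z4p5_3, Z4p5_4, Z4p5_6, Z4p5_7, Z4p6_0, Z4p6_1, Z4p6_2, Z4p6_3, Z4p6_4,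
  Z4p6_7, Z4p7_0, Z4p7_1, Z4p7_2, Z4p7_3, Z4p7_4]⟩))) (.node 54 (.node 53 (.leaf ⟨151274594,
  74940259885729947941, 62119146639406558062445235573210244635614131727622533352240775191, 36881,
  [Z4p1_2, Z4p3_0, Z4p3_1, Z4p3_2, Z4p4_0, Z4p4_1, Z4p4_2, Z4p5_0, Z4p5_1, Z4p5_2, Z4p5_4, Z4p5_6,
  Z4p5_7, Z4p6_0, Z4p6_1, Z4p6_2, Z4p6_4, Z4p6_7, Z4p7_0, Z4p7_1, Z4p7_2, Z4p7_4]⟩) (.leaf
  ⟨100942946, 39307779630753358117,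
  101610653394958959462420501418501882240528539668492533012935802903, 24593, [Z4p1_2, Z4p3_0,
  Z4p3_1, Z4p3_2, Z4p4_0, Z4p4_1, Z4p4_2, Z4p5_0, Z4p5_1, Z4p5_2, Z4p5_4, Z4p6_0, Z4p6_1, Z4p6_2,
  Z4p6_4, Z4p6_5, Z4p7_0, Z4p7_1, Z4p7_2, Z4p7_4, Z4p7_5, Z4p7_6]⟩)) (.node 55 (.leaf ⟨102860068,
  153554770350400736288, 92148857814819170409303122623419059206139622006855798017773076721, 24966,
  [Z4p0_5, Z4p0_6, Z4p0_7, Z4p1_4, Z4p2_1, Z4p2_4, Z4p3_1, Z4p3_2, Z4p3_4, Z4p6_5, Z4p7_5, Z4p7_6]⟩)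
  (.leaf ⟨153191716, 74939935254920694816,
  52657351059266769009327856776964347104913412677194967179318067217, 37254, [Z4p1_4, Z4p2_1, Z4p2_4,
  Z4p3_1, Z4p3_2, Z4p3_4, Z4p5_6, Z4p5_7, Z4p6_7]⟩)))) (.node 60 (.node 58 (.node 57 (.leaf
  ⟨151274642, 74950382986210843845,
  64587441138573460889082076857735241741112951567586532381981212701, 36881, [Z4p1_2, Z4p1_3, Z4p1_4,
  Z4p3_2, Z4p5_0, Z4p5_2, Z4p5_3, Z4p5_4, Z4p5_6, Z4p5_7, Z4p6_0, Z4p6_2, Z4p6_3, Z4p6_4, Z4p6_7,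
  Z4p7_0, Z4p7_2, Z4p7_3, Z4p7_4]⟩) (.leaf ⟨100942994, 39317902731234254021,
  104078947894125862289057342703026879346027359508456532042676240413, 24593, [Z4p1_2, Z4p1_3,
  Z4p1_4, Z4p3_2, Z4p5_0, Z4p5_2, Z4p5_3, Z4p5_4, Z4p6_0, Z4p6_2, Z4p6_3, Z4p6_4, Z4p6_5, Z4p7_0,
  Z4p7_2, Z4p7_3, Z4p7_4, Z4p7_5, Z4p7_6]⟩)) (.node 59 (.leaf ⟨101811334, 267803178718501866635,
  98730976479264579302739027901005345064600469816240280601034293264, 24646, [Z4p0_4, Z4p0_5, Z4p0_6,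
  Z4p0_7, Z4p2_0, Z4p2_1, Z4p2_3, Z4p2_4, Z4p2_5, Z4p2_6, Z4p2_7, Z4p3_0, Z4p3_1, Z4p3_4, Z4p3_5,
  Z4p3_6, Z4p3_7, Z4p5_4, Z4p6_4, Z4p6_5, Z4p7_4, Z4p7_5, Z4p7_6]⟩) (.leaf ⟨152142982,
  74941028275883936904, 59239469723711850521401633007826095754267731146046762499494182928, 36934,
  [Z4p0_4, Z4p2_0, Z4p2_1, Z4p2_3, Z4p2_4, Z4p3_0, Z4p3_1, Z4p3_4, Z4p5_4, Z4p5_6, Z4p5_7, Z4p6_4,
  Z4p6_7, Z4p7_4]⟩))) (.node 62 (.node 61 (.leaf ⟨77881441, 74945671478011529319,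
  52657351059266736856068826683985372708677882159444501033040019456, 18577, [Z4p1_2, Z4p1_3, Z4p2_3,
  Z4p4_0, Z4p4_1, Z4p4_2, Z4p4_3, Z4p5_6, Z4p5_7, Z4p6_7]⟩) (.leaf ⟨77095057, 74939935220560956422,
  52657351059266769009327856776964347104913412677194967179318067200, 18529, [Z4p1_4, Z4p2_1, Z4p2_4,
  Z4p3_1, Z4p3_2, Z4p3_4, Z4p5_6, Z4p5_7, Z4p6_7]⟩)) (.node 63 (.leaf ⟨77095441,
  74949232690886585349, 64998823555101281680653567667263792116583122382139214326952558622, 19041,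
  [Z4p0_1, Z4p0_2, Z4p0_3, Z4p0_4, Z4p2_1, Z4p3_1, Z4p3_2, Z4p4_1, Z4p4_2, Z4p4_3, Z4p5_1, Z4p5_2,
  Z4p5_3, Z4p5_4, Z4p5_6, Z4p5_7, Z4p6_1, Z4p6_2, Z4p6_3, Z4p6_4, Z4p6_7, Z4p7_1, Z4p7_2, Z4p7_3,
  Z4p7_4]⟩) (.leaf ⟨77088280, 417684205626453955783,
  52657351059267073006307047385961114962917618318940305155657040096, 19041, [Z4p0_5, Z4p0_6, Z4p0_7,
  Z4p1_5, Z4p1_6, Z4p1_7, Z4p2_1, Z4p2_5, Z4p2_6, Z4p2_7, Z4p3_1, Z4p3_2, Z4p3_5, Z4p3_6, Z4p3_7,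
  Z4p4_1, Z4p4_2, Z4p4_3, Z4p4_5, Z4p4_6, Z4p4_7, Z4p5_6, Z4p5_7, Z4p6_7]⟩))))))

def Z4T2 : Tr :=
  .node 96 (.node 80 (.node 72 (.node 68 (.node 66 (.node 65 (.leaf ⟨76695064,
  303440302063799535716, 52657351059266736856068826685148465031597052754991666008137138400, 19017,
  [Z4p0_5, Z4p0_6, Z4p0_7, Z4p1_2, Z4p1_3, Z4p2_3, Z4p4_1, Z4p4_2, Z4p4_3, Z4p4_5, Z4p4_6, Z4p4_7,
  Z4p5_6, Z4p5_7, Z4p6_7]⟩) (.leaf ⟨76702225, 74952644475467571205,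
  64998823555101272911777552236425869684584901954572275801741262878, 19017, [Z4p0_1, Z4p0_2, Z4p0_3,
  Z4p0_4, Z4p1_2, Z4p1_3, Z4p2_3, Z4p4_1, Z4p4_2, Z4p4_3, Z4p5_1, Z4p5_2, Z4p5_3, Z4p5_4, Z4p5_6,
  Z4p5_7, Z4p6_1, Z4p6_2, Z4p6_3, Z4p6_4, Z4p6_7, Z4p7_1, Z4p7_2, Z4p7_3, Z4p7_4]⟩)) (.node 67
  (.leaf ⟨76701841, 74944509188933583879,
  52657351059266760240451841346126424672915192249628028654107688960, 18505, [Z4p1_2, Z4p1_3, Z4p1_4,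
  Z4p2_3, Z4p2_4, Z4p3_4, Z4p5_6, Z4p5_7, Z4p6_7]⟩) (.leaf ⟨77684833, 74942259799831647434,
  52657351059266747086468780531207110888440934484941715007458050048, 18565, [Z4p1_0, Z4p2_0, Z4p2_1,
  Z4p3_0, Z4p3_1, Z4p3_2, Z4p4_0, Z4p4_1, Z4p4_2, Z4p4_3, Z4p5_6, Z4p5_7, Z4p6_7]⟩))) (.node 70
  (.node 69 (.leaf ⟨75915409, 74943421771930469381,
  52657351059266745624944842114823295140676102310314500701814718464, 18457, [Z4p2_1, Z4p3_1, Z4p3_2,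
  Z4p5_6, Z4p5_7, Z4p6_7]⟩) (.leaf ⟨76111969, 74942184997573988521,
  52657351059266738317592765100369188456442713799116418740509540352, 18469, [Z4p1_0, Z4p1_2, Z4p1_3,
  Z4p2_0, Z4p2_3, Z4p3_0, Z4p4_0, Z4p5_6, Z4p5_7, Z4p6_7]⟩)) (.node 71 (.leaf ⟨75784289,
  74940041978477316199, 52657351059266747086401879316458619781831717572671387854524448768, 18449,
  [Z4p1_2, Z4p3_0, Z4p3_1, Z4p3_2, Z4p4_0, Z4p4_1, Z4p4_2, Z4p5_6, Z4p5_7, Z4p6_7]⟩) (.leaf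
  ⟨76046433, 74941028275874499720,
  52657351059266741240640636828901316137895425681251909268362297344, 18465, [Z4p2_0, Z4p2_1, Z4p2_3,
  Z4p3_0, Z4p3_1, Z4p4_0, Z4p4_1, Z4p5_6, Z4p5_7, Z4p6_7]⟩)))) (.node 76 (.node 74 (.node 73 (.leaf
  ⟨75784337, 74943416274372330501,
  52657351059266742701896975490526671273300342415691609797904105472, 18449, [Z4p1_2, Z4p1_3, Z4p1_4,
  Z4p3_2, Z4p5_6, Z4p5_7, Z4p6_7]⟩) (.leaf ⟨76046481, 74944402536303527941,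
  52657351059266736856470244180947326976487086372148832929169604608, 18465, [Z4p1_3, Z4p1_4, Z4p2_1,
  Z4p2_3, Z4p2_4, Z4p5_6, Z4p5_7, Z4p6_7]⟩)) (.node 75 (.leaf ⟨77890852, 265357863652309534752,
  52657351059266760240451841347289516916606196217224157720846729471, 18834, [Z4p0_5, Z4p0_6, Z4p0_7,
  Z4p1_2, Z4p1_3, Z4p1_4, Z4p2_3, Z4p2_4, Z4p3_4, Z4p5_6, Z4p5_7, Z4p6_7]⟩) (.leaf ⟨76645668,
  265356594815887837216, 52657351059266736856470244182110419220178090339744961995908645113, 18758,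
  [Z4p0_5, Z4p0_6, Z4p0_7, Z4p1_3, Z4p1_4, Z4p2_1, Z4p2_3, Z4p2_4, Z4p5_6, Z4p5_7, Z4p6_7]⟩)))
  (.node 78 (.node 77 (.leaf ⟨77694244, 265352127500145265696,
  52657351059266769009327856778127439348604416644791096246057107697, 18822, [Z4p0_5, Z4p0_6, Z4p0_7,
  Z4p1_4, Z4p2_1, Z4p2_4, Z4p3_1, Z4p3_2, Z4p3_4, Z4p5_6, Z4p5_7, Z4p6_7]⟩) (.leaf ⟨73680993,
  258296219611638564964, 52657558197589803424374595885250357362854189258724490564893474945, 17553,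
  [Z4p1_2, Z4p1_3, Z4p2_3, Z4p4_0, Z4p4_1, Z4p4_2, Z4p4_3, Z4p4_7, Z4p5_0, Z4p5_7, Z4p6_0, Z4p6_5,
  Z4p6_7]⟩)) (.node 79 (.leaf ⟨72894609, 332077459825254075398,
  52657558197590024114221681691741563220753034627927515211821547649, 17505, [Z4p1_0, Z4p1_4, Z4p1_7,
  Z4p2_0, Z4p2_1, Z4p2_4, Z4p2_7, Z4p3_0, Z4p3_1, Z4p3_2, Z4p3_4, Z4p3_7, Z4p4_0, Z4p4_7, Z4p5_0,
  Z4p5_7, Z4p6_0, Z4p6_5, Z4p6_7]⟩) (.leaf ⟨72895000, 147612343278399165639,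
  52657558197589812193250611316088279794852407306625132755517702144, 18017, [Z4p2_1, Z4p3_1, Z4p3_2,
  Z4p4_1, Z4p4_2, Z4p4_3, Z4p5_0, Z4p5_7, Z4p6_0, Z4p6_5, Z4p6_7]⟩))))) (.node 88 (.node 84 (.node
  82 (.node 81 (.leaf ⟨72501784, 147615755062980151462,
  52657558197589803424374595885250357362854186879058194230306406400, 17993, [Z4p1_2, Z4p1_3, Z4p2_3,
  Z4p4_1, Z4p4_2, Z4p4_3, Z4p5_0, Z4p5_7, Z4p6_0, Z4p6_5, Z4p6_7]⟩) (.leaf ⟨72501393,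
  368975521976512840711, 52657558197590015345345666260903640788754814200360576686611169409, 17481,
  [Z4p1_0, Z4p1_2, Z4p1_3, Z4p1_4, Z4p1_7, Z4p2_0, Z4p2_3, Z4p2_4, Z4p2_7, Z4p3_0, Z4p3_4, Z4p3_7,
  Z4p4_0, Z4p4_7, Z4p5_0, Z4p5_7, Z4p6_0, Z4p6_5, Z4p6_7]⟩)) (.node 83 (.leaf ⟨73484385,
  368973272375715992775, 52657558197590000729838667029600511256515724519296962037773566081, 17541,
  [Z4p1_0, Z4p1_7, Z4p2_0, Z4p2_1, Z4p2_7, Z4p3_0, Z4p3_1, Z4p3_2, Z4p3_7, Z4p4_0, Z4p4_1, Z4p4_2,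
  Z4p4_3, Z4p4_7, Z4p5_0, Z4p5_7, Z4p6_0, Z4p6_5, Z4p6_7]⟩) (.leaf ⟨71714961, 258293970010851312644,
  52657558197589812193250611316088279794852409428041515786649403521, 17433, [Z4p2_1, Z4p3_1, Z4p3_2,
  Z4p4_0, Z4p4_7, Z4p5_0, Z4p5_7, Z4p6_0, Z4p6_5, Z4p6_7]⟩))) (.node 86 (.node 85 (.leaf ⟨71911521,
  332079709426039230630, 52657558197589991960962651598762588824517503833471665770825056385, 17445,
  [Z4p1_0, Z4p1_2, Z4p1_3, Z4p1_7, Z4p2_0, Z4p2_3, Z4p2_7, Z4p3_0, Z4p3_7, Z4p4_0, Z4p4_7, Z4p5_0,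
  Z4p5_7, Z4p6_0, Z4p6_5, Z4p6_7]⟩) (.leaf ⟨71583841, 258290590112104351844,
  52657558197590000726917226873297134507666612356177893345743405185, 17425, [Z4p1_2, Z4p3_0, Z4p3_1,
  Z4p3_2, Z4p3_7, Z4p4_0, Z4p4_1, Z4p4_2, Z4p4_7, Z4p5_0, Z4p5_7, Z4p6_0, Z4p6_5, Z4p6_7]⟩)) (.node
  87 (.leaf ⟨71845985, 295185064556920638597,
  52657558197589994884010479771151750625846892403657405032346747009, 17441, [Z4p2_0, Z4p2_1, Z4p2_3,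
  Z4p2_7, Z4p3_0, Z4p3_1, Z4p3_7, Z4p4_0, Z4p4_1, Z4p4_7, Z4p5_0, Z4p5_7, Z4p6_0, Z4p6_5, Z4p6_7]⟩)
  (.leaf ⟨71583889, 258293964513293173764,
  52657558197589809270202788588216988728538436308742983580838068353, 17425, [Z4p1_0, Z4p1_2, Z4p1_3,
  Z4p1_4, Z4p1_7, Z4p3_2, Z4p4_0, Z4p4_7, Z4p5_0, Z4p5_7, Z4p6_0, Z4p6_5, Z4p6_7]⟩)))) (.node 92
  (.node 90 (.node 89 (.leaf ⟨71846033, 295188438958110509061,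
  52657558197589803427652853409248094816983287922371845346375041153, 17441, [Z4p1_0, Z4p1_3, Z4p1_4,
  Z4p1_7, Z4p2_0, Z4p2_1, Z4p2_3, Z4p2_4, Z4p2_7, Z4p4_0, Z4p4_7, Z4p5_0, Z4p5_7, Z4p6_0, Z4p6_5,
  Z4p6_7]⟩) (.leaf ⟨140808466, 305886773957789591845,
  92148857814819490483313250877776605604416952199068381869728858337, 34194, [Z4p1_0, Z4p1_2, Z4p1_3,
  Z4p1_4, Z4p1_5, Z4p1_6, Z4p1_7, Z4p2_0, Z4p2_3, Z4p2_4, Z4p2_5, Z4p2_6, Z4p2_7, Z4p3_0, Z4p3_4,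
  Z4p3_5, Z4p3_6, Z4p3_7, Z4p4_0, Z4p4_5, Z4p4_6, Z4p4_7, Z4p6_5, Z4p7_5, Z4p7_6]⟩)) (.node 91
  (.leaf ⟨73697572, 258299706094200853635,
  52657746513515317548304067231160620151691372974413221991330807967, 17810, [Z4p0_7, Z4p1_2, Z4p1_3,
  Z4p1_4, Z4p2_3, Z4p2_4, Z4p3_4, Z4p5_0, Z4p5_1, Z4p5_2, Z4p5_3, Z4p5_4, Z4p5_7, Z4p6_0, Z4p6_1,
  Z4p6_2, Z4p6_3, Z4p6_4, Z4p6_5, Z4p6_7]⟩) (.leaf ⟨139563298, 305888991672742807845,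
  92148857814819138261463254259440912078901485157909764655185658081, 34118, [Z4p1_0, Z4p1_3, Z4p1_4,
  Z4p1_5, Z4p1_6, Z4p1_7, Z4p2_0, Z4p2_1, Z4p2_3, Z4p2_4, Z4p2_5, Z4p2_6, Z4p2_7, Z4p4_0, Z4p4_5,
  Z4p4_6, Z4p4_7, Z4p6_5, Z4p7_5, Z4p7_6]⟩))) (.node 94 (.node 93 (.leaf ⟨72452388,
  258298328406128006275, 52657708850330196016413178729360603074076150984026644536318558361, 17734,
  [Z4p0_7, Z4p1_3, Z4p1_4, Z4p2_1, Z4p2_3, Z4p2_4, Z4p5_0, Z4p5_3, Z4p5_4, Z4p5_7, Z4p6_0, Z4p6_3,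
  Z4p6_4, Z4p6_5, Z4p6_7]⟩) (.leaf ⟨73500964, 258290483390663824515,
  52657658632750097305391736209883064027586322471862936479701467281, 17798, [Z4p0_7, Z4p1_4, Z4p2_1,
  Z4p2_4, Z4p3_1, Z4p3_2, Z4p3_4, Z4p5_0, Z4p5_4, Z4p5_7, Z4p6_0, Z4p6_4, Z4p6_5, Z4p6_7]⟩)) (.node
  95 (.leaf ⟨140611874, 343966962841512185158,
  92148857814819499252189266308614528036415172626635321490156814561, 34182, [Z4p1_0, Z4p1_4, Z4p1_5,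
  Z4p1_6, Z4p1_7, Z4p2_0, Z4p2_1, Z4p2_4, Z4p2_5, Z4p2_6, Z4p2_7, Z4p3_0, Z4p3_1, Z4p3_2, Z4p3_4,
  Z4p3_5, Z4p3_6, Z4p3_7, Z4p4_0, Z4p4_5, Z4p4_6, Z4p4_7, Z4p6_5, Z4p7_5, Z4p7_6]⟩) (.leaf
  ⟨26775697, 1225016658244148426, 99142358895792074174204733768633722952208193822917202238791221248,
  6242, [Z4p0_4, Z4p1_4, Z4p2_1, Z4p2_4, Z4p3_1, Z4p3_2, Z4p3_4, Z4p5_0, Z4p5_4, Z4p6_0, Z4p6_4,
  Z4p6_5, Z4p7_0, Z4p7_4, Z4p7_5, Z4p7_6]⟩)))))) (.node 112 (.node 104 (.node 100 (.node 98 (.node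
  97 (.leaf ⟨26776081, 1236638496148731079,
  104901712727181500949152457697631569576727492960621555881529442334, 6754, [Z4p0_1, Z4p0_2, Z4p0_3,
  Z4p0_4, Z4p2_1, Z4p3_1, Z4p3_2, Z4p4_1, Z4p4_2, Z4p4_3, Z4p5_0, Z4p5_1, Z4p5_2, Z4p5_3, Z4p5_4,
  Z4p6_0, Z4p6_1, Z4p6_2, Z4p6_3, Z4p6_4, Z4p6_5, Z4p7_0, Z4p7_1, Z4p7_2, Z4p7_3, Z4p7_4, Z4p7_5,
  Z4p7_6]⟩) (.leaf ⟨27562081, 1230752810396584135,
  92560240231346956124567716714353150168822252719479817034635673600, 6290, [Z4p1_2, Z4p1_3, Z4p2_3,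
  Z4p4_1, Z4p4_2, Z4p4_3, Z4p5_0, Z4p6_0, Z4p6_5, Z4p7_0, Z4p7_5, Z4p7_6]⟩)) (.node 99 (.leaf
  ⟨27549793, 229725383471581399146,
  92148857814819138256044092530440084809904095621239055739290451968, 6289, [Z4p0_5, Z4p0_6, Z4p0_7,
  Z4p1_2, Z4p1_3, Z4p2_3, Z4p4_0, Z4p4_1, Z4p4_2, Z4p4_3, Z4p4_5, Z4p4_6, Z4p4_7, Z4p6_5, Z4p7_5,
  Z4p7_6]⟩) (.leaf ⟨26763409, 115472331865888787463,
  92148857814819170409303122623419059206139622006855798017773076480, 6241, [Z4p0_5, Z4p0_6, Z4p0_7,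
  Z4p1_4, Z4p2_1, Z4p2_4, Z4p3_1, Z4p3_2, Z4p3_4, Z4p6_5, Z4p7_5, Z4p7_6]⟩))) (.node 102 (.node 101
  (.leaf ⟨39358609, 113022373807988677834,
  59650852140239672774229467923342103094672988460852500467075252224, 9314, [Z4p0_4, Z4p1_4, Z4p2_1,
  Z4p2_4, Z4p3_1, Z4p3_2, Z4p3_4, Z4p5_0, Z4p5_4, Z4p5_6, Z4p5_7, Z4p6_0, Z4p6_4, Z4p6_7, Z4p7_0,
  Z4p7_4]⟩) (.leaf ⟨39358993, 113033995645893260487,
  65410205971629099549177191852339949719192287598556854109813473310, 9826, [Z4p0_1, Z4p0_2, Z4p0_3,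
  Z4p0_4, Z4p2_1, Z4p3_1, Z4p3_2, Z4p4_1, Z4p4_2, Z4p4_3, Z4p5_0, Z4p5_1, Z4p5_2, Z4p5_3, Z4p5_4,
  Z4p5_6, Z4p5_7, Z4p6_0, Z4p6_1, Z4p6_2, Z4p6_3, Z4p6_4, Z4p6_7, Z4p7_0, Z4p7_1, Z4p7_2, Z4p7_3,
  Z4p7_4]⟩)) (.node 103 (.leaf ⟨26764824, 382051725350002529479,
  92148857814819474406282313231252734741495460550334346268963242208, 6753, [Z4p0_5, Z4p0_6, Z4p0_7,
  Z4p1_5, Z4p1_6, Z4p1_7, Z4p2_1, Z4p2_5, Z4p2_6, Z4p2_7, Z4p3_1, Z4p3_2, Z4p3_5, Z4p3_6, Z4p3_7,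
  Z4p4_1, Z4p4_2, Z4p4_3, Z4p4_5, Z4p4_6, Z4p4_7, Z4p6_5, Z4p7_5, Z4p7_6]⟩) (.leaf ⟨26763793,
  115483953703797699591, 104490330310653683080628833513718504217809331711800045165407567902, 6753,
  [Z4p0_1, Z4p0_2, Z4p0_3, Z4p0_4, Z4p0_5, Z4p0_6, Z4p0_7, Z4p2_1, Z4p3_1, Z4p3_2, Z4p4_1, Z4p4_2,
  Z4p4_3, Z4p5_1, Z4p5_2, Z4p5_3, Z4p5_4, Z4p6_1, Z4p6_2, Z4p6_3, Z4p6_4, Z4p6_5, Z4p7_1, Z4p7_2,
  Z4p7_3, Z4p7_4, Z4p7_5, Z4p7_6]⟩)))) (.node 108 (.node 106 (.node 105 (.leaf ⟨39346321,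
  227269689015633316870, 52657351059266769009327856778127439348604416644791096246057107456, 9313,
  [Z4p0_5, Z4p0_6, Z4p0_7, Z4p1_4, Z4p2_1, Z4p2_4, Z4p3_1, Z4p3_2, Z4p3_4, Z4p5_6, Z4p5_7, Z4p6_7]⟩)
  (.leaf ⟨39346705, 227277824302167304196,
  52657351059266745624944842116142158667004294567535024643447390238, 9825, [Z4p0_1, Z4p0_2, Z4p0_3,
  Z4p0_4, Z4p0_5, Z4p0_6, Z4p0_7, Z4p2_1, Z4p3_1, Z4p3_2, Z4p4_1, Z4p4_2, Z4p4_3, Z4p5_6, Z4p5_7,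
  Z4p6_7]⟩)) (.node 107 (.leaf ⟨40144993, 113028109960141113543,
  53068733475794554724592450869061530311287047357415115262919704576, 9362, [Z4p1_2, Z4p1_3, Z4p2_3,
  Z4p4_1, Z4p4_2, Z4p4_3, Z4p5_0, Z4p5_6, Z4p5_7, Z4p6_0, Z4p6_7, Z4p7_0]⟩) (.leaf ⟨40132705,
  341522740621325928551, 52657351059266736856068826685148464952368890259174353967574482944, 9361,
  [Z4p0_5, Z4p0_6, Z4p0_7, Z4p1_2, Z4p1_3, Z4p2_3, Z4p4_0, Z4p4_1, Z4p4_2, Z4p4_3, Z4p4_5, Z4p4_6,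
  Z4p4_7, Z4p5_6, Z4p5_7, Z4p6_7]⟩))) (.node 110 (.node 109 (.leaf ⟨26382865, 1240050280729716935,
  104901712727181492180276442266793647144729272533054617356318146590, 6730, [Z4p0_1, Z4p0_2, Z4p0_3,
  Z4p0_4, Z4p1_2, Z4p1_3, Z4p2_3, Z4p4_1, Z4p4_2, Z4p4_3, Z4p5_0, Z4p5_1, Z4p5_2, Z4p5_3, Z4p5_4,
  Z4p6_0, Z4p6_1, Z4p6_2, Z4p6_3, Z4p6_4, Z4p6_5, Z4p7_0, Z4p7_1, Z4p7_2, Z4p7_3, Z4p7_4, Z4p7_5,
  Z4p7_6]⟩) (.leaf ⟨26382470, 1227266400900452518,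
  92560240231346980970474669792878017880824394726040927077032591377, 6218, [Z4p1_0, Z4p1_2, Z4p1_3,
  Z4p1_4, Z4p2_0, Z4p2_3, Z4p2_4, Z4p3_0, Z4p3_4, Z4p5_0, Z4p6_0, Z4p6_5, Z4p7_0, Z4p7_5, Z4p7_6]⟩))
  (.node 111 (.leaf ⟨26382481, 1236563729362296013,
  104901712727181515564659456928934699108966582641685170530365079552, 6218, [Z4p0_1, Z4p0_2, Z4p0_3,
  Z4p0_4, Z4p1_2, Z4p1_3, Z4p1_4, Z4p2_3, Z4p2_4, Z4p3_4, Z4p5_0, Z4p5_1, Z4p5_2, Z4p5_3, Z4p5_4,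
  Z4p6_0, Z4p6_1, Z4p6_2, Z4p6_3, Z4p6_4, Z4p6_5, Z4p7_0, Z4p7_1, Z4p7_2, Z4p7_3, Z4p7_4, Z4p7_5,
  Z4p7_6]⟩) (.leaf ⟨26370577, 115487365488378685447,
  104490330310653674311752818082880581785811111284233106640196272158, 6729, [Z4p0_1, Z4p0_2, Z4p0_3,
  Z4p0_4, Z4p0_5, Z4p0_6, Z4p0_7, Z4p1_2, Z4p1_3, Z4p2_3, Z4p4_1, Z4p4_2, Z4p4_3, Z4p5_1, Z4p5_2,
  Z4p5_3, Z4p5_4, Z4p6_1, Z4p6_2, Z4p6_3, Z4p6_4, Z4p6_5, Z4p7_1, Z4p7_2, Z4p7_3, Z4p7_4, Z4p7_5,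
  Z4p7_6]⟩))))) (.node 120 (.node 116 (.node 114 (.node 113 (.leaf ⟨26371608, 267807821784126883940,
  92148857814819138256044092530440084810174894986385707121443340512, 6729, [Z4p0_5, Z4p0_6, Z4p0_7,
  Z4p1_2, Z4p1_3, Z4p2_3, Z4p4_1, Z4p4_2, Z4p4_3, Z4p4_5, Z4p4_6, Z4p4_7, Z4p6_5, Z4p7_5, Z4p7_6]⟩)
  (.leaf ⟨26370193, 115476905834261414919,
  92148857814819161640427107192581136774141401579288859492562698240, 6217, [Z4p0_5, Z4p0_6, Z4p0_7,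
  Z4p1_2, Z4p1_3, Z4p1_4, Z4p2_3, Z4p2_4, Z4p3_4, Z4p6_5, Z4p7_5, Z4p7_6]⟩)) (.node 115 (.leaf
  ⟨38965777, 113037407430474246343,
  65410205971629090780301176421502027287194067170989915584602177566, 9802, [Z4p0_1, Z4p0_2, Z4p0_3,
  Z4p0_4, Z4p1_2, Z4p1_3, Z4p2_3, Z4p4_1, Z4p4_2, Z4p4_3, Z4p5_0, Z4p5_1, Z4p5_2, Z4p5_3, Z4p5_4,
  Z4p5_6, Z4p5_7, Z4p6_0, Z4p6_1, Z4p6_2, Z4p6_3, Z4p6_4, Z4p6_7, Z4p7_0, Z4p7_1, Z4p7_2, Z4p7_3,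
  Z4p7_4]⟩) (.leaf ⟨38965393, 113033920879106825421,
  65410205971629114164684191083643079251431377279620468758649110528, 9290, [Z4p0_1, Z4p0_2, Z4p0_3,
  Z4p0_4, Z4p1_2, Z4p1_3, Z4p1_4, Z4p2_3, Z4p2_4, Z4p3_4, Z4p5_0, Z4p5_1, Z4p5_2, Z4p5_3, Z4p5_4,
  Z4p5_6, Z4p5_7, Z4p6_0, Z4p6_1, Z4p6_2, Z4p6_3, Z4p6_4, Z4p6_7, Z4p7_0, Z4p7_1, Z4p7_2, Z4p7_3,
  Z4p7_4]⟩))) (.node 118 (.node 117 (.leaf ⟨38965382, 379601692800360485030,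
  53068733475794906951861609217561125522611534500420977284495769841, 9290, [Z4p1_0, Z4p1_2, Z4p1_3,
  Z4p1_4, Z4p1_5, Z4p1_6, Z4p1_7, Z4p2_0, Z4p2_3, Z4p2_4, Z4p2_5, Z4p2_6, Z4p2_7, Z4p3_0, Z4p3_4,
  Z4p3_5, Z4p3_6, Z4p3_7, Z4p5_0, Z4p5_6, Z4p5_7, Z4p6_0, Z4p6_7, Z4p7_0]⟩) (.leaf ⟨38953489,
  227281236086748290052, 52657351059266736856068826685304236235006074139968086118236094494, 9801,
  [Z4p0_1, Z4p0_2, Z4p0_3, Z4p0_4, Z4p0_5, Z4p0_6, Z4p0_7, Z4p1_2, Z4p1_3, Z4p2_3, Z4p4_1, Z4p4_2,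
  Z4p4_3, Z4p5_6, Z4p5_7, Z4p6_7]⟩)) (.node 119 (.leaf ⟨38953105, 227274262984005944327,
  52657351059266760240451841347289516916606196217224157720846729216, 9289, [Z4p0_5, Z4p0_6, Z4p0_7,
  Z4p1_2, Z4p1_3, Z4p1_4, Z4p2_3, Z4p2_4, Z4p3_4, Z4p5_6, Z4p5_7, Z4p6_7]⟩) (.leaf ⟨39948385,
  113024698175560127687, 53068733475794563493468466299899452743285267784982053788131000320, 9350,
  [Z4p2_1, Z4p3_1, Z4p3_2, Z4p4_1, Z4p4_2, Z4p4_3, Z4p5_0, Z4p5_6, Z4p5_7, Z4p6_0, Z4p6_7,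
  Z4p7_0]⟩)))) (.node 124 (.node 122 (.node 121 (.leaf ⟨39936097, 455766644290280789194,
  52657351059267074467830985802344930631454287721053268564301119488, 9349, [Z4p0_5, Z4p0_6, Z4p0_7,
  Z4p1_0, Z4p1_5, Z4p1_6, Z4p1_7, Z4p2_0, Z4p2_1, Z4p2_5, Z4p2_6, Z4p2_7, Z4p3_0, Z4p3_1, Z4p3_2,
  Z4p3_5, Z4p3_6, Z4p3_7, Z4p4_0, Z4p4_1, Z4p4_2, Z4p4_3, Z4p4_5, Z4p4_6, Z4p4_7, Z4p5_6, Z4p5_7,
  Z4p6_7]⟩) (.leaf ⟨27365473, 1227341025815598279,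
  92560240231346964893443732145191072600820473147046755559846969344, 6278, [Z4p2_1, Z4p3_1, Z4p3_2,
  Z4p4_1, Z4p4_2, Z4p4_3, Z4p5_0, Z4p6_0, Z4p6_5, Z4p7_0, Z4p7_5, Z4p7_6]⟩)) (.node 123 (.leaf
  ⟨27353185, 343969287140536259789,
  92148857814819475867806251647636550488989493083117970336017088512, 6277, [Z4p0_5, Z4p0_6, Z4p0_7,
  Z4p1_0, Z4p1_5, Z4p1_6, Z4p1_7, Z4p2_0, Z4p2_1, Z4p2_5, Z4p2_6, Z4p2_7, Z4p3_0, Z4p3_1, Z4p3_2,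
  Z4p3_5, Z4p3_6, Z4p3_7, Z4p4_0, Z4p4_1, Z4p4_2, Z4p4_3, Z4p4_5, Z4p4_6, Z4p4_7, Z4p6_5, Z4p7_5,
  Z4p7_6]⟩) (.leaf ⟨27353161, 77401515219277357286,
  97908211646208597184250846552416905830658921144560151720625045518, 6277, [Z4p0_1, Z4p0_2, Z4p0_3,
  Z4p0_5, Z4p0_6, Z4p0_7, Z4p2_1, Z4p3_1, Z4p3_2, Z4p4_1, Z4p4_2, Z4p4_3, Z4p5_1, Z4p5_2, Z4p5_3,
  Z4p6_1, Z4p6_2, Z4p6_3, Z4p6_5, Z4p7_1, Z4p7_2, Z4p7_3, Z4p7_5, Z4p7_6]⟩))) (.node 126 (.node 125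
  (.leaf ⟨39936073, 189195385817650107523,
  52657351059266745624944842116059080649597794284135301198795112462, 9349, [Z4p0_1, Z4p0_2, Z4p0_3,
  Z4p0_5, Z4p0_6, Z4p0_7, Z4p2_1, Z4p3_1, Z4p3_2, Z4p4_1, Z4p4_2, Z4p4_3, Z4p5_6, Z4p5_7, Z4p6_7]⟩)
  (.leaf ⟨38178961, 113032833462103710922,
  65410205971629099549177191852339949719192287340306940806356140032, 9242, [Z4p0_1, Z4p0_2, Z4p0_3,
  Z4p0_4, Z4p2_1, Z4p3_1, Z4p3_2, Z4p5_0, Z4p5_1, Z4p5_2, Z4p5_3, Z4p5_4, Z4p5_6, Z4p5_7, Z4p6_0,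
  Z4p6_1, Z4p6_2, Z4p6_3, Z4p6_4, Z4p6_7, Z4p7_0, Z4p7_1, Z4p7_2, Z4p7_3, Z4p7_4]⟩)) (.node 127
  (.leaf ⟨38178886, 341517004715057187973,
  53068733475794915720737624648399047954609754927920080400449339633, 9242, [Z4p1_0, Z4p1_4, Z4p1_5,
  Z4p1_6, Z4p1_7, Z4p2_0, Z4p2_1, Z4p2_4, Z4p2_5, Z4p2_6, Z4p2_7, Z4p3_0, Z4p3_1, Z4p3_2, Z4p3_4,
  Z4p3_5, Z4p3_6, Z4p3_7, Z4p5_0, Z4p5_6, Z4p5_7, Z4p6_0, Z4p6_7, Z4p7_0]⟩) (.leaf ⟨38166673,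
  227273175567002829828, 52657351059266745624944842115986387384367106277910629768553758720, 9241,
  [Z4p0_5, Z4p0_6, Z4p0_7, Z4p2_1, Z4p3_1, Z4p3_2, Z4p5_6, Z4p5_7, Z4p6_7]⟩))))))

def Z4T3 : Tr :=
  .node 160 (.node 144 (.node 136 (.node 132 (.node 130 (.node 129 (.leaf ⟨38375521,
  113024623408769503431, 53068733475794554724592450869061530311287047099156757521182490624, 9254,
  [Z4p1_2, Z4p1_3, Z4p2_3, Z4p5_0, Z4p5_6, Z4p5_7, Z4p6_0, Z4p6_7, Z4p7_0]⟩) (.leaf ⟨38363233,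
  417684131038978216105, 52657351059267065698954970371507008199456067035227972297352609792, 9253,
  [Z4p0_5, Z4p0_6, Z4p0_7, Z4p1_0, Z4p1_2, Z4p1_3, Z4p1_5, Z4p1_6, Z4p1_7, Z4p2_0, Z4p2_3, Z4p2_5,
  Z4p2_6, Z4p2_7, Z4p3_0, Z4p3_5, Z4p3_6, Z4p3_7, Z4p4_0, Z4p4_5, Z4p4_6, Z4p4_7, Z4p5_6, Z4p5_7,
  Z4p6_7]⟩)) (.node 131 (.leaf ⟨38363209, 189196473234650076291,
  52657351059266736856068826685221158217599573856564421963780325390, 9253, [Z4p0_1, Z4p0_2, Z4p0_3,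
  Z4p0_5, Z4p0_6, Z4p0_7, Z4p1_2, Z4p1_3, Z4p2_3, Z4p4_1, Z4p4_2, Z4p4_3, Z4p5_6, Z4p5_7, Z4p6_7]⟩)
  (.leaf ⟨25596049, 1235476312359181514,
  104901712727181500949152457697631569576727492702371642578072109056, 6170, [Z4p0_1, Z4p0_2, Z4p0_3,
  Z4p0_4, Z4p2_1, Z4p3_1, Z4p3_2, Z4p5_0, Z4p5_1, Z4p5_2, Z4p5_3, Z4p5_4, Z4p6_0, Z4p6_1, Z4p6_2,
  Z4p6_3, Z4p6_4, Z4p6_5, Z4p7_0, Z4p7_1, Z4p7_2, Z4p7_3, Z4p7_4, Z4p7_5, Z4p7_6]⟩))) (.node 134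
  (.node 133 (.leaf ⟨25595974, 1225016764642069637,
  92560240231346989739350685223715940312822615153603080587769348113, 6170, [Z4p1_0, Z4p1_4, Z4p2_0,
  Z4p2_1, Z4p2_4, Z4p3_0, Z4p3_1, Z4p3_2, Z4p3_4, Z4p5_0, Z4p6_0, Z4p6_5, Z4p7_0, Z4p7_5, Z4p7_6]⟩)
  (.leaf ⟨25583761, 115475818417258300423,
  92148857814819147024920107961278007241902311639975331540269727744, 6169, [Z4p0_5, Z4p0_6, Z4p0_7,
  Z4p2_1, Z4p3_1, Z4p3_2, Z4p6_5, Z4p7_5, Z4p7_6]⟩)) (.node 135 (.leaf ⟨25792609,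
  1227266259024974023, 92560240231346956124567716714353150168822252461221459292898459648, 6182,
  [Z4p1_2, Z4p1_3, Z4p2_3, Z4p5_0, Z4p6_0, Z4p6_5, Z4p7_0, Z4p7_5, Z4p7_6]⟩) (.leaf ⟨25780321,
  305886773889233686700, 92148857814819467098930236216798628056991272397292674069068578816, 6181,
  [Z4p0_5, Z4p0_6, Z4p0_7, Z4p1_0, Z4p1_2, Z4p1_3, Z4p1_5, Z4p1_6, Z4p1_7, Z4p2_0, Z4p2_3, Z4p2_5,
  Z4p2_6, Z4p2_7, Z4p3_0, Z4p3_5, Z4p3_6, Z4p3_7, Z4p4_0, Z4p4_5, Z4p4_6, Z4p4_7, Z4p6_5, Z4p7_5,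
  Z4p7_6]⟩)))) (.node 140 (.node 138 (.node 137 (.leaf ⟨25780297, 77402602636277326054,
  97908211646208588415374831121578983398660700716989272485610258446, 6181, [Z4p0_1, Z4p0_2, Z4p0_3,
  Z4p0_5, Z4p0_6, Z4p0_7, Z4p1_2, Z4p1_3, Z4p2_3, Z4p4_1, Z4p4_2, Z4p4_3, Z4p5_1, Z4p5_2, Z4p5_3,
  Z4p6_1, Z4p6_2, Z4p6_3, Z4p6_5, Z4p7_1, Z4p7_2, Z4p7_3, Z4p7_5, Z4p7_6]⟩) (.leaf ⟨38047841,
  113022480460606900423, 53068733475794563493423866170631859180756050054358982428471590912, 9234,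
  [Z4p1_2, Z4p3_1, Z4p3_2, Z4p4_1, Z4p4_2, Z4p5_0, Z4p5_6, Z4p5_7, Z4p6_0, Z4p6_7, Z4p7_0]⟩)) (.node
  139 (.leaf ⟨38035553, 341517111121791715431,
  52657351059267074462768641439875389650925254119797643717948538880, 9233, [Z4p0_5, Z4p0_6, Z4p0_7,
  Z4p1_2, Z4p3_0, Z4p3_1, Z4p3_2, Z4p3_5, Z4p3_6, Z4p3_7, Z4p4_0, Z4p4_1, Z4p4_2, Z4p4_5, Z4p4_6,
  Z4p4_7, Z4p5_6, Z4p5_7, Z4p6_7]⟩) (.leaf ⟨25464929, 1225123310862371015,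
  92560240231346964893399132015923479038291255416423684200187559936, 6162, [Z4p1_2, Z4p3_1, Z4p3_2,
  Z4p4_1, Z4p4_2, Z4p5_0, Z4p6_0, Z4p6_5, Z4p7_0, Z4p7_5, Z4p7_6]⟩))) (.node 142 (.node 141 (.leaf
  ⟨25452641, 229719753972047186026,
  92148857814819475862743907285167009508460459481862345489664507904, 6161, [Z4p0_5, Z4p0_6, Z4p0_7,
  Z4p1_2, Z4p3_0, Z4p3_1, Z4p3_2, Z4p3_5, Z4p3_6, Z4p3_7, Z4p4_0, Z4p4_1, Z4p4_2, Z4p4_5, Z4p4_6,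
  Z4p4_7, Z4p6_5, Z4p7_5, Z4p7_6]⟩) (.leaf ⟨25727073, 1226109572792519879,
  92560240231346959047615588783167644771213427806731557252519428096, 6178, [Z4p2_1, Z4p2_3, Z4p3_1,
  Z4p4_1, Z4p5_0, Z4p6_0, Z4p6_5, Z4p7_0, Z4p7_5, Z4p7_6]⟩)) (.node 143 (.leaf ⟨25714785,
  267803178718489283723, 92148857814819470021978031722080565448228168483516099880841969664, 6177,
  [Z4p0_5, Z4p0_6, Z4p0_7, Z4p2_0, Z4p2_1, Z4p2_3, Z4p2_5, Z4p2_6, Z4p2_7, Z4p3_0, Z4p3_1, Z4p3_5,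
  Z4p3_6, Z4p3_7, Z4p4_0, Z4p4_1, Z4p4_5, Z4p4_6, Z4p4_7, Z4p6_5, Z4p7_5, Z4p7_6]⟩) (.leaf
  ⟨38309985, 113023466722537049287,
  53068733475794557647640322937876024913678222444666855480803459072, 9250, [Z4p2_1, Z4p2_3, Z4p3_1,
  Z4p4_1, Z4p5_0, Z4p5_6, Z4p5_7, Z4p6_0, Z4p6_7, Z4p7_0]⟩))))) (.node 152 (.node 148 (.node 146
  (.node 145 (.leaf ⟨38297697, 379600535868233813128,
  52657351059267068622002765876788945590692963121451398109126000640, 9249, [Z4p0_5, Z4p0_6, Z4p0_7,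
  Z4p2_0, Z4p2_1, Z4p2_3, Z4p2_5, Z4p2_6, Z4p2_7, Z4p3_0, Z4p3_1, Z4p3_5, Z4p3_6, Z4p3_7, Z4p4_0,
  Z4p4_1, Z4p4_5, Z4p4_6, Z4p4_7, Z4p5_6, Z4p5_7, Z4p6_7]⟩) (.leaf ⟨38047889, 113032821367475805386,
  64587441138573460889082076857880626053422726124779063214333493248, 9234, [Z4p0_2, Z4p0_3, Z4p0_4,
  Z4p1_2, Z4p1_3, Z4p1_4, Z4p3_2, Z4p5_0, Z4p5_2, Z4p5_3, Z4p5_4, Z4p5_6, Z4p5_7, Z4p6_0, Z4p6_2,
  Z4p6_3, Z4p6_4, Z4p6_7, Z4p7_0, Z4p7_2, Z4p7_3, Z4p7_4]⟩)) (.node 147 (.leaf ⟨38035601,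
  227273170069444690948, 52657351059266742701896975491689763516991346383287738864643145728, 9233,
  [Z4p0_5, Z4p0_6, Z4p0_7, Z4p1_2, Z4p1_3, Z4p1_4, Z4p3_2, Z4p5_6, Z4p5_7, Z4p6_7]⟩) (.leaf
  ⟨25464977, 1235464217731275978,
  104078947894125862289057342703172245910957931486843764986049462272, 6162, [Z4p0_2, Z4p0_3, Z4p0_4,
  Z4p1_2, Z4p1_3, Z4p1_4, Z4p3_2, Z4p5_0, Z4p5_2, Z4p5_3, Z4p5_4, Z4p6_0, Z4p6_2, Z4p6_3, Z4p6_4,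
  Z4p6_5, Z4p7_0, Z4p7_2, Z4p7_3, Z4p7_4, Z4p7_5, Z4p7_6]⟩))) (.node 150 (.node 149 (.leaf
  ⟨25452689, 115475812919700161543,
  92148857814819144101872241336981383374526551745352440636359114752, 6161, [Z4p0_5, Z4p0_6, Z4p0_7,
  Z4p1_2, Z4p1_3, Z4p1_4, Z4p3_2, Z4p6_5, Z4p7_5, Z4p7_6]⟩) (.leaf ⟨25727121, 1235113473522015434,
  102433418228014584969536114653267502017357072801491014741090893824, 6178, [Z4p0_3, Z4p0_4, Z4p1_3,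
  Z4p1_4, Z4p2_1, Z4p2_3, Z4p2_4, Z4p5_0, Z4p5_3, Z4p5_4, Z4p6_0, Z4p6_3, Z4p6_4, Z4p6_5, Z4p7_0,
  Z4p7_3, Z4p7_4, Z4p7_5, Z4p7_6]⟩)) (.node 151 (.leaf ⟨38310033, 113032470623266544842,
  62941911472462183569560848807975882159821867439426312969374924800, 9250, [Z4p0_3, Z4p0_4, Z4p1_3,
  Z4p1_4, Z4p2_1, Z4p2_3, Z4p2_4, Z4p5_0, Z4p5_3, Z4p5_4, Z4p5_6, Z4p5_7, Z4p6_0, Z4p6_3, Z4p6_4,
  Z4p6_7, Z4p7_0, Z4p7_3, Z4p7_4]⟩) (.leaf ⟨25714833, 115476799181631358983,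
  92148857814819138256445510027402039077713295701809663767624613888, 6177, [Z4p0_5, Z4p0_6, Z4p0_7,
  Z4p1_3, Z4p1_4, Z4p2_1, Z4p2_3, Z4p2_4, Z4p6_5, Z4p7_5, Z4p7_6]⟩)))) (.node 156 (.node 154 (.node
  153 (.leaf ⟨38297745, 227274156331375888389,
  52657351059266736856470244182110419220178090339744961995908644864, 9249, [Z4p0_5, Z4p0_6, Z4p0_7,
  Z4p1_3, Z4p1_4, Z4p2_1, Z4p2_3, Z4p2_4, Z4p5_6, Z4p5_7, Z4p6_7]⟩) (.leaf ⟨38899846,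
  341518097629615033477, 53068733475794909874909399278325192178833015135757196040558674161, 9286,
  [Z4p2_0, Z4p2_1, Z4p2_3, Z4p2_4, Z4p2_5, Z4p2_6, Z4p2_7, Z4p3_0, Z4p3_1, Z4p3_4, Z4p3_5, Z4p3_6,
  Z4p3_7, Z4p5_0, Z4p5_6, Z4p5_7, Z4p6_0, Z4p6_7, Z4p7_0]⟩)) (.node 155 (.leaf ⟨26316934,
  1226109679199915141, 92560240231346983893522536076892274827261691157289210549174861841, 6214,
  [Z4p2_0, Z4p2_1, Z4p2_3, Z4p2_4, Z4p3_0, Z4p3_1, Z4p3_4, Z4p5_0, Z4p6_0, Z4p6_5, Z4p7_0, Z4p7_5,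
  Z4p7_6]⟩) (.leaf ⟨27549970, 343969212373749832901,
  92148857814819490483313250878939680021228582764181583889636065505, 6545, [Z4p0_5, Z4p0_6, Z4p0_7,
  Z4p1_0, Z4p1_2, Z4p1_3, Z4p1_4, Z4p1_5, Z4p1_6, Z4p1_7, Z4p2_0, Z4p2_3, Z4p2_4, Z4p2_5, Z4p2_6,
  Z4p2_7, Z4p3_0, Z4p3_4, Z4p3_5, Z4p3_6, Z4p3_7, Z4p4_0, Z4p4_5, Z4p4_6, Z4p4_7, Z4p6_5, Z4p7_5,
  Z4p7_6]⟩))) (.node 158 (.node 157 (.leaf ⟨27562258, 1227266365430278437,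
  92560240231346980970474669792878017880824394744487671077726584833, 6546, [Z4p1_0, Z4p1_2, Z4p1_3,
  Z4p1_4, Z4p2_0, Z4p2_3, Z4p2_4, Z4p3_0, Z4p3_4, Z4p4_0, Z4p5_0, Z4p6_0, Z4p6_5, Z4p7_0, Z4p7_5,
  Z4p7_6]⟩) (.leaf ⟨40132882, 455766569523494362309,
  52657351059267089083337985033648060163693377402116882117920096481, 9617, [Z4p0_5, Z4p0_6, Z4p0_7,
  Z4p1_0, Z4p1_2, Z4p1_3, Z4p1_4, Z4p1_5, Z4p1_6, Z4p1_7, Z4p2_0, Z4p2_3, Z4p2_4, Z4p2_5, Z4p2_6,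
  Z4p2_7, Z4p3_0, Z4p3_4, Z4p3_5, Z4p3_6, Z4p3_7, Z4p4_0, Z4p4_5, Z4p4_6, Z4p4_7, Z4p5_6, Z4p5_7,
  Z4p6_7]⟩)) (.node 159 (.leaf ⟨40145170, 341519254315845399941,
  53068733475794906951861609217561125522611538650938392834041970913, 9618, [Z4p1_0, Z4p1_2, Z4p1_3,
  Z4p1_4, Z4p1_5, Z4p1_6, Z4p1_7, Z4p2_0, Z4p2_3, Z4p2_4, Z4p2_5, Z4p2_6, Z4p2_7, Z4p3_0, Z4p3_4,
  Z4p3_5, Z4p3_6, Z4p3_7, Z4p4_0, Z4p4_5, Z4p4_6, Z4p4_7, Z4p5_0, Z4p5_6, Z4p5_7, Z4p6_0, Z4p6_7,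
  Z4p7_0]⟩) (.leaf ⟨40147236, 74951482497841863877,
  65410205971629114164684191083487310345404533067170876933638389791, 9618, [Z4p1_2, Z4p1_3, Z4p1_4,
  Z4p2_3, Z4p2_4, Z4p3_4, Z4p5_0, Z4p5_1, Z4p5_2, Z4p5_3, Z4p5_4, Z4p5_6, Z4p5_7, Z4p6_0, Z4p6_1,
  Z4p6_2, Z4p6_3, Z4p6_4, Z4p6_7, Z4p7_0, Z4p7_1, Z4p7_2, Z4p7_3, Z4p7_4]⟩)))))) (.node 176 (.node
  168 (.node 164 (.node 162 (.node 161 (.leaf ⟨38902052, 74950032242001583301,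
  62941911472462183569560848807851267034946232192747904122339524633, 9542, [Z4p1_3, Z4p1_4, Z4p2_1,
  Z4p2_3, Z4p2_4, Z4p5_0, Z4p5_3, Z4p5_4, Z4p5_6, Z4p5_7, Z4p6_0, Z4p6_3, Z4p6_4, Z4p6_7, Z4p7_0,
  Z4p7_3, Z4p7_4]⟩) (.leaf ⟨38900002, 341521472030798612869,
  53068733475794554730011612599225431997096071609779775619498770657, 9542, [Z4p1_0, Z4p1_3, Z4p1_4,
  Z4p1_5, Z4p1_6, Z4p1_7, Z4p2_0, Z4p2_1, Z4p2_3, Z4p2_4, Z4p2_5, Z4p2_6, Z4p2_7, Z4p4_0, Z4p4_5,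
  Z4p4_6, Z4p4_7, Z4p5_0, Z4p5_6, Z4p5_7, Z4p6_0, Z4p6_7, Z4p7_0]⟩)) (.node 163 (.leaf ⟨26317090,
  1229484080383494437, 92560240231346956124991435296796001980711456150725455830000336897, 6470,
  [Z4p1_0, Z4p1_3, Z4p1_4, Z4p2_0, Z4p2_1, Z4p2_3, Z4p2_4, Z4p4_0, Z4p5_0, Z4p6_0, Z4p6_5, Z4p7_0,
  Z4p7_5, Z4p7_6]⟩) (.leaf ⟨38887714, 455768787238447581381,
  52657351059266736861487988415312366638177910360958264903376896225, 9541, [Z4p0_5, Z4p0_6, Z4p0_7,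
  Z4p1_0, Z4p1_3, Z4p1_4, Z4p1_5, Z4p1_6, Z4p1_7, Z4p2_0, Z4p2_1, Z4p2_3, Z4p2_4, Z4p2_5, Z4p2_6,
  Z4p2_7, Z4p4_0, Z4p4_5, Z4p4_6, Z4p4_7, Z4p5_6, Z4p5_7, Z4p6_7]⟩))) (.node 166 (.node 165 (.leaf
  ⟨26304802, 343971430088703051973,
  92148857814819138261463254260603986495713115723022966675092865249, 6469, [Z4p0_5, Z4p0_6, Z4p0_7,
  Z4p1_0, Z4p1_3, Z4p1_4, Z4p1_5, Z4p1_6, Z4p1_7, Z4p2_0, Z4p2_1, Z4p2_3, Z4p2_4, Z4p2_5, Z4p2_6,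
  Z4p2_7, Z4p4_0, Z4p4_5, Z4p4_6, Z4p4_7, Z4p6_5, Z4p7_5, Z4p7_6]⟩) (.leaf ⟨27365666,
  1225016800107957574, 92560240231346989739350685223715940312822615172054609736081866753, 6534,
  [Z4p1_0, Z4p1_4, Z4p2_0, Z4p2_1, Z4p2_4, Z4p3_0, Z4p3_1, Z4p3_2, Z4p3_4, Z4p4_0, Z4p5_0, Z4p6_0,
  Z4p6_5, Z4p7_0, Z4p7_5, Z4p7_6]⟩)) (.node 167 (.leaf ⟨27353378, 382049401257472429286,
  92148857814819499252189266309777602453226803191748523510064021729, 6533, [Z4p0_5, Z4p0_6, Z4p0_7,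
  Z4p1_0, Z4p1_4, Z4p1_5, Z4p1_6, Z4p1_7, Z4p2_0, Z4p2_1, Z4p2_4, Z4p2_5, Z4p2_6, Z4p2_7, Z4p3_0,
  Z4p3_1, Z4p3_2, Z4p3_4, Z4p3_5, Z4p3_6, Z4p3_7, Z4p4_0, Z4p4_5, Z4p4_6, Z4p4_7, Z4p6_5, Z4p7_5,
  Z4p7_6]⟩) (.leaf ⟨39950628, 74939935426723716293,
  59650852140239672774229467923259026344665631835202335590673612817, 9606, [Z4p1_4, Z4p2_1, Z4p2_4,
  Z4p3_1, Z4p3_2, Z4p3_4, Z4p5_0, Z4p5_4, Z4p5_6, Z4p5_7, Z4p6_0, Z4p6_4, Z4p6_7, Z4p7_0,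
  Z4p7_4]⟩)))) (.node 172 (.node 170 (.node 169 (.leaf ⟨39948578, 379599443199567990182,
  53068733475794915720737624648399047954609759078505332454469927137, 9606, [Z4p1_0, Z4p1_4, Z4p1_5,
  Z4p1_6, Z4p1_7, Z4p2_0, Z4p2_1, Z4p2_4, Z4p2_5, Z4p2_6, Z4p2_7, Z4p3_0, Z4p3_1, Z4p3_2, Z4p3_4,
  Z4p3_5, Z4p3_6, Z4p3_7, Z4p4_0, Z4p4_5, Z4p4_6, Z4p4_7, Z4p5_0, Z4p5_6, Z4p5_7, Z4p6_0, Z4p6_7,
  Z4p7_0]⟩) (.leaf ⟨39936290, 493846758407216958694,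
  52657351059267097852214000464485982595691597829683821738348052705, 9605, [Z4p0_5, Z4p0_6, Z4p0_7,
  Z4p1_0, Z4p1_4, Z4p1_5, Z4p1_6, Z4p1_7, Z4p2_0, Z4p2_1, Z4p2_4, Z4p2_5, Z4p2_6, Z4p2_7, Z4p3_0,
  Z4p3_1, Z4p3_2, Z4p3_4, Z4p3_5, Z4p3_6, Z4p3_7, Z4p4_0, Z4p4_5, Z4p4_6, Z4p4_7, Z4p5_6, Z4p5_7,
  Z4p6_7]⟩)) (.node 171 (.leaf ⟨140789857, 1230752881330653284,
  92560240231346956124567716714353150168822252737926842587616968705, 33937, [Z4p1_2, Z4p1_3, Z4p2_3,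
  Z4p4_0, Z4p4_1, Z4p4_2, Z4p4_3, Z4p5_0, Z4p6_0, Z4p6_5, Z4p7_0, Z4p7_5, Z4p7_6]⟩) (.leaf
  ⟨140003473, 1225016800107957254,
  92560240231346989739350685223715940312822615172054609736082980865, 33889, [Z4p1_0, Z4p1_4, Z4p2_0,
  Z4p2_1, Z4p2_4, Z4p3_0, Z4p3_1, Z4p3_2, Z4p3_4, Z4p4_0, Z4p5_0, Z4p6_0, Z4p6_5, Z4p7_0, Z4p7_5,
  Z4p7_6]⟩))) (.node 174 (.node 173 (.leaf ⟨140003864, 1227341025815598279,
  92560240231346964893443732145191072600820473147046755559846969344, 34401, [Z4p2_1, Z4p3_1, Z4p3_2,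
  Z4p4_1, Z4p4_2, Z4p4_3, Z4p5_0, Z4p6_0, Z4p6_5, Z4p7_0, Z4p7_5, Z4p7_6]⟩) (.leaf ⟨139610648,
  1230752810396584135, 92560240231346956124567716714353150168822252719479817034635673600, 34377,
  [Z4p1_2, Z4p1_3, Z4p2_3, Z4p4_1, Z4p4_2, Z4p4_3, Z4p5_0, Z4p6_0, Z4p6_5, Z4p7_0, Z4p7_5,
  Z4p7_6]⟩)) (.node 175 (.leaf ⟨139610257, 1229590803947619335,
  92560240231346980970474669792878017880824394744487671210872602625, 33865, [Z4p1_0, Z4p1_2, Z4p1_3,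
  Z4p1_4, Z4p2_0, Z4p2_3, Z4p2_4, Z4p3_0, Z4p3_4, Z4p4_0, Z4p5_0, Z4p6_0, Z4p6_5, Z4p7_0, Z4p7_5,
  Z4p7_6]⟩) (.leaf ⟨140593249, 1227341203150771399,
  92560240231346966354967670561574888348585305063424056562034999297, 33925, [Z4p1_0, Z4p2_0, Z4p2_1,
  Z4p3_0, Z4p3_1, Z4p3_2, Z4p4_0, Z4p4_1, Z4p4_2, Z4p4_3, Z4p5_0, Z4p6_0, Z4p6_5, Z4p7_0, Z4p7_5,
  Z4p7_6]⟩))))) (.node 184 (.node 180 (.node 178 (.node 177 (.leaf ⟨138823825, 1228503280543400964,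
  92560240231346964893443732145191072600820472907243867809372897281, 33817, [Z4p2_1, Z4p3_1, Z4p3_2,
  Z4p4_0, Z4p5_0, Z4p6_0, Z4p6_5, Z4p7_0, Z4p7_5, Z4p7_6]⟩) (.leaf ⟨139020385, 1227266400893112486,
  92560240231346957586091655130736965916587084377598760295086489601, 33829, [Z4p1_0, Z4p1_2, Z4p1_3,
  Z4p2_0, Z4p2_3, Z4p3_0, Z4p4_0, Z4p5_0, Z4p6_0, Z4p6_5, Z4p7_0, Z4p7_5, Z4p7_6]⟩)) (.node 179
  (.leaf ⟨138692705, 1225123381796440164,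
  92560240231346966354900769346826397241976088151153729409101398017, 33809, [Z4p1_2, Z4p3_0, Z4p3_1,
  Z4p3_2, Z4p4_0, Z4p4_1, Z4p4_2, Z4p5_0, Z4p6_0, Z4p6_5, Z4p7_0, Z4p7_5, Z4p7_6]⟩) (.leaf
  ⟨138954849, 1226109679193623685,
  92560240231346960509139526859269093598039796259734250822939246593, 33825, [Z4p2_0, Z4p2_1, Z4p2_3,
  Z4p3_0, Z4p3_1, Z4p4_0, Z4p4_1, Z4p5_0, Z4p6_0, Z4p6_5, Z4p7_0, Z4p7_5, Z4p7_6]⟩))) (.node 182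
  (.node 181 (.leaf ⟨138692753, 1228497782985262084,
  92560240231346961970395865861176815654383176475995584337230495745, 33809, [Z4p1_0, Z4p1_2, Z4p1_3,
  Z4p1_4, Z4p3_2, Z4p4_0, Z4p5_0, Z4p6_0, Z4p6_5, Z4p7_0, Z4p7_5, Z4p7_6]⟩) (.leaf ⟨138954897,
  1229484080383494149, 92560240231346956124991435296796001980711456150725455830001975297, 33825,
  [Z4p1_0, Z4p1_3, Z4p1_4, Z4p2_0, Z4p2_1, Z4p2_3, Z4p2_4, Z4p4_0, Z4p5_0, Z4p6_0, Z4p6_5, Z4p7_0,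
  Z4p7_5, Z4p7_6]⟩)) (.node 183 (.leaf ⟨140806436, 1235401583151618212,
  104901712727181515564659456928778927747137499870634790240626081823, 34194, [Z4p1_2, Z4p1_3,
  Z4p1_4, Z4p2_3, Z4p2_4, Z4p3_4, Z4p5_0, Z4p5_1, Z4p5_2, Z4p5_3, Z4p5_4, Z4p6_0, Z4p6_1, Z4p6_2,
  Z4p6_3, Z4p6_4, Z4p6_5, Z4p7_0, Z4p7_1, Z4p7_2, Z4p7_3, Z4p7_4, Z4p7_5, Z4p7_6]⟩) (.leaf
  ⟨139561252, 1233987611195054244,
  102433418228014584969536114653142884912048174081797842990590918681, 34118, [Z4p1_3, Z4p1_4,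
  Z4p2_1, Z4p2_3, Z4p2_4, Z4p5_0, Z4p5_3, Z4p5_4, Z4p6_0, Z4p6_3, Z4p6_4, Z4p6_5, Z4p7_0, Z4p7_3,
  Z4p7_4, Z4p7_5, Z4p7_6]⟩)))) (.node 188 (.node 186 (.node 185 (.leaf ⟨140609828,
  1225016695824029860, 99142358895792074174204733768550644855592873838366975207276609553, 34182,
  [Z4p1_4, Z4p2_1, Z4p2_4, Z4p3_1, Z4p3_2, Z4p3_4, Z4p5_0, Z4p5_4, Z4p6_0, Z4p6_4, Z4p6_5, Z4p7_0,
  Z4p7_4, Z4p7_5, Z4p7_6]⟩) (.leaf ⟨35952932, 37048025814633093284,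
  78574443276095138274890061325838197875024187103614033301094727711, 8594, [Z4p1_2, Z4p1_3, Z4p1_4,
  Z4p2_3, Z4p2_4, Z4p3_4, Z4p6_0, Z4p6_1, Z4p6_2, Z4p6_3, Z4p6_4, Z4p6_5, Z4p6_7, Z4p7_0, Z4p7_1,
  Z4p7_2, Z4p7_3, Z4p7_4, Z4p7_5]⟩)) (.node 187 (.leaf ⟨34707748, 37046611842676529316,
  76106148777502893507591427372086534699747252173048087660614713369, 8518, [Z4p1_3, Z4p1_4, Z4p2_1,
  Z4p2_3, Z4p2_4, Z4p6_0, Z4p6_3, Z4p6_4, Z4p6_5, Z4p6_7, Z4p7_0, Z4p7_3, Z4p7_4, Z4p7_5]⟩) (.leaf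
  ⟨35756324, 37037640927305504932,
  72815089446046630482692990916673467523041806407311888690040602641, 8582, [Z4p1_4, Z4p2_1, Z4p2_4,
  Z4p3_1, Z4p3_2, Z4p3_4, Z4p6_0, Z4p6_4, Z4p6_5, Z4p6_7, Z4p7_0, Z4p7_4, Z4p7_5]⟩))) (.node 190
  (.node 189 (.leaf ⟨73687137, 37151463405118326887,
  65821588366701971076702356589571711102874375313566758027663572992, 17553, [Z4p0_5, Z4p1_2, Z4p1_3,
  Z4p2_3, Z4p4_0, Z4p4_1, Z4p4_2, Z4p4_3, Z4p4_5, Z4p6_5, Z4p6_7, Z4p7_5]⟩) (.leaf ⟨72900753,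
  37037640755503565830, 65821588366702003229961386682550685499109905241012406478542274560, 17505,
  [Z4p0_5, Z4p1_4, Z4p2_1, Z4p2_4, Z4p3_1, Z4p3_2, Z4p3_4, Z4p6_5, Z4p6_7, Z4p7_5]⟩)) (.node 191
  (.leaf ⟨72901137, 37045776042037553156,
  78163060859663086762163555963428229834872785226671517772082511902, 18017, [Z4p0_1, Z4p0_2, Z4p0_3,
  Z4p0_4, Z4p0_5, Z4p2_1, Z4p3_1, Z4p3_2, Z4p4_1, Z4p4_2, Z4p4_3, Z4p6_1, Z4p6_2, Z4p6_3, Z4p6_4,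
  Z4p6_5, Z4p6_7, Z4p7_1, Z4p7_2, Z4p7_3, Z4p7_4, Z4p7_5]⟩) (.leaf ⟨72507921, 37049187826618539012,
  78163060859663077993287540532590307402874564799104579246871216158, 17993, [Z4p0_1, Z4p0_2, Z4p0_3,
  Z4p0_4, Z4p0_5, Z4p1_2, Z4p1_3, Z4p2_3, Z4p4_1, Z4p4_2, Z4p4_3, Z4p6_1, Z4p6_2, Z4p6_3, Z4p6_4,
  Z4p6_5, Z4p6_7, Z4p7_1, Z4p7_2, Z4p7_3, Z4p7_4, Z4p7_5]⟩))))))

def Z4T4 : Tr :=
  .node 197 (.node 194 (.node 193 (.leaf ⟨72507537, 37042214723876193287,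
  65821588366701994461085371251712763067111684813445467953331896320, 17481, [Z4p0_5, Z4p1_2, Z4p1_3,
  Z4p1_4, Z4p2_3, Z4p2_4, Z4p3_4, Z4p6_5, Z4p6_7, Z4p7_5]⟩) (.leaf ⟨73490529, 37256138117995336906,
  65821588366702028075868339761075553211112048372832786376697118720, 17541, [Z4p0_5, Z4p1_0, Z4p1_5,
  Z4p2_0, Z4p2_1, Z4p2_5, Z4p3_0, Z4p3_1, Z4p3_2, Z4p3_5, Z4p4_0, Z4p4_1, Z4p4_2, Z4p4_3, Z4p4_5,
  Z4p6_5, Z4p6_7, Z4p7_5]⟩)) (.node 195 (.leaf ⟨71917665, 37220034518718714025,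
  65821588366702019306992324330237630779113827687007490109748609024, 17445, [Z4p0_5, Z4p1_0, Z4p1_2,
  Z4p1_3, Z4p1_5, Z4p2_0, Z4p2_3, Z4p2_5, Z4p3_0, Z4p3_5, Z4p4_0, Z4p4_5, Z4p6_5, Z4p6_7, Z4p7_5]⟩)
  (.node 196 (.leaf ⟨71721105, 37041127306873078788,
  65821588366701979845578372020409633534872594874131940001038925824, 17433, [Z4p0_5, Z4p2_1, Z4p3_1,
  Z4p3_2, Z4p6_5, Z4p6_7, Z4p7_5]⟩) (.leaf ⟨71589985, 37145833905584113767,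
  65821588366702028075087803810938340693942857647850273838989377536, 17425, [Z4p0_5, Z4p1_2, Z4p3_0,
  Z4p3_1, Z4p3_2, Z4p3_5, Z4p4_0, Z4p4_1, Z4p4_2, Z4p4_5, Z4p6_5, Z4p6_7, Z4p7_5]⟩)))) (.node 199
  (.node 198 (.leaf ⟨71852129, 37182849000000261256,
  65821588366702022230040185169734016990535708741155542821018599424, 17441, [Z4p0_5, Z4p2_0, Z4p2_1,
  Z4p2_3, Z4p2_5, Z4p3_0, Z4p3_1, Z4p3_5, Z4p4_0, Z4p4_1, Z4p4_5, Z4p6_5, Z4p6_7, Z4p7_5]⟩) (.leaf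
  ⟨71590033, 37041121809314939908,
  65821588366701976922530505396113009667496834979509049097128312832, 17425, [Z4p0_5, Z4p1_2, Z4p1_3,
  Z4p1_4, Z4p3_2, Z4p6_5, Z4p6_7, Z4p7_5]⟩)) (.node 200 (.leaf ⟨71852177, 37042108071246137349,
  65821588366701971077103774086533665370683578935966272228393811968, 17441, [Z4p0_5, Z4p1_3, Z4p1_4,
  Z4p2_1, Z4p2_3, Z4p2_4, Z4p6_5, Z4p6_7, Z4p7_5]⟩) (.node 201 (.leaf ⟨18376216,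
  381619379785774961863, 78984620507384193416882754001384292418824346662443274899724173504, 4705,
  [Z4p0_6, Z4p0_7, Z4p1_6, Z4p1_7, Z4p2_1, Z4p2_6, Z4p2_7, Z4p3_1, Z4p3_2, Z4p3_6, Z4p3_7, Z4p4_1,
  Z4p4_2, Z4p4_3, Z4p4_6, Z4p4_7, Z4p5_6, Z4p5_7, Z4p7_6]⟩) (.leaf ⟨17983000, 267483562610956208228,
  78984620507383904035410562624853746415978401832263450126819786944, 4681, [Z4p0_6, Z4p0_7, Z4p1_2,
  Z4p1_3, Z4p2_3, Z4p4_1, Z4p4_2, Z4p4_3, Z4p4_6, Z4p4_7, Z4p5_6, Z4p5_7, Z4p7_6]⟩))))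

/-- The table of Z4. -/
def Z4T : Tr :=
  (.node 128 (.node 64 Z4T1 Z4T2) (.node 192 Z4T3 Z4T4))

theorem Z4T1_ok : Z4T1.all (qEntry (Z4).t Z4ie Z4te) = true := by
  decide +kernel

theorem Z4T2_ok : Z4T2.all (qEntry (Z4).t Z4ie Z4te) = true := by
  decide +kernel

theorem Z4T3_ok : Z4T3.all (qEntry (Z4).t Z4ie Z4te) = true := by
  decide +kernel

theorem Z4T4_ok : Z4T4.all (qEntry (Z4).t Z4ie Z4te) = true := by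
  decide +kernel

theorem Z4T_ok : Z4T.all (qEntry (Z4).t Z4ie Z4te) = true :=
  (Tr.all_node (Tr.all_node Z4T1_ok Z4T2_ok) (Tr.all_node Z4T3_ok Z4T4_ok))

end Pool.Agent.T1Red
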